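import Pool.Agent.Lib.G3.Defs

/-!
# G3, row BF: facts on `bt`

A product `p m r` with `p` prime in `(P, 2P]`, `r` prime in `(R, 2R]` and `a m ≠ 0` determines `p`,
`m`, `r`.
-/

set_option autoImplicit false

open Finset

namespace Pool.Agent.Lib.G3

open Pool.Agent.Lib.MRT (cj kap)
open Pool.Agent.Lib.GT (e)

theorem bf_mem_pr {P n : ℕ} : n ∈ pr P ↔ (P < n ∧ n ≤ 2 * P) ∧ n.Prime := by
  rw [pr, mem_filter, mem_Ioc]

/-- uniqueness of `r`, for products `m r` -/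
theorem bf_uniq_r {a : ℕ → ℂ} {P R M : ℕ} (ha : Good a P R M) {m m' r r' : ℕ}
    (hm' : a m' ≠ 0) (hr : r ∈ pr R) (hr' : r' ∈ pr R) (h : m * r = m' * r') : r = r' := by
  obtain ⟨⟨h1, h2⟩, h3⟩ := bf_mem_pr.1 hr
  obtain ⟨⟨h1', h2'⟩, h3'⟩ := bf_mem_pr.1 hr'
  have h4 : r ∣ m' * r' := h ▸ Dvd.intro_left m rfl
  rcases (h3.dvd_mul).1 h4 with h5 | h5
  · have := (ha.rough m' hm' r h3 h5).2
    omega
  · exact (Nat.prime_dvd_prime_iff_eq h3 h3').1 h5

/-- uniqueness of `p` -/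
theorem bf_uniq_p {a : ℕ → ℂ} {P R M : ℕ} (ha : Good a P R M) (hPR : 2 * P ≤ R) {p p' m m' r r' : ℕ}
    (hm' : a m' ≠ 0) (hp : p ∈ pr P) (hp' : p' ∈ pr P) (hr' : r' ∈ pr R)
    (h : p * m * r = p' * m' * r') : p = p' := by
  obtain ⟨⟨h1, h2⟩, h3⟩ := bf_mem_pr.1 hp
  obtain ⟨⟨h1', h2'⟩, h3'⟩ := bf_mem_pr.1 hp'
  obtain ⟨⟨h1'', h2''⟩, h3''⟩ := bf_mem_pr.1 hr'
  have h4 : p ∣ p' * m' * r' := h ▸ ⟨m * r, by ring⟩
  rcases (h3.dvd_mul).1 h4 with h5 | h5
  · rcases (h3.dvd_mul).1 h5 with h6 | h6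
    · exact (Nat.prime_dvd_prime_iff_eq h3 h3').1 h6
    · have := (ha.rough m' hm' p h3 h6).1
      omega
  · have := (Nat.prime_dvd_prime_iff_eq h3 h3'').1 h5
    omega

/-- the sum in `b` in the bilinear form -/
noncomputable def bfb (a : ℕ → ℂ) (R M k : ℕ) : ℂ :=
  ∑ r ∈ pr R, ∑ m ∈ Ioc M (2 * M), if m * r = k then a m else 0

theorem bfb_cases {a : ℕ → ℂ} {P R M : ℕ} (ha : Good a P R M) (k : ℕ) :
    bfb a R M k = 0 ∨ ∃ r ∈ pr R, ∃ m ∈ Ioc M (2 * M), a m ≠ 0 ∧ m * r = k ∧ bfb a R M k = a m := by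
  by_cases hex : ∃ r ∈ pr R, ∃ m ∈ Ioc M (2 * M), a m ≠ 0 ∧ m * r = k
  · obtain ⟨r, hr, m, hm, ham, hk⟩ := hex
    right
    refine ⟨r, hr, m, hm, ham, hk, ?_⟩
    have hr0 : 0 < r := (bf_mem_pr.1 hr).2.pos
    rw [bfb, sum_eq_single r, sum_eq_single m]
    · rw [if_pos hk]
    · intro m' _ hne
      refine if_neg fun h => hne ?_
      exact Nat.eq_of_mul_eq_mul_right hr0 (h.trans hk.symm)
    · intro h; exact absurd hm h
    · intro r' hr' hne
      refine sum_eq_zero fun m' _ => ?_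
      by_cases h : m' * r' = k
      · by_cases ham' : a m' = 0
        · rw [ham', ite_self]
        · exact absurd (bf_uniq_r ha ham hr' hr (h.trans hk.symm)) hne
      · exact if_neg h
    · intro h; exact absurd hr h
  · left
    push Not at hex
    rw [bfb]
    refine sum_eq_zero fun r hr => sum_eq_zero fun m hm => ?_
    by_cases h : m * r = k
    · by_cases ham : a m = 0
      · rw [ham, ite_self]
      · exact absurd h (hex r hr m hm ham)
    · exact if_neg h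

theorem bfb_le {a : ℕ → ℂ} {P R M : ℕ} (ha : Good a P R M) (k : ℕ) : ‖bfb a R M k‖ ≤ 1 := by
  rcases bfb_cases ha k with h | ⟨r, -, m, -, -, -, h⟩
  · rw [h, norm_zero]; exact zero_le_one
  · rw [h]; exact ha.le m

/-- the triple of a product -/
theorem bf_cases {a : ℕ → ℂ} {P R M : ℕ} (ha : Good a P R M) (hPR : 2 * P ≤ R) (n : ℕ) :
    bt a P R M n = 0 ∨ ∃ p ∈ pr P, ∃ r ∈ pr R, ∃ m ∈ Ioc M (2 * M), a m ≠ 0 ∧ p * m * r = n ∧
      bt a P R M n = a m := by
  by_cases hex : ∃ p ∈ pr P, ∃ r ∈ pr R, ∃ m ∈ Ioc M (2 * M), a m ≠ 0 ∧ p * m * r = n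
  · obtain ⟨p, hp, r, hr, m, hm, ham, hk⟩ := hex
    right
    refine ⟨p, hp, r, hr, m, hm, ham, hk, ?_⟩
    have hr0 : 0 < r := (bf_mem_pr.1 hr).2.pos
    have hp0 : 0 < p := (bf_mem_pr.1 hp).2.pos
    rw [bt, sum_eq_single p, sum_eq_single r, sum_eq_single m]
    · rw [if_pos hk]
    · intro m' _ hne
      refine if_neg fun h => hne ?_
      exact Nat.eq_of_mul_eq_mul_left hp0 (Nat.eq_of_mul_eq_mul_right hr0 (h.trans hk.symm))
    · intro h; exact absurd hm h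
    · intro r' hr' hne
      refine sum_eq_zero fun m' _ => ?_
      by_cases h : p * m' * r' = n
      · exfalso
        have h1 : m' * r' = m * r := by
          have h2 : p * (m' * r') = p * (m * r) := by
            rw [← mul_assoc, ← mul_assoc]
            exact h.trans hk.symm
          exact Nat.eq_of_mul_eq_mul_left hp0 h2
        exact hne (bf_uniq_r ha ham hr' hr h1)
      · exact if_neg h
    · intro h; exact absurd hr h
    · intro p' hp' hne
      refine sum_eq_zero fun r' hr' => sum_eq_zero fun m' _ => ?_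
      by_cases h : p' * m' * r' = n
      · exact absurd (bf_uniq_p ha hPR ham hp' hp hr (h.trans hk.symm)) hne
      · exact if_neg h
    · intro h; exact absurd hp h
  · left
    push Not at hex
    rw [bt]
    refine sum_eq_zero fun p hp => sum_eq_zero fun r hr => sum_eq_zero fun m hm => ?_
    by_cases h : p * m * r = n
    · by_cases ham : a m = 0
      · rw [ham, ite_self]
      · exact absurd h (hex p hp r hr m hm ham)
    · exact if_neg h

theorem bt_le {a : ℕ → ℂ} {P R M : ℕ} (ha : Good a P R M) (hPR : 2 * P ≤ R) (n : ℕ) : ‖bt a P R M n‖ ≤ 1 := by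
  rcases bf_cases ha hPR n with h | ⟨p, -, r, -, m, -, -, -, h⟩
  · rw [h, norm_zero]; exact zero_le_one
  · rw [h]; exact ha.le m

/-- the size of a product -/
theorem bf_size {P R M p m r : ℕ} (hp : p ∈ pr P) (hr : r ∈ pr R) (hm : m ∈ Ioc M (2 * M)) :
    P * M * R < p * m * r ∧ p * m * r ≤ 8 * (P * M * R) := by
  obtain ⟨⟨h1, h2⟩, -⟩ := bf_mem_pr.1 hp
  obtain ⟨⟨h3, h4⟩, -⟩ := bf_mem_pr.1 hr
  obtain ⟨h5, h6⟩ := mem_Ioc.1 hm
  constructor
  · have h7 : P * M < p * m := Nat.mul_lt_mul'' h1 h5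
    exact Nat.mul_lt_mul'' h7 h3
  · calc p * m * r ≤ (2 * P) * (2 * M) * (2 * R) := Nat.mul_le_mul (Nat.mul_le_mul h2 h6) h4
      _ = 8 * (P * M * R) := by ring

theorem bt_supp {a : ℕ → ℂ} {P R M : ℕ} (ha : Good a P R M) (hPR : 2 * P ≤ R) {n : ℕ} (hn : bt a P R M n ≠ 0) :
    P * M * R < n ∧ n ≤ 8 * (P * M * R) ∧ ∀ p : ℕ, p.Prime → p ∣ n → P < p := by
  rcases bf_cases ha hPR n with h | ⟨p, hp, r, hr, m, hm, ham, hk, -⟩
  · exact absurd h hn
  · obtain ⟨h1, h2⟩ := bf_size hp hr hm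
    rw [hk] at h1 h2
    refine ⟨h1, h2, fun l hl hln => ?_⟩
    obtain ⟨⟨h3, h4⟩, h5⟩ := bf_mem_pr.1 hp
    obtain ⟨⟨h6, h7⟩, h8⟩ := bf_mem_pr.1 hr
    rw [← hk] at hln
    rcases (hl.dvd_mul).1 hln with h9 | h9
    · rcases (hl.dvd_mul).1 h9 with h10 | h10
      · rw [(Nat.prime_dvd_prime_iff_eq hl h5).1 h10]
        exact h3
      · have := (ha.rough m ham l hl h10).1
        omega
    · rw [(Nat.prime_dvd_prime_iff_eq hl h8).1 h9]
      omega

/-- sums over `bt` -/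
theorem bf_sum_mul {a : ℕ → ℂ} {P R M X : ℕ} (hX : 8 * (P * M * R) ≤ X) (g : ℕ → ℂ) :
    ∑ n ∈ Icc 1 X, bt a P R M n * g n =
      ∑ p ∈ pr P, ∑ r ∈ pr R, ∑ m ∈ Ioc M (2 * M), a m * g (p * m * r) := by
  have h1 : ∀ n, bt a P R M n * g n = ∑ p ∈ pr P, ∑ r ∈ pr R, ∑ m ∈ Ioc M (2 * M),
      if p * m * r = n then a m * g n else 0 := by
    intro n
    rw [bt, sum_mul]
    refine sum_congr rfl fun p _ => ?_
    rw [sum_mul]
    refine sum_congr rfl fun r _ => ?_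
    rw [sum_mul]
    refine sum_congr rfl fun m _ => ?_
    rw [ite_mul, zero_mul]
  simp only [h1]
  rw [sum_comm]
  refine sum_congr rfl fun p hp => ?_
  rw [sum_comm]
  refine sum_congr rfl fun r hr => ?_
  rw [sum_comm]
  refine sum_congr rfl fun m hm => ?_
  obtain ⟨h2, h3⟩ := bf_size hp hr hm
  rw [sum_ite_eq, if_pos]
  exact mem_Icc.2 ⟨by omega, h3.trans hX⟩

theorem bt_bc {a : ℕ → ℂ} {P R M X : ℕ} (ha : Good a P R M) (hX : 8 * (P * M * R) ≤ X) {q : ℕ}
    (χ : DirichletCharacter ℂ q) (j : ℤ) :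
    bc (bt a P R M) X χ j =
      RR χ P j * (∑ m ∈ Ioc M (2 * M), a m * χ (m : ZMod q) * cj j m) * RR χ R j := by
  have h1 : bc (bt a P R M) X χ j =
      ∑ n ∈ Icc 1 X, bt a P R M n * (χ (n : ZMod q) * cj j n) := by
    rw [bc]
    refine sum_congr rfl fun n _ => ?_
    rw [mul_assoc]
  rw [h1, bf_sum_mul hX, RR, RR, mul_assoc, sum_mul]
  refine sum_congr rfl fun p hp => ?_
  rw [mul_comm (∑ m ∈ Ioc M (2 * M), a m * χ (m : ZMod q) * cj j m), sum_mul, mul_sum]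
  refine sum_congr rfl fun r hr => ?_
  rw [mul_sum, mul_sum]
  refine sum_congr rfl fun m hm => ?_
  have hp0 : p ≠ 0 := (bf_mem_pr.1 hp).2.ne_zero
  have hr0 : r ≠ 0 := (bf_mem_pr.1 hr).2.ne_zero
  have hm0 : m ≠ 0 := by have := (mem_Ioc.1 hm).1; omega
  rw [Pool.Agent.Lib.MRT.cj_mul j (mul_ne_zero hp0 hm0) hr0, Pool.Agent.Lib.MRT.cj_mul j hp0 hm0]
  push_cast
  rw [map_mul, map_mul]
  ring

theorem bt_bil {a : ℕ → ℂ} {P R M : ℕ} (ha : Good a P R M) (hPR : 2 * P ≤ R) : ∃ c b : ℕ → ℂ, (∀ n, ‖c n‖ ≤ 1) ∧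
    (∀ n, ‖b n‖ ≤ 1) ∧ ∀ n, bt a P R M n = ∑ p ∈ Ioc P (2 * P), ∑ m ∈ Icc 1 (4 * (M * R)), if p * m = n then c p * b m else 0 := by
  refine ⟨fun p => if p.Prime then 1 else 0, bfb a R M, fun n => ?_, bfb_le ha, fun n => ?_⟩
  · simp only
    split_ifs
    · rw [norm_one]
    · rw [norm_zero]; exact zero_le_one
  · rw [bt, pr, sum_filter]
    refine sum_congr rfl fun p hp => ?_
    by_cases hpp : p.Prime
    · rw [if_pos hpp]
      have hp0 : 0 < p := hpp.pos
      simp only [if_pos hpp, one_mul]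
      have h1 : ∀ k, (if p * k = n then bfb a R M k else 0) =
          ∑ r ∈ pr R, ∑ m ∈ Ioc M (2 * M), if m * r = k then (if p * m * r = n then a m else 0) else 0 := by
        intro k
        rw [bfb]
        by_cases hk : p * k = n
        · rw [if_pos hk]
          refine sum_congr rfl fun r _ => sum_congr rfl fun m _ => ?_
          by_cases hmr : m * r = k
          · rw [if_pos hmr, if_pos hmr, if_pos]
            rw [mul_assoc, hmr, hk]
          · rw [if_neg hmr, if_neg hmr]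
        · rw [if_neg hk]
          symm
          refine sum_eq_zero fun r _ => sum_eq_zero fun m _ => ?_
          by_cases hmr : m * r = k
          · rw [if_pos hmr, if_neg]
            rw [mul_assoc, hmr]
            exact hk
          · rw [if_neg hmr]
      simp only [h1]
      symm
      rw [sum_comm]
      refine sum_congr rfl fun r hr => ?_
      rw [sum_comm]
      refine sum_congr rfl fun m hm => ?_
      rw [sum_ite_eq, if_pos]
      obtain ⟨⟨h3, h4⟩, -⟩ := bf_mem_pr.1 hr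
      obtain ⟨h5, h6⟩ := mem_Ioc.1 hm
      rw [mem_Icc]
      constructor
      · exact Nat.mul_pos (by omega) (by omega)
      · calc m * r ≤ (2 * M) * (2 * R) := Nat.mul_le_mul h6 h4
          _ = 4 * (M * R) := by ring
    · rw [if_neg hpp]
      symm
      refine sum_eq_zero fun m _ => ?_
      simp only [if_neg hpp, zero_mul, ite_self]

theorem bt_sum {a : ℕ → ℂ} {P R M X : ℕ} (hX : 8 * (P * M * R) ≤ X) :
    ∑ n ∈ Icc 1 X, bt a P R M n = (pr P).card * (∑ m ∈ Ioc M (2 * M), a m) * (pr R).card := by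
  have h1 := bf_sum_mul (a := a) hX (fun _ => 1)
  simp only [mul_one] at h1
  rw [h1, sum_const, sum_const, nsmul_eq_mul, nsmul_eq_mul]
  ring

end Pool.Agent.Lib.G3
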