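import Pool.Agent.Lib.G3.Defs2
import Pool.Agent.Lib.G3.Btf
import Pool.Agent.Lib.DN.Pnt

/-!
# G3, row AB: the middle variable `aa`, and the number of primes of `(P, 2P]`
-/

set_option autoImplicit false

open Finset

namespace Pool.Agent.Lib.G3

private theorem ab_prop {k P R M m : ℕ} (h : aa k P R M m ≠ 0) :
    (M < m ∧ m ≤ 2 * M ∧ Squarefree m ∧ m.primeFactors.card = k - 2 ∧
      ∀ p : ℕ, p.Prime → p ∣ m → 2 * P < p ∧ (p ≤ R ∨ 2 * R < p)) ∧ aa k P R M m = 1 := by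
  unfold aa at h ⊢
  split_ifs at h ⊢ with h1
  · exact ⟨h1, rfl⟩
  · exact absurd rfl h

theorem aa_good (k P R M : ℕ) : Good (aa k P R M) P R M where
  le m := by
    by_cases h : aa k P R M m = 0
    · rw [h, norm_zero]; exact zero_le_one
    · rw [(ab_prop h).2, norm_one]
  supp m h := ⟨(ab_prop h).1.1, (ab_prop h).1.2.1⟩
  rough m h := (ab_prop h).1.2.2.2.2

theorem aa_bt {k : ℕ} (hk : 3 ≤ k) {P R M n : ℕ} (hPR : 2 * P ≤ R) (h : bt (aa k P R M) P R M n ≠ 0) :
    bt (aa k P R M) P R M n = 1 ∧ Squarefree n ∧ n.primeFactors.card = k := by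
  rcases bf_cases (aa_good k P R M) hPR n with h0 | ⟨p, hp, r, hr, m, -, ham, hn, hb⟩
  · exact absurd h0 h
  obtain ⟨⟨-, -, hsq, hcard, hro⟩, h1⟩ := ab_prop ham
  obtain ⟨⟨hp1, hp2⟩, hpp⟩ := bf_mem_pr.1 hp
  obtain ⟨⟨hr1, hr2⟩, hrp⟩ := bf_mem_pr.1 hr
  have hpm : ¬ p ∣ m := fun hd => by have := (hro p hpp hd).1; omega
  have hrm : ¬ r ∣ m := fun hd => by have := (hro r hrp hd).2; omega
  have hpr : p ≠ r := by omega
  have hm0 : m ≠ 0 := hsq.ne_zero
  have c1 : Nat.Coprime p m := (Nat.Prime.coprime_iff_not_dvd hpp).2 hpm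
  have c2 : Nat.Coprime p r := (Nat.coprime_primes hpp hrp).2 hpr
  have c3 : Nat.Coprime m r := ((Nat.Prime.coprime_iff_not_dvd hrp).2 hrm).symm
  have c4 : Nat.Coprime (p * m) r := Nat.Coprime.mul_left c2 c3
  refine ⟨hb.trans h1, ?_, ?_⟩
  · rw [← hn, Nat.squarefree_mul_iff, Nat.squarefree_mul_iff]
    exact ⟨c4, ⟨c1, hpp.squarefree, hsq⟩, hrp.squarefree⟩
  · rw [← hn, Nat.Coprime.primeFactors_mul c4, card_union_of_disjoint c4.disjoint_primeFactors,
      Nat.Coprime.primeFactors_mul c1, card_union_of_disjoint c1.disjoint_primeFactors,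
      hpp.primeFactors, hrp.primeFactors, card_singleton, card_singleton, hcard]
    omega

theorem pr_card : ∃ x0 : ℝ, ∀ P : ℕ, x0 ≤ P → (P : ℝ) / (2 * Real.log P) ≤ (pr P).card := by
  obtain ⟨C, hC, hθ⟩ := Pool.Agent.Lib.DN.pnt_theta
  set L0 : ℝ := 2 + 24 * C with hL0
  refine ⟨max 3 (Real.exp L0), fun P hP => ?_⟩
  have hP3 : (3 : ℝ) ≤ P := (le_max_left _ _).trans hP
  have hP0 : (0 : ℝ) < P := by linarith
  have hPL : L0 ≤ Real.log P := by
    rw [Real.le_log_iff_exp_le hP0]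
    exact (le_max_right _ _).trans hP
  set L := Real.log P with hL
  have hL2 : 2 ≤ L := by linarith
  have h1 := abs_le.1 (hθ P (by linarith))
  have h2 := abs_le.1 (hθ (2 * P) (by linarith))
  have hlog2 : Real.log (2 * P) ≤ L + 1 := by
    rw [Real.log_mul two_ne_zero hP0.ne']
    have := Real.log_two_lt_d9
    linarith
  have hlogm : L ≤ Real.log (2 * P) := by
    rw [hL]
    exact Real.log_le_log hP0 (by linarith)
  rw [Nat.floor_natCast] at h1
  have e2 : ⌊(2 : ℝ) * P⌋₊ = 2 * P := by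
    have : ((2 * P : ℕ) : ℝ) = 2 * P := by push_cast; ring
    rw [← this, Nat.floor_natCast]
  rw [e2] at h2
  -- the difference of the two sums
  have hd : ∑ n ∈ (Icc 1 (2 * P)).filter Nat.Prime, Real.log n =
      ∑ n ∈ (Icc 1 P).filter Nat.Prime, Real.log n + ∑ n ∈ pr P, Real.log n := by
    rw [← sum_union]
    · refine sum_congr ?_ fun _ _ => rfl
      ext n
      simp only [pr, mem_union, mem_filter, mem_Icc, mem_Ioc]
      constructor
      · rintro ⟨⟨a, b⟩, c⟩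
        rcases le_or_gt n P with h | h
        · exact Or.inl ⟨⟨a, h⟩, c⟩
        · exact Or.inr ⟨⟨h, b⟩, c⟩
      · rintro (⟨⟨a, b⟩, c⟩ | ⟨⟨a, b⟩, c⟩)
        · exact ⟨⟨a, by omega⟩, c⟩
        · exact ⟨⟨by omega, b⟩, c⟩
    · rw [disjoint_left]
      intro n hn hn'
      rw [mem_filter, mem_Icc] at hn
      rw [pr, mem_filter, mem_Ioc] at hn'
      omega
  have hup : ∑ n ∈ pr P, Real.log n ≤ (pr P).card * (L + 1) := by
    rw [← nsmul_eq_mul]
    refine sum_le_card_nsmul _ _ _ fun n hn => ?_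
    obtain ⟨⟨a, b⟩, c⟩ := bf_mem_pr.1 hn
    have hb : (n : ℝ) ≤ 2 * P := by exact_mod_cast b
    have ha : (0 : ℝ) < n := by exact_mod_cast c.pos
    exact (Real.log_le_log ha hb).trans hlog2
  -- the error terms
  have hLp : 0 < L := by linarith
  have hE : C * P / L ^ 2 ≤ P / 48 := by
    rw [div_le_div_iff₀ (by positivity) (by norm_num)]
    have h3 : C * 48 ≤ L ^ 2 := by nlinarith
    calc C * P * 48 = P * (C * 48) := by ring
      _ ≤ P * L ^ 2 := mul_le_mul_of_nonneg_left h3 hP0.le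
  have hE2 : C * (2 * P) / (Real.log (2 * P)) ^ 2 ≤ P / 24 := by
    have h3 : C * (2 * P) / (Real.log (2 * P)) ^ 2 ≤ C * (2 * P) / L ^ 2 := by
      refine div_le_div_of_nonneg_left (by positivity) (by positivity) ?_
      exact pow_le_pow_left₀ hLp.le hlogm 2
    have h4 : C * (2 * P) / L ^ 2 = 2 * (C * P / L ^ 2) := by ring
    rw [h4] at h3
    linarith
  have hmain : (P : ℝ) * (15 / 16) ≤ (pr P).card * (L + 1) := by
    have h5 : ∑ n ∈ pr P, Real.log n ≥ 2 * P - C * (2 * P) / (Real.log (2 * P)) ^ 2 - (P + C * P / L ^ 2) := by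
      have := h2.1
      have := h1.2
      linarith
    linarith
  rw [div_le_iff₀ (by positivity)]
  have h6 : ((pr P).card : ℝ) * (L + 1) ≤ (pr P).card * (3 / 2 * L) := by
    refine mul_le_mul_of_nonneg_left ?_ (by positivity)
    linarith
  have h7 : (0 : ℝ) ≤ (pr P).card * L := by positivity
  nlinarith

end Pool.Agent.Lib.G3
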