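import Mathlib
import Pool.Agent.Lib.G3.Ab

/-!
# G3, row AK: the middle variable takes many values

`m = q_1 ... q_j p` with `q_i` a prime of `(P^(i+1), 2 P^(i+1)]` and `p` a large prime; the sets
`akT P j M` are disjoint unions over the last `q`.
-/

set_option autoImplicit false

open Finset

namespace Pool.Agent.Lib.G3

/-- products of `j` small primes and a large prime in `(M, 2M]` -/
private noncomputable def akT (P : ℕ) : ℕ → ℕ → Finset ℕ
  | 0, M => pr M
  | j + 1, M => (pr (P ^ (j + 2))).biUnion fun q => (akT P j (M / q)).image fun m => q * m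

/-- upper bound for the product of the small primes -/
private def akD (P : ℕ) : ℕ → ℕ
  | 0 => 1
  | j + 1 => akD P j * (2 * P ^ (j + 2))

private theorem ak_mem_pr {P q : ℕ} : q ∈ pr P ↔ (P < q ∧ q ≤ 2 * P) ∧ q.Prime := by
  unfold pr
  rw [mem_filter, mem_Ioc]

private theorem ak_div {L D Q q M : ℕ} (hq : q ≤ 2 * Q) (hq0 : 0 < q) (h : L * (D * (2 * Q)) ≤ M) :
    L * D ≤ M / q := by
  rw [Nat.le_div_iff_mul_le hq0]
  calc L * D * q ≤ L * D * (2 * Q) := Nat.mul_le_mul_left _ hq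
    _ = L * (D * (2 * Q)) := by ring
    _ ≤ M := h

private theorem ak_spec {P L : ℕ} (hP : 2 ≤ P) : ∀ j M : ℕ, 2 * P ^ (j + 1) ≤ L → L * akD P j ≤ M →
    ∀ m ∈ akT P j M, M < m ∧ m ≤ 2 * M ∧ Squarefree m ∧ m.primeFactors.card = j + 1 ∧
      ∀ p : ℕ, p.Prime → p ∣ m → 2 * P < p ∧ (p ≤ 2 * P ^ (j + 1) ∨ L < p) := by
  intro j
  induction j with
  | zero =>
    intro M hL hM m hm
    unfold akT at hm
    unfold akD at hM
    obtain ⟨⟨h1, h2⟩, h3⟩ := ak_mem_pr.1 hm
    refine ⟨h1, h2, h3.prime.squarefree, ?_, ?_⟩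
    · rw [h3.primeFactors, card_singleton]
    · intro p hp hpm
      have h4 : p = m := (Nat.prime_dvd_prime_iff_eq hp h3).1 hpm
      rw [h4]
      rw [mul_one] at hM
      rw [pow_one] at hL ⊢
      constructor
      · omega
      · right
        omega
  | succ j ih =>
    intro M hL hM m hm
    unfold akT at hm
    unfold akD at hM
    rw [mem_biUnion] at hm
    obtain ⟨q, hq, hm⟩ := hm
    obtain ⟨m', hm', rfl⟩ := mem_image.1 hm
    obtain ⟨⟨h1, h2⟩, h3⟩ := ak_mem_pr.1 hq
    have hpow : 2 * P ^ (j + 1) ≤ P ^ (j + 2) := by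
      rw [pow_succ P (j + 1), mul_comm]
      exact Nat.mul_le_mul_left _ hP
    have hpow2 : 2 * P ≤ P ^ (j + 2) := by
      calc 2 * P ≤ P ^ 2 := by rw [pow_two]; exact Nat.mul_le_mul_right _ hP
        _ ≤ P ^ (j + 2) := Nat.pow_le_pow_right (by omega) (by omega)
    have hL' : 2 * P ^ (j + 1) ≤ L := by
      have : P ^ (j + 2) ≤ 2 * P ^ (j + 1 + 1) := by
        have e : j + 1 + 1 = j + 2 := rfl
        rw [e]
        omega
      omega
    have hM' := ak_div h2 h3.pos hM
    obtain ⟨g1, g2, g3, g4, g5⟩ := ih (M / q) hL' hM' m' hm'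
    have hL2 : 2 * P ^ (j + 2) ≤ L := hL
    have hqm : ¬ q ∣ m' := by
      intro hd
      obtain ⟨_, h5⟩ := g5 q h3 hd
      rcases h5 with h5 | h5 <;> omega
    have hco : Nat.Coprime q m' := (Nat.Prime.coprime_iff_not_dvd h3).2 hqm
    refine ⟨?_, ?_, ?_, ?_, ?_⟩
    · calc M < q * (M / q + 1) := by
            have := Nat.div_add_mod M q
            have h6 := Nat.mod_lt M h3.pos
            rw [mul_add, mul_one]
            omega
        _ ≤ q * m' := Nat.mul_le_mul_left _ g1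
    · calc q * m' ≤ q * (2 * (M / q)) := Nat.mul_le_mul_left _ g2
        _ = 2 * (q * (M / q)) := by ring
        _ ≤ 2 * M := Nat.mul_le_mul_left _ (Nat.mul_div_le M q)
    · exact (Nat.squarefree_mul hco).2 ⟨h3.prime.squarefree, g3⟩
    · rw [hco.primeFactors_mul, card_union_of_disjoint hco.disjoint_primeFactors, h3.primeFactors,
        card_singleton, g4]
      ring
    · intro p hp hpm
      rcases (Nat.Prime.dvd_mul hp).1 hpm with h4 | h4
      · have h5 : p = q := (Nat.prime_dvd_prime_iff_eq hp h3).1 h4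
        rw [h5]
        refine ⟨by omega, Or.inl ?_⟩
        exact h2
      · obtain ⟨h5, h6⟩ := g5 p hp h4
        refine ⟨h5, ?_⟩
        rcases h6 with h6 | h6
        · left
          have e : j + 1 + 1 = j + 2 := rfl
          rw [e]
          omega
        · exact Or.inr h6

private theorem ak_card {P L J : ℕ} {x1 Y : ℝ} (hpr : ∀ Q : ℕ, x1 ≤ Q → (Q : ℝ) / (2 * Real.log Q) ≤ (pr Q).card)
    (hP : 2 ≤ P) (hP1 : x1 ≤ P) (hL1 : x1 ≤ L) (hL2 : 2 ≤ L) :
    ∀ j M : ℕ, j ≤ J → 2 * P ^ (j + 1) ≤ L → L * akD P j ≤ M → (M : ℝ) ≤ Y →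
      (M : ℝ) / (2 * Real.log Y * (8 * (J + 1) * Real.log P) ^ j) ≤ (akT P j M).card := by
  intro j
  have hP' : (2 : ℝ) ≤ P := by exact_mod_cast hP
  have hlogP : 0 < Real.log P := Real.log_pos (by linarith)
  induction j with
  | zero =>
    intro M _ hL hM hY
    unfold akD at hM
    rw [mul_one] at hM
    unfold akT
    have hM' : (L : ℝ) ≤ M := by exact_mod_cast hM
    have h1 := hpr M (hL1.trans hM')
    refine le_trans ?_ h1
    have hM2 : (2 : ℝ) ≤ M := by exact_mod_cast hL2.trans hM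
    have h2 : 0 < Real.log M := Real.log_pos (by linarith)
    have h3 : Real.log M ≤ Real.log Y := Real.log_le_log (by linarith) hY
    rw [pow_zero, mul_one]
    exact div_le_div_of_nonneg_left (by positivity) (by positivity) (by linarith)
  | succ j ih =>
    intro M hj hL hM hY
    have hspec := fun q (hq : q ∈ pr (P ^ (j + 2))) =>
      ak_div (L := L) (D := akD P j) (M := M) (ak_mem_pr.1 hq).1.2 (ak_mem_pr.1 hq).2.pos hM
    have hL' : 2 * P ^ (j + 1) ≤ L := by
      refine le_trans ?_ hL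
      exact Nat.mul_le_mul_left _ (Nat.pow_le_pow_right (by omega) (by omega))
    have hL2' : 2 * P ^ (j + 2) ≤ L := hL
    have hpow : 2 * P ^ (j + 1) ≤ P ^ (j + 2) := by
      rw [pow_succ P (j + 1), mul_comm]
      exact Nat.mul_le_mul_left _ hP
    have hD : 1 ≤ akD P j := by
      clear ih hspec hM hj hL hL' hL2' hpow
      induction j with
      | zero => exact le_rfl
      | succ j ih =>
        unfold akD
        exact Nat.mul_pos ih (by positivity)
    -- the cardinality is a sum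
    have hcard : (akT P (j + 1) M).card = ∑ q ∈ pr (P ^ (j + 2)), (akT P j (M / q)).card := by
      rw [akT, card_biUnion]
      · refine sum_congr rfl fun q hq => ?_
        exact card_image_of_injective _ fun a b h => Nat.eq_of_mul_eq_mul_left (ak_mem_pr.1 hq).2.pos h
      · intro q hq q' hq' hne
        rw [Function.onFun, Finset.disjoint_left]
        intro m hm hm'
        obtain ⟨a, ha, hqa⟩ := mem_image.1 hm
        obtain ⟨b, hb, hqb⟩ := mem_image.1 hm'
        obtain ⟨⟨h1, h2⟩, h3⟩ := ak_mem_pr.1 hq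
        obtain ⟨⟨h1', h2'⟩, h3'⟩ := ak_mem_pr.1 hq'
        have h4 : q' ∣ q * a := by
          rw [hqa, ← hqb]
          exact Nat.dvd_mul_right _ _
        rcases (Nat.Prime.dvd_mul h3').1 h4 with h5 | h5
        · exact hne ((Nat.prime_dvd_prime_iff_eq h3' h3).1 h5).symm
        · obtain ⟨_, h6⟩ := (ak_spec hP j (M / q) hL' (hspec q hq) a ha).2.2.2.2 q' h3' h5
          rcases h6 with h6 | h6 <;> omega
    rw [hcard, Nat.cast_sum]
    have hlogY : 0 < Real.log Y := by
      refine Real.log_pos ?_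
      have h2 : 2 ≤ L * (akD P j * (2 * P ^ (j + 2))) := by
        calc 2 ≤ L * 1 := by omega
          _ ≤ L * (akD P j * (2 * P ^ (j + 2))) := Nat.mul_le_mul_left _ (Nat.mul_pos hD (by positivity))
      have h3 : 2 ≤ M := h2.trans hM
      have h4 : (2 : ℝ) ≤ M := by exact_mod_cast h3
      linarith
    have hw : 0 < 2 * Real.log Y * (8 * (J + 1) * Real.log P) ^ j := by
      positivity
    have hterm : ∀ q ∈ pr (P ^ (j + 2)),
        (M : ℝ) / (4 * (P : ℝ) ^ (j + 2)) / (2 * Real.log Y * (8 * (J + 1) * Real.log P) ^ j) ≤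
          ((akT P j (M / q)).card : ℝ) := by
      intro q hq
      obtain ⟨⟨h1, h2⟩, h3⟩ := ak_mem_pr.1 hq
      have h4 := ih (M / q) (by omega) hL' (hspec q hq) (by
        refine le_trans ?_ hY
        exact_mod_cast Nat.div_le_self M q)
      refine le_trans ?_ h4
      refine div_le_div_of_nonneg_right ?_ hw.le
      have h5 : 1 ≤ M / q := by
        refine le_trans ?_ (hspec q hq)
        exact Nat.mul_pos (by omega) hD
      have h6 : M ≤ 2 * (q * (M / q)) := by
        have h7 := Nat.div_add_mod M q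
        have h8 := Nat.mod_lt M h3.pos
        have h9 : q * 1 ≤ q * (M / q) := Nat.mul_le_mul_left _ h5
        omega
      have h7 : M ≤ 4 * P ^ (j + 2) * (M / q) := by
        calc M ≤ 2 * (q * (M / q)) := h6
          _ ≤ 2 * (2 * P ^ (j + 2) * (M / q)) := Nat.mul_le_mul_left _ (Nat.mul_le_mul_right _ h2)
          _ = 4 * P ^ (j + 2) * (M / q) := by ring
      rw [div_le_iff₀ (by positivity)]
      calc (M : ℝ) ≤ ((4 * P ^ (j + 2) * (M / q) : ℕ) : ℝ) := by exact_mod_cast h7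
        _ = ((M / q : ℕ) : ℝ) * (4 * (P : ℝ) ^ (j + 2)) := by push_cast; ring
    have hsum := card_nsmul_le_sum _ _ _ hterm
    refine le_trans ?_ hsum
    rw [nsmul_eq_mul]
    have hcpr := hpr (P ^ (j + 2)) (by
      refine hP1.trans ?_
      exact_mod_cast Nat.le_self_pow (by omega) P)
    push_cast at hcpr
    rw [Real.log_pow] at hcpr
    have hjJ : ((j + 2 : ℕ) : ℝ) ≤ (J : ℝ) + 1 := by
      have : j + 2 ≤ J + 1 := by omega
      exact_mod_cast this
    have h8 : (P : ℝ) ^ (j + 2) / (2 * ((J + 1) * Real.log P)) ≤ ((pr (P ^ (j + 2))).card : ℝ) := by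
      refine le_trans ?_ hcpr
      refine div_le_div_of_nonneg_left (by positivity) (by positivity) ?_
      have := mul_le_mul_of_nonneg_right hjJ hlogP.le
      push_cast at this ⊢
      linarith
    refine le_trans ?_ (mul_le_mul_of_nonneg_right h8 (div_nonneg (by positivity) hw.le))
    rw [div_div, div_mul_div_comm, div_le_div_iff₀ (by positivity) (by positivity)]
    rw [pow_succ (8 * ((J : ℝ) + 1) * Real.log P) j]
    apply le_of_eq
    ring

private theorem ak_D_le {P : ℕ} (hP : 2 ≤ P) (j : ℕ) : akD P j ≤ P ^ (j * (j + 3)) := by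
  induction j with
  | zero => simp [akD]
  | succ j ih =>
    unfold akD
    calc akD P j * (2 * P ^ (j + 2)) ≤ P ^ (j * (j + 3)) * (P * P ^ (j + 2)) :=
          Nat.mul_le_mul ih (Nat.mul_le_mul_right _ hP)
      _ = P ^ (j * (j + 3) + (j + 3)) := by
          rw [← pow_succ', ← pow_add]
      _ ≤ P ^ ((j + 1) * (j + 1 + 3)) := Nat.pow_le_pow_right (by omega) (by nlinarith)

private theorem ak_log_pow (n : ℕ) {s c : ℝ} (hs : 0 < s) (hc : 0 < c) :
    ∀ᶠ x : ℝ in Filter.atTop, (Real.log x) ^ n ≤ c * x ^ s := by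
  have h1 := (isLittleO_log_rpow_rpow_atTop (n : ℝ) hs).bound hc
  filter_upwards [h1, Filter.eventually_ge_atTop 1] with x hx hx1
  rw [Real.norm_eq_abs, Real.norm_eq_abs, Real.rpow_natCast] at hx
  rw [abs_of_nonneg (Real.rpow_nonneg (by linarith) _)] at hx
  exact (le_abs_self _).trans hx

theorem aa_lower (k : ℕ) (hk : 3 ≤ k) (c1 : ℕ) (hc : 2 ≤ c1) : ∃ x0 : ℝ, ∀ X : ℕ, x0 ≤ X → ∀ P R M : ℕ, Par X P R M c1 →
    ∃ n : ℕ, ∑ m ∈ Ioc M (2 * M), aa k P R M m = n ∧ (M : ℝ) / (Real.log X) ^ 2 ≤ n := by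
  classical
  obtain ⟨J, rfl⟩ : ∃ J, k = J + 3 := ⟨k - 3, by omega⟩
  obtain ⟨x1, hpr⟩ := pr_card
  -- the conditions on X
  have e1 := Real.tendsto_log_atTop.eventually_ge_atTop (max 3 (x1 + 1))
  have e2 := ak_log_pow (c1 * (J + 1)) (s := 9 / 20) (c := 1 / 4) (by norm_num) (by norm_num)
  have e3 := (tendsto_rpow_atTop (y := (9 / 20 : ℝ)) (by norm_num)).eventually_ge_atTop 2
  have e4 := ak_log_pow (c1 * (1 + J * (J + 3))) (s := 1 / 10) (c := 1 / 32) (by norm_num) (by norm_num)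
  have e5 : ∀ᶠ x : ℝ in Filter.atTop,
      2 * (8 * ((J : ℝ) + 1) * (c1 * Real.log (Real.log x))) ^ J ≤ Real.log x := by
    have h1 := ak_log_pow J (s := 1) (c := 1 / (2 * (8 * ((J : ℝ) + 1) * c1) ^ J)) (by norm_num)
      (by positivity)
    filter_upwards [Real.tendsto_log_atTop.eventually h1] with x hx
    rw [Real.rpow_one, one_div, inv_mul_eq_div, le_div_iff₀ (by positivity)] at hx
    calc 2 * (8 * ((J : ℝ) + 1) * (c1 * Real.log (Real.log x))) ^ J
        = Real.log (Real.log x) ^ J * (2 * (8 * ((J : ℝ) + 1) * c1) ^ J) := by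
          rw [← mul_assoc (8 * ((J : ℝ) + 1)) (c1 : ℝ) _, mul_pow]
          ring
      _ ≤ Real.log x := hx
  obtain ⟨x0, hx0⟩ := Filter.eventually_atTop.1 (e1.and (e2.and (e3.and (e4.and (e5.and
    (Filter.eventually_ge_atTop (1 : ℝ)))))))
  refine ⟨x0, fun X hX P R M hpar => ?_⟩
  obtain ⟨g1, g2, g3, g4, g5, g6⟩ := hx0 X hX
  obtain ⟨hP, hR, hM⟩ := hpar
  have hlog3 : (3 : ℝ) ≤ Real.log X := (le_max_left _ _).trans g1
  have hlogx : x1 + 1 ≤ Real.log X := (le_max_right _ _).trans g1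
  have hX0 : (0 : ℝ) < X := by linarith
  -- P
  have hPle : (P : ℝ) ≤ (Real.log X) ^ c1 := by
    rw [hP]
    exact Nat.floor_le (by positivity)
  have hPge : (Real.log X) ^ c1 - 1 ≤ P := by
    rw [hP]
    exact (Nat.sub_one_lt_floor _).le
  have hlogc : Real.log X ≤ (Real.log X) ^ c1 := le_self_pow₀ (by linarith) (by omega)
  have hP2 : 2 ≤ P := by
    have : (2 : ℝ) ≤ P := by linarith
    exact_mod_cast this
  have hPx : x1 ≤ P := by linarith
  have hP0 : (0 : ℝ) < P := by
    have : (0 : ℕ) < P := by omega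
    exact_mod_cast this
  -- R
  have hRge : (X : ℝ) ^ (9 / 20 : ℝ) - 1 ≤ R := by
    rw [hR]
    exact (Nat.sub_one_lt_floor _).le
  have hRle : (R : ℝ) ≤ (X : ℝ) ^ (9 / 20 : ℝ) := by
    rw [hR]
    exact Nat.floor_le (by positivity)
  have hPJ : 2 * P ^ (J + 1) ≤ R := by
    have h1 : (P : ℝ) ^ (J + 1) ≤ (Real.log X) ^ (c1 * (J + 1)) := by
      rw [pow_mul]
      exact pow_le_pow_left₀ hP0.le hPle _
    have h2 : 2 * (P : ℝ) ^ (J + 1) ≤ R := by linarith
    exact_mod_cast h2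
  have hPR : P ≤ R := by
    have := Nat.le_self_pow (n := J + 1) (by omega) P
    omega
  -- M
  have hLD : 2 * R * akD P J ≤ M := by
    rw [hM, Nat.le_div_iff_mul_le (Nat.mul_pos (by norm_num) (Nat.mul_pos (by omega) (by omega)))]
    have h1 : 2 * R * akD P J * (16 * (P * R)) ≤ 32 * P ^ (1 + J * (J + 3)) * R ^ 2 := by
      calc 2 * R * akD P J * (16 * (P * R)) = 32 * (P * akD P J) * R ^ 2 := by ring
        _ ≤ 32 * (P * P ^ (J * (J + 3))) * R ^ 2 :=
            Nat.mul_le_mul_right _ (Nat.mul_le_mul_left _ (Nat.mul_le_mul_left _ (ak_D_le hP2 J)))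
        _ = 32 * P ^ (1 + J * (J + 3)) * R ^ 2 := by rw [pow_add, pow_one]
    refine h1.trans ?_
    have h2 : (32 : ℝ) * (P : ℝ) ^ (1 + J * (J + 3)) * (R : ℝ) ^ 2 ≤ X := by
      have h3 : (P : ℝ) ^ (1 + J * (J + 3)) ≤ 1 / 32 * (X : ℝ) ^ (1 / 10 : ℝ) := by
        refine le_trans ?_ g4
        rw [pow_mul]
        exact pow_le_pow_left₀ hP0.le hPle _
      have h4 : (R : ℝ) ^ 2 ≤ (X : ℝ) ^ (9 / 10 : ℝ) := by
        calc (R : ℝ) ^ 2 ≤ ((X : ℝ) ^ (9 / 20 : ℝ)) ^ 2 := pow_le_pow_left₀ (by positivity) hRle 2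
          _ = (X : ℝ) ^ (9 / 10 : ℝ) := by
              rw [← Real.rpow_natCast, ← Real.rpow_mul hX0.le]
              norm_num
      calc (32 : ℝ) * (P : ℝ) ^ (1 + J * (J + 3)) * (R : ℝ) ^ 2
          ≤ 32 * (1 / 32 * (X : ℝ) ^ (1 / 10 : ℝ)) * (X : ℝ) ^ (9 / 10 : ℝ) :=
            mul_le_mul (mul_le_mul_of_nonneg_left h3 (by norm_num)) h4 (by positivity) (by positivity)
        _ = (X : ℝ) ^ (1 / 10 : ℝ) * (X : ℝ) ^ (9 / 10 : ℝ) := by ring
        _ = X := by
            rw [← Real.rpow_add hX0]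
            norm_num
    exact_mod_cast h2
  have hR0 : 2 ≤ R := hP2.trans hPR
  have hMX : (M : ℝ) ≤ X := by
    rw [hM]
    exact_mod_cast Nat.div_le_self _ _
  have hRx : x1 ≤ ((2 * R : ℕ) : ℝ) := by
    have h1 : (P : ℝ) ≤ ((2 * R : ℕ) : ℝ) := by
      have : P ≤ 2 * R := by omega
      exact_mod_cast this
    linarith
  have hcard := ak_card (J := J) hpr hP2 hPx hRx (by omega) J M le_rfl (by omega) hLD hMX
  have hspec := ak_spec (L := 2 * R) hP2 J M (by omega) hLD
  -- the sum is a cardinality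
  obtain ⟨A, hA⟩ : ∃ A : Finset ℕ, A = (Ioc M (2 * M)).filter fun m => M < m ∧ m ≤ 2 * M ∧ Squarefree m ∧
      m.primeFactors.card = J + 3 - 2 ∧
      ∀ p : ℕ, p.Prime → p ∣ m → 2 * P < p ∧ (p ≤ R ∨ 2 * R < p) := ⟨_, rfl⟩
  refine ⟨A.card, ?_, ?_⟩
  · rw [hA, card_filter, Nat.cast_sum]
    refine sum_congr rfl fun m _ => ?_
    unfold aa
    rw [Nat.cast_ite, Nat.cast_one, Nat.cast_zero]
  · have hsub : akT P J M ⊆ A := by
      intro m hm
      obtain ⟨h1, h2, h3, h4, h5⟩ := hspec m hm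
      rw [hA, mem_filter, mem_Ioc]
      refine ⟨⟨h1, h2⟩, h1, h2, h3, by rw [h4]; omega, fun p hp hpm => ?_⟩
      obtain ⟨h6, h7⟩ := h5 p hp hpm
      refine ⟨h6, ?_⟩
      rcases h7 with h7 | h7
      · left
        omega
      · right
        omega
    have h1 : ((akT P J M).card : ℝ) ≤ A.card := by exact_mod_cast card_le_card hsub
    refine le_trans ?_ (hcard.trans h1)
    have hM0 : (0 : ℝ) ≤ M := by positivity
    have hlogP : 0 < Real.log P := Real.log_pos (by
      have : (2 : ℝ) ≤ P := by exact_mod_cast hP2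
      linarith)
    refine div_le_div_of_nonneg_left hM0 (by positivity) ?_
    have h2 : Real.log P ≤ c1 * Real.log (Real.log X) := by
      rw [← Real.log_pow]
      exact Real.log_le_log hP0 hPle
    have h3 : (8 * ((J : ℝ) + 1) * Real.log P) ^ J ≤
        (8 * ((J : ℝ) + 1) * (c1 * Real.log (Real.log X))) ^ J :=
      pow_le_pow_left₀ (by positivity) (mul_le_mul_of_nonneg_left h2 (by positivity)) _
    calc 2 * Real.log X * (8 * ((J : ℝ) + 1) * Real.log P) ^ J
        = Real.log X * (2 * (8 * ((J : ℝ) + 1) * Real.log P) ^ J) := by ring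
      _ ≤ Real.log X * Real.log X := mul_le_mul_of_nonneg_left (by linarith) (by linarith)
      _ = Real.log X ^ 2 := by ring

end Pool.Agent.Lib.G3
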