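import Pool.Agent.Lib.G3.Defs2
import Pool.Agent.Lib.MP_7b7e48_nt.GT.ExpTools

/-!
# G3, row AW: a linear phase away from the integers, twisted by `n^(ij)`, in short windows
-/

set_option autoImplicit false

open Finset

namespace Pool.Agent.Lib.G3

open Pool.Agent.Lib.MRT (cj kap)
open Pool.Agent.Lib.GT (e)

/-- summation by parts against a phase whose steps stay away from the integers -/
private theorem aw_abel (w φ : ℕ → ℝ) {W ρ κ : ℝ} (hρ : 0 < ρ) (N : ℕ)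
    (hw0 : ∀ n ≤ N, 0 ≤ w n) (hwW : w 0 ≤ W) (hwa : ∀ n < N, w (n + 1) ≤ w n)
    (hD : ∀ n ≤ N, ∀ m : ℤ, ρ ≤ |φ (n + 1) - φ n - m|)
    (hκ : ∀ n < N, |(φ (n + 1 + 1) - φ (n + 1)) - (φ (n + 1) - φ n)| ≤ κ) :
    ‖∑ n ∈ range (N + 1), ((w n : ℝ) : ℂ) * e (φ n)‖ ≤
      W / (2 * ρ) + N * (W * (2 * Real.pi * κ) / (16 * ρ ^ 2)) := by
  set z : ℕ → ℂ := fun n => e (φ (n + 1) - φ n) - 1 with hz
  have hzl : ∀ n ≤ N, 4 * ρ ≤ ‖z n‖ := fun n hn => GT.RE.four_mul_le_norm_e_sub_one _ _ hρ.le (hD n hn)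
  have hz0 : ∀ n ≤ N, z n ≠ 0 := by
    intro n hn h0
    have := hzl n hn
    rw [h0, norm_zero] at this
    linarith
  have hE : ∀ n, e (φ (n + 1)) = (z n + 1) * e (φ n) := by
    intro n
    rw [hz]
    simp only [sub_add_cancel]
    rw [← GT.e_add]
    congr 1
    ring
  have hW0 : 0 ≤ W := (hw0 0 (Nat.zero_le _)).trans hwW
  have key : ∀ k ≤ N, w k ≤ W ∧
      ‖(∑ n ∈ range (k + 1), ((w n : ℝ) : ℂ) * e (φ n)) - ((w k : ℝ) : ℂ) / z k * e (φ (k + 1))‖ ≤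
        W / (4 * ρ) + (W - w k) / (4 * ρ) + k * (W * (2 * Real.pi * κ) / (16 * ρ ^ 2)) := by
    intro k
    induction k with
    | zero =>
      intro _
      refine ⟨hwW, ?_⟩
      have h1 : (∑ n ∈ range (0 + 1), ((w n : ℝ) : ℂ) * e (φ n)) - ((w 0 : ℝ) : ℂ) / z 0 * e (φ (0 + 1)) =
          -(((w 0 : ℝ) : ℂ) / z 0 * e (φ 0)) := by
        rw [hE 0, sum_range_succ, sum_range_zero]
        have := hz0 0 (Nat.zero_le _)
        field_simp
        ring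
      rw [h1, norm_neg, norm_mul, norm_div, GT.norm_e, mul_one, Complex.norm_real, Real.norm_eq_abs,
        abs_of_nonneg (hw0 0 (Nat.zero_le _))]
      have h2 : w 0 / ‖z 0‖ ≤ W / (4 * ρ) :=
        div_le_div₀ hW0 hwW (by positivity) (hzl 0 (Nat.zero_le _))
      have h3 : 0 ≤ (W - w 0) / (4 * ρ) := div_nonneg (by linarith) (by positivity)
      push_cast
      linarith
    | succ k ih =>
      intro hk
      obtain ⟨i1, i2⟩ := ih (by omega)
      have hk' : k < N := by omega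
      have h1 := hwa k hk'
      refine ⟨h1.trans i1, ?_⟩
      have h2 : (∑ n ∈ range (k + 1 + 1), ((w n : ℝ) : ℂ) * e (φ n)) -
          ((w (k + 1) : ℝ) : ℂ) / z (k + 1) * e (φ (k + 1 + 1)) =
          ((∑ n ∈ range (k + 1), ((w n : ℝ) : ℂ) * e (φ n)) - ((w k : ℝ) : ℂ) / z k * e (φ (k + 1))) +
          ((((w k : ℝ) : ℂ) - ((w (k + 1) : ℝ) : ℂ)) / z (k + 1) +
            ((w k : ℝ) : ℂ) * (z (k + 1) - z k) / (z k * z (k + 1))) * e (φ (k + 1)) := by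
        rw [sum_range_succ _ (k + 1), hE (k + 1)]
        have a1 := hz0 k (by omega)
        have a2 := hz0 (k + 1) hk
        field_simp
        ring
      rw [h2]
      refine (norm_add_le _ _).trans ?_
      have h3 : ‖((((w k : ℝ) : ℂ) - ((w (k + 1) : ℝ) : ℂ)) / z (k + 1) +
            ((w k : ℝ) : ℂ) * (z (k + 1) - z k) / (z k * z (k + 1))) * e (φ (k + 1))‖ ≤
          (w k - w (k + 1)) / (4 * ρ) + W * (2 * Real.pi * κ) / (16 * ρ ^ 2) := by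
        rw [norm_mul, GT.norm_e, mul_one]
        refine (norm_add_le _ _).trans ?_
        refine add_le_add ?_ ?_
        · rw [norm_div, ← Complex.ofReal_sub, Complex.norm_real, Real.norm_eq_abs, abs_of_nonneg (by linarith)]
          exact div_le_div_of_nonneg_left (by linarith) (by positivity) (hzl (k + 1) hk)
        · rw [norm_div, norm_mul, norm_mul, Complex.norm_real, Real.norm_eq_abs,
            abs_of_nonneg (hw0 k (by omega))]
          have b1 : z (k + 1) - z k = e (φ (k + 1) - φ k) * (e ((φ (k + 1 + 1) - φ (k + 1)) - (φ (k + 1) - φ k)) - 1) := by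
            rw [hz]
            simp only
            rw [mul_sub, ← GT.e_add, mul_one]
            rw [show φ (k + 1) - φ k + (φ (k + 1 + 1) - φ (k + 1) - (φ (k + 1) - φ k)) =
              φ (k + 1 + 1) - φ (k + 1) by ring]
            ring
          have b2 : ‖z (k + 1) - z k‖ ≤ 2 * Real.pi * κ := by
            rw [b1, norm_mul, GT.norm_e, one_mul]
            refine (GT.RE.norm_e_sub_one_le _).trans ?_
            exact mul_le_mul_of_nonneg_left (hκ k hk') (by positivity)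
          have b3 : 16 * ρ ^ 2 ≤ ‖z k‖ * ‖z (k + 1)‖ := by
            have c1 := hzl k (by omega)
            have c2 := hzl (k + 1) hk
            calc 16 * ρ ^ 2 = (4 * ρ) * (4 * ρ) := by ring
              _ ≤ ‖z k‖ * ‖z (k + 1)‖ := mul_le_mul c1 c2 (by positivity) (norm_nonneg _)
          have b4 : 0 ≤ 2 * Real.pi * κ := (norm_nonneg _).trans b2
          exact div_le_div₀ (mul_nonneg hW0 b4) (mul_le_mul i1 b2 (norm_nonneg _) hW0) (by positivity) b3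
      have h4 : W / (4 * ρ) + (W - w (k + 1)) / (4 * ρ) + ((k + 1 : ℕ) : ℝ) * (W * (2 * Real.pi * κ) / (16 * ρ ^ 2)) =
          (W / (4 * ρ) + (W - w k) / (4 * ρ) + k * (W * (2 * Real.pi * κ) / (16 * ρ ^ 2))) +
          ((w k - w (k + 1)) / (4 * ρ) + W * (2 * Real.pi * κ) / (16 * ρ ^ 2)) := by
        push_cast
        ring
      rw [h4]
      exact add_le_add i2 h3
  obtain ⟨k1, k2⟩ := key N le_rfl
  have h5 : ‖((w N : ℝ) : ℂ) / z N * e (φ (N + 1))‖ ≤ w N / (4 * ρ) := by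
    rw [norm_mul, norm_div, GT.norm_e, mul_one, Complex.norm_real, Real.norm_eq_abs,
      abs_of_nonneg (hw0 N le_rfl)]
    exact div_le_div_of_nonneg_left (hw0 N le_rfl) (by positivity) (hzl N le_rfl)
  have h6 := norm_add_le ((∑ n ∈ range (N + 1), ((w n : ℝ) : ℂ) * e (φ n)) - ((w N : ℝ) : ℂ) / z N * e (φ (N + 1)))
    (((w N : ℝ) : ℂ) / z N * e (φ (N + 1)))
  rw [sub_add_cancel] at h6
  have h7 : W / (4 * ρ) + (W - w N) / (4 * ρ) + w N / (4 * ρ) = W / (2 * ρ) := by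
    field_simp
    ring
  linarith

private theorem aw_exp : Real.exp (2 * Real.pi) < 1100 := by
  have h1 : 2 * Real.pi ≤ 7 := by have := Real.pi_lt_d2; linarith
  have h2 : Real.exp (2 * Real.pi) ≤ Real.exp 7 := Real.exp_le_exp.mpr h1
  have h3 : Real.exp 7 = Real.exp 1 ^ 7 := by
    rw [← Real.exp_nat_mul]
    norm_num
  have h4 : Real.exp 1 ≤ 2.7182818286 := Real.exp_one_lt_d9.le
  have h5 : Real.exp 1 ^ 7 ≤ 2.7182818286 ^ 7 := pow_le_pow_left₀ (Real.exp_pos 1).le h4 7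
  have h6 : (2.7182818286 : ℝ) ^ 7 < 1100 := by norm_num
  linarith

private theorem aw_X0 {X n : ℕ} (hn : X0 X < n) : (X : ℝ) < 1100 * n := by
  have h1 : (X : ℝ) * Real.exp (-(2 * Real.pi)) < n := by
    unfold X0 at hn
    exact (Nat.floor_lt (by positivity)).mp hn
  have h2 : (X : ℝ) = (X : ℝ) * Real.exp (-(2 * Real.pi)) * Real.exp (2 * Real.pi) := by
    rw [mul_assoc, ← Real.exp_add, neg_add_cancel, Real.exp_zero, mul_one]
  have h3 : (X : ℝ) * Real.exp (-(2 * Real.pi)) * Real.exp (2 * Real.pi) < n * Real.exp (2 * Real.pi) :=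
    mul_lt_mul_of_pos_right h1 (Real.exp_pos _)
  have h4 : (n : ℝ) * Real.exp (2 * Real.pi) ≤ n * 1100 := mul_le_mul_of_nonneg_left aw_exp.le (Nat.cast_nonneg _)
  linarith

private theorem aw_conj (j : ℤ) (n : ℕ) : (starRingEnd ℂ) (cj j n) = e (j * Real.log n / (2 * Real.pi)) := by
  unfold cj e
  rw [← Complex.exp_conj]
  congr 1
  simp only [map_mul, Complex.conj_ofReal, Complex.conj_I]
  have : (Real.pi : ℂ) ≠ 0 := by exact_mod_cast Real.pi_ne_zero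
  push_cast
  field_simp

/-- the phase -/
private noncomputable def aw_ph (γ : ℝ) (j : ℤ) (n : ℕ) : ℝ := j * Real.log n / (2 * Real.pi) + n * γ

private theorem aw_term (γ : ℝ) (j : ℤ) (n : ℕ) :
    ((1 / (n : ℝ) : ℝ) : ℂ) * (starRingEnd ℂ) (cj j n) * e (n * γ) = ((1 / (n : ℝ) : ℝ) : ℂ) * e (aw_ph γ j n) := by
  rw [aw_conj, mul_assoc, ← GT.e_add]
  rfl

private theorem aw_log {n : ℕ} (hn : 1 ≤ n) :
    1 / ((n : ℝ) + 1) ≤ Real.log ((n + 1 : ℕ) : ℝ) - Real.log n ∧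
      Real.log ((n + 1 : ℕ) : ℝ) - Real.log n ≤ 1 / (n : ℝ) := by
  have hn' : (0 : ℝ) < n := by exact_mod_cast hn
  have h1 : Real.log ((n + 1 : ℕ) : ℝ) - Real.log n = Real.log (((n : ℝ) + 1) / n) := by
    rw [Real.log_div (by positivity) hn'.ne']
    push_cast
    ring
  constructor
  · have h2 := Real.one_sub_inv_le_log_of_pos (show (0 : ℝ) < ((n : ℝ) + 1) / n by positivity)
    rw [h1]
    have h3 : 1 - (((n : ℝ) + 1) / n)⁻¹ = 1 / ((n : ℝ) + 1) := by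
      field_simp
      ring
    linarith
  · have h2 := Real.log_le_sub_one_of_pos (show (0 : ℝ) < ((n : ℝ) + 1) / n by positivity)
    rw [h1]
    have h3 : ((n : ℝ) + 1) / n - 1 = 1 / (n : ℝ) := by
      field_simp
      ring
    linarith

private theorem aw_step (γ : ℝ) (j : ℤ) (n : ℕ) :
    aw_ph γ j (n + 1) - aw_ph γ j n = γ + j / (2 * Real.pi) * (Real.log ((n + 1 : ℕ) : ℝ) - Real.log n) := by
  unfold aw_ph
  push_cast
  ring

private theorem aw_inv {X n : ℕ} (hX : 0 < X) (hn : X0 X < n) : 1 / (n : ℝ) ≤ 1100 / X := by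
  have h1 := aw_X0 hn
  have h2 : (0 : ℝ) < X := by exact_mod_cast hX
  have h3 : (0 : ℝ) < n := by
    have : 0 < n := by omega
    exact_mod_cast this
  rw [div_le_div_iff₀ h3 h2]
  linarith

private theorem aw_triv {X H : ℕ} (hX : 0 < X) (γ : ℝ) (j : ℤ) (y : ℕ) :
    ‖∑ n ∈ Ioc (y - H) y, (if X0 X < n ∧ n ≤ X then
        ((1 / (n : ℝ) : ℝ) : ℂ) * (starRingEnd ℂ) (cj j n) * e (n * γ) else 0)‖ ≤ H * (1100 / X) := by
  have hq : (0 : ℝ) ≤ 1100 / X := by positivity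
  have h1 : ∀ n ∈ Ioc (y - H) y, ‖(if X0 X < n ∧ n ≤ X then
        ((1 / (n : ℝ) : ℝ) : ℂ) * (starRingEnd ℂ) (cj j n) * e (n * γ) else 0)‖ ≤ 1100 / (X : ℝ) := by
    intro n _
    split_ifs with h
    · rw [aw_term, norm_mul, GT.norm_e, mul_one, Complex.norm_real, Real.norm_eq_abs, abs_of_nonneg (by positivity)]
      exact aw_inv hX h.1
    · rw [norm_zero]
      exact hq
  refine (norm_sum_le _ _).trans ((sum_le_sum h1).trans ?_)
  rw [sum_const, nsmul_eq_mul, Nat.card_Ioc]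
  refine mul_le_mul_of_nonneg_right ?_ hq
  have : y - (y - H) ≤ H := by omega
  exact_mod_cast this

private theorem aw_zero {X H : ℕ} (γ : ℝ) (j : ℤ) (y : ℕ) (hy : y ≤ X0 X) :
    ∑ n ∈ Ioc (y - H) y, (if X0 X < n ∧ n ≤ X then
        ((1 / (n : ℝ) : ℝ) : ℂ) * (starRingEnd ℂ) (cj j n) * e (n * γ) else 0) = 0 := by
  refine sum_eq_zero fun n hn => ?_
  rw [mem_Ioc] at hn
  rw [if_neg]
  intro h
  omega

private theorem aw_good {X H y : ℕ} {γ ρ : ℝ} {j : ℤ} (hX : 0 < X) (hH : 1 ≤ H) (hρ : 0 < ρ)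
    (hj : 1000000 * |(j : ℝ)| * H ≤ ρ * X ^ 2) (h1 : X0 X + H ≤ y) (h2 : y ≤ X)
    (hg : ∀ m : ℤ, 2 * ρ ≤ |γ + j / (2 * Real.pi * y) - m|) :
    ‖∑ n ∈ Ioc (y - H) y, (if X0 X < n ∧ n ≤ X then
        ((1 / (n : ℝ) : ℝ) : ℂ) * (starRingEnd ℂ) (cj j n) * e (n * γ) else 0)‖ ≤ 1100 / X / ρ := by
  obtain ⟨N, rfl⟩ : ∃ N, H = N + 1 := ⟨H - 1, by omega⟩
  have hXp : (0 : ℝ) < X := by exact_mod_cast hX
  set q : ℝ := 1100 / X with hq
  have hq0 : 0 < q := by positivity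
  obtain ⟨a, ha⟩ : ∃ a, a = y - N := ⟨_, rfl⟩
  have ha0 : X0 X < a := by omega
  have e1 : ∑ n ∈ Ioc (y - (N + 1)) y, (if X0 X < n ∧ n ≤ X then
        ((1 / (n : ℝ) : ℝ) : ℂ) * (starRingEnd ℂ) (cj j n) * e (n * γ) else 0) =
      ∑ i ∈ range (N + 1), ((1 / ((a + i : ℕ) : ℝ) : ℝ) : ℂ) * e (aw_ph γ j (a + i)) := by
    have e2 : Ioc (y - (N + 1)) y = Ico a (y + 1) := by
      ext n
      rw [mem_Ioc, mem_Ico]
      omega
    rw [e2, sum_Ico_eq_sum_range, show y + 1 - a = N + 1 by omega]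
    refine sum_congr rfl fun i hi => ?_
    rw [mem_range] at hi
    rw [if_pos ⟨by omega, by omega⟩, aw_term]
  rw [e1]
  have hlin : ∀ i : ℕ, 1 / ((a + i : ℕ) : ℝ) ≤ q := fun i => aw_inv hX (by omega)
  have hpi := Real.pi_gt_d2
  have hjq : |(j : ℝ)| * ((N + 1 : ℕ) : ℝ) * q ^ 2 ≤ 1.21 * ρ := by
    rw [hq, div_pow, mul_div_assoc', div_le_iff₀ (by positivity)]
    nlinarith
  -- distance of the steps from the model
  have hdist : ∀ i ≤ N, |aw_ph γ j (a + i + 1) - aw_ph γ j (a + i) - (γ + j / (2 * Real.pi * y))| ≤ ρ := by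
    intro i hi
    rw [aw_step]
    have hn1 : 1 ≤ a + i := by omega
    obtain ⟨l1, l2⟩ := aw_log hn1
    have hny : ((a + i : ℕ) : ℝ) ≤ y := by exact_mod_cast (by omega : a + i ≤ y)
    have hny2 : (y : ℝ) ≤ ((a + i : ℕ) : ℝ) + N := by exact_mod_cast (by omega : y ≤ a + i + N)
    have hn0 : (0 : ℝ) < ((a + i : ℕ) : ℝ) := by exact_mod_cast (by omega : 0 < a + i)
    have hy0 : (0 : ℝ) < y := lt_of_lt_of_le hn0 hny
    have hyq : 1 / (y : ℝ) ≤ q := aw_inv hX (by omega)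
    have hnq := hlin i
    have hNn : (0 : ℝ) ≤ N := Nat.cast_nonneg N
    have hprod : 1 / ((a + i : ℕ) : ℝ) * (1 / (y : ℝ)) ≤ q ^ 2 := by
      rw [sq]
      exact mul_le_mul hnq hyq (by positivity) hq0.le
    have hL : |Real.log ((a + i + 1 : ℕ) : ℝ) - Real.log ((a + i : ℕ) : ℝ) - 1 / y| ≤ ((N + 1 : ℕ) : ℝ) * q ^ 2 := by
      rw [abs_le]
      constructor
      · have h3 : 1 / (y : ℝ) - 1 / (((a + i : ℕ) : ℝ) + 1) ≤ 1 / ((a + i : ℕ) : ℝ) * (1 / (y : ℝ)) := by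
          rw [div_sub_div _ _ hy0.ne' (by positivity), one_div_mul_one_div, div_le_div_iff₀ (by positivity) (by positivity)]
          nlinarith [mul_pos hn0 hy0]
        push_cast at *
        nlinarith [sq_nonneg q]
      · have h3 : 1 / ((a + i : ℕ) : ℝ) - 1 / (y : ℝ) ≤ N * (1 / ((a + i : ℕ) : ℝ) * (1 / (y : ℝ))) := by
          rw [div_sub_div _ _ hn0.ne' hy0.ne', one_div_mul_one_div, mul_one_div, div_le_div_iff_of_pos_right (by positivity)]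
          linarith
        push_cast at *
        nlinarith [sq_nonneg q]
    have h4 : γ + j / (2 * Real.pi) * (Real.log ((a + i + 1 : ℕ) : ℝ) - Real.log ((a + i : ℕ) : ℝ)) -
        (γ + j / (2 * Real.pi * y)) =
        j / (2 * Real.pi) * (Real.log ((a + i + 1 : ℕ) : ℝ) - Real.log ((a + i : ℕ) : ℝ) - 1 / y) := by
      field_simp
      ring
    rw [h4, abs_mul, abs_div, abs_of_pos (by positivity : (0 : ℝ) < 2 * Real.pi)]
    have h5 : |(j : ℝ)| / (2 * Real.pi) * |Real.log ((a + i + 1 : ℕ) : ℝ) - Real.log ((a + i : ℕ) : ℝ) - 1 / y| ≤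
        |(j : ℝ)| / (2 * Real.pi) * (((N + 1 : ℕ) : ℝ) * q ^ 2) := mul_le_mul_of_nonneg_left hL (by positivity)
    have h6 : |(j : ℝ)| / (2 * Real.pi) * (((N + 1 : ℕ) : ℝ) * q ^ 2) = |(j : ℝ)| * ((N + 1 : ℕ) : ℝ) * q ^ 2 / (2 * Real.pi) := by
      ring
    have h7 : |(j : ℝ)| * ((N + 1 : ℕ) : ℝ) * q ^ 2 / (2 * Real.pi) ≤ ρ := by
      rw [div_le_iff₀ (by positivity)]
      nlinarith
    linarith
  have hD : ∀ i ≤ N, ∀ m : ℤ, ρ ≤ |aw_ph γ j (a + (i + 1)) - aw_ph γ j (a + i) - m| := by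
    intro i hi m
    have h3 := hdist i hi
    have h4 := hg m
    have h5 := abs_sub_abs_le_abs_sub (γ + j / (2 * Real.pi * y) - m) (-(aw_ph γ j (a + i + 1) - aw_ph γ j (a + i) - (γ + j / (2 * Real.pi * y))))
    rw [abs_neg] at h5
    have h6 : γ + j / (2 * Real.pi * y) - m - -(aw_ph γ j (a + i + 1) - aw_ph γ j (a + i) - (γ + j / (2 * Real.pi * y))) =
        aw_ph γ j (a + (i + 1)) - aw_ph γ j (a + i) - m := by
      rw [← add_assoc]
      ring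
    rw [h6] at h5
    linarith
  set κ : ℝ := |(j : ℝ)| / (2 * Real.pi) * (2 * q ^ 2) with hκ
  have hK : ∀ i < N, |(aw_ph γ j (a + (i + 1 + 1)) - aw_ph γ j (a + (i + 1))) - (aw_ph γ j (a + (i + 1)) - aw_ph γ j (a + i))| ≤ κ := by
    intro i hi
    have hn1 : 1 ≤ a + i := by omega
    obtain ⟨l1, l2⟩ := aw_log hn1
    obtain ⟨l3, l4⟩ := aw_log (n := a + i + 1) (by omega)
    have s1 := aw_step γ j (a + i)
    have s2 := aw_step γ j (a + i + 1)
    have hn0 : (0 : ℝ) < ((a + i : ℕ) : ℝ) := by exact_mod_cast (by omega : 0 < a + i)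
    have hL : |(Real.log ((a + i + 1 + 1 : ℕ) : ℝ) - Real.log ((a + i + 1 : ℕ) : ℝ)) -
        (Real.log ((a + i + 1 : ℕ) : ℝ) - Real.log ((a + i : ℕ) : ℝ))| ≤ 2 * q ^ 2 := by
      have h3 : 1 / ((a + i : ℕ) : ℝ) - 1 / (((a + i + 1 : ℕ) : ℝ) + 1) ≤ 2 * (1 / ((a + i : ℕ) : ℝ)) ^ 2 := by
        rw [div_pow, one_pow, mul_one_div, Nat.cast_add (a + i) 1, Nat.cast_one,
          div_sub_div _ _ hn0.ne' (by positivity), div_le_div_iff₀ (by positivity) (by positivity)]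
        nlinarith [mul_pos hn0 hn0, mul_pos (mul_pos hn0 hn0) hn0]
      have h4 : (1 / ((a + i : ℕ) : ℝ)) ^ 2 ≤ q ^ 2 := pow_le_pow_left₀ (by positivity) (hlin i) 2
      have h5 : 1 / ((a + i + 1 : ℕ) : ℝ) = 1 / (((a + i : ℕ) : ℝ) + 1) := by
        push_cast
        ring
      rw [abs_le]
      constructor
      · linarith
      · have := sq_nonneg q
        linarith
    have h4 : (aw_ph γ j (a + (i + 1 + 1)) - aw_ph γ j (a + (i + 1))) - (aw_ph γ j (a + (i + 1)) - aw_ph γ j (a + i)) =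
        j / (2 * Real.pi) * ((Real.log ((a + i + 1 + 1 : ℕ) : ℝ) - Real.log ((a + i + 1 : ℕ) : ℝ)) -
        (Real.log ((a + i + 1 : ℕ) : ℝ) - Real.log ((a + i : ℕ) : ℝ))) := by
      rw [← add_assoc, ← add_assoc, s1, s2]
      ring
    rw [h4, abs_mul, abs_div, abs_of_pos (by positivity : (0 : ℝ) < 2 * Real.pi)]
    exact mul_le_mul_of_nonneg_left hL (by positivity)
  have hmain := aw_abel (fun i => 1 / ((a + i : ℕ) : ℝ)) (fun i => aw_ph γ j (a + i)) (W := q) (ρ := ρ) (κ := κ) hρ N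
    (fun i _ => by positivity) (hlin 0)
    (fun i _ => by
      have hn0 : (0 : ℝ) < ((a + i : ℕ) : ℝ) := by exact_mod_cast (by omega : 0 < a + i)
      refine one_div_le_one_div_of_le hn0 ?_
      exact_mod_cast (by omega : a + i ≤ a + (i + 1))) hD hK
  refine hmain.trans ?_
  have h8 : (N : ℝ) * (q * (2 * Real.pi * κ) / (16 * ρ ^ 2)) ≤ q / (2 * ρ) := by
    have h9 : (N : ℝ) * (2 * Real.pi * κ) ≤ 2.42 * ρ := by
      rw [hκ]
      have h10 : 2 * Real.pi * (|(j : ℝ)| / (2 * Real.pi) * (2 * q ^ 2)) = 2 * (|(j : ℝ)| * q ^ 2) := by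
        field_simp
      rw [h10]
      have h11 : (0 : ℝ) ≤ |(j : ℝ)| * q ^ 2 := by positivity
      push_cast at hjq
      nlinarith
    have h12 : (N : ℝ) * (q * (2 * Real.pi * κ) / (16 * ρ ^ 2)) = q * (N * (2 * Real.pi * κ)) / (16 * ρ ^ 2) := by ring
    rw [h12, div_le_div_iff₀ (by positivity) (by positivity)]
    have h13 : q * (N * (2 * Real.pi * κ)) ≤ q * (2.42 * ρ) := mul_le_mul_of_nonneg_left h9 hq0.le
    have h14 : q * (N * (2 * Real.pi * κ)) * (2 * ρ) ≤ q * (2.42 * ρ) * (2 * ρ) := mul_le_mul_of_nonneg_right h13 (by positivity)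
    nlinarith [mul_pos hq0 (mul_pos hρ hρ)]
  have h15 : q / (2 * ρ) + q / (2 * ρ) = q / ρ := by
    field_simp
    ring
  linarith

private theorem aw_bad {X : ℕ} {γ γ0 ρ : ℝ} {j : ℤ} (hρ : 0 < ρ) (hργ : 4 * ρ ≤ γ0)
    (hγ : ∀ m : ℤ, γ0 ≤ |γ - m|) (hj : 1000 * |(j : ℝ)| ≤ X) (S : Finset ℕ)
    (hS : ∀ y ∈ S, X0 X < y ∧ y ≤ X ∧ ∃ m : ℤ, |γ + j / (2 * Real.pi * y) - m| < 2 * ρ) :
    (S.card : ℝ) ≤ 8 * ρ * X / γ0 + 1 := by
  have hγ0 : 0 < γ0 := by linarith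
  rcases S.eq_empty_or_nonempty with hE | hE
  · rw [hE, card_empty]
    push_cast
    positivity
  have hpi := Real.pi_gt_d2
  have hhalf : γ0 ≤ 1 / 2 := (hγ (round γ)).trans (abs_sub_round γ)
  obtain ⟨a1, a2, m1, a3⟩ := hS _ (S.min'_mem hE)
  obtain ⟨b1, b2, m2, b3⟩ := hS _ (S.max'_mem hE)
  set a := S.min' hE with ha
  set b := S.max' hE with hb
  have hab : a ≤ b := S.min'_le_max' hE
  have hsub : S ⊆ Icc a b := by
    intro y hy
    rw [mem_Icc]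
    exact ⟨S.min'_le y hy, S.le_max' y hy⟩
  have hcard : S.card ≤ b + 1 - a := by
    have := card_le_card hsub
    rwa [Nat.card_Icc] at this
  have ha0 : (0 : ℝ) < a := by exact_mod_cast (by omega : 0 < a)
  have hb0 : (0 : ℝ) < b := by exact_mod_cast (by omega : 0 < b)
  have hx : ∀ y : ℕ, X0 X < y → |(j : ℝ) / (2 * Real.pi * y)| ≤ 0.18 := by
    intro y hy
    have h1 := aw_X0 hy
    have hy0 : (0 : ℝ) < y := by exact_mod_cast (by omega : 0 < y)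
    rw [abs_div, abs_of_pos (by positivity : 0 < 2 * Real.pi * (y : ℝ)), div_le_iff₀ (by positivity)]
    nlinarith [mul_pos (by linarith : (0 : ℝ) < Real.pi - 3.14) hy0]
  have hx1 := hx a a1
  have hx2 := hx b b1
  have hm : m1 = m2 := by
    by_contra hne
    have h1 : (1 : ℝ) ≤ |(m1 : ℝ) - m2| := by
      have : 1 ≤ |m1 - m2| := Int.one_le_abs (sub_ne_zero.mpr hne)
      exact_mod_cast this
    rw [abs_lt] at a3 b3
    rw [abs_le] at hx1 hx2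
    rcases le_abs.mp h1 with h2 | h2 <;> linarith
  subst hm
  set x1 : ℝ := (j : ℝ) / (2 * Real.pi * a) with hx1d
  set x2 : ℝ := (j : ℝ) / (2 * Real.pi * b) with hx2d
  have h1 : γ0 / 2 ≤ |x1| := by
    have h2 := hγ m1
    have h3 : γ - m1 = (γ + x1 - m1) - x1 := by ring
    have h4 := abs_sub (γ + x1 - m1) x1
    rw [← h3] at h4
    linarith
  have h2 : |x1 - x2| ≤ 4 * ρ := by
    have h3 : x1 - x2 = (γ + x1 - m1) - (γ + x2 - m1) := by ring
    rw [h3]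
    refine (abs_sub _ _).trans ?_
    linarith
  have h3 : x1 - x2 = x1 * ((b - a) / b) := by
    rw [hx1d, hx2d]
    field_simp
  have hba : (0 : ℝ) ≤ (b : ℝ) - a := by
    have : (a : ℝ) ≤ b := by exact_mod_cast hab
    linarith
  rw [h3, abs_mul, abs_of_nonneg (div_nonneg hba hb0.le)] at h2
  have h4 : γ0 / 2 * (((b : ℝ) - a) / b) ≤ 4 * ρ :=
    (mul_le_mul_of_nonneg_right h1 (div_nonneg hba hb0.le)).trans h2
  have h5 : (b : ℝ) - a ≤ 8 * ρ * X / γ0 := by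
    rw [le_div_iff₀ hγ0]
    rw [mul_div_assoc', div_le_iff₀ hb0] at h4
    have h6 : (b : ℝ) ≤ X := by exact_mod_cast b2
    nlinarith
  have h6 : (S.card : ℝ) ≤ (b : ℝ) + 1 - a := by
    have : (S.card : ℝ) ≤ ((b + 1 - a : ℕ) : ℝ) := by exact_mod_cast hcard
    rw [Nat.cast_sub (by omega)] at this
    push_cast at this
    exact this
  linarith

/-- **Row AW.** -/
theorem away : ∃ C : ℝ, 0 < C ∧ ∀ (X H : ℕ) (γ γ0 ρ : ℝ) (j : ℤ), 1 ≤ H → 1000 * H ≤ X → 0 < ρ → 4 * ρ ≤ γ0 →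
    (∀ m : ℤ, γ0 ≤ |γ - m|) → 1000 * |(j : ℝ)| ≤ X → 1000000 * |(j : ℝ)| * H ≤ ρ * X ^ 2 →
      ∑ y ∈ range (X + H + 1), ‖∑ n ∈ Ioc (y - H) y, (if X0 X < n ∧ n ≤ X then
        ((1 / (n : ℝ) : ℝ) : ℂ) * (starRingEnd ℂ) (cj j n) * e (n * γ) else 0)‖ ^ 2 ≤
          C / X * ((H : ℝ) ^ 2 * (ρ / γ0) + 1 / ρ ^ 2) + C * (H : ℝ) ^ 3 / (X : ℝ) ^ 2 := by
  classical
  refine ⟨10 * 1100 ^ 2, by norm_num, ?_⟩
  intro X H γ γ0 ρ j hH hHX hρ hργ hγ hj hjH
  have hX : 0 < X := by omega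
  have hXp : (0 : ℝ) < X := by exact_mod_cast hX
  have hHp : (1 : ℝ) ≤ H := by exact_mod_cast hH
  have hγ0 : 0 < γ0 := by linarith
  set T : ℝ := ((H : ℝ) * (1100 / X)) ^ 2 with hT
  set G : ℝ := (1100 / X / ρ) ^ 2 with hG
  have hT0 : 0 ≤ T := sq_nonneg _
  have hG0 : 0 ≤ G := sq_nonneg _
  set Cr : Finset ℕ := Ioo (X0 X) (X0 X + H) ∪ Ioc X (X + H) with hCr
  set Bd : Finset ℕ := (Ioc (X0 X) X).filter fun y => ∃ m : ℤ, |γ + j / (2 * Real.pi * y) - m| < 2 * ρ with hBd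
  have hpt : ∀ y ∈ range (X + H + 1), ‖∑ n ∈ Ioc (y - H) y, (if X0 X < n ∧ n ≤ X then
        ((1 / (n : ℝ) : ℝ) : ℂ) * (starRingEnd ℂ) (cj j n) * e (n * γ) else 0)‖ ^ 2 ≤
        (if y ∈ Cr then T else 0) + (if y ∈ Bd then T else 0) + G := by
    intro y hy
    rw [mem_range] at hy
    have ht : ‖∑ n ∈ Ioc (y - H) y, (if X0 X < n ∧ n ≤ X then
        ((1 / (n : ℝ) : ℝ) : ℂ) * (starRingEnd ℂ) (cj j n) * e (n * γ) else 0)‖ ^ 2 ≤ T :=
      pow_le_pow_left₀ (norm_nonneg _) (aw_triv hX γ j y) 2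
    have hc0 : (0 : ℝ) ≤ if y ∈ Cr then T else 0 := by split_ifs <;> linarith
    have hb0 : (0 : ℝ) ≤ if y ∈ Bd then T else 0 := by split_ifs <;> linarith
    by_cases hc : y ∈ Cr
    · rw [if_pos hc]
      linarith
    by_cases hb : y ∈ Bd
    · rw [if_pos hb]
      linarith
    by_cases h0 : y ≤ X0 X
    · rw [aw_zero γ j y h0, norm_zero]
      have : (0 : ℝ) ^ 2 = 0 := by norm_num
      rw [this]
      linarith
    have h1 : X0 X + H ≤ y ∧ y ≤ X := by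
      rw [hCr, mem_union, mem_Ioo, mem_Ioc] at hc
      omega
    have h2 : ∀ m : ℤ, 2 * ρ ≤ |γ + j / (2 * Real.pi * y) - m| := by
      intro m
      by_contra h
      apply hb
      rw [hBd, mem_filter, mem_Ioc]
      exact ⟨⟨by omega, h1.2⟩, m, not_le.mp h⟩
    have h3 := aw_good hX hH hρ hjH h1.1 h1.2 h2
    have h4 : ‖∑ n ∈ Ioc (y - H) y, (if X0 X < n ∧ n ≤ X then
        ((1 / (n : ℝ) : ℝ) : ℂ) * (starRingEnd ℂ) (cj j n) * e (n * γ) else 0)‖ ^ 2 ≤ G :=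
      pow_le_pow_left₀ (norm_nonneg _) h3 2
    linarith
  refine (sum_le_sum hpt).trans ?_
  rw [sum_add_distrib, sum_add_distrib, sum_const, card_range, nsmul_eq_mul, sum_ite_mem, sum_ite_mem, sum_const,
    sum_const, nsmul_eq_mul, nsmul_eq_mul]
  have c1 : (((range (X + H + 1)) ∩ Cr).card : ℝ) ≤ 2 * H := by
    have d1 : ((range (X + H + 1)) ∩ Cr).card ≤ 2 * H := by
      refine (card_le_card inter_subset_right).trans ?_
      rw [hCr]
      refine (card_union_le _ _).trans ?_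
      rw [Nat.card_Ioo, Nat.card_Ioc]
      omega
    exact_mod_cast d1
  have c2 : (((range (X + H + 1)) ∩ Bd).card : ℝ) ≤ 8 * ρ * X / γ0 + 1 := by
    refine aw_bad hρ hργ hγ hj _ fun y hy => ?_
    rw [mem_inter, hBd, mem_filter, mem_Ioc] at hy
    exact ⟨hy.2.1.1, hy.2.1.2, hy.2.2⟩
  have c3 : ((X + H + 1 : ℕ) : ℝ) ≤ 2 * X := by
    have : X + H + 1 ≤ 2 * X := by omega
    exact_mod_cast this
  have f1 : (((range (X + H + 1)) ∩ Cr).card : ℝ) * T ≤ 2 * H * T := mul_le_mul_of_nonneg_right c1 hT0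
  have f2 : (((range (X + H + 1)) ∩ Bd).card : ℝ) * T ≤ (8 * ρ * X / γ0 + 1) * T := mul_le_mul_of_nonneg_right c2 hT0
  have f3 : ((X + H + 1 : ℕ) : ℝ) * G ≤ 2 * X * G := mul_le_mul_of_nonneg_right c3 hG0
  have g1 : 2 * (X : ℝ) * G = 2 * 1100 ^ 2 / X * (1 / ρ ^ 2) := by
    rw [hG]
    field_simp
  have g2 : 8 * ρ * X / γ0 * T = 8 * 1100 ^ 2 / X * ((H : ℝ) ^ 2 * (ρ / γ0)) := by
    rw [hT]
    field_simp
  have g3 : 2 * (H : ℝ) * T = 2 * 1100 ^ 2 * ((H : ℝ) ^ 3 / (X : ℝ) ^ 2) := by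
    rw [hT]
    field_simp
  have g4 : T ≤ 1100 ^ 2 * ((H : ℝ) ^ 3 / (X : ℝ) ^ 2) := by
    have h1 : T = 1100 ^ 2 * ((H : ℝ) ^ 2 / (X : ℝ) ^ 2) := by
      rw [hT]
      field_simp
    rw [h1]
    refine mul_le_mul_of_nonneg_left ?_ (by norm_num)
    refine div_le_div_of_nonneg_right ?_ (by positivity)
    exact pow_le_pow_right₀ hHp (by norm_num)
  have k1 : (0 : ℝ) ≤ 1 / X * (1 / ρ ^ 2) := by positivity
  have k2 : (0 : ℝ) ≤ 1 / X * ((H : ℝ) ^ 2 * (ρ / γ0)) := by positivity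
  have k3 : (0 : ℝ) ≤ (H : ℝ) ^ 3 / (X : ℝ) ^ 2 := by positivity
  have r1 : 2 * 1100 ^ 2 / (X : ℝ) * (1 / ρ ^ 2) = 2 * 1100 ^ 2 * (1 / X * (1 / ρ ^ 2)) := by ring
  have r2 : 8 * 1100 ^ 2 / (X : ℝ) * ((H : ℝ) ^ 2 * (ρ / γ0)) = 8 * 1100 ^ 2 * (1 / X * ((H : ℝ) ^ 2 * (ρ / γ0))) := by ring
  have r3 : 10 * 1100 ^ 2 / (X : ℝ) * ((H : ℝ) ^ 2 * (ρ / γ0) + 1 / ρ ^ 2) + 10 * 1100 ^ 2 * (H : ℝ) ^ 3 / (X : ℝ) ^ 2 =
      10 * 1100 ^ 2 * (1 / X * ((H : ℝ) ^ 2 * (ρ / γ0))) + 10 * 1100 ^ 2 * (1 / X * (1 / ρ ^ 2)) +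
        10 * 1100 ^ 2 * ((H : ℝ) ^ 3 / (X : ℝ) ^ 2) := by ring
  rw [r3]
  rw [g1, r1] at f3
  rw [g3] at f1
  have f2' : (8 * ρ * X / γ0 + 1) * T = 8 * 1100 ^ 2 * (1 / X * ((H : ℝ) ^ 2 * (ρ / γ0))) + T := by
    rw [add_mul, g2, r2, one_mul]
  rw [f2'] at f2
  nlinarith

end Pool.Agent.Lib.G3
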