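import Pool.Agent.Lib.G3.Away

/-!
# G3, row AM: the local mean square of the model away from its frequency
-/

set_option autoImplicit false

open Finset

namespace Pool.Agent.Lib.G3

open Pool.Agent.Lib.MRT (cj kap)
open Pool.Agent.Lib.GT (e)
open Pool.Agent.Lib.SW (nd gmin)

/-- the window sum of one frequency -/
private noncomputable def amA (X H : ℕ) (γ : ℝ) (j : ℤ) (y : ℕ) : ℂ :=
  ∑ n ∈ Ioc (y - H) y, (if X0 X < n ∧ n ≤ X then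
    ((1 / (n : ℝ) : ℝ) : ℂ) * (starRingEnd ℂ) (cj j n) * e (n * γ) else 0)

private theorem am_ww (X H : ℕ) (γ : ℝ) (b : ℤ → ℂ) (J : Finset ℤ) (y : ℕ) :
    WW (fun n => mo b J X n) H γ y = ∑ j ∈ J, ((1 / (2 * Real.pi) : ℝ) : ℂ) * b j * amA X H γ j y := by
  unfold WW mo amA
  simp only [Finset.mul_sum]
  rw [Finset.sum_comm]
  refine Finset.sum_congr rfl fun n _ => ?_
  split_ifs with h
  · rw [Finset.sum_mul]
    refine Finset.sum_congr rfl fun j _ => ?_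
    push_cast
    have hpi : (Real.pi : ℂ) ≠ 0 := by exact_mod_cast Real.pi_ne_zero
    have hn : (n : ℂ) ≠ 0 := by
      have : n ≠ 0 := by omega
      exact_mod_cast this
    field_simp
  · simp

theorem awayMo : ∃ C : ℝ, 0 < C ∧ ∀ (X H : ℕ) (γ γ0 ρ S T : ℝ) (b : ℤ → ℂ) (J : Finset ℤ), 1 ≤ H → 1000 * H ≤ X → 0 < ρ →
    4 * ρ ≤ γ0 → (∀ m : ℤ, γ0 ≤ |γ - m|) → (∀ j ∈ J, |(j : ℝ)| ≤ T) → 1000 * T ≤ X → 1000000 * T * H ≤ ρ * X ^ 2 → 0 ≤ S →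
    (∀ j ∈ J, ‖b j‖ ≤ S) →
      VV (fun n => mo b J X n) H γ (X + H + 1) ≤
        C * (J.card : ℝ) ^ 2 * S ^ 2 * (1 / X * ((H : ℝ) ^ 2 * (ρ / γ0) + 1 / ρ ^ 2) + (H : ℝ) ^ 3 / (X : ℝ) ^ 2) := by
  obtain ⟨C, hC, hA⟩ := away
  refine ⟨C, hC, ?_⟩
  intro X H γ γ0 ρ S T b J hH hX hρ hγ0 hγ hT hTX hTH hS hb
  have hH0 : (0 : ℝ) < H := by exact_mod_cast hH
  set E : ℝ := C / X * ((H : ℝ) ^ 2 * (ρ / γ0) + 1 / ρ ^ 2) + C * (H : ℝ) ^ 3 / (X : ℝ) ^ 2 with hE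
  have h1 : ∀ j ∈ J, ∑ y ∈ range (X + H + 1), ‖amA X H γ j y‖ ^ 2 ≤ E := by
    intro j hj
    refine hA X H γ γ0 ρ j hH hX hρ hγ0 hγ ?_ ?_
    · nlinarith [hT j hj]
    · calc 1000000 * |(j : ℝ)| * H ≤ 1000000 * T * H := by
            have := hT j hj
            have h0 := abs_nonneg (j : ℝ)
            gcongr
        _ ≤ ρ * X ^ 2 := hTH
  have hpi : (1 / (2 * Real.pi) : ℝ) ≤ 1 := by
    rw [div_le_one (by positivity)]
    linarith [Real.pi_gt_three]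
  have h2 : ∀ y, ‖WW (fun n => mo b J X n) H γ y‖ ^ 2 ≤ S ^ 2 * (J.card * ∑ j ∈ J, ‖amA X H γ j y‖ ^ 2) := by
    intro y
    have h3 : ‖WW (fun n => mo b J X n) H γ y‖ ≤ S * ∑ j ∈ J, ‖amA X H γ j y‖ := by
      rw [am_ww, Finset.mul_sum]
      refine (norm_sum_le _ _).trans (Finset.sum_le_sum fun j hj => ?_)
      rw [norm_mul, norm_mul, Complex.norm_real, Real.norm_of_nonneg (by positivity)]
      have h4 := hb j hj
      calc 1 / (2 * Real.pi) * ‖b j‖ * ‖amA X H γ j y‖ ≤ 1 * S * ‖amA X H γ j y‖ := by gcongr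
        _ = _ := by ring
    calc ‖WW (fun n => mo b J X n) H γ y‖ ^ 2 ≤ (S * ∑ j ∈ J, ‖amA X H γ j y‖) ^ 2 :=
          pow_le_pow_left₀ (norm_nonneg _) h3 2
      _ = S ^ 2 * (∑ j ∈ J, ‖amA X H γ j y‖) ^ 2 := by ring
      _ ≤ _ := by
          gcongr
          exact sq_sum_le_card_mul_sum_sq
  unfold VV
  calc ∑ y ∈ range (X + H + 1), ‖WW (fun n => mo b J X n) H γ y‖ ^ 2
      ≤ ∑ y ∈ range (X + H + 1), S ^ 2 * (J.card * ∑ j ∈ J, ‖amA X H γ j y‖ ^ 2) := Finset.sum_le_sum fun y _ => h2 y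
    _ = S ^ 2 * (J.card * ∑ j ∈ J, ∑ y ∈ range (X + H + 1), ‖amA X H γ j y‖ ^ 2) := by
        rw [← Finset.mul_sum, ← Finset.mul_sum, Finset.sum_comm]
    _ ≤ S ^ 2 * (J.card * ∑ j ∈ J, E) := by
        gcongr with j hj
        exact h1 j hj
    _ = _ := by
        rw [Finset.sum_const, nsmul_eq_mul, hE]
        ring

end Pool.Agent.Lib.G3
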