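import Pool.Agent.Lib.G3.G2Defs
import Pool.Agent.Lib.G3.Btf
import Pool.Agent.Lib.G3.Ab

/-!
# G2, row BB: facts on `b2`

A product `p r` with `p` prime in `(P, 2P]`, `r` prime in `(R, 2R]`, `2P ≤ R`, determines `p` and `r`.
-/

set_option autoImplicit false

open Finset

namespace Pool.Agent.Lib.G3

open Pool.Agent.Lib.MRT (cj kap)
open Pool.Agent.Lib.GT (e)

/-- the weight of `r` -/
noncomputable def bbw (R r : ℕ) : ℝ := lp r / Real.log (2 * R : ℕ)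

private theorem bb_w {R r : ℕ} (hr : r ∈ pr R) : 0 ≤ bbw R r ∧ bbw R r ≤ 1 := by
  obtain ⟨⟨h1, h2⟩, h3⟩ := bf_mem_pr.1 hr
  have e1 : lp r = Real.log r := by rw [lp, if_pos h3]
  have hr1 : (1 : ℝ) ≤ r := by exact_mod_cast h3.one_lt.le
  have hr2 : (r : ℝ) ≤ (2 * R : ℕ) := by exact_mod_cast h2
  have hl0 : 0 ≤ Real.log r := Real.log_nonneg hr1
  have hl1 : Real.log r ≤ Real.log (2 * R : ℕ) := Real.log_le_log (by linarith) hr2
  rw [bbw, e1]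
  exact ⟨div_nonneg hl0 (hl0.trans hl1), div_le_one_of_le₀ hl1 (hl0.trans hl1)⟩

private theorem bb_b2 (P R n : ℕ) :
    b2 P R n = ∑ p ∈ pr P, ∑ r ∈ pr R, if p * r = n then ((bbw R r : ℝ) : ℂ) else 0 := by
  rw [b2]
  rfl

private theorem bb_uniq {P R p p' r r' : ℕ} (hPR : 2 * P ≤ R) (hp : p ∈ pr P) (hp' : p' ∈ pr P)
    (hr' : r' ∈ pr R) (h : p * r = p' * r') : p = p' ∧ r = r' := by
  obtain ⟨⟨h1, h2⟩, h3⟩ := bf_mem_pr.1 hp
  obtain ⟨⟨h1', h2'⟩, h3'⟩ := bf_mem_pr.1 hp'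
  obtain ⟨⟨h4, h5⟩, h6⟩ := bf_mem_pr.1 hr'
  have h7 : p ∣ p' * r' := h ▸ Dvd.intro r rfl
  have hpp : p = p' := by
    rcases (h3.dvd_mul).1 h7 with h8 | h8
    · exact (Nat.prime_dvd_prime_iff_eq h3 h3').1 h8
    · have := (Nat.prime_dvd_prime_iff_eq h3 h6).1 h8
      omega
  subst hpp
  exact ⟨rfl, Nat.eq_of_mul_eq_mul_left h3.pos h⟩

private theorem bb_cases {P R : ℕ} (hPR : 2 * P ≤ R) (n : ℕ) :
    b2 P R n = 0 ∨ ∃ p ∈ pr P, ∃ r ∈ pr R, p * r = n ∧ b2 P R n = ((bbw R r : ℝ) : ℂ) := by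
  by_cases hex : ∃ p ∈ pr P, ∃ r ∈ pr R, p * r = n
  · obtain ⟨p, hp, r, hr, hk⟩ := hex
    right
    refine ⟨p, hp, r, hr, hk, ?_⟩
    rw [bb_b2, sum_eq_single p, sum_eq_single r]
    · rw [if_pos hk]
    · intro r' hr' hne
      refine if_neg fun h => hne ?_
      exact (bb_uniq hPR hp hp hr (h.trans hk.symm)).2
    · intro h; exact absurd hr h
    · intro p' hp' hne
      refine sum_eq_zero fun r' hr' => if_neg fun h => hne ?_
      exact (bb_uniq hPR hp' hp hr (h.trans hk.symm)).1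
    · intro h; exact absurd hp h
  · left
    push Not at hex
    rw [bb_b2]
    exact sum_eq_zero fun p hp => sum_eq_zero fun r hr => if_neg (hex p hp r hr)

theorem b2_le {P R : ℕ} (hPR : 2 * P ≤ R) (n : ℕ) : ‖b2 P R n‖ ≤ 1 := by
  rcases bb_cases hPR n with h | ⟨p, -, r, hr, -, h⟩
  · rw [h, norm_zero]; exact zero_le_one
  · rw [h, Complex.norm_real, Real.norm_of_nonneg (bb_w hr).1]
    exact (bb_w hr).2

private theorem bb_size {P R p r : ℕ} (hp : p ∈ pr P) (hr : r ∈ pr R) :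
    P * R < p * r ∧ p * r ≤ 4 * (P * R) := by
  obtain ⟨⟨h1, h2⟩, -⟩ := bf_mem_pr.1 hp
  obtain ⟨⟨h3, h4⟩, -⟩ := bf_mem_pr.1 hr
  constructor
  · exact Nat.mul_lt_mul'' h1 h3
  · calc p * r ≤ (2 * P) * (2 * R) := Nat.mul_le_mul h2 h4
      _ = 4 * (P * R) := by ring

theorem b2_supp {P R : ℕ} (hPR : 2 * P ≤ R) {n : ℕ} (hn : b2 P R n ≠ 0) :
    P * R < n ∧ n ≤ 4 * (P * R) ∧ ∀ p : ℕ, p.Prime → p ∣ n → P < p := by
  rcases bb_cases hPR n with h | ⟨p, hp, r, hr, hk, -⟩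
  · exact absurd h hn
  · obtain ⟨h1, h2⟩ := bb_size hp hr
    rw [hk] at h1 h2
    refine ⟨h1, h2, fun l hl hln => ?_⟩
    obtain ⟨⟨h3, h4⟩, h5⟩ := bf_mem_pr.1 hp
    obtain ⟨⟨h6, h7⟩, h8⟩ := bf_mem_pr.1 hr
    rw [← hk] at hln
    rcases (hl.dvd_mul).1 hln with h9 | h9
    · rw [(Nat.prime_dvd_prime_iff_eq hl h5).1 h9]
      exact h3
    · rw [(Nat.prime_dvd_prime_iff_eq hl h8).1 h9]
      omega

/-- sums over `b2` -/
theorem bb_sum_mul {P R X : ℕ} (hX : 4 * (P * R) ≤ X) (g : ℕ → ℂ) :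
    ∑ n ∈ Icc 1 X, b2 P R n * g n = ∑ p ∈ pr P, ∑ r ∈ pr R, ((bbw R r : ℝ) : ℂ) * g (p * r) := by
  have h1 : ∀ n, b2 P R n * g n = ∑ p ∈ pr P, ∑ r ∈ pr R,
      if p * r = n then ((bbw R r : ℝ) : ℂ) * g n else 0 := by
    intro n
    rw [bb_b2, sum_mul]
    refine sum_congr rfl fun p _ => ?_
    rw [sum_mul]
    refine sum_congr rfl fun r _ => ?_
    rw [ite_mul, zero_mul]
  simp only [h1]
  rw [sum_comm]
  refine sum_congr rfl fun p hp => ?_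
  rw [sum_comm]
  refine sum_congr rfl fun r hr => ?_
  obtain ⟨h2, h3⟩ := bb_size hp hr
  rw [sum_ite_eq, if_pos]
  exact mem_Icc.2 ⟨by omega, h3.trans hX⟩

theorem b2_bc {P R X : ℕ} (hX : 4 * (P * R) ≤ X) {q : ℕ} (χ : DirichletCharacter ℂ q) (j : ℤ) :
    bc (b2 P R) X χ j = RR χ P j * RL χ R j / ((Real.log (2 * R : ℕ) : ℝ) : ℂ) := by
  have h1 : bc (b2 P R) X χ j = ∑ n ∈ Icc 1 X, b2 P R n * (χ (n : ZMod q) * cj j n) := by
    rw [bc]
    refine sum_congr rfl fun n _ => ?_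
    rw [mul_assoc]
  rw [h1, bb_sum_mul hX, RR, RL, mul_div_assoc, sum_mul]
  refine sum_congr rfl fun p hp => ?_
  rw [sum_div, mul_sum]
  refine sum_congr rfl fun r hr => ?_
  have hp0 : p ≠ 0 := (bf_mem_pr.1 hp).2.ne_zero
  have hr0 : r ≠ 0 := (bf_mem_pr.1 hr).2.ne_zero
  rw [Pool.Agent.Lib.MRT.cj_mul j hp0 hr0, bbw, Complex.ofReal_div]
  push_cast
  rw [map_mul]
  ring

theorem b2_bil {P R : ℕ} (hPR : 2 * P ≤ R) : ∃ c b : ℕ → ℂ, (∀ n, ‖c n‖ ≤ 1) ∧ (∀ n, ‖b n‖ ≤ 1) ∧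
    ∀ n, b2 P R n = ∑ p ∈ Ioc P (2 * P), ∑ m ∈ Icc 1 (2 * R), if p * m = n then c p * b m else 0 := by
  classical
  refine ⟨fun p => if p.Prime then 1 else 0, fun m => if m ∈ pr R then ((bbw R m : ℝ) : ℂ) else 0,
    fun n => ?_, fun n => ?_, fun n => ?_⟩
  · simp only
    split_ifs
    · rw [norm_one]
    · rw [norm_zero]; exact zero_le_one
  · simp only
    split_ifs with h
    · rw [Complex.norm_real, Real.norm_of_nonneg (bb_w h).1]
      exact (bb_w h).2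
    · rw [norm_zero]; exact zero_le_one
  · have hsub : pr R ⊆ Icc 1 (2 * R) := by
      intro r hr
      obtain ⟨⟨h1, h2⟩, h3⟩ := bf_mem_pr.1 hr
      exact mem_Icc.2 ⟨by omega, h2⟩
    have hin : ∀ p, ∑ r ∈ pr R, (if p * r = n then ((bbw R r : ℝ) : ℂ) else 0) =
        ∑ m ∈ Icc 1 (2 * R), if p * m = n then (if m ∈ pr R then ((bbw R m : ℝ) : ℂ) else 0) else 0 := by
      intro p
      rw [← sum_subset hsub]
      · refine sum_congr rfl fun r hr => ?_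
        rw [if_pos hr]
      · intro m _ hm
        rw [if_neg hm, ite_self]
    rw [bb_b2]
    simp only [hin]
    rw [pr, sum_filter]
    refine sum_congr rfl fun p _ => ?_
    by_cases hpp : p.Prime
    · rw [if_pos hpp]
      simp only [if_pos hpp, one_mul]
    · rw [if_neg hpp]
      symm
      refine sum_eq_zero fun m _ => ?_
      simp only [if_neg hpp, zero_mul, ite_self]

theorem b2_sum {P R X : ℕ} (hX : 4 * (P * R) ≤ X) :
    ∑ n ∈ Icc 1 X, b2 P R n = (pr P).card * ((∑ r ∈ pr R, lp r / Real.log (2 * R : ℕ) : ℝ) : ℂ) := by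
  have h1 := bb_sum_mul (P := P) (R := R) hX (fun _ => 1)
  simp only [mul_one] at h1
  rw [h1, sum_const, nsmul_eq_mul, Complex.ofReal_sum]
  rfl

theorem b2_two {P R n : ℕ} (hPR : 2 * P ≤ R) (h : b2 P R n ≠ 0) :
    (∃ x : ℝ, 0 ≤ x ∧ x ≤ 1 ∧ b2 P R n = x) ∧ Squarefree n ∧ n.primeFactors.card = 2 := by
  rcases bb_cases hPR n with h0 | ⟨p, hp, r, hr, hn, hb⟩
  · exact absurd h0 h
  obtain ⟨⟨hp1, hp2⟩, hpp⟩ := bf_mem_pr.1 hp
  obtain ⟨⟨hr1, hr2⟩, hrp⟩ := bf_mem_pr.1 hr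
  have hpr : p ≠ r := by omega
  have c : Nat.Coprime p r := (Nat.coprime_primes hpp hrp).2 hpr
  refine ⟨⟨bbw R r, (bb_w hr).1, (bb_w hr).2, hb⟩, ?_, ?_⟩
  · rw [← hn, Nat.squarefree_mul_iff]
    exact ⟨c, hpp.squarefree, hrp.squarefree⟩
  · rw [← hn, Nat.Coprime.primeFactors_mul c, card_union_of_disjoint c.disjoint_primeFactors,
      hpp.primeFactors, hrp.primeFactors, card_singleton, card_singleton]

/-- lower bound for the mass of the long prime variable -/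
theorem b2_low : ∃ x0 : ℝ, ∀ R : ℕ, x0 ≤ R → (R : ℝ) / 4 ≤ ∑ r ∈ pr R, lp r := by
  obtain ⟨x0, hx0⟩ := pr_card
  refine ⟨max x0 3, fun R hR => ?_⟩
  have hR3 : (3 : ℝ) ≤ R := (le_max_right _ _).trans hR
  have hR0 : (0 : ℝ) < R := by linarith
  have hc := hx0 R ((le_max_left _ _).trans hR)
  have hlog : 0 < Real.log R := Real.log_pos (by linarith)
  have h1 : ((pr R).card : ℝ) * Real.log R ≤ ∑ r ∈ pr R, lp r := by
    rw [← nsmul_eq_mul]
    refine card_nsmul_le_sum _ _ _ fun r hr => ?_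
    obtain ⟨⟨a, b⟩, c⟩ := bf_mem_pr.1 hr
    rw [lp, if_pos c]
    exact Real.log_le_log hR0 (by exact_mod_cast a.le)
  have h2 : (R : ℝ) / 2 ≤ (pr R).card * Real.log R := by
    have := mul_le_mul_of_nonneg_right hc hlog.le
    calc (R : ℝ) / 2 = R / (2 * Real.log R) * Real.log R := by field_simp
      _ ≤ _ := this
  linarith

end Pool.Agent.Lib.G3
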