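import Pool.Agent.Lib.G3.G5Defs
import Pool.Agent.Lib.G3.B2f

/-!
# G5, row BF, file B5f.lean (as B2f.lean)
-/

set_option autoImplicit false

open Finset

namespace Pool.Agent.Lib.G3

open Pool.Agent.Lib.MRT (cj kap)
open Pool.Agent.Lib.GT (e)


private theorem bf5_mem {P P' p : ℕ} : p ∈ pi5 P P' ↔ (P < p ∧ p ≤ P') ∧ p.Prime := by
  rw [pi5, mem_filter, mem_Ioc]

private theorem bf5_w {R r : ℕ} (hr : r ∈ pr R) : 0 ≤ bbw R r ∧ bbw R r ≤ 1 := by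
  obtain ⟨⟨h1, h2⟩, h3⟩ := bf_mem_pr.1 hr
  have e1 : lp r = Real.log r := by rw [lp, if_pos h3]
  have hr1 : (1 : ℝ) ≤ r := by exact_mod_cast h3.one_lt.le
  have hr2 : (r : ℝ) ≤ (2 * R : ℕ) := by exact_mod_cast h2
  have hl0 : 0 ≤ Real.log r := Real.log_nonneg hr1
  have hl1 : Real.log r ≤ Real.log (2 * R : ℕ) := Real.log_le_log (by linarith) hr2
  rw [bbw, e1]
  exact ⟨div_nonneg hl0 (hl0.trans hl1), div_le_one_of_le₀ hl1 (hl0.trans hl1)⟩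

private theorem bf5_b5 (P P' R n : ℕ) :
    b5 P P' R n = ∑ p ∈ pi5 P P', ∑ r ∈ pr R, if p * r = n then ((bbw R r : ℝ) : ℂ) else 0 := by
  rw [b5]
  rfl

private theorem bf5_uniq {P P' R p p' r r' : ℕ} (hR : 2 * P' ≤ R) (hp : p ∈ pi5 P P')
    (hp' : p' ∈ pi5 P P') (hr' : r' ∈ pr R) (h : p * r = p' * r') : p = p' ∧ r = r' := by
  obtain ⟨⟨h1, h2⟩, h3⟩ := bf5_mem.1 hp
  obtain ⟨⟨h1', h2'⟩, h3'⟩ := bf5_mem.1 hp'
  obtain ⟨⟨h4, h5⟩, h6⟩ := bf_mem_pr.1 hr'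
  have h7 : p ∣ p' * r' := h ▸ Dvd.intro r rfl
  have hpp : p = p' := by
    rcases (h3.dvd_mul).1 h7 with h8 | h8
    · exact (Nat.prime_dvd_prime_iff_eq h3 h3').1 h8
    · have := (Nat.prime_dvd_prime_iff_eq h3 h6).1 h8
      omega
  subst hpp
  exact ⟨rfl, Nat.eq_of_mul_eq_mul_left h3.pos h⟩

private theorem bf5_cases {P P' R : ℕ} (hR : 2 * P' ≤ R) (n : ℕ) :
    b5 P P' R n = 0 ∨ ∃ p ∈ pi5 P P', ∃ r ∈ pr R, p * r = n ∧ b5 P P' R n = ((bbw R r : ℝ) : ℂ) := by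
  by_cases hex : ∃ p ∈ pi5 P P', ∃ r ∈ pr R, p * r = n
  · obtain ⟨p, hp, r, hr, hk⟩ := hex
    right
    refine ⟨p, hp, r, hr, hk, ?_⟩
    rw [bf5_b5, sum_eq_single p, sum_eq_single r]
    · rw [if_pos hk]
    · intro r' hr' hne
      refine if_neg fun h => hne ?_
      exact (bf5_uniq hR hp hp hr (h.trans hk.symm)).2
    · intro h; exact absurd hr h
    · intro p' hp' hne
      refine sum_eq_zero fun r' hr' => if_neg fun h => hne ?_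
      exact (bf5_uniq hR hp' hp hr (h.trans hk.symm)).1
    · intro h; exact absurd hp h
  · left
    push Not at hex
    rw [bf5_b5]
    exact sum_eq_zero fun p hp => sum_eq_zero fun r hr => if_neg (hex p hp r hr)

theorem b5_le {P P' R : ℕ} (hR : 2 * P' ≤ R) (n : ℕ) : ‖b5 P P' R n‖ ≤ 1 := by
  rcases bf5_cases hR n with h | ⟨p, -, r, hr, -, h⟩
  · rw [h, norm_zero]; exact zero_le_one
  · rw [h, Complex.norm_real, Real.norm_of_nonneg (bf5_w hr).1]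
    exact (bf5_w hr).2

private theorem bf5_size {P P' R p r : ℕ} (hp : p ∈ pi5 P P') (hr : r ∈ pr R) :
    P * R < p * r ∧ p * r ≤ 2 * (P' * R) := by
  obtain ⟨⟨h1, h2⟩, -⟩ := bf5_mem.1 hp
  obtain ⟨⟨h3, h4⟩, -⟩ := bf_mem_pr.1 hr
  constructor
  · exact Nat.mul_lt_mul'' h1 h3
  · calc p * r ≤ P' * (2 * R) := Nat.mul_le_mul h2 h4
      _ = 2 * (P' * R) := by ring

theorem b5_supp {P P' R : ℕ} (hR : 2 * P' ≤ R) {n : ℕ} (hn : b5 P P' R n ≠ 0) :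
    P * R < n ∧ n ≤ 2 * (P' * R) ∧ ∀ p : ℕ, p.Prime → p ∣ n → P < p := by
  rcases bf5_cases hR n with h | ⟨p, hp, r, hr, hk, -⟩
  · exact absurd h hn
  · obtain ⟨h1, h2⟩ := bf5_size hp hr
    rw [hk] at h1 h2
    refine ⟨h1, h2, fun l hl hln => ?_⟩
    obtain ⟨⟨h3, h4⟩, h5⟩ := bf5_mem.1 hp
    obtain ⟨⟨h6, h7⟩, h8⟩ := bf_mem_pr.1 hr
    rw [← hk] at hln
    rcases (hl.dvd_mul).1 hln with h9 | h9
    · rw [(Nat.prime_dvd_prime_iff_eq hl h5).1 h9]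
      exact h3
    · rw [(Nat.prime_dvd_prime_iff_eq hl h8).1 h9]
      omega

theorem b5_sum_mul {P P' R X : ℕ} (hX : 2 * (P' * R) ≤ X) (g : ℕ → ℂ) :
    ∑ n ∈ Icc 1 X, b5 P P' R n * g n = ∑ p ∈ pi5 P P', ∑ r ∈ pr R, ((lp r / Real.log (2 * R : ℕ) : ℝ) : ℂ) * g (p * r) := by
  show _ = ∑ p ∈ pi5 P P', ∑ r ∈ pr R, ((bbw R r : ℝ) : ℂ) * g (p * r)
  have h1 : ∀ n, b5 P P' R n * g n = ∑ p ∈ pi5 P P', ∑ r ∈ pr R,
      if p * r = n then ((bbw R r : ℝ) : ℂ) * g n else 0 := by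
    intro n
    rw [bf5_b5, sum_mul]
    refine sum_congr rfl fun p _ => ?_
    rw [sum_mul]
    refine sum_congr rfl fun r _ => ?_
    rw [ite_mul, zero_mul]
  simp only [h1]
  rw [sum_comm]
  refine sum_congr rfl fun p hp => ?_
  rw [sum_comm]
  refine sum_congr rfl fun r hr => ?_
  obtain ⟨h2, h3⟩ := bf5_size hp hr
  rw [sum_ite_eq, if_pos]
  exact mem_Icc.2 ⟨by omega, h3.trans hX⟩

theorem b5_bc {P P' R X : ℕ} (hX : 2 * (P' * R) ≤ X) {q : ℕ} (χ : DirichletCharacter ℂ q) (j : ℤ) :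
    bc (b5 P P' R) X χ j = R5 χ P P' j * (RL χ R j / ((Real.log (2 * R : ℕ) : ℝ) : ℂ)) := by
  have h1 : bc (b5 P P' R) X χ j = ∑ n ∈ Icc 1 X, b5 P P' R n * (χ (n : ZMod q) * cj j n) := by
    rw [bc]
    refine sum_congr rfl fun n _ => ?_
    rw [mul_assoc]
  rw [h1, b5_sum_mul hX, R5, RL, sum_mul]
  refine sum_congr rfl fun p hp => ?_
  rw [sum_div, mul_sum]
  refine sum_congr rfl fun r hr => ?_
  have hp0 : p ≠ 0 := (bf5_mem.1 hp).2.ne_zero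
  have hr0 : r ≠ 0 := (bf_mem_pr.1 hr).2.ne_zero
  rw [Pool.Agent.Lib.MRT.cj_mul j hp0 hr0, Complex.ofReal_div]
  push_cast
  rw [map_mul]
  ring

theorem b5_bil {P P' R : ℕ} (hPP : P' ≤ 2 * P) (hR : 2 * P' ≤ R) : ∃ c b : ℕ → ℂ, (∀ n, ‖c n‖ ≤ 1) ∧ (∀ n, ‖b n‖ ≤ 1) ∧
    ∀ n, b5 P P' R n = ∑ p ∈ Ioc P (2 * P), ∑ m ∈ Icc 1 (2 * R), if p * m = n then c p * b m else 0 := by
  classical
  refine ⟨fun p => if p.Prime ∧ p ≤ P' then 1 else 0,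
    fun m => if m ∈ pr R then ((bbw R m : ℝ) : ℂ) else 0, fun n => ?_, fun n => ?_, fun n => ?_⟩
  · simp only
    split_ifs
    · rw [norm_one]
    · rw [norm_zero]; exact zero_le_one
  · simp only
    split_ifs with h
    · rw [Complex.norm_real, Real.norm_of_nonneg (bf5_w h).1]
      exact (bf5_w h).2
    · rw [norm_zero]; exact zero_le_one
  · have hsub : pr R ⊆ Icc 1 (2 * R) := by
      intro r hr
      obtain ⟨⟨h1, h2⟩, h3⟩ := bf_mem_pr.1 hr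
      exact mem_Icc.2 ⟨by omega, h2⟩
    have hin : ∀ p, ∑ r ∈ pr R, (if p * r = n then ((bbw R r : ℝ) : ℂ) else 0) =
        ∑ m ∈ Icc 1 (2 * R), if p * m = n then (if m ∈ pr R then ((bbw R m : ℝ) : ℂ) else 0) else 0 := by
      intro p
      rw [← sum_subset hsub]
      · refine sum_congr rfl fun r hr => ?_
        rw [if_pos hr]
      · intro m _ hm
        rw [if_neg hm, ite_self]
    have hpi : pi5 P P' = (Ioc P (2 * P)).filter (fun p => p.Prime ∧ p ≤ P') := by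
      ext p
      rw [bf5_mem, mem_filter, mem_Ioc]
      constructor
      · rintro ⟨⟨h1, h2⟩, h3⟩
        exact ⟨⟨h1, h2.trans hPP⟩, h3, h2⟩
      · rintro ⟨⟨h1, h2⟩, h3, h4⟩
        exact ⟨⟨h1, h4⟩, h3⟩
    rw [bf5_b5]
    simp only [hin]
    rw [hpi, sum_filter]
    refine sum_congr rfl fun p _ => ?_
    by_cases hpp : p.Prime ∧ p ≤ P'
    · rw [if_pos hpp]
      simp only [if_pos hpp, one_mul]
    · rw [if_neg hpp]
      symm
      refine sum_eq_zero fun m _ => ?_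
      simp only [if_neg hpp, zero_mul, ite_self]

end Pool.Agent.Lib.G3
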