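import Pool.Agent.Lib.MRT.Defs

/-!
# G3 / Cell: bilinear sums over `R < kl ≤ 2R` as sums of products over short cells of `k`, up to a boundary error
-/

set_option autoImplicit false

open Finset

namespace Pool.Agent.Lib.G3

open Pool.Agent.Lib.MRT (cj norm_cj cj_mul)

/-- end of the cell `i` -/
def cw (D h : ℕ) (i : ℕ) : ℕ := D + i * (D / h + 1)

theorem cell_cover (D D' h : ℕ) (hDD : D ≤ D') (hD2 : D' ≤ 2 * D) (hh : 1 ≤ h) (f : ℕ → ℂ) :
    ∑ k ∈ Ioc D D', f k = ∑ i ∈ range h, ∑ k ∈ Ioc (min (cw D h i) D') (min (cw D h (i + 1)) D'), f k := by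
  have key : ∀ m : ℕ, ∑ i ∈ range m, ∑ k ∈ Ioc (min (cw D h i) D') (min (cw D h (i + 1)) D'), f k =
      ∑ k ∈ Ioc D (min (cw D h m) D'), f k := by
    intro m
    induction m with
    | zero =>
      unfold cw
      simp [min_eq_left hDD]
    | succ m ih =>
      rw [sum_range_succ, ih]
      refine sum_Ioc_consecutive f ?_ ?_
      · refine le_min ?_ hDD
        unfold cw
        exact Nat.le_add_right _ _
      · refine min_le_min_right _ ?_
        unfold cw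
        gcongr
        omega
  rw [key h]
  congr 2
  rw [min_eq_right]
  refine hD2.trans ?_
  unfold cw
  have h1 : D < h * (D / h + 1) := by
    have := Nat.lt_mul_div_succ D (show 0 < h by omega)
    exact this
  omega

/-- one row of the boundary error as a sum over the products -/
theorem cell_row (b : ℕ → ℂ) (j : ℤ) {R k κ R1 : ℕ} (hk : 1 ≤ k) (hR1 : k * (R / κ) ≤ R1) :
    ∑ l ∈ Ioc (R / k) (R / κ), b l * cj j (k * l) =
      ∑ n ∈ Ioc R R1, (if k ∣ n ∧ n / k ≤ R / κ then b (n / k) else 0) * cj j n := by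
  classical
  have e : ∑ n ∈ Ioc R R1, (if k ∣ n ∧ n / k ≤ R / κ then b (n / k) else 0) * cj j n =
      ∑ n ∈ (Ioc R R1).filter (fun n => k ∣ n ∧ n / k ≤ R / κ), b (n / k) * cj j n := by
    rw [sum_filter]
    refine sum_congr rfl fun n _ => ?_
    split_ifs
    · rfl
    · rw [zero_mul]
  rw [e]
  refine sum_nbij' (fun l => k * l) (fun n => n / k) ?_ ?_ ?_ ?_ ?_
  · intro l hl
    rw [mem_Ioc] at hl
    rw [mem_filter, mem_Ioc]
    refine ⟨⟨?_, (Nat.mul_le_mul_left k hl.2).trans hR1⟩, Dvd.intro _ rfl, ?_⟩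
    · have := (Nat.div_lt_iff_lt_mul hk).mp hl.1
      rw [mul_comm]
      exact this
    · rw [Nat.mul_div_cancel_left _ hk]
      exact hl.2
  · intro n hn
    rw [mem_filter, mem_Ioc] at hn
    rw [mem_Ioc]
    refine ⟨?_, hn.2.2⟩
    obtain ⟨c, rfl⟩ := hn.2.1
    rw [Nat.mul_div_cancel_left _ hk]
    rw [Nat.div_lt_iff_lt_mul hk, mul_comm]
    exact hn.1.1
  · intro l _
    exact Nat.mul_div_cancel_left _ hk
  · intro n hn
    rw [mem_filter] at hn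
    exact Nat.mul_div_cancel' hn.2.1
  · intro l _
    rw [Nat.mul_div_cancel_left _ hk]

/-- the coefficients of the boundary error -/
noncomputable def ce (a b : ℕ → ℂ) (D D' n : ℕ) : ℝ := ∑ k ∈ Ioc D D', if k ∣ n then ‖a k‖ * ‖b (n / k)‖ else 0

/-- the boundary error -/
theorem cell_err (a b : ℕ → ℂ) (U : Finset ℤ) {R D D' h : ℕ} (hD : 1 ≤ D) (hDD : D ≤ D') (hD2 : D' ≤ 2 * D) (hh : 1 ≤ h)
    {HR We : ℝ} (hHR : 0 ≤ HR)
    (hE : ∀ e : ℕ → ℂ, ∑ j ∈ U, ‖∑ n ∈ Ioc R (R + (D / h + 1) * (R / D)), e n * cj j n‖ ^ 2 ≤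
      HR * ∑ n ∈ Ioc R (R + (D / h + 1) * (R / D)), ‖e n‖ ^ 2)
    (hW : ∑ n ∈ Ioc R (R + (D / h + 1) * (R / D)), ce a b D D' n ^ 2 ≤ We) :
    ∑ j ∈ U, ‖∑ i ∈ range h, ∑ k ∈ Ioc (min (cw D h i) D') (min (cw D h (i + 1)) D'),
      a k * ∑ l ∈ Ioc (R / k) (R / cw D h i), b l * cj j (k * l)‖ ^ 2 ≤ HR * We := by
  classical
  set R1 : ℕ := R + (D / h + 1) * (R / D) with hR1
  set I : ℕ → Finset ℕ := fun i => Ioc (min (cw D h i) D') (min (cw D h (i + 1)) D') with hI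
  set e : ℕ → ℂ := fun n => ∑ i ∈ range h, ∑ k ∈ I i, a k * (if k ∣ n ∧ n / k ≤ R / cw D h i then b (n / k) else 0) with he
  have h1 : ∀ j : ℤ, ∑ i ∈ range h, ∑ k ∈ I i, a k * ∑ l ∈ Ioc (R / k) (R / cw D h i), b l * cj j (k * l) =
      ∑ n ∈ Ioc R R1, e n * cj j n := by
    intro j
    have h2 : ∀ i ∈ range h, ∀ k ∈ I i, a k * ∑ l ∈ Ioc (R / k) (R / cw D h i), b l * cj j (k * l) =
        ∑ n ∈ Ioc R R1, a k * ((if k ∣ n ∧ n / k ≤ R / cw D h i then b (n / k) else 0) * cj j n) := by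
      intro i _ k hk
      rw [hI, mem_Ioc] at hk
      have hkD' : k ≤ D' := hk.2.trans (min_le_right _ _)
      have hkw : k ≤ cw D h (i + 1) := hk.2.trans (min_le_left _ _)
      have hcwk : cw D h i < k := by
        rcases min_lt_iff.mp hk.1 with h3 | h3
        · exact h3
        · omega
      have hcD : D ≤ cw D h i := by unfold cw; exact Nat.le_add_right _ _
      rw [cell_row b j (k := k) (κ := cw D h i) (R1 := R1) (by omega) ?_, mul_sum]
      have h4 : k ≤ cw D h i + (D / h + 1) := by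
        have : cw D h (i + 1) = cw D h i + (D / h + 1) := by unfold cw; ring
        omega
      calc k * (R / cw D h i) ≤ (cw D h i + (D / h + 1)) * (R / cw D h i) := Nat.mul_le_mul_right _ h4
        _ = cw D h i * (R / cw D h i) + (D / h + 1) * (R / cw D h i) := by ring
        _ ≤ R + (D / h + 1) * (R / D) := by
          refine add_le_add (Nat.mul_div_le _ _) (Nat.mul_le_mul_left _ (Nat.div_le_div_left hcD hD))
    rw [sum_congr rfl fun i hi => sum_congr rfl fun k hk => h2 i hi k hk]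
    rw [sum_congr rfl fun i _ => sum_comm, sum_comm]
    refine sum_congr rfl fun n _ => ?_
    rw [he, sum_mul]
    refine sum_congr rfl fun i _ => ?_
    rw [sum_mul]
    refine sum_congr rfl fun k _ => ?_
    ring
  have h3 : ∀ n, ‖e n‖ ≤ ce a b D D' n := by
    intro n
    have h4 : (ce a b D D' n : ℂ) = ∑ k ∈ Ioc D D', ((if k ∣ n then ‖a k‖ * ‖b (n / k)‖ else 0 : ℝ) : ℂ) := by
      unfold ce
      push_cast
      rfl
    have h5 : ce a b D D' n = ∑ i ∈ range h, ∑ k ∈ I i, if k ∣ n then ‖a k‖ * ‖b (n / k)‖ else 0 := by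
      have h6 := cell_cover D D' h hDD hD2 hh (fun k => ((if k ∣ n then ‖a k‖ * ‖b (n / k)‖ else 0 : ℝ) : ℂ))
      rw [← h4] at h6
      exact_mod_cast h6
    rw [h5, he]
    refine (norm_sum_le _ _).trans (sum_le_sum fun i _ => (norm_sum_le _ _).trans (sum_le_sum fun k _ => ?_))
    rw [norm_mul]
    by_cases h7 : k ∣ n
    · rw [if_pos h7]
      refine mul_le_mul_of_nonneg_left ?_ (norm_nonneg _)
      split_ifs
      · exact le_rfl
      · rw [norm_zero]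
        exact norm_nonneg _
    · rw [if_neg h7, if_neg (fun h8 => h7 h8.1), norm_zero, mul_zero]
  calc ∑ j ∈ U, ‖∑ i ∈ range h, ∑ k ∈ I i, a k * ∑ l ∈ Ioc (R / k) (R / cw D h i), b l * cj j (k * l)‖ ^ 2 =
      ∑ j ∈ U, ‖∑ n ∈ Ioc R R1, e n * cj j n‖ ^ 2 := sum_congr rfl fun j _ => by rw [h1 j]
    _ ≤ HR * ∑ n ∈ Ioc R R1, ‖e n‖ ^ 2 := hE e
    _ ≤ HR * ∑ n ∈ Ioc R R1, ce a b D D' n ^ 2 := by
        refine mul_le_mul_of_nonneg_left (sum_le_sum fun n _ => ?_) hHR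
        exact pow_le_pow_left₀ (norm_nonneg _) (h3 n) 2
    _ ≤ HR * We := mul_le_mul_of_nonneg_left hW hHR

/-- the cell lemma -/
theorem cell (a b : ℕ → ℂ) (U : Finset ℤ) {R D D' h : ℕ} (hD : 1 ≤ D) (hDD : D ≤ D') (hD2 : D' ≤ 2 * D) (hh : 1 ≤ h)
    {α Wb HR We : ℝ} (_hα : 0 ≤ α) (hHR : 0 ≤ HR)
    (hA : ∀ j ∈ U, ∀ κ κ' : ℕ, D ≤ κ → κ ≤ κ' → κ' ≤ D' → ‖∑ k ∈ Ioc κ κ', a k * cj j k‖ ≤ α)
    (hB : ∀ κ : ℕ, D ≤ κ → κ ≤ D' → ∑ j ∈ U, ‖∑ l ∈ Ioc (R / κ) (2 * R / κ), b l * cj j l‖ ^ 2 ≤ Wb)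
    (hE1 : ∀ e : ℕ → ℂ, ∑ j ∈ U, ‖∑ n ∈ Ioc R (R + (D / h + 1) * (R / D)), e n * cj j n‖ ^ 2 ≤
      HR * ∑ n ∈ Ioc R (R + (D / h + 1) * (R / D)), ‖e n‖ ^ 2)
    (hE2 : ∀ e : ℕ → ℂ, ∑ j ∈ U, ‖∑ n ∈ Ioc (2 * R) (2 * R + (D / h + 1) * (2 * R / D)), e n * cj j n‖ ^ 2 ≤
      HR * ∑ n ∈ Ioc (2 * R) (2 * R + (D / h + 1) * (2 * R / D)), ‖e n‖ ^ 2)
    (hW1 : ∑ n ∈ Ioc R (R + (D / h + 1) * (R / D)), ce a b D D' n ^ 2 ≤ We)
    (hW2 : ∑ n ∈ Ioc (2 * R) (2 * R + (D / h + 1) * (2 * R / D)), ce a b D D' n ^ 2 ≤ We) :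
    ∑ j ∈ U, ‖∑ k ∈ Ioc D D', ∑ l ∈ Ioc (R / k) (2 * R / k), a k * b l * cj j (k * l)‖ ^ 2 ≤
      3 * ((h : ℝ) ^ 2 * α ^ 2 * Wb + 2 * (HR * We)) := by
  classical
  set I : ℕ → Finset ℕ := fun i => Ioc (min (cw D h i) D') (min (cw D h (i + 1)) D') with hI
  set A : ℕ → ℤ → ℂ := fun i j => ∑ k ∈ I i, a k * cj j k with hAd
  set B : ℕ → ℤ → ℂ := fun i j => ∑ l ∈ Ioc (R / cw D h i) (2 * R / cw D h i), b l * cj j l with hBd
  set E1 : ℤ → ℂ := fun j => ∑ i ∈ range h, ∑ k ∈ I i,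
      a k * ∑ l ∈ Ioc (R / k) (R / cw D h i), b l * cj j (k * l) with hE1d
  set E2 : ℤ → ℂ := fun j => ∑ i ∈ range h, ∑ k ∈ I i,
      a k * ∑ l ∈ Ioc (2 * R / k) (2 * R / cw D h i), b l * cj j (k * l) with hE2d
  have hcD : ∀ i, D ≤ cw D h i := fun i => by unfold cw; exact Nat.le_add_right _ _
  have hcwk : ∀ i, ∀ k ∈ I i, cw D h i < k ∧ k ≤ D' := by
    intro i k hk
    rw [hI, mem_Ioc] at hk
    have hkD' : k ≤ D' := hk.2.trans (min_le_right _ _)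
    refine ⟨?_, hkD'⟩
    rcases min_lt_iff.mp hk.1 with h3 | h3
    · exact h3
    · omega
  -- decomposition
  have hdec : ∀ j : ℤ, ∑ k ∈ Ioc D D', ∑ l ∈ Ioc (R / k) (2 * R / k), a k * b l * cj j (k * l) =
      ∑ i ∈ range h, A i j * B i j + E1 j - E2 j := by
    intro j
    rw [cell_cover D D' h hDD hD2 hh]
    simp only [hE1d, hE2d]
    rw [← sum_add_distrib, ← sum_sub_distrib]
    refine sum_congr rfl fun i _ => ?_
    simp only [hAd, hBd]
    rw [sum_mul, ← sum_add_distrib, ← sum_sub_distrib]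
    refine sum_congr rfl fun k hk => ?_
    obtain ⟨hk1, hk2⟩ := hcwk i k hk
    have hk0 : k ≠ 0 := by omega
    have h3 : a k * cj j k * ∑ l ∈ Ioc (R / cw D h i) (2 * R / cw D h i), b l * cj j l =
        a k * ∑ l ∈ Ioc (R / cw D h i) (2 * R / cw D h i), b l * cj j (k * l) := by
      rw [mul_assoc, mul_sum]
      congr 1
      refine sum_congr rfl fun l hl => ?_
      rw [mem_Ioc] at hl
      have hl0 : l ≠ 0 := Nat.ne_of_gt (lt_of_le_of_lt (Nat.zero_le _) hl.1)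
      rw [cj_mul j hk0 hl0]
      ring
    rw [h3, ← mul_add, ← mul_sub]
    have h4 : ∑ l ∈ Ioc (R / k) (2 * R / k), a k * b l * cj j (k * l) =
        a k * ∑ l ∈ Ioc (R / k) (2 * R / k), b l * cj j (k * l) := by
      rw [mul_sum]
      refine sum_congr rfl fun l _ => ?_
      ring
    rw [h4]
    congr 1
    have hc0 : 0 < cw D h i := by have := hcD i; omega
    have g1 : R / k ≤ R / cw D h i := Nat.div_le_div_left hk1.le hc0
    have g2 : 2 * R / k ≤ 2 * R / cw D h i := Nat.div_le_div_left hk1.le hc0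
    have g3 : R / cw D h i ≤ 2 * R / cw D h i := Nat.div_le_div_right (by omega)
    have g4 : R / k ≤ 2 * R / k := Nat.div_le_div_right (by omega)
    have s1 := sum_Ioc_consecutive (fun l => b l * cj j (k * l)) g4 g2
    have s2 := sum_Ioc_consecutive (fun l => b l * cj j (k * l)) g1 g3
    rw [← s2] at s1
    rw [eq_sub_iff_add_eq]
    rw [s1]
    ring
  have hmain : ∑ j ∈ U, ‖∑ i ∈ range h, A i j * B i j‖ ^ 2 ≤ (h : ℝ) ^ 2 * α ^ 2 * Wb := by
    have hterm : ∀ i ∈ range h, ∑ j ∈ U, (‖A i j‖ * ‖B i j‖) ^ 2 ≤ α ^ 2 * Wb := by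
      intro i _
      by_cases hc : cw D h i ≤ D'
      · calc ∑ j ∈ U, (‖A i j‖ * ‖B i j‖) ^ 2 ≤ ∑ j ∈ U, α ^ 2 * ‖B i j‖ ^ 2 := by
              refine sum_le_sum fun j hj => ?_
              rw [mul_pow]
              refine mul_le_mul_of_nonneg_right ?_ (by positivity)
              refine pow_le_pow_left₀ (norm_nonneg _) ?_ 2
              refine hA j hj _ _ (le_min (hcD i) hDD) ?_ (min_le_right _ _)
              refine min_le_min_right _ ?_
              unfold cw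
              gcongr
              omega
          _ = α ^ 2 * ∑ j ∈ U, ‖B i j‖ ^ 2 := by rw [mul_sum]
          _ ≤ α ^ 2 * Wb := mul_le_mul_of_nonneg_left (hB _ (hcD i) hc) (by positivity)
      · have h5 : I i = ∅ := by
          rw [hI]
          apply Ioc_eq_empty
          push Not at hc
          rw [min_eq_right hc.le]
          intro h6
          exact absurd h6 (not_lt.mpr (min_le_right _ _))
        have h6 : ∀ j, A i j = 0 := fun j => by simp only [hAd, h5, sum_empty]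
        have h7 : 0 ≤ Wb := (sum_nonneg fun _ _ => by positivity).trans (hB D le_rfl hDD)
        rw [sum_congr rfl fun j _ => by rw [h6 j]]
        simp only [norm_zero, zero_mul, ne_eq, OfNat.ofNat_ne_zero, not_false_eq_true, zero_pow, sum_const_zero]
        positivity
    calc ∑ j ∈ U, ‖∑ i ∈ range h, A i j * B i j‖ ^ 2 ≤ ∑ j ∈ U, (h : ℝ) * ∑ i ∈ range h, (‖A i j‖ * ‖B i j‖) ^ 2 := by
          refine sum_le_sum fun j _ => ?_
          have h5 : ‖∑ i ∈ range h, A i j * B i j‖ ≤ ∑ i ∈ range h, ‖A i j‖ * ‖B i j‖ := by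
            refine (norm_sum_le _ _).trans (sum_le_sum fun i _ => ?_)
            rw [norm_mul]
          refine (pow_le_pow_left₀ (norm_nonneg _) h5 2).trans ?_
          have h6 := sq_sum_le_card_mul_sum_sq (s := range h) (f := fun i => ‖A i j‖ * ‖B i j‖)
          rw [card_range] at h6
          exact h6
      _ = (h : ℝ) * ∑ i ∈ range h, ∑ j ∈ U, (‖A i j‖ * ‖B i j‖) ^ 2 := by
          rw [← mul_sum, sum_comm]
      _ ≤ (h : ℝ) * ∑ i ∈ range h, α ^ 2 * Wb := mul_le_mul_of_nonneg_left (sum_le_sum hterm) (Nat.cast_nonneg _)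
      _ = (h : ℝ) ^ 2 * α ^ 2 * Wb := by
          rw [sum_const, card_range, nsmul_eq_mul]
          ring
  have hb1 : ∑ j ∈ U, ‖E1 j‖ ^ 2 ≤ HR * We := cell_err a b U hD hDD hD2 hh hHR hE1 hW1
  have hb2 : ∑ j ∈ U, ‖E2 j‖ ^ 2 ≤ HR * We := cell_err a b U hD hDD hD2 hh hHR hE2 hW2
  calc ∑ j ∈ U, ‖∑ k ∈ Ioc D D', ∑ l ∈ Ioc (R / k) (2 * R / k), a k * b l * cj j (k * l)‖ ^ 2 =
      ∑ j ∈ U, ‖∑ i ∈ range h, A i j * B i j + E1 j - E2 j‖ ^ 2 := sum_congr rfl fun j _ => by rw [hdec j]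
    _ ≤ ∑ j ∈ U, 3 * (‖∑ i ∈ range h, A i j * B i j‖ ^ 2 + ‖E1 j‖ ^ 2 + ‖E2 j‖ ^ 2) := by
        refine sum_le_sum fun j _ => ?_
        have h5 := norm_sub_le (∑ i ∈ range h, A i j * B i j + E1 j) (E2 j)
        have h6 := norm_add_le (∑ i ∈ range h, A i j * B i j) (E1 j)
        have h7 := norm_nonneg (∑ i ∈ range h, A i j * B i j)
        have h8 := norm_nonneg (E1 j)
        have h9 := norm_nonneg (E2 j)
        have h10 : ‖∑ i ∈ range h, A i j * B i j + E1 j - E2 j‖ ≤ ‖∑ i ∈ range h, A i j * B i j‖ + ‖E1 j‖ + ‖E2 j‖ := by linarith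
        refine (pow_le_pow_left₀ (norm_nonneg _) h10 2).trans ?_
        nlinarith [sq_nonneg (‖∑ i ∈ range h, A i j * B i j‖ - ‖E1 j‖), sq_nonneg (‖∑ i ∈ range h, A i j * B i j‖ - ‖E2 j‖),
          sq_nonneg (‖E1 j‖ - ‖E2 j‖)]
    _ = 3 * (∑ j ∈ U, ‖∑ i ∈ range h, A i j * B i j‖ ^ 2 + ∑ j ∈ U, ‖E1 j‖ ^ 2 + ∑ j ∈ U, ‖E2 j‖ ^ 2) := by
        rw [← mul_sum, sum_add_distrib, sum_add_distrib]
    _ ≤ 3 * ((h : ℝ) ^ 2 * α ^ 2 * Wb + 2 * (HR * We)) := by linarith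

end Pool.Agent.Lib.G3
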