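import Pool.Agent.Lib.G3.KernM
import Pool.Agent.Lib.MP_092512_nt.VC.V1

/-!
# G3, kernel for high frequencies: `∑ m^(-ij)` over `(M, N]`, `N ≤ 2M`, `|j| ≤ M^(9/4)`, with a power saving

Two Weyl differencings and Kusmin–Landau (`VDC.vdc_ind`) for `|j| > M^(9/5)`, `kernM` below.
-/

set_option autoImplicit false

open Finset

namespace Pool.Agent.Lib.G3

open Pool.Agent.Lib.MRT (cj norm_cj)

private theorem kh_trivial (M N : ℕ) (hMN : M ≤ N) (j : ℤ) : ‖∑ m ∈ Ioc M N, cj j m‖ ≤ (N : ℝ) - M := by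
  refine (norm_sum_le _ _).trans ?_
  simp only [norm_cj]
  rw [sum_const, nsmul_eq_mul, mul_one, Nat.card_Ioc, Nat.cast_sub hMN]

/-- the range of high frequencies, `M = q^20` -/
private theorem kh_high {M N : ℕ} {j : ℤ} {q : ℝ} (hq : q ^ 20 = M) (hq3 : 3 ≤ q) (hMN : M ≤ N) (hN2 : N ≤ 2 * M)
    (h1 : q ^ 36 ≤ |(j : ℝ)|) (h2 : |(j : ℝ)| ≤ q ^ 45) : ‖∑ m ∈ Ioc M N, cj j m‖ ≤ 9 * q ^ 19 := by
  have hq0 : 0 < q := by linarith
  have hq1 : 1 ≤ q := by linarith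
  set K : ℕ := N - M with hK
  have hKr : (K : ℝ) = (N : ℝ) - M := by rw [hK, Nat.cast_sub hMN]
  have hKM : (K : ℝ) ≤ q ^ 20 := by
    rw [hq, hKr]
    have : (N : ℝ) ≤ 2 * M := by exact_mod_cast hN2
    linarith
  rcases lt_or_ge (K : ℝ) (q ^ 19) with hsm | hbig
  · have h3 := kh_trivial M N hMN j
    rw [← hKr] at h3
    have h4 : 0 < q ^ 19 := by positivity
    linarith
  have hj0 : 0 < |(j : ℝ)| := lt_of_lt_of_le (by positivity) h1
  have hjne : -(j : ℝ) ≠ 0 := by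
    intro h
    rw [neg_eq_zero] at h
    rw [h, abs_zero] at hj0
    exact lt_irrefl _ hj0
  set s : ℝ := Real.sqrt |(j : ℝ)| with hs
  have hs2 : s ^ 2 = |(j : ℝ)| := Real.sq_sqrt hj0.le
  have hs0 : 0 < s := Real.sqrt_pos.2 hj0
  have hs18 : q ^ 18 ≤ s := Real.le_sqrt_of_sq_le (by rw [← pow_mul]; exact h1)
  have hs23 : s ≤ q ^ 23 := by
    rw [hs, Real.sqrt_le_left (by positivity), ← pow_mul]
    exact h2.trans (pow_le_pow_right₀ hq1 (by norm_num))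
  -- parameters
  set R : ℕ := ⌊q ^ 5⌋₊ with hR
  set d : ℕ := ⌈q ^ 23 / s⌉₊ with hd
  have hq5 : (1 : ℝ) ≤ q ^ 5 := one_le_pow₀ hq1
  have hR1 : 1 ≤ R := by
    rw [hR, Nat.one_le_floor_iff]
    exact hq5
  have hRu : (R : ℝ) ≤ q ^ 5 := Nat.floor_le (by positivity)
  have hRl : q ^ 5 / 2 ≤ R := by
    have h3 : q ^ 5 < R + 1 := Nat.lt_floor_add_one _
    have h4 : (1 : ℝ) ≤ R := by exact_mod_cast hR1
    linarith
  have hR0 : (0 : ℝ) < R := by exact_mod_cast hR1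
  have hqs : 1 ≤ q ^ 23 / s := by rw [le_div_iff₀ hs0, one_mul]; exact hs23
  have hdl : q ^ 23 / s ≤ d := Nat.le_ceil _
  have hdu : (d : ℝ) ≤ 2 * (q ^ 23 / s) := by
    have := Nat.ceil_lt_add_one (show 0 ≤ q ^ 23 / s by positivity)
    rw [← hd] at this
    linarith
  have hd1 : 1 ≤ d := by
    rw [hd, Nat.one_le_ceil_iff]
    positivity
  have hd0 : (0 : ℝ) < d := by exact_mod_cast hd1
  have hds : q ^ 46 ≤ |(j : ℝ)| * (d : ℝ) ^ 2 := by
    have h3 : q ^ 23 ≤ s * d := by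
      have := mul_le_mul_of_nonneg_left hdl hs0.le
      rwa [mul_div_cancel₀ _ hs0.ne'] at this
    calc q ^ 46 = (q ^ 23) ^ 2 := by rw [← pow_mul]
      _ ≤ (s * d) ^ 2 := pow_le_pow_left₀ (by positivity) h3 2
      _ = |(j : ℝ)| * (d : ℝ) ^ 2 := by rw [mul_pow, hs2]
  have hRd : (R : ℝ) * d ≤ 2 * q ^ 28 / s := by
    calc (R : ℝ) * d ≤ q ^ 5 * (2 * (q ^ 23 / s)) := mul_le_mul hRu hdu hd0.le (by positivity)
      _ = 2 * q ^ 28 / s := by ring
  have hRd2 : (R : ℝ) * d ≤ 2 * q ^ 10 := by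
    refine hRd.trans ?_
    rw [div_le_iff₀ hs0]
    have : 2 * q ^ 28 = 2 * q ^ 10 * q ^ 18 := by ring
    rw [this]
    exact mul_le_mul_of_nonneg_left hs18 (by positivity)
  have hM0 : (0 : ℝ) < M := by rw [← hq]; positivity
  have hK1 : 1 ≤ K := by
    have : (0 : ℝ) < K := lt_of_lt_of_le (by positivity) hbig
    exact_mod_cast this
  have hK0 : (0 : ℝ) < K := by exact_mod_cast hK1
  -- the sum
  have hsum : ∑ m ∈ Ioc M N, cj j m =
      ∑ n ∈ range K, Complex.exp (Complex.I * ((-(j : ℝ) * VDC.D [] Real.log (((M : ℝ) + 1) + n) : ℝ) : ℂ)) := by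
    have e1 : Ioc M N = Ico (M + 1) (N + 1) := by ext a; simp only [mem_Ioc, mem_Ico]; omega
    rw [e1, Finset.sum_Ico_eq_sum_range, show N + 1 - (M + 1) = K by omega]
    refine Finset.sum_congr rfl fun n _ => ?_
    have e : ((M + 1 + n : ℕ) : ℝ) = ((M : ℝ) + 1) + n := by push_cast; ring
    unfold MRT.cj
    rw [VDC.D_nil, e, mul_comm Complex.I]
  have hq2 : (3 : ℝ) ^ 4 ≤ q ^ 4 := pow_le_pow_left₀ (by norm_num) hq3 4
  have hq10 : 10 * q ^ 10 ≤ q ^ 20 := by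
    have : (10 : ℝ) ≤ q ^ 10 := le_trans (by norm_num) (pow_le_pow_left₀ (by norm_num) hq3 10)
    calc 10 * q ^ 10 ≤ q ^ 10 * q ^ 10 := mul_le_mul_of_nonneg_right this (by positivity)
      _ = q ^ 20 := by ring
  have hq10' : (10 : ℝ) ≤ q ^ 10 := le_trans (by norm_num) (pow_le_pow_left₀ (by norm_num) hq3 10)
  have hkey := VDC.vdc_ind (-(j : ℝ)) ((M : ℝ) + 1) M 2 d R K hd1 hR1 hK1 hM0 hjne (by linarith) (by
      push_cast
      rw [← hq] at *
      nlinarith) (by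
      rw [abs_neg]
      have h3 : ((R : ℝ) * d) ^ 2 ≤ (2 * q ^ 28 / s) ^ 2 := pow_le_pow_left₀ (by positivity) hRd 2
      have h4 : (2 * q ^ 28 / s) ^ 2 = 4 * q ^ 56 / |(j : ℝ)| := by
        rw [div_pow, hs2, mul_pow, ← pow_mul]
        norm_num
      rw [h4] at h3
      have h5 : |(j : ℝ)| * (((R : ℝ) * d) ^ 2 * ((2 : ℕ).factorial : ℝ) / (M : ℝ) ^ (2 + 1)) ≤
          |(j : ℝ)| * ((4 * q ^ 56 / |(j : ℝ)|) * 2 / (M : ℝ) ^ 3) := by
        have : ((2 : ℕ).factorial : ℝ) = 2 := by norm_num [Nat.factorial]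
        rw [this]
        gcongr
      refine h5.trans ?_
      have h6 : |(j : ℝ)| * ((4 * q ^ 56 / |(j : ℝ)|) * 2 / (M : ℝ) ^ 3) = 8 / q ^ 4 := by
        rw [← hq]
        field_simp
        ring
      rw [h6, div_le_iff₀ (by positivity)]
      have := Real.pi_gt_three
      nlinarith) 2 le_rfl [] (by simp) (by intro p hp; simp at hp)
  rw [hsum]
  refine hkey.trans ?_
  rw [abs_neg]
  -- numerics
  set f0 : ℝ := 8 / (|(j : ℝ)| * ((d : ℝ) ^ 2 * ((2 : ℕ).factorial : ℝ) / (3 * (M : ℝ)) ^ (2 + 1))) / K with hf0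
  set E : ℝ := 2 * ((R * d : ℕ) : ℝ) / K with hE
  have hf0le : f0 ≤ 108 / q ^ 5 := by
    have h3 : f0 = 108 * q ^ 60 / (|(j : ℝ)| * (d : ℝ) ^ 2 * K) := by
      rw [hf0, ← hq]
      have : ((2 : ℕ).factorial : ℝ) = 2 := by norm_num [Nat.factorial]
      rw [this]
      field_simp
      ring
    rw [h3, div_le_div_iff₀ (by positivity) (by positivity)]
    have h4 : q ^ 46 * q ^ 19 ≤ |(j : ℝ)| * (d : ℝ) ^ 2 * K := mul_le_mul hds hbig (by positivity) (by positivity)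
    calc 108 * q ^ 60 * q ^ 5 = 108 * (q ^ 46 * q ^ 19) := by ring
      _ ≤ 108 * (|(j : ℝ)| * (d : ℝ) ^ 2 * K) := mul_le_mul_of_nonneg_left h4 (by norm_num)
  have hf00 : 0 ≤ f0 := by rw [hf0]; positivity
  have hEle : E ≤ 4 / q ^ 9 := by
    rw [hE]
    push_cast
    rw [div_le_div_iff₀ hK0 (by positivity)]
    have h3 : 2 * ((R : ℝ) * d) * q ^ 9 ≤ 2 * (2 * q ^ 10) * q ^ 9 := by gcongr
    have h4 : 2 * (2 * q ^ 10) * q ^ 9 = 4 * q ^ 19 := by ring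
    linarith
  have hE0 : 0 ≤ E := by rw [hE]; positivity
  have hRinv : 1 / (R : ℝ) ≤ 2 / q ^ 5 := by
    rw [div_le_div_iff₀ hR0 (by positivity)]
    linarith
  have hqq : 1 / q ^ 5 ≤ 1 / q ^ 4 := one_div_le_one_div_of_le (by positivity) (pow_le_pow_right₀ hq1 (by norm_num))
  have hfr1 : VDC.fr f0 R E 1 ≤ 15 / q ^ 2 := by
    show Real.sqrt (1 / R + VDC.fr f0 R E 0) + E ≤ 15 / q ^ 2
    have h3 : 1 / (R : ℝ) + VDC.fr f0 R E 0 ≤ (10.5 / q ^ 2) ^ 2 := by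
      show 1 / (R : ℝ) + f0 ≤ _
      have h4 : (10.5 / q ^ 2) ^ 2 = 110.25 * (1 / q ^ 4) := by
        rw [div_pow, ← pow_mul]
        norm_num
        ring
      have h5 : 108 / q ^ 5 = 108 * (1 / q ^ 5) := by ring
      have h6 : 2 / q ^ 5 = 2 * (1 / q ^ 5) := by ring
      rw [h4]
      have h7 : 0 ≤ 1 / q ^ 4 := by positivity
      linarith
    have h4 : Real.sqrt (1 / R + VDC.fr f0 R E 0) ≤ 10.5 / q ^ 2 := by
      rw [Real.sqrt_le_left (by positivity)]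
      exact h3
    have h5 : 4 / q ^ 9 ≤ 4 / q ^ 2 := div_le_div_of_nonneg_left (by norm_num) (by positivity) (pow_le_pow_right₀ hq1 (by norm_num))
    have h6 : 10.5 / q ^ 2 + 4 / q ^ 2 ≤ 15 / q ^ 2 := by
      rw [← add_div]
      apply div_le_div_of_nonneg_right (by norm_num) (by positivity)
    linarith
  have hfr10 : 0 ≤ VDC.fr f0 R E 1 := VDC.fr_nonneg hf00 hE0 1
  have hfr2 : VDC.fr f0 R E 2 ≤ 9 / q := by
    show Real.sqrt (1 / R + VDC.fr f0 R E 1) + E ≤ 9 / q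
    have h3 : 1 / (R : ℝ) + VDC.fr f0 R E 1 ≤ (5 / q) ^ 2 := by
      have h4 : (5 / q) ^ 2 = 25 / q ^ 2 := by rw [div_pow]; norm_num
      rw [h4]
      have h5 : 2 / q ^ 5 ≤ 2 / q ^ 2 := div_le_div_of_nonneg_left (by norm_num) (by positivity) (pow_le_pow_right₀ hq1 (by norm_num))
      have h6 : 2 / q ^ 2 + 15 / q ^ 2 ≤ 25 / q ^ 2 := by
        rw [← add_div]
        apply div_le_div_of_nonneg_right (by norm_num) (by positivity)
      linarith
    have h4 : Real.sqrt (1 / R + VDC.fr f0 R E 1) ≤ 5 / q := by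
      rw [Real.sqrt_le_left (by positivity)]
      exact h3
    have h5 : 4 / q ^ 9 ≤ 4 / q := by
      apply div_le_div_of_nonneg_left (by norm_num) hq0
      calc q = q ^ 1 := (pow_one q).symm
        _ ≤ q ^ 9 := pow_le_pow_right₀ hq1 (by norm_num)
    have h6 : 5 / q + 4 / q = 9 / q := by ring
    linarith
  calc VDC.fr f0 R E 2 * K ≤ 9 / q * q ^ 20 := mul_le_mul hfr2 hKM hK0.le (by positivity)
    _ = 9 * q ^ 19 := by
      field_simp

theorem kernH : ∃ C : ℝ, 0 < C ∧ ∀ (M N : ℕ) (j : ℤ), 1 ≤ M → M ≤ N → N ≤ 2 * M → j ≠ 0 →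
    |(j : ℝ)| ≤ (M : ℝ) ^ (9 / 4 : ℝ) → ‖∑ m ∈ Ioc M N, cj j m‖ ≤ C * (M / |(j : ℝ)| + (M : ℝ) ^ (19 / 20 : ℝ)) := by
  obtain ⟨C, hC, hk⟩ := kernM
  refine ⟨2 * C + 9, by positivity, ?_⟩
  intro M N j hM hMN hN2 hj hjM
  have hMr : (1 : ℝ) ≤ M := by exact_mod_cast hM
  have hM0 : (0 : ℝ) < M := by linarith
  set q : ℝ := (M : ℝ) ^ (1 / 20 : ℝ) with hqdef
  have hq1 : 1 ≤ q := Real.one_le_rpow hMr (by norm_num)
  have hpow : ∀ k : ℕ, q ^ k = (M : ℝ) ^ ((k : ℝ) / 20) := by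
    intro k
    rw [hqdef, ← Real.rpow_natCast, ← Real.rpow_mul hM0.le]
    congr 1
    ring
  have hq20 : q ^ 20 = M := by
    rw [hpow]
    norm_num
  have hq19 : q ^ 19 = (M : ℝ) ^ (19 / 20 : ℝ) := by rw [hpow]; norm_num
  have hq45 : q ^ 45 = (M : ℝ) ^ (9 / 4 : ℝ) := by rw [hpow]; norm_num
  have hj0 : 0 < |(j : ℝ)| := by
    rw [abs_pos]
    exact_mod_cast hj
  rw [← hq19]
  rw [← hq45] at hjM
  have hMj : 0 ≤ (M : ℝ) / |(j : ℝ)| := by positivity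
  have hq19p : 0 < q ^ 19 := by positivity
  by_cases h3 : 3 ≤ q
  · by_cases h36 : q ^ 36 ≤ |(j : ℝ)|
    · refine (kh_high hq20 h3 hMN hN2 h36 hjM).trans ?_
      nlinarith [mul_nonneg hC.le hMj, mul_nonneg hC.le hq19p.le]
    · push Not at h36
      refine (hk M N j hM hMN hN2 hj).trans ?_
      have h4 : (M : ℝ) ^ (3 / 4 : ℝ) ≤ q ^ 19 := by
        rw [hq19]
        exact Real.rpow_le_rpow_of_exponent_le hMr (by norm_num)
      have h5 : Real.sqrt |(j : ℝ)| ≤ q ^ 19 := by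
        rw [Real.sqrt_le_left (by positivity), ← pow_mul]
        exact h36.le.trans (pow_le_pow_right₀ hq1 (by norm_num))
      nlinarith [mul_nonneg hC.le hMj, mul_nonneg hC.le hq19p.le]
  · push Not at h3
    refine (kh_trivial M N hMN j).trans ?_
    have h4 : (N : ℝ) - M ≤ M := by
      have : (N : ℝ) ≤ 2 * M := by exact_mod_cast hN2
      linarith
    have h5 : (M : ℝ) ≤ 3 * q ^ 19 := by
      rw [← hq20]
      calc q ^ 20 = q * q ^ 19 := by ring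
        _ ≤ 3 * q ^ 19 := mul_le_mul_of_nonneg_right h3.le (by positivity)
    nlinarith [mul_nonneg hC.le hMj, mul_nonneg hC.le hq19p.le]

end Pool.Agent.Lib.G3
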