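import Pool.Agent.Lib.G3.Dual
import Pool.Agent.Lib.G3.KernH

/-!
# G3 / HmU: Halász–Montgomery over at most `X^(1/100)` integers, lengths from `X^(45/100)` on
-/

set_option autoImplicit false

open Finset

namespace Pool.Agent.Lib.G3

open Pool.Agent.Lib.MRT (cj kap)

private theorem hmU_harm (n : ℕ) : ∑ k ∈ Icc 1 n, (1 : ℝ) / k ≤ 1 + Real.log n := by
  have h := harmonic_le_one_add_log n
  rw [harmonic_eq_sum_Icc] at h
  push_cast at h
  simpa [one_div] using h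

/-- one side -/
private theorem hmU_side (V : Finset ℤ) (f : ℤ → ℕ) (n : ℕ) (hf : Set.InjOn f V) (h : ∀ j ∈ V, f j ∈ Icc 1 n) :
    ∑ j ∈ V, (1 : ℝ) / (f j : ℝ) ≤ 1 + Real.log n := by
  classical
  have h1 : ∑ j ∈ V, (1 : ℝ) / (f j : ℝ) = ∑ k ∈ V.image f, (1 : ℝ) / (k : ℝ) := by
    rw [sum_image hf]
  rw [h1]
  refine le_trans (sum_le_sum_of_subset_of_nonneg ?_ fun k _ _ => by positivity) (hmU_harm n)
  intro k hk
  obtain ⟨j, hj, rfl⟩ := mem_image.1 hk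
  exact h j hj

private theorem hmU_inv (U : Finset ℤ) (T : ℕ) (hU : ∀ j ∈ U, |(j : ℝ)| ≤ T) (j : ℤ) (hj : j ∈ U) :
    ∑ j' ∈ U.erase j, (1 : ℝ) / |((j - j' : ℤ) : ℝ)| ≤ 2 * (1 + Real.log ((2 * T : ℕ) : ℝ)) := by
  classical
  have hz : ∀ i ∈ U, |i| ≤ (T : ℤ) := fun i hi => by
    have := hU i hi
    exact_mod_cast this
  have hb : ∀ i ∈ U.erase j, (i - j).natAbs ∈ Icc 1 (2 * T) := by
    intro i hi
    have h1 := hz i (mem_of_mem_erase hi)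
    have h2 := hz j hj
    have h3 : i ≠ j := ne_of_mem_erase hi
    rw [abs_le] at h1 h2
    rw [mem_Icc]
    omega
  have e1 : ∀ i : ℤ, |((j - i : ℤ) : ℝ)| = (((i - j).natAbs : ℕ) : ℝ) := by
    intro i
    rw [Nat.cast_natAbs, Int.cast_abs, ← abs_neg]
    congr 1
    push_cast
    ring
  rw [← sum_filter_add_sum_filter_not (U.erase j) (fun i => i < j)]
  have s1 : ∑ i ∈ (U.erase j).filter (fun i => i < j), (1 : ℝ) / |((j - i : ℤ) : ℝ)| ≤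
      1 + Real.log ((2 * T : ℕ) : ℝ) := by
    rw [sum_congr rfl fun i _ => by rw [e1 i]]
    refine hmU_side _ (fun i => (i - j).natAbs) _ ?_ fun i hi => hb i (mem_of_mem_filter i hi)
    intro a ha b hb' hab
    have ha' := (mem_filter.1 (mem_coe.1 ha)).2
    have hb'' := (mem_filter.1 (mem_coe.1 hb')).2
    dsimp only at hab
    omega
  have s2 : ∑ i ∈ (U.erase j).filter (fun i => ¬ i < j), (1 : ℝ) / |((j - i : ℤ) : ℝ)| ≤
      1 + Real.log ((2 * T : ℕ) : ℝ) := by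
    rw [sum_congr rfl fun i _ => by rw [e1 i]]
    refine hmU_side _ (fun i => (i - j).natAbs) _ ?_ fun i hi => hb i (mem_of_mem_filter i hi)
    intro a ha b hb' hab
    have ha' := (mem_filter.1 (mem_coe.1 ha)).2
    have hb'' := (mem_filter.1 (mem_coe.1 hb')).2
    dsimp only at hab
    omega
  linarith

theorem hmU : ∃ (C x0 : ℝ), 0 < C ∧ ∀ X : ℕ, x0 ≤ X → ∀ (L L' T : ℕ) (a : ℕ → ℂ) (U : Finset ℤ),
    (X : ℝ) ^ (45 / 100 : ℝ) ≤ L → L ≤ X → L ≤ L' → L' ≤ 2 * L → T ≤ X → (∀ j ∈ U, |(j : ℝ)| ≤ T) →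
    (U.card : ℝ) ≤ (X : ℝ) ^ (1 / 100 : ℝ) →
      ∑ j ∈ U, ‖∑ l ∈ Ioc L L', a l * cj j l‖ ^ 2 ≤ C * L * Real.log X * ∑ l ∈ Ioc L L', ‖a l‖ ^ 2 := by
  classical
  obtain ⟨C1, hC1, hk⟩ := kernH
  have hgr : ∀ᶠ x : ℝ in Filter.atTop, (2 : ℝ) ≤ x ^ (1 / 80 : ℝ) :=
    (tendsto_rpow_atTop (by norm_num)).eventually (Filter.eventually_ge_atTop _)
  obtain ⟨x1, hx1⟩ := Filter.eventually_atTop.1 hgr
  refine ⟨1 + 12 * C1, max x1 3, by positivity, ?_⟩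
  intro X hX L L' T a U hL1 hL2 hL3 hL4 hT hU hc
  have hX3 : (3 : ℝ) ≤ X := (le_max_right _ _).trans hX
  have hX80 := hx1 X ((le_max_left _ _).trans hX)
  have hX0 : (0 : ℝ) < X := by linarith
  have hX1 : (1 : ℝ) ≤ X := by linarith
  have hl1 : 1 ≤ Real.log X := by
    rw [Real.le_log_iff_exp_le hX0]
    have := Real.exp_one_lt_d9
    linarith
  have hLpos : (1 : ℝ) ≤ L := (Real.one_le_rpow hX1 (by norm_num)).trans hL1
  have hL0 : (0 : ℝ) < L := by linarith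
  have hLn : 1 ≤ L := by exact_mod_cast hLpos
  have hq1 : (U.card : ℝ) * (L : ℝ) ^ (19 / 20 : ℝ) ≤ L := by
    have h1 : (X : ℝ) ^ (1 / 100 : ℝ) ≤ (L : ℝ) ^ (1 / 20 : ℝ) := by
      calc (X : ℝ) ^ (1 / 100 : ℝ) ≤ (X : ℝ) ^ (45 / 2000 : ℝ) := Real.rpow_le_rpow_of_exponent_le hX1 (by norm_num)
        _ = ((X : ℝ) ^ (45 / 100 : ℝ)) ^ (1 / 20 : ℝ) := by
            rw [← Real.rpow_mul hX0.le]
            norm_num
        _ ≤ (L : ℝ) ^ (1 / 20 : ℝ) := Real.rpow_le_rpow (by positivity) hL1 (by norm_num)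
    calc (U.card : ℝ) * (L : ℝ) ^ (19 / 20 : ℝ) ≤ (L : ℝ) ^ (1 / 20 : ℝ) * (L : ℝ) ^ (19 / 20 : ℝ) :=
          mul_le_mul_of_nonneg_right (hc.trans h1) (by positivity)
      _ = L := by
          rw [← Real.rpow_add hL0]
          norm_num
  have hjr : 2 * (X : ℝ) ≤ (L : ℝ) ^ (9 / 4 : ℝ) := by
    calc 2 * (X : ℝ) ≤ (X : ℝ) ^ (1 / 80 : ℝ) * X := mul_le_mul_of_nonneg_right hX80 hX0.le
      _ = (X : ℝ) ^ (1 / 80 : ℝ) * (X : ℝ) ^ (1 : ℝ) := by rw [Real.rpow_one]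
      _ = (X : ℝ) ^ (81 / 80 : ℝ) := by
          rw [← Real.rpow_add hX0]
          norm_num
      _ = ((X : ℝ) ^ (45 / 100 : ℝ)) ^ (9 / 4 : ℝ) := by
          rw [← Real.rpow_mul hX0.le]
          norm_num
      _ ≤ (L : ℝ) ^ (9 / 4 : ℝ) := Real.rpow_le_rpow (by positivity) hL1 (by norm_num)
  have hlog2 : Real.log ((2 * X : ℕ) : ℝ) ≤ 2 * Real.log X := by
    push_cast
    rw [Real.log_mul (by norm_num) hX0.ne']
    have := Real.log_two_lt_d9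
    linarith
  have hB : ∀ j ∈ U, ∑ j' ∈ U, ‖∑ m ∈ Ioc L L', cj (j - j') m‖ ≤ (1 + 12 * C1) * L * Real.log X := by
    intro j hj
    rw [← add_sum_erase U _ hj]
    have h1 : ‖∑ m ∈ Ioc L L', cj (j - j) m‖ ≤ L := by
      refine (norm_sum_le _ _).trans ?_
      rw [sum_congr rfl fun m _ => Pool.Agent.Lib.MRT.norm_cj _ m]
      rw [sum_const, Nat.card_Ioc, nsmul_eq_mul, mul_one]
      exact_mod_cast (by omega : L' - L ≤ L)
    have h2 : ∑ j' ∈ U.erase j, ‖∑ m ∈ Ioc L L', cj (j - j') m‖ ≤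
        ∑ j' ∈ U.erase j, C1 * (L * ((1 : ℝ) / |((j - j' : ℤ) : ℝ)|) + (L : ℝ) ^ (19 / 20 : ℝ)) := by
      refine sum_le_sum fun j' hj' => ?_
      have hne : j - j' ≠ 0 := sub_ne_zero.2 (ne_of_mem_erase hj').symm
      have h3 : |((j - j' : ℤ) : ℝ)| ≤ (L : ℝ) ^ (9 / 4 : ℝ) := by
        refine le_trans ?_ hjr
        have h4 := hU j hj
        have h5 := hU j' (mem_of_mem_erase hj')
        have h6 : (T : ℝ) ≤ X := by exact_mod_cast hT
        push_cast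
        have h7 := abs_sub (j : ℝ) (j' : ℝ)
        linarith
      refine (hk L L' (j - j') hLn hL3 hL4 hne h3).trans (le_of_eq ?_)
      ring
    have h9 : ∑ j' ∈ U.erase j, C1 * (L * ((1 : ℝ) / |((j - j' : ℤ) : ℝ)|) + (L : ℝ) ^ (19 / 20 : ℝ)) =
        C1 * (L * ∑ j' ∈ U.erase j, (1 : ℝ) / |((j - j' : ℤ) : ℝ)| +
          (U.erase j).card * (L : ℝ) ^ (19 / 20 : ℝ)) := by
      rw [← mul_sum, sum_add_distrib, ← mul_sum, sum_const, nsmul_eq_mul]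
    have h10 : ((U.erase j).card : ℝ) * (L : ℝ) ^ (19 / 20 : ℝ) ≤ L := by
      have h11 : ((U.erase j).card : ℝ) ≤ U.card := by exact_mod_cast card_le_card (erase_subset _ _)
      calc ((U.erase j).card : ℝ) * (L : ℝ) ^ (19 / 20 : ℝ)
          ≤ (U.card : ℝ) * (L : ℝ) ^ (19 / 20 : ℝ) :=
            mul_le_mul_of_nonneg_right h11 (by positivity)
        _ ≤ L := hq1
    have h12 : ∑ j' ∈ U.erase j, (1 : ℝ) / |((j - j' : ℤ) : ℝ)| ≤ 6 * Real.log X := by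
      have h13 := hmU_inv U X (fun i hi => (hU i hi).trans (by exact_mod_cast hT)) j hj
      linarith
    have h14 : (L : ℝ) * ∑ j' ∈ U.erase j, (1 : ℝ) / |((j - j' : ℤ) : ℝ)| ≤ L * (6 * Real.log X) :=
      mul_le_mul_of_nonneg_left h12 hL0.le
    have h15 : (L : ℝ) ≤ L * Real.log X := by nlinarith
    have h16 : C1 * (L * ∑ j' ∈ U.erase j, (1 : ℝ) / |((j - j' : ℤ) : ℝ)| +
          (U.erase j).card * (L : ℝ) ^ (19 / 20 : ℝ)) ≤ C1 * (12 * (L * Real.log X)) := by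
      refine mul_le_mul_of_nonneg_left ?_ hC1.le
      linarith
    calc ‖∑ m ∈ Ioc L L', cj (j - j) m‖ + ∑ j' ∈ U.erase j, ‖∑ m ∈ Ioc L L', cj (j - j') m‖
        ≤ L * Real.log X + C1 * (12 * (L * Real.log X)) := by
          rw [h9] at h2
          linarith
      _ = (1 + 12 * C1) * L * Real.log X := by ring
  have h := hmj (Ioc L L') a U (by positivity) hB
  refine h.trans (le_of_eq ?_)
  ring

end Pool.Agent.Lib.G3
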