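import Pool.Agent.Lib.G3.G2Defs
import Pool.Agent.Lib.G3.Cell
import Pool.Agent.Lib.G3.HmU
import Pool.Agent.Lib.MP_7b7e48_nt.OW.M_1

/-!
# G3 / BigBil: the bilinear sums of Vaughan's identity in mean square over few quiet frequencies
-/

set_option autoImplicit false

open Finset

namespace Pool.Agent.Lib.G3

open Pool.Agent.Lib.MRT (cj norm_cj cj_mul)

/-- `hmU` with one more term -/
theorem bb_hm : ∃ (C x0 : ℝ), 0 < C ∧ ∀ X : ℕ, x0 ≤ X → ∀ (L L' : ℕ) (a : ℕ → ℂ) (U : Finset ℤ),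
    (X : ℝ) ^ (45 / 100 : ℝ) ≤ L → L ≤ X → L' ≤ 2 * L + 1 → (∀ j ∈ U, |(j : ℝ)| ≤ X) →
    (U.card : ℝ) ≤ (X : ℝ) ^ (1 / 100 : ℝ) →
      ∑ j ∈ U, ‖∑ l ∈ Ioc L L', a l * cj j l‖ ^ 2 ≤ C * L * Real.log X * ∑ l ∈ Ioc L L', ‖a l‖ ^ 2 := by
  classical
  obtain ⟨C, x0, hC, hm⟩ := hmU
  refine ⟨2 * C + 2, max x0 3, by positivity, ?_⟩
  intro X hX L L' a U hL1 hL2 hL4 hU hc
  have hX3 : (3 : ℝ) ≤ X := (le_max_right _ _).trans hX
  have hX0 : (0 : ℝ) < X := by linarith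
  have hX1 : (1 : ℝ) ≤ X := by linarith
  have hl1 : 1 ≤ Real.log X := by
    rw [Real.le_log_iff_exp_le hX0]
    have := Real.exp_one_lt_d9
    linarith
  have hUL : (U.card : ℝ) ≤ L := hc.trans ((Real.rpow_le_rpow_of_exponent_le hX1 (by norm_num)).trans hL1)
  have hL0 : (0 : ℝ) ≤ L := Nat.cast_nonneg _
  have hx0 : x0 ≤ (X : ℝ) := (le_max_left _ _).trans hX
  have hS0 : 0 ≤ ∑ l ∈ Ioc L L', ‖a l‖ ^ 2 := sum_nonneg fun _ _ => by positivity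
  have hCL : 0 ≤ C * L * Real.log X := by positivity
  rcases Nat.lt_or_ge L' L with h1 | h1
  · rw [Ioc_eq_empty (by omega)]
    simp
  rcases Nat.lt_or_ge (2 * L) L' with h2 | h2
  · have h3 : L' = 2 * L + 1 := by omega
    subst h3
    have h4 : ∀ f : ℕ → ℂ, ∑ l ∈ Ioc L (2 * L + 1), f l = ∑ l ∈ Ioc L (2 * L), f l + f (2 * L + 1) := fun f =>
      sum_Ioc_succ_top (by omega) f
    have h5 : ∑ l ∈ Ioc L (2 * L + 1), ‖a l‖ ^ 2 = ∑ l ∈ Ioc L (2 * L), ‖a l‖ ^ 2 + ‖a (2 * L + 1)‖ ^ 2 :=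
      sum_Ioc_succ_top (by omega) _
    have h6 := hm X hx0 L (2 * L) X a U hL1 hL2 (by omega) le_rfl le_rfl hU hc
    have h7 : ∀ j ∈ U, ‖∑ l ∈ Ioc L (2 * L + 1), a l * cj j l‖ ^ 2 ≤
        2 * ‖∑ l ∈ Ioc L (2 * L), a l * cj j l‖ ^ 2 + 2 * ‖a (2 * L + 1)‖ ^ 2 := by
      intro j _
      rw [h4]
      have h8 := norm_add_le (∑ l ∈ Ioc L (2 * L), a l * cj j l) (a (2 * L + 1) * cj j (2 * L + 1))
      rw [norm_mul, norm_cj, mul_one] at h8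
      refine (pow_le_pow_left₀ (norm_nonneg _) h8 2).trans ?_
      nlinarith [sq_nonneg (‖∑ l ∈ Ioc L (2 * L), a l * cj j l‖ - ‖a (2 * L + 1)‖)]
    refine (sum_le_sum h7).trans ?_
    rw [sum_add_distrib, ← mul_sum, sum_const, nsmul_eq_mul, h5]
    have h9 : (U.card : ℝ) * (2 * ‖a (2 * L + 1)‖ ^ 2) ≤ 2 * L * Real.log X * ‖a (2 * L + 1)‖ ^ 2 := by
      have h10 : 0 ≤ ‖a (2 * L + 1)‖ ^ 2 := by positivity
      have h11 : (U.card : ℝ) ≤ L * Real.log X := by nlinarith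
      nlinarith
    have h12 : 0 ≤ ∑ l ∈ Ioc L (2 * L), ‖a l‖ ^ 2 := sum_nonneg fun _ _ => by positivity
    have h13 : 0 ≤ ‖a (2 * L + 1)‖ ^ 2 := by positivity
    have h14 : 0 ≤ (L : ℝ) * Real.log X := by positivity
    have e1 : (2 * C + 2) * (L : ℝ) * Real.log X * (∑ l ∈ Ioc L (2 * L), ‖a l‖ ^ 2 + ‖a (2 * L + 1)‖ ^ 2) =
        2 * (C * L * Real.log X * ∑ l ∈ Ioc L (2 * L), ‖a l‖ ^ 2) + 2 * (L * Real.log X * ∑ l ∈ Ioc L (2 * L), ‖a l‖ ^ 2) +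
        2 * (C * L * Real.log X * ‖a (2 * L + 1)‖ ^ 2) + 2 * L * Real.log X * ‖a (2 * L + 1)‖ ^ 2 := by ring
    rw [e1]
    have h15 : 0 ≤ (L : ℝ) * Real.log X * ∑ l ∈ Ioc L (2 * L), ‖a l‖ ^ 2 := mul_nonneg h14 h12
    have h16 : 0 ≤ C * L * Real.log X * ‖a (2 * L + 1)‖ ^ 2 := mul_nonneg hCL h13
    linarith
  · refine (hm X hx0 L L' X a U hL1 hL2 h1 h2 le_rfl hU hc).trans ?_
    refine mul_le_mul_of_nonneg_right ?_ hS0
    have h14 : 0 ≤ (L : ℝ) * Real.log X := by positivity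
    nlinarith [mul_nonneg hC.le h14]

/-- divisors in short intervals, by the fourth moment -/
theorem bb_short {N N0 N1 : ℕ} (hN : 1 ≤ N) (h0 : N0 ≤ N1) (h1 : N1 ≤ N) :
    ∑ n ∈ Ioc N0 N1, (Real.log n * n.divisors.card) ^ 2 ≤
      (1 + Real.log N) ^ 10 * (Real.sqrt ((N1 : ℝ) - N0) * Real.sqrt N) := by
  have hNr : (1 : ℝ) ≤ N := by exact_mod_cast hN
  have hl : 0 ≤ Real.log N := Real.log_nonneg hNr
  have hN1 : 0 ≤ (N1 : ℝ) - N0 := by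
    have : (N0 : ℝ) ≤ N1 := by exact_mod_cast h0
    linarith
  have h2 : ∑ n ∈ Ioc N0 N1, (Real.log n * n.divisors.card) ^ 2 ≤
      (1 + Real.log N) ^ 2 * ∑ n ∈ Ioc N0 N1, ((n.divisors.card : ℝ)) ^ 2 := by
    rw [mul_sum]
    refine sum_le_sum fun n hn => ?_
    rw [mem_Ioc] at hn
    rw [mul_pow]
    refine mul_le_mul_of_nonneg_right ?_ (by positivity)
    have hn0 : (0 : ℝ) < n := by
      have : 0 < n := by omega
      exact_mod_cast this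
    have h3 : 0 ≤ Real.log n := Real.log_natCast_nonneg n
    have h4 : Real.log n ≤ Real.log N := Real.log_le_log hn0 (by exact_mod_cast hn.2.trans h1)
    exact pow_le_pow_left₀ h3 (by linarith) 2
  have h3 : ∑ n ∈ Ioc N0 N1, ((n.divisors.card : ℝ)) ^ 2 ≤ Real.sqrt ((N1 : ℝ) - N0) * (Real.sqrt N * (1 + Real.log N) ^ 8) := by
    have h4 : (∑ n ∈ Ioc N0 N1, ((n.divisors.card : ℝ)) ^ 2) ^ 2 ≤ ((N1 : ℝ) - N0) * (N * (1 + Real.log N) ^ 16) := by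
      have h5 := sq_sum_le_card_mul_sum_sq (s := Ioc N0 N1) (f := fun n => ((n.divisors.card : ℝ)) ^ 2)
      refine h5.trans ?_
      rw [Nat.card_Ioc, Nat.cast_sub h0]
      refine mul_le_mul_of_nonneg_left ?_ hN1
      have h6 : ∑ n ∈ Ioc N0 N1, (((n.divisors.card : ℝ)) ^ 2) ^ 2 ≤ ∑ n ∈ Icc 1 N, ((n.divisors.card : ℝ)) ^ 4 := by
        refine le_trans (le_of_eq (sum_congr rfl fun n _ => by rw [← pow_mul])) ?_
        refine sum_le_sum_of_subset_of_nonneg ?_ fun _ _ _ => by positivity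
        intro n hn
        rw [mem_Ioc] at hn
        rw [mem_Icc]
        omega
      exact h6.trans (OW.mt4 N)
    have h7 : 0 ≤ ∑ n ∈ Ioc N0 N1, ((n.divisors.card : ℝ)) ^ 2 := sum_nonneg fun _ _ => by positivity
    refine (Real.le_sqrt_of_sq_le h4).trans (le_of_eq ?_)
    rw [Real.sqrt_mul hN1, Real.sqrt_mul (by positivity), show (16 : ℕ) = 8 * 2 by norm_num, pow_mul,
      Real.sqrt_sq (by positivity)]
  calc _ ≤ _ := h2
    _ ≤ (1 + Real.log N) ^ 2 * (Real.sqrt ((N1 : ℝ) - N0) * (Real.sqrt N * (1 + Real.log N) ^ 8)) :=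
        mul_le_mul_of_nonneg_left h3 (by positivity)
    _ = _ := by ring

/-- the squares of the coefficients of the long variable -/
theorem bb_coef {b : ℕ → ℂ} (hb : ∀ l : ℕ, 1 ≤ l → ‖b l‖ ≤ (1 + Real.log l) * l.divisors.card) {M N : ℕ} (hMN : M ≤ N)
    (hN : 1 ≤ N) :
    ∑ l ∈ Icc 1 M, ‖b l‖ ^ 2 ≤ M * (1 + Real.log N) ^ 5 := by
  have hNr : (1 : ℝ) ≤ N := by exact_mod_cast hN
  have hl : 0 ≤ Real.log N := Real.log_nonneg hNr
  rcases Nat.eq_zero_or_pos M with h | h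
  · subst h
    simp
  have h1 : ∑ l ∈ Icc 1 M, ‖b l‖ ^ 2 ≤ (1 + Real.log N) ^ 2 * ∑ l ∈ Icc 1 M, ((l.divisors.card : ℝ)) ^ 2 := by
    rw [mul_sum]
    refine sum_le_sum fun l hl' => ?_
    rw [mem_Icc] at hl'
    refine (pow_le_pow_left₀ (norm_nonneg _) (hb l hl'.1) 2).trans ?_
    rw [mul_pow]
    refine mul_le_mul_of_nonneg_right ?_ (by positivity)
    have hl0 : (0 : ℝ) < l := by exact_mod_cast hl'.1
    have h3 : 0 ≤ Real.log l := Real.log_natCast_nonneg l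
    have h4 : Real.log l ≤ Real.log N := Real.log_le_log hl0 (by exact_mod_cast hl'.2.trans hMN)
    exact pow_le_pow_left₀ (by linarith) (by linarith) 2
  have h2 := SW.sum_divisors_sq_le M h
  have h3 : Real.log M ≤ Real.log N := Real.log_le_log (by exact_mod_cast h) (by exact_mod_cast hMN)
  have h4 : 0 ≤ Real.log M := Real.log_natCast_nonneg M
  calc _ ≤ _ := h1
    _ ≤ (1 + Real.log N) ^ 2 * (M * (1 + Real.log M) ^ 3) := mul_le_mul_of_nonneg_left h2 (by positivity)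
    _ ≤ (1 + Real.log N) ^ 2 * (M * (1 + Real.log N) ^ 3) := by gcongr
    _ = _ := by ring

/-- one dyadic block -/
theorem bb_block : ∃ (C x0 : ℝ), 0 < C ∧ ∀ X : ℕ, x0 ≤ X → ∀ (R D D' h : ℕ) (a b : ℕ → ℂ) (U : Finset ℤ) (β : ℝ),
    R ≤ X → 2 ≤ h → h ≤ D → D ≤ D' → D' ≤ 2 * D → D' * yy X ≤ 2 * R → 0 ≤ β → (X : ℝ) ^ (99 / 100 : ℝ) ≤ R →
    (U.card : ℝ) ≤ (X : ℝ) ^ (1 / 100 : ℝ) → (∀ j ∈ U, |(j : ℝ)| ≤ X) →
    (∀ j ∈ U, ∀ κ κ' : ℕ, D ≤ κ → κ ≤ κ' → κ' ≤ D' → ‖∑ k ∈ Ioc κ κ', a k * cj j k‖ ≤ β * D) →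
    (∀ n : ℕ, 1 ≤ n → ∑ k ∈ n.divisors, ‖a k‖ * ‖b (n / k)‖ ≤ Real.log n * n.divisors.card) →
    (∀ l : ℕ, 1 ≤ l → ‖b l‖ ≤ (1 + Real.log l) * l.divisors.card) →
      ∑ j ∈ U, ‖∑ k ∈ Ioc D D', ∑ l ∈ Ioc (R / k) (2 * R / k), a k * b l * cj j (k * l)‖ ^ 2 ≤
        C * (R : ℝ) ^ 2 * ((h : ℝ) ^ 2 * β ^ 2 * (Real.log X) ^ 6 + (Real.log X) ^ 11 / Real.sqrt h) := by
  classical
  obtain ⟨C, x0, hC, hm⟩ := bb_hm
  have hgr : ∀ᶠ x : ℝ in Filter.atTop, (8 : ℝ) ≤ x ^ (1 / 100 : ℝ) :=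
    (tendsto_rpow_atTop (by norm_num)).eventually (Filter.eventually_ge_atTop _)
  have hlg : ∀ᶠ x : ℝ in Filter.atTop, (10 : ℝ) ≤ Real.log x :=
    Real.tendsto_log_atTop.eventually (Filter.eventually_ge_atTop _)
  obtain ⟨x1, hx1⟩ := Filter.eventually_atTop.1 (hgr.and hlg)
  refine ⟨48 * C * 177147, max x0 (max x1 3), by positivity, ?_⟩
  intro X hX R D D' h a b U β hRX hh hhD hDD hD2 hDy hβ hR99 hUc hUX hA hab hb
  have hXx0 : x0 ≤ (X : ℝ) := (le_max_left _ _).trans hX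
  have hXx1 : x1 ≤ (X : ℝ) := (le_max_left _ _).trans ((le_max_right _ _).trans hX)
  have hX3 : (3 : ℝ) ≤ X := (le_max_right _ _).trans ((le_max_right _ _).trans hX)
  obtain ⟨hq8, hl10⟩ := hx1 X hXx1
  have hX0 : (0 : ℝ) < X := by linarith
  have hX1 : (1 : ℝ) ≤ X := by linarith
  have hRr : (R : ℝ) ≤ X := by exact_mod_cast hRX
  have hRX45 : (X : ℝ) ^ (46 / 100 : ℝ) ≤ R := (Real.rpow_le_rpow_of_exponent_le hX1 (by norm_num)).trans hR99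
  have hR1 : (1 : ℝ) ≤ R := (Real.one_le_rpow hX1 (by norm_num)).trans hR99
  have hR0 : (0 : ℝ) < R := by linarith
  have hRn : 1 ≤ R := by exact_mod_cast hR1
  have hD1 : 1 ≤ D := by omega
  have hD0 : (0 : ℝ) < D := by exact_mod_cast hD1
  have hh0 : (0 : ℝ) < h := by
    have : 0 < h := by omega
    exact_mod_cast this
  -- logs
  set ℓ : ℝ := 1 + Real.log (4 * X) with hℓ
  have hl4 : Real.log (4 * X) = Real.log 4 + Real.log X := Real.log_mul (by norm_num) hX0.ne'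
  have hlog4 : Real.log 4 ≤ 2 := by
    rw [show (4 : ℝ) = 2 ^ 2 by norm_num, Real.log_pow]
    have := Real.log_two_lt_d9
    push_cast
    linarith
  have hlog40 : 0 ≤ Real.log 4 := Real.log_nonneg (by norm_num)
  have hℓ3 : ℓ ≤ 3 * Real.log X := by rw [hℓ, hl4]; linarith
  have hℓ1 : 1 ≤ ℓ := by rw [hℓ, hl4]; linarith
  have hℓ0 : 0 ≤ ℓ := by linarith
  have hlog2X : Real.log ((2 * X : ℕ) : ℝ) ≤ ℓ := by
    rw [hℓ]
    have : Real.log ((2 * X : ℕ) : ℝ) ≤ Real.log (4 * X) := by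
      apply Real.log_le_log (by push_cast; linarith)
      push_cast
      linarith
    linarith
  have hlog2X0 : 0 ≤ Real.log ((2 * X : ℕ) : ℝ) := Real.log_natCast_nonneg _
  have hlog4R : 1 + Real.log ((4 * R : ℕ) : ℝ) ≤ ℓ := by
    rw [hℓ]
    have : Real.log ((4 * R : ℕ) : ℝ) ≤ Real.log (4 * X) := by
      apply Real.log_le_log (by push_cast; linarith)
      push_cast
      linarith
    linarith
  have hlog4R0 : 0 ≤ Real.log ((4 * R : ℕ) : ℝ) := Real.log_natCast_nonneg _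
  -- at 2X
  have h2Xx0 : x0 ≤ ((2 * X : ℕ) : ℝ) := by push_cast; linarith
  have hU2 : ∀ j ∈ U, |(j : ℝ)| ≤ ((2 * X : ℕ) : ℝ) := fun j hj => by
    have := hUX j hj
    push_cast
    linarith
  have hUc2 : (U.card : ℝ) ≤ ((2 * X : ℕ) : ℝ) ^ (1 / 100 : ℝ) := by
    refine hUc.trans (Real.rpow_le_rpow hX0.le ?_ (by norm_num))
    push_cast
    linarith
  have h2X45 : ((2 * X : ℕ) : ℝ) ^ (45 / 100 : ℝ) ≤ (X : ℝ) ^ (46 / 100 : ℝ) / 4 := by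
    push_cast
    rw [Real.mul_rpow (by norm_num) hX0.le]
    have h1 : (2 : ℝ) ^ (45 / 100 : ℝ) ≤ 2 := by
      calc (2 : ℝ) ^ (45 / 100 : ℝ) ≤ 2 ^ (1 : ℝ) := Real.rpow_le_rpow_of_exponent_le (by norm_num) (by norm_num)
        _ = 2 := Real.rpow_one 2
    have h2 : (X : ℝ) ^ (46 / 100 : ℝ) = (X : ℝ) ^ (45 / 100 : ℝ) * (X : ℝ) ^ (1 / 100 : ℝ) := by
      rw [← Real.rpow_add hX0]
      norm_num
    rw [h2]
    have h3 : 0 < (X : ℝ) ^ (45 / 100 : ℝ) := by positivity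
    nlinarith
  have hX46 : (4 : ℝ) ≤ (X : ℝ) ^ (46 / 100 : ℝ) := by
    have : (X : ℝ) ^ (1 / 100 : ℝ) ≤ (X : ℝ) ^ (46 / 100 : ℝ) := Real.rpow_le_rpow_of_exponent_le hX1 (by norm_num)
    linarith
  have hyy : (X : ℝ) ^ (46 / 100 : ℝ) ≤ yy X := Nat.le_ceil _
  -- the mean square of the long variable
  have hB : ∀ κ : ℕ, D ≤ κ → κ ≤ D' → ∑ j ∈ U, ‖∑ l ∈ Ioc (R / κ) (2 * R / κ), b l * cj j l‖ ^ 2 ≤
      C * ((R : ℝ) / D) * ℓ * (2 * ((R : ℝ) / D) * ℓ ^ 5) := by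
    intro κ hκ1 hκ2
    have hκ0 : (0 : ℝ) < κ := lt_of_lt_of_le hD0 (by exact_mod_cast hκ1)
    have h1 : κ * yy X ≤ 2 * R := (Nat.mul_le_mul_right _ hκ2).trans hDy
    have h2 : (κ : ℝ) * (X : ℝ) ^ (46 / 100 : ℝ) ≤ 2 * R := by
      have h3 : ((κ * yy X : ℕ) : ℝ) ≤ ((2 * R : ℕ) : ℝ) := by exact_mod_cast h1
      push_cast at h3
      exact (mul_le_mul_of_nonneg_left hyy hκ0.le).trans h3
    have h3 : (X : ℝ) ^ (46 / 100 : ℝ) / 2 ≤ (R : ℝ) / κ := by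
      rw [div_le_div_iff₀ (by norm_num) hκ0]
      linarith
    have h4 : (R : ℝ) / κ < ((R / κ : ℕ) : ℝ) + 1 := by
      have := Nat.lt_floor_add_one ((R : ℝ) / κ)
      rwa [Nat.floor_div_eq_div] at this
    have h5 : ((2 * X : ℕ) : ℝ) ^ (45 / 100 : ℝ) ≤ ((R / κ : ℕ) : ℝ) := by linarith
    have h6 : R / κ ≤ 2 * X := (Nat.div_le_self _ _).trans (by omega)
    have h7 : 2 * R / κ ≤ 2 * (R / κ) + 1 := by
      have hκn : 0 < κ := by omega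
      have h8 : R < κ * (R / κ + 1) := Nat.lt_mul_div_succ R hκn
      have h9 : 2 * R < κ * (2 * (R / κ) + 2) := by
        calc 2 * R < 2 * (κ * (R / κ + 1)) := by omega
          _ = κ * (2 * (R / κ) + 2) := by ring
      have h10 : 2 * R / κ < 2 * (R / κ) + 2 := by
        rw [Nat.div_lt_iff_lt_mul hκn]
        linarith [h9, mul_comm κ (2 * (R / κ) + 2)]
      omega
    refine (hm (2 * X) h2Xx0 (R / κ) (2 * R / κ) b U h5 h6 h7 hU2 hUc2).trans ?_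
    have h11 : ((R / κ : ℕ) : ℝ) ≤ (R : ℝ) / D := by
      refine (Nat.cast_div_le).trans ?_
      apply div_le_div_of_nonneg_left hR0.le hD0
      exact_mod_cast hκ1
    have h12 : ∑ l ∈ Ioc (R / κ) (2 * R / κ), ‖b l‖ ^ 2 ≤ 2 * ((R : ℝ) / D) * ℓ ^ 5 := by
      have h13 : ∑ l ∈ Ioc (R / κ) (2 * R / κ), ‖b l‖ ^ 2 ≤ ∑ l ∈ Icc 1 (2 * R / κ), ‖b l‖ ^ 2 := by
        refine sum_le_sum_of_subset_of_nonneg ?_ fun _ _ _ => by positivity
        intro l hl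
        rw [mem_Ioc] at hl
        rw [mem_Icc]
        exact ⟨Nat.succ_le_of_lt (lt_of_le_of_lt (Nat.zero_le _) hl.1), hl.2⟩
      have h14 := bb_coef hb (M := 2 * R / κ) (N := 4 * R) ((Nat.div_le_self _ _).trans (by omega)) (by omega)
      have h15 : ((2 * R / κ : ℕ) : ℝ) ≤ 2 * ((R : ℝ) / D) := by
        refine (Nat.cast_div_le).trans ?_
        push_cast
        rw [mul_div_assoc]
        refine mul_le_mul_of_nonneg_left ?_ (by norm_num)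
        apply div_le_div_of_nonneg_left hR0.le hD0
        exact_mod_cast hκ1
      refine h13.trans (h14.trans ?_)
      gcongr
    have h16 : 0 ≤ ∑ l ∈ Ioc (R / κ) (2 * R / κ), ‖b l‖ ^ 2 := sum_nonneg fun _ _ => by positivity
    gcongr
  -- cells
  have hw1 : ((D / h + 1 : ℕ) : ℝ) ≤ 2 * (D : ℝ) / h := by
    have h1 : ((D / h : ℕ) : ℝ) ≤ (D : ℝ) / h := Nat.cast_div_le
    have h2 : (1 : ℝ) ≤ (D : ℝ) / h := by
      rw [le_div_iff₀ hh0, one_mul]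
      exact_mod_cast hhD
    push_cast
    have h3 : 2 * (D : ℝ) / h = (D : ℝ) / h + (D : ℝ) / h := by ring
    linarith
  have hwD : D / h + 1 ≤ D := by
    have h1 : D / h ≤ D / 2 := Nat.div_le_div_left hh (by norm_num)
    omega
  have hδ : ∀ M : ℕ, M ≤ 2 * R → (((D / h + 1) * (M / D) : ℕ) : ℝ) ≤ 4 * (R : ℝ) / h := by
    intro M hM
    have h1 : ((M / D : ℕ) : ℝ) ≤ 2 * (R : ℝ) / D := by
      refine (Nat.cast_div_le).trans ?_
      apply div_le_div_of_nonneg_right _ hD0.le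
      exact_mod_cast hM
    push_cast
    push_cast at hw1
    calc (((D / h : ℕ) : ℝ) + 1) * ((M / D : ℕ) : ℝ) ≤ (2 * (D : ℝ) / h) * (2 * (R : ℝ) / D) :=
          mul_le_mul hw1 h1 (Nat.cast_nonneg _) (by positivity)
      _ = 4 * (R : ℝ) / h := by
          field_simp
          ring
  have hδn : ∀ M : ℕ, (D / h + 1) * (M / D) ≤ M := fun M =>
    (Nat.mul_le_mul_right _ hwD).trans (Nat.mul_div_le _ _)
  have hE : ∀ M : ℕ, R ≤ M → M ≤ 2 * R → ∀ e : ℕ → ℂ, ∑ j ∈ U, ‖∑ n ∈ Ioc M (M + (D / h + 1) * (M / D)), e n * cj j n‖ ^ 2 ≤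
      (C * (2 * R) * ℓ) * ∑ n ∈ Ioc M (M + (D / h + 1) * (M / D)), ‖e n‖ ^ 2 := by
    intro M hM1 hM2 e
    have h1 : ((2 * X : ℕ) : ℝ) ^ (45 / 100 : ℝ) ≤ M := by
      have : (R : ℝ) ≤ M := by exact_mod_cast hM1
      have h2 : 0 ≤ (X : ℝ) ^ (46 / 100 : ℝ) := by positivity
      linarith
    have h3 := hδn M
    refine (hm (2 * X) h2Xx0 M _ e U h1 (by omega) (by omega) hU2 hUc2).trans ?_
    have h4 : (M : ℝ) ≤ 2 * R := by exact_mod_cast hM2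
    have h5 : 0 ≤ ∑ n ∈ Ioc M (M + (D / h + 1) * (M / D)), ‖e n‖ ^ 2 := sum_nonneg fun _ _ => by positivity
    gcongr
  have hce : ∀ n : ℕ, 1 ≤ n → ce a b D D' n ≤ Real.log n * n.divisors.card := by
    intro n hn
    refine le_trans ?_ (hab n hn)
    unfold ce
    rw [← sum_filter]
    refine sum_le_sum_of_subset_of_nonneg ?_ fun _ _ _ => by positivity
    intro k hk
    rw [mem_filter] at hk
    rw [Nat.mem_divisors]
    exact ⟨hk.2, by omega⟩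
  have hce0 : ∀ n : ℕ, 0 ≤ ce a b D D' n := by
    intro n
    unfold ce
    refine sum_nonneg fun k _ => ?_
    split_ifs
    · positivity
    · exact le_rfl
  have hW : ∀ M : ℕ, R ≤ M → M ≤ 2 * R → ∑ n ∈ Ioc M (M + (D / h + 1) * (M / D)), ce a b D D' n ^ 2 ≤
      ℓ ^ 10 * (4 * R / Real.sqrt h) := by
    intro M hM1 hM2
    have h3 := hδn M
    have h4 : ∑ n ∈ Ioc M (M + (D / h + 1) * (M / D)), ce a b D D' n ^ 2 ≤
        ∑ n ∈ Ioc M (M + (D / h + 1) * (M / D)), (Real.log n * n.divisors.card) ^ 2 := by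
      refine sum_le_sum fun n hn => ?_
      rw [mem_Ioc] at hn
      exact pow_le_pow_left₀ (hce0 n) (hce n (by omega)) 2
    have h5 := bb_short (N := 4 * R) (N0 := M) (N1 := M + (D / h + 1) * (M / D)) (by omega) (by omega) (by omega)
    refine h4.trans (h5.trans ?_)
    have h6 : ((M + (D / h + 1) * (M / D) : ℕ) : ℝ) - M ≤ 4 * (R : ℝ) / h := by
      have h7 := hδ M hM2
      push_cast at h7 ⊢
      linarith
    have h7 : Real.sqrt (((M + (D / h + 1) * (M / D) : ℕ) : ℝ) - M) * Real.sqrt ((4 * R : ℕ) : ℝ) ≤ 4 * R / Real.sqrt h := by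
      calc Real.sqrt (((M + (D / h + 1) * (M / D) : ℕ) : ℝ) - M) * Real.sqrt ((4 * R : ℕ) : ℝ) ≤
          Real.sqrt (4 * (R : ℝ) / h) * Real.sqrt (4 * (R : ℝ)) := by
            push_cast at h6 ⊢
            gcongr
        _ = 4 * R / Real.sqrt h := by
            rw [Real.sqrt_div (by positivity), div_mul_eq_mul_div, Real.mul_self_sqrt (by positivity)]
    have h8 : 0 ≤ Real.sqrt (((M + (D / h + 1) * (M / D) : ℕ) : ℝ) - M) * Real.sqrt ((4 * R : ℕ) : ℝ) := by positivity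
    have h9 : (1 + Real.log ((4 * R : ℕ) : ℝ)) ^ 10 ≤ ℓ ^ 10 := pow_le_pow_left₀ (by linarith) hlog4R 10
    exact mul_le_mul h9 h7 h8 (by positivity)
  have key := cell a b U (R := R) (D := D) (D' := D') (h := h) hD1 hDD hD2 (by omega) (α := β * D)
    (Wb := C * ((R : ℝ) / D) * ℓ * (2 * ((R : ℝ) / D) * ℓ ^ 5)) (HR := C * (2 * R) * ℓ) (We := ℓ ^ 10 * (4 * R / Real.sqrt h))
    (by positivity) (by positivity) hA hB (hE R le_rfl (by omega)) (hE (2 * R) (by omega) le_rfl) (hW R le_rfl (by omega))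
    (hW (2 * R) (by omega) le_rfl)
  refine key.trans ?_
  have hsh : 0 < Real.sqrt (h : ℝ) := Real.sqrt_pos.2 hh0
  have e1 : 3 * ((h : ℝ) ^ 2 * (β * D) ^ 2 * (C * ((R : ℝ) / D) * ℓ * (2 * ((R : ℝ) / D) * ℓ ^ 5)) +
      2 * (C * (2 * R) * ℓ * (ℓ ^ 10 * (4 * R / Real.sqrt h)))) =
      C * (R : ℝ) ^ 2 * (6 * ((h : ℝ) ^ 2 * β ^ 2 * ℓ ^ 6) + 48 * (ℓ ^ 11 / Real.sqrt h)) := by
    field_simp
    ring
  rw [e1]
  have hLp : 0 < Real.log X := by linarith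
  have e2 : ℓ ^ 6 ≤ 729 * (Real.log X) ^ 6 := by
    calc ℓ ^ 6 ≤ (3 * Real.log X) ^ 6 := pow_le_pow_left₀ hℓ0 hℓ3 6
      _ = 729 * (Real.log X) ^ 6 := by ring
  have e3 : ℓ ^ 11 ≤ 177147 * (Real.log X) ^ 11 := by
    calc ℓ ^ 11 ≤ (3 * Real.log X) ^ 11 := pow_le_pow_left₀ hℓ0 hℓ3 11
      _ = 177147 * (Real.log X) ^ 11 := by ring
  have e4 : 6 * ((h : ℝ) ^ 2 * β ^ 2 * ℓ ^ 6) ≤ 48 * 177147 * ((h : ℝ) ^ 2 * β ^ 2 * (Real.log X) ^ 6) := by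
    have h1 : 0 ≤ (h : ℝ) ^ 2 * β ^ 2 := by positivity
    have h2 : 0 ≤ (h : ℝ) ^ 2 * β ^ 2 * (Real.log X) ^ 6 := by positivity
    have h3 : (h : ℝ) ^ 2 * β ^ 2 * ℓ ^ 6 ≤ (h : ℝ) ^ 2 * β ^ 2 * (729 * (Real.log X) ^ 6) := mul_le_mul_of_nonneg_left e2 h1
    nlinarith
  have e5 : 48 * (ℓ ^ 11 / Real.sqrt h) ≤ 48 * 177147 * ((Real.log X) ^ 11 / Real.sqrt h) := by
    have h1 : ℓ ^ 11 / Real.sqrt h ≤ 177147 * (Real.log X) ^ 11 / Real.sqrt h := div_le_div_of_nonneg_right e3 hsh.le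
    have h2 : 177147 * (Real.log X) ^ 11 / Real.sqrt h = 177147 * ((Real.log X) ^ 11 / Real.sqrt h) := by ring
    rw [h2] at h1
    linarith
  calc C * (R : ℝ) ^ 2 * (6 * ((h : ℝ) ^ 2 * β ^ 2 * ℓ ^ 6) + 48 * (ℓ ^ 11 / Real.sqrt h)) ≤
      C * (R : ℝ) ^ 2 * (48 * 177147 * ((h : ℝ) ^ 2 * β ^ 2 * (Real.log X) ^ 6) +
        48 * 177147 * ((Real.log X) ^ 11 / Real.sqrt h)) := by
        refine mul_le_mul_of_nonneg_left (add_le_add e4 e5) (by positivity)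
    _ = 48 * C * 177147 * (R : ℝ) ^ 2 * ((h : ℝ) ^ 2 * β ^ 2 * (Real.log X) ^ 6 + (Real.log X) ^ 11 / Real.sqrt h) := by ring

theorem bb_dyadic (K0 K1 : ℕ) (h1 : K0 ≤ K1) (f : ℕ → ℂ) (n : ℕ) :
    ∑ k ∈ Ioc K0 (min (K0 * 2 ^ n) K1), f k =
      ∑ i ∈ range n, ∑ k ∈ Ioc (min (K0 * 2 ^ i) K1) (min (K0 * 2 ^ (i + 1)) K1), f k := by
  induction n with
  | zero => simp [h1]
  | succ n ih =>
    rw [sum_range_succ, ← ih]
    have h2 : K0 ≤ min (K0 * 2 ^ n) K1 := le_min (Nat.le_mul_of_pos_right _ (by positivity)) h1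
    have h3 : min (K0 * 2 ^ n) K1 ≤ min (K0 * 2 ^ (n + 1)) K1 :=
      min_le_min (Nat.mul_le_mul_left _ (Nat.pow_le_pow_right (by norm_num) (by omega))) le_rfl
    exact (Finset.sum_Ioc_consecutive f h2 h3).symm

/-- bilinear sums in mean square over few frequencies, the pointwise bound on the short variable -/
theorem bigbil (K : ℕ) : ∃ B : ℕ, ∃ x0 : ℝ, ∀ X : ℕ, x0 ≤ X → ∀ (R K0 K1 : ℕ) (a b : ℕ → ℂ) (U : Finset ℤ),
    (X : ℝ) ^ (99 / 100 : ℝ) ≤ R → R ≤ X → (X : ℝ) ^ (1 / 5 : ℝ) ≤ K0 → K0 ≤ K1 → K1 * yy X ≤ 2 * R →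
    (U.card : ℝ) ≤ (X : ℝ) ^ (1 / 100 : ℝ) → (∀ j ∈ U, |(j : ℝ)| ≤ X) →
    (∀ j ∈ U, ∀ κ κ' : ℕ, K0 ≤ κ → κ ≤ κ' → κ' ≤ 2 * κ → κ' ≤ K1 →
      ‖∑ k ∈ Ioc κ κ', a k * cj j k‖ ≤ κ / (Real.log X) ^ B) →
    (∀ n : ℕ, 1 ≤ n → ∑ k ∈ n.divisors, ‖a k‖ * ‖b (n / k)‖ ≤ Real.log n * n.divisors.card) →
    (∀ l : ℕ, 1 ≤ l → ‖b l‖ ≤ (1 + Real.log l) * l.divisors.card) →
      ∑ j ∈ U, ‖∑ k ∈ Ioc K0 K1, ∑ l ∈ Ioc (R / k) (2 * R / k), a k * b l * cj j (k * l)‖ ^ 2 ≤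
        (R : ℝ) ^ 2 / (Real.log X) ^ K := by
  classical
  obtain ⟨C, x0, hC, hblk⟩ := bb_block
  -- growth conditions
  have hgr : ∀ᶠ x : ℝ in Filter.atTop, 2 * (Real.log x) ^ (2 * K + 40) ≤ x ^ (1 / 5 : ℝ) := by
    have h1 := (isLittleO_log_rpow_atTop (r := 1 / (5 * (2 * (K : ℝ) + 40 + 1))) (by positivity)).bound (c := 1) one_pos
    have h2 := ((tendsto_rpow_atTop (y := 1 / (5 * (2 * (K : ℝ) + 40 + 1))) (by positivity))).eventually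
      (Filter.eventually_ge_atTop (2 : ℝ))
    filter_upwards [h1, h2, Filter.eventually_ge_atTop (3 : ℝ)] with x h1 h2 hx
    have hx0 : 0 < x := by linarith
    have hlx : 0 ≤ Real.log x := Real.log_nonneg (by linarith)
    set t : ℝ := x ^ (1 / (5 * (2 * (K : ℝ) + 40 + 1))) with ht
    have ht0 : 0 < t := by positivity
    rw [one_mul, Real.norm_of_nonneg hlx, Real.norm_of_nonneg ht0.le] at h1
    have h3 : x ^ (1 / 5 : ℝ) = t ^ (2 * K + 40 + 1) := by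
      rw [ht, ← Real.rpow_natCast, ← Real.rpow_mul hx0.le]
      congr 1
      push_cast
      field_simp
    have h4 : (Real.log x) ^ (2 * K + 40) ≤ t ^ (2 * K + 40) := pow_le_pow_left₀ hlx h1 _
    have h5 : 0 ≤ t ^ (2 * K + 40) := by positivity
    calc 2 * (Real.log x) ^ (2 * K + 40) ≤ t * t ^ (2 * K + 40) :=
          mul_le_mul h2 h4 (by positivity) (by positivity)
      _ = x ^ (1 / 5 : ℝ) := by rw [h3, pow_succ (n := 2 * K + 40)]; ring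
  have hlg : ∀ᶠ x : ℝ in Filter.atTop, max 10 (153 * C + 1) ≤ Real.log x :=
    Real.tendsto_log_atTop.eventually (Filter.eventually_ge_atTop _)
  obtain ⟨x1, hx1⟩ := Filter.eventually_atTop.1 (hgr.and hlg)
  refine ⟨3 * K + 50, max x0 (max x1 3), ?_⟩
  intro X hX R K0 K1 a b U hR99 hRX hK0 hK01 hK1 hUc hUX hA hab hb
  have hXx0 : x0 ≤ (X : ℝ) := (le_max_left _ _).trans hX
  have hXx1 : x1 ≤ (X : ℝ) := (le_max_left _ _).trans ((le_max_right _ _).trans hX)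
  have hX3 : (3 : ℝ) ≤ X := (le_max_right _ _).trans ((le_max_right _ _).trans hX)
  obtain ⟨hq8, hl'⟩ := hx1 X hXx1
  have hl10 : 10 ≤ Real.log X := (le_max_left _ _).trans hl'
  have hlC : 153 * C ≤ Real.log X := by
    have := (le_max_right _ _).trans hl'
    linarith
  set ℓ : ℝ := Real.log X with hℓ
  have hℓ0 : 0 < ℓ := by linarith
  have hℓ1 : 1 ≤ ℓ := by linarith
  have hX0 : (0 : ℝ) < X := by linarith
  have hX1 : (1 : ℝ) ≤ X := by linarith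
  have hRr : (R : ℝ) ≤ X := by exact_mod_cast hRX
  have hR1 : (1 : ℝ) ≤ R := (Real.one_le_rpow hX1 (by norm_num)).trans hR99
  have hR0 : (0 : ℝ) < R := by linarith
  -- h
  set h : ℕ := ⌈ℓ ^ (2 * K + 40)⌉₊ with hh
  have hp1 : 1 ≤ ℓ ^ (2 * K + 40) := one_le_pow₀ hℓ1
  have hp2 : 10 ≤ ℓ ^ (2 * K + 40) := by
    calc (10 : ℝ) ≤ ℓ := hl10
      _ = ℓ ^ 1 := (pow_one ℓ).symm
      _ ≤ ℓ ^ (2 * K + 40) := pow_le_pow_right₀ hℓ1 (by omega)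
  have hh1 : ℓ ^ (2 * K + 40) ≤ h := Nat.le_ceil _
  have hh2 : (h : ℝ) ≤ 2 * ℓ ^ (2 * K + 40) := by
    have := (Nat.ceil_lt_add_one (by positivity : 0 ≤ ℓ ^ (2 * K + 40))).le
    linarith
  have hhn : 2 ≤ h := by
    have : (2 : ℝ) ≤ h := by linarith
    exact_mod_cast this
  have hh0 : (0 : ℝ) < h := by linarith
  have hhK0 : h ≤ K0 := by
    have : (h : ℝ) ≤ K0 := by linarith
    exact_mod_cast this
  have hyy1 : 1 ≤ yy X := by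
    unfold yy
    exact Nat.one_le_iff_ne_zero.2 (Nat.ceil_pos.2 (by positivity)).ne'
  have hK1R : K1 ≤ 2 * R := (Nat.le_mul_of_pos_right _ hyy1).trans hK1
  -- number of blocks
  set nb : ℕ := Nat.log 2 K1 + 1 with hnb
  have hnb1 : K1 ≤ K0 * 2 ^ nb := by
    have h1 : K1 < 2 ^ nb := Nat.lt_pow_succ_log_self (by norm_num) K1
    have h2 : 1 ≤ K0 := by omega
    nlinarith [Nat.le_mul_of_pos_left (2 ^ nb) h2]
  have hnb2 : (nb : ℝ) ≤ 3 * ℓ := by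
    have hK1p : K1 ≠ 0 := by omega
    have h1 : 2 ^ Nat.log 2 K1 ≤ K1 := Nat.pow_log_le_self 2 hK1p
    have h2 : ((2 : ℝ)) ^ Nat.log 2 K1 ≤ 2 * X := by
      have h3 : ((2 ^ Nat.log 2 K1 : ℕ) : ℝ) ≤ ((2 * R : ℕ) : ℝ) := by exact_mod_cast h1.trans hK1R
      push_cast at h3
      linarith
    have h3 : (Nat.log 2 K1 : ℝ) * Real.log 2 ≤ Real.log 2 + ℓ := by
      have h4 := Real.log_le_log (by positivity) h2
      rw [Real.log_pow, Real.log_mul (by norm_num) hX0.ne'] at h4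
      exact h4
    have h5 := Real.log_two_gt_d9
    have h6 := Real.log_two_lt_d9
    have h7 : (0 : ℝ) ≤ (Nat.log 2 K1 : ℝ) := Nat.cast_nonneg _
    rw [hnb]
    push_cast
    nlinarith
  -- split into blocks
  have hsplit : ∀ f : ℕ → ℂ, ∑ k ∈ Ioc K0 K1, f k =
      ∑ i ∈ range nb, ∑ k ∈ Ioc (min (K0 * 2 ^ i) K1) (min (K0 * 2 ^ (i + 1)) K1), f k := by
    intro f
    have h1 := bb_dyadic K0 K1 hK01 f nb
    rwa [min_eq_right hnb1] at h1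
  have hcs : ∀ j ∈ U, ‖∑ k ∈ Ioc K0 K1, ∑ l ∈ Ioc (R / k) (2 * R / k), a k * b l * cj j (k * l)‖ ^ 2 ≤
      nb * ∑ i ∈ range nb, ‖∑ k ∈ Ioc (min (K0 * 2 ^ i) K1) (min (K0 * 2 ^ (i + 1)) K1),
        ∑ l ∈ Ioc (R / k) (2 * R / k), a k * b l * cj j (k * l)‖ ^ 2 := by
    intro j _
    rw [hsplit]
    have h1 := norm_sum_le (range nb) (fun i => ∑ k ∈ Ioc (min (K0 * 2 ^ i) K1) (min (K0 * 2 ^ (i + 1)) K1),
        ∑ l ∈ Ioc (R / k) (2 * R / k), a k * b l * cj j (k * l))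
    refine (pow_le_pow_left₀ (norm_nonneg _) h1 2).trans ?_
    have h2 := sq_sum_le_card_mul_sum_sq (s := range nb) (f := fun i => ‖∑ k ∈ Ioc (min (K0 * 2 ^ i) K1) (min (K0 * 2 ^ (i + 1)) K1),
        ∑ l ∈ Ioc (R / k) (2 * R / k), a k * b l * cj j (k * l)‖)
    rwa [card_range] at h2
  refine (sum_le_sum hcs).trans ?_
  rw [← mul_sum, sum_comm]
  set β : ℝ := 2 / ℓ ^ (3 * K + 50) with hβ
  have hβ0 : 0 ≤ β := by positivity
  have hbl : ∀ i ∈ range nb, ∑ j ∈ U, ‖∑ k ∈ Ioc (min (K0 * 2 ^ i) K1) (min (K0 * 2 ^ (i + 1)) K1),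
        ∑ l ∈ Ioc (R / k) (2 * R / k), a k * b l * cj j (k * l)‖ ^ 2 ≤
      C * (R : ℝ) ^ 2 * ((h : ℝ) ^ 2 * β ^ 2 * ℓ ^ 6 + ℓ ^ 11 / Real.sqrt h) := by
    intro i _
    rcases Nat.le_total K1 (K0 * 2 ^ i) with h1 | h1
    · have h2 : K1 ≤ K0 * 2 ^ (i + 1) := h1.trans (Nat.mul_le_mul_left _ (Nat.pow_le_pow_right (by norm_num) (by omega)))
      rw [min_eq_right h1, min_eq_right h2, Ioc_self]
      simp only [sum_empty, norm_zero]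
      rw [zero_pow (by norm_num), sum_const_zero]
      positivity
    · rw [min_eq_left h1]
      have h2 : K0 ≤ K0 * 2 ^ i := Nat.le_mul_of_pos_right _ (by positivity)
      have h3 : K0 * 2 ^ (i + 1) = 2 * (K0 * 2 ^ i) := by ring
      rw [h3]
      set D : ℕ := K0 * 2 ^ i with hD
      refine hblk X hXx0 R D (min (2 * D) K1) h a b U β hRX hhn (hhK0.trans h2) (le_min (by omega) h1) (min_le_left _ _) ?_ hβ0 hR99
        hUc hUX ?_ hab hb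
      · exact (Nat.mul_le_mul_right _ (min_le_right _ _)).trans hK1
      · intro j hj κ κ' h4 h5 h6
        have h7 : κ' ≤ 2 * D := h6.trans (min_le_left _ _)
        refine (hA j hj κ κ' (by omega) h5 (by omega) (h6.trans (min_le_right _ _))).trans ?_
        rw [hβ, div_mul_eq_mul_div]
        refine div_le_div_of_nonneg_right ?_ (by positivity)
        have : κ ≤ 2 * D := by omega
        exact_mod_cast this
  have h1 : (nb : ℝ) * ∑ i ∈ range nb, ∑ j ∈ U, ‖∑ k ∈ Ioc (min (K0 * 2 ^ i) K1) (min (K0 * 2 ^ (i + 1)) K1),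
        ∑ l ∈ Ioc (R / k) (2 * R / k), a k * b l * cj j (k * l)‖ ^ 2 ≤
      (nb : ℝ) * (nb * (C * (R : ℝ) ^ 2 * ((h : ℝ) ^ 2 * β ^ 2 * ℓ ^ 6 + ℓ ^ 11 / Real.sqrt h))) := by
    refine mul_le_mul_of_nonneg_left ?_ (Nat.cast_nonneg _)
    refine (sum_le_sum hbl).trans ?_
    rw [sum_const, card_range, nsmul_eq_mul]
  refine h1.trans ?_
  -- numerics
  have hsq : ℓ ^ (K + 20) ≤ Real.sqrt h := by
    apply Real.le_sqrt_of_sq_le
    rw [← pow_mul, show (K + 20) * 2 = 2 * K + 40 by ring]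
    exact hh1
  have e1 : ℓ ^ 11 / Real.sqrt h ≤ 1 / ℓ ^ (K + 9) := by
    rw [div_le_div_iff₀ (Real.sqrt_pos.2 hh0) (by positivity), ← pow_add, one_mul, show 11 + (K + 9) = K + 20 by ring]
    exact hsq
  have e2 : (h : ℝ) ^ 2 * β ^ 2 * ℓ ^ 6 ≤ 16 / ℓ ^ (K + 9) := by
    have h2 : (h : ℝ) ^ 2 ≤ (2 * ℓ ^ (2 * K + 40)) ^ 2 := pow_le_pow_left₀ hh0.le hh2 2
    have h3 : (2 * ℓ ^ (2 * K + 40)) ^ 2 * β ^ 2 * ℓ ^ 6 = 16 / ℓ ^ (2 * K + 14) := by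
      rw [hβ, div_pow, ← pow_mul, mul_pow, ← pow_mul]
      rw [show (3 * K + 50) * 2 = (2 * K + 40) * 2 + 6 + (2 * K + 14) by ring, pow_add, pow_add]
      field_simp
      norm_num
    calc (h : ℝ) ^ 2 * β ^ 2 * ℓ ^ 6 ≤ (2 * ℓ ^ (2 * K + 40)) ^ 2 * β ^ 2 * ℓ ^ 6 := by gcongr
      _ = 16 / ℓ ^ (2 * K + 14) := h3
      _ ≤ 16 / ℓ ^ (K + 9) := by
          apply div_le_div_of_nonneg_left (by norm_num) (by positivity)
          exact pow_le_pow_right₀ hℓ1 (by omega)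
  have e3 : (h : ℝ) ^ 2 * β ^ 2 * ℓ ^ 6 + ℓ ^ 11 / Real.sqrt h ≤ 17 / ℓ ^ (K + 9) := by
    have : (17 : ℝ) / ℓ ^ (K + 9) = 16 / ℓ ^ (K + 9) + 1 / ℓ ^ (K + 9) := by ring
    linarith
  have e4 : (nb : ℝ) * nb ≤ 9 * ℓ ^ 2 := by nlinarith [Nat.cast_nonneg (α := ℝ) nb]
  calc (nb : ℝ) * (nb * (C * (R : ℝ) ^ 2 * ((h : ℝ) ^ 2 * β ^ 2 * ℓ ^ 6 + ℓ ^ 11 / Real.sqrt h))) =
      (nb : ℝ) * nb * (C * (R : ℝ) ^ 2 * ((h : ℝ) ^ 2 * β ^ 2 * ℓ ^ 6 + ℓ ^ 11 / Real.sqrt h)) := by ring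
    _ ≤ 9 * ℓ ^ 2 * (C * (R : ℝ) ^ 2 * (17 / ℓ ^ (K + 9))) := by
        refine mul_le_mul e4 (mul_le_mul_of_nonneg_left e3 (by positivity)) (by positivity) (by positivity)
    _ = 153 * C * (R : ℝ) ^ 2 / ℓ ^ (K + 7) := by
        rw [show K + 9 = 2 + (K + 7) by ring, pow_add]
        field_simp
        ring
    _ ≤ (R : ℝ) ^ 2 / ℓ ^ K := by
        rw [div_le_div_iff₀ (by positivity) (by positivity)]
        have h5 : 153 * C ≤ ℓ ^ 7 := by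
          calc 153 * C ≤ ℓ := hlC
            _ = ℓ ^ 1 := (pow_one ℓ).symm
            _ ≤ ℓ ^ 7 := pow_le_pow_right₀ hℓ1 (by norm_num)
        calc 153 * C * (R : ℝ) ^ 2 * ℓ ^ K ≤ ℓ ^ 7 * (R : ℝ) ^ 2 * ℓ ^ K := by gcongr
          _ = (R : ℝ) ^ 2 * ℓ ^ (K + 7) := by ring

end Pool.Agent.Lib.G3
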