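import Pool.Agent.Lib.G3.Vdd

/-!
# The bilinear estimate for the twist
-/

set_option autoImplicit false

namespace Pool.Agent.Lib.G3

open Finset Complex

/-- Cauchy-Schwarz and the maximal row sum -/
theorem bil_gen (A B : Finset ℕ) (a b : ℕ → ℂ) (F : ℕ → ℕ → ℂ) (D : ℝ)
    (hD : ∀ k ∈ B, ∑ k' ∈ B, ‖∑ l ∈ A, F l k * (starRingEnd ℂ) (F l k')‖ ≤ D) :
    ‖∑ l ∈ A, ∑ k ∈ B, a l * b k * F l k‖ ^ 2 ≤ (∑ l ∈ A, ‖a l‖ ^ 2) * (∑ k ∈ B, ‖b k‖ ^ 2) * D := by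
  classical
  set T : ℕ → ℂ := fun l => ∑ k ∈ B, b k * F l k with hT
  set W : ℕ → ℕ → ℂ := fun k k' => ∑ l ∈ A, F l k * (starRingEnd ℂ) (F l k') with hW
  have h1 : ‖∑ l ∈ A, ∑ k ∈ B, a l * b k * F l k‖ ≤ ∑ l ∈ A, ‖a l‖ * ‖T l‖ := by
    refine (norm_sum_le _ _).trans (le_of_eq ?_)
    refine Finset.sum_congr rfl fun l _ => ?_
    rw [← norm_mul, hT]
    simp only
    rw [mul_sum]
    congr 1
    refine Finset.sum_congr rfl fun k _ => ?_
    ring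
  have h2 : (∑ l ∈ A, ‖a l‖ * ‖T l‖) ^ 2 ≤ (∑ l ∈ A, ‖a l‖ ^ 2) * ∑ l ∈ A, ‖T l‖ ^ 2 :=
    Finset.sum_mul_sq_le_sq_mul_sq _ _ _
  have h3 : ∑ l ∈ A, ‖T l‖ ^ 2 ≤ (∑ k ∈ B, ‖b k‖ ^ 2) * D := by
    have e1 : ((∑ l ∈ A, ‖T l‖ ^ 2 : ℝ) : ℂ) = ∑ k ∈ B, ∑ k' ∈ B, b k * (starRingEnd ℂ) (b k') * W k k' := by
      have e0 : ∀ l, (((‖T l‖ ^ 2 : ℝ)) : ℂ) = ∑ k ∈ B, ∑ k' ∈ B, b k * (starRingEnd ℂ) (b k') * (F l k * (starRingEnd ℂ) (F l k')) := by
        intro l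
        rw [Complex.ofReal_pow, ← Complex.mul_conj' (T l), hT]
        simp only
        rw [map_sum, Finset.sum_mul_sum]
        refine Finset.sum_congr rfl fun k _ => Finset.sum_congr rfl fun k' _ => ?_
        rw [map_mul]
        ring
      rw [Complex.ofReal_sum, Finset.sum_congr rfl fun l _ => e0 l, Finset.sum_comm]
      refine Finset.sum_congr rfl fun k _ => ?_
      rw [Finset.sum_comm]
      refine Finset.sum_congr rfl fun k' _ => ?_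
      rw [hW]
      simp only
      rw [mul_sum]
    have e2 : ∑ l ∈ A, ‖T l‖ ^ 2 ≤ ∑ k ∈ B, ∑ k' ∈ B, ‖b k‖ * ‖b k'‖ * ‖W k k'‖ := by
      have e3 : ∑ l ∈ A, ‖T l‖ ^ 2 = ‖((∑ l ∈ A, ‖T l‖ ^ 2 : ℝ) : ℂ)‖ := by
        rw [Complex.norm_real, Real.norm_eq_abs, abs_of_nonneg (Finset.sum_nonneg fun _ _ => by positivity)]
      rw [e3, e1]
      refine (norm_sum_le _ _).trans (Finset.sum_le_sum fun k _ => (norm_sum_le _ _).trans (le_of_eq ?_))
      refine Finset.sum_congr rfl fun k' _ => ?_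
      rw [norm_mul, norm_mul, RCLike.norm_conj]
    have e4 : ∀ k k', ‖W k k'‖ = ‖W k' k‖ := by
      intro k k'
      have : W k k' = (starRingEnd ℂ) (W k' k) := by
        rw [hW]
        simp only
        rw [map_sum]
        refine Finset.sum_congr rfl fun l _ => ?_
        rw [map_mul, Complex.conj_conj]
        ring
      rw [this, RCLike.norm_conj]
    have e5 : ∑ k ∈ B, ∑ k' ∈ B, ‖b k‖ * ‖b k'‖ * ‖W k k'‖ ≤
        ∑ k ∈ B, ∑ k' ∈ B, (‖b k‖ ^ 2 / 2 * ‖W k k'‖ + ‖b k'‖ ^ 2 / 2 * ‖W k k'‖) := by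
      refine Finset.sum_le_sum fun k _ => Finset.sum_le_sum fun k' _ => ?_
      rw [← add_mul]
      apply mul_le_mul_of_nonneg_right _ (norm_nonneg _)
      nlinarith [sq_nonneg (‖b k‖ - ‖b k'‖)]
    have e6 : ∑ k ∈ B, ∑ k' ∈ B, ‖b k‖ ^ 2 / 2 * ‖W k k'‖ ≤ (∑ k ∈ B, ‖b k‖ ^ 2) / 2 * D := by
      rw [sum_div, sum_mul]
      refine Finset.sum_le_sum fun k hk => ?_
      rw [← mul_sum]
      exact mul_le_mul_of_nonneg_left (hD k hk) (by positivity)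
    have e7 : ∑ k ∈ B, ∑ k' ∈ B, ‖b k'‖ ^ 2 / 2 * ‖W k k'‖ ≤ (∑ k ∈ B, ‖b k‖ ^ 2) / 2 * D := by
      rw [Finset.sum_comm]
      refine le_trans (le_of_eq ?_) e6
      refine Finset.sum_congr rfl fun k _ => Finset.sum_congr rfl fun k' _ => ?_
      rw [e4]
    refine e2.trans (e5.trans ?_)
    have e8 : ∑ k ∈ B, ∑ k' ∈ B, (‖b k‖ ^ 2 / 2 * ‖W k k'‖ + ‖b k'‖ ^ 2 / 2 * ‖W k k'‖) =
        ∑ k ∈ B, ∑ k' ∈ B, ‖b k‖ ^ 2 / 2 * ‖W k k'‖ + ∑ k ∈ B, ∑ k' ∈ B, ‖b k'‖ ^ 2 / 2 * ‖W k k'‖ := by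
      rw [← Finset.sum_add_distrib]
      refine Finset.sum_congr rfl fun k _ => ?_
      rw [Finset.sum_add_distrib]
    rw [e8]
    linarith
  calc ‖∑ l ∈ A, ∑ k ∈ B, a l * b k * F l k‖ ^ 2 ≤ (∑ l ∈ A, ‖a l‖ * ‖T l‖) ^ 2 :=
        pow_le_pow_left₀ (norm_nonneg _) h1 2
    _ ≤ _ := h2
    _ ≤ (∑ l ∈ A, ‖a l‖ ^ 2) * ((∑ k ∈ B, ‖b k‖ ^ 2) * D) :=
        mul_le_mul_of_nonneg_left h3 (Finset.sum_nonneg fun _ _ => by positivity)
    _ = _ := by ring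

/-- `∑ 1/√Δ ≤ 2√K` -/
theorem sum_inv_sqrt (K : ℕ) : ∑ n ∈ Ioc 0 K, 1 / Real.sqrt n ≤ 2 * Real.sqrt K := by
  induction K with
  | zero => simp
  | succ K ih =>
    rw [Finset.sum_Ioc_succ_top (Nat.zero_le _)]
    have h1 : 0 < Real.sqrt ((K + 1 : ℕ) : ℝ) := Real.sqrt_pos.2 (by positivity)
    have h2 : Real.sqrt (K : ℝ) ^ 2 = K := Real.sq_sqrt (Nat.cast_nonneg _)
    have h3 : Real.sqrt ((K + 1 : ℕ) : ℝ) ^ 2 = K + 1 := by
      rw [Real.sq_sqrt (Nat.cast_nonneg _)]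
      push_cast
      ring
    have h4 : 0 ≤ Real.sqrt (K : ℝ) := Real.sqrt_nonneg _
    have h5 : 1 / Real.sqrt ((K + 1 : ℕ) : ℝ) ≤ 2 * Real.sqrt ((K + 1 : ℕ) : ℝ) - 2 * Real.sqrt K := by
      rw [div_le_iff₀ h1]
      nlinarith [sq_nonneg (Real.sqrt ((K + 1 : ℕ) : ℝ) - Real.sqrt K)]
    linarith

/-- the row sums of `|k - k'|^{-1/2}` -/
theorem sum_row (K k : ℕ) (hk : k ∈ Ioc K (2 * K)) :
    ∑ k' ∈ (Ioc K (2 * K)).erase k, 1 / Real.sqrt |(k : ℝ) - k'| ≤ 4 * Real.sqrt K := by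
  classical
  rw [mem_Ioc] at hk
  have h1 : (Ioc K (2 * K)).erase k = Ioo K k ∪ Ioc k (2 * K) := by
    ext x
    simp only [mem_erase, mem_Ioc, mem_union, mem_Ioo]
    omega
  have h2 : Disjoint (Ioo K k) (Ioc k (2 * K)) := by
    rw [Finset.disjoint_left]
    intro x hx hx'
    simp only [mem_Ioo, mem_Ioc] at hx hx'
    omega
  rw [h1, Finset.sum_union h2]
  have h3 : ∑ k' ∈ Ioo K k, 1 / Real.sqrt |(k : ℝ) - k'| ≤ ∑ n ∈ Ioc 0 K, 1 / Real.sqrt n := by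
    rw [show ∑ k' ∈ Ioo K k, 1 / Real.sqrt |(k : ℝ) - k'| = ∑ n ∈ (Ioo K k).image (fun k' => k - k'), 1 / Real.sqrt n by
      rw [Finset.sum_image]
      · refine Finset.sum_congr rfl fun k' hk' => ?_
        rw [mem_Ioo] at hk'
        rw [Nat.cast_sub hk'.2.le, abs_of_nonneg]
        have : (k' : ℝ) ≤ k := by exact_mod_cast hk'.2.le
        linarith
      · intro x hx y hy hxy
        simp only [coe_Ioo, Set.mem_Ioo] at hx hy
        simp only at hxy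
        omega]
    apply Finset.sum_le_sum_of_subset_of_nonneg
    · intro n hn
      simp only [mem_image, mem_Ioo, mem_Ioc] at hn ⊢
      omega
    · intro n _ _
      positivity
  have h4 : ∑ k' ∈ Ioc k (2 * K), 1 / Real.sqrt |(k : ℝ) - k'| ≤ ∑ n ∈ Ioc 0 K, 1 / Real.sqrt n := by
    rw [show ∑ k' ∈ Ioc k (2 * K), 1 / Real.sqrt |(k : ℝ) - k'| = ∑ n ∈ (Ioc k (2 * K)).image (fun k' => k' - k), 1 / Real.sqrt n by
      rw [Finset.sum_image]
      · refine Finset.sum_congr rfl fun k' hk' => ?_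
        rw [mem_Ioc] at hk'
        rw [Nat.cast_sub hk'.1.le, abs_sub_comm, abs_of_nonneg]
        have : (k : ℝ) ≤ k' := by exact_mod_cast hk'.1.le
        linarith
      · intro x hx y hy hxy
        simp only [coe_Ioc, Set.mem_Ioc] at hx hy
        simp only at hxy
        omega]
    apply Finset.sum_le_sum_of_subset_of_nonneg
    · intro n hn
      simp only [mem_image, mem_Ioc] at hn ⊢
      omega
    · intro n _ _
      positivity
  have := sum_inv_sqrt K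
  linarith

/-- the phase with cut -/
noncomputable def Fk (N Y : ℕ) (t β : ℝ) (l k : ℕ) : ℂ :=
  if l * k ≤ Y then Complex.exp (I * ((t * Real.log ((N : ℝ) - (l * k : ℕ)) + β * (l * k : ℕ) : ℝ) : ℂ)) else 0

theorem Fk_comm (N Y : ℕ) (t β : ℝ) (l k : ℕ) : Fk N Y t β l k = Fk N Y t β k l := by
  unfold Fk
  rw [mul_comm l k]

theorem norm_Fk_le (N Y : ℕ) (t β : ℝ) (l k : ℕ) : ‖Fk N Y t β l k‖ ≤ 1 := by
  unfold Fk
  split_ifs
  · rw [norm_eI]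
  · simp

/-- the kernel, `k < k'` -/
theorem W_lt {c : ℝ} (hc : 0 < c) {N Y : ℕ} (hN : 1 ≤ N) (hY : (Y : ℝ) ≤ (1 - c) * N) {t : ℝ} (ht : 0 < t) (β : ℝ)
    {L K k k' : ℕ} (hk : k ∈ Ioc K (2 * K)) (hk' : k' ∈ Ioc K (2 * K)) (hkk : k < k') :
    ‖∑ l ∈ Ioc L (2 * L), Fk N Y t β l k * (starRingEnd ℂ) (Fk N Y t β l k')‖ ≤
      512 / c ^ 3 * (K * L * Real.sqrt t / N) + 64 * (N / (Real.sqrt t * Real.sqrt K)) * (1 / Real.sqrt |(k : ℝ) - k'|) := by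
  rw [mem_Ioc] at hk hk'
  have hN0 : (0 : ℝ) < N := by exact_mod_cast hN
  have hk0 : 0 < k' := by omega
  have e1 : ∑ l ∈ Ioc L (2 * L), Fk N Y t β l k * (starRingEnd ℂ) (Fk N Y t β l k') =
      ∑ l ∈ Ioc L (min (2 * L) (Y / k')), Complex.exp (I * ((t * Real.log ((N : ℝ) - k * l) -
        t * Real.log ((N : ℝ) - k' * l) + (β * ((k : ℝ) - k')) * l : ℝ) : ℂ)) := by
    symm
    rw [← Finset.sum_subset (s₁ := Ioc L (min (2 * L) (Y / k'))) (s₂ := Ioc L (2 * L))]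
    · refine Finset.sum_congr rfl fun l hl => ?_
      rw [mem_Ioc] at hl
      have h1 : l ≤ Y / k' := hl.2.trans (min_le_right _ _)
      have h2 : l * k' ≤ Y := (Nat.le_div_iff_mul_le hk0).1 h1
      have h3 : l * k ≤ Y := (Nat.mul_le_mul_left l hkk.le).trans h2
      unfold Fk
      rw [if_pos h2, if_pos h3, ← Complex.exp_conj, ← Complex.exp_add]
      congr 1
      simp only [map_mul, Complex.conj_I, Complex.conj_ofReal]
      push_cast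
      rw [mul_comm (l : ℝ) (k : ℝ), mul_comm (l : ℝ) (k' : ℝ)]
      ring
    · exact Ioc_subset_Ioc_right (min_le_left _ _)
    · intro l hl hl'
      rw [mem_Ioc] at hl hl'
      have h1 : ¬ (l * k' ≤ Y) := by
        intro h
        exact hl' ⟨hl.1, le_min hl.2 ((Nat.le_div_iff_mul_le hk0).2 h)⟩
      unfold Fk
      rw [if_neg h1]
      simp
  rw [e1]
  have hK1 : ((k' * min (2 * L) (Y / k') : ℕ) : ℝ) ≤ (1 - c) * N := by
    refine le_trans ?_ hY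
    have : k' * min (2 * L) (Y / k') ≤ Y := (Nat.mul_le_mul_left k' (min_le_right _ _)).trans (Nat.mul_div_le Y k')
    exact_mod_cast this
  have h := twII hc hkk hN ht (β * ((k : ℝ) - k')) (K0 := L) hK1
  refine h.trans ?_
  have hst : 0 < Real.sqrt t := Real.sqrt_pos.2 ht
  have hkr : (k : ℝ) < k' := by exact_mod_cast hkk
  have hKp : 0 < K := by omega
  have hK0 : (0 : ℝ) < K := by exact_mod_cast hKp
  have hk1 : (K : ℝ) ≤ k' := by exact_mod_cast hk'.1.le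
  have hk2 : (k' : ℝ) ≤ 2 * K := by exact_mod_cast hk'.2
  have hk3 : (K : ℝ) ≤ k := by exact_mod_cast hk.1.le
  have hD : (0 : ℝ) < (k' : ℝ) - k := by linarith
  have hD2 : (k' : ℝ) - k ≤ K := by linarith
  have hLr : ((min (2 * L) (Y / k') : ℕ) : ℝ) ≤ 2 * L := by exact_mod_cast min_le_left _ _
  have s1 : Real.sqrt (t * ((k' : ℝ) - k) * k') ≤ 2 * (Real.sqrt t * K) := by
    rw [show 2 * (Real.sqrt t * K) = Real.sqrt (t * (2 * K) ^ 2) by
      rw [Real.sqrt_mul ht.le, Real.sqrt_sq (by positivity)]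
      ring]
    apply Real.sqrt_le_sqrt
    rw [mul_assoc]
    apply mul_le_mul_of_nonneg_left _ ht.le
    nlinarith
  have s2 : Real.sqrt t * Real.sqrt K * Real.sqrt ((k' : ℝ) - k) ≤ Real.sqrt (t * ((k' : ℝ) - k) * k') := by
    rw [← Real.sqrt_mul ht.le, ← Real.sqrt_mul (by positivity)]
    apply Real.sqrt_le_sqrt
    have : t * K * ((k' : ℝ) - k) = t * ((k' : ℝ) - k) * K := by ring
    rw [this]
    exact mul_le_mul_of_nonneg_left hk1 (by positivity)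
  have a1 : 2 / c ^ 3 * ((min (2 * L) (Y / k') : ℕ) : ℝ) * Real.sqrt (t * ((k' : ℝ) - k) * k') / N ≤
      2 / c ^ 3 * (2 * L) * (2 * (Real.sqrt t * K)) / N := by
    apply div_le_div_of_nonneg_right _ hN0.le
    apply mul_le_mul (mul_le_mul_of_nonneg_left hLr (by positivity)) s1 (by positivity) (by positivity)
  have a2 : (N : ℝ) / Real.sqrt (t * ((k' : ℝ) - k) * k') ≤ N / (Real.sqrt t * Real.sqrt K * Real.sqrt ((k' : ℝ) - k)) := by
    apply div_le_div_of_nonneg_left hN0.le _ s2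
    have := Real.sqrt_pos.2 hK0
    have := Real.sqrt_pos.2 hD
    positivity
  rw [abs_sub_comm, abs_of_pos hD]
  have a3 : 64 * (N / (Real.sqrt t * Real.sqrt K)) * (1 / Real.sqrt ((k' : ℝ) - k)) =
      64 * (N / (Real.sqrt t * Real.sqrt K * Real.sqrt ((k' : ℝ) - k))) := by
    rw [mul_assoc 64, div_mul_div_comm, mul_one]
  have a4 : 512 / c ^ 3 * (K * L * Real.sqrt t / N) = 64 * (2 / c ^ 3 * (2 * L) * (2 * (Real.sqrt t * K)) / N) := by
    ring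
  rw [a3, a4, ← mul_add]
  exact mul_le_mul_of_nonneg_left (add_le_add a1 a2) (by norm_num)

/-- **The bilinear estimate.** -/
theorem bil {c : ℝ} (hc : 0 < c) {N Y : ℕ} (hN : 1 ≤ N) (hY : (Y : ℝ) ≤ (1 - c) * N) {t : ℝ} (ht : 0 < t) (β : ℝ)
    (L K : ℕ) (a b : ℕ → ℂ) :
    ‖∑ l ∈ Ioc L (2 * L), ∑ k ∈ Ioc K (2 * K), a l * b k * Fk N Y t β l k‖ ^ 2 ≤
      (∑ l ∈ Ioc L (2 * L), ‖a l‖ ^ 2) * (∑ k ∈ Ioc K (2 * K), ‖b k‖ ^ 2) *
        (512 / c ^ 3 * (L + (K : ℝ) ^ 2 * L * Real.sqrt t / N + N / Real.sqrt t)) := by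
  classical
  have hN0 : (0 : ℝ) < N := by exact_mod_cast hN
  have hst : 0 < Real.sqrt t := Real.sqrt_pos.2 ht
  have hc1 : c ≤ 1 := by
    by_contra hcc
    have : (0 : ℝ) ≤ (Y : ℝ) := Nat.cast_nonneg _
    nlinarith [not_le.1 hcc]
  have hc3 : (512 : ℝ) ≤ 512 / c ^ 3 := by
    rw [le_div_iff₀ (by positivity)]
    have : c ^ 3 ≤ 1 := pow_le_one₀ hc.le hc1
    nlinarith [pow_pos hc 3]
  refine bil_gen _ _ a b _ _ fun k hk => ?_
  have hkm := mem_Ioc.1 hk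
  have hKp : 0 < K := by omega
  have hK0 : (0 : ℝ) < K := by exact_mod_cast hKp
  have hsK : 0 < Real.sqrt K := Real.sqrt_pos.2 hK0
  rw [← Finset.add_sum_erase _ _ hk]
  have d1 : ‖∑ l ∈ Ioc L (2 * L), Fk N Y t β l k * (starRingEnd ℂ) (Fk N Y t β l k)‖ ≤ L := by
    refine (norm_sum_le _ _).trans ?_
    refine (Finset.sum_le_sum (g := fun _ => (1 : ℝ)) fun l _ => ?_).trans (le_of_eq ?_)
    · rw [norm_mul, RCLike.norm_conj]
      exact mul_le_one₀ (norm_Fk_le _ _ _ _ _ _) (norm_nonneg _) (norm_Fk_le _ _ _ _ _ _)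
    · rw [sum_const, nsmul_eq_mul, mul_one, Nat.card_Ioc]
      congr 1
      omega
  have d2 : ∀ k' ∈ (Ioc K (2 * K)).erase k, ‖∑ l ∈ Ioc L (2 * L), Fk N Y t β l k * (starRingEnd ℂ) (Fk N Y t β l k')‖ ≤
      512 / c ^ 3 * (K * L * Real.sqrt t / N) + 64 * (N / (Real.sqrt t * Real.sqrt K)) * (1 / Real.sqrt |(k : ℝ) - k'|) := by
    intro k' hk'
    rw [mem_erase] at hk'
    rcases lt_or_gt_of_ne hk'.1 with h | h
    · have h1 := W_lt hc hN hY ht β (L := L) hk'.2 hk h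
      rw [abs_sub_comm]
      refine le_trans (le_of_eq ?_) h1
      have : ∑ l ∈ Ioc L (2 * L), Fk N Y t β l k * (starRingEnd ℂ) (Fk N Y t β l k') =
          (starRingEnd ℂ) (∑ l ∈ Ioc L (2 * L), Fk N Y t β l k' * (starRingEnd ℂ) (Fk N Y t β l k)) := by
        rw [map_sum]
        refine Finset.sum_congr rfl fun l _ => ?_
        rw [map_mul, Complex.conj_conj]
        ring
      rw [this, RCLike.norm_conj]
    · exact W_lt hc hN hY ht β (L := L) hk hk'.2 h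
  refine (add_le_add d1 (Finset.sum_le_sum d2)).trans ?_
  rw [Finset.sum_add_distrib, sum_const, nsmul_eq_mul, ← mul_sum]
  have d3 : (((Ioc K (2 * K)).erase k).card : ℝ) ≤ K := by
    rw [Finset.card_erase_of_mem hk, Nat.card_Ioc]
    have : 2 * K - K - 1 ≤ K := by omega
    exact_mod_cast this
  have d4 := sum_row K k hk
  have d5 : (((Ioc K (2 * K)).erase k).card : ℝ) * (512 / c ^ 3 * (K * L * Real.sqrt t / N)) ≤
      512 / c ^ 3 * ((K : ℝ) ^ 2 * L * Real.sqrt t / N) := by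
    calc _ ≤ K * (512 / c ^ 3 * (K * L * Real.sqrt t / N)) := mul_le_mul_of_nonneg_right d3 (by positivity)
      _ = _ := by ring
  have d6 : 64 * (N / (Real.sqrt t * Real.sqrt K)) * ∑ k' ∈ (Ioc K (2 * K)).erase k, 1 / Real.sqrt |(k : ℝ) - k'| ≤
      256 * (N / Real.sqrt t) := by
    calc _ ≤ 64 * (N / (Real.sqrt t * Real.sqrt K)) * (4 * Real.sqrt K) := mul_le_mul_of_nonneg_left d4 (by positivity)
      _ = 256 * (N / Real.sqrt t) := by
        field_simp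
        ring
  have d7 : (256 : ℝ) * (N / Real.sqrt t) ≤ 512 / c ^ 3 * (N / Real.sqrt t) :=
    mul_le_mul_of_nonneg_right (by linarith) (by positivity)
  have d8 : (L : ℝ) ≤ 512 / c ^ 3 * L := by
    have : (0 : ℝ) ≤ L := Nat.cast_nonneg _
    nlinarith
  have d9 : 512 / c ^ 3 * (L + (K : ℝ) ^ 2 * L * Real.sqrt t / N + N / Real.sqrt t) =
      512 / c ^ 3 * L + 512 / c ^ 3 * ((K : ℝ) ^ 2 * L * Real.sqrt t / N) + 512 / c ^ 3 * (N / Real.sqrt t) := by ring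
  rw [d9]
  linarith

end Pool.Agent.Lib.G3
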