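import Pool.Agent.Lib.G3.Defs2
import Pool.Agent.Lib.SW.SWFinal
import Pool.Agent.Lib.SW.FourierSW

/-!
# G3, row BS: the Fourier coefficients of `bt` at `b/q` and small `j`
-/

set_option autoImplicit false

open Finset

namespace Pool.Agent.Lib.G3

open Pool.Agent.Lib.MRT (cj norm_cj cj_mul)
open Pool.Agent.Lib.GT (e lam)

theorem abel_Ioc (f c : ℕ → ℂ) (a b : ℕ) (hab : a ≤ b) :
    ∑ n ∈ Ioc a b, f n * c n =
      (∑ n ∈ Ioc a b, f n) * c (b + 1) + ∑ m ∈ Ioc a b, (∑ n ∈ Ioc a m, f n) * (c m - c (m + 1)) := by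
  induction b, hab using Nat.le_induction with
  | base => simp
  | succ b hb ih =>
    rw [sum_Ioc_succ_top (by omega), ih, sum_Ioc_succ_top (by omega : a ≤ b) (fun m =>
      (∑ n ∈ Ioc a m, f n) * (c m - c (m + 1))), sum_Ioc_succ_top (by omega : a ≤ b) f]
    ring

theorem cj_diff (j : ℤ) (m : ℕ) (hm : 1 ≤ m) : ‖cj j m - cj j (m + 1)‖ ≤ |(j : ℝ)| / m := by
  have hm0 : (0 : ℝ) < m := by exact_mod_cast hm
  have hm1 : (0 : ℝ) < ((m + 1 : ℕ) : ℝ) := by positivity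
  have h1 : cj j (m + 1) = cj j m * Complex.exp (Complex.I * ((-(j : ℝ) * (Real.log ((m + 1 : ℕ) : ℝ) - Real.log m) : ℝ) : ℂ)) := by
    unfold cj
    rw [← Complex.exp_add]
    congr 1
    push_cast
    ring
  have h2 : cj j m - cj j (m + 1) = -(cj j m * (Complex.exp (Complex.I * ((-(j : ℝ) * (Real.log ((m + 1 : ℕ) : ℝ) - Real.log m) : ℝ) : ℂ)) - 1)) := by
    rw [h1]
    ring
  rw [h2, norm_neg, norm_mul, norm_cj, one_mul]
  refine Real.norm_exp_I_mul_ofReal_sub_one_le.trans ?_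
  rw [Real.norm_eq_abs, abs_mul, abs_neg, div_eq_mul_inv]
  refine mul_le_mul_of_nonneg_left ?_ (abs_nonneg _)
  rw [← Real.log_div hm1.ne' hm0.ne']
  have h3 : ((m + 1 : ℕ) : ℝ) / m = 1 + (m : ℝ)⁻¹ := by
    push_cast
    field_simp
  rw [h3]
  have h4 : 0 < (m : ℝ)⁻¹ := by positivity
  rw [abs_of_nonneg (Real.log_nonneg (by linarith))]
  have := Real.log_le_sub_one_of_pos (x := 1 + (m : ℝ)⁻¹) (by positivity)
  linarith

/-- the weight `n^(-ij) / log n` -/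
noncomputable def wj (j : ℤ) (n : ℕ) : ℂ := cj j n * ((1 / Real.log n : ℝ) : ℂ)

theorem wj_norm (j : ℤ) (n : ℕ) (hn : 3 ≤ n) : ‖wj j n‖ ≤ 1 := by
  have h1 : 1 ≤ Real.log n := by
    rw [Real.le_log_iff_exp_le (by positivity)]
    have h2 := Real.exp_one_lt_d9
    have h3 : (3 : ℝ) ≤ n := by exact_mod_cast hn
    linarith
  unfold wj
  rw [norm_mul, norm_cj, one_mul, Complex.norm_real, Real.norm_eq_abs, abs_of_nonneg (by positivity)]
  rw [div_le_one (by linarith)]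
  exact h1

theorem wj_diff (j : ℤ) (m : ℕ) (hm : 3 ≤ m) : ‖wj j m - wj j (m + 1)‖ ≤ (|(j : ℝ)| + 1) / m := by
  have hm0 : (0 : ℝ) < m := by positivity
  have h1 : ∀ n : ℕ, 3 ≤ n → 1 ≤ Real.log n := by
    intro n hn
    rw [Real.le_log_iff_exp_le (by positivity)]
    have h2 := Real.exp_one_lt_d9
    have h3 : (3 : ℝ) ≤ n := by exact_mod_cast hn
    linarith
  have e1 := h1 m hm
  have e2 := h1 (m + 1) (by omega)
  have h2 : wj j m - wj j (m + 1) = (cj j m - cj j (m + 1)) * ((1 / Real.log m : ℝ) : ℂ) +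
      cj j (m + 1) * ((1 / Real.log m - 1 / Real.log ((m + 1 : ℕ) : ℝ) : ℝ) : ℂ) := by
    unfold wj
    push_cast
    ring
  rw [h2]
  refine (norm_add_le _ _).trans ?_
  rw [norm_mul, norm_mul, norm_cj, one_mul, Complex.norm_real, Complex.norm_real, Real.norm_eq_abs, Real.norm_eq_abs,
    abs_of_nonneg (by positivity : 0 ≤ 1 / Real.log (m : ℝ))]
  have h3 : 1 / Real.log (m : ℝ) ≤ 1 := by
    rw [div_le_one (by linarith)]
    exact e1
  have h4 : ‖cj j m - cj j (m + 1)‖ * (1 / Real.log m) ≤ |(j : ℝ)| / m := by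
    calc ‖cj j m - cj j (m + 1)‖ * (1 / Real.log m) ≤ ‖cj j m - cj j (m + 1)‖ * 1 :=
          mul_le_mul_of_nonneg_left h3 (norm_nonneg _)
      _ ≤ _ := by rw [mul_one]; exact cj_diff j m (by omega)
  have h5 : |1 / Real.log (m : ℝ) - 1 / Real.log ((m + 1 : ℕ) : ℝ)| ≤ 1 / m := by
    have e3 : Real.log (m : ℝ) ≤ Real.log ((m + 1 : ℕ) : ℝ) := Real.log_le_log hm0 (by push_cast; linarith)
    have e4 : Real.log ((m + 1 : ℕ) : ℝ) - Real.log m ≤ 1 / m := by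
      rw [← Real.log_div (by positivity) hm0.ne']
      have e5 : ((m + 1 : ℕ) : ℝ) / m = 1 + 1 / m := by
        push_cast
        field_simp
      rw [e5]
      have := Real.log_le_sub_one_of_pos (x := 1 + 1 / (m : ℝ)) (by positivity)
      linarith
    have e6 : 1 / Real.log (m : ℝ) - 1 / Real.log ((m + 1 : ℕ) : ℝ) =
        (Real.log ((m + 1 : ℕ) : ℝ) - Real.log m) / (Real.log m * Real.log ((m + 1 : ℕ) : ℝ)) := by
      field_simp
    rw [e6, abs_of_nonneg (by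
      apply div_nonneg (by linarith) (by positivity))]
    rw [div_le_iff₀ (by positivity)]
    have e7 : 1 ≤ Real.log m * Real.log ((m + 1 : ℕ) : ℝ) := by nlinarith
    have e8 : (0 : ℝ) ≤ 1 / m := by positivity
    nlinarith
  have h6 : (|(j : ℝ)| + 1) / m = |(j : ℝ)| / m + 1 / m := by ring
  rw [h6]
  linarith

/-- partial summation against `n^(-ij) / log n` -/
theorem abel_wj (f : ℕ → ℂ) (j : ℤ) (R : ℕ) (hR : 3 ≤ R) {E : ℝ} (hE : 0 ≤ E) (hf : ∀ m ∈ Ioc R (2 * R), ‖∑ n ∈ Ioc R m, f n‖ ≤ E) :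
    ‖∑ n ∈ Ioc R (2 * R), f n * wj j n‖ ≤ E * (|(j : ℝ)| + 2) := by
  have hR0 : (0 : ℝ) < R := by positivity
  rw [abel_Ioc f (wj j) R (2 * R) (by omega)]
  refine (norm_add_le _ _).trans ?_
  have h1 : ‖(∑ n ∈ Ioc R (2 * R), f n) * wj j (2 * R + 1)‖ ≤ E := by
    rw [norm_mul]
    calc ‖∑ n ∈ Ioc R (2 * R), f n‖ * ‖wj j (2 * R + 1)‖ ≤ E * 1 :=
          mul_le_mul (hf (2 * R) (by rw [mem_Ioc]; omega)) (wj_norm j _ (by omega)) (norm_nonneg _) hE
      _ = E := mul_one E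
  have h2 : ‖∑ m ∈ Ioc R (2 * R), (∑ n ∈ Ioc R m, f n) * (wj j m - wj j (m + 1))‖ ≤ E * (|(j : ℝ)| + 1) := by
    refine (norm_sum_le _ _).trans ?_
    have h3 : ∀ m ∈ Ioc R (2 * R), ‖(∑ n ∈ Ioc R m, f n) * (wj j m - wj j (m + 1))‖ ≤ E * ((|(j : ℝ)| + 1) / R) := by
      intro m hm
      rw [norm_mul]
      refine mul_le_mul (hf m hm) ?_ (norm_nonneg _) hE
      rw [mem_Ioc] at hm
      refine (wj_diff j m (by omega)).trans ?_
      have h4 : (R : ℝ) ≤ m := by exact_mod_cast hm.1.le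
      exact div_le_div_of_nonneg_left (by positivity) hR0 h4
    refine (sum_le_sum h3).trans ?_
    rw [sum_const, Nat.card_Ioc, nsmul_eq_mul]
    have h5 : 2 * R - R = R := by omega
    rw [h5]
    have h6 : (R : ℝ) * (E * ((|(j : ℝ)| + 1) / R)) = E * (|(j : ℝ)| + 1) := by
      field_simp
    rw [h6]
  have h7 : E * (|(j : ℝ)| + 2) = E + E * (|(j : ℝ)| + 1) := by ring
  rw [h7]
  exact add_le_add h1 h2

/-- the primes with `e(na/q)` against all primes, on a segment -/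
theorem theta_e (k : ℕ) : ∃ C : ℝ, 0 < C ∧ ∀ (q R m : ℕ) (a : ℤ), 1 ≤ q → IsCoprime a (q : ℤ) → 3 ≤ R → R ≤ m → m ≤ 2 * R →
    ‖∑ n ∈ Ioc R m, ((lam n : ℝ) : ℂ) * (e (n * ((a : ℝ) / q)) - ((ArithmeticFunction.moebius q : ℤ) : ℂ) / (q.totient : ℂ))‖ ≤
      C * (q : ℝ) ^ 2 * R / (Real.log R) ^ k := by
  obtain ⟨C1, hC1, h1⟩ := Pool.Agent.Lib.SW.major_L k
  obtain ⟨C2, hC2, h2⟩ := Pool.Agent.Lib.SW.SWF_sqrt k
  refine ⟨4 * (2 * C1 + 2 * C2), by positivity, ?_⟩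
  intro q R m a hq ha hR hRm hm
  have hR3 : (3 : ℝ) ≤ R := by exact_mod_cast hR
  have hR0 : (0 : ℝ) < R := by positivity
  have hlR : 0 < Real.log R := Real.log_pos (by linarith)
  have hq0 : (1 : ℝ) ≤ q := by exact_mod_cast hq
  have hphi : (1 : ℝ) ≤ q.totient := by exact_mod_cast Nat.totient_pos.2 (by omega : 0 < q)
  -- sums up to x
  have key : ∀ (q' x : ℕ) (a' : ℤ), 1 ≤ q' → IsCoprime a' (q' : ℤ) → R ≤ x → x ≤ 2 * R →
      ‖∑ n ∈ Icc 1 x, ((lam n : ℝ) : ℂ) * e (n * ((a' : ℝ) / q')) -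
        ((ArithmeticFunction.moebius q' : ℤ) : ℂ) / (q'.totient : ℂ) * x‖ ≤ (2 * C1 + 2 * C2) * (q' : ℝ) ^ 2 * R / (Real.log R) ^ k := by
    intro q' x a' hq' ha' hx hx2
    have hq1 : (1 : ℝ) ≤ q' := by exact_mod_cast hq'
    have hx3 : (R : ℝ) ≤ x := by exact_mod_cast hx
    have hx4 : (x : ℝ) ≤ 2 * R := by exact_mod_cast hx2
    have hlx : Real.log R ≤ Real.log x := Real.log_le_log hR0 hx3
    have hl2 : Real.log R ≤ Real.log ((2 * R : ℕ) : ℝ) := Real.log_le_log hR0 (by push_cast; linarith)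
    have b1 := h1 (2 * R) x q' a' (by omega) hx2 hq' ha'
    have b2 := Pool.Agent.Lib.SW.FourierSW_lam_diff x (by omega) ((a' : ℝ) / q')
    have b3 := h2 (x : ℝ) (by linarith)
    have e1 : ∑ n ∈ Icc 1 x, ((lam n : ℝ) : ℂ) * e (n * ((a' : ℝ) / q')) -
        ((ArithmeticFunction.moebius q' : ℤ) : ℂ) / (q'.totient : ℂ) * x =
        (∑ n ∈ Icc 1 x, ((ArithmeticFunction.vonMangoldt n : ℝ) : ℂ) * e (n * ((a' : ℝ) / q')) -
        ((ArithmeticFunction.moebius q' : ℤ) : ℂ) / (q'.totient : ℂ) * x) -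
        ∑ n ∈ Icc 1 x, ((ArithmeticFunction.vonMangoldt n - lam n : ℝ) : ℂ) * e (n * ((a' : ℝ) / q')) := by
      have e2 : ∑ n ∈ Icc 1 x, ((ArithmeticFunction.vonMangoldt n - lam n : ℝ) : ℂ) * e (n * ((a' : ℝ) / q')) =
          ∑ n ∈ Icc 1 x, ((ArithmeticFunction.vonMangoldt n : ℝ) : ℂ) * e (n * ((a' : ℝ) / q')) -
            ∑ n ∈ Icc 1 x, ((lam n : ℝ) : ℂ) * e (n * ((a' : ℝ) / q')) := by
        rw [← sum_sub_distrib]
        refine sum_congr rfl fun n _ => ?_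
        push_cast
        ring
      rw [e2]
      ring
    rw [e1]
    refine (norm_sub_le _ _).trans ?_
    have c1 : C1 * (q' : ℝ) ^ 2 * ((2 * R : ℕ) : ℝ) / (Real.log ((2 * R : ℕ) : ℝ)) ^ k ≤ 2 * C1 * (q' : ℝ) ^ 2 * R / (Real.log R) ^ k := by
      apply div_le_div₀ (by positivity) _ (by positivity) (pow_le_pow_left₀ hlR.le hl2 k)
      push_cast
      linarith
    have c2 : C2 * x / (Real.log x) ^ k ≤ 2 * C2 * (q' : ℝ) ^ 2 * R / (Real.log R) ^ k := by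
      apply div_le_div₀ (by positivity) _ (by positivity) (pow_le_pow_left₀ hlR.le hlx k)
      have d1 : (1 : ℝ) ≤ (q' : ℝ) ^ 2 := one_le_pow₀ hq1
      have d2 : C2 * x ≤ C2 * (2 * R) := by gcongr
      have d3 : C2 * (2 * R) * 1 ≤ C2 * (2 * R) * (q' : ℝ) ^ 2 := by gcongr
      nlinarith
    have c3 : (2 * C1 + 2 * C2) * (q' : ℝ) ^ 2 * R / (Real.log R) ^ k =
        2 * C1 * (q' : ℝ) ^ 2 * R / (Real.log R) ^ k + 2 * C2 * (q' : ℝ) ^ 2 * R / (Real.log R) ^ k := by ring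
    rw [c3]
    linarith
  have seg : ∀ g : ℕ → ℂ, ∑ n ∈ Ioc R m, g n = ∑ n ∈ Icc 1 m, g n - ∑ n ∈ Icc 1 R, g n := by
    intro g
    have h1 : Icc 1 m = Icc 1 R ∪ Ioc R m := by
      ext n
      simp only [mem_union, mem_Icc, mem_Ioc]
      omega
    have h2 : Disjoint (Icc 1 R) (Ioc R m) := by
      rw [disjoint_left]
      intro n hn hn2
      rw [mem_Icc] at hn
      rw [mem_Ioc] at hn2
      omega
    rw [h1, sum_union h2]
    ring
  have a1 := key q m a hq ha hRm hm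
  have a2 := key q R a hq ha le_rfl (by omega)
  have a3 := key 1 m 0 le_rfl (by simpa using isCoprime_one_right) hRm hm
  have a4 := key 1 R 0 le_rfl (by simpa using isCoprime_one_right) le_rfl (by omega)
  have e1 : ∀ x : ℕ, ∑ n ∈ Icc 1 x, ((lam n : ℝ) : ℂ) * e (n * (((0 : ℤ) : ℝ) / (1 : ℕ))) - 
      ((ArithmeticFunction.moebius 1 : ℤ) : ℂ) / ((1 : ℕ).totient : ℂ) * x = ∑ n ∈ Icc 1 x, ((lam n : ℝ) : ℂ) - x := by
    intro x
    have e0 : e 0 = 1 := by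
      unfold e
      simp
    simp [e0]
  rw [e1] at a3 a4
  rw [seg]
  set w : ℂ := ((ArithmeticFunction.moebius q : ℤ) : ℂ) / (q.totient : ℂ) with hw
  have hw1 : ‖w‖ ≤ 1 := by
    rw [hw, norm_div, Complex.norm_intCast, Complex.norm_natCast, div_le_one (by linarith)]
    have : |((ArithmeticFunction.moebius q : ℤ) : ℝ)| ≤ 1 := by exact_mod_cast ArithmeticFunction.abs_moebius_le_one
    linarith
  have e2 : ∀ x : ℕ, ∑ n ∈ Icc 1 x, ((lam n : ℝ) : ℂ) * (e (n * ((a : ℝ) / q)) - w) =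
      (∑ n ∈ Icc 1 x, ((lam n : ℝ) : ℂ) * e (n * ((a : ℝ) / q)) - w * x) - w * (∑ n ∈ Icc 1 x, ((lam n : ℝ) : ℂ) - x) := by
    intro x
    have e3 : ∑ n ∈ Icc 1 x, ((lam n : ℝ) : ℂ) * (e (n * ((a : ℝ) / q)) - w) =
        ∑ n ∈ Icc 1 x, ((lam n : ℝ) : ℂ) * e (n * ((a : ℝ) / q)) - w * ∑ n ∈ Icc 1 x, ((lam n : ℝ) : ℂ) := by
      rw [mul_sum, ← sum_sub_distrib]
      refine sum_congr rfl fun n _ => ?_
      ring
    rw [e3]
    ring
  rw [e2, e2]
  set A1 := ∑ n ∈ Icc 1 m, ((lam n : ℝ) : ℂ) * e (n * ((a : ℝ) / q)) - w * m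
  set A2 := ∑ n ∈ Icc 1 R, ((lam n : ℝ) : ℂ) * e (n * ((a : ℝ) / q)) - w * R
  set A3 := ∑ n ∈ Icc 1 m, ((lam n : ℝ) : ℂ) - m
  set A4 := ∑ n ∈ Icc 1 R, ((lam n : ℝ) : ℂ) - R
  set E : ℝ := (2 * C1 + 2 * C2) * (q : ℝ) ^ 2 * R / (Real.log R) ^ k with hE
  have hE1 : (2 * C1 + 2 * C2) * ((1 : ℕ) : ℝ) ^ 2 * R / (Real.log R) ^ k ≤ E := by
    apply div_le_div_of_nonneg_right _ (by positivity)
    have d1 : (1 : ℝ) ≤ (q : ℝ) ^ 2 := one_le_pow₀ hq0
    gcongr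
  have b3 : ‖w * A3‖ ≤ E := by
    rw [norm_mul]
    calc ‖w‖ * ‖A3‖ ≤ 1 * ‖A3‖ := mul_le_mul_of_nonneg_right hw1 (norm_nonneg _)
      _ ≤ E := by rw [one_mul]; exact a3.trans hE1
  have b4 : ‖w * A4‖ ≤ E := by
    rw [norm_mul]
    calc ‖w‖ * ‖A4‖ ≤ 1 * ‖A4‖ := mul_le_mul_of_nonneg_right hw1 (norm_nonneg _)
      _ ≤ E := by rw [one_mul]; exact a4.trans hE1
  have e4 : 4 * (2 * C1 + 2 * C2) * (q : ℝ) ^ 2 * R / (Real.log R) ^ k = (E + E) + (E + E) := by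
    rw [hE]
    ring
  rw [e4]
  refine (norm_sub_le _ _).trans (add_le_add ?_ ?_)
  · exact (norm_sub_le _ _).trans (add_le_add a1 b3)
  · exact (norm_sub_le _ _).trans (add_le_add a2 b4)

/-- the primes `r` of `(R, 2R]`, twisted -/
theorem pr_e (k : ℕ) : ∃ C : ℝ, 0 < C ∧ ∀ (q R : ℕ) (a j : ℤ), 1 ≤ q → IsCoprime a (q : ℤ) → 3 ≤ R →
    ‖∑ r ∈ pr R, e (r * ((a : ℝ) / q)) * cj j r - ((ArithmeticFunction.moebius q : ℤ) : ℂ) / (q.totient : ℂ) * ∑ r ∈ pr R, cj j r‖ ≤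
      C * (q : ℝ) ^ 2 * R * (|(j : ℝ)| + 2) / (Real.log R) ^ k := by
  obtain ⟨C, hC, h⟩ := theta_e k
  refine ⟨C, hC, ?_⟩
  intro q R a j hq ha hR
  set w : ℂ := ((ArithmeticFunction.moebius q : ℤ) : ℂ) / (q.totient : ℂ) with hw
  have hR3 : (3 : ℝ) ≤ R := by exact_mod_cast hR
  have hlR : 0 < Real.log R := Real.log_pos (by linarith)
  have h1 := abel_wj (fun n => ((lam n : ℝ) : ℂ) * (e (n * ((a : ℝ) / q)) - w)) j R hR (E := C * (q : ℝ) ^ 2 * R / (Real.log R) ^ k)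
    (by positivity) (fun m hm => by
      rw [mem_Ioc] at hm
      exact h q R m a hq ha hR (by omega) (by omega))
  have h2 : ∑ n ∈ Ioc R (2 * R), ((lam n : ℝ) : ℂ) * (e (n * ((a : ℝ) / q)) - w) * wj j n =
      ∑ r ∈ pr R, e (r * ((a : ℝ) / q)) * cj j r - w * ∑ r ∈ pr R, cj j r := by
    rw [mul_sum, ← sum_sub_distrib]
    unfold pr
    rw [sum_filter]
    refine sum_congr rfl fun n hn => ?_
    rw [mem_Ioc] at hn
    unfold lam wj
    by_cases hp : n.Prime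
    · rw [if_pos hp, if_pos hp]
      have h3 : Real.log n ≠ 0 := by
        have : (3 : ℝ) ≤ n := by exact_mod_cast (by omega : 3 ≤ n)
        exact (Real.log_pos (by linarith)).ne'
      have h4 : ((Real.log n : ℝ) : ℂ) ≠ 0 := Complex.ofReal_ne_zero.2 h3
      rw [Complex.ofReal_div, Complex.ofReal_one]
      generalize ((Real.log n : ℝ) : ℂ) = L at h4
      field_simp
    · rw [if_neg hp, if_neg hp]
      simp
  rw [h2] at h1
  refine h1.trans (le_of_eq ?_)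
  ring

theorem bt_wsum {a : ℕ → ℂ} {P R M X : ℕ} (hX : 8 * (P * M * R) ≤ X) (w : ℕ → ℂ) :
    ∑ n ∈ Icc 1 X, bt a P R M n * w n = ∑ p ∈ pr P, ∑ m ∈ Ioc M (2 * M), ∑ r ∈ pr R, a m * w (p * m * r) := by
  have h1 : ∀ n ∈ Icc 1 X, bt a P R M n * w n =
      ∑ p ∈ pr P, ∑ m ∈ Ioc M (2 * M), ∑ r ∈ pr R, (if p * m * r = n then a m * w n else 0) := by
    intro n _
    unfold bt
    rw [sum_mul]
    refine sum_congr rfl fun p _ => ?_
    rw [sum_comm, sum_mul]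
    refine sum_congr rfl fun m _ => ?_
    rw [sum_mul]
    refine sum_congr rfl fun r _ => ?_
    rw [ite_mul, zero_mul]
  rw [sum_congr rfl h1, sum_comm]
  refine sum_congr rfl fun p hp => ?_
  rw [sum_comm]
  refine sum_congr rfl fun m hm => ?_
  rw [sum_comm]
  refine sum_congr rfl fun r hr => ?_
  unfold pr at hp hr
  rw [mem_filter, mem_Ioc] at hp hr
  rw [mem_Ioc] at hm
  rw [sum_eq_single_of_mem (p * m * r)]
  · rw [if_pos rfl]
  · rw [mem_Icc]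
    constructor
    · have h2 : 0 < p * m * r := by
        have := hp.2.pos
        have := hr.2.pos
        have : 0 < m := by omega
        positivity
      omega
    · have h3 : p * m * r ≤ (2 * P) * (2 * M) * (2 * R) := by
        gcongr
        · exact hp.1.2
        · exact hm.2
        · exact hr.1.2
      have h4 : (2 * P) * (2 * M) * (2 * R) = 8 * (P * M * R) := by ring
      omega
  · intro n _ hn
    rw [if_neg (fun h => hn h.symm)]

theorem bqs (K c2 c5 c1 : ℕ) (hc : c2 < c1) : ∃ x0 : ℝ, ∀ X : ℕ, x0 ≤ X → ∀ (P R M : ℕ) (a : ℕ → ℂ), Par X P R M c1 → Good a P R M →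
    ∀ q b : ℕ, 1 ≤ q → (q : ℝ) ≤ (Real.log X) ^ c2 → Nat.Coprime q b → ∀ j : ℤ, |(j : ℝ)| ≤ (Real.log X) ^ c5 →
      ‖bq (bt a P R M) X ((b : ℝ) / q) j - ((ArithmeticFunction.moebius q : ℤ) : ℂ) / (q.totient : ℂ) * bq (bt a P R M) X 0 j‖ ≤
        X / (Real.log X) ^ K := by
  obtain ⟨C, hC, h⟩ := pr_e (K + 2 * c2 + c5 + 1)
  set k := K + 2 * c2 + c5 + 1 with hk
  refine ⟨max (2 ^ 20) (Real.exp (max 1 (3 * C * 4 ^ k))), ?_⟩
  intro X hX P R M a hpar ha q b hq hqX hqb j hj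
  have hX1 : (2 : ℝ) ^ 20 ≤ X := (le_max_left _ _).trans hX
  have hX2 : Real.exp (max 1 (3 * C * 4 ^ k)) ≤ X := (le_max_right _ _).trans hX
  have hXpos : (0 : ℝ) < X := by linarith [show (0 : ℝ) < 2 ^ 20 by norm_num]
  set l := Real.log X with hl
  have hl0 : max 1 (3 * C * 4 ^ k) ≤ l := by
    rw [hl, Real.le_log_iff_exp_le hXpos]
    exact hX2
  have hl1 : 1 ≤ l := (le_max_left _ _).trans hl0
  have hl2 : 3 * C * 4 ^ k ≤ l := (le_max_right _ _).trans hl0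
  -- sizes
  have hR1 : (X : ℝ) ^ (1 / 4 : ℝ) ≤ R := by
    rw [hpar.hR]
    have e1 : (X : ℝ) ^ (9 / 20 : ℝ) = (X : ℝ) ^ (1 / 4 : ℝ) * (X : ℝ) ^ (1 / 5 : ℝ) := by
      rw [← Real.rpow_add hXpos]
      norm_num
    have e2 : (16 : ℝ) ≤ (X : ℝ) ^ (1 / 5 : ℝ) := by
      have e3 : ((2 : ℝ) ^ 20) ^ (1 / 5 : ℝ) ≤ (X : ℝ) ^ (1 / 5 : ℝ) := Real.rpow_le_rpow (by positivity) hX1 (by norm_num)
      have e4 : ((2 : ℝ) ^ 20) ^ (1 / 5 : ℝ) = 16 := by
        rw [← Real.rpow_natCast, ← Real.rpow_mul (by norm_num)]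
        norm_num
      linarith
    have e5 : (1 : ℝ) ≤ (X : ℝ) ^ (1 / 4 : ℝ) := Real.one_le_rpow (by linarith [show (1 : ℝ) ≤ 2 ^ 20 by norm_num]) (by norm_num)
    have e6 := Nat.lt_floor_add_one ((X : ℝ) ^ (9 / 20 : ℝ))
    rw [e1] at e6
    rw [e1]
    nlinarith
  have hR2 : (32 : ℝ) ≤ R := by
    have e3 : ((2 : ℝ) ^ 20) ^ (1 / 4 : ℝ) ≤ (X : ℝ) ^ (1 / 4 : ℝ) := Real.rpow_le_rpow (by positivity) hX1 (by norm_num)
    have e4 : ((2 : ℝ) ^ 20) ^ (1 / 4 : ℝ) = 32 := by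
      rw [← Real.rpow_natCast, ← Real.rpow_mul (by norm_num)]
      norm_num
    linarith
  have hR3 : 3 ≤ R := by
    have : (3 : ℝ) ≤ R := by linarith
    exact_mod_cast this
  have hR0 : (0 : ℝ) < R := by linarith
  have hlR : l / 4 ≤ Real.log R := by
    have e1 := Real.log_le_log (by positivity) hR1
    rw [Real.log_rpow hXpos] at e1
    linarith
  have hPMR : 16 * (P * M * R) ≤ X := by
    rw [hpar.hM]
    have e1 := Nat.mul_div_le X (16 * (P * R))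
    calc 16 * (P * (X / (16 * (P * R))) * R) = 16 * (P * R) * (X / (16 * (P * R))) := by ring
      _ ≤ X := e1
  have hqP : q ≤ P := by
    rw [hpar.hP]
    apply Nat.le_floor
    exact hqX.trans (pow_le_pow_right₀ hl1 hc.le)
  -- the two sums
  have f1 : bq (bt a P R M) X ((b : ℝ) / q) j = ∑ p ∈ pr P, ∑ m ∈ Ioc M (2 * M),
      (a m * cj j p * cj j m) * ∑ r ∈ pr R, e (r * (((-(p * m * b : ℕ) : ℤ) : ℝ) / q)) * cj j r := by
    unfold bq
    have e1 := bt_wsum (a := a) (P := P) (R := R) (M := M) (X := X) (by omega) (fun n => e (-(n * ((b : ℝ) / q))) * cj j n)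
    have e2 : ∑ n ∈ Icc 1 X, bt a P R M n * e (-(n * ((b : ℝ) / q))) * cj j n =
        ∑ n ∈ Icc 1 X, bt a P R M n * (e (-(n * ((b : ℝ) / q))) * cj j n) := by
      refine sum_congr rfl fun n _ => ?_
      ring
    rw [e2, e1]
    refine sum_congr rfl fun p hp => sum_congr rfl fun m hm => ?_
    rw [mul_sum]
    refine sum_congr rfl fun r hr => ?_
    unfold pr at hp hr
    rw [mem_filter, mem_Ioc] at hp hr
    rw [mem_Ioc] at hm
    have hp0 : p ≠ 0 := hp.2.ne_zero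
    have hr0 : r ≠ 0 := hr.2.ne_zero
    have hm0 : m ≠ 0 := by omega
    rw [cj_mul j (Nat.mul_ne_zero hp0 hm0) hr0, cj_mul j hp0 hm0]
    have e3 : e (-(((p * m * r : ℕ) : ℝ) * ((b : ℝ) / q))) = e (r * (((-(p * m * b : ℕ) : ℤ) : ℝ) / q)) := by
      congr 1
      push_cast
      ring
    rw [e3]
    ring
  have f2 : bq (bt a P R M) X 0 j = ∑ p ∈ pr P, ∑ m ∈ Ioc M (2 * M), (a m * cj j p * cj j m) * ∑ r ∈ pr R, cj j r := by
    unfold bq
    have e1 := bt_wsum (a := a) (P := P) (R := R) (M := M) (X := X) (by omega) (fun n => cj j n)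
    have e2 : ∑ n ∈ Icc 1 X, bt a P R M n * e (-(n * 0)) * cj j n = ∑ n ∈ Icc 1 X, bt a P R M n * cj j n := by
      refine sum_congr rfl fun n _ => ?_
      have e0 : e (-((n : ℝ) * 0)) = 1 := by
        unfold e
        simp
      rw [e0, mul_one]
    rw [e2, e1]
    refine sum_congr rfl fun p hp => sum_congr rfl fun m hm => ?_
    rw [mul_sum]
    refine sum_congr rfl fun r hr => ?_
    unfold pr at hp hr
    rw [mem_filter, mem_Ioc] at hp hr
    rw [mem_Ioc] at hm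
    have hp0 : p ≠ 0 := hp.2.ne_zero
    have hr0 : r ≠ 0 := hr.2.ne_zero
    have hm0 : m ≠ 0 := by omega
    rw [cj_mul j (Nat.mul_ne_zero hp0 hm0) hr0, cj_mul j hp0 hm0]
    ring
  set w : ℂ := ((ArithmeticFunction.moebius q : ℤ) : ℂ) / (q.totient : ℂ) with hw
  have f3 : bq (bt a P R M) X ((b : ℝ) / q) j - w * bq (bt a P R M) X 0 j = ∑ p ∈ pr P, ∑ m ∈ Ioc M (2 * M),
      (a m * cj j p * cj j m) * (∑ r ∈ pr R, e (r * (((-(p * m * b : ℕ) : ℤ) : ℝ) / q)) * cj j r - w * ∑ r ∈ pr R, cj j r) := by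
    rw [f1, f2, mul_sum, ← sum_sub_distrib]
    refine sum_congr rfl fun p _ => ?_
    rw [mul_sum, ← sum_sub_distrib]
    refine sum_congr rfl fun m _ => ?_
    ring
  have f4 : ∀ p ∈ pr P, ∀ m ∈ Ioc M (2 * M),
      ‖(a m * cj j p * cj j m) * (∑ r ∈ pr R, e (r * (((-(p * m * b : ℕ) : ℤ) : ℝ) / q)) * cj j r - w * ∑ r ∈ pr R, cj j r)‖ ≤
        C * (q : ℝ) ^ 2 * R * (|(j : ℝ)| + 2) / (Real.log R) ^ k := by
    intro p hp m hm
    by_cases hm0 : a m = 0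
    · rw [hm0, zero_mul, zero_mul, zero_mul, norm_zero]
      have : 0 < Real.log R := by linarith
      positivity
    · unfold pr at hp
      rw [mem_filter, mem_Ioc] at hp
      have e1 : Nat.Coprime p q := by
        rw [Nat.Prime.coprime_iff_not_dvd hp.2]
        intro h1
        have := Nat.le_of_dvd (by omega) h1
        omega
      have e2 : Nat.Coprime m q := by
        by_contra h1
        obtain ⟨l', hl', hlm, hlq⟩ := Nat.Prime.not_coprime_iff_dvd.1 h1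
        have h2 := (ha.rough m hm0 l' hl' hlm).1
        have := Nat.le_of_dvd (by omega) hlq
        omega
      have e3 : IsCoprime (-(p * m * b : ℕ) : ℤ) (q : ℤ) := by
        apply IsCoprime.neg_left
        rw [Nat.isCoprime_iff_coprime]
        exact (Nat.Coprime.mul_left e1 e2).mul_left hqb.symm
      have e4 := h q R (-(p * m * b : ℕ) : ℤ) j hq e3 hR3
      rw [norm_mul]
      have e5 : ‖a m * cj j p * cj j m‖ ≤ 1 := by
        rw [norm_mul, norm_mul, norm_cj, norm_cj, mul_one, mul_one]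
        exact ha.le m
      calc ‖a m * cj j p * cj j m‖ * _ ≤ 1 * (C * (q : ℝ) ^ 2 * R * (|(j : ℝ)| + 2) / (Real.log R) ^ k) :=
            mul_le_mul e5 e4 (norm_nonneg _) zero_le_one
        _ = _ := one_mul _
  have f5 : ‖bq (bt a P R M) X ((b : ℝ) / q) j - w * bq (bt a P R M) X 0 j‖ ≤
      (P : ℝ) * (M * (C * (q : ℝ) ^ 2 * R * (|(j : ℝ)| + 2) / (Real.log R) ^ k)) := by
    rw [f3]
    have hlogR : 0 < Real.log R := by linarith
    have g0 : 0 ≤ C * (q : ℝ) ^ 2 * R * (|(j : ℝ)| + 2) / (Real.log R) ^ k := by positivity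
    refine (norm_sum_le _ _).trans ?_
    have g1 : ∀ p ∈ pr P, ‖∑ m ∈ Ioc M (2 * M),
      (a m * cj j p * cj j m) * (∑ r ∈ pr R, e (r * (((-(p * m * b : ℕ) : ℤ) : ℝ) / q)) * cj j r - w * ∑ r ∈ pr R, cj j r)‖ ≤
        M * (C * (q : ℝ) ^ 2 * R * (|(j : ℝ)| + 2) / (Real.log R) ^ k) := by
      intro p hp
      refine (norm_sum_le _ _).trans ((sum_le_sum (f4 p hp)).trans ?_)
      rw [sum_const, Nat.card_Ioc, nsmul_eq_mul]
      have : 2 * M - M = M := by omega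
      rw [this]
    refine (sum_le_sum g1).trans ?_
    rw [sum_const, nsmul_eq_mul]
    refine mul_le_mul_of_nonneg_right ?_ (by positivity)
    have g2 : (pr P).card ≤ P := by
      unfold pr
      refine (card_filter_le _ _).trans ?_
      rw [Nat.card_Ioc]
      omega
    exact_mod_cast g2
  refine f5.trans ?_
  have g1 : (l / 4) ^ k ≤ (Real.log R) ^ k := pow_le_pow_left₀ (by linarith) hlR k
  have g2 : (P : ℝ) * (M * R) ≤ X := by
    have : P * (M * R) ≤ X := by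
      have e1 : P * M * R = P * (M * R) := by ring
      omega
    exact_mod_cast this
  have g3 : (q : ℝ) ^ 2 ≤ l ^ (2 * c2) := by
    rw [mul_comm, pow_mul]
    exact pow_le_pow_left₀ (by positivity) hqX 2
  have g4 : |(j : ℝ)| + 2 ≤ 3 * l ^ c5 := by
    have := one_le_pow₀ hl1 (n := c5)
    linarith
  have hl0' : 0 < l := by linarith
  calc (P : ℝ) * (M * (C * (q : ℝ) ^ 2 * R * (|(j : ℝ)| + 2) / (Real.log R) ^ k))
      = (P : ℝ) * (M * R) * (C * (q : ℝ) ^ 2 * (|(j : ℝ)| + 2)) / (Real.log R) ^ k := by ring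
    _ ≤ X * (C * l ^ (2 * c2) * (3 * l ^ c5)) / (l / 4) ^ k := by
        apply div_le_div₀ (by positivity) _ (by positivity) g1
        gcongr
    _ = X * ((3 * C * 4 ^ k) * l ^ (2 * c2 + c5)) / l ^ k := by
        have e1 : l ^ (2 * c2 + c5) = l ^ (2 * c2) * l ^ c5 := pow_add _ _ _
        rw [div_pow, e1]
        field_simp
    _ ≤ X * (l * l ^ (2 * c2 + c5)) / l ^ k := by gcongr
    _ = X / l ^ K := by
        have e1 : l ^ k = l ^ K * (l * l ^ (2 * c2 + c5)) := by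
          rw [hk]
          ring
        rw [e1]
        have e2 : l * l ^ (2 * c2 + c5) ≠ 0 := by positivity
        have e3 : l ^ K ≠ 0 := by positivity
        field_simp

end Pool.Agent.Lib.G3
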