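import Pool.Agent.Lib.G3.FourV

/-!
# G3, row CM: the finite Fourier inequality
-/

set_option autoImplicit false

open Finset

namespace Pool.Agent.Lib.G3

theorem cm {X H : ℕ} (hH : 1 ≤ H) (F G : ℕ → ℂ) (hF0 : F 0 = 0) (hF : ∀ n, X < n → F n = 0) {B : ℝ}
    (hB : ∀ α : ℝ, VV F H α (X + H + 1) ≤ B) :
    ∑ N ∈ Ioc X (X + H), ‖∑ n ∈ Icc 1 X, F n * G (N - n)‖ ^ 2 ≤ 3 * B / H * ∑ l ∈ Icc 0 (X + H), ‖G l‖ ^ 2 := by
  have hH' : (0 : ℝ) < H := by exact_mod_cast hH
  have hB0 : 0 ≤ B := le_trans (sum_nonneg fun _ _ => by positivity) (hB 0)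
  have h1 := fourV H X X (X + H + 1) hH (by omega) F G (by
    intro n hn
    constructor
    · by_contra h
      have h2 : n = 0 := by omega
      exact hn (by rw [h2, hF0])
    · by_contra h
      exact hn (hF n (by omega))) (B / H) (by
    intro al
    rw [div_mul_cancel₀ _ hH'.ne']
    exact hB al)
  have h2 : ∑ N ∈ Ioc X (X + H), ‖∑ n ∈ Icc 1 X, F n * G (N - n)‖ ^ 2 =
      ∑ N ∈ Ioc X (X + H), ‖∑ n ∈ range (N + 1), F n * G (N - n)‖ ^ 2 := by
    refine sum_congr rfl fun N hN => ?_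
    rw [mem_Ioc] at hN
    congr 2
    refine sum_subset ?_ ?_
    · intro n hn
      rw [mem_Icc] at hn
      rw [mem_range]
      omega
    · intro n _ hn2
      rw [mem_Icc] at hn2
      by_cases h0 : n = 0
      · rw [h0, hF0, zero_mul]
      · rw [hF n (by omega), zero_mul]
  rw [h2]
  refine h1.trans ?_
  have h3 : ∑ m ∈ range (X + H), ‖G m‖ ^ 2 ≤ ∑ l ∈ Icc 0 (X + H), ‖G l‖ ^ 2 := by
    refine sum_le_sum_of_subset_of_nonneg ?_ fun _ _ _ => by positivity
    intro i hi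
    rw [mem_range] at hi
    rw [mem_Icc]
    omega
  have h4 : 2 * (B / H) ≤ 3 * B / H := by
    rw [mul_div_assoc]
    have : 0 ≤ B / H := by positivity
    linarith
  exact mul_le_mul h4 h3 (sum_nonneg fun _ _ => by positivity) (by positivity)

end Pool.Agent.Lib.G3
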