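import Pool.Agent.Lib.G3.Defs
import Pool.Agent.Lib.SW.FourierSW

/-!
# G3 / LamS: the twisted sum over the primes `N - n` at small frequencies

`major_L` (Siegel-Walfisz at a rational point) and one Abel summation with the smooth weight `n^(ij - 1)`; the sum of the
weight over one turn of `log n` is `2π` or `0`.
-/

set_option autoImplicit false

open Finset

namespace Pool.Agent.Lib.G3

open Pool.Agent.Lib.MRT (cj norm_cj)
open Pool.Agent.Lib.GT (e norm_e e_add)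
open scoped ArithmeticFunction.vonMangoldt

/-- `t^(ij - 1)` -/
noncomputable def lsf (j : ℤ) (t : ℝ) : ℂ :=
  Complex.exp (((j : ℝ) * Real.log t : ℝ) * Complex.I) * ((t⁻¹ : ℝ) : ℂ)

/-- a primitive -/
noncomputable def lsG (j : ℤ) (t : ℝ) : ℂ :=
  if j = 0 then ((Real.log t : ℝ) : ℂ) else
    Complex.exp (((j : ℝ) * Real.log t : ℝ) * Complex.I) * (((j : ℝ) : ℂ) * Complex.I)⁻¹

theorem ls_exp (j : ℤ) {t : ℝ} (ht : 0 < t) :
    HasDerivAt (fun t : ℝ => Complex.exp (((j : ℝ) * Real.log t : ℝ) * Complex.I))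
      (Complex.exp (((j : ℝ) * Real.log t : ℝ) * Complex.I) * ((((j : ℝ) * t⁻¹ : ℝ) : ℂ) * Complex.I)) t := by
  have h1 : HasDerivAt (fun t : ℝ => (j : ℝ) * Real.log t) ((j : ℝ) * t⁻¹) t :=
    (Real.hasDerivAt_log ht.ne').const_mul _
  have h2 : HasDerivAt (fun t : ℝ => (((j : ℝ) * Real.log t : ℝ) : ℂ)) (((j : ℝ) * t⁻¹ : ℝ) : ℂ) t :=
    h1.ofReal_comp
  exact (h2.mul_const Complex.I).cexp

theorem ls_hG (j : ℤ) {t : ℝ} (ht : 0 < t) : HasDerivAt (lsG j) (lsf j t) t := by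
  unfold lsG lsf
  by_cases hj : j = 0
  · subst hj
    simp only [if_true, Int.cast_zero, zero_mul, Complex.ofReal_zero, Complex.exp_zero, one_mul]
    exact (Real.hasDerivAt_log ht.ne').ofReal_comp
  · simp only [if_neg hj]
    have h := (ls_exp j ht).mul_const ((((j : ℝ) : ℂ) * Complex.I)⁻¹)
    refine h.congr_deriv ?_
    have hj' : ((j : ℝ) : ℂ) ≠ 0 := by exact_mod_cast hj
    have hI := Complex.I_ne_zero
    push_cast
    push_cast at hj'
    field_simp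

theorem ls_hf (j : ℤ) {t : ℝ} (ht : 0 < t) : HasDerivAt (lsf j)
    (Complex.exp (((j : ℝ) * Real.log t : ℝ) * Complex.I) * ((((j : ℝ) : ℂ) * Complex.I - 1) *
      (((t ^ 2)⁻¹ : ℝ) : ℂ))) t := by
  unfold lsf
  have h1 : HasDerivAt (fun t : ℝ => ((t⁻¹ : ℝ) : ℂ)) ((-(t ^ 2)⁻¹ : ℝ) : ℂ) t :=
    (hasDerivAt_inv ht.ne').ofReal_comp
  have h := (ls_exp j ht).mul h1
  refine h.congr_deriv ?_
  have ht' : (t : ℂ) ≠ 0 := by exact_mod_cast ht.ne'
  push_cast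
  field_simp
  ring

theorem ls_f_norm (j : ℤ) {t : ℝ} (ht : 0 < t) : ‖lsf j t‖ = t⁻¹ := by
  unfold lsf
  rw [norm_mul, Complex.norm_exp_ofReal_mul_I, one_mul, Complex.norm_real, Real.norm_eq_abs,
    abs_of_pos (inv_pos.2 ht)]

theorem ls_df_norm (j : ℤ) {a t : ℝ} (ha : 0 < a) (ht : a ≤ t) :
    ‖Complex.exp (((j : ℝ) * Real.log t : ℝ) * Complex.I) * ((((j : ℝ) : ℂ) * Complex.I - 1) *
      (((t ^ 2)⁻¹ : ℝ) : ℂ))‖ ≤ (1 + |(j : ℝ)|) / a ^ 2 := by
  have ht0 : 0 < t := lt_of_lt_of_le ha ht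
  rw [norm_mul, Complex.norm_exp_ofReal_mul_I, one_mul, norm_mul, Complex.norm_real, Real.norm_eq_abs,
    abs_of_pos (by positivity)]
  have h1 : ‖((j : ℝ) : ℂ) * Complex.I - 1‖ ≤ 1 + |(j : ℝ)| := by
    refine (norm_sub_le _ _).trans ?_
    rw [norm_mul, Complex.norm_I, Complex.norm_real, Real.norm_eq_abs, norm_one]
    linarith
  have h2 : (t ^ 2)⁻¹ ≤ (a ^ 2)⁻¹ := inv_anti₀ (by positivity) (pow_le_pow_left₀ ha.le ht 2)
  rw [div_eq_mul_inv]
  exact mul_le_mul h1 h2 (by positivity) (by positivity)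

theorem ls_f_lip (j : ℤ) {a s t : ℝ} (ha : 0 < a) (hs : a ≤ s) (ht : a ≤ t) :
    ‖lsf j t - lsf j s‖ ≤ (1 + |(j : ℝ)|) / a ^ 2 * |t - s| := by
  have h := (convex_Ici a).norm_image_sub_le_of_norm_hasDerivWithin_le (f := lsf j)
    (f' := fun t => Complex.exp (((j : ℝ) * Real.log t : ℝ) * Complex.I) *
      ((((j : ℝ) : ℂ) * Complex.I - 1) * (((t ^ 2)⁻¹ : ℝ) : ℂ))) (C := (1 + |(j : ℝ)|) / a ^ 2)
    (fun x hx => (ls_hf j (lt_of_lt_of_le ha hx)).hasDerivWithinAt) (fun x hx => ls_df_norm j ha hx)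
    (x := s) (y := t) hs ht
  simpa using h

theorem ls_G_lip (j : ℤ) {a s t : ℝ} (ha : 0 < a) (hs : a ≤ s) (ht : a ≤ t) :
    ‖lsG j t - lsG j s‖ ≤ a⁻¹ * |t - s| := by
  have h := (convex_Ici a).norm_image_sub_le_of_norm_hasDerivWithin_le (f := lsG j)
    (f' := lsf j) (C := a⁻¹)
    (fun x hx => (ls_hG j (lt_of_lt_of_le ha hx)).hasDerivWithinAt)
    (fun x hx => by
      rw [ls_f_norm j (lt_of_lt_of_le ha hx)]
      exact inv_anti₀ ha hx)
    (x := s) (y := t) hs ht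
  simpa using h

theorem ls_step (j : ℤ) {a : ℝ} (ha : 0 < a) :
    ‖lsG j (a + 1) - lsG j a - lsf j (a + 1)‖ ≤ (1 + |(j : ℝ)|) / a ^ 2 := by
  have h := (convex_Icc a (a + 1)).norm_image_sub_le_of_norm_hasDerivWithin_le
    (f := fun t => lsG j t - (t : ℂ) * lsf j (a + 1))
    (f' := fun t => lsf j t - lsf j (a + 1)) (C := (1 + |(j : ℝ)|) / a ^ 2)
    (fun x hx => by
      have h1 : HasDerivAt (fun t : ℝ => (t : ℂ) * lsf j (a + 1)) (1 * lsf j (a + 1)) x :=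
        (Complex.ofRealCLM.hasDerivAt (x := x)).mul_const _
      rw [one_mul] at h1
      exact ((ls_hG j (lt_of_lt_of_le ha hx.1)).sub h1).hasDerivWithinAt)
    (fun x hx => by
      refine (ls_f_lip j ha (by linarith) hx.1).trans ?_
      have h2 : |x - (a + 1)| ≤ 1 := by
        rw [abs_le]
        constructor <;> linarith [hx.1, hx.2]
      exact mul_le_of_le_one_right (by positivity) h2)
    (x := a) (y := a + 1) ⟨le_rfl, by linarith⟩ ⟨by linarith, le_rfl⟩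
  have h3 : ‖(a + 1 : ℝ) - a‖ = 1 := by
    rw [add_sub_cancel_left, norm_one]
  rw [h3, mul_one] at h
  refine le_trans (le_of_eq ?_) h
  congr 1
  push_cast
  ring

/-- the sum of the weight -/
theorem ls_sum (j : ℤ) {a : ℕ} (ha : 1 ≤ a) : ∀ b : ℕ, a ≤ b →
    ‖∑ n ∈ Ioc a b, lsf j n - (lsG j b - lsG j a)‖ ≤ (b - a : ℕ) * ((1 + |(j : ℝ)|) / (a : ℝ) ^ 2) := by
  intro b hb
  induction b, hb using Nat.le_induction with
  | base => simp
  | succ b hb ih =>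
    have ha0 : (0 : ℝ) < a := by exact_mod_cast ha
    have hab : (a : ℝ) ≤ b := by exact_mod_cast hb
    have h1 := ls_step j (a := (b : ℝ)) (by linarith)
    rw [Finset.sum_Ioc_succ_top (by omega)]
    have h2 : (∑ n ∈ Ioc a b, lsf j n + lsf j ((b + 1 : ℕ) : ℝ)) - (lsG j ((b + 1 : ℕ) : ℝ) - lsG j a) =
        (∑ n ∈ Ioc a b, lsf j n - (lsG j b - lsG j a)) -
          (lsG j ((b : ℝ) + 1) - lsG j b - lsf j ((b : ℝ) + 1)) := by
      push_cast
      ring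
    rw [h2]
    refine (norm_sub_le _ _).trans ?_
    have h3 : (1 + |(j : ℝ)|) / (b : ℝ) ^ 2 ≤ (1 + |(j : ℝ)|) / (a : ℝ) ^ 2 :=
      div_le_div_of_nonneg_left (by positivity) (by positivity) (pow_le_pow_left₀ ha0.le hab 2)
    have h4 : ((b + 1 - a : ℕ) : ℝ) = ((b - a : ℕ) : ℝ) + 1 := by
      have : b + 1 - a = (b - a) + 1 := by omega
      rw [this]
      push_cast
      ring
    rw [h4, add_mul, one_mul]
    linarith

/-- one full turn -/
theorem ls_turn (j : ℤ) {X : ℝ} (hX : 0 < X) :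
    lsG j X - lsG j (X * Real.exp (-(2 * Real.pi))) = if j = 0 then ((2 * Real.pi : ℝ) : ℂ) else 0 := by
  have hlog : Real.log (X * Real.exp (-(2 * Real.pi))) = Real.log X - 2 * Real.pi := by
    rw [Real.log_mul hX.ne' (Real.exp_pos _).ne', Real.log_exp]
    ring
  unfold lsG
  rw [hlog]
  by_cases hj : j = 0
  · simp only [if_pos hj]
    rw [← Complex.ofReal_sub]
    congr 1
    ring
  · simp only [if_neg hj]
    have h1 : Complex.exp (((j : ℝ) * (Real.log X - 2 * Real.pi) : ℝ) * Complex.I) =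
        Complex.exp (((j : ℝ) * Real.log X : ℝ) * Complex.I) := by
      have h2 : ((((j : ℝ) * (Real.log X - 2 * Real.pi) : ℝ) : ℂ) * Complex.I) =
          ((((j : ℝ) * Real.log X : ℝ) : ℂ) * Complex.I) + ((-j : ℤ) : ℂ) * (2 * Real.pi * Complex.I) := by
        push_cast
        ring
      rw [h2, Complex.exp_add, Complex.exp_int_mul_two_pi_mul_I, mul_one]
    rw [h1, sub_self]

theorem ls_e2pi : (1 : ℝ) / 1000 ≤ Real.exp (-(2 * Real.pi)) := by
  have h1 : Real.exp (-(2 * Real.pi)) = (Real.exp (-1)) ^ (2 * Real.pi) := by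
    rw [← Real.exp_mul]
    congr 1
    ring
  have h2 : (0.3678794411 : ℝ) < Real.exp (-1) := Real.exp_neg_one_gt_d9.trans_le' (by norm_num)
  have h3 : Real.exp (-(2 * Real.pi)) ≥ Real.exp (-(6.3)) := by
    apply Real.exp_le_exp.2
    have := Real.pi_lt_d2
    linarith
  have h4 : Real.exp (-(6.3 : ℝ)) = (Real.exp (-1)) ^ 6 * Real.exp (-0.3) := by
    rw [← Real.exp_nat_mul, ← Real.exp_add]
    congr 1
    norm_num
  have h5 : (0.7 : ℝ) ≤ Real.exp (-0.3) := by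
    have := Real.add_one_le_exp (-0.3 : ℝ)
    linarith
  have h6 : (0.36 : ℝ) ^ 6 ≤ (Real.exp (-1)) ^ 6 := pow_le_pow_left₀ (by norm_num) (by linarith) 6
  have h7 : (0.36 : ℝ) ^ 6 * 0.7 ≤ (Real.exp (-1)) ^ 6 * Real.exp (-0.3) :=
    mul_le_mul h6 h5 (by norm_num) (by positivity)
  rw [h4] at h3
  have h8 : (1 : ℝ) / 1000 ≤ (0.36 : ℝ) ^ 6 * 0.7 := by norm_num
  linarith

/-- the centred coefficients -/
noncomputable def lsa (q b m : ℕ) : ℂ :=
  ((lp m : ℝ) : ℂ) * e (m * (((-(b : ℤ) : ℤ) : ℝ) / q)) - ((ArithmeticFunction.moebius q : ℤ) : ℂ) / (q.totient : ℂ)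

theorem ls_lp (m : ℕ) : lp m = Pool.Agent.Lib.GT.lam m := rfl

theorem ls_A (k : ℕ) : ∃ C : ℝ, 0 < C ∧ ∀ X : ℕ, 2 ≤ X → ∀ Y : ℕ, Y ≤ 2 * X → ∀ q b : ℕ, 1 ≤ q → Nat.Coprime q b →
    ‖∑ m ∈ Icc 1 Y, lsa q b m‖ ≤ C * (q : ℝ) ^ 2 * X / (Real.log X) ^ k := by
  obtain ⟨C1, hC1, h1⟩ := SW.major_L k
  obtain ⟨C2, hC2, h2⟩ := SW.FourierSW_log_pow (k + 1) (1 / 2) (by norm_num)
  refine ⟨2 * C1 + 4 * C2, by positivity, fun X hX Y hY q b hq hb => ?_⟩
  have hX' : (2 : ℝ) ≤ X := by exact_mod_cast hX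
  have hL : 0 < Real.log X := Real.log_pos (by linarith)
  have hLk : 0 < (Real.log X) ^ k := pow_pos hL k
  have hLL : Real.log X ≤ Real.log ((2 * X : ℕ) : ℝ) := by
    refine Real.log_le_log (by linarith) ?_
    push_cast
    linarith
  have hcop : IsCoprime (-(b : ℤ)) (q : ℤ) := (Nat.isCoprime_iff_coprime.2 hb.symm).neg_left
  have hq1 : (1 : ℝ) ≤ q := by exact_mod_cast hq
  have hq2 : (1 : ℝ) ≤ (q : ℝ) ^ 2 := one_le_pow₀ hq1
  have e1 := h1 (2 * X) Y q (-(b : ℤ)) (by omega) hY hq hcop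
  have e2 : ‖∑ n ∈ Icc 1 Y, ((Λ n - Pool.Agent.Lib.GT.lam n : ℝ) : ℂ) * e (n * (((-(b : ℤ) : ℤ) : ℝ) / q))‖ ≤
      4 * C2 * X / (Real.log X) ^ k := by
    rcases Nat.eq_zero_or_pos Y with h5 | h5
    · rw [h5, Icc_eq_empty (by norm_num), sum_empty, norm_zero]
      positivity
    · refine (SW.FourierSW_lam_diff Y h5 _).trans ?_
      have hY1 : (1 : ℝ) ≤ Y := by exact_mod_cast h5
      have hYX : (Y : ℝ) ≤ ((2 * X : ℕ) : ℝ) := by exact_mod_cast hY
      have h6 : Real.log Y ≤ Real.log ((2 * X : ℕ) : ℝ) := Real.log_le_log (by linarith) hYX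
      have h7 : Real.sqrt Y ≤ Real.sqrt ((2 * X : ℕ) : ℝ) := Real.sqrt_le_sqrt hYX
      have h8 := h2 ((2 * X : ℕ) : ℝ) (by push_cast; linarith)
      rw [← Real.sqrt_eq_rpow] at h8
      have hL2 : 0 ≤ Real.log ((2 * X : ℕ) : ℝ) := hL.le.trans hLL
      rw [le_div_iff₀ hLk]
      calc 2 * Real.sqrt Y * Real.log Y * (Real.log X) ^ k ≤
            2 * Real.sqrt ((2 * X : ℕ) : ℝ) * Real.log ((2 * X : ℕ) : ℝ) * (Real.log ((2 * X : ℕ) : ℝ)) ^ k := by
            refine mul_le_mul ?_ (pow_le_pow_left₀ hL.le hLL k) hLk.le (by positivity)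
            exact mul_le_mul (by linarith) h6 (Real.log_nonneg hY1) (by positivity)
        _ = 2 * Real.sqrt ((2 * X : ℕ) : ℝ) * (Real.log ((2 * X : ℕ) : ℝ)) ^ (k + 1) := by ring
        _ ≤ 2 * Real.sqrt ((2 * X : ℕ) : ℝ) * (C2 * Real.sqrt ((2 * X : ℕ) : ℝ)) :=
            mul_le_mul_of_nonneg_left h8 (by positivity)
        _ = 2 * C2 * (Real.sqrt ((2 * X : ℕ) : ℝ) * Real.sqrt ((2 * X : ℕ) : ℝ)) := by ring
        _ = 4 * C2 * X := by
            rw [Real.mul_self_sqrt (by positivity)]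
            push_cast
            ring
  have e3 : ∑ m ∈ Icc 1 Y, lsa q b m =
      (∑ n ∈ Icc 1 Y, ((Λ n : ℝ) : ℂ) * e (n * (((-(b : ℤ) : ℤ) : ℝ) / q)) -
        ((ArithmeticFunction.moebius q : ℤ) : ℂ) / (q.totient : ℂ) * Y) -
      ∑ n ∈ Icc 1 Y, ((Λ n - Pool.Agent.Lib.GT.lam n : ℝ) : ℂ) * e (n * (((-(b : ℤ) : ℤ) : ℝ) / q)) := by
    have e4 : ((ArithmeticFunction.moebius q : ℤ) : ℂ) / (q.totient : ℂ) * Y =
        ∑ n ∈ Icc 1 Y, ((ArithmeticFunction.moebius q : ℤ) : ℂ) / (q.totient : ℂ) := by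
      rw [sum_const, nsmul_eq_mul, Nat.card_Icc, Nat.add_sub_cancel, mul_comm]
    rw [e4, ← sum_sub_distrib, ← sum_sub_distrib]
    refine sum_congr rfl fun n _ => ?_
    unfold lsa
    rw [ls_lp]
    push_cast
    ring
  rw [e3]
  refine (norm_sub_le _ _).trans ?_
  have e5 : C1 * (q : ℝ) ^ 2 * ((2 * X : ℕ) : ℝ) / (Real.log ((2 * X : ℕ) : ℝ)) ^ k ≤
      2 * C1 * (q : ℝ) ^ 2 * X / (Real.log X) ^ k := by
    have h9 : (Real.log X) ^ k ≤ (Real.log ((2 * X : ℕ) : ℝ)) ^ k := pow_le_pow_left₀ hL.le hLL k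
    have h10 : C1 * (q : ℝ) ^ 2 * ((2 * X : ℕ) : ℝ) = 2 * C1 * (q : ℝ) ^ 2 * X := by
      push_cast
      ring
    rw [h10]
    exact div_le_div_of_nonneg_left (by positivity) hLk h9
  have e6 : 4 * C2 * X / (Real.log X) ^ k ≤ 4 * C2 * (q : ℝ) ^ 2 * X / (Real.log X) ^ k := by
    refine div_le_div_of_nonneg_right ?_ hLk.le
    have : 0 ≤ 4 * C2 * (X : ℝ) := by positivity
    nlinarith
  calc _ ≤ 2 * C1 * (q : ℝ) ^ 2 * X / (Real.log X) ^ k + 4 * C2 * (q : ℝ) ^ 2 * X / (Real.log X) ^ k :=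
        add_le_add (e1.trans e5) (e2.trans e6)
    _ = _ := by ring

/-- one Abel summation -/
theorem ls_abel {X N Z : ℕ} (hXN : X < N) (hZ : 1 ≤ Z) (hZX : Z < X) (j : ℤ) (a : ℕ → ℂ) {E : ℝ}
    (hE : ∀ Y : ℕ, Y ≤ N → ‖∑ m ∈ Icc 1 Y, a m‖ ≤ E) :
    ‖∑ n ∈ Ioc Z X, lsf j n * a (N - n)‖ ≤ E * (2 / Z + X * ((1 + |(j : ℝ)|) / (Z : ℝ) ^ 2)) := by
  have hE0 : 0 ≤ E := (norm_nonneg _).trans (hE 0 (Nat.zero_le _))
  have hZ0 : (0 : ℝ) < Z := by exact_mod_cast hZ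
  set g : ℕ → ℂ := fun m => if N - X ≤ m then lsf j ((N - m : ℕ) : ℝ) else 0 with hg
  have h1 : ∑ n ∈ Ioc Z X, lsf j n * a (N - n) = ∑ m ∈ Icc 1 (N - Z - 1), a m * g m := by
    have h2 : ∑ m ∈ Icc 1 (N - Z - 1), a m * g m = ∑ m ∈ Icc (N - X) (N - Z - 1), a m * g m := by
      symm
      refine sum_subset ?_ ?_
      · intro m hm
        rw [mem_Icc] at hm ⊢
        omega
      · intro m hm hm'
        rw [mem_Icc] at hm hm'
        simp only [hg]
        rw [if_neg (by omega), mul_zero]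
    rw [h2]
    refine sum_bij' (fun n _ => N - n) (fun m _ => N - m) ?_ ?_ ?_ ?_ ?_
    · intro n hn
      rw [mem_Ioc] at hn
      rw [mem_Icc]
      omega
    · intro m hm
      rw [mem_Icc] at hm
      rw [mem_Ioc]
      omega
    · intro n hn
      rw [mem_Ioc] at hn
      show N - (N - n) = n
      omega
    · intro m hm
      rw [mem_Icc] at hm
      show N - (N - m) = m
      omega
    · intro n hn
      rw [mem_Ioc] at hn
      simp only [hg]
      rw [if_pos (by omega), mul_comm]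
      congr 3
      omega
  rw [h1, SW.FourierSW_abel_id]
  set Y := N - Z - 1 with hY
  have hgY : ‖g Y‖ ≤ 1 / Z := by
    simp only [hg]
    rw [if_pos (by omega)]
    have h3 : (Z : ℝ) ≤ ((N - Y : ℕ) : ℝ) := by exact_mod_cast (by omega : Z ≤ N - Y)
    rw [ls_f_norm j (by linarith), one_div]
    exact inv_anti₀ hZ0 h3
  have h4 : ∀ m ∈ range Y, ‖(∑ n ∈ Icc 1 m, a n) * (g (m + 1) - g m)‖ ≤
      E * ((if m + 1 = N - X then 1 / (Z : ℝ) else 0) +
        (if N - X ≤ m then (1 + |(j : ℝ)|) / (Z : ℝ) ^ 2 else 0)) := by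
    intro m hm
    rw [mem_range] at hm
    rw [norm_mul]
    refine mul_le_mul (hE m (by omega)) ?_ (norm_nonneg _) hE0
    simp only [hg]
    rcases lt_trichotomy (m + 1) (N - X) with h | h | h
    · rw [if_neg (by omega), if_neg (by omega), if_neg (by omega), if_neg (by omega)]
      simp
    · rw [if_pos (by omega), if_neg (by omega), if_pos h, if_neg (by omega), sub_zero, add_zero]
      have h3 : (Z : ℝ) ≤ ((N - (m + 1) : ℕ) : ℝ) := by exact_mod_cast (by omega : Z ≤ N - (m + 1))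
      rw [ls_f_norm j (by linarith), one_div]
      exact inv_anti₀ hZ0 h3
    · rw [if_pos (by omega), if_pos (by omega), if_neg (by omega), if_pos (by omega), zero_add]
      have h3 : (Z : ℝ) ≤ ((N - (m + 1) : ℕ) : ℝ) := by exact_mod_cast (by omega : Z ≤ N - (m + 1))
      have h5 : (Z : ℝ) ≤ ((N - m : ℕ) : ℝ) := by exact_mod_cast (by omega : Z ≤ N - m)
      refine (ls_f_lip j hZ0 h5 h3).trans ?_
      have h6 : ((N - m : ℕ) : ℝ) = ((N - (m + 1) : ℕ) : ℝ) + 1 := by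
        have : N - m = (N - (m + 1)) + 1 := by omega
        rw [this]
        push_cast
        ring
      have h7 : |((N - (m + 1) : ℕ) : ℝ) - ((N - m : ℕ) : ℝ)| = 1 := by
        rw [h6]
        rw [show ((N - (m + 1) : ℕ) : ℝ) - (((N - (m + 1) : ℕ) : ℝ) + 1) = -1 by ring]
        norm_num
      rw [h7, mul_one]
  have h5 : ∑ m ∈ range Y, E * ((if m + 1 = N - X then 1 / (Z : ℝ) else 0) +
        (if N - X ≤ m then (1 + |(j : ℝ)|) / (Z : ℝ) ^ 2 else 0)) ≤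
      E * (1 / Z + X * ((1 + |(j : ℝ)|) / (Z : ℝ) ^ 2)) := by
    rw [← mul_sum]
    refine mul_le_mul_of_nonneg_left ?_ hE0
    rw [sum_add_distrib]
    refine add_le_add ?_ ?_
    · rw [← sum_filter, sum_const, nsmul_eq_mul]
      have h8 : ((range Y).filter fun m => m + 1 = N - X).card ≤ 1 := by
        rw [card_le_one]
        intro u hu v hv
        rw [mem_filter] at hu hv
        omega
      have h9 : (((range Y).filter fun m => m + 1 = N - X).card : ℝ) ≤ 1 := by exact_mod_cast h8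
      have h10 : 0 ≤ 1 / (Z : ℝ) := by positivity
      nlinarith
    · rw [← sum_filter, sum_const, nsmul_eq_mul]
      refine mul_le_mul_of_nonneg_right ?_ (by positivity)
      have h8 : ((range Y).filter fun m => N - X ≤ m) ⊆ Ico (N - X) Y := by
        intro m hm
        rw [mem_filter, mem_range] at hm
        rw [mem_Ico]
        omega
      have h9 := card_le_card h8
      rw [Nat.card_Ico] at h9
      exact_mod_cast h9.trans (by omega)
  calc _ ≤ ‖(∑ n ∈ Icc 1 Y, a n) * g Y‖ + ‖∑ m ∈ range Y, (∑ n ∈ Icc 1 m, a n) * (g (m + 1) - g m)‖ :=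
        norm_sub_le _ _
    _ ≤ E * (1 / Z) + E * (1 / Z + X * ((1 + |(j : ℝ)|) / (Z : ℝ) ^ 2)) := by
        refine add_le_add ?_ ?_
        · rw [norm_mul]
          exact mul_le_mul (hE Y (by omega)) hgY (norm_nonneg _) hE0
        · exact ((norm_sum_le _ _).trans (sum_le_sum h4)).trans h5
    _ = _ := by ring

theorem ls_term (q b N n : ℕ) (hn : 1 ≤ n) (hnN : n ≤ N) (j : ℤ) :
    ((1 / (n : ℝ) : ℝ) : ℂ) * (starRingEnd ℂ) (cj j n) * e (n * ((b : ℝ) / q)) * ((lp (N - n) : ℝ) : ℂ) =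
      e (N * ((b : ℝ) / q)) * (lsf j n * lsa q b (N - n)) +
        e (N * ((b : ℝ) / q)) * (((ArithmeticFunction.moebius q : ℤ) : ℂ) / (q.totient : ℂ)) * lsf j n := by
  have h1 : ((1 / (n : ℝ) : ℝ) : ℂ) * (starRingEnd ℂ) (cj j n) = lsf j n := by
    unfold lsf cj
    rw [← Complex.exp_conj, mul_comm]
    congr 1
    · congr 1
      rw [map_mul, Complex.conj_I, Complex.conj_ofReal]
      push_cast
      ring
    · rw [one_div]
  have h2 : e (n * ((b : ℝ) / q)) = e (N * ((b : ℝ) / q)) * e (((N - n : ℕ) : ℝ) * (((-(b : ℤ) : ℤ) : ℝ) / q)) := by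
    rw [← e_add]
    congr 1
    rw [Nat.cast_sub hnN]
    push_cast
    ring
  rw [h1, h2]
  unfold lsa
  ring

theorem ls_tot (q : ℕ) (hq : 1 ≤ q) :
    ‖((ArithmeticFunction.moebius q : ℤ) : ℂ) / (q.totient : ℂ)‖ ≤ 1 := by
  have hmu : ‖((ArithmeticFunction.moebius q : ℤ) : ℂ)‖ ≤ 1 := by
    rw [Complex.norm_intCast]
    exact_mod_cast ArithmeticFunction.abs_moebius_le_one
  have htot : (1 : ℝ) ≤ q.totient := by exact_mod_cast Nat.totient_pos.2 (by omega)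
  rw [norm_div, Complex.norm_natCast, div_le_one (by linarith)]
  linarith

theorem lam_small (K c2 c5 : ℕ) : ∃ x0 : ℝ, ∀ X : ℕ, x0 ≤ X → ∀ N : ℕ, X < N → (N : ℝ) ≤ X + Real.sqrt X → ∀ q b : ℕ, 1 ≤ q →
    (q : ℝ) ≤ (Real.log X) ^ c2 → Nat.Coprime q b → ∀ j : ℤ, |(j : ℝ)| ≤ (Real.log X) ^ c5 →
      ‖LT X N ((b : ℝ) / q) j - (if j = 0 then (2 * Real.pi : ℝ) * (((ArithmeticFunction.moebius q : ℤ) : ℂ) / (q.totient : ℂ)) *
        e (N * ((b : ℝ) / q)) else 0)‖ ≤ 1 / (Real.log X) ^ K := by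
  obtain ⟨C, hC, hA⟩ := ls_A (K + c5 + 2 * c2 + 1)
  obtain ⟨C3, hC3, hB⟩ := SW.FourierSW_log_pow (c5 + K + 1) 1 one_pos
  refine ⟨Real.exp (20000000 * (C + C3) + 2000), fun X hX N hXN hN q b hq hqL hb j hj => ?_⟩
  have hXpos : (0 : ℝ) < X := (Real.exp_pos _).trans_le hX
  have hL : 20000000 * (C + C3) + 2000 ≤ Real.log X := by
    rw [← Real.log_exp (20000000 * (C + C3) + 2000)]
    exact Real.log_le_log (Real.exp_pos _) hX
  have hX1 : (2001 : ℝ) ≤ X := by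
    have h1 := Real.add_one_le_exp (20000000 * (C + C3) + 2000)
    have h2 : 0 ≤ 20000000 * (C + C3) := by positivity
    linarith
  have hXn : 2001 ≤ X := by exact_mod_cast hX1
  set L := Real.log X with hLd
  have hCC : 0 ≤ 20000000 * (C + C3) := by positivity
  have hL1 : 1 ≤ L := by linarith
  have hL0 : 0 < L := by linarith
  set Z := X0 X with hZd
  set ρ := Real.exp (-(2 * Real.pi)) with hρ
  have hρ1 : ρ < 1 := by
    rw [hρ, Real.exp_lt_one_iff]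
    have := Real.pi_pos
    linarith
  have hρ0 : 1 / 1000 ≤ ρ := ls_e2pi
  have hZle : (Z : ℝ) ≤ X * ρ := Nat.floor_le (by positivity)
  have hZlt : X * ρ < Z + 1 := Nat.lt_floor_add_one _
  have hZ2 : (X : ℝ) / 2000 ≤ Z := by
    have : (X : ℝ) * (1 / 1000) ≤ X * ρ := mul_le_mul_of_nonneg_left hρ0 hXpos.le
    linarith
  have hZ0 : (0 : ℝ) < Z := by linarith
  have hZ1 : 1 ≤ Z := by
    have : 0 < Z := by exact_mod_cast hZ0
    omega
  have hZX : Z < X := by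
    have : (Z : ℝ) < X := by nlinarith
    exact_mod_cast this
  have hN2 : N ≤ 2 * X := by
    have h1 : Real.sqrt X ≤ X := by
      rw [Real.sqrt_le_left hXpos.le]
      nlinarith
    have h2 : (N : ℝ) ≤ ((2 * X : ℕ) : ℝ) := by
      push_cast
      linarith
    exact_mod_cast h2
  set E : ℝ := C * (q : ℝ) ^ 2 * X / L ^ (K + c5 + 2 * c2 + 1) with hE
  have hE0 : 0 ≤ E := by positivity
  have habel := ls_abel hXN hZ1 hZX j (lsa q b) (E := E)
    (fun Y hY => hA X (by omega) Y (by omega) q b hq hb)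
  have hsum := ls_sum j hZ1 X hZX.le
  have hturn := ls_turn j hXpos
  rw [← hρ] at hturn
  have hlip := ls_G_lip j hZ0 (s := (Z : ℝ)) (t := (X : ℝ) * ρ) le_rfl hZle
  have hlip2 : ‖lsG j ((X : ℝ) * ρ) - lsG j Z‖ ≤ 1 / Z := by
    refine hlip.trans ?_
    rw [one_div]
    refine mul_le_of_le_one_right (by positivity) ?_
    rw [abs_le]
    constructor <;> linarith
  set T : ℂ := if j = 0 then ((2 * Real.pi : ℝ) : ℂ) else 0 with hT
  have hS : ‖∑ n ∈ Ioc Z X, lsf j n - T‖ ≤ X * ((1 + |(j : ℝ)|) / (Z : ℝ) ^ 2) + 1 / Z := by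
    have h1 : ∑ n ∈ Ioc Z X, lsf j n - T = (∑ n ∈ Ioc Z X, lsf j n - (lsG j X - lsG j Z)) +
        (lsG j ((X : ℝ) * ρ) - lsG j Z) := by
      rw [← hturn]
      ring
    rw [h1]
    refine (norm_add_le _ _).trans (add_le_add (hsum.trans ?_) hlip2)
    refine mul_le_mul_of_nonneg_right ?_ (by positivity)
    exact_mod_cast Nat.sub_le X Z
  have hLT : LT X N ((b : ℝ) / q) j - (if j = 0 then (2 * Real.pi : ℝ) *
      (((ArithmeticFunction.moebius q : ℤ) : ℂ) / (q.totient : ℂ)) * e (N * ((b : ℝ) / q)) else 0) =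
      e (N * ((b : ℝ) / q)) * (∑ n ∈ Ioc Z X, lsf j n * lsa q b (N - n)) +
      e (N * ((b : ℝ) / q)) * (((ArithmeticFunction.moebius q : ℤ) : ℂ) / (q.totient : ℂ)) *
        (∑ n ∈ Ioc Z X, lsf j n - T) := by
    have h1 : LT X N ((b : ℝ) / q) j = e (N * ((b : ℝ) / q)) * (∑ n ∈ Ioc Z X, lsf j n * lsa q b (N - n)) +
        e (N * ((b : ℝ) / q)) * (((ArithmeticFunction.moebius q : ℤ) : ℂ) / (q.totient : ℂ)) *
        ∑ n ∈ Ioc Z X, lsf j n := by
      unfold LT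
      rw [mul_sum, mul_sum, ← sum_add_distrib]
      refine sum_congr rfl fun n hn => ?_
      rw [mem_Ioc] at hn
      exact ls_term q b N n (by omega) (by omega) j
    rw [h1, hT]
    split_ifs <;> ring
  rw [hLT]
  have hmu := ls_tot q hq
  have hfin : ‖e (N * ((b : ℝ) / q)) * (∑ n ∈ Ioc Z X, lsf j n * lsa q b (N - n)) +
      e (N * ((b : ℝ) / q)) * (((ArithmeticFunction.moebius q : ℤ) : ℂ) / (q.totient : ℂ)) *
        (∑ n ∈ Ioc Z X, lsf j n - T)‖ ≤ E * (2 / Z + X * ((1 + |(j : ℝ)|) / (Z : ℝ) ^ 2)) +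
        (X * ((1 + |(j : ℝ)|) / (Z : ℝ) ^ 2) + 1 / Z) := by
    refine (norm_add_le _ _).trans (add_le_add ?_ ?_)
    · rw [norm_mul, norm_e, one_mul]
      exact habel
    · rw [norm_mul, norm_mul, norm_e, one_mul]
      calc _ ≤ 1 * ‖∑ n ∈ Ioc Z X, lsf j n - T‖ := mul_le_mul_of_nonneg_right hmu (norm_nonneg _)
        _ ≤ _ := by rw [one_mul]; exact hS
  refine hfin.trans ?_
  -- numbers
  have hj1 : 1 + |(j : ℝ)| ≤ 2 * L ^ c5 := by
    have : 1 ≤ L ^ c5 := one_le_pow₀ hL1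
    linarith
  have hj0 : 1 ≤ 1 + |(j : ℝ)| := by linarith [abs_nonneg (j : ℝ)]
  have n1 : 1 / (Z : ℝ) ≤ 2000 / X := by
    rw [div_le_div_iff₀ hZ0 hXpos]
    linarith
  have n2 : (X : ℝ) * ((1 + |(j : ℝ)|) / (Z : ℝ) ^ 2) ≤ 4000000 * (1 + |(j : ℝ)|) / X := by
    have h1 : (X : ℝ) ^ 2 ≤ 4000000 * (Z : ℝ) ^ 2 := by
      have h2 : (X : ℝ) ≤ 2000 * Z := by linarith
      have h3 := pow_le_pow_left₀ hXpos.le h2 2
      nlinarith
    rw [← mul_div_assoc, div_le_div_iff₀ (by positivity) hXpos]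
    have h4 : 0 ≤ 1 + |(j : ℝ)| := by linarith
    nlinarith
  have n3 : 2 / (Z : ℝ) + X * ((1 + |(j : ℝ)|) / (Z : ℝ) ^ 2) ≤ 5000000 * (1 + |(j : ℝ)|) / X := by
    have h1 : 2 / (Z : ℝ) = 2 * (1 / Z) := by ring
    have h2 : 2 * (2000 / (X : ℝ)) ≤ 1000000 * (1 + |(j : ℝ)|) / X := by
      rw [← mul_div_assoc]
      refine div_le_div_of_nonneg_right ?_ hXpos.le
      linarith
    have h3 : 5000000 * (1 + |(j : ℝ)|) / (X : ℝ) = 1000000 * (1 + |(j : ℝ)|) / X + 4000000 * (1 + |(j : ℝ)|) / X := by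
      ring
    rw [h1, h3]
    linarith
  have n4 : (X : ℝ) * ((1 + |(j : ℝ)|) / (Z : ℝ) ^ 2) + 1 / Z ≤ 5000000 * (1 + |(j : ℝ)|) / X := by
    have h0 : 0 ≤ 1 / (Z : ℝ) := by positivity
    have h1 : 2 / (Z : ℝ) = 2 * (1 / Z) := by ring
    linarith
  have n5 : 5000000 * (1 + |(j : ℝ)|) / X ≤ 10000000 * L ^ c5 / X := by
    refine div_le_div_of_nonneg_right ?_ hXpos.le
    linarith
  have n6 : E * (10000000 * L ^ c5 / X) ≤ 1 / 2 * (1 / L ^ K) := by
    have hq2 : (q : ℝ) ^ 2 ≤ L ^ (2 * c2) := by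
      have := pow_le_pow_left₀ (Nat.cast_nonneg q) hqL 2
      rw [← pow_mul, mul_comm c2 2] at this
      exact this
    have h1 : E * (10000000 * L ^ c5 / X) = 10000000 * C * ((q : ℝ) ^ 2 * L ^ c5) / L ^ (K + c5 + 2 * c2 + 1) := by
      rw [hE]
      field_simp
    rw [h1]
    have h2 : 10000000 * C * ((q : ℝ) ^ 2 * L ^ c5) ≤ 10000000 * C * (L ^ (2 * c2) * L ^ c5) :=
      mul_le_mul_of_nonneg_left (mul_le_mul_of_nonneg_right hq2 (by positivity)) (by positivity)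
    have h3 : 10000000 * C * (L ^ (2 * c2) * L ^ c5) ≤ 1 / 2 * (1 / L ^ K) * L ^ (K + c5 + 2 * c2 + 1) := by
      have h4 : 1 / 2 * (1 / L ^ K) * L ^ (K + c5 + 2 * c2 + 1) = (L ^ (2 * c2) * L ^ c5) * (L / 2) := by
        rw [pow_add, pow_add, pow_add, pow_one]
        field_simp
      rw [h4, mul_comm]
      refine mul_le_mul_of_nonneg_left ?_ (by positivity)
      nlinarith
    rw [div_le_iff₀ (by positivity)]
    exact h2.trans h3
  have n7 : 10000000 * L ^ c5 / X ≤ 1 / 2 * (1 / L ^ K) := by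
    have h1 := hB X (by linarith)
    rw [Real.rpow_one, ← hLd] at h1
    have h2 : 1 / 2 * (1 / L ^ K) = (1 / 2) / L ^ K := by ring
    rw [h2, div_le_div_iff₀ hXpos (by positivity)]
    have h3 : L ^ (c5 + K + 1) = L ^ c5 * L ^ K * L := by ring
    rw [h3] at h1
    have h4 : 20000000 * C3 ≤ L := by nlinarith
    have h5 : 0 ≤ L ^ c5 * L ^ K := by positivity
    have h6 : (L ^ c5 * L ^ K) * (20000000 * C3) ≤ C3 * X :=
      (mul_le_mul_of_nonneg_left h4 h5).trans h1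
    have h7 : (L ^ c5 * L ^ K) * 20000000 ≤ X := by
      have h8 : C3 * ((L ^ c5 * L ^ K) * 20000000) ≤ C3 * X := by nlinarith
      exact le_of_mul_le_mul_left h8 hC3
    nlinarith
  calc _ ≤ E * (10000000 * L ^ c5 / X) + 10000000 * L ^ c5 / X :=
        add_le_add (mul_le_mul_of_nonneg_left (n3.trans n5) hE0) (n4.trans n5)
    _ ≤ 1 / 2 * (1 / L ^ K) + 1 / 2 * (1 / L ^ K) := add_le_add n6 n7
    _ = _ := by ring

end Pool.Agent.Lib.G3
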