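import Pool.Agent.Lib.G3.G5Defs
import Pool.Agent.Lib.G3.LamS

/-!
# G5, row LA, file Lam5.lean (as LamS.lean, `N` up to `X (log X)^cB`)
-/

set_option autoImplicit false

open Finset

namespace Pool.Agent.Lib.G3

open Pool.Agent.Lib.MRT (cj kap)
open Pool.Agent.Lib.GT (e norm_e)


theorem lam5 (K c2 c5 cB : ℕ) : ∃ x0 : ℝ, ∀ X : ℕ, x0 ≤ X → ∀ N : ℕ, X < N → (N : ℝ) ≤ X * (Real.log X) ^ cB → ∀ q b : ℕ, 1 ≤ q →
    (q : ℝ) ≤ (Real.log X) ^ c2 → Nat.Coprime q b → ∀ j : ℤ, |(j : ℝ)| ≤ (Real.log X) ^ c5 →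
      ‖LT X N ((b : ℝ) / q) j - (if j = 0 then (2 * Real.pi : ℝ) * (((ArithmeticFunction.moebius q : ℤ) : ℂ) / (q.totient : ℂ)) *
        e (N * ((b : ℝ) / q)) else 0)‖ ≤ 1 / (Real.log X) ^ K := by
  obtain ⟨C, hC, hA⟩ := ls_A (K + c5 + 2 * c2 + 1 + cB)
  obtain ⟨C3, hC3, hB⟩ := SW.FourierSW_log_pow (c5 + K + 1) 1 one_pos
  refine ⟨Real.exp (20000000 * (C + C3) + 2000), fun X hX N hXN hN q b hq hqL hb j hj => ?_⟩
  have hXpos : (0 : ℝ) < X := (Real.exp_pos _).trans_le hX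
  have hL : 20000000 * (C + C3) + 2000 ≤ Real.log X := by
    rw [← Real.log_exp (20000000 * (C + C3) + 2000)]
    exact Real.log_le_log (Real.exp_pos _) hX
  have hX1 : (2001 : ℝ) ≤ X := by
    have h1 := Real.add_one_le_exp (20000000 * (C + C3) + 2000)
    have h2 : 0 ≤ 20000000 * (C + C3) := by positivity
    linarith
  have hXn : 2001 ≤ X := by exact_mod_cast hX1
  set L := Real.log X with hLd
  have hCC : 0 ≤ 20000000 * (C + C3) := by positivity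
  have hL1 : 1 ≤ L := by linarith
  have hL0 : 0 < L := by linarith
  set Z := X0 X with hZd
  set ρ := Real.exp (-(2 * Real.pi)) with hρ
  have hρ1 : ρ < 1 := by
    rw [hρ, Real.exp_lt_one_iff]
    have := Real.pi_pos
    linarith
  have hρ0 : 1 / 1000 ≤ ρ := ls_e2pi
  have hZle : (Z : ℝ) ≤ X * ρ := Nat.floor_le (by positivity)
  have hZlt : X * ρ < Z + 1 := Nat.lt_floor_add_one _
  have hZ2 : (X : ℝ) / 2000 ≤ Z := by
    have : (X : ℝ) * (1 / 1000) ≤ X * ρ := mul_le_mul_of_nonneg_left hρ0 hXpos.le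
    linarith
  have hZ0 : (0 : ℝ) < Z := by linarith
  have hZ1 : 1 ≤ Z := by
    have : 0 < Z := by exact_mod_cast hZ0
    omega
  have hZX : Z < X := by
    have : (Z : ℝ) < X := by nlinarith
    exact_mod_cast this
  set E : ℝ := C * (q : ℝ) ^ 2 * X / L ^ (K + c5 + 2 * c2 + 1) with hE
  have hE0 : 0 ≤ E := by positivity
  have hXN' : (X : ℝ) ≤ N := by exact_mod_cast hXN.le
  have hLN : L ≤ Real.log N := Real.log_le_log hXpos hXN'
  have hEN : C * (q : ℝ) ^ 2 * N / (Real.log N) ^ (K + c5 + 2 * c2 + 1 + cB) ≤ E := by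
    have h1 : C * (q : ℝ) ^ 2 * N / (Real.log N) ^ (K + c5 + 2 * c2 + 1 + cB) ≤
        C * (q : ℝ) ^ 2 * (X * L ^ cB) / L ^ (K + c5 + 2 * c2 + 1 + cB) :=
      div_le_div₀ (by positivity) (mul_le_mul_of_nonneg_left hN (by positivity)) (by positivity)
        (pow_le_pow_left₀ hL0.le hLN _)
    refine h1.trans (le_of_eq ?_)
    rw [hE, pow_add L (K + c5 + 2 * c2 + 1) cB]
    have h2 : L ^ cB ≠ 0 := by positivity
    have h3 : L ^ (K + c5 + 2 * c2 + 1) ≠ 0 := by positivity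
    field_simp
  have habel := ls_abel hXN hZ1 hZX j (lsa q b) (E := E)
    (fun Y hY => (hA N (by omega) Y (by omega) q b hq hb).trans hEN)
  have hsum := ls_sum j hZ1 X hZX.le
  have hturn := ls_turn j hXpos
  rw [← hρ] at hturn
  have hlip := ls_G_lip j hZ0 (s := (Z : ℝ)) (t := (X : ℝ) * ρ) le_rfl hZle
  have hlip2 : ‖lsG j ((X : ℝ) * ρ) - lsG j Z‖ ≤ 1 / Z := by
    refine hlip.trans ?_
    rw [one_div]
    refine mul_le_of_le_one_right (by positivity) ?_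
    rw [abs_le]
    constructor <;> linarith
  set T : ℂ := if j = 0 then ((2 * Real.pi : ℝ) : ℂ) else 0 with hT
  have hS : ‖∑ n ∈ Ioc Z X, lsf j n - T‖ ≤ X * ((1 + |(j : ℝ)|) / (Z : ℝ) ^ 2) + 1 / Z := by
    have h1 : ∑ n ∈ Ioc Z X, lsf j n - T = (∑ n ∈ Ioc Z X, lsf j n - (lsG j X - lsG j Z)) +
        (lsG j ((X : ℝ) * ρ) - lsG j Z) := by
      rw [← hturn]
      ring
    rw [h1]
    refine (norm_add_le _ _).trans (add_le_add (hsum.trans ?_) hlip2)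
    refine mul_le_mul_of_nonneg_right ?_ (by positivity)
    exact_mod_cast Nat.sub_le X Z
  have hLT : LT X N ((b : ℝ) / q) j - (if j = 0 then (2 * Real.pi : ℝ) *
      (((ArithmeticFunction.moebius q : ℤ) : ℂ) / (q.totient : ℂ)) * e (N * ((b : ℝ) / q)) else 0) =
      e (N * ((b : ℝ) / q)) * (∑ n ∈ Ioc Z X, lsf j n * lsa q b (N - n)) +
      e (N * ((b : ℝ) / q)) * (((ArithmeticFunction.moebius q : ℤ) : ℂ) / (q.totient : ℂ)) *
        (∑ n ∈ Ioc Z X, lsf j n - T) := by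
    have h1 : LT X N ((b : ℝ) / q) j = e (N * ((b : ℝ) / q)) * (∑ n ∈ Ioc Z X, lsf j n * lsa q b (N - n)) +
        e (N * ((b : ℝ) / q)) * (((ArithmeticFunction.moebius q : ℤ) : ℂ) / (q.totient : ℂ)) *
        ∑ n ∈ Ioc Z X, lsf j n := by
      unfold LT
      rw [mul_sum, mul_sum, ← sum_add_distrib]
      refine sum_congr rfl fun n hn => ?_
      rw [mem_Ioc] at hn
      exact ls_term q b N n (by omega) (by omega) j
    rw [h1, hT]
    split_ifs <;> ring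
  rw [hLT]
  have hmu := ls_tot q hq
  have hfin : ‖e (N * ((b : ℝ) / q)) * (∑ n ∈ Ioc Z X, lsf j n * lsa q b (N - n)) +
      e (N * ((b : ℝ) / q)) * (((ArithmeticFunction.moebius q : ℤ) : ℂ) / (q.totient : ℂ)) *
        (∑ n ∈ Ioc Z X, lsf j n - T)‖ ≤ E * (2 / Z + X * ((1 + |(j : ℝ)|) / (Z : ℝ) ^ 2)) +
        (X * ((1 + |(j : ℝ)|) / (Z : ℝ) ^ 2) + 1 / Z) := by
    refine (norm_add_le _ _).trans (add_le_add ?_ ?_)
    · rw [norm_mul, norm_e, one_mul]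
      exact habel
    · rw [norm_mul, norm_mul, norm_e, one_mul]
      calc _ ≤ 1 * ‖∑ n ∈ Ioc Z X, lsf j n - T‖ := mul_le_mul_of_nonneg_right hmu (norm_nonneg _)
        _ ≤ _ := by rw [one_mul]; exact hS
  refine hfin.trans ?_
  -- numbers
  have hj1 : 1 + |(j : ℝ)| ≤ 2 * L ^ c5 := by
    have : 1 ≤ L ^ c5 := one_le_pow₀ hL1
    linarith
  have hj0 : 1 ≤ 1 + |(j : ℝ)| := by linarith [abs_nonneg (j : ℝ)]
  have n1 : 1 / (Z : ℝ) ≤ 2000 / X := by
    rw [div_le_div_iff₀ hZ0 hXpos]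
    linarith
  have n2 : (X : ℝ) * ((1 + |(j : ℝ)|) / (Z : ℝ) ^ 2) ≤ 4000000 * (1 + |(j : ℝ)|) / X := by
    have h1 : (X : ℝ) ^ 2 ≤ 4000000 * (Z : ℝ) ^ 2 := by
      have h2 : (X : ℝ) ≤ 2000 * Z := by linarith
      have h3 := pow_le_pow_left₀ hXpos.le h2 2
      nlinarith
    rw [← mul_div_assoc, div_le_div_iff₀ (by positivity) hXpos]
    have h4 : 0 ≤ 1 + |(j : ℝ)| := by linarith
    nlinarith
  have n3 : 2 / (Z : ℝ) + X * ((1 + |(j : ℝ)|) / (Z : ℝ) ^ 2) ≤ 5000000 * (1 + |(j : ℝ)|) / X := by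
    have h1 : 2 / (Z : ℝ) = 2 * (1 / Z) := by ring
    have h2 : 2 * (2000 / (X : ℝ)) ≤ 1000000 * (1 + |(j : ℝ)|) / X := by
      rw [← mul_div_assoc]
      refine div_le_div_of_nonneg_right ?_ hXpos.le
      linarith
    have h3 : 5000000 * (1 + |(j : ℝ)|) / (X : ℝ) = 1000000 * (1 + |(j : ℝ)|) / X + 4000000 * (1 + |(j : ℝ)|) / X := by
      ring
    rw [h1, h3]
    linarith
  have n4 : (X : ℝ) * ((1 + |(j : ℝ)|) / (Z : ℝ) ^ 2) + 1 / Z ≤ 5000000 * (1 + |(j : ℝ)|) / X := by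
    have h0 : 0 ≤ 1 / (Z : ℝ) := by positivity
    have h1 : 2 / (Z : ℝ) = 2 * (1 / Z) := by ring
    linarith
  have n5 : 5000000 * (1 + |(j : ℝ)|) / X ≤ 10000000 * L ^ c5 / X := by
    refine div_le_div_of_nonneg_right ?_ hXpos.le
    linarith
  have n6 : E * (10000000 * L ^ c5 / X) ≤ 1 / 2 * (1 / L ^ K) := by
    have hq2 : (q : ℝ) ^ 2 ≤ L ^ (2 * c2) := by
      have := pow_le_pow_left₀ (Nat.cast_nonneg q) hqL 2
      rw [← pow_mul, mul_comm c2 2] at this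
      exact this
    have h1 : E * (10000000 * L ^ c5 / X) = 10000000 * C * ((q : ℝ) ^ 2 * L ^ c5) / L ^ (K + c5 + 2 * c2 + 1) := by
      rw [hE]
      field_simp
    rw [h1]
    have h2 : 10000000 * C * ((q : ℝ) ^ 2 * L ^ c5) ≤ 10000000 * C * (L ^ (2 * c2) * L ^ c5) :=
      mul_le_mul_of_nonneg_left (mul_le_mul_of_nonneg_right hq2 (by positivity)) (by positivity)
    have h3 : 10000000 * C * (L ^ (2 * c2) * L ^ c5) ≤ 1 / 2 * (1 / L ^ K) * L ^ (K + c5 + 2 * c2 + 1) := by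
      have h4 : 1 / 2 * (1 / L ^ K) * L ^ (K + c5 + 2 * c2 + 1) = (L ^ (2 * c2) * L ^ c5) * (L / 2) := by
        rw [pow_add, pow_add, pow_add, pow_one]
        field_simp
      rw [h4, mul_comm]
      refine mul_le_mul_of_nonneg_left ?_ (by positivity)
      nlinarith
    rw [div_le_iff₀ (by positivity)]
    exact h2.trans h3
  have n7 : 10000000 * L ^ c5 / X ≤ 1 / 2 * (1 / L ^ K) := by
    have h1 := hB X (by linarith)
    rw [Real.rpow_one, ← hLd] at h1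
    have h2 : 1 / 2 * (1 / L ^ K) = (1 / 2) / L ^ K := by ring
    rw [h2, div_le_div_iff₀ hXpos (by positivity)]
    have h3 : L ^ (c5 + K + 1) = L ^ c5 * L ^ K * L := by ring
    rw [h3] at h1
    have h4 : 20000000 * C3 ≤ L := by nlinarith
    have h5 : 0 ≤ L ^ c5 * L ^ K := by positivity
    have h6 : (L ^ c5 * L ^ K) * (20000000 * C3) ≤ C3 * X :=
      (mul_le_mul_of_nonneg_left h4 h5).trans h1
    have h7 : (L ^ c5 * L ^ K) * 20000000 ≤ X := by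
      have h8 : C3 * ((L ^ c5 * L ^ K) * 20000000) ≤ C3 * X := by nlinarith
      exact le_of_mul_le_mul_left h8 hC3
    nlinarith
  calc _ ≤ E * (10000000 * L ^ c5 / X) + 10000000 * L ^ c5 / X :=
        add_le_add (mul_le_mul_of_nonneg_left (n3.trans n5) hE0) (n4.trans n5)
    _ ≤ 1 / 2 * (1 / L ^ K) + 1 / 2 * (1 / L ^ K) := add_le_add n6 n7
    _ = _ := by ring

end Pool.Agent.Lib.G3
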