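import Pool.Agent.Lib.G3.Tw

/-!
# G3 / LamL: the twisted prime sum is small for large `|j|`

PROOF. `n = N - m`, `n^(ij) e(nγ) = e(Nγ) exp(i (j log(N - m) - 2πγ m))`, so the sum is a sum of `Λ(m)` against the phase of the
twist theorem with the weight `1/(N - m)`, which increases with `m` up to `e^(2π)/X`: partial summation. Prime powers: `ψ - θ`.
-/

set_option autoImplicit false

open Finset

namespace Pool.Agent.Lib.G3

open Pool.Agent.Lib.MRT (cj kap norm_cj)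
open Pool.Agent.Lib.GT (e)
open scoped ArithmeticFunction.vonMangoldt

/-- the phase -/
noncomputable def ll_ph (N : ℕ) (t β : ℝ) (m : ℕ) : ℂ :=
  Complex.exp (Complex.I * ((t * Real.log ((N : ℝ) - m) + 2 * Real.pi * β * m : ℝ) : ℂ))

theorem ll_ph_norm (N : ℕ) (t β : ℝ) (m : ℕ) : ‖ll_ph N t β m‖ = 1 := by
  unfold ll_ph
  rw [mul_comm]
  exact Complex.norm_exp_ofReal_mul_I _

/-- Abel summation, identity -/
theorem ll_abel (w : ℕ → ℝ) (g : ℕ → ℂ) (a b : ℕ) (hab : a ≤ b) :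
    ∑ m ∈ Icc a b, (w m : ℂ) * g m = (w b : ℂ) * ∑ m ∈ Icc a b, g m -
      ∑ k ∈ Ico a b, ((w (k + 1) - w k : ℝ) : ℂ) * ∑ m ∈ Icc a k, g m := by
  induction b, hab using Nat.le_induction with
  | base => simp
  | succ b hab ih =>
    rw [sum_Icc_succ_top (by omega), ih, sum_Ico_succ_top hab, sum_Icc_succ_top (by omega)]
    push_cast
    ring

/-- Abel summation, bound for an increasing weight -/
theorem ll_abel_le (w : ℕ → ℝ) (g : ℕ → ℂ) (a b : ℕ) (E : ℝ) (hw0 : 0 ≤ w a)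
    (hw : ∀ k, a ≤ k → k < b → w k ≤ w (k + 1)) (hG : ∀ k, a ≤ k → k ≤ b → ‖∑ m ∈ Icc a k, g m‖ ≤ E) (hab : a ≤ b) :
    ‖∑ m ∈ Icc a b, (w m : ℂ) * g m‖ ≤ 2 * w b * E := by
  have hE : 0 ≤ E := (norm_nonneg _).trans (hG a le_rfl hab)
  have htel : ∑ k ∈ Ico a b, (w (k + 1) - w k) = w b - w a := sum_Ico_sub w hab
  have hwb : 0 ≤ w b := by
    have h : 0 ≤ ∑ k ∈ Ico a b, (w (k + 1) - w k) := sum_nonneg fun k hk => by
      rw [mem_Ico] at hk
      linarith [hw k hk.1 hk.2]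
    linarith
  rw [ll_abel w g a b hab]
  refine (norm_sub_le _ _).trans ?_
  have h1 : ‖(w b : ℂ) * ∑ m ∈ Icc a b, g m‖ ≤ w b * E := by
    rw [norm_mul, Complex.norm_real, Real.norm_of_nonneg hwb]
    exact mul_le_mul_of_nonneg_left (hG b hab le_rfl) hwb
  have h2 : ‖∑ k ∈ Ico a b, ((w (k + 1) - w k : ℝ) : ℂ) * ∑ m ∈ Icc a k, g m‖ ≤ (w b - w a) * E := by
    rw [← htel, sum_mul]
    refine (norm_sum_le _ _).trans (sum_le_sum fun k hk => ?_)
    rw [mem_Ico] at hk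
    have h3 : 0 ≤ w (k + 1) - w k := by linarith [hw k hk.1 hk.2]
    rw [norm_mul, Complex.norm_real, Real.norm_of_nonneg h3]
    exact mul_le_mul_of_nonneg_left (hG k hk.1 hk.2.le) h3
  nlinarith [mul_nonneg hw0 hE]

theorem ll_lp_le (n : ℕ) : 0 ≤ Λ n - lp n := by
  unfold lp
  split_ifs with h
  · rw [ArithmeticFunction.vonMangoldt_apply_prime h]
    simp
  · simp

/-- the prime powers -/
theorem ll_pp (M : ℕ) (hM : 1 ≤ M) : ∑ m ∈ Icc 1 M, (Λ m - lp m) ≤ 2 * Real.sqrt M * Real.log M := by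
  have h1 := Chebyshev.psi_sub_theta_le (x := (M : ℝ)) (by exact_mod_cast hM)
  refine le_trans (le_of_eq ?_) h1
  rw [Chebyshev.psi_sub_theta_eq_sum_not_prime, Nat.floor_natCast, sum_filter]
  have h2 : Icc 1 M = Ioc 0 M := by
    ext n
    simp only [mem_Icc, mem_Ioc]
    omega
  rw [h2]
  refine sum_congr rfl fun n _ => ?_
  unfold lp
  by_cases h : n.Prime
  · rw [ArithmeticFunction.vonMangoldt_apply_prime h]
    simp [h]
  · simp [h]

theorem ll_exp : Real.exp (2 * Real.pi) ≤ 536 := by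
  have h1 := Real.pi_lt_d6
  have h2 : Real.exp (2 * Real.pi) ≤ Real.exp (6.283186) := Real.exp_le_exp.mpr (by linarith)
  have h3 : Real.exp (6.283186 : ℝ) = Real.exp 1 ^ 6 * Real.exp (0.283186) := by
    rw [← Real.exp_nat_mul, ← Real.exp_add]
    norm_num
  have h4 := Real.exp_one_lt_d9
  have h5 : Real.exp (0.283186 : ℝ) ≤ 1.3274 := by
    have h6 := Real.exp_bound' (x := (0.283186 : ℝ)) (by norm_num) (by norm_num) (n := 6) (by norm_num)
    refine h6.trans ?_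
    norm_num [Finset.sum_range_succ, Nat.factorial]
  have h7 : Real.exp 1 ^ 6 ≤ 2.7182818286 ^ 6 := pow_le_pow_left₀ (Real.exp_pos _).le h4.le _
  calc Real.exp (2 * Real.pi) ≤ Real.exp 1 ^ 6 * Real.exp (0.283186) := by rw [← h3]; exact h2
    _ ≤ 2.7182818286 ^ 6 * 1.3274 := by gcongr
    _ ≤ 536 := by norm_num

theorem ll_X0_lt (X : ℕ) : (X : ℝ) / 536 ≤ X0 X + 1 := by
  have h1 : (X : ℝ) * Real.exp (-(2 * Real.pi)) < (X0 X : ℝ) + 1 := Nat.lt_floor_add_one _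
  have h2 : (1 : ℝ) / 536 ≤ Real.exp (-(2 * Real.pi)) := by
    rw [Real.exp_neg, one_div]
    exact inv_anti₀ (Real.exp_pos _) ll_exp
  have h3 : (X : ℝ) * (1 / 536) ≤ X * Real.exp (-(2 * Real.pi)) :=
    mul_le_mul_of_nonneg_left h2 (Nat.cast_nonneg _)
  have h4 : (X : ℝ) / 536 = X * (1 / 536) := by ring
  linarith

theorem ll_X0_lt' {X : ℕ} (hX : 1 ≤ X) : X0 X < X := by
  unfold X0
  rw [Nat.floor_lt (by positivity)]
  have h1 : (0 : ℝ) < X := by exact_mod_cast hX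
  have h2 : Real.exp (-(2 * Real.pi)) < 1 := by
    rw [Real.exp_lt_one_iff]
    have := Real.pi_pos
    linarith
  nlinarith

/-- the reindexed sum -/
theorem ll_LT (X N : ℕ) (hXN : X < N) (γ : ℝ) (j : ℤ) :
    LT X N γ j = e (N * γ) * ∑ m ∈ Icc (N - X) (N - X0 X - 1),
      (((1 / ((N : ℝ) - m) : ℝ)) : ℂ) * (((lp m : ℝ) : ℂ) * ll_ph N j (-γ) m) := by
  unfold LT
  rw [mul_sum]
  refine sum_nbij' (fun n => N - n) (fun m => N - m) ?_ ?_ ?_ ?_ ?_
  · intro n hn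
    rw [mem_Ioc] at hn
    rw [mem_Icc]
    omega
  · intro m hm
    rw [mem_Icc] at hm
    rw [mem_Ioc]
    omega
  · intro n hn
    rw [mem_Ioc] at hn
    omega
  · intro m hm
    rw [mem_Icc] at hm
    omega
  · intro n hn
    rw [mem_Ioc] at hn
    have hn' : n ≤ N := by omega
    have h1 : ((N - n : ℕ) : ℝ) = (N : ℝ) - n := by rw [Nat.cast_sub hn']
    have h2 : (N : ℝ) - ((N - n : ℕ) : ℝ) = n := by rw [h1]; ring
    rw [h2]
    unfold ll_ph
    rw [h2, h1]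
    have h3 : (starRingEnd ℂ) (cj j n) * e (n * γ) = e (N * γ) *
        Complex.exp (Complex.I * (((j : ℝ) * Real.log n + 2 * Real.pi * (-γ) * ((N : ℝ) - n) : ℝ) : ℂ)) := by
      unfold MRT.cj GT.e
      rw [← Complex.exp_conj, ← Complex.exp_add, ← Complex.exp_add]
      congr 1
      simp only [map_mul, Complex.conj_I, Complex.conj_ofReal]
      push_cast
      ring
    calc ((1 / (n : ℝ) : ℝ) : ℂ) * (starRingEnd ℂ) (cj j n) * e (n * γ) * ((lp (N - n) : ℝ) : ℂ) =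
        ((1 / (n : ℝ) : ℝ) : ℂ) * ((lp (N - n) : ℝ) : ℂ) * ((starRingEnd ℂ) (cj j n) * e (n * γ)) := by ring
      _ = _ := by
        rw [h3]
        ring

theorem lam_large (K : ℕ) : ∃ c : ℕ, ∃ x0 : ℝ, ∀ X : ℕ, x0 ≤ X → ∀ N : ℕ, X < N → N ≤ 2 * X → ∀ j : ℤ,
    (Real.log X) ^ c ≤ |(j : ℝ)| → |(j : ℝ)| ≤ X / (Real.log X) ^ c → ∀ γ : ℝ,
    ‖LT X N γ j‖ ≤ 1 / (Real.log X) ^ K := by
  obtain ⟨B, X₀, hB⟩ := twist (K + 1)
  have hg := DN.dens_growth (8 * 2 * 536) (K + 1)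
  have hl : ∀ᶠ x : ℝ in Filter.atTop, (10000 : ℝ) ≤ Real.log x :=
    Real.tendsto_log_atTop.eventually (Filter.eventually_ge_atTop _)
  obtain ⟨x1, hx1⟩ := Filter.eventually_atTop.1 (hg.and hl)
  refine ⟨B, max x1 (max X₀ 4), fun X hX N hXN hN2 j hj1 hj2 γ => ?_⟩
  have hXx1 : x1 ≤ (X : ℝ) := (le_max_left _ _).trans hX
  have hXX0 : X₀ ≤ X := by
    have : (X₀ : ℝ) ≤ X := (le_max_left _ _).trans ((le_max_right _ _).trans hX)
    exact_mod_cast this
  have hX4 : (4 : ℝ) ≤ X := (le_max_right _ _).trans ((le_max_right _ _).trans hX)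
  have hX1 : 1 ≤ X := by
    have : (1 : ℝ) ≤ X := by linarith
    exact_mod_cast this
  obtain ⟨hg1, hl1⟩ := hx1 X hXx1
  have hL0 : (0 : ℝ) < Real.log X := by linarith
  have hXpos : (0 : ℝ) < X := by linarith
  have hX0 := ll_X0_lt X
  have hX0' := ll_X0_lt' hX1
  -- the partial sums
  have hY : ∀ Y : ℕ, Y ≤ N - X0 X - 1 → ‖∑ m ∈ Icc 1 Y, ((Λ m : ℝ) : ℂ) * ll_ph N j (-γ) m‖ ≤
      X / (Real.log X) ^ (K + 1) := by
    intro Y hY
    refine hB X hXX0 N hXN.le hN2 j (2 * Real.pi * (-γ)) hj1 hj2 Y ?_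
    have h1 : X / 600 ≤ X0 X + 1 := by
      have h2 : ((X / 600 : ℕ) : ℝ) ≤ (X : ℝ) / 600 := Nat.cast_div_le
      have h3 : ((X / 600 : ℕ) : ℝ) ≤ ((X0 X + 1 : ℕ) : ℝ) := by
        push_cast
        have h4 : (X : ℝ) / 600 ≤ X / 536 := by
          apply div_le_div_of_nonneg_left hXpos.le (by norm_num) (by norm_num)
        linarith
      exact_mod_cast h3
    omega
  set E : ℝ := X / (Real.log X) ^ (K + 1) with hE
  have hE0 : 0 ≤ E := by positivity
  set a : ℕ := N - X with ha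
  set b : ℕ := N - X0 X - 1 with hb
  have hab : a ≤ b := by omega
  have ha1 : 1 ≤ a := by omega
  set w : ℕ → ℝ := fun m => 1 / ((N : ℝ) - m) with hw
  have hbN : (X : ℝ) / 536 ≤ (N : ℝ) - b := by
    have h1 : (b : ℝ) = N - X0 X - 1 := by
      rw [hb, Nat.cast_sub (by omega), Nat.cast_sub (by omega)]
      simp
    rw [h1]
    linarith
  have hmb : ∀ m : ℕ, m ≤ b → (X : ℝ) / 536 ≤ (N : ℝ) - m := by
    intro m hm
    have : (m : ℝ) ≤ b := by exact_mod_cast hm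
    linarith
  have hX536 : (0 : ℝ) < (X : ℝ) / 536 := by positivity
  have hwb : ∀ m : ℕ, m ≤ b → 0 ≤ w m ∧ w m ≤ 536 / X := by
    intro m hm
    have h1 := hmb m hm
    have h2 : 0 < (N : ℝ) - m := by linarith
    refine ⟨by simp only [hw]; positivity, ?_⟩
    simp only [hw]
    rw [div_le_div_iff₀ h2 hXpos]
    have h3 : (X : ℝ) = 536 * (X / 536) := by ring
    nlinarith
  -- main part
  have hmain : ‖∑ m ∈ Icc a b, (w m : ℂ) * (((Λ m : ℝ) : ℂ) * ll_ph N j (-γ) m)‖ ≤ 2 * (536 / X) * (2 * E) := by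
    have h1 := ll_abel_le w (fun m => ((Λ m : ℝ) : ℂ) * ll_ph N j (-γ) m) a b (2 * E) (hwb a hab).1 ?_ ?_ hab
    · refine h1.trans ?_
      have := (hwb b le_rfl).2
      gcongr
    · intro k hk hkb
      have h1 := hmb (k + 1) hkb
      have h2 : 0 < (N : ℝ) - ((k + 1 : ℕ) : ℝ) := by linarith
      simp only [hw]
      push_cast at h2 ⊢
      apply one_div_le_one_div_of_le h2
      linarith
    · intro k hk hkb
      have h1 : ∑ m ∈ Icc a k, ((Λ m : ℝ) : ℂ) * ll_ph N j (-γ) m =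
          ∑ m ∈ Icc 1 k, ((Λ m : ℝ) : ℂ) * ll_ph N j (-γ) m -
          ∑ m ∈ Icc 1 (a - 1), ((Λ m : ℝ) : ℂ) * ll_ph N j (-γ) m := by
        rw [eq_sub_iff_add_eq, add_comm]
        have h2 : ∀ c : ℕ, Icc 1 c = Ioc 0 c := fun c => by
          ext n
          simp only [mem_Icc, mem_Ioc]
          omega
        have h3 : Icc a k = Ioc (a - 1) k := by
          ext n
          simp only [mem_Icc, mem_Ioc]
          omega
        rw [h2, h2, h3]
        exact sum_Ioc_consecutive _ (Nat.zero_le _) (by omega)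
      rw [h1]
      refine (norm_sub_le _ _).trans ?_
      have h4 := hY k (by omega)
      have h5 := hY (a - 1) (by omega)
      linarith
  -- prime powers
  have hpp : ‖∑ m ∈ Icc a b, (w m : ℂ) * (((Λ m - lp m : ℝ) : ℂ) * ll_ph N j (-γ) m)‖ ≤
      536 / X * (2 * Real.sqrt (2 * X) * Real.log (2 * X)) := by
    calc ‖∑ m ∈ Icc a b, (w m : ℂ) * (((Λ m - lp m : ℝ) : ℂ) * ll_ph N j (-γ) m)‖
        ≤ ∑ m ∈ Icc a b, 536 / X * (Λ m - lp m) := by
          refine (norm_sum_le _ _).trans (sum_le_sum fun m hm => ?_)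
          rw [mem_Icc] at hm
          obtain ⟨h1, h2⟩ := hwb m hm.2
          rw [norm_mul, norm_mul, ll_ph_norm, mul_one, Complex.norm_real, Complex.norm_real, Real.norm_of_nonneg h1,
            Real.norm_of_nonneg (ll_lp_le m)]
          exact mul_le_mul_of_nonneg_right h2 (ll_lp_le m)
      _ = 536 / X * ∑ m ∈ Icc a b, (Λ m - lp m) := by rw [mul_sum]
      _ ≤ 536 / X * ∑ m ∈ Icc 1 (2 * X), (Λ m - lp m) := by
          refine mul_le_mul_of_nonneg_left ?_ (by positivity)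
          refine sum_le_sum_of_subset_of_nonneg ?_ fun m _ _ => ll_lp_le m
          apply Icc_subset_Icc ha1
          omega
      _ ≤ 536 / X * (2 * Real.sqrt (2 * X) * Real.log (2 * X)) := by
          refine mul_le_mul_of_nonneg_left ?_ (by positivity)
          have := ll_pp (2 * X) (by omega)
          push_cast at this
          exact this
  rw [ll_LT X N hXN, norm_mul, GT.norm_e, one_mul]
  have hsplit : ∑ m ∈ Icc a b, (((1 / ((N : ℝ) - m) : ℝ)) : ℂ) * (((lp m : ℝ) : ℂ) * ll_ph N j (-γ) m) =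
      ∑ m ∈ Icc a b, (w m : ℂ) * (((Λ m : ℝ) : ℂ) * ll_ph N j (-γ) m) -
      ∑ m ∈ Icc a b, (w m : ℂ) * (((Λ m - lp m : ℝ) : ℂ) * ll_ph N j (-γ) m) := by
    rw [← sum_sub_distrib]
    refine sum_congr rfl fun m _ => ?_
    simp only [hw]
    push_cast
    ring
  rw [hsplit]
  refine (norm_sub_le _ _).trans ((add_le_add hmain hpp).trans ?_)
  -- numerics
  have hLK : (0 : ℝ) < (Real.log X) ^ K := by positivity
  have e1 : 2 * (536 / (X : ℝ)) * (2 * E) = 2144 / (Real.log X) * (1 / (Real.log X) ^ K) := by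
    rw [hE, pow_succ]
    field_simp
    norm_num
  have e2 : 2144 / (Real.log X) ≤ 1 / 2 := by
    rw [div_le_div_iff₀ hL0 (by norm_num)]
    linarith
  have e3 : 536 / (X : ℝ) * (2 * Real.sqrt (2 * X) * Real.log (2 * X)) ≤ 1 / 2 * (1 / (Real.log X) ^ K) := by
    have h1 : Real.sqrt (2 * X) ≤ 2 * (X : ℝ) ^ (1 / 2 : ℝ) := by
      rw [← Real.sqrt_eq_rpow, show (2 : ℝ) * Real.sqrt X = Real.sqrt (4 * X) by
        rw [Real.sqrt_mul (by norm_num), show (4 : ℝ) = 2 ^ 2 by norm_num, Real.sqrt_sq (by norm_num)]]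
      exact Real.sqrt_le_sqrt (by linarith)
    have h2 : Real.log (2 * X) ≤ 2 * Real.log X := by
      rw [Real.log_mul (by norm_num) hXpos.ne']
      have := Real.log_le_log (by norm_num) (show (2 : ℝ) ≤ X by linarith)
      linarith
    have h3 : 0 ≤ Real.log (2 * (X : ℝ)) := Real.log_nonneg (by linarith)
    have h4 : 536 / (X : ℝ) * (2 * Real.sqrt (2 * X) * Real.log (2 * X)) ≤
        536 / (X : ℝ) * (2 * (2 * (X : ℝ) ^ (1 / 2 : ℝ)) * (2 * Real.log X)) := by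
      gcongr
    refine h4.trans ?_
    rw [div_mul_eq_mul_div, div_le_iff₀ hXpos]
    have h5 : (0 : ℝ) < (X : ℝ) ^ (1 / 2 : ℝ) := by positivity
    have h6 : 1 / 2 * (1 / (Real.log X) ^ K) * (X : ℝ) = X / (2 * (Real.log X) ^ K) := by
      field_simp
    rw [h6, le_div_iff₀ (by positivity)]
    have h7 : 536 * (2 * (2 * (X : ℝ) ^ (1 / 2 : ℝ)) * (2 * Real.log X)) * (2 * (Real.log X) ^ K) =
        (8 * 2 * 536) * (Real.log X) ^ (K + 1) * (X : ℝ) ^ (1 / 2 : ℝ) := by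
      rw [pow_succ]
      ring
    rw [h7]
    exact hg1
  have e4 : 2144 / (Real.log X) * (1 / (Real.log X) ^ K) ≤ 1 / 2 * (1 / (Real.log X) ^ K) := by
    gcongr
  rw [e1]
  linarith

end Pool.Agent.Lib.G3
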