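import Pool.Agent.Lib.G3.CntJ

/-!
# G3, row TB: trivial bounds
-/

set_option autoImplicit false

open Finset

namespace Pool.Agent.Lib.G3

open Pool.Agent.Lib.MRT (cj kap norm_cj)
open Pool.Agent.Lib.GT (e)

private theorem tb_norm_e (x : ℝ) : ‖e x‖ = 1 := by
  unfold e
  rw [show (2 * Real.pi * x * Complex.I : ℂ) = ((2 * Real.pi * x : ℝ) : ℂ) * Complex.I by push_cast; ring]
  exact Complex.norm_exp_ofReal_mul_I _

theorem bq_le {F : ℕ → ℂ} (hF : ∀ n, ‖F n‖ ≤ 1) (X : ℕ) (γ : ℝ) (j : ℤ) : ‖bq F X γ j‖ ≤ X := by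
  unfold bq
  refine (norm_sum_le _ _).trans ?_
  have h1 : ∑ n ∈ Icc 1 X, ‖F n * e (-(n * γ)) * cj j n‖ ≤ ∑ n ∈ Icc 1 X, (1 : ℝ) := by
    refine sum_le_sum fun n _ => ?_
    rw [norm_mul, norm_mul, norm_cj, tb_norm_e, mul_one, mul_one]
    exact hF n
  refine h1.trans ?_
  simp

theorem JJ_card (B : ℕ) : ∃ x0 : ℝ, ∀ X : ℕ, x0 ≤ X → ∀ q R T0 T : ℕ, 1 ≤ q → (X : ℝ) ^ (1 / 4 : ℝ) ≤ R → R ≤ X → T ≤ X →
    ((JJ q R T0 T (R / (Real.log X) ^ B)).card : ℝ) ≤ 2 * T0 + 1 + q * (Real.log X) ^ (2 * B + 3) := by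
  classical
  obtain ⟨x0, hx0⟩ := cntJ B
  refine ⟨max x0 1, fun X hX q R T0 T hq hR hRX hTX => ?_⟩
  have hX0 : x0 ≤ X := (le_max_left _ _).trans hX
  have hX1 : (1 : ℝ) ≤ X := (le_max_right _ _).trans hX
  have : NeZero q := ⟨by omega⟩
  set v : ℝ := R / (Real.log X) ^ B with hv
  have hL : 0 ≤ (Real.log X) ^ (2 * B + 3) := pow_nonneg (Real.log_nonneg hX1) _
  have hsub : JJ q R T0 T v ⊆ (Icc (-(T0 : ℤ)) T0) ∪
      (univ : Finset (DirichletCharacter ℂ q)).biUnion fun χ => (Icc (-(T : ℤ)) T).filter fun j => v < ‖RR χ R j‖ := by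
    intro j hj
    unfold JJ at hj
    simp only [mem_filter, mem_Icc] at hj
    rw [mem_union]
    rcases hj.2 with h | ⟨χ, h⟩
    · left
      rw [mem_Icc]
      exact abs_le.mp h
    · right
      rw [mem_biUnion]
      refine ⟨χ, mem_univ _, ?_⟩
      rw [mem_filter, mem_Icc]
      exact ⟨hj.1, h⟩
  have h1 : ((JJ q R T0 T v).card : ℝ) ≤ ((Icc (-(T0 : ℤ)) T0).card : ℝ) +
      ∑ χ : DirichletCharacter ℂ q, (((Icc (-(T : ℤ)) T).filter fun j => v < ‖RR χ R j‖).card : ℝ) := by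
    have h2 := (card_le_card hsub).trans ((card_union_le _ _).trans (Nat.add_le_add_left card_biUnion_le _))
    exact_mod_cast h2
  have h3 : ((Icc (-(T0 : ℤ)) T0).card : ℝ) = 2 * T0 + 1 := by
    have : (Icc (-(T0 : ℤ)) T0).card = 2 * T0 + 1 := by
      rw [Int.card_Icc]
      omega
    rw [this]
    push_cast
    ring
  have h4 : ∀ χ ∈ (univ : Finset (DirichletCharacter ℂ q)),
      (((Icc (-(T : ℤ)) T).filter fun j => v < ‖RR χ R j‖).card : ℝ) ≤ (Real.log X) ^ (2 * B + 3) := by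
    intro χ _
    refine hx0 X hX0 q R T χ hR hRX hTX _ fun j hj => ?_
    rw [mem_filter, mem_Icc] at hj
    refine ⟨?_, hj.2⟩
    have h5 : |j| ≤ (T : ℤ) := abs_le.mpr hj.1
    have h6 : ((|j| : ℤ) : ℝ) ≤ ((T : ℤ) : ℝ) := by exact_mod_cast h5
    rw [Int.cast_abs] at h6
    simpa using h6
  have h5 : ∑ χ : DirichletCharacter ℂ q, (((Icc (-(T : ℤ)) T).filter fun j => v < ‖RR χ R j‖).card : ℝ) ≤
      q * (Real.log X) ^ (2 * B + 3) := by
    refine (sum_le_sum h4).trans ?_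
    rw [sum_const, nsmul_eq_mul]
    refine mul_le_mul_of_nonneg_right ?_ hL
    have h6 : (univ : Finset (DirichletCharacter ℂ q)).card = q.totient := by
      rw [Finset.card_univ, ← Nat.card_eq_fintype_card]
      exact DirichletCharacter.card_eq_totient_of_hasEnoughRootsOfUnity ℂ q
    rw [h6]
    exact_mod_cast Nat.totient_le q
  rw [h3] at h1
  linarith

private theorem tb_exp : Real.exp (2 * Real.pi) ≤ 1200 := by
  have h1 : 2 * Real.pi ≤ 7 := by
    have := Real.pi_lt_d2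
    linarith
  have h2 : Real.exp 7 ≤ 1200 := by
    have h3 : Real.exp 7 = Real.exp 1 ^ 7 := by
      rw [← Real.exp_nat_mul]
      norm_num
    rw [h3]
    have h4 := Real.exp_one_lt_d9
    calc Real.exp 1 ^ 7 ≤ 2.7182818286 ^ 7 := by gcongr
      _ ≤ 1200 := by norm_num
  exact (Real.exp_le_exp.mpr h1).trans h2

theorem mo_le {b : ℤ → ℂ} {J : Finset ℤ} {X : ℕ} {S : ℝ} (hX : 1 ≤ X) (hS : 0 ≤ S) (hb : ∀ j ∈ J, ‖b j‖ ≤ S) (n : ℕ) :
    ‖mo b J X n‖ ≤ 200 * J.card * S / X := by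
  have hX0 : (0 : ℝ) < X := by exact_mod_cast hX
  unfold mo
  split_ifs with h
  · have hn : (X : ℝ) * Real.exp (-(2 * Real.pi)) < n := Nat.lt_of_floor_lt h.1
    have hn0 : (0 : ℝ) < n := lt_of_le_of_lt (by positivity) hn
    have hpi : (3 : ℝ) ≤ Real.pi := Real.pi_gt_three.le
    have h1 : ‖∑ j ∈ J, b j * (starRingEnd ℂ) (cj j n)‖ ≤ J.card * S := by
      refine (norm_sum_le _ _).trans ?_
      rw [← nsmul_eq_mul]
      refine sum_le_card_nsmul _ _ _ fun j hj => ?_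
      rw [norm_mul, RCLike.norm_conj, norm_cj, mul_one]
      exact hb j hj
    have h2 : ‖((1 / (2 * Real.pi * n) : ℝ) : ℂ)‖ = 1 / (2 * Real.pi * n) := by
      rw [Complex.norm_real, Real.norm_eq_abs, abs_of_nonneg (by positivity)]
    have h3 : 1 / (2 * Real.pi * (n : ℝ)) ≤ 200 / X := by
      rw [div_le_div_iff₀ (by positivity) hX0]
      have h4 : (X : ℝ) < n * Real.exp (2 * Real.pi) := by
        have h5 : (X : ℝ) * Real.exp (-(2 * Real.pi)) * Real.exp (2 * Real.pi) < n * Real.exp (2 * Real.pi) := by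
          gcongr
        rw [mul_assoc, ← Real.exp_add] at h5
        simpa using h5
      have h6 : (n : ℝ) * Real.exp (2 * Real.pi) ≤ n * 1200 := by
        gcongr
        exact tb_exp
      nlinarith
    rw [norm_mul, h2]
    calc 1 / (2 * Real.pi * (n : ℝ)) * ‖∑ j ∈ J, b j * (starRingEnd ℂ) (cj j n)‖
        ≤ 200 / X * (J.card * S) := by gcongr
      _ = 200 * J.card * S / X := by ring
  · rw [norm_zero]
    positivity

theorem MO_supp {F : ℕ → ℂ} {X Q R T0 T : ℕ} {v : ℝ} {n : ℕ} (h : MO F X Q R T0 T v n ≠ 0) : X0 X < n ∧ n ≤ X := by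
  by_contra hn
  apply h
  unfold MO
  refine sum_eq_zero fun q _ => sum_eq_zero fun a _ => ?_
  unfold mo
  rw [if_neg hn, mul_zero]

end Pool.Agent.Lib.G3
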