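import Pool.Agent.Lib.G3.Bqs
import Pool.Agent.Lib.G3.LamS
import Pool.Agent.Lib.G3.LamL
import Pool.Agent.Lib.G3.Btf
import Pool.Agent.Lib.G3.Tri
import Pool.Agent.Lib.SW.RamModel

/-!
# G3, row MT: the contribution of the model
-/

set_option autoImplicit false

open Finset

namespace Pool.Agent.Lib.G3

open Pool.Agent.Lib.MRT (cj norm_cj)
open Pool.Agent.Lib.GT (e)

theorem norm_e' (x : ℝ) : ‖e x‖ = 1 := by
  have h : e x = Complex.exp (((2 * Real.pi * x : ℝ) : ℂ) * Complex.I) := by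
    unfold e
    push_cast
    rfl
  rw [h]
  exact Complex.norm_exp_ofReal_mul_I _

theorem mo_LT (b' : ℤ → ℂ) (J : Finset ℤ) (X N : ℕ) (γ : ℝ) :
    ∑ n ∈ Icc 1 X, e (n * γ) * mo b' J X n * ((lp (N - n) : ℝ) : ℂ) =
      ∑ j ∈ J, ((1 / (2 * Real.pi) : ℝ) : ℂ) * b' j * LT X N γ j := by
  have h1 : ∑ n ∈ Icc 1 X, e (n * γ) * mo b' J X n * ((lp (N - n) : ℝ) : ℂ) =
      ∑ n ∈ Ioc (X0 X) X, e (n * γ) * (((1 / (2 * Real.pi * n) : ℝ) : ℂ) * ∑ j ∈ J, b' j * (starRingEnd ℂ) (cj j n)) *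
        ((lp (N - n) : ℝ) : ℂ) := by
    symm
    have h2 : ∀ n ∈ Ioc (X0 X) X, e (n * γ) * (((1 / (2 * Real.pi * n) : ℝ) : ℂ) * ∑ j ∈ J, b' j * (starRingEnd ℂ) (cj j n)) *
        ((lp (N - n) : ℝ) : ℂ) = e (n * γ) * mo b' J X n * ((lp (N - n) : ℝ) : ℂ) := by
      intro n hn
      rw [mem_Ioc] at hn
      unfold mo
      rw [if_pos hn]
    rw [sum_congr rfl h2]
    refine sum_subset ?_ ?_
    · intro n hn
      rw [mem_Ioc] at hn
      rw [mem_Icc]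
      omega
    · intro n _ hn
      rw [mem_Ioc] at hn
      unfold mo
      rw [if_neg hn, mul_zero, zero_mul]
  rw [h1]
  have h3 : ∀ n ∈ Ioc (X0 X) X, e (n * γ) * (((1 / (2 * Real.pi * n) : ℝ) : ℂ) * ∑ j ∈ J, b' j * (starRingEnd ℂ) (cj j n)) *
        ((lp (N - n) : ℝ) : ℂ) = ∑ j ∈ J, ((1 / (2 * Real.pi) : ℝ) : ℂ) * b' j *
          (((1 / (n : ℝ) : ℝ) : ℂ) * (starRingEnd ℂ) (cj j n) * e (n * γ) * ((lp (N - n) : ℝ) : ℂ)) := by
    intro n hn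
    rw [mem_Ioc] at hn
    rw [mul_sum, mul_sum, sum_mul]
    refine sum_congr rfl fun j _ => ?_
    have h4 : ((1 / (2 * Real.pi * n) : ℝ) : ℂ) = ((1 / (2 * Real.pi) : ℝ) : ℂ) * ((1 / (n : ℝ) : ℝ) : ℂ) := by
      rw [← Complex.ofReal_mul]
      congr 1
      rw [div_mul_div_comm, one_mul]
    rw [h4]
    ring
  rw [sum_congr rfl h3, sum_comm]
  refine sum_congr rfl fun j _ => ?_
  unfold LT
  rw [mul_sum]

theorem MO_LT (F : ℕ → ℂ) (X Q R T0 T N : ℕ) (v : ℝ) :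
    ∑ n ∈ Icc 1 X, MO F X Q R T0 T v n * ((lp (N - n) : ℝ) : ℂ) =
      ∑ q ∈ Icc 1 Q, ∑ b ∈ cl q, ∑ j ∈ JJ q R T0 T v, ((1 / (2 * Real.pi) : ℝ) : ℂ) * bq F X ((b : ℝ) / q) j * LT X N ((b : ℝ) / q) j := by
  unfold MO
  simp_rw [sum_mul]
  rw [sum_comm]
  refine sum_congr rfl fun q _ => ?_
  rw [sum_comm]
  refine sum_congr rfl fun b _ => ?_
  exact mo_LT _ _ _ _ _

/-- the sizes of the parameters -/
theorem mt_par2 (c1 : ℕ) : ∃ x0 : ℝ, ∀ X : ℕ, x0 ≤ X → ∀ P R M : ℕ, Par X P R M c1 →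
    2 * P ≤ R ∧ (X : ℝ) ^ (1 / 4 : ℝ) ≤ R ∧ R ≤ X ∧ 16 * (P * M * R) ≤ X := by
  have h1 : ∀ᶠ x : ℝ in Filter.atTop, (Real.log x) ^ (c1 : ℝ) ≤ (1 / 2) * x ^ (1 / 4 : ℝ) := by
    have h2 := (isLittleO_log_rpow_rpow_atTop (c1 : ℝ) (by norm_num : (0 : ℝ) < 1 / 4)).bound (by norm_num : (0 : ℝ) < 1 / 2)
    filter_upwards [h2, Filter.eventually_ge_atTop 1] with x hx hx1
    have h3 : 0 ≤ Real.log x := Real.log_nonneg hx1
    rw [Real.norm_of_nonneg (Real.rpow_nonneg h3 _), Real.norm_of_nonneg (Real.rpow_nonneg (by linarith) _)] at hx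
    exact hx
  obtain ⟨x1, hx1⟩ := Filter.eventually_atTop.1 h1
  refine ⟨max (2 ^ 20) x1, ?_⟩
  intro X hX P R M hpar
  have hX1 : (2 : ℝ) ^ 20 ≤ X := (le_max_left _ _).trans hX
  have hX2 : x1 ≤ X := (le_max_right _ _).trans hX
  have hXpos : (0 : ℝ) < X := by linarith [show (0 : ℝ) < 2 ^ 20 by norm_num]
  have hX3 : (1 : ℝ) ≤ X := by linarith [show (1 : ℝ) ≤ 2 ^ 20 by norm_num]
  have hR1 : (X : ℝ) ^ (1 / 4 : ℝ) ≤ R := by
    rw [hpar.hR]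
    have e1 : (X : ℝ) ^ (9 / 20 : ℝ) = (X : ℝ) ^ (1 / 4 : ℝ) * (X : ℝ) ^ (1 / 5 : ℝ) := by
      rw [← Real.rpow_add hXpos]
      norm_num
    have e2 : (16 : ℝ) ≤ (X : ℝ) ^ (1 / 5 : ℝ) := by
      have e3 : ((2 : ℝ) ^ 20) ^ (1 / 5 : ℝ) ≤ (X : ℝ) ^ (1 / 5 : ℝ) := Real.rpow_le_rpow (by positivity) hX1 (by norm_num)
      have e4 : ((2 : ℝ) ^ 20) ^ (1 / 5 : ℝ) = 16 := by
        rw [← Real.rpow_natCast, ← Real.rpow_mul (by norm_num)]
        norm_num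
      linarith
    have e5 : (1 : ℝ) ≤ (X : ℝ) ^ (1 / 4 : ℝ) := Real.one_le_rpow hX3 (by norm_num)
    have e6 := Nat.lt_floor_add_one ((X : ℝ) ^ (9 / 20 : ℝ))
    rw [e1] at e6
    rw [e1]
    nlinarith
  refine ⟨?_, hR1, ?_, ?_⟩
  · have e1 := hx1 X hX2
    rw [Real.rpow_natCast] at e1
    have e2 : (P : ℝ) ≤ (Real.log X) ^ c1 := by
      rw [hpar.hP]
      exact Nat.floor_le (pow_nonneg (Real.log_nonneg hX3) _)
    have e3 : (2 : ℝ) * P ≤ R := by linarith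
    exact_mod_cast e3
  · rw [hpar.hR]
    have e1 : (X : ℝ) ^ (9 / 20 : ℝ) ≤ X := by
      calc (X : ℝ) ^ (9 / 20 : ℝ) ≤ (X : ℝ) ^ (1 : ℝ) := Real.rpow_le_rpow_of_exponent_le hX3 (by norm_num)
        _ = X := Real.rpow_one _
    have e2 := Nat.floor_le_floor e1
    rwa [Nat.floor_natCast] at e2
  · rw [hpar.hM]
    have e1 := Nat.mul_div_le X (16 * (P * R))
    calc 16 * (P * (X / (16 * (P * R))) * R) = 16 * (P * R) * (X / (16 * (P * R))) := by ring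
      _ ≤ X := e1

/-- `μ(q)/φ(q)` -/
noncomputable def wq (q : ℕ) : ℂ := ((ArithmeticFunction.moebius q : ℤ) : ℂ) / (q.totient : ℂ)

theorem wq_norm (q : ℕ) (hq : 1 ≤ q) : ‖wq q‖ ≤ 1 := by
  have hphi : (1 : ℝ) ≤ q.totient := by exact_mod_cast Nat.totient_pos.2 (by omega : 0 < q)
  unfold wq
  rw [norm_div, Complex.norm_intCast, Complex.norm_natCast, div_le_one (by linarith)]
  have : |((ArithmeticFunction.moebius q : ℤ) : ℝ)| ≤ 1 := by exact_mod_cast ArithmeticFunction.abs_moebius_le_one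
  linarith

theorem sg_eq (Q N : ℕ) (S : ℂ) :
    ((sg Q N : ℝ) : ℂ) * S = ∑ q ∈ Icc 1 Q, ∑ b ∈ cl q,
      ((1 / (2 * Real.pi) : ℝ) : ℂ) * (wq q * S) * ((2 * Real.pi : ℝ) * wq q * e (N * ((b : ℝ) / q))) := by
  unfold sg
  push_cast
  rw [sum_mul, sum_filter]
  refine sum_congr rfl fun q hq => ?_
  have hpi : ((1 / (2 * Real.pi) : ℝ) : ℂ) * ((2 * Real.pi : ℝ) : ℂ) = 1 := by
    rw [← Complex.ofReal_mul]
    have : 1 / (2 * Real.pi) * (2 * Real.pi) = 1 := by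
      field_simp
    rw [this, Complex.ofReal_one]
  have h0 : ∑ b ∈ cl q, ((1 / (2 * Real.pi) : ℝ) : ℂ) * (wq q * S) * ((2 * Real.pi : ℝ) * wq q * e (N * ((b : ℝ) / q))) =
      wq q * (wq q * ∑ b ∈ cl q, e (N * ((b : ℝ) / q))) * S := by
    rw [mul_sum, mul_sum, sum_mul]
    refine sum_congr rfl fun b _ => ?_
    calc ((1 / (2 * Real.pi) : ℝ) : ℂ) * (wq q * S) * ((2 * Real.pi : ℝ) * wq q * e (N * ((b : ℝ) / q)))
        = (((1 / (2 * Real.pi) : ℝ) : ℂ) * ((2 * Real.pi : ℝ) : ℂ)) * (wq q * S * wq q * e (N * ((b : ℝ) / q))) := by ring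
      _ = _ := by rw [hpi]; ring
  push_cast at h0
  rw [h0]
  by_cases hsq : Squarefree q
  · rw [if_pos hsq]
    have h1 := Pool.Agent.Lib.SW.gq_eq_exp q hsq (N : ℤ)
    have h2 : ∑ b ∈ (range q).filter (fun b => Nat.Coprime b q), e ((b : ℝ) / q * ((N : ℤ) : ℝ)) = ∑ b ∈ cl q, e (N * ((b : ℝ) / q)) := by
      unfold cl
      refine sum_congr rfl fun b _ => ?_
      congr 1
      push_cast
      ring
    rw [h2] at h1
    rw [h1]
    unfold wq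
    ring
  · rw [if_neg hsq]
    have h1 : wq q = 0 := by
      unfold wq
      rw [ArithmeticFunction.moebius_eq_zero_of_not_squarefree hsq]
      simp
    rw [h1]
    ring

theorem bq_zero (F : ℕ → ℂ) (X : ℕ) : bq F X 0 0 = ∑ n ∈ Icc 1 X, F n := by
  unfold bq
  refine sum_congr rfl fun n _ => ?_
  have e0 : e (-((n : ℝ) * 0)) = 1 := by
    unfold e
    simp
  have e1 : cj 0 n = 1 := by
    unfold cj
    simp
  rw [e0, e1, mul_one, mul_one]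

theorem mainT (K c2 B : ℕ) : ∃ c5 : ℕ, ∀ c5' : ℕ, c5 ≤ c5' → ∀ c1 : ℕ, c2 < c1 → ∃ x0 : ℝ, ∀ X : ℕ, x0 ≤ X →
    ∀ (P R M T : ℕ) (a : ℕ → ℂ), Par X P R M c1 → Good a P R M → (T : ℝ) ≤ X / (Real.log X) ^ c5' → ∀ N : ℕ, X < N → (N : ℝ) ≤ X + Real.sqrt X →
      ‖∑ n ∈ Icc 1 X, MO (bt a P R M) X ⌊(Real.log X) ^ c2⌋₊ R ⌊(Real.log X) ^ c5'⌋₊ T (R / (Real.log X) ^ B) n * ((lp (N - n) : ℝ) : ℂ) -
        ((sg ⌊(Real.log X) ^ c2⌋₊ N : ℝ) : ℂ) * ∑ n ∈ Icc 1 X, bt a P R M n‖ ≤ X / (Real.log X) ^ K := by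
  obtain ⟨c, x1, hLL⟩ := lam_large (K + 3 * c2 + 2 * B + 4)
  refine ⟨c, ?_⟩
  intro c5' hc5 c1 hc1
  obtain ⟨x2, hLS⟩ := lam_small (K + 2 * c2 + c5' + 1) c2 c5'
  obtain ⟨x3, hBS⟩ := bqs (K + 2 * c2 + c5' + 1) c2 0 c1 hc1
  obtain ⟨x4, hJ⟩ := JJ_card B
  obtain ⟨x5, hPR⟩ := mt_par2 c1
  refine ⟨max (max (max x1 x2) (max x3 x4)) (max x5 (Real.exp 16)), ?_⟩
  intro X hX P R M T a hpar ha hT N hN1 hN2
  simp only [max_le_iff] at hX
  obtain ⟨⟨⟨hX1, hX2⟩, hX3, hX4⟩, hX5, hX6⟩ := hX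
  have hXpos : (0 : ℝ) < X := lt_of_lt_of_le (Real.exp_pos _) hX6
  obtain ⟨g1, g2, g3, g4⟩ := hPR X hX5 P R M hpar
  set l := Real.log X with hl
  have hl16 : 16 ≤ l := by
    rw [hl, Real.le_log_iff_exp_le hXpos]
    exact hX6
  have hl1 : 1 ≤ l := by linarith
  have hl0 : 0 < l := by linarith
  have hX1' : (1 : ℝ) ≤ X := by
    have := Real.add_one_le_exp (16 : ℝ)
    linarith
  set T0 := ⌊l ^ c5'⌋₊ with hT0
  set Q := ⌊l ^ c2⌋₊ with hQ
  set v : ℝ := R / l ^ B with hv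
  set F := bt a P R M with hF
  set S : ℂ := ∑ n ∈ Icc 1 X, F n with hS
  have hFle : ∀ n, ‖F n‖ ≤ 1 := bt_le ha g1
  have hSle : ‖S‖ ≤ X := by
    have := bq_le hFle X 0 0
    rwa [bq_zero] at this
  have hTX : T ≤ X := by
    have h1 : (T : ℝ) ≤ X := hT.trans (div_le_self hXpos.le (one_le_pow₀ hl1))
    exact_mod_cast h1
  have hN3 : N ≤ 2 * X := by
    have h1 : Real.sqrt X ≤ X := by
      rw [Real.sqrt_le_left hXpos.le]
      nlinarith
    have h2 : (N : ℝ) ≤ 2 * X := by linarith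
    exact_mod_cast h2
  set K' := K + 2 * c2 + c5' + 1 with hK'
  set K'' := K + 3 * c2 + 2 * B + 4 with hK''
  have hQle : (Q : ℝ) ≤ l ^ c2 := Nat.floor_le (by positivity)
  have hT0le : (T0 : ℝ) ≤ l ^ c5' := Nat.floor_le (by positivity)
  have hpi : 0 < 1 / (2 * Real.pi) := by positivity
  have hpi1 : 1 / (2 * Real.pi) ≤ 1 := by
    rw [div_le_one (by positivity)]
    linarith [Real.pi_gt_three]
  -- the main terms
  let mt : ℕ → ℕ → ℤ → ℂ := fun q b j => if j = 0 then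
    ((1 / (2 * Real.pi) : ℝ) : ℂ) * (wq q * S) * ((2 * Real.pi : ℝ) * wq q * e (N * ((b : ℝ) / q))) else 0
  let tt : ℕ → ℕ → ℤ → ℂ := fun q b j => ((1 / (2 * Real.pi) : ℝ) : ℂ) * bq F X ((b : ℝ) / q) j * LT X N ((b : ℝ) / q) j
  have small : ∀ q ∈ Icc 1 Q, ∀ b ∈ cl q, ∀ j : ℤ, |j| ≤ (T0 : ℤ) → ‖tt q b j - mt q b j‖ ≤ 2 * X / l ^ K' := by
    intro q hq b hb j hj
    rw [mem_Icc] at hq
    unfold cl at hb
    rw [mem_filter, mem_range] at hb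
    have hqX : (q : ℝ) ≤ l ^ c2 := le_trans (by exact_mod_cast hq.2) hQle
    have hj' : |(j : ℝ)| ≤ l ^ c5' := by
      have h1 : ((|j| : ℤ) : ℝ) ≤ ((T0 : ℤ) : ℝ) := by exact_mod_cast hj
      rw [Int.cast_abs, Int.cast_natCast] at h1
      exact h1.trans hT0le
    have h1 := hLS X hX2 N hN1 hN2 q b hq.1 hqX hb.2.symm j hj'
    have h2 : ‖bq F X ((b : ℝ) / q) j‖ ≤ X := bq_le hFle X _ _
    have hw := wq_norm q hq.1
    by_cases hj0 : j = 0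
    · simp only [tt, mt]
      rw [if_pos hj0] at h1 ⊢
      have h3 := hBS X hX3 P R M a hpar ha q b hq.1 hqX hb.2.symm 0 (by simp)
      rw [hj0] at h1 h2 ⊢
      have h4 : ‖bq F X ((b : ℝ) / q) 0 - wq q * S‖ ≤ X / l ^ K' := by
        rw [bq_zero] at h3
        exact h3
      have h5 : ‖LT X N ((b : ℝ) / q) 0 - (2 * Real.pi : ℝ) * wq q * e (N * ((b : ℝ) / q))‖ ≤ 1 / l ^ K' := h1
      have h6 : ((1 / (2 * Real.pi) : ℝ) : ℂ) * bq F X ((b : ℝ) / q) 0 * LT X N ((b : ℝ) / q) 0 -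
          ((1 / (2 * Real.pi) : ℝ) : ℂ) * (wq q * S) * ((2 * Real.pi : ℝ) * wq q * e (N * ((b : ℝ) / q))) =
          ((1 / (2 * Real.pi) : ℝ) : ℂ) * (bq F X ((b : ℝ) / q) 0 * (LT X N ((b : ℝ) / q) 0 - (2 * Real.pi : ℝ) * wq q * e (N * ((b : ℝ) / q))) +
            (bq F X ((b : ℝ) / q) 0 - wq q * S) * ((2 * Real.pi : ℝ) * wq q * e (N * ((b : ℝ) / q)))) := by ring
      rw [h6, norm_mul, Complex.norm_real, Real.norm_eq_abs, abs_of_pos hpi]
      have h7 : ‖bq F X ((b : ℝ) / q) 0 * (LT X N ((b : ℝ) / q) 0 - (2 * Real.pi : ℝ) * wq q * e (N * ((b : ℝ) / q)))‖ ≤ X * (1 / l ^ K') := by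
        rw [norm_mul]
        exact mul_le_mul h2 h5 (norm_nonneg _) hXpos.le
      have h8 : ‖(bq F X ((b : ℝ) / q) 0 - wq q * S) * ((2 * Real.pi : ℝ) * wq q * e (N * ((b : ℝ) / q)))‖ ≤ X / l ^ K' * (2 * Real.pi) := by
        rw [norm_mul]
        refine mul_le_mul h4 ?_ (norm_nonneg _) (by positivity)
        rw [norm_mul, norm_mul, norm_e', mul_one, Complex.norm_real, Real.norm_eq_abs, abs_of_pos (by positivity)]
        calc 2 * Real.pi * ‖wq q‖ ≤ 2 * Real.pi * 1 := by gcongr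
          _ = _ := mul_one _
      have h9 : 0 ≤ X / l ^ K' := by positivity
      calc 1 / (2 * Real.pi) * ‖_‖ ≤ 1 / (2 * Real.pi) * (X * (1 / l ^ K') + X / l ^ K' * (2 * Real.pi)) := by
            refine mul_le_mul_of_nonneg_left ?_ hpi.le
            exact (norm_add_le _ _).trans (add_le_add h7 h8)
        _ = 1 / (2 * Real.pi) * (X / l ^ K') + X / l ^ K' := by
            field_simp
        _ ≤ 1 * (X / l ^ K') + X / l ^ K' := by gcongr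
        _ = 2 * X / l ^ K' := by ring
    · simp only [tt, mt]
      rw [if_neg hj0] at h1 ⊢
      rw [sub_zero] at h1 ⊢
      rw [norm_mul, norm_mul, Complex.norm_real, Real.norm_eq_abs, abs_of_pos hpi]
      calc 1 / (2 * Real.pi) * ‖bq F X ((b : ℝ) / q) j‖ * ‖LT X N ((b : ℝ) / q) j‖ ≤ 1 * X * (1 / l ^ K') := by gcongr
        _ ≤ 2 * X / l ^ K' := by
          rw [one_mul, mul_one_div]
          apply div_le_div_of_nonneg_right _ (by positivity)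
          linarith
  have large : ∀ q ∈ Icc 1 Q, ∀ b ∈ cl q, ∀ j ∈ JJ q R T0 T v, ¬ |j| ≤ (T0 : ℤ) → ‖tt q b j - mt q b j‖ ≤ X / l ^ K'' := by
    intro q hq b hb j hj hj2
    have hj0 : j ≠ 0 := by
      rintro rfl
      apply hj2
      simp
    simp only [tt, mt]
    rw [if_neg hj0, sub_zero, norm_mul, norm_mul, Complex.norm_real, Real.norm_eq_abs, abs_of_pos hpi]
    have h2 : ‖bq F X ((b : ℝ) / q) j‖ ≤ X := bq_le hFle X _ _
    have h3 : l ^ c ≤ |(j : ℝ)| := by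
      have h4 : ((T0 : ℤ) : ℝ) + 1 ≤ ((|j| : ℤ) : ℝ) := by
        have : (T0 : ℤ) + 1 ≤ |j| := by omega
        exact_mod_cast this
      rw [Int.cast_abs, Int.cast_natCast] at h4
      have h5 := Nat.lt_floor_add_one (l ^ c5')
      have h6 : l ^ c ≤ l ^ c5' := pow_le_pow_right₀ hl1 hc5
      linarith
    have h4 : |(j : ℝ)| ≤ X / l ^ c := by
      unfold JJ at hj
      rw [mem_filter, mem_Icc] at hj
      have h5 : |j| ≤ (T : ℤ) := abs_le.2 ⟨hj.1.1, hj.1.2⟩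
      have h6 : ((|j| : ℤ) : ℝ) ≤ ((T : ℤ) : ℝ) := by exact_mod_cast h5
      rw [Int.cast_abs, Int.cast_natCast] at h6
      refine h6.trans (hT.trans ?_)
      exact div_le_div_of_nonneg_left hXpos.le (by positivity) (pow_le_pow_right₀ hl1 hc5)
    have h5 := hLL X hX1 N hN1 hN3 j h3 h4 ((b : ℝ) / q)
    calc 1 / (2 * Real.pi) * ‖bq F X ((b : ℝ) / q) j‖ * ‖LT X N ((b : ℝ) / q) j‖ ≤ 1 * X * (1 / l ^ K'') := by gcongr
      _ = X / l ^ K'' := by rw [one_mul, mul_one_div]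
  -- sums over j
  have sumj : ∀ q ∈ Icc 1 Q, ∀ b ∈ cl q, ‖∑ j ∈ JJ q R T0 T v, tt q b j -
      ((1 / (2 * Real.pi) : ℝ) : ℂ) * (wq q * S) * ((2 * Real.pi : ℝ) * wq q * e (N * ((b : ℝ) / q)))‖ ≤
        3 * l ^ c5' * (2 * X / l ^ K') + 2 * l ^ (c2 + (2 * B + 3)) * (X / l ^ K'') := by
    intro q hq b hb
    have h0 : (0 : ℤ) ∈ JJ q R T0 T v := by
      unfold JJ
      rw [mem_filter, mem_Icc]
      refine ⟨⟨by omega, by omega⟩, Or.inl (by simp)⟩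
    have h1 : ∑ j ∈ JJ q R T0 T v, mt q b j =
        ((1 / (2 * Real.pi) : ℝ) : ℂ) * (wq q * S) * ((2 * Real.pi : ℝ) * wq q * e (N * ((b : ℝ) / q))) := by
      rw [sum_eq_single_of_mem 0 h0]
      · simp only [mt]
        rw [if_pos trivial]
      · intro j _ hj
        simp only [mt]
        rw [if_neg hj]
    rw [← h1, ← sum_sub_distrib]
    refine (norm_sum_le _ _).trans ?_
    rw [← sum_filter_add_sum_filter_not (JJ q R T0 T v) (fun j => |j| ≤ (T0 : ℤ))]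
    refine add_le_add ?_ ?_
    · refine (sum_le_sum (fun j hj => small q hq b hb j (mem_filter.1 hj).2)).trans ?_
      rw [sum_const, nsmul_eq_mul]
      refine mul_le_mul_of_nonneg_right ?_ (by positivity)
      have h2 : ((JJ q R T0 T v).filter (fun j => |j| ≤ (T0 : ℤ))) ⊆ Icc (-(T0 : ℤ)) T0 := by
        intro j hj
        rw [mem_filter] at hj
        rw [mem_Icc]
        exact abs_le.1 hj.2
      have h3 := card_le_card h2
      rw [Int.card_Icc] at h3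
      have h4 : ((JJ q R T0 T v).filter (fun j => |j| ≤ (T0 : ℤ))).card ≤ 2 * T0 + 1 := by omega
      have h5 : (((JJ q R T0 T v).filter (fun j => |j| ≤ (T0 : ℤ))).card : ℝ) ≤ 2 * T0 + 1 := by exact_mod_cast h4
      have h6 : 1 ≤ l ^ c5' := one_le_pow₀ hl1
      linarith
    · refine (sum_le_sum (fun j hj => large q hq b hb j (mem_filter.1 hj).1 (mem_filter.1 hj).2)).trans ?_
      rw [sum_const, nsmul_eq_mul]
      refine mul_le_mul_of_nonneg_right ?_ (by positivity)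
      rw [mem_Icc] at hq
      have h2 : ((JJ q R T0 T v).filter (fun j => ¬ |j| ≤ (T0 : ℤ))) ⊆ JJ q R 0 T v := by
        intro j hj
        rw [mem_filter] at hj
        obtain ⟨hj1, hj2⟩ := hj
        unfold JJ at hj1 ⊢
        rw [mem_filter] at hj1 ⊢
        refine ⟨hj1.1, Or.inr ?_⟩
        rcases hj1.2 with h | h
        · exact absurd h hj2
        · exact h
      have h3 : (((JJ q R T0 T v).filter (fun j => ¬ |j| ≤ (T0 : ℤ))).card : ℝ) ≤ ((JJ q R 0 T v).card : ℝ) := by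
        exact_mod_cast card_le_card h2
      have h4 := hJ X hX4 q R 0 T hq.1 g2 g3 hTX
      have hqX : (q : ℝ) ≤ l ^ c2 := le_trans (by exact_mod_cast hq.2) hQle
      have h5 : (q : ℝ) * l ^ (2 * B + 3) ≤ l ^ (c2 + (2 * B + 3)) := by
        rw [pow_add l c2 (2 * B + 3)]
        exact mul_le_mul_of_nonneg_right hqX (by positivity)
      have h6 : 1 ≤ l ^ (c2 + (2 * B + 3)) := one_le_pow₀ hl1
      rw [Nat.cast_zero, mul_zero, zero_add] at h4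
      linarith
  have hcl : ∀ q ∈ Icc 1 Q, ((cl q).card : ℝ) ≤ l ^ c2 := by
    intro q hq
    rw [mem_Icc] at hq
    have h1 : (cl q).card ≤ q := by
      unfold cl
      refine (card_filter_le _ _).trans ?_
      rw [card_range]
    have h2 : (cl q).card ≤ Q := h1.trans hq.2
    exact le_trans (by exact_mod_cast h2) hQle
  rw [MO_LT, sg_eq, ← sum_sub_distrib]
  set E : ℝ := 3 * l ^ c5' * (2 * X / l ^ K') + 2 * l ^ (c2 + (2 * B + 3)) * (X / l ^ K'') with hE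
  have hE0 : 0 ≤ E := by positivity
  have tot : ‖∑ q ∈ Icc 1 Q, (∑ b ∈ cl q, ∑ j ∈ JJ q R T0 T v, ((1 / (2 * Real.pi) : ℝ) : ℂ) * bq F X ((b : ℝ) / q) j * LT X N ((b : ℝ) / q) j -
      ∑ b ∈ cl q, ((1 / (2 * Real.pi) : ℝ) : ℂ) * (wq q * S) * ((2 * Real.pi : ℝ) * wq q * e (N * ((b : ℝ) / q))))‖ ≤ l ^ c2 * (l ^ c2 * E) := by
    refine (norm_sum_le _ _).trans ?_
    have h1 : ∀ q ∈ Icc 1 Q, ‖∑ b ∈ cl q, ∑ j ∈ JJ q R T0 T v, ((1 / (2 * Real.pi) : ℝ) : ℂ) * bq F X ((b : ℝ) / q) j * LT X N ((b : ℝ) / q) j -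
      ∑ b ∈ cl q, ((1 / (2 * Real.pi) : ℝ) : ℂ) * (wq q * S) * ((2 * Real.pi : ℝ) * wq q * e (N * ((b : ℝ) / q)))‖ ≤ l ^ c2 * E := by
      intro q hq
      rw [← sum_sub_distrib]
      refine (norm_sum_le _ _).trans ((sum_le_sum (fun b hb => sumj q hq b hb)).trans ?_)
      rw [sum_const, nsmul_eq_mul]
      exact mul_le_mul_of_nonneg_right (hcl q hq) hE0
    refine (sum_le_sum h1).trans ?_
    rw [sum_const, Nat.card_Icc, nsmul_eq_mul]
    refine mul_le_mul_of_nonneg_right ?_ (by positivity)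
    rw [Nat.add_sub_cancel]
    exact hQle
  refine tot.trans ?_
  have h1 : l ^ K' = l ^ K * (l ^ c2 * l ^ c2) * l ^ c5' * l := by
    rw [hK']
    ring
  have h2 : l ^ K'' = l ^ K * (l ^ c2 * l ^ c2) * l ^ (c2 + (2 * B + 3)) * l := by
    rw [hK'']
    ring
  have h3 : l ^ c2 * (l ^ c2 * E) = X / l ^ K * (8 / l) := by
    rw [hE, h1, h2]
    have e1 : l ^ K ≠ 0 := by positivity
    have e2 : l ^ c2 ≠ 0 := by positivity
    have e3 : l ^ c5' ≠ 0 := by positivity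
    have e4 : l ^ (c2 + (2 * B + 3)) ≠ 0 := by positivity
    generalize l ^ (c2 + (2 * B + 3)) = u at e4 ⊢
    field_simp
    ring
  rw [h3]
  have h4 : 8 / l ≤ 1 := by
    rw [div_le_one hl0]
    linarith
  calc X / l ^ K * (8 / l) ≤ X / l ^ K * 1 := by gcongr
    _ = X / l ^ K := mul_one _

end Pool.Agent.Lib.G3
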