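import Pool.Agent.Lib.G3.G2Defs
import Pool.Agent.Lib.G3.MainT

/-!
# G2, row M3: the contribution of the model with an arbitrary family of frequencies
-/

set_option autoImplicit false

open Finset

namespace Pool.Agent.Lib.G3

open Pool.Agent.Lib.MRT (cj norm_cj)
open Pool.Agent.Lib.GT (e)

private theorem mg_LT (F : ℕ → ℂ) (X Q N : ℕ) (J : ℕ → Finset ℤ) :
    ∑ n ∈ Icc 1 X, MG F X Q J n * ((lp (N - n) : ℝ) : ℂ) =
      ∑ q ∈ Icc 1 Q, ∑ b ∈ cl q, ∑ j ∈ J q, ((1 / (2 * Real.pi) : ℝ) : ℂ) * bq F X ((b : ℝ) / q) j * LT X N ((b : ℝ) / q) j := by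
  unfold MG
  simp_rw [sum_mul]
  rw [sum_comm]
  refine sum_congr rfl fun q _ => ?_
  rw [sum_comm]
  refine sum_congr rfl fun b _ => ?_
  exact mo_LT _ _ _ _ _

theorem mainG (K c2 C : ℕ) : ∃ c5 : ℕ, ∀ c5' : ℕ, c5 ≤ c5' → ∃ x0 : ℝ, ∀ X : ℕ, x0 ≤ X →
    ∀ (F : ℕ → ℂ) (J : ℕ → Finset ℤ) (T : ℕ), (∀ n, ‖F n‖ ≤ 1) → (∀ q b : ℕ, 1 ≤ q → (q : ℝ) ≤ (Real.log X) ^ c2 → Nat.Coprime q b →
      ‖bq F X ((b : ℝ) / q) 0 - ((ArithmeticFunction.moebius q : ℤ) : ℂ) / (q.totient : ℂ) * bq F X 0 0‖ ≤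
        X / (Real.log X) ^ (K + 2 * c2 + 3)) →
    (T : ℝ) ≤ X / (Real.log X) ^ c5' →
    (∀ q : ℕ, 1 ≤ q → (q : ℝ) ≤ (Real.log X) ^ c2 → (0 : ℤ) ∈ J q ∧ (∀ j ∈ J q, |j| ≤ (T : ℤ)) ∧
      (((J q).filter fun j : ℤ => (Real.log X) ^ c5' < |(j : ℝ)|).card : ℝ) ≤ (Real.log X) ^ C) →
    ∀ N : ℕ, X < N → (N : ℝ) ≤ X + Real.sqrt X →
      ‖∑ n ∈ Icc 1 X, MG F X ⌊(Real.log X) ^ c2⌋₊ J n * ((lp (N - n) : ℝ) : ℂ) -
        ((sg ⌊(Real.log X) ^ c2⌋₊ N : ℝ) : ℂ) * ∑ n ∈ Icc 1 X, F n‖ ≤ X / (Real.log X) ^ K := by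
  obtain ⟨c, x1, hLL⟩ := lam_large (K + 2 * c2 + C + 1)
  refine ⟨c, ?_⟩
  intro c5' hc5
  obtain ⟨x2, hLS⟩ := lam_small (K + 2 * c2 + c5' + 3) c2 c5'
  refine ⟨max (max x1 x2) (Real.exp 16), ?_⟩
  intro X hX F J T hFle hBS hT hJ N hN1 hN2
  simp only [max_le_iff] at hX
  obtain ⟨⟨hX1, hX2⟩, hX6⟩ := hX
  have hXpos : (0 : ℝ) < X := lt_of_lt_of_le (Real.exp_pos _) hX6
  set l := Real.log X with hl
  have hl16 : 16 ≤ l := by
    rw [hl, Real.le_log_iff_exp_le hXpos]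
    exact hX6
  have hl1 : 1 ≤ l := by linarith
  have hl0 : 0 < l := by linarith
  have hX1' : (1 : ℝ) ≤ X := by
    have := Real.add_one_le_exp (16 : ℝ)
    linarith
  set Q := ⌊l ^ c2⌋₊ with hQ
  set S : ℂ := ∑ n ∈ Icc 1 X, F n with hS
  have hSle : ‖S‖ ≤ X := by
    have := bq_le hFle X 0 0
    rwa [bq_zero] at this
  have hN3 : N ≤ 2 * X := by
    have h1 : Real.sqrt X ≤ X := by
      rw [Real.sqrt_le_left hXpos.le]
      nlinarith
    have h2 : (N : ℝ) ≤ 2 * X := by linarith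
    exact_mod_cast h2
  set K0 := K + 2 * c2 + 3 with hK0
  set K' := K + 2 * c2 + c5' + 3 with hK'
  set K'' := K + 2 * c2 + C + 1 with hK''
  have hKK : l ^ K0 ≤ l ^ K' := pow_le_pow_right₀ hl1 (by omega)
  have hQle : (Q : ℝ) ≤ l ^ c2 := Nat.floor_le (by positivity)
  have hpi : 0 < 1 / (2 * Real.pi) := by positivity
  have hpi1 : 1 / (2 * Real.pi) ≤ 1 := by
    rw [div_le_one (by positivity)]
    linarith [Real.pi_gt_three]
  -- the main terms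
  let mt : ℕ → ℕ → ℤ → ℂ := fun q b j => if j = 0 then
    ((1 / (2 * Real.pi) : ℝ) : ℂ) * (wq q * S) * ((2 * Real.pi : ℝ) * wq q * e (N * ((b : ℝ) / q))) else 0
  let tt : ℕ → ℕ → ℤ → ℂ := fun q b j => ((1 / (2 * Real.pi) : ℝ) : ℂ) * bq F X ((b : ℝ) / q) j * LT X N ((b : ℝ) / q) j
  have small : ∀ q ∈ Icc 1 Q, ∀ b ∈ cl q, ∀ j : ℤ, |(j : ℝ)| ≤ l ^ c5' →
      ‖tt q b j - mt q b j‖ ≤ X / l ^ K' + if j = 0 then 2 * (X / l ^ K0) else 0 := by
    intro q hq b hb j hj'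
    rw [mem_Icc] at hq
    unfold cl at hb
    rw [mem_filter, mem_range] at hb
    have hqX : (q : ℝ) ≤ l ^ c2 := le_trans (by exact_mod_cast hq.2) hQle
    have h1 := hLS X hX2 N hN1 hN2 q b hq.1 hqX hb.2.symm j hj'
    have h2 : ‖bq F X ((b : ℝ) / q) j‖ ≤ X := bq_le hFle X _ _
    have hw := wq_norm q hq.1
    by_cases hj0 : j = 0
    · simp only [tt, mt]
      rw [if_pos hj0] at h1 ⊢
      rw [if_pos hj0]
      have h3 := hBS q b hq.1 hqX hb.2.symm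
      rw [hj0] at h1 h2 ⊢
      have h4 : ‖bq F X ((b : ℝ) / q) 0 - wq q * S‖ ≤ X / l ^ K0 := by
        rw [bq_zero] at h3
        exact h3
      have h5 : ‖LT X N ((b : ℝ) / q) 0 - (2 * Real.pi : ℝ) * wq q * e (N * ((b : ℝ) / q))‖ ≤ 1 / l ^ K' := h1
      have h6 : ((1 / (2 * Real.pi) : ℝ) : ℂ) * bq F X ((b : ℝ) / q) 0 * LT X N ((b : ℝ) / q) 0 -
          ((1 / (2 * Real.pi) : ℝ) : ℂ) * (wq q * S) * ((2 * Real.pi : ℝ) * wq q * e (N * ((b : ℝ) / q))) =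
          ((1 / (2 * Real.pi) : ℝ) : ℂ) * (bq F X ((b : ℝ) / q) 0 * (LT X N ((b : ℝ) / q) 0 - (2 * Real.pi : ℝ) * wq q * e (N * ((b : ℝ) / q))) +
            (bq F X ((b : ℝ) / q) 0 - wq q * S) * ((2 * Real.pi : ℝ) * wq q * e (N * ((b : ℝ) / q)))) := by ring
      rw [h6, norm_mul, Complex.norm_real, Real.norm_eq_abs, abs_of_pos hpi]
      have h7 : ‖bq F X ((b : ℝ) / q) 0 * (LT X N ((b : ℝ) / q) 0 - (2 * Real.pi : ℝ) * wq q * e (N * ((b : ℝ) / q)))‖ ≤ X * (1 / l ^ K') := by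
        rw [norm_mul]
        exact mul_le_mul h2 h5 (norm_nonneg _) hXpos.le
      have h8 : ‖(bq F X ((b : ℝ) / q) 0 - wq q * S) * ((2 * Real.pi : ℝ) * wq q * e (N * ((b : ℝ) / q)))‖ ≤ X / l ^ K0 * (2 * Real.pi) := by
        rw [norm_mul]
        refine mul_le_mul h4 ?_ (norm_nonneg _) (by positivity)
        rw [norm_mul, norm_mul, norm_e', mul_one, Complex.norm_real, Real.norm_eq_abs, abs_of_pos (by positivity)]
        calc 2 * Real.pi * ‖wq q‖ ≤ 2 * Real.pi * 1 := by gcongr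
          _ = _ := mul_one _
      have h9 : 0 ≤ X / l ^ K' := by positivity
      have h10 : 0 ≤ X / l ^ K0 := by positivity
      calc 1 / (2 * Real.pi) * ‖_‖ ≤ 1 / (2 * Real.pi) * (X * (1 / l ^ K') + X / l ^ K0 * (2 * Real.pi)) := by
            refine mul_le_mul_of_nonneg_left ?_ hpi.le
            exact (norm_add_le _ _).trans (add_le_add h7 h8)
        _ = 1 / (2 * Real.pi) * (X / l ^ K') + X / l ^ K0 := by
            field_simp
        _ ≤ 1 * (X / l ^ K') + X / l ^ K0 := by gcongr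
        _ ≤ X / l ^ K' + 2 * (X / l ^ K0) := by linarith
    · simp only [tt, mt]
      rw [if_neg hj0] at h1 ⊢
      rw [if_neg hj0]
      rw [sub_zero] at h1 ⊢
      rw [norm_mul, norm_mul, Complex.norm_real, Real.norm_eq_abs, abs_of_pos hpi]
      calc 1 / (2 * Real.pi) * ‖bq F X ((b : ℝ) / q) j‖ * ‖LT X N ((b : ℝ) / q) j‖ ≤ 1 * X * (1 / l ^ K') := by gcongr
        _ = X / l ^ K' + 0 := by
          rw [one_mul, mul_one_div, add_zero]
  have large : ∀ q ∈ Icc 1 Q, ∀ b ∈ cl q, ∀ j ∈ J q, l ^ c5' < |(j : ℝ)| → ‖tt q b j - mt q b j‖ ≤ X / l ^ K'' := by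
    intro q hq b hb j hj hj2
    have hj0 : j ≠ 0 := by
      rintro rfl
      have h0 : (0 : ℝ) < l ^ c5' := by positivity
      rw [Int.cast_zero, abs_zero] at hj2
      exact absurd hj2 (not_lt.2 h0.le)
    simp only [tt, mt]
    rw [if_neg hj0, sub_zero, norm_mul, norm_mul, Complex.norm_real, Real.norm_eq_abs, abs_of_pos hpi]
    have h2 : ‖bq F X ((b : ℝ) / q) j‖ ≤ X := bq_le hFle X _ _
    have h3 : l ^ c ≤ |(j : ℝ)| := by
      have h6 : l ^ c ≤ l ^ c5' := pow_le_pow_right₀ hl1 hc5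
      linarith
    have h4 : |(j : ℝ)| ≤ X / l ^ c := by
      rw [mem_Icc] at hq
      have hqX : (q : ℝ) ≤ l ^ c2 := le_trans (by exact_mod_cast hq.2) hQle
      have h5 : |j| ≤ (T : ℤ) := (hJ q hq.1 hqX).2.1 j hj
      have h6 : ((|j| : ℤ) : ℝ) ≤ ((T : ℤ) : ℝ) := by exact_mod_cast h5
      rw [Int.cast_abs, Int.cast_natCast] at h6
      refine h6.trans (hT.trans ?_)
      exact div_le_div_of_nonneg_left hXpos.le (by positivity) (pow_le_pow_right₀ hl1 hc5)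
    have h5 := hLL X hX1 N hN1 hN3 j h3 h4 ((b : ℝ) / q)
    calc 1 / (2 * Real.pi) * ‖bq F X ((b : ℝ) / q) j‖ * ‖LT X N ((b : ℝ) / q) j‖ ≤ 1 * X * (1 / l ^ K'') := by gcongr
      _ = X / l ^ K'' := by rw [one_mul, mul_one_div]
  -- sums over j
  have sumj : ∀ q ∈ Icc 1 Q, ∀ b ∈ cl q, ‖∑ j ∈ J q, tt q b j -
      ((1 / (2 * Real.pi) : ℝ) : ℂ) * (wq q * S) * ((2 * Real.pi : ℝ) * wq q * e (N * ((b : ℝ) / q)))‖ ≤
        3 * l ^ c5' * (X / l ^ K') + 2 * (X / l ^ K0) + l ^ C * (X / l ^ K'') := by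
    intro q hq b hb
    have hq' := hq
    rw [mem_Icc] at hq'
    have hqX : (q : ℝ) ≤ l ^ c2 := le_trans (by exact_mod_cast hq'.2) hQle
    obtain ⟨h0, hJT, hJc⟩ := hJ q hq'.1 hqX
    have h1 : ∑ j ∈ J q, mt q b j =
        ((1 / (2 * Real.pi) : ℝ) : ℂ) * (wq q * S) * ((2 * Real.pi : ℝ) * wq q * e (N * ((b : ℝ) / q))) := by
      rw [sum_eq_single_of_mem 0 h0]
      · simp only [mt]
        rw [if_pos trivial]
      · intro j _ hj
        simp only [mt]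
        rw [if_neg hj]
    rw [← h1, ← sum_sub_distrib]
    refine (norm_sum_le _ _).trans ?_
    rw [← sum_filter_add_sum_filter_not (J q) (fun j : ℤ => l ^ c5' < |(j : ℝ)|), add_comm]
    refine add_le_add ?_ ?_
    · refine (sum_le_sum (fun j hj => small q hq b hb j (not_lt.1 (mem_filter.1 hj).2))).trans ?_
      rw [sum_add_distrib, sum_const, nsmul_eq_mul]
      refine add_le_add (mul_le_mul_of_nonneg_right ?_ (by positivity)) ?_
      · have h2 : ((J q).filter (fun j : ℤ => ¬ l ^ c5' < |(j : ℝ)|)) ⊆ Icc (-(⌊l ^ c5'⌋₊ : ℤ)) ⌊l ^ c5'⌋₊ := by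
          intro j hj
          rw [mem_filter] at hj
          rw [mem_Icc]
          apply abs_le.1
          have h3 := not_lt.1 hj.2
          have h4 : ((j.natAbs : ℕ) : ℝ) ≤ l ^ c5' := by
            rw [Nat.cast_natAbs, Int.cast_abs]
            exact h3
          have h5 : j.natAbs ≤ ⌊l ^ c5'⌋₊ := Nat.le_floor h4
          rw [Int.abs_eq_natAbs]
          exact_mod_cast h5
        have h3 := card_le_card h2
        rw [Int.card_Icc] at h3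
        have h4 : ((J q).filter (fun j : ℤ => ¬ l ^ c5' < |(j : ℝ)|)).card ≤ 2 * ⌊l ^ c5'⌋₊ + 1 := by omega
        have h5 : (((J q).filter (fun j : ℤ => ¬ l ^ c5' < |(j : ℝ)|)).card : ℝ) ≤ 2 * ⌊l ^ c5'⌋₊ + 1 := by exact_mod_cast h4
        have h6 : 1 ≤ l ^ c5' := one_le_pow₀ hl1
        have h7 : (⌊l ^ c5'⌋₊ : ℝ) ≤ l ^ c5' := Nat.floor_le (by positivity)
        linarith
      · rw [← sum_filter]
        have h2 : ((J q).filter (fun j : ℤ => ¬ l ^ c5' < |(j : ℝ)|)).filter (fun j => j = 0) ⊆ {0} := by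
          intro j hj
          rw [mem_filter] at hj
          rw [mem_singleton]
          exact hj.2
        have h3 := card_le_card h2
        rw [card_singleton] at h3
        rw [sum_const, nsmul_eq_mul]
        have h4 : ((((J q).filter (fun j : ℤ => ¬ l ^ c5' < |(j : ℝ)|)).filter (fun j => j = 0)).card : ℝ) ≤ 1 := by
          exact_mod_cast h3
        calc _ ≤ 1 * (2 * (X / l ^ K0)) := mul_le_mul_of_nonneg_right h4 (by positivity)
          _ = _ := one_mul _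
    · refine (sum_le_sum (fun j hj => large q hq b hb j (mem_filter.1 hj).1 (mem_filter.1 hj).2)).trans ?_
      rw [sum_const, nsmul_eq_mul]
      exact mul_le_mul_of_nonneg_right hJc (by positivity)
  have hcl : ∀ q ∈ Icc 1 Q, ((cl q).card : ℝ) ≤ l ^ c2 := by
    intro q hq
    rw [mem_Icc] at hq
    have h1 : (cl q).card ≤ q := by
      unfold cl
      refine (card_filter_le _ _).trans ?_
      rw [card_range]
    have h2 : (cl q).card ≤ Q := h1.trans hq.2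
    exact le_trans (by exact_mod_cast h2) hQle
  rw [mg_LT, sg_eq, ← sum_sub_distrib]
  set E : ℝ := 3 * l ^ c5' * (X / l ^ K') + 2 * (X / l ^ K0) + l ^ C * (X / l ^ K'') with hE
  have hE0 : 0 ≤ E := by positivity
  have tot : ‖∑ q ∈ Icc 1 Q, (∑ b ∈ cl q, ∑ j ∈ J q, ((1 / (2 * Real.pi) : ℝ) : ℂ) * bq F X ((b : ℝ) / q) j * LT X N ((b : ℝ) / q) j -
      ∑ b ∈ cl q, ((1 / (2 * Real.pi) : ℝ) : ℂ) * (wq q * S) * ((2 * Real.pi : ℝ) * wq q * e (N * ((b : ℝ) / q))))‖ ≤ l ^ c2 * (l ^ c2 * E) := by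
    refine (norm_sum_le _ _).trans ?_
    have h1 : ∀ q ∈ Icc 1 Q, ‖∑ b ∈ cl q, ∑ j ∈ J q, ((1 / (2 * Real.pi) : ℝ) : ℂ) * bq F X ((b : ℝ) / q) j * LT X N ((b : ℝ) / q) j -
      ∑ b ∈ cl q, ((1 / (2 * Real.pi) : ℝ) : ℂ) * (wq q * S) * ((2 * Real.pi : ℝ) * wq q * e (N * ((b : ℝ) / q)))‖ ≤ l ^ c2 * E := by
      intro q hq
      rw [← sum_sub_distrib]
      refine (norm_sum_le _ _).trans ((sum_le_sum (fun b hb => sumj q hq b hb)).trans ?_)
      rw [sum_const, nsmul_eq_mul]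
      exact mul_le_mul_of_nonneg_right (hcl q hq) hE0
    refine (sum_le_sum h1).trans ?_
    rw [sum_const, Nat.card_Icc, nsmul_eq_mul]
    refine mul_le_mul_of_nonneg_right ?_ (by positivity)
    rw [Nat.add_sub_cancel]
    exact hQle
  refine tot.trans ?_
  have h0 : l ^ K0 = l ^ K * (l ^ c2 * l ^ c2) * l ^ 3 := by
    rw [hK0]
    ring
  have h1 : l ^ K' = l ^ K * (l ^ c2 * l ^ c2) * l ^ c5' * l ^ 3 := by
    rw [hK']
    ring
  have h2 : l ^ K'' = l ^ K * (l ^ c2 * l ^ c2) * l ^ C * l := by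
    rw [hK'']
    ring
  have h3 : l ^ c2 * (l ^ c2 * E) = X / l ^ K * (5 / l ^ 3 + 1 / l) := by
    rw [hE, h0, h1, h2]
    have e1 : l ^ K ≠ 0 := by positivity
    have e2 : l ^ c2 ≠ 0 := by positivity
    have e3 : l ^ c5' ≠ 0 := by positivity
    have e4 : l ^ C ≠ 0 := by positivity
    generalize l ^ c5' = w at e3 ⊢
    generalize l ^ C = u at e4 ⊢
    field_simp
    ring
  rw [h3]
  have h4 : 5 / l ^ 3 + 1 / l ≤ 1 := by
    have h5 : 5 / l ^ 3 ≤ 5 / l := by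
      apply div_le_div_of_nonneg_left (by norm_num) hl0
      calc l = l ^ 1 := (pow_one l).symm
        _ ≤ l ^ 3 := pow_le_pow_right₀ hl1 (by norm_num)
    have h6 : 5 / l + 1 / l ≤ 1 := by
      rw [← add_div, div_le_one hl0]
      linarith
    linarith
  calc X / l ^ K * (5 / l ^ 3 + 1 / l) ≤ X / l ^ K * 1 := by gcongr
    _ = X / l ^ K := mul_one _

end Pool.Agent.Lib.G3
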