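import Pool.Agent.Lib.G3.G5Defs
import Pool.Agent.Lib.G3.MainG
import Pool.Agent.Lib.G3.Lam5

/-!
# G5, row MA, file Main5.lean (as MainG.lean, from `lam5`; all frequencies at most `(log X)^c5`)
-/

set_option autoImplicit false

open Finset

namespace Pool.Agent.Lib.G3

open Pool.Agent.Lib.MRT (cj kap norm_cj)
open Pool.Agent.Lib.GT (e)


private theorem mg_LT (F : ℕ → ℂ) (X Q N : ℕ) (J : ℕ → Finset ℤ) :
    ∑ n ∈ Icc 1 X, MG F X Q J n * ((lp (N - n) : ℝ) : ℂ) =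
      ∑ q ∈ Icc 1 Q, ∑ b ∈ cl q, ∑ j ∈ J q, ((1 / (2 * Real.pi) : ℝ) : ℂ) * bq F X ((b : ℝ) / q) j * LT X N ((b : ℝ) / q) j := by
  unfold MG
  simp_rw [sum_mul]
  rw [sum_comm]
  refine sum_congr rfl fun q _ => ?_
  rw [sum_comm]
  refine sum_congr rfl fun b _ => ?_
  exact mo_LT _ _ _ _ _

theorem main5 (K c2 c5 cB : ℕ) : ∃ x0 : ℝ, ∀ X : ℕ, x0 ≤ X →
    ∀ (F : ℕ → ℂ) (J : ℕ → Finset ℤ), (∀ n, ‖F n‖ ≤ 1) → (∀ q b : ℕ, 1 ≤ q → (q : ℝ) ≤ (Real.log X) ^ c2 → Nat.Coprime q b →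
      ‖bq F X ((b : ℝ) / q) 0 - ((ArithmeticFunction.moebius q : ℤ) : ℂ) / (q.totient : ℂ) * bq F X 0 0‖ ≤
        X / (Real.log X) ^ (K + 2 * c2 + 3)) →
    (∀ q : ℕ, 1 ≤ q → (q : ℝ) ≤ (Real.log X) ^ c2 → (0 : ℤ) ∈ J q ∧ ∀ j ∈ J q, |(j : ℝ)| ≤ (Real.log X) ^ c5) →
    ∀ N : ℕ, X < N → (N : ℝ) ≤ X * (Real.log X) ^ cB →
      ‖∑ n ∈ Icc 1 X, MG F X ⌊(Real.log X) ^ c2⌋₊ J n * ((lp (N - n) : ℝ) : ℂ) -
        ((sg ⌊(Real.log X) ^ c2⌋₊ N : ℝ) : ℂ) * ∑ n ∈ Icc 1 X, F n‖ ≤ X / (Real.log X) ^ K := by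
  obtain ⟨x2, hLS⟩ := lam5 (K + 2 * c2 + c5 + 3) c2 c5 cB
  refine ⟨max x2 (Real.exp 16), ?_⟩
  intro X hX F J hFle hBS hJ N hN1 hN2
  simp only [max_le_iff] at hX
  obtain ⟨hX2, hX6⟩ := hX
  have hXpos : (0 : ℝ) < X := lt_of_lt_of_le (Real.exp_pos _) hX6
  set l := Real.log X with hl
  have hl16 : 16 ≤ l := by
    rw [hl, Real.le_log_iff_exp_le hXpos]
    exact hX6
  have hl1 : 1 ≤ l := by linarith
  have hl0 : 0 < l := by linarith
  set Q := ⌊l ^ c2⌋₊ with hQ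
  set S : ℂ := ∑ n ∈ Icc 1 X, F n with hS
  set K0 := K + 2 * c2 + 3 with hK0
  set K' := K + 2 * c2 + c5 + 3 with hK'
  have hKK : l ^ K0 ≤ l ^ K' := pow_le_pow_right₀ hl1 (by omega)
  have hQle : (Q : ℝ) ≤ l ^ c2 := Nat.floor_le (by positivity)
  have hpi : 0 < 1 / (2 * Real.pi) := by positivity
  have hpi1 : 1 / (2 * Real.pi) ≤ 1 := by
    rw [div_le_one (by positivity)]
    linarith [Real.pi_gt_three]
  -- the main terms
  let mt : ℕ → ℕ → ℤ → ℂ := fun q b j => if j = 0 then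
    ((1 / (2 * Real.pi) : ℝ) : ℂ) * (wq q * S) * ((2 * Real.pi : ℝ) * wq q * e (N * ((b : ℝ) / q))) else 0
  let tt : ℕ → ℕ → ℤ → ℂ := fun q b j => ((1 / (2 * Real.pi) : ℝ) : ℂ) * bq F X ((b : ℝ) / q) j * LT X N ((b : ℝ) / q) j
  have small : ∀ q ∈ Icc 1 Q, ∀ b ∈ cl q, ∀ j : ℤ, |(j : ℝ)| ≤ l ^ c5 →
      ‖tt q b j - mt q b j‖ ≤ X / l ^ K' + if j = 0 then 2 * (X / l ^ K0) else 0 := by
    intro q hq b hb j hj'
    rw [mem_Icc] at hq
    unfold cl at hb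
    rw [mem_filter, mem_range] at hb
    have hqX : (q : ℝ) ≤ l ^ c2 := le_trans (by exact_mod_cast hq.2) hQle
    have h1 := hLS X hX2 N hN1 hN2 q b hq.1 hqX hb.2.symm j hj'
    have h2 : ‖bq F X ((b : ℝ) / q) j‖ ≤ X := bq_le hFle X _ _
    have hw := wq_norm q hq.1
    by_cases hj0 : j = 0
    · simp only [tt, mt]
      rw [if_pos hj0] at h1 ⊢
      rw [if_pos hj0]
      have h3 := hBS q b hq.1 hqX hb.2.symm
      rw [hj0] at h1 h2 ⊢
      have h4 : ‖bq F X ((b : ℝ) / q) 0 - wq q * S‖ ≤ X / l ^ K0 := by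
        rw [bq_zero] at h3
        exact h3
      have h5 : ‖LT X N ((b : ℝ) / q) 0 - (2 * Real.pi : ℝ) * wq q * e (N * ((b : ℝ) / q))‖ ≤ 1 / l ^ K' := h1
      have h6 : ((1 / (2 * Real.pi) : ℝ) : ℂ) * bq F X ((b : ℝ) / q) 0 * LT X N ((b : ℝ) / q) 0 -
          ((1 / (2 * Real.pi) : ℝ) : ℂ) * (wq q * S) * ((2 * Real.pi : ℝ) * wq q * e (N * ((b : ℝ) / q))) =
          ((1 / (2 * Real.pi) : ℝ) : ℂ) * (bq F X ((b : ℝ) / q) 0 * (LT X N ((b : ℝ) / q) 0 - (2 * Real.pi : ℝ) * wq q * e (N * ((b : ℝ) / q))) +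
            (bq F X ((b : ℝ) / q) 0 - wq q * S) * ((2 * Real.pi : ℝ) * wq q * e (N * ((b : ℝ) / q)))) := by ring
      rw [h6, norm_mul, Complex.norm_real, Real.norm_eq_abs, abs_of_pos hpi]
      have h7 : ‖bq F X ((b : ℝ) / q) 0 * (LT X N ((b : ℝ) / q) 0 - (2 * Real.pi : ℝ) * wq q * e (N * ((b : ℝ) / q)))‖ ≤ X * (1 / l ^ K') := by
        rw [norm_mul]
        exact mul_le_mul h2 h5 (norm_nonneg _) hXpos.le
      have h8 : ‖(bq F X ((b : ℝ) / q) 0 - wq q * S) * ((2 * Real.pi : ℝ) * wq q * e (N * ((b : ℝ) / q)))‖ ≤ X / l ^ K0 * (2 * Real.pi) := by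
        rw [norm_mul]
        refine mul_le_mul h4 ?_ (norm_nonneg _) (by positivity)
        rw [norm_mul, norm_mul, norm_e', mul_one, Complex.norm_real, Real.norm_eq_abs, abs_of_pos (by positivity)]
        calc 2 * Real.pi * ‖wq q‖ ≤ 2 * Real.pi * 1 := by gcongr
          _ = _ := mul_one _
      have h9 : 0 ≤ X / l ^ K' := by positivity
      have h10 : 0 ≤ X / l ^ K0 := by positivity
      calc 1 / (2 * Real.pi) * ‖_‖ ≤ 1 / (2 * Real.pi) * (X * (1 / l ^ K') + X / l ^ K0 * (2 * Real.pi)) := by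
            refine mul_le_mul_of_nonneg_left ?_ hpi.le
            exact (norm_add_le _ _).trans (add_le_add h7 h8)
        _ = 1 / (2 * Real.pi) * (X / l ^ K') + X / l ^ K0 := by
            field_simp
        _ ≤ 1 * (X / l ^ K') + X / l ^ K0 := by gcongr
        _ ≤ X / l ^ K' + 2 * (X / l ^ K0) := by linarith
    · simp only [tt, mt]
      rw [if_neg hj0] at h1 ⊢
      rw [if_neg hj0]
      rw [sub_zero] at h1 ⊢
      rw [norm_mul, norm_mul, Complex.norm_real, Real.norm_eq_abs, abs_of_pos hpi]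
      calc 1 / (2 * Real.pi) * ‖bq F X ((b : ℝ) / q) j‖ * ‖LT X N ((b : ℝ) / q) j‖ ≤ 1 * X * (1 / l ^ K') := by gcongr
        _ = X / l ^ K' + 0 := by
          rw [one_mul, mul_one_div, add_zero]
  -- sums over j
  have sumj : ∀ q ∈ Icc 1 Q, ∀ b ∈ cl q, ‖∑ j ∈ J q, tt q b j -
      ((1 / (2 * Real.pi) : ℝ) : ℂ) * (wq q * S) * ((2 * Real.pi : ℝ) * wq q * e (N * ((b : ℝ) / q)))‖ ≤
        3 * l ^ c5 * (X / l ^ K') + 2 * (X / l ^ K0) := by
    intro q hq b hb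
    have hq' := hq
    rw [mem_Icc] at hq'
    have hqX : (q : ℝ) ≤ l ^ c2 := le_trans (by exact_mod_cast hq'.2) hQle
    obtain ⟨h0, hJc⟩ := hJ q hq'.1 hqX
    have h1 : ∑ j ∈ J q, mt q b j =
        ((1 / (2 * Real.pi) : ℝ) : ℂ) * (wq q * S) * ((2 * Real.pi : ℝ) * wq q * e (N * ((b : ℝ) / q))) := by
      rw [sum_eq_single_of_mem 0 h0]
      · simp only [mt]
        rw [if_pos trivial]
      · intro j _ hj
        simp only [mt]
        rw [if_neg hj]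
    rw [← h1, ← sum_sub_distrib]
    refine (norm_sum_le _ _).trans ?_
    refine (sum_le_sum (fun j hj => small q hq b hb j (hJc j hj))).trans ?_
    rw [sum_add_distrib, sum_const, nsmul_eq_mul]
    refine add_le_add (mul_le_mul_of_nonneg_right ?_ (by positivity)) ?_
    · have h2 : J q ⊆ Icc (-(⌊l ^ c5⌋₊ : ℤ)) ⌊l ^ c5⌋₊ := by
        intro j hj
        rw [mem_Icc]
        apply abs_le.1
        have h3 := hJc j hj
        have h4 : ((j.natAbs : ℕ) : ℝ) ≤ l ^ c5 := by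
          rw [Nat.cast_natAbs, Int.cast_abs]
          exact h3
        have h5 : j.natAbs ≤ ⌊l ^ c5⌋₊ := Nat.le_floor h4
        rw [Int.abs_eq_natAbs]
        exact_mod_cast h5
      have h3 := card_le_card h2
      rw [Int.card_Icc] at h3
      have h4 : (J q).card ≤ 2 * ⌊l ^ c5⌋₊ + 1 := by omega
      have h5 : ((J q).card : ℝ) ≤ 2 * ⌊l ^ c5⌋₊ + 1 := by exact_mod_cast h4
      have h6 : 1 ≤ l ^ c5 := one_le_pow₀ hl1
      have h7 : (⌊l ^ c5⌋₊ : ℝ) ≤ l ^ c5 := Nat.floor_le (by positivity)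
      linarith
    · rw [← sum_filter]
      have h2 : (J q).filter (fun j => j = 0) ⊆ {0} := by
        intro j hj
        rw [mem_filter] at hj
        rw [mem_singleton]
        exact hj.2
      have h3 := card_le_card h2
      rw [card_singleton] at h3
      rw [sum_const, nsmul_eq_mul]
      have h4 : (((J q).filter (fun j => j = 0)).card : ℝ) ≤ 1 := by
        exact_mod_cast h3
      calc _ ≤ 1 * (2 * (X / l ^ K0)) := mul_le_mul_of_nonneg_right h4 (by positivity)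
        _ = _ := one_mul _
  have hcl : ∀ q ∈ Icc 1 Q, ((cl q).card : ℝ) ≤ l ^ c2 := by
    intro q hq
    rw [mem_Icc] at hq
    have h1 : (cl q).card ≤ q := by
      unfold cl
      refine (card_filter_le _ _).trans ?_
      rw [card_range]
    have h2 : (cl q).card ≤ Q := h1.trans hq.2
    exact le_trans (by exact_mod_cast h2) hQle
  rw [mg_LT, sg_eq, ← sum_sub_distrib]
  set E : ℝ := 3 * l ^ c5 * (X / l ^ K') + 2 * (X / l ^ K0) with hE
  have hE0 : 0 ≤ E := by positivity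
  have tot : ‖∑ q ∈ Icc 1 Q, (∑ b ∈ cl q, ∑ j ∈ J q, ((1 / (2 * Real.pi) : ℝ) : ℂ) * bq F X ((b : ℝ) / q) j * LT X N ((b : ℝ) / q) j -
      ∑ b ∈ cl q, ((1 / (2 * Real.pi) : ℝ) : ℂ) * (wq q * S) * ((2 * Real.pi : ℝ) * wq q * e (N * ((b : ℝ) / q))))‖ ≤ l ^ c2 * (l ^ c2 * E) := by
    refine (norm_sum_le _ _).trans ?_
    have h1 : ∀ q ∈ Icc 1 Q, ‖∑ b ∈ cl q, ∑ j ∈ J q, ((1 / (2 * Real.pi) : ℝ) : ℂ) * bq F X ((b : ℝ) / q) j * LT X N ((b : ℝ) / q) j -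
      ∑ b ∈ cl q, ((1 / (2 * Real.pi) : ℝ) : ℂ) * (wq q * S) * ((2 * Real.pi : ℝ) * wq q * e (N * ((b : ℝ) / q)))‖ ≤ l ^ c2 * E := by
      intro q hq
      rw [← sum_sub_distrib]
      refine (norm_sum_le _ _).trans ((sum_le_sum (fun b hb => sumj q hq b hb)).trans ?_)
      rw [sum_const, nsmul_eq_mul]
      exact mul_le_mul_of_nonneg_right (hcl q hq) hE0
    refine (sum_le_sum h1).trans ?_
    rw [sum_const, Nat.card_Icc, nsmul_eq_mul]
    refine mul_le_mul_of_nonneg_right ?_ (by positivity)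
    rw [Nat.add_sub_cancel]
    exact hQle
  refine tot.trans ?_
  have h0 : l ^ K0 = l ^ K * (l ^ c2 * l ^ c2) * l ^ 3 := by
    rw [hK0]
    ring
  have h1 : l ^ K' = l ^ K * (l ^ c2 * l ^ c2) * l ^ c5 * l ^ 3 := by
    rw [hK']
    ring
  have h3 : l ^ c2 * (l ^ c2 * E) = X / l ^ K * (5 / l ^ 3) := by
    rw [hE, h0, h1]
    have e1 : l ^ K ≠ 0 := by positivity
    have e2 : l ^ c2 ≠ 0 := by positivity
    have e3 : l ^ c5 ≠ 0 := by positivity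
    generalize l ^ c5 = w at e3 ⊢
    field_simp
    ring
  rw [h3]
  have h4 : 5 / l ^ 3 ≤ 1 := by
    rw [div_le_one (by positivity)]
    have h6 : l ^ 1 ≤ l ^ 3 := pow_le_pow_right₀ hl1 (by norm_num)
    rw [pow_one] at h6
    linarith
  calc X / l ^ K * (5 / l ^ 3) ≤ X / l ^ K * 1 := by gcongr
    _ = X / l ^ K := mul_one _

end Pool.Agent.Lib.G3
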