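import Pool.Agent.Lib.G3.G5Defs
import Pool.Agent.Lib.G3.Par2

/-!
# G5, row P5, file Par5.lean (as Par2.lean)
-/

set_option autoImplicit false

open Finset

namespace Pool.Agent.Lib.G3

open Pool.Agent.Lib.MRT (cj kap)
open Pool.Agent.Lib.GT (e)


theorem par5 (c1 cP : ℕ) (hc : 1 ≤ c1) : ∃ x0 : ℝ, 100 ≤ x0 ∧ ∀ (X P P' R : ℕ), x0 ≤ X → Par5 X P P' R c1 cP →
    1 ≤ P ∧ 2 * P' ≤ R ∧ (X : ℝ) ^ (99 / 100 : ℝ) ≤ R ∧ R ≤ X ∧ X ≤ 4 * (P * R) ∧ 2 * (P * R) ≤ X := by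
  have h1 : ∀ᶠ x : ℝ in Filter.atTop, ‖(Real.log x) ^ (cP : ℝ)‖ ≤ 1 / 64 * ‖x ^ (1 / 100 : ℝ)‖ :=
    (isLittleO_log_rpow_rpow_atTop (cP : ℝ) (by norm_num : (0 : ℝ) < 1 / 100)).def (by norm_num)
  obtain ⟨x1, hx1⟩ := Filter.eventually_atTop.1 h1
  refine ⟨max 100 x1, le_max_left _ _, ?_⟩
  intro X P P' R hX hp
  have hX100 : (100 : ℝ) ≤ X := le_trans (le_max_left _ _) hX
  have hXx1 : x1 ≤ (X : ℝ) := le_trans (le_max_right _ _) hX
  have hX0 : (0 : ℝ) < X := by linarith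
  have hX1 : (1 : ℝ) ≤ X := by linarith
  have hlog2 : (2 : ℝ) ≤ Real.log X := by
    rw [Real.le_log_iff_exp_le hX0]
    have h3 : Real.exp 2 = Real.exp 1 * Real.exp 1 := by
      rw [← Real.exp_add]
      norm_num
    have h4 := Real.exp_one_lt_d9
    have h5 := Real.exp_pos 1
    nlinarith
  set L : ℝ := (Real.log X) ^ cP with hL
  set y : ℝ := (X : ℝ) ^ (99 / 100 : ℝ) with hy
  set z : ℝ := (X : ℝ) ^ (1 / 100 : ℝ) with hz
  have hPge : (2 : ℝ) ≤ P := by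
    have h3 : (2 : ℝ) ^ c1 ≤ (Real.log X) ^ c1 := pow_le_pow_left₀ (by norm_num) hlog2 c1
    have h4 : (2 : ℝ) ^ 1 ≤ (2 : ℝ) ^ c1 := pow_le_pow_right₀ (by norm_num) (by omega)
    have h5 := hp.hP1
    linarith
  have hPle : (P : ℝ) ≤ L := hp.hP2
  have hL0 : 0 < L := by linarith
  have hLz : 64 * L ≤ z := by
    have h3 := hx1 X hXx1
    rw [Real.rpow_natCast, Real.norm_of_nonneg hL0.le, Real.norm_of_nonneg (by positivity)] at h3
    linarith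
  have hyz : y * z = X := by
    rw [hy, hz, ← Real.rpow_add hX0]
    norm_num
  have hzy : z ≤ y := Real.rpow_le_rpow_of_exponent_le hX1 (by norm_num)
  have hy0 : 0 < y := by positivity
  have hPN : 1 ≤ P := by
    have h3 : (1 : ℝ) ≤ P := by linarith
    exact_mod_cast h3
  have hP'N : 1 ≤ P' := hPN.trans hp.hPP
  have hP'2 : (P' : ℝ) ≤ 2 * P := by exact_mod_cast hp.hP'
  have hXe : X = 2 * (P' * R) := hp.hX
  have hXr : (X : ℝ) = 2 * (P' * R) := by exact_mod_cast hXe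
  have hR0 : (0 : ℝ) ≤ R := Nat.cast_nonneg R
  have hRy : 16 * y ≤ R := by
    have h3 : 64 * L * y ≤ X := by
      rw [← hyz]
      nlinarith
    have h4 : (X : ℝ) ≤ 4 * L * R := by
      rw [hXr]
      have h5 : (P' : ℝ) ≤ 2 * L := by linarith
      have h6 : (P' : ℝ) * R ≤ 2 * L * R := mul_le_mul_of_nonneg_right h5 hR0
      linarith
    have h5 : 4 * L * (16 * y) ≤ 4 * L * R := by linarith
    exact le_of_mul_le_mul_left h5 (by linarith)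
  refine ⟨hPN, ?_, by linarith, ?_, ?_, ?_⟩
  · have h3 : (2 : ℝ) * P' ≤ R := by linarith
    exact_mod_cast h3
  · rw [hXe]
    nlinarith
  · rw [hXe]
    have h3 : P' * R ≤ 2 * P * R := Nat.mul_le_mul_right R hp.hP'
    calc 2 * (P' * R) ≤ 2 * (2 * P * R) := Nat.mul_le_mul_left 2 h3
      _ = 4 * (P * R) := by ring
  · rw [hXe]
    exact Nat.mul_le_mul_left 2 (Nat.mul_le_mul_right R hp.hPP)

end Pool.Agent.Lib.G3
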