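import Pool.Agent.Lib.SW.VinoSum

/-!
# G3: sums of `gmin T (k α)` over `k ≤ P` (the lemma of Vinogradov with a constant level)
-/

set_option autoImplicit false

open Finset

namespace Pool.Agent.Lib.G3

open Pool.Agent.Lib.SW (nd gmin)

theorem gsum : ∃ C : ℝ, 0 < C ∧ ∀ (α T : ℝ) (a : ℤ) (q P : ℕ), 1 ≤ T → 1 ≤ q → IsCoprime a (q : ℤ) →
    |α - a / q| ≤ 1 / (q : ℝ) ^ 2 → 1 ≤ P →
      ∑ k ∈ Icc 1 P, gmin T (k * α) ≤ C * (T * P / q + P + q) * Real.log (2 * q * P) := by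
  obtain ⟨C, hC, hv⟩ := Pool.Agent.Lib.SW.vino_sum
  refine ⟨C, hC, ?_⟩
  intro α T a q P hT hq hc hα hP
  have hP1 : (1 : ℝ) ≤ P := by exact_mod_cast hP
  have hPX : (P : ℝ) ≤ T * P := by nlinarith
  refine le_trans (sum_le_sum fun k hk => ?_) (hv α (T * P) a q P hq hc hα hP hPX)
  rw [mem_Icc] at hk
  have hk1 : (1 : ℝ) ≤ k := by exact_mod_cast hk.1
  have hk2 : (k : ℝ) ≤ P := by exact_mod_cast hk.2
  apply Pool.Agent.Lib.SW.gmin_mono _ _ _ (by linarith)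
  rw [le_div_iff₀ (by linarith)]
  nlinarith

end Pool.Agent.Lib.G3
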