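import Pool.Agent.Lib.G3.Defs

/-!
# G3, row MIN: the local mean square of a bilinear convolution

`S = ∑_y |W(y)|²`, `W(y) = ∑_m b(m) ∑_p c(p) e(pmα) 1[y - H < pm ≤ y]`. Cauchy-Schwarz in `m` drops `b`; the dual form is a sum
over pairs `(y, p)`, `(y', p')` whose inner sum over `m` is a geometric sum of length at most `H / P + 1`, and for given
`y, p, p'` at most `3H` values of `y'` give a nonempty inner sum.
-/

set_option autoImplicit false

open Finset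

namespace Pool.Agent.Lib.G3

open Pool.Agent.Lib.GT (e norm_e e_add)
open Pool.Agent.Lib.SW (nd gmin gmin_nonneg gmin_le geom_le)

private theorem mi_conj (x : ℝ) : (starRingEnd ℂ) (e x) = e (-x) := by
  unfold Pool.Agent.Lib.GT.e
  rw [← Complex.exp_conj]
  congr 1
  simp only [map_mul, Complex.conj_I, Complex.conj_ofReal, Complex.conj_ofNat, Complex.ofReal_neg]
  ring

/-- the phase of `p m` on the window `(y - H, y]` -/
private noncomputable def zt (H : ℕ) (α : ℝ) (y p m : ℕ) : ℂ :=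
  if y - H < p * m ∧ p * m ≤ y then e ((p * m : ℕ) * α) else 0

/-- some `m` lies in both windows -/
private def Rl (H y p y' p' : ℕ) : Prop :=
  ∃ m, (y - H < p * m ∧ p * m ≤ y) ∧ (y' - H < p' * m ∧ p' * m ≤ y')

private theorem Rl_symm {H y p y' p' : ℕ} (h : Rl H y p y' p') : Rl H y' p' y p := by
  obtain ⟨m, h1, h2⟩ := h
  exact ⟨m, h2, h1⟩

private theorem mi_filter (M1 H y y' p p' : ℕ) (hp : 0 < p) (hp' : 0 < p') :
    (Icc 1 M1).filter (fun m => (y - H < p * m ∧ p * m ≤ y) ∧ (y' - H < p' * m ∧ p' * m ≤ y')) =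
      Ioc (max ((y - H) / p) ((y' - H) / p')) (min (min (y / p) (y' / p')) M1) := by
  ext m
  rw [mem_filter, mem_Icc, mem_Ioc, max_lt_iff, le_min_iff, le_min_iff, Nat.div_lt_iff_lt_mul hp,
    Nat.div_lt_iff_lt_mul hp', Nat.le_div_iff_mul_le hp, Nat.le_div_iff_mul_le hp', mul_comm p m,
    mul_comm p' m]
  constructor
  · rintro ⟨⟨h1, h2⟩, ⟨h3, h4⟩, h5, h6⟩
    exact ⟨⟨h3, h5⟩, ⟨h4, h6⟩, h2⟩
  · rintro ⟨⟨h3, h5⟩, ⟨h4, h6⟩, h2⟩
    refine ⟨⟨?_, h2⟩, ⟨h3, h4⟩, h5, h6⟩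
    rcases Nat.eq_zero_or_pos m with h | h
    · rw [h, Nat.zero_mul] at h3
      omega
    · exact h

private theorem mi_inner_aux {P H : ℕ} (hP : 1 ≤ P) (α : ℝ) (M1 y y' p p' : ℕ) (hp : P < p) (hp' : P < p')
    (h : p' ≤ p) :
    ‖∑ m ∈ Icc 1 M1, zt H α y p m * (starRingEnd ℂ) (zt H α y' p' m)‖ ≤
      gmin ((H : ℝ) / P + 1) ((Nat.dist p p' : ℕ) * α) := by
  have h1 : ∑ m ∈ Icc 1 M1, zt H α y p m * (starRingEnd ℂ) (zt H α y' p' m) =
      ∑ m ∈ (Icc 1 M1).filter (fun m => (y - H < p * m ∧ p * m ≤ y) ∧ (y' - H < p' * m ∧ p' * m ≤ y')),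
        e (m * ((p - p' : ℕ) * α)) := by
    rw [sum_filter]
    refine sum_congr rfl fun m _ => ?_
    unfold zt
    by_cases a : y - H < p * m ∧ p * m ≤ y
    · by_cases b : y' - H < p' * m ∧ p' * m ≤ y'
      · rw [if_pos a, if_pos b, if_pos ⟨a, b⟩, mi_conj, ← e_add]
        congr 1
        rw [Nat.cast_sub h]
        push_cast
        ring
      · have hn : ¬((y - H < p * m ∧ p * m ≤ y) ∧ (y' - H < p' * m ∧ p' * m ≤ y')) := fun h => b h.2
        rw [if_neg b, if_neg hn, map_zero, mul_zero]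
    · have hn : ¬((y - H < p * m ∧ p * m ≤ y) ∧ (y' - H < p' * m ∧ p' * m ≤ y')) := fun h => a h.1
      rw [if_neg a, if_neg hn, zero_mul]
  rw [h1, mi_filter M1 H y y' p p' (by omega) (by omega), Nat.dist_eq_sub_of_le_right h]
  set K1 := max ((y - H) / p) ((y' - H) / p') with hK1
  set K2 := min (min (y / p) (y' / p')) M1 with hK2
  have h2 : Ioc K1 K2 = Ioc K1 (max K1 K2) := by
    ext x
    rw [mem_Ioc, mem_Ioc]
    omega
  have hP0 : (0 : ℝ) < P := by exact_mod_cast hP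
  have hT : (0 : ℝ) ≤ (H : ℝ) / P := by positivity
  rw [h2]
  refine geom_le _ _ _ _ (le_max_left _ _) ?_
  rcases le_total K2 K1 with h3 | h3
  · rw [max_eq_left h3]
    linarith
  · rw [max_eq_right h3]
    have h4 : p * K2 ≤ y := by
      have h5 : K2 ≤ y / p := by omega
      calc p * K2 ≤ p * (y / p) := Nat.mul_le_mul_left _ h5
        _ ≤ y := Nat.mul_div_le y p
    have h5 : y - H < p * (K1 + 1) := by
      have h6 : (y - H) / p ≤ K1 := le_max_left _ _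
      calc y - H < p * ((y - H) / p + 1) := Nat.lt_mul_div_succ _ (by omega)
        _ ≤ p * (K1 + 1) := Nat.mul_le_mul_left _ (by omega)
    have h6 : p * K2 ≤ p * (K1 + 1) + H := by omega
    have h7 : (p : ℝ) * K2 ≤ p * (K1 + 1) + H := by exact_mod_cast h6
    rcases le_total ((K2 : ℝ) - K1 - 1) 0 with h8 | h8
    · linarith
    · have h9 : (P : ℝ) ≤ p := by exact_mod_cast hp.le
      have h10 : (P : ℝ) * ((K2 : ℝ) - K1 - 1) ≤ H := by
        calc (P : ℝ) * ((K2 : ℝ) - K1 - 1) ≤ p * ((K2 : ℝ) - K1 - 1) := mul_le_mul_of_nonneg_right h9 h8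
          _ ≤ H := by linarith
      have h11 : (K2 : ℝ) - K1 - 1 ≤ H / P := by
        rw [le_div_iff₀ hP0]
        linarith
      linarith

open Classical in
private theorem mi_inner {P H : ℕ} (hP : 1 ≤ P) (α : ℝ) (M1 y y' p p' : ℕ) (hp : P < p) (hp' : P < p') :
    ‖∑ m ∈ Icc 1 M1, zt H α y p m * (starRingEnd ℂ) (zt H α y' p' m)‖ ≤
      if Rl H y p y' p' then gmin ((H : ℝ) / P + 1) ((Nat.dist p p' : ℕ) * α) else 0 := by
  split_ifs with hR
  · rcases le_total p' p with h | h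
    · exact mi_inner_aux hP α M1 y y' p p' hp hp' h
    · have h3 := mi_inner_aux hP (H := H) α M1 y' y p' p hp' hp h
      rw [Nat.dist_comm]
      refine le_trans (le_of_eq ?_) h3
      rw [← Complex.norm_conj, map_sum]
      congr 1
      refine sum_congr rfl fun m _ => ?_
      rw [map_mul, Complex.conj_conj]
      ring
  · rw [sum_eq_zero, norm_zero]
    intro m _
    unfold zt
    by_cases a : y - H < p * m ∧ p * m ≤ y
    · by_cases b : y' - H < p' * m ∧ p' * m ≤ y'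
      · exact absurd ⟨m, a, b⟩ hR
      · rw [if_neg b, map_zero, mul_zero]
    · rw [if_neg a, zero_mul]

open Classical in
private theorem mi_count {P H : ℕ} (hH : 1 ≤ H) (Y y p p' : ℕ) (hp : P < p) (hp' : p' ≤ 2 * P) :
    (((range Y).filter fun y' => Rl H y p y' p').card : ℝ) ≤ 3 * H := by
  have key : ∀ y1 y2, Rl H y p y1 p' → Rl H y p y2 p' → y2 ≤ y1 + 3 * (H - 1) := by
    rintro y1 y2 ⟨m1, ⟨a1, a2⟩, a3, a4⟩ ⟨m2, ⟨b1, b2⟩, b3, b4⟩
    rcases le_total m2 m1 with h | h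
    · have h1 : p' * m2 ≤ p' * m1 := Nat.mul_le_mul_left _ h
      omega
    · obtain ⟨d, rfl⟩ := Nat.exists_eq_add_of_le h
      have h1 : p * d ≤ H - 1 := by
        rw [Nat.mul_add] at b2
        omega
      have h2 : p' * d ≤ 2 * (p * d) := by
        calc p' * d ≤ (2 * p) * d := Nat.mul_le_mul_right _ (by omega)
          _ = 2 * (p * d) := by ring
      rw [Nat.mul_add] at b3 b4
      omega
  have h1 : ((range Y).filter fun y' => Rl H y p y' p').card ≤ 3 * H := by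
    rcases ((range Y).filter fun y' => Rl H y p y' p').eq_empty_or_nonempty with h | h
    · rw [h, card_empty]
      omega
    · set a := ((range Y).filter fun y' => Rl H y p y' p').min' h with ha
      have h2 : ((range Y).filter fun y' => Rl H y p y' p') ⊆ Icc a (a + 3 * (H - 1)) := by
        intro x hx
        rw [mem_Icc]
        refine ⟨min'_le _ _ hx, ?_⟩
        have h3 := min'_mem _ h
        rw [← ha] at h3
        exact key a x (mem_filter.1 h3).2 (mem_filter.1 hx).2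
      refine (card_le_card h2).trans ?_
      rw [Nat.card_Icc]
      omega
  exact_mod_cast h1

private theorem mi_dist (g : ℕ → ℝ) (hg : ∀ h, 0 ≤ g h) (P p : ℕ) (hp1 : P < p) (hp2 : p ≤ 2 * P) :
    ∑ p' ∈ Ioc P (2 * P), g (Nat.dist p p') ≤ 2 * (g 0 + ∑ k ∈ Icc 1 P, g k) := by
  have h0 : ∀ s : Finset ℕ, (∀ x ∈ s, x ≤ P) → ∑ h ∈ s, g h ≤ g 0 + ∑ k ∈ Icc 1 P, g k := by
    intro s hs
    have h1 : g 0 + ∑ k ∈ Icc 1 P, g k = ∑ k ∈ Icc 0 P, g k := by
      rw [← Finset.add_sum_Ioc_eq_sum_Icc (Nat.zero_le P)]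
      rfl
    rw [h1]
    refine sum_le_sum_of_subset_of_nonneg ?_ fun i _ _ => hg i
    intro x hx
    rw [mem_Icc]
    exact ⟨Nat.zero_le _, hs x hx⟩
  have h1 : Ioc P (2 * P) = Ioc P p ∪ Ioc p (2 * P) := by
    ext x
    rw [mem_union, mem_Ioc, mem_Ioc, mem_Ioc]
    omega
  have h2 : Disjoint (Ioc P p) (Ioc p (2 * P)) := by
    rw [disjoint_left]
    intro x hx hx'
    rw [mem_Ioc] at hx hx'
    omega
  rw [h1, sum_union h2]
  have hA : ∑ x ∈ Ioc P p, g (Nat.dist p x) ≤ g 0 + ∑ k ∈ Icc 1 P, g k := by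
    rw [← sum_image (f := g) (g := fun x => Nat.dist p x) (s := Ioc P p)]
    · refine h0 _ fun x hx => ?_
      rw [mem_image] at hx
      obtain ⟨y, hy, rfl⟩ := hx
      rw [mem_Ioc] at hy
      rw [Nat.dist_eq_sub_of_le_right hy.2]
      omega
    · intro x hx y hy hxy
      simp only [coe_Ioc, Set.mem_Ioc] at hx hy
      simp only at hxy
      rw [Nat.dist_eq_sub_of_le_right hx.2, Nat.dist_eq_sub_of_le_right hy.2] at hxy
      omega
  have hB : ∑ x ∈ Ioc p (2 * P), g (Nat.dist p x) ≤ g 0 + ∑ k ∈ Icc 1 P, g k := by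
    rw [← sum_image (f := g) (g := fun x => Nat.dist p x) (s := Ioc p (2 * P))]
    · refine h0 _ fun x hx => ?_
      rw [mem_image] at hx
      obtain ⟨y, hy, rfl⟩ := hx
      rw [mem_Ioc] at hy
      rw [Nat.dist_eq_sub_of_le hy.1.le]
      omega
    · intro x hx y hy hxy
      simp only [coe_Ioc, Set.mem_Ioc] at hx hy
      simp only at hxy
      rw [Nat.dist_eq_sub_of_le hx.1.le, Nat.dist_eq_sub_of_le hy.1.le] at hxy
      omega
  linarith

theorem minor {P M1 H : ℕ} (hP : 1 ≤ P) (hH : 1 ≤ H) (c b F : ℕ → ℂ) {K : ℝ} (hc : ∀ n, ‖c n‖ ≤ 1) (hb : ∀ n, ‖b n‖ ≤ K)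
    (hF : ∀ n, F n = ∑ p ∈ Ioc P (2 * P), ∑ m ∈ Icc 1 M1, if p * m = n then c p * b m else 0) (α : ℝ) (Y : ℕ) :
    VV F H α Y ≤ 40 * K ^ 2 * M1 * H * P * ((H : ℝ) / P + 1 + ∑ k ∈ Icc 1 P, gmin ((H : ℝ) / P + 1) (k * α)) := by
  classical
  have hP0 : (0 : ℝ) < P := by exact_mod_cast hP
  set T : ℝ := (H : ℝ) / P + 1 with hT
  have hT0 : 0 ≤ T := by positivity
  set g : ℕ → ℝ := fun h => gmin T ((h : ℝ) * α) with hg
  have hg0 : ∀ h, 0 ≤ g h := fun h => gmin_nonneg _ _ hT0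
  have hgT : g 0 ≤ T := gmin_le _ _ hT0
  set W : ℕ → ℂ := fun y => WW F H α y with hW
  set S : ℝ := ∑ y ∈ range Y, ‖W y‖ ^ 2 with hS
  have hS0 : 0 ≤ S := sum_nonneg fun _ _ => sq_nonneg _
  have hK0 : 0 ≤ K := (norm_nonneg _).trans (hb 0)
  set L : ℝ := ∑ k ∈ Icc 1 P, g k with hL
  have hL0 : 0 ≤ L := sum_nonneg fun k _ => hg0 k
  show S ≤ 40 * K ^ 2 * M1 * H * P * (T + L)
  -- `W` as a bilinear sum
  have hWy : ∀ y, W y = ∑ m ∈ Icc 1 M1, b m * ∑ p ∈ Ioc P (2 * P), c p * zt H α y p m := by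
    intro y
    show ∑ n ∈ Ioc (y - H) y, F n * e (n * α) = _
    have h1 : ∀ n ∈ Ioc (y - H) y, F n * e (n * α) =
        ∑ m ∈ Icc 1 M1, ∑ p ∈ Ioc P (2 * P), if p * m = n then c p * b m * e ((p * m : ℕ) * α) else 0 := by
      intro n _
      rw [hF, sum_comm, sum_mul]
      refine sum_congr rfl fun m _ => ?_
      rw [sum_mul]
      refine sum_congr rfl fun p _ => ?_
      split_ifs with h
      · rw [h]
      · rw [zero_mul]
    rw [sum_congr rfl h1, sum_comm]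
    refine sum_congr rfl fun m _ => ?_
    rw [sum_comm, mul_sum]
    refine sum_congr rfl fun p _ => ?_
    rw [sum_ite_eq]
    unfold zt
    by_cases h : y - H < p * m ∧ p * m ≤ y
    · rw [if_pos (mem_Ioc.2 h), if_pos h]
      ring
    · rw [if_neg (fun h' => h (mem_Ioc.1 h')), if_neg h]
      ring
  set I : Finset (ℕ × ℕ) := range Y ×ˢ Ioc P (2 * P) with hI
  set G : ℕ → ℂ := fun m => ∑ i ∈ I, (starRingEnd ℂ) (W i.1) * (c i.2 * zt H α i.1 i.2 m) with hG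
  have hSG : ((S : ℝ) : ℂ) = ∑ m ∈ Icc 1 M1, b m * G m := by
    rw [hS, Complex.ofReal_sum]
    have h1 : ∀ y ∈ range Y, ((‖W y‖ ^ 2 : ℝ) : ℂ) =
        ∑ m ∈ Icc 1 M1, b m * ∑ p ∈ Ioc P (2 * P), (starRingEnd ℂ) (W y) * (c p * zt H α y p m) := by
      intro y _
      calc ((‖W y‖ ^ 2 : ℝ) : ℂ) = (starRingEnd ℂ) (W y) * W y := by
            rw [← Complex.normSq_eq_norm_sq, Complex.normSq_eq_conj_mul_self]
        _ = (starRingEnd ℂ) (W y) * ∑ m ∈ Icc 1 M1, b m * ∑ p ∈ Ioc P (2 * P), c p * zt H α y p m := by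
            rw [← hWy y]
        _ = _ := by
            rw [mul_sum]
            refine sum_congr rfl fun m _ => ?_
            rw [mul_left_comm, mul_sum]
    rw [sum_congr rfl h1, sum_comm]
    refine sum_congr rfl fun m _ => ?_
    rw [← mul_sum]
    congr 1
    rw [hG, hI]
    simp only
    rw [sum_product]
  have hC1 : S ^ 2 ≤ (K ^ 2 * M1) * ∑ m ∈ Icc 1 M1, ‖G m‖ ^ 2 := by
    have h1 : S ≤ ∑ m ∈ Icc 1 M1, ‖b m‖ * ‖G m‖ := by
      have h2 : S = ‖((S : ℝ) : ℂ)‖ := by rw [Complex.norm_real, Real.norm_of_nonneg hS0]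
      rw [h2, hSG]
      exact (norm_sum_le _ _).trans (le_of_eq (sum_congr rfl fun m _ => norm_mul _ _))
    calc S ^ 2 ≤ (∑ m ∈ Icc 1 M1, ‖b m‖ * ‖G m‖) ^ 2 := by gcongr
      _ ≤ (∑ m ∈ Icc 1 M1, ‖b m‖ ^ 2) * ∑ m ∈ Icc 1 M1, ‖G m‖ ^ 2 := sum_mul_sq_le_sq_mul_sq _ _ _
      _ ≤ (K ^ 2 * M1) * ∑ m ∈ Icc 1 M1, ‖G m‖ ^ 2 := by
        refine mul_le_mul_of_nonneg_right ?_ (sum_nonneg fun _ _ => sq_nonneg _)
        calc ∑ m ∈ Icc 1 M1, ‖b m‖ ^ 2 ≤ ∑ m ∈ Icc 1 M1, K ^ 2 :=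
              sum_le_sum fun m _ => pow_le_pow_left₀ (norm_nonneg _) (hb m) 2
          _ = K ^ 2 * M1 := by
              rw [sum_const, Nat.card_Icc, nsmul_eq_mul, Nat.add_sub_cancel, mul_comm]
  set D : ℕ × ℕ → ℕ × ℕ → ℝ := fun i j => if Rl H i.1 i.2 j.1 j.2 then g (Nat.dist i.2 j.2) else 0 with hD
  have hD0 : ∀ i j, 0 ≤ D i j := by
    intro i j
    rw [hD]
    simp only
    split_ifs
    · exact hg0 _
    · exact le_rfl
  have hDs : ∀ i j, D i j = D j i := by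
    intro i j
    rw [hD]
    simp only
    have h1 : Rl H i.1 i.2 j.1 j.2 ↔ Rl H j.1 j.2 i.1 i.2 := ⟨Rl_symm, Rl_symm⟩
    rw [Nat.dist_comm]
    simp only [h1]
  have hC2 : ∑ m ∈ Icc 1 M1, ‖G m‖ ^ 2 ≤ ∑ i ∈ I, ∑ j ∈ I, ‖W i.1‖ * ‖W j.1‖ * D i j := by
    have h1 : ((∑ m ∈ Icc 1 M1, ‖G m‖ ^ 2 : ℝ) : ℂ) =
        ∑ i ∈ I, ∑ j ∈ I, ((starRingEnd ℂ) (W i.1) * c i.2) * (W j.1 * (starRingEnd ℂ) (c j.2)) *
          ∑ m ∈ Icc 1 M1, zt H α i.1 i.2 m * (starRingEnd ℂ) (zt H α j.1 j.2 m) := by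
      rw [Complex.ofReal_sum]
      have h2 : ∀ m ∈ Icc 1 M1, ((‖G m‖ ^ 2 : ℝ) : ℂ) =
          ∑ i ∈ I, ∑ j ∈ I, ((starRingEnd ℂ) (W i.1) * c i.2) * (W j.1 * (starRingEnd ℂ) (c j.2)) *
            (zt H α i.1 i.2 m * (starRingEnd ℂ) (zt H α j.1 j.2 m)) := by
        intro m _
        rw [← Complex.normSq_eq_norm_sq, ← Complex.mul_conj, hG]
        simp only
        rw [map_sum, sum_mul_sum]
        refine sum_congr rfl fun i _ => sum_congr rfl fun j _ => ?_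
        rw [map_mul, map_mul, Complex.conj_conj]
        ring
      rw [sum_congr rfl h2, sum_comm]
      refine sum_congr rfl fun i _ => ?_
      rw [sum_comm]
      refine sum_congr rfl fun j _ => ?_
      rw [mul_sum]
    have h0 : 0 ≤ ∑ m ∈ Icc 1 M1, ‖G m‖ ^ 2 := sum_nonneg fun _ _ => sq_nonneg _
    rw [← Real.norm_of_nonneg h0, ← Complex.norm_real, h1]
    refine (norm_sum_le _ _).trans (sum_le_sum fun i hi => ?_)
    refine (norm_sum_le _ _).trans (sum_le_sum fun j hj => ?_)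
    rw [hI, mem_product, mem_Ioc] at hi hj
    rw [norm_mul, norm_mul, norm_mul, norm_mul, Complex.norm_conj, Complex.norm_conj]
    have h2 : ‖∑ m ∈ Icc 1 M1, zt H α i.1 i.2 m * (starRingEnd ℂ) (zt H α j.1 j.2 m)‖ ≤ D i j :=
      mi_inner hP α M1 i.1 j.1 i.2 j.2 hi.2.1 hj.2.1
    have h3 : ‖W i.1‖ * ‖c i.2‖ ≤ ‖W i.1‖ := mul_le_of_le_one_right (norm_nonneg _) (hc _)
    have h4 : ‖W j.1‖ * ‖c j.2‖ ≤ ‖W j.1‖ := mul_le_of_le_one_right (norm_nonneg _) (hc _)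
    exact mul_le_mul (mul_le_mul h3 h4 (by positivity) (norm_nonneg _)) h2 (norm_nonneg _) (by positivity)
  have hC3 : ∑ i ∈ I, ∑ j ∈ I, ‖W i.1‖ * ‖W j.1‖ * D i j ≤ ∑ i ∈ I, ∑ j ∈ I, ‖W i.1‖ ^ 2 * D i j := by
    have h1 : ∑ i ∈ I, ∑ j ∈ I, ‖W i.1‖ * ‖W j.1‖ * D i j ≤
        ∑ i ∈ I, ∑ j ∈ I, ((1 / 2) * (‖W i.1‖ ^ 2 * D i j) + (1 / 2) * (‖W j.1‖ ^ 2 * D i j)) := by
      refine sum_le_sum fun i _ => sum_le_sum fun j _ => ?_
      have h2 := hD0 i j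
      nlinarith [sq_nonneg (‖W i.1‖ - ‖W j.1‖)]
    have h2 : ∑ i ∈ I, ∑ j ∈ I, ‖W j.1‖ ^ 2 * D i j = ∑ i ∈ I, ∑ j ∈ I, ‖W i.1‖ ^ 2 * D i j := by
      rw [sum_comm]
      refine sum_congr rfl fun i _ => sum_congr rfl fun j _ => ?_
      rw [hDs]
    simp only [sum_add_distrib, ← mul_sum] at h1
    simp only [← mul_sum] at h2 ⊢
    linarith
  have hC4 : ∀ i ∈ I, ∑ j ∈ I, D i j ≤ 3 * H * (2 * (T + L)) := by
    intro i hi
    rw [hI, mem_product, mem_Ioc] at hi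
    have h1 : ∑ j ∈ I, D i j = ∑ p' ∈ Ioc P (2 * P), ∑ y' ∈ range Y, D i (y', p') := by
      rw [hI, sum_product, sum_comm]
    have h2 : ∀ p' ∈ Ioc P (2 * P), ∑ y' ∈ range Y, D i (y', p') ≤ 3 * H * g (Nat.dist i.2 p') := by
      intro p' hp'
      rw [mem_Ioc] at hp'
      have h3 : ∑ y' ∈ range Y, D i (y', p') =
          ((range Y).filter fun y' => Rl H i.1 i.2 y' p').card * g (Nat.dist i.2 p') := by
        rw [hD]
        simp only
        rw [← sum_filter, sum_const, nsmul_eq_mul]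
      rw [h3]
      exact mul_le_mul_of_nonneg_right (mi_count hH Y i.1 i.2 p' hi.2.1 hp'.2) (hg0 _)
    rw [h1]
    calc ∑ p' ∈ Ioc P (2 * P), ∑ y' ∈ range Y, D i (y', p') ≤ ∑ p' ∈ Ioc P (2 * P), 3 * H * g (Nat.dist i.2 p') :=
          sum_le_sum h2
      _ = 3 * H * ∑ p' ∈ Ioc P (2 * P), g (Nat.dist i.2 p') := by rw [mul_sum]
      _ ≤ 3 * H * (2 * (T + L)) := by
          refine mul_le_mul_of_nonneg_left ?_ (by positivity)
          refine (mi_dist g hg0 P i.2 hi.2.1 hi.2.2).trans ?_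
          linarith
  have hC5 : ∑ m ∈ Icc 1 M1, ‖G m‖ ^ 2 ≤ S * (P * (3 * H * (2 * (T + L)))) := by
    refine hC2.trans (hC3.trans ?_)
    calc ∑ i ∈ I, ∑ j ∈ I, ‖W i.1‖ ^ 2 * D i j = ∑ i ∈ I, ‖W i.1‖ ^ 2 * ∑ j ∈ I, D i j := by
          refine sum_congr rfl fun i _ => ?_
          rw [mul_sum]
      _ ≤ ∑ i ∈ I, ‖W i.1‖ ^ 2 * (3 * H * (2 * (T + L))) :=
          sum_le_sum fun i hi => mul_le_mul_of_nonneg_left (hC4 i hi) (sq_nonneg _)
      _ = S * (P * (3 * H * (2 * (T + L)))) := by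
          rw [← sum_mul, hI, sum_product]
          simp only [sum_const, Nat.card_Ioc, nsmul_eq_mul]
          rw [← mul_sum, ← hS, show 2 * P - P = P by omega]
          ring
  have hfin : S ^ 2 ≤ S * (K ^ 2 * M1 * (P * (3 * H * (2 * (T + L))))) := by
    calc S ^ 2 ≤ (K ^ 2 * M1) * ∑ m ∈ Icc 1 M1, ‖G m‖ ^ 2 := hC1
      _ ≤ (K ^ 2 * M1) * (S * (P * (3 * H * (2 * (T + L))))) :=
          mul_le_mul_of_nonneg_left hC5 (by positivity)
      _ = _ := by ring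
  have hB0 : 0 ≤ K ^ 2 * M1 * H * P * (T + L) := by positivity
  rcases hS0.lt_or_eq with h | h
  · have h1 : S ≤ K ^ 2 * M1 * (P * (3 * H * (2 * (T + L)))) := by
      have h2 : S * S ≤ S * (K ^ 2 * M1 * (P * (3 * H * (2 * (T + L))))) := by
        rw [← sq]
        exact hfin
      exact le_of_mul_le_mul_left h2 h
    calc S ≤ K ^ 2 * M1 * (P * (3 * H * (2 * (T + L)))) := h1
      _ = 6 * (K ^ 2 * M1 * H * P * (T + L)) := by ring
      _ ≤ 40 * (K ^ 2 * M1 * H * P * (T + L)) := by linarith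
      _ = _ := by ring
  · rw [← h]
    linarith

end Pool.Agent.Lib.G3
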