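import Pool.Agent.Lib.G3.G5Defs
import Pool.Agent.Lib.G3.MinF2
import Pool.Agent.Lib.G3.B5f
import Pool.Agent.Lib.G3.Minor
import Pool.Agent.Lib.G3.Gsum

/-!
# G5, row MI, file Min5.lean (as MinF2.lean, from `minor`, `gsum`, `b5_bil`)
-/

set_option autoImplicit false

open Finset

namespace Pool.Agent.Lib.G3

open Pool.Agent.Lib.MRT (cj kap)
open Pool.Agent.Lib.GT (e)
open Pool.Agent.Lib.SW (nd gmin)

theorem min5 : ∃ C : ℝ, 0 < C ∧ ∀ (X P P' R H q : ℕ) (a0 : ℤ) (α : ℝ) (Y : ℕ), 1 ≤ P → P' ≤ 2 * P → 2 * P' ≤ R → 2 * (P * R) ≤ X →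
    1 ≤ H → 1 ≤ q → IsCoprime a0 (q : ℤ) → |α - a0 / q| ≤ 1 / (q : ℝ) ^ 2 →
      VV (b5 P P' R) H α Y ≤ C * X * H * ((H : ℝ) / P + 1 + ((H : ℝ) / q + P + q + P / q) * Real.log (2 * q * P)) := by
  obtain ⟨C, hC, hg⟩ := gsum
  refine ⟨40 * (C + 1), by positivity, ?_⟩
  intro X P P' R H q a0 α Y hP hPP hR hX hH hq hco hα
  obtain ⟨c, b, hc, hb, hF⟩ := b5_bil hPP hR
  have h1 := minor hP hH c b (b5 P P' R) hc hb hF α Y
  have hP0 : (0 : ℝ) < P := by exact_mod_cast hP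
  have hq0 : (0 : ℝ) < q := by exact_mod_cast hq
  have hH0 : (0 : ℝ) < H := by exact_mod_cast hH
  have hT : (1 : ℝ) ≤ (H : ℝ) / P + 1 := by
    have : (0 : ℝ) ≤ (H : ℝ) / P := by positivity
    linarith
  have h2 := hg α ((H : ℝ) / P + 1) a0 q P hT hq hco hα hP
  have hl : 0 ≤ Real.log (2 * q * P) := by
    apply Real.log_nonneg
    have h1 : (1 : ℝ) ≤ q := by exact_mod_cast hq
    have h2 : (1 : ℝ) ≤ P := by exact_mod_cast hP
    nlinarith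
  refine h1.trans ?_
  have e1 : ((H : ℝ) / P + 1) * P / q + P + q = (H : ℝ) / q + P + q + P / q := by
    field_simp
    ring
  rw [e1] at h2
  have e2 : (40 : ℝ) * (1 : ℝ) ^ 2 * ((2 * R : ℕ) : ℝ) * H * P = 40 * ((2 : ℝ) * (P * R)) * H := by
    push_cast
    ring
  rw [e2]
  have hXr : (2 : ℝ) * (P * R) ≤ X := by exact_mod_cast hX
  have h3 : (H : ℝ) / P + 1 + ∑ k ∈ Icc 1 P, gmin ((H : ℝ) / P + 1) (k * α) ≤
      (C + 1) * ((H : ℝ) / P + 1 + ((H : ℝ) / q + P + q + P / q) * Real.log (2 * q * P)) := by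
    have h4 : 0 ≤ ((H : ℝ) / q + P + q + P / q) * Real.log (2 * q * P) := by positivity
    have h5 : 0 ≤ C * ((H : ℝ) / P + 1) := by positivity
    nlinarith
  have h6 : 0 ≤ (C + 1) * ((H : ℝ) / P + 1 + ((H : ℝ) / q + P + q + P / q) * Real.log (2 * q * P)) := by
    have h4 : 0 ≤ ((H : ℝ) / q + P + q + P / q) * Real.log (2 * q * P) := by positivity
    positivity
  calc 40 * ((2 : ℝ) * (P * R)) * H * ((H : ℝ) / P + 1 + ∑ k ∈ Icc 1 P, gmin ((H : ℝ) / P + 1) (k * α))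
      ≤ 40 * ((2 : ℝ) * (P * R)) * H * ((C + 1) * ((H : ℝ) / P + 1 + ((H : ℝ) / q + P + q + P / q) * Real.log (2 * q * P))) :=
        mul_le_mul_of_nonneg_left h3 (by positivity)
    _ ≤ 40 * (X : ℝ) * H * ((C + 1) * ((H : ℝ) / P + 1 + ((H : ℝ) / q + P + q + P / q) * Real.log (2 * q * P))) := by
        refine mul_le_mul_of_nonneg_right ?_ h6
        exact mul_le_mul_of_nonneg_right (mul_le_mul_of_nonneg_left hXr (by norm_num)) hH0.le
    _ = _ := by ring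

end Pool.Agent.Lib.G3
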