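import Pool.Agent.Lib.G3.G2Defs

/-!
# G2, row PP: prime powers are negligible
-/

set_option autoImplicit false

open Finset
open scoped ArithmeticFunction.vonMangoldt

namespace Pool.Agent.Lib.G3

open Pool.Agent.Lib.MRT (cj kap)
open Pool.Agent.Lib.GT (e)

private theorem pp_norm_cj (j : ℤ) (n : ℕ) : ‖cj j n‖ = 1 := by
  unfold cj
  exact Complex.norm_exp_ofReal_mul_I _

private theorem pp_term {q : ℕ} (χ : DirichletCharacter ℂ q) (j : ℤ) (k : ℕ) {c : ℝ} (hc : 0 ≤ c) :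
    ‖((c : ℝ) : ℂ) * χ (k : ZMod q) * cj j k‖ ≤ c := by
  rw [norm_mul, norm_mul, pp_norm_cj, mul_one, Complex.norm_real, Real.norm_of_nonneg hc]
  calc c * ‖χ (k : ZMod q)‖ ≤ c * 1 := mul_le_mul_of_nonneg_left (DirichletCharacter.norm_le_one χ _) hc
    _ = c := mul_one c

private theorem pp_diff {q : ℕ} (χ : DirichletCharacter ℂ q) (R : ℕ) (j : ℤ) :
    ‖RL χ R j - LK χ R (2 * R) j‖ ≤ ∑ k ∈ (Ioc 0 (2 * R)).filter fun k => ¬ k.Prime, Λ k := by
  have h1 : LK χ R (2 * R) j = RL χ R j +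
      ∑ k ∈ (Ioc R (2 * R)).filter (fun k => ¬ k.Prime), ((Λ k : ℝ) : ℂ) * χ (k : ZMod q) * cj j k := by
    unfold LK RL
    rw [← Finset.sum_filter_add_sum_filter_not (Ioc R (2 * R)) (fun k => k.Prime)]
    congr 1
    refine Finset.sum_congr rfl fun k hk => ?_
    have hp : k.Prime := (Finset.mem_filter.1 hk).2
    rw [ArithmeticFunction.vonMangoldt_apply_prime hp]
    unfold lp
    rw [if_pos hp]
  rw [h1, sub_add_cancel_left, norm_neg]
  refine (norm_sum_le _ _).trans ?_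
  refine (Finset.sum_le_sum fun k _ => pp_term χ j k ArithmeticFunction.vonMangoldt_nonneg).trans ?_
  refine Finset.sum_le_sum_of_subset_of_nonneg ?_ fun k _ _ => ArithmeticFunction.vonMangoldt_nonneg
  intro k hk
  rw [Finset.mem_filter, Finset.mem_Ioc] at hk ⊢
  exact ⟨⟨by omega, hk.1.2⟩, hk.2⟩

theorem ppow : ∃ x0 : ℝ, ∀ R : ℕ, x0 ≤ R → ∀ (q : ℕ) (χ : DirichletCharacter ℂ q) (j : ℤ),
    ‖RL χ R j - LK χ R (2 * R) j‖ ≤ (R : ℝ) ^ (3 / 5 : ℝ) := by
  have hl : (fun x : ℝ => Real.log x) =o[Filter.atTop] fun x : ℝ => x ^ (1 / 10 : ℝ) :=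
    isLittleO_log_rpow_atTop (by norm_num)
  have h2 := hl.def (c := 1 / 12) (by norm_num)
  obtain ⟨x1, hx1⟩ := Filter.eventually_atTop.1 h2
  refine ⟨max x1 2, fun R hR q χ j => ?_⟩
  have hR1 : x1 ≤ (R : ℝ) := (le_max_left _ _).trans hR
  have hR2 : (2 : ℝ) ≤ (R : ℝ) := (le_max_right _ _).trans hR
  have hR0 : (0 : ℝ) < R := by linarith
  have h3 := hx1 R hR1
  have hlog0 : 0 ≤ Real.log (R : ℝ) := Real.log_nonneg (by linarith)
  rw [Real.norm_of_nonneg hlog0, Real.norm_of_nonneg (by positivity)] at h3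
  have h4 := Chebyshev.psi_sub_theta_le (x := ((2 * R : ℕ) : ℝ)) (by push_cast; linarith)
  rw [Chebyshev.psi_sub_theta_eq_sum_not_prime, Nat.floor_natCast] at h4
  refine (pp_diff χ R j).trans (h4.trans ?_)
  have h5 : Real.log ((2 * R : ℕ) : ℝ) ≤ 2 * Real.log R := by
    push_cast
    rw [Real.log_mul (by norm_num) hR0.ne']
    have : Real.log 2 ≤ Real.log R := Real.log_le_log (by norm_num) hR2
    linarith
  have h6 : √((2 * R : ℕ) : ℝ) ≤ 2 * √(R : ℝ) := by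
    push_cast
    rw [Real.sqrt_mul (by norm_num)]
    have : √(2 : ℝ) ≤ 2 := by
      rw [Real.sqrt_le_left (by norm_num)]; norm_num
    exact mul_le_mul_of_nonneg_right this (Real.sqrt_nonneg _)
  have h7 : (R : ℝ) ^ (3 / 5 : ℝ) = √(R : ℝ) * (R : ℝ) ^ (1 / 10 : ℝ) := by
    rw [Real.sqrt_eq_rpow, ← Real.rpow_add hR0]
    norm_num
  have hs : 0 ≤ √(R : ℝ) := Real.sqrt_nonneg _
  calc 2 * √((2 * R : ℕ) : ℝ) * Real.log ((2 * R : ℕ) : ℝ)
      ≤ 2 * (2 * √(R : ℝ)) * (2 * Real.log R) := by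
        apply mul_le_mul (mul_le_mul_of_nonneg_left h6 (by norm_num)) h5 (Real.log_nonneg _) (by positivity)
        push_cast; linarith
    _ = √(R : ℝ) * (8 * Real.log R) := by ring
    _ ≤ √(R : ℝ) * (R : ℝ) ^ (1 / 10 : ℝ) := by
        apply mul_le_mul_of_nonneg_left _ hs
        linarith
    _ = (R : ℝ) ^ (3 / 5 : ℝ) := h7.symm

end Pool.Agent.Lib.G3
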