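import Pool.Agent.Lib.G3.G2Defs
import Pool.Agent.Lib.DN.ProgL

/-!
# G2, row SL: smooth sums with a character, saving of powers of `log X`, large frequencies

Split over the classes modulo `q`; `DN.prog_large` for every class.
-/

set_option autoImplicit false

open Finset

namespace Pool.Agent.Lib.G3

open Pool.Agent.Lib.MRT (cj kap)

private theorem sl_cj (j : ℤ) (n : ℕ) : cj j n = Pool.Agent.Lib.DN.nt (-(j : ℝ)) n := by
  unfold cj Pool.Agent.Lib.DN.nt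
  congr 1
  push_cast
  ring

theorem smL (A : ℕ) (β : ℝ) (hβ : 0 < β) : ∃ x0 : ℝ, ∀ X : ℕ, x0 ≤ X → ∀ (N N' q : ℕ) (χ : DirichletCharacter ℂ q) (j : ℤ),
    1 ≤ q → (q : ℝ) * (X : ℝ) ^ β ≤ N → N' ≤ 2 * N → (Real.log X) ^ (A + 3) ≤ |(j : ℝ)| → |(j : ℝ)| ≤ 2 * X →
      ‖∑ n ∈ Ioc N N', χ (n : ZMod q) * cj j n‖ ≤ N / (Real.log X) ^ A := by
  obtain ⟨x1, hx13, hx1⟩ := Pool.Agent.Lib.DN.prog_large A β hβ
  refine ⟨x1, fun X hX N N' q χ j hq hN hN' hj1 hj2 => ?_⟩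
  have hq0 : (0 : ℝ) < q := by exact_mod_cast hq
  have hlog : 0 < Real.log X := Real.log_pos (by linarith)
  have hsplit : ∑ n ∈ Ioc N N', χ (n : ZMod q) * cj j n =
      ∑ s ∈ range q, χ (s : ZMod q) * ∑ n ∈ (Ioc N N').filter (fun n => n % q = s), Pool.Agent.Lib.DN.nt (-(j : ℝ)) n := by
    rw [← sum_fiberwise_of_maps_to (s := Ioc N N') (t := range q) (g := fun n => n % q)
      (fun n _ => mem_range.2 (Nat.mod_lt _ hq))]
    refine sum_congr rfl fun s _ => ?_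
    rw [mul_sum]
    refine sum_congr rfl fun n hn => ?_
    rw [mem_filter] at hn
    rw [sl_cj, ← hn.2, ZMod.natCast_mod]
  rw [hsplit]
  calc ‖∑ s ∈ range q, χ (s : ZMod q) * ∑ n ∈ (Ioc N N').filter (fun n => n % q = s), Pool.Agent.Lib.DN.nt (-(j : ℝ)) n‖
      ≤ ∑ s ∈ range q, ‖χ (s : ZMod q) * ∑ n ∈ (Ioc N N').filter (fun n => n % q = s), Pool.Agent.Lib.DN.nt (-(j : ℝ)) n‖ :=
        norm_sum_le _ _
    _ ≤ ∑ s ∈ range q, (N : ℝ) / (q * (Real.log X) ^ A) := by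
        refine sum_le_sum fun s hs => ?_
        rw [norm_mul]
        have h1 := hx1 X hX (-(j : ℝ)) (by rwa [abs_neg]) (by rwa [abs_neg]) N N' q s hq (mem_range.1 hs) hN hN'
        calc _ ≤ 1 * ‖∑ n ∈ (Ioc N N').filter (fun n => n % q = s), Pool.Agent.Lib.DN.nt (-(j : ℝ)) n‖ :=
              mul_le_mul_of_nonneg_right (DirichletCharacter.norm_le_one χ _) (norm_nonneg _)
          _ ≤ _ := by rw [one_mul]; exact h1
    _ = N / (Real.log X) ^ A := by
        rw [sum_const, card_range, nsmul_eq_mul]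
        field_simp

end Pool.Agent.Lib.G3
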