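import Pool.Agent.Lib.G3.Sdt

/-!
# The second derivative test (van der Corput)
-/

set_option autoImplicit false

namespace Pool.Agent.Lib.G3

open Finset Complex

/-- the second difference is a value of the second derivative -/
theorem second_diff (f f1 f2 : ℝ → ℝ) (x : ℝ)
    (hf : ∀ y ∈ Set.Icc x (x + 2), HasDerivAt f (f1 y) y) (hf1 : ∀ y ∈ Set.Icc x (x + 2), HasDerivAt f1 (f2 y) y) :
    ∃ z ∈ Set.Icc x (x + 2), f (x + 2) - 2 * f (x + 1) + f x = f2 z := by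
  -- first step
  obtain ⟨y, hy, hy'⟩ := exists_hasDerivAt_eq_slope (fun y => f (y + 1) - f y) (fun y => f1 (y + 1) - f1 y)
    (by linarith : x < x + 1)
    (by
      intro y hy
      have a1 := hf y ⟨hy.1, by linarith [hy.2]⟩
      have a2 := hf (y + 1) ⟨by linarith [hy.1], by linarith [hy.2]⟩
      have a3 : HasDerivAt (fun y => f (y + 1)) (f1 (y + 1)) y := a2.comp_add_const y 1
      exact (a3.sub a1).continuousAt.continuousWithinAt)
    (by
      intro y hy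
      have a1 := hf y ⟨hy.1.le, by linarith [hy.2]⟩
      have a2 := hf (y + 1) ⟨by linarith [hy.1], by linarith [hy.2]⟩
      have a3 : HasDerivAt (fun y => f (y + 1)) (f1 (y + 1)) y := a2.comp_add_const y 1
      exact a3.sub a1)
  obtain ⟨z, hz, hz'⟩ := exists_hasDerivAt_eq_slope f1 f2 (by linarith : y < y + 1)
    (by
      intro z hz
      exact (hf1 z ⟨by linarith [hz.1, hy.1], by linarith [hz.2, hy.2]⟩).continuousAt.continuousWithinAt)
    (by
      intro z hz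
      exact hf1 z ⟨by linarith [hz.1, hy.1], by linarith [hz.2, hy.2]⟩)
  refine ⟨z, ⟨by linarith [hz.1, hy.1], by linarith [hz.2, hy.2]⟩, ?_⟩
  rw [hz', show y + 1 - y = 1 by ring, div_one, hy', show x + 1 - x = 1 by ring, div_one,
    show x + 1 + 1 = x + 2 by ring]
  ring

/-- **The second derivative test**, positive second derivative -/
theorem sdt_deriv (f f1 f2 : ℝ → ℝ) (x0 : ℝ) (N : ℕ) (lam C : ℝ) (hl : 0 < lam) (hC : 1 ≤ C)
    (hf : ∀ y ∈ Set.Icc x0 (x0 + N), HasDerivAt f (f1 y) y)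
    (hf1 : ∀ y ∈ Set.Icc x0 (x0 + N), HasDerivAt f1 (f2 y) y)
    (h1 : ∀ y ∈ Set.Icc x0 (x0 + N), lam ≤ f2 y) (h2 : ∀ y ∈ Set.Icc x0 (x0 + N), f2 y ≤ C * lam) :
    ‖∑ n ∈ range N, Complex.exp (I * (f (x0 + n) : ℂ))‖ ≤ 63 * (C * N * Real.sqrt lam + 1 / Real.sqrt lam) := by
  have key : ∀ n : ℕ, n + 1 < N → ∃ z ∈ Set.Icc x0 (x0 + N),
      f (x0 + (n + 2 : ℕ)) - 2 * f (x0 + (n + 1 : ℕ)) + f (x0 + n) = f2 z := by
    intro n hn
    have hn' : (n : ℝ) + 2 ≤ N := by exact_mod_cast (by omega : n + 2 ≤ N)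
    have hn0 : (0 : ℝ) ≤ n := Nat.cast_nonneg _
    have hsub : ∀ y ∈ Set.Icc (x0 + n) (x0 + n + 2), y ∈ Set.Icc x0 (x0 + N) := by
      intro y hy
      exact ⟨by linarith [hy.1], by linarith [hy.2]⟩
    obtain ⟨z, hz, hz'⟩ := second_diff f f1 f2 (x0 + n) (fun y hy => hf y (hsub y hy)) (fun y hy => hf1 y (hsub y hy))
    refine ⟨z, hsub z hz, ?_⟩
    rw [← hz']
    push_cast
    rw [show x0 + ((n : ℝ) + 2) = x0 + n + 2 by ring, show x0 + ((n : ℝ) + 1) = x0 + n + 1 by ring]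
  refine sdt (fun n => f (x0 + n)) N lam C hl hC (fun n hn => ?_) (fun n hn => ?_)
  · obtain ⟨z, hz, hz'⟩ := key n hn
    rw [hz']
    exact h1 z hz
  · obtain ⟨z, hz, hz'⟩ := key n hn
    rw [hz']
    exact h2 z hz

/-- negating the phase -/
theorem sum_neg_phase (f : ℕ → ℝ) (N : ℕ) :
    ‖∑ n ∈ range N, Complex.exp (I * ((-(f n) : ℝ) : ℂ))‖ = ‖∑ n ∈ range N, Complex.exp (I * (f n : ℂ))‖ := by
  have : ∑ n ∈ range N, Complex.exp (I * ((-(f n) : ℝ) : ℂ)) =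
      (starRingEnd ℂ) (∑ n ∈ range N, Complex.exp (I * (f n : ℂ))) := by
    rw [map_sum]
    refine Finset.sum_congr rfl fun n _ => ?_
    rw [← Complex.exp_conj]
    simp
  rw [this, RCLike.norm_conj]

/-- **The second derivative test**, either sign of the second derivative -/
theorem sdt_deriv_abs (f f1 f2 : ℝ → ℝ) (x0 : ℝ) (N : ℕ) (lam C : ℝ) (hl : 0 < lam) (hC : 1 ≤ C)
    (hf : ∀ y ∈ Set.Icc x0 (x0 + N), HasDerivAt f (f1 y) y)
    (hf1 : ∀ y ∈ Set.Icc x0 (x0 + N), HasDerivAt f1 (f2 y) y)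
    (h : (∀ y ∈ Set.Icc x0 (x0 + N), lam ≤ f2 y ∧ f2 y ≤ C * lam) ∨
      (∀ y ∈ Set.Icc x0 (x0 + N), lam ≤ -f2 y ∧ -f2 y ≤ C * lam)) :
    ‖∑ n ∈ range N, Complex.exp (I * (f (x0 + n) : ℂ))‖ ≤ 63 * (C * N * Real.sqrt lam + 1 / Real.sqrt lam) := by
  rcases h with h | h
  · exact sdt_deriv f f1 f2 x0 N lam C hl hC hf hf1 (fun y hy => (h y hy).1) (fun y hy => (h y hy).2)
  · have := sdt_deriv (fun y => -f y) (fun y => -f1 y) (fun y => -f2 y) x0 N lam C hl hC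
      (fun y hy => (hf y hy).neg) (fun y hy => (hf1 y hy).neg) (fun y hy => (h y hy).1) (fun y hy => (h y hy).2)
    have e := sum_neg_phase (fun n => f (x0 + n)) N
    rw [← e]
    exact this

end Pool.Agent.Lib.G3
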