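import Pool.Agent.Lib.G3.Defs
import Pool.Agent.Lib.G3.SdtD
import Pool.Agent.Lib.DN.ProgS

/-!
# G3 (k = 2), row SP: `∑ χ(n) n^(-ij)` over an interval, with a power saving
-/

set_option autoImplicit false

open Finset

namespace Pool.Agent.Lib.G3

open Pool.Agent.Lib.MRT (cj kap)
open Pool.Agent.Lib.GT (e)

private theorem smP_cj (j : ℤ) (n : ℕ) : cj j n = Pool.Agent.Lib.DN.nt (-(j : ℝ)) n := by
  unfold cj Pool.Agent.Lib.DN.nt
  congr 1
  push_cast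
  ring

private theorem smP_GG (t x : ℝ) (ht : t ≠ 0) (hx : 0 ≤ x) : ‖Pool.Agent.Lib.DN.GG t x‖ ≤ x / |t| := by
  unfold Pool.Agent.Lib.DN.GG
  have h1 : ‖Complex.exp (Complex.I * (t * Real.log x))‖ = 1 := by
    rw [mul_comm, ← Complex.ofReal_mul, Complex.norm_exp_ofReal_mul_I]
  have h2 : |t| ≤ ‖(1 + Complex.I * t : ℂ)‖ := by
    have := Complex.abs_im_le_norm (1 + Complex.I * t : ℂ)
    simpa using this
  rw [norm_div, norm_mul, h1, mul_one, Complex.norm_real, Real.norm_eq_abs, abs_of_nonneg hx]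
  exact div_le_div_of_nonneg_left hx (abs_pos.2 ht) h2

private theorem smP_small {M N q s : ℕ} {j : ℤ} (hq : 1 ≤ q) (hs : s < q) (hM : 2 * q ≤ M) (hMN : M ≤ N)
    (hN : N ≤ 2 * M) (hj : j ≠ 0) :
    ‖∑ m ∈ (Ioc M N).filter (fun n => n % q = s), cj j m‖ ≤ 3 * (M / (q * |(j : ℝ)|)) + 4 * (1 + |(j : ℝ)|) := by
  have hjr : (-(j : ℝ)) ≠ 0 := by
    rw [neg_ne_zero]
    exact_mod_cast hj
  have hja : 0 < |(j : ℝ)| := by
    rw [abs_pos]
    exact_mod_cast hj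
  have hqr : (0 : ℝ) < q := by exact_mod_cast hq
  have h := Pool.Agent.Lib.DN.prog_small (-(j : ℝ)) M N q s hq hs hM hMN (by omega)
  rw [abs_neg] at h
  have h1 := smP_GG (-(j : ℝ)) (N : ℝ) hjr (Nat.cast_nonneg _)
  have h2 := smP_GG (-(j : ℝ)) (M : ℝ) hjr (Nat.cast_nonneg _)
  rw [abs_neg] at h1 h2
  rw [sum_congr rfl fun m _ => smP_cj j m]
  have h3 : ∑ m ∈ (Ioc M N).filter (fun n => n % q = s), Pool.Agent.Lib.DN.nt (-(j : ℝ)) m =
      (∑ m ∈ (Ioc M N).filter (fun n => n % q = s), Pool.Agent.Lib.DN.nt (-(j : ℝ)) m -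
        (Pool.Agent.Lib.DN.GG (-(j : ℝ)) N - Pool.Agent.Lib.DN.GG (-(j : ℝ)) M) / q) +
        (Pool.Agent.Lib.DN.GG (-(j : ℝ)) N - Pool.Agent.Lib.DN.GG (-(j : ℝ)) M) / q := by ring
  have h4 : (N : ℝ) / |(j : ℝ)| ≤ 2 * (M / |(j : ℝ)|) := by
    rw [← mul_div_assoc]
    exact div_le_div_of_nonneg_right (by exact_mod_cast hN) hja.le
  rw [h3]
  refine (norm_add_le _ _).trans ?_
  have h5 := norm_sub_le (Pool.Agent.Lib.DN.GG (-(j : ℝ)) N) (Pool.Agent.Lib.DN.GG (-(j : ℝ)) M)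
  have h6 : ‖(Pool.Agent.Lib.DN.GG (-(j : ℝ)) N - Pool.Agent.Lib.DN.GG (-(j : ℝ)) M) / (q : ℂ)‖ ≤
      3 * (M / |(j : ℝ)|) / q := by
    rw [norm_div, Complex.norm_natCast]
    exact div_le_div_of_nonneg_right (by linarith) hqr.le
  have h7 : 3 * ((M : ℝ) / |(j : ℝ)|) / q = 3 * (M / (q * |(j : ℝ)|)) := by
    field_simp
  rw [h7] at h6
  linarith

private theorem smP_reindex {M N q s : ℕ} (hq : 1 ≤ q) (hs : s < q) (hMN : M ≤ N) (F : ℕ → ℂ) :
    ∃ n0 L : ℕ, M < n0 ∧ n0 + q * L ≤ N + q ∧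
      ∑ m ∈ (Ioc M N).filter (fun n => n % q = s), F m = ∑ i ∈ range L, F (n0 + q * i) := by
  obtain ⟨n0, h1, h2, h3⟩ : ∃ n0, M < n0 ∧ n0 ≤ M + q ∧ n0 % q = s := by
    have ha := Nat.div_add_mod M q
    have hb : M % q < q := Nat.mod_lt _ hq
    by_cases hc : M % q < s
    · refine ⟨q * (M / q) + s, by omega, by omega, ?_⟩
      rw [Nat.mul_add_mod, Nat.mod_eq_of_lt hs]
    · refine ⟨q * (M / q + 1) + s, ?_, ?_, ?_⟩
      · rw [mul_add, mul_one]
        omega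
      · rw [mul_add, mul_one]
        omega
      · rw [Nat.mul_add_mod, Nat.mod_eq_of_lt hs]
  refine ⟨n0, (N + q - n0) / q, h1, ?_, ?_⟩
  · have := Nat.mul_div_le (N + q - n0) q
    omega
  · symm
    refine sum_bij (fun i _ => n0 + q * i) ?_ ?_ ?_ ?_
    · intro i hi
      rw [mem_range, Nat.lt_iff_add_one_le, Nat.le_div_iff_mul_le (by omega)] at hi
      rw [mem_filter, mem_Ioc]
      have h4 : (i + 1) * q = q * i + q := by ring
      rw [h4] at hi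
      refine ⟨⟨by omega, by omega⟩, ?_⟩
      rw [Nat.add_mul_mod_self_left, h3]
    · intro i _ i' _ h
      have h4 : q * i = q * i' := by omega
      exact Nat.eq_of_mul_eq_mul_left (by omega) h4
    · intro n hn
      rw [mem_filter, mem_Ioc] at hn
      obtain ⟨⟨a1, a2⟩, a3⟩ := hn
      have b1 := Nat.div_add_mod n q
      have b2 := Nat.div_add_mod n0 q
      rw [a3] at b1
      rw [h3] at b2
      have b3 : n0 / q ≤ n / q := by
        by_contra hcon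
        have c1 : n / q + 1 ≤ n0 / q := by omega
        have c2 : q * (n / q + 1) ≤ q * (n0 / q) := Nat.mul_le_mul_left q c1
        rw [mul_add, mul_one] at c2
        omega
      have b4 : q * (n / q - n0 / q) = q * (n / q) - q * (n0 / q) := Nat.mul_sub q _ _
      have b5 : q * (n0 / q) ≤ q * (n / q) := Nat.mul_le_mul_left q b3
      refine ⟨n / q - n0 / q, ?_, ?_⟩
      · rw [mem_range, Nat.lt_iff_add_one_le, Nat.le_div_iff_mul_le (by omega)]
        have h4 : (n / q - n0 / q + 1) * q = q * (n / q - n0 / q) + q := by ring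
        rw [h4, b4]
        omega
      · rw [b4]
        omega
    · intro i _
      rfl

private theorem smP_large {M N q s : ℕ} {j : ℤ} (hq : 1 ≤ q) (hs : s < q) (hM : 2 * q ≤ M) (hMN : M ≤ N)
    (hN : N ≤ 2 * M) (hj : j ≠ 0) :
    ‖∑ m ∈ (Ioc M N).filter (fun n => n % q = s), cj j m‖ ≤
      300 * (M / Real.sqrt |(j : ℝ)| + Real.sqrt |(j : ℝ)|) := by
  obtain ⟨n0, L, h1, h2, h3⟩ := smP_reindex (s := s) hq hs hMN (fun m => cj j m)
  rw [h3]
  have hja : 0 < |(j : ℝ)| := by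
    rw [abs_pos]
    exact_mod_cast hj
  have hqr : (1 : ℝ) ≤ q := by exact_mod_cast hq
  have hMq : (2 : ℝ) * q ≤ M := by exact_mod_cast hM
  have hMr : (0 : ℝ) < M := by linarith
  have hNr : (N : ℝ) ≤ 2 * M := by exact_mod_cast hN
  have hn0 : (M : ℝ) ≤ n0 := by exact_mod_cast h1.le
  have hn0' : (0 : ℝ) < n0 := by linarith
  have hL : (n0 : ℝ) + q * L ≤ N + q := by exact_mod_cast h2
  have hL0 : (0 : ℝ) ≤ L := Nat.cast_nonneg _
  have hsum : ∑ i ∈ range L, cj j (n0 + q * i) =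
      ∑ n ∈ range L, Complex.exp (Complex.I * ((-(j : ℝ) * Real.log ((n0 : ℝ) + q * (0 + (n : ℝ))) : ℝ) : ℂ)) := by
    refine sum_congr rfl fun n _ => ?_
    unfold cj
    rw [mul_comm, zero_add]
    push_cast
    rfl
  rw [hsum]
  have hsq : Real.sqrt (|(j : ℝ)| * q ^ 2 / (3 * M) ^ 2) = Real.sqrt |(j : ℝ)| * q / (3 * M) := by
    rw [Real.sqrt_div (by positivity), Real.sqrt_sq (by positivity), Real.sqrt_mul hja.le, Real.sqrt_sq (by positivity)]
  have h := sdt_deriv_abs (fun y => -(j : ℝ) * Real.log ((n0 : ℝ) + q * y))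
    (fun y => -(j : ℝ) * (q / ((n0 : ℝ) + q * y))) (fun y => (j : ℝ) * q ^ 2 / ((n0 : ℝ) + q * y) ^ 2)
    (0 : ℝ) L (|(j : ℝ)| * q ^ 2 / (3 * M) ^ 2) 9 (by positivity) (by norm_num) ?_ ?_ ?_
  · rw [hsq] at h
    refine h.trans ?_
    have hs : 0 < Real.sqrt |(j : ℝ)| := Real.sqrt_pos.2 hja
    have hq0 : (0 : ℝ) < q := by linarith
    have hK2 : (q : ℝ) * L ≤ 3 / 2 * M := by linarith
    have h4 : 9 * (L : ℝ) * (Real.sqrt |(j : ℝ)| * q / (3 * M)) ≤ 9 / 2 * Real.sqrt |(j : ℝ)| := by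
      rw [← mul_div_assoc, div_le_iff₀ (by positivity)]
      have h5 : Real.sqrt |(j : ℝ)| * (q * L) ≤ Real.sqrt |(j : ℝ)| * (3 / 2 * M) :=
        mul_le_mul_of_nonneg_left hK2 hs.le
      nlinarith
    have h5 : 1 / (Real.sqrt |(j : ℝ)| * q / (3 * M)) = 3 * (M / Real.sqrt |(j : ℝ)|) / q := by
      field_simp
    have h6 : 3 * ((M : ℝ) / Real.sqrt |(j : ℝ)|) / q ≤ 3 * (M / Real.sqrt |(j : ℝ)|) :=
      div_le_self (by positivity) hqr
    rw [h5]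
    have h7 : 0 ≤ (M : ℝ) / Real.sqrt |(j : ℝ)| := by positivity
    linarith
  · intro y hy
    have hy0 : (0 : ℝ) < (n0 : ℝ) + q * y := by
      have := hy.1
      positivity
    have h4 : HasDerivAt (fun y : ℝ => (n0 : ℝ) + q * y) q y := by
      have := ((hasDerivAt_id y).const_mul (q : ℝ)).const_add (n0 : ℝ)
      simpa using this
    have h5 := (h4.log hy0.ne').const_mul (-(j : ℝ))
    exact h5
  · intro y hy
    have hy0 : (0 : ℝ) < (n0 : ℝ) + q * y := by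
      have := hy.1
      positivity
    have h4 : HasDerivAt (fun y : ℝ => (n0 : ℝ) + q * y) q y := by
      have := ((hasDerivAt_id y).const_mul (q : ℝ)).const_add (n0 : ℝ)
      simpa using this
    have h5 := ((h4.inv hy0.ne').const_mul (q : ℝ)).const_mul (-(j : ℝ))
    have h6 : (j : ℝ) * q ^ 2 / ((n0 : ℝ) + q * y) ^ 2 = -(j : ℝ) * (q * (-(q : ℝ) / ((n0 : ℝ) + q * y) ^ 2)) := by
      ring
    rw [h6]
    exact h5
  · have hb : ∀ y ∈ Set.Icc (0 : ℝ) (0 + L), 0 < (n0 : ℝ) + q * y ∧ (M : ℝ) ^ 2 ≤ ((n0 : ℝ) + q * y) ^ 2 ∧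
        ((n0 : ℝ) + q * y) ^ 2 ≤ (3 * M) ^ 2 := by
      intro y hy
      have hy0 : 0 ≤ y := hy.1
      have hy1 : y ≤ L := by
        have := hy.2
        linarith
      have h4 : 0 ≤ (q : ℝ) * y := by positivity
      have h5 : (q : ℝ) * y ≤ q * L := mul_le_mul_of_nonneg_left hy1 (by linarith)
      refine ⟨by linarith, ?_, ?_⟩
      · exact pow_le_pow_left₀ (by linarith) (by linarith) 2
      · exact pow_le_pow_left₀ (by linarith) (by linarith) 2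
    have h9 : ∀ y ∈ Set.Icc (0 : ℝ) (0 + L), |(j : ℝ)| * q ^ 2 / (3 * M) ^ 2 ≤ |(j : ℝ)| * q ^ 2 / ((n0 : ℝ) + q * y) ^ 2 ∧
        |(j : ℝ)| * q ^ 2 / ((n0 : ℝ) + q * y) ^ 2 ≤ 9 * (|(j : ℝ)| * q ^ 2 / (3 * M) ^ 2) := by
      intro y hy
      obtain ⟨a1, a2, a3⟩ := hb y hy
      refine ⟨div_le_div_of_nonneg_left (by positivity) (by positivity) a3, ?_⟩
      have : 9 * (|(j : ℝ)| * q ^ 2 / (3 * M) ^ 2) = |(j : ℝ)| * q ^ 2 / (M : ℝ) ^ 2 := by
        field_simp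
        ring
      rw [this]
      exact div_le_div_of_nonneg_left (by positivity) (by positivity) a2
    rcases le_total 0 (j : ℝ) with h0 | h0
    · left
      intro y hy
      have := h9 y hy
      rwa [abs_of_nonneg h0] at this ⊢
    · right
      intro y hy
      have := h9 y hy
      rw [abs_of_nonpos h0] at this ⊢
      have h10 : -((j : ℝ) * q ^ 2 / ((n0 : ℝ) + q * y) ^ 2) = -(j : ℝ) * q ^ 2 / ((n0 : ℝ) + q * y) ^ 2 := by
        ring
      rw [h10]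
      exact this

private theorem smP_class {M N q s : ℕ} {j : ℤ} (hq : 1 ≤ q) (hs : s < q) (hM : 2 * q ≤ M) (hMN : M ≤ N)
    (hN : N ≤ 2 * M) (hj : j ≠ 0) :
    ‖∑ m ∈ (Ioc M N).filter (fun n => n % q = s), cj j m‖ ≤
      300 * (M / (q * |(j : ℝ)|) + (M : ℝ) ^ (3 / 4 : ℝ) + Real.sqrt |(j : ℝ)|) := by
  have hMr : (1 : ℝ) ≤ M := by exact_mod_cast (by omega : 1 ≤ M)
  have hja : 0 < |(j : ℝ)| := by
    rw [abs_pos]
    exact_mod_cast hj
  have hj1 : 1 ≤ |(j : ℝ)| := by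
    have : (1 : ℤ) ≤ |j| := Int.one_le_abs hj
    exact_mod_cast this
  have hA : 0 ≤ (M : ℝ) / (q * |(j : ℝ)|) := by positivity
  have hB : 1 ≤ (M : ℝ) ^ (3 / 4 : ℝ) := Real.one_le_rpow hMr (by norm_num)
  have hD : 0 ≤ Real.sqrt |(j : ℝ)| := Real.sqrt_nonneg _
  rcases le_or_gt |(j : ℝ)| (Real.sqrt M) with h3 | h3
  · have h4 := smP_small hq hs hM hMN hN hj
    have h5 : Real.sqrt M ≤ (M : ℝ) ^ (3 / 4 : ℝ) := by
      rw [Real.sqrt_eq_rpow]
      exact Real.rpow_le_rpow_of_exponent_le hMr (by norm_num)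
    linarith
  · have h4 := smP_large hq hs hM hMN hN hj
    have h5 : (M : ℝ) / Real.sqrt |(j : ℝ)| ≤ (M : ℝ) ^ (3 / 4 : ℝ) := by
      have h6 : (M : ℝ) ^ (1 / 4 : ℝ) ≤ Real.sqrt |(j : ℝ)| := by
        have h7 : (M : ℝ) ^ (1 / 4 : ℝ) = Real.sqrt (Real.sqrt M) := by
          rw [Real.sqrt_eq_rpow, Real.sqrt_eq_rpow, ← Real.rpow_mul (by linarith)]
          norm_num
        rw [h7]
        exact Real.sqrt_le_sqrt h3.le
      have h8 : 0 < (M : ℝ) ^ (1 / 4 : ℝ) := Real.rpow_pos_of_pos (by linarith) _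
      rw [div_le_iff₀ (h8.trans_le h6)]
      calc (M : ℝ) = (M : ℝ) ^ (3 / 4 : ℝ) * (M : ℝ) ^ (1 / 4 : ℝ) := by
            rw [← Real.rpow_add (by linarith)]
            norm_num
        _ ≤ _ := mul_le_mul_of_nonneg_left h6 (by positivity)
    linarith

/-- Row SP -/
theorem smP : ∃ C : ℝ, 0 < C ∧ ∀ (N N' q : ℕ) (χ : DirichletCharacter ℂ q) (j : ℤ), 1 ≤ q → 2 * q ≤ N → N ≤ N' → N' ≤ 2 * N → j ≠ 0 →
    ‖∑ n ∈ Ioc N N', χ (n : ZMod q) * cj j n‖ ≤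
      C * (N / |(j : ℝ)| + q * (N : ℝ) ^ (3 / 4 : ℝ) + q * Real.sqrt |(j : ℝ)|) := by
  refine ⟨300, by norm_num, ?_⟩
  intro N N' q χ j hq hqN hNN hN' hj
  have hja : 0 < |(j : ℝ)| := by
    rw [abs_pos]
    exact_mod_cast hj
  have hqr : (0 : ℝ) < q := by exact_mod_cast hq
  have hmaps : ∀ n ∈ Ioc N N', n % q ∈ range q := fun n _ => mem_range.2 (Nat.mod_lt _ hq)
  rw [← sum_fiberwise_of_maps_to hmaps]
  have hfib : ∀ s ∈ range q, ‖∑ n ∈ (Ioc N N').filter (fun n => n % q = s), χ (n : ZMod q) * cj j n‖ ≤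
      300 * (N / (q * |(j : ℝ)|) + (N : ℝ) ^ (3 / 4 : ℝ) + Real.sqrt |(j : ℝ)|) := by
    intro s hs
    have h1 : ∑ n ∈ (Ioc N N').filter (fun n => n % q = s), χ (n : ZMod q) * cj j n =
        χ (s : ZMod q) * ∑ n ∈ (Ioc N N').filter (fun n => n % q = s), cj j n := by
      rw [mul_sum]
      refine sum_congr rfl fun n hn => ?_
      rw [mem_filter] at hn
      have h2 : (n : ZMod q) = (s : ZMod q) := by
        rw [← hn.2, ZMod.natCast_mod]
      rw [h2]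
    rw [h1, norm_mul]
    have h3 := smP_class hq (mem_range.1 hs) hqN hNN hN' hj
    have h4 : ‖χ (s : ZMod q)‖ ≤ 1 := DirichletCharacter.norm_le_one χ _
    calc ‖χ (s : ZMod q)‖ * ‖∑ n ∈ (Ioc N N').filter (fun n => n % q = s), cj j n‖
        ≤ 1 * ‖∑ n ∈ (Ioc N N').filter (fun n => n % q = s), cj j n‖ :=
          mul_le_mul_of_nonneg_right h4 (norm_nonneg _)
      _ ≤ _ := by rw [one_mul]; exact h3
  refine (norm_sum_le _ _).trans ((sum_le_sum hfib).trans ?_)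
  rw [sum_const, card_range, nsmul_eq_mul]
  have h5 : (q : ℝ) * (300 * (N / (q * |(j : ℝ)|) + (N : ℝ) ^ (3 / 4 : ℝ) + Real.sqrt |(j : ℝ)|)) =
      300 * (N / |(j : ℝ)| + q * (N : ℝ) ^ (3 / 4 : ℝ) + q * Real.sqrt |(j : ℝ)|) := by
    field_simp
  rw [h5]

end Pool.Agent.Lib.G3
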