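import Pool.Agent.Lib.G3.G2Defs
import Pool.Agent.Lib.G3.SmP
import Mathlib.Analysis.SpecialFunctions.Pow.Asymptotics

/-!
# G2, row T1: Type I sums with a sharp cutoff

For `m ≤ M1 ≤ X^(46/100) + 1` the inner variable runs over `(R/m, 2R/m]`, `R/m ≥ X^(52/100)`: `smP` on intervals and
Abel summation for the monotone weight `g`; the sum over `m` costs `(log X)^2`; then the square is summed over `j`.
-/

set_option autoImplicit false

open Finset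

namespace Pool.Agent.Lib.G3

open Pool.Agent.Lib.MRT (cj norm_cj cj_mul)

/-- Abel summation for a monotone weight -/
private theorem T1_abel (a : ℕ → ℂ) (g : ℕ → ℝ) (N N' : ℕ) {G M : ℝ} (hM0 : 0 ≤ M)
    (hM : ∀ K, N ≤ K → K ≤ N' → ‖∑ n ∈ Ioc N K, a n‖ ≤ M) (hg0 : ∀ n, 0 ≤ g n)
    (hg : ∀ m n, 1 ≤ m → m ≤ n → g m ≤ g n) (hG : ∀ n, n ≤ N' → g n ≤ G) :
    ‖∑ n ∈ Ioc N N', ((g n : ℝ) : ℂ) * a n‖ ≤ 2 * G * M := by
  have hG0 : 0 ≤ G := (hg0 0).trans (hG 0 (Nat.zero_le _))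
  rcases Nat.lt_or_ge N N' with h | h
  · have key : ∀ K, N + 1 ≤ K → K ≤ N' →
        ‖∑ n ∈ Ioc N K, ((g n : ℝ) : ℂ) * a n - ((g K : ℝ) : ℂ) * ∑ n ∈ Ioc N K, a n‖ ≤
          (g K - g (N + 1)) * M := by
      intro K hK
      induction K, hK using Nat.le_induction with
      | base =>
        intro _
        rw [Nat.Ioc_succ_singleton, sum_singleton, sum_singleton, sub_self, norm_zero, sub_self, zero_mul]
      | succ K hK ih =>
        intro hK'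
        have h1 := ih (by omega)
        rw [sum_Ioc_succ_top (by omega), sum_Ioc_succ_top (by omega)]
        have h2 : ∑ n ∈ Ioc N K, ((g n : ℝ) : ℂ) * a n + ((g (K + 1) : ℝ) : ℂ) * a (K + 1) -
            ((g (K + 1) : ℝ) : ℂ) * (∑ n ∈ Ioc N K, a n + a (K + 1)) =
            (∑ n ∈ Ioc N K, ((g n : ℝ) : ℂ) * a n - ((g K : ℝ) : ℂ) * ∑ n ∈ Ioc N K, a n) -
              ((g (K + 1) - g K : ℝ) : ℂ) * ∑ n ∈ Ioc N K, a n := by
          push_cast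
          ring
        rw [h2]
        refine (norm_sub_le _ _).trans ?_
        have h3 : 0 ≤ g (K + 1) - g K := sub_nonneg.2 (hg _ _ (by omega) (by omega))
        have h4 : ‖((g (K + 1) - g K : ℝ) : ℂ) * ∑ n ∈ Ioc N K, a n‖ ≤ (g (K + 1) - g K) * M := by
          rw [norm_mul, Complex.norm_real, Real.norm_of_nonneg h3]
          exact mul_le_mul_of_nonneg_left (hM K (by omega) (by omega)) h3
        linarith
    have h1 := key N' h le_rfl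
    have h2 : ‖((g N' : ℝ) : ℂ) * ∑ n ∈ Ioc N N', a n‖ ≤ g N' * M := by
      rw [norm_mul, Complex.norm_real, Real.norm_of_nonneg (hg0 _)]
      exact mul_le_mul_of_nonneg_left (hM N' h.le le_rfl) (hg0 _)
    have h3 : ∑ n ∈ Ioc N N', ((g n : ℝ) : ℂ) * a n =
        (∑ n ∈ Ioc N N', ((g n : ℝ) : ℂ) * a n - ((g N' : ℝ) : ℂ) * ∑ n ∈ Ioc N N', a n) +
          ((g N' : ℝ) : ℂ) * ∑ n ∈ Ioc N N', a n := by ring
    rw [h3]
    refine (norm_add_le _ _).trans ?_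
    have h4 : g N' * M ≤ G * M := mul_le_mul_of_nonneg_right (hG N' le_rfl) hM0
    have h5 : 0 ≤ g (N + 1) * M := mul_nonneg (hg0 _) hM0
    linarith
  · rw [Ioc_eq_empty_of_le h, sum_empty, norm_zero]
    positivity

/-- the sum of `1 / j^2` over integers with `|j| ≥ T0` -/
private theorem T1_sq (U : Finset ℤ) {T0 : ℝ} (hT : 1 ≤ T0) (hU : ∀ j ∈ U, T0 ≤ |(j : ℝ)|) :
    ∑ j ∈ U, 1 / (j : ℝ) ^ 2 ≤ 4 / T0 := by
  set n := ⌈T0⌉₊ with hn
  have hTn : T0 ≤ n := Nat.le_ceil T0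
  have hn1 : 1 ≤ n := by
    have : (1 : ℝ) ≤ n := hT.trans hTn
    exact_mod_cast this
  set L := U.sup Int.natAbs with hL
  have hmaps : ∀ j ∈ U, j.natAbs ∈ Ioo (n - 1) (L + 1) := by
    intro j hj
    rw [mem_Ioo]
    constructor
    · have h1 : n ≤ j.natAbs := by
        rw [hn, Nat.ceil_le]
        have h2 := hU j hj
        rwa [← Int.cast_abs, ← Nat.cast_natAbs] at h2
      omega
    · have h1 : j.natAbs ≤ L := le_sup (f := Int.natAbs) hj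
      omega
  rw [← sum_fiberwise_of_maps_to hmaps]
  have h1 : ∀ k ∈ Ioo (n - 1) (L + 1), ∑ j ∈ U.filter (fun j => j.natAbs = k), 1 / (j : ℝ) ^ 2 ≤
      2 * ((k : ℝ) ^ 2)⁻¹ := by
    intro k _
    have h2 : ∑ j ∈ U.filter (fun j => j.natAbs = k), 1 / (j : ℝ) ^ 2 =
        ∑ j ∈ U.filter (fun j => j.natAbs = k), ((k : ℝ) ^ 2)⁻¹ := by
      refine sum_congr rfl fun j hj => ?_
      have h3 := (mem_filter.1 hj).2
      rw [one_div]
      congr 1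
      have h4 : ((j.natAbs : ℕ) : ℝ) = |(j : ℝ)| := by
        rw [Nat.cast_natAbs, Int.cast_abs]
      rw [← sq_abs (j : ℝ), ← h4, h3]
    rw [h2, sum_const, nsmul_eq_mul]
    refine mul_le_mul_of_nonneg_right ?_ (by positivity)
    have h3 : (U.filter (fun j => j.natAbs = k)).card ≤ 2 := by
      have h4 : U.filter (fun j => j.natAbs = k) ⊆ {(k : ℤ), -(k : ℤ)} := by
        intro j hj
        have h5 := (mem_filter.1 hj).2
        rw [mem_insert, mem_singleton]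
        omega
      exact (card_le_card h4).trans card_le_two
    exact_mod_cast h3
  refine (sum_le_sum h1).trans ?_
  rw [← mul_sum]
  have h2 := sum_Ioo_inv_sq_le (α := ℝ) (n - 1) (L + 1)
  have h3 : ((n - 1 : ℕ) : ℝ) + 1 = n := by
    rw [Nat.cast_sub hn1]
    push_cast
    ring
  rw [h3] at h2
  have hT0 : 0 < T0 := by linarith
  calc 2 * ∑ i ∈ Ioo (n - 1) (L + 1), ((i : ℝ) ^ 2)⁻¹ ≤ 2 * (2 / n) := by linarith
    _ ≤ 2 * (2 / T0) := by gcongr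
    _ = 4 / T0 := by ring

/-- the inner sum -/
private theorem T1_inner {C : ℝ} (hC : 0 < C)
    (hsm : ∀ (N N' q : ℕ) (χ : DirichletCharacter ℂ q) (j : ℤ), 1 ≤ q → 2 * q ≤ N → N ≤ N' → N' ≤ 2 * N → j ≠ 0 →
      ‖∑ n ∈ Ioc N N', χ (n : ZMod q) * cj j n‖ ≤
        C * (N / |(j : ℝ)| + q * (N : ℝ) ^ (3 / 4 : ℝ) + q * Real.sqrt |(j : ℝ)|))
    {X q R m : ℕ} (χ : DirichletCharacter ℂ q) (g : ℕ → ℝ) (j : ℤ) {Y : ℝ} (hY : 4 ≤ Y) (hX : (X : ℝ) = Y ^ 100)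
    (hq : 4 * (q : ℝ) ≤ Y) (hq1 : 1 ≤ q) (hR : Y ^ 99 ≤ (R : ℝ)) (hRX : R ≤ X) (hm1 : 1 ≤ m) (hm : (m : ℝ) ≤ 2 * Y ^ 46)
    (hj : 1 ≤ |(j : ℝ)|) (hjX : |(j : ℝ)| ≤ X) (hg0 : ∀ n, 0 ≤ g n) (hg : ∀ m n, 1 ≤ m → m ≤ n → g m ≤ g n)
    (hG : ∀ n, n ≤ 2 * X → g n ≤ 2 * Real.log X) :
    ‖∑ n ∈ Ioc (R / m) (2 * R / m), ((g n : ℝ) : ℂ) * (χ (n : ZMod q) * cj j n)‖ ≤
      2 * (2 * Real.log X) * ((2 * C + 1) * ((R : ℝ) / m) * (1 / |(j : ℝ)| + 1 / Y ^ 2)) := by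
  set ρ : ℝ := (R : ℝ) / m with hρ
  set N := R / m with hN
  set N' := 2 * R / m with hN'
  have hY0 : 0 < Y := by linarith
  have hY1 : 1 ≤ Y := by linarith
  have hm0 : (0 : ℝ) < m := by exact_mod_cast hm1
  have hj0 : 0 < |(j : ℝ)| := by linarith
  have hjne : j ≠ 0 := by
    rintro rfl
    simp at hj0
  have hρ53 : Y ^ 53 / 2 ≤ ρ := by
    rw [hρ, le_div_iff₀ hm0]
    calc Y ^ 53 / 2 * m ≤ Y ^ 53 / 2 * (2 * Y ^ 46) := mul_le_mul_of_nonneg_left hm (by positivity)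
      _ = Y ^ 99 := by ring
      _ ≤ R := hR
  have hρ0 : 0 < ρ := lt_of_lt_of_le (by positivity) hρ53
  have hNρ : (N : ℝ) ≤ ρ := Nat.cast_div_le
  have hNρ1 : ρ < N + 1 := by
    rw [hρ, div_lt_iff₀ hm0]
    have h1 : R < m * (R / m + 1) := Nat.lt_mul_div_succ R hm1
    have h2 : (R : ℝ) < m * ((N : ℝ) + 1) := by exact_mod_cast h1
    linarith
  have hY52 : (1 : ℝ) ≤ Y ^ 52 := one_le_pow₀ hY1
  have hN52 : Y ^ 52 ≤ N := by
    have h1 : 4 * Y ^ 52 ≤ Y ^ 53 := by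
      rw [pow_succ Y 52, mul_comm (Y ^ 52) Y]
      exact mul_le_mul_of_nonneg_right hY (by positivity)
    linarith
  have hN0 : (0 : ℝ) < N := lt_of_lt_of_le (by positivity) hN52
  have hYY : Y ≤ Y ^ 52 := le_self_pow₀ hY1 (by norm_num)
  have hNq : 2 * q ≤ N := by
    have h1 : 2 * (q : ℝ) ≤ N := by linarith
    exact_mod_cast h1
  have hNN : N ≤ N' := Nat.div_le_div_right (by omega)
  have hNN2 : N' ≤ 2 * N + 1 := by
    have h1 : R < m * (N + 1) := Nat.lt_mul_div_succ R hm1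
    have h2 : N' < 2 * N + 2 := by
      rw [hN', Nat.div_lt_iff_lt_mul (by omega)]
      nlinarith
    omega
  have hN'X : N' ≤ 2 * X := by
    calc N' ≤ 2 * R := Nat.div_le_self _ _
      _ ≤ 2 * X := by omega
  set E : ℝ := 1 / |(j : ℝ)| + 1 / Y ^ 2 with hE
  have hE0 : 0 < E := by positivity
  have hρY : ρ / Y ^ 2 ≤ ρ * E := by
    rw [hE, mul_add, mul_one_div, mul_one_div]
    have : 0 ≤ ρ / |(j : ℝ)| := by positivity
    linarith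
  have hρj : ρ / |(j : ℝ)| + ρ / Y ^ 2 = ρ * E := by
    rw [hE, mul_add, mul_one_div, mul_one_div]
  have hρY51 : Y ^ 51 / 2 ≤ ρ / Y ^ 2 := by
    rw [le_div_iff₀ (by positivity)]
    calc Y ^ 51 / 2 * Y ^ 2 = Y ^ 53 / 2 := by ring
      _ ≤ ρ := hρ53
  have hb1 : (q : ℝ) * (N : ℝ) ^ (3 / 4 : ℝ) ≤ ρ / Y ^ 2 := by
    have h1 : (N : ℝ) = (N : ℝ) ^ (3 / 4 : ℝ) * (N : ℝ) ^ (1 / 4 : ℝ) := by
      rw [← Real.rpow_add hN0]
      norm_num
    have h2 : Y ^ 13 ≤ (N : ℝ) ^ (1 / 4 : ℝ) := by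
      have h3 : Y ^ 13 = (Y ^ 52) ^ (1 / 4 : ℝ) := by
        rw [← Real.rpow_natCast Y 13, ← Real.rpow_natCast Y 52, ← Real.rpow_mul hY0.le]
        norm_num
      rw [h3]
      exact Real.rpow_le_rpow (by positivity) hN52 (by norm_num)
    have h3 : 0 ≤ (N : ℝ) ^ (3 / 4 : ℝ) := by positivity
    rw [le_div_iff₀ (by positivity)]
    have h4 : (q : ℝ) * Y ^ 2 ≤ Y ^ 13 := by
      calc (q : ℝ) * Y ^ 2 ≤ Y * Y ^ 2 := mul_le_mul_of_nonneg_right (by linarith) (by positivity)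
        _ = Y ^ 3 := by ring
        _ ≤ Y ^ 13 := pow_le_pow_right₀ hY1 (by norm_num)
    calc (q : ℝ) * (N : ℝ) ^ (3 / 4 : ℝ) * Y ^ 2 = (N : ℝ) ^ (3 / 4 : ℝ) * (q * Y ^ 2) := by ring
      _ ≤ (N : ℝ) ^ (3 / 4 : ℝ) * (N : ℝ) ^ (1 / 4 : ℝ) := mul_le_mul_of_nonneg_left (h4.trans h2) h3
      _ = N := h1.symm
      _ ≤ ρ := hNρ
  have hb2 : (q : ℝ) * Real.sqrt |(j : ℝ)| ≤ ρ / Y ^ 2 := by
    have h1 : Real.sqrt |(j : ℝ)| ≤ Y ^ 50 := by
      rw [show Y ^ 50 = Real.sqrt ((Y ^ 50) ^ 2) by rw [Real.sqrt_sq (by positivity)]]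
      refine Real.sqrt_le_sqrt ?_
      rw [← pow_mul]
      exact hjX.trans hX.le
    calc (q : ℝ) * Real.sqrt |(j : ℝ)| ≤ (Y / 4) * Y ^ 50 := mul_le_mul (by linarith) h1 (Real.sqrt_nonneg _) (by positivity)
      _ = Y ^ 51 / 4 := by ring
      _ ≤ Y ^ 51 / 2 := by
        have : 0 < Y ^ 51 := by positivity
        linarith
      _ ≤ ρ / Y ^ 2 := hρY51
  have hb3 : 1 ≤ ρ / Y ^ 2 := by
    have h1 : Y ≤ Y ^ 51 := le_self_pow₀ hY1 (by norm_num)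
    linarith
  have hbase : ∀ K, N ≤ K → K ≤ 2 * N → ‖∑ n ∈ Ioc N K, χ (n : ZMod q) * cj j n‖ ≤ 2 * C * (ρ * E) := by
    intro K hK1 hK2
    refine (hsm N K q χ j hq1 hNq hK1 hK2 hjne).trans ?_
    have h1 : (N : ℝ) / |(j : ℝ)| ≤ ρ / |(j : ℝ)| := by gcongr
    have h2 : (N : ℝ) / |(j : ℝ)| + q * (N : ℝ) ^ (3 / 4 : ℝ) + q * Real.sqrt |(j : ℝ)| ≤ 2 * (ρ * E) := by
      have h3 : 0 ≤ ρ / |(j : ℝ)| := by positivity
      linarith
    calc C * (N / |(j : ℝ)| + q * (N : ℝ) ^ (3 / 4 : ℝ) + q * Real.sqrt |(j : ℝ)|) ≤ C * (2 * (ρ * E)) :=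
          mul_le_mul_of_nonneg_left h2 hC.le
      _ = 2 * C * (ρ * E) := by ring
  have hbd : ∀ K, N ≤ K → K ≤ N' → ‖∑ n ∈ Ioc N K, χ (n : ZMod q) * cj j n‖ ≤ (2 * C + 1) * ρ * E := by
    intro K hK1 hK2
    rcases Nat.lt_or_ge (2 * N) K with h | h
    · have h1 : K = 2 * N + 1 := by omega
      rw [h1, sum_Ioc_succ_top (by omega)]
      refine (norm_add_le _ _).trans ?_
      have h2 := hbase (2 * N) (by omega) le_rfl
      have h3 : ‖χ ((2 * N + 1 : ℕ) : ZMod q) * cj j (2 * N + 1)‖ ≤ 1 := by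
        rw [norm_mul, norm_cj, mul_one]
        exact χ.norm_le_one _
      have h4 : (2 * C + 1) * ρ * E = 2 * C * (ρ * E) + ρ * E := by ring
      linarith
    · have h2 := hbase K hK1 h
      have h4 : (2 * C + 1) * ρ * E = 2 * C * (ρ * E) + ρ * E := by ring
      have h5 : 0 < ρ * E := by positivity
      linarith
  exact T1_abel (fun n => χ (n : ZMod q) * cj j n) g N N' (by positivity) hbd hg0 hg
    (fun n hn => hG n (hn.trans hN'X))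

private theorem T1_harm (n : ℕ) : ∑ m ∈ Icc 1 n, 1 / (m : ℝ) ≤ 1 + Real.log n := by
  have h := harmonic_le_one_add_log n
  rw [harmonic_eq_sum_Icc] at h
  push_cast at h
  refine le_trans (le_of_eq ?_) h
  refine sum_congr rfl fun a _ => ?_
  rw [one_div]

theorem typI (c2 : ℕ) : ∃ (C x0 : ℝ), 0 < C ∧ ∀ X : ℕ, x0 ≤ X → ∀ (q R M1 : ℕ) (χ : DirichletCharacter ℂ q) (c : ℕ → ℂ) (g : ℕ → ℝ)
    (T0 : ℝ) (U : Finset ℤ), 1 ≤ q → (q : ℝ) ≤ (Real.log X) ^ c2 → (X : ℝ) ^ (99 / 100 : ℝ) ≤ R → R ≤ X → M1 ≤ yy X →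
    1 ≤ T0 → (∀ m : ℕ, 1 ≤ m → ‖c m‖ ≤ 1 + Real.log m) →
    (∀ n, 0 ≤ g n) → (∀ m n, 1 ≤ m → m ≤ n → g m ≤ g n) → (∀ n, n ≤ 2 * X → g n ≤ 2 * Real.log X) →
    (U.card : ℝ) ≤ (X : ℝ) ^ (1 / 100 : ℝ) → (∀ j ∈ U, T0 ≤ |(j : ℝ)| ∧ |(j : ℝ)| ≤ X) →
      ∑ j ∈ U, ‖∑ m ∈ Icc 1 M1, c m * ∑ n ∈ Icc 1 (2 * R / m), ((g n : ℝ) : ℂ) *
        (if R < m * n then χ ((m * n : ℕ) : ZMod q) * cj j (m * n) else 0)‖ ^ 2 ≤
        C * (R : ℝ) ^ 2 * (Real.log X) ^ 8 * (1 / T0 + (X : ℝ) ^ (-(1 / 50) : ℝ)) := by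
  obtain ⟨C, hC, hsm⟩ := smP
  have hlim := (isLittleO_log_rpow_rpow_atTop (s := 1 / 100) (c2 : ℝ) (by norm_num)).bound
    (c := 1 / 4) (by norm_num)
  obtain ⟨x1, hx1⟩ := Filter.eventually_atTop.1 hlim
  set D : ℝ := 16 * (2 * C + 1) with hD
  have hD0 : 0 < D := by positivity
  refine ⟨8 * D ^ 2, max x1 3, by positivity, ?_⟩
  intro X hX q R M1 χ c g T0 U hq1 hq hR hRX hM1 hT0 hc hg0 hg hG hU hUj
  have hX1 : x1 ≤ (X : ℝ) := (le_max_left _ _).trans hX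
  have hX3 : (3 : ℝ) ≤ X := (le_max_right _ _).trans hX
  have hX0 : (0 : ℝ) < X := by linarith
  have hL1 : 1 ≤ Real.log X := by
    rw [Real.le_log_iff_exp_le hX0]
    have := Real.exp_one_lt_d9
    linarith
  set Lg := Real.log X with hLg
  have h0 := hx1 X hX1
  rw [Real.rpow_natCast, Real.norm_of_nonneg (by positivity), Real.norm_of_nonneg (by positivity)] at h0
  set Y : ℝ := (X : ℝ) ^ (1 / 100 : ℝ) with hYdef
  have hY0 : 0 < Y := by positivity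
  have hpw : ∀ n : ℕ, Y ^ n = (X : ℝ) ^ ((n : ℝ) / 100) := by
    intro n
    rw [hYdef, ← Real.rpow_natCast, ← Real.rpow_mul hX0.le]
    congr 1
    ring
  have hXY : (X : ℝ) = Y ^ 100 := by
    rw [hpw]
    norm_num
  have hLc : 1 ≤ Lg ^ c2 := one_le_pow₀ hL1
  have hY4 : 4 ≤ Y := by linarith
  have hY1 : 1 ≤ Y := by linarith
  have hqY : 4 * (q : ℝ) ≤ Y := by linarith
  have hRY : Y ^ 99 ≤ (R : ℝ) := by
    rw [hpw]
    norm_num
    exact hR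
  have hyy : ((yy X : ℕ) : ℝ) ≤ 2 * Y ^ 46 := by
    have h1 : ((yy X : ℕ) : ℝ) < (X : ℝ) ^ (46 / 100 : ℝ) + 1 := by
      unfold yy
      exact Nat.ceil_lt_add_one (by positivity)
    have h2 : (X : ℝ) ^ (46 / 100 : ℝ) = Y ^ 46 := by
      rw [hpw]
      norm_num
    have h3 : 1 ≤ Y ^ 46 := one_le_pow₀ hY1
    linarith
  have hM1Y : (M1 : ℝ) ≤ 2 * Y ^ 46 := by
    have : (M1 : ℝ) ≤ yy X := by exact_mod_cast hM1
    linarith
  have hM1X : (M1 : ℝ) ≤ X := by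
    rw [hXY]
    calc (M1 : ℝ) ≤ 2 * Y ^ 46 := hM1Y
      _ ≤ Y * Y ^ 46 := mul_le_mul_of_nonneg_right (by linarith) (by positivity)
      _ = Y ^ 47 := by ring
      _ ≤ Y ^ 100 := pow_le_pow_right₀ hY1 (by norm_num)
  have hR0 : (0 : ℝ) < R := lt_of_lt_of_le (by positivity) hRY
  have hT0' : 0 < T0 := by linarith
  -- the bound for one `j`
  have hone : ∀ j ∈ U, ‖∑ m ∈ Icc 1 M1, c m * ∑ n ∈ Icc 1 (2 * R / m), ((g n : ℝ) : ℂ) *
        (if R < m * n then χ ((m * n : ℕ) : ZMod q) * cj j (m * n) else 0)‖ ≤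
      D * R * Lg ^ 3 * (1 / |(j : ℝ)| + 1 / Y ^ 2) := by
    intro j hj
    obtain ⟨hj1, hj2⟩ := hUj j hj
    have hj1' : 1 ≤ |(j : ℝ)| := hT0.trans hj1
    have hj0 : 0 < |(j : ℝ)| := by linarith
    set E : ℝ := 1 / |(j : ℝ)| + 1 / Y ^ 2 with hE
    have hE0 : 0 < E := by positivity
    have h1 : ∀ m ∈ Icc 1 M1, ‖c m * ∑ n ∈ Icc 1 (2 * R / m), ((g n : ℝ) : ℂ) *
        (if R < m * n then χ ((m * n : ℕ) : ZMod q) * cj j (m * n) else 0)‖ ≤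
          (2 * Lg) * (2 * (2 * Lg) * ((2 * C + 1) * R * E)) * (1 / m) := by
      intro m hm
      rw [mem_Icc] at hm
      have hm0 : (0 : ℝ) < m := by exact_mod_cast hm.1
      have hmM : (m : ℝ) ≤ M1 := by exact_mod_cast hm.2
      have h2 : ∑ n ∈ Icc 1 (2 * R / m), ((g n : ℝ) : ℂ) *
          (if R < m * n then χ ((m * n : ℕ) : ZMod q) * cj j (m * n) else 0) =
          (χ (m : ZMod q) * cj j m) * ∑ n ∈ Ioc (R / m) (2 * R / m), ((g n : ℝ) : ℂ) * (χ (n : ZMod q) * cj j n) := by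
        have h3 : Ioc (R / m) (2 * R / m) = (Icc 1 (2 * R / m)).filter (fun n => R < m * n) := by
          ext n
          rw [mem_filter, mem_Icc, mem_Ioc, Nat.div_lt_iff_lt_mul (by omega), mul_comm m n]
          constructor
          · rintro ⟨a, b⟩
            refine ⟨⟨?_, b⟩, a⟩
            rcases Nat.eq_zero_or_pos n with h | h
            · rw [h, Nat.zero_mul] at a
              omega
            · exact h
          · rintro ⟨⟨_, b⟩, a⟩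
            exact ⟨a, b⟩
        rw [h3, sum_filter, mul_sum]
        refine sum_congr rfl fun n hn => ?_
        rw [mem_Icc] at hn
        split_ifs with h
        · rw [cj_mul j (by omega) (by omega), Nat.cast_mul, map_mul]
          ring
        · rw [mul_zero, mul_zero]
      have h4 := T1_inner hC hsm (X := X) (q := q) (R := R) (m := m) χ g j hY4 hXY hqY hq1 hRY hRX hm.1
        (hmM.trans hM1Y) hj1' hj2 hg0 hg hG
      rw [norm_mul, h2, norm_mul]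
      have h5 : ‖χ (m : ZMod q) * cj j m‖ ≤ 1 := by
        rw [norm_mul, norm_cj, mul_one]
        exact χ.norm_le_one _
      have h6 : ‖c m‖ ≤ 2 * Lg := by
        have h7 := hc m hm.1
        have h8 : Real.log m ≤ Lg := Real.log_le_log hm0 (hmM.trans hM1X)
        linarith
      have h9 : ‖χ (m : ZMod q) * cj j m‖ *
          ‖∑ n ∈ Ioc (R / m) (2 * R / m), ((g n : ℝ) : ℂ) * (χ (n : ZMod q) * cj j n)‖ ≤
          2 * (2 * Lg) * ((2 * C + 1) * ((R : ℝ) / m) * E) := by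
        refine (mul_le_of_le_one_left (norm_nonneg _) h5).trans ?_
        exact h4
      calc ‖c m‖ * (‖χ (m : ZMod q) * cj j m‖ *
          ‖∑ n ∈ Ioc (R / m) (2 * R / m), ((g n : ℝ) : ℂ) * (χ (n : ZMod q) * cj j n)‖)
          ≤ (2 * Lg) * (2 * (2 * Lg) * ((2 * C + 1) * ((R : ℝ) / m) * E)) :=
            mul_le_mul h6 h9 (by positivity) (by positivity)
        _ = (2 * Lg) * (2 * (2 * Lg) * ((2 * C + 1) * R * E)) * (1 / m) := by ring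
    refine (norm_sum_le _ _).trans ((sum_le_sum h1).trans ?_)
    rw [← mul_sum]
    have h2 : ∑ m ∈ Icc 1 M1, 1 / (m : ℝ) ≤ 2 * Lg := by
      refine (T1_harm M1).trans ?_
      rcases Nat.eq_zero_or_pos M1 with h | h
      · rw [h, Nat.cast_zero, Real.log_zero]
        linarith
      · have h3 : Real.log M1 ≤ Lg := Real.log_le_log (by exact_mod_cast h) hM1X
        linarith
    calc (2 * Lg) * (2 * (2 * Lg) * ((2 * C + 1) * R * E)) * ∑ m ∈ Icc 1 M1, 1 / (m : ℝ)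
        ≤ (2 * Lg) * (2 * (2 * Lg) * ((2 * C + 1) * R * E)) * (2 * Lg) :=
          mul_le_mul_of_nonneg_left h2 (by positivity)
      _ = D * R * Lg ^ 3 * E := by
          rw [hD]
          ring
  have hsq : ∀ j ∈ U, ‖∑ m ∈ Icc 1 M1, c m * ∑ n ∈ Icc 1 (2 * R / m), ((g n : ℝ) : ℂ) *
        (if R < m * n then χ ((m * n : ℕ) : ZMod q) * cj j (m * n) else 0)‖ ^ 2 ≤
      2 * (D * R * Lg ^ 3) ^ 2 * (1 / (j : ℝ) ^ 2 + 1 / Y ^ 4) := by
    intro j hj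
    have h1 := pow_le_pow_left₀ (norm_nonneg _) (hone j hj) 2
    refine h1.trans ?_
    rw [mul_pow]
    have h2 : (1 / |(j : ℝ)| + 1 / Y ^ 2) ^ 2 ≤ 2 * (1 / (j : ℝ) ^ 2 + 1 / Y ^ 4) := by
      have h3 : (1 / |(j : ℝ)|) ^ 2 = 1 / (j : ℝ) ^ 2 := by
        rw [div_pow, one_pow, sq_abs]
      have h4 : (1 / Y ^ 2) ^ 2 = 1 / Y ^ 4 := by
        rw [div_pow, one_pow, ← pow_mul]
      rw [← h3, ← h4]
      nlinarith [sq_nonneg (1 / |(j : ℝ)| - 1 / Y ^ 2)]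
    calc (D * R * Lg ^ 3) ^ 2 * (1 / |(j : ℝ)| + 1 / Y ^ 2) ^ 2 ≤
          (D * R * Lg ^ 3) ^ 2 * (2 * (1 / (j : ℝ) ^ 2 + 1 / Y ^ 4)) := mul_le_mul_of_nonneg_left h2 (by positivity)
      _ = 2 * (D * R * Lg ^ 3) ^ 2 * (1 / (j : ℝ) ^ 2 + 1 / Y ^ 4) := by ring
  refine (sum_le_sum hsq).trans ?_
  rw [← mul_sum, sum_add_distrib, sum_const, nsmul_eq_mul]
  have h1 : ∑ j ∈ U, 1 / (j : ℝ) ^ 2 ≤ 4 / T0 := T1_sq U hT0 fun j hj => (hUj j hj).1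
  have h2 : (U.card : ℝ) * (1 / Y ^ 4) ≤ 1 / Y ^ 2 := by
    rw [mul_one_div, div_le_div_iff₀ (by positivity) (by positivity), one_mul]
    calc (U.card : ℝ) * Y ^ 2 ≤ Y * Y ^ 2 := mul_le_mul_of_nonneg_right hU (by positivity)
      _ = Y ^ 3 := by ring
      _ ≤ Y ^ 4 := pow_le_pow_right₀ hY1 (by norm_num)
  have h3 : (X : ℝ) ^ (-(1 / 50) : ℝ) = 1 / Y ^ 2 := by
    rw [hpw, Real.rpow_neg hX0.le, one_div]
    norm_num
  rw [h3]
  have h4 : (Lg ^ 3) ^ 2 ≤ Lg ^ 8 := by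
    rw [← pow_mul]
    exact pow_le_pow_right₀ hL1 (by norm_num)
  have h5 : 0 < 1 / Y ^ 2 := by positivity
  have h6 : 0 < 1 / T0 := by positivity
  calc 2 * (D * R * Lg ^ 3) ^ 2 * (∑ j ∈ U, 1 / (j : ℝ) ^ 2 + (U.card : ℝ) * (1 / Y ^ 4))
      ≤ 2 * (D * R * Lg ^ 3) ^ 2 * (4 * (1 / T0 + 1 / Y ^ 2)) := by
        refine mul_le_mul_of_nonneg_left ?_ (by positivity)
        have h7 : 4 / T0 = 4 * (1 / T0) := by ring
        linarith
    _ = 8 * D ^ 2 * (R : ℝ) ^ 2 * (1 / T0 + 1 / Y ^ 2) * (Lg ^ 3) ^ 2 := by ring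
    _ ≤ 8 * D ^ 2 * (R : ℝ) ^ 2 * (1 / T0 + 1 / Y ^ 2) * Lg ^ 8 := mul_le_mul_of_nonneg_left h4 (by positivity)
    _ = _ := by ring

end Pool.Agent.Lib.G3
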