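import Pool.Agent.Lib.G3.BigBil
import Pool.Agent.Lib.G3.SmL
import Pool.Agent.Lib.G3.TypI
import Pool.Agent.Lib.G3.Pp

/-!
# G2 / row LR: the sum over primes `∑ log r χ(r) r^(-ij)` in mean square over few quiet frequencies
-/

set_option autoImplicit false

open Finset
open scoped ArithmeticFunction.vonMangoldt ArithmeticFunction.Moebius

namespace Pool.Agent.Lib.G3

open Pool.Agent.Lib.MRT (cj norm_cj cj_mul)

theorem lr_inner (G w : ℕ → ℂ) (R m : ℕ) (hm : 1 ≤ m) :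
    ∑ k ∈ Icc 1 (2 * R / m), w k * (if R < m * k then G (m * k) else 0) =
      ∑ k ∈ Ioc (R / m) (2 * R / m), w k * G (m * k) := by
  symm
  refine sum_subset_zero_on_sdiff ?_ ?_ ?_
  · intro k hk
    rw [mem_Ioc] at hk
    rw [mem_Icc]
    exact ⟨lt_of_le_of_lt (Nat.zero_le _) hk.1, hk.2⟩
  · intro k hk
    rw [mem_sdiff, mem_Icc, mem_Ioc] at hk
    have h1 : k ≤ R / m := by
      by_contra h
      exact hk.2 ⟨by omega, hk.1.2⟩
    have h2 : m * k ≤ R := (Nat.mul_le_mul_left _ h1).trans (Nat.mul_div_le _ _)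
    rw [if_neg (by omega), mul_zero]
  · intro k hk
    rw [mem_Ioc] at hk
    have h2 : R < m * k := by
      rw [mul_comm]
      exact (Nat.div_lt_iff_lt_mul hm).1 hk.1
    rw [if_pos h2]

/-- the second sum of Vaughan's identity, long part, as a bilinear sum -/
theorem lr_S2b (G w : ℕ → ℂ) (R Y V : ℕ) (hY : 1 ≤ Y) (hw : ∀ m, Y * V < m → w m = 0) :
    ∑ m ∈ Ioc Y (Y * V), w m * ∑ k ∈ Icc 1 (2 * R / m), (if R < m * k then G (m * k) else 0) =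
      ∑ k ∈ Ioc (R / (Y * V)) (2 * R / Y), ∑ l ∈ Ioc (R / k) (2 * R / k), (if Y < l then w l else 0) * G (k * l) := by
  have h1 : ∀ m ∈ Ioc Y (Y * V), w m * ∑ k ∈ Icc 1 (2 * R / m), (if R < m * k then G (m * k) else 0) =
      ∑ k ∈ Ioc (R / m) (2 * R / m), w m * G (m * k) := by
    intro m hm
    rw [mem_Ioc] at hm
    rw [mul_sum, ← lr_inner G (fun _ => w m) R m (by omega)]
  rw [sum_congr rfl h1]
  have h2 : ∀ k ∈ Ioc (R / (Y * V)) (2 * R / Y), ∑ l ∈ Ioc (R / k) (2 * R / k), (if Y < l then w l else 0) * G (k * l) =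
      ∑ l ∈ (Ioc (R / k) (2 * R / k)).filter (fun l => Y < l ∧ l ≤ Y * V), w l * G (l * k) := by
    intro k _
    rw [sum_filter]
    refine sum_congr rfl fun l _ => ?_
    by_cases h3 : Y < l
    · by_cases h4 : l ≤ Y * V
      · rw [if_pos h3, if_pos ⟨h3, h4⟩, mul_comm k l]
      · rw [if_pos h3, if_neg (fun h => h4 h.2), hw l (by omega), zero_mul]
    · rw [if_neg h3, if_neg (fun h => h3 h.1), zero_mul]
  rw [sum_congr rfl h2]
  refine sum_comm' ?_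
  intro m k
  simp only [mem_Ioc, mem_filter]
  constructor
  · rintro ⟨⟨h3, h4⟩, h5, h6⟩
    have hm : 0 < m := by omega
    have hk : 0 < k := lt_of_le_of_lt (Nat.zero_le _) h5
    have h7 : R < k * m := (Nat.div_lt_iff_lt_mul hm).1 h5
    have h8 : k * m ≤ 2 * R := (Nat.le_div_iff_mul_le hm).1 h6
    refine ⟨⟨⟨?_, ?_⟩, h3, h4⟩, ?_, ?_⟩
    · rw [Nat.div_lt_iff_lt_mul hk, mul_comm]
      exact h7
    · rw [Nat.le_div_iff_mul_le hk, mul_comm]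
      exact h8
    · exact lt_of_le_of_lt (Nat.div_le_div_left h4 hm) h5
    · exact h6.trans (Nat.div_le_div_left h3.le hY)
  · rintro ⟨⟨⟨h5, h6⟩, h3, h4⟩, h7, h8⟩
    have hm : 0 < m := by omega
    have hk : 0 < k := lt_of_le_of_lt (Nat.zero_le _) h7
    have h9 : R < m * k := (Nat.div_lt_iff_lt_mul hk).1 h5
    have h10 : m * k ≤ 2 * R := (Nat.le_div_iff_mul_le hk).1 h6
    refine ⟨⟨h3, h4⟩, ?_, ?_⟩
    · rw [Nat.div_lt_iff_lt_mul hm, mul_comm]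
      exact h9
    · rw [Nat.le_div_iff_mul_le hm, mul_comm]
      exact h10

/-- the third sum of Vaughan's identity as a bilinear sum -/
theorem lr_S3 (G a w : ℕ → ℂ) (R Y V : ℕ) (hY : 1 ≤ Y) (hw : ∀ m, 1 ≤ m → m ≤ Y → w m = 0) :
    ∑ l ∈ Ioc V (2 * R), a l * ∑ m ∈ Ioc Y (2 * R / l), w m * (if R < l * m then G (l * m) else 0) =
      ∑ k ∈ Ioc V (2 * R / Y), ∑ l ∈ Ioc (R / k) (2 * R / k), a k * w l * G (k * l) := by
  symm
  refine sum_subset_zero_on_sdiff ?_ ?_ ?_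
  · intro k hk
    rw [mem_Ioc] at hk ⊢
    exact ⟨hk.1, hk.2.trans (Nat.div_le_self _ _)⟩
  · intro l hl
    rw [mem_sdiff, mem_Ioc, mem_Ioc] at hl
    have h1 : 2 * R / Y < l := by
      by_contra h
      exact hl.2 ⟨hl.1.1, by omega⟩
    have hl0 : 0 < l := by omega
    have h2 : 2 * R < l * Y := (Nat.div_lt_iff_lt_mul hY).1 h1
    have h3 : 2 * R / l < Y := by
      rw [Nat.div_lt_iff_lt_mul hl0, mul_comm Y l]
      exact h2
    rw [Ioc_eq_empty (by omega), sum_empty, mul_zero]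
  · intro k hk
    rw [mem_Ioc] at hk
    have hk0 : 1 ≤ k := by omega
    have h1 : ∑ m ∈ Ioc Y (2 * R / k), w m * (if R < k * m then G (k * m) else 0) =
        ∑ m ∈ Icc 1 (2 * R / k), w m * (if R < k * m then G (k * m) else 0) := by
      refine sum_subset_zero_on_sdiff ?_ ?_ fun _ _ => rfl
      · intro m hm
        rw [mem_Ioc] at hm
        rw [mem_Icc]
        omega
      · intro m hm
        rw [mem_sdiff, mem_Icc, mem_Ioc] at hm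
        rw [hw m hm.1.1 (by by_contra h; exact hm.2 ⟨by omega, hm.1.2⟩), zero_mul]
    rw [h1, lr_inner G w R k hk0, mul_sum]
    exact sum_congr rfl fun l _ => by ring

theorem lr_vaughan (X q R : ℕ) (χ : DirichletCharacter ℂ q) (j : ℤ) (hY : 1 ≤ yy X) (hV : 1 ≤ zz X) (hR : zz X ≤ R) :
    LK χ R (2 * R) j =
      ∑ m ∈ Icc 1 (yy X), ((μ m : ℝ) : ℂ) * ∑ n ∈ Icc 1 (2 * R / m), ((Real.log n : ℝ) : ℂ) *
        (if R < m * n then χ ((m * n : ℕ) : ZMod q) * cj j (m * n) else 0) -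
      ∑ m ∈ Icc 1 (yy X), ((SW.cUV (yy X) (zz X) m : ℝ) : ℂ) * ∑ n ∈ Icc 1 (2 * R / m), ((1 : ℝ) : ℂ) *
        (if R < m * n then χ ((m * n : ℕ) : ZMod q) * cj j (m * n) else 0) -
      ∑ k ∈ Ioc (R / (yy X * zz X)) (2 * R / yy X), ∑ l ∈ Ioc (R / k) (2 * R / k), χ (k : ZMod q) *
        (if yy X < l then ((SW.cUV (yy X) (zz X) l : ℝ) : ℂ) * χ (l : ZMod q) else 0) * cj j (k * l) +
      ∑ k ∈ Ioc (zz X) (2 * R / yy X), ∑ l ∈ Ioc (R / k) (2 * R / k), (((Λ k : ℝ) : ℂ) * χ (k : ZMod q)) *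
        (((SW.bU (yy X) l : ℝ) : ℂ) * χ (l : ZMod q)) * cj j (k * l) := by
  set G : ℕ → ℂ := fun n => χ (n : ZMod q) * cj j n with hG
  have h0 : LK χ R (2 * R) j = ∑ n ∈ Ioc (zz X) (2 * R), ((Λ n : ℝ) : ℂ) * (if R < n then G n else 0) := by
    unfold LK
    refine sum_subset_zero_on_sdiff ?_ ?_ ?_
    · intro k hk
      rw [mem_Ioc] at hk ⊢
      omega
    · intro k hk
      rw [mem_sdiff, mem_Ioc, mem_Ioc] at hk
      rw [if_neg (fun h => hk.2 ⟨h, hk.1.2⟩), mul_zero]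
    · intro k hk
      rw [mem_Ioc] at hk
      rw [if_pos hk.1, hG]
      ring
  rw [h0, SW.vaughan (yy X) (zz X) (2 * R) (fun n => if R < n then G n else 0)]
  have h1 : ∀ f : ℕ → ℂ, ∑ m ∈ Icc 1 (yy X * zz X), f m = ∑ m ∈ Icc 1 (yy X), f m + ∑ m ∈ Ioc (yy X) (yy X * zz X), f m := by
    intro f
    have e1 : Icc 1 (yy X * zz X) = Ioc 0 (yy X * zz X) := by ext; simp [Nat.succ_le_iff]
    have e2 : Icc 1 (yy X) = Ioc 0 (yy X) := by ext; simp [Nat.succ_le_iff]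
    rw [e1, e2]
    exact (sum_Ioc_consecutive f (Nat.zero_le _) (Nat.le_mul_of_pos_right _ hV)).symm
  rw [h1 (fun m => (SW.cUV (yy X) (zz X) m : ℂ) * ∑ k ∈ Icc 1 (2 * R / m), (if R < m * k then G (m * k) else 0))]
  rw [lr_S2b G (fun m => (SW.cUV (yy X) (zz X) m : ℂ)) R (yy X) (zz X) hY
    (fun m hm => by rw [SW.Vaughan_cUV_zero _ _ m hm]; simp)]
  rw [lr_S3 G (fun l => ((Λ l : ℝ) : ℂ)) (fun m => (SW.bU (yy X) m : ℂ)) R (yy X) (zz X) hY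
    (fun m hm1 hm2 => by rw [SW.Vaughan_bU_zero _ m hm1 hm2]; simp)]
  have hGm : ∀ k l : ℕ, G (k * l) = χ (k : ZMod q) * χ (l : ZMod q) * cj j (k * l) := by
    intro k l
    rw [hG]
    simp only
    rw [Nat.cast_mul, map_mul]
  rw [← sub_sub]
  congr 1
  · congr 1
    · congr 1
      · refine sum_congr rfl fun m _ => ?_
        congr 1
        refine sum_congr rfl fun n _ => ?_
        simp only [one_mul, Complex.ofReal_one, hG]
    · refine sum_congr rfl fun k _ => sum_congr rfl fun l _ => ?_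
      rw [hGm]
      split_ifs
      · ring
      · simp
  · refine sum_congr rfl fun k _ => sum_congr rfl fun l _ => ?_
    rw [hGm]
    ring

theorem lr_grow (K c2 : ℕ) (Ct xp : ℝ) : ∃ x1 : ℝ, ∀ x : ℝ, x1 ≤ x → 3 ≤ x ∧ 10 ≤ Real.log x ∧ 5 * (4 * Ct + 3) ≤ Real.log x ∧
    (Real.log x) ^ c2 * x ^ (1 / 10 : ℝ) ≤ x ^ (1 / 5 : ℝ) ∧ 8 * x ^ (1 / 5 : ℝ) ≤ x ^ (28 / 100 : ℝ) ∧
    4 ≤ x ^ (28 / 100 : ℝ) ∧ xp ≤ x ^ (99 / 100 : ℝ) ∧ (Real.log x) ^ (K + 9) ≤ x ^ (1 / 50 : ℝ) := by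
  have hpow : ∀ (m : ℕ) (s : ℝ), 0 < s → ∀ᶠ x : ℝ in Filter.atTop, (Real.log x) ^ m ≤ x ^ s := by
    intro m s hs
    have h1 := (isLittleO_log_rpow_rpow_atTop (s := s) (m : ℝ) hs).bound (c := 1) one_pos
    filter_upwards [h1, Filter.eventually_ge_atTop (3 : ℝ)] with x h1 hx
    have hx0 : 0 < x := by linarith
    have hlx : 0 ≤ Real.log x := Real.log_nonneg (by linarith)
    rw [one_mul, Real.rpow_natCast, Real.norm_of_nonneg (by positivity), Real.norm_of_nonneg (by positivity)] at h1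
    exact h1
  have hlg : ∀ᶠ x : ℝ in Filter.atTop, max 10 (5 * (4 * Ct + 3)) ≤ Real.log x :=
    Real.tendsto_log_atTop.eventually (Filter.eventually_ge_atTop _)
  have h8 : ∀ᶠ x : ℝ in Filter.atTop, 8 ≤ x ^ (8 / 100 : ℝ) :=
    (tendsto_rpow_atTop (by norm_num)).eventually (Filter.eventually_ge_atTop _)
  have hxp : ∀ᶠ x : ℝ in Filter.atTop, xp ≤ x ^ (99 / 100 : ℝ) :=
    (tendsto_rpow_atTop (by norm_num)).eventually (Filter.eventually_ge_atTop _)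
  obtain ⟨x1, hx1⟩ := Filter.eventually_atTop.1 ((((((hpow c2 (1 / 10) (by norm_num)).and
    (hpow (K + 9) (1 / 50) (by norm_num))).and hlg).and h8).and hxp).and (Filter.eventually_ge_atTop (3 : ℝ)))
  refine ⟨x1, fun x hx => ?_⟩
  obtain ⟨⟨⟨⟨⟨h1, h2⟩, h3⟩, h4⟩, h5⟩, h6⟩ := hx1 x hx
  have hx0 : 0 < x := by linarith
  have hx1 : 1 ≤ x := by linarith
  have h7 : 8 * x ^ (1 / 5 : ℝ) ≤ x ^ (28 / 100 : ℝ) := by
    have e : x ^ (28 / 100 : ℝ) = x ^ (8 / 100 : ℝ) * x ^ (1 / 5 : ℝ) := by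
      rw [← Real.rpow_add hx0]
      norm_num
    rw [e]
    exact mul_le_mul_of_nonneg_right h4 (by positivity)
  refine ⟨h6, (le_max_left _ _).trans h3, (le_max_right _ _).trans h3, ?_, h7, ?_, h5, h2⟩
  · have e : x ^ (1 / 5 : ℝ) = x ^ (1 / 10 : ℝ) * x ^ (1 / 10 : ℝ) := by
      rw [← Real.rpow_add hx0]
      norm_num
    rw [e]
    exact mul_le_mul_of_nonneg_right h1 (by positivity)
  · have : x ^ (8 / 100 : ℝ) ≤ x ^ (28 / 100 : ℝ) := Real.rpow_le_rpow_of_exponent_le hx1 (by norm_num)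
    linarith

theorem lr_ab1 {q : ℕ} (χ : DirichletCharacter ℂ q) (Y V : ℕ) (l : ℕ) (hl : 1 ≤ l) :
    ‖(if Y < l then ((SW.cUV Y V l : ℝ) : ℂ) * χ (l : ZMod q) else 0)‖ ≤ Real.log l := by
  split_ifs
  · rw [norm_mul, Complex.norm_real, Real.norm_eq_abs]
    calc |SW.cUV Y V l| * ‖χ (l : ZMod q)‖ ≤ |SW.cUV Y V l| * 1 :=
          mul_le_mul_of_nonneg_left (DirichletCharacter.norm_le_one χ _) (abs_nonneg _)
      _ = |SW.cUV Y V l| := mul_one _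
      _ ≤ Real.log l := SW.abs_cUV_le Y V l hl
  · rw [norm_zero]
    exact Real.log_natCast_nonneg l

theorem lr_ab2 {q : ℕ} (χ : DirichletCharacter ℂ q) (Y : ℕ) (l : ℕ) :
    ‖((SW.bU Y l : ℝ) : ℂ) * χ (l : ZMod q)‖ ≤ l.divisors.card := by
  rw [norm_mul, Complex.norm_real, Real.norm_eq_abs]
  calc |SW.bU Y l| * ‖χ (l : ZMod q)‖ ≤ |SW.bU Y l| * 1 :=
        mul_le_mul_of_nonneg_left (DirichletCharacter.norm_le_one χ _) (abs_nonneg _)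
    _ = |SW.bU Y l| := mul_one _
    _ ≤ l.divisors.card := SW.abs_bU_le Y l

theorem largeR (K c2 : ℕ) : ∃ B c5 : ℕ, ∃ x0 : ℝ, ∀ X : ℕ, x0 ≤ X → ∀ (q R : ℕ) (χ : DirichletCharacter ℂ q) (U : Finset ℤ),
    1 ≤ q → (q : ℝ) ≤ (Real.log X) ^ c2 → (X : ℝ) ^ (99 / 100 : ℝ) ≤ R → R ≤ X → (U.card : ℝ) ≤ (X : ℝ) ^ (1 / 100 : ℝ) →
    (∀ j ∈ U, (Real.log X) ^ c5 ≤ |(j : ℝ)| ∧ |(j : ℝ)| ≤ X ∧ Qt X q B j) →
      ∑ j ∈ U, ‖RL χ R j‖ ^ 2 ≤ (R : ℝ) ^ 2 / (Real.log X) ^ K := by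
  classical
  obtain ⟨B, xb, hbil⟩ := bigbil (K + 1)
  obtain ⟨Ct, xt, hCt, htyp⟩ := typI c2
  obtain ⟨xs, hsm⟩ := smL B (1 / 10) (by norm_num)
  obtain ⟨xp, hpp⟩ := ppow
  obtain ⟨x1, hx1⟩ := lr_grow K c2 Ct xp
  refine ⟨B, B + 3 + (K + 9), max xb (max xt (max xs x1)), ?_⟩
  intro X hX q R χ U hq hqX hR99 hRX hUc hU
  have hXb : xb ≤ (X : ℝ) := (le_max_left _ _).trans hX
  have hXt : xt ≤ (X : ℝ) := (le_max_left _ _).trans ((le_max_right _ _).trans hX)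
  have hXs : xs ≤ (X : ℝ) := (le_max_left _ _).trans ((le_max_right _ _).trans ((le_max_right _ _).trans hX))
  have hX1 : x1 ≤ (X : ℝ) := (le_max_right _ _).trans ((le_max_right _ _).trans ((le_max_right _ _).trans hX))
  obtain ⟨hX3, hl10, hlC, hg2, hg3, hg4, hg5, hg6⟩ := hx1 X hX1
  set ℓ : ℝ := Real.log X with hℓ
  have hℓ0 : 0 < ℓ := by linarith
  have hℓ1 : 1 ≤ ℓ := by linarith
  have hX0 : (0 : ℝ) < X := by linarith
  have hXX1 : (1 : ℝ) ≤ X := by linarith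
  have hRr : (R : ℝ) ≤ X := by exact_mod_cast hRX
  have hR1 : (1 : ℝ) ≤ R := (Real.one_le_rpow hXX1 (by norm_num)).trans hR99
  have hR0 : (0 : ℝ) < R := by linarith
  -- the parameters yy, zz
  have hyy1 : 1 ≤ (X : ℝ) ^ (46 / 100 : ℝ) := Real.one_le_rpow hXX1 (by norm_num)
  have hzz1 : 1 ≤ (X : ℝ) ^ (1 / 4 : ℝ) := Real.one_le_rpow hXX1 (by norm_num)
  have hyl : (X : ℝ) ^ (46 / 100 : ℝ) ≤ yy X := Nat.le_ceil _
  have hzl : (X : ℝ) ^ (1 / 4 : ℝ) ≤ zz X := Nat.le_ceil _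
  have hyu : (yy X : ℝ) ≤ 2 * (X : ℝ) ^ (46 / 100 : ℝ) := by
    have := (Nat.ceil_lt_add_one (by positivity : 0 ≤ (X : ℝ) ^ (46 / 100 : ℝ))).le
    unfold yy
    linarith
  have hzu : (zz X : ℝ) ≤ 2 * (X : ℝ) ^ (1 / 4 : ℝ) := by
    have := (Nat.ceil_lt_add_one (by positivity : 0 ≤ (X : ℝ) ^ (1 / 4 : ℝ))).le
    unfold zz
    linarith
  have hY1 : 1 ≤ yy X := by
    have : (1 : ℝ) ≤ yy X := by linarith
    exact_mod_cast this
  have hV1 : 1 ≤ zz X := by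
    have : (1 : ℝ) ≤ zz X := by linarith
    exact_mod_cast this
  have hY2 : 2 ≤ yy X := by
    have h1 : (4 : ℝ) ≤ (X : ℝ) ^ (46 / 100 : ℝ) := hg4.trans (Real.rpow_le_rpow_of_exponent_le hXX1 (by norm_num))
    have : (2 : ℝ) ≤ yy X := by linarith
    exact_mod_cast this
  have hyz : ((yy X * zz X : ℕ) : ℝ) ≤ 4 * (X : ℝ) ^ (71 / 100 : ℝ) := by
    push_cast
    calc (yy X : ℝ) * zz X ≤ (2 * (X : ℝ) ^ (46 / 100 : ℝ)) * (2 * (X : ℝ) ^ (1 / 4 : ℝ)) :=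
          mul_le_mul hyu hzu (Nat.cast_nonneg _) (by positivity)
      _ = 4 * ((X : ℝ) ^ (46 / 100 : ℝ) * (X : ℝ) ^ (1 / 4 : ℝ)) := by ring
      _ = 4 * (X : ℝ) ^ (71 / 100 : ℝ) := by
          rw [← Real.rpow_add hX0]
          norm_num
  have hyz0 : (0 : ℝ) < ((yy X * zz X : ℕ) : ℝ) := by
    have : 0 < yy X * zz X := Nat.mul_pos hY1 hV1
    exact_mod_cast this
  have h99 : (X : ℝ) ^ (99 / 100 : ℝ) = (X : ℝ) ^ (28 / 100 : ℝ) * (X : ℝ) ^ (71 / 100 : ℝ) := by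
    rw [← Real.rpow_add hX0]
    norm_num
  have hyzR : yy X * zz X ≤ R := by
    have h1 : ((yy X * zz X : ℕ) : ℝ) ≤ R := by
      refine hyz.trans (le_trans ?_ hR99)
      rw [h99]
      exact mul_le_mul_of_nonneg_right hg4 (by positivity)
    exact_mod_cast h1
  have hzR : zz X ≤ R := (Nat.le_mul_of_pos_left _ hY1).trans hyzR
  -- the lower end of the first bilinear sum
  have hK0 : (X : ℝ) ^ (1 / 5 : ℝ) ≤ ((R / (yy X * zz X) : ℕ) : ℝ) := by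
    have h1 : (X : ℝ) ^ (28 / 100 : ℝ) / 4 ≤ (R : ℝ) / ((yy X * zz X : ℕ) : ℝ) := by
      rw [div_le_div_iff₀ (by norm_num) hyz0]
      calc (X : ℝ) ^ (28 / 100 : ℝ) * ((yy X * zz X : ℕ) : ℝ) ≤ (X : ℝ) ^ (28 / 100 : ℝ) * (4 * (X : ℝ) ^ (71 / 100 : ℝ)) := by gcongr
        _ = (X : ℝ) ^ (99 / 100 : ℝ) * 4 := by rw [h99]; ring
        _ ≤ R * 4 := by gcongr
    have h2 : (R : ℝ) / ((yy X * zz X : ℕ) : ℝ) < ((R / (yy X * zz X) : ℕ) : ℝ) + 1 := by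
      have := Nat.lt_floor_add_one ((R : ℝ) / ((yy X * zz X : ℕ) : ℝ))
      rwa [Nat.floor_div_eq_div] at this
    have h3 : 1 ≤ (X : ℝ) ^ (1 / 5 : ℝ) := Real.one_le_rpow hXX1 (by norm_num)
    linarith
  have hK01 : R / (yy X * zz X) ≤ 2 * R / yy X :=
    (Nat.div_le_div_left (Nat.le_mul_of_pos_right _ hV1) hY1).trans (Nat.div_le_div_right (by omega))
  have hK1 : 2 * R / yy X * yy X ≤ 2 * R := Nat.div_mul_le_self _ _
  have hzK1 : zz X ≤ 2 * R / yy X := by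
    rw [Nat.le_div_iff_mul_le hY1, mul_comm]
    omega
  have hK1R : 2 * R / yy X ≤ R := by
    calc 2 * R / yy X ≤ 2 * R / 2 := Nat.div_le_div_left hY2 (by norm_num)
      _ = R := by omega
  have hzK0 : (X : ℝ) ^ (1 / 5 : ℝ) ≤ (zz X : ℝ) :=
    (Real.rpow_le_rpow_of_exponent_le hXX1 (by norm_num)).trans hzl
  -- frequencies
  have hT1 : 1 ≤ ℓ ^ (B + 3 + (K + 9)) := one_le_pow₀ hℓ1
  have hUT : ∀ j ∈ U, ℓ ^ (B + 3 + (K + 9)) ≤ |(j : ℝ)| ∧ |(j : ℝ)| ≤ X := fun j hj => ⟨(hU j hj).1, (hU j hj).2.1⟩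
  have hUX : ∀ j ∈ U, |(j : ℝ)| ≤ X := fun j hj => (hU j hj).2.1
  -- Type I bound
  have htI : Ct * (R : ℝ) ^ 2 * ℓ ^ 8 * (1 / ℓ ^ (B + 3 + (K + 9)) + (X : ℝ) ^ (-(1 / 50) : ℝ)) ≤
      2 * Ct * ((R : ℝ) ^ 2 / ℓ ^ (K + 1)) := by
    have h1 : 1 / ℓ ^ (B + 3 + (K + 9)) ≤ 1 / ℓ ^ (K + 9) :=
      one_div_le_one_div_of_le (by positivity) (pow_le_pow_right₀ hℓ1 (by omega))
    have h2 : (X : ℝ) ^ (-(1 / 50) : ℝ) ≤ 1 / ℓ ^ (K + 9) := by
      rw [Real.rpow_neg hX0.le, ← one_div]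
      exact one_div_le_one_div_of_le (by positivity) hg6
    calc Ct * (R : ℝ) ^ 2 * ℓ ^ 8 * (1 / ℓ ^ (B + 3 + (K + 9)) + (X : ℝ) ^ (-(1 / 50) : ℝ)) ≤
        Ct * (R : ℝ) ^ 2 * ℓ ^ 8 * (1 / ℓ ^ (K + 9) + 1 / ℓ ^ (K + 9)) := by gcongr
      _ = 2 * Ct * ((R : ℝ) ^ 2 / ℓ ^ (K + 1)) := by
          rw [show K + 9 = 8 + (K + 1) by ring, pow_add]
          field_simp
          ring
  -- S1
  have hS1 := htyp X hXt q R (yy X) χ (fun m => ((μ m : ℝ) : ℂ)) (fun n => Real.log n) (ℓ ^ (B + 3 + (K + 9))) U hq hqX hR99 hRX le_rfl hT1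
    (fun m hm => by
      rw [Complex.norm_real, Real.norm_eq_abs]
      have h1 : |((μ m : ℤ) : ℝ)| ≤ 1 := by
        have := ArithmeticFunction.abs_moebius_le_one (n := m)
        exact_mod_cast this
      have h2 : 0 ≤ Real.log m := Real.log_natCast_nonneg m
      linarith)
    (fun n => Real.log_natCast_nonneg n)
    (fun m n hm hmn => Real.log_le_log (by exact_mod_cast hm) (by exact_mod_cast hmn))
    (fun n hn => by
      rcases Nat.eq_zero_or_pos n with h | h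
      · subst h
        simp only [Nat.cast_zero, Real.log_zero]
        positivity
      · have h1 : Real.log n ≤ Real.log (2 * X) := Real.log_le_log (by exact_mod_cast h) (by exact_mod_cast hn)
        rw [Real.log_mul (by norm_num) hX0.ne'] at h1
        have h2 := Real.log_two_lt_d9
        linarith) hUc hUT
  -- S2a
  have hS2a := htyp X hXt q R (yy X) χ (fun m => ((SW.cUV (yy X) (zz X) m : ℝ) : ℂ)) (fun _ => 1) (ℓ ^ (B + 3 + (K + 9))) U hq hqX hR99 hRX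
    le_rfl hT1
    (fun m hm => by
      rw [Complex.norm_real, Real.norm_eq_abs]
      have h1 := SW.abs_cUV_le (yy X) (zz X) m hm
      linarith)
    (fun n => by norm_num) (fun m n hm hmn => le_rfl) (fun n hn => by linarith) hUc hUT
  -- S2b
  have hS2b := hbil X hXb R (R / (yy X * zz X)) (2 * R / yy X) (fun k => χ (k : ZMod q))
    (fun l => if yy X < l then ((SW.cUV (yy X) (zz X) l : ℝ) : ℂ) * χ (l : ZMod q) else 0) U hR99 hRX hK0 hK01 hK1 hUc hUX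
    (fun j hj κ κ' h1 h2 h3 h4 => by
      refine hsm X hXs κ κ' q χ j hq ?_ h3 ?_ ?_
      · have h5 : (X : ℝ) ^ (1 / 5 : ℝ) ≤ κ := hK0.trans (by exact_mod_cast h1)
        refine le_trans ?_ (hg2.trans h5)
        gcongr
      · exact (pow_le_pow_right₀ hℓ1 (by omega)).trans (hU j hj).1
      · have := hUX j hj
        linarith)
    (fun n hn => by
      have h1 : ∀ k ∈ n.divisors, ‖χ (k : ZMod q)‖ * ‖(if yy X < n / k then ((SW.cUV (yy X) (zz X) (n / k) : ℝ) : ℂ) *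
          χ ((n / k : ℕ) : ZMod q) else 0)‖ ≤ Real.log n := by
        intro k hk
        rw [Nat.mem_divisors] at hk
        have hk0 : 0 < k := Nat.pos_of_dvd_of_pos hk.1 hn
        have h2 : 1 ≤ n / k := Nat.div_pos (Nat.le_of_dvd hn hk.1) hk0
        have h3 := lr_ab1 χ (yy X) (zz X) (n / k) h2
        have h4 : Real.log ((n / k : ℕ) : ℝ) ≤ Real.log n :=
          Real.log_le_log (by exact_mod_cast h2) (by exact_mod_cast Nat.div_le_self n k)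
        have h5 := DirichletCharacter.norm_le_one χ (k : ZMod q)
        have h6 := norm_nonneg (χ (k : ZMod q))
        have h7 := norm_nonneg (if yy X < n / k then ((SW.cUV (yy X) (zz X) (n / k) : ℝ) : ℂ) *
          χ ((n / k : ℕ) : ZMod q) else 0)
        calc _ ≤ 1 * Real.log n := mul_le_mul h5 (h3.trans h4) h7 (by norm_num)
          _ = Real.log n := one_mul _
      refine (sum_le_sum h1).trans ?_
      rw [sum_const, nsmul_eq_mul, mul_comm])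
    (fun l hl => by
      refine (lr_ab1 χ (yy X) (zz X) l hl).trans ?_
      have h1 : 0 ≤ Real.log l := Real.log_natCast_nonneg l
      have h2 : (1 : ℝ) ≤ l.divisors.card := by
        have : 1 ≤ l.divisors.card := card_pos.2 ⟨1, by simp; omega⟩
        exact_mod_cast this
      nlinarith)
  -- S3
  have hS3 := hbil X hXb R (zz X) (2 * R / yy X) (fun k => ((Λ k : ℝ) : ℂ) * χ (k : ZMod q))
    (fun l => ((SW.bU (yy X) l : ℝ) : ℂ) * χ (l : ZMod q)) U hR99 hRX hzK0 hzK1 hK1 hUc hUX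
    (fun j hj κ κ' h1 h2 h3 h4 => (hU j hj).2.2 χ κ κ' h1 (by omega) h2 h3)
    (fun n hn => by
      have h1 : ∀ k ∈ n.divisors, ‖((Λ k : ℝ) : ℂ) * χ (k : ZMod q)‖ * ‖((SW.bU (yy X) (n / k) : ℝ) : ℂ) *
          χ ((n / k : ℕ) : ZMod q)‖ ≤ Λ k * n.divisors.card := by
        intro k hk
        have hk' := hk
        rw [Nat.mem_divisors] at hk
        have hL : 0 ≤ Λ k := ArithmeticFunction.vonMangoldt_nonneg
        have h2 : ‖((Λ k : ℝ) : ℂ) * χ (k : ZMod q)‖ ≤ Λ k := by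
          rw [norm_mul, Complex.norm_real, Real.norm_of_nonneg hL]
          exact mul_le_of_le_one_right hL (DirichletCharacter.norm_le_one χ _)
        have h3 := lr_ab2 χ (yy X) (n / k)
        have h4 : ((n / k).divisors.card : ℝ) ≤ n.divisors.card := by
          have : (n / k).divisors.card ≤ n.divisors.card :=
            card_le_card (Nat.divisors_subset_of_dvd (by omega) (Nat.div_dvd_of_dvd hk.1))
          exact_mod_cast this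
        exact mul_le_mul h2 (h3.trans h4) (norm_nonneg _) hL
      refine (sum_le_sum h1).trans ?_
      rw [← sum_mul, ArithmeticFunction.vonMangoldt_sum])
    (fun l hl => by
      refine (lr_ab2 χ (yy X) l).trans ?_
      have h1 : 0 ≤ Real.log l := Real.log_natCast_nonneg l
      have h2 : (0 : ℝ) ≤ l.divisors.card := Nat.cast_nonneg _
      nlinarith)
  -- prime powers
  have hPP : ∑ j ∈ U, ‖RL χ R j - LK χ R (2 * R) j‖ ^ 2 ≤ (R : ℝ) ^ 2 / ℓ ^ (K + 1) := by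
    have h1 : ∀ j ∈ U, ‖RL χ R j - LK χ R (2 * R) j‖ ^ 2 ≤ ((R : ℝ) ^ (3 / 5 : ℝ)) ^ 2 := fun j _ =>
      pow_le_pow_left₀ (norm_nonneg _) (hpp R (hg5.trans hR99) q χ j) 2
    refine (sum_le_sum h1).trans ?_
    rw [sum_const, nsmul_eq_mul]
    have h2 : ((R : ℝ) ^ (3 / 5 : ℝ)) ^ 2 * (R : ℝ) ^ (4 / 5 : ℝ) = (R : ℝ) ^ 2 := by
      rw [← Real.rpow_natCast, ← Real.rpow_mul hR0.le, ← Real.rpow_add hR0, ← Real.rpow_natCast]
      norm_num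
    have h3 : (X : ℝ) ^ (1 / 100 : ℝ) * ℓ ^ (K + 1) ≤ (R : ℝ) ^ (4 / 5 : ℝ) := by
      have h4 : ℓ ^ (K + 1) ≤ (X : ℝ) ^ (1 / 50 : ℝ) := (pow_le_pow_right₀ hℓ1 (by omega)).trans hg6
      calc (X : ℝ) ^ (1 / 100 : ℝ) * ℓ ^ (K + 1) ≤ (X : ℝ) ^ (1 / 100 : ℝ) * (X : ℝ) ^ (1 / 50 : ℝ) := by gcongr
        _ = (X : ℝ) ^ (3 / 100 : ℝ) := by
            rw [← Real.rpow_add hX0]
            norm_num
        _ ≤ (X : ℝ) ^ ((99 / 100 : ℝ) * (4 / 5 : ℝ)) := Real.rpow_le_rpow_of_exponent_le hXX1 (by norm_num)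
        _ = ((X : ℝ) ^ (99 / 100 : ℝ)) ^ (4 / 5 : ℝ) := Real.rpow_mul hX0.le _ _
        _ ≤ (R : ℝ) ^ (4 / 5 : ℝ) := Real.rpow_le_rpow (by positivity) hR99 (by norm_num)
    rw [le_div_iff₀ (by positivity)]
    have h5 : 0 ≤ ((R : ℝ) ^ (3 / 5 : ℝ)) ^ 2 := by positivity
    calc (U.card : ℝ) * ((R : ℝ) ^ (3 / 5 : ℝ)) ^ 2 * ℓ ^ (K + 1) ≤
        (X : ℝ) ^ (1 / 100 : ℝ) * ((R : ℝ) ^ (3 / 5 : ℝ)) ^ 2 * ℓ ^ (K + 1) := by gcongr
      _ = ((R : ℝ) ^ (3 / 5 : ℝ)) ^ 2 * ((X : ℝ) ^ (1 / 100 : ℝ) * ℓ ^ (K + 1)) := by ring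
      _ ≤ ((R : ℝ) ^ (3 / 5 : ℝ)) ^ 2 * (R : ℝ) ^ (4 / 5 : ℝ) := by gcongr
      _ = (R : ℝ) ^ 2 := h2
  -- together
  have hsum : ∀ j ∈ U, ‖RL χ R j‖ ^ 2 ≤ 5 * (
      ‖∑ m ∈ Icc 1 (yy X), ((μ m : ℝ) : ℂ) * ∑ n ∈ Icc 1 (2 * R / m), ((Real.log n : ℝ) : ℂ) *
        (if R < m * n then χ ((m * n : ℕ) : ZMod q) * cj j (m * n) else 0)‖ ^ 2 +
      ‖∑ m ∈ Icc 1 (yy X), ((SW.cUV (yy X) (zz X) m : ℝ) : ℂ) * ∑ n ∈ Icc 1 (2 * R / m), ((1 : ℝ) : ℂ) *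
        (if R < m * n then χ ((m * n : ℕ) : ZMod q) * cj j (m * n) else 0)‖ ^ 2 +
      ‖∑ k ∈ Ioc (R / (yy X * zz X)) (2 * R / yy X), ∑ l ∈ Ioc (R / k) (2 * R / k), χ (k : ZMod q) *
        (if yy X < l then ((SW.cUV (yy X) (zz X) l : ℝ) : ℂ) * χ (l : ZMod q) else 0) * cj j (k * l)‖ ^ 2 +
      ‖∑ k ∈ Ioc (zz X) (2 * R / yy X), ∑ l ∈ Ioc (R / k) (2 * R / k), (((Λ k : ℝ) : ℂ) * χ (k : ZMod q)) *
        (((SW.bU (yy X) l : ℝ) : ℂ) * χ (l : ZMod q)) * cj j (k * l)‖ ^ 2 +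
      ‖RL χ R j - LK χ R (2 * R) j‖ ^ 2) := by
    intro j _
    have h1 := lr_vaughan X q R χ j hY1 hV1 hzR
    have h2 : ∀ A B' C D E : ℂ, ‖A - B' - C + D + E‖ ^ 2 ≤ 5 * (‖A‖ ^ 2 + ‖B'‖ ^ 2 + ‖C‖ ^ 2 + ‖D‖ ^ 2 + ‖E‖ ^ 2) := by
      intro A B' C D E
      have h3 : ‖A - B' - C + D + E‖ ≤ ‖A‖ + ‖B'‖ + ‖C‖ + ‖D‖ + ‖E‖ := by
        have e1 := norm_add_le (A - B' - C + D) E
        have e2 := norm_add_le (A - B' - C) D
        have e3 := norm_sub_le (A - B') C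
        have e4 := norm_sub_le A B'
        linarith
      refine (pow_le_pow_left₀ (norm_nonneg _) h3 2).trans ?_
      nlinarith [sq_nonneg (‖A‖ - ‖B'‖), sq_nonneg (‖A‖ - ‖C‖), sq_nonneg (‖A‖ - ‖D‖), sq_nonneg (‖A‖ - ‖E‖),
        sq_nonneg (‖B'‖ - ‖C‖), sq_nonneg (‖B'‖ - ‖D‖), sq_nonneg (‖B'‖ - ‖E‖), sq_nonneg (‖C‖ - ‖D‖), sq_nonneg (‖C‖ - ‖E‖),
        sq_nonneg (‖D‖ - ‖E‖)]
    have h3 : RL χ R j = LK χ R (2 * R) j + (RL χ R j - LK χ R (2 * R) j) := by ring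
    generalize RL χ R j - LK χ R (2 * R) j = E at h3 ⊢
    rw [h3, h1]
    exact h2 _ _ _ _ _
  refine (sum_le_sum hsum).trans ?_
  rw [← mul_sum, sum_add_distrib, sum_add_distrib, sum_add_distrib, sum_add_distrib]
  have h1 := hS1.trans htI
  have h2 := hS2a.trans htI
  have hRK : 0 ≤ (R : ℝ) ^ 2 / ℓ ^ (K + 1) := by positivity
  calc _ ≤ 5 * (2 * Ct * ((R : ℝ) ^ 2 / ℓ ^ (K + 1)) + 2 * Ct * ((R : ℝ) ^ 2 / ℓ ^ (K + 1)) + (R : ℝ) ^ 2 / ℓ ^ (K + 1) +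
        (R : ℝ) ^ 2 / ℓ ^ (K + 1) + (R : ℝ) ^ 2 / ℓ ^ (K + 1)) := by
        refine mul_le_mul_of_nonneg_left ?_ (by norm_num)
        exact add_le_add (add_le_add (add_le_add (add_le_add h1 h2) hS2b) hS3) hPP
    _ = 5 * (4 * Ct + 3) * ((R : ℝ) ^ 2 / ℓ ^ (K + 1)) := by ring
    _ ≤ ℓ * ((R : ℝ) ^ 2 / ℓ ^ (K + 1)) := mul_le_mul_of_nonneg_right hlC hRK
    _ = (R : ℝ) ^ 2 / ℓ ^ K := by
        have h3 : ℓ ^ (K + 1) = ℓ ^ K * ℓ := pow_succ ℓ K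
        rw [h3]
        field_simp

end Pool.Agent.Lib.G3
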