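import Pool.Agent.Lib.G3.G5Defs
import Pool.Agent.Lib.VK.Vkp

/-!
# G5, row QT, file Qt5.lean (from `Pool.Agent.Lib.VK.vkp`, `c = 1/4`, `R = K`, `t = -j`; `cj j n = nt (-j) n`)
-/

set_option autoImplicit false

open Finset
open scoped ArithmeticFunction.vonMangoldt

namespace Pool.Agent.Lib.G3

open Pool.Agent.Lib.MRT (cj kap)
open Pool.Agent.Lib.GT (e)


theorem qt5 (B c2 : ℕ) : ∃ (c5 : ℕ) (x0 : ℝ), ∀ X : ℕ, x0 ≤ X → ∀ (q : ℕ) (j : ℤ), 1 ≤ q → (q : ℝ) ≤ (Real.log X) ^ c2 →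
    (Real.log X) ^ c5 ≤ |(j : ℝ)| → |(j : ℝ)| ≤ X → Qt X q B j := by
  obtain ⟨C, x0, h⟩ := Pool.Agent.Lib.VK.vkp B c2 (1 / 4) (by norm_num)
  refine ⟨C, x0, fun X hX q j h1 h2 h3 h4 χ K K' hK hKX hKK hK2 => ?_⟩
  have h5 : (X : ℝ) ^ (1 / 4 : ℝ) ≤ K := (Nat.le_ceil _).trans (by exact_mod_cast hK)
  have h6 := (h X hX q χ (-(j : ℝ)) K K' h1 h2 (by rwa [abs_neg]) (by rwa [abs_neg]) h5 hKX hKK hK2).1
  have e1 : LK χ K K' j = ∑ n ∈ Ioc K K', ((Λ n : ℝ) : ℂ) * χ (n : ZMod q) * Pool.Agent.Lib.DN.nt (-(j : ℝ)) n := by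
    unfold LK
    refine Finset.sum_congr rfl fun n _ => ?_
    congr 1
    unfold Pool.Agent.Lib.MRT.cj Pool.Agent.Lib.DN.nt
    congr 1
    push_cast
    ring
  rw [e1]
  exact h6

end Pool.Agent.Lib.G3
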