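import Pool.Agent.Lib.G3.Defs

/-!
# G3, row DS: a long window at a shifted frequency is covered by short windows
-/

set_option autoImplicit false

open Finset

namespace Pool.Agent.Lib.G3

open Pool.Agent.Lib.MRT (cj kap)
open Pool.Agent.Lib.GT (e)

theorem ds_norm_e (x : ℝ) : ‖e x‖ = 1 := by
  unfold e
  have h : (2 * Real.pi * x * Complex.I : ℂ) = ((2 * Real.pi * x : ℝ) : ℂ) * Complex.I := by
    push_cast; ring
  rw [h]
  exact Complex.norm_exp_ofReal_mul_I _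

theorem ds_e_add (x y : ℝ) : e (x + y) = e x * e y := by
  unfold e
  rw [← Complex.exp_add]
  congr 1
  push_cast
  ring

theorem ds_e_sub (x y : ℝ) : ‖e x - e y‖ ≤ 2 * Real.pi * |x - y| := by
  have h1 : e x = e y * e (x - y) := by
    rw [← ds_e_add]; congr 1; ring
  have h2 : e x - e y = e y * (e (x - y) - 1) := by rw [h1]; ring
  rw [h2, norm_mul, ds_norm_e, one_mul]
  unfold e
  have h3 : (2 * Real.pi * ((x - y : ℝ) : ℂ) * Complex.I : ℂ) = Complex.I * ((2 * Real.pi * (x - y) : ℝ) : ℂ) := by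
    push_cast; ring
  rw [h3]
  have h4 := Real.norm_exp_I_mul_ofReal_sub_one_le (x := 2 * Real.pi * (x - y))
  rw [Real.norm_eq_abs, abs_mul, abs_of_pos (by positivity : (0 : ℝ) < 2 * Real.pi)] at h4
  exact h4

/-- the short window at `0` is empty -/
theorem ds_WW_zero (F : ℕ → ℂ) (H : ℕ) (α : ℝ) : WW F H α 0 = 0 := by
  unfold WW
  simp

/-- cutting a window -/
theorem ds_cut (f : ℕ → ℂ) (H1 y : ℕ) : ∀ t : ℕ,
    ∑ n ∈ Ioc (y - t * H1) y, f n = ∑ i ∈ range t, ∑ n ∈ Ioc (y - i * H1 - H1) (y - i * H1), f n := by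
  intro t
  induction t with
  | zero => simp
  | succ t ih =>
    rw [sum_range_succ, ← ih]
    have h1 : y - (t + 1) * H1 = y - t * H1 - H1 := by
      rw [add_mul, one_mul, Nat.sub_sub]
    rw [h1, add_comm]
    exact (sum_Ioc_consecutive f (Nat.sub_le _ _) (Nat.sub_le _ _)).symm

theorem ds_point (F : ℕ → ℂ) {S : ℝ} (hF : ∀ n, ‖F n‖ ≤ S) (t H1 : ℕ) (ρ θ : ℝ) (y : ℕ) :
    ‖WW F (t * H1) (ρ + θ) y‖ ≤
      ∑ i ∈ range t, ‖WW F H1 ρ (y - i * H1)‖ + 2 * Real.pi * |θ| * (t * H1) * H1 * S := by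
  have hS : 0 ≤ S := (norm_nonneg _).trans (hF 0)
  unfold WW
  rw [ds_cut]
  have key : ∀ i ∈ range t, ‖∑ n ∈ Ioc (y - i * H1 - H1) (y - i * H1), F n * e (n * (ρ + θ))‖ ≤
      ‖∑ n ∈ Ioc (y - i * H1 - H1) (y - i * H1), F n * e (n * ρ)‖ + H1 * (S * (2 * Real.pi * (|θ| * H1))) := by
    intro i _
    set z := y - i * H1 with hz
    have h1 : ∑ n ∈ Ioc (z - H1) z, F n * e (n * (ρ + θ)) =
        e (z * θ) * ∑ n ∈ Ioc (z - H1) z, F n * e (n * ρ) +
          ∑ n ∈ Ioc (z - H1) z, F n * e (n * ρ) * (e (n * θ) - e (z * θ)) := by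
      rw [mul_sum, ← sum_add_distrib]
      refine sum_congr rfl fun n _ => ?_
      rw [mul_add, ds_e_add]
      ring
    rw [h1]
    refine (norm_add_le _ _).trans (add_le_add ?_ ?_)
    · rw [norm_mul, ds_norm_e, one_mul]
    · refine (norm_sum_le _ _).trans ?_
      have h2 : ∀ n ∈ Ioc (z - H1) z, ‖F n * e (n * ρ) * (e (n * θ) - e (z * θ))‖ ≤ S * (2 * Real.pi * (|θ| * H1)) := by
        intro n hn
        rw [mem_Ioc] at hn
        rw [norm_mul, norm_mul, ds_norm_e, mul_one]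
        refine mul_le_mul (hF n) ?_ (norm_nonneg _) hS
        refine (ds_e_sub _ _).trans ?_
        refine mul_le_mul_of_nonneg_left ?_ (by positivity)
        rw [← sub_mul, abs_mul, mul_comm]
        refine mul_le_mul_of_nonneg_left ?_ (abs_nonneg _)
        rw [abs_le]
        have h3 : (n : ℝ) ≤ z := by exact_mod_cast hn.2
        have h4 : (z : ℝ) ≤ n + H1 := by
          have : z ≤ n + H1 := by omega
          exact_mod_cast this
        constructor <;> linarith [Nat.cast_nonneg (α := ℝ) H1]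
      refine (sum_le_sum h2).trans ?_
      rw [sum_const, nsmul_eq_mul]
      refine mul_le_mul_of_nonneg_right ?_ (by positivity)
      have : (Ioc (z - H1) z).card ≤ H1 := by
        rw [Nat.card_Ioc]; omega
      exact_mod_cast this
  refine (norm_sum_le _ _).trans ((sum_le_sum key).trans ?_)
  rw [sum_add_distrib, sum_const, card_range, nsmul_eq_mul]
  refine add_le_add le_rfl (le_of_eq ?_)
  ring

theorem dshift (F : ℕ → ℂ) {S : ℝ} (hF : ∀ n, ‖F n‖ ≤ S) (t H1 : ℕ) (ρ θ : ℝ) (Y : ℕ) :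
    VV F (t * H1) (ρ + θ) Y ≤ 2 * t ^ 2 * VV F H1 ρ Y + 2 * Y * (2 * Real.pi * |θ| * (t * H1) * H1 * S) ^ 2 := by
  unfold VV
  set E := 2 * Real.pi * |θ| * (t * H1) * H1 * S with hE
  have h1 : ∀ y ∈ range Y, ‖WW F (t * H1) (ρ + θ) y‖ ^ 2 ≤
      2 * (t * ∑ i ∈ range t, ‖WW F H1 ρ (y - i * H1)‖ ^ 2) + 2 * E ^ 2 := by
    intro y _
    have h2 := ds_point F hF t H1 ρ θ y
    rw [← hE] at h2
    have h3 : (∑ i ∈ range t, ‖WW F H1 ρ (y - i * H1)‖) ^ 2 ≤ t * ∑ i ∈ range t, ‖WW F H1 ρ (y - i * H1)‖ ^ 2 := by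
      have := sq_sum_le_card_mul_sum_sq (s := range t) (f := fun i => ‖WW F H1 ρ (y - i * H1)‖)
      rwa [card_range] at this
    have h4 : 0 ≤ ∑ i ∈ range t, ‖WW F H1 ρ (y - i * H1)‖ := sum_nonneg fun _ _ => norm_nonneg _
    have h5 : ‖WW F (t * H1) (ρ + θ) y‖ ^ 2 ≤ (∑ i ∈ range t, ‖WW F H1 ρ (y - i * H1)‖ + E) ^ 2 :=
      pow_le_pow_left₀ (norm_nonneg _) h2 2
    have h6 : (∑ i ∈ range t, ‖WW F H1 ρ (y - i * H1)‖ + E) ^ 2 ≤
        2 * (∑ i ∈ range t, ‖WW F H1 ρ (y - i * H1)‖) ^ 2 + 2 * E ^ 2 := by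
      nlinarith [sq_nonneg (∑ i ∈ range t, ‖WW F H1 ρ (y - i * H1)‖ - E)]
    linarith
  refine (sum_le_sum h1).trans ?_
  rw [sum_add_distrib, sum_const, card_range, nsmul_eq_mul, ← mul_sum, ← mul_sum, sum_comm]
  have h2 : ∀ i ∈ range t, ∑ y ∈ range Y, ‖WW F H1 ρ (y - i * H1)‖ ^ 2 ≤ ∑ y ∈ range Y, ‖WW F H1 ρ y‖ ^ 2 := by
    intro i _
    have h3 : ∑ y ∈ range Y, ‖WW F H1 ρ (y - i * H1)‖ ^ 2 =
        ∑ y ∈ (range Y).filter (fun y => i * H1 ≤ y), ‖WW F H1 ρ (y - i * H1)‖ ^ 2 := by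
      rw [sum_filter]
      refine sum_congr rfl fun y _ => ?_
      split_ifs with h
      · rfl
      · rw [Nat.sub_eq_zero_of_le (by omega), ds_WW_zero]; simp
    rw [h3]
    have h4 : ∑ y ∈ (range Y).filter (fun y => i * H1 ≤ y), ‖WW F H1 ρ (y - i * H1)‖ ^ 2 =
        ∑ z ∈ ((range Y).filter (fun y => i * H1 ≤ y)).image (fun y => y - i * H1), ‖WW F H1 ρ z‖ ^ 2 := by
      rw [sum_image]
      intro a ha b hb hab
      simp only [coe_filter, Set.mem_ofPred_eq, mem_range] at ha hb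
      simp only at hab
      omega
    rw [h4]
    refine sum_le_sum_of_subset_of_nonneg ?_ fun _ _ _ => by positivity
    intro z hz
    rw [mem_image] at hz
    obtain ⟨y, hy, rfl⟩ := hz
    rw [mem_filter, mem_range] at hy
    rw [mem_range]
    omega
  have h3 := sum_le_sum h2
  rw [sum_const, card_range, nsmul_eq_mul] at h3
  have h4 : 2 * ((t : ℝ) * ∑ i ∈ range t, ∑ y ∈ range Y, ‖WW F H1 ρ (y - i * H1)‖ ^ 2) ≤
      2 * (t * (t * ∑ y ∈ range Y, ‖WW F H1 ρ y‖ ^ 2)) := by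
    have h5 : (0 : ℝ) ≤ t := Nat.cast_nonneg _
    have := mul_le_mul_of_nonneg_left h3 h5
    linarith
  nlinarith [h4]

end Pool.Agent.Lib.G3
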