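import Pool.Agent.Lib.G3.Defs2
import Pool.Agent.Lib.SW.Vaughan

/-!
# G2: a prime plus a product of exactly TWO primes in windows of length `(log X)^C`, definitions
-/

set_option autoImplicit false

open Finset
open scoped ArithmeticFunction.vonMangoldt

namespace Pool.Agent.Lib.G3

open Pool.Agent.Lib.MRT (cj kap)
open Pool.Agent.Lib.GT (e)

/-- the parameters for `k = 2` -/
structure Par2 (X P R : ℕ) (c1 : ℕ) : Prop where
  hP : P = ⌊(Real.log X) ^ c1⌋₊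
  hR : R = X / (16 * P)

/-- the products `p r`, `p` a prime of `(P, 2P]`, `r` a prime of `(R, 2R]`, with the weight `log r / log 2R` -/
noncomputable def b2 (P R n : ℕ) : ℂ :=
  ∑ p ∈ pr P, ∑ r ∈ pr R, if p * r = n then ((lp r / Real.log (2 * R : ℕ) : ℝ) : ℂ) else 0

/-- `∑ log r χ(r) r^(-ij)` over the primes of `(R, 2R]` -/
noncomputable def RL {q : ℕ} (χ : DirichletCharacter ℂ q) (R : ℕ) (j : ℤ) : ℂ :=
  ∑ r ∈ pr R, ((lp r : ℝ) : ℂ) * χ (r : ZMod q) * cj j r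

/-- `∑_{K < k ≤ K'} Λ(k) χ(k) k^(-ij)` -/
noncomputable def LK {q : ℕ} (χ : DirichletCharacter ℂ q) (K K' : ℕ) (j : ℤ) : ℂ :=
  ∑ k ∈ Ioc K K', ((Λ k : ℝ) : ℂ) * χ (k : ZMod q) * cj j k

/-- the lower end `X^(1/4)` of the prime variable -/
noncomputable def zz (X : ℕ) : ℕ := ⌈(X : ℝ) ^ (1 / 4 : ℝ)⌉₊

/-- the lower end `X^(46/100)` of the long variable -/
noncomputable def yy (X : ℕ) : ℕ := ⌈(X : ℝ) ^ (46 / 100 : ℝ)⌉₊

/-- quiet frequencies: all sums over the primes of intervals `(K, K']`, `X^(1/4) ≤ K ≤ X`, are at most `K / (log X)^B` -/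
def Qt (X q B : ℕ) (j : ℤ) : Prop :=
  ∀ (χ : DirichletCharacter ℂ q) (K K' : ℕ), zz X ≤ K → K ≤ X → K ≤ K' → K' ≤ 2 * K → ‖LK χ K K' j‖ ≤ K / (Real.log X) ^ B

/-- the frequencies kept in the model at denominator `q` -/
noncomputable def J2 (q X T0 T B : ℕ) : Finset ℤ :=
  open Classical in (Icc (-(T : ℤ)) T).filter fun j => |j| ≤ (T0 : ℤ) ∨ ¬ Qt X q B j

/-- the model of `F` with an arbitrary family of frequencies -/
noncomputable def MG (F : ℕ → ℂ) (X Q : ℕ) (J : ℕ → Finset ℤ) (n : ℕ) : ℂ :=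
  ∑ q ∈ Icc 1 Q, ∑ a ∈ cl q, e (n * ((a : ℝ) / q)) * mo (bq F X ((a : ℝ) / q)) (J q) X n

/-- trapezoid weight: the length of `[t, t + η] ∩ [log R, log 2R]` divided by `η`, at `t = log n` -/
noncomputable def tw (η : ℝ) (R n : ℕ) : ℝ :=
  max 0 (min (Real.log n + η) (Real.log (2 * R : ℕ)) - max (Real.log n) (Real.log R)) / η

end Pool.Agent.Lib.G3
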