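import Pool.Agent.Lib.G3.MajV
import Pool.Agent.Lib.G3.G2Defs

/-!
# G4, generic form of row MV: the local mean square of `F` minus its model at a rational frequency, for an arbitrary `F`

`L` is (about) `log X`; `J` the family of frequencies at the denominator `q`.
-/

set_option autoImplicit false

open Finset

namespace Pool.Agent.Lib.G3

open Pool.Agent.Lib.MRT (cj kap)
open Pool.Agent.Lib.GT (e)

private theorem mg_char {F : ℕ → ℂ} {X : ℕ} {q b : ℕ} (hq : 1 ≤ q) (hcop : ∀ n, F n ≠ 0 → Nat.Coprime n q)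
    {δ Z : ℝ} (J' : Finset ℤ) (h : ∀ χ : DirichletCharacter ℂ q, ∑ j ∈ J', kap δ j * ‖bc F X χ j‖ ^ 2 ≤ Z)
    (hZ : 0 ≤ Z) (hk : ∀ j, 0 ≤ kap δ j) :
    ∑ j ∈ J', kap δ j * ‖bq F X ((b : ℝ) / q) j‖ ^ 2 ≤ (q : ℝ) ^ 2 * Z := by
  classical
  have : NeZero q := ⟨by omega⟩
  have hcard : ((univ : Finset (DirichletCharacter ℂ q)).card : ℝ) ≤ q := by
    have h1 : (univ : Finset (DirichletCharacter ℂ q)).card = q.totient := by
      rw [Finset.card_univ, ← Nat.card_eq_fintype_card]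
      exact DirichletCharacter.card_eq_totient_of_hasEnoughRootsOfUnity ℂ q
    rw [h1]
    exact_mod_cast Nat.totient_le q
  have h1 : ∀ j ∈ J', kap δ j * ‖bq F X ((b : ℝ) / q) j‖ ^ 2 ≤
      q * ∑ χ : DirichletCharacter ℂ q, kap δ j * ‖bc F X χ j‖ ^ 2 := by
    intro j _
    have h2 := bqc hq b F X hcop j
    have h3 : ‖bq F X ((b : ℝ) / q) j‖ ^ 2 ≤ q * ∑ χ : DirichletCharacter ℂ q, ‖bc F X χ j‖ ^ 2 := by
      refine (pow_le_pow_left₀ (norm_nonneg _) h2 2).trans ?_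
      refine (sq_sum_le_card_mul_sum_sq).trans ?_
      exact mul_le_mul_of_nonneg_right hcard (sum_nonneg fun _ _ => by positivity)
    calc kap δ j * ‖bq F X ((b : ℝ) / q) j‖ ^ 2 ≤ kap δ j * (q * ∑ χ : DirichletCharacter ℂ q, ‖bc F X χ j‖ ^ 2) :=
          mul_le_mul_of_nonneg_left h3 (hk j)
      _ = q * ∑ χ : DirichletCharacter ℂ q, kap δ j * ‖bc F X χ j‖ ^ 2 := by
          rw [Finset.mul_sum, Finset.mul_sum, Finset.mul_sum]
          refine sum_congr rfl fun χ _ => ?_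
          ring
  refine (sum_le_sum h1).trans ?_
  rw [← Finset.mul_sum, Finset.sum_comm]
  calc (q : ℝ) * ∑ χ : DirichletCharacter ℂ q, ∑ j ∈ J', kap δ j * ‖bc F X χ j‖ ^ 2 ≤
        q * ∑ _χ : DirichletCharacter ℂ q, Z := mul_le_mul_of_nonneg_left (sum_le_sum fun χ _ => h χ) (by positivity)
    _ ≤ q * (q * Z) := by
        refine mul_le_mul_of_nonneg_left ?_ (by positivity)
        rw [sum_const, nsmul_eq_mul]
        exact mul_le_mul_of_nonneg_right hcard hZ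
    _ = (q : ℝ) ^ 2 * Z := by ring

private theorem mg_kap (δ : ℝ) (j : ℤ) : 0 ≤ kap δ j := by
  unfold kap
  split_ifs
  · positivity
  · exact le_min (by positivity) (by positivity)

/-- the final numerical step -/
private theorem mg_num {C L X H t D TT : ℝ} {A c2 c4 c7 K : ℕ} (hC : 0 < C) (hL : 2 ≤ L) (hLC : 16 * C ≤ L) (hK : K = 2 * c2 + A + 8)
    (hc4 : c4 = c7 + A + 10) (ht1 : L ^ c4 ≤ t) (ht2 : t ≤ 2 * L ^ c4) (hD : 0 ≤ D) (hD7 : D ≤ L ^ c7) (hH : L ^ (c7 + c4 + K + A + 23) ≤ H)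
    (hX : 0 < X) (hHX : H * L ^ (2 * c7 + A + 8) ≤ X) (hTT : 0 ≤ TT) (hT : TT ≤ 4 * L ^ (K + 10) * L ^ c4) :
    C * (t ^ 2 * X * (L ^ (2 * c2) * ((H / (t * X)) ^ 2 * X ^ 2 / L ^ K)) + X * (D * (H / t + t + TT)) ^ 2 + H ^ 3 * D ^ 2) ≤
      X * H ^ 2 / L ^ (A + 5) := by
  have hL0 : 0 < L := by linarith
  have hL1 : 1 ≤ L := by linarith
  have ht0 : 0 < t := lt_of_lt_of_le (pow_pos hL0 _) ht1
  have hH0 : 0 < H := lt_of_lt_of_le (pow_pos hL0 _) hH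
  -- first term
  have e1 : t ^ 2 * X * (L ^ (2 * c2) * ((H / (t * X)) ^ 2 * X ^ 2 / L ^ K)) = X * H ^ 2 / L ^ (A + 8) := by
    have h1 : L ^ K = L ^ (2 * c2) * L ^ (A + 8) := by rw [← pow_add, hK]; ring_nf
    rw [h1]
    field_simp
  -- second term
  have e2 : D * (H / t + t + TT) ≤ 2 * H / L ^ (A + 10) := by
    have h1 : D * (H / t) ≤ H / L ^ (A + 10) := by
      rw [← mul_div_assoc, div_le_div_iff₀ ht0 (pow_pos hL0 _)]
      calc D * H * L ^ (A + 10) ≤ L ^ c7 * H * L ^ (A + 10) := by gcongr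
        _ = H * L ^ c4 := by rw [hc4, add_assoc, pow_add L c7]; ring
        _ ≤ H * t := mul_le_mul_of_nonneg_left ht1 hH0.le
    have h2 : D * (t + TT) ≤ H / L ^ (A + 10) := by
      rw [le_div_iff₀ (pow_pos hL0 _)]
      have h3 : t + TT ≤ L ^ 3 * (L ^ (K + 10) * L ^ c4) := by
        have h4 : t ≤ 2 * (L ^ (K + 10) * L ^ c4) := by
          refine ht2.trans ?_
          have : 1 ≤ L ^ (K + 10) := one_le_pow₀ hL1
          nlinarith [pow_pos hL0 c4]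
        have h5 : (6 : ℝ) ≤ L ^ 3 := by nlinarith [mul_self_nonneg (L - 2)]
        have h6 : 0 < L ^ (K + 10) * L ^ c4 := by positivity
        nlinarith
      calc D * (t + TT) * L ^ (A + 10) ≤ L ^ c7 * (L ^ 3 * (L ^ (K + 10) * L ^ c4)) * L ^ (A + 10) := by gcongr
        _ = L ^ (c7 + c4 + K + A + 23) := by rw [← pow_add, ← pow_add, ← pow_add, ← pow_add]; congr 1; ring
        _ ≤ H := hH
    calc D * (H / t + t + TT) = D * (H / t) + D * (t + TT) := by ring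
      _ ≤ H / L ^ (A + 10) + H / L ^ (A + 10) := add_le_add h1 h2
      _ = 2 * H / L ^ (A + 10) := by ring
  have e2' : X * (D * (H / t + t + TT)) ^ 2 ≤ X * H ^ 2 / L ^ (A + 8) := by
    have h0 : 0 ≤ D * (H / t + t + TT) := by positivity
    have h1 : (D * (H / t + t + TT)) ^ 2 ≤ (2 * H / L ^ (A + 10)) ^ 2 := pow_le_pow_left₀ h0 e2 2
    have h2 : (2 * H / L ^ (A + 10)) ^ 2 ≤ H ^ 2 / L ^ (A + 8) := by
      rw [div_pow, div_le_div_iff₀ (by positivity) (by positivity)]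
      have h3 : L ^ (A + 8) * 4 ≤ (L ^ (A + 10)) ^ 2 := by
        have h4 : (L ^ (A + 10)) ^ 2 = L ^ (A + 8) * (L ^ 2 * L ^ (A + 10)) := by
          rw [← pow_mul, ← pow_add, ← pow_add]; congr 1; ring
        rw [h4]
        refine mul_le_mul_of_nonneg_left ?_ (by positivity)
        have h5 : 1 ≤ L ^ (A + 10) := one_le_pow₀ hL1
        nlinarith
      calc (2 * H) ^ 2 * L ^ (A + 8) = H ^ 2 * (L ^ (A + 8) * 4) := by ring
        _ ≤ H ^ 2 * (L ^ (A + 10)) ^ 2 := mul_le_mul_of_nonneg_left h3 (by positivity)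
    calc X * (D * (H / t + t + TT)) ^ 2 ≤ X * (H ^ 2 / L ^ (A + 8)) :=
          mul_le_mul_of_nonneg_left (h1.trans h2) hX.le
      _ = X * H ^ 2 / L ^ (A + 8) := by ring
  -- third term
  have e3 : H ^ 3 * D ^ 2 ≤ X * H ^ 2 / L ^ (A + 8) := by
    rw [le_div_iff₀ (by positivity)]
    calc H ^ 3 * D ^ 2 * L ^ (A + 8) ≤ H ^ 3 * (L ^ c7) ^ 2 * L ^ (A + 8) := by gcongr
      _ = H ^ 2 * (H * L ^ (2 * c7 + A + 8)) := by
          have : L ^ (2 * c7 + A + 8) = (L ^ c7) ^ 2 * L ^ (A + 8) := by rw [← pow_mul, ← pow_add]; congr 1; ring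
          rw [this]; ring
      _ ≤ H ^ 2 * X := mul_le_mul_of_nonneg_left hHX (by positivity)
      _ = X * H ^ 2 := by ring
  rw [e1]
  calc C * (X * H ^ 2 / L ^ (A + 8) + X * (D * (H / t + t + TT)) ^ 2 + H ^ 3 * D ^ 2) ≤
        C * (X * H ^ 2 / L ^ (A + 8) + X * H ^ 2 / L ^ (A + 8) + X * H ^ 2 / L ^ (A + 8)) := by gcongr
    _ = (3 * C) * (X * H ^ 2 / L ^ (A + 8)) := by ring
    _ ≤ L ^ 3 * (X * H ^ 2 / L ^ (A + 8)) := by
        refine mul_le_mul_of_nonneg_right ?_ (by positivity)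
        nlinarith [mul_self_nonneg (L - 2), pow_pos hL0 3, pow_pos hL0 2]
    _ = X * H ^ 2 / L ^ (A + 5) := by
        rw [show A + 8 = (A + 5) + 3 by ring, pow_add L (A + 5) 3]
        field_simp

/-- the generic major frequency bound -/
theorem majG : ∃ L0 : ℝ, ∀ (A g c7 c4 K cH N : ℕ) (L : ℝ) (X H T q b : ℕ) (F : ℕ → ℂ) (J : Finset ℤ), K = 2 * g + A + 8 → c4 = c7 + A + 10 → L0 ≤ L →
    L ^ (N + 2 * c7 + A + 8 + c4 + K + 30) ≤ X → (∀ n, ‖F n‖ ≤ 1) → (∀ n, F n ≠ 0 → X < 64 * n ∧ n ≤ X) → (∀ n, F n ≠ 0 → Nat.Coprime n q) →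
    1 ≤ q → (q : ℝ) ≤ L ^ g → L ^ (cH + c7 + c4 + K + A + 30) ≤ H → (H : ℝ) ≤ L ^ N → T = ⌈L ^ (K + 10) * (⌈L ^ c4⌉₊ * X / H)⌉₊ →
    (T ≤ X → (∀ j ∈ J, |j| ≤ (T : ℤ)) ∧ 1 + (J.card : ℝ) ≤ L ^ c7) →
    (∀ δ : ℝ, 0 < δ → δ ≤ 1 → L ^ (cH + K + 20) ≤ δ * X → L ^ (K + 10) / δ ≤ T → (T : ℝ) ≤ 2 * L ^ (K + 10) / δ →
      ∀ (χ : DirichletCharacter ℂ q) (J' : Finset ℤ), (∀ j ∈ J', j ∉ J) →
        ∑ j ∈ J', kap δ j * ‖bc F X χ j‖ ^ 2 ≤ δ ^ 2 * (X : ℝ) ^ 2 / L ^ K) →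
      ∑ y ∈ range (X + H + 1), ‖∑ n ∈ Ioc (y - H) y, (F n * e (-(n * ((b : ℝ) / q))) -
        mo (bq F X ((b : ℝ) / q)) J X n)‖ ^ 2 ≤ X * (H : ℝ) ^ 2 / L ^ (A + 5) := by
  obtain ⟨C, hC, hconv⟩ := conv
  refine ⟨max 4 (16 * C), ?_⟩
  intro A g c7 c4 K cH N L X H T q b F J hK hc4 hLg hLX hF1 hFs hFc hq hqL hH1 hH2 hT hJ hmr
  have hL4 : 4 ≤ L := (le_max_left _ _).trans hLg
  have hLC : 16 * C ≤ L := (le_max_right _ _).trans hLg
  have hL0 : 0 < L := by linarith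
  have hL1 : 1 ≤ L := by linarith
  have hX100 : (100 : ℝ) ≤ X := by
    refine le_trans ?_ hLX
    calc (100 : ℝ) ≤ 4 ^ 30 := by norm_num
      _ ≤ L ^ 30 := pow_le_pow_left₀ (by norm_num) hL4 30
      _ ≤ L ^ (N + 2 * c7 + A + 8 + c4 + K + 30) := pow_le_pow_right₀ hL1 (by omega)
  have hXp : (0 : ℝ) < X := by linarith
  set t : ℕ := ⌈L ^ c4⌉₊ with ht
  have ht1 : L ^ c4 ≤ t := Nat.le_ceil _
  have hLc4 : 1 ≤ L ^ c4 := one_le_pow₀ hL1
  have ht2 : (t : ℝ) ≤ 2 * L ^ c4 := by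
    have := Nat.ceil_lt_add_one (show 0 ≤ L ^ c4 by positivity)
    linarith
  have ht0 : (0 : ℝ) < t := by linarith
  have htn : 1 ≤ t := by exact_mod_cast (show (0 : ℝ) < t from ht0)
  have hH0 : (0 : ℝ) < H := lt_of_lt_of_le (pow_pos hL0 _) hH1
  have hHn : 1 ≤ H := by exact_mod_cast (show (0 : ℝ) < H from hH0)
  -- powers
  have hpw : ∀ m : ℕ, m ≤ N + 2 * c7 + A + 8 + c4 + K + 30 → L ^ m ≤ X := fun m hm =>
    (pow_le_pow_right₀ hL1 hm).trans hLX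
  have htH : 1000 * (t * H) ≤ X := by
    have h1 : (1000 : ℝ) * (t * H) ≤ X := by
      calc (1000 : ℝ) * (t * H) ≤ L ^ 5 * ((L * L ^ c4) * L ^ N) := by
            have h2 : (1000 : ℝ) ≤ L ^ 5 := by
              calc (1000 : ℝ) ≤ 4 ^ 5 := by norm_num
                _ ≤ L ^ 5 := pow_le_pow_left₀ (by norm_num) hL4 5
            have h3 : (t : ℝ) ≤ L * L ^ c4 := by nlinarith
            gcongr
        _ = L ^ (N + c4 + 6) := by rw [← pow_succ', ← pow_add, ← pow_add]; congr 1; ring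
        _ ≤ X := hpw _ (by omega)
    exact_mod_cast h1
  set δ : ℝ := (H : ℝ) / (t * X) with hδ
  have hδ0 : 0 < δ := by positivity
  have hδ1 : δ ≤ 1 := by
    rw [hδ, div_le_one (by positivity)]
    have h1 : (H : ℝ) ≤ X := by
      have h2 : t * H ≤ X := by omega
      have h3 : H ≤ t * H := Nat.le_mul_of_pos_left _ (by omega)
      exact_mod_cast h3.trans h2
    have h2 : (1 : ℝ) ≤ t := by exact_mod_cast htn
    nlinarith
  have hδX : δ * X = H / t := by rw [hδ]; field_simp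
  have hTr : (T : ℝ) = ⌈L ^ (K + 10) / δ⌉₊ := by
    have : L ^ (K + 10) * (t * X / H) = L ^ (K + 10) / δ := by rw [hδ]; field_simp
    rw [hT, this]
  have hT1 : L ^ (K + 10) / δ ≤ T := by rw [hTr]; exact Nat.le_ceil _
  have hKδ : 1 ≤ L ^ (K + 10) / δ := by
    rw [le_div_iff₀ hδ0]
    have : 1 ≤ L ^ (K + 10) := one_le_pow₀ hL1
    linarith
  have hT2 : (T : ℝ) ≤ 2 * L ^ (K + 10) / δ := by
    rw [hTr]
    have := Nat.ceil_lt_add_one (show 0 ≤ L ^ (K + 10) / δ by positivity)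
    have h2 : 2 * L ^ (K + 10) / δ = 2 * (L ^ (K + 10) / δ) := by ring
    linarith
  have hTT : (T : ℝ) * H / X ≤ 4 * L ^ (K + 10) * L ^ c4 := by
    have h1 : (T : ℝ) * H / X ≤ (2 * L ^ (K + 10) / δ) * H / X := by gcongr
    have h2 : (2 * L ^ (K + 10) / δ) * H / X = 2 * L ^ (K + 10) * t := by rw [hδ]; field_simp
    rw [h2] at h1
    refine h1.trans ?_
    have h3 : 0 ≤ 2 * L ^ (K + 10) := by positivity
    nlinarith [mul_le_mul_of_nonneg_left ht2 h3]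
  have hT1' : (1 : ℝ) ≤ T := hKδ.trans hT1
  have hHt : L ^ (cH + K + 20) ≤ δ * X := by
    rw [hδX, le_div_iff₀ ht0]
    calc L ^ (cH + K + 20) * t ≤ L ^ (cH + K + 20) * (2 * L ^ c4) := by gcongr
      _ ≤ L ^ (cH + K + 20) * (L * L ^ c4) := by gcongr; linarith
      _ = L ^ (cH + K + 21 + c4) := by rw [← pow_succ', ← pow_add]; congr 1; ring
      _ ≤ L ^ (cH + c7 + c4 + K + A + 30) := pow_le_pow_right₀ hL1 (by omega)
      _ ≤ H := hH1
  have hTX : (T : ℝ) ≤ X := by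
    refine hT2.trans ?_
    rw [div_le_iff₀ hδ0, mul_comm (X : ℝ) δ]
    refine le_trans ?_ hHt
    calc 2 * L ^ (K + 10) ≤ L * L ^ (K + 10) := by gcongr; linarith
      _ = L ^ (K + 11) := by rw [← pow_succ']
      _ ≤ L ^ (cH + K + 20) := pow_le_pow_right₀ hL1 (by omega)
  have hTXn : T ≤ X := by exact_mod_cast hTX
  obtain ⟨hJT, hJc⟩ := hJ hTXn
  set f : ℕ → ℂ := fun n => F n * e (-(n * ((b : ℝ) / q))) with hf
  have hbq : (fun j => ∑ l ∈ Icc 1 X, f l * cj j l) = bq F X ((b : ℝ) / q) := rfl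
  have hne : ∀ x : ℝ, ‖e x‖ = 1 := by
    intro x
    unfold Pool.Agent.Lib.GT.e
    rw [show (2 * Real.pi * x * Complex.I : ℂ) = ((2 * Real.pi * x : ℝ) : ℂ) * Complex.I by push_cast; ring]
    exact Complex.norm_exp_ofReal_mul_I _
  have hfn : ∀ n, ‖f n‖ ≤ 1 := by
    intro n
    rw [hf]
    simp only
    rw [norm_mul, hne, mul_one]
    exact hF1 n
  have hfs : ∀ n, f n ≠ 0 → X < 64 * n ∧ n ≤ X := by
    intro n hn
    exact hFs n fun h => hn (by rw [hf]; simp only; rw [h, zero_mul])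
  have hcv := hconv X H t f J 1 1 T ((q : ℝ) ^ 2 * (δ ^ 2 * (X : ℝ) ^ 2 / L ^ K)) hHn htn htH le_rfl le_rfl hT1' hfs hfn ?_ ?_ ?_
  · rw [hbq] at hcv
    refine hcv.trans ?_
    have hq2 : (q : ℝ) ^ 2 ≤ L ^ (2 * g) := by
      rw [mul_comm 2 g, pow_mul]
      exact pow_le_pow_left₀ (by positivity) hqL 2
    have hHl : L ^ (c7 + c4 + K + A + 23) ≤ (H : ℝ) :=
      le_trans (pow_le_pow_right₀ hL1 (by omega)) hH1
    have hnum := mg_num (A := A) (c2 := g) (c4 := c4) (c7 := c7) (K := K) (D := 1 + J.card) (TT := T * H / X) (t := t) (H := H) (X := X)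
      hC (by linarith) hLC hK hc4 ht1 ht2 (by positivity) hJc hHl hXp ?_ (by positivity) hTT
    · refine le_trans ?_ hnum
      rw [← hδ, mul_one]
      gcongr
    · calc (H : ℝ) * L ^ (2 * c7 + A + 8) ≤ L ^ N * L ^ (2 * c7 + A + 8) := by gcongr
        _ = L ^ (N + (2 * c7 + A + 8)) := by rw [← pow_add]
        _ ≤ X := hpw _ (by omega)
  · intro j hj
    exact_mod_cast hJT j hj
  · intro j _
    rw [one_mul]
    exact bq_le hF1 X _ j
  · intro J' hJ'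
    refine mg_char hq hFc J' (fun χ => ?_) (by positivity) (mg_kap _)
    exact hmr δ hδ0 hδ1 hHt hT1 hT2 χ J' fun j hj hjJ => (Finset.disjoint_left.1 hJ' hj) hjJ

end Pool.Agent.Lib.G3
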