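import Mathlib

/-!
# G3, row VB: numerics for the choice of the parameters
-/

set_option autoImplicit false

open Finset

namespace Pool.Agent.Lib.G3

/-- major frequencies, numerically -/
theorem vb_num1 {C L X H t Q D θ S VV1 Y : ℝ} {A g c7 u c3 s τ : ℕ} (hC : 0 < C) (hL : 4 ≤ L) (hLC : 16 * C ≤ L) (hu : u = 2 * g + c7 + A + 10)
    (hs : s = 2 * g + c7 + 6) (hτ : τ = c3 + s + A + 10) (hH0 : 0 < H) (hH : L ^ (6 * g + 2 * c7 + u + A + 8) ≤ H) (hX : H * L ^ (4 * g + 2 * c7 + A + 8) ≤ X)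
    (ht : L ^ τ ≤ t) (hQ0 : 0 ≤ Q) (hQ : Q ≤ L ^ g) (hD0 : 0 ≤ D) (hD : D ≤ L ^ c7)
    (hV : VV1 ≤ 2 * (X * H ^ 2 / L ^ (A + 5)) + C * Q ^ 4 * D ^ 2 * X * (H ^ 2 * ((L ^ u / H) * Q ^ 2) + 1 / (L ^ u / H) ^ 2 + H ^ 3 / X))
    (hS : S = 1 + 400 * Q ^ 2 * D) (hθ : |θ| * (t * H) ≤ L ^ c3) (_hY0 : 0 ≤ Y) (hY : Y ≤ 2 * X) :
    2 * t ^ 2 * VV1 + 2 * Y * (2 * Real.pi * |θ| * (t * H) * H * S) ^ 2 ≤ X * (t * H) ^ 2 / L ^ A := by
  have hL0 : 0 < L := by linarith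
  have hL1 : 1 ≤ L := by linarith
  have hX0 : 0 < X := lt_of_lt_of_le (by positivity) hX
  have ht0 : 0 < t := lt_of_lt_of_le (by positivity) ht
  -- the bracket
  have b1 : Q ^ 4 * D ^ 2 * X * (H ^ 2 * ((L ^ u / H) * Q ^ 2) + 1 / (L ^ u / H) ^ 2 + H ^ 3 / X) ≤ 3 * (X * H ^ 2 / L ^ (A + 8)) := by
    have c1 : Q ^ 4 * D ^ 2 ≤ L ^ (4 * g + 2 * c7) := by
      calc Q ^ 4 * D ^ 2 ≤ (L ^ g) ^ 4 * (L ^ c7) ^ 2 := by gcongr
        _ = L ^ (4 * g + 2 * c7) := by rw [← pow_mul, ← pow_mul, ← pow_add]; congr 1; ring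
    have c2 : H ^ 2 * ((L ^ u / H) * Q ^ 2) ≤ H * L ^ (u + 2 * g) := by
      calc H ^ 2 * ((L ^ u / H) * Q ^ 2) = H * (L ^ u * Q ^ 2) := by field_simp
        _ ≤ H * (L ^ u * (L ^ g) ^ 2) := by gcongr
        _ = H * L ^ (u + 2 * g) := by rw [← pow_mul, ← pow_add]; congr 2; ring
    have c3' : 1 / (L ^ u / H) ^ 2 = H ^ 2 / L ^ (2 * u) := by
      rw [div_pow, ← pow_mul, one_div_div, mul_comm u 2]
    have d1 : L ^ (4 * g + 2 * c7) * X * (H * L ^ (u + 2 * g)) ≤ X * H ^ 2 / L ^ (A + 8) := by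
      rw [le_div_iff₀ (by positivity)]
      calc L ^ (4 * g + 2 * c7) * X * (H * L ^ (u + 2 * g)) * L ^ (A + 8) = X * H * L ^ (6 * g + 2 * c7 + u + A + 8) := by
            have : L ^ (6 * g + 2 * c7 + u + A + 8) = L ^ (4 * g + 2 * c7) * L ^ (u + 2 * g) * L ^ (A + 8) := by
              rw [← pow_add, ← pow_add]; congr 1; ring
            rw [this]; ring
        _ ≤ X * H * H := by gcongr
        _ = X * H ^ 2 := by ring
    have d2 : L ^ (4 * g + 2 * c7) * X * (H ^ 2 / L ^ (2 * u)) ≤ X * H ^ 2 / L ^ (A + 8) := by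
      rw [← mul_div_assoc, div_le_div_iff₀ (by positivity) (by positivity)]
      have h1 : L ^ (4 * g + 2 * c7) * L ^ (A + 8) ≤ L ^ (2 * u) := by
        rw [← pow_add]
        exact pow_le_pow_right₀ hL1 (by omega)
      calc L ^ (4 * g + 2 * c7) * X * H ^ 2 * L ^ (A + 8) = X * H ^ 2 * (L ^ (4 * g + 2 * c7) * L ^ (A + 8)) := by ring
        _ ≤ X * H ^ 2 * L ^ (2 * u) := by gcongr
    have d3 : L ^ (4 * g + 2 * c7) * X * (H ^ 3 / X) ≤ X * H ^ 2 / L ^ (A + 8) := by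
      rw [le_div_iff₀ (by positivity)]
      calc L ^ (4 * g + 2 * c7) * X * (H ^ 3 / X) * L ^ (A + 8) = H ^ 2 * (H * L ^ (4 * g + 2 * c7 + A + 8)) := by
            have : L ^ (4 * g + 2 * c7 + A + 8) = L ^ (4 * g + 2 * c7) * L ^ (A + 8) := by rw [← pow_add]; congr 1
            rw [this]; field_simp
        _ ≤ H ^ 2 * X := by gcongr
        _ = X * H ^ 2 := by ring
    rw [c3']
    calc Q ^ 4 * D ^ 2 * X * (H ^ 2 * ((L ^ u / H) * Q ^ 2) + H ^ 2 / L ^ (2 * u) + H ^ 3 / X) ≤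
          L ^ (4 * g + 2 * c7) * X * (H * L ^ (u + 2 * g) + H ^ 2 / L ^ (2 * u) + H ^ 3 / X) := by gcongr
      _ = L ^ (4 * g + 2 * c7) * X * (H * L ^ (u + 2 * g)) + L ^ (4 * g + 2 * c7) * X * (H ^ 2 / L ^ (2 * u)) +
          L ^ (4 * g + 2 * c7) * X * (H ^ 3 / X) := by ring
      _ ≤ 3 * (X * H ^ 2 / L ^ (A + 8)) := by linarith
  have v1 : VV1 ≤ 3 * (X * H ^ 2 / L ^ (A + 5)) := by
    have h1 : C * Q ^ 4 * D ^ 2 * X * (H ^ 2 * ((L ^ u / H) * Q ^ 2) + 1 / (L ^ u / H) ^ 2 + H ^ 3 / X) ≤ X * H ^ 2 / L ^ (A + 5) := by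
      calc C * Q ^ 4 * D ^ 2 * X * (H ^ 2 * ((L ^ u / H) * Q ^ 2) + 1 / (L ^ u / H) ^ 2 + H ^ 3 / X) =
            C * (Q ^ 4 * D ^ 2 * X * (H ^ 2 * ((L ^ u / H) * Q ^ 2) + 1 / (L ^ u / H) ^ 2 + H ^ 3 / X)) := by ring
        _ ≤ C * (3 * (X * H ^ 2 / L ^ (A + 8))) := mul_le_mul_of_nonneg_left b1 hC.le
        _ = (3 * C) * (X * H ^ 2 / L ^ (A + 8)) := by ring
        _ ≤ L ^ 3 * (X * H ^ 2 / L ^ (A + 8)) := by
            refine mul_le_mul_of_nonneg_right ?_ (by positivity)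
            have : L ≤ L ^ 3 := by nlinarith [mul_self_nonneg (L - 1), mul_pos hL0 hL0]
            linarith
        _ = X * H ^ 2 / L ^ (A + 5) := by
            rw [show A + 8 = (A + 5) + 3 by ring, pow_add L (A + 5) 3]
            field_simp
    linarith
  -- the shift
  have hS1 : S ≤ L ^ s := by
    have h1 : (401 : ℝ) ≤ L ^ 6 := by
      calc (401 : ℝ) ≤ 4 ^ 6 := by norm_num
        _ ≤ L ^ 6 := pow_le_pow_left₀ (by norm_num) hL 6
    have h2 : Q ^ 2 * D ≤ L ^ (2 * g + c7) := by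
      calc Q ^ 2 * D ≤ (L ^ g) ^ 2 * L ^ c7 := by gcongr
        _ = L ^ (2 * g + c7) := by rw [← pow_mul, ← pow_add]; congr 1; ring
    have h3 : 1 ≤ L ^ (2 * g + c7) := one_le_pow₀ hL1
    rw [hS, hs, pow_add L (2 * g + c7) 6]
    nlinarith
  have hS0 : 0 ≤ S := by rw [hS]; positivity
  have v2 : 2 * Real.pi * |θ| * (t * H) * H * S ≤ 7 * ((t * H) / L ^ (A + 10)) := by
    have hpi : Real.pi ≤ 3.5 := by linarith [Real.pi_lt_d2]
    have h1 : L ^ c3 * L ^ s * L ^ (A + 10) ≤ t := by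
      refine le_trans (le_of_eq ?_) ht
      rw [hτ, ← pow_add, ← pow_add]
      congr 1
    have h2 : H * (L ^ c3 * L ^ s) ≤ (t * H) / L ^ (A + 10) := by
      rw [le_div_iff₀ (by positivity)]
      calc H * (L ^ c3 * L ^ s) * L ^ (A + 10) = H * (L ^ c3 * L ^ s * L ^ (A + 10)) := by ring
        _ ≤ H * t := by gcongr
        _ = t * H := by ring
    calc 2 * Real.pi * |θ| * (t * H) * H * S = (2 * Real.pi) * ((|θ| * (t * H)) * (H * S)) := by ring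
      _ ≤ 7 * (L ^ c3 * (H * L ^ s)) := by
          refine mul_le_mul (by linarith) ?_ (by positivity) (by norm_num)
          exact mul_le_mul hθ (mul_le_mul_of_nonneg_left hS1 hH0.le) (by positivity) (by positivity)
      _ = 7 * (H * (L ^ c3 * L ^ s)) := by ring
      _ ≤ 7 * ((t * H) / L ^ (A + 10)) := by gcongr
  have v3 : 2 * Y * (2 * Real.pi * |θ| * (t * H) * H * S) ^ 2 ≤ X * (t * H) ^ 2 / L ^ (A + 1) := by
    have h0 : 0 ≤ 2 * Real.pi * |θ| * (t * H) * H * S := by positivity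
    have h1 := pow_le_pow_left₀ h0 v2 2
    have h2 : (7 * ((t * H) / L ^ (A + 10))) ^ 2 = 49 * ((t * H) ^ 2 / L ^ (2 * A + 20)) := by
      have h3 : (L ^ (A + 10)) ^ 2 = L ^ (2 * A + 20) := by rw [← pow_mul]; congr 1; ring
      rw [mul_pow, div_pow, h3]
      norm_num
    rw [h2] at h1
    calc 2 * Y * (2 * Real.pi * |θ| * (t * H) * H * S) ^ 2 ≤ 2 * (2 * X) * (49 * ((t * H) ^ 2 / L ^ (2 * A + 20))) := by gcongr
      _ = 196 * (X * (t * H) ^ 2 / L ^ (2 * A + 20)) := by ring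
      _ ≤ L ^ (A + 19) * (X * (t * H) ^ 2 / L ^ (2 * A + 20)) := by
          refine mul_le_mul_of_nonneg_right ?_ (by positivity)
          calc (196 : ℝ) ≤ 4 ^ 19 := by norm_num
            _ ≤ L ^ 19 := pow_le_pow_left₀ (by norm_num) hL 19
            _ ≤ L ^ (A + 19) := pow_le_pow_right₀ hL1 (by omega)
      _ = X * (t * H) ^ 2 / L ^ (A + 1) := by
          rw [show 2 * A + 20 = (A + 1) + (A + 19) by ring, pow_add L (A + 1) (A + 19)]
          field_simp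
  have v4 : 2 * t ^ 2 * VV1 ≤ X * (t * H) ^ 2 / L ^ (A + 1) := by
    calc 2 * t ^ 2 * VV1 ≤ 2 * t ^ 2 * (3 * (X * H ^ 2 / L ^ (A + 5))) := by gcongr
      _ = 6 * (X * (t * H) ^ 2 / L ^ (A + 5)) := by ring
      _ ≤ L ^ 4 * (X * (t * H) ^ 2 / L ^ (A + 5)) := by
          refine mul_le_mul_of_nonneg_right ?_ (by positivity)
          calc (6 : ℝ) ≤ 4 ^ 4 := by norm_num
            _ ≤ L ^ 4 := pow_le_pow_left₀ (by norm_num) hL 4
      _ = X * (t * H) ^ 2 / L ^ (A + 1) := by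
          rw [show A + 5 = (A + 1) + 4 by ring, pow_add L (A + 1) 4]
          field_simp
  have v5 : 2 * (X * (t * H) ^ 2 / L ^ (A + 1)) ≤ X * (t * H) ^ 2 / L ^ A := by
    have : X * (t * H) ^ 2 / L ^ A = L * (X * (t * H) ^ 2 / L ^ (A + 1)) := by
      rw [pow_succ L A]
      field_simp
    rw [this]
    refine mul_le_mul_of_nonneg_right (by linarith) (by positivity)
  linarith

/-- minor frequencies, numerically -/
theorem vb_num2 {C L X H Q D P q PMR Lg : ℝ} {A g c7 u c3 : ℕ} (hC : 0 < C) (hL : 8 ≤ L) (hLC : 16 * C ≤ L) (_hg : A + 10 ≤ g)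
    (hu : u = 2 * g + c7 + A + 10) (hc3 : c3 = u + 5 * g + 2 * c7 + A + 20) (hH0 : 0 < H) (hX : H * L ^ (4 * g + 2 * c7 + A + 8) ≤ X)
    (hHL : L ^ (A + 10) ≤ H) (hQ0 : 0 ≤ Q) (hQ : Q ≤ L ^ g) (hD0 : 0 ≤ D) (hD : D ≤ L ^ c7) (hP : L ^ (A + 10) ≤ P) (hPH : P * L ^ (A + 11) ≤ H)
    (hq : L ^ (A + 10) ≤ q) (hqH : q * L ^ (A + 11) ≤ H) (_hPMR0 : 0 ≤ PMR) (hPMR : PMR ≤ X) (hLg0 : 0 ≤ Lg) (hLg : Lg ≤ L) :
    C * PMR * H * (H / P + 1 + (H / q + P + q + P / q) * Lg) +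
      C * Q ^ 4 * D ^ 2 * X * (H ^ 2 * ((L ^ u / H) / (L ^ c3 / (2 * L ^ g * H))) + 1 / (L ^ u / H) ^ 2 + H ^ 3 / X) ≤ X * H ^ 2 / L ^ A := by
  have hL0 : 0 < L := by linarith
  have hL1 : 1 ≤ L := by linarith
  have hX0 : 0 < X := lt_of_lt_of_le (by positivity) hX
  have hP0 : 0 < P := lt_of_lt_of_le (by positivity) hP
  have hq0 : 0 < q := lt_of_lt_of_le (by positivity) hq
  have hq1 : 1 ≤ q := (one_le_pow₀ hL1).trans hq
  -- first part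
  have f1 : H / P ≤ H / L ^ (A + 10) := by gcongr
  have f2 : 1 ≤ H / L ^ (A + 10) := by rw [le_div_iff₀ (by positivity)]; linarith
  have f3 : H / q ≤ H / L ^ (A + 10) := by gcongr
  have f4 : P ≤ H / L ^ (A + 10) := by
    rw [le_div_iff₀ (by positivity)]
    refine le_trans ?_ hPH
    have : L ^ (A + 10) ≤ L ^ (A + 11) := pow_le_pow_right₀ hL1 (by omega)
    gcongr
  have f5 : q ≤ H / L ^ (A + 10) := by
    rw [le_div_iff₀ (by positivity)]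
    refine le_trans ?_ hqH
    have : L ^ (A + 10) ≤ L ^ (A + 11) := pow_le_pow_right₀ hL1 (by omega)
    gcongr
  have f6 : P / q ≤ H / L ^ (A + 10) := (div_le_self hP0.le hq1).trans f4
  have g1 : H / P + 1 + (H / q + P + q + P / q) * Lg ≤ H / L ^ (A + 8) := by
    have h1 : (H / q + P + q + P / q) * Lg ≤ (4 * (H / L ^ (A + 10))) * L := by
      refine mul_le_mul (by linarith) hLg hLg0 (by positivity)
    have h2 : H / L ^ (A + 8) = L ^ 2 * (H / L ^ (A + 10)) := by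
      rw [show A + 10 = (A + 8) + 2 by ring, pow_add L (A + 8) 2]
      field_simp
    rw [h2]
    have h3 : 0 < H / L ^ (A + 10) := by positivity
    have h4 : 4 * L + 2 ≤ L ^ 2 := by nlinarith
    have h5 := mul_le_mul_of_nonneg_right h4 h3.le
    linarith
  have g2 : C * PMR * H * (H / P + 1 + (H / q + P + q + P / q) * Lg) ≤ X * H ^ 2 / L ^ (A + 1) := by
    calc C * PMR * H * (H / P + 1 + (H / q + P + q + P / q) * Lg) ≤ C * X * H * (H / L ^ (A + 8)) := by gcongr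
      _ = C * (X * H ^ 2 / L ^ (A + 8)) := by ring
      _ ≤ L ^ 7 * (X * H ^ 2 / L ^ (A + 8)) := by
          refine mul_le_mul_of_nonneg_right ?_ (by positivity)
          have : L ≤ L ^ 7 := by
            calc L = L ^ 1 := (pow_one L).symm
              _ ≤ L ^ 7 := pow_le_pow_right₀ hL1 (by norm_num)
          linarith
      _ = X * H ^ 2 / L ^ (A + 1) := by
          rw [show A + 8 = (A + 1) + 7 by ring, pow_add L (A + 1) 7]
          field_simp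
  -- second part
  have c1 : Q ^ 4 * D ^ 2 ≤ L ^ (4 * g + 2 * c7) := by
    calc Q ^ 4 * D ^ 2 ≤ (L ^ g) ^ 4 * (L ^ c7) ^ 2 := by gcongr
      _ = L ^ (4 * g + 2 * c7) := by rw [← pow_mul, ← pow_mul, ← pow_add]; congr 1; ring
  have c2 : H ^ 2 * ((L ^ u / H) / (L ^ c3 / (2 * L ^ g * H))) = 2 * (H ^ 2 * (L ^ u * L ^ g) / L ^ c3) := by field_simp
  have c3' : 1 / (L ^ u / H) ^ 2 = H ^ 2 / L ^ (2 * u) := by
    rw [div_pow, ← pow_mul, one_div_div, mul_comm u 2]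
  have d1 : L ^ (4 * g + 2 * c7) * X * (2 * (H ^ 2 * (L ^ u * L ^ g) / L ^ c3)) ≤ 2 * (X * H ^ 2 / L ^ (A + 8)) := by
    have h1 : L ^ (4 * g + 2 * c7) * (L ^ u * L ^ g) * L ^ (A + 8) ≤ L ^ c3 := by
      rw [← pow_add, ← pow_add, ← pow_add]
      exact pow_le_pow_right₀ hL1 (by omega)
    have h2 : L ^ (4 * g + 2 * c7) * X * (H ^ 2 * (L ^ u * L ^ g) / L ^ c3) ≤ X * H ^ 2 / L ^ (A + 8) := by
      rw [← mul_div_assoc, div_le_div_iff₀ (by positivity) (by positivity)]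
      calc L ^ (4 * g + 2 * c7) * X * (H ^ 2 * (L ^ u * L ^ g)) * L ^ (A + 8) = X * H ^ 2 * (L ^ (4 * g + 2 * c7) * (L ^ u * L ^ g) * L ^ (A + 8)) := by ring
        _ ≤ X * H ^ 2 * L ^ c3 := by gcongr
    linarith
  have d2 : L ^ (4 * g + 2 * c7) * X * (H ^ 2 / L ^ (2 * u)) ≤ X * H ^ 2 / L ^ (A + 8) := by
    rw [← mul_div_assoc, div_le_div_iff₀ (by positivity) (by positivity)]
    have h1 : L ^ (4 * g + 2 * c7) * L ^ (A + 8) ≤ L ^ (2 * u) := by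
      rw [← pow_add]
      exact pow_le_pow_right₀ hL1 (by omega)
    calc L ^ (4 * g + 2 * c7) * X * H ^ 2 * L ^ (A + 8) = X * H ^ 2 * (L ^ (4 * g + 2 * c7) * L ^ (A + 8)) := by ring
      _ ≤ X * H ^ 2 * L ^ (2 * u) := by gcongr
  have d3 : L ^ (4 * g + 2 * c7) * X * (H ^ 3 / X) ≤ X * H ^ 2 / L ^ (A + 8) := by
    rw [le_div_iff₀ (by positivity)]
    calc L ^ (4 * g + 2 * c7) * X * (H ^ 3 / X) * L ^ (A + 8) = H ^ 2 * (H * L ^ (4 * g + 2 * c7 + A + 8)) := by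
          have : L ^ (4 * g + 2 * c7 + A + 8) = L ^ (4 * g + 2 * c7) * L ^ (A + 8) := by rw [← pow_add]; congr 1
          rw [this]; field_simp
      _ ≤ H ^ 2 * X := by gcongr
      _ = X * H ^ 2 := by ring
  have b1 : Q ^ 4 * D ^ 2 * X * (H ^ 2 * ((L ^ u / H) / (L ^ c3 / (2 * L ^ g * H))) + 1 / (L ^ u / H) ^ 2 + H ^ 3 / X) ≤ 4 * (X * H ^ 2 / L ^ (A + 8)) := by
    rw [c2, c3']
    calc Q ^ 4 * D ^ 2 * X * (2 * (H ^ 2 * (L ^ u * L ^ g) / L ^ c3) + H ^ 2 / L ^ (2 * u) + H ^ 3 / X) ≤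
          L ^ (4 * g + 2 * c7) * X * (2 * (H ^ 2 * (L ^ u * L ^ g) / L ^ c3) + H ^ 2 / L ^ (2 * u) + H ^ 3 / X) := by gcongr
      _ = L ^ (4 * g + 2 * c7) * X * (2 * (H ^ 2 * (L ^ u * L ^ g) / L ^ c3)) + L ^ (4 * g + 2 * c7) * X * (H ^ 2 / L ^ (2 * u)) +
          L ^ (4 * g + 2 * c7) * X * (H ^ 3 / X) := by ring
      _ ≤ 4 * (X * H ^ 2 / L ^ (A + 8)) := by linarith
  have g3 : C * Q ^ 4 * D ^ 2 * X * (H ^ 2 * ((L ^ u / H) / (L ^ c3 / (2 * L ^ g * H))) + 1 / (L ^ u / H) ^ 2 + H ^ 3 / X) ≤ X * H ^ 2 / L ^ (A + 1) := by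
    calc C * Q ^ 4 * D ^ 2 * X * (H ^ 2 * ((L ^ u / H) / (L ^ c3 / (2 * L ^ g * H))) + 1 / (L ^ u / H) ^ 2 + H ^ 3 / X) =
          C * (Q ^ 4 * D ^ 2 * X * (H ^ 2 * ((L ^ u / H) / (L ^ c3 / (2 * L ^ g * H))) + 1 / (L ^ u / H) ^ 2 + H ^ 3 / X)) := by ring
      _ ≤ C * (4 * (X * H ^ 2 / L ^ (A + 8))) := mul_le_mul_of_nonneg_left b1 hC.le
      _ = (4 * C) * (X * H ^ 2 / L ^ (A + 8)) := by ring
      _ ≤ L ^ 7 * (X * H ^ 2 / L ^ (A + 8)) := by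
          refine mul_le_mul_of_nonneg_right ?_ (by positivity)
          have : L ≤ L ^ 7 := by
            calc L = L ^ 1 := (pow_one L).symm
              _ ≤ L ^ 7 := pow_le_pow_right₀ hL1 (by norm_num)
          linarith
      _ = X * H ^ 2 / L ^ (A + 1) := by
          rw [show A + 8 = (A + 1) + 7 by ring, pow_add L (A + 1) 7]
          field_simp
  have v5 : 2 * (X * H ^ 2 / L ^ (A + 1)) ≤ X * H ^ 2 / L ^ A := by
    have : X * H ^ 2 / L ^ A = L * (X * H ^ 2 / L ^ (A + 1)) := by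
      rw [pow_succ L A]
      field_simp
    rw [this]
    refine mul_le_mul_of_nonneg_right (by linarith) (by positivity)
  linarith

theorem vb_H {H t H1 : ℕ} (ht : 1 ≤ t) (h1 : H1 = H / t + 1) : H ≤ t * H1 ∧ t * H1 ≤ H + t := by
  have h2 := Nat.div_add_mod H t
  have h3 := Nat.mod_lt H (by omega : 0 < t)
  rw [h1, Nat.mul_add, Nat.mul_one]
  omega

end Pool.Agent.Lib.G3
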