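import Pool.Agent.Lib.G3.G5Defs
import Pool.Agent.Lib.G3.VbG
import Pool.Agent.Lib.G3.Min5
import Pool.Agent.Lib.G3.Mr5
import Pool.Agent.Lib.G3.Qt5

/-!
# G5, row VB, file Vb5.lean (from `vbG_core`, `min5`, `mr5`, `qt5`, `b5_le`, `b5_supp`, `par5`)

`J q T = (Icc (-T0) T0).filter (|j| ≤ T) = Icc (-T1) T1`, `T0 = ⌊(log X)^c5⌋`, `T1 = min T0 T`.
-/

set_option autoImplicit false

open Finset

namespace Pool.Agent.Lib.G3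

open Pool.Agent.Lib.MRT (cj kap)
open Pool.Agent.Lib.GT (e)

private theorem VB_cop {n P q : ℕ} (h : ∀ p : ℕ, p.Prime → p ∣ n → P < p) (hq : 1 ≤ q) (hqP : q ≤ P) : Nat.Coprime n q := by
  refine Nat.Coprime.symm (Nat.coprime_of_dvd fun p hp hpq hpn => ?_)
  have h4 := h p hp hpn
  have h5 := Nat.le_of_dvd (by omega) hpq
  omega

theorem vb5 (A c2 : ℕ) : ∃ g c5 c10 : ℕ, c2 ≤ g ∧ g < c10 ∧ ∀ c1 cP : ℕ, c10 ≤ c1 → ∃ c6 : ℕ, 4 * g + 20 ≤ c6 ∧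
    ∃ x0 : ℝ, ∀ X : ℕ, x0 ≤ X → ∀ (P P' R H : ℕ), Par5 X P P' R c1 cP → (Real.log X) ^ c6 ≤ H → (H : ℝ) ≤ (Real.log X) ^ (c6 + 2) →
      ∃ H' T1 : ℕ, H ≤ H' ∧ H' ≤ 2 * H ∧ (T1 : ℝ) ≤ (Real.log X) ^ c5 ∧ ∀ α : ℝ,
        VV (fun n => b5 P P' R n - MG (b5 P P' R) X ⌊(Real.log X) ^ g⌋₊ (fun _ => Icc (-(T1 : ℤ)) T1) n) H' α (X + H' + 1) ≤
          X * (H' : ℝ) ^ 2 / (Real.log X) ^ A := by
  obtain ⟨g, hgd⟩ : ∃ g, g = c2 + A + 10 := ⟨_, rfl⟩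
  obtain ⟨K, hK⟩ : ∃ K, K = 2 * g + A + 8 := ⟨_, rfl⟩
  obtain ⟨B, c5m, c0, hmr⟩ := mr5 K g
  obtain ⟨c5q, xq, hqt⟩ := qt5 B g
  obtain ⟨c5, hc5⟩ : ∃ c5, c5 = c5m + c5q := ⟨_, rfl⟩
  obtain ⟨C1, hC1, hmin⟩ := min5
  obtain ⟨c7, hc7⟩ : ∃ c7, c7 = c5 + 2 := ⟨_, rfl⟩
  obtain ⟨c4, hc4⟩ : ∃ c4, c4 = c7 + A + 10 := ⟨_, rfl⟩
  obtain ⟨u, hu⟩ : ∃ u, u = 2 * g + c7 + A + 10 := ⟨_, rfl⟩
  obtain ⟨c3, hc3⟩ : ∃ c3, c3 = u + 5 * g + 2 * c7 + A + 20 := ⟨_, rfl⟩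
  obtain ⟨s, hs⟩ : ∃ s, s = 2 * g + c7 + 6 := ⟨_, rfl⟩
  obtain ⟨τ, hτ⟩ : ∃ τ, τ = c3 + s + A + 10 := ⟨_, rfl⟩
  refine ⟨g, c5, max c0 (g + A + 20), by omega, lt_of_lt_of_le (by omega) (le_max_right _ _), fun c1 cP hc1 => ?_⟩
  have hc1a : c0 ≤ c1 := (le_max_left _ _).trans hc1
  have hc1b : g + A + 20 ≤ c1 := (le_max_right _ _).trans hc1
  obtain ⟨w, hw⟩ : ∃ w, w = (cP + c7 + c4 + K + A + 30) + u + 6 * g + 2 * c7 + A + c5 + c4 + K + cP + 60 := ⟨_, rfl⟩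
  obtain ⟨c6, hc6⟩ : ∃ c6, c6 = τ + w + 1 := ⟨_, rfl⟩
  obtain ⟨x1, hcore⟩ := vbG_core hC1 A g c5 K c7 c4 u c3 s τ cP cP w c6 (by omega) hK hc4 hu hc3 hs hτ hw hc6
  obtain ⟨x2, hmrX⟩ := hmr c1 cP hc1a
  obtain ⟨x4, hx4, hpar⟩ := par5 c1 cP (by omega)
  obtain ⟨x5, hx5, hgr⟩ := grow 4 0
  refine ⟨c6, by omega, max (max x1 x2) (max xq (max x4 x5)), ?_⟩
  intro X hX P P' R H hP hH1 hH2
  simp only [max_le_iff] at hX
  obtain ⟨⟨hX1, hX2⟩, hX3, hX4, hX5⟩ := hX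
  obtain ⟨p1, p2, p3, p4, p5, p6⟩ := hpar X P P' R hX4 hP
  have hl4 := (hgr X hX5).1
  have hl1 : 1 ≤ Real.log X := by linarith
  have hX100 : (100 : ℝ) ≤ X := hx4.trans hX4
  have hX0 : (0 : ℝ) < X := by linarith
  have hqP : ∀ q : ℕ, (q : ℝ) ≤ (Real.log X) ^ g → q ≤ P := by
    intro q hq
    have h1 : (q : ℝ) ≤ P := by
      refine hq.trans (le_trans ?_ hP.hP1)
      exact pow_le_pow_right₀ hl1 (by omega)
    exact_mod_cast h1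
  obtain ⟨T0, hT0⟩ : ∃ T0, T0 = ⌊(Real.log X) ^ c5⌋₊ := ⟨_, rfl⟩
  have hT0a : (T0 : ℝ) ≤ (Real.log X) ^ c5 := by
    rw [hT0]
    exact Nat.floor_le (by positivity)
  have hT0b : (Real.log X) ^ c5 < (T0 : ℝ) + 1 := by
    rw [hT0]
    exact Nat.lt_floor_add_one _
  have hmT : ∀ T : ℕ, ((min T0 T : ℕ) : ℝ) ≤ (Real.log X) ^ c5 := fun T =>
    le_trans (by exact_mod_cast min_le_left _ _) hT0a
  have hc := hcore X hX1 P H (b5 P P' R) (fun _ T => Icc (-((min T0 T : ℕ) : ℤ)) ((min T0 T : ℕ) : ℤ)) ?_ hP.hP2 (b5_le p2) ?_ ?_ ?_ ?_ ?_ hH1 hH2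
  · obtain ⟨H', T, h1, h2, -, h4⟩ := hc
    exact ⟨H', min T0 T, h1, h2, hmT T, h4⟩
  · refine le_trans ?_ hP.hP1
    exact pow_le_pow_right₀ hl1 (by omega)
  · intro n hn
    obtain ⟨h1, h2, -⟩ := b5_supp p2 hn
    have h3 := hP.hX
    constructor
    · omega
    · omega
  · intro n hn q hq hqL
    exact VB_cop (b5_supp p2 hn).2.2 hq (hqP q hqL)
  · intro q H' a0 α hH' hq hco hα
    exact hmin X P P' R H' q a0 α _ p1 hP.hP' p2 p6 hH' hq hco hα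
  · intro q T hq hqL hT
    constructor
    · intro j hj
      rw [mem_Icc] at hj
      have h1 : ((min T0 T : ℕ) : ℤ) ≤ T := by exact_mod_cast min_le_right _ _
      rw [abs_le]
      omega
    · have h1 := hmT T
      rw [Int.card_Icc]
      have h2 : (((min T0 T : ℕ) : ℤ) + 1 - -((min T0 T : ℕ) : ℤ)).toNat = 2 * min T0 T + 1 := by omega
      rw [h2]
      push_cast at h1 ⊢
      have h3 : 1 ≤ (Real.log X) ^ c5 := one_le_pow₀ hl1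
      rw [hc7, pow_add]
      have h4 : (16 : ℝ) ≤ (Real.log X) ^ 2 := by nlinarith
      nlinarith
  · intro q T δ hq hqL hδ hδ1 hδX hT1 hT2 χ J' hJ'
    refine hmrX X hX2 P P' R T δ hP hδ hδ1 hδX hT1 hT2 q χ J' hq hqL fun j hj => ?_
    by_cases hjT : (T : ℝ) < |(j : ℝ)|
    · exact Or.inr hjT
    left
    rw [not_lt] at hjT
    have hjT' : |j| ≤ (T : ℤ) := by exact_mod_cast hjT
    have h1 := hJ' j hj
    have h2 : (T0 : ℤ) + 1 ≤ |j| := by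
      by_contra h3
      apply h1
      rw [mem_Icc, ← abs_le]
      push_cast
      omega
    have h3 : (T0 : ℝ) + 1 ≤ |(j : ℝ)| := by exact_mod_cast h2
    have h4 : (Real.log X) ^ c5m ≤ (Real.log X) ^ c5 := pow_le_pow_right₀ hl1 (by omega)
    have h5 : (Real.log X) ^ c5q ≤ (Real.log X) ^ c5 := pow_le_pow_right₀ hl1 (by omega)
    refine ⟨by linarith, hqt X hX3 q j hq hqL (by linarith) (hjT.trans ?_)⟩
    refine hT2.trans ?_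
    rw [div_le_iff₀ hδ]
    have h6 : 2 * (Real.log X) ^ (K + 10) ≤ (Real.log X) ^ (cP + K + 20) := by
      calc 2 * (Real.log X) ^ (K + 10) ≤ Real.log X * (Real.log X) ^ (K + 10) := by
            have : 0 ≤ (Real.log X) ^ (K + 10) := by positivity
            nlinarith
        _ = (Real.log X) ^ (K + 11) := by ring
        _ ≤ (Real.log X) ^ (cP + K + 20) := pow_le_pow_right₀ hl1 (by omega)
    linarith [mul_comm δ (X : ℝ)]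

end Pool.Agent.Lib.G3
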