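import Pool.Agent.Lib.G3.G5Defs
import Pool.Agent.Lib.G3.Vb5
import Pool.Agent.Lib.G3.Main5
import Pool.Agent.Lib.G3.Bq5
import Pool.Agent.Lib.G3.Cm
import Pool.Agent.Lib.G3.Par5
import Pool.Agent.Lib.G3.B5f

/-!
# G5, row WN, file Win5.lean (from `vb5`, `main5`, `bq5`, `cm`)

`cm` with `G l = lp (l + (Y - X))` and the window `(X, X + H']`; `N = N' + (Y - X)`, `G (N' - n) = lp (N - n)`;
`∑_{l ≤ X + H'} lp(l + Y - X)^2 ≤ (X + H' + 1) log^2(Y + H')`.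
-/

set_option autoImplicit false

open Finset

namespace Pool.Agent.Lib.G3

open Pool.Agent.Lib.MRT (cj kap)
open Pool.Agent.Lib.GT (e)


theorem wn_MG {F : ℕ → ℂ} {X Q : ℕ} {J : ℕ → Finset ℤ} {n : ℕ} (h : ¬ (X0 X < n ∧ n ≤ X)) : MG F X Q J n = 0 := by
  unfold MG mo
  simp only [if_neg h, mul_zero, sum_const_zero]

theorem wn_lp {m M : ℕ} (hM : 1 ≤ M) (h : m ≤ M) : ‖((lp m : ℝ) : ℂ)‖ ^ 2 ≤ (Real.log M) ^ 2 := by
  rw [Complex.norm_real, Real.norm_eq_abs, sq_abs]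
  unfold lp
  split_ifs with hp
  · have h1 : (1 : ℝ) ≤ m := by exact_mod_cast hp.one_lt.le
    have h2 : (m : ℝ) ≤ M := by exact_mod_cast h
    exact pow_le_pow_left₀ (Real.log_nonneg h1) (Real.log_le_log (by linarith) h2) 2
  · rw [zero_pow two_ne_zero]; exact sq_nonneg _

theorem wn_cm {X Y H H' : ℕ} (hXY : X ≤ Y) (hH1 : 1 ≤ H') (hHH : H ≤ H') (E : ℕ → ℂ) (hE0 : E 0 = 0)
    (hEX : ∀ n, X < n → E n = 0) {B : ℝ} (hB : ∀ α : ℝ, VV E H' α (X + H' + 1) ≤ B) :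
    ∑ N ∈ Ioc Y (Y + H), ‖∑ n ∈ Icc 1 X, E n * ((lp (N - n) : ℝ) : ℂ)‖ ^ 2 ≤
      3 * B / H' * (((X + H' + 1 : ℕ) : ℝ) * (Real.log (Y + H' : ℕ)) ^ 2) := by
  have hB0 : 0 ≤ B := le_trans (sum_nonneg fun _ _ => by positivity) (hB 0)
  have h1 := cm hH1 E (fun l => ((lp (l + (Y - X)) : ℝ) : ℂ)) hE0 hEX hB
  have h2 : ∑ N ∈ Ioc Y (Y + H), ‖∑ n ∈ Icc 1 X, E n * ((lp (N - n) : ℝ) : ℂ)‖ ^ 2 ≤
      ∑ N ∈ Ioc X (X + H'), ‖∑ n ∈ Icc 1 X, E n * ((lp (N - n + (Y - X)) : ℝ) : ℂ)‖ ^ 2 := by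
    have h3 : ∑ N ∈ Ioc X (X + H'), ‖∑ n ∈ Icc 1 X, E n * ((lp (N - n + (Y - X)) : ℝ) : ℂ)‖ ^ 2 =
        ∑ N ∈ Ioc Y (Y + H'), ‖∑ n ∈ Icc 1 X, E n * ((lp (N - n) : ℝ) : ℂ)‖ ^ 2 := by
      refine sum_nbij' (fun N => N + (Y - X)) (fun N => N - (Y - X)) ?_ ?_ ?_ ?_ ?_
      · intro N hN
        rw [mem_Ioc] at hN ⊢
        omega
      · intro N hN
        rw [mem_Ioc] at hN ⊢
        omega
      · intro N _
        omega
      · intro N hN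
        rw [mem_Ioc] at hN
        omega
      · intro N hN
        rw [mem_Ioc] at hN
        congr 2
        refine sum_congr rfl fun n hn => ?_
        rw [mem_Icc] at hn
        have : N - n + (Y - X) = N + (Y - X) - n := by omega
        rw [this]
    rw [h3]
    exact sum_le_sum_of_subset_of_nonneg (Ioc_subset_Ioc_right (by omega)) fun _ _ _ => by positivity
  refine h2.trans (h1.trans ?_)
  refine mul_le_mul_of_nonneg_left ?_ (by positivity)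
  calc ∑ l ∈ Icc 0 (X + H'), ‖((lp (l + (Y - X)) : ℝ) : ℂ)‖ ^ 2 ≤
        ∑ _l ∈ Icc 0 (X + H'), (Real.log (Y + H' : ℕ)) ^ 2 := by
        refine sum_le_sum fun l hl => wn_lp (by omega) ?_
        rw [mem_Icc] at hl
        omega
    _ = ((X + H' + 1 : ℕ) : ℝ) * (Real.log (Y + H' : ℕ)) ^ 2 := by
        rw [sum_const, nsmul_eq_mul, Nat.card_Icc]
        norm_num

/-- eventually a power of the logarithm is smaller than the square root -/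
theorem wn_pow (k : ℕ) : ∃ x0 : ℝ, ∀ X : ℕ, x0 ≤ X → (Real.log X) ^ k ≤ Real.sqrt X := by
  have h := (isLittleO_log_rpow_atTop (show (0 : ℝ) < 1 / (2 * (k + 1)) by positivity)).bound (c := 1) one_pos
  obtain ⟨x1, hx1⟩ := Filter.eventually_atTop.1 h
  refine ⟨max x1 1, fun X hX => ?_⟩
  have h1 := hx1 X ((le_max_left _ _).trans hX)
  have hX1 : (1 : ℝ) ≤ X := (le_max_right _ _).trans hX
  have hl : 0 ≤ Real.log X := Real.log_nonneg hX1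
  rw [one_mul, Real.norm_of_nonneg hl, Real.norm_of_nonneg (by positivity)] at h1
  calc (Real.log X) ^ k ≤ ((X : ℝ) ^ (1 / (2 * ((k : ℝ) + 1)))) ^ k := pow_le_pow_left₀ hl h1 k
    _ = (X : ℝ) ^ ((1 / (2 * ((k : ℝ) + 1))) * k) := by
        rw [Real.rpow_mul (by positivity), Real.rpow_natCast]
    _ ≤ (X : ℝ) ^ (1 / 2 : ℝ) := by
        refine Real.rpow_le_rpow_of_exponent_le hX1 ?_
        rw [div_mul_eq_mul_div, div_le_div_iff₀ (by positivity) (by norm_num)]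
        have : (0 : ℝ) ≤ k := Nat.cast_nonneg k
        nlinarith
    _ = Real.sqrt X := (Real.sqrt_eq_rpow _).symm

theorem win5 (A c2 : ℕ) : ∃ g c10 : ℕ, c2 ≤ g ∧ ∀ c1 cP cB : ℕ, c10 ≤ c1 → ∃ c6 : ℕ, 4 * g + 20 ≤ c6 ∧
    ∃ x0 : ℝ, ∀ X : ℕ, x0 ≤ X → ∀ P P' R : ℕ, Par5 X P P' R c1 cP → ∀ Y H : ℕ, X ≤ Y → (Y : ℝ) ≤ X * (Real.log X) ^ cB →
      (Real.log X) ^ c6 ≤ H → (H : ℝ) ≤ (Real.log X) ^ (c6 + 2) →
        ∑ N ∈ Ioc Y (Y + H), ‖∑ n ∈ Icc 1 X, b5 P P' R n * ((lp (N - n) : ℝ) : ℂ) -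
          ((sg ⌊(Real.log X) ^ g⌋₊ N : ℝ) : ℂ) * ∑ n ∈ Icc 1 X, b5 P P' R n‖ ^ 2 ≤ H * (X : ℝ) ^ 2 / (Real.log X) ^ A := by
  obtain ⟨g, c5, c10, hg, hgc, hv⟩ := vb5 (A + 4) c2
  refine ⟨g, c10, hg, fun c1 cP cB hc1 => ?_⟩
  obtain ⟨c6, hc6, x1, hv⟩ := hv c1 cP hc1
  obtain ⟨x2, hx2⟩ := main5 (A + 1) g c5 (cB + 1)
  obtain ⟨x3, hx3⟩ := bq5 (A + 1 + 2 * g + 3) g c1 cP (by omega)
  obtain ⟨x4, hx4, hpar⟩ := par5 c1 cP (by omega)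
  obtain ⟨x5, hx5⟩ := wn_pow (c6 + 2)
  obtain ⟨x6, hx6⟩ := wn_pow cB
  refine ⟨c6, hc6, max (max (max x1 x2) (max x3 x4)) (max (max x5 x6) (Real.exp 100)), ?_⟩
  intro X hX P P' R hP5 Y H hXY hY hH1 hH2
  simp only [max_le_iff] at hX
  obtain ⟨⟨⟨h1, h2⟩, h3, h4⟩, ⟨h5, h6⟩, h7⟩ := hX
  have hX0 : (0 : ℝ) < X := lt_of_lt_of_le (Real.exp_pos _) h7
  have hl : 100 ≤ Real.log X := by rw [Real.le_log_iff_exp_le hX0]; exact h7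
  obtain ⟨hP1, hPR, -, hRX, -, -⟩ := hpar X P P' R h4 hP5
  have hXX : X = 2 * (P' * R) := hP5.hX
  have hX100 : (100 : ℝ) ≤ X := hx4.trans h4
  have hlpow : (Real.log X) ^ (c6 + 2) ≤ Real.sqrt X := hx5 X h5
  have hlpow' : (Real.log X) ^ cB ≤ Real.sqrt X := hx6 X h6
  have hs : Real.sqrt X * Real.sqrt X = X := Real.mul_self_sqrt hX0.le
  have hs10 : (10 : ℝ) ≤ Real.sqrt X := by
    rw [Real.le_sqrt (by norm_num) hX0.le]; norm_num; exact_mod_cast hX100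
  obtain ⟨H', T1, hHH, hH'2, hT1, hVV⟩ := hv X h1 P P' R H hP5 hH1 hH2
  obtain ⟨l, hld⟩ : ∃ l, l = Real.log X := ⟨_, rfl⟩
  have hmain := hx2 X h2 (b5 P P' R) (fun _ => Icc (-(T1 : ℤ)) T1) (b5_le hPR)
    (fun q b hq hq2 hqb => hx3 X h3 P P' R hP5 q b hq hq2 hqb) (fun q hq hq2 => ⟨by
      rw [mem_Icc]; omega, fun j hj => by
      rw [mem_Icc] at hj
      have h8 : |j| ≤ (T1 : ℤ) := abs_le.2 hj
      have h9 : |(j : ℝ)| ≤ (T1 : ℝ) := by exact_mod_cast h8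
      exact h9.trans hT1⟩)
  rw [← hld] at hl hY hH1 hH2 hT1 hVV hmain hlpow hlpow' ⊢
  have hl0 : 0 < l := by linarith
  have hl1 : 1 ≤ l := by linarith
  have hHpos : (0 : ℝ) < H := lt_of_lt_of_le (by positivity) hH1
  have hH1n : 1 ≤ H := by
    have : (0 : ℝ) < H := hHpos
    exact_mod_cast this
  have hH'1 : 1 ≤ H' := hH1n.trans hHH
  have hH'pos : (0 : ℝ) < H' := by exact_mod_cast hH'1
  have hH'2r : (H' : ℝ) ≤ 2 * H := by exact_mod_cast hH'2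
  have hHs : (H : ℝ) ≤ Real.sqrt X := hH2.trans hlpow
  have hH'X : (H' : ℝ) + 1 ≤ X := by nlinarith
  -- the difference
  set F : ℕ → ℂ := b5 P P' R with hF
  set M : ℕ → ℂ := MG (b5 P P' R) X ⌊l ^ g⌋₊ (fun _ => Icc (-(T1 : ℤ)) T1) with hM
  have hF0 : ∀ n, ¬ (1 ≤ n ∧ n ≤ X) → F n = 0 := by
    intro n hn
    by_contra h
    obtain ⟨h8, h9, -⟩ := b5_supp hPR h
    rw [← hXX] at h9
    exact hn ⟨by omega, h9⟩
  have hM0 : ∀ n, ¬ (1 ≤ n ∧ n ≤ X) → M n = 0 := by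
    intro n hn
    rw [hM]
    refine wn_MG fun h => hn ⟨by omega, h.2⟩
  have hE0 : F 0 - M 0 = 0 := by rw [hF0 0 (by omega), hM0 0 (by omega), sub_zero]
  have hEX : ∀ n, X < n → F n - M n = 0 := fun n hn => by rw [hF0 n (by omega), hM0 n (by omega), sub_zero]
  have hcm := wn_cm hXY hH'1 hHH (fun n => F n - M n) hE0 hEX hVV
  have hYH : (Real.log (Y + H' : ℕ)) ≤ 2 * l := by
    have h8 : ((Y + H' : ℕ) : ℝ) ≤ (X : ℝ) ^ 2 := by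
      push_cast
      have h9 : (Y : ℝ) ≤ X * Real.sqrt X := hY.trans (mul_le_mul_of_nonneg_left hlpow' hX0.le)
      have h10 : X * Real.sqrt X ≤ X * (X / 10) := by
        refine mul_le_mul_of_nonneg_left ?_ hX0.le
        nlinarith
      nlinarith
    have h9 : (0 : ℝ) < ((Y + H' : ℕ) : ℝ) := by push_cast; positivity
    calc Real.log (Y + H' : ℕ) ≤ Real.log ((X : ℝ) ^ 2) := Real.log_le_log h9 h8
      _ = 2 * l := by rw [Real.log_pow, hld]; norm_num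
  have hYH0 : 0 ≤ Real.log (Y + H' : ℕ) := Real.log_natCast_nonneg _
  have hcm2 : ∑ N ∈ Ioc Y (Y + H), ‖∑ n ∈ Icc 1 X, (F n - M n) * ((lp (N - n) : ℝ) : ℂ)‖ ^ 2 ≤
      48 * (H * (X : ℝ) ^ 2 / l ^ (A + 2)) := by
    refine hcm.trans ?_
    have h8 : ((X + H' + 1 : ℕ) : ℝ) * (Real.log (Y + H' : ℕ)) ^ 2 ≤ (2 * X) * (2 * l) ^ 2 := by
      refine mul_le_mul ?_ (pow_le_pow_left₀ hYH0 hYH 2) (by positivity) (by positivity)
      push_cast; linarith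
    calc 3 * (X * (H' : ℝ) ^ 2 / l ^ (A + 4)) / H' * (((X + H' + 1 : ℕ) : ℝ) * (Real.log (Y + H' : ℕ)) ^ 2) ≤
          3 * (X * (H' : ℝ) ^ 2 / l ^ (A + 4)) / H' * ((2 * X) * (2 * l) ^ 2) :=
          mul_le_mul_of_nonneg_left h8 (by positivity)
      _ = 24 * (H' * (X : ℝ) ^ 2 / l ^ (A + 2)) := by
          rw [show A + 4 = (A + 2) + 2 by ring, pow_add l (A + 2) 2]
          field_simp
          ring
      _ ≤ 24 * ((2 * H) * (X : ℝ) ^ 2 / l ^ (A + 2)) := by gcongr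
      _ = 48 * (H * (X : ℝ) ^ 2 / l ^ (A + 2)) := by ring
  have hpt : ∀ N ∈ Ioc Y (Y + H), ‖∑ n ∈ Icc 1 X, F n * ((lp (N - n) : ℝ) : ℂ) -
      ((sg ⌊l ^ g⌋₊ N : ℝ) : ℂ) * ∑ n ∈ Icc 1 X, F n‖ ^ 2 ≤
      2 * ‖∑ n ∈ Icc 1 X, (F n - M n) * ((lp (N - n) : ℝ) : ℂ)‖ ^ 2 + 2 * ((X : ℝ) / l ^ (A + 1)) ^ 2 := by
    intro N hN
    rw [mem_Ioc] at hN
    have hNX : (N : ℝ) ≤ X * l ^ (cB + 1) := by
      have h8 : (N : ℝ) ≤ Y + H := by exact_mod_cast hN.2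
      have h9 : (H : ℝ) ≤ X := by linarith [show (H : ℝ) ≤ H' by exact_mod_cast hHH]
      have h10 : (1 : ℝ) ≤ l ^ cB := one_le_pow₀ hl1
      have h11 : (X : ℝ) * l ^ cB * 2 ≤ X * l ^ (cB + 1) := by
        rw [pow_succ]
        nlinarith [mul_pos hX0 (pow_pos hl0 cB)]
      nlinarith
    have hm := hmain N (by omega) hNX
    have e1 : ∑ n ∈ Icc 1 X, (F n - M n) * ((lp (N - n) : ℝ) : ℂ) =
        ∑ n ∈ Icc 1 X, F n * ((lp (N - n) : ℝ) : ℂ) - ∑ n ∈ Icc 1 X, M n * ((lp (N - n) : ℝ) : ℂ) := by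
      rw [← sum_sub_distrib]
      exact sum_congr rfl fun n _ => sub_mul _ _ _
    rw [e1]
    set u := ∑ n ∈ Icc 1 X, F n * ((lp (N - n) : ℝ) : ℂ) with hu
    set v := ∑ n ∈ Icc 1 X, M n * ((lp (N - n) : ℝ) : ℂ) with hv
    set w := ((sg ⌊l ^ g⌋₊ N : ℝ) : ℂ) * ∑ n ∈ Icc 1 X, F n with hw
    have h8 : ‖u - w‖ ≤ ‖u - v‖ + ‖v - w‖ := by
      have : u - w = (u - v) + (v - w) := by ring
      rw [this]
      exact norm_add_le _ _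
    have h9 : ‖u - w‖ ^ 2 ≤ (‖u - v‖ + ‖v - w‖) ^ 2 := pow_le_pow_left₀ (norm_nonneg _) h8 2
    have h10 : ‖v - w‖ ^ 2 ≤ ((X : ℝ) / l ^ (A + 1)) ^ 2 := pow_le_pow_left₀ (norm_nonneg _) hm 2
    nlinarith [sq_nonneg (‖u - v‖ - ‖v - w‖)]
  calc ∑ N ∈ Ioc Y (Y + H), ‖∑ n ∈ Icc 1 X, F n * ((lp (N - n) : ℝ) : ℂ) -
        ((sg ⌊l ^ g⌋₊ N : ℝ) : ℂ) * ∑ n ∈ Icc 1 X, F n‖ ^ 2 ≤
        ∑ N ∈ Ioc Y (Y + H), (2 * ‖∑ n ∈ Icc 1 X, (F n - M n) * ((lp (N - n) : ℝ) : ℂ)‖ ^ 2 +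
          2 * ((X : ℝ) / l ^ (A + 1)) ^ 2) := sum_le_sum hpt
    _ = 2 * ∑ N ∈ Ioc Y (Y + H), ‖∑ n ∈ Icc 1 X, (F n - M n) * ((lp (N - n) : ℝ) : ℂ)‖ ^ 2 +
          H * (2 * ((X : ℝ) / l ^ (A + 1)) ^ 2) := by
        rw [sum_add_distrib, ← mul_sum, sum_const, nsmul_eq_mul, Nat.card_Ioc]
        congr 3
        omega
    _ ≤ 2 * (48 * (H * (X : ℝ) ^ 2 / l ^ (A + 2))) + H * (2 * ((X : ℝ) / l ^ (A + 1)) ^ 2) :=
        add_le_add (mul_le_mul_of_nonneg_left hcm2 (by norm_num)) le_rfl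
    _ ≤ H * (X : ℝ) ^ 2 / l ^ A := by
        have e1 : 2 * (48 * (H * (X : ℝ) ^ 2 / l ^ (A + 2))) = H * (X : ℝ) ^ 2 / l ^ A * (96 / l ^ 2) := by
          rw [pow_add]; field_simp; ring
        have e2 : H * (2 * ((X : ℝ) / l ^ (A + 1)) ^ 2) = H * (X : ℝ) ^ 2 / l ^ A * (2 / (l ^ A * l ^ 2)) := by
          field_simp
          ring
        have h8 : 96 / l ^ 2 ≤ 1 / 2 := by
          rw [div_le_div_iff₀ (by positivity) (by norm_num)]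
          nlinarith
        have h9 : 2 / (l ^ A * l ^ 2) ≤ 1 / 2 := by
          rw [div_le_div_iff₀ (by positivity) (by norm_num)]
          have : (1 : ℝ) ≤ l ^ A := one_le_pow₀ hl1
          nlinarith
        rw [e1, e2, ← mul_add]
        have h10 : 0 ≤ H * (X : ℝ) ^ 2 / l ^ A := by positivity
        nlinarith

end Pool.Agent.Lib.G3
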