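import Pool.Agent.Lib.G3.G5Defs
import Pool.Agent.Lib.G3.Win5
import Pool.Agent.Lib.G3.Sing5

/-!
# G5, row BL, file Blk5.lean (from `win5` with `3 A + 4`, `sing5` with `A + 2`, Chebyshev's inequality)
-/

set_option autoImplicit false

open Finset

namespace Pool.Agent.Lib.G3

open Pool.Agent.Lib.MRT (cj kap)
open Pool.Agent.Lib.GT (e)

private theorem Blk5_sum (P P' R X : ℕ) (hX : X = 2 * (P' * R)) (f : ℕ → ℂ) :
    ∑ n ∈ Icc 1 X, b5 P P' R n * f n =
      ∑ p ∈ pi5 P P', ∑ r ∈ pr R, ((lp r / Real.log (2 * R : ℕ) : ℝ) : ℂ) * f (p * r) := by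
  have h1 : ∀ n ∈ Icc 1 X, b5 P P' R n * f n = ∑ p ∈ pi5 P P', ∑ r ∈ pr R,
      (if p * r = n then ((lp r / Real.log (2 * R : ℕ) : ℝ) : ℂ) else 0) * f n := by
    intro n _
    rw [b5, sum_mul]
    exact sum_congr rfl fun p _ => sum_mul _ _ _
  rw [sum_congr rfl h1, sum_comm]
  refine sum_congr rfl fun p hp => ?_
  rw [sum_comm]
  refine sum_congr rfl fun r hr => ?_
  have hp' : p.Prime ∧ p ≤ P' := by
    rw [pi5, mem_filter, mem_Ioc] at hp
    exact ⟨hp.2, hp.1.2⟩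
  have hr' : r.Prime ∧ r ≤ 2 * R := by
    rw [pr, mem_filter, mem_Ioc] at hr
    exact ⟨hr.2, hr.1.2⟩
  rw [sum_eq_single (p * r)]
  · rw [if_pos rfl]
  · intro n _ hn
    rw [if_neg (fun h => hn h.symm), zero_mul]
  · intro hn
    exfalso
    apply hn
    rw [mem_Icc]
    refine ⟨Nat.mul_pos hp'.1.pos hr'.1.pos, ?_⟩
    calc p * r ≤ P' * (2 * R) := Nat.mul_le_mul hp'.2 hr'.2
      _ = X := by rw [hX]; ring

private theorem Blk5_W (P P' R X N : ℕ) (hX : X = 2 * (P' * R)) :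
    ∑ n ∈ Icc 1 X, b5 P P' R n * ((lp (N - n) : ℝ) : ℂ) = ((W5 P P' R N : ℝ) : ℂ) := by
  rw [Blk5_sum P P' R X hX (fun n => ((lp (N - n) : ℝ) : ℂ)), W5]
  push_cast
  rfl

private theorem Blk5_S (P P' R X : ℕ) (hX : X = 2 * (P' * R)) :
    ∑ n ∈ Icc 1 X, b5 P P' R n = ((S5 P P' R : ℝ) : ℂ) := by
  have h := Blk5_sum P P' R X hX (fun _ => 1)
  simp only [mul_one] at h
  rw [h, S5]
  push_cast
  rfl

private theorem Blk5_Sle (P P' R X : ℕ) (hX : X = 2 * (P' * R)) : 0 ≤ S5 P P' R ∧ S5 P P' R ≤ X / 2 := by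
  have hw : ∀ r ∈ pr R, 0 ≤ lp r / Real.log (2 * R : ℕ) ∧ lp r / Real.log (2 * R : ℕ) ≤ 1 := by
    intro r hr
    have hr' : r.Prime ∧ r ≤ 2 * R := by
      rw [pr, mem_filter, mem_Ioc] at hr
      exact ⟨hr.2, hr.1.2⟩
    rw [lp, if_pos hr'.1]
    have h1 : (1 : ℝ) ≤ r := by exact_mod_cast hr'.1.one_lt.le
    have h2 : (r : ℝ) ≤ (2 * R : ℕ) := by exact_mod_cast hr'.2
    have h3 : Real.log r ≤ Real.log (2 * R : ℕ) := Real.log_le_log (by linarith) h2
    have h4 : 0 ≤ Real.log r := Real.log_nonneg h1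
    exact ⟨div_nonneg h4 (h4.trans h3), div_le_one_of_le₀ h3 (h4.trans h3)⟩
  refine ⟨sum_nonneg fun p _ => sum_nonneg fun r hr => (hw r hr).1, ?_⟩
  have hc1 : ((pi5 P P').card : ℝ) ≤ P' := by
    have : (pi5 P P').card ≤ P' := by
      calc (pi5 P P').card ≤ (Ioc P P').card := card_filter_le _ _
        _ = P' - P := Nat.card_Ioc _ _
        _ ≤ P' := Nat.sub_le _ _
    exact_mod_cast this
  have hc2 : ((pr R).card : ℝ) ≤ R := by
    have : (pr R).card ≤ R := by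
      calc (pr R).card ≤ (Ioc R (2 * R)).card := card_filter_le _ _
        _ = 2 * R - R := Nat.card_Ioc _ _
        _ = R := by omega
    exact_mod_cast this
  calc S5 P P' R ≤ ∑ p ∈ pi5 P P', ∑ r ∈ pr R, (1 : ℝ) :=
        sum_le_sum fun p _ => sum_le_sum fun r hr => (hw r hr).2
    _ = (pi5 P P').card * (pr R).card := by
        rw [sum_const, sum_const, nsmul_eq_mul, nsmul_eq_mul, mul_one]
    _ ≤ P' * R := mul_le_mul hc1 hc2 (Nat.cast_nonneg _) (Nat.cast_nonneg _)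
    _ = X / 2 := by
        rw [hX]
        push_cast
        ring

theorem blk5 (A : ℕ) : ∃ c10 : ℕ, ∀ c1 cP cB : ℕ, c10 ≤ c1 → ∃ c6 : ℕ, ∃ x0 : ℝ, ∀ X : ℕ, x0 ≤ X → ∀ P P' R : ℕ,
    Par5 X P P' R c1 cP → ∀ Y H : ℕ, X ≤ Y → (Y : ℝ) ≤ X * (Real.log X) ^ cB → (Real.log X) ^ c6 ≤ H →
      (H : ℝ) ≤ (Real.log X) ^ (c6 + 2) →
        (((Ioc Y (Y + H)).filter fun N => X / (Real.log X) ^ A < |W5 P P' R N - SS N * S5 P P' R|).card : ℝ) ≤
          H / (Real.log X) ^ A := by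
  classical
  obtain ⟨c, hs⟩ := sing5 (A + 2)
  obtain ⟨g, c10, hcg, hw⟩ := win5 (3 * A + 4) c
  obtain ⟨xs, hs⟩ := hs g hcg
  refine ⟨c10, fun c1 cP cB hc1 => ?_⟩
  obtain ⟨c6, hgc6, xw, hw⟩ := hw c1 cP cB hc1
  have hev1 := (Real.isLittleO_pow_log_id_atTop (n := cB)).def (c := 1) one_pos
  have hev2 := (Real.isLittleO_pow_log_id_atTop (n := c6 + 2)).def (c := 1) one_pos
  obtain ⟨x1, hx1⟩ := (hev1.and hev2).exists_forall_of_atTop
  refine ⟨c6, max (max xs xw) (max x1 (Real.exp 3)), fun X hX P P' R hPar Y H hXY hYX hH1 hH2 => ?_⟩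
  have hXs : xs ≤ X := le_trans (le_trans (le_max_left _ _) (le_max_left _ _)) hX
  have hXw : xw ≤ X := le_trans (le_trans (le_max_right _ _) (le_max_left _ _)) hX
  have hX1 : x1 ≤ X := le_trans (le_trans (le_max_left _ _) (le_max_right _ _)) hX
  have hX3 : Real.exp 3 ≤ X := le_trans (le_trans (le_max_right _ _) (le_max_right _ _)) hX
  have hX0 : (0 : ℝ) < X := lt_of_lt_of_le (Real.exp_pos _) hX3
  obtain ⟨he1, he2⟩ := hx1 X hX1
  set L := Real.log X with hL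
  have hL3 : 3 ≤ L := by
    rw [hL, Real.le_log_iff_exp_le hX0]
    exact hX3
  have hL0 : 0 < L := by linarith
  have hLcB : L ^ cB ≤ X := by
    have h := he1
    rw [one_mul, id, Real.norm_of_nonneg hX0.le, Real.norm_of_nonneg (by positivity)] at h
    exact h
  have hLc6 : L ^ (c6 + 2) ≤ X := by
    have h := he2
    rw [one_mul, id, Real.norm_of_nonneg hX0.le, Real.norm_of_nonneg (by positivity)] at h
    exact h
  have hY2 : (Y : ℝ) ≤ (X : ℝ) ^ 2 := by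
    refine hYX.trans ?_
    rw [sq]
    exact mul_le_mul_of_nonneg_left hLcB hX0.le
  have hHY : H ≤ Y := by
    have : (H : ℝ) ≤ Y := (hH2.trans hLc6).trans (by exact_mod_cast hXY)
    exact_mod_cast this
  have hHg : L ^ (4 * g + 20) ≤ H :=
    (pow_le_pow_right₀ (by linarith) hgc6).trans hH1
  have hS := hs X hXs Y H hXY hY2 hHg hHY
  have hW := hw X hXw P P' R hPar Y H hXY hYX hH1 hH2
  have hXe := hPar.hX
  have hSle := Blk5_Sle P P' R X hXe
  -- rewrite the mean square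
  set D : ℕ → ℝ := fun N => W5 P P' R N - sg ⌊L ^ g⌋₊ N * S5 P P' R with hD
  have hW2 : ∑ N ∈ Ioc Y (Y + H), (D N) ^ 2 ≤ H * (X : ℝ) ^ 2 / L ^ (3 * A + 4) := by
    refine le_trans (le_of_eq ?_) hW
    refine sum_congr rfl fun N _ => ?_
    rw [Blk5_W P P' R X N hXe, Blk5_S P P' R X hXe, ← Complex.ofReal_mul, ← Complex.ofReal_sub, Complex.norm_real,
      Real.norm_eq_abs, sq_abs]
  -- first exceptional set
  set B1 := (Ioc Y (Y + H)).filter fun N => X / (2 * L ^ A) < |D N| with hB1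
  have hcard1 : (B1.card : ℝ) ≤ 4 * H / L ^ (A + 4) := by
    have h1 : (B1.card : ℝ) * (X / (2 * L ^ A)) ^ 2 ≤ H * (X : ℝ) ^ 2 / L ^ (3 * A + 4) := by
      refine le_trans ?_ hW2
      calc (B1.card : ℝ) * (X / (2 * L ^ A)) ^ 2 = ∑ N ∈ B1, (X / (2 * L ^ A)) ^ 2 := by
            rw [sum_const, nsmul_eq_mul]
        _ ≤ ∑ N ∈ B1, (D N) ^ 2 := by
            refine sum_le_sum fun N hN => ?_
            rw [hB1, mem_filter] at hN
            rw [← sq_abs (D N)]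
            exact pow_le_pow_left₀ (by positivity) hN.2.le 2
        _ ≤ ∑ N ∈ Ioc Y (Y + H), (D N) ^ 2 :=
            sum_le_sum_of_subset_of_nonneg (filter_subset _ _) fun N _ _ => sq_nonneg _
    have h2 : 0 < ((X : ℝ) / (2 * L ^ A)) ^ 2 := by positivity
    rw [← le_div_iff₀ h2] at h1
    refine h1.trans (le_of_eq ?_)
    have e1 : L ^ (3 * A + 4) = L ^ (A + 4) * (L ^ A) ^ 2 := by
      rw [← pow_mul, ← pow_add]
      congr 1
      ring
    rw [e1]
    field_simp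
    ring
  -- second exceptional set
  set B2 := (Ioc Y (Y + H)).filter fun N => 1 / L ^ (A + 2) < |sg ⌊L ^ g⌋₊ N - SS N| with hB2
  have hsub : ((Ioc Y (Y + H)).filter fun N => X / L ^ A < |W5 P P' R N - SS N * S5 P P' R|) ⊆ B1 ∪ B2 := by
    intro N hN
    rw [mem_filter] at hN
    rw [mem_union]
    by_contra hcon
    rw [not_or] at hcon
    have hn1 : |D N| ≤ X / (2 * L ^ A) := by
      by_contra h
      exact hcon.1 (by rw [hB1, mem_filter]; exact ⟨hN.1, not_le.mp h⟩)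
    have hn2 : |sg ⌊L ^ g⌋₊ N - SS N| ≤ 1 / L ^ (A + 2) := by
      by_contra h
      exact hcon.2 (by rw [hB2, mem_filter]; exact ⟨hN.1, not_le.mp h⟩)
    have e1 : W5 P P' R N - SS N * S5 P P' R = D N + (sg ⌊L ^ g⌋₊ N - SS N) * S5 P P' R := by
      rw [hD]
      ring
    have h3 : |W5 P P' R N - SS N * S5 P P' R| ≤ X / (2 * L ^ A) + 1 / L ^ (A + 2) * (X / 2) := by
      rw [e1]
      refine (abs_add_le _ _).trans (add_le_add hn1 ?_)
      rw [abs_mul, abs_of_nonneg hSle.1]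
      exact mul_le_mul hn2 hSle.2 hSle.1 (by positivity)
    have h4 : 1 / L ^ (A + 2) * (X / 2) ≤ X / (2 * L ^ A) := by
      have h5 : L ^ A ≤ L ^ (A + 2) := pow_le_pow_right₀ (by linarith) (by omega)
      have h6 : 1 / L ^ (A + 2) ≤ 1 / L ^ A := one_div_le_one_div_of_le (by positivity) h5
      calc 1 / L ^ (A + 2) * (X / 2) ≤ 1 / L ^ A * (X / 2) := mul_le_mul_of_nonneg_right h6 (by positivity)
        _ = X / (2 * L ^ A) := by
            field_simp
    have h7 : X / (2 * L ^ A) + X / (2 * L ^ A) = X / L ^ A := by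
      field_simp
      ring
    linarith [hN.2]
  have hcard2 : (B2.card : ℝ) ≤ H / L ^ (A + 2) := hS
  have hH0 : (0 : ℝ) ≤ H := Nat.cast_nonneg H
  calc (((Ioc Y (Y + H)).filter fun N => X / L ^ A < |W5 P P' R N - SS N * S5 P P' R|).card : ℝ)
      ≤ ((B1 ∪ B2).card : ℝ) := by exact_mod_cast card_le_card hsub
    _ ≤ (B1.card : ℝ) + B2.card := by exact_mod_cast card_union_le _ _
    _ ≤ 4 * H / L ^ (A + 4) + H / L ^ (A + 2) := add_le_add hcard1 hcard2
    _ = (H / L ^ A) * (4 / L ^ 4 + 1 / L ^ 2) := by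
        rw [pow_add, pow_add]
        field_simp
    _ ≤ (H / L ^ A) * 1 := by
        refine mul_le_mul_of_nonneg_left ?_ (by positivity)
        have h9 : (9 : ℝ) ≤ L ^ 2 := by nlinarith
        have h81 : (81 : ℝ) ≤ L ^ 4 := by nlinarith [sq_nonneg (L ^ 2)]
        have i1 : 4 / L ^ 4 ≤ 4 / 81 := div_le_div_of_nonneg_left (by norm_num) (by norm_num) h81
        have i2 : 1 / L ^ 2 ≤ 1 / 9 := div_le_div_of_nonneg_left (by norm_num) (by norm_num) h9
        linarith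
    _ = H / L ^ A := mul_one _

end Pool.Agent.Lib.G3
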