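import Pool.Agent.Lib.G3.G4Defs
import Pool.Agent.Lib.G3.B2f
import Pool.Agent.Lib.G3.Btf
import Pool.Agent.Lib.G3.Ab

/-!
# G4, row BM: facts on `bm`

As `Btf.lean`, with the weight `bbw R r` of the long prime variable (`B2f.lean`).
-/

set_option autoImplicit false

open Finset

namespace Pool.Agent.Lib.G3

open Pool.Agent.Lib.MRT (cj kap)
open Pool.Agent.Lib.GT (e)

private theorem bm_w {R r : ℕ} (hr : r ∈ pr R) : 0 ≤ bbw R r ∧ bbw R r ≤ 1 := by
  obtain ⟨⟨h1, h2⟩, h3⟩ := bf_mem_pr.1 hr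
  have e1 : lp r = Real.log r := by rw [lp, if_pos h3]
  have hr1 : (1 : ℝ) ≤ r := by exact_mod_cast h3.one_lt.le
  have hr2 : (r : ℝ) ≤ (2 * R : ℕ) := by exact_mod_cast h2
  have hl0 : 0 ≤ Real.log r := Real.log_nonneg hr1
  have hl1 : Real.log r ≤ Real.log (2 * R : ℕ) := Real.log_le_log (by linarith) hr2
  rw [bbw, e1]
  exact ⟨div_nonneg hl0 (hl0.trans hl1), div_le_one_of_le₀ hl1 (hl0.trans hl1)⟩

private theorem bm_wc {a : ℕ → ℂ} {P R M : ℕ} (ha : Good a P R M) {r : ℕ} (hr : r ∈ pr R) (m : ℕ) :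
    ‖a m * ((bbw R r : ℝ) : ℂ)‖ ≤ 1 := by
  rw [norm_mul, Complex.norm_real, Real.norm_of_nonneg (bm_w hr).1]
  exact mul_le_one₀ (ha.le m) (bm_w hr).1 (bm_w hr).2

private theorem bm_eq (a : ℕ → ℂ) (P R M n : ℕ) :
    bm a P R M n = ∑ p ∈ pr P, ∑ r ∈ pr R, ∑ m ∈ Ioc M (2 * M),
      if p * m * r = n then a m * ((bbw R r : ℝ) : ℂ) else 0 := by
  rw [bm]
  rfl

/-- the sum in `b` in the bilinear form -/
private noncomputable def bmb (a : ℕ → ℂ) (R M k : ℕ) : ℂ :=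
  ∑ r ∈ pr R, ∑ m ∈ Ioc M (2 * M), if m * r = k then a m * ((bbw R r : ℝ) : ℂ) else 0

private theorem bmb_le {a : ℕ → ℂ} {P R M : ℕ} (ha : Good a P R M) (k : ℕ) : ‖bmb a R M k‖ ≤ 1 := by
  by_cases hex : ∃ r ∈ pr R, ∃ m ∈ Ioc M (2 * M), a m ≠ 0 ∧ m * r = k
  · obtain ⟨r, hr, m, hm, ham, hk⟩ := hex
    have hr0 : 0 < r := (bf_mem_pr.1 hr).2.pos
    rw [bmb, sum_eq_single r, sum_eq_single m]
    · rw [if_pos hk]
      exact bm_wc ha hr m
    · intro m' _ hne
      refine if_neg fun h => hne ?_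
      exact Nat.eq_of_mul_eq_mul_right hr0 (h.trans hk.symm)
    · intro h; exact absurd hm h
    · intro r' hr' hne
      refine sum_eq_zero fun m' _ => ?_
      by_cases h : m' * r' = k
      · by_cases ham' : a m' = 0
        · rw [ham', zero_mul, ite_self]
        · exact absurd (bf_uniq_r ha ham hr' hr (h.trans hk.symm)) hne
      · exact if_neg h
    · intro h; exact absurd hr h
  · push Not at hex
    have h0 : bmb a R M k = 0 := by
      rw [bmb]
      refine sum_eq_zero fun r hr => sum_eq_zero fun m hm => ?_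
      by_cases h : m * r = k
      · by_cases ham : a m = 0
        · rw [ham, zero_mul, ite_self]
        · exact absurd h (hex r hr m hm ham)
      · exact if_neg h
    rw [h0, norm_zero]
    exact zero_le_one

/-- the triple of a product -/
private theorem bm_cases {a : ℕ → ℂ} {P R M : ℕ} (ha : Good a P R M) (hPR : 2 * P ≤ R) (n : ℕ) :
    bm a P R M n = 0 ∨ ∃ p ∈ pr P, ∃ r ∈ pr R, ∃ m ∈ Ioc M (2 * M), a m ≠ 0 ∧ p * m * r = n ∧
      bm a P R M n = a m * ((bbw R r : ℝ) : ℂ) := by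
  by_cases hex : ∃ p ∈ pr P, ∃ r ∈ pr R, ∃ m ∈ Ioc M (2 * M), a m ≠ 0 ∧ p * m * r = n
  · obtain ⟨p, hp, r, hr, m, hm, ham, hk⟩ := hex
    right
    refine ⟨p, hp, r, hr, m, hm, ham, hk, ?_⟩
    have hr0 : 0 < r := (bf_mem_pr.1 hr).2.pos
    have hp0 : 0 < p := (bf_mem_pr.1 hp).2.pos
    rw [bm_eq, sum_eq_single p, sum_eq_single r, sum_eq_single m]
    · rw [if_pos hk]
    · intro m' _ hne
      refine if_neg fun h => hne ?_
      exact Nat.eq_of_mul_eq_mul_left hp0 (Nat.eq_of_mul_eq_mul_right hr0 (h.trans hk.symm))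
    · intro h; exact absurd hm h
    · intro r' hr' hne
      refine sum_eq_zero fun m' _ => ?_
      by_cases h : p * m' * r' = n
      · exfalso
        have h1 : m' * r' = m * r := by
          have h2 : p * (m' * r') = p * (m * r) := by
            rw [← mul_assoc, ← mul_assoc]
            exact h.trans hk.symm
          exact Nat.eq_of_mul_eq_mul_left hp0 h2
        exact hne (bf_uniq_r ha ham hr' hr h1)
      · exact if_neg h
    · intro h; exact absurd hr h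
    · intro p' hp' hne
      refine sum_eq_zero fun r' hr' => sum_eq_zero fun m' _ => ?_
      by_cases h : p' * m' * r' = n
      · exact absurd (bf_uniq_p ha hPR ham hp' hp hr (h.trans hk.symm)) hne
      · exact if_neg h
    · intro h; exact absurd hp h
  · left
    push Not at hex
    rw [bm_eq]
    refine sum_eq_zero fun p hp => sum_eq_zero fun r hr => sum_eq_zero fun m hm => ?_
    by_cases h : p * m * r = n
    · by_cases ham : a m = 0
      · rw [ham, zero_mul, ite_self]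
      · exact absurd h (hex p hp r hr m hm ham)
    · exact if_neg h

theorem bm_le {a : ℕ → ℂ} {P R M : ℕ} (ha : Good a P R M) (hPR : 2 * P ≤ R) (n : ℕ) : ‖bm a P R M n‖ ≤ 1 := by
  rcases bm_cases ha hPR n with h | ⟨p, -, r, hr, m, -, -, -, h⟩
  · rw [h, norm_zero]; exact zero_le_one
  · rw [h]; exact bm_wc ha hr m

theorem bm_supp {a : ℕ → ℂ} {P R M : ℕ} (ha : Good a P R M) (hPR : 2 * P ≤ R) {n : ℕ} (hn : bm a P R M n ≠ 0) :
    P * M * R < n ∧ n ≤ 8 * (P * M * R) ∧ ∀ p : ℕ, p.Prime → p ∣ n → P < p := by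
  rcases bm_cases ha hPR n with h | ⟨p, hp, r, hr, m, hm, ham, hk, -⟩
  · exact absurd h hn
  · obtain ⟨h1, h2⟩ := bf_size hp hr hm
    rw [hk] at h1 h2
    refine ⟨h1, h2, fun l hl hln => ?_⟩
    obtain ⟨⟨h3, h4⟩, h5⟩ := bf_mem_pr.1 hp
    obtain ⟨⟨h6, h7⟩, h8⟩ := bf_mem_pr.1 hr
    rw [← hk] at hln
    rcases (hl.dvd_mul).1 hln with h9 | h9
    · rcases (hl.dvd_mul).1 h9 with h10 | h10
      · rw [(Nat.prime_dvd_prime_iff_eq hl h5).1 h10]
        exact h3
      · have := (ha.rough m ham l hl h10).1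
        omega
    · rw [(Nat.prime_dvd_prime_iff_eq hl h8).1 h9]
      omega

theorem bm_sum_mul {a : ℕ → ℂ} {P R M X : ℕ} (hX : 8 * (P * M * R) ≤ X) (g : ℕ → ℂ) :
    ∑ n ∈ Icc 1 X, bm a P R M n * g n =
      ∑ p ∈ pr P, ∑ r ∈ pr R, ∑ m ∈ Ioc M (2 * M), a m * ((lp r / Real.log (2 * R : ℕ) : ℝ) : ℂ) * g (p * m * r) := by
  have h1 : ∀ n, bm a P R M n * g n = ∑ p ∈ pr P, ∑ r ∈ pr R, ∑ m ∈ Ioc M (2 * M),
      if p * m * r = n then a m * ((lp r / Real.log (2 * R : ℕ) : ℝ) : ℂ) * g n else 0 := by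
    intro n
    rw [bm, sum_mul]
    refine sum_congr rfl fun p _ => ?_
    rw [sum_mul]
    refine sum_congr rfl fun r _ => ?_
    rw [sum_mul]
    refine sum_congr rfl fun m _ => ?_
    rw [ite_mul, zero_mul]
  simp only [h1]
  rw [sum_comm]
  refine sum_congr rfl fun p hp => ?_
  rw [sum_comm]
  refine sum_congr rfl fun r hr => ?_
  rw [sum_comm]
  refine sum_congr rfl fun m hm => ?_
  obtain ⟨h2, h3⟩ := bf_size hp hr hm
  rw [sum_ite_eq, if_pos]
  exact mem_Icc.2 ⟨by omega, h3.trans hX⟩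

theorem bm_bc {a : ℕ → ℂ} {P R M X : ℕ} (hX : 8 * (P * M * R) ≤ X) {q : ℕ} (χ : DirichletCharacter ℂ q) (j : ℤ) :
    bc (bm a P R M) X χ j =
      RR χ P j * (∑ m ∈ Ioc M (2 * M), a m * χ (m : ZMod q) * cj j m) * (RL χ R j / ((Real.log (2 * R : ℕ) : ℝ) : ℂ)) := by
  have h1 : bc (bm a P R M) X χ j =
      ∑ n ∈ Icc 1 X, bm a P R M n * (χ (n : ZMod q) * cj j n) := by
    rw [bc]
    refine sum_congr rfl fun n _ => ?_
    rw [mul_assoc]
  rw [h1, bm_sum_mul hX, RR, RL, mul_assoc, sum_mul]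
  refine sum_congr rfl fun p hp => ?_
  rw [mul_comm (∑ m ∈ Ioc M (2 * M), a m * χ (m : ZMod q) * cj j m), sum_div, sum_mul, mul_sum]
  refine sum_congr rfl fun r hr => ?_
  rw [mul_sum, mul_sum]
  refine sum_congr rfl fun m hm => ?_
  have hp0 : p ≠ 0 := (bf_mem_pr.1 hp).2.ne_zero
  have hr0 : r ≠ 0 := (bf_mem_pr.1 hr).2.ne_zero
  have hm0 : m ≠ 0 := by have := (mem_Ioc.1 hm).1; omega
  rw [Pool.Agent.Lib.MRT.cj_mul j (mul_ne_zero hp0 hm0) hr0, Pool.Agent.Lib.MRT.cj_mul j hp0 hm0, Complex.ofReal_div]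
  push_cast
  rw [map_mul, map_mul]
  ring

theorem bm_bil {a : ℕ → ℂ} {P R M : ℕ} (ha : Good a P R M) (hPR : 2 * P ≤ R) : ∃ c b : ℕ → ℂ, (∀ n, ‖c n‖ ≤ 1) ∧
    (∀ n, ‖b n‖ ≤ 1) ∧ ∀ n, bm a P R M n = ∑ p ∈ Ioc P (2 * P), ∑ m ∈ Icc 1 (4 * (M * R)), if p * m = n then c p * b m else 0 := by
  refine ⟨fun p => if p.Prime then 1 else 0, bmb a R M, fun n => ?_, bmb_le ha, fun n => ?_⟩
  · simp only
    split_ifs
    · rw [norm_one]
    · rw [norm_zero]; exact zero_le_one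
  · rw [bm_eq, pr, sum_filter]
    refine sum_congr rfl fun p hp => ?_
    by_cases hpp : p.Prime
    · rw [if_pos hpp]
      have hp0 : 0 < p := hpp.pos
      simp only [if_pos hpp, one_mul]
      have h1 : ∀ k, (if p * k = n then bmb a R M k else 0) =
          ∑ r ∈ pr R, ∑ m ∈ Ioc M (2 * M),
            if m * r = k then (if p * m * r = n then a m * ((bbw R r : ℝ) : ℂ) else 0) else 0 := by
        intro k
        rw [bmb]
        by_cases hk : p * k = n
        · rw [if_pos hk]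
          refine sum_congr rfl fun r _ => sum_congr rfl fun m _ => ?_
          by_cases hmr : m * r = k
          · rw [if_pos hmr, if_pos hmr, if_pos]
            rw [mul_assoc, hmr, hk]
          · rw [if_neg hmr, if_neg hmr]
        · rw [if_neg hk]
          symm
          refine sum_eq_zero fun r _ => sum_eq_zero fun m _ => ?_
          by_cases hmr : m * r = k
          · rw [if_pos hmr, if_neg]
            rw [mul_assoc, hmr]
            exact hk
          · rw [if_neg hmr]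
      simp only [h1]
      symm
      rw [sum_comm]
      refine sum_congr rfl fun r hr => ?_
      rw [sum_comm]
      refine sum_congr rfl fun m hm => ?_
      rw [sum_ite_eq, if_pos]
      have hr' : r ∈ pr R := by
        rw [pr]
        exact hr
      obtain ⟨⟨h3, h4⟩, -⟩ := bf_mem_pr.1 hr'
      obtain ⟨h5, h6⟩ := mem_Ioc.1 hm
      rw [mem_Icc]
      constructor
      · exact Nat.mul_pos (by omega) (by omega)
      · calc m * r ≤ (2 * M) * (2 * R) := Nat.mul_le_mul h6 h4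
          _ = 4 * (M * R) := by ring
    · rw [if_neg hpp]
      symm
      refine sum_eq_zero fun m _ => ?_
      simp only [if_neg hpp, zero_mul, ite_self]

theorem bm_sum {a : ℕ → ℂ} {P R M X : ℕ} (hX : 8 * (P * M * R) ≤ X) :
    ∑ n ∈ Icc 1 X, bm a P R M n = (pr P).card * (∑ m ∈ Ioc M (2 * M), a m) * ((∑ r ∈ pr R, lp r / Real.log (2 * R : ℕ) : ℝ) : ℂ) := by
  have h1 := bm_sum_mul (a := a) hX (fun _ => 1)
  simp only [mul_one] at h1
  rw [h1, sum_const, nsmul_eq_mul, mul_assoc]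
  congr 1
  rw [Complex.ofReal_sum, mul_sum]
  refine sum_congr rfl fun r _ => ?_
  rw [sum_mul]

theorem bm_k {k : ℕ} (hk : 3 ≤ k) {P R M n : ℕ} (hPR : 2 * P ≤ R) (h : bm (aa k P R M) P R M n ≠ 0) :
    (∃ x : ℝ, 0 ≤ x ∧ x ≤ 1 ∧ bm (aa k P R M) P R M n = x) ∧ Squarefree n ∧ n.primeFactors.card = k := by
  rcases bm_cases (aa_good k P R M) hPR n with h0 | ⟨p, hp, r, hr, m, -, ham, hn, hb⟩
  · exact absurd h0 h
  obtain ⟨⟨-, -, hsq, hcard, hro⟩, h1⟩ : (M < m ∧ m ≤ 2 * M ∧ Squarefree m ∧ m.primeFactors.card = k - 2 ∧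
      ∀ p : ℕ, p.Prime → p ∣ m → 2 * P < p ∧ (p ≤ R ∨ 2 * R < p)) ∧ aa k P R M m = 1 := by
    unfold aa at ham ⊢
    split_ifs at ham ⊢ with h1
    · exact ⟨h1, rfl⟩
    · exact absurd rfl ham
  obtain ⟨⟨hp1, hp2⟩, hpp⟩ := bf_mem_pr.1 hp
  obtain ⟨⟨hr1, hr2⟩, hrp⟩ := bf_mem_pr.1 hr
  have hpm : ¬ p ∣ m := fun hd => by have := (hro p hpp hd).1; omega
  have hrm : ¬ r ∣ m := fun hd => by have := (hro r hrp hd).2; omega
  have hpr : p ≠ r := by omega
  have hm0 : m ≠ 0 := hsq.ne_zero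
  have c1 : Nat.Coprime p m := (Nat.Prime.coprime_iff_not_dvd hpp).2 hpm
  have c2 : Nat.Coprime p r := (Nat.coprime_primes hpp hrp).2 hpr
  have c3 : Nat.Coprime m r := ((Nat.Prime.coprime_iff_not_dvd hrp).2 hrm).symm
  have c4 : Nat.Coprime (p * m) r := Nat.Coprime.mul_left c2 c3
  refine ⟨⟨bbw R r, (bm_w hr).1, (bm_w hr).2, ?_⟩, ?_, ?_⟩
  · rw [hb, h1, one_mul]
  · rw [← hn, Nat.squarefree_mul_iff, Nat.squarefree_mul_iff]
    exact ⟨c4, ⟨c1, hpp.squarefree, hsq⟩, hrp.squarefree⟩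
  · rw [← hn, Nat.Coprime.primeFactors_mul c4, card_union_of_disjoint c4.disjoint_primeFactors,
      Nat.Coprime.primeFactors_mul c1, card_union_of_disjoint c1.disjoint_primeFactors,
      hpp.primeFactors, hrp.primeFactors, card_singleton, card_singleton, hcard]
    omega

end Pool.Agent.Lib.G3
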