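import Pool.Agent.Lib.G3.Defs2

/-!
# G3, row BC: the twisted sum at a rational frequency by characters

`F` is supported on the `n` coprime to `q`; orthogonality of the Dirichlet characters modulo `q`.
-/

set_option autoImplicit false

open Finset

namespace Pool.Agent.Lib.G3

open Pool.Agent.Lib.MRT (cj kap)
open Pool.Agent.Lib.GT (e)

private theorem bqc_norm (x : ℝ) : ‖e x‖ = 1 := by
  unfold e
  rw [show (2 * Real.pi * x * Complex.I : ℂ) = ((2 * Real.pi * x : ℝ) : ℂ) * Complex.I by push_cast; ring]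
  exact Complex.norm_exp_ofReal_mul_I _

private theorem bqc_int (x : ℝ) (m : ℤ) : e (x + m) = e x := by
  unfold e
  push_cast
  rw [show (2 * Real.pi * (x + m) * Complex.I : ℂ) = 2 * Real.pi * x * Complex.I + m * (2 * Real.pi * Complex.I) by ring]
  exact Complex.exp_periodic.int_mul m _

private theorem bqc_mod {q : ℕ} (hq : 1 ≤ q) (a n : ℕ) :
    e (-(n * ((a : ℝ) / q))) = e (-((n % q : ℕ) * ((a : ℝ) / q))) := by
  have hq' : (q : ℝ) ≠ 0 := by
    have : (0 : ℝ) < q := by exact_mod_cast hq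
    exact this.ne'
  obtain ⟨k, hk⟩ : ∃ k : ℕ, n % q + q * k = n := ⟨n / q, Nat.mod_add_div n q⟩
  have h : (n : ℝ) = (n % q : ℕ) + q * (k : ℕ) := by
    exact_mod_cast hk.symm
  rw [← bqc_int (-((n % q : ℕ) * ((a : ℝ) / q))) (-((k * a : ℕ) : ℤ))]
  congr 1
  have key : ∀ A B N : ℝ, N = A + q * B → N * ((a : ℝ) / q) = A * ((a : ℝ) / q) + B * a := by
    intro A B N hN
    rw [hN]
    field_simp
  rw [key _ _ _ h]
  push_cast
  ring

private theorem bqc_term {q : ℕ} [NeZero q] (a n : ℕ) (hn : Nat.Coprime n q) :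
    e (-(n * ((a : ℝ) / q))) = ∑ χ : DirichletCharacter ℂ q,
      ((1 / (q.totient : ℂ)) * ∑ c : (ZMod q)ˣ, e (-(((c : ZMod q).val : ℝ) * ((a : ℝ) / q))) *
        χ ((c : ZMod q)⁻¹)) * χ (n : ZMod q) := by
  classical
  have hq : 1 ≤ q := Nat.one_le_iff_ne_zero.mpr (NeZero.ne q)
  have hφ : (q.totient : ℂ) ≠ 0 := by
    exact_mod_cast (Nat.totient_pos.mpr hq).ne'
  have h1 : ∑ χ : DirichletCharacter ℂ q,
      ((1 / (q.totient : ℂ)) * ∑ c : (ZMod q)ˣ, e (-(((c : ZMod q).val : ℝ) * ((a : ℝ) / q))) *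
        χ ((c : ZMod q)⁻¹)) * χ (n : ZMod q) =
      (1 / (q.totient : ℂ)) * ∑ c : (ZMod q)ˣ, e (-(((c : ZMod q).val : ℝ) * ((a : ℝ) / q))) *
        ∑ χ : DirichletCharacter ℂ q, χ ((c : ZMod q)⁻¹) * χ (n : ZMod q) := by
    rw [Finset.mul_sum]
    simp only [Finset.mul_sum, Finset.sum_mul]
    rw [Finset.sum_comm]
    refine Finset.sum_congr rfl fun c _ => Finset.sum_congr rfl fun χ _ => ?_
    ring
  rw [h1]
  have h2 : ∀ c : (ZMod q)ˣ, ∑ χ : DirichletCharacter ℂ q, χ ((c : ZMod q)⁻¹) * χ (n : ZMod q) =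
      if (c : ZMod q) = (n : ZMod q) then (q.totient : ℂ) else 0 := by
    intro c
    exact DirichletCharacter.sum_char_inv_mul_char_eq ℂ c.isUnit (n : ZMod q)
  simp only [h2]
  have hu : IsUnit (n : ZMod q) := (ZMod.isUnit_iff_coprime n q).mpr hn
  obtain ⟨u, hu⟩ := hu
  rw [Finset.sum_eq_single u]
  · rw [if_pos hu, hu, ZMod.val_natCast, bqc_mod hq a n]
    field_simp
  · intro c _ hc
    rw [if_neg, mul_zero]
    intro h
    exact hc (Units.ext (h.trans hu.symm))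
  · intro h
    exact absurd (mem_univ _) h

theorem bqc {q : ℕ} (hq : 1 ≤ q) (a : ℕ) (F : ℕ → ℂ) (X : ℕ) (hF : ∀ n, F n ≠ 0 → Nat.Coprime n q) (j : ℤ) :
    ‖bq F X ((a : ℝ) / q) j‖ ≤ ∑ χ : DirichletCharacter ℂ q, ‖bc F X χ j‖ := by
  classical
  have : NeZero q := ⟨by omega⟩
  have hφ : (0 : ℝ) < (q.totient : ℝ) := by exact_mod_cast Nat.totient_pos.mpr hq
  have h1 : bq F X ((a : ℝ) / q) j = ∑ χ : DirichletCharacter ℂ q,
      ((1 / (q.totient : ℂ)) * ∑ c : (ZMod q)ˣ, e (-(((c : ZMod q).val : ℝ) * ((a : ℝ) / q))) *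
        χ ((c : ZMod q)⁻¹)) * bc F X χ j := by
    unfold bq bc
    simp only [Finset.mul_sum (s := Icc 1 X)]
    rw [Finset.sum_comm]
    refine Finset.sum_congr rfl fun n _ => ?_
    by_cases h0 : F n = 0
    · simp [h0]
    · rw [bqc_term a n (hF n h0), Finset.mul_sum, Finset.sum_mul]
      refine Finset.sum_congr rfl fun χ _ => ?_
      ring
  rw [h1]
  refine (norm_sum_le _ _).trans (Finset.sum_le_sum fun χ _ => ?_)
  rw [norm_mul]
  refine mul_le_of_le_one_left (norm_nonneg _) ?_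
  rw [norm_mul, norm_div, norm_one, Complex.norm_natCast]
  have h2 : ‖∑ c : (ZMod q)ˣ, e (-(((c : ZMod q).val : ℝ) * ((a : ℝ) / q))) * χ ((c : ZMod q)⁻¹)‖ ≤
      (q.totient : ℝ) := by
    refine (norm_sum_le _ _).trans ?_
    have h3 : ∀ c ∈ (univ : Finset (ZMod q)ˣ), ‖e (-(((c : ZMod q).val : ℝ) * ((a : ℝ) / q))) *
        χ ((c : ZMod q)⁻¹)‖ ≤ 1 := by
      intro c _
      rw [norm_mul, bqc_norm, one_mul]
      exact DirichletCharacter.norm_le_one χ _
    refine (Finset.sum_le_card_nsmul _ _ 1 h3).trans ?_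
    rw [Finset.card_univ, ZMod.card_units_eq_totient, nsmul_eq_mul, mul_one]
  rw [div_mul_eq_mul_div, one_mul, div_le_one hφ]
  exact h2

end Pool.Agent.Lib.G3
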