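import Pool.Agent.Lib.G3.G4Defs
import Pool.Agent.Lib.G3.Bqs

/-!
# G4, row BQ: the Fourier coefficients of `bm` at `b/q` and small `j`

As Bqs2.lean, one more sum over `m`; all primes of `m` are larger than `P`, hence `m` is coprime to `q`.
-/

set_option autoImplicit false

open Finset

namespace Pool.Agent.Lib.G3

open Pool.Agent.Lib.MRT (cj norm_cj cj_mul)
open Pool.Agent.Lib.GT (e lam)

/-- partial summation against `n^(-ij)` -/
private theorem bqm_abel (f : ℕ → ℂ) (j : ℤ) (R : ℕ) (hR : 3 ≤ R) {E : ℝ} (hE : 0 ≤ E) (hf : ∀ m ∈ Ioc R (2 * R), ‖∑ n ∈ Ioc R m, f n‖ ≤ E) :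
    ‖∑ n ∈ Ioc R (2 * R), f n * cj j n‖ ≤ E * (|(j : ℝ)| + 2) := by
  have hR0 : (0 : ℝ) < R := by positivity
  rw [abel_Ioc f (cj j) R (2 * R) (by omega)]
  refine (norm_add_le _ _).trans ?_
  have h1 : ‖(∑ n ∈ Ioc R (2 * R), f n) * cj j (2 * R + 1)‖ ≤ E := by
    rw [norm_mul, norm_cj, mul_one]
    exact hf (2 * R) (by rw [mem_Ioc]; omega)
  have h2 : ‖∑ m ∈ Ioc R (2 * R), (∑ n ∈ Ioc R m, f n) * (cj j m - cj j (m + 1))‖ ≤ E * |(j : ℝ)| := by
    refine (norm_sum_le _ _).trans ?_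
    have h3 : ∀ m ∈ Ioc R (2 * R), ‖(∑ n ∈ Ioc R m, f n) * (cj j m - cj j (m + 1))‖ ≤ E * (|(j : ℝ)| / R) := by
      intro m hm
      rw [norm_mul]
      refine mul_le_mul (hf m hm) ?_ (norm_nonneg _) hE
      rw [mem_Ioc] at hm
      refine (cj_diff j m (by omega)).trans ?_
      have h4 : (R : ℝ) ≤ m := by exact_mod_cast hm.1.le
      exact div_le_div_of_nonneg_left (by positivity) hR0 h4
    refine (sum_le_sum h3).trans ?_
    rw [sum_const, Nat.card_Ioc, nsmul_eq_mul]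
    have h5 : 2 * R - R = R := by omega
    rw [h5]
    have h6 : (R : ℝ) * (E * (|(j : ℝ)| / R)) = E * |(j : ℝ)| := by
      field_simp
    rw [h6]
  have h7 : E * (|(j : ℝ)| + 2) = E + E * |(j : ℝ)| + E := by ring
  rw [h7]
  linarith

/-- the primes `r` of `(R, 2R]`, twisted, with the weight `log r` -/
private theorem bqm_pr_e (k : ℕ) : ∃ C : ℝ, 0 < C ∧ ∀ (q R : ℕ) (a j : ℤ), 1 ≤ q → IsCoprime a (q : ℤ) → 3 ≤ R →
    ‖∑ r ∈ pr R, ((lp r : ℝ) : ℂ) * (e (r * ((a : ℝ) / q)) * cj j r) -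
      ((ArithmeticFunction.moebius q : ℤ) : ℂ) / (q.totient : ℂ) * ∑ r ∈ pr R, ((lp r : ℝ) : ℂ) * cj j r‖ ≤
      C * (q : ℝ) ^ 2 * R * (|(j : ℝ)| + 2) / (Real.log R) ^ k := by
  obtain ⟨C, hC, h⟩ := theta_e k
  refine ⟨C, hC, ?_⟩
  intro q R a j hq ha hR
  set w : ℂ := ((ArithmeticFunction.moebius q : ℤ) : ℂ) / (q.totient : ℂ) with hw
  have hR3 : (3 : ℝ) ≤ R := by exact_mod_cast hR
  have hlR : 0 < Real.log R := Real.log_pos (by linarith)
  have h1 := bqm_abel (fun n => ((lam n : ℝ) : ℂ) * (e (n * ((a : ℝ) / q)) - w)) j R hR (E := C * (q : ℝ) ^ 2 * R / (Real.log R) ^ k)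
    (by positivity) (fun m hm => by
      rw [mem_Ioc] at hm
      exact h q R m a hq ha hR (by omega) (by omega))
  have h2 : ∑ n ∈ Ioc R (2 * R), ((lam n : ℝ) : ℂ) * (e (n * ((a : ℝ) / q)) - w) * cj j n =
      ∑ r ∈ pr R, ((lp r : ℝ) : ℂ) * (e (r * ((a : ℝ) / q)) * cj j r) - w * ∑ r ∈ pr R, ((lp r : ℝ) : ℂ) * cj j r := by
    rw [mul_sum, ← sum_sub_distrib]
    unfold pr
    rw [sum_filter]
    refine sum_congr rfl fun n hn => ?_
    unfold lam lp
    by_cases hp : n.Prime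
    · rw [if_pos hp, if_pos hp]
      ring
    · rw [if_neg hp, if_neg hp]
      simp
  rw [h2] at h1
  refine h1.trans (le_of_eq ?_)
  ring

private theorem bqm_wsum {a : ℕ → ℂ} {P R M X : ℕ} (hX : 8 * (P * M * R) ≤ X) (w : ℕ → ℂ) :
    ∑ n ∈ Icc 1 X, bm a P R M n * w n = ∑ p ∈ pr P, ∑ m ∈ Ioc M (2 * M), ∑ r ∈ pr R,
      a m * ((lp r / Real.log (2 * R : ℕ) : ℝ) : ℂ) * w (p * m * r) := by
  have h1 : ∀ n ∈ Icc 1 X, bm a P R M n * w n =
      ∑ p ∈ pr P, ∑ m ∈ Ioc M (2 * M), ∑ r ∈ pr R, (if p * m * r = n then a m * ((lp r / Real.log (2 * R : ℕ) : ℝ) : ℂ) * w n else 0) := by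
    intro n _
    unfold bm
    rw [sum_mul]
    refine sum_congr rfl fun p _ => ?_
    rw [sum_comm, sum_mul]
    refine sum_congr rfl fun m _ => ?_
    rw [sum_mul]
    refine sum_congr rfl fun r _ => ?_
    rw [ite_mul, zero_mul]
  rw [sum_congr rfl h1, sum_comm]
  refine sum_congr rfl fun p hp => ?_
  rw [sum_comm]
  refine sum_congr rfl fun m hm => ?_
  rw [sum_comm]
  refine sum_congr rfl fun r hr => ?_
  unfold pr at hp hr
  rw [mem_filter, mem_Ioc] at hp hr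
  rw [mem_Ioc] at hm
  rw [sum_eq_single_of_mem (p * m * r)]
  · rw [if_pos rfl]
  · rw [mem_Icc]
    constructor
    · have h2 : 0 < p * m * r := by
        have := hp.2.pos
        have := hr.2.pos
        have : 0 < m := by omega
        positivity
      omega
    · have h3 : p * m * r ≤ (2 * P) * (2 * M) * (2 * R) := by
        gcongr
        · exact hp.1.2
        · exact hm.2
        · exact hr.1.2
      have h4 : (2 * P) * (2 * M) * (2 * R) = 8 * (P * M * R) := by ring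
      omega
  · intro n _ hn
    rw [if_neg (fun h => hn h.symm)]

theorem bqsM (K c2 c5 c1 cM : ℕ) (hc : c2 < c1) : ∃ x0 : ℝ, ∀ X : ℕ, x0 ≤ X → ∀ (P R M : ℕ) (a : ℕ → ℂ), ParM X P R M c1 cM → Good a P R M →
    ∀ q b : ℕ, 1 ≤ q → (q : ℝ) ≤ (Real.log X) ^ c2 → Nat.Coprime q b → ∀ j : ℤ, |(j : ℝ)| ≤ (Real.log X) ^ c5 →
      ‖bq (bm a P R M) X ((b : ℝ) / q) j - ((ArithmeticFunction.moebius q : ℤ) : ℂ) / (q.totient : ℂ) * bq (bm a P R M) X 0 j‖ ≤
        X / (Real.log X) ^ K := by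
  obtain ⟨C, hC, h⟩ := bqm_pr_e (K + 2 * c2 + c5 + 1)
  set k := K + 2 * c2 + c5 + 1 with hk
  set d := c1 + cM with hd
  set L0 : ℝ := 4 ^ (d + 1) * (d + 1).factorial with hL0
  refine ⟨max (2 ^ 20) (Real.exp (max (max 1 L0) (3 * C * 4 ^ k))), ?_⟩
  intro X hX P R M a hpar ha q b hq hqX hqb j hj
  have hX1 : (2 : ℝ) ^ 20 ≤ X := (le_max_left _ _).trans hX
  have hX2 : Real.exp (max (max 1 L0) (3 * C * 4 ^ k)) ≤ X := (le_max_right _ _).trans hX
  have hXpos : (0 : ℝ) < X := by linarith [show (0 : ℝ) < 2 ^ 20 by norm_num]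
  set l := Real.log X with hl
  have hl0 : max (max 1 L0) (3 * C * 4 ^ k) ≤ l := by
    rw [hl, Real.le_log_iff_exp_le hXpos]
    exact hX2
  have hl1 : 1 ≤ l := ((le_max_left _ _).trans (le_max_left _ _)).trans hl0
  have hlL : L0 ≤ l := ((le_max_right _ _).trans (le_max_left _ _)).trans hl0
  have hl2 : 3 * C * 4 ^ k ≤ l := (le_max_right _ _).trans hl0
  have hlpos : 0 < l := by linarith
  -- sizes
  have hP1 : 1 ≤ P := by
    rw [hpar.hP]
    apply Nat.le_floor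
    rw [Nat.cast_one]
    exact one_le_pow₀ hl1
  have hM1 : 1 ≤ M := hpar.hM1
  have hPM1 : 1 ≤ P * M := Nat.mul_pos hP1 hM1
  have hPM0 : (0 : ℝ) < ((P * M : ℕ) : ℝ) := by exact_mod_cast hPM1
  have hPle : ((P * M : ℕ) : ℝ) ≤ (X : ℝ) ^ (1 / 4 : ℝ) := by
    have e1 : ((P * M : ℕ) : ℝ) ≤ l ^ d := by
      have e0 : (P : ℝ) ≤ l ^ c1 := by
        rw [hpar.hP]
        exact Nat.floor_le (by positivity)
      rw [hd, pow_add, Nat.cast_mul]
      exact mul_le_mul e0 hpar.hM (Nat.cast_nonneg _) (by positivity)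
    have e2 : (l / 4) ^ (d + 1) / (d + 1).factorial ≤ Real.exp (l / 4) :=
      Real.pow_div_factorial_le_exp _ (by positivity) _
    have e3 : l ^ d ≤ (l / 4) ^ (d + 1) / (d + 1).factorial := by
      rw [le_div_iff₀ (by positivity), div_pow, le_div_iff₀ (by positivity)]
      calc l ^ d * (d + 1).factorial * 4 ^ (d + 1) = l ^ d * L0 := by rw [hL0]; ring
        _ ≤ l ^ d * l := mul_le_mul_of_nonneg_left hlL (by positivity)
        _ = l ^ (d + 1) := (pow_succ l d).symm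
    have e4 : Real.exp (l / 4) = (X : ℝ) ^ (1 / 4 : ℝ) := by
      rw [Real.rpow_def_of_pos hXpos]
      congr 1
      rw [hl]
      ring
    linarith
  have e5 : (1 : ℝ) ≤ (X : ℝ) ^ (1 / 4 : ℝ) := Real.one_le_rpow (by linarith [show (1 : ℝ) ≤ 2 ^ 20 by norm_num]) (by norm_num)
  have hR1 : (X : ℝ) ^ (1 / 4 : ℝ) ≤ R := by
    have e1 : (X : ℝ) = (X : ℝ) ^ (1 / 4 : ℝ) * ((X : ℝ) ^ (1 / 4 : ℝ) * (X : ℝ) ^ (1 / 2 : ℝ)) := by
      rw [← Real.rpow_add hXpos, ← Real.rpow_add hXpos]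
      norm_num
    have e2 : (32 : ℝ) ≤ (X : ℝ) ^ (1 / 2 : ℝ) := by
      have e3 : ((2 : ℝ) ^ 20) ^ (1 / 2 : ℝ) ≤ (X : ℝ) ^ (1 / 2 : ℝ) := Real.rpow_le_rpow (by positivity) hX1 (by norm_num)
      have e4 : ((2 : ℝ) ^ 20) ^ (1 / 2 : ℝ) = 1024 := by
        rw [← Real.rpow_natCast, ← Real.rpow_mul (by norm_num)]
        norm_num
      linarith
    have e6 : X < 16 * (P * M) * (R + 1) := by
      have := Nat.lt_mul_div_succ X (show 0 < 16 * (P * M) by omega)
      rw [hpar.hR]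
      exact this
    have e7 : (X : ℝ) < 16 * ((P * M : ℕ) : ℝ) * (R + 1) := by exact_mod_cast e6
    set y := (X : ℝ) ^ (1 / 4 : ℝ) with hy
    set z := (X : ℝ) ^ (1 / 2 : ℝ) with hz
    have hR0 : (0 : ℝ) ≤ R := Nat.cast_nonneg _
    have e8 : y * (y * z) < 16 * y * (R + 1) := by
      rw [← e1]
      refine e7.trans_le ?_
      have : 16 * ((P * M : ℕ) : ℝ) ≤ 16 * y := by linarith
      exact mul_le_mul_of_nonneg_right this (by positivity)
    have hy0 : 0 < y := by linarith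
    have e9 : y * z < 16 * (R + 1) := by
      have : y * (y * z) < y * (16 * (R + 1)) := by
        calc y * (y * z) < 16 * y * (R + 1) := e8
          _ = y * (16 * (R + 1)) := by ring
      exact lt_of_mul_lt_mul_left this hy0.le
    have e10 : y * 32 ≤ y * z := mul_le_mul_of_nonneg_left e2 hy0.le
    linarith
  have hR2 : (32 : ℝ) ≤ R := by
    have e3 : ((2 : ℝ) ^ 20) ^ (1 / 4 : ℝ) ≤ (X : ℝ) ^ (1 / 4 : ℝ) := Real.rpow_le_rpow (by positivity) hX1 (by norm_num)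
    have e4 : ((2 : ℝ) ^ 20) ^ (1 / 4 : ℝ) = 32 := by
      rw [← Real.rpow_natCast, ← Real.rpow_mul (by norm_num)]
      norm_num
    linarith
  have hR3 : 3 ≤ R := by
    have : (3 : ℝ) ≤ R := by linarith
    exact_mod_cast this
  have hR0 : (0 : ℝ) < R := by linarith
  have hlR : l / 4 ≤ Real.log R := by
    have e1 := Real.log_le_log (by positivity) hR1
    rw [Real.log_rpow hXpos] at e1
    linarith
  have hPMR : 16 * (P * M * R) ≤ X := by
    rw [hpar.hR]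
    have e1 := Nat.mul_div_le X (16 * (P * M))
    calc 16 * (P * M * (X / (16 * (P * M)))) = 16 * (P * M) * (X / (16 * (P * M))) := by ring
      _ ≤ X := e1
  have hqP : q ≤ P := by
    rw [hpar.hP]
    apply Nat.le_floor
    exact hqX.trans (pow_le_pow_right₀ hl1 hc.le)
  set lg : ℝ := Real.log (2 * R : ℕ) with hlg
  have hlg1 : 1 ≤ lg := by
    rw [hlg, Real.le_log_iff_exp_le (by positivity)]
    have h2 := Real.exp_one_lt_d9
    push_cast
    linarith
  -- the two sums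
  have f1 : bq (bm a P R M) X ((b : ℝ) / q) j = ∑ p ∈ pr P, ∑ m ∈ Ioc M (2 * M),
      (a m * cj j p * cj j m * ((1 / lg : ℝ) : ℂ)) * ∑ r ∈ pr R, ((lp r : ℝ) : ℂ) * (e (r * (((-(p * m * b : ℕ) : ℤ) : ℝ) / q)) * cj j r) := by
    unfold bq
    have e1 := bqm_wsum (a := a) (P := P) (R := R) (M := M) (X := X) (by omega) (fun n => e (-(n * ((b : ℝ) / q))) * cj j n)
    have e2 : ∑ n ∈ Icc 1 X, bm a P R M n * e (-(n * ((b : ℝ) / q))) * cj j n =
        ∑ n ∈ Icc 1 X, bm a P R M n * (e (-(n * ((b : ℝ) / q))) * cj j n) := by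
      refine sum_congr rfl fun n _ => ?_
      ring
    rw [e2, e1]
    refine sum_congr rfl fun p hp => sum_congr rfl fun m hm => ?_
    rw [mul_sum]
    refine sum_congr rfl fun r hr => ?_
    unfold pr at hp hr
    rw [mem_filter, mem_Ioc] at hp hr
    rw [mem_Ioc] at hm
    have hp0 : p ≠ 0 := hp.2.ne_zero
    have hr0 : r ≠ 0 := hr.2.ne_zero
    have hm0 : m ≠ 0 := by omega
    rw [cj_mul j (Nat.mul_ne_zero hp0 hm0) hr0, cj_mul j hp0 hm0]
    have e3 : e (-(((p * m * r : ℕ) : ℝ) * ((b : ℝ) / q))) = e (r * (((-(p * m * b : ℕ) : ℤ) : ℝ) / q)) := by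
      congr 1
      push_cast
      ring
    rw [e3, ← hlg, div_eq_mul_one_div (lp r) lg, Complex.ofReal_mul]
    ring
  have f2 : bq (bm a P R M) X 0 j = ∑ p ∈ pr P, ∑ m ∈ Ioc M (2 * M),
      (a m * cj j p * cj j m * ((1 / lg : ℝ) : ℂ)) * ∑ r ∈ pr R, ((lp r : ℝ) : ℂ) * cj j r := by
    unfold bq
    have e1 := bqm_wsum (a := a) (P := P) (R := R) (M := M) (X := X) (by omega) (fun n => cj j n)
    have e2 : ∑ n ∈ Icc 1 X, bm a P R M n * e (-(n * 0)) * cj j n = ∑ n ∈ Icc 1 X, bm a P R M n * cj j n := by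
      refine sum_congr rfl fun n _ => ?_
      have e0 : e (-((n : ℝ) * 0)) = 1 := by
        unfold e
        simp
      rw [e0, mul_one]
    rw [e2, e1]
    refine sum_congr rfl fun p hp => sum_congr rfl fun m hm => ?_
    rw [mul_sum]
    refine sum_congr rfl fun r hr => ?_
    unfold pr at hp hr
    rw [mem_filter, mem_Ioc] at hp hr
    rw [mem_Ioc] at hm
    have hp0 : p ≠ 0 := hp.2.ne_zero
    have hr0 : r ≠ 0 := hr.2.ne_zero
    have hm0 : m ≠ 0 := by omega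
    rw [cj_mul j (Nat.mul_ne_zero hp0 hm0) hr0, cj_mul j hp0 hm0, ← hlg, div_eq_mul_one_div (lp r) lg, Complex.ofReal_mul]
    ring
  set w : ℂ := ((ArithmeticFunction.moebius q : ℤ) : ℂ) / (q.totient : ℂ) with hw
  have f3 : bq (bm a P R M) X ((b : ℝ) / q) j - w * bq (bm a P R M) X 0 j = ∑ p ∈ pr P, ∑ m ∈ Ioc M (2 * M),
      (a m * cj j p * cj j m * ((1 / lg : ℝ) : ℂ)) * (∑ r ∈ pr R, ((lp r : ℝ) : ℂ) * (e (r * (((-(p * m * b : ℕ) : ℤ) : ℝ) / q)) * cj j r) -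
        w * ∑ r ∈ pr R, ((lp r : ℝ) : ℂ) * cj j r) := by
    rw [f1, f2, mul_sum, ← sum_sub_distrib]
    refine sum_congr rfl fun p _ => ?_
    rw [mul_sum, ← sum_sub_distrib]
    refine sum_congr rfl fun m _ => ?_
    ring
  have f4 : ∀ p ∈ pr P, ∀ m ∈ Ioc M (2 * M),
      ‖(a m * cj j p * cj j m * ((1 / lg : ℝ) : ℂ)) * (∑ r ∈ pr R, ((lp r : ℝ) : ℂ) * (e (r * (((-(p * m * b : ℕ) : ℤ) : ℝ) / q)) * cj j r) -
        w * ∑ r ∈ pr R, ((lp r : ℝ) : ℂ) * cj j r)‖ ≤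
        C * (q : ℝ) ^ 2 * R * (|(j : ℝ)| + 2) / (Real.log R) ^ k := by
    intro p hp m hm
    by_cases hm0 : a m = 0
    · rw [hm0, zero_mul, zero_mul, zero_mul, zero_mul, norm_zero]
      have : 0 < Real.log R := by linarith
      positivity
    · unfold pr at hp
      rw [mem_filter, mem_Ioc] at hp
      have e1 : Nat.Coprime p q := by
        rw [Nat.Prime.coprime_iff_not_dvd hp.2]
        intro h1
        have := Nat.le_of_dvd (by omega) h1
        omega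
      have e2 : Nat.Coprime m q := by
        by_contra h1
        obtain ⟨l', hl', hlm, hlq⟩ := Nat.Prime.not_coprime_iff_dvd.1 h1
        have h2 := (ha.rough m hm0 l' hl' hlm).1
        have := Nat.le_of_dvd (by omega) hlq
        omega
      have e3 : IsCoprime (-(p * m * b : ℕ) : ℤ) (q : ℤ) := by
        apply IsCoprime.neg_left
        rw [Nat.isCoprime_iff_coprime]
        exact (Nat.Coprime.mul_left e1 e2).mul_left hqb.symm
      have e4 := h q R (-(p * m * b : ℕ) : ℤ) j hq e3 hR3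
      rw [norm_mul]
      have e5 : ‖a m * cj j p * cj j m * ((1 / lg : ℝ) : ℂ)‖ ≤ 1 := by
        rw [norm_mul, norm_mul, norm_mul, norm_cj, norm_cj, mul_one, mul_one, Complex.norm_real, Real.norm_eq_abs,
          abs_of_nonneg (by positivity)]
        have e6 : 1 / lg ≤ 1 := by
          rw [div_le_one (by linarith)]
          exact hlg1
        calc ‖a m‖ * (1 / lg) ≤ 1 * 1 := mul_le_mul (ha.le m) e6 (by positivity) zero_le_one
          _ = 1 := one_mul 1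
      calc ‖a m * cj j p * cj j m * ((1 / lg : ℝ) : ℂ)‖ * _ ≤ 1 * (C * (q : ℝ) ^ 2 * R * (|(j : ℝ)| + 2) / (Real.log R) ^ k) :=
            mul_le_mul e5 e4 (norm_nonneg _) zero_le_one
        _ = _ := one_mul _
  have f5 : ‖bq (bm a P R M) X ((b : ℝ) / q) j - w * bq (bm a P R M) X 0 j‖ ≤
      (P : ℝ) * (M * (C * (q : ℝ) ^ 2 * R * (|(j : ℝ)| + 2) / (Real.log R) ^ k)) := by
    rw [f3]
    have hlogR : 0 < Real.log R := by linarith
    have g0 : 0 ≤ C * (q : ℝ) ^ 2 * R * (|(j : ℝ)| + 2) / (Real.log R) ^ k := by positivity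
    refine (norm_sum_le _ _).trans ?_
    have g1 : ∀ p ∈ pr P, ‖∑ m ∈ Ioc M (2 * M),
      (a m * cj j p * cj j m * ((1 / lg : ℝ) : ℂ)) * (∑ r ∈ pr R, ((lp r : ℝ) : ℂ) * (e (r * (((-(p * m * b : ℕ) : ℤ) : ℝ) / q)) * cj j r) -
        w * ∑ r ∈ pr R, ((lp r : ℝ) : ℂ) * cj j r)‖ ≤
        M * (C * (q : ℝ) ^ 2 * R * (|(j : ℝ)| + 2) / (Real.log R) ^ k) := by
      intro p hp
      refine (norm_sum_le _ _).trans ((sum_le_sum (f4 p hp)).trans ?_)
      rw [sum_const, Nat.card_Ioc, nsmul_eq_mul]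
      have : 2 * M - M = M := by omega
      rw [this]
    refine (sum_le_sum g1).trans ?_
    rw [sum_const, nsmul_eq_mul]
    refine mul_le_mul_of_nonneg_right ?_ (by positivity)
    have g2 : (pr P).card ≤ P := by
      unfold pr
      refine (card_filter_le _ _).trans ?_
      rw [Nat.card_Ioc]
      omega
    exact_mod_cast g2
  refine f5.trans ?_
  have g1 : (l / 4) ^ k ≤ (Real.log R) ^ k := pow_le_pow_left₀ (by linarith) hlR k
  have g2 : (P : ℝ) * (M * R) ≤ X := by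
    have : P * (M * R) ≤ X := by
      have e1 : P * M * R = P * (M * R) := by ring
      omega
    exact_mod_cast this
  have g3 : (q : ℝ) ^ 2 ≤ l ^ (2 * c2) := by
    rw [mul_comm, pow_mul]
    exact pow_le_pow_left₀ (by positivity) hqX 2
  have g4 : |(j : ℝ)| + 2 ≤ 3 * l ^ c5 := by
    have := one_le_pow₀ hl1 (n := c5)
    linarith
  calc (P : ℝ) * (M * (C * (q : ℝ) ^ 2 * R * (|(j : ℝ)| + 2) / (Real.log R) ^ k))
      = (P : ℝ) * (M * R) * (C * (q : ℝ) ^ 2 * (|(j : ℝ)| + 2)) / (Real.log R) ^ k := by ring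
    _ ≤ X * (C * l ^ (2 * c2) * (3 * l ^ c5)) / (l / 4) ^ k := by
        apply div_le_div₀ (by positivity) _ (by positivity) g1
        gcongr
    _ = X * ((3 * C * 4 ^ k) * l ^ (2 * c2 + c5)) / l ^ k := by
        have e1 : l ^ (2 * c2 + c5) = l ^ (2 * c2) * l ^ c5 := pow_add _ _ _
        rw [div_pow, e1]
        field_simp
    _ ≤ X * (l * l ^ (2 * c2 + c5)) / l ^ k := by gcongr
    _ = X / l ^ K := by
        have e1 : l ^ k = l ^ K * (l * l ^ (2 * c2 + c5)) := by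
          rw [hk]
          ring
        rw [e1]
        have e2 : l * l ^ (2 * c2 + c5) ≠ 0 := by positivity
        have e3 : l ^ K ≠ 0 := by positivity
        field_simp

end Pool.Agent.Lib.G3
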