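import Pool.Agent.Lib.G3.G5Defs

/-!
# G5, row C2, file C25.lean: `∏_{p > 2} (1 - 1/(p-1)^2) ≥ ∏_{m ≥ 2} (1 - 1/m^2) = 1/2`
-/

set_option autoImplicit false

open Finset

namespace Pool.Agent.Lib.G3

open Pool.Agent.Lib.MRT (cj kap)
open Pool.Agent.Lib.GT (e)

/-- the telescoping lower bound of the partial products -/
private theorem c25_range (n : ℕ) (hn : 3 ≤ n) : ((n : ℝ) - 1) / (2 * ((n : ℝ) - 2)) ≤ ∏ p ∈ range n, tc p := by
  induction n, hn using Nat.le_induction with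
  | base =>
    have h0 : ∀ p ∈ range 3, tc p = 1 := by
      intro p hp
      rw [mem_range] at hp
      unfold tc
      rw [if_neg]
      rintro ⟨_, h⟩
      omega
    rw [prod_congr rfl h0]
    norm_num
  | succ n hn ih =>
    have h3 : (3 : ℝ) ≤ n := by exact_mod_cast hn
    rw [prod_range_succ]
    have h1 : 1 - 1 / ((n : ℝ) - 1) ^ 2 ≤ tc n := by
      unfold tc
      split_ifs with h
      · exact le_rfl
      · have : (0 : ℝ) ≤ 1 / ((n : ℝ) - 1) ^ 2 := by positivity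
        linarith
    have h2 : 0 ≤ 1 - 1 / ((n : ℝ) - 1) ^ 2 := by
      have h4 : (4 : ℝ) ≤ ((n : ℝ) - 1) ^ 2 := by nlinarith
      have h5 : 1 / ((n : ℝ) - 1) ^ 2 ≤ 1 / 4 := one_div_le_one_div_of_le (by norm_num) h4
      linarith
    have h4 : 0 ≤ ((n : ℝ) - 1) / (2 * ((n : ℝ) - 2)) := div_nonneg (by linarith) (by linarith)
    have h5 : (((n + 1 : ℕ) : ℝ) - 1) / (2 * (((n + 1 : ℕ) : ℝ) - 2)) =
        ((n : ℝ) - 1) / (2 * ((n : ℝ) - 2)) * (1 - 1 / ((n : ℝ) - 1) ^ 2) := by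
      push_cast
      have h6 : (n : ℝ) - 1 ≠ 0 := by linarith
      have h7 : (n : ℝ) - 2 ≠ 0 := by linarith
      have h8 : (n : ℝ) + 1 - 2 ≠ 0 := by linarith
      field_simp
      ring
    rw [h5]
    exact mul_le_mul ih h1 h2 (h4.trans ih)

private theorem c25_finite (s : Finset ℕ) : (1 / 2 : ℝ) ≤ ∏ p ∈ s, tc p := by
  classical
  set n := s.sup id + 3 with hn
  have hs : s ⊆ range n := by
    intro p hp
    have h5 : p ≤ s.sup id := Finset.le_sup (f := id) hp
    rw [mem_range]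
    omega
  have h1 := c25_range n (by omega)
  have h2 : ∏ p ∈ range n, tc p ≤ ∏ p ∈ s, tc p := by
    rw [← Finset.prod_sdiff hs]
    refine mul_le_of_le_one_left (prod_nonneg fun p _ => (ss_tc_pos p).le) ?_
    exact Finset.prod_le_one (fun p _ => (ss_tc_pos p).le) fun p _ => ss_tc_le p
  have h3 : (3 : ℝ) ≤ n := by
    have : 3 ≤ n := by omega
    exact_mod_cast this
  have h4 : (1 / 2 : ℝ) ≤ ((n : ℝ) - 1) / (2 * ((n : ℝ) - 2)) := by
    rw [div_le_div_iff₀ (by norm_num) (by linarith)]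
    linarith
  linarith

private theorem c25_C2 : (1 / 2 : ℝ) ≤ C2 :=
  ge_of_tendsto ss_mult.hasProd (Filter.Eventually.of_forall fun s => c25_finite s)

theorem SS_one_le {N : ℕ} (hN : Even N) : 1 ≤ SS N := by
  unfold SS
  rw [if_pos hN]
  have h1 := c25_C2
  have h2 : (1 : ℝ) ≤ ∏ p ∈ N.primeFactors.filter (fun p => 2 < p), ((p : ℝ) - 1) / ((p : ℝ) - 2) := by
    calc (1 : ℝ) = ∏ p ∈ N.primeFactors.filter (fun p => 2 < p), (1 : ℝ) := by simp
      _ ≤ _ := Finset.prod_le_prod (fun _ _ => zero_le_one) fun p hp => by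
          rw [mem_filter] at hp
          have h3 : (3 : ℝ) ≤ p := by exact_mod_cast hp.2
          rw [le_div_iff₀ (by linarith)]
          linarith
  nlinarith

end Pool.Agent.Lib.G3
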