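import Pool.Agent.Lib.MRT.Defs

/-!
# G3 / Dual: large values of Dirichlet polynomials at integers, by duality
-/

set_option autoImplicit false

open Finset

namespace Pool.Agent.Lib.G3

open Pool.Agent.Lib.MRT (cj norm_cj cj_sub)

/-- Duality: the large sieve for an arbitrary finite set of integers `j`. -/
theorem hmj (I : Finset ℕ) (a : ℕ → ℂ) (S : Finset ℤ) {B : ℝ} (hB0 : 0 ≤ B)
    (hB : ∀ j ∈ S, ∑ j' ∈ S, ‖∑ m ∈ I, cj (j - j') m‖ ≤ B) :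
    ∑ j ∈ S, ‖∑ m ∈ I, a m * cj j m‖ ^ 2 ≤ (∑ m ∈ I, ‖a m‖ ^ 2) * B := by
  classical
  set F : ℤ → ℂ := fun j => ∑ m ∈ I, a m * cj j m with hF
  set W : ℝ := ∑ j ∈ S, ‖F j‖ ^ 2 with hW
  have hW0 : 0 ≤ W := sum_nonneg fun _ _ => by positivity
  have hN0 : 0 ≤ ∑ m ∈ I, ‖a m‖ ^ 2 := sum_nonneg fun _ _ => by positivity
  let c : ℤ → ℂ := fun j => (starRingEnd ℂ) (F j)
  have hc : ∀ j, ‖c j‖ = ‖F j‖ := fun j => RCLike.norm_conj _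
  have h1 : (W : ℂ) = ∑ m ∈ I, a m * ∑ j ∈ S, c j * cj j m := by
    have h2 : (W : ℂ) = ∑ j ∈ S, c j * F j := by
      rw [hW, Complex.ofReal_sum]
      refine sum_congr rfl fun j _ => ?_
      simp only [c]
      rw [← Complex.normSq_eq_conj_mul_self, Complex.normSq_eq_norm_sq]
    rw [h2]
    simp only [hF]
    simp_rw [mul_sum]
    rw [sum_comm]
    refine sum_congr rfl fun m _ => sum_congr rfl fun j _ => ?_
    ring
  have h3 : W ^ 2 ≤ (∑ m ∈ I, ‖a m‖ ^ 2) * ∑ m ∈ I, ‖∑ j ∈ S, c j * cj j m‖ ^ 2 := by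
    have h4 : W ≤ ∑ m ∈ I, ‖a m‖ * ‖∑ j ∈ S, c j * cj j m‖ := by
      have h5 : W = ‖(W : ℂ)‖ := by rw [Complex.norm_real, Real.norm_eq_abs, abs_of_nonneg hW0]
      rw [h5, h1]
      refine (norm_sum_le _ _).trans (sum_le_sum fun m _ => ?_)
      rw [norm_mul]
    exact (pow_le_pow_left₀ hW0 h4 2).trans (sum_mul_sq_le_sq_mul_sq _ _ _)
  -- the dual form
  have h7 : ∑ m ∈ I, ‖∑ j ∈ S, c j * cj j m‖ ^ 2 ≤ B * W := by
    have h8 : ((∑ m ∈ I, ‖∑ j ∈ S, c j * cj j m‖ ^ 2 : ℝ) : ℂ) =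
        ∑ j ∈ S, ∑ j' ∈ S, c j * (starRingEnd ℂ) (c j') * ∑ m ∈ I, cj (j - j') m := by
      rw [Complex.ofReal_sum]
      have h9 : ∀ m ∈ I, ((‖∑ j ∈ S, c j * cj j m‖ ^ 2 : ℝ) : ℂ) =
          ∑ j ∈ S, ∑ j' ∈ S, c j * (starRingEnd ℂ) (c j') * cj (j - j') m := by
        intro m _
        rw [← Complex.normSq_eq_norm_sq, ← Complex.mul_conj, map_sum, sum_mul_sum]
        refine sum_congr rfl fun j _ => sum_congr rfl fun j' _ => ?_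
        rw [map_mul, ← cj_sub]
        ring
      rw [sum_congr rfl h9, sum_comm]
      refine sum_congr rfl fun j _ => ?_
      rw [sum_comm]
      refine sum_congr rfl fun j' _ => ?_
      rw [mul_sum]
    have h10 : ∑ m ∈ I, ‖∑ j ∈ S, c j * cj j m‖ ^ 2 ≤
        ∑ j ∈ S, ∑ j' ∈ S, ‖c j‖ * ‖c j'‖ * ‖∑ m ∈ I, cj (j - j') m‖ := by
      have h11 : ∑ m ∈ I, ‖∑ j ∈ S, c j * cj j m‖ ^ 2 =
          ‖((∑ m ∈ I, ‖∑ j ∈ S, c j * cj j m‖ ^ 2 : ℝ) : ℂ)‖ := by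
        rw [Complex.norm_real, Real.norm_eq_abs, abs_of_nonneg (sum_nonneg fun _ _ => by positivity)]
      rw [h11, h8]
      refine (norm_sum_le _ _).trans (sum_le_sum fun j _ => (norm_sum_le _ _).trans (sum_le_sum fun j' _ => ?_))
      have h12 : ‖(starRingEnd ℂ) (c j')‖ = ‖c j'‖ := RCLike.norm_conj _
      rw [norm_mul, norm_mul, h12]
    have hsym : ∀ j j' : ℤ, ‖∑ m ∈ I, cj (j - j') m‖ = ‖∑ m ∈ I, cj (j' - j) m‖ := by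
      intro j j'
      rw [← RCLike.norm_conj (∑ m ∈ I, cj (j - j') m), map_sum]
      congr 1
      refine sum_congr rfl fun m _ => ?_
      rw [← cj_sub, ← cj_sub, map_mul, Complex.conj_conj, mul_comm]
    have h12 : ∑ j ∈ S, ∑ j' ∈ S, ‖c j‖ * ‖c j'‖ * ‖∑ m ∈ I, cj (j - j') m‖ ≤
        ∑ j ∈ S, ∑ j' ∈ S, (‖c j‖ ^ 2 + ‖c j'‖ ^ 2) / 2 * ‖∑ m ∈ I, cj (j - j') m‖ := by
      refine sum_le_sum fun j _ => sum_le_sum fun j' _ => ?_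
      refine mul_le_mul_of_nonneg_right ?_ (norm_nonneg _)
      nlinarith [sq_nonneg (‖c j‖ - ‖c j'‖)]
    have h13 : ∑ j ∈ S, ∑ j' ∈ S, (‖c j‖ ^ 2 + ‖c j'‖ ^ 2) / 2 * ‖∑ m ∈ I, cj (j - j') m‖ =
        ∑ j ∈ S, ‖c j‖ ^ 2 * ∑ j' ∈ S, ‖∑ m ∈ I, cj (j - j') m‖ := by
      have e1 : ∑ j ∈ S, ∑ j' ∈ S, (‖c j‖ ^ 2 + ‖c j'‖ ^ 2) / 2 * ‖∑ m ∈ I, cj (j - j') m‖ =
          ∑ j ∈ S, ∑ j' ∈ S, ‖c j‖ ^ 2 / 2 * ‖∑ m ∈ I, cj (j - j') m‖ +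
          ∑ j ∈ S, ∑ j' ∈ S, ‖c j'‖ ^ 2 / 2 * ‖∑ m ∈ I, cj (j - j') m‖ := by
        rw [← sum_add_distrib]
        refine sum_congr rfl fun j _ => ?_
        rw [← sum_add_distrib]
        refine sum_congr rfl fun j' _ => ?_
        ring
      have e2 : ∑ j ∈ S, ∑ j' ∈ S, ‖c j'‖ ^ 2 / 2 * ‖∑ m ∈ I, cj (j - j') m‖ =
          ∑ j ∈ S, ∑ j' ∈ S, ‖c j‖ ^ 2 / 2 * ‖∑ m ∈ I, cj (j - j') m‖ := by
        rw [sum_comm]
        refine sum_congr rfl fun j _ => sum_congr rfl fun j' _ => ?_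
        rw [hsym]
      rw [e1, e2, ← sum_add_distrib]
      refine sum_congr rfl fun j _ => ?_
      rw [mul_sum, ← sum_add_distrib]
      refine sum_congr rfl fun j' _ => ?_
      ring
    have h14 : ∑ j ∈ S, ‖c j‖ ^ 2 * ∑ j' ∈ S, ‖∑ m ∈ I, cj (j - j') m‖ ≤ ∑ j ∈ S, ‖c j‖ ^ 2 * B :=
      sum_le_sum fun j hj => mul_le_mul_of_nonneg_left (hB j hj) (by positivity)
    have h15 : ∑ j ∈ S, ‖c j‖ ^ 2 * B = B * W := by
      rw [← sum_mul, hW, mul_comm]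
      congr 1
      exact sum_congr rfl fun j _ => by rw [hc]
    calc _ ≤ _ := h10
      _ ≤ _ := h12
      _ = _ := h13
      _ ≤ _ := h14
      _ = _ := h15
  have h11 : W ^ 2 ≤ (∑ m ∈ I, ‖a m‖ ^ 2) * (B * W) := h3.trans (mul_le_mul_of_nonneg_left h7 hN0)
  rcases hW0.eq_or_lt with h | h
  · rw [← h]
    exact mul_nonneg hN0 hB0
  · have h12 : W * W ≤ ((∑ m ∈ I, ‖a m‖ ^ 2) * B) * W := by nlinarith
    exact le_of_mul_le_mul_right h12 h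

/-- The same with one bound for all differences. -/
theorem hmj' (I : Finset ℕ) (a : ℕ → ℂ) (S : Finset ℤ) {D : ℝ} (hD0 : 0 ≤ D)
    (hD : ∀ j ∈ S, ∀ j' ∈ S, j ≠ j' → ‖∑ m ∈ I, cj (j - j') m‖ ≤ D) :
    ∑ j ∈ S, ‖∑ m ∈ I, a m * cj j m‖ ^ 2 ≤ (∑ m ∈ I, ‖a m‖ ^ 2) * (I.card + S.card * D) := by
  classical
  refine hmj I a S (by positivity) fun j hj => ?_
  rw [← add_sum_erase S _ hj]
  have h1 : ‖∑ m ∈ I, cj (j - j) m‖ ≤ I.card := by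
    refine (norm_sum_le _ _).trans ?_
    simp [norm_cj]
  have h2 : ∑ j' ∈ S.erase j, ‖∑ m ∈ I, cj (j - j') m‖ ≤ S.card * D := by
    calc ∑ j' ∈ S.erase j, ‖∑ m ∈ I, cj (j - j') m‖ ≤ ∑ j' ∈ S.erase j, D :=
          sum_le_sum fun j' hj' => hD j hj j' (mem_of_mem_erase hj') (ne_of_mem_erase hj').symm
      _ = (S.erase j).card * D := by rw [sum_const, nsmul_eq_mul]
      _ ≤ S.card * D := by
          refine mul_le_mul_of_nonneg_right ?_ hD0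
          exact_mod_cast card_le_card (erase_subset _ _)
  linarith

end Pool.Agent.Lib.G3
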