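import Pool.Agent.Lib.G3.Defs
import Pool.Agent.Lib.DN.ProgL
import Pool.Agent.Lib.DN.ProgS

/-!
# G3, row KR: the kernel over `(R, 2R]`, `R ≥ X^(1/4)`
-/

set_option autoImplicit false

open Finset

namespace Pool.Agent.Lib.G3

open Pool.Agent.Lib.MRT (cj kap)

private theorem kr_cj (j : ℤ) (n : ℕ) : cj j n = Pool.Agent.Lib.DN.nt (-(j : ℝ)) n := by
  unfold cj Pool.Agent.Lib.DN.nt
  congr 1
  push_cast
  ring

private theorem kr_GG (t x : ℝ) (hx : 0 ≤ x) (ht : t ≠ 0) : ‖Pool.Agent.Lib.DN.GG t x‖ ≤ x / |t| := by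
  unfold Pool.Agent.Lib.DN.GG
  rw [norm_div, norm_mul, Complex.norm_real, Real.norm_eq_abs, abs_of_nonneg hx]
  have h1 : ‖Complex.exp (Complex.I * (t * Real.log x))‖ = 1 := by
    rw [mul_comm, ← Complex.ofReal_mul, Complex.norm_exp_ofReal_mul_I]
  have h2 : |t| ≤ ‖1 + Complex.I * (t : ℂ)‖ := by
    have := Complex.abs_im_le_norm (1 + Complex.I * (t : ℂ))
    simpa using this
  have h3 : 0 < |t| := abs_pos.mpr ht
  rw [h1, mul_one]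
  gcongr

theorem kernR (A : ℕ) : ∃ (C x0 : ℝ), 0 < C ∧ ∀ X : ℕ, x0 ≤ X → ∀ (R : ℕ) (j : ℤ), (X : ℝ) ^ (1 / 4 : ℝ) ≤ R → R ≤ X →
    j ≠ 0 → |(j : ℝ)| ≤ 2 * X →
      ‖∑ m ∈ Ioc R (2 * R), cj j m‖ ≤ C * R / |(j : ℝ)| + R / (Real.log X) ^ A := by
  obtain ⟨x1, hx13, hx1⟩ := Pool.Agent.Lib.DN.prog_large A (1 / 4) (by norm_num)
  obtain ⟨x2, hx23, hx2⟩ := Pool.Agent.Lib.VDC.growV (1 / 4) (by norm_num) 8 (2 * A + 4)
  refine ⟨3, max x1 x2, by norm_num, fun X hX R j hR hRX hj hjX => ?_⟩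
  have hX1 : x1 ≤ X := (le_max_left _ _).trans hX
  have hX2 : x2 ≤ X := (le_max_right _ _).trans hX
  obtain ⟨g1, g2⟩ := hx2 X hX2
  have hX0 : (0 : ℝ) < X := by linarith
  have hL0 : 0 < Real.log X := by linarith
  have hj0 : (0 : ℝ) < |(j : ℝ)| := abs_pos.mpr (by exact_mod_cast hj)
  have hR0 : (0 : ℝ) ≤ R := Nat.cast_nonneg R
  have hfil : ∑ m ∈ Ioc R (2 * R), cj j m =
      ∑ n ∈ (Ioc R (2 * R)).filter (fun n => n % 1 = 0), Pool.Agent.Lib.DN.nt (-(j : ℝ)) n := by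
    rw [Finset.filter_true_of_mem (fun n _ => Nat.mod_one n)]
    exact Finset.sum_congr rfl fun n _ => kr_cj j n
  rw [hfil]
  rcases le_or_gt ((Real.log X) ^ (A + 3)) |(j : ℝ)| with h | h
  · have h1 := hx1 X hX1 (-(j : ℝ)) (by rwa [abs_neg]) (by rwa [abs_neg]) R (2 * R) 1 0 le_rfl (by norm_num)
      (by simpa using hR) le_rfl
    simp only [Nat.cast_one, one_mul] at h1
    have h2 : 0 ≤ 3 * (R : ℝ) / |(j : ℝ)| := by positivity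
    linarith
  · have hLA : (Real.log X) ^ (2 * A + 4) ≤ R := g2.trans hR
    have hone : (1 : ℝ) ≤ (Real.log X) ^ (2 * A + 3) := one_le_pow₀ (by linarith)
    have hR8 : (8 : ℝ) ≤ R := by
      have h3 : (Real.log X) ^ (2 * A + 4) = Real.log X * (Real.log X) ^ (2 * A + 3) := by ring
      nlinarith
    have hR2 : 2 * 1 ≤ R := by
      have : (2 : ℝ) ≤ R := by linarith
      exact_mod_cast this
    have h1 := Pool.Agent.Lib.DN.prog_small (-(j : ℝ)) R (2 * R) 1 0 le_rfl (by norm_num) hR2 (by omega) (by omega)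
    set S := ∑ n ∈ (Ioc R (2 * R)).filter (fun n => n % 1 = 0), Pool.Agent.Lib.DN.nt (-(j : ℝ)) n with hS
    have hjr : (-(j : ℝ)) ≠ 0 := by
      rw [neg_ne_zero]
      exact_mod_cast hj
    have h2 := kr_GG (-(j : ℝ)) ((2 * R : ℕ) : ℝ) (Nat.cast_nonneg _) hjr
    have h3 := kr_GG (-(j : ℝ)) (R : ℝ) hR0 hjr
    rw [abs_neg] at h1 h2 h3
    have h4 : ‖S‖ ≤ ‖S - (Pool.Agent.Lib.DN.GG (-(j : ℝ)) ((2 * R : ℕ) : ℝ) - Pool.Agent.Lib.DN.GG (-(j : ℝ)) (R : ℝ)) / ((1 : ℕ) : ℂ)‖ +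
        (‖Pool.Agent.Lib.DN.GG (-(j : ℝ)) ((2 * R : ℕ) : ℝ)‖ + ‖Pool.Agent.Lib.DN.GG (-(j : ℝ)) (R : ℝ)‖) := by
      have e : S = (S - (Pool.Agent.Lib.DN.GG (-(j : ℝ)) ((2 * R : ℕ) : ℝ) - Pool.Agent.Lib.DN.GG (-(j : ℝ)) (R : ℝ)) / ((1 : ℕ) : ℂ)) +
        (Pool.Agent.Lib.DN.GG (-(j : ℝ)) ((2 * R : ℕ) : ℝ) - Pool.Agent.Lib.DN.GG (-(j : ℝ)) (R : ℝ)) := by
        simp
      calc ‖S‖ = ‖(S - (Pool.Agent.Lib.DN.GG (-(j : ℝ)) ((2 * R : ℕ) : ℝ) - Pool.Agent.Lib.DN.GG (-(j : ℝ)) (R : ℝ)) / ((1 : ℕ) : ℂ)) +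
        (Pool.Agent.Lib.DN.GG (-(j : ℝ)) ((2 * R : ℕ) : ℝ) - Pool.Agent.Lib.DN.GG (-(j : ℝ)) (R : ℝ))‖ := by rw [← e]
        _ ≤ _ := (norm_add_le _ _).trans (by gcongr; exact norm_sub_le _ _)
    have h5 : 4 * (1 + |(j : ℝ)|) ≤ R / (Real.log X) ^ A := by
      rw [le_div_iff₀ (by positivity)]
      have h6 : (1 : ℝ) ≤ (Real.log X) ^ (A + 3) := one_le_pow₀ (by linarith)
      have h7 : 4 * (1 + |(j : ℝ)|) ≤ 8 * (Real.log X) ^ (A + 3) := by linarith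
      calc 4 * (1 + |(j : ℝ)|) * (Real.log X) ^ A ≤ 8 * (Real.log X) ^ (A + 3) * (Real.log X) ^ A := by gcongr
        _ = 8 * (Real.log X) ^ (2 * A + 3) := by ring
        _ ≤ Real.log X * (Real.log X) ^ (2 * A + 3) := by gcongr
        _ = (Real.log X) ^ (2 * A + 4) := by ring
        _ ≤ R := hLA
    have h6 : ((2 * R : ℕ) : ℝ) / |(j : ℝ)| + R / |(j : ℝ)| = 3 * R / |(j : ℝ)| := by
      push_cast
      ring
    linarith

end Pool.Agent.Lib.G3
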