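import Pool.Agent.Lib.G3.Defs2
import Pool.Agent.Lib.G3.Dual
import Pool.Agent.Lib.G3.KernR

/-!
# G3 / CntJ: few integers `j` with `∑_{r ∼ R} χ(r) r^{-ij}` large
-/

set_option autoImplicit false

open Finset

namespace Pool.Agent.Lib.G3

open Pool.Agent.Lib.MRT (cj kap)

/-- the harmonic sum over the differences -/
theorem cntj_harm (S : Finset ℤ) (T : ℕ) (hT : 1 ≤ T) (hS : ∀ j ∈ S, |(j : ℝ)| ≤ T) (j : ℤ) (hj : j ∈ S) :
    ∑ j' ∈ S.erase j, 1 / |((j - j' : ℤ) : ℝ)| ≤ 2 * (1 + Real.log (2 * T)) := by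
  classical
  have hZ : ∀ i ∈ S, -(T : ℤ) ≤ i ∧ i ≤ T := by
    intro i hi
    have := abs_le.1 (hS i hi)
    constructor
    · exact_mod_cast this.1
    · exact_mod_cast this.2
  have hjZ := hZ j hj
  have hh : ∑ n ∈ Icc 1 (2 * T), (1 : ℝ) / n ≤ 1 + Real.log (2 * T) := by
    have h := harmonic_le_one_add_log (2 * T)
    rw [harmonic_eq_sum_Icc] at h
    push_cast at h
    refine le_trans (le_of_eq ?_) h
    refine sum_congr rfl fun a _ => ?_
    rw [one_div]
  have h1 : S.erase j = (S.erase j).filter (fun x => x < j) ∪ (S.erase j).filter (fun x => ¬ x < j) :=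
    (filter_union_filter_not_eq _ _).symm
  rw [h1, sum_union (disjoint_filter_filter_not _ _ _)]
  have h2 : ∑ j' ∈ (S.erase j).filter (fun x => x < j), 1 / |((j - j' : ℤ) : ℝ)| ≤ ∑ n ∈ Icc 1 (2 * T), (1 : ℝ) / n := by
    have e : ∑ j' ∈ (S.erase j).filter (fun x => x < j), 1 / |((j - j' : ℤ) : ℝ)| =
        ∑ n ∈ ((S.erase j).filter (fun x => x < j)).image (fun x => (j - x).toNat), (1 : ℝ) / n := by
      rw [sum_image]
      · refine sum_congr rfl fun x hx => ?_
        rw [mem_filter] at hx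
        have h3 : (((j - x).toNat : ℤ)) = j - x := Int.toNat_of_nonneg (by omega)
        have h4 : (((j - x).toNat : ℕ) : ℝ) = ((j - x : ℤ) : ℝ) := by
          rw [← Int.cast_natCast, h3]
        rw [h4, abs_of_nonneg]
        have : (0 : ℤ) ≤ j - x := by omega
        exact_mod_cast this
      · intro x hx y hy hxy
        have hx' := (mem_filter.mp hx).2
        have hy' := (mem_filter.mp hy).2
        simp only at hxy
        omega
    rw [e]
    apply sum_le_sum_of_subset_of_nonneg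
    · intro n hn
      simp only [mem_image, mem_filter, mem_erase] at hn
      obtain ⟨x, ⟨⟨hx1, hx2⟩, hx3⟩, rfl⟩ := hn
      have := hZ x hx2
      rw [mem_Icc]
      omega
    · intro n _ _
      positivity
  have h2' : ∑ j' ∈ (S.erase j).filter (fun x => ¬ x < j), 1 / |((j - j' : ℤ) : ℝ)| ≤ ∑ n ∈ Icc 1 (2 * T), (1 : ℝ) / n := by
    have e : ∑ j' ∈ (S.erase j).filter (fun x => ¬ x < j), 1 / |((j - j' : ℤ) : ℝ)| =
        ∑ n ∈ ((S.erase j).filter (fun x => ¬ x < j)).image (fun x => (x - j).toNat), (1 : ℝ) / n := by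
      rw [sum_image]
      · refine sum_congr rfl fun x hx => ?_
        rw [mem_filter] at hx
        have h3 : (((x - j).toNat : ℤ)) = x - j := Int.toNat_of_nonneg (by omega)
        have h4 : (((x - j).toNat : ℕ) : ℝ) = ((x - j : ℤ) : ℝ) := by
          rw [← Int.cast_natCast, h3]
        rw [h4]
        have : (0 : ℤ) ≤ x - j := by omega
        have h5 : (0 : ℝ) ≤ ((x - j : ℤ) : ℝ) := by exact_mod_cast this
        rw [show ((j - x : ℤ) : ℝ) = -((x - j : ℤ) : ℝ) by push_cast; ring, abs_neg, abs_of_nonneg h5]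
      · intro x hx y hy hxy
        have hx' := (mem_filter.mp hx).2
        have hy' := (mem_filter.mp hy).2
        simp only at hxy
        omega
    rw [e]
    apply sum_le_sum_of_subset_of_nonneg
    · intro n hn
      simp only [mem_image, mem_filter, mem_erase] at hn
      obtain ⟨x, ⟨⟨hx1, hx2⟩, hx3⟩, rfl⟩ := hn
      have := hZ x hx2
      rw [mem_Icc]
      omega
    · intro n _ _
      positivity
  linarith

theorem cntJ (B : ℕ) : ∃ x0 : ℝ, ∀ X : ℕ, x0 ≤ X → ∀ (q R T : ℕ) (χ : DirichletCharacter ℂ q), (X : ℝ) ^ (1 / 4 : ℝ) ≤ R →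
    R ≤ X → T ≤ X → ∀ U : Finset ℤ, (∀ j ∈ U, |(j : ℝ)| ≤ T ∧ R / (Real.log X) ^ B < ‖RR χ R j‖) →
      (U.card : ℝ) ≤ (Real.log X) ^ (2 * B + 3) := by
  classical
  obtain ⟨C, x1, hC, hker⟩ := kernR (2 * B + 1)
  refine ⟨max (max x1 3) (Real.exp (8 * C + 8)), ?_⟩
  intro X hX q R T χ hR1 hR2 hT U hU
  have hX1 : x1 ≤ X := ((le_max_left _ _).trans (le_max_left _ _)).trans hX
  have hX3 : (3 : ℝ) ≤ X := ((le_max_right _ _).trans (le_max_left _ _)).trans hX
  have hXe : Real.exp (8 * C + 8) ≤ X := (le_max_right _ _).trans hX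
  have hX0 : (0 : ℝ) < X := by linarith
  set l := Real.log X with hl
  have hl8 : 8 * C + 8 ≤ l := by
    rw [hl, Real.le_log_iff_exp_le hX0]
    exact hXe
  have hl0 : 0 < l := by linarith
  have hR0 : (0 : ℝ) < R := lt_of_lt_of_le (Real.rpow_pos_of_pos hX0 _) hR1
  have hXn : 1 ≤ X := by
    have : (1 : ℝ) ≤ X := by linarith
    exact_mod_cast this
  -- the dual sums
  have hlog2X : Real.log (2 * X) ≤ 1 + l := by
    rw [Real.log_mul (by norm_num) hX0.ne']
    have := Real.log_two_lt_d9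
    linarith
  set a : ℕ → ℂ := fun m => if m.Prime then χ (m : ZMod q) else 0 with ha
  have hRR : ∀ j, RR χ R j = ∑ m ∈ Ioc R (2 * R), a m * cj j m := by
    intro j
    unfold RR pr
    rw [sum_filter]
    refine sum_congr rfl fun m _ => ?_
    simp only [ha]
    split_ifs
    · rfl
    · rw [zero_mul]
  have ha1 : ∀ m, ‖a m‖ ≤ 1 := by
    intro m
    simp only [ha]
    split_ifs
    · exact DirichletCharacter.norm_le_one χ _
    · simp
  have hasum : ∑ m ∈ Ioc R (2 * R), ‖a m‖ ^ 2 ≤ R := by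
    refine (sum_le_sum (g := fun _ => (1 : ℝ)) fun m _ => ?_).trans (le_of_eq ?_)
    · exact pow_le_one₀ (norm_nonneg _) (ha1 m)
    · rw [sum_const, nsmul_eq_mul, mul_one, Nat.card_Ioc]
      congr 1
      omega
  set Bd : ℝ := R + (C * R * (2 * (2 + l)) + U.card * (R / l ^ (2 * B + 1))) with hBd
  have hBd0 : 0 ≤ Bd := by positivity
  have hdual : ∀ j ∈ U, ∑ j' ∈ U, ‖∑ m ∈ Ioc R (2 * R), cj (j - j') m‖ ≤ Bd := by
    intro j hj
    rw [← add_sum_erase U _ hj]
    have h1 : ‖∑ m ∈ Ioc R (2 * R), cj (j - j) m‖ ≤ R := by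
      refine (norm_sum_le _ _).trans ?_
      refine (sum_le_sum (g := fun _ => (1 : ℝ)) fun m _ => (MRT.norm_cj _ _).le).trans (le_of_eq ?_)
      rw [sum_const, nsmul_eq_mul, mul_one, Nat.card_Ioc]
      congr 1
      omega
    have h2 : ∀ j' ∈ U.erase j, ‖∑ m ∈ Ioc R (2 * R), cj (j - j') m‖ ≤
        C * R * (1 / |((j - j' : ℤ) : ℝ)|) + R / l ^ (2 * B + 1) := by
      intro j' hj'
      rw [mem_erase] at hj'
      have h3 := hker X hX1 R (j - j') hR1 hR2 (by
        intro h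
        exact hj'.1 (by omega)) (by
        have e1 := (hU j hj).1
        have e2 := (hU j' hj'.2).1
        have e3 : (T : ℝ) ≤ X := by exact_mod_cast hT
        push_cast
        calc |(j : ℝ) - j'| ≤ |(j : ℝ)| + |(j' : ℝ)| := abs_sub _ _
          _ ≤ 2 * X := by linarith)
      refine h3.trans (le_of_eq ?_)
      ring
    have h4 := cntj_harm U X hXn (fun i hi => (hU i hi).1.trans (by exact_mod_cast hT)) j hj
    have h5 : ∑ j' ∈ U.erase j, ‖∑ m ∈ Ioc R (2 * R), cj (j - j') m‖ ≤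
        C * R * (2 * (2 + l)) + U.card * (R / l ^ (2 * B + 1)) := by
      refine (sum_le_sum h2).trans ?_
      rw [sum_add_distrib, ← mul_sum, sum_const, nsmul_eq_mul]
      apply add_le_add
      · apply mul_le_mul_of_nonneg_left _ (by positivity)
        linarith
      · apply mul_le_mul_of_nonneg_right _ (by positivity)
        exact_mod_cast card_le_card (erase_subset _ _)
    rw [hBd]
    linarith
  have hmain := hmj (Ioc R (2 * R)) a U hBd0 hdual
  have hlow : (U.card : ℝ) * (R / l ^ B) ^ 2 ≤ ∑ j ∈ U, ‖∑ m ∈ Ioc R (2 * R), a m * cj j m‖ ^ 2 := by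
    rw [← nsmul_eq_mul, ← sum_const]
    refine sum_le_sum fun j hj => ?_
    rw [← hRR]
    exact pow_le_pow_left₀ (by positivity) (hU j hj).2.le 2
  have hup : (U.card : ℝ) * (R / l ^ B) ^ 2 ≤ R * Bd :=
    hlow.trans (hmain.trans (mul_le_mul_of_nonneg_right hasum hBd0))
  -- divide by `R²`
  have h6 : (U.card : ℝ) ≤ l ^ (2 * B) * (1 + 2 * C * (2 + l)) + U.card / l := by
    have e1 : (R : ℝ) * Bd = R ^ 2 * (1 + 2 * C * (2 + l) + U.card / l ^ (2 * B + 1)) := by
      rw [hBd]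
      ring
    have e2 : (U.card : ℝ) * (R / l ^ B) ^ 2 = R ^ 2 * (U.card / l ^ (2 * B)) := by
      rw [div_pow, ← pow_mul, mul_comm B 2]
      ring
    rw [e1, e2] at hup
    have h7 := le_of_mul_le_mul_left hup (by positivity : (0 : ℝ) < R ^ 2)
    rw [div_le_iff₀ (by positivity)] at h7
    refine h7.trans (le_of_eq ?_)
    rw [pow_succ]
    field_simp
  have h8 : (U.card : ℝ) / l ≤ U.card / 2 := by
    apply div_le_div_of_nonneg_left (Nat.cast_nonneg _) (by norm_num)
    linarith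
  have h9 : (U.card : ℝ) ≤ 2 * (l ^ (2 * B) * (1 + 2 * C * (2 + l))) := by linarith
  refine h9.trans ?_
  have h10 : 2 * (1 + 2 * C * (2 + l)) ≤ l ^ 3 := by
    have h11 : 1 + 2 * C * (2 + l) ≤ l * l := by nlinarith
    have h12 : (2 : ℝ) ≤ l := by linarith
    calc 2 * (1 + 2 * C * (2 + l)) ≤ l * (l * l) := mul_le_mul h12 h11 (by positivity) hl0.le
      _ = l ^ 3 := by ring
  calc 2 * (l ^ (2 * B) * (1 + 2 * C * (2 + l))) = l ^ (2 * B) * (2 * (1 + 2 * C * (2 + l))) := by ring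
    _ ≤ l ^ (2 * B) * l ^ 3 := mul_le_mul_of_nonneg_left h10 (by positivity)
    _ = l ^ (2 * B + 3) := by rw [← pow_add]

end Pool.Agent.Lib.G3
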