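import Pool.Agent.Lib.G3.G4Defs
import Pool.Agent.Lib.G3.Ab

/-!
# G4, row CM: `M` with many products of `k - 2` primes of the size of powers of `log X`

`j = k - 2`, `Q_i = 4^i P` (`i = 1, ..., j`): the products `q_1 ... q_j`, `q_i` in `pr Q_i`, are distinct, squarefree, have all primes `> 2P` and lie in
`(M0, 2^j M0]`, `M0 = ∏ Q_i`; one of the `j` dyadic blocks `(2^s M0, 2^(s+1) M0]` contains at least `1/j` of them; `pr_card` for every `Q_i`.
-/

set_option autoImplicit false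

open Finset

namespace Pool.Agent.Lib.G3

/-- products of primes of `(4^i P, 2 4^i P]`, `1 ≤ i ≤ j` -/
private def cmT (P : ℕ) : ℕ → Finset ℕ
  | 0 => {1}
  | j + 1 => ((pr (4 ^ (j + 1) * P)) ×ˢ cmT P j).image fun x => x.1 * x.2

/-- product of the `4^i P` -/
private def cmM (P : ℕ) : ℕ → ℕ
  | 0 => 1
  | j + 1 => 4 ^ (j + 1) * P * cmM P j

private theorem cm_pos {P : ℕ} (hP : 1 ≤ P) (j : ℕ) : 1 ≤ cmM P j := by
  induction j with
  | zero => exact le_rfl
  | succ j ih =>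
    unfold cmM
    exact Nat.mul_pos (Nat.mul_pos (by positivity) hP) ih

private theorem cm_spec {P : ℕ} (hP : 1 ≤ P) : ∀ j : ℕ, ∀ m ∈ cmT P j, cmM P j ≤ m ∧ (1 ≤ j → cmM P j < m) ∧
    m ≤ 2 ^ j * cmM P j ∧ Squarefree m ∧ m.primeFactors.card = j ∧
    ∀ p : ℕ, p.Prime → p ∣ m → 2 * P < p ∧ p ≤ 2 * (4 ^ j * P) := by
  intro j
  induction j with
  | zero =>
    intro m hm
    unfold cmT at hm
    rw [mem_singleton] at hm
    subst hm
    refine ⟨le_rfl, fun h => absurd h (by omega), le_rfl, squarefree_one, by simp, fun p hp h => ?_⟩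
    exact absurd (Nat.dvd_one.1 h) hp.one_lt.ne'
  | succ j ih =>
    intro m hm
    unfold cmT at hm
    obtain ⟨⟨q, m'⟩, hx, hqm⟩ := mem_image.1 hm
    obtain ⟨hq, hm'⟩ := mem_product.1 hx
    simp only at hqm hq hm'
    obtain ⟨⟨h1, h2⟩, h3⟩ := bf_mem_pr.1 hq
    obtain ⟨i1, -, i3, i4, i5, i6⟩ := ih m' hm'
    have hM := cm_pos hP j
    have hm0 : 0 < m' := by omega
    have h4 : 4 ^ (j + 1) * P = 4 * (4 ^ j * P) := by ring
    have h5 : 1 ≤ 4 ^ j * P := Nat.mul_pos (by positivity) hP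
    have h6 : P ≤ 4 ^ j * P := Nat.le_mul_of_pos_left P (by positivity)
    have hqm' : ¬ q ∣ m' := by
      intro hd
      have := (i6 q h3 hd).2
      omega
    have hco : Nat.Coprime q m' := (Nat.Prime.coprime_iff_not_dvd h3).2 hqm'
    have hlt : cmM P (j + 1) < m := by
      rw [← hqm]
      unfold cmM
      calc 4 ^ (j + 1) * P * cmM P j < q * cmM P j := Nat.mul_lt_mul_of_pos_right h1 hM
        _ ≤ q * m' := Nat.mul_le_mul_left _ i1
    refine ⟨hlt.le, fun _ => hlt, ?_, ?_, ?_, ?_⟩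
    · rw [← hqm]
      unfold cmM
      calc q * m' ≤ 2 * (4 ^ (j + 1) * P) * (2 ^ j * cmM P j) := Nat.mul_le_mul h2 i3
        _ = 2 ^ (j + 1) * (4 ^ (j + 1) * P * cmM P j) := by ring
    · rw [← hqm, Nat.squarefree_mul_iff]
      exact ⟨hco, h3.prime.squarefree, i4⟩
    · rw [← hqm, Nat.Coprime.primeFactors_mul hco, card_union_of_disjoint hco.disjoint_primeFactors,
        h3.primeFactors, card_singleton, i5]
      omega
    · intro p hp hpm
      rw [← hqm] at hpm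
      rcases (hp.dvd_mul).1 hpm with h7 | h7
      · have h8 : p = q := (Nat.prime_dvd_prime_iff_eq hp h3).1 h7
        rw [h8]
        constructor
        · omega
        · exact h2
      · obtain ⟨h8, h9⟩ := i6 p hp h7
        constructor
        · exact h8
        · omega

private theorem cm_card {P : ℕ} (hP : 1 ≤ P) (j : ℕ) :
    (cmT P (j + 1)).card = (pr (4 ^ (j + 1) * P)).card * (cmT P j).card := by
  have h0 : cmT P (j + 1) = ((pr (4 ^ (j + 1) * P)) ×ˢ cmT P j).image fun x => x.1 * x.2 := rfl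
  rw [h0, card_image_of_injOn, card_product]
  rintro ⟨q, m⟩ hx ⟨q', m'⟩ hx' h
  obtain ⟨hq, hm⟩ := mem_product.1 (mem_coe.1 hx)
  obtain ⟨hq', hm'⟩ := mem_product.1 (mem_coe.1 hx')
  simp only at h hq hm hq' hm'
  obtain ⟨⟨h1, h2⟩, h3⟩ := bf_mem_pr.1 hq
  obtain ⟨⟨h1', h2'⟩, h3'⟩ := bf_mem_pr.1 hq'
  have h5 : 1 ≤ 4 ^ j * P := Nat.mul_pos (by positivity) hP
  have h4 : 4 ^ (j + 1) * P = 4 * (4 ^ j * P) := by ring
  have h6 : q ∣ q' * m' := h ▸ Dvd.intro m rfl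
  have hqq : q = q' := by
    rcases (h3.dvd_mul).1 h6 with h7 | h7
    · exact (Nat.prime_dvd_prime_iff_eq h3 h3').1 h7
    · have := ((cm_spec hP j m' hm').2.2.2.2.2 q h3 h7).2
      omega
  subst hqq
  have hmm : m = m' := Nat.eq_of_mul_eq_mul_left h3.pos h
  rw [hmm]

private theorem cm_low {P : ℕ} (hP : 1 ≤ P) {lam : ℝ} (hlam : 0 < lam) (j : ℕ)
    (h : ∀ i, 1 ≤ i → i ≤ j → ((4 ^ i * P : ℕ) : ℝ) / lam ≤ (pr (4 ^ i * P)).card) :
    (cmM P j : ℝ) / lam ^ j ≤ (cmT P j).card := by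
  induction j with
  | zero =>
    unfold cmM cmT
    simp
  | succ j ih =>
    have h1 := ih fun i hi hij => h i hi (by omega)
    have h2 := h (j + 1) (by omega) le_rfl
    rw [cm_card hP]
    unfold cmM
    push_cast at h2 ⊢
    calc (4 ^ (j + 1) * (P : ℝ) * (cmM P j : ℝ)) / lam ^ (j + 1) =
        (4 ^ (j + 1) * (P : ℝ) / lam) * ((cmM P j : ℝ) / lam ^ j) := by
          rw [div_mul_div_comm, ← pow_succ' lam j]
      _ ≤ ((pr (4 ^ (j + 1) * P)).card : ℝ) * ((cmT P j).card : ℝ) :=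
          mul_le_mul h2 h1 (by positivity) (by positivity)

private theorem cm_up {P : ℕ} {L : ℝ} (j : ℕ) (hj : ((4 ^ j * P : ℕ) : ℝ) ≤ L) (hL : 1 ≤ L) :
    (cmM P j : ℝ) ≤ L ^ j := by
  induction j with
  | zero => simp [cmM]
  | succ j ih =>
    have h0 : ((4 ^ j * P : ℕ) : ℝ) ≤ L := by
      refine le_trans ?_ hj
      have : 4 ^ j * P ≤ 4 ^ (j + 1) * P := Nat.mul_le_mul_right _ (Nat.pow_le_pow_right (by norm_num) (by omega))
      exact_mod_cast this
    have h1 := ih h0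
    unfold cmM
    rw [pow_succ' L j]
    push_cast at hj ⊢
    exact mul_le_mul hj h1 (by positivity) (by linarith)

private theorem cm_block {m M0 : ℕ} (h1 : M0 < m) : ∀ j : ℕ, m ≤ 2 ^ j * M0 →
    ∃ s < j, 2 ^ s * M0 < m ∧ m ≤ 2 * (2 ^ s * M0) := by
  intro j
  induction j with
  | zero =>
    intro h
    rw [pow_zero, one_mul] at h
    omega
  | succ j ih =>
    intro h
    rcases le_or_gt m (2 ^ j * M0) with h2 | h2
    · obtain ⟨s, hs, h3⟩ := ih h2
      exact ⟨s, by omega, h3⟩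
    · refine ⟨j, by omega, h2, ?_⟩
      calc m ≤ 2 ^ (j + 1) * M0 := h
        _ = 2 * (2 ^ j * M0) := by ring

theorem am_lower (k c1 : ℕ) (hk : 3 ≤ k) (hc : 1 ≤ c1) : ∃ (cM : ℕ) (C x0 : ℝ), 0 < C ∧ ∀ X : ℕ, x0 ≤ X → ∃ M : ℕ, 1 ≤ M ∧
    (M : ℝ) ≤ (Real.log X) ^ cM ∧ ∀ R : ℕ, 2 * M ≤ R → ∃ n : ℕ, ∑ m ∈ Ioc M (2 * M), aa k ⌊(Real.log X) ^ c1⌋₊ R M m = n ∧
      (M : ℝ) / (C * (Real.log (Real.log X)) ^ (k - 2)) ≤ n := by
  classical
  obtain ⟨j, hj, hjk⟩ : ∃ j, 1 ≤ j ∧ k = j + 2 := ⟨k - 2, by omega, by omega⟩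
  subst hjk
  obtain ⟨x1, hpr⟩ := pr_card
  refine ⟨(c1 + 1) * j + j, 2 ^ j * j * (2 * (c1 + 1)) ^ j, Real.exp (max (max (x1 + 1) (4 ^ j)) 3),
    by positivity, fun X hX => ?_⟩
  have hXpos : (0 : ℝ) < X := lt_of_lt_of_le (Real.exp_pos _) hX
  obtain ⟨l, hl⟩ : ∃ l, l = Real.log X := ⟨_, rfl⟩
  have hlm : max (max (x1 + 1) (4 ^ j)) 3 ≤ l := by
    rw [hl, Real.le_log_iff_exp_le hXpos]
    exact hX
  rw [← hl]
  have hl1 : x1 + 1 ≤ l := (le_max_left _ _).trans ((le_max_left _ _).trans hlm)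
  have hl2 : (4 : ℝ) ^ j ≤ l := (le_max_right _ _).trans ((le_max_left _ _).trans hlm)
  have hl3 : 3 ≤ l := (le_max_right _ _).trans hlm
  have hl0 : 0 < l := by linarith
  have hl01 : 1 ≤ l := by linarith
  obtain ⟨P, hP⟩ : ∃ P, P = ⌊l ^ c1⌋₊ := ⟨_, rfl⟩
  rw [← hP]
  have hPle : (P : ℝ) ≤ l ^ c1 := by
    rw [hP]
    exact Nat.floor_le (by positivity)
  have hPge : l ^ c1 < P + 1 := by
    rw [hP]
    exact Nat.lt_floor_add_one _
  have hlc : l ≤ l ^ c1 := le_self_pow₀ hl01 (by omega)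
  have hP1 : 1 ≤ P := by
    have : (1 : ℝ) < P := by linarith
    have : 1 < P := by exact_mod_cast this
    omega
  have hPx : x1 ≤ P := by linarith
  have hPpos : (0 : ℝ) < P := by exact_mod_cast hP1
  have hL4 : ((4 ^ j * P : ℕ) : ℝ) ≤ l ^ (c1 + 1) := by
    push_cast
    rw [pow_succ, mul_comm (l ^ c1)]
    exact mul_le_mul hl2 hPle hPpos.le hl0.le
  -- the number of the products
  have hll : 1 < Real.log l := by
    rw [Real.lt_log_iff_exp_lt hl0]
    have := Real.exp_one_lt_d9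
    linarith
  have hll0 : 0 < Real.log l := by linarith
  have hlam : 0 < 2 * (c1 + 1) * Real.log l := by positivity
  have hcard : (cmM P j : ℝ) / (2 * (c1 + 1) * Real.log l) ^ j ≤ (cmT P j).card := by
    refine cm_low hP1 hlam j fun i hi hij => ?_
    have h1 : P ≤ 4 ^ i * P := Nat.le_mul_of_pos_left P (by positivity)
    have h2 := hpr (4 ^ i * P) (hPx.trans (by exact_mod_cast h1))
    refine le_trans ?_ h2
    have h3 : (4 : ℕ) ≤ 4 ^ i * P := by
      calc 4 = 4 ^ 1 * 1 := by norm_num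
        _ ≤ 4 ^ i * P := Nat.mul_le_mul (Nat.pow_le_pow_right (by norm_num) hi) hP1
    have h4 : (4 : ℝ) ≤ ((4 ^ i * P : ℕ) : ℝ) := by exact_mod_cast h3
    have h5 : 0 < Real.log ((4 ^ i * P : ℕ) : ℝ) := Real.log_pos (by linarith)
    have h6 : Real.log ((4 ^ i * P : ℕ) : ℝ) ≤ (c1 + 1) * Real.log l := by
      have e1 : Real.log (l ^ (c1 + 1)) = (c1 + 1) * Real.log l := by
        rw [Real.log_pow]
        push_cast
        ring
      rw [← e1]
      refine Real.log_le_log (by linarith) (le_trans ?_ hL4)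
      have : 4 ^ i * P ≤ 4 ^ j * P := Nat.mul_le_mul_right _ (Nat.pow_le_pow_right (by norm_num) hij)
      exact_mod_cast this
    refine div_le_div_of_nonneg_left (by positivity) (by positivity) ?_
    linarith
  have hM0 := cm_pos hP1 j
  -- the dyadic block
  obtain ⟨N, hN⟩ : ∃ N : ℕ → Finset ℕ, ∀ s, N s =
      (cmT P j).filter fun m => 2 ^ s * cmM P j < m ∧ m ≤ 2 * (2 ^ s * cmM P j) := ⟨_, fun _ => rfl⟩
  have hcov : cmT P j ⊆ (range j).biUnion N := by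
    intro m hm
    obtain ⟨-, i2, i3, -⟩ := cm_spec hP1 j m hm
    obtain ⟨s, hs, h1, h2⟩ := cm_block (i2 hj) j i3
    rw [mem_biUnion]
    refine ⟨s, mem_range.2 hs, ?_⟩
    rw [hN, mem_filter]
    exact ⟨hm, h1, h2⟩
  have hsum : (cmT P j).card ≤ ∑ s ∈ range j, (N s).card := (card_le_card hcov).trans card_biUnion_le
  have hjR : (0 : ℝ) < j := by exact_mod_cast hj
  obtain ⟨s, hs, hsN⟩ : ∃ s ∈ range j, ((cmT P j).card : ℝ) / j ≤ (N s).card := by
    refine exists_le_of_sum_le ⟨0, mem_range.2 (by omega)⟩ ?_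
    rw [sum_const, card_range, nsmul_eq_mul, mul_div_cancel₀ _ hjR.ne']
    exact_mod_cast hsum
  have hsj : s < j := mem_range.1 hs
  obtain ⟨M, hM⟩ : ∃ M, M = 2 ^ s * cmM P j := ⟨_, rfl⟩
  refine ⟨M, ?_, ?_, fun R hR => ?_⟩
  · rw [hM]
    exact Nat.mul_pos (by positivity) hM0
  · rw [hM]
    push_cast
    have h1 : (2 : ℝ) ^ s ≤ l ^ j := by
      calc (2 : ℝ) ^ s ≤ 2 ^ j := pow_le_pow_right₀ (by norm_num) hsj.le
        _ ≤ l ^ j := pow_le_pow_left₀ (by norm_num) (by linarith) j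
    have h2 := cm_up (P := P) j hL4 (one_le_pow₀ hl01)
    calc (2 : ℝ) ^ s * (cmM P j : ℝ) ≤ l ^ j * (l ^ (c1 + 1)) ^ j := mul_le_mul h1 h2 (by positivity) (by positivity)
      _ = l ^ ((c1 + 1) * j + j) := by
          rw [← pow_mul, pow_add, mul_comm]
  · refine ⟨((Ioc M (2 * M)).filter fun m => M < m ∧ m ≤ 2 * M ∧ Squarefree m ∧ m.primeFactors.card = j + 2 - 2 ∧
        ∀ p : ℕ, p.Prime → p ∣ m → 2 * P < p ∧ (p ≤ R ∨ 2 * R < p)).card, ?_, ?_⟩
    · rw [card_filter, Nat.cast_sum]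
      refine sum_congr rfl fun m _ => ?_
      unfold aa
      by_cases h : M < m ∧ m ≤ 2 * M ∧ Squarefree m ∧ m.primeFactors.card = j + 2 - 2 ∧
        ∀ p : ℕ, p.Prime → p ∣ m → 2 * P < p ∧ (p ≤ R ∨ 2 * R < p)
      · rw [if_pos h, if_pos h, Nat.cast_one]
      · rw [if_neg h, if_neg h, Nat.cast_zero]
    · have h1 : (N s).card ≤ ((Ioc M (2 * M)).filter fun m => M < m ∧ m ≤ 2 * M ∧ Squarefree m ∧
          m.primeFactors.card = j + 2 - 2 ∧
          ∀ p : ℕ, p.Prime → p ∣ m → 2 * P < p ∧ (p ≤ R ∨ 2 * R < p)).card := by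
        refine card_le_card fun m hm => ?_
        rw [hN, mem_filter, ← hM] at hm
        obtain ⟨hm1, hm2, hm3⟩ := hm
        obtain ⟨-, -, -, i4, i5, i6⟩ := cm_spec hP1 j m hm1
        rw [mem_filter, mem_Ioc]
        refine ⟨⟨hm2, hm3⟩, hm2, hm3, i4, by omega, fun p hp hpm => ⟨(i6 p hp hpm).1, Or.inl ?_⟩⟩
        have := Nat.le_of_dvd (by omega) hpm
        omega
      have h2 : ((N s).card : ℝ) ≤ (((Ioc M (2 * M)).filter fun m => M < m ∧ m ≤ 2 * M ∧ Squarefree m ∧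
          m.primeFactors.card = j + 2 - 2 ∧
          ∀ p : ℕ, p.Prime → p ∣ m → 2 * P < p ∧ (p ≤ R ∨ 2 * R < p)).card : ℝ) := by exact_mod_cast h1
      refine le_trans ?_ (hsN.trans h2)
      have h3 : (M : ℝ) ≤ 2 ^ j * (cmM P j : ℝ) := by
        rw [hM]
        push_cast
        exact mul_le_mul_of_nonneg_right (pow_le_pow_right₀ (by norm_num) hsj.le) (by positivity)
      have h4 : j + 2 - 2 = j := by omega
      rw [h4]
      calc (M : ℝ) / (2 ^ j * j * (2 * (c1 + 1)) ^ j * Real.log l ^ j)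
          ≤ 2 ^ j * (cmM P j : ℝ) / (2 ^ j * j * (2 * (c1 + 1)) ^ j * Real.log l ^ j) :=
            div_le_div_of_nonneg_right h3 (by positivity)
        _ = (cmM P j : ℝ) / (2 * (c1 + 1) * Real.log l) ^ j / j := by
            rw [mul_pow (2 * ((c1 : ℝ) + 1)) (Real.log l) j]
            field_simp
        _ ≤ ((cmT P j).card : ℝ) / j := div_le_div_of_nonneg_right hcard hjR.le

end Pool.Agent.Lib.G3
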