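import Pool.Agent.Lib.G3.G2Defs
import Pool.Agent.Lib.G3.CntJ

/-!
# G2 / CntQ: few frequencies are not quiet
-/

set_option autoImplicit false

open Finset
open scoped ArithmeticFunction.vonMangoldt

namespace Pool.Agent.Lib.G3

open Pool.Agent.Lib.MRT (cj kap)

/-- the kernel over `(D, 4D]` -/
theorem cntq_ker (A : ℕ) : ∃ (C x0 : ℝ), 0 < C ∧ ∀ X : ℕ, x0 ≤ X → ∀ (D : ℕ) (j : ℤ), (X : ℝ) ^ (1 / 4 : ℝ) ≤ D → D ≤ X →
    j ≠ 0 → |(j : ℝ)| ≤ 2 * X →
      ‖∑ m ∈ Ioc D (4 * D), cj j m‖ ≤ C * D * (1 / |(j : ℝ)|) + 3 * D / (Real.log X) ^ A := by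
  obtain ⟨C, x0, hC, h⟩ := kernR A
  refine ⟨3 * C, max x0 3, by positivity, ?_⟩
  intro X hX D j hD1 hD2 hj0 hj
  have hX1 : x0 ≤ X := (le_max_left _ _).trans hX
  have hX3 : (3 : ℝ) ≤ X := (le_max_right _ _).trans hX
  have hX0 : (0 : ℝ) < X := by linarith
  have hl : 0 < Real.log X := Real.log_pos (by linarith)
  have hjr : (0 : ℝ) < |(j : ℝ)| := abs_pos.2 (by exact_mod_cast hj0)
  have h1 := h X hX1 D j hD1 hD2 hj0 hj
  have h2 := h (2 * X) (by push_cast; linarith) (2 * D) j (by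
    push_cast
    rw [Real.mul_rpow (by norm_num) hX0.le]
    apply mul_le_mul _ hD1 (Real.rpow_nonneg hX0.le _) (by norm_num)
    calc (2 : ℝ) ^ (1 / 4 : ℝ) ≤ (2 : ℝ) ^ (1 : ℝ) := Real.rpow_le_rpow_of_exponent_le (by norm_num) (by norm_num)
      _ = 2 := Real.rpow_one _) (by omega) hj0 (by push_cast; linarith)
  have h3 : Ioc D (4 * D) = Ioc D (2 * D) ∪ Ioc (2 * D) (4 * D) := by
    ext x
    simp only [mem_Ioc, mem_union]
    omega
  have h4 : Disjoint (Ioc D (2 * D)) (Ioc (2 * D) (4 * D)) := by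
    rw [Finset.disjoint_left]
    intro x hx hx'
    simp only [mem_Ioc] at hx hx'
    omega
  rw [h3, sum_union h4]
  rw [show 2 * (2 * D) = 4 * D by ring] at h2
  push_cast at h2
  have h5 : 2 * (D : ℝ) / (Real.log (2 * X)) ^ A ≤ 2 * D / (Real.log X) ^ A := by
    apply div_le_div_of_nonneg_left (by positivity) (by positivity)
    apply pow_le_pow_left₀ hl.le
    apply Real.log_le_log hX0
    linarith
  refine (norm_add_le _ _).trans ((add_le_add h1 (h2.trans (add_le_add_right h5 _))).trans (le_of_eq ?_))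
  ring

/-- one interval, one character -/
theorem cntq_one (B : ℕ) : ∃ x0 : ℝ, ∀ X : ℕ, x0 ≤ X → ∀ (q D Y : ℕ) (χ : DirichletCharacter ℂ q), (X : ℝ) ^ (1 / 4 : ℝ) ≤ D →
    D ≤ X → Y ≤ 4 * D → ∀ U : Finset ℤ, (∀ j ∈ U, |(j : ℝ)| ≤ X ∧ D / (4 * (Real.log X) ^ B) < ‖LK χ D Y j‖) →
      (U.card : ℝ) ≤ (Real.log X) ^ (2 * B + 5) := by
  classical
  obtain ⟨C, x1, hC, hker⟩ := cntq_ker (2 * B + 3)
  refine ⟨max (max x1 3) (Real.exp (8 * C + 1152)), ?_⟩
  intro X hX q D Y χ hD1 hD2 hY U hU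
  have hX1 : x1 ≤ X := ((le_max_left _ _).trans (le_max_left _ _)).trans hX
  have hX3 : (3 : ℝ) ≤ X := ((le_max_right _ _).trans (le_max_left _ _)).trans hX
  have hXe : Real.exp (8 * C + 1152) ≤ X := (le_max_right _ _).trans hX
  have hX0 : (0 : ℝ) < X := by linarith
  set l := Real.log X with hl
  have hl8 : 8 * C + 1152 ≤ l := by
    rw [hl, Real.le_log_iff_exp_le hX0]
    exact hXe
  have hl0 : 0 < l := by linarith
  have hD0 : (0 : ℝ) < D := lt_of_lt_of_le (Real.rpow_pos_of_pos hX0 _) hD1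
  have hDX : (D : ℝ) ≤ X := by exact_mod_cast hD2
  have hXn : 1 ≤ X := by
    have : (1 : ℝ) ≤ X := by linarith
    exact_mod_cast this
  have hlog2X : Real.log (2 * X) ≤ 1 + l := by
    rw [Real.log_mul (by norm_num) hX0.ne']
    have := Real.log_two_lt_d9
    linarith
  have hlog4X : Real.log (4 * X) ≤ 2 * l := by
    rw [Real.log_mul (by norm_num) hX0.ne', show (4 : ℝ) = 2 * 2 by norm_num, Real.log_mul (by norm_num) (by norm_num)]
    have := Real.log_two_lt_d9
    linarith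
  set a : ℕ → ℂ := fun m => if m ≤ Y then ((Λ m : ℝ) : ℂ) * χ (m : ZMod q) else 0 with ha
  have hLK : ∀ j, LK χ D Y j = ∑ m ∈ Ioc D (4 * D), a m * cj j m := by
    intro j
    unfold LK
    rw [← Finset.sum_subset (s₁ := Ioc D Y) (s₂ := Ioc D (4 * D))]
    · refine sum_congr rfl fun m hm => ?_
      rw [mem_Ioc] at hm
      simp only [ha]
      rw [if_pos hm.2]
    · exact Ioc_subset_Ioc_right hY
    · intro m hm hm'
      rw [mem_Ioc] at hm hm'
      simp only [ha]
      rw [if_neg (by omega), zero_mul]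
  have ha1 : ∀ m ∈ Ioc D (4 * D), ‖a m‖ ≤ 2 * l := by
    intro m hm
    rw [mem_Ioc] at hm
    simp only [ha]
    split_ifs
    · rw [norm_mul, Complex.norm_real, Real.norm_eq_abs, abs_of_nonneg ArithmeticFunction.vonMangoldt_nonneg]
      have h1 : Λ m ≤ 2 * l := by
        refine (ArithmeticFunction.vonMangoldt_le_log).trans (le_trans ?_ hlog4X)
        apply Real.log_le_log (by exact_mod_cast (by omega : 0 < m))
        have : (m : ℝ) ≤ 4 * D := by exact_mod_cast hm.2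
        linarith
      calc Λ m * ‖χ (m : ZMod q)‖ ≤ (2 * l) * 1 :=
            mul_le_mul h1 (DirichletCharacter.norm_le_one χ _) (norm_nonneg _) (by positivity)
        _ = 2 * l := mul_one _
    · rw [norm_zero]
      positivity
  have hcard : ((Ioc D (4 * D)).card : ℝ) = 3 * D := by
    rw [Nat.card_Ioc, show 4 * D - D = 3 * D by omega]
    push_cast
    ring
  have hasum : ∑ m ∈ Ioc D (4 * D), ‖a m‖ ^ 2 ≤ 12 * D * l ^ 2 := by
    refine (sum_le_sum (g := fun _ => (2 * l) ^ 2) fun m hm => ?_).trans (le_of_eq ?_)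
    · exact pow_le_pow_left₀ (norm_nonneg _) (ha1 m hm) 2
    · rw [sum_const, nsmul_eq_mul, hcard]
      ring
  set Bd : ℝ := 3 * D + (C * D * (2 * (2 + l)) + U.card * (3 * D / l ^ (2 * B + 3))) with hBd
  have hBd0 : 0 ≤ Bd := by positivity
  have hdual : ∀ j ∈ U, ∑ j' ∈ U, ‖∑ m ∈ Ioc D (4 * D), cj (j - j') m‖ ≤ Bd := by
    intro j hj
    rw [← add_sum_erase U _ hj]
    have h1 : ‖∑ m ∈ Ioc D (4 * D), cj (j - j) m‖ ≤ 3 * D := by
      refine (norm_sum_le _ _).trans ?_
      refine (sum_le_sum (g := fun _ => (1 : ℝ)) fun m _ => (MRT.norm_cj _ _).le).trans (le_of_eq ?_)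
      rw [sum_const, nsmul_eq_mul, mul_one, hcard]
    have h2 : ∀ j' ∈ U.erase j, ‖∑ m ∈ Ioc D (4 * D), cj (j - j') m‖ ≤
        C * D * (1 / |((j - j' : ℤ) : ℝ)|) + 3 * D / l ^ (2 * B + 3) := by
      intro j' hj'
      rw [mem_erase] at hj'
      exact hker X hX1 D (j - j') hD1 hD2 (by
        intro h
        exact hj'.1 (by omega)) (by
        have e1 := (hU j hj).1
        have e2 := (hU j' hj'.2).1
        push_cast
        calc |(j : ℝ) - j'| ≤ |(j : ℝ)| + |(j' : ℝ)| := abs_sub _ _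
          _ ≤ 2 * X := by linarith)
    have h4 := cntj_harm U X hXn (fun i hi => (hU i hi).1) j hj
    have h5 : ∑ j' ∈ U.erase j, ‖∑ m ∈ Ioc D (4 * D), cj (j - j') m‖ ≤
        C * D * (2 * (2 + l)) + U.card * (3 * D / l ^ (2 * B + 3)) := by
      refine (sum_le_sum h2).trans ?_
      rw [sum_add_distrib, ← mul_sum, sum_const, nsmul_eq_mul]
      apply add_le_add
      · apply mul_le_mul_of_nonneg_left _ (by positivity)
        linarith
      · apply mul_le_mul_of_nonneg_right _ (by positivity)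
        exact_mod_cast card_le_card (erase_subset _ _)
    rw [hBd]
    linarith
  have hmain := hmj (Ioc D (4 * D)) a U hBd0 hdual
  have hlow : (U.card : ℝ) * (D / (4 * l ^ B)) ^ 2 ≤ ∑ j ∈ U, ‖∑ m ∈ Ioc D (4 * D), a m * cj j m‖ ^ 2 := by
    rw [← nsmul_eq_mul, ← sum_const]
    refine sum_le_sum fun j hj => ?_
    rw [← hLK]
    exact pow_le_pow_left₀ (by positivity) (hU j hj).2.le 2
  have hup : (U.card : ℝ) * (D / (4 * l ^ B)) ^ 2 ≤ 12 * D * l ^ 2 * Bd :=
    hlow.trans (hmain.trans (mul_le_mul_of_nonneg_right hasum hBd0))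
  have h6 : (U.card : ℝ) ≤ 192 * l ^ (2 * B + 2) * (3 + 2 * C * (2 + l)) + 576 * (U.card / l) := by
    have e1 : 12 * (D : ℝ) * l ^ 2 * Bd = D ^ 2 * (12 * l ^ 2 * (3 + 2 * C * (2 + l) + 3 * (U.card / l ^ (2 * B + 3)))) := by
      rw [hBd]
      ring
    have e2 : (U.card : ℝ) * (D / (4 * l ^ B)) ^ 2 = D ^ 2 * (U.card / (16 * l ^ (2 * B))) := by
      rw [div_pow, mul_pow, ← pow_mul, mul_comm B 2]
      ring
    rw [e1, e2] at hup
    have h7 := le_of_mul_le_mul_left hup (by positivity : (0 : ℝ) < D ^ 2)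
    rw [div_le_iff₀ (by positivity)] at h7
    refine h7.trans (le_of_eq ?_)
    rw [show 2 * B + 3 = 2 * B + 2 + 1 by ring, pow_succ l (2 * B + 2), pow_add l (2 * B) 2]
    field_simp
    ring
  have h8 : 576 * ((U.card : ℝ) / l) ≤ U.card / 2 := by
    rw [mul_div_assoc', div_le_div_iff₀ hl0 (by norm_num)]
    have : (0 : ℝ) ≤ U.card := Nat.cast_nonneg _
    nlinarith
  have h9 : (U.card : ℝ) ≤ 384 * l ^ (2 * B + 2) * (3 + 2 * C * (2 + l)) := by linarith
  refine h9.trans ?_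
  have h10 : 384 * (3 + 2 * C * (2 + l)) ≤ l ^ 3 := by
    have h11 : 3 + 2 * C * (2 + l) ≤ l * l := by nlinarith
    have h12 : (384 : ℝ) ≤ l := by linarith
    calc 384 * (3 + 2 * C * (2 + l)) ≤ l * (l * l) := mul_le_mul h12 h11 (by positivity) hl0.le
      _ = l ^ 3 := by ring
  calc 384 * l ^ (2 * B + 2) * (3 + 2 * C * (2 + l)) = l ^ (2 * B + 2) * (384 * (3 + 2 * C * (2 + l))) := by ring
    _ ≤ l ^ (2 * B + 2) * l ^ 3 := mul_le_mul_of_nonneg_left h10 (by positivity)
    _ = l ^ (2 * B + 5) := by rw [← pow_add]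

/-- the change of the sum over a short interval -/
theorem cntq_step {q : ℕ} (χ : DirichletCharacter ℂ q) {D g Y h : ℕ} {L : ℝ} (hDg : D ≤ g) (hgY : g ≤ Y) (hYh : Y ≤ g + h)
    (hL : ∀ m, m ≤ Y → 1 ≤ m → Real.log m ≤ L) (hL0 : 0 ≤ L) (j : ℤ) :
    ‖LK χ D Y j‖ ≤ ‖LK χ D g j‖ + h * L := by
  have h1 : LK χ D Y j = LK χ D g j + ∑ k ∈ Ioc g Y, ((Λ k : ℝ) : ℂ) * χ (k : ZMod q) * cj j k := by
    unfold LK
    rw [← Finset.sum_union (by
      rw [Finset.disjoint_left]
      intro x hx hx'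
      simp only [mem_Ioc] at hx hx'
      omega)]
    congr 1
    ext x
    simp only [mem_Ioc, mem_union]
    omega
  rw [h1]
  refine (norm_add_le _ _).trans (add_le_add_right ?_ _)
  refine (norm_sum_le _ _).trans ?_
  have h2 : ∀ k ∈ Ioc g Y, ‖((Λ k : ℝ) : ℂ) * χ (k : ZMod q) * cj j k‖ ≤ L := by
    intro k hk
    rw [mem_Ioc] at hk
    rw [norm_mul, norm_mul, MRT.norm_cj, mul_one, Complex.norm_real, Real.norm_eq_abs,
      abs_of_nonneg ArithmeticFunction.vonMangoldt_nonneg]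
    have h3 : Λ k ≤ L := (ArithmeticFunction.vonMangoldt_le_log).trans (hL k hk.2 (by omega))
    calc Λ k * ‖χ (k : ZMod q)‖ ≤ L * 1 := mul_le_mul h3 (DirichletCharacter.norm_le_one χ _) (norm_nonneg _) hL0
      _ = L := mul_one _
  refine (sum_le_sum h2).trans ?_
  rw [sum_const, nsmul_eq_mul, Nat.card_Ioc]
  apply mul_le_mul_of_nonneg_right _ hL0
  exact_mod_cast (by omega : Y - g ≤ h)

theorem cntQ (B : ℕ) : ∃ x0 : ℝ, ∀ X : ℕ, x0 ≤ X → ∀ (q T : ℕ), 1 ≤ q → T ≤ X → ∀ U : Finset ℤ,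
    (∀ j ∈ U, |(j : ℝ)| ≤ T ∧ ¬ Qt X q B j) → (U.card : ℝ) ≤ q * (Real.log X) ^ (4 * B + 12) := by
  classical
  obtain ⟨x1, hone⟩ := cntq_one B
  obtain ⟨x2, hx2⟩ : ∃ x2 : ℝ, ∀ X : ℕ, x2 ≤ X → 32 * (Real.log X) ^ (B + 2) ≤ (X : ℝ) ^ (1 / 4 : ℝ) := by
    have h := (isLittleO_log_rpow_rpow_atTop ((B : ℝ) + 2) (by norm_num : (0 : ℝ) < 1 / 4)).def
      (by norm_num : (0 : ℝ) < 1 / 32)
    obtain ⟨x2, hx2⟩ := Filter.eventually_atTop.1 h
    refine ⟨max x2 3, fun X hX => ?_⟩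
    have h1 := hx2 X ((le_max_left _ _).trans hX)
    have hX3 : (3 : ℝ) ≤ X := (le_max_right _ _).trans hX
    have hl : 0 < Real.log X := Real.log_pos (by linarith)
    rw [Real.norm_eq_abs, Real.norm_eq_abs, abs_of_nonneg (Real.rpow_nonneg hl.le _),
      abs_of_nonneg (Real.rpow_nonneg (by linarith) _)] at h1
    have h2 : (Real.log X) ^ ((B : ℝ) + 2) = (Real.log X) ^ (B + 2) := by
      rw [← Real.rpow_natCast]
      push_cast
      rfl
    rw [h2] at h1
    linarith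
  refine ⟨max (max x1 x2) (Real.exp 400), ?_⟩
  intro X hX q T hq hT U hU
  haveI : NeZero q := ⟨by omega⟩
  have hX1 : x1 ≤ X := ((le_max_left _ _).trans (le_max_left _ _)).trans hX
  have hX2 : x2 ≤ X := ((le_max_right _ _).trans (le_max_left _ _)).trans hX
  have hXe : Real.exp 400 ≤ X := (le_max_right _ _).trans hX
  have hX0 : (0 : ℝ) < X := (Real.exp_pos _).trans_le hXe
  set l := Real.log X with hl
  have hl4 : 400 ≤ l := by
    rw [hl, Real.le_log_iff_exp_le hX0]
    exact hXe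
  have hl0 : 0 < l := by linarith
  have hl1 : 1 ≤ l := by linarith
  have hbig := hx2 X hX2
  rw [← hl] at hbig
  have hlog4X : Real.log (4 * X) ≤ 2 * l := by
    rw [Real.log_mul (by norm_num) hX0.ne', show (4 : ℝ) = 2 * 2 by norm_num, Real.log_mul (by norm_num) (by norm_num)]
    have := Real.log_two_lt_d9
    linarith
  have hz1 : (X : ℝ) ^ (1 / 4 : ℝ) ≤ zz X := Nat.le_ceil _
  have hz0 : 0 < zz X := by
    have : (0 : ℝ) < zz X := lt_of_lt_of_le (Real.rpow_pos_of_pos hX0 _) hz1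
    exact_mod_cast this
  -- the grid
  set Dd : ℕ → ℕ := fun a => 2 ^ a * zz X with hDd
  set hh : ℕ → ℕ := fun a => ⌊(Dd a : ℝ) / (16 * l ^ (B + 1))⌋₊ with hhh
  set M : ℕ := ⌊96 * l ^ (B + 1)⌋₊ with hM
  set A0 : ℕ := ⌊2 * l⌋₊ + 1 with hA0
  set S : DirichletCharacter ℂ q × ℕ × ℕ → Finset ℤ := fun w =>
    U.filter fun j => Dd w.2.1 ≤ X ∧ Dd w.2.1 + w.2.2 * hh w.2.1 ≤ 4 * Dd w.2.1 ∧
      (Dd w.2.1 : ℝ) / (4 * l ^ B) < ‖LK w.1 (Dd w.2.1) (Dd w.2.1 + w.2.2 * hh w.2.1) j‖ with hS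
  have hUT : ∀ j ∈ U, |(j : ℝ)| ≤ X := fun j hj => (hU j hj).1.trans (by exact_mod_cast hT)
  have hDge : ∀ a, (X : ℝ) ^ (1 / 4 : ℝ) ≤ Dd a := by
    intro a
    refine hz1.trans ?_
    have : zz X ≤ Dd a := by
      simp only [hDd]
      exact Nat.le_mul_of_pos_left _ (by positivity)
    exact_mod_cast this
  have hScard : ∀ w, ((S w).card : ℝ) ≤ l ^ (2 * B + 5) := by
    intro w
    by_cases hw : Dd w.2.1 ≤ X ∧ Dd w.2.1 + w.2.2 * hh w.2.1 ≤ 4 * Dd w.2.1
    · refine hone X hX1 q (Dd w.2.1) (Dd w.2.1 + w.2.2 * hh w.2.1) w.1 (hDge _) hw.1 hw.2 _ ?_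
      intro j hj
      simp only [hS, mem_filter] at hj
      exact ⟨hUT j hj.1, hj.2.2.2⟩
    · have : S w = ∅ := by
        simp only [hS]
        rw [filter_eq_empty_iff]
        intro j _ hj
        exact hw ⟨hj.1, hj.2.1⟩
      rw [this]
      simp only [card_empty, Nat.cast_zero]
      positivity
  -- the covering
  have hcov : U ⊆ ((univ : Finset (DirichletCharacter ℂ q)) ×ˢ (range A0 ×ˢ range (M + 1))).biUnion S := by
    intro j hj
    have hnq := (hU j hj).2
    unfold Qt at hnq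
    push_neg at hnq
    obtain ⟨χ, K, K', hK1, hK2, hK3, hK4, hK5⟩ := hnq
    -- the dyadic block
    set a := Nat.log 2 (K / zz X) with ha
    have hdiv : 0 < K / zz X := Nat.div_pos hK1 hz0
    have ha1 : 2 ^ a ≤ K / zz X := Nat.pow_log_le_self 2 hdiv.ne'
    have ha2 : K / zz X < 2 ^ (a + 1) := Nat.lt_pow_succ_log_self (by norm_num) _
    have hD1 : Dd a ≤ K := by
      simp only [hDd]
      exact (Nat.mul_le_mul_right _ ha1).trans (Nat.div_mul_le_self _ _)
    have hD2 : K < 2 * Dd a := by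
      simp only [hDd]
      have := (Nat.div_lt_iff_lt_mul hz0).1 ha2
      rw [pow_succ] at this
      linarith
    have hDX : Dd a ≤ X := hD1.trans hK2
    have hDr : (X : ℝ) ^ (1 / 4 : ℝ) ≤ Dd a := hDge a
    have hD0 : (0 : ℝ) < Dd a := lt_of_lt_of_le (Real.rpow_pos_of_pos hX0 _) hDr
    have haA : a < A0 := by
      rw [hA0, Nat.lt_succ_iff]
      apply Nat.le_floor
      have h1 : (2 : ℝ) ^ a ≤ X := by
        have : 2 ^ a ≤ X := ha1.trans ((Nat.div_le_self _ _).trans hK2)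
        exact_mod_cast this
      have h2 : a * Real.log 2 ≤ l := by
        rw [hl, ← Real.log_pow]
        exact Real.log_le_log (by positivity) h1
      have := Real.log_two_gt_d9
      have h3 : (0 : ℝ) ≤ a := Nat.cast_nonneg _
      nlinarith
    -- the step
    have hstep1 : (hh a : ℝ) ≤ (Dd a : ℝ) / (16 * l ^ (B + 1)) := Nat.floor_le (by positivity)
    have hge1 : (2 : ℝ) ≤ (Dd a : ℝ) / (16 * l ^ (B + 1)) := by
      rw [le_div_iff₀ (by positivity)]
      have : l ^ (B + 1) ≤ l ^ (B + 2) := pow_le_pow_right₀ hl1 (by omega)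
      linarith
    have hstep2 : (Dd a : ℝ) / (32 * l ^ (B + 1)) ≤ hh a := by
      have h1 : (Dd a : ℝ) / (16 * l ^ (B + 1)) < hh a + 1 := Nat.lt_floor_add_one _
      have h2 : (Dd a : ℝ) / (32 * l ^ (B + 1)) = (Dd a : ℝ) / (16 * l ^ (B + 1)) / 2 := by
        rw [div_div]
        congr 1
        ring
      rw [h2]
      linarith
    have hhpos : 0 < hh a := by
      have : (0 : ℝ) < hh a := lt_of_lt_of_le (by positivity) hstep2
      exact_mod_cast this
    -- one of the two sums is large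
    have key : ∀ Y, Dd a ≤ Y → Y ≤ 4 * Dd a → (Dd a : ℝ) / (2 * l ^ B) < ‖LK χ (Dd a) Y j‖ →
        j ∈ ((univ : Finset (DirichletCharacter ℂ q)) ×ˢ (range A0 ×ˢ range (M + 1))).biUnion S := by
      intro Y hY1 hY2 hY3
      set i := (Y - Dd a) / hh a with hi
      have hi1 : i * hh a ≤ Y - Dd a := Nat.div_mul_le_self _ _
      have hi2 : Y - Dd a < (i + 1) * hh a := by
        rw [hi]
        exact Nat.lt_mul_of_div_lt (Nat.lt_succ_self _) hhpos
      have hgY : Dd a + i * hh a ≤ Y := by omega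
      have hYg : Y ≤ Dd a + i * hh a + hh a := by
        have : (i + 1) * hh a = i * hh a + hh a := by ring
        omega
      have hst := cntq_step χ (L := 2 * l) (Nat.le_add_right (Dd a) (i * hh a)) hgY hYg (by
        intro m hm1 hm2
        refine le_trans ?_ hlog4X
        apply Real.log_le_log (by exact_mod_cast hm2)
        have h1 : m ≤ 4 * X := by omega
        exact_mod_cast h1) (by positivity) j
      have h3 : (hh a : ℝ) * (2 * l) ≤ (Dd a : ℝ) / (8 * l ^ B) := by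
        calc (hh a : ℝ) * (2 * l) ≤ (Dd a : ℝ) / (16 * l ^ (B + 1)) * (2 * l) :=
              mul_le_mul_of_nonneg_right hstep1 (by positivity)
          _ = (Dd a : ℝ) / (8 * l ^ B) := by
            rw [pow_succ]
            field_simp
            ring
      have h4 : (Dd a : ℝ) / (4 * l ^ B) < ‖LK χ (Dd a) (Dd a + i * hh a) j‖ := by
        have e1 : (Dd a : ℝ) / (2 * l ^ B) = (Dd a : ℝ) / (4 * l ^ B) + 2 * ((Dd a : ℝ) / (8 * l ^ B)) := by
          field_simp
          ring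
        have e2 : 0 ≤ (Dd a : ℝ) / (8 * l ^ B) := by positivity
        linarith
      rw [mem_biUnion]
      refine ⟨(χ, a, i), ?_, ?_⟩
      · rw [mem_product, mem_product]
        refine ⟨mem_univ _, mem_range.2 haA, mem_range.2 ?_⟩
        simp only
        rw [Nat.lt_succ_iff, hM]
        apply Nat.le_floor
        have h5 : (i : ℝ) * hh a ≤ 3 * Dd a := by
          have : i * hh a ≤ 3 * Dd a := by omega
          exact_mod_cast this
        have h6 : (i : ℝ) * ((Dd a : ℝ) / (32 * l ^ (B + 1))) ≤ 3 * Dd a :=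
          (mul_le_mul_of_nonneg_left hstep2 (Nat.cast_nonneg _)).trans h5
        rw [mul_div_assoc', div_le_iff₀ (by positivity)] at h6
        have h7 : (i : ℝ) * Dd a ≤ (96 * l ^ (B + 1)) * Dd a := by linarith
        exact le_of_mul_le_mul_right h7 hD0
      · simp only [hS, mem_filter]
        exact ⟨hj, hDX, by omega, h4⟩
    have hsub : LK χ K K' j = LK χ (Dd a) K' j - LK χ (Dd a) K j := by
      unfold LK
      rw [eq_sub_iff_add_eq, add_comm, ← Finset.sum_union (by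
        rw [Finset.disjoint_left]
        intro x hx hx'
        simp only [mem_Ioc] at hx hx'
        omega)]
      congr 1
      ext x
      simp only [mem_Ioc, mem_union]
      omega
    have hbigK : (Dd a : ℝ) / l ^ B < ‖LK χ K K' j‖ := by
      refine lt_of_le_of_lt ?_ hK5
      apply div_le_div_of_nonneg_right _ (by positivity)
      exact_mod_cast hD1
    rw [hsub] at hbigK
    have htri := norm_sub_le (LK χ (Dd a) K' j) (LK χ (Dd a) K j)
    have e3 : (Dd a : ℝ) / l ^ B = (Dd a : ℝ) / (2 * l ^ B) + (Dd a : ℝ) / (2 * l ^ B) := by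
      field_simp
      ring
    by_cases hc : (Dd a : ℝ) / (2 * l ^ B) < ‖LK χ (Dd a) K' j‖
    · exact key K' (by omega) (by omega) hc
    · exact key K hD1 (by omega) (by linarith [not_lt.1 hc])
  have hcard := (card_le_card hcov).trans card_biUnion_le
  have h1 : (U.card : ℝ) ≤ ∑ w ∈ ((univ : Finset (DirichletCharacter ℂ q)) ×ˢ (range A0 ×ˢ range (M + 1))), ((S w).card : ℝ) := by
    exact_mod_cast hcard
  refine h1.trans ((sum_le_sum fun w _ => hScard w).trans ?_)
  rw [sum_const, nsmul_eq_mul, card_product, card_product, card_range, card_range]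
  have h6 : (univ : Finset (DirichletCharacter ℂ q)).card = q.totient := by
    rw [Finset.card_univ, ← Nat.card_eq_fintype_card]
    exact DirichletCharacter.card_eq_totient_of_hasEnoughRootsOfUnity ℂ q
  rw [h6]
  push_cast
  have h7 : (q.totient : ℝ) ≤ q := by exact_mod_cast Nat.totient_le q
  have h8 : (A0 : ℝ) ≤ 3 * l := by
    rw [hA0]
    push_cast
    have := Nat.floor_le (by positivity : 0 ≤ 2 * l)
    linarith
  have h9 : (M : ℝ) + 1 ≤ 97 * l ^ (B + 1) := by
    have := Nat.floor_le (by positivity : 0 ≤ 96 * l ^ (B + 1))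
    have h10 : (1 : ℝ) ≤ l ^ (B + 1) := one_le_pow₀ hl1
    linarith
  calc (q.totient : ℝ) * ((A0 : ℝ) * (M + 1)) * l ^ (2 * B + 5)
      ≤ q * ((3 * l) * (97 * l ^ (B + 1))) * l ^ (2 * B + 5) := by
        apply mul_le_mul_of_nonneg_right _ (by positivity)
        apply mul_le_mul h7 _ (by positivity) (by positivity)
        apply mul_le_mul h8 h9 (by positivity) (by positivity)
    _ = q * (291 * (l * l ^ (B + 1) * l ^ (2 * B + 5))) := by ring
    _ = q * (291 * l ^ (3 * B + 7)) := by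
        congr 2
        rw [← pow_succ', ← pow_add]
        congr 1
        ring
    _ ≤ q * (l * l ^ (3 * B + 7)) := by
        apply mul_le_mul_of_nonneg_left _ (by positivity)
        apply mul_le_mul_of_nonneg_right _ (by positivity)
        linarith
    _ = q * l ^ (3 * B + 8) := by rw [← pow_succ']
    _ ≤ q * l ^ (4 * B + 12) := by
        apply mul_le_mul_of_nonneg_left _ (by positivity)
        exact pow_le_pow_right₀ hl1 (by omega)

end Pool.Agent.Lib.G3
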