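import Pool.Agent.Lib.G3.Defs

/-!
# G3 / ParsM: Parseval on the circle for the windows minus a partial Fourier sum
-/

set_option autoImplicit false

open Finset

namespace Pool.Agent.Lib.G3

open Pool.Agent.Lib.MRT (cj kap)

/-- the weight of a window in the frequency `k` -/
private noncomputable def pmw (δ : ℝ) (k : ℤ) : ℂ :=
  ∫ s in (0 : ℝ)..δ, Complex.exp ((((k : ℝ) * s : ℝ) : ℂ) * Complex.I)

private theorem pmw_sq {δ : ℝ} (hδ : 0 < δ) (k : ℤ) : ‖pmw δ k‖ ^ 2 ≤ kap δ k := by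
  have h1 : ‖pmw δ k‖ ≤ δ := by
    unfold pmw
    have h2 := intervalIntegral.norm_integral_le_of_norm_le_const (a := (0 : ℝ)) (b := δ) (C := 1)
      (f := fun s : ℝ => Complex.exp ((((k : ℝ) * s : ℝ) : ℂ) * Complex.I)) (fun s _ => by
        rw [Complex.norm_exp_ofReal_mul_I])
    rwa [sub_zero, abs_of_pos hδ, one_mul] at h2
  have h3 : ‖pmw δ k‖ ^ 2 ≤ δ ^ 2 := pow_le_pow_left₀ (norm_nonneg _) h1 2
  unfold kap
  split_ifs with hk
  · exact h3
  · refine le_min h3 ?_
    have hk' : (k : ℝ) ≠ 0 := by exact_mod_cast hk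
    have hc : (k : ℂ) * Complex.I ≠ 0 :=
      mul_ne_zero (by exact_mod_cast hk) Complex.I_ne_zero
    have h4 : pmw δ k = (Complex.exp ((k : ℂ) * Complex.I * (δ : ℂ)) -
        Complex.exp ((k : ℂ) * Complex.I * ((0 : ℝ) : ℂ))) / ((k : ℂ) * Complex.I) := by
      rw [← integral_exp_mul_complex hc]
      unfold pmw
      refine intervalIntegral.integral_congr fun s _ => ?_
      congr 1
      push_cast
      ring
    have h5 : ‖pmw δ k‖ ≤ 2 / |(k : ℝ)| := by
      rw [h4, norm_div, norm_mul, Complex.norm_I, mul_one, Complex.norm_intCast]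
      refine div_le_div_of_nonneg_right ?_ (abs_nonneg _)
      refine (norm_sub_le _ _).trans ?_
      have h6 : (k : ℂ) * Complex.I * (δ : ℂ) = (((k : ℝ) * δ : ℝ) : ℂ) * Complex.I := by
        push_cast
        ring
      have h7 : (k : ℂ) * Complex.I * ((0 : ℝ) : ℂ) = ((0 : ℝ) : ℂ) * Complex.I := by
        push_cast
        ring
      rw [h6, h7, Complex.norm_exp_ofReal_mul_I, Complex.norm_exp_ofReal_mul_I]
      norm_num
    have h8 := pow_le_pow_left₀ (norm_nonneg _) h5 2
    refine h8.trans (le_of_eq ?_)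
    rw [div_pow, sq_abs]
    norm_num

private theorem pm_meas (l δ : ℝ) (z : ℂ) :
    Measurable fun θ : ℝ => (if θ < l ∧ l ≤ θ + δ then z else 0 : ℂ) := by
  refine Measurable.ite ?_ measurable_const measurable_const
  exact (measurableSet_lt measurable_id measurable_const).inter
    (measurableSet_le measurable_const (measurable_id.add_const δ))

private theorem pm_inner {c l δ : ℝ} (hδ : 0 < δ) (hcl : c < l - δ) (hlc : l ≤ c + 2 * Real.pi) (k : ℤ) (z : ℂ) :
    ∫ θ in c..(c + 2 * Real.pi), Complex.exp (((-(k : ℝ) * θ : ℝ) : ℂ) * Complex.I) *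
        (if θ < l ∧ l ≤ θ + δ then z else 0) =
      z * Complex.exp (((-(k : ℝ) * l : ℝ) : ℂ) * Complex.I) * pmw δ k := by
  have hpi := Real.pi_gt_three
  rw [intervalIntegral.integral_of_le (by linarith)]
  have h4 : (fun θ : ℝ => Complex.exp (((-(k : ℝ) * θ : ℝ) : ℂ) * Complex.I) *
      (if θ < l ∧ l ≤ θ + δ then z else 0)) = (Set.Ico (l - δ) l).indicator
      fun θ : ℝ => Complex.exp (((-(k : ℝ) * θ : ℝ) : ℂ) * Complex.I) * z := by
    ext θ
    by_cases hθ : θ ∈ Set.Ico (l - δ) l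
    · rw [Set.indicator_of_mem hθ, if_pos ⟨hθ.2, by linarith [hθ.1]⟩]
    · rw [Set.indicator_of_notMem hθ, if_neg, mul_zero]
      rintro ⟨h, h'⟩
      exact hθ ⟨by linarith, h⟩
  rw [h4, MeasureTheory.setIntegral_indicator measurableSet_Ico]
  have h5 : Set.Ioc c (c + 2 * Real.pi) ∩ Set.Ico (l - δ) l = Set.Ico (l - δ) l := by
    ext θ
    simp only [Set.mem_inter_iff, Set.mem_Ioc, Set.mem_Ico]
    constructor
    · exact fun h => h.2
    · intro h
      exact ⟨⟨by linarith [h.1], by linarith [h.2]⟩, h⟩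
  rw [h5, MeasureTheory.integral_Ico_eq_integral_Ioc, ← intervalIntegral.integral_of_le (by linarith)]
  have h6 := intervalIntegral.integral_comp_sub_left (a := (0 : ℝ)) (b := δ)
    (fun θ : ℝ => Complex.exp (((-(k : ℝ) * θ : ℝ) : ℂ) * Complex.I) * z) l
  rw [sub_zero] at h6
  rw [← h6]
  unfold pmw
  rw [← intervalIntegral.integral_const_mul]
  refine intervalIntegral.integral_congr fun s _ => ?_
  change Complex.exp (((-(k : ℝ) * (l - s) : ℝ) : ℂ) * Complex.I) * z = _
  rw [mul_assoc z, ← Complex.exp_add, mul_comm _ z]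
  congr 2
  push_cast
  ring

/-- the window integral of a character -/
private theorem pm_window (δ θ : ℝ) (j : ℤ) :
    ∫ φ in θ..(θ + δ), Complex.exp (Complex.I * (j * φ)) =
      Complex.exp ((((j : ℝ) * θ : ℝ) : ℂ) * Complex.I) * pmw δ j := by
  have h6 := intervalIntegral.integral_comp_add_left (a := (0 : ℝ)) (b := δ)
    (fun φ : ℝ => Complex.exp (Complex.I * (j * φ))) θ
  rw [add_zero] at h6
  rw [← h6]
  unfold pmw
  rw [← intervalIntegral.integral_const_mul]
  refine intervalIntegral.integral_congr fun s _ => ?_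
  change Complex.exp (Complex.I * (j * ((θ + s : ℝ) : ℂ))) = _
  rw [← Complex.exp_add]
  congr 1
  push_cast
  ring

/-- orthogonality -/
private theorem pm_orth (c : ℝ) (m : ℤ) :
    ∫ θ in c..(c + 2 * Real.pi), Complex.exp ((((m : ℝ) * θ : ℝ) : ℂ) * Complex.I) =
      if m = 0 then ((2 * Real.pi : ℝ) : ℂ) else 0 := by
  split_ifs with hm
  · subst hm
    have h1 : ∀ θ : ℝ, Complex.exp (((((0 : ℤ) : ℝ) * θ : ℝ) : ℂ) * Complex.I) = 1 := by
      intro θ
      simp
    rw [intervalIntegral.integral_congr (g := fun _ => (1 : ℂ)) fun θ _ => h1 θ]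
    simp
  · have hc : (m : ℂ) * Complex.I ≠ 0 := mul_ne_zero (by exact_mod_cast hm) Complex.I_ne_zero
    have h2 : ∫ θ in c..(c + 2 * Real.pi), Complex.exp ((((m : ℝ) * θ : ℝ) : ℂ) * Complex.I) =
        ∫ θ in c..(c + 2 * Real.pi), Complex.exp ((m : ℂ) * Complex.I * θ) := by
      refine intervalIntegral.integral_congr fun θ _ => ?_
      change Complex.exp ((((m : ℝ) * θ : ℝ) : ℂ) * Complex.I) = Complex.exp ((m : ℂ) * Complex.I * θ)
      congr 1
      push_cast
      ring
    rw [h2, integral_exp_mul_complex hc]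
    have h3 : (m : ℂ) * Complex.I * ((c + 2 * Real.pi : ℝ) : ℂ) =
        (m : ℂ) * Complex.I * (c : ℂ) + (m : ℂ) * (2 * Real.pi * Complex.I) := by
      push_cast
      ring
    rw [h3, Complex.exp_add, Complex.exp_int_mul_two_pi_mul_I, mul_one, sub_self, zero_div]

theorem parsM {X : ℕ} (hX : 1 ≤ X) (f : ℕ → ℂ) (hf : ∀ n, f n ≠ 0 → X < 64 * n ∧ n ≤ X) {δ B : ℝ} (hδ : 0 < δ)
    (hδ1 : δ ≤ 1) (J : Finset ℤ)
    (hB : ∀ J' : Finset ℤ, Disjoint J' J → ∑ j ∈ J', kap δ j * ‖∑ n ∈ Icc 1 X, f n * cj j n‖ ^ 2 ≤ B) :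
    ∫ θ in (Real.log X - 2 * Real.pi)..(Real.log X),
      ‖(∑ n ∈ Icc 1 X, if θ < Real.log n ∧ Real.log n ≤ θ + δ then f n else 0) -
        ((1 / (2 * Real.pi) : ℝ) : ℂ) * ∑ j ∈ J, (∑ n ∈ Icc 1 X, f n * cj j n) *
          ∫ φ in θ..(θ + δ), Complex.exp (Complex.I * (j * φ))‖ ^ 2 ≤ B := by
  classical
  have hX0 : (0 : ℝ) < X := by exact_mod_cast hX
  have hB0 : 0 ≤ B := by simpa using hB ∅ (Finset.disjoint_empty_left _)
  have hpi := Real.pi_gt_three
  have hpi2 := Real.pi_gt_d2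
  set c := Real.log X - 2 * Real.pi with hc
  have hab : c < c + 2 * Real.pi := by linarith
  have hsub : c + 2 * Real.pi - c = 2 * Real.pi := by ring
  have hcX : Real.log X = c + 2 * Real.pi := by rw [hc]; ring
  have hlog64 : Real.log 64 ≤ 5 := by
    have h1 : (64 : ℝ) = 2 ^ 6 := by norm_num
    have h2 := Real.log_two_lt_d9
    rw [h1, Real.log_pow]
    push_cast
    linarith
  have hn : ∀ n, f n ≠ 0 → c < Real.log n - δ ∧ Real.log n ≤ c + 2 * Real.pi := by
    intro n hfn
    obtain ⟨h1, h2⟩ := hf n hfn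
    have hn0 : (0 : ℝ) < n := by
      have : 0 < n := by omega
      exact_mod_cast this
    have h3 : Real.log X < Real.log 64 + Real.log n := by
      rw [← Real.log_mul (by norm_num) hn0.ne']
      exact Real.log_lt_log hX0 (by exact_mod_cast h1)
    have h4 : Real.log n ≤ Real.log X := Real.log_le_log hn0 (by exact_mod_cast h2)
    exact ⟨by linarith, by linarith⟩
  set S : ℤ → ℂ := fun j => ∑ n ∈ Icc 1 X, f n * cj j n with hS
  set Cj : ℤ → ℂ := fun j => ((1 / (2 * Real.pi) : ℝ) : ℂ) * (S j * pmw δ j) with hCj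
  set G : ℝ → ℂ := fun θ => (∑ n ∈ Icc 1 X, if θ < Real.log n ∧ Real.log n ≤ θ + δ then f n else 0) -
    ∑ j ∈ J, Cj j * Complex.exp ((((j : ℝ) * θ : ℝ) : ℂ) * Complex.I) with hG
  have hGeq : ∀ θ : ℝ, (∑ n ∈ Icc 1 X, if θ < Real.log n ∧ Real.log n ≤ θ + δ then f n else 0) -
        ((1 / (2 * Real.pi) : ℝ) : ℂ) * ∑ j ∈ J, (∑ n ∈ Icc 1 X, f n * cj j n) *
          ∫ φ in θ..(θ + δ), Complex.exp (Complex.I * (j * φ)) = G θ := by
    intro θ
    rw [hG]
    simp only [hCj, hS]
    congr 1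
    rw [mul_sum]
    refine sum_congr rfl fun j _ => ?_
    rw [pm_window]
    ring
  obtain ⟨A, hA⟩ : ∃ A : ℝ, ∀ θ, ‖G θ‖ ≤ A := by
    refine ⟨∑ n ∈ Icc 1 X, ‖f n‖ + ∑ j ∈ J, ‖Cj j‖, fun θ => ?_⟩
    refine (norm_sub_le _ _).trans (add_le_add ?_ ?_)
    · refine (norm_sum_le _ _).trans (sum_le_sum fun n _ => ?_)
      split_ifs
      · exact le_rfl
      · rw [norm_zero]
        exact norm_nonneg _
    · refine (norm_sum_le _ _).trans (sum_le_sum fun j _ => ?_)
      rw [norm_mul, Complex.norm_exp_ofReal_mul_I, mul_one]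
  have hcont2 : Continuous fun θ : ℝ => ∑ j ∈ J, Cj j * Complex.exp ((((j : ℝ) * θ : ℝ) : ℂ) * Complex.I) := by
    fun_prop
  have hmeas : Measurable G := by
    refine Measurable.sub ?_ hcont2.measurable
    exact Finset.measurable_sum _ fun n _ => pm_meas _ _ _
  have hL2 : MeasureTheory.MemLp G 2
      (MeasureTheory.volume.restrict (Set.Ioc c (c + 2 * Real.pi))) :=
    MeasureTheory.MemLp.of_bound hmeas.aestronglyMeasurable A (Filter.Eventually.of_forall hA)
  have hpar := hasSum_sq_fourierCoeffOn hab hL2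
  have hcoef : ∀ k : ℤ, fourierCoeffOn hab G k =
      if k ∈ J then 0 else (1 / (2 * Real.pi) : ℝ) • (pmw δ k * S k) := by
    intro k
    have h1 : ∀ θ : ℝ, (fourier (-k) (θ : AddCircle (c + 2 * Real.pi - c)) : ℂ) • G θ =
        (∑ n ∈ Icc 1 X, Complex.exp (((-(k : ℝ) * θ : ℝ) : ℂ) * Complex.I) *
          (if θ < Real.log n ∧ Real.log n ≤ θ + δ then f n else 0)) -
        ∑ j ∈ J, Cj j * Complex.exp (((((j - k : ℤ) : ℝ) * θ : ℝ) : ℂ) * Complex.I) := by
      intro θ
      have hF : (fourier (-k) (θ : AddCircle (c + 2 * Real.pi - c)) : ℂ) =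
          Complex.exp (((-(k : ℝ) * θ : ℝ) : ℂ) * Complex.I) := by
        rw [fourier_coe_apply, hsub]
        congr 1
        have hpi0 : (Real.pi : ℂ) ≠ 0 := by exact_mod_cast Real.pi_ne_zero
        push_cast
        field_simp
      rw [smul_eq_mul, hF]
      simp only [hG]
      rw [mul_sub, mul_sum, mul_sum]
      congr 1
      refine sum_congr rfl fun j _ => ?_
      rw [mul_left_comm, ← Complex.exp_add]
      congr 2
      push_cast
      ring
    have hI1 : ∀ n ∈ Icc 1 X, IntervalIntegrable (fun θ : ℝ => Complex.exp (((-(k : ℝ) * θ : ℝ) : ℂ) * Complex.I) *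
          (if θ < Real.log n ∧ Real.log n ≤ θ + δ then f n else 0)) MeasureTheory.volume c (c + 2 * Real.pi) := by
      intro n _
      have hm2 : Measurable fun θ : ℝ =>
          Complex.exp (((-(k : ℝ) * θ : ℝ) : ℂ) * Complex.I) *
            (if θ < Real.log n ∧ Real.log n ≤ θ + δ then f n else 0 : ℂ) := by
        refine Measurable.mul ?_ (pm_meas _ _ _)
        exact (by fun_prop : Continuous fun θ : ℝ =>
          Complex.exp (((-(k : ℝ) * θ : ℝ) : ℂ) * Complex.I)).measurable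
      refine MeasureTheory.IntegrableOn.intervalIntegrable ?_
      refine MeasureTheory.Measure.integrableOn_of_bounded (M := ‖f n‖)
        (by exact (isCompact_uIcc.measure_lt_top).ne) hm2.aestronglyMeasurable
        (Filter.Eventually.of_forall fun θ => ?_)
      rw [norm_mul, Complex.norm_exp_ofReal_mul_I, one_mul]
      split_ifs
      · exact le_rfl
      · rw [norm_zero]
        exact norm_nonneg _
    have hI2 : ∀ j ∈ J, IntervalIntegrable (fun θ : ℝ => Cj j *
        Complex.exp (((((j - k : ℤ) : ℝ) * θ : ℝ) : ℂ) * Complex.I)) MeasureTheory.volume c (c + 2 * Real.pi) := by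
      intro j _
      exact Continuous.intervalIntegrable (by fun_prop) _ _
    have hI1s : IntervalIntegrable (fun θ : ℝ => ∑ n ∈ Icc 1 X, Complex.exp (((-(k : ℝ) * θ : ℝ) : ℂ) * Complex.I) *
          (if θ < Real.log n ∧ Real.log n ≤ θ + δ then f n else 0)) MeasureTheory.volume c (c + 2 * Real.pi) := by
      have h := IntervalIntegrable.sum (Icc 1 X) hI1
      have e : (∑ n ∈ Icc 1 X, fun θ : ℝ => Complex.exp (((-(k : ℝ) * θ : ℝ) : ℂ) * Complex.I) *
          (if θ < Real.log n ∧ Real.log n ≤ θ + δ then f n else 0)) = fun θ : ℝ => ∑ n ∈ Icc 1 X,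
          Complex.exp (((-(k : ℝ) * θ : ℝ) : ℂ) * Complex.I) *
          (if θ < Real.log n ∧ Real.log n ≤ θ + δ then f n else 0) := by
        ext θ
        rw [Finset.sum_apply]
      rwa [e] at h
    have hI2s : IntervalIntegrable (fun θ : ℝ => ∑ j ∈ J, Cj j *
        Complex.exp (((((j - k : ℤ) : ℝ) * θ : ℝ) : ℂ) * Complex.I)) MeasureTheory.volume c (c + 2 * Real.pi) :=
      Continuous.intervalIntegrable (by fun_prop) _ _
    have h2 : ∫ θ in c..(c + 2 * Real.pi),
        (fourier (-k) (θ : AddCircle (c + 2 * Real.pi - c)) : ℂ) • G θ =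
        S k * pmw δ k - ∑ j ∈ J, Cj j * (if j - k = 0 then ((2 * Real.pi : ℝ) : ℂ) else 0) := by
      rw [intervalIntegral.integral_congr fun θ _ => h1 θ, intervalIntegral.integral_sub hI1s hI2s,
        intervalIntegral.integral_finset_sum hI1, intervalIntegral.integral_finset_sum hI2]
      congr 1
      · simp only [hS]
        rw [sum_mul]
        refine sum_congr rfl fun n _ => ?_
        by_cases hfn : f n = 0
        · simp [hfn]
        · rw [pm_inner hδ (hn n hfn).1 (hn n hfn).2 k]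
          rfl
      · refine sum_congr rfl fun j _ => ?_
        rw [intervalIntegral.integral_const_mul, pm_orth]
    rw [fourierCoeffOn_eq_integral, h2, hsub]
    have hpi0 : ((2 * Real.pi : ℝ) : ℂ) ≠ 0 := by
      have : (2 * Real.pi : ℝ) ≠ 0 := by positivity
      exact_mod_cast this
    split_ifs with hk
    · rw [sum_eq_single_of_mem k hk (fun j _ hj => by rw [if_neg (sub_ne_zero.2 hj), mul_zero]),
        if_pos (sub_self k)]
      simp only [hCj]
      have h3 : ((1 / (2 * Real.pi) : ℝ) : ℂ) * (S k * pmw δ k) * ((2 * Real.pi : ℝ) : ℂ) = S k * pmw δ k := by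
        have h4 : ((1 / (2 * Real.pi) : ℝ) : ℂ) * ((2 * Real.pi : ℝ) : ℂ) = 1 := by
          rw [← Complex.ofReal_mul, one_div, inv_mul_cancel₀ (by positivity), Complex.ofReal_one]
        rw [mul_right_comm, h4, one_mul]
      rw [h3, sub_self, smul_zero]
    · have h0 : ∑ j ∈ J, Cj j * (if j - k = 0 then ((2 * Real.pi : ℝ) : ℂ) else 0) = 0 := by
        refine sum_eq_zero fun j hj => ?_
        have hne : j ≠ k := fun h => hk (by rw [← h]; exact hj)
        rw [if_neg (sub_ne_zero.2 hne), mul_zero]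
      rw [h0, sub_zero, mul_comm (pmw δ k)]
  have hle : ∀ J' : Finset ℤ, ∑ k ∈ J', ‖fourierCoeffOn hab G k‖ ^ 2 ≤
      (1 / (2 * Real.pi)) ^ 2 * B := by
    intro J'
    have h0 : ∑ k ∈ J', ‖fourierCoeffOn hab G k‖ ^ 2 = ∑ k ∈ J' \ J, ‖fourierCoeffOn hab G k‖ ^ 2 := by
      symm
      refine sum_subset sdiff_subset fun k hk hk' => ?_
      have hkJ : k ∈ J := by
        by_contra h
        exact hk' (mem_sdiff.2 ⟨hk, h⟩)
      rw [hcoef k, if_pos hkJ, norm_zero]
      norm_num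
    rw [h0]
    refine le_trans ?_ (mul_le_mul_of_nonneg_left (hB (J' \ J) sdiff_disjoint) (by positivity))
    rw [mul_sum]
    refine sum_le_sum fun k hk => ?_
    rw [hcoef k, if_neg (mem_sdiff.1 hk).2, norm_smul, norm_mul, Real.norm_of_nonneg (by positivity), mul_pow, mul_pow]
    exact mul_le_mul_of_nonneg_left (mul_le_mul_of_nonneg_right (pmw_sq hδ k) (by positivity))
      (by positivity)
  have hint := hasSum_le_of_sum_le hpar hle
  rw [hsub, smul_eq_mul] at hint
  have h3 : ∫ θ in c..(c + 2 * Real.pi), ‖G θ‖ ^ 2 ≤ B := by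
    have h4 : ∫ θ in c..(c + 2 * Real.pi), ‖G θ‖ ^ 2 =
        (2 * Real.pi) * ((2 * Real.pi)⁻¹ * ∫ θ in c..(c + 2 * Real.pi), ‖G θ‖ ^ 2) := by
      rw [← mul_assoc, mul_inv_cancel₀ (by positivity), one_mul]
    rw [h4]
    refine (mul_le_mul_of_nonneg_left hint (by positivity)).trans ?_
    have h5 : 2 * Real.pi * ((1 / (2 * Real.pi)) ^ 2 * B) = B / (2 * Real.pi) := by
      field_simp
    rw [h5]
    exact div_le_self hB0 (by linarith)
  rw [intervalIntegral.integral_congr (g := fun θ => ‖G θ‖ ^ 2) fun θ _ => by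
    change ‖_‖ ^ 2 = ‖G θ‖ ^ 2
    rw [← hGeq θ]]
  rw [hcX]
  exact h3

end Pool.Agent.Lib.G3
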