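import Pool.Agent.Lib.G3.ConvB
import Pool.Agent.Lib.G3.ParsM

/-!
# G3, row CV: from the log-windows to the windows `(y - H, y]`
-/

set_option autoImplicit false

open Finset MeasureTheory

namespace Pool.Agent.Lib.G3

open Pool.Agent.Lib.MRT (cj kap)

private noncomputable def cvD (f : ℕ → ℂ) (b : ℤ → ℂ) (J : Finset ℤ) (X : ℕ) (δ θ : ℝ) : ℂ :=
  cvF f X δ θ - ((1 / (2 * Real.pi) : ℝ) : ℂ) * ∑ j ∈ J, b j * ∫ φ in θ..(θ + δ), Complex.exp (Complex.I * (j * φ))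

private theorem cvM_cont (b : ℤ → ℂ) (J : Finset ℤ) (δ : ℝ) :
    Continuous fun θ : ℝ => ∑ j ∈ J, b j * ∫ φ in θ..(θ + δ), Complex.exp (Complex.I * (j * φ)) := by
  have h : (fun θ : ℝ => ∑ j ∈ J, b j * ∫ φ in θ..(θ + δ), Complex.exp (Complex.I * (j * φ))) =
      fun θ : ℝ => ∑ j ∈ J, b j * (Complex.exp (Complex.I * (j * θ)) *
        ∫ s in (0 : ℝ)..δ, Complex.exp (Complex.I * (j * s))) := by
    funext θ
    exact sum_congr rfl fun j _ => by rw [cv_inner]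
  rw [h]
  fun_prop

private theorem cvF_meas (f : ℕ → ℂ) (X : ℕ) (δ : ℝ) : Measurable (cvF f X δ) := by
  unfold cvF
  refine Finset.measurable_sum _ fun n _ => ?_
  refine Measurable.ite ?_ measurable_const measurable_const
  have h1 : {θ : ℝ | θ < Real.log n ∧ Real.log n ≤ θ + δ} =
      Set.Ico (Real.log n - δ) (Real.log n) := by
    ext θ
    simp only [Set.mem_ofPred_eq, Set.mem_Ico]
    constructor
    · rintro ⟨h, h'⟩
      exact ⟨by linarith, h⟩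
    · rintro ⟨h, h'⟩
      exact ⟨h', by linarith⟩
  rw [h1]
  exact measurableSet_Ico

private theorem cvD_meas (f : ℕ → ℂ) (b : ℤ → ℂ) (J : Finset ℤ) (X : ℕ) (δ : ℝ) :
    Measurable (cvD f b J X δ) := by
  unfold cvD
  exact (cvF_meas f X δ).sub ((cvM_cont b J δ).measurable.const_mul _)

private theorem cvD_bd (f : ℕ → ℂ) (b : ℤ → ℂ) (J : Finset ℤ) (X : ℕ) (δ : ℝ) :
    ∃ M : ℝ, ∀ θ, ‖cvD f b J X δ θ‖ ≤ M := by
  refine ⟨∑ n ∈ Icc 1 X, ‖f n‖ + ‖((1 / (2 * Real.pi) : ℝ) : ℂ)‖ *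
    ∑ j ∈ J, ‖b j‖ * ‖∫ s in (0 : ℝ)..δ, Complex.exp (Complex.I * (j * s))‖, fun θ => ?_⟩
  unfold cvD
  refine (norm_sub_le _ _).trans (add_le_add ?_ ?_)
  · unfold cvF
    refine (norm_sum_le _ _).trans (sum_le_sum fun n _ => ?_)
    split_ifs
    · exact le_rfl
    · rw [norm_zero]; exact norm_nonneg _
  · rw [norm_mul]
    refine mul_le_mul_of_nonneg_left ?_ (norm_nonneg _)
    refine (norm_sum_le _ _).trans (sum_le_sum fun j _ => ?_)
    rw [norm_mul, cv_inner, norm_mul, cv_exp, one_mul]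

private theorem ii_of_bd {g : ℝ → ℝ} (hg : Measurable g) {M : ℝ} (hM : ∀ θ, |g θ| ≤ M) (a b : ℝ) :
    IntervalIntegrable g volume a b := by
  refine IntervalIntegrable.mono_fun (f := fun _ : ℝ => M) intervalIntegrable_const
    hg.aestronglyMeasurable ?_
  refine Filter.Eventually.of_forall fun θ => ?_
  show ‖g θ‖ ≤ ‖M‖
  rw [Real.norm_eq_abs, Real.norm_eq_abs]
  exact (hM θ).trans (le_abs_self _)

private theorem cv_cs {g : ℝ → ℝ} {a b : ℝ} (hab : a ≤ b) (h1 : IntervalIntegrable g volume a b)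
    (h2 : IntervalIntegrable (fun θ => g θ ^ 2) volume a b) :
    (∫ θ in a..b, g θ) ^ 2 ≤ (b - a) * ∫ θ in a..b, g θ ^ 2 := by
  rcases hab.eq_or_lt with h | h
  · rw [h]; simp
  set c := (∫ θ in a..b, g θ) / (b - a) with hc
  have hba : 0 < b - a := by linarith
  have h3 : 0 ≤ ∫ θ in a..b, (g θ - c) ^ 2 :=
    intervalIntegral.integral_nonneg hab fun θ _ => sq_nonneg _
  have h4 : ∫ θ in a..b, (g θ - c) ^ 2 = (∫ θ in a..b, g θ ^ 2) - 2 * c * (∫ θ in a..b, g θ) + c ^ 2 * (b - a) := by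
    have h5 : ∀ θ, (g θ - c) ^ 2 = (g θ ^ 2 - 2 * c * g θ) + c ^ 2 := by intro θ; ring
    simp only [h5]
    rw [intervalIntegral.integral_add (h2.sub (h1.const_mul _)) intervalIntegrable_const,
      intervalIntegral.integral_sub h2 (h1.const_mul _), intervalIntegral.integral_const_mul,
      intervalIntegral.integral_const, smul_eq_mul]
    ring
  rw [h4] at h3
  have h6 : (∫ θ in a..b, g θ) = c * (b - a) := by rw [hc]; field_simp
  rw [h6] at h3 ⊢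
  nlinarith

/-- one window -/
private theorem cv_win {f : ℕ → ℂ} {b : ℤ → ℂ} {J : Finset ℤ} {S Bb T δ : ℝ} {X H x : ℕ}
    (hX : 1 ≤ X) (hδ : 0 < δ) (hδ1 : δ ≤ 1) (hT : 1 ≤ T) (hBb : 0 ≤ Bb) (hf : ∀ n, ‖f n‖ ≤ S)
    (hJ : ∀ j ∈ J, |(j : ℝ)| ≤ T) (hb : ∀ j ∈ J, ‖b j‖ ≤ Bb * X) (hx : X0 X + 1 ≤ x) (hxH : x + H ≤ X) :
    δ * ‖∑ n ∈ Ioc x (x + H), (f n - mo b J X n)‖ ≤
      (∫ θ in (Real.log x)..(Real.log ((x + H : ℕ) : ℝ)), ‖cvD f b J X δ θ‖) +
      δ * ((4 + 2 * Real.exp (2 * Real.pi) ^ 2) * (S + J.card * Bb) * (X * δ + T * H / X)) := by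
  have hE : 1 ≤ Real.exp (2 * Real.pi) := Real.one_le_exp (by positivity)
  set E := Real.exp (2 * Real.pi) with hEd
  have hX0 : (0 : ℝ) < X := by exact_mod_cast hX
  have hx1 : 1 ≤ x := by omega
  have hx0 : (0 : ℝ) < x := by exact_mod_cast hx1
  have hxE : (X : ℝ) ≤ E * x := by
    have h1 : (X : ℝ) * Real.exp (-(2 * Real.pi)) < (X0 X : ℝ) + 1 := Nat.lt_floor_add_one _
    have h2 : ((X0 X : ℝ) + 1) ≤ x := by exact_mod_cast hx
    rw [Real.exp_neg, ← hEd] at h1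
    have h3 : (X : ℝ) * E⁻¹ * E = X := by field_simp
    nlinarith
  have hS : 0 ≤ S := (norm_nonneg _).trans (hf 0)
  have hxy : x ≤ x + H := by omega
  have hab : Real.log x ≤ Real.log ((x + H : ℕ) : ℝ) := Real.log_le_log hx0 (by exact_mod_cast hxy)
  set a := Real.log (x : ℝ) with ha
  set d := Real.log ((x + H : ℕ) : ℝ) with hd
  -- the model on the window
  have hmo : ∑ n ∈ Ioc x (x + H), mo b J X n = ((1 / (2 * Real.pi) : ℝ) : ℂ) * ∑ j ∈ J, b j *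
      ∑ n ∈ Ioc x (x + H), ((1 / (n : ℝ) : ℝ) : ℂ) * (starRingEnd ℂ) (cj j n) := by
    have h1 : ∀ n ∈ Ioc x (x + H), mo b J X n = ((1 / (2 * Real.pi) : ℝ) : ℂ) *
        ∑ j ∈ J, b j * (((1 / (n : ℝ) : ℝ) : ℂ) * (starRingEnd ℂ) (cj j n)) := by
      intro n hn
      rw [mem_Ioc] at hn
      unfold mo
      rw [if_pos ⟨by omega, by omega⟩]
      have h2 : ((1 / (2 * Real.pi * n) : ℝ) : ℂ) = ((1 / (2 * Real.pi) : ℝ) : ℂ) * ((1 / (n : ℝ) : ℝ) : ℂ) := by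
        push_cast
        ring
      rw [h2, mul_assoc, mul_sum]
      congr 1
      exact sum_congr rfl fun j _ => by ring
    rw [sum_congr rfl h1, ← mul_sum, sum_comm]
    congr 1
    exact sum_congr rfl fun j _ => by rw [mul_sum]
  have hint : ∫ θ in a..d, cvD f b J X δ θ = (∫ θ in a..d, cvF f X δ θ) -
      ((1 / (2 * Real.pi) : ℝ) : ℂ) * ∑ j ∈ J, b j * ∫ θ in a..d, ∫ φ in θ..(θ + δ), Complex.exp (Complex.I * (j * φ)) := by
    unfold cvD
    rw [intervalIntegral.integral_sub (cvF_ii f X δ a d) (((cvM_cont b J δ).const_mul _).intervalIntegrable _ _),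
      intervalIntegral.integral_const_mul, intervalIntegral.integral_finsetSum]
    · congr 2
      exact sum_congr rfl fun j _ => by rw [intervalIntegral.integral_const_mul]
    · intro j _
      have h := (cvM_cont b {j} δ).intervalIntegrable (μ := volume) a d
      simpa using h
  have hdiff : (δ : ℂ) * ∑ n ∈ Ioc x (x + H), (f n - mo b J X n) - ∫ θ in a..d, cvD f b J X δ θ =
      ((δ : ℂ) * ∑ n ∈ Ioc x (x + H), f n - ∫ θ in a..d, cvF f X δ θ) -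
      ((1 / (2 * Real.pi) : ℝ) : ℂ) * ∑ j ∈ J, b j *
        ((δ : ℂ) * ∑ n ∈ Ioc x (x + H), ((1 / (n : ℝ) : ℝ) : ℂ) * (starRingEnd ℂ) (cj j n) -
          ∫ θ in a..d, ∫ φ in θ..(θ + δ), Complex.exp (Complex.I * (j * φ))) := by
    rw [sum_sub_distrib, hmo, hint]
    have h1 : ∑ j ∈ J, b j *
        ((δ : ℂ) * ∑ n ∈ Ioc x (x + H), ((1 / (n : ℝ) : ℝ) : ℂ) * (starRingEnd ℂ) (cj j n) -
          ∫ θ in a..d, ∫ φ in θ..(θ + δ), Complex.exp (Complex.I * (j * φ))) =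
        (δ : ℂ) * (∑ j ∈ J, b j * ∑ n ∈ Ioc x (x + H), ((1 / (n : ℝ) : ℝ) : ℂ) * (starRingEnd ℂ) (cj j n)) -
        ∑ j ∈ J, b j * ∫ θ in a..d, ∫ φ in θ..(θ + δ), Complex.exp (Complex.I * (j * φ)) := by
      rw [mul_sum, ← sum_sub_distrib]
      exact sum_congr rfl fun j _ => by ring
    rw [h1]
    ring
  have hF := cv_f hf (X := X) (δ := δ) hx1 hxy hxH hδ hδ1
  rw [← ha, ← hd] at hF
  have hj : ∀ j ∈ J, ‖b j * ((δ : ℂ) * ∑ n ∈ Ioc x (x + H), ((1 / (n : ℝ) : ℝ) : ℂ) * (starRingEnd ℂ) (cj j n) -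
      ∫ θ in a..d, ∫ φ in θ..(θ + δ), Complex.exp (Complex.I * (j * φ)))‖ ≤
      (Bb * X) * (δ * (H * (2 * T / (x : ℝ) ^ 2)) + 2 * δ ^ 2) := by
    intro j hjJ
    rw [norm_mul]
    refine mul_le_mul (hb j hjJ) ?_ (norm_nonneg _) (by positivity)
    have h1 := cv_sum hx1 hxy j
    rw [← ha, ← hd] at h1
    have h2 := cv_dbl hδ.le a d j
    have h3 : (δ : ℂ) * ∑ n ∈ Ioc x (x + H), ((1 / (n : ℝ) : ℝ) : ℂ) * (starRingEnd ℂ) (cj j n) -
        ∫ θ in a..d, ∫ φ in θ..(θ + δ), Complex.exp (Complex.I * (j * φ)) =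
        (δ : ℂ) * (∑ n ∈ Ioc x (x + H), ((1 / (n : ℝ) : ℝ) : ℂ) * (starRingEnd ℂ) (cj j n) -
          ∫ φ in a..d, Complex.exp (Complex.I * (j * φ))) +
        ((δ : ℂ) * (∫ φ in a..d, Complex.exp (Complex.I * (j * φ))) -
          ∫ θ in a..d, ∫ φ in θ..(θ + δ), Complex.exp (Complex.I * (j * φ))) := by ring
    rw [h3]
    refine (norm_add_le _ _).trans (add_le_add ?_ h2)
    rw [norm_mul, Complex.norm_real, Real.norm_of_nonneg hδ.le]
    refine mul_le_mul_of_nonneg_left (h1.trans ?_) hδ.le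
    have h4 : ((x + H : ℕ) : ℝ) - x = H := by push_cast; ring
    rw [h4]
    refine mul_le_mul_of_nonneg_left ?_ (Nat.cast_nonneg _)
    have h5 := hJ j hjJ
    exact div_le_div_of_nonneg_right (by linarith) (by positivity)
  have hsum : ‖((1 / (2 * Real.pi) : ℝ) : ℂ) * ∑ j ∈ J, b j *
        ((δ : ℂ) * ∑ n ∈ Ioc x (x + H), ((1 / (n : ℝ) : ℝ) : ℂ) * (starRingEnd ℂ) (cj j n) -
          ∫ θ in a..d, ∫ φ in θ..(θ + δ), Complex.exp (Complex.I * (j * φ)))‖ ≤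
      J.card * ((Bb * X) * (δ * (H * (2 * T / (x : ℝ) ^ 2)) + 2 * δ ^ 2)) := by
    rw [norm_mul]
    have h1 : ‖((1 / (2 * Real.pi) : ℝ) : ℂ)‖ ≤ 1 := by
      rw [Complex.norm_real, Real.norm_of_nonneg (by positivity)]
      have := Real.pi_gt_three
      rw [div_le_one (by positivity)]
      linarith
    have h2 := (norm_sum_le J fun j => b j *
        ((δ : ℂ) * ∑ n ∈ Ioc x (x + H), ((1 / (n : ℝ) : ℝ) : ℂ) * (starRingEnd ℂ) (cj j n) -
          ∫ θ in a..d, ∫ φ in θ..(θ + δ), Complex.exp (Complex.I * (j * φ)))).trans (sum_le_sum hj)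
    rw [sum_const, nsmul_eq_mul] at h2
    calc _ ≤ 1 * _ := mul_le_mul h1 h2 (norm_nonneg _) (by norm_num)
      _ = _ := one_mul _
  have hx2 : (X : ℝ) * (H * (2 * T / (x : ℝ) ^ 2)) ≤ 2 * E ^ 2 * (T * H / X) := by
    have h1 : (X : ℝ) ^ 2 ≤ (E * x) ^ 2 := pow_le_pow_left₀ hX0.le hxE 2
    have h2 : (X : ℝ) / (x : ℝ) ^ 2 ≤ E ^ 2 / X := by
      rw [div_le_div_iff₀ (by positivity) hX0]
      nlinarith
    have h3 : (X : ℝ) * (H * (2 * T / (x : ℝ) ^ 2)) = 2 * T * H * ((X : ℝ) / (x : ℝ) ^ 2) := by ring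
    have h4 : 2 * E ^ 2 * (T * H / X) = 2 * T * H * (E ^ 2 / X) := by ring
    rw [h3, h4]
    exact mul_le_mul_of_nonneg_left h2 (by positivity)
  have htot : ‖(δ : ℂ) * ∑ n ∈ Ioc x (x + H), (f n - mo b J X n) - ∫ θ in a..d, cvD f b J X δ θ‖ ≤
      δ * ((4 + 2 * E ^ 2) * (S + J.card * Bb) * (X * δ + T * H / X)) := by
    rw [hdiff]
    refine (norm_sub_le _ _).trans ((add_le_add hF hsum).trans ?_)
    have h1 : (J.card : ℝ) * ((Bb * X) * (δ * (H * (2 * T / (x : ℝ) ^ 2)) + 2 * δ ^ 2)) =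
        δ * (J.card * Bb * ((X : ℝ) * (H * (2 * T / (x : ℝ) ^ 2)) + 2 * (X * δ))) := by ring
    rw [h1]
    have h2 : δ * S * (4 * X * δ) = δ * (4 * S * (X * δ)) := by ring
    rw [h2, ← mul_add]
    refine mul_le_mul_of_nonneg_left ?_ hδ.le
    have hu : (0 : ℝ) ≤ X * δ := by positivity
    have hv : (0 : ℝ) ≤ T * H / X := by positivity
    have hm : (0 : ℝ) ≤ J.card * Bb := by positivity
    have h3 := mul_le_mul_of_nonneg_left hx2 hm
    have hE2 : 1 ≤ E ^ 2 := one_le_pow₀ hE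
    nlinarith [mul_nonneg hS hu, mul_nonneg hS hv, mul_nonneg hm hu, mul_nonneg hm hv,
      mul_nonneg (mul_nonneg hS hu) (by linarith : (0 : ℝ) ≤ E ^ 2 - 1),
      mul_nonneg (mul_nonneg hS hv) (by linarith : (0 : ℝ) ≤ E ^ 2 - 1),
      mul_nonneg (mul_nonneg hm hu) (by linarith : (0 : ℝ) ≤ E ^ 2 - 1)]
  have hfin : δ * ‖∑ n ∈ Ioc x (x + H), (f n - mo b J X n)‖ = ‖(δ : ℂ) * ∑ n ∈ Ioc x (x + H), (f n - mo b J X n)‖ := by
    rw [norm_mul, Complex.norm_real, Real.norm_of_nonneg hδ.le]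
  rw [hfin]
  have h6 := norm_sub_norm_le ((δ : ℂ) * ∑ n ∈ Ioc x (x + H), (f n - mo b J X n)) (∫ θ in a..d, cvD f b J X δ θ)
  have h7 : ‖∫ θ in a..d, cvD f b J X δ θ‖ ≤ ∫ θ in a..d, ‖cvD f b J X δ θ‖ :=
    intervalIntegral.norm_integral_le_integral_norm hab
  linarith

private theorem cvD_sq_ii (f : ℕ → ℂ) (b : ℤ → ℂ) (J : Finset ℤ) (X : ℕ) (δ a d : ℝ) :
    IntervalIntegrable (fun θ => ‖cvD f b J X δ θ‖ ^ 2) volume a d := by
  obtain ⟨M, hM⟩ := cvD_bd f b J X δ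
  refine ii_of_bd (M := M ^ 2) ((cvD_meas f b J X δ).norm.pow_const 2) (fun θ => ?_) a d
  rw [abs_of_nonneg (by positivity)]
  exact pow_le_pow_left₀ (norm_nonneg _) (hM θ) 2

/-- the square of one window -/
private theorem cv_win2 {f : ℕ → ℂ} {b : ℤ → ℂ} {J : Finset ℤ} {S Bb T δ : ℝ} {X H x : ℕ}
    (hX : 1 ≤ X) (hδ : 0 < δ) (hδ1 : δ ≤ 1) (hT : 1 ≤ T) (hBb : 0 ≤ Bb) (hf : ∀ n, ‖f n‖ ≤ S)
    (hJ : ∀ j ∈ J, |(j : ℝ)| ≤ T) (hb : ∀ j ∈ J, ‖b j‖ ≤ Bb * X) (hx : X0 X + 1 ≤ x) (hxH : x + H ≤ X) :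
    ‖∑ n ∈ Ioc x (x + H), (f n - mo b J X n)‖ ^ 2 ≤
      2 * Real.exp (2 * Real.pi) * (H / (X * δ ^ 2)) *
        (∫ θ in (Real.log x)..(Real.log ((x + H : ℕ) : ℝ)), ‖cvD f b J X δ θ‖ ^ 2) +
      2 * ((4 + 2 * Real.exp (2 * Real.pi) ^ 2) * (S + J.card * Bb) * (X * δ + T * H / X)) ^ 2 := by
  have h0 := cv_win hX hδ hδ1 hT hBb hf hJ hb hx hxH
  set K := (4 + 2 * Real.exp (2 * Real.pi) ^ 2) * (S + J.card * Bb) * (X * δ + T * H / X) with hK
  set E := Real.exp (2 * Real.pi) with hEd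
  have hX0 : (0 : ℝ) < X := by exact_mod_cast hX
  have hx0 : (0 : ℝ) < x := by exact_mod_cast (by omega : 0 < x)
  have hxE : (X : ℝ) ≤ E * x := by
    have h1 : (X : ℝ) * Real.exp (-(2 * Real.pi)) < (X0 X : ℝ) + 1 := Nat.lt_floor_add_one _
    have h2 : ((X0 X : ℝ) + 1) ≤ x := by exact_mod_cast hx
    have hE0 : 0 < E := Real.exp_pos _
    rw [Real.exp_neg, ← hEd] at h1
    have h3 : (X : ℝ) * E⁻¹ * E = X := by field_simp
    nlinarith
  have hxy : x ≤ x + H := by omega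
  have hab : Real.log x ≤ Real.log ((x + H : ℕ) : ℝ) := Real.log_le_log hx0 (by exact_mod_cast hxy)
  obtain ⟨M, hM⟩ := cvD_bd f b J X δ
  have hi1 : IntervalIntegrable (fun θ => ‖cvD f b J X δ θ‖) volume (Real.log x) (Real.log ((x + H : ℕ) : ℝ)) :=
    ii_of_bd (M := M) (cvD_meas f b J X δ).norm (fun θ => by rw [abs_of_nonneg (norm_nonneg _)]; exact hM θ) _ _
  have hcs := cv_cs hab hi1 (cvD_sq_ii f b J X δ _ _)
  set I1 := ∫ θ in (Real.log x)..(Real.log ((x + H : ℕ) : ℝ)), ‖cvD f b J X δ θ‖ with hI1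
  set I2 := ∫ θ in (Real.log x)..(Real.log ((x + H : ℕ) : ℝ)), ‖cvD f b J X δ θ‖ ^ 2 with hI2
  have hI20 : 0 ≤ I2 := intervalIntegral.integral_nonneg hab fun θ _ => sq_nonneg _
  have hI10 : 0 ≤ I1 := intervalIntegral.integral_nonneg hab fun θ _ => norm_nonneg _
  have hlen : Real.log ((x + H : ℕ) : ℝ) - Real.log x ≤ E * (H / X) := by
    have hxHp : (0 : ℝ) < ((x + H : ℕ) : ℝ) := by exact_mod_cast (by omega : 0 < x + H)
    have h1 : Real.log ((x + H : ℕ) : ℝ) - Real.log x = Real.log (((x + H : ℕ) : ℝ) / x) := by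
      rw [Real.log_div hxHp.ne' hx0.ne']
    rw [h1]
    have h2 := Real.log_le_sub_one_of_pos (x := ((x + H : ℕ) : ℝ) / x) (div_pos hxHp hx0)
    refine h2.trans ?_
    have h3 : ((x + H : ℕ) : ℝ) / x - 1 = H / x := by
      push_cast
      field_simp
      ring
    rw [h3, mul_div_assoc', div_le_div_iff₀ hx0 hX0]
    have hH : (0 : ℝ) ≤ H := Nat.cast_nonneg _
    nlinarith
  set W := ‖∑ n ∈ Ioc x (x + H), (f n - mo b J X n)‖ with hW
  have hW0 : 0 ≤ W := norm_nonneg _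
  have h2 : (δ * W) ^ 2 ≤ 2 * I1 ^ 2 + 2 * (δ * K) ^ 2 := by
    have h3 : (δ * W) ^ 2 ≤ (I1 + δ * K) ^ 2 := pow_le_pow_left₀ (by positivity) h0 2
    nlinarith [sq_nonneg (I1 - δ * K)]
  have h4 : I1 ^ 2 ≤ E * (H / X) * I2 := hcs.trans (mul_le_mul_of_nonneg_right hlen hI20)
  have h5 : δ ^ 2 * W ^ 2 ≤ δ ^ 2 * (2 * E * (H / (X * δ ^ 2)) * I2 + 2 * K ^ 2) := by
    have h6 : δ ^ 2 * (2 * E * (H / (X * δ ^ 2)) * I2 + 2 * K ^ 2) = 2 * (E * (H / X) * I2) + 2 * (δ * K) ^ 2 := by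
      field_simp
    rw [h6]
    have h7 : (δ * W) ^ 2 = δ ^ 2 * W ^ 2 := by ring
    linarith
  exact le_of_mul_le_mul_left h5 (by positivity)

/-- the windows cover the turn `H` times -/
private theorem cv_cover {g : ℝ → ℝ} (hg : ∀ θ, 0 ≤ g θ) (hi : ∀ a b : ℝ, IntervalIntegrable g volume a b)
    {X H : ℕ} (hX : 1 ≤ X) :
    ∑ x ∈ Icc (X0 X + 1) (X - H), (∫ θ in (Real.log x)..(Real.log ((x + H : ℕ) : ℝ)), g θ) ≤
      H * ∫ θ in (Real.log X - 2 * Real.pi)..(Real.log X), g θ := by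
  have hX' : (0 : ℝ) < X := by exact_mod_cast hX
  have hpi := Real.pi_pos
  have hI0 : 0 ≤ ∫ θ in (Real.log X - 2 * Real.pi)..(Real.log X), g θ :=
    intervalIntegral.integral_nonneg (by linarith) fun θ _ => hg θ
  by_cases hne : X0 X + 1 ≤ X - H
  swap
  · rw [Icc_eq_empty hne, sum_empty]
    positivity
  have h5 : ∀ n : ℕ, (∫ θ in (Real.log n)..(Real.log ((n + H : ℕ) : ℝ)), g θ) =
      ∑ i ∈ range H, ∫ θ in (Real.log ((n + i : ℕ) : ℝ))..(Real.log ((n + (i + 1) : ℕ) : ℝ)), g θ := by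
    intro n
    have h6 := intervalIntegral.sum_integral_adjacent_intervals (n := H) (a := fun i : ℕ => Real.log ((n + i : ℕ) : ℝ))
      (f := g) (μ := volume) fun i _ => hi _ _
    rw [h6]
    rw [Nat.add_zero]
  simp only [h5]
  rw [sum_comm]
  have h7 : ∀ i ∈ range H, ∑ n ∈ Icc (X0 X + 1) (X - H),
      (∫ θ in (Real.log ((n + i : ℕ) : ℝ))..(Real.log ((n + (i + 1) : ℕ) : ℝ)), g θ) ≤
      ∫ θ in (Real.log X - 2 * Real.pi)..(Real.log X), g θ := by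
    intro i hiH
    rw [mem_range] at hiH
    have h8 : Icc (X0 X + 1) (X - H) = Ico (X0 X + 1) (X - H + 1) := by
      ext n
      simp only [mem_Icc, mem_Ico]
      omega
    rw [h8]
    have h9 : ∑ n ∈ Ico (X0 X + 1) (X - H + 1),
        (∫ θ in (Real.log ((n + i : ℕ) : ℝ))..(Real.log ((n + (i + 1) : ℕ) : ℝ)), g θ) =
        ∫ θ in (Real.log ((X0 X + 1 + i : ℕ) : ℝ))..(Real.log ((X - H + 1 + i : ℕ) : ℝ)), g θ := by
      have h10 := intervalIntegral.sum_integral_adjacent_intervals_Ico (m := X0 X + 1) (n := X - H + 1)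
        (a := fun n : ℕ => Real.log ((n + i : ℕ) : ℝ)) (f := g) (μ := volume) (by omega)
        fun n _ => hi _ _
      rw [← h10]
      refine sum_congr rfl fun n _ => ?_
      rw [show n + (i + 1) = n + 1 + i by ring]
    rw [h9]
    refine intervalIntegral.integral_mono_interval ?_ ?_ ?_ ?_ (hi _ _)
    · have h1 : (X : ℝ) * Real.exp (-(2 * Real.pi)) < (X0 X : ℝ) + 1 := Nat.lt_floor_add_one _
      have h2 : Real.log ((X : ℝ) * Real.exp (-(2 * Real.pi))) = Real.log X - 2 * Real.pi := by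
        rw [Real.log_mul hX'.ne' (Real.exp_ne_zero _), Real.log_exp]
        ring
      rw [← h2]
      apply Real.log_le_log (by positivity)
      push_cast
      have h3 : (0 : ℝ) ≤ i := Nat.cast_nonneg _
      linarith
    · apply Real.log_le_log
      · exact_mod_cast (by omega : 0 < X0 X + 1 + i)
      · exact_mod_cast (by omega : X0 X + 1 + i ≤ X - H + 1 + i)
    · apply Real.log_le_log
      · exact_mod_cast (by omega : 0 < X - H + 1 + i)
      · exact_mod_cast (by omega : X - H + 1 + i ≤ X)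
    · exact Filter.Eventually.of_forall fun θ => hg θ
  refine (sum_le_sum h7).trans ?_
  rw [sum_const, card_range, nsmul_eq_mul]

private theorem cv_triv {f : ℕ → ℂ} {b : ℤ → ℂ} {J : Finset ℤ} {S Bb : ℝ} {X H : ℕ} (hX : 1 ≤ X)
    (hBb : 0 ≤ Bb) (hf : ∀ n, ‖f n‖ ≤ S) (hb : ∀ j ∈ J, ‖b j‖ ≤ Bb * X) (y : ℕ) :
    ‖∑ n ∈ Ioc (y - H) y, (f n - mo b J X n)‖ ^ 2 ≤ (H * (Real.exp (2 * Real.pi) * (S + J.card * Bb))) ^ 2 := by
  have hE : 1 ≤ Real.exp (2 * Real.pi) := Real.one_le_exp (by positivity)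
  set E := Real.exp (2 * Real.pi) with hEd
  have hX0 : (0 : ℝ) < X := by exact_mod_cast hX
  have hS : 0 ≤ S := (norm_nonneg _).trans (hf 0)
  have hm : (0 : ℝ) ≤ J.card * Bb := by positivity
  have hmo : ∀ n, ‖mo b J X n‖ ≤ E * (J.card * Bb) := by
    intro n
    unfold mo
    split_ifs with h
    · have hn : 1 ≤ n := by omega
      have hn0 : (0 : ℝ) < n := by exact_mod_cast hn
      have hxE : (X : ℝ) ≤ E * n := by
        have h1 : (X : ℝ) * Real.exp (-(2 * Real.pi)) < (X0 X : ℝ) + 1 := Nat.lt_floor_add_one _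
        have h2 : ((X0 X : ℝ) + 1) ≤ n := by exact_mod_cast h.1
        have hE0 : 0 < E := Real.exp_pos _
        rw [Real.exp_neg, ← hEd] at h1
        have h3 : (X : ℝ) * E⁻¹ * E = X := by field_simp
        nlinarith
      rw [norm_mul, Complex.norm_real, Real.norm_of_nonneg (by positivity)]
      have h4 : ‖∑ j ∈ J, b j * (starRingEnd ℂ) (cj j n)‖ ≤ J.card * (Bb * X) := by
        refine (norm_sum_le _ _).trans ?_
        have h5 : ∀ j ∈ J, ‖b j * (starRingEnd ℂ) (cj j n)‖ ≤ Bb * X := by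
          intro j hj
          rw [norm_mul, RCLike.norm_conj]
          have h6 : ‖cj j n‖ = 1 := by
            unfold cj
            rw [Complex.norm_exp_ofReal_mul_I]
          rw [h6, mul_one]
          exact hb j hj
        refine (sum_le_sum h5).trans ?_
        rw [sum_const, nsmul_eq_mul]
      have h7 : 1 / (2 * Real.pi * n) ≤ E / X := by
        have hpi := Real.pi_gt_three
        rw [div_le_div_iff₀ (by positivity) hX0]
        nlinarith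
      calc _ ≤ (E / X) * (J.card * (Bb * X)) := mul_le_mul h7 h4 (norm_nonneg _) (by positivity)
        _ = E * (J.card * Bb) := by field_simp
    · rw [norm_zero]; positivity
  have h1 : ‖∑ n ∈ Ioc (y - H) y, (f n - mo b J X n)‖ ≤ H * (E * (S + J.card * Bb)) := by
    refine (norm_sum_le _ _).trans ?_
    have h2 : ∀ n ∈ Ioc (y - H) y, ‖f n - mo b J X n‖ ≤ E * (S + J.card * Bb) := by
      intro n _
      refine (norm_sub_le _ _).trans ((add_le_add (hf n) (hmo n)).trans ?_)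
      nlinarith
    refine (sum_le_sum h2).trans ?_
    rw [sum_const, nsmul_eq_mul, Nat.card_Ioc]
    refine mul_le_mul_of_nonneg_right ?_ (by positivity)
    exact_mod_cast (by omega : y - (y - H) ≤ H)
  exact pow_le_pow_left₀ (norm_nonneg _) h1 2

private theorem cv_low {f : ℕ → ℂ} {b : ℤ → ℂ} {J : Finset ℤ} {X H : ℕ}
    (hf : ∀ n, f n ≠ 0 → X < 64 * n ∧ n ≤ X) {y : ℕ} (hy : y ≤ X0 X) :
    ∑ n ∈ Ioc (y - H) y, (f n - mo b J X n) = 0 := by
  refine sum_eq_zero fun n hn => ?_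
  rw [mem_Ioc] at hn
  have h1 : mo b J X n = 0 := by
    unfold mo
    rw [if_neg]
    rintro ⟨h, -⟩
    omega
  have h2 : f n = 0 := by
    by_contra h
    have h3 := (hf n h).1
    have h4 : (X0 X : ℝ) ≤ (X : ℝ) * Real.exp (-(2 * Real.pi)) := Nat.floor_le (by positivity)
    have h5 : (64 : ℝ) ≤ Real.exp (2 * Real.pi) := by
      have h6 : (2.7 : ℝ) ≤ Real.exp 1 := by have := Real.exp_one_gt_d9; linarith
      have h7 : Real.exp 6 ≤ Real.exp (2 * Real.pi) := by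
        apply Real.exp_le_exp.2
        have := Real.pi_gt_three
        linarith
      have h8 : Real.exp 6 = Real.exp 1 ^ 6 := by
        rw [← Real.exp_nat_mul]; norm_num
      have h9 : (2.7 : ℝ) ^ 6 ≤ Real.exp 1 ^ 6 := pow_le_pow_left₀ (by norm_num) h6 6
      have h10 : (64 : ℝ) ≤ 2.7 ^ 6 := by norm_num
      linarith
    have h11 : (X : ℝ) < 64 * n := by exact_mod_cast h3
    have h12 : (n : ℝ) ≤ X0 X := by exact_mod_cast (by omega : n ≤ X0 X)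
    have h13 : Real.exp (-(2 * Real.pi)) * Real.exp (2 * Real.pi) = 1 := by
      rw [← Real.exp_add]; simp
    have h14 : 0 < Real.exp (-(2 * Real.pi)) := Real.exp_pos _
    have h15 : 64 * Real.exp (-(2 * Real.pi)) ≤ 1 := by nlinarith
    have h16 : (0 : ℝ) ≤ X := Nat.cast_nonneg _
    nlinarith
  rw [h1, h2, sub_zero]

theorem conv : ∃ C : ℝ, 0 < C ∧ ∀ (X H t : ℕ) (f : ℕ → ℂ) (J : Finset ℤ) (S Bb T B : ℝ), 1 ≤ H → 1 ≤ t →
    1000 * (t * H) ≤ X → 1 ≤ S → 1 ≤ Bb → 1 ≤ T → (∀ n, f n ≠ 0 → X < 64 * n ∧ n ≤ X) → (∀ n, ‖f n‖ ≤ S) →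
    (∀ j ∈ J, |(j : ℝ)| ≤ T) → (∀ j ∈ J, ‖∑ n ∈ Icc 1 X, f n * cj j n‖ ≤ Bb * X) →
    (∀ J' : Finset ℤ, Disjoint J' J →
      ∑ j ∈ J', kap ((H : ℝ) / (t * X)) j * ‖∑ n ∈ Icc 1 X, f n * cj j n‖ ^ 2 ≤ B) →
      ∑ y ∈ range (X + H + 1), ‖∑ n ∈ Ioc (y - H) y,
        (f n - mo (fun j => ∑ l ∈ Icc 1 X, f l * cj j l) J X n)‖ ^ 2 ≤
          C * (t ^ 2 * X * B + X * ((S + J.card * Bb) * ((H : ℝ) / t + t + T * H / X)) ^ 2 +
            (H : ℝ) ^ 3 * (S + J.card * Bb) ^ 2) := by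
  have hE : 1 ≤ Real.exp (2 * Real.pi) := Real.one_le_exp (by positivity)
  set E := Real.exp (2 * Real.pi) with hEd
  refine ⟨2 * E + 2 * (4 + 2 * E ^ 2) ^ 2 + 2 * E ^ 2, by positivity, ?_⟩
  intro X H t f J S Bb T B hH ht hX hS hBb hT hf hfS hJ hb hB
  have hX1 : 1 ≤ X := by nlinarith
  have hHX : H ≤ X := by nlinarith
  have hX0 : (0 : ℝ) < X := by exact_mod_cast hX1
  have hH0 : (0 : ℝ) < H := by exact_mod_cast hH
  have ht0 : (0 : ℝ) < t := by exact_mod_cast ht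
  have hB0 : 0 ≤ B := by simpa using hB ∅ (disjoint_empty_left _)
  set δ : ℝ := (H : ℝ) / (t * X) with hδd
  have hδ : 0 < δ := by positivity
  have hδ1 : δ ≤ 1 := by
    rw [hδd, div_le_one (by positivity)]
    have h1 : (H : ℝ) ≤ X := by exact_mod_cast hHX
    have h2 : (1 : ℝ) ≤ t := by exact_mod_cast ht
    nlinarith
  have hpars := parsM hX1 f hf hδ hδ1 J hB
  set b : ℤ → ℂ := fun j => ∑ l ∈ Icc 1 X, f l * cj j l with hbd
  have hI : ∫ θ in (Real.log X - 2 * Real.pi)..(Real.log X), ‖cvD f b J X δ θ‖ ^ 2 ≤ B := hpars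
  have hXδ : (X : ℝ) * δ = H / t := by
    rw [hδd]; field_simp
  have hco : (H : ℝ) / (X * δ ^ 2) = t ^ 2 * X / H := by
    rw [hδd]; field_simp
  set Q := S + J.card * Bb with hQ
  have hQ0 : 0 ≤ Q := by positivity
  set K := (4 + 2 * E ^ 2) * Q * (X * δ + T * H / X) with hK
  set Tr := (H * (E * Q)) ^ 2 with hTr
  have hTr0 : 0 ≤ Tr := sq_nonneg _
  have hpt : ∀ y ∈ range (X + H + 1), ‖∑ n ∈ Ioc (y - H) y, (f n - mo b J X n)‖ ^ 2 ≤
      (if y ∈ Ioc X (X + H) then Tr else 0) + (if y ∈ Ioc (X0 X) (X0 X + H) then Tr else 0) +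
      (if y ∈ Ioc (X0 X + H) X then 2 * E * (t ^ 2 * X / H) *
        (∫ θ in (Real.log ((y - H : ℕ) : ℝ))..(Real.log ((y - H + H : ℕ) : ℝ)), ‖cvD f b J X δ θ‖ ^ 2) + 2 * K ^ 2 else 0) := by
    intro y hy
    rw [mem_range] at hy
    have htr := cv_triv (H := H) hX1 (by linarith) hfS hb y
    have hn1 : (0 : ℝ) ≤ if y ∈ Ioc X (X + H) then Tr else 0 := by split_ifs <;> first | exact hTr0 | exact le_rfl
    have hn2 : (0 : ℝ) ≤ if y ∈ Ioc (X0 X) (X0 X + H) then Tr else 0 := by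
      split_ifs <;> first | exact hTr0 | exact le_rfl
    have hn3 : (0 : ℝ) ≤ if y ∈ Ioc (X0 X + H) X then 2 * E * (t ^ 2 * X / H) *
        (∫ θ in (Real.log ((y - H : ℕ) : ℝ))..(Real.log ((y - H + H : ℕ) : ℝ)), ‖cvD f b J X δ θ‖ ^ 2) + 2 * K ^ 2 else 0 := by
      split_ifs with h
      · rw [mem_Ioc] at h
        have hnn : 0 ≤ ∫ θ in (Real.log ((y - H : ℕ) : ℝ))..(Real.log ((y - H + H : ℕ) : ℝ)), ‖cvD f b J X δ θ‖ ^ 2 := by
          refine intervalIntegral.integral_nonneg ?_ fun θ _ => sq_nonneg _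
          apply Real.log_le_log
          · exact_mod_cast (by omega : 0 < y - H)
          · exact_mod_cast (by omega : y - H ≤ y - H + H)
        positivity
      · exact le_rfl
    by_cases h1 : y ≤ X0 X
    · rw [cv_low hf h1]
      simp only [norm_zero]
      have : (0 : ℝ) ^ 2 = 0 := by norm_num
      rw [this]
      linarith
    by_cases h2 : y ≤ X0 X + H
    · have hm : y ∈ Ioc (X0 X) (X0 X + H) := mem_Ioc.2 ⟨by omega, h2⟩
      have e2 : (if y ∈ Ioc (X0 X) (X0 X + H) then Tr else 0) = Tr := if_pos hm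
      linarith
    by_cases h3 : y ≤ X
    · have hm : y ∈ Ioc (X0 X + H) X := mem_Ioc.2 ⟨by omega, h3⟩
      have hw := cv_win2 (f := f) (b := b) (J := J) (H := H) (x := y - H) hX1 hδ hδ1 hT (by linarith) hfS hJ hb (by omega) (by omega)
      have e1 : y - H + H = y := by omega
      rw [hco] at hw
      rw [e1] at hw
      rw [if_pos hm, e1]
      linarith
    · have hm : y ∈ Ioc X (X + H) := mem_Ioc.2 ⟨by omega, by omega⟩
      have e2 : (if y ∈ Ioc X (X + H) then Tr else 0) = Tr := if_pos hm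
      linarith
  refine (sum_le_sum hpt).trans ?_
  rw [sum_add_distrib, sum_add_distrib]
  have hs1 : ∑ y ∈ range (X + H + 1), (if y ∈ Ioc X (X + H) then Tr else 0) ≤ H * Tr := by
    rw [← sum_filter, sum_const, nsmul_eq_mul]
    refine mul_le_mul_of_nonneg_right ?_ hTr0
    have h1 : ((range (X + H + 1)).filter fun y => y ∈ Ioc X (X + H)).card ≤ (Ioc X (X + H)).card :=
      card_le_card fun y hy => (mem_filter.1 hy).2
    rw [Nat.card_Ioc] at h1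
    exact_mod_cast (by omega : _ ≤ H)
  have hs2 : ∑ y ∈ range (X + H + 1), (if y ∈ Ioc (X0 X) (X0 X + H) then Tr else 0) ≤ H * Tr := by
    rw [← sum_filter, sum_const, nsmul_eq_mul]
    refine mul_le_mul_of_nonneg_right ?_ hTr0
    have h1 : ((range (X + H + 1)).filter fun y => y ∈ Ioc (X0 X) (X0 X + H)).card ≤ (Ioc (X0 X) (X0 X + H)).card :=
      card_le_card fun y hy => (mem_filter.1 hy).2
    rw [Nat.card_Ioc] at h1
    exact_mod_cast (by omega : _ ≤ H)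
  have hs3 : ∑ y ∈ range (X + H + 1), (if y ∈ Ioc (X0 X + H) X then 2 * E * (t ^ 2 * X / H) *
        (∫ θ in (Real.log ((y - H : ℕ) : ℝ))..(Real.log ((y - H + H : ℕ) : ℝ)), ‖cvD f b J X δ θ‖ ^ 2) + 2 * K ^ 2 else 0) ≤
      2 * E * (t ^ 2 * X * B) + 2 * (X * K ^ 2) := by
    rw [← sum_filter]
    have h1 : (range (X + H + 1)).filter (fun y => y ∈ Ioc (X0 X + H) X) = (Icc (X0 X + 1) (X - H)).image (fun x => x + H) := by
      ext y
      simp only [mem_filter, mem_range, mem_Ioc, mem_image, mem_Icc]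
      constructor
      · rintro ⟨h2, h3, h4⟩
        exact ⟨y - H, ⟨by omega, by omega⟩, by omega⟩
      · rintro ⟨x, ⟨h2, h3⟩, rfl⟩
        omega
    rw [h1, sum_image (fun a _ b _ hab => by omega)]
    simp only [Nat.add_sub_cancel]
    rw [sum_add_distrib, ← mul_sum, sum_const, nsmul_eq_mul, Nat.card_Icc]
    have h2 := cv_cover (g := fun θ => ‖cvD f b J X δ θ‖ ^ 2) (H := H) (fun θ => sq_nonneg _) (cvD_sq_ii f b J X δ) hX1
    have h3 : 2 * E * (t ^ 2 * X / H) * (∑ x ∈ Icc (X0 X + 1) (X - H),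
        ∫ θ in (Real.log x)..(Real.log ((x + H : ℕ) : ℝ)), ‖cvD f b J X δ θ‖ ^ 2) ≤ 2 * E * (t ^ 2 * X / H) * (H * B) := by
      refine mul_le_mul_of_nonneg_left (h2.trans ?_) (by positivity)
      exact mul_le_mul_of_nonneg_left hI hH0.le
    have h4 : 2 * E * (t ^ 2 * X / H) * (H * B) = 2 * E * (t ^ 2 * X * B) := by
      field_simp
    have h5 : ((X - H + 1 - (X0 X + 1) : ℕ) : ℝ) ≤ X := by exact_mod_cast (by omega : X - H + 1 - (X0 X + 1) ≤ X)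
    have h6 : ((X - H + 1 - (X0 X + 1) : ℕ) : ℝ) * (2 * K ^ 2) ≤ X * (2 * K ^ 2) :=
      mul_le_mul_of_nonneg_right h5 (by positivity)
    linarith
  have hK2 : K ^ 2 ≤ (4 + 2 * E ^ 2) ^ 2 * (Q * ((H : ℝ) / t + t + T * H / X)) ^ 2 := by
    rw [← mul_pow]
    refine pow_le_pow_left₀ (by positivity) ?_ 2
    rw [hK, hXδ, mul_assoc]
    refine mul_le_mul_of_nonneg_left ?_ (by positivity)
    refine mul_le_mul_of_nonneg_left ?_ hQ0
    linarith
  have hTrE : (H : ℝ) * Tr = E ^ 2 * ((H : ℝ) ^ 3 * Q ^ 2) := by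
    rw [hTr]; ring
  set U := (Q * ((H : ℝ) / t + t + T * H / X)) ^ 2 with hU
  have hU0 : 0 ≤ U := sq_nonneg _
  have hV0 : 0 ≤ (t : ℝ) ^ 2 * X * B := by positivity
  have hW0 : 0 ≤ (H : ℝ) ^ 3 * Q ^ 2 := by positivity
  have hXU : (X : ℝ) * K ^ 2 ≤ (4 + 2 * E ^ 2) ^ 2 * (X * U) := by
    have := mul_le_mul_of_nonneg_left hK2 hX0.le
    linarith
  have hXU0 : 0 ≤ (X : ℝ) * U := by positivity
  have hE0 : 0 ≤ E := by linarith
  have c1 : 0 ≤ (4 + 2 * E ^ 2) ^ 2 := sq_nonneg _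
  have c2 : 0 ≤ E ^ 2 := sq_nonneg _
  have hexp : (2 * E + 2 * (4 + 2 * E ^ 2) ^ 2 + 2 * E ^ 2) * (t ^ 2 * X * B + X * U + (H : ℝ) ^ 3 * Q ^ 2) =
      2 * E * (t ^ 2 * X * B) + 2 * ((4 + 2 * E ^ 2) ^ 2 * (X * U)) + 2 * (E ^ 2 * ((H : ℝ) ^ 3 * Q ^ 2)) +
      (2 * E * (X * U) + 2 * E * ((H : ℝ) ^ 3 * Q ^ 2) + 2 * (4 + 2 * E ^ 2) ^ 2 * (t ^ 2 * X * B) +
        2 * (4 + 2 * E ^ 2) ^ 2 * ((H : ℝ) ^ 3 * Q ^ 2) + 2 * E ^ 2 * (t ^ 2 * X * B) + 2 * E ^ 2 * (X * U)) := by ring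
  rw [hexp]
  have hrest : 0 ≤ (2 * E * (X * U) + 2 * E * ((H : ℝ) ^ 3 * Q ^ 2) + 2 * (4 + 2 * E ^ 2) ^ 2 * (t ^ 2 * X * B) +
        2 * (4 + 2 * E ^ 2) ^ 2 * ((H : ℝ) ^ 3 * Q ^ 2) + 2 * E ^ 2 * (t ^ 2 * X * B) + 2 * E ^ 2 * (X * U)) := by positivity
  linarith

end Pool.Agent.Lib.G3
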