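import Pool.Agent.Lib.G3.Defs

/-!
# G3, row CV, first part: the model on one window

`δ ∑_{x < n ≤ y} n^(-1+ij)` is close to `∫_{log x}^{log y} ∫_θ^{θ+δ} e^{ijφ} dφ dθ`.
-/

set_option autoImplicit false

open Finset MeasureTheory

namespace Pool.Agent.Lib.G3

open Pool.Agent.Lib.MRT (cj kap)

theorem cv_exp (j : ℤ) (x : ℝ) : ‖Complex.exp (Complex.I * (j * x))‖ = 1 := by
  have h : Complex.I * ((j : ℂ) * (x : ℂ)) = (((j : ℝ) * x : ℝ) : ℂ) * Complex.I := by
    push_cast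
    ring
  rw [h, Complex.norm_exp_ofReal_mul_I]

theorem cv_cont (j : ℤ) : Continuous fun φ : ℝ => Complex.exp (Complex.I * (j * φ)) := by
  fun_prop

/-- the weight of a log-window -/
private noncomputable def wj (δ : ℝ) (j : ℤ) : ℂ := ∫ s in (0 : ℝ)..δ, Complex.exp (Complex.I * (j * s))

theorem cv_inner (δ θ : ℝ) (j : ℤ) :
    ∫ φ in θ..(θ + δ), Complex.exp (Complex.I * (j * φ)) =
      Complex.exp (Complex.I * (j * θ)) * ∫ s in (0 : ℝ)..δ, Complex.exp (Complex.I * (j * s)) := by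
  have h := intervalIntegral.integral_comp_add_left (a := (0 : ℝ)) (b := δ)
    (fun φ : ℝ => Complex.exp (Complex.I * (j * φ))) θ
  rw [add_zero] at h
  rw [← h, ← intervalIntegral.integral_const_mul]
  refine intervalIntegral.integral_congr fun s _ => ?_
  rw [← Complex.exp_add]
  congr 1
  push_cast
  ring

private theorem wj_sub {δ : ℝ} (hδ : 0 ≤ δ) (j : ℤ) : ‖wj δ j - δ‖ ≤ |(j : ℝ)| * δ ^ 2 := by
  have h1 : wj δ j - δ = ∫ s in (0 : ℝ)..δ, (Complex.exp (Complex.I * (j * s)) - 1) := by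
    rw [intervalIntegral.integral_sub ((cv_cont j).intervalIntegrable _ _) intervalIntegrable_const,
      intervalIntegral.integral_const, sub_zero]
    unfold wj
    simp
  rw [h1]
  have h2 := intervalIntegral.norm_integral_le_of_norm_le_const (a := (0 : ℝ)) (b := δ)
    (C := |(j : ℝ)| * δ) (f := fun s : ℝ => Complex.exp (Complex.I * (j * s)) - 1) (fun s hs => by
      rw [Set.uIoc_of_le hδ] at hs
      have h3 : Complex.I * ((j : ℂ) * (s : ℂ)) = Complex.I * (((j : ℝ) * s : ℝ) : ℂ) := by push_cast; ring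
      rw [h3]
      refine Real.norm_exp_I_mul_ofReal_sub_one_le.trans ?_
      rw [Real.norm_eq_abs, abs_mul, abs_of_pos hs.1]
      exact mul_le_mul_of_nonneg_left hs.2 (abs_nonneg _))
  rw [sub_zero, abs_of_nonneg hδ] at h2
  refine h2.trans (le_of_eq ?_)
  ring

private theorem ej_int (a b : ℝ) {j : ℤ} (hj : j ≠ 0) :
    ‖∫ θ in a..b, Complex.exp (Complex.I * (j * θ))‖ ≤ 2 / |(j : ℝ)| := by
  have hc : Complex.I * (j : ℂ) ≠ 0 := mul_ne_zero Complex.I_ne_zero (by exact_mod_cast hj)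
  have h4 : ∫ θ in a..b, Complex.exp (Complex.I * (j * θ)) =
      (Complex.exp (Complex.I * (j * b)) - Complex.exp (Complex.I * (j * a))) / (Complex.I * j) := by
    rw [← mul_assoc, ← mul_assoc, ← integral_exp_mul_complex hc]
    refine intervalIntegral.integral_congr fun s _ => ?_
    simp only [mul_assoc]
  rw [h4, norm_div, norm_mul, Complex.norm_I, one_mul, Complex.norm_intCast]
  refine div_le_div_of_nonneg_right ?_ (abs_nonneg _)
  refine (norm_sub_le _ _).trans ?_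
  rw [cv_exp, cv_exp]
  norm_num

theorem cv_dbl {δ : ℝ} (hδ : 0 ≤ δ) (a b : ℝ) (j : ℤ) :
    ‖(δ : ℂ) * (∫ θ in a..b, Complex.exp (Complex.I * (j * θ))) -
      ∫ θ in a..b, ∫ φ in θ..(θ + δ), Complex.exp (Complex.I * (j * φ))‖ ≤ 2 * δ ^ 2 := by
  have h1 : ∫ θ in a..b, ∫ φ in θ..(θ + δ), Complex.exp (Complex.I * (j * φ)) =
      (∫ θ in a..b, Complex.exp (Complex.I * (j * θ))) * wj δ j := by
    rw [← intervalIntegral.integral_mul_const]
    refine intervalIntegral.integral_congr fun θ _ => ?_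
    rw [cv_inner]
    rfl
  have h2 : (δ : ℂ) * (∫ θ in a..b, Complex.exp (Complex.I * (j * θ))) -
      (∫ θ in a..b, Complex.exp (Complex.I * (j * θ))) * wj δ j =
      -((∫ θ in a..b, Complex.exp (Complex.I * (j * θ))) * (wj δ j - δ)) := by ring
  rw [h1, h2, norm_neg, norm_mul]
  by_cases hj : j = 0
  · have h3 := wj_sub hδ j
    rw [hj] at h3 ⊢
    have h4 : ‖wj δ 0 - δ‖ = 0 := le_antisymm (by simpa using h3) (norm_nonneg _)
    rw [h4, mul_zero]
    positivity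
  · have h3 := wj_sub hδ j
    have h4 := ej_int a b hj
    have hj' : 0 < |(j : ℝ)| := abs_pos.2 (by exact_mod_cast hj)
    calc _ ≤ (2 / |(j : ℝ)|) * (|(j : ℝ)| * δ ^ 2) := mul_le_mul h4 h3 (norm_nonneg _) (by positivity)
      _ = 2 * δ ^ 2 := by field_simp

private theorem cv_one {n : ℕ} (hn : 1 ≤ n) (j : ℤ) :
    ‖((1 / ((n + 1 : ℕ) : ℝ) : ℝ) : ℂ) * (starRingEnd ℂ) (cj j (n + 1)) -
      ∫ φ in (Real.log n)..(Real.log ((n + 1 : ℕ) : ℝ)), Complex.exp (Complex.I * (j * φ))‖ ≤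
      (1 + |(j : ℝ)|) / (n : ℝ) ^ 2 := by
  have hn0 : (0 : ℝ) < n := by exact_mod_cast hn
  set b := Real.log ((n + 1 : ℕ) : ℝ) with hb
  set a := Real.log (n : ℝ) with ha
  have hab : a ≤ b := by
    apply Real.log_le_log hn0
    push_cast; linarith
  have hconj : (starRingEnd ℂ) (cj j (n + 1)) = Complex.exp (Complex.I * (j * b)) := by
    unfold cj
    rw [← Complex.exp_conj]
    congr 1
    rw [map_mul, Complex.conj_I, Complex.conj_ofReal, ← hb]
    push_cast
    ring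
  have hL : b - a ≤ 1 / n := by
    have h1 : b - a = Real.log (((n + 1 : ℕ) : ℝ) / n) := by
      rw [Real.log_div (by positivity) hn0.ne']
    rw [h1]
    have h2 := Real.log_le_sub_one_of_pos (x := ((n + 1 : ℕ) : ℝ) / n) (by positivity)
    refine h2.trans (le_of_eq ?_)
    push_cast
    field_simp
    ring
  have hL2 : 1 / ((n + 1 : ℕ) : ℝ) ≤ b - a := by
    have h1 : b - a = -Real.log ((n : ℝ) / ((n + 1 : ℕ) : ℝ)) := by
      rw [Real.log_div hn0.ne' (by positivity)]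
      ring
    have h2 := Real.log_le_sub_one_of_pos (x := (n : ℝ) / ((n + 1 : ℕ) : ℝ)) (by positivity)
    have h3 : (n : ℝ) / ((n + 1 : ℕ) : ℝ) - 1 = -(1 / ((n + 1 : ℕ) : ℝ)) := by
      push_cast
      field_simp
      ring
    rw [h3] at h2
    linarith
  have hsplit : ((1 / ((n + 1 : ℕ) : ℝ) : ℝ) : ℂ) * (starRingEnd ℂ) (cj j (n + 1)) -
      ∫ φ in a..b, Complex.exp (Complex.I * (j * φ)) =
      -((((b - a) - 1 / ((n + 1 : ℕ) : ℝ) : ℝ) : ℂ) * Complex.exp (Complex.I * (j * b))) -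
        ∫ φ in a..b, (Complex.exp (Complex.I * (j * φ)) - Complex.exp (Complex.I * (j * b))) := by
    rw [intervalIntegral.integral_sub ((cv_cont j).intervalIntegrable _ _) intervalIntegrable_const,
      intervalIntegral.integral_const, hconj, Complex.real_smul]
    push_cast
    ring
  rw [hsplit]
  refine (norm_sub_le _ _).trans ?_
  rw [norm_neg, norm_mul, cv_exp, mul_one, Complex.norm_real, Real.norm_of_nonneg (by linarith)]
  have h5 : ‖∫ φ in a..b, (Complex.exp (Complex.I * (j * φ)) - Complex.exp (Complex.I * (j * b)))‖ ≤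
      (|(j : ℝ)| * (b - a)) * |b - a| := by
    refine intervalIntegral.norm_integral_le_of_norm_le_const fun φ hφ => ?_
    rw [Set.uIoc_of_le hab] at hφ
    have h6 : Complex.exp (Complex.I * (j * φ)) - Complex.exp (Complex.I * (j * b)) =
        -(Complex.exp (Complex.I * (j * φ)) * (Complex.exp (Complex.I * (((j : ℝ) * (b - φ) : ℝ) : ℂ)) - 1)) := by
      rw [mul_sub, ← Complex.exp_add, mul_one, neg_sub]
      congr 3
      push_cast
      ring
    rw [h6, norm_neg, norm_mul, cv_exp, one_mul]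
    refine Real.norm_exp_I_mul_ofReal_sub_one_le.trans ?_
    rw [Real.norm_eq_abs, abs_mul, abs_of_nonneg (by linarith [hφ.2] : (0 : ℝ) ≤ b - φ)]
    exact mul_le_mul_of_nonneg_left (by linarith [hφ.1]) (abs_nonneg _)
  rw [abs_of_nonneg (by linarith : (0 : ℝ) ≤ b - a)] at h5
  have h7 : (b - a) ^ 2 ≤ 1 / (n : ℝ) ^ 2 := by
    rw [← one_div_pow]
    exact pow_le_pow_left₀ (by linarith) hL 2
  have h8 : (b - a) - 1 / ((n + 1 : ℕ) : ℝ) ≤ 1 / (n : ℝ) ^ 2 := by
    have h9 : 1 / (n : ℝ) - 1 / ((n + 1 : ℕ) : ℝ) ≤ 1 / (n : ℝ) ^ 2 := by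
      rw [div_sub_div _ _ hn0.ne' (by positivity), div_le_div_iff₀ (by positivity) (by positivity)]
      push_cast
      nlinarith
    linarith
  have h10 : (|(j : ℝ)| * (b - a)) * (b - a) ≤ |(j : ℝ)| * (1 / (n : ℝ) ^ 2) := by
    have := mul_le_mul_of_nonneg_left h7 (abs_nonneg (j : ℝ))
    nlinarith
  have h11 : (1 + |(j : ℝ)|) / (n : ℝ) ^ 2 = 1 / (n : ℝ) ^ 2 + |(j : ℝ)| * (1 / (n : ℝ) ^ 2) := by ring
  rw [h11]
  linarith

/-- sum and integral -/
theorem cv_sum {x y : ℕ} (hx : 1 ≤ x) (hxy : x ≤ y) (j : ℤ) :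
    ‖∑ n ∈ Ioc x y, ((1 / (n : ℝ) : ℝ) : ℂ) * (starRingEnd ℂ) (cj j n) -
      ∫ φ in (Real.log x)..(Real.log y), Complex.exp (Complex.I * (j * φ))‖ ≤
      ((y : ℝ) - x) * ((1 + |(j : ℝ)|) / (x : ℝ) ^ 2) := by
  have hx0 : (0 : ℝ) < x := by exact_mod_cast hx
  have h1 : ∫ φ in (Real.log x)..(Real.log y), Complex.exp (Complex.I * (j * φ)) =
      ∑ n ∈ Ico x y, ∫ φ in (Real.log n)..(Real.log ((n + 1 : ℕ) : ℝ)), Complex.exp (Complex.I * (j * φ)) := by
    have h := intervalIntegral.sum_integral_adjacent_intervals_Ico (m := x) (n := y)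
      (a := fun n : ℕ => Real.log (n : ℝ)) (f := fun φ : ℝ => Complex.exp (Complex.I * (j * φ)))
      (μ := volume) hxy fun n _ => (cv_cont j).intervalIntegrable _ _
    exact h.symm
  have h2 : ∑ n ∈ Ioc x y, ((1 / (n : ℝ) : ℝ) : ℂ) * (starRingEnd ℂ) (cj j n) =
      ∑ n ∈ Ico x y, ((1 / ((n + 1 : ℕ) : ℝ) : ℝ) : ℂ) * (starRingEnd ℂ) (cj j (n + 1)) := by
    have h3 : Ioc x y = (Ico x y).image (fun n => n + 1) := by
      ext m
      simp only [mem_Ioc, mem_image, mem_Ico]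
      constructor
      · rintro ⟨h4, h5⟩
        exact ⟨m - 1, ⟨by omega, by omega⟩, by omega⟩
      · rintro ⟨n, ⟨h4, h5⟩, rfl⟩
        omega
    rw [h3, sum_image (fun a _ b _ hab => by omega)]
  rw [h1, h2, ← sum_sub_distrib]
  refine (norm_sum_le _ _).trans ?_
  have h3 : ∀ n ∈ Ico x y, ‖((1 / ((n + 1 : ℕ) : ℝ) : ℝ) : ℂ) * (starRingEnd ℂ) (cj j (n + 1)) -
      ∫ φ in (Real.log n)..(Real.log ((n + 1 : ℕ) : ℝ)), Complex.exp (Complex.I * (j * φ))‖ ≤
      (1 + |(j : ℝ)|) / (x : ℝ) ^ 2 := by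
    intro n hn
    rw [mem_Ico] at hn
    refine (cv_one (by omega) j).trans ?_
    have h4 : (x : ℝ) ≤ n := by exact_mod_cast hn.1
    exact div_le_div_of_nonneg_left (by positivity) (by positivity) (pow_le_pow_left₀ hx0.le h4 2)
  refine (sum_le_sum h3).trans ?_
  rw [sum_const, nsmul_eq_mul, Nat.card_Ico, Nat.cast_sub hxy]

end Pool.Agent.Lib.G3
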