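import Pool.Agent.Lib.G3.ConvA

/-!
# G3, row CV, second part: the function on one window, the difference, the sum over the windows
-/

set_option autoImplicit false

open Finset MeasureTheory

namespace Pool.Agent.Lib.G3

open Pool.Agent.Lib.MRT (cj kap)

/-- the length `λ_m` -/
private noncomputable def cwl (a b δ l : ℝ) : ℝ := volume.real (Set.Icc a b ∩ Set.Ico (l - δ) l)

private theorem cwl_nonneg (a b δ l : ℝ) : 0 ≤ cwl a b δ l := measureReal_nonneg

private theorem cwl_le {a b δ l : ℝ} (hδ : 0 < δ) : cwl a b δ l ≤ δ := by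
  unfold cwl
  have h1 : volume.real (Set.Icc a b ∩ Set.Ico (l - δ) l) ≤ volume.real (Set.Ico (l - δ) l) :=
    measureReal_mono Set.inter_subset_right (by rw [Real.volume_Ico]; exact ENNReal.ofReal_ne_top)
  have h2 : volume.real (Set.Ico (l - δ) l) = δ := by
    rw [Real.volume_real_Ico_of_le (by linarith)]
    ring
  rw [h2] at h1
  exact h1

private theorem cwl_zero_left {a b δ l : ℝ} (h : l ≤ a) : cwl a b δ l = 0 := by
  unfold cwl
  have h1 : Set.Icc a b ∩ Set.Ico (l - δ) l = ∅ := by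
    ext x
    simp only [Set.mem_inter_iff, Set.mem_Icc, Set.mem_Ico, Set.mem_empty_iff_false, iff_false, not_and]
    intro h2 _
    linarith [h2.1]
  rw [h1, measureReal_empty]

private theorem cwl_zero_right {a b δ l : ℝ} (h : b < l - δ) : cwl a b δ l = 0 := by
  unfold cwl
  have h1 : Set.Icc a b ∩ Set.Ico (l - δ) l = ∅ := by
    ext x
    simp only [Set.mem_inter_iff, Set.mem_Icc, Set.mem_Ico, Set.mem_empty_iff_false, iff_false, not_and]
    intro h2 h3
    linarith [h2.2]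
  rw [h1, measureReal_empty]

private theorem cwl_full {a b δ l : ℝ} (hδ : 0 < δ) (h1 : a ≤ l - δ) (h2 : l ≤ b) : cwl a b δ l = δ := by
  unfold cwl
  have h3 : Set.Icc a b ∩ Set.Ico (l - δ) l = Set.Ico (l - δ) l := by
    apply Set.inter_eq_right.mpr
    intro x hx
    exact ⟨by linarith [hx.1], by linarith [hx.2]⟩
  rw [h3, Real.volume_real_Ico_of_le (by linarith)]
  ring

private theorem cw_int {a b δ l : ℝ} (hab : a ≤ b) (c : ℂ) :
    ∫ θ in a..b, (if θ < l ∧ l ≤ θ + δ then c else 0) = (cwl a b δ l : ℂ) * c := by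
  have h1 : ∀ θ : ℝ, (if θ < l ∧ l ≤ θ + δ then c else 0) = (Set.Ico (l - δ) l).indicator (fun _ => c) θ := by
    intro θ
    rw [Set.indicator_apply]
    have h2 : (θ < l ∧ l ≤ θ + δ) ↔ θ ∈ Set.Ico (l - δ) l := by
      rw [Set.mem_Ico]
      constructor
      · rintro ⟨h3, h4⟩
        exact ⟨by linarith, h3⟩
      · rintro ⟨h3, h4⟩
        exact ⟨h4, by linarith⟩
    simp only [h2]
  rw [intervalIntegral.integral_of_le hab, ← integral_Icc_eq_integral_Ioc]
  simp only [h1]
  rw [setIntegral_indicator measurableSet_Ico, setIntegral_const]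
  unfold cwl
  rw [Complex.real_smul]

private theorem cw_intble {a b δ l : ℝ} (c : ℂ) :
    IntervalIntegrable (fun θ : ℝ => (if θ < l ∧ l ≤ θ + δ then c else 0)) volume a b := by
  have h1 : (fun θ : ℝ => (if θ < l ∧ l ≤ θ + δ then c else 0)) = (Set.Ico (l - δ) l).indicator (fun _ => c) := by
    funext θ
    rw [Set.indicator_apply]
    have h2 : (θ < l ∧ l ≤ θ + δ) ↔ θ ∈ Set.Ico (l - δ) l := by
      rw [Set.mem_Ico]
      constructor
      · rintro ⟨h3, h4⟩
        exact ⟨by linarith, h3⟩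
      · rintro ⟨h3, h4⟩
        exact ⟨h4, by linarith⟩
    simp only [h2]
  rw [h1]
  have h3 : Integrable ((Set.Ico (l - δ) l).indicator (fun _ => c) : ℝ → ℂ) volume := by
    rw [integrable_indicator_iff measurableSet_Ico]
    exact integrableOn_const (by rw [Real.volume_Ico]; exact ENNReal.ofReal_ne_top)
  exact h3.intervalIntegrable

private theorem cw_exp {δ : ℝ} (hδ : 0 < δ) (hδ1 : δ ≤ 1) : Real.exp δ - 1 ≤ 2 * δ := by
  have h2 : Real.exp δ ≤ 1 + δ + δ ^ 2 := by
    have h3 := Real.abs_exp_sub_one_sub_id_le (x := δ) (by rw [abs_of_pos hδ]; exact hδ1)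
    have h4 := le_of_abs_le h3
    linarith
  nlinarith

/-- the `m` with `n < m < n e^δ` -/
private noncomputable def cwB (δ : ℝ) (n : ℕ) : Finset ℕ := Ioc n (n + ⌊(n : ℝ) * (2 * δ)⌋₊)

private theorem cwB_card {δ : ℝ} (hδ : 0 < δ) (n : ℕ) : ((cwB δ n).card : ℝ) ≤ n * (2 * δ) := by
  unfold cwB
  rw [Nat.card_Ioc, Nat.add_sub_cancel_left]
  exact Nat.floor_le (by positivity)

private theorem cwB_mem {δ : ℝ} (hδ : 0 < δ) (hδ1 : δ ≤ 1) {n m : ℕ} (hn : 1 ≤ n) (h1 : n < m)
    (h2 : Real.log m < Real.log n + δ) : m ∈ cwB δ n := by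
  unfold cwB
  rw [mem_Ioc]
  refine ⟨h1, ?_⟩
  have hn' : (0 : ℝ) < n := by exact_mod_cast hn
  have hm' : (0 : ℝ) < m := by exact_mod_cast (by omega : 0 < m)
  have h3 : (m : ℝ) < n * Real.exp δ := by
    rw [← Real.exp_log hm', ← Real.exp_log hn', ← Real.exp_add]
    exact Real.exp_lt_exp.mpr h2
  have h4 := cw_exp hδ hδ1
  have h5 : ((m - n : ℕ) : ℝ) ≤ n * (2 * δ) := by
    rw [Nat.cast_sub h1.le]
    nlinarith
  have h6 : m - n ≤ ⌊(n : ℝ) * (2 * δ)⌋₊ := Nat.le_floor h5
  omega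


/-- the sum of `f` over a log-window -/
noncomputable def cvF (f : ℕ → ℂ) (X : ℕ) (δ θ : ℝ) : ℂ :=
  ∑ n ∈ Icc 1 X, if θ < Real.log n ∧ Real.log n ≤ θ + δ then f n else 0

private theorem cw_GG {a b δ : ℝ} (hab : a ≤ b) (f : ℕ → ℂ) (X : ℕ) :
    ∫ θ in a..b, cvF f X δ θ = ∑ m ∈ Icc 1 X, (cwl a b δ (Real.log m) : ℂ) * f m := by
  unfold cvF
  rw [intervalIntegral.integral_finsetSum fun m _ => cw_intble (f m)]
  exact sum_congr rfl fun m _ => cw_int hab (f m)

theorem cvF_ii (f : ℕ → ℂ) (X : ℕ) (δ a b : ℝ) : IntervalIntegrable (cvF f X δ) volume a b := by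
  have h : cvF f X δ = ∑ n ∈ Icc 1 X, fun θ : ℝ => (if θ < Real.log n ∧ Real.log n ≤ θ + δ then f n else 0) := by
    funext θ
    rw [Finset.sum_apply]
    rfl
  rw [h]
  exact IntervalIntegrable.sum _ fun n _ => cw_intble (f n)

private theorem cw_term {f : ℕ → ℂ} {S : ℝ} (hf : ∀ n, ‖f n‖ ≤ S) {x y m : ℕ} {δ : ℝ} (hx : 1 ≤ x)
    (hxy : x ≤ y) (hδ : 0 < δ) (hδ1 : δ ≤ 1) (hm : 1 ≤ m) :
    ‖(if m ∈ Ioc x y then (δ : ℂ) * f m else 0) - (cwl (Real.log x) (Real.log y) δ (Real.log m) : ℂ) * f m‖ ≤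
      if m ∈ cwB δ x ∪ cwB δ y then δ * S else 0 := by
  have hx' : (0 : ℝ) < x := by exact_mod_cast hx
  have hm' : (0 : ℝ) < m := by exact_mod_cast hm
  set w := cwl (Real.log x) (Real.log y) δ (Real.log m) with hw
  have hw0 : 0 ≤ w := cwl_nonneg _ _ _ _
  have hw1 : w ≤ δ := cwl_le hδ
  have hfm := hf m
  have hS : 0 ≤ S := (norm_nonneg _).trans hfm
  have hz : (0 : ℝ) ≤ if m ∈ cwB δ x ∪ cwB δ y then δ * S else 0 := by
    split_ifs
    · positivity
    · exact le_rfl
  by_cases h1 : m ∈ Ioc x y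
  · rw [if_pos h1, ← sub_mul, norm_mul, ← Complex.ofReal_sub, Complex.norm_real, Real.norm_of_nonneg (by linarith)]
    rw [mem_Ioc] at h1
    by_cases h2 : Real.log m < Real.log x + δ
    · rw [if_pos (mem_union_left _ (cwB_mem hδ hδ1 hx h1.1 h2))]
      exact mul_le_mul (by linarith) hfm (norm_nonneg _) hδ.le
    · push Not at h2
      have h3 : Real.log m ≤ Real.log y := Real.log_le_log hm' (by exact_mod_cast h1.2)
      have h4 : w = δ := cwl_full hδ (by linarith) h3
      rw [h4, sub_self, zero_mul]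
      exact hz
  · rw [if_neg h1, zero_sub, norm_neg, norm_mul, Complex.norm_real, Real.norm_of_nonneg hw0]
    rw [mem_Ioc] at h1
    by_cases h2 : m ≤ x
    · have h3 : w = 0 := cwl_zero_left (Real.log_le_log hm' (by exact_mod_cast h2))
      rw [h3, zero_mul]
      exact hz
    · push Not at h2
      have h3 : y < m := by
        by_contra h4
        exact h1 ⟨h2, by omega⟩
      by_cases h4 : Real.log m < Real.log (y : ℝ) + δ
      · rw [if_pos (mem_union_right _ (cwB_mem hδ hδ1 (by omega) h3 h4))]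
        exact mul_le_mul hw1 hfm (norm_nonneg _) hδ.le
      · push Not at h4
        have h6 : w = 0 := by
          rcases h4.lt_or_eq with h5 | h5
          · exact cwl_zero_right (by linarith)
          · rw [hw]
            unfold cwl
            have h7 : Set.Icc (Real.log x) (Real.log y) ∩ Set.Ico (Real.log m - δ) (Real.log m) ⊆ {Real.log m - δ} := by
              intro t ht
              have h8 := ht.1.2
              have h9 := ht.2.1
              rw [Set.mem_singleton_iff]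
              linarith
            have h8 := measureReal_mono (μ := volume) h7 (by simp)
            have h9 : volume.real ({Real.log m - δ} : Set ℝ) = 0 := by simp [Measure.real]
            rw [h9] at h8
            exact le_antisymm h8 measureReal_nonneg
        rw [h6, zero_mul]
        exact hz

theorem cv_f {f : ℕ → ℂ} {S : ℝ} (hf : ∀ n, ‖f n‖ ≤ S) {X x y : ℕ} {δ : ℝ} (hx : 1 ≤ x) (hxy : x ≤ y)
    (hy : y ≤ X) (hδ : 0 < δ) (hδ1 : δ ≤ 1) :
    ‖(δ : ℂ) * ∑ m ∈ Ioc x y, f m - ∫ θ in (Real.log x)..(Real.log y), cvF f X δ θ‖ ≤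
      δ * S * (4 * X * δ) := by
  have hx' : (0 : ℝ) < x := by exact_mod_cast hx
  have hS : 0 ≤ S := (norm_nonneg _).trans (hf 0)
  have hab : Real.log x ≤ Real.log y := Real.log_le_log hx' (by exact_mod_cast hxy)
  have h1 : (δ : ℂ) * ∑ m ∈ Ioc x y, f m = ∑ m ∈ Icc 1 X, if m ∈ Ioc x y then (δ : ℂ) * f m else 0 := by
    rw [← sum_filter, mul_sum]
    apply sum_congr _ fun _ _ => rfl
    ext m
    simp only [mem_filter, mem_Ioc, mem_Icc]
    omega
  rw [h1, cw_GG hab, ← sum_sub_distrib]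
  refine (norm_sum_le _ _).trans ?_
  have h4 : ∑ m ∈ Icc 1 X, ‖(if m ∈ Ioc x y then (δ : ℂ) * f m else 0) -
      (cwl (Real.log x) (Real.log y) δ (Real.log m) : ℂ) * f m‖ ≤
      ∑ m ∈ Icc 1 X, if m ∈ cwB δ x ∪ cwB δ y then δ * S else 0 := by
    refine sum_le_sum fun m hm => ?_
    rw [mem_Icc] at hm
    exact cw_term hf hx hxy hδ hδ1 hm.1
  refine h4.trans ?_
  rw [← sum_filter, sum_const, nsmul_eq_mul]
  have h6 : ((Icc 1 X).filter fun m => m ∈ cwB δ x ∪ cwB δ y).card ≤ (cwB δ x).card + (cwB δ y).card :=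
    (card_le_card fun m hm => (mem_filter.mp hm).2).trans (card_union_le _ _)
  have h7 := cwB_card hδ x
  have h8 := cwB_card hδ y
  have h9 : (((Icc 1 X).filter fun m => m ∈ cwB δ x ∪ cwB δ y).card : ℝ) ≤
      (cwB δ x).card + (cwB δ y).card := by exact_mod_cast h6
  have h10 : (x : ℝ) ≤ X := by exact_mod_cast hxy.trans hy
  have h11 : (y : ℝ) ≤ X := by exact_mod_cast hy
  have h12 : (((Icc 1 X).filter fun m => m ∈ cwB δ x ∪ cwB δ y).card : ℝ) ≤ 4 * X * δ := by
    nlinarith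
  have h13 : 0 ≤ δ * S := by positivity
  nlinarith

end Pool.Agent.Lib.G3
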