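import Pool.Agent.Lib.G3.G5Defs

/-!
# G5, row DE, file Dec5.lean: one block `(Q, Q']`, all `r`

`Rt = Y / Q'`, `R_k = Rt / 2^(k+1)`: the blocks `(R_k, 2 R_k]` are disjoint, cover `(Rt / 2^K, Rt]` up to at most `K` integers `2 R_k + 1`.
(i) the weight of a pair is at most `log N`. (ii) a pair with `r` in a block and `N - p r > Z` has weight at least
`log R_k / log 2R_k * log Z`; all other pairs: `r ≤ Rt / 2^K`, `r = 2 R_k + 1`, `r > Rt` (then `r ≤ N / Q`), `N - Z ≤ p r < N`.
-/

set_option autoImplicit false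

open Finset

namespace Pool.Agent.Lib.G3

open Pool.Agent.Lib.MRT (cj kap)
open Pool.Agent.Lib.GT (e)

private theorem d5_pr {R r : ℕ} : r ∈ pr R ↔ (R < r ∧ r ≤ 2 * R) ∧ r.Prime := by
  unfold pr
  rw [mem_filter, mem_Ioc]

private theorem d5_pi {P P' p : ℕ} : p ∈ pi5 P P' ↔ (P < p ∧ p ≤ P') ∧ p.Prime := by
  unfold pi5
  rw [mem_filter, mem_Ioc]

/-- halving once more -/
private theorem d5_half (M k : ℕ) : M / 2 ^ (k + 1) = M / 2 ^ k / 2 := by
  rw [pow_succ, Nat.div_div_eq_div_mul]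

private theorem d5_anti (M : ℕ) {k l : ℕ} (h : k ≤ l) : M / 2 ^ l ≤ M / 2 ^ k :=
  Nat.div_le_div_left (Nat.pow_le_pow_right (by norm_num) h) (by positivity)

/-- the blocks are disjoint -/
private theorem d5_inj {M k l r : ℕ} (hk : M / 2 ^ (k + 1) < r ∧ r ≤ 2 * (M / 2 ^ (k + 1)))
    (hl : M / 2 ^ (l + 1) < r ∧ r ≤ 2 * (M / 2 ^ (l + 1))) : k = l := by
  have key : ∀ a b : ℕ, M / 2 ^ (a + 1) < r → r ≤ 2 * (M / 2 ^ (b + 1)) → ¬ a < b := by
    intro a b ha hb hab
    have h1 : M / 2 ^ b ≤ M / 2 ^ (a + 1) := d5_anti M hab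
    have h2 := d5_half M b
    omega
  have h1 := key k l hk.1 hl.2
  have h2 := key l k hl.1 hk.2
  omega

/-- the blocks cover almost everything -/
private theorem d5_cover (M K r : ℕ) (h1 : M / 2 ^ K < r) (h2 : r ≤ M) :
    ∃ k ∈ range K, (M / 2 ^ (k + 1) < r ∧ r ≤ 2 * (M / 2 ^ (k + 1))) ∨ r = 2 * (M / 2 ^ (k + 1)) + 1 := by
  induction K with
  | zero =>
    rw [pow_zero, Nat.div_one] at h1
    omega
  | succ K ih =>
    by_cases h3 : M / 2 ^ K < r
    · obtain ⟨k, hk, h⟩ := ih h3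
      exact ⟨k, mem_range.2 (by have := mem_range.1 hk; omega), h⟩
    · refine ⟨K, mem_range.2 (by omega), ?_⟩
      have h4 := d5_half M K
      omega

/-- the inner count of `T5` -/
private theorem d5_T5 (u v N : ℕ) :
    T5 u v N = ∑ p ∈ pi5 u v, ((range N).filter fun r => r.Prime ∧ (N - p * r).Prime).card := by
  classical
  unfold T5
  rw [Finset.card_filter, Finset.sum_product]
  exact sum_congr rfl fun p _ => (Finset.card_filter _ _).symm

private theorem d5_lp {n : ℕ} (h : n.Prime) : lp n = Real.log n := by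
  unfold lp
  rw [if_pos h]

private theorem d5_lp0 {n : ℕ} (h : ¬ n.Prime) : lp n = 0 := by
  unfold lp
  rw [if_neg h]

private theorem d5_lpn (n : ℕ) : 0 ≤ lp n := by
  unfold lp
  split_ifs
  · exact Real.log_natCast_nonneg n
  · exact le_rfl

/-- the weight of a pair is at most `log N` -/
private theorem d5_w_le {R N p r : ℕ} (hR : 2 ≤ R) (hr : r ∈ pr R) (hN : 1 ≤ N) :
    lp r / Real.log (2 * R : ℕ) * lp (N - p * r) ≤ Real.log N * (if (N - p * r).Prime then 1 else 0) := by
  rw [d5_pr] at hr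
  have hlog : 0 < Real.log (2 * R : ℕ) := Real.log_pos (by
    have : 1 < 2 * R := by omega
    exact_mod_cast this)
  have h1 : lp r / Real.log (2 * R : ℕ) ≤ 1 := by
    rw [div_le_one hlog, d5_lp hr.2]
    refine Real.log_le_log ?_ ?_
    · exact_mod_cast hr.2.pos
    · exact_mod_cast hr.1.2
  by_cases hp : (N - p * r).Prime
  · rw [if_pos hp, mul_one, d5_lp hp]
    have h2 : Real.log ((N - p * r : ℕ) : ℝ) ≤ Real.log N := by
      refine Real.log_le_log ?_ ?_
      · exact_mod_cast hp.pos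
      · exact_mod_cast Nat.sub_le _ _
    have h3 : 0 ≤ Real.log ((N - p * r : ℕ) : ℝ) := Real.log_natCast_nonneg _
    calc lp r / Real.log (2 * R : ℕ) * Real.log ((N - p * r : ℕ) : ℝ) ≤ 1 * Real.log ((N - p * r : ℕ) : ℝ) :=
          mul_le_mul_of_nonneg_right h1 h3
      _ ≤ Real.log N := by rw [one_mul]; exact h2
  · rw [if_neg hp, d5_lp0 hp]
    simp

/-- the weight of a good pair from below -/
private theorem d5_w_ge {R N Z p r : ℕ} (hR : 2 ≤ R) (hZ : 2 ≤ Z) (hr : r ∈ pr R) (hp : (N - p * r).Prime) (hZN : Z ≤ N - p * r) :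
    1 ≤ lp r / Real.log (2 * R : ℕ) * lp (N - p * r) * (Real.log (2 * R : ℕ) / (Real.log (R : ℕ) * Real.log Z)) := by
  rw [d5_pr] at hr
  have hlog2 : 0 < Real.log (2 * R : ℕ) := Real.log_pos (by
    have : 1 < 2 * R := by omega
    exact_mod_cast this)
  have hlog : 0 < Real.log (R : ℕ) := Real.log_pos (by
    have : 1 < R := by omega
    exact_mod_cast this)
  have hlogZ : 0 < Real.log (Z : ℕ) := Real.log_pos (by
    have : 1 < Z := by omega
    exact_mod_cast this)
  rw [d5_lp hr.2, d5_lp hp]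
  have h1 : Real.log (R : ℕ) ≤ Real.log r := by
    refine Real.log_le_log ?_ ?_
    · have : 0 < R := by omega
      exact_mod_cast this
    · exact_mod_cast hr.1.1.le
  have h2 : Real.log (Z : ℕ) ≤ Real.log ((N - p * r : ℕ) : ℝ) := by
    refine Real.log_le_log ?_ ?_
    · have : 0 < Z := by omega
      exact_mod_cast this
    · exact_mod_cast hZN
  have e : Real.log r / Real.log (2 * R : ℕ) * Real.log ((N - p * r : ℕ) : ℝ) *
      (Real.log (2 * R : ℕ) / (Real.log (R : ℕ) * Real.log Z)) =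
      (Real.log r * Real.log ((N - p * r : ℕ) : ℝ)) / (Real.log (R : ℕ) * Real.log Z) := by
    field_simp
  rw [e, one_le_div (by positivity)]
  exact mul_le_mul h1 h2 hlogZ.le (hlog.le.trans h1)

/-- the exceptional `r` for one `p` -/
private theorem d5_bad {Q p N Z : ℕ} (hQ : 1 ≤ Q) (hp : Q < p) :
    (Ioc ((N - Z) / p) ((N - 1) / p)).card ≤ Z / Q + 1 := by
  rw [Nat.card_Ioc]
  have hp0 : 0 < p := by omega
  have h1 : (N - 1) / p ≤ (N - Z + Z) / p := Nat.div_le_div_right (by omega)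
  have h2 : (N - Z + Z) / p ≤ (N - Z) / p + Z / p + 1 := by
    have a1 := Nat.div_add_mod (N - Z) p
    have a2 := Nat.div_add_mod Z p
    have a3 := Nat.mod_lt (N - Z) hp0
    have a4 := Nat.mod_lt Z hp0
    have a5 : N - Z + Z < p * ((N - Z) / p + Z / p + 2) := by
      calc N - Z + Z = (p * ((N - Z) / p) + (N - Z) % p) + (p * (Z / p) + Z % p) := by rw [a1, a2]
        _ < (p * ((N - Z) / p) + p) + (p * (Z / p) + p) := by omega
        _ = p * ((N - Z) / p + Z / p + 2) := by ring
    have a6 := (Nat.div_lt_iff_lt_mul hp0).2 (by rw [mul_comm] at a5; exact a5)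
    omega
  have h3 : Z / p ≤ Z / Q := Nat.div_le_div_left hp.le (by omega)
  calc (N - 1) / p - (N - Z) / p ≤ Z / p + 1 := by
        rw [Nat.sub_le_iff_le_add]
        calc (N - 1) / p ≤ (N - Z + Z) / p := h1
          _ ≤ (N - Z) / p + Z / p + 1 := h2
          _ = Z / p + 1 + (N - Z) / p := by ring
    _ ≤ Z / Q + 1 := Nat.add_le_add_right h3 1

theorem dec5 {Q Q' Y N K Z : ℕ} (hQ : 1 ≤ Q) (hQQ : Q ≤ Q') (hYN : Y < N) (hR : 2 ≤ Y / Q' / 2 ^ K) (hZ : 2 ≤ Z) :
    ∑ k ∈ range K, W5 Q Q' (Y / Q' / 2 ^ (k + 1)) N ≤ Real.log N * T5 Q Q' N ∧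
    (T5 Q Q' N : ℝ) ≤ ∑ k ∈ range K, W5 Q Q' (Y / Q' / 2 ^ (k + 1)) N *
        (Real.log (2 * (Y / Q' / 2 ^ (k + 1)) : ℕ) / (Real.log (Y / Q' / 2 ^ (k + 1) : ℕ) * Real.log Z)) +
      ((Q' - Q : ℕ) : ℝ) * ((Y / Q' / 2 ^ K + K + (N / Q - Y / Q') + Z / Q + 2 : ℕ) : ℝ) := by
  classical
  set M := Y / Q' with hM
  have hN1 : 1 ≤ N := by omega
  have hMY : M ≤ Y := Nat.div_le_self _ _
  have hRk : ∀ k ∈ range K, 2 ≤ M / 2 ^ (k + 1) := fun k hk => hR.trans (d5_anti M (mem_range.1 hk))
  have hlogN : 0 ≤ Real.log N := Real.log_natCast_nonneg N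
  constructor
  · -- (i)
    have h1 : ∀ p ∈ pi5 Q Q', ∑ k ∈ range K, ∑ r ∈ pr (M / 2 ^ (k + 1)), (if (N - p * r).Prime then (1 : ℝ) else 0) ≤
        (((range N).filter fun r => r.Prime ∧ (N - p * r).Prime).card : ℝ) := by
      intro p _
      have h2 : ∑ k ∈ range K, ∑ r ∈ pr (M / 2 ^ (k + 1)), (if (N - p * r).Prime then (1 : ℝ) else 0) =
          ∑ r ∈ (range K).biUnion fun k => pr (M / 2 ^ (k + 1)), (if (N - p * r).Prime then (1 : ℝ) else 0) := by
        refine (Finset.sum_biUnion ?_).symm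
        intro k _ l _ hkl
        rw [Function.onFun, Finset.disjoint_left]
        intro r hr hr'
        rw [d5_pr] at hr hr'
        exact hkl (d5_inj hr.1 hr'.1)
      rw [h2, Finset.sum_boole]
      norm_cast
      refine Finset.card_le_card fun r hr => ?_
      rw [mem_filter, mem_biUnion] at hr
      obtain ⟨⟨k, hk, hr1⟩, hr2⟩ := hr
      rw [d5_pr] at hr1
      rw [mem_filter, mem_range]
      refine ⟨?_, hr1.2, hr2⟩
      have h3 := d5_half M k
      have h4 : M / 2 ^ k ≤ M := Nat.div_le_self _ _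
      omega
    calc ∑ k ∈ range K, W5 Q Q' (M / 2 ^ (k + 1)) N
        ≤ ∑ k ∈ range K, ∑ p ∈ pi5 Q Q', ∑ r ∈ pr (M / 2 ^ (k + 1)), Real.log N * (if (N - p * r).Prime then (1 : ℝ) else 0) := by
          refine sum_le_sum fun k hk => ?_
          unfold W5
          exact sum_le_sum fun p _ => sum_le_sum fun r hr => d5_w_le (hRk k hk) hr hN1
      _ = Real.log N * ∑ p ∈ pi5 Q Q', ∑ k ∈ range K, ∑ r ∈ pr (M / 2 ^ (k + 1)), (if (N - p * r).Prime then (1 : ℝ) else 0) := by
          rw [Finset.sum_comm, Finset.mul_sum]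
          refine sum_congr rfl fun p _ => ?_
          rw [Finset.mul_sum]
          exact sum_congr rfl fun k _ => (Finset.mul_sum _ _ _).symm
      _ ≤ Real.log N * ∑ p ∈ pi5 Q Q', (((range N).filter fun r => r.Prime ∧ (N - p * r).Prime).card : ℝ) :=
          mul_le_mul_of_nonneg_left (sum_le_sum h1) hlogN
      _ = Real.log N * T5 Q Q' N := by
          rw [d5_T5]
          push_cast
          rfl
  · -- (ii)
    set c : ℕ → ℝ := fun k => Real.log (2 * (M / 2 ^ (k + 1)) : ℕ) / (Real.log (M / 2 ^ (k + 1) : ℕ) * Real.log Z) with hc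
    have hc0 : ∀ k, 0 ≤ c k := fun k => by
      rw [hc]
      exact div_nonneg (Real.log_natCast_nonneg _) (mul_nonneg (Real.log_natCast_nonneg _) (Real.log_natCast_nonneg _))
    have h1 : ∀ p ∈ pi5 Q Q', (((range N).filter fun r => r.Prime ∧ (N - p * r).Prime).card : ℝ) ≤
        ∑ k ∈ range K, ∑ r ∈ pr (M / 2 ^ (k + 1)), lp r / Real.log (2 * (M / 2 ^ (k + 1)) : ℕ) * lp (N - p * r) * c k +
          ((M / 2 ^ K + K + (N / Q - M) + Z / Q + 2 : ℕ) : ℝ) := by
      intro p hp
      rw [d5_pi] at hp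
      have hp0 : 0 < p := hp.2.pos
      set A : ℕ → Finset ℕ := fun k => (pr (M / 2 ^ (k + 1))).filter fun r => (N - p * r).Prime ∧ Z ≤ N - p * r with hA
      set B : Finset ℕ := Icc 1 (M / 2 ^ K) ∪ ((range K).image fun k => 2 * (M / 2 ^ (k + 1)) + 1) ∪
        (Ioc M (N / Q) ∪ Ioc ((N - Z) / p) ((N - 1) / p)) with hB
      have hsub : ((range N).filter fun r => r.Prime ∧ (N - p * r).Prime) ⊆ (range K).biUnion A ∪ B := by
        intro r hr
        rw [mem_filter, mem_range] at hr
        obtain ⟨_, hr1, hr2⟩ := hr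
        have hpos := hr2.pos
        have hprN : p * r < N := by omega
        have hpr0 : 0 < p * r := Nat.mul_pos hp0 hr1.pos
        rw [mem_union]
        by_cases hb1 : r ≤ M / 2 ^ K
        · right
          rw [hB, mem_union, mem_union, mem_Icc]
          exact Or.inl (Or.inl ⟨hr1.one_le, hb1⟩)
        by_cases hb2 : M < r
        · right
          rw [hB, mem_union, mem_union, mem_union, mem_Ioc]
          refine Or.inr (Or.inl ⟨hb2, ?_⟩)
          rw [Nat.le_div_iff_mul_le (by omega)]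
          calc r * Q ≤ r * p := Nat.mul_le_mul_left _ hp.1.1.le
            _ = p * r := mul_comm _ _
            _ ≤ N := hprN.le
        by_cases hb3 : Z ≤ N - p * r
        · obtain ⟨k, hk, h | h⟩ := d5_cover M K r (by omega) (by omega)
          · left
            rw [mem_biUnion]
            refine ⟨k, hk, ?_⟩
            rw [hA, mem_filter, d5_pr]
            exact ⟨⟨h, hr1⟩, hr2, hb3⟩
          · right
            rw [hB, mem_union, mem_union, mem_image]
            exact Or.inl (Or.inr ⟨k, hk, h.symm⟩)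
        · right
          rw [hB]
          refine mem_union_right _ (mem_union_right _ (mem_Ioc.2 ⟨?_, ?_⟩))
          · rw [Nat.div_lt_iff_lt_mul hp0, mul_comm]
            omega
          · rw [Nat.le_div_iff_mul_le hp0, mul_comm]
            omega
      have hBc : B.card ≤ M / 2 ^ K + K + (N / Q - M) + Z / Q + 2 := by
        have b1 : (Icc 1 (M / 2 ^ K)).card = M / 2 ^ K := by rw [Nat.card_Icc]; omega
        have b2 : ((range K).image fun k => 2 * (M / 2 ^ (k + 1)) + 1).card ≤ K := by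
          refine Finset.card_image_le.trans ?_
          rw [card_range]
        have b3 : (Ioc M (N / Q)).card = N / Q - M := Nat.card_Ioc _ _
        have b4 := d5_bad (N := N) (Z := Z) hQ hp.1.1
        have b5 := Finset.card_union_le (Icc 1 (M / 2 ^ K) ∪ ((range K).image fun k => 2 * (M / 2 ^ (k + 1)) + 1))
          (Ioc M (N / Q) ∪ Ioc ((N - Z) / p) ((N - 1) / p))
        have b6 := Finset.card_union_le (Icc 1 (M / 2 ^ K)) ((range K).image fun k => 2 * (M / 2 ^ (k + 1)) + 1)
        have b7 := Finset.card_union_le (Ioc M (N / Q)) (Ioc ((N - Z) / p) ((N - 1) / p))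
        rw [← hB] at b5
        omega
      have hAc : ∀ k ∈ range K, ((A k).card : ℝ) ≤
          ∑ r ∈ pr (M / 2 ^ (k + 1)), lp r / Real.log (2 * (M / 2 ^ (k + 1)) : ℕ) * lp (N - p * r) * c k := by
        intro k hk
        have a1 : ((A k).card : ℝ) = ∑ r ∈ A k, (1 : ℝ) := by simp
        rw [a1]
        calc ∑ r ∈ A k, (1 : ℝ) ≤ ∑ r ∈ A k, lp r / Real.log (2 * (M / 2 ^ (k + 1)) : ℕ) * lp (N - p * r) * c k := by
              refine sum_le_sum fun r hr => ?_
              rw [hA, mem_filter] at hr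
              exact d5_w_ge (hRk k hk) hZ hr.1 hr.2.1 hr.2.2
          _ ≤ _ := by
              refine sum_le_sum_of_subset_of_nonneg (filter_subset _ _) fun r _ _ => ?_
              exact mul_nonneg (mul_nonneg (div_nonneg (d5_lpn r) (Real.log_natCast_nonneg _)) (d5_lpn _)) (hc0 k)
      have hcard : ((range N).filter fun r => r.Prime ∧ (N - p * r).Prime).card ≤ ∑ k ∈ range K, (A k).card + B.card := by
        calc _ ≤ ((range K).biUnion A ∪ B).card := Finset.card_le_card hsub
          _ ≤ ((range K).biUnion A).card + B.card := Finset.card_union_le _ _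
          _ ≤ _ := Nat.add_le_add_right Finset.card_biUnion_le _
      calc (((range N).filter fun r => r.Prime ∧ (N - p * r).Prime).card : ℝ)
          ≤ ((∑ k ∈ range K, (A k).card + B.card : ℕ) : ℝ) := by exact_mod_cast hcard
        _ = ∑ k ∈ range K, ((A k).card : ℝ) + (B.card : ℝ) := by push_cast; rfl
        _ ≤ _ := add_le_add (sum_le_sum hAc) (by exact_mod_cast hBc)
    have hpi : ((pi5 Q Q').card : ℝ) ≤ ((Q' - Q : ℕ) : ℝ) := by
      have : (pi5 Q Q').card ≤ Q' - Q := by
        unfold pi5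
        refine (Finset.card_filter_le _ _).trans ?_
        rw [Nat.card_Ioc]
      exact_mod_cast this
    calc (T5 Q Q' N : ℝ) = ∑ p ∈ pi5 Q Q', (((range N).filter fun r => r.Prime ∧ (N - p * r).Prime).card : ℝ) := by
          rw [d5_T5]
          push_cast
          rfl
      _ ≤ ∑ p ∈ pi5 Q Q', (∑ k ∈ range K, ∑ r ∈ pr (M / 2 ^ (k + 1)),
            lp r / Real.log (2 * (M / 2 ^ (k + 1)) : ℕ) * lp (N - p * r) * c k +
              ((M / 2 ^ K + K + (N / Q - M) + Z / Q + 2 : ℕ) : ℝ)) := sum_le_sum h1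
      _ = ∑ k ∈ range K, W5 Q Q' (M / 2 ^ (k + 1)) N * c k +
            (pi5 Q Q').card * ((M / 2 ^ K + K + (N / Q - M) + Z / Q + 2 : ℕ) : ℝ) := by
          rw [sum_add_distrib, sum_const, nsmul_eq_mul]
          congr 1
          rw [Finset.sum_comm]
          refine sum_congr rfl fun k _ => ?_
          unfold W5
          rw [Finset.sum_mul]
          exact sum_congr rfl fun p _ => (Finset.sum_mul _ _ _).symm
      _ ≤ _ := by
          refine add_le_add le_rfl ?_
          exact mul_le_mul_of_nonneg_right hpi (Nat.cast_nonneg _)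

end Pool.Agent.Lib.G3
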