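import Pool.Agent.Lib.G3.G5Defs
import Pool.Agent.Lib.Sieve.Mertens3

/-!
# G5, row ME, file Mert5.lean (from `Pool.Agent.Lib.Sieve.mertens_three`)
-/

set_option autoImplicit false

open Finset

namespace Pool.Agent.Lib.G3

open Pool.Agent.Lib.MRT (cj kap)
open Pool.Agent.Lib.GT (e)

private theorem ME_fac {p : ℕ} (hp : p.Prime) : 0 < 1 - 1 / (p : ℝ) := by
  have h2 : (1 : ℝ) / p ≤ 1 / 2 := by
    apply one_div_le_one_div_of_le (by norm_num)
    exact_mod_cast hp.two_le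
  linarith

private theorem ME_prod (u v : ℕ) (huv : u ≤ v) :
    ∏ p ∈ (range (v + 1)).filter Nat.Prime, (1 - 1 / (p : ℝ)) =
      (∏ p ∈ (range (u + 1)).filter Nat.Prime, (1 - 1 / (p : ℝ))) * ∏ p ∈ pi5 u v, (1 - 1 / (p : ℝ)) := by
  have h1 : (range (v + 1)).filter Nat.Prime = (range (u + 1)).filter Nat.Prime ∪ pi5 u v := by
    ext p
    unfold pi5
    simp only [mem_union, mem_filter, mem_range, mem_Ioc]
    constructor
    · rintro ⟨a, b⟩
      by_cases h : p < u + 1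
      · exact Or.inl ⟨h, b⟩
      · exact Or.inr ⟨⟨by omega, by omega⟩, b⟩
    · rintro (⟨a, b⟩ | ⟨⟨a, a'⟩, b⟩)
      · exact ⟨by omega, b⟩
      · exact ⟨by omega, b⟩
  have h2 : Disjoint ((range (u + 1)).filter Nat.Prime) (pi5 u v) := by
    rw [Finset.disjoint_left]
    intro p hp hq
    unfold pi5 at hq
    rw [mem_filter, mem_range] at hp
    rw [mem_filter, mem_Ioc] at hq
    omega
  rw [h1, prod_union h2]

theorem mert5 (ε : ℝ) (hε : 0 < ε) : ∃ z0 : ℕ, ∀ u v : ℕ, z0 ≤ u → u ≤ v →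
    |∑ p ∈ pi5 u v, (1 : ℝ) / p - Real.log (Real.log v / Real.log u)| ≤ ε := by
  have hM := Pool.Agent.Lib.Sieve.Mertens3.mertens_three
  have hL := hM.log (Real.exp_pos _).ne'
  obtain ⟨z1, hz1⟩ := (Metric.tendsto_atTop.mp hL) (ε / 4) (by positivity)
  refine ⟨max z1 (⌈4 / ε⌉₊ + 3), fun u v hu huv => ?_⟩
  have hu1 : z1 ≤ u := (le_max_left _ _).trans hu
  have hu2 : ⌈4 / ε⌉₊ + 3 ≤ u := (le_max_right _ _).trans hu
  have hu3 : 3 ≤ u := by omega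
  have hur : (3 : ℝ) ≤ u := by exact_mod_cast hu3
  have hvr : (3 : ℝ) ≤ v := by exact_mod_cast hu3.trans huv
  have h4 : 4 / ε ≤ u := (Nat.le_ceil _).trans (by exact_mod_cast (by omega : ⌈4 / ε⌉₊ ≤ u))
  have hlu : 0 < Real.log u := Real.log_pos (by linarith)
  have hlv : 0 < Real.log v := Real.log_pos (by linarith)
  have hV : ∀ z : ℕ, 0 < ∏ p ∈ (range (z + 1)).filter Nat.Prime, (1 - 1 / (p : ℝ)) := fun z =>
    Finset.prod_pos fun p hp => ME_fac (Finset.mem_filter.mp hp).2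
  have hpi : ∀ p ∈ pi5 u v, u < p ∧ p ≤ v ∧ p.Prime := by
    intro p hp
    unfold pi5 at hp
    rw [mem_filter, mem_Ioc] at hp
    exact ⟨hp.1.1, hp.1.2, hp.2⟩
  have hP : 0 < ∏ p ∈ pi5 u v, (1 - 1 / (p : ℝ)) :=
    Finset.prod_pos fun p hp => ME_fac (hpi p hp).2.2
  have a1 := hz1 u hu1
  have a2 := hz1 v (hu1.trans huv)
  rw [Real.dist_eq, Real.log_mul hlu.ne' (hV u).ne', abs_lt] at a1
  rw [Real.dist_eq, Real.log_mul hlv.ne' (hV v).ne', ME_prod u v huv, Real.log_mul (hV u).ne' hP.ne',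
    Real.log_prod (fun p hp => (ME_fac (hpi p hp).2.2).ne'), abs_lt] at a2
  have b1 : ∑ p ∈ pi5 u v, (1 : ℝ) / p = -(∑ p ∈ pi5 u v, Real.log (1 - 1 / (p : ℝ))) -
      ∑ p ∈ pi5 u v, Pool.Agent.Lib.Sieve.Mertens3.rho (1 / (p : ℝ)) := by
    rw [← Finset.sum_neg_distrib, ← Finset.sum_sub_distrib]
    refine Finset.sum_congr rfl fun p _ => ?_
    unfold Pool.Agent.Lib.Sieve.Mertens3.rho
    ring
  have hinv : ∀ p ∈ pi5 u v, (0 : ℝ) ≤ 1 / p ∧ (1 : ℝ) / p ≤ 1 / 2 := by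
    intro p hp
    refine ⟨by positivity, ?_⟩
    apply one_div_le_one_div_of_le (by norm_num)
    exact_mod_cast (hpi p hp).2.2.two_le
  have b2 : 0 ≤ ∑ p ∈ pi5 u v, Pool.Agent.Lib.Sieve.Mertens3.rho (1 / (p : ℝ)) :=
    Finset.sum_nonneg fun p hp =>
      Pool.Agent.Lib.Sieve.Mertens3.rho_nonneg (hinv p hp).1 (hinv p hp).2
  have b3 : ∑ p ∈ pi5 u v, Pool.Agent.Lib.Sieve.Mertens3.rho (1 / (p : ℝ)) ≤ ε / 2 := by
    calc ∑ p ∈ pi5 u v, Pool.Agent.Lib.Sieve.Mertens3.rho (1 / (p : ℝ))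
        ≤ ∑ p ∈ pi5 u v, 2 * ((p : ℝ) ^ 2)⁻¹ := by
          refine Finset.sum_le_sum fun p hp => ?_
          refine (Pool.Agent.Lib.Sieve.Mertens3.rho_le (hinv p hp).1 (hinv p hp).2).trans (le_of_eq ?_)
          rw [div_pow, one_pow, one_div]
      _ ≤ ∑ n ∈ Ioc u v, 2 * ((n : ℝ) ^ 2)⁻¹ := by
          refine Finset.sum_le_sum_of_subset_of_nonneg (Finset.filter_subset _ _) fun n _ _ => ?_
          positivity
      _ = 2 * ∑ n ∈ Ioc u v, ((n : ℝ) ^ 2)⁻¹ := by rw [Finset.mul_sum]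
      _ ≤ 2 * ((u : ℝ)⁻¹ - (v : ℝ)⁻¹) :=
          mul_le_mul_of_nonneg_left (sum_Ioc_inv_sq_le_sub (by omega) huv) (by norm_num)
      _ ≤ 2 * (u : ℝ)⁻¹ := by
          have : (0 : ℝ) ≤ (v : ℝ)⁻¹ := by positivity
          linarith
      _ ≤ ε / 2 := by
          rw [div_le_iff₀ hε] at h4
          have hupos : (0 : ℝ) < u := by linarith
          rw [← div_eq_mul_inv, div_le_div_iff₀ hupos (by norm_num)]
          linarith
  rw [b1, Real.log_div hlv.ne' hlu.ne', abs_le]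
  constructor <;> linarith [a1.1, a1.2, a2.1, a2.2]

end Pool.Agent.Lib.G3
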