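import Pool.Agent.Lib.G3.G5Defs

/-!
# G5, row SQ, file Seq5.lean
-/

set_option autoImplicit false

open Finset

namespace Pool.Agent.Lib.G3

open Pool.Agent.Lib.MRT (cj kap)
open Pool.Agent.Lib.GT (e)


theorem qs_spec {G u v : ℕ} (huv : u ≤ v) (i : ℕ) : u ≤ qs G v u i ∧ qs G v u i ≤ qs G v u (i + 1) ∧ qs G v u i ≤ v ∧
    qs G v u (i + 1) ≤ qs G v u i + qs G v u i / G + 1 := by
  have h2 : ∀ i, qs G v u i ≤ v := by
    intro i
    cases i with
    | zero => simpa [qs] using huv
    | succ j => simp [qs]
  have hstep : ∀ i, qs G v u (i + 1) = min v (qs G v u i + qs G v u i / G + 1) := fun i => rfl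
  have hmono : ∀ i, qs G v u i ≤ qs G v u (i + 1) := by
    intro i
    rw [hstep]
    exact le_min (h2 i) (by rw [add_assoc]; exact Nat.le_add_right _ _)
  have h1 : ∀ i, u ≤ qs G v u i := by
    intro i
    induction i with
    | zero => simp [qs]
    | succ j ih => exact ih.trans (hmono j)
  exact ⟨h1 i, hmono i, h2 i, by rw [hstep]; exact min_le_right _ _⟩

private theorem SQ_step {G u v : ℕ} (huv : u ≤ v) (i j : ℕ) :
    min v (qs G v u i + j * (qs G v u i / G + 1)) ≤ qs G v u (i + j) := by
  induction j with
  | zero => simp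
  | succ j ih =>
    have hs : qs G v u (i + (j + 1)) = min v (qs G v u (i + j) + qs G v u (i + j) / G + 1) := rfl
    have hge : qs G v u i ≤ qs G v u (i + j) := by
      clear ih hs
      induction j with
      | zero => simp
      | succ j ih => exact ih.trans (qs_spec huv (i + j)).2.1
    have hd : qs G v u i / G ≤ qs G v u (i + j) / G := Nat.div_le_div_right hge
    rw [hs]
    have e : (j + 1) * (qs G v u i / G + 1) = j * (qs G v u i / G + 1) + (qs G v u i / G + 1) := by ring
    rw [e]
    clear hs e
    generalize qs G v u (i + j) / G = D at *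
    generalize qs G v u i / G = D0 at *
    generalize qs G v u (i + j) = Q at *
    generalize qs G v u i = Q0 at *
    generalize j * (D0 + 1) = J at *
    rcases le_total v (Q0 + J) with h | h
    · rw [min_eq_left h] at ih
      apply le_min (min_le_left _ _)
      refine (min_le_left _ _).trans ?_
      omega
    · rw [min_eq_right h] at ih
      apply le_min (min_le_left _ _)
      refine (min_le_right _ _).trans ?_
      omega

theorem qs_end {G u v m : ℕ} (hG : 1 ≤ G) (hu : 1 ≤ u) (huv : u ≤ v) (h : v ≤ u * 2 ^ m) : qs G v u (G * m) = v := by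
  have key : ∀ m, min v (u * 2 ^ m) ≤ qs G v u (G * m) := by
    intro m
    induction m with
    | zero => simp [qs]
    | succ m ih =>
      have h1 := SQ_step (G := G) huv (G * m) G
      have e : G * (m + 1) = G * m + G := by ring
      rw [e]
      refine le_trans ?_ h1
      apply le_min (min_le_left _ _)
      set a := qs G v u (G * m) with ha
      have h2 : a ≤ G * (a / G + 1) := by
        have h3 := Nat.div_add_mod a G
        have h4 := Nat.mod_lt a (show 0 < G by omega)
        nlinarith
      rcases le_total v (u * 2 ^ m) with h5 | h5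
      · rw [min_eq_left h5] at ih
        exact (min_le_left _ _).trans (by omega)
      · rw [min_eq_right h5] at ih
        refine (min_le_right _ _).trans ?_
        rw [pow_succ]
        nlinarith
  apply le_antisymm (qs_spec huv _).2.2.1
  have := key m
  rwa [min_eq_left h] at this

theorem pi5_add (q : ℕ → ℕ) (hq : Monotone q) (I : ℕ) (f : ℕ → ℝ) :
    ∑ p ∈ pi5 (q 0) (q I), f p = ∑ i ∈ range I, ∑ p ∈ pi5 (q i) (q (i + 1)), f p := by
  induction I with
  | zero => simp [pi5]
  | succ I ih =>
    rw [sum_range_succ, ← ih]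
    simp only [pi5, sum_filter]
    exact (Finset.sum_Ioc_consecutive (fun p => if p.Prime then f p else 0) (hq (Nat.zero_le I)) (hq (Nat.le_succ I))).symm

private theorem SQ_T5 (u v N : ℕ) : ((T5 u v N : ℕ) : ℝ) =
    ∑ p ∈ pi5 u v, (((range N).filter fun r => r.Prime ∧ (N - p * r).Prime).card : ℝ) := by
  unfold T5
  rw [← Nat.cast_sum]
  congr 1
  rw [Finset.card_filter, Finset.sum_product]
  apply Finset.sum_congr rfl
  intro p _
  rw [Finset.card_filter]

theorem T5_add (q : ℕ → ℕ) (hq : Monotone q) (I N : ℕ) : T5 (q 0) (q I) N = ∑ i ∈ range I, T5 (q i) (q (i + 1)) N := by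
  have h := pi5_add q hq I (fun p => (((range N).filter fun r => r.Prime ∧ (N - p * r).Prime).card : ℝ))
  rw [← SQ_T5] at h
  have h2 : ((T5 (q 0) (q I) N : ℕ) : ℝ) = ((∑ i ∈ range I, T5 (q i) (q (i + 1)) N : ℕ) : ℝ) := by
    rw [h, Nat.cast_sum]
    exact Finset.sum_congr rfl fun i _ => (SQ_T5 _ _ _).symm
  exact_mod_cast h2

end Pool.Agent.Lib.G3
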