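import Pool.Agent.Lib.G3.G5Defs
import Pool.Agent.Lib.G3.Seq5

/-!
# G5, row NU, file Num5.lean: the sum of the error terms

`q = qs i`, `q' = qs (i+1)`: `q' - q ≤ q/G + 1 ≤ 2q/L^6`, `∑ (q' - q)/q' ≤ log (v/u) ≤ cv log L ≤ L` (telescoping, `1 - q/q' ≤ log (q'/q)`),
`N/q - Y/q' ≤ (N - Y) + Y (q' - q)/(q q') + 1`, `∑ (q' - q) = v - u ≤ L^cv`.
-/

set_option autoImplicit false

open Finset

namespace Pool.Agent.Lib.G3

open Pool.Agent.Lib.MRT (cj kap)
open Pool.Agent.Lib.GT (e)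

/-- the inequalities needed for large `y` -/
private lemma num5_ev (cv : ℕ) : ∃ y0 : ℝ, ∀ y : ℝ, y0 ≤ y → 4 ≤ Real.log y ∧ 1 ≤ y ∧ 10 * (Real.log y) ^ (cv + 3) ≤ Real.sqrt y ∧
    2 * (cv * Real.log (Real.log y)) ≤ Real.log y := by
  have h1 : ∀ᶠ y : ℝ in Filter.atTop, 4 ≤ Real.log y := Real.tendsto_log_atTop.eventually_ge_atTop 4
  have h2 : ∀ᶠ y : ℝ in Filter.atTop, (1 : ℝ) ≤ y := Filter.eventually_ge_atTop 1
  have h3 : ∀ᶠ y : ℝ in Filter.atTop, ‖(Real.log y) ^ (2 * cv + 6)‖ ≤ (1 / 100) * ‖y‖ :=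
    (Real.isLittleO_pow_log_id_atTop (n := 2 * cv + 6)).bound (by norm_num)
  have h4 : ∀ᶠ y : ℝ in Filter.atTop, ‖(Real.log (Real.log y)) ^ 1‖ ≤ (1 / (2 * (cv + 1))) * ‖Real.log y‖ :=
    Real.tendsto_log_atTop.eventually ((Real.isLittleO_pow_log_id_atTop (n := 1)).bound (by positivity))
  obtain ⟨y0, h⟩ := Filter.eventually_atTop.mp (h1.and (h2.and (h3.and h4)))
  refine ⟨y0, fun y hy => ?_⟩
  obtain ⟨g1, g2, g3, g4⟩ := h y hy
  refine ⟨g1, g2, ?_, ?_⟩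
  · have hL : 0 ≤ Real.log y := by linarith
    rw [Real.norm_of_nonneg (by positivity), Real.norm_of_nonneg (by linarith)] at g3
    apply Real.le_sqrt_of_sq_le
    calc (10 * (Real.log y) ^ (cv + 3)) ^ 2 = 100 * (Real.log y) ^ (2 * cv + 6) := by ring
      _ ≤ y := by linarith
  · have hL : 0 ≤ Real.log y := by linarith
    have hLL : 0 ≤ Real.log (Real.log y) := Real.log_nonneg (by linarith)
    rw [pow_one, Real.norm_of_nonneg hLL, Real.norm_of_nonneg hL] at g4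
    have hc : (0 : ℝ) ≤ cv := Nat.cast_nonneg _
    have h5 : 2 * ((cv + 1) * Real.log (Real.log y)) ≤ Real.log y := by
      calc 2 * (((cv : ℝ) + 1) * Real.log (Real.log y)) ≤ 2 * (((cv : ℝ) + 1) * (1 / (2 * (cv + 1)) * Real.log y)) := by gcongr
        _ = Real.log y := by field_simp
    nlinarith

/-- bound of the natural number in one term -/
private lemma num5_nat (L : ℝ) (Y N K Z q q' : ℕ) (hL : 4 ≤ L) (hY : 1 ≤ Y) (hYN : Y < N) (hN : (N : ℝ) ≤ Y + Real.sqrt Y)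
    (hK : L ^ 6 ≤ (2 : ℝ) ^ K) (hK' : (K : ℝ) ≤ L) (hq : L ^ 7 ≤ q) (hqq : q ≤ q') (hqq' : ((q' - q : ℕ) : ℝ) ≤ 2 * q / L ^ 6)
    (hZ : (Z : ℝ) ≤ Y / L ^ 6) :
    ((Y / q' / 2 ^ K + K + (N / q - Y / q') + Z / q + 2 : ℕ) : ℝ) ≤ 4 * Y / (L ^ 6 * q) + (L + 3 + Real.sqrt Y) := by
  have hL6 : (0 : ℝ) < L ^ 6 := by positivity
  have hL7 : (1 : ℝ) ≤ L ^ 7 := one_le_pow₀ (by linarith)
  have hq0 : (0 : ℝ) < q := by linarith
  have hqq1 : (q : ℝ) ≤ q' := by exact_mod_cast hqq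
  have hq'0 : (0 : ℝ) < q' := by linarith
  have hY0 : (0 : ℝ) ≤ Y := Nat.cast_nonneg _
  have hs : 0 ≤ Real.sqrt Y := Real.sqrt_nonneg _
  -- first term
  have h1 : ((Y / q' / 2 ^ K : ℕ) : ℝ) ≤ Y / (L ^ 6 * q) := by
    calc ((Y / q' / 2 ^ K : ℕ) : ℝ) ≤ ((Y / q' : ℕ) : ℝ) / ((2 ^ K : ℕ) : ℝ) := Nat.cast_div_le
      _ ≤ (Y / q') / ((2 ^ K : ℕ) : ℝ) := by
          have := Nat.cast_div_le (α := ℝ) (m := Y) (n := q')
          gcongr
      _ = Y / (q' * (2 : ℝ) ^ K) := by push_cast; rw [div_div]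
      _ ≤ Y / (q * L ^ 6) := by gcongr
      _ = Y / (L ^ 6 * q) := by rw [mul_comm]
  have h4 : ((Z / q : ℕ) : ℝ) ≤ Y / (L ^ 6 * q) := by
    calc ((Z / q : ℕ) : ℝ) ≤ Z / q := Nat.cast_div_le
      _ ≤ (Y / L ^ 6) / q := by gcongr
      _ = Y / (L ^ 6 * q) := by rw [div_div]
  have h3 : ((N / q - Y / q' : ℕ) : ℝ) ≤ 2 * Y / (L ^ 6 * q) + Real.sqrt Y + 1 := by
    have hle : Y / q' ≤ N / q := by
      calc Y / q' ≤ Y / q := Nat.div_le_div_left hqq (by exact_mod_cast hq0)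
        _ ≤ N / q := Nat.div_le_div_right hYN.le
    rw [Nat.cast_sub hle]
    have a1 : ((N / q : ℕ) : ℝ) ≤ N / q := Nat.cast_div_le
    have a2 : (Y : ℝ) / q' - 1 ≤ ((Y / q' : ℕ) : ℝ) := by
      have := Nat.lt_div_mul_add (a := Y) (b := q') (by exact_mod_cast hq'0)
      have h' : (Y : ℝ) < ((Y / q' : ℕ) : ℝ) * q' + q' := by exact_mod_cast this
      rw [sub_le_iff_le_add, div_le_iff₀ hq'0]
      nlinarith
    have a3 : (N : ℝ) / q ≤ Y / q + Real.sqrt Y := by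
      have : Real.sqrt Y / q ≤ Real.sqrt Y := div_le_self hs (by linarith)
      calc (N : ℝ) / q ≤ (Y + Real.sqrt Y) / q := by gcongr
        _ = Y / q + Real.sqrt Y / q := by rw [add_div]
        _ ≤ _ := by linarith
    have a4 : (Y : ℝ) / q - Y / q' ≤ 2 * Y / (L ^ 6 * q) := by
      rw [Nat.cast_sub hqq] at hqq'
      have : (Y : ℝ) / q - Y / q' = Y * ((q' - q) / (q * q')) := by field_simp
      rw [this]
      calc (Y : ℝ) * ((q' - q) / (q * q')) ≤ Y * ((2 * q / L ^ 6) / (q * q)) := by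
            have : (0 : ℝ) ≤ q' - q := by linarith
            gcongr
        _ = 2 * Y / (L ^ 6 * q) := by field_simp
    linarith
  have h5 : 4 * (Y : ℝ) / (L ^ 6 * q) = Y / (L ^ 6 * q) + 2 * Y / (L ^ 6 * q) + Y / (L ^ 6 * q) := by ring
  push_cast [Nat.cast_add] at h1 h3 h4 ⊢
  rw [h5]
  linarith

theorem num5 (cv : ℕ) : ∃ y0 : ℝ, ∀ Y N G K I u v Z : ℕ, y0 ≤ Y → Y < N → (N : ℝ) ≤ Y + Real.sqrt Y → (Real.log Y) ^ 6 ≤ G →
    (Real.log Y) ^ 6 ≤ (2 : ℝ) ^ K → (K : ℝ) ≤ Real.log Y → (Real.log Y) ^ 7 ≤ u → u ≤ v → (v : ℝ) ≤ (Real.log Y) ^ cv →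
    (Z : ℝ) ≤ Y / (Real.log Y) ^ 6 →
      ∑ i ∈ range I, ((qs G v u (i + 1) - qs G v u i : ℕ) : ℝ) *
        ((Y / qs G v u (i + 1) / 2 ^ K + K + (N / qs G v u i - Y / qs G v u (i + 1)) + Z / qs G v u i + 2 : ℕ) : ℝ) ≤
          Y / (Real.log Y) ^ 3 := by
  obtain ⟨y0, hy0⟩ := num5_ev cv
  refine ⟨y0, fun Y N G K I u v Z hY hYN hN hG hK hK' hu huv hv hZ => ?_⟩
  obtain ⟨hL4, hY1, hs, hll⟩ := hy0 Y hY
  set L : ℝ := Real.log Y with hLdef
  have hL0 : 0 < L := by linarith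
  have hL6 : (0 : ℝ) < L ^ 6 := by positivity
  have hL7 : (1 : ℝ) ≤ L ^ 7 := one_le_pow₀ (by linarith)
  have hG0 : (0 : ℝ) < G := lt_of_lt_of_le hL6 hG
  have hY0 : (0 : ℝ) ≤ Y := Nat.cast_nonneg _
  have hu0 : (0 : ℝ) < u := by linarith
  -- facts about the ends
  have hq1 : ∀ i, (u : ℝ) ≤ qs G v u i := fun i => by exact_mod_cast (qs_spec (G := G) huv i).1
  have hqm : ∀ i, qs G v u i ≤ qs G v u (i + 1) := fun i => (qs_spec (G := G) huv i).2.1
  have hqv : ∀ i, (qs G v u i : ℝ) ≤ v := fun i => by exact_mod_cast (qs_spec (G := G) huv i).2.2.1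
  have hqd : ∀ i, ((qs G v u (i + 1) - qs G v u i : ℕ) : ℝ) ≤ 2 * qs G v u i / L ^ 6 := by
    intro i
    have h1 := (qs_spec (G := G) huv i).2.2.2
    have h2 : qs G v u (i + 1) - qs G v u i ≤ qs G v u i / G + 1 := by
      rw [Nat.sub_le_iff_le_add', ← Nat.add_assoc]; exact h1
    have h3 : ((qs G v u i / G : ℕ) : ℝ) ≤ qs G v u i / G := Nat.cast_div_le
    have h4 : (qs G v u i : ℝ) / G ≤ qs G v u i / L ^ 6 := by gcongr
    have h5 : (1 : ℝ) ≤ qs G v u i / L ^ 6 := by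
      rw [le_div_iff₀ hL6]
      calc 1 * L ^ 6 ≤ L * L ^ 6 := by gcongr; linarith
        _ = L ^ 7 := by ring
        _ ≤ u := hu
        _ ≤ _ := hq1 i
    calc ((qs G v u (i + 1) - qs G v u i : ℕ) : ℝ) ≤ ((qs G v u i / G + 1 : ℕ) : ℝ) := by exact_mod_cast h2
      _ = ((qs G v u i / G : ℕ) : ℝ) + 1 := by push_cast; rfl
      _ ≤ qs G v u i / L ^ 6 + qs G v u i / L ^ 6 := by linarith
      _ = 2 * qs G v u i / L ^ 6 := by ring
  -- one term
  have hterm : ∀ i, ((qs G v u (i + 1) - qs G v u i : ℕ) : ℝ) *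
        ((Y / qs G v u (i + 1) / 2 ^ K + K + (N / qs G v u i - Y / qs G v u (i + 1)) + Z / qs G v u i + 2 : ℕ) : ℝ) ≤
      (8 * Y / L ^ 6) * (Real.log (qs G v u (i + 1)) - Real.log (qs G v u i)) +
        (L + 3 + Real.sqrt Y) * ((qs G v u (i + 1) : ℝ) - qs G v u i) := by
    intro i
    have hb := num5_nat L Y N K Z (qs G v u i) (qs G v u (i + 1)) hL4 (by exact_mod_cast hY1) hYN hN hK hK'
      (hu.trans (hq1 i)) (hqm i) (hqd i) hZ
    have hq0 : (0 : ℝ) < qs G v u i := lt_of_lt_of_le hu0 (hq1 i)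
    have hq'0 : (0 : ℝ) < qs G v u (i + 1) := lt_of_lt_of_le hu0 (hq1 (i + 1))
    have hm : (qs G v u i : ℝ) ≤ qs G v u (i + 1) := by exact_mod_cast hqm i
    have hd := hqd i
    rw [Nat.cast_sub (hqm i)] at hd ⊢
    have hd0 : (0 : ℝ) ≤ (qs G v u (i + 1) : ℝ) - qs G v u i := by linarith
    -- q' ≤ 2 q
    have hL6' : (2 : ℝ) ≤ L ^ 6 := by
      calc (2 : ℝ) ≤ 4 ^ 6 := by norm_num
        _ ≤ L ^ 6 := by gcongr
    have h2q : (qs G v u (i + 1) : ℝ) ≤ 2 * qs G v u i := by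
      have : 2 * (qs G v u i : ℝ) / L ^ 6 ≤ qs G v u i := by
        rw [div_le_iff₀ hL6]; nlinarith
      linarith
    -- (q' - q)/q ≤ 2 (log q' - log q)
    have hlog : ((qs G v u (i + 1) : ℝ) - qs G v u i) / qs G v u i ≤ 2 * (Real.log (qs G v u (i + 1)) - Real.log (qs G v u i)) := by
      have h1 : 1 - ((qs G v u (i + 1) : ℝ) / qs G v u i)⁻¹ ≤ Real.log ((qs G v u (i + 1) : ℝ) / qs G v u i) :=
        Real.one_sub_inv_le_log_of_pos (by positivity)
      rw [Real.log_div hq'0.ne' hq0.ne', inv_div] at h1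
      have h2 : ((qs G v u (i + 1) : ℝ) - qs G v u i) / qs G v u i ≤ 2 * (1 - (qs G v u i : ℝ) / qs G v u (i + 1)) := by
        have : 1 - (qs G v u i : ℝ) / qs G v u (i + 1) = ((qs G v u (i + 1) : ℝ) - qs G v u i) / qs G v u (i + 1) := by
          field_simp
        rw [this, div_le_iff₀ hq0]
        have h3 : 2 * (((qs G v u (i + 1) : ℝ) - qs G v u i) / qs G v u (i + 1)) * qs G v u i =
          ((qs G v u (i + 1) : ℝ) - qs G v u i) * (2 * qs G v u i / qs G v u (i + 1)) := by ring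
        rw [h3]
        have h4 : (1 : ℝ) ≤ 2 * qs G v u i / qs G v u (i + 1) := by rw [le_div_iff₀ hq'0]; linarith
        nlinarith
      linarith
    calc ((qs G v u (i + 1) : ℝ) - qs G v u i) * _ ≤
          ((qs G v u (i + 1) : ℝ) - qs G v u i) * (4 * Y / (L ^ 6 * qs G v u i) + (L + 3 + Real.sqrt Y)) :=
          mul_le_mul_of_nonneg_left hb hd0
      _ = (4 * Y / L ^ 6) * (((qs G v u (i + 1) : ℝ) - qs G v u i) / qs G v u i) +
            (L + 3 + Real.sqrt Y) * ((qs G v u (i + 1) : ℝ) - qs G v u i) := by field_simp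
      _ ≤ (4 * Y / L ^ 6) * (2 * (Real.log (qs G v u (i + 1)) - Real.log (qs G v u i))) +
            (L + 3 + Real.sqrt Y) * ((qs G v u (i + 1) : ℝ) - qs G v u i) := by gcongr
      _ = _ := by ring
  calc _ ≤ ∑ i ∈ range I, ((8 * Y / L ^ 6) * (Real.log (qs G v u (i + 1)) - Real.log (qs G v u i)) +
        (L + 3 + Real.sqrt Y) * ((qs G v u (i + 1) : ℝ) - qs G v u i)) := Finset.sum_le_sum fun i _ => hterm i
    _ = (8 * Y / L ^ 6) * (Real.log (qs G v u I) - Real.log (qs G v u 0)) +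
        (L + 3 + Real.sqrt Y) * ((qs G v u I : ℝ) - qs G v u 0) := by
        rw [Finset.sum_add_distrib, ← Finset.mul_sum, ← Finset.mul_sum,
          Finset.sum_range_sub (fun i => Real.log (qs G v u i)), Finset.sum_range_sub (fun i => (qs G v u i : ℝ))]
    _ ≤ (8 * Y / L ^ 6) * (L / 2) + (L + 3 + Real.sqrt Y) * L ^ cv := by
        have h1 : Real.log (qs G v u I) ≤ cv * Real.log L := by
          calc Real.log (qs G v u I) ≤ Real.log (L ^ cv) :=
                Real.log_le_log (lt_of_lt_of_le hu0 (hq1 I)) ((hqv I).trans hv)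
            _ = cv * Real.log L := Real.log_pow _ _
        have h2 : 0 ≤ Real.log (qs G v u 0) := Real.log_nonneg (by linarith [hq1 0])
        have h3 : (qs G v u I : ℝ) - qs G v u 0 ≤ L ^ cv := by
          have := hqv I
          have h0 : (0 : ℝ) ≤ qs G v u 0 := Nat.cast_nonneg _
          linarith
        have h4 : Real.log (qs G v u I) - Real.log (qs G v u 0) ≤ L / 2 := by linarith
        have hs0 : 0 ≤ Real.sqrt Y := Real.sqrt_nonneg _
        gcongr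
    _ ≤ Y / L ^ 3 := by
        -- (L + 3 + √Y) L^cv ≤ (3 √Y) L^cv ≤ Y / (2 L^3)
        have hs0 : 0 ≤ Real.sqrt Y := Real.sqrt_nonneg _
        have hLs : L ≤ Real.sqrt Y := by
          have : L ≤ L ^ (cv + 3) := by
            calc L = L ^ 1 := (pow_one _).symm
              _ ≤ L ^ (cv + 3) := pow_le_pow_right₀ (by linarith) (by omega)
          nlinarith
        have hL3 : (0 : ℝ) < L ^ 3 := by positivity
        have e1 : (L + 3 + Real.sqrt Y) * L ^ cv ≤ Y / L ^ 3 / 2 := by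
          have : (L + 3 + Real.sqrt Y) ≤ 3 * Real.sqrt Y := by linarith
          calc (L + 3 + Real.sqrt Y) * L ^ cv ≤ (3 * Real.sqrt Y) * L ^ cv := by gcongr
            _ = (3 * Real.sqrt Y) * L ^ (cv + 3) / L ^ 3 := by rw [pow_add]; field_simp
            _ ≤ (3 * Real.sqrt Y) * (Real.sqrt Y / 10) / L ^ 3 := by
                gcongr; linarith
            _ = 3 / 10 * (Real.sqrt Y * Real.sqrt Y) / L ^ 3 := by ring
            _ = 3 / 10 * Y / L ^ 3 := by rw [Real.mul_self_sqrt hY0]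
            _ ≤ Y / L ^ 3 / 2 := by
                rw [div_div, div_le_div_iff₀ hL3 (by positivity)]
                nlinarith [mul_nonneg hY0 hL3.le]
        have e2 : (8 * Y / L ^ 6) * (L / 2) ≤ Y / L ^ 3 / 2 := by
          have : (8 * Y / L ^ 6) * (L / 2) = (Y / L ^ 3) * (4 / L ^ 2) := by field_simp; ring
          rw [this]
          have h42 : 4 / L ^ 2 ≤ 1 / 2 := by
            rw [div_le_div_iff₀ (by positivity) (by norm_num)]
            nlinarith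
          calc (Y / L ^ 3) * (4 / L ^ 2) ≤ (Y / L ^ 3) * (1 / 2) := by gcongr
            _ = _ := by ring
        linarith

end Pool.Agent.Lib.G3
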