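import Pool.Agent.Lib.G3.G5Defs
import Pool.Agent.Lib.SW.FW1

/-!
# G5, row SU, file Sum5.lean: the main term of one block `(Q, Q']` (prime number theorem `SW.FW1_theta`)
-/

set_option autoImplicit false

open Finset

namespace Pool.Agent.Lib.G3

open Pool.Agent.Lib.MRT (cj kap)
open Pool.Agent.Lib.GT (e)


theorem su_theta (R : ℕ) : ∑ r ∈ pr R, lp r = ∑ p ∈ (Icc 1 (2 * R)).filter Nat.Prime, Real.log p -
    ∑ p ∈ (Icc 1 R).filter Nat.Prime, Real.log p := by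
  have h1 : (Icc 1 (2 * R)).filter Nat.Prime = (Icc 1 R).filter Nat.Prime ∪ pr R := by
    ext p
    simp only [pr, mem_union, mem_filter, mem_Icc, mem_Ioc]
    constructor
    · rintro ⟨⟨h1, h2⟩, h3⟩
      by_cases h : p ≤ R
      · exact Or.inl ⟨⟨h1, h⟩, h3⟩
      · exact Or.inr ⟨⟨by omega, h2⟩, h3⟩
    · rintro (⟨⟨h1, h2⟩, h3⟩ | ⟨⟨h1, h2⟩, h3⟩)
      · exact ⟨⟨h1, by omega⟩, h3⟩
      · exact ⟨⟨by omega, h2⟩, h3⟩
  have h2 : Disjoint ((Icc 1 R).filter Nat.Prime) (pr R) := by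
    rw [disjoint_left]
    intro p hp hp'
    simp only [pr, mem_filter, mem_Icc, mem_Ioc] at hp hp'
    omega
  rw [h1, sum_union h2, add_sub_cancel_left]
  refine sum_congr rfl fun r hr => ?_
  unfold lp
  rw [if_pos (mem_filter.1 hr).2]

theorem su_S5 (Q Q' R : ℕ) : S5 Q Q' R = ((pi5 Q Q').card : ℝ) * ((∑ r ∈ pr R, lp r) / Real.log (2 * R : ℕ)) := by
  unfold S5
  rw [sum_const, nsmul_eq_mul, sum_div]

theorem su_block {δ L : ℝ} {X₀ R : ℕ} (hδ : 0 < δ) (hδ1 : δ ≤ 1 / 10) (hL : 0 < L)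
    (hX : ∀ x : ℕ, X₀ ≤ x → |∑ p ∈ (Icc 1 x).filter Nat.Prime, Real.log p - x| ≤ δ * x) (hR : X₀ ≤ R)
    (h1 : (1 - δ) * L ≤ Real.log (2 * R : ℕ)) (h2 : Real.log (2 * R : ℕ) ≤ L) :
    (1 - 3 * δ) / L * R ≤ (∑ r ∈ pr R, lp r) / Real.log (2 * R : ℕ) ∧
      (∑ r ∈ pr R, lp r) / Real.log (2 * R : ℕ) ≤ (1 + 3 * δ) / ((1 - δ) * L) * R := by
  have hR0 : (0 : ℝ) ≤ R := Nat.cast_nonneg R
  have a1 := abs_le.1 (hX R hR)
  have a2 := abs_le.1 (hX (2 * R) (by omega))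
  have hlow : (1 - 3 * δ) * R ≤ ∑ r ∈ pr R, lp r := by
    rw [su_theta]
    have e : ((2 * R : ℕ) : ℝ) = 2 * R := by push_cast; ring
    rw [e] at a2
    linarith [a1.2, a2.1]
  have hup : ∑ r ∈ pr R, lp r ≤ (1 + 3 * δ) * R := by
    rw [su_theta]
    have e : ((2 * R : ℕ) : ℝ) = 2 * R := by push_cast; ring
    rw [e] at a2
    linarith [a1.1, a2.2]
  have hl0 : 0 < (1 - δ) * L := mul_pos (by linarith) hL
  have hl : 0 < Real.log (2 * R : ℕ) := lt_of_lt_of_le hl0 h1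
  have hlow0 : 0 ≤ (1 - 3 * δ) * R := mul_nonneg (by linarith) hR0
  constructor
  · rw [div_mul_eq_mul_div, div_le_div_iff₀ hL hl]
    calc (1 - 3 * δ) * R * Real.log (2 * R : ℕ) ≤ (1 - 3 * δ) * R * L := mul_le_mul_of_nonneg_left h2 hlow0
      _ ≤ (∑ r ∈ pr R, lp r) * L := mul_le_mul_of_nonneg_right hlow hL.le
  · rw [div_mul_eq_mul_div, div_le_div_iff₀ hl hl0]
    have h3 : 0 ≤ (1 + 3 * δ) * (R : ℝ) := mul_nonneg (by linarith) hR0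
    calc (∑ r ∈ pr R, lp r) * ((1 - δ) * L) ≤ (1 + 3 * δ) * R * ((1 - δ) * L) :=
          mul_le_mul_of_nonneg_right hup hl0.le
      _ ≤ (1 + 3 * δ) * R * Real.log (2 * R : ℕ) := mul_le_mul_of_nonneg_left h1 h3

theorem su_geom (K : ℕ) : ∑ k ∈ range K, (1 : ℝ) / 2 ^ (k + 1) = 1 - 1 / 2 ^ K := by
  induction K with
  | zero => simp
  | succ K ih =>
    rw [sum_range_succ, ih, pow_succ]
    field_simp
    ring

theorem su_pow (m : ℕ) {δ : ℝ} (hδ : 0 < δ) : ∃ y0 : ℝ, ∀ Y : ℕ, y0 ≤ Y → (Real.log Y) ^ m ≤ (Y : ℝ) ^ δ := by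
  have h := (isLittleO_log_rpow_atTop (show (0 : ℝ) < δ / (m + 1) by positivity)).bound (c := 1) one_pos
  obtain ⟨x1, hx1⟩ := Filter.eventually_atTop.1 h
  refine ⟨max x1 1, fun X hX => ?_⟩
  have h1 := hx1 X ((le_max_left _ _).trans hX)
  have hX1 : (1 : ℝ) ≤ X := (le_max_right _ _).trans hX
  have hl : 0 ≤ Real.log X := Real.log_nonneg hX1
  rw [one_mul, Real.norm_of_nonneg hl, Real.norm_of_nonneg (by positivity)] at h1
  calc (Real.log X) ^ m ≤ ((X : ℝ) ^ (δ / ((m : ℝ) + 1))) ^ m := pow_le_pow_left₀ hl h1 m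
    _ = (X : ℝ) ^ ((δ / ((m : ℝ) + 1)) * m) := by
        rw [Real.rpow_mul (by positivity), Real.rpow_natCast]
    _ ≤ (X : ℝ) ^ δ := by
        refine Real.rpow_le_rpow_of_exponent_le hX1 ?_
        rw [div_mul_eq_mul_div, div_le_iff₀ (by positivity)]
        nlinarith

theorem sum5 (cv : ℕ) (ε : ℝ) (hε : 0 < ε) : ∃ y0 : ℝ, ∀ Y Q Q' K : ℕ, y0 ≤ Y → (Real.log Y) ^ 7 ≤ Q → Q ≤ Q' →
    (Q' : ℝ) ≤ (Real.log Y) ^ cv → (Q' : ℝ) ≤ Q * (1 + 2 / (Real.log Y) ^ 6) → (Real.log Y) ^ 6 ≤ (2 : ℝ) ^ K →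
    (2 : ℝ) ^ K ≤ (Real.log Y) ^ 7 →
      (1 - ε) * (Y / Real.log Y) * ∑ p ∈ pi5 Q Q', (1 : ℝ) / p ≤ ∑ k ∈ range K, S5 Q Q' (Y / Q' / 2 ^ (k + 1)) ∧
      ∑ k ∈ range K, S5 Q Q' (Y / Q' / 2 ^ (k + 1)) ≤ (1 + ε) * (Y / Real.log Y) * ∑ p ∈ pi5 Q Q', (1 : ℝ) / p := by
  obtain ⟨ε', hε'⟩ : ∃ ε', ε' = min ε 1 := ⟨_, rfl⟩
  have hε0 : 0 < ε' := by rw [hε']; exact lt_min hε one_pos
  have hε1 : ε' ≤ 1 := by rw [hε']; exact min_le_right _ _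
  have hεε : ε' ≤ ε := by rw [hε']; exact min_le_left _ _
  obtain ⟨δ, hδd⟩ : ∃ δ, δ = ε' / 10 := ⟨_, rfl⟩
  have hδ : 0 < δ := by rw [hδd]; positivity
  have hδ1 : δ ≤ 1 / 10 := by rw [hδd]; linarith
  obtain ⟨X₀, hX₀⟩ := SW.FW1_theta δ hδ
  obtain ⟨y1, hy1⟩ := su_pow (cv + 8) hδ
  refine ⟨max (max y1 (((X₀ : ℝ) + 1) ^ 2)) (Real.exp (max (2 / δ) 10)), ?_⟩
  intro Y Q Q' K hY hQ hQQ hQ'1 hQ'2 hK1 hK2
  simp only [max_le_iff] at hY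
  obtain ⟨⟨hYa, hYb⟩, hYc⟩ := hY
  have hY0 : (0 : ℝ) < Y := lt_of_lt_of_le (Real.exp_pos _) hYc
  have hLc : max (2 / δ) 10 ≤ Real.log Y := by rw [Real.le_log_iff_exp_le hY0]; exact hYc
  have hpow := hy1 Y hYa
  obtain ⟨L, hLd⟩ : ∃ L, L = Real.log Y := ⟨_, rfl⟩
  rw [← hLd] at hQ hQ'1 hQ'2 hK1 hK2 hLc hpow ⊢
  have hL10 : 10 ≤ L := (le_max_right _ _).trans hLc
  have hLδ : 2 / δ ≤ L := (le_max_left _ _).trans hLc
  have hLδ' : 2 ≤ δ * L := by rw [div_le_iff₀ hδ] at hLδ; linarith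
  have hL0 : 0 < L := by linarith
  have hL1 : 1 ≤ L := by linarith
  have hY1 : (1 : ℝ) ≤ Y := by
    have : (1 : ℝ) ≤ ((X₀ : ℝ) + 1) ^ 2 := one_le_pow₀ (by linarith [(Nat.cast_nonneg X₀ : (0 : ℝ) ≤ X₀)])
    linarith
  have hQ0 : (0 : ℝ) < Q := lt_of_lt_of_le (by positivity) hQ
  have hQ'0 : (0 : ℝ) < Q' := lt_of_lt_of_le hQ0 (by exact_mod_cast hQQ)
  have hQ'n : 0 < Q' := by exact_mod_cast hQ'0
  have hL6 : 2 / L ^ 6 ≤ δ := by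
    rw [div_le_iff₀ (by positivity)]
    have h1 : L ≤ L ^ 6 := by
      calc L = L ^ 1 := (pow_one L).symm
        _ ≤ L ^ 6 := pow_le_pow_right₀ hL1 (by norm_num)
    nlinarith
  -- `Y^(1-δ)`
  have hYδ : (Y : ℝ) ^ (1 - δ) * (Y : ℝ) ^ δ = Y := by
    rw [← Real.rpow_add hY0]; norm_num
  have hYδ0 : 0 < (Y : ℝ) ^ (1 - δ) := Real.rpow_pos_of_pos hY0 _
  have hYδ1 : 1 ≤ (Y : ℝ) ^ (1 - δ) := Real.one_le_rpow hY1 (by linarith)
  have hX0Y : (X₀ : ℝ) ≤ (Y : ℝ) ^ (1 - δ) := by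
    calc (X₀ : ℝ) ≤ Real.sqrt Y := by
          refine Real.le_sqrt_of_sq_le ?_
          nlinarith [(Nat.cast_nonneg X₀ : (0 : ℝ) ≤ X₀)]
      _ = (Y : ℝ) ^ (1 / 2 : ℝ) := Real.sqrt_eq_rpow _
      _ ≤ (Y : ℝ) ^ (1 - δ) := Real.rpow_le_rpow_of_exponent_le hY1 (by linarith)
  obtain ⟨T, hT⟩ : ∃ T : ℝ, T = Y / Q' := ⟨_, rfl⟩
  have hT0 : 0 < T := by rw [hT]; positivity
  -- `Y / L^(cv+7) ≥ L Y^(1-δ)`
  have hbase : L * (Y : ℝ) ^ (1 - δ) * L ^ (cv + 7) ≤ Y := by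
    calc L * (Y : ℝ) ^ (1 - δ) * L ^ (cv + 7) = (Y : ℝ) ^ (1 - δ) * L ^ (cv + 8) := by
          rw [show cv + 8 = (cv + 7) + 1 by ring, pow_succ]; ring
      _ ≤ (Y : ℝ) ^ (1 - δ) * (Y : ℝ) ^ δ := mul_le_mul_of_nonneg_left hpow hYδ0.le
      _ = Y := hYδ
  have hTK : L * (Y : ℝ) ^ (1 - δ) ≤ T / 2 ^ K := by
    rw [hT, div_div, le_div_iff₀ (by positivity)]
    refine le_trans ?_ hbase
    refine mul_le_mul_of_nonneg_left ?_ (by positivity)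
    calc (Q' : ℝ) * 2 ^ K ≤ L ^ cv * L ^ 7 := by gcongr
      _ = L ^ (cv + 7) := (pow_add _ _ _).symm
  have hTL : 2 * (K : ℝ) ≤ δ * L * T := by
    have h1 : (K : ℝ) ≤ 2 ^ K := by
      exact_mod_cast (Nat.lt_two_pow_self (n := K)).le
    have h2 : (2 : ℝ) ^ K ≤ T := by
      have h3 : L * (Y : ℝ) ^ (1 - δ) * 2 ^ K ≤ T := by
        rw [le_div_iff₀ (by positivity)] at hTK; exact hTK
      have h4 : (1 : ℝ) ≤ L * (Y : ℝ) ^ (1 - δ) := by nlinarith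
      have h5 : (0 : ℝ) < 2 ^ K := by positivity
      nlinarith
    nlinarith
  have hKT : (K : ℝ) ≤ δ * T := by
    have h1 : (K : ℝ) ≤ 2 ^ K := by
      exact_mod_cast (Nat.lt_two_pow_self (n := K)).le
    have h3 : L * (Y : ℝ) ^ (1 - δ) * 2 ^ K ≤ T := by
      rw [le_div_iff₀ (by positivity)] at hTK; exact hTK
    have h5 : (0 : ℝ) < 2 ^ K := by positivity
    have h6 : L * 2 ^ K ≤ T := by
      refine le_trans ?_ h3
      have : L * (2 : ℝ) ^ K * 1 ≤ L * (2 : ℝ) ^ K * (Y : ℝ) ^ (1 - δ) :=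
        mul_le_mul_of_nonneg_left hYδ1 (by positivity)
      linarith
    have h7 : δ * (L * 2 ^ K) ≤ δ * T := mul_le_mul_of_nonneg_left h6 hδ.le
    nlinarith
  -- the blocks
  have hR : ∀ k ∈ range K, T / 2 ^ (k + 1) - 1 ≤ ((Y / Q' / 2 ^ (k + 1) : ℕ) : ℝ) ∧
      ((Y / Q' / 2 ^ (k + 1) : ℕ) : ℝ) ≤ T / 2 ^ (k + 1) ∧
      (Y : ℝ) ^ (1 - δ) ≤ ((Y / Q' / 2 ^ (k + 1) : ℕ) : ℝ) := by
    intro k hk
    rw [mem_range] at hk
    have e1 : T / 2 ^ (k + 1) = (Y : ℝ) / ((Q' * 2 ^ (k + 1) : ℕ) : ℝ) := by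
      rw [hT, div_div]; push_cast; rfl
    have e2 : Y / Q' / 2 ^ (k + 1) = Y / (Q' * 2 ^ (k + 1)) := Nat.div_div_eq_div_mul _ _ _
    have h1 : T / 2 ^ (k + 1) - 1 ≤ ((Y / Q' / 2 ^ (k + 1) : ℕ) : ℝ) := by
      rw [e1, e2, ← Nat.floor_div_eq_div (K := ℝ) Y (Q' * 2 ^ (k + 1))]
      have := Nat.lt_floor_add_one ((Y : ℝ) / ((Q' * 2 ^ (k + 1) : ℕ) : ℝ))
      linarith
    refine ⟨h1, ?_, ?_⟩
    · rw [e1, e2]
      exact Nat.cast_div_le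
    · refine le_trans ?_ h1
      have h2 : T / 2 ^ K ≤ T / 2 ^ (k + 1) := by
        refine div_le_div_of_nonneg_left hT0.le (by positivity) ?_
        exact pow_le_pow_right₀ (by norm_num) (by omega)
      nlinarith
  have hblk : ∀ k ∈ range K, (1 - 3 * δ) / L * ((Y / Q' / 2 ^ (k + 1) : ℕ) : ℝ) ≤
      (∑ r ∈ pr (Y / Q' / 2 ^ (k + 1)), lp r) / Real.log (2 * (Y / Q' / 2 ^ (k + 1)) : ℕ) ∧
      (∑ r ∈ pr (Y / Q' / 2 ^ (k + 1)), lp r) / Real.log (2 * (Y / Q' / 2 ^ (k + 1)) : ℕ) ≤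
      (1 + 3 * δ) / ((1 - δ) * L) * ((Y / Q' / 2 ^ (k + 1) : ℕ) : ℝ) := by
    intro k hk
    obtain ⟨h1, h2, h3⟩ := hR k hk
    have hRpos : (0 : ℝ) < ((Y / Q' / 2 ^ (k + 1) : ℕ) : ℝ) := lt_of_lt_of_le hYδ0 h3
    refine su_block hδ hδ1 hL0 hX₀ ?_ ?_ ?_
    · have : (X₀ : ℝ) ≤ ((Y / Q' / 2 ^ (k + 1) : ℕ) : ℝ) := hX0Y.trans h3
      exact_mod_cast this
    · have h4 : (Y : ℝ) ^ (1 - δ) ≤ ((2 * (Y / Q' / 2 ^ (k + 1)) : ℕ) : ℝ) := by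
        push_cast
        push_cast at h3 hRpos
        linarith
      have h5 := Real.log_le_log hYδ0 h4
      rw [Real.log_rpow hY0, ← hLd] at h5
      exact h5
    · rw [hLd]
      refine Real.log_le_log (by push_cast; push_cast at hRpos; linarith) ?_
      have h4 : 2 * (Y / Q' / 2 ^ (k + 1)) ≤ Y := by
        have h5 : Y / Q' / 2 ^ (k + 1) * 2 ^ (k + 1) ≤ Y / Q' := Nat.div_mul_le_self _ _
        have h6 : Y / Q' ≤ Y := Nat.div_le_self _ _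
        have h7 : 2 ≤ 2 ^ (k + 1) := by
          calc 2 = 2 ^ 1 := rfl
            _ ≤ 2 ^ (k + 1) := Nat.pow_le_pow_right (by norm_num) (by omega)
        calc 2 * (Y / Q' / 2 ^ (k + 1)) = Y / Q' / 2 ^ (k + 1) * 2 := by ring
          _ ≤ Y / Q' / 2 ^ (k + 1) * 2 ^ (k + 1) := Nat.mul_le_mul_left _ h7
          _ ≤ Y := h5.trans h6
      exact_mod_cast h4
  have hsumR1 : ∑ k ∈ range K, ((Y / Q' / 2 ^ (k + 1) : ℕ) : ℝ) ≤ T := by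
    calc ∑ k ∈ range K, ((Y / Q' / 2 ^ (k + 1) : ℕ) : ℝ) ≤ ∑ k ∈ range K, T * (1 / 2 ^ (k + 1)) := by
          refine sum_le_sum fun k hk => ?_
          rw [mul_one_div]
          exact (hR k hk).2.1
      _ = T * (1 - 1 / 2 ^ K) := by rw [← mul_sum, su_geom]
      _ ≤ T := by
          have : (0 : ℝ) < 1 / 2 ^ K := by positivity
          nlinarith
  have hsumR2 : (1 - 2 * δ) * T ≤ ∑ k ∈ range K, ((Y / Q' / 2 ^ (k + 1) : ℕ) : ℝ) := by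
    have h1 : T * (1 - 1 / 2 ^ K) - K ≤ ∑ k ∈ range K, ((Y / Q' / 2 ^ (k + 1) : ℕ) : ℝ) := by
      calc T * (1 - 1 / 2 ^ K) - K = ∑ k ∈ range K, (T * (1 / 2 ^ (k + 1)) - 1) := by
            rw [sum_sub_distrib, ← mul_sum, su_geom, sum_const, card_range, nsmul_eq_mul, mul_one]
        _ ≤ _ := by
            refine sum_le_sum fun k hk => ?_
            rw [mul_one_div]
            exact (hR k hk).1
    have h2 : (1 : ℝ) / 2 ^ K ≤ δ := by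
      calc (1 : ℝ) / 2 ^ K ≤ 1 / L ^ 6 := div_le_div_of_nonneg_left (by norm_num) (by positivity) hK1
        _ ≤ 2 / L ^ 6 := by gcongr; norm_num
        _ ≤ δ := hL6
    nlinarith
  -- the sum
  obtain ⟨Sg, hSg⟩ : ∃ s, s = ∑ k ∈ range K, (∑ r ∈ pr (Y / Q' / 2 ^ (k + 1)), lp r) /
      Real.log (2 * (Y / Q' / 2 ^ (k + 1)) : ℕ) := ⟨_, rfl⟩
  have hS : ∑ k ∈ range K, S5 Q Q' (Y / Q' / 2 ^ (k + 1)) = ((pi5 Q Q').card : ℝ) * Sg := by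
    rw [hSg, mul_sum]
    exact sum_congr rfl fun k _ => su_S5 _ _ _
  have hSg1 : Sg ≤ (1 + ε') * (T / L) := by
    have h1 : Sg ≤ (1 + 3 * δ) / ((1 - δ) * L) * T := by
      rw [hSg]
      calc _ ≤ ∑ k ∈ range K, (1 + 3 * δ) / ((1 - δ) * L) * ((Y / Q' / 2 ^ (k + 1) : ℕ) : ℝ) :=
            sum_le_sum fun k hk => (hblk k hk).2
        _ = (1 + 3 * δ) / ((1 - δ) * L) * ∑ k ∈ range K, ((Y / Q' / 2 ^ (k + 1) : ℕ) : ℝ) := by rw [mul_sum]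
        _ ≤ _ := by
            refine mul_le_mul_of_nonneg_left hsumR1 ?_
            have : 0 < 1 - δ := by linarith
            positivity
    refine h1.trans ?_
    have h2 : (1 + 3 * δ) / (1 - δ) ≤ 1 + ε' := by
      rw [div_le_iff₀ (by linarith), show ε' = 10 * δ by rw [hδd]; ring]
      nlinarith
    calc (1 + 3 * δ) / ((1 - δ) * L) * T = (1 + 3 * δ) / (1 - δ) * (T / L) := by
          rw [div_mul_div_comm, div_mul_eq_mul_div]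
      _ ≤ (1 + ε') * (T / L) := mul_le_mul_of_nonneg_right h2 (by positivity)
  have hSg2 : (1 - ε') * (1 + δ) * (T / L) ≤ Sg := by
    have h1 : (1 - 3 * δ) / L * ((1 - 2 * δ) * T) ≤ Sg := by
      rw [hSg]
      calc (1 - 3 * δ) / L * ((1 - 2 * δ) * T) ≤
            (1 - 3 * δ) / L * ∑ k ∈ range K, ((Y / Q' / 2 ^ (k + 1) : ℕ) : ℝ) :=
            mul_le_mul_of_nonneg_left hsumR2 (div_nonneg (by linarith) hL0.le)
        _ = ∑ k ∈ range K, (1 - 3 * δ) / L * ((Y / Q' / 2 ^ (k + 1) : ℕ) : ℝ) := by rw [mul_sum]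
        _ ≤ _ := sum_le_sum fun k hk => (hblk k hk).1
    refine le_trans ?_ h1
    have h2 : (1 - ε') * (1 + δ) ≤ (1 - 3 * δ) * (1 - 2 * δ) := by
      rw [show ε' = 10 * δ by rw [hδd]; ring]
      nlinarith [sq_nonneg δ]
    calc (1 - ε') * (1 + δ) * (T / L) ≤ (1 - 3 * δ) * (1 - 2 * δ) * (T / L) :=
          mul_le_mul_of_nonneg_right h2 (by positivity)
      _ = (1 - 3 * δ) / L * ((1 - 2 * δ) * T) := by
          field_simp
  -- the sums of `1/p`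
  obtain ⟨c, hc⟩ : ∃ c : ℝ, c = ((pi5 Q Q').card : ℝ) := ⟨_, rfl⟩
  have hc0 : 0 ≤ c := by rw [hc]; exact Nat.cast_nonneg _
  have hp1 : c / Q' ≤ ∑ p ∈ pi5 Q Q', (1 : ℝ) / p := by
    calc c / Q' = ∑ _p ∈ pi5 Q Q', (1 : ℝ) / Q' := by rw [sum_const, nsmul_eq_mul, hc, mul_one_div]
      _ ≤ _ := by
          refine sum_le_sum fun p hp => ?_
          have h1 := (mem_Ioc.1 (mem_filter.1 hp).1)
          have h2 : (p : ℝ) ≤ Q' := by exact_mod_cast h1.2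
          have h3 : (Q : ℝ) < p := by exact_mod_cast h1.1
          exact div_le_div_of_nonneg_left (by norm_num) (by linarith) h2
  have hp2 : ∑ p ∈ pi5 Q Q', (1 : ℝ) / p ≤ (1 + δ) * (c / Q') := by
    calc ∑ p ∈ pi5 Q Q', (1 : ℝ) / p ≤ ∑ _p ∈ pi5 Q Q', (1 : ℝ) / Q := by
          refine sum_le_sum fun p hp => ?_
          have h1 := (mem_Ioc.1 (mem_filter.1 hp).1)
          have h3 : (Q : ℝ) < p := by exact_mod_cast h1.1
          exact div_le_div_of_nonneg_left (by norm_num) hQ0 h3.le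
      _ = c / Q := by rw [sum_const, nsmul_eq_mul, hc, mul_one_div]
      _ ≤ (1 + δ) * (c / Q') := by
          rw [← mul_div_assoc, div_le_div_iff₀ hQ0 hQ'0]
          have h1 : (Q' : ℝ) ≤ Q * (1 + δ) := hQ'2.trans (mul_le_mul_of_nonneg_left (by linarith) hQ0.le)
          nlinarith
  have hYL0 : 0 ≤ (Y : ℝ) / L := by positivity
  have hsp0 : 0 ≤ ∑ p ∈ pi5 Q Q', (1 : ℝ) / p := sum_nonneg fun p _ => by positivity
  have hYT : (Y : ℝ) / L * (c / Q') = c * (T / L) := by rw [hT]; field_simp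
  rw [hS, ← hc]
  constructor
  · calc (1 - ε) * (Y / L) * ∑ p ∈ pi5 Q Q', (1 : ℝ) / p ≤ (1 - ε') * (Y / L) * ∑ p ∈ pi5 Q Q', (1 : ℝ) / p := by
          refine mul_le_mul_of_nonneg_right (mul_le_mul_of_nonneg_right (by linarith) hYL0) hsp0
      _ ≤ (1 - ε') * (Y / L) * ((1 + δ) * (c / Q')) :=
          mul_le_mul_of_nonneg_left hp2 (mul_nonneg (by linarith) hYL0)
      _ = c * ((1 - ε') * (1 + δ) * (T / L)) := by
          calc (1 - ε') * (Y / L) * ((1 + δ) * (c / Q')) = (1 - ε') * (1 + δ) * ((Y : ℝ) / L * (c / Q')) := by ring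
            _ = _ := by rw [hYT]; ring
      _ ≤ c * Sg := mul_le_mul_of_nonneg_left hSg2 hc0
  · calc c * Sg ≤ c * ((1 + ε') * (T / L)) := mul_le_mul_of_nonneg_left hSg1 hc0
      _ = (1 + ε') * ((Y : ℝ) / L * (c / Q')) := by rw [hYT]; ring
      _ ≤ (1 + ε') * ((Y : ℝ) / L * ∑ p ∈ pi5 Q Q', (1 : ℝ) / p) :=
          mul_le_mul_of_nonneg_left (mul_le_mul_of_nonneg_left hp1 hYL0) (by linarith)
      _ ≤ (1 + ε) * (Y / L) * ∑ p ∈ pi5 Q Q', (1 : ℝ) / p := by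
          rw [← mul_assoc]
          refine mul_le_mul_of_nonneg_right (mul_le_mul_of_nonneg_right (by linarith) hYL0) hsp0

end Pool.Agent.Lib.G3
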