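import Pool.Agent.Lib.G3.G5Defs
import Pool.Agent.Lib.G3.Blk5
import Pool.Agent.Lib.G3.Seq5
import Pool.Agent.Lib.G3.Dec5
import Pool.Agent.Lib.G3.Num5
import Pool.Agent.Lib.G3.Sum5
import Pool.Agent.Lib.G3.Mert5
import Pool.Agent.Lib.G3.C25

/-!
# G5, row CO, file Core5.lean: one window

`G = ⌈L^6⌉`, `L^6 ≤ 2^K ≤ L^7`, `Z = ⌊Y/L^6⌋`, `v ≤ u 2^m`, `m ≤ L`; blocks `P = qs i`, `P' = qs (i+1)`, `R = Y/P'/2^(k+1)`, `X = 2 P' R`
(`i < G m`, `k < K`); `blk5` with `A + 20`.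
-/

set_option autoImplicit false

open Finset

namespace Pool.Agent.Lib.G3

open Pool.Agent.Lib.MRT (cj kap)
open Pool.Agent.Lib.GT (e)

private theorem co_ev (n : ℕ) (a b : ℝ) (hb : 0 < b) : ∃ y0 : ℝ, ∀ Y : ℕ, y0 ≤ Y → a ≤ Real.log Y ∧
    4 * (Real.log Y) ^ n ≤ Real.sqrt Y ∧ Real.log (Real.log Y) ≤ b * Real.log Y ∧ 100 ≤ (Y : ℝ) := by
  have h1 := (isLittleO_log_rpow_rpow_atTop (s := 1 / 2) (n : ℝ) (by norm_num)).bound (c := 1 / 4) (by norm_num)
  have h2 : ∀ᶠ x : ℝ in Filter.atTop, max a 1 ≤ Real.log x := Real.tendsto_log_atTop.eventually (Filter.eventually_ge_atTop _)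
  have h3 := (Real.isLittleO_log_id_atTop.comp_tendsto Real.tendsto_log_atTop).def hb
  obtain ⟨x1, hx1⟩ := Filter.eventually_atTop.1 ((h1.and h2).and h3)
  refine ⟨max x1 100, fun Y hY => ?_⟩
  obtain ⟨⟨h1, h2⟩, h3⟩ := hx1 Y ((le_max_left _ _).trans hY)
  have hY1 : (100 : ℝ) ≤ Y := (le_max_right _ _).trans hY
  have hl1 : 1 ≤ Real.log Y := (le_max_right _ _).trans h2
  have hl : 0 ≤ Real.log Y := by linarith
  refine ⟨(le_max_left _ _).trans h2, ?_, ?_, hY1⟩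
  · rw [Real.rpow_natCast, Real.norm_of_nonneg (by positivity), Real.norm_of_nonneg (by positivity),
      ← Real.sqrt_eq_rpow] at h1
    linarith
  · simp only [Function.comp, id] at h3
    rw [Real.norm_of_nonneg (Real.log_nonneg hl1), Real.norm_of_nonneg hl] at h3
    exact h3

/-- the parameters of a block -/
private theorem co_block (c0 cv c6 : ℕ) (xb : ℝ) : ∃ y0 : ℝ, ∀ Y q q' K k R X : ℕ, y0 ≤ Y → (Real.log Y) ^ c0 ≤ q → q ≤ q' → q' ≤ 2 * q →
    (q' : ℝ) ≤ (Real.log Y) ^ cv → (2 : ℝ) ^ K ≤ (Real.log Y) ^ 7 → k < K → R = Y / q' / 2 ^ (k + 1) → X = 2 * (q' * R) →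
      Par5 X q q' R c0 (cv + 1) ∧ X ≤ Y ∧ (Y : ℝ) ≤ X * (Real.log X) ^ 9 ∧ xb ≤ X ∧ Real.log Y / 2 ≤ Real.log X ∧
        Real.log X ≤ Real.log Y ∧ Real.log Y / 2 ≤ Real.log R ∧ 2 ≤ Y / q' / 2 ^ K ∧
        (Real.log Y) ^ (c6 + 1) ≤ (Real.log X) ^ (c6 + 2) := by
  obtain ⟨y1, hy1⟩ := co_ev (cv + 7) (max (2 ^ (cv + 1)) (max 100 (2 ^ (c6 + 2)))) (1 / (4 * (cv + 8))) (by positivity)
  refine ⟨max y1 (xb ^ 2), ?_⟩
  intro Y q q' K k R X hY hq hqq hq2 hq' hK hk hR hX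
  obtain ⟨h1, h2, h3, h4⟩ := hy1 Y ((le_max_left _ _).trans hY)
  have hYx : xb ^ 2 ≤ Y := (le_max_right _ _).trans hY
  obtain ⟨L, hL⟩ : ∃ L, L = Real.log Y := ⟨_, rfl⟩
  rw [← hL] at hq hq' hK h1 h2 h3 ⊢
  have hL1 : (2 : ℝ) ^ (cv + 1) ≤ L := (le_max_left _ _).trans h1
  have hL2 : (100 : ℝ) ≤ L := (le_max_left _ _).trans ((le_max_right _ _).trans h1)
  have hL3 : (2 : ℝ) ^ (c6 + 2) ≤ L := (le_max_right _ _).trans ((le_max_right _ _).trans h1)
  have hL0 : 0 < L := by linarith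
  have hY0 : (0 : ℝ) < Y := by linarith
  have hs0 : 0 ≤ Real.sqrt Y := Real.sqrt_nonneg _
  have hss : Real.sqrt Y * Real.sqrt Y = Y := Real.mul_self_sqrt hY0.le
  have hs1 : 1 ≤ Real.sqrt Y := by
    rw [Real.one_le_sqrt]
    linarith
  have hq1 : (1 : ℝ) ≤ q := le_trans (one_le_pow₀ (by linarith)) hq
  have hq1n : 1 ≤ q := by exact_mod_cast hq1
  have hq'1 : 1 ≤ q' := hq1n.trans hqq
  have hq'r : (1 : ℝ) ≤ q' := by exact_mod_cast hq'1
  have hk2 : (2 : ℝ) ^ (k + 1) ≤ L ^ 7 := le_trans (pow_le_pow_right₀ (by norm_num) (by omega)) hK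
  have hL7 : 0 < L ^ 7 := by positivity
  -- the bounds for R, X
  have hR' : R = Y / (q' * 2 ^ (k + 1)) := by rw [hR, Nat.div_div_eq_div_mul]
  have hd : 0 < q' * 2 ^ (k + 1) := by positivity
  have a1 : Y < (R + 1) * (q' * 2 ^ (k + 1)) := by
    rw [← Nat.div_lt_iff_lt_mul hd, ← hR']
    omega
  have a2 : R * (q' * 2 ^ (k + 1)) ≤ Y := by
    rw [hR']
    exact Nat.div_mul_le_self _ _
  have a3 : X ≤ Y := by
    refine le_trans ?_ a2
    rw [hX, pow_succ]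
    have : 1 ≤ 2 ^ k := Nat.one_le_two_pow
    calc 2 * (q' * R) = R * (q' * (1 * 2)) := by ring
      _ ≤ R * (q' * (2 ^ k * 2)) := by gcongr
  have a1' : (Y : ℝ) < (R + 1) * (q' * 2 ^ (k + 1)) := by exact_mod_cast a1
  have hXr : (X : ℝ) = 2 * (q' * R) := by exact_mod_cast hX
  have h4' : 4 * L ^ (cv + 7) ≤ Real.sqrt Y := h2
  have hcv7 : L ^ (cv + 7) = L ^ cv * L ^ 7 := pow_add _ _ _
  have h5 : 4 * (L ^ cv * L ^ 7) ≤ Real.sqrt Y := by rw [← hcv7]; exact h4'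
  have h5' : 4 * (L ^ cv * L ^ 7) ≤ Y := by nlinarith
  have a4 : (Y : ℝ) / L ^ 7 ≤ X := by
    rw [div_le_iff₀ hL7]
    have b1 : (2 : ℝ) * Y < (X + 2 * q') * 2 ^ (k + 1) := by
      rw [hXr]
      nlinarith
    have b2 : ((X : ℝ) + 2 * q') * 2 ^ (k + 1) ≤ (X + 2 * q') * L ^ 7 :=
      mul_le_mul_of_nonneg_left hk2 (by positivity)
    have b3 : (q' : ℝ) * L ^ 7 ≤ L ^ cv * L ^ 7 := mul_le_mul_of_nonneg_right hq' hL7.le
    nlinarith
  have hX0 : (0 : ℝ) < X := lt_of_lt_of_le (by positivity) a4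
  have hX1 : (X : ℝ) ≤ Y := by exact_mod_cast a3
  have hLX : Real.log X ≤ L := by rw [hL]; exact Real.log_le_log hX0 hX1
  have hcv8 : (0 : ℝ) < 4 * (cv + 8) := by positivity
  have hll : Real.log L * (4 * (cv + 8)) ≤ L := by
    rw [div_mul_eq_mul_div, one_mul, le_div_iff₀ hcv8] at h3
    exact h3
  have hll0 : 0 ≤ Real.log L := Real.log_nonneg (by linarith)
  have hll7 : 7 * Real.log L ≤ L / 4 := by
    have : (0 : ℝ) ≤ cv := Nat.cast_nonneg _
    nlinarith [mul_nonneg this hll0]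
  have hXlog : L / 2 ≤ Real.log X := by
    have b1 := Real.log_le_log (by positivity) a4
    rw [Real.log_div hY0.ne' hL7.ne', Real.log_pow, ← hL] at b1
    push_cast at b1
    linarith
  have hRr : (Y : ℝ) / (2 * (L ^ 7 * L ^ cv)) ≤ R := by
    rw [div_le_iff₀ (by positivity)]
    have b1 : (Y : ℝ) ≤ X * L ^ 7 := by rwa [div_le_iff₀ hL7] at a4
    have b2 : (X : ℝ) ≤ 2 * (L ^ cv * R) := by
      rw [hXr]
      gcongr
    calc (Y : ℝ) ≤ X * L ^ 7 := b1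
      _ ≤ 2 * (L ^ cv * R) * L ^ 7 := mul_le_mul_of_nonneg_right b2 hL7.le
      _ = R * (2 * (L ^ 7 * L ^ cv)) := by ring
  have hR0 : (0 : ℝ) < R := lt_of_lt_of_le (by positivity) hRr
  have hRlog : L / 2 ≤ Real.log R := by
    have b1 := Real.log_le_log (by positivity) hRr
    rw [Real.log_div hY0.ne' (by positivity), Real.log_mul (by norm_num) (by positivity), ← pow_add, Real.log_pow, ← hL] at b1
    push_cast at b1
    have b2 : Real.log 2 ≤ 1 := by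
      have := Real.log_two_lt_d9
      linarith
    have b3 : (7 + (cv : ℝ)) * Real.log L ≤ L / 4 := by nlinarith
    linarith
  refine ⟨⟨?_, ?_, hqq, hq2, hX⟩, a3, ?_, ?_, hXlog, hLX, hRlog, ?_, ?_⟩
  · exact le_trans (pow_le_pow_left₀ (by linarith) hLX _) hq
  · have b1 : (q : ℝ) ≤ q' := by exact_mod_cast hqq
    refine b1.trans (hq'.trans ?_)
    calc L ^ cv = L ^ cv * 1 := (mul_one _).symm
      _ ≤ L ^ cv * (L / 2 ^ (cv + 1)) := by
          refine mul_le_mul_of_nonneg_left ?_ (by positivity)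
          rw [le_div_iff₀ (by positivity), one_mul]
          exact hL1
      _ = (L / 2) ^ (cv + 1) := by rw [div_pow, pow_succ L]; ring
      _ ≤ (Real.log X) ^ (cv + 1) := pow_le_pow_left₀ (by linarith) hXlog _
  · have b1 : (Y : ℝ) ≤ X * L ^ 7 := by rwa [div_le_iff₀ hL7] at a4
    refine b1.trans (mul_le_mul_of_nonneg_left ?_ hX0.le)
    calc L ^ 7 = L ^ 7 * 1 := (mul_one _).symm
      _ ≤ L ^ 7 * (L ^ 2 / 2 ^ 9) := by
          refine mul_le_mul_of_nonneg_left ?_ (by positivity)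
          rw [le_div_iff₀ (by positivity), one_mul]
          nlinarith
      _ = (L / 2) ^ 9 := by rw [div_pow]; ring
      _ ≤ (Real.log X) ^ 9 := pow_le_pow_left₀ (by linarith) hXlog _
  · have b1 : Real.sqrt Y ≤ X := by
      have b2 : (Y : ℝ) ≤ X * L ^ 7 := by rwa [div_le_iff₀ hL7] at a4
      have b3 : L ^ 7 ≤ Real.sqrt Y := by
        have b4 : (1 : ℝ) ≤ L ^ cv := one_le_pow₀ (by linarith)
        nlinarith
      have b5 : Real.sqrt Y * Real.sqrt Y ≤ X * Real.sqrt Y := by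
        rw [hss]
        exact b2.trans (mul_le_mul_of_nonneg_left b3 hX0.le)
      exact le_of_mul_le_mul_right b5 (by linarith)
    refine le_trans ?_ b1
    exact Real.le_sqrt_of_sq_le hYx
  · rw [Nat.div_div_eq_div_mul, Nat.le_div_iff_mul_le (by positivity)]
    have b1 : (2 : ℝ) * (q' * 2 ^ K) ≤ Y := by
      have : (q' : ℝ) * 2 ^ K ≤ L ^ cv * L ^ 7 := by gcongr
      have h7 : 0 ≤ L ^ cv * L ^ 7 := by positivity
      linarith
    exact_mod_cast b1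
  · calc L ^ (c6 + 1) = L ^ (c6 + 1) * 1 := (mul_one _).symm
      _ ≤ L ^ (c6 + 1) * (L / 2 ^ (c6 + 2)) := by
          refine mul_le_mul_of_nonneg_left ?_ (by positivity)
          rw [le_div_iff₀ (by positivity), one_mul]
          exact hL3
      _ = (L / 2) ^ (c6 + 2) := by rw [div_pow, pow_succ L (c6 + 1)]; ring
      _ ≤ (Real.log X) ^ (c6 + 2) := pow_le_pow_left₀ (by linarith) hXlog _

private theorem co_rho (ε : ℝ) (hε : 0 < ε) (hε1 : ε ≤ 1) : ∃ y0 : ℝ, ∀ Y : ℕ, y0 ≤ Y → 2 ≤ ⌊(Y : ℝ) / (Real.log Y) ^ 6⌋₊ ∧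
    ∀ R : ℕ, Real.log Y / 2 ≤ Real.log R →
      Real.log (2 * R : ℕ) / (Real.log R * Real.log ⌊(Y : ℝ) / (Real.log Y) ^ 6⌋₊) ≤ (1 + ε) / Real.log Y := by
  obtain ⟨y0, hy0⟩ := co_ev 6 (max 100 (16 / ε)) (ε / 96) (by positivity)
  refine ⟨y0, fun Y hY => ?_⟩
  obtain ⟨h1, h2, h3, h4⟩ := hy0 Y hY
  obtain ⟨L, hL⟩ : ∃ L, L = Real.log Y := ⟨_, rfl⟩
  rw [← hL] at h1 h2 h3 ⊢
  have hL1 : (100 : ℝ) ≤ L := (le_max_left _ _).trans h1
  have hL2 : 16 / ε ≤ L := (le_max_right _ _).trans h1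
  have hL2' : 16 ≤ L * ε := by rwa [div_le_iff₀ hε] at hL2
  have hL0 : 0 < L := by linarith
  have hY0 : (0 : ℝ) < Y := by linarith
  have hs0 : 0 ≤ Real.sqrt Y := Real.sqrt_nonneg _
  have hss : Real.sqrt Y * Real.sqrt Y = Y := Real.mul_self_sqrt hY0.le
  have hL6 : 0 < L ^ 6 := by positivity
  have hL61 : 1 ≤ L ^ 6 := one_le_pow₀ (by linarith)
  have hlog2 : Real.log 2 ≤ 1 := by
    have := Real.log_two_lt_d9
    linarith
  have e1 : (4 : ℝ) ≤ Y / L ^ 6 := by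
    rw [le_div_iff₀ hL6]
    nlinarith
  have e2 : (Y : ℝ) / L ^ 6 < ⌊(Y : ℝ) / L ^ 6⌋₊ + 1 := Nat.lt_floor_add_one _
  have e3 : (Y : ℝ) / (2 * L ^ 6) ≤ ⌊(Y : ℝ) / L ^ 6⌋₊ := by
    have : (Y : ℝ) / (2 * L ^ 6) = Y / L ^ 6 / 2 := by field_simp
    rw [this]
    linarith
  have e4 : (2 : ℝ) ≤ ⌊(Y : ℝ) / L ^ 6⌋₊ := by linarith
  refine ⟨by exact_mod_cast e4, fun R hR => ?_⟩
  have e5 : L * (1 - ε / 8) ≤ Real.log ⌊(Y : ℝ) / L ^ 6⌋₊ := by
    have b1 := Real.log_le_log (by positivity) e3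
    rw [Real.log_div hY0.ne' (by positivity), Real.log_mul (by norm_num) hL6.ne', Real.log_pow, ← hL] at b1
    push_cast at b1
    nlinarith
  have hlR : 0 < Real.log R := by linarith
  have hR0 : (0 : ℝ) < R := by
    rcases Nat.eq_zero_or_pos R with h | h
    · rw [h] at hlR
      simp at hlR
    · exact_mod_cast h
  have e6 : Real.log (2 * R : ℕ) ≤ Real.log R * (1 + ε / 8) := by
    push_cast
    rw [Real.log_mul (by norm_num) hR0.ne']
    nlinarith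
  have hlZ : 0 < Real.log ⌊(Y : ℝ) / L ^ 6⌋₊ := lt_of_lt_of_le (by nlinarith) e5
  rw [div_le_div_iff₀ (by positivity) hL0]
  calc Real.log (2 * R : ℕ) * L ≤ Real.log R * (1 + ε / 8) * L := mul_le_mul_of_nonneg_right e6 hL0.le
    _ = Real.log R * ((1 + ε / 8) * L) := by ring
    _ ≤ Real.log R * ((1 + ε) * (L * (1 - ε / 8))) := by
        refine mul_le_mul_of_nonneg_left ?_ hlR.le
        nlinarith [mul_pos hε hL0, mul_nonneg (mul_nonneg hε.le hL0.le) (by linarith : 0 ≤ 1 - ε)]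
    _ ≤ Real.log R * ((1 + ε) * Real.log ⌊(Y : ℝ) / L ^ 6⌋₊) := by gcongr
    _ = (1 + ε) * (Real.log R * Real.log ⌊(Y : ℝ) / L ^ 6⌋₊) := by ring

private theorem co_fin {L Y SSN σ T lN SW S ε1 ε cv : ℝ} (hL : 100 ≤ L) (hY : 0 < Y) (hs : 1 ≤ SSN) (hσ0 : 0 ≤ σ)
    (hcv : 0 ≤ cv) (hσ : σ ≤ cv + 2) (hlN0 : L ≤ lN) (hlN : lN ≤ L + 1) (h1 : SW ≤ lN * T) (h2 : T ≤ (1 + ε1) / L * SW + Y / L ^ 3)
    (h3 : SSN * S - Y / L ^ 10 ≤ SW) (h4 : SW ≤ SSN * S + Y / L ^ 10) (h5 : (1 - ε1) * (Y / L) * σ ≤ S)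
    (h6 : S ≤ (1 + ε1) * (Y / L) * σ) (he : 0 < ε1) (he1 : ε1 ≤ 1 / 4) (he2 : ε1 * (16 * (cv + 2)) ≤ ε)
    (hL2 : 8 * (cv + 3) ≤ ε * L) : |T - σ * (SSN * Y / L ^ 2)| ≤ ε * (SSN * Y / L ^ 2) := by
  have hL0 : 0 < L := by linarith
  obtain ⟨M, hM⟩ : ∃ M, M = SSN * Y / L ^ 2 := ⟨_, rfl⟩
  rw [← hM]
  have hM0 : Y / L ^ 2 ≤ M := by
    rw [hM]
    refine div_le_div_of_nonneg_right ?_ (by positivity)
    nlinarith
  have hYL : 0 < Y / L ^ 2 := by positivity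
  have hMp : 0 < M := by linarith
  have hw : 1 / L ≤ ε / (8 * (cv + 3)) := by
    rw [div_le_div_iff₀ hL0 (by positivity)]
    linarith
  have hε : 0 < ε := by
    by_contra h
    have : ε * L ≤ 0 := mul_nonpos_of_nonpos_of_nonneg (by linarith) hL0.le
    linarith
  have hw2 : ε / (8 * (cv + 3)) ≤ ε / 24 := by
    refine div_le_div_of_nonneg_left hε.le (by norm_num) ?_
    linarith
  have hwL : 0 < 1 / L := by positivity
  have e10 : Y / L ^ 10 ≤ Y / L ^ 2 * (1 / L) := by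
    rw [div_mul_div_comm, mul_one, ← pow_succ]
    exact div_le_div_of_nonneg_left hY.le (by positivity) (pow_le_pow_right₀ (by linarith) (by norm_num))
  have e3 : Y / L ^ 3 = Y / L ^ 2 * (1 / L) := by
    rw [div_mul_div_comm, mul_one, ← pow_succ]
  have eM : SSN * (Y / L) = M * L := by
    rw [hM]
    field_simp
  have hS1 : (1 - ε1) * σ * (M * L) ≤ SSN * S := by
    calc (1 - ε1) * σ * (M * L) = SSN * ((1 - ε1) * (Y / L) * σ) := by rw [← eM]; ring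
      _ ≤ SSN * S := mul_le_mul_of_nonneg_left h5 (by linarith)
  have hS2 : SSN * S ≤ (1 + ε1) * σ * (M * L) := by
    calc SSN * S ≤ SSN * ((1 + ε1) * (Y / L) * σ) := mul_le_mul_of_nonneg_left h6 (by linarith)
      _ = (1 + ε1) * σ * (M * L) := by rw [← eM]; ring
  have hσM : 0 ≤ σ * M := by positivity
  have g1 : Y / L ^ 2 * (1 / L) ≤ M * (ε / 24) := by
    refine mul_le_mul hM0 (hw.trans hw2) hwL.le hMp.le
  have g2 : ε1 * (σ * M) ≤ ε / 16 * M := by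
    have : ε1 * σ ≤ ε / 16 := by
      calc ε1 * σ ≤ ε1 * (cv + 2) := mul_le_mul_of_nonneg_left hσ he.le
        _ ≤ ε / 16 := by linarith
    calc ε1 * (σ * M) = ε1 * σ * M := by ring
      _ ≤ ε / 16 * M := mul_le_mul_of_nonneg_right this hMp.le
  have g3 : 1 / L * (σ * M) ≤ ε / 8 * M := by
    have : 1 / L * σ ≤ ε / 8 := by
      calc 1 / L * σ ≤ ε / (8 * (cv + 3)) * (cv + 3) := mul_le_mul hw (by linarith) hσ0 (by positivity)
        _ = ε / 8 := by field_simp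
    calc 1 / L * (σ * M) = 1 / L * σ * M := by ring
      _ ≤ ε / 8 * M := mul_le_mul_of_nonneg_right this hMp.le
  rw [abs_le]
  constructor
  · -- lower bound
    have hlN1 : 0 < lN := by linarith
    have f1 : (SSN * S - Y / L ^ 10) / lN ≤ T := by
      rw [div_le_iff₀ hlN1]
      linarith
    have f2 : (1 - ε1) * σ * (M * L) / (L + 1) - Y / L ^ 10 / L ≤ (SSN * S - Y / L ^ 10) / lN := by
      rw [sub_div]
      refine sub_le_sub ?_ ?_
      · have : 0 ≤ (1 - ε1) * σ * (M * L) := by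
          have : 0 ≤ 1 - ε1 := by linarith
          positivity
        calc (1 - ε1) * σ * (M * L) / (L + 1) ≤ (1 - ε1) * σ * (M * L) / lN := by gcongr
          _ ≤ SSN * S / lN := by gcongr
      · gcongr
    have f3 : (1 - ε1) * σ * M * (1 - 1 / L) ≤ (1 - ε1) * σ * (M * L) / (L + 1) := by
      rw [le_div_iff₀ (by linarith)]
      have : 0 ≤ (1 - ε1) * σ * M := by
        have : 0 ≤ 1 - ε1 := by linarith
        positivity
      calc (1 - ε1) * σ * M * (1 - 1 / L) * (L + 1) = (1 - ε1) * σ * M * (L - 1 / L) := by field_simp; ring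
        _ ≤ (1 - ε1) * σ * M * L := by
            refine mul_le_mul_of_nonneg_left ?_ this
            linarith
        _ = (1 - ε1) * σ * (M * L) := by ring
    have f4 : Y / L ^ 10 / L ≤ Y / L ^ 2 * (1 / L) := by
      refine le_trans (div_le_self (by positivity) (by linarith)) e10
    have f5 : (1 - ε1) * σ * M * (1 - 1 / L) ≥ σ * M - ε1 * (σ * M) - 1 / L * (σ * M) := by
      have : 0 ≤ ε1 * (1 / L) * (σ * M) := by positivity
      nlinarith
    nlinarith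
  · have f1 : (1 + ε1) / L * SW ≤ (1 + ε1) / L * ((1 + ε1) * σ * (M * L) + Y / L ^ 10) := by
      refine mul_le_mul_of_nonneg_left ?_ (by positivity)
      linarith
    have f2 : (1 + ε1) / L * ((1 + ε1) * σ * (M * L) + Y / L ^ 10) = (1 + ε1) ^ 2 * (σ * M) + (1 + ε1) * (1 / L) * (Y / L ^ 10) := by
      field_simp
    have f3 : (1 + ε1) ^ 2 * (σ * M) ≤ σ * M + 3 * (ε1 * (σ * M)) := by
      have : (1 + ε1) ^ 2 ≤ 1 + 3 * ε1 := by nlinarith
      nlinarith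
    have f4 : (1 + ε1) * (1 / L) * (Y / L ^ 10) ≤ Y / L ^ 2 * (1 / L) := by
      have : (1 + ε1) * (1 / L) ≤ 1 := by
        rw [mul_one_div, div_le_one hL0]
        linarith
      calc (1 + ε1) * (1 / L) * (Y / L ^ 10) ≤ 1 * (Y / L ^ 10) := mul_le_mul_of_nonneg_right this (by positivity)
        _ ≤ _ := by rw [one_mul]; exact e10
    rw [e3] at h2
    nlinarith

private theorem co_two (x : ℝ) (hx : 1 ≤ x) : ∃ K : ℕ, x ≤ (2 : ℝ) ^ K ∧ (2 : ℝ) ^ K ≤ 4 * x := by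
  obtain ⟨n, hn⟩ : ∃ n, n = ⌈x⌉₊ := ⟨_, rfl⟩
  have h1 : x ≤ n := by rw [hn]; exact Nat.le_ceil x
  have h2 : (n : ℝ) < x + 1 := by rw [hn]; exact Nat.ceil_lt_add_one (by linarith)
  have hn0 : n ≠ 0 := by
    rintro rfl
    push_cast at h1
    linarith
  refine ⟨Nat.log 2 n + 1, ?_, ?_⟩
  · have h3 : n < 2 ^ (Nat.log 2 n + 1) := Nat.lt_pow_succ_log_self (by norm_num) n
    have h4 : (n : ℝ) < 2 ^ (Nat.log 2 n + 1) := by exact_mod_cast h3
    linarith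
  · have h3 : 2 ^ Nat.log 2 n ≤ n := Nat.pow_log_le_self 2 hn0
    have h4 : (2 : ℝ) ^ Nat.log 2 n ≤ n := by exact_mod_cast h3
    rw [pow_succ]
    linarith

private theorem co_exp {K cv : ℕ} {L : ℝ} (hL : 100 ≤ L) (h : (2 : ℝ) ^ K ≤ L ^ (cv + 7)) (hl : Real.log L ≤ 1 / (4 * (cv + 8)) * L) :
    (K : ℝ) ≤ L := by
  have hL0 : 0 < L := by linarith
  have h1 := Real.log_le_log (by positivity) h
  rw [Real.log_pow, Real.log_pow] at h1
  push_cast at h1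
  have h2 : ((cv : ℝ) + 7) * Real.log L ≤ ((cv : ℝ) + 7) * (1 / (4 * (cv + 8)) * L) := mul_le_mul_of_nonneg_left hl (by positivity)
  have h3 : ((cv : ℝ) + 7) * (1 / (4 * (cv + 8)) * L) ≤ 1 / 4 * L := by
    have : ((cv : ℝ) + 7) * (1 / (4 * (cv + 8))) ≤ 1 / 4 := by
      rw [mul_one_div, div_le_div_iff₀ (by positivity) (by norm_num)]
      linarith
    calc ((cv : ℝ) + 7) * (1 / (4 * (cv + 8)) * L) = ((cv : ℝ) + 7) * (1 / (4 * (cv + 8))) * L := by ring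
      _ ≤ 1 / 4 * L := mul_le_mul_of_nonneg_right this hL0.le
  have h4 := Real.log_two_gt_d9
  have hK : (0 : ℝ) ≤ K := Nat.cast_nonneg _
  nlinarith

theorem core5 (A : ℕ) : ∃ c0 : ℕ, 10 ≤ c0 ∧ ∀ cv : ℕ, ∃ C : ℕ, ∀ ε : ℝ, 0 < ε → ∃ y0 : ℝ, ∀ Y H u v : ℕ, y0 ≤ Y →
    (Real.log Y) ^ C ≤ H → (H : ℝ) ≤ (Real.log Y) ^ (C + 1) → (Real.log Y) ^ c0 ≤ u → u ≤ v → (v : ℝ) ≤ (Real.log Y) ^ cv →
      (((Ioc Y (Y + H)).filter fun N => Even N ∧ ε * (SS N * Y / (Real.log Y) ^ 2) <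
        |(T5 u v N : ℝ) - (∑ p ∈ pi5 u v, (1 : ℝ) / p) * (SS N * Y / (Real.log Y) ^ 2)|).card : ℝ) ≤
          H / (Real.log Y) ^ (A + 1) := by
  classical
  obtain ⟨c10, hblk⟩ := blk5 (A + 20)
  refine ⟨max c10 10, le_max_right _ _, fun cv => ?_⟩
  obtain ⟨c0, hc0⟩ : ∃ c0, c0 = max c10 10 := ⟨_, rfl⟩
  rw [← hc0]
  have hc10 : c10 ≤ c0 := by rw [hc0]; exact le_max_left _ _
  have hc0' : 10 ≤ c0 := by rw [hc0]; exact le_max_right _ _
  obtain ⟨c6, xb, hb⟩ := hblk c0 (cv + 1) 9 hc10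
  refine ⟨c6, fun ε hε => ?_⟩
  obtain ⟨ε1, hε1⟩ : ∃ ε1 : ℝ, ε1 = min (ε / (16 * (cv + 2))) (1 / 4) := ⟨_, rfl⟩
  have he0 : 0 < ε1 := by rw [hε1]; exact lt_min (by positivity) (by norm_num)
  have he1 : ε1 ≤ 1 / 4 := by rw [hε1]; exact min_le_right _ _
  have he2 : ε1 * (16 * (cv + 2)) ≤ ε := by
    rw [← le_div_iff₀ (by positivity), hε1]
    exact min_le_left _ _
  obtain ⟨y1, hy1⟩ := co_ev (cv + c6 + 20) (max (2 ^ (A + 20)) (max 100 (8 * (cv + 3) / ε))) (1 / (4 * (cv + 8))) (by positivity)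
  obtain ⟨y2, hy2⟩ := co_block c0 cv c6 xb
  obtain ⟨y3, hy3⟩ := num5 cv
  obtain ⟨y4, hy4⟩ := sum5 cv ε1 he0
  obtain ⟨z5, hz5⟩ := mert5 1 one_pos
  obtain ⟨y6, hy6⟩ := co_rho ε1 he0 (by linarith)
  obtain ⟨y7, hy7⟩ := co_ev 1 (max 1 z5) 1 one_pos
  refine ⟨max (max y1 y2) (max (max y3 y4) (max y6 y7)), ?_⟩
  intro Y H u v hY hH1 hH2 hu huv hv
  simp only [max_le_iff] at hY
  obtain ⟨⟨hY1, hY2⟩, ⟨hY3, hY4⟩, hY6, hY7⟩ := hY
  obtain ⟨h1, h2, h3, h4⟩ := hy1 Y hY1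
  obtain ⟨h7, -, -, -⟩ := hy7 Y hY7
  obtain ⟨hZ2, hrho⟩ := hy6 Y hY6
  have hy2' := fun q q' K k R X => hy2 Y q q' K k R X hY2
  have hy3' := fun N G K I Z => hy3 Y N G K I u v Z hY3
  have hy4' := fun Q Q' K => hy4 Y Q Q' K hY4
  obtain ⟨L, hL⟩ : ∃ L, L = Real.log Y := ⟨_, rfl⟩
  rw [← hL] at h1 h2 h3 h7 hZ2 hrho hH1 hH2 hu hv hy2' hy3' hy4' ⊢
  have hLA : (2 : ℝ) ^ (A + 20) ≤ L := (le_max_left _ _).trans h1
  have hL100 : (100 : ℝ) ≤ L := (le_max_left _ _).trans ((le_max_right _ _).trans h1)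
  have hLe : 8 * (cv + 3) / ε ≤ L := (le_max_right _ _).trans ((le_max_right _ _).trans h1)
  have hLe' : 8 * ((cv : ℝ) + 3) ≤ ε * L := by
    rw [div_le_iff₀ hε] at hLe
    linarith
  have hLz : (z5 : ℝ) ≤ L := (le_max_right _ _).trans h7
  have hL0 : 0 < L := by linarith
  have hL1 : 1 ≤ L := by linarith
  have hY0 : (0 : ℝ) < Y := by linarith
  have hmono : ∀ {a b : ℕ}, a ≤ b → L ^ a ≤ L ^ b := fun h => pow_le_pow_right₀ hL1 h
  -- parameters
  obtain ⟨G, hG⟩ : ∃ G, G = ⌈L ^ 6⌉₊ := ⟨_, rfl⟩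
  have hG1 : L ^ 6 ≤ G := by rw [hG]; exact Nat.le_ceil _
  have hL61 : 1 ≤ L ^ 6 := one_le_pow₀ hL1
  have hG2 : (G : ℝ) ≤ 2 * L ^ 6 := by
    have : (G : ℝ) < L ^ 6 + 1 := by rw [hG]; exact Nat.ceil_lt_add_one (by positivity)
    linarith
  have hG0 : (0 : ℝ) < G := by linarith
  have hGn : 1 ≤ G := by exact_mod_cast (by linarith : (1 : ℝ) ≤ G)
  obtain ⟨K, hK1, hK2⟩ := co_two (L ^ 6) hL61
  have hK7 : (2 : ℝ) ^ K ≤ L ^ 7 := by
    refine hK2.trans ?_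
    rw [pow_succ L 6]
    nlinarith
  have hKL : (K : ℝ) ≤ L := co_exp (cv := cv) hL100 (hK7.trans (hmono (by omega))) h3
  have hu1 : (1 : ℝ) ≤ u := le_trans (one_le_pow₀ hL1) hu
  have hun : 1 ≤ u := by exact_mod_cast hu1
  have hvr : (1 : ℝ) ≤ v := hu1.trans (by exact_mod_cast huv)
  obtain ⟨m, hm1, hm2⟩ := co_two (v : ℝ) hvr
  have hmL : (m : ℝ) ≤ L := by
    refine co_exp (cv := cv) hL100 (hm2.trans ?_) h3
    rw [pow_add]
    have : (4 : ℝ) ≤ L ^ 7 := by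
      calc (4 : ℝ) ≤ L ^ 1 := by rw [pow_one]; linarith
        _ ≤ L ^ 7 := hmono (by norm_num)
    calc 4 * (v : ℝ) ≤ L ^ 7 * L ^ cv := mul_le_mul this hv (by positivity) (by positivity)
      _ = L ^ cv * L ^ 7 := mul_comm _ _
  obtain ⟨I, hI⟩ : ∃ I, I = G * m := ⟨_, rfl⟩
  obtain ⟨Z, hZ⟩ : ∃ Z, Z = ⌊(Y : ℝ) / L ^ 6⌋₊ := ⟨_, rfl⟩
  rw [← hZ] at hZ2 hrho
  have hZ3 : (Z : ℝ) ≤ Y / L ^ 6 := by rw [hZ]; exact Nat.floor_le (by positivity)
  obtain ⟨q, hq⟩ : ∃ q, q = qs G v u := ⟨_, rfl⟩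
  have hqmono : Monotone q := by
    rw [hq]
    exact monotone_nat_of_le_succ fun i => (qs_spec huv i).2.1
  have hq0 : q 0 = u := by rw [hq]; rfl
  have hqI : q I = v := by
    rw [hq, hI]
    refine qs_end hGn hun huv ?_
    have : (v : ℝ) ≤ u * 2 ^ m := by nlinarith
    exact_mod_cast this
  have hqs : ∀ i, u ≤ q i ∧ q i ≤ q (i + 1) ∧ q (i + 1) ≤ v ∧ q (i + 1) ≤ q i + q i / G + 1 := by
    intro i
    rw [hq]
    exact ⟨(qs_spec huv i).1, (qs_spec huv i).2.1, (qs_spec huv (i + 1)).2.2.1, (qs_spec huv i).2.2.2⟩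
  have hu10 : L ^ 10 ≤ u := (hmono hc0').trans hu
  have hqr : ∀ i, L ^ 10 ≤ q i := fun i => hu10.trans (by exact_mod_cast (hqs i).1)
  have hqc : ∀ i, L ^ c0 ≤ q i := fun i => hu.trans (by exact_mod_cast (hqs i).1)
  have hqv : ∀ i, (q (i + 1) : ℝ) ≤ L ^ cv := fun i => le_trans (by exact_mod_cast (hqs i).2.2.1) hv
  have hqstep : ∀ i, (q (i + 1) : ℝ) ≤ q i * (1 + 2 / L ^ 6) := by
    intro i
    have b1 : (q (i + 1) : ℝ) ≤ q i + (q i : ℝ) / G + 1 := by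
      have : ((q (i + 1) : ℕ) : ℝ) ≤ ((q i + q i / G + 1 : ℕ) : ℝ) := by exact_mod_cast (hqs i).2.2.2
      push_cast at this
      have b2 : ((q i / G : ℕ) : ℝ) ≤ (q i : ℝ) / G := Nat.cast_div_le
      linarith
    have b3 : (q i : ℝ) / G ≤ q i / L ^ 6 := div_le_div_of_nonneg_left (Nat.cast_nonneg _) (by positivity) hG1
    have b4 : (1 : ℝ) ≤ q i / L ^ 6 := by
      rw [le_div_iff₀ (by positivity), one_mul]
      exact (hmono (by norm_num)).trans (hqr i)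
    have b5 : (q i : ℝ) * (1 + 2 / L ^ 6) = q i + q i / L ^ 6 + q i / L ^ 6 := by ring
    linarith
  have hq2 : ∀ i, q (i + 1) ≤ 2 * q i := by
    intro i
    have b1 := hqstep i
    have b2 : 2 / L ^ 6 ≤ 1 := by
      rw [div_le_one (by positivity)]
      calc (2 : ℝ) ≤ L ^ 1 := by rw [pow_one]; linarith
        _ ≤ L ^ 6 := hmono (by norm_num)
    have b3 : (q (i + 1) : ℝ) ≤ 2 * q i := by
      have : (0 : ℝ) ≤ q i := Nat.cast_nonneg _
      nlinarith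
    exact_mod_cast b3
  -- the blocks
  obtain ⟨R, hR⟩ : ∃ R : ℕ → ℕ → ℕ, R = fun i k => Y / q (i + 1) / 2 ^ (k + 1) := ⟨_, rfl⟩
  have hRe : ∀ i k, R i k = Y / q (i + 1) / 2 ^ (k + 1) := fun i k => by rw [hR]
  obtain ⟨X, hX⟩ : ∃ X : ℕ → ℕ → ℕ, X = fun i k => 2 * (q (i + 1) * R i k) := ⟨_, rfl⟩
  have hXe : ∀ i k, X i k = 2 * (q (i + 1) * R i k) := fun i k => by rw [hX]
  have hblock : ∀ i k, k < K → Par5 (X i k) (q i) (q (i + 1)) (R i k) c0 (cv + 1) ∧ X i k ≤ Y ∧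
      (Y : ℝ) ≤ X i k * (Real.log (X i k)) ^ 9 ∧ xb ≤ X i k ∧ L / 2 ≤ Real.log (X i k) ∧
        Real.log (X i k) ≤ L ∧ L / 2 ≤ Real.log (R i k) ∧ 2 ≤ Y / q (i + 1) / 2 ^ K ∧
        L ^ (c6 + 1) ≤ (Real.log (X i k)) ^ (c6 + 2) := fun i k hk =>
    hy2' (q i) (q (i + 1)) K k (R i k) (X i k) (hqc i) (hqs i).2.1 (hq2 i) (hqv i) hK7 hk (hRe i k) (hXe i k)
  have hloglow : ∀ i k, k < K → L / 2 ^ 1 ≤ Real.log (X i k) := fun i k hk => by
    rw [pow_one]; exact (hblock i k hk).2.2.2.2.1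
  have hA19 : ∀ i k, k < K → ∀ w : ℝ, 0 ≤ w → w / (Real.log (X i k)) ^ (A + 20) ≤ w / L ^ (A + 19) := by
    intro i k hk w hw
    have b1 : (L / 2) ^ (A + 20) ≤ (Real.log (X i k)) ^ (A + 20) :=
      pow_le_pow_left₀ (by linarith) (hblock i k hk).2.2.2.2.1 _
    have b2 : L ^ (A + 19) ≤ (L / 2) ^ (A + 20) := by
      rw [div_pow, le_div_iff₀ (by positivity), pow_succ L (A + 19)]
      exact mul_le_mul_of_nonneg_left hLA (by positivity)
    exact div_le_div_of_nonneg_left hw (by positivity) (b2.trans b1)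
  obtain ⟨Bad, hBad⟩ : ∃ Bad : ℕ × ℕ → Finset ℕ, Bad = fun x => (Ioc Y (Y + H)).filter fun N =>
      X x.1 x.2 / (Real.log (X x.1 x.2)) ^ (A + 20) <
        |W5 (q x.1) (q (x.1 + 1)) (R x.1 x.2) N - SS N * S5 (q x.1) (q (x.1 + 1)) (R x.1 x.2)| := ⟨_, rfl⟩
  have hBc : ∀ x ∈ range I ×ˢ range K, ((Bad x).card : ℝ) ≤ H / L ^ (A + 19) := by
    intro x hx
    rw [mem_product, mem_range, mem_range] at hx
    obtain ⟨g1, g2, g3, g4, g5, g6, g7, g8, g9⟩ := hblock x.1 x.2 hx.2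
    rw [hBad]
    refine (hb (X x.1 x.2) g4 (q x.1) (q (x.1 + 1)) (R x.1 x.2) g1 Y H g2 g3 ?_ ?_).trans (hA19 x.1 x.2 hx.2 _ (Nat.cast_nonneg _))
    · exact le_trans (pow_le_pow_left₀ (by linarith) g6 _) hH1
    · exact hH2.trans g9
  have hIK : (I : ℝ) * K ≤ 2 * L ^ 8 := by
    rw [hI]
    push_cast
    calc (G : ℝ) * m * K ≤ 2 * L ^ 6 * L * L := by gcongr
      _ = 2 * L ^ 8 := by ring
  -- a good even number
  have hsub : ((Ioc Y (Y + H)).filter fun N => Even N ∧ ε * (SS N * Y / L ^ 2) <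
        |(T5 u v N : ℝ) - (∑ p ∈ pi5 u v, (1 : ℝ) / p) * (SS N * Y / L ^ 2)|) ⊆ (range I ×ˢ range K).biUnion Bad := by
    intro N hN
    rw [mem_filter, mem_Ioc] at hN
    obtain ⟨⟨hN1, hN2⟩, hNe, hN3⟩ := hN
    by_contra hnot
    refine absurd hN3 (not_lt.2 ?_)
    have hgood : ∀ i ∈ range I, ∀ k ∈ range K, |W5 (q i) (q (i + 1)) (R i k) N - SS N * S5 (q i) (q (i + 1)) (R i k)| ≤ Y / L ^ (A + 19) := by
      intro i hi k hk
      rw [mem_range] at hk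
      by_contra hc
      refine hnot (mem_biUnion.2 ⟨(i, k), mem_product.2 ⟨hi, mem_range.2 hk⟩, ?_⟩)
      rw [hBad, mem_filter, mem_Ioc]
      refine ⟨⟨hN1, hN2⟩, lt_of_le_of_lt ?_ (not_le.1 hc)⟩
      refine (hA19 i k hk _ (Nat.cast_nonneg _)).trans ?_
      refine div_le_div_of_nonneg_right ?_ (by positivity)
      exact_mod_cast (hblock i k hk).2.1
    have hSS := SS_one_le hNe
    obtain ⟨SW, hSW⟩ : ∃ SW, SW = ∑ i ∈ range I, ∑ k ∈ range K, W5 (q i) (q (i + 1)) (R i k) N := ⟨_, rfl⟩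
    obtain ⟨S, hS⟩ : ∃ S, S = ∑ i ∈ range I, ∑ k ∈ range K, S5 (q i) (q (i + 1)) (R i k) := ⟨_, rfl⟩
    obtain ⟨σ, hσ⟩ : ∃ σ, σ = ∑ p ∈ pi5 u v, (1 : ℝ) / p := ⟨_, rfl⟩
    have hdiff : |SW - SS N * S| ≤ Y / L ^ 10 := by
      have b1 : SW - SS N * S = ∑ i ∈ range I, ∑ k ∈ range K,
          (W5 (q i) (q (i + 1)) (R i k) N - SS N * S5 (q i) (q (i + 1)) (R i k)) := by
        rw [hSW, hS, mul_sum, ← sum_sub_distrib]
        refine sum_congr rfl fun i _ => ?_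
        rw [mul_sum, ← sum_sub_distrib]
      rw [b1]
      have b2 : |∑ i ∈ range I, ∑ k ∈ range K, (W5 (q i) (q (i + 1)) (R i k) N - SS N * S5 (q i) (q (i + 1)) (R i k))| ≤
          ∑ i ∈ range I, ∑ k ∈ range K, (Y : ℝ) / L ^ (A + 19) := by
        refine (abs_sum_le_sum_abs _ _).trans (sum_le_sum fun i hi => ?_)
        exact (abs_sum_le_sum_abs _ _).trans (sum_le_sum fun k hk => hgood i hi k hk)
      refine b2.trans ?_
      rw [sum_const, sum_const, card_range, card_range, nsmul_eq_mul, nsmul_eq_mul, ← mul_assoc]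
      calc (I : ℝ) * K * (Y / L ^ (A + 19)) ≤ 2 * L ^ 8 * (Y / L ^ (A + 19)) := by gcongr
        _ ≤ 2 * L ^ 8 * (Y / L ^ 19) := by
            refine mul_le_mul_of_nonneg_left ?_ (by positivity)
            exact div_le_div_of_nonneg_left hY0.le (by positivity) (hmono (by omega))
        _ = Y / L ^ 10 * (2 / L) := by
            field_simp
        _ ≤ Y / L ^ 10 * 1 := by
            refine mul_le_mul_of_nonneg_left ?_ (by positivity)
            rw [div_le_one hL0]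
            linarith
        _ = Y / L ^ 10 := mul_one _
    rw [abs_le] at hdiff
    have hσsum : σ = ∑ i ∈ range I, ∑ p ∈ pi5 (q i) (q (i + 1)), (1 : ℝ) / p := by
      rw [hσ, ← hq0, ← hqI]
      exact pi5_add q hqmono I _
    have hTsum : T5 u v N = ∑ i ∈ range I, T5 (q i) (q (i + 1)) N := by
      rw [← T5_add q hqmono I N, hq0, hqI]
    have hmain := fun i => hy4' (q i) (q (i + 1)) K ((hmono (by norm_num)).trans (hqr i)) (hqs i).2.1 (hqv i) (hqstep i) hK1 hK7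
    have hS1 : (1 - ε1) * (Y / L) * σ ≤ S := by
      rw [hS, hσsum, mul_sum]
      refine sum_le_sum fun i _ => ?_
      rw [hR]
      exact (hmain i).1
    have hS2 : S ≤ (1 + ε1) * (Y / L) * σ := by
      rw [hS, hσsum, mul_sum]
      refine sum_le_sum fun i _ => ?_
      rw [hR]
      exact (hmain i).2
    have hKpos : 0 < K := by
      rcases Nat.eq_zero_or_pos K with h | h
      · rw [h, pow_zero] at hK1
        have : (100 : ℝ) ≤ L ^ 6 := by
          calc (100 : ℝ) ≤ L ^ 1 := by rw [pow_one]; exact hL100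
            _ ≤ L ^ 6 := hmono (by norm_num)
        linarith
      · exact h
    have hdec := fun i => dec5 (Q := q i) (Q' := q (i + 1)) (Y := Y) (N := N) (K := K) (Z := Z)
      (hun.trans (hqs i).1) (hqs i).2.1 hN1 (hblock i 0 hKpos).2.2.2.2.2.2.2.1 hZ2
    have hT1 : SW ≤ Real.log N * T5 u v N := by
      rw [hSW, hTsum]
      push_cast
      rw [mul_sum]
      refine sum_le_sum fun i _ => ?_
      rw [hR]
      exact (hdec i).1
    have hW0 : ∀ i k, 0 ≤ W5 (q i) (q (i + 1)) (R i k) N := by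
      intro i k
      unfold W5
      have hl : ∀ n, 0 ≤ lp n := by
        intro n
        unfold lp
        split_ifs with h
        · exact Real.log_nonneg (by exact_mod_cast h.one_lt.le)
        · exact le_rfl
      refine sum_nonneg fun p _ => sum_nonneg fun r _ => ?_
      exact mul_nonneg (div_nonneg (hl _) (Real.log_natCast_nonneg _)) (hl _)
    have hsq : (N : ℝ) ≤ Y + Real.sqrt Y := by
      have b1 : (N : ℝ) ≤ Y + H := by exact_mod_cast hN2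
      have b2 : L ^ (c6 + 1) ≤ L ^ (cv + c6 + 20) := hmono (by omega)
      have b3 : 0 ≤ L ^ (cv + c6 + 20) := by positivity
      linarith
    have hT2 : (T5 u v N : ℝ) ≤ (1 + ε1) / L * SW + Y / L ^ 3 := by
      have b1 := hy3' N G K I Z hN1 hsq hG1 hK1 hKL ((hmono (by norm_num)).trans hu10) huv hv hZ3
      rw [← hq] at b1
      rw [hTsum]
      push_cast
      refine (sum_le_sum fun i _ => (hdec i).2).trans ?_
      rw [sum_add_distrib]
      refine add_le_add ?_ ?_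
      · rw [hSW, mul_sum]
        refine sum_le_sum fun i hi => ?_
        rw [mul_sum]
        refine sum_le_sum fun k hk => ?_
        rw [mem_range] at hk
        have b2 := hrho (R i k) (hblock i k hk).2.2.2.2.2.2.1
        rw [mul_comm ((1 + ε1) / L)]
        have b3 := mul_le_mul_of_nonneg_left b2 (hW0 i k)
        rw [hRe] at b3 ⊢
        exact b3
      · exact b1
    have hN0 : (0 : ℝ) < N := lt_trans hY0 (by exact_mod_cast hN1)
    have hYN : (Y : ℝ) ≤ N := by exact_mod_cast hN1.le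
    have hlN0 : L ≤ Real.log N := by rw [hL]; exact Real.log_le_log hY0 hYN
    have hlN1 : Real.log N ≤ L + 1 := by
      have b1 : (N : ℝ) ≤ 2 * Y := by
        have : Real.sqrt Y ≤ Y := by
          rw [Real.sqrt_le_left hY0.le]
          nlinarith
        linarith
      have b2 := Real.log_le_log hN0 b1
      rw [Real.log_mul (by norm_num) hY0.ne', ← hL] at b2
      have := Real.log_two_lt_d9
      linarith
    have hσ0 : 0 ≤ σ := by
      rw [hσ]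
      exact sum_nonneg fun p _ => by positivity
    have hσ2 : σ ≤ cv + 2 := by
      have b0 : z5 ≤ u := by
        have : (z5 : ℝ) ≤ u := by
          calc (z5 : ℝ) ≤ L ^ 1 := by rw [pow_one]; exact hLz
            _ ≤ L ^ 10 := hmono (by norm_num)
            _ ≤ u := hu10
        exact_mod_cast this
      have b1 := hz5 u v b0 huv
      rw [← hσ, abs_le] at b1
      have hlL : 0 < Real.log L := Real.log_pos (by linarith)
      have b2 : Real.log L ≤ Real.log u := by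
        refine Real.log_le_log hL0 ?_
        calc L = L ^ 1 := (pow_one L).symm
          _ ≤ L ^ 10 := hmono (by norm_num)
          _ ≤ u := hu10
      have b3 : Real.log v ≤ cv * Real.log L := by
        have := Real.log_le_log (by linarith) hv
        rwa [Real.log_pow] at this
      have b4 : Real.log v / Real.log u ≤ cv := by
        rw [div_le_iff₀ (by linarith)]
        exact b3.trans (mul_le_mul_of_nonneg_left b2 (Nat.cast_nonneg _))
      have b5 : 0 < Real.log v / Real.log u := by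
        refine div_pos ?_ (by linarith)
        have : Real.log u ≤ Real.log v := Real.log_le_log (by linarith) (by exact_mod_cast huv)
        linarith
      have b6 : Real.log (Real.log v / Real.log u) ≤ cv := by
        have := Real.log_le_sub_one_of_pos b5
        linarith
      linarith
    rw [← hσ]
    exact co_fin hL100 hY0 hSS hσ0 (Nat.cast_nonneg cv) hσ2 hlN0 hlN1 hT1 hT2 (by linarith) (by linarith) hS1 hS2 he0 he1 he2 hLe'
  calc (((Ioc Y (Y + H)).filter fun N => Even N ∧ ε * (SS N * Y / L ^ 2) <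
        |(T5 u v N : ℝ) - (∑ p ∈ pi5 u v, (1 : ℝ) / p) * (SS N * Y / L ^ 2)|).card : ℝ)
      ≤ (((range I ×ˢ range K).biUnion Bad).card : ℝ) := by exact_mod_cast card_le_card hsub
    _ ≤ ∑ x ∈ range I ×ˢ range K, ((Bad x).card : ℝ) := by exact_mod_cast card_biUnion_le
    _ ≤ ∑ x ∈ range I ×ˢ range K, (H : ℝ) / L ^ (A + 19) := sum_le_sum hBc
    _ = I * K * (H / L ^ (A + 19)) := by
        rw [sum_const, card_product, card_range, card_range, nsmul_eq_mul]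
        push_cast
        ring
    _ ≤ 2 * L ^ 8 * (H / L ^ (A + 19)) := by gcongr
    _ = H / L ^ (A + 1) * (2 / L ^ 10) := by
        field_simp
        ring
    _ ≤ H / L ^ (A + 1) * 1 := by
        refine mul_le_mul_of_nonneg_left ?_ (by positivity)
        rw [div_le_one (by positivity)]
        calc (2 : ℝ) ≤ L ^ 1 := by rw [pow_one]; linarith
          _ ≤ L ^ 10 := hmono (by norm_num)
    _ = H / L ^ (A + 1) := mul_one _

end Pool.Agent.Lib.G3
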