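import Pool.Agent.Lib.MRT.Defs
import Pool.Agent.Lib.SW.VinoSum

/-!
# G3: a prime plus a product of exactly `k` primes in windows of length `(log X)^C`, definitions

`cj j n = n^(-ij)` (MRT), `e x = e^(2πix)` (GT), `nd`, `gmin` (SW). One turn of `log n` modulo `2π` is `X0 X < n ≤ X`.
-/

set_option autoImplicit false

open Finset

namespace Pool.Agent.Lib.G3

open Pool.Agent.Lib.MRT (cj kap)
open Pool.Agent.Lib.GT (e)

/-- the primes in `(P, 2P]` -/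
def pr (P : ℕ) : Finset ℕ := (Ioc P (2 * P)).filter Nat.Prime

/-- lower end of the full turn `(X e^(-2π), X]` -/
noncomputable def X0 (X : ℕ) : ℕ := ⌊(X : ℝ) * Real.exp (-(2 * Real.pi))⌋₊

/-- `log p` on the primes -/
noncomputable def lp (n : ℕ) : ℝ := if n.Prime then Real.log n else 0

/-- exponential sum over the window `(y - H, y]` -/
noncomputable def WW (F : ℕ → ℂ) (H : ℕ) (α : ℝ) (y : ℕ) : ℂ := ∑ n ∈ Ioc (y - H) y, F n * e (n * α)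

/-- the local mean square at frequency `α` -/
noncomputable def VV (F : ℕ → ℂ) (H : ℕ) (α : ℝ) (Y : ℕ) : ℝ := ∑ y ∈ range Y, ‖WW F H α y‖ ^ 2

/-- the convolution of the primes of `(P, 2P]`, of `a` on `(M, 2M]` and of the primes of `(R, 2R]` -/
noncomputable def bt (a : ℕ → ℂ) (P R M n : ℕ) : ℂ :=
  ∑ p ∈ pr P, ∑ r ∈ pr R, ∑ m ∈ Ioc M (2 * M), if p * m * r = n then a m else 0

/-- admissible coefficients -/
structure Good (a : ℕ → ℂ) (P R M : ℕ) : Prop where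
  le : ∀ m, ‖a m‖ ≤ 1
  supp : ∀ m, a m ≠ 0 → M < m ∧ m ≤ 2 * M
  rough : ∀ m, a m ≠ 0 → ∀ p : ℕ, p.Prime → p ∣ m → 2 * P < p ∧ (p ≤ R ∨ 2 * R < p)

/-- `∑ χ(r) r^(-ij)` over the primes of `(R, 2R]` -/
noncomputable def RR {q : ℕ} (χ : DirichletCharacter ℂ q) (R : ℕ) (j : ℤ) : ℂ := ∑ r ∈ pr R, χ (r : ZMod q) * cj j r

/-- `∑_{n ≤ X} F(n) χ(n) n^(-ij)` -/
noncomputable def bc {q : ℕ} (F : ℕ → ℂ) (X : ℕ) (χ : DirichletCharacter ℂ q) (j : ℤ) : ℂ :=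
  ∑ n ∈ Icc 1 X, F n * χ (n : ZMod q) * cj j n

/-- `∑_{n ≤ X} F(n) e(-nγ) n^(-ij)` -/
noncomputable def bq (F : ℕ → ℂ) (X : ℕ) (γ : ℝ) (j : ℤ) : ℂ := ∑ n ∈ Icc 1 X, F n * e (-(n * γ)) * cj j n

/-- the frequencies kept in the model at denominator `q` -/
noncomputable def JJ (q R T0 T : ℕ) (v : ℝ) : Finset ℤ :=
  open Classical in (Icc (-(T : ℤ)) T).filter fun j => |j| ≤ (T0 : ℤ) ∨ ∃ χ : DirichletCharacter ℂ q, v < ‖RR χ R j‖

/-- a trigonometric polynomial in `log n`, divided by `2πn`, on the full turn -/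
noncomputable def mo (b : ℤ → ℂ) (J : Finset ℤ) (X n : ℕ) : ℂ :=
  if X0 X < n ∧ n ≤ X then ((1 / (2 * Real.pi * n) : ℝ) : ℂ) * ∑ j ∈ J, b j * (starRingEnd ℂ) (cj j n) else 0

/-- the classes coprime to `q` -/
def cl (q : ℕ) : Finset ℕ := (range q).filter fun a => Nat.Coprime a q

/-- the model of `F` -/
noncomputable def MO (F : ℕ → ℂ) (X Q R T0 T : ℕ) (v : ℝ) (n : ℕ) : ℂ :=
  ∑ q ∈ Icc 1 Q, ∑ a ∈ cl q, e (n * ((a : ℝ) / q)) * mo (bq F X ((a : ℝ) / q)) (JJ q R T0 T v) X n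

/-- the twisted sum over the primes `N - n` -/
noncomputable def LT (X N : ℕ) (γ : ℝ) (j : ℤ) : ℂ :=
  ∑ n ∈ Ioc (X0 X) X, ((1 / (n : ℝ) : ℝ) : ℂ) * (starRingEnd ℂ) (cj j n) * e (n * γ) * ((lp (N - n) : ℝ) : ℂ)

end Pool.Agent.Lib.G3
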