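import Pool.Agent.Lib.G3.Defs
import Pool.Agent.Lib.SW.RamModel

/-!
# G3: parameters, truncated singular series, the middle variable, the number of representations
-/

set_option autoImplicit false

open Finset

namespace Pool.Agent.Lib.G3

/-- the parameters -/
structure Par (X P R M : ℕ) (c1 : ℕ) : Prop where
  hP : P = ⌊(Real.log X) ^ c1⌋₊
  hR : R = ⌊(X : ℝ) ^ (9 / 20 : ℝ)⌋₊
  hM : M = X / (16 * (P * R))

/-- the truncated singular series -/
noncomputable def sg (Q N : ℕ) : ℝ :=
  ∑ q ∈ (Icc 1 Q).filter Squarefree, ((ArithmeticFunction.moebius q : ℤ) : ℝ) / (q.totient : ℝ) * Pool.Agent.Lib.SW.gq q N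

/-- the middle variable: exactly `k - 2` primes -/
noncomputable def aa (k P R M m : ℕ) : ℂ :=
  open Classical in if M < m ∧ m ≤ 2 * M ∧ Squarefree m ∧ m.primeFactors.card = k - 2 ∧
    ∀ p : ℕ, p.Prime → p ∣ m → 2 * P < p ∧ (p ≤ R ∨ 2 * R < p) then 1 else 0

/-- number of representations `N = p + m`, `m` squarefree with exactly `k` prime factors -/
def reps (k N : ℕ) : ℕ := ((range N).filter fun p => p.Prime ∧ Squarefree (N - p) ∧ (N - p).primeFactors.card = k).card

end Pool.Agent.Lib.G3
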