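import Pool.Agent.Lib.SW.Vaughan

/-!
# G2, row D4: moments of the divisor function
-/

set_option autoImplicit false

open Finset

namespace Pool.Agent.Lib.G3

open Pool.Agent.Lib.SW (Vaughan_swap Vaughan_card_mul Vaughan_harmonic)

theorem dv_group (f : ℕ → ℝ) (J : ℕ) :
    ∑ j ∈ Icc 1 J, (j.divisors.card : ℝ) * f j = ∑ a ∈ Icc 1 J, ∑ b ∈ Icc 1 (J / a), f (a * b) := by
  have h1 : ∑ j ∈ Icc 1 J, (j.divisors.card : ℝ) * f j =
      ∑ j ∈ Icc 1 J, ∑ p ∈ j.divisorsAntidiagonal, (fun a b : ℕ => f (a * b)) p.1 p.2 := by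
    refine sum_congr rfl fun j _ ↦ ?_
    have h2 : ∀ p ∈ j.divisorsAntidiagonal, (fun a b : ℕ => f (a * b)) p.1 p.2 = f j := by
      intro p hp
      rw [Nat.mem_divisorsAntidiagonal] at hp
      simp only
      rw [hp.1]
    rw [sum_congr rfl h2, sum_const, nsmul_eq_mul]
    have h3 : j.divisorsAntidiagonal.card = j.divisors.card := by
      have := Nat.sum_divisorsAntidiagonal (n := j) (f := fun _ _ : ℕ => (1 : ℕ))
      simpa using this
    rw [h3]
  exact h1.trans (Vaughan_swap (fun a b : ℕ => f (a * b)) J)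

theorem dv_D (k J : ℕ) (hJ : 1 ≤ J) : ∑ a ∈ Icc 1 J, (a.divisors.card : ℝ) ^ k / a ≤ (1 + Real.log J) ^ (2 ^ k) := by
  have hlog : 0 ≤ Real.log J := Real.log_nonneg (by exact_mod_cast hJ)
  induction k with
  | zero =>
    simp only [pow_zero, pow_one]
    exact Vaughan_harmonic J
  | succ k ih =>
    have h1 : ∑ a ∈ Icc 1 J, (a.divisors.card : ℝ) ^ (k + 1) / a =
        ∑ a ∈ Icc 1 J, (a.divisors.card : ℝ) * ((a.divisors.card : ℝ) ^ k / a) := by
      refine sum_congr rfl fun a _ => ?_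
      ring
    rw [h1, dv_group (fun n => (n.divisors.card : ℝ) ^ k / n) J]
    have h2 : ∀ a ∈ Icc 1 J, ∑ b ∈ Icc 1 (J / a), ((a * b).divisors.card : ℝ) ^ k / ((a * b : ℕ) : ℝ) ≤
        ((a.divisors.card : ℝ) ^ k / a) * ∑ b ∈ Icc 1 J, (b.divisors.card : ℝ) ^ k / b := by
      intro a ha
      rw [mem_Icc] at ha
      have ha0 : (0 : ℝ) < a := by exact_mod_cast ha.1
      rw [mul_sum]
      refine le_trans (sum_le_sum (g := fun b : ℕ => (a.divisors.card : ℝ) ^ k / a * ((b.divisors.card : ℝ) ^ k / b)) ?_)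
        (sum_le_sum_of_subset_of_nonneg ?_ ?_)
      · intro b hb
        rw [mem_Icc] at hb
        have hb0 : (0 : ℝ) < b := by exact_mod_cast hb.1
        rw [div_mul_div_comm, ← mul_pow]
        push_cast
        apply div_le_div_of_nonneg_right _ (by positivity)
        exact pow_le_pow_left₀ (by positivity) (Vaughan_card_mul a b) k
      · intro b hb
        rw [mem_Icc] at hb ⊢
        exact ⟨hb.1, hb.2.trans (Nat.div_le_self J a)⟩
      · intro b _ _
        positivity
    refine (sum_le_sum h2).trans ?_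
    rw [← sum_mul]
    calc (∑ a ∈ Icc 1 J, (a.divisors.card : ℝ) ^ k / a) * ∑ b ∈ Icc 1 J, (b.divisors.card : ℝ) ^ k / b
        ≤ (1 + Real.log J) ^ (2 ^ k) * (1 + Real.log J) ^ (2 ^ k) :=
          mul_le_mul ih ih (sum_nonneg fun _ _ => by positivity) (by positivity)
      _ = (1 + Real.log J) ^ (2 ^ (k + 1)) := by
          rw [← pow_add]
          congr 1
          ring

theorem dv_f (k J : ℕ) (hJ : 1 ≤ J) : ∑ a ∈ Icc 1 J, (a.divisors.card : ℝ) ^ k ≤ J * (1 + Real.log J) ^ (2 ^ k - 1) := by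
  induction k generalizing J with
  | zero => simp
  | succ k ih =>
    have hlog : 0 ≤ Real.log J := Real.log_nonneg (by exact_mod_cast hJ)
    have h1 : ∑ a ∈ Icc 1 J, (a.divisors.card : ℝ) ^ (k + 1) =
        ∑ a ∈ Icc 1 J, (a.divisors.card : ℝ) * (a.divisors.card : ℝ) ^ k := by
      refine sum_congr rfl fun a _ => ?_
      ring
    rw [h1, dv_group (fun n => (n.divisors.card : ℝ) ^ k) J]
    have h2 : ∀ a ∈ Icc 1 J, ∑ b ∈ Icc 1 (J / a), ((a * b).divisors.card : ℝ) ^ k ≤
        ((a.divisors.card : ℝ) ^ k / a) * (J * (1 + Real.log J) ^ (2 ^ k - 1)) := by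
      intro a ha
      rw [mem_Icc] at ha
      have ha0 : (0 : ℝ) < a := by exact_mod_cast ha.1
      have h6 : 1 ≤ J / a := (Nat.one_le_div_iff ha.1).mpr ha.2
      have h5 : ((J / a : ℕ) : ℝ) ≤ (J : ℝ) / a := Nat.cast_div_le
      have h7 : Real.log ((J / a : ℕ) : ℝ) ≤ Real.log J := by
        apply Real.log_le_log (by exact_mod_cast h6)
        exact_mod_cast Nat.div_le_self J a
      have h8 : 0 ≤ Real.log ((J / a : ℕ) : ℝ) := Real.log_nonneg (by exact_mod_cast h6)
      calc ∑ b ∈ Icc 1 (J / a), ((a * b).divisors.card : ℝ) ^ k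
          ≤ ∑ b ∈ Icc 1 (J / a), (a.divisors.card : ℝ) ^ k * (b.divisors.card : ℝ) ^ k := by
            refine sum_le_sum fun b _ => ?_
            rw [← mul_pow]
            exact pow_le_pow_left₀ (by positivity) (Vaughan_card_mul a b) k
        _ = (a.divisors.card : ℝ) ^ k * ∑ b ∈ Icc 1 (J / a), (b.divisors.card : ℝ) ^ k := by rw [mul_sum]
        _ ≤ (a.divisors.card : ℝ) ^ k * (((J / a : ℕ) : ℝ) * (1 + Real.log ((J / a : ℕ) : ℝ)) ^ (2 ^ k - 1)) :=
            mul_le_mul_of_nonneg_left (ih (J / a) h6) (by positivity)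
        _ ≤ (a.divisors.card : ℝ) ^ k * (((J : ℝ) / a) * (1 + Real.log J) ^ (2 ^ k - 1)) := by
            apply mul_le_mul_of_nonneg_left _ (by positivity)
            exact mul_le_mul h5 (pow_le_pow_left₀ (by linarith) (by linarith) _) (by positivity) (by positivity)
        _ = _ := by
            field_simp
    refine (sum_le_sum h2).trans ?_
    rw [← sum_mul]
    calc (∑ a ∈ Icc 1 J, (a.divisors.card : ℝ) ^ k / a) * (J * (1 + Real.log J) ^ (2 ^ k - 1))
        ≤ (1 + Real.log J) ^ (2 ^ k) * (J * (1 + Real.log J) ^ (2 ^ k - 1)) :=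
          mul_le_mul_of_nonneg_right (dv_D k J hJ) (by positivity)
      _ = J * (1 + Real.log J) ^ (2 ^ (k + 1) - 1) := by
          have h3 : 2 ^ (k + 1) - 1 = 2 ^ k + (2 ^ k - 1) := by
            have := Nat.one_le_two_pow (n := k)
            rw [pow_succ]
            omega
          rw [h3, pow_add]
          ring

theorem div4 (J : ℕ) (hJ : 1 ≤ J) : ∑ n ∈ Icc 1 J, ((n.divisors.card : ℝ)) ^ 4 ≤ J * (1 + Real.log J) ^ 15 := by
  have h := dv_f 4 J hJ
  norm_num at h
  exact h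

end Pool.Agent.Lib.G3
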