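import Pool.Agent.Lib.G3.Defs2
import Mathlib.Analysis.SpecialFunctions.Pow.Asymptotics

/-!
# G3, row PA: sizes of the parameters
-/

set_option autoImplicit false

open Finset Filter

namespace Pool.Agent.Lib.G3

/-- simple consequences -/
theorem par (c1 : ℕ) (hc : 2 ≤ c1) : ∃ x0 : ℝ, 100 ≤ x0 ∧ ∀ (X P R M : ℕ), x0 ≤ X → Par X P R M c1 → (Real.log X) ^ c1 / 2 ≤ P ∧ (P : ℝ) ≤ (Real.log X) ^ c1 ∧
    2 * P ≤ R ∧ (X : ℝ) ^ (1 / 4 : ℝ) ≤ R ∧ R ≤ X ∧ (X : ℝ) ^ (53 / 100 : ℝ) ≤ M ∧ M ≤ X ∧ 2 * R < M ∧ 16 * (P * M * R) ≤ X ∧ X ≤ 32 * (P * M * R) := by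
  have h := (isLittleO_log_rpow_rpow_atTop (s := 1 / 50) (c1 : ℝ) (by norm_num)).bound
    (c := 1 / 32) (by norm_num)
  obtain ⟨x1, hx1⟩ := eventually_atTop.1 h
  refine ⟨max x1 100, le_max_right _ _, ?_⟩
  intro X P R M hX hp
  have hX1 : x1 ≤ (X : ℝ) := (le_max_left _ _).trans hX
  have hX100 : (100 : ℝ) ≤ X := (le_max_right _ _).trans hX
  obtain ⟨hP, hR, hM⟩ := hp
  have h0 := hx1 X hX1
  have hx0 : (0 : ℝ) < X := by linarith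
  have hx1' : (1 : ℝ) ≤ X := by linarith
  have hl : (4 : ℝ) ≤ Real.log X := by
    rw [Real.le_log_iff_exp_le hx0]
    have h1 : Real.exp 4 = (Real.exp 1) ^ 4 := by
      rw [← Real.exp_nat_mul]; norm_num
    rw [h1]
    have h2 : Real.exp 1 ≤ 3 := by
      have := Real.exp_one_lt_d9; linarith
    calc (Real.exp 1) ^ 4 ≤ 3 ^ 4 := by gcongr
      _ ≤ 100 := by norm_num
      _ ≤ X := hX100
  have hl0 : (0 : ℝ) ≤ Real.log X := by linarith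
  rw [Real.rpow_natCast, Real.norm_of_nonneg (by positivity),
    Real.norm_of_nonneg (by positivity)] at h0
  have h32 : 32 * (Real.log X) ^ c1 ≤ (X : ℝ) ^ (1 / 50 : ℝ) := by linarith
  have h16 : (16 : ℝ) ≤ (Real.log X) ^ c1 := by
    calc (16 : ℝ) = 4 ^ 2 := by norm_num
      _ ≤ (Real.log X) ^ 2 := by gcongr
      _ ≤ (Real.log X) ^ c1 := pow_le_pow_right₀ (by linarith) hc
  set L := (Real.log X) ^ c1 with hL
  -- powers
  have hy : (512 : ℝ) ≤ (X : ℝ) ^ (1 / 50 : ℝ) := by linarith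
  have hmono : ∀ {a b : ℝ}, a ≤ b → (X : ℝ) ^ a ≤ (X : ℝ) ^ b := fun h =>
    Real.rpow_le_rpow_of_exponent_le hx1' h
  have e1 : (X : ℝ) ^ (9 / 20 : ℝ) = (X : ℝ) ^ (1 / 4 : ℝ) * (X : ℝ) ^ (1 / 5 : ℝ) := by
    rw [← Real.rpow_add hx0]; norm_num
  have e2 : (X : ℝ) ^ (53 / 100 : ℝ) = (X : ℝ) ^ (9 / 20 : ℝ) * (X : ℝ) ^ (2 / 25 : ℝ) := by
    rw [← Real.rpow_add hx0]; norm_num
  have e3 : (X : ℝ) = (X : ℝ) ^ (9 / 20 : ℝ) * ((X : ℝ) ^ (53 / 100 : ℝ) * (X : ℝ) ^ (1 / 50 : ℝ)) := by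
    rw [← Real.rpow_add hx0, ← Real.rpow_add hx0]; norm_num
  have g1 : (512 : ℝ) ≤ (X : ℝ) ^ (1 / 5 : ℝ) := hy.trans (hmono (by norm_num))
  have g2 : (512 : ℝ) ≤ (X : ℝ) ^ (2 / 25 : ℝ) := hy.trans (hmono (by norm_num))
  have g3 : (512 : ℝ) ≤ (X : ℝ) ^ (1 / 4 : ℝ) := hy.trans (hmono (by norm_num))
  have g4 : (512 : ℝ) ≤ (X : ℝ) ^ (9 / 20 : ℝ) := hy.trans (hmono (by norm_num))
  have g5 : (512 : ℝ) ≤ (X : ℝ) ^ (53 / 100 : ℝ) := hy.trans (hmono (by norm_num))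
  have hPle : (P : ℝ) ≤ L := by
    rw [hP]; exact Nat.floor_le (by positivity)
  have hPge : L < P + 1 := by
    rw [hP]; exact Nat.lt_floor_add_one _
  have hRle : (R : ℝ) ≤ (X : ℝ) ^ (9 / 20 : ℝ) := by
    rw [hR]; exact Nat.floor_le (by positivity)
  have hRge : (X : ℝ) ^ (9 / 20 : ℝ) < R + 1 := by
    rw [hR]; exact Nat.lt_floor_add_one _
  have hP0 : 0 < P := by
    have : (0 : ℝ) < P := by linarith
    exact_mod_cast this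
  have hR0 : 0 < R := by
    have : (0 : ℝ) < R := by linarith
    exact_mod_cast this
  have hPR : 0 < 16 * (P * R) := by positivity
  have hlt : X < (M + 1) * (16 * (P * R)) := by
    rw [hM, Nat.add_mul, one_mul]
    have := Nat.lt_div_mul_add (a := X) hPR
    exact this
  have hMge : (X : ℝ) ^ (53 / 100 : ℝ) ≤ M := by
    have h1 : (X : ℝ) < (M + 1) * (16 * (P * R)) := by exact_mod_cast hlt
    by_contra hcon
    push Not at hcon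
    have h2 : ((M : ℝ) + 1) ≤ 2 * (X : ℝ) ^ (53 / 100 : ℝ) := by linarith
    have h3 : (16 * ((P : ℝ) * R)) ≤ 16 * (L * (X : ℝ) ^ (9 / 20 : ℝ)) := by gcongr
    have h4 : ((M : ℝ) + 1) * (16 * (P * R)) ≤
        (2 * (X : ℝ) ^ (53 / 100 : ℝ)) * (16 * (L * (X : ℝ) ^ (9 / 20 : ℝ))) := by gcongr
    have h5 : (2 * (X : ℝ) ^ (53 / 100 : ℝ)) * (16 * (L * (X : ℝ) ^ (9 / 20 : ℝ))) =
        (X : ℝ) ^ (9 / 20 : ℝ) * ((X : ℝ) ^ (53 / 100 : ℝ) * (32 * L)) := by ring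
    have h6 : (X : ℝ) ^ (9 / 20 : ℝ) * ((X : ℝ) ^ (53 / 100 : ℝ) * (32 * L)) ≤
        (X : ℝ) ^ (9 / 20 : ℝ) * ((X : ℝ) ^ (53 / 100 : ℝ) * (X : ℝ) ^ (1 / 50 : ℝ)) := by gcongr
    rw [← e3] at h6
    linarith
  have hM1 : 1 ≤ M := by
    have : (1 : ℝ) ≤ M := by linarith
    exact_mod_cast this
  refine ⟨by linarith, hPle, ?_, ?_, ?_, hMge, ?_, ?_, ?_, ?_⟩
  · have : (2 * (P : ℝ)) ≤ R := by
      have h7 : (X : ℝ) ^ (1 / 50 : ℝ) ≤ (X : ℝ) ^ (9 / 20 : ℝ) := hmono (by norm_num)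
      linarith
    exact_mod_cast this
  · have h7 : 512 * (X : ℝ) ^ (1 / 4 : ℝ) ≤ (X : ℝ) ^ (9 / 20 : ℝ) := by
      rw [e1, mul_comm]; gcongr
    linarith
  · have h7 : (X : ℝ) ^ (9 / 20 : ℝ) ≤ (X : ℝ) := by
      calc (X : ℝ) ^ (9 / 20 : ℝ) ≤ (X : ℝ) ^ (1 : ℝ) := hmono (by norm_num)
        _ = X := Real.rpow_one _
    have : (R : ℝ) ≤ X := hRle.trans h7
    exact_mod_cast this
  · rw [hM]; exact Nat.div_le_self _ _
  · have h7 : (X : ℝ) ^ (9 / 20 : ℝ) * 512 ≤ (X : ℝ) ^ (53 / 100 : ℝ) := by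
      rw [e2]; gcongr
    have : (2 * (R : ℝ)) < M := by linarith
    exact_mod_cast this
  · have := Nat.div_mul_le_self X (16 * (P * R))
    rw [← hM] at this
    calc 16 * (P * M * R) = M * (16 * (P * R)) := by ring
      _ ≤ X := this
  · have : (M + 1) * (16 * (P * R)) ≤ 32 * (P * M * R) := by
      calc (M + 1) * (16 * (P * R)) ≤ (2 * M) * (16 * (P * R)) := by gcongr; omega
        _ = 32 * (P * M * R) := by ring
    exact hlt.le.trans this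

end Pool.Agent.Lib.G3
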