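import Pool.Agent.Lib.G3.Defs2
import Pool.Agent.Lib.Sieve.Mertens

/-!
# G3, row SI: the truncated singular series is at least `1/2` for almost all even `N` in a short window

The primes `p ≤ Q`; the complete product is at least `1` for even `N`; the part with `∏ > Q` is small on average, since
every set of primes `≤ Q` with product `> Q` contains one with product in `(Q, Q^2]`.
-/

set_option autoImplicit false

open Finset

namespace Pool.Agent.Lib.G3

/-- the factors -/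
noncomputable def siF (N p : ℕ) : ℝ := if p ∣ N then 1 / ((p : ℝ) - 1) else -(1 / ((p : ℝ) - 1) ^ 2)

/-- their moduli -/
noncomputable def siH (N p : ℕ) : ℝ := if p ∣ N then 1 / ((p : ℝ) - 1) else 1 / ((p : ℝ) - 1) ^ 2

/-- the primes up to `Q` -/
def siP (Q : ℕ) : Finset ℕ := (Icc 1 Q).filter Nat.Prime

theorem si_mem {Q p : ℕ} : p ∈ siP Q ↔ p ≤ Q ∧ p.Prime := by
  unfold siP
  rw [mem_filter, mem_Icc]
  constructor
  · rintro ⟨⟨_, h1⟩, h2⟩
    exact ⟨h1, h2⟩
  · rintro ⟨h1, h2⟩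
    exact ⟨⟨h2.one_lt.le, h1⟩, h2⟩

theorem si_sub {p : ℕ} (hp : p.Prime) : (1 : ℝ) ≤ (p : ℝ) - 1 := by
  have : (2 : ℝ) ≤ p := by exact_mod_cast hp.two_le
  linarith

theorem si_abs {N p : ℕ} (hp : p.Prime) : |siF N p| = siH N p := by
  have h := si_sub hp
  unfold siF siH
  split_ifs
  · rw [abs_of_pos (by positivity)]
  · rw [abs_neg, abs_of_pos (by positivity)]

theorem si_H0 {N p : ℕ} (hp : p.Prime) : 0 ≤ siH N p := by
  rw [← si_abs hp]
  exact abs_nonneg _

theorem si_H1 {N p : ℕ} (hp : p.Prime) : siH N p ≤ 1 / ((p : ℝ) - 1) := by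
  have h := si_sub hp
  unfold siH
  split_ifs
  · exact le_rfl
  · apply one_div_le_one_div_of_le (by linarith)
    nlinarith

theorem si_term (N : ℕ) {q : ℕ} (hq : Squarefree q) :
    ((ArithmeticFunction.moebius q : ℤ) : ℝ) / (q.totient : ℝ) * Pool.Agent.Lib.SW.gq q N = ∏ p ∈ q.primeFactors, siF N p := by
  rw [Pool.Agent.Lib.SW.rm_totient q hq, Pool.Agent.Lib.SW.rm_moebius q hq]
  unfold Pool.Agent.Lib.SW.gq
  push_cast
  rw [← Finset.prod_div_distrib, ← Finset.prod_mul_distrib]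
  refine Finset.prod_congr rfl fun p hp => ?_
  have hpp := Nat.prime_of_mem_primeFactors hp
  have h := si_sub hpp
  have hne : (p : ℝ) - 1 ≠ 0 := by linarith
  unfold siF
  by_cases hd : p ∣ N
  · rw [if_pos hd, if_pos (by exact_mod_cast hd)]
    field_simp
  · rw [if_neg hd, if_neg (by exact_mod_cast hd)]
    field_simp

theorem si_sqf {s : Finset ℕ} (hs : ∀ p ∈ s, p.Prime) : Squarefree (∏ p ∈ s, p) := by
  apply Finset.squarefree_prod_of_pairwise_isCoprime
  · intro p hp q hq hpq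
    have h := (Nat.coprime_primes (hs p hp) (hs q hq)).2 hpq
    exact Nat.coprime_iff_isRelPrime.1 h
  · intro p hp
    exact (hs p hp).squarefree

theorem si_sg (Q N : ℕ) :
    sg Q N = ∑ s ∈ (siP Q).powerset.filter (fun s => ∏ p ∈ s, p ≤ Q), ∏ p ∈ s, siF N p := by
  classical
  unfold sg
  refine Finset.sum_bij' (fun q _ => q.primeFactors) (fun s _ => ∏ p ∈ s, p) ?_ ?_ ?_ ?_ ?_
  · intro q hq
    rw [mem_filter, mem_Icc] at hq
    rw [mem_filter, mem_powerset]
    refine ⟨fun p hp => ?_, ?_⟩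
    · rw [si_mem]
      exact ⟨(Nat.le_of_mem_primeFactors hp).trans hq.1.2, Nat.prime_of_mem_primeFactors hp⟩
    · rw [Nat.prod_primeFactors_of_squarefree hq.2]
      exact hq.1.2
  · intro s hs
    rw [mem_filter, mem_powerset] at hs
    have hs' : ∀ p ∈ s, p.Prime := fun p hp => (si_mem.1 (hs.1 hp)).2
    rw [mem_filter, mem_Icc]
    refine ⟨⟨?_, hs.2⟩, si_sqf hs'⟩
    exact Finset.prod_pos fun p hp => (hs' p hp).pos
  · intro q hq
    rw [mem_filter] at hq
    exact Nat.prod_primeFactors_of_squarefree hq.2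
  · intro s hs
    rw [mem_filter, mem_powerset] at hs
    exact Nat.primeFactors_prod fun p hp => (si_mem.1 (hs.1 hp)).2
  · intro q hq
    rw [mem_filter] at hq
    exact si_term N hq.2

/-- a set of primes `≤ Q` with product `> Q` contains one with product in `(Q, Q^2]` -/
theorem si_div {Q : ℕ} (hQ : 1 ≤ Q) : ∀ (s : Finset ℕ), (∀ p ∈ s, p ≤ Q ∧ p.Prime) → Q < ∏ p ∈ s, p →
    ∃ t ⊆ s, Q < ∏ p ∈ t, p ∧ ∏ p ∈ t, p ≤ Q ^ 2 := by
  classical
  intro s
  induction s using Finset.induction_on with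
  | empty =>
    intro _ h
    rw [prod_empty] at h
    omega
  | insert a s ha ih =>
    intro hs h
    by_cases h1 : Q < ∏ p ∈ s, p
    · obtain ⟨t, ht, h2⟩ := ih (fun p hp => hs p (mem_insert_of_mem hp)) h1
      exact ⟨t, ht.trans (subset_insert _ _), h2⟩
    · refine ⟨insert a s, le_rfl, h, ?_⟩
      rw [prod_insert ha, sq]
      exact Nat.mul_le_mul (hs a (mem_insert_self _ _)).1 (not_lt.1 h1)

/-- tail of the expansion -/
theorem si_tail {Q : ℕ} (hQ : 1 ≤ Q) (N : ℕ) :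
    ∑ s ∈ (siP Q).powerset.filter (fun s => ¬ ∏ p ∈ s, p ≤ Q), ∏ p ∈ s, siH N p ≤
      (∑ t ∈ (siP Q).powerset.filter (fun t => Q < ∏ p ∈ t, p ∧ ∏ p ∈ t, p ≤ Q ^ 2), ∏ p ∈ t, siH N p) *
        ∏ p ∈ siP Q, (1 + siH N p) := by
  classical
  have hpr : ∀ s ⊆ siP Q, 0 ≤ ∏ p ∈ s, siH N p := fun s hs =>
    Finset.prod_nonneg fun p hp => si_H0 (si_mem.1 (hs hp)).2
  set B := (siP Q).powerset.filter (fun t => Q < ∏ p ∈ t, p ∧ ∏ p ∈ t, p ≤ Q ^ 2) with hB
  calc ∑ s ∈ (siP Q).powerset.filter (fun s => ¬ ∏ p ∈ s, p ≤ Q), ∏ p ∈ s, siH N p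
      ≤ ∑ s ∈ (siP Q).powerset.filter (fun s => ¬ ∏ p ∈ s, p ≤ Q), ∑ t ∈ B, (if t ⊆ s then ∏ p ∈ s, siH N p else 0) := by
        refine Finset.sum_le_sum fun s hs => ?_
        rw [mem_filter, mem_powerset, not_le] at hs
        obtain ⟨t, ht1, ht2⟩ := si_div hQ s (fun p hp => si_mem.1 (hs.1 hp)) hs.2
        have htB : t ∈ B := by
          rw [hB, mem_filter, mem_powerset]
          exact ⟨ht1.trans hs.1, ht2⟩
        have h0 : ∀ t ∈ B, 0 ≤ (if t ⊆ s then ∏ p ∈ s, siH N p else 0) := by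
          intro t _
          split_ifs
          · exact hpr s hs.1
          · exact le_rfl
        have := Finset.single_le_sum h0 htB
        rwa [if_pos ht1] at this
    _ ≤ ∑ s ∈ (siP Q).powerset, ∑ t ∈ B, (if t ⊆ s then ∏ p ∈ s, siH N p else 0) := by
        refine Finset.sum_le_sum_of_subset_of_nonneg (filter_subset _ _) fun s hs _ => ?_
        refine Finset.sum_nonneg fun t _ => ?_
        split_ifs
        · exact hpr s (mem_powerset.1 hs)
        · exact le_rfl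
    _ = ∑ t ∈ B, ∑ s ∈ (siP Q).powerset, (if t ⊆ s then ∏ p ∈ s, siH N p else 0) := Finset.sum_comm
    _ ≤ ∑ t ∈ B, (∏ p ∈ t, siH N p) * ∏ p ∈ siP Q, (1 + siH N p) := by
        refine Finset.sum_le_sum fun t ht => ?_
        rw [hB, mem_filter, mem_powerset] at ht
        rw [← Finset.sum_filter]
        have e1 : ∑ s ∈ (siP Q).powerset.filter (fun s => t ⊆ s), ∏ p ∈ s, siH N p =
            ∑ u ∈ (siP Q \ t).powerset, ∏ p ∈ t ∪ u, siH N p := by
          refine Finset.sum_bij' (fun s _ => s \ t) (fun u _ => t ∪ u) ?_ ?_ ?_ ?_ ?_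
          · intro s hs
            rw [mem_filter, mem_powerset] at hs
            rw [mem_powerset]
            exact Finset.sdiff_subset_sdiff hs.1 le_rfl
          · intro u hu
            rw [mem_powerset] at hu
            rw [mem_filter, mem_powerset]
            refine ⟨Finset.union_subset ht.1 (hu.trans sdiff_subset), subset_union_left⟩
          · intro s hs
            rw [mem_filter] at hs
            exact Finset.union_sdiff_of_subset hs.2
          · intro u hu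
            rw [mem_powerset] at hu
            rw [Finset.union_sdiff_left]
            refine Finset.sdiff_eq_self_of_disjoint ?_
            exact Finset.disjoint_of_subset_left hu Finset.sdiff_disjoint
          · intro s hs
            rw [mem_filter] at hs
            rw [Finset.union_sdiff_of_subset hs.2]
        rw [e1]
        have e2 : ∑ u ∈ (siP Q \ t).powerset, ∏ p ∈ t ∪ u, siH N p =
            (∏ p ∈ t, siH N p) * ∑ u ∈ (siP Q \ t).powerset, ∏ p ∈ u, siH N p := by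
          rw [Finset.mul_sum]
          refine Finset.sum_congr rfl fun u hu => ?_
          rw [mem_powerset] at hu
          rw [Finset.prod_union]
          exact (Finset.disjoint_of_subset_left hu Finset.sdiff_disjoint).symm
        rw [e2]
        refine mul_le_mul_of_nonneg_left ?_ (hpr t ht.1)
        rw [Finset.prod_one_add]
        refine Finset.sum_le_sum_of_subset_of_nonneg (Finset.powerset_mono.2 sdiff_subset) fun u hu _ => ?_
        exact hpr u (mem_powerset.1 hu)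
    _ = _ := by rw [Finset.sum_mul]

/-- the complete product -/
theorem si_even {Q N : ℕ} (hQ : 2 ≤ Q) (hN : Even N) : 1 ≤ ∏ p ∈ siP Q, (1 + siF N p) := by
  classical
  have hw : ∀ n : ℕ, 1 ≤ n → (1 / 2 + 1 / (4 * n) : ℝ) ≤ ∏ k ∈ Icc 1 n, (1 - 1 / (2 * (k : ℝ)) ^ 2) := by
    intro n hn
    induction n, hn using Nat.le_induction with
    | base => norm_num
    | succ n hn ih =>
      rw [Finset.prod_Icc_succ_top (by omega)]
      have hn0 : (0 : ℝ) < n := by exact_mod_cast hn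
      have h1 : (0 : ℝ) ≤ 1 - 1 / (2 * ((n + 1 : ℕ) : ℝ)) ^ 2 := by
        push_cast
        rw [sub_nonneg, div_le_one (by positivity)]
        nlinarith
      refine le_trans ?_ (mul_le_mul_of_nonneg_right ih h1)
      push_cast
      rw [← sub_nonneg]
      have : (1 / 2 + 1 / (4 * (n : ℝ))) * (1 - 1 / (2 * ((n : ℝ) + 1)) ^ 2) - (1 / 2 + 1 / (4 * ((n : ℝ) + 1))) =
          (2 * n + 3) / (16 * n * (n + 1) ^ 2) := by
        field_simp
        ring
      rw [this]
      positivity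
  have h2 : 2 ∈ siP Q := si_mem.2 ⟨hQ, Nat.prime_two⟩
  rw [← Finset.mul_prod_erase _ _ h2]
  have h3 : (1 : ℝ) + siF N 2 = 2 := by
    unfold siF
    rw [if_pos (even_iff_two_dvd.1 hN)]
    norm_num
  rw [h3]
  have hfac : ∀ k : ℕ, 1 ≤ k → (0 : ℝ) ≤ 1 - 1 / (2 * (k : ℝ)) ^ 2 ∧ 1 - 1 / (2 * (k : ℝ)) ^ 2 ≤ 1 := by
    intro k hk
    have hk0 : (1 : ℝ) ≤ k := by exact_mod_cast hk
    constructor
    · rw [sub_nonneg, div_le_one (by positivity)]
      nlinarith
    · have : 0 ≤ 1 / (2 * (k : ℝ)) ^ 2 := by positivity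
      linarith
  have hodd : ∀ p ∈ (siP Q).erase 2, ∃ k, 1 ≤ k ∧ p = 2 * k + 1 := by
    intro p hp
    rw [mem_erase, si_mem] at hp
    obtain ⟨k, hk⟩ := hp.2.2.odd_of_ne_two hp.1
    refine ⟨k, ?_, hk⟩
    rcases Nat.eq_zero_or_pos k with h | h
    · subst h
      exact absurd hp.2.2 (by rw [hk]; norm_num)
    · exact h
  have h4 : ∏ p ∈ (siP Q).erase 2, (1 - 1 / ((p : ℝ) - 1) ^ 2) ≤ ∏ p ∈ (siP Q).erase 2, (1 + siF N p) := by
    refine Finset.prod_le_prod ?_ ?_
    · intro p hp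
      obtain ⟨k, hk1, rfl⟩ := hodd p hp
      have := (hfac k hk1).1
      push_cast
      rwa [add_sub_cancel_right]
    · intro p hp
      rw [mem_erase, si_mem] at hp
      have h := si_sub hp.2.2
      unfold siF
      split_ifs
      · have h5 : 0 ≤ 1 / ((p : ℝ) - 1) := by positivity
        have h6 : 0 ≤ 1 / ((p : ℝ) - 1) ^ 2 := by positivity
        linarith
      · linarith
  have h5 : ∏ k ∈ Icc 1 Q, (1 - 1 / (2 * (k : ℝ)) ^ 2) ≤ ∏ p ∈ (siP Q).erase 2, (1 - 1 / ((p : ℝ) - 1) ^ 2) := by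
    have e : ∏ p ∈ (siP Q).erase 2, (1 - 1 / ((p : ℝ) - 1) ^ 2) =
        ∏ k ∈ ((siP Q).erase 2).image (fun p : ℕ => (p - 1) / 2), (1 - 1 / (2 * (k : ℝ)) ^ 2) := by
      rw [Finset.prod_image]
      · refine Finset.prod_congr rfl fun p hp => ?_
        obtain ⟨k, hk1, rfl⟩ := hodd p hp
        have : (2 * k + 1 - 1) / 2 = k := by omega
        rw [this]
        push_cast
        rw [add_sub_cancel_right]
      · intro p hp q hq hpq
        obtain ⟨k, hk1, rfl⟩ := hodd p hp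
        obtain ⟨k', hk1', rfl⟩ := hodd q hq
        simp only at hpq
        omega
    rw [e]
    refine Finset.prod_le_prod_of_subset_of_le_one ?_ ?_ ?_
    · intro k hk
      rw [mem_image] at hk
      obtain ⟨p, hp, rfl⟩ := hk
      obtain ⟨k, hk1, rfl⟩ := hodd p hp
      rw [mem_erase, si_mem] at hp
      rw [mem_Icc]
      omega
    · intro k hk
      exact (hfac k (mem_Icc.1 hk).1).1
    · intro k hk _
      exact (hfac k (mem_Icc.1 hk).1).2
  have h6 := hw Q (by omega)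
  have h7 : (0 : ℝ) ≤ 1 / (4 * Q) := by positivity
  linarith

/-- multiples in a window -/
theorem si_cnt {X H d : ℕ} (hd : 1 ≤ d) (hdH : d ≤ H) :
    (((Ioc X (X + H)).filter (fun N => d ∣ N)).card : ℝ) ≤ 2 * H / d := by
  have h1 := Finset.sum_Ioc_consecutive (fun N => if d ∣ N then 1 else 0) (Nat.zero_le X) (Nat.le_add_right X H)
  simp only [← Finset.card_filter] at h1
  rw [Nat.Ioc_filter_dvd_card_eq_div, Nat.Ioc_filter_dvd_card_eq_div] at h1
  have h2 : ((Ioc X (X + H)).filter (fun N => d ∣ N)).card ≤ H / d + 1 := by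
    have h3 : (X + H) / d ≤ X / d + H / d + 1 := by
      have h4 := Nat.div_add_mod X d
      have h5 := Nat.div_add_mod H d
      have h6 := Nat.mod_lt X hd
      have h7 := Nat.mod_lt H hd
      rw [Nat.div_le_iff_le_mul_add_pred hd]
      have h8 : d * (X / d + H / d + 1) = d * (X / d) + d * (H / d) + d := by ring
      omega
    omega
  have hd0 : (0 : ℝ) < d := by exact_mod_cast hd
  have h3 : (((H / d : ℕ) : ℕ) : ℝ) ≤ H / d := Nat.cast_div_le
  have h4 : (1 : ℝ) ≤ (H : ℝ) / d := by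
    rw [one_le_div hd0]
    exact_mod_cast hdH
  have h5 : (((Ioc X (X + H)).filter (fun N => d ∣ N)).card : ℝ) ≤ ((H / d : ℕ) : ℝ) + 1 := by
    exact_mod_cast h2
  have h6 : 2 * (H : ℝ) / d = H / d + H / d := by ring
  linarith

/-- the average over the window -/
theorem si_avg {X H : ℕ} (t : Finset ℕ) (ht : ∀ p ∈ t, p.Prime) (htH : ∏ p ∈ t, p ≤ H) :
    ∑ N ∈ Ioc X (X + H), ∏ p ∈ t, siH N p ≤ 2 * H * ∏ p ∈ t, (2 / ((p : ℝ) - 1) ^ 2) := by
  classical
  have h1 : ∀ N, ∏ p ∈ t, siH N p ≤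
      ∑ u ∈ t.powerset, (if (∏ p ∈ u, p) ∣ N then ∏ p ∈ u, 1 / ((p : ℝ) - 1) else 0) * ∏ p ∈ t \ u, 1 / ((p : ℝ) - 1) ^ 2 := by
    intro N
    have h2 : ∏ p ∈ t, siH N p ≤ ∏ p ∈ t, ((if p ∣ N then 1 / ((p : ℝ) - 1) else 0) + 1 / ((p : ℝ) - 1) ^ 2) := by
      refine Finset.prod_le_prod (fun p hp => si_H0 (ht p hp)) fun p hp => ?_
      have h := si_sub (ht p hp)
      have h3 : 0 ≤ 1 / ((p : ℝ) - 1) ^ 2 := by positivity
      unfold siH
      split_ifs
      · linarith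
      · linarith
    refine h2.trans ?_
    rw [Finset.prod_add]
    refine Finset.sum_le_sum fun u hu => ?_
    rw [mem_powerset] at hu
    refine mul_le_mul_of_nonneg_right ?_ (Finset.prod_nonneg fun p hp => by positivity)
    by_cases hd : (∏ p ∈ u, p) ∣ N
    · rw [if_pos hd]
      refine Finset.prod_le_prod ?_ ?_
      · intro p hp
        have h := si_sub (ht p (hu hp))
        split_ifs
        · positivity
        · exact le_rfl
      · intro p hp
        have h := si_sub (ht p (hu hp))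
        split_ifs
        · exact le_rfl
        · positivity
    · rw [if_neg hd]
      have : ∃ p ∈ u, ¬ p ∣ N := by
        by_contra hc
        push Not at hc
        exact hd (Finset.prod_primes_dvd N (fun p hp => (ht p (hu hp)).prime) hc)
      obtain ⟨p, hp, hpN⟩ := this
      rw [Finset.prod_eq_zero hp (by rw [if_neg hpN])]
  calc ∑ N ∈ Ioc X (X + H), ∏ p ∈ t, siH N p
      ≤ ∑ N ∈ Ioc X (X + H), ∑ u ∈ t.powerset,
          (if (∏ p ∈ u, p) ∣ N then ∏ p ∈ u, 1 / ((p : ℝ) - 1) else 0) * ∏ p ∈ t \ u, 1 / ((p : ℝ) - 1) ^ 2 :=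
        Finset.sum_le_sum fun N _ => h1 N
    _ = ∑ u ∈ t.powerset, (∑ N ∈ Ioc X (X + H), if (∏ p ∈ u, p) ∣ N then ∏ p ∈ u, 1 / ((p : ℝ) - 1) else 0) *
          ∏ p ∈ t \ u, 1 / ((p : ℝ) - 1) ^ 2 := by
        rw [Finset.sum_comm]
        refine Finset.sum_congr rfl fun u _ => ?_
        rw [Finset.sum_mul]
    _ ≤ ∑ u ∈ t.powerset, (2 * (H : ℝ) * ∏ p ∈ u, 1 / ((p : ℝ) - 1) ^ 2) * ∏ p ∈ t \ u, 1 / ((p : ℝ) - 1) ^ 2 := by
        refine Finset.sum_le_sum fun u hu => ?_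
        rw [mem_powerset] at hu
        have hup : ∀ p ∈ u, p.Prime := fun p hp => ht p (hu hp)
        refine mul_le_mul_of_nonneg_right ?_ (Finset.prod_nonneg fun p hp => by positivity)
        rw [← Finset.sum_filter, Finset.sum_const, nsmul_eq_mul]
        have hu1 : 1 ≤ ∏ p ∈ u, p := Finset.prod_pos fun p hp => (hup p hp).pos
        have hut : ∏ p ∈ u, p ≤ H := by
          refine le_trans ?_ htH
          exact Finset.prod_le_prod_of_subset_of_one_le' hu fun p hp _ => (ht p hp).one_lt.le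
        have h3 := si_cnt (X := X) hu1 hut
        have h4 : 0 ≤ ∏ p ∈ u, 1 / ((p : ℝ) - 1) := Finset.prod_nonneg fun p hp => by
          have := si_sub (hup p hp)
          positivity
        refine (mul_le_mul_of_nonneg_right h3 h4).trans ?_
        have h5 : 2 * (H : ℝ) / ((∏ p ∈ u, p : ℕ) : ℝ) * ∏ p ∈ u, 1 / ((p : ℝ) - 1) =
            2 * H * ∏ p ∈ u, (1 / (p : ℝ) * (1 / ((p : ℝ) - 1))) := by
          rw [Finset.prod_mul_distrib, Nat.cast_prod, Finset.prod_div_distrib (fun _ => (1 : ℝ)) (fun p : ℕ => (p : ℝ))]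
          rw [Finset.prod_const_one]
          ring
        rw [h5]
        refine mul_le_mul_of_nonneg_left ?_ (by positivity)
        refine Finset.prod_le_prod ?_ ?_
        · intro p hp
          have := si_sub (hup p hp)
          have h6 : (0 : ℝ) < p := by linarith
          positivity
        · intro p hp
          have h6 := si_sub (hup p hp)
          rw [sq, ← one_div_mul_one_div]
          refine mul_le_mul_of_nonneg_right ?_ (by positivity)
          apply one_div_le_one_div_of_le (by linarith)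
          linarith
    _ = 2 * H * ∏ p ∈ t, (2 / ((p : ℝ) - 1) ^ 2) := by
        have e : ∏ p ∈ t, (2 / ((p : ℝ) - 1) ^ 2) = ∏ p ∈ t, (1 / ((p : ℝ) - 1) ^ 2 + 1 / ((p : ℝ) - 1) ^ 2) := by
          refine Finset.prod_congr rfl fun p _ => ?_
          ring
        rw [e, Finset.prod_add, Finset.mul_sum]
        refine Finset.sum_congr rfl fun u _ => ?_
        ring

theorem si_mer : ∃ C : ℝ, 0 < C ∧ ∀ Q : ℕ, 2 ≤ Q → ∏ p ∈ siP Q, (1 + 1 / ((p : ℝ) - 1)) ≤ C * Real.log Q := by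
  obtain ⟨C, hC, h⟩ := Pool.Agent.Lib.Sieve.mertens_product_upper
  refine ⟨C, hC, fun Q hQ => ?_⟩
  refine le_trans (le_of_eq ?_) (h Q hQ)
  refine Finset.prod_congr rfl fun p hp => ?_
  have h1 := si_sub (si_mem.1 hp).2
  have h2 : (p : ℝ) - 1 ≠ 0 := by linarith
  have h3 : (p : ℝ) ≠ 0 := by linarith
  have h4 : (1 - 1 / (p : ℝ)) = ((p : ℝ) - 1) / p := by field_simp
  rw [h4, inv_div]
  field_simp
  ring

/-- the sum over the sets with large product -/
theorem si_big {Q : ℕ} (hQ : 1 ≤ Q) {K : ℝ} (hK : ∏ p ∈ siP Q, (1 + 1 / ((p : ℝ) - 1)) ≤ K) :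
    ∑ t ∈ (siP Q).powerset.filter (fun t => Q < ∏ p ∈ t, p ∧ ∏ p ∈ t, p ≤ Q ^ 2), ∏ p ∈ t, (2 / ((p : ℝ) - 1) ^ 2) ≤
      K ^ 3 / (Q : ℝ) := by
  classical
  have hQ0 : (0 : ℝ) < Q := by exact_mod_cast hQ
  have hpos : ∀ t ⊆ siP Q, 0 ≤ ∏ p ∈ t, (2 * (p : ℝ) / ((p : ℝ) - 1) ^ 2) := fun t ht =>
    Finset.prod_nonneg fun p _ => by positivity
  calc ∑ t ∈ (siP Q).powerset.filter (fun t => Q < ∏ p ∈ t, p ∧ ∏ p ∈ t, p ≤ Q ^ 2), ∏ p ∈ t, (2 / ((p : ℝ) - 1) ^ 2)
      ≤ ∑ t ∈ (siP Q).powerset.filter (fun t => Q < ∏ p ∈ t, p ∧ ∏ p ∈ t, p ≤ Q ^ 2),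
          (∏ p ∈ t, (2 * (p : ℝ) / ((p : ℝ) - 1) ^ 2)) / (Q : ℝ) := by
        refine Finset.sum_le_sum fun t ht => ?_
        rw [mem_filter, mem_powerset] at ht
        rw [le_div_iff₀ hQ0]
        have h1 : (Q : ℝ) ≤ ∏ p ∈ t, (p : ℝ) := by
          have h0 := ht.2.1.le
          have h0' : ((Q : ℕ) : ℝ) ≤ ((∏ p ∈ t, p : ℕ) : ℝ) := by exact_mod_cast h0
          rwa [Nat.cast_prod] at h0'

        have h2 : ∏ p ∈ t, (2 * (p : ℝ) / ((p : ℝ) - 1) ^ 2) = (∏ p ∈ t, (2 / ((p : ℝ) - 1) ^ 2)) * ∏ p ∈ t, (p : ℝ) := by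
          rw [← Finset.prod_mul_distrib]
          refine Finset.prod_congr rfl fun p _ => ?_
          ring
        rw [h2]
        refine mul_le_mul_of_nonneg_left h1 (Finset.prod_nonneg fun p _ => by positivity)
    _ ≤ ∑ t ∈ (siP Q).powerset, (∏ p ∈ t, (2 * (p : ℝ) / ((p : ℝ) - 1) ^ 2)) / (Q : ℝ) := by
        refine Finset.sum_le_sum_of_subset_of_nonneg (filter_subset _ _) fun t ht _ => ?_
        have := hpos t (mem_powerset.1 ht)
        positivity
    _ = (∏ p ∈ siP Q, (1 + 2 * (p : ℝ) / ((p : ℝ) - 1) ^ 2)) / (Q : ℝ) := by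
        rw [Finset.prod_one_add, Finset.sum_div]
    _ ≤ (∏ p ∈ siP Q, (1 + 1 / ((p : ℝ) - 1))) ^ 3 / (Q : ℝ) := by
        rw [← Finset.prod_pow]
        gcongr with p hp
        have h1 := si_sub (si_mem.1 hp).2
        set u := 1 / ((p : ℝ) - 1) with hu
        have hu0 : 0 < u := by positivity
        have h2 : 2 * (p : ℝ) / ((p : ℝ) - 1) ^ 2 = 2 * u + 2 * u ^ 2 := by
          rw [hu]
          have : (p : ℝ) - 1 ≠ 0 := by linarith
          field_simp
          ring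
        rw [h2]
        have h3 : (1 + u) ^ 3 = 1 + 3 * u + 3 * u ^ 2 + u ^ 3 := by ring
        rw [h3]
        have : 0 < u ^ 3 := by positivity
        nlinarith
    _ ≤ K ^ 3 / Q := by
        gcongr
        exact Finset.prod_nonneg fun p hp => by
          have := si_sub (si_mem.1 hp).2
          positivity

theorem sing (A : ℕ) : ∃ c : ℕ, ∀ c2 : ℕ, c ≤ c2 → ∃ x0 : ℝ, ∀ X : ℕ, x0 ≤ X → ∀ H : ℕ, (Real.log X) ^ (4 * c2 + 20) ≤ H → H ≤ X →
    (((Ioc X (X + H)).filter fun N => Even N ∧ sg ⌊(Real.log X) ^ c2⌋₊ N < 1 / 2).card : ℝ) ≤ H / (Real.log X) ^ A := by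
  classical
  obtain ⟨C, hC, hmer⟩ := si_mer
  refine ⟨A + 1, fun c2 hc2 => ?_⟩
  have hev := (Real.isLittleO_pow_log_id_atTop (n := 4)).def (c := 1 / (8 * (C * (c2 + 1)) ^ 4 + 1)) (by positivity)
  obtain ⟨L0, hL0⟩ := (hev.and (Filter.eventually_ge_atTop (10 : ℝ))).exists_forall_of_atTop
  refine ⟨Real.exp (max L0 10), fun X hX H hH hHX => ?_⟩
  have hX0 : (0 : ℝ) < X := lt_of_lt_of_le (Real.exp_pos _) hX
  set L := Real.log X with hL
  have hLm : max L0 10 ≤ L := by
    rw [hL, Real.le_log_iff_exp_le hX0]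
    exact hX
  obtain ⟨h1, h2⟩ := hL0 L ((le_max_left _ _).trans hLm)
  have hLpos : 0 < L := by linarith
  have hlogL : 0 ≤ Real.log L := Real.log_nonneg (by linarith)
  set Q := ⌊L ^ c2⌋₊ with hQ
  have hLc : (10 : ℝ) ≤ L ^ c2 := by
    have : L ^ 1 ≤ L ^ c2 := pow_le_pow_right₀ (by linarith) (by omega)
    rw [pow_one] at this
    linarith
  have hQle : (Q : ℝ) ≤ L ^ c2 := Nat.floor_le (by positivity)
  have hQge : L ^ c2 / 2 ≤ Q := by
    have h3 : L ^ c2 < Q + 1 := Nat.lt_floor_add_one _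
    linarith
  have hQ2r : (2 : ℝ) ≤ Q := by linarith
  have hQ2 : 2 ≤ Q := by exact_mod_cast hQ2r
  have hQ0 : (0 : ℝ) < Q := by linarith
  have hH0 : (0 : ℝ) ≤ H := Nat.cast_nonneg H
  set K := C * ((c2 + 1) * Real.log L) with hK
  have hlogQ : Real.log Q ≤ (c2 + 1) * Real.log L := by
    have h3 := Real.log_le_log hQ0 hQle
    rw [Real.log_pow] at h3
    linarith
  have hKm : ∏ p ∈ siP Q, (1 + 1 / ((p : ℝ) - 1)) ≤ K := by
    refine (hmer Q hQ2).trans ?_
    rw [hK]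
    gcongr
  have hK0 : 0 ≤ K := by positivity
  have hQ2H : Q ^ 2 ≤ H := by
    have h3 : ((Q ^ 2 : ℕ) : ℝ) ≤ H := by
      push_cast
      calc (Q : ℝ) ^ 2 ≤ (L ^ c2) ^ 2 := by gcongr
        _ = L ^ (2 * c2) := by ring
        _ ≤ L ^ (4 * c2 + 20) := pow_le_pow_right₀ (by linarith) (by omega)
        _ ≤ H := hH
    exact_mod_cast h3
  set B := (siP Q).powerset.filter (fun t => Q < ∏ p ∈ t, p ∧ ∏ p ∈ t, p ≤ Q ^ 2) with hB
  -- bad N
  have hbad : ∀ N ∈ (Ioc X (X + H)).filter (fun N => Even N ∧ sg Q N < 1 / 2),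
      (1 / 2 : ℝ) ≤ (∑ t ∈ B, ∏ p ∈ t, siH N p) * K := by
    intro N hN
    rw [mem_filter] at hN
    obtain ⟨_, hNe, hNs⟩ := hN
    have h3 := si_even hQ2 hNe
    rw [Finset.prod_one_add, ← Finset.sum_filter_add_sum_filter_not _ (fun s => ∏ p ∈ s, p ≤ Q), ← si_sg] at h3
    have h4 : ∑ s ∈ (siP Q).powerset.filter (fun s => ¬ ∏ p ∈ s, p ≤ Q), ∏ p ∈ s, siF N p ≤
        ∑ s ∈ (siP Q).powerset.filter (fun s => ¬ ∏ p ∈ s, p ≤ Q), ∏ p ∈ s, siH N p := by
      refine Finset.sum_le_sum fun s hs => ?_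
      rw [mem_filter, mem_powerset] at hs
      refine (le_abs_self _).trans ?_
      rw [Finset.abs_prod]
      exact le_of_eq (Finset.prod_congr rfl fun p hp => si_abs (si_mem.1 (hs.1 hp)).2)
    have h5 := si_tail (Q := Q) (by omega) N
    have h6 : ∏ p ∈ siP Q, (1 + siH N p) ≤ K := by
      refine le_trans (Finset.prod_le_prod ?_ ?_) hKm
      · intro p hp
        have := si_H0 (N := N) (si_mem.1 hp).2
        linarith
      · intro p hp
        have := si_H1 (N := N) (si_mem.1 hp).2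
        linarith
    have h7 : 0 ≤ ∑ t ∈ B, ∏ p ∈ t, siH N p := Finset.sum_nonneg fun t ht => by
      rw [hB, mem_filter, mem_powerset] at ht
      exact Finset.prod_nonneg fun p hp => si_H0 (si_mem.1 (ht.1 hp)).2
    have h8 := mul_le_mul_of_nonneg_left h6 h7
    linarith
  have hsum : (((Ioc X (X + H)).filter fun N => Even N ∧ sg Q N < 1 / 2).card : ℝ) * (1 / 2) ≤ K * (2 * H * (K ^ 3 / Q)) := by
    calc (((Ioc X (X + H)).filter fun N => Even N ∧ sg Q N < 1 / 2).card : ℝ) * (1 / 2)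
        ≤ ∑ N ∈ (Ioc X (X + H)).filter (fun N => Even N ∧ sg Q N < 1 / 2), (∑ t ∈ B, ∏ p ∈ t, siH N p) * K := by
          rw [← nsmul_eq_mul]
          exact Finset.card_nsmul_le_sum _ _ _ hbad
      _ ≤ ∑ N ∈ Ioc X (X + H), (∑ t ∈ B, ∏ p ∈ t, siH N p) * K := by
          refine Finset.sum_le_sum_of_subset_of_nonneg (filter_subset _ _) fun N _ _ => ?_
          refine mul_nonneg (Finset.sum_nonneg fun t ht => ?_) hK0
          rw [hB, mem_filter, mem_powerset] at ht
          exact Finset.prod_nonneg fun p hp => si_H0 (si_mem.1 (ht.1 hp)).2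
      _ = K * ∑ t ∈ B, ∑ N ∈ Ioc X (X + H), ∏ p ∈ t, siH N p := by
          rw [Finset.sum_comm, ← Finset.sum_mul, mul_comm]
      _ ≤ K * ∑ t ∈ B, 2 * (H : ℝ) * ∏ p ∈ t, (2 / ((p : ℝ) - 1) ^ 2) := by
          refine mul_le_mul_of_nonneg_left (Finset.sum_le_sum fun t ht => ?_) hK0
          rw [hB, mem_filter, mem_powerset] at ht
          exact si_avg t (fun p hp => (si_mem.1 (ht.1 hp)).2) (ht.2.2.trans hQ2H)
      _ = K * (2 * (H : ℝ) * ∑ t ∈ B, ∏ p ∈ t, (2 / ((p : ℝ) - 1) ^ 2)) := by rw [← Finset.mul_sum]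
      _ ≤ K * (2 * (H : ℝ) * (K ^ 3 / (Q : ℝ))) := by
          have := si_big (Q := Q) (by omega) hKm
          gcongr
  -- conclusion
  have hfin : 4 * K ^ 4 / Q ≤ 1 / L ^ A := by
    rw [div_le_div_iff₀ hQ0 (by positivity)]
    have h3 : L ^ A * L ≤ L ^ c2 := by
      rw [← pow_succ]
      exact pow_le_pow_right₀ (by linarith) hc2
    have h4 : 8 * K ^ 4 ≤ L := by
      have h5 := h1
      simp only [id, Real.norm_eq_abs] at h5
      rw [abs_of_pos hLpos, abs_of_nonneg (by positivity)] at h5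
      have h6 : K ^ 4 = (C * (c2 + 1)) ^ 4 * (Real.log L) ^ 4 := by
        rw [hK]
        ring
      set W := (C * ((c2 : ℝ) + 1)) ^ 4 with hW
      have hW0 : 0 ≤ W := by positivity
      calc 8 * K ^ 4 = 8 * W * (Real.log L) ^ 4 := by rw [h6]; ring
        _ ≤ (8 * W + 1) * (Real.log L) ^ 4 := by
            have : 0 ≤ (Real.log L) ^ 4 := by positivity
            nlinarith
        _ ≤ (8 * W + 1) * (1 / (8 * W + 1) * L) := by gcongr
        _ = L := by field_simp
    calc 4 * K ^ 4 * L ^ A ≤ (L / 2) * L ^ A := by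
          gcongr
          linarith
      _ = (L ^ A * L) / 2 := by ring
      _ ≤ L ^ c2 / 2 := by gcongr
      _ ≤ 1 * Q := by linarith
  have e : K * (2 * (H : ℝ) * (K ^ 3 / Q)) * 2 = H * (4 * K ^ 4 / Q) := by ring
  calc (((Ioc X (X + H)).filter fun N => Even N ∧ sg Q N < 1 / 2).card : ℝ)
      ≤ K * (2 * (H : ℝ) * (K ^ 3 / Q)) * 2 := by linarith
    _ = H * (4 * K ^ 4 / Q) := e
    _ ≤ H * (1 / L ^ A) := by gcongr
    _ = H / L ^ A := by ring

end Pool.Agent.Lib.G3
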