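import Pool.Agent.Lib.G3.MainT
import Pool.Agent.Lib.G3.Vb
import Pool.Agent.Lib.G3.Cm
import Pool.Agent.Lib.G3.Tri
import Pool.Agent.Lib.G3.Sing
import Pool.Agent.Lib.G3.AK
import Pool.Agent.Lib.G3.Par

/-!
# G3, row FI: the theorem for windows of a fixed power of the logarithm
-/

set_option autoImplicit false

open Finset Filter

namespace Pool.Agent.Lib.G3

open Pool.Agent.Lib.MRT (cj kap)
open Pool.Agent.Lib.GT (e)
open Pool.Agent.Lib.SW (nd gmin)

/-- powers of the logarithm are small -/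
theorem fi_pow (m : ℕ) : ∃ x0 : ℝ, ∀ X : ℕ, x0 ≤ X → 2 * (Real.log X) ^ m ≤ Real.sqrt X := by
  have h := (isLittleO_log_rpow_rpow_atTop (s := 1 / 2) (m : ℝ) (by norm_num)).bound
    (c := 1 / 2) (by norm_num)
  obtain ⟨x1, hx1⟩ := eventually_atTop.1 h
  refine ⟨max x1 1, fun X hX => ?_⟩
  have h1 := hx1 X ((le_max_left _ _).trans hX)
  have hX1 : (1 : ℝ) ≤ X := (le_max_right _ _).trans hX
  have hl : 0 ≤ Real.log X := Real.log_nonneg hX1
  rw [Real.rpow_natCast, Real.norm_of_nonneg (by positivity), Real.norm_of_nonneg (by positivity),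
    ← Real.sqrt_eq_rpow] at h1
  linarith

theorem fi_lp_nonneg (n : ℕ) : 0 ≤ lp n := by
  unfold lp
  split_ifs with h
  · exact Real.log_nonneg (by exact_mod_cast h.one_lt.le)
  · exact le_rfl

theorem fi_lp_le {X n : ℕ} (hX : 2 ≤ X) (hn : n ≤ 2 * X) : lp n ≤ 2 * Real.log X := by
  have hX0 : (0 : ℝ) < X := by positivity
  have h2 : Real.log (2 * X) ≤ 2 * Real.log X := by
    rw [Real.log_mul (by norm_num) hX0.ne']
    have : Real.log 2 ≤ Real.log X := Real.log_le_log (by norm_num) (by exact_mod_cast hX)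
    linarith
  have hl : 0 ≤ Real.log X := Real.log_nonneg (by exact_mod_cast (by omega : 1 ≤ X))
  unfold lp
  split_ifs with h
  · refine le_trans ?_ h2
    apply Real.log_le_log
    · exact_mod_cast h.pos
    · exact_mod_cast hn
  · positivity

theorem fi_lp_sum {X H : ℕ} (hX : 2 ≤ X) (hH : H ≤ X) :
    ∑ l ∈ Icc 0 (X + H), ‖((lp l : ℝ) : ℂ)‖ ^ 2 ≤ 12 * X * (Real.log X) ^ 2 := by
  have hl : 0 ≤ Real.log X := Real.log_nonneg (by exact_mod_cast (by omega : 1 ≤ X))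
  have h1 : ∀ l ∈ Icc 0 (X + H), ‖((lp l : ℝ) : ℂ)‖ ^ 2 ≤ (2 * Real.log X) ^ 2 := by
    intro l hl'
    rw [mem_Icc] at hl'
    rw [Complex.norm_real, Real.norm_of_nonneg (fi_lp_nonneg l)]
    exact pow_le_pow_left₀ (fi_lp_nonneg l) (fi_lp_le hX (by omega)) 2
  refine (sum_le_sum h1).trans ?_
  rw [sum_const, Nat.card_Icc, nsmul_eq_mul]
  have h2 : ((X + H + 1 - 0 : ℕ) : ℝ) ≤ 3 * X := by
    have : X + H + 1 - 0 ≤ 3 * X := by omega
    exact_mod_cast this
  calc ((X + H + 1 - 0 : ℕ) : ℝ) * (2 * Real.log X) ^ 2 ≤ 3 * X * (2 * Real.log X) ^ 2 := by gcongr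
    _ = _ := by ring

/-- the products with `N - n` prime are counted by `reps` -/
theorem fi_reps {k : ℕ} (hk : 3 ≤ k) {X P R M N : ℕ} (hX : 2 ≤ X) (hPR : 2 * P ≤ R) (hN : X < N) (hN2 : N ≤ 2 * X) :
    ‖∑ n ∈ Icc 1 X, bt (aa k P R M) P R M n * ((lp (N - n) : ℝ) : ℂ)‖ ≤ 2 * Real.log X * reps k N := by
  classical
  have hl : 0 ≤ Real.log X := Real.log_nonneg (by exact_mod_cast (by omega : 1 ≤ X))
  set S := (Icc 1 X).filter fun n => bt (aa k P R M) P R M n ≠ 0 ∧ (N - n).Prime with hS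
  have h1 : ∀ n ∈ Icc 1 X, ‖bt (aa k P R M) P R M n * ((lp (N - n) : ℝ) : ℂ)‖ ≤
      if bt (aa k P R M) P R M n ≠ 0 ∧ (N - n).Prime then 2 * Real.log X else 0 := by
    intro n hn
    rw [mem_Icc] at hn
    by_cases hb : bt (aa k P R M) P R M n ≠ 0
    · by_cases hp : (N - n).Prime
      · rw [if_pos ⟨hb, hp⟩, (aa_bt hk hPR hb).1, one_mul, Complex.norm_real,
          Real.norm_of_nonneg (fi_lp_nonneg _)]
        exact fi_lp_le hX (by omega)
      · have : lp (N - n) = 0 := by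
          unfold lp
          rw [if_neg hp]
        rw [this]
        simp [hp]
    · rw [not_not] at hb
      rw [hb]
      simp
  refine (norm_sum_le _ _).trans ((sum_le_sum h1).trans ?_)
  rw [← sum_filter, sum_const, nsmul_eq_mul, mul_comm]
  refine mul_le_mul_of_nonneg_left ?_ (by positivity)
  have h2 : S.card ≤ reps k N := by
    unfold reps
    refine card_le_card_of_injOn (fun n => N - n) ?_ ?_
    · intro n hn
      obtain ⟨hn1, hb, hp⟩ := mem_filter.1 (mem_coe.1 hn)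
      rw [mem_Icc] at hn1
      obtain ⟨-, hsq, hcard⟩ := aa_bt hk hPR hb
      have h3 : N - (N - n) = n := by omega
      have h4 : N - n < N := by omega
      refine mem_coe.2 (mem_filter.2 ⟨mem_range.2 h4, hp, ?_, ?_⟩)
      · rw [h3]; exact hsq
      · rw [h3]; exact hcard
    · intro n hn m hm hnm
      have hn1 := (mem_filter.1 (mem_coe.1 hn)).1
      have hm1 := (mem_filter.1 (mem_coe.1 hm)).1
      rw [mem_Icc] at hn1 hm1
      simp only at hnm
      omega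
  exact_mod_cast h2

/-- one bad `N` forces a large error term -/
theorem fi_bad {X P R M nn : ℕ} {l s : ℝ} {u v w : ℂ} (hl : 1024 ≤ l) (hs : 1 / 2 ≤ s) (hP : (P : ℝ) / (2 * l) ≤ (pr P).card)
    (hR : (R : ℝ) / (2 * l) ≤ (pr R).card) (hM : (M : ℝ) / l ^ 2 ≤ nn) (hX : X ≤ 32 * (P * M * R))
    (hw : w = ((pr P).card : ℂ) * nn * (pr R).card)
    (hu : ‖u‖ ≤ 2 * X / l ^ 5) (hv : ‖v - (s : ℂ) * w‖ ≤ X / l ^ 5) : (X : ℝ) / l ^ 5 ≤ ‖u - v‖ := by
  have hl0 : 0 < l := by linarith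
  have h1 : (X : ℝ) / (256 * l ^ 4) ≤ ‖(s : ℂ) * w‖ := by
    rw [hw, norm_mul, norm_mul, norm_mul, Complex.norm_real, Complex.norm_natCast, Complex.norm_natCast,
      Complex.norm_natCast, Real.norm_of_nonneg (by linarith)]
    have h2 : (X : ℝ) ≤ 32 * (P * M * R) := by exact_mod_cast hX
    have h3 : (P : ℝ) / (2 * l) * (M / l ^ 2) * (R / (2 * l)) ≤ (pr P).card * nn * (pr R).card := by gcongr
    calc (X : ℝ) / (256 * l ^ 4) ≤ 32 * (P * M * R) / (256 * l ^ 4) := by gcongr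
      _ = 1 / 2 * ((P : ℝ) / (2 * l) * (M / l ^ 2) * (R / (2 * l))) := by
          field_simp
          ring
      _ ≤ s * ((pr P).card * nn * (pr R).card) := by gcongr
  have h4 : 4 * ((X : ℝ) / l ^ 5) ≤ (X : ℝ) / (256 * l ^ 4) := by
    rw [← sub_nonneg]
    have : (X : ℝ) / (256 * l ^ 4) - 4 * ((X : ℝ) / l ^ 5) = X * (l - 1024) / (256 * l ^ 5) := by
      field_simp
      ring
    rw [this]
    have : 0 ≤ l - 1024 := by linarith
    positivity
  have h5 : ‖(s : ℂ) * w‖ ≤ ‖u - v‖ + ‖u‖ + ‖v - (s : ℂ) * w‖ := by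
    have : (s : ℂ) * w = -(u - v) + u - (v - (s : ℂ) * w) := by ring
    calc ‖(s : ℂ) * w‖ = ‖-(u - v) + u - (v - (s : ℂ) * w)‖ := by rw [← this]
      _ ≤ ‖-(u - v) + u‖ + ‖v - (s : ℂ) * w‖ := norm_sub_le _ _
      _ ≤ ‖-(u - v)‖ + ‖u‖ + ‖v - (s : ℂ) * w‖ := by
          gcongr
          exact norm_add_le _ _
      _ = _ := by rw [norm_neg]
  have h6 : 2 * (X : ℝ) / l ^ 5 = 2 * (X / l ^ 5) := by ring
  rw [h6] at hu
  linarith

theorem g3_core (k A : ℕ) (hk : 3 ≤ k) : ∃ (C : ℕ) (x0 : ℝ), ∀ X : ℕ, x0 ≤ X → ∀ H : ℕ, (Real.log X) ^ C ≤ H →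
    (H : ℝ) ≤ (Real.log X) ^ (C + 2) →
      (((Ioc X (X + H)).filter fun N => Even N ∧ (reps k N : ℝ) < X / (Real.log X) ^ 6).card : ℝ) ≤ H / (Real.log X) ^ A := by
  classical
  obtain ⟨c, hsing⟩ := sing (A + 1)
  obtain ⟨c2, hc2, B, hB⟩ := vb (A + 14) (max c 2)
  obtain ⟨c5, hmain⟩ := mainT 5 c2 B
  obtain ⟨c1, hc1, c6, hc6, x1, hvb⟩ := hB c5
  obtain ⟨x2, hmt⟩ := hmain c5 le_rfl c1 hc1
  obtain ⟨x3, hs⟩ := hsing c2 ((le_max_left _ _).trans hc2)
  have hc1' : 2 ≤ c1 := ((le_max_right _ _).trans hc2).trans hc1.le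
  obtain ⟨x4, hlow⟩ := aa_lower k hk c1 hc1'
  obtain ⟨x5, hx5, hpar⟩ := par c1 hc1'
  obtain ⟨x6, hprc⟩ := pr_card
  obtain ⟨x7, hpow⟩ := fi_pow (c6 + 2)
  refine ⟨c6, max (max (max x1 x2) (max x3 x4)) (max (max x5 (max x6 0 ^ 4)) (max (max x7 (Real.exp (2 * (max x6 0) + 2))) (Real.exp 1024))), ?_⟩
  intro X hX H hH1 hH2
  simp only [max_le_iff] at hX
  obtain ⟨⟨⟨hX1, hX2⟩, hX3, hX4⟩, ⟨hX5, hX6⟩, ⟨hX7, hX8⟩, hX9⟩ := hX
  have hX100 : (100 : ℝ) ≤ X := hx5.trans hX5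
  have hX0 : (0 : ℝ) < X := by linarith
  have hXn : 100 ≤ X := by exact_mod_cast hX100
  set l : ℝ := Real.log X with hl
  have hl1 : 1024 ≤ l := by
    rw [hl, Real.le_log_iff_exp_le hX0]
    exact hX9
  have hl0 : 0 < l := by linarith
  have hl2 : 2 * (max x6 0) + 2 ≤ l := by
    rw [hl, Real.le_log_iff_exp_le hX0]
    exact hX8
  set P : ℕ := ⌊(Real.log X) ^ c1⌋₊ with hPd
  set R : ℕ := ⌊(X : ℝ) ^ (9 / 20 : ℝ)⌋₊ with hRd
  set M : ℕ := X / (16 * (P * R)) with hMd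
  have hP : Par X P R M c1 := ⟨hPd, hRd, hMd⟩
  have hG : Good (aa k P R M) P R M := aa_good k P R M
  obtain ⟨p1, p2, p3, p4, p5, p6, p7, p8, p9, p10⟩ := hpar X P R M hX5 hP
  obtain ⟨H', T, hHH', hH'2, hT, hV⟩ := hvb X hX1 P R M H (aa k P R M) hP hG hH1 hH2
  obtain ⟨nn, hnn1, hnn2⟩ := hlow X hX4 P R M hP
  have hsq := hpow X hX7
  have hHs : (2 : ℝ) * H ≤ Real.sqrt X := by linarith
  have hH0 : 1 ≤ H := by
    have h1 : (1 : ℝ) ≤ H := (one_le_pow₀ (by linarith)).trans hH1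
    exact_mod_cast h1
  have hH'1 : 1 ≤ H' := hH0.trans hHH'
  have hH'0 : (0 : ℝ) < H' := by exact_mod_cast hH'1
  have hH'2r : (H' : ℝ) ≤ 2 * H := by exact_mod_cast hH'2
  have hsX : Real.sqrt X ≤ X := by
    rw [Real.sqrt_le_left hX0.le]
    nlinarith
  have hH'X : H' ≤ X := by
    have : (H' : ℝ) ≤ X := hH'2r.trans (hHs.trans hsX)
    exact_mod_cast this
  have hHX : H ≤ X := hHH'.trans hH'X
  set F : ℕ → ℂ := fun n => bt (aa k P R M) P R M n - MO (bt (aa k P R M) P R M) X ⌊(Real.log X) ^ c2⌋₊ R ⌊(Real.log X) ^ c5⌋₊ T (R / (Real.log X) ^ B) n with hF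
  have hF0 : F 0 = 0 := by
    have h1 : bt (aa k P R M) P R M 0 = 0 := by
      by_contra h
      have := (bt_supp hG p3 h).1
      omega
    have h2 : MO (bt (aa k P R M) P R M) X ⌊(Real.log X) ^ c2⌋₊ R ⌊(Real.log X) ^ c5⌋₊ T (R / (Real.log X) ^ B) 0 = 0 := by
      by_contra h
      have := (MO_supp h).1
      omega
    rw [hF]
    simp only [h1, h2, sub_zero]
  have h8 : 8 * (P * M * R) ≤ X := by omega
  have hFX : ∀ n, X < n → F n = 0 := by
    intro n hn
    have h1 : bt (aa k P R M) P R M n = 0 := by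
      by_contra h
      have := (bt_supp hG p3 h).2.1
      omega
    have h2 : MO (bt (aa k P R M) P R M) X ⌊(Real.log X) ^ c2⌋₊ R ⌊(Real.log X) ^ c5⌋₊ T (R / (Real.log X) ^ B) n = 0 := by
      by_contra h
      have := (MO_supp h).2
      omega
    rw [hF]
    simp only [h1, h2, sub_zero]
  have hcm := cm hH'1 F (fun n => ((lp n : ℝ) : ℂ)) hF0 hFX hV
  have hsum := fi_lp_sum (H := H') (by omega : 2 ≤ X) hH'X
  have hcm2 : ∑ N ∈ Ioc X (X + H'), ‖∑ n ∈ Icc 1 X, F n * ((lp (N - n) : ℝ) : ℂ)‖ ^ 2 ≤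
      36 * X ^ 2 * H' / l ^ (A + 12) := by
    refine hcm.trans ?_
    calc 3 * (X * (H' : ℝ) ^ 2 / (Real.log X) ^ (A + 14)) / H' * ∑ l ∈ Icc 0 (X + H'), ‖((lp l : ℝ) : ℂ)‖ ^ 2
        ≤ 3 * (X * (H' : ℝ) ^ 2 / (Real.log X) ^ (A + 14)) / H' * (12 * X * (Real.log X) ^ 2) := by gcongr
      _ = 36 * X ^ 2 * H' / l ^ (A + 12) := by
          rw [← hl]
          field_simp
          ring
  -- the two kinds of bad `N`
  set U1 := (Ioc X (X + H)).filter fun N => Even N ∧ sg ⌊(Real.log X) ^ c2⌋₊ N < 1 / 2 with hU1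
  set U2 := (Ioc X (X + H')).filter fun N => (X : ℝ) / l ^ 5 ≤ ‖∑ n ∈ Icc 1 X, F n * ((lp (N - n) : ℝ) : ℂ)‖ with hU2
  have hU1c : (U1.card : ℝ) ≤ H / l ^ (A + 1) := by
    refine hs X hX3 H ?_ hHX
    refine le_trans ?_ hH1
    exact pow_le_pow_right₀ (by linarith) hc6
  have hU2c : (U2.card : ℝ) * ((X : ℝ) / l ^ 5) ^ 2 ≤ 36 * X ^ 2 * H' / l ^ (A + 12) := by
    refine le_trans ?_ hcm2
    calc (U2.card : ℝ) * ((X : ℝ) / l ^ 5) ^ 2 = ∑ N ∈ U2, ((X : ℝ) / l ^ 5) ^ 2 := by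
          rw [sum_const, nsmul_eq_mul]
      _ ≤ ∑ N ∈ U2, ‖∑ n ∈ Icc 1 X, F n * ((lp (N - n) : ℝ) : ℂ)‖ ^ 2 := by
          refine sum_le_sum fun N hN => ?_
          exact pow_le_pow_left₀ (by positivity) (mem_filter.1 hN).2 2
      _ ≤ _ := sum_le_sum_of_subset_of_nonneg (filter_subset _ _) fun _ _ _ => by positivity
  have hU2c' : (U2.card : ℝ) ≤ 72 * H / l ^ (A + 2) := by
    have h1 : 0 < ((X : ℝ) / l ^ 5) ^ 2 := by positivity
    rw [← mul_le_mul_iff_of_pos_right h1]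
    refine hU2c.trans ?_
    have h2 : 72 * (H : ℝ) / l ^ (A + 2) * ((X : ℝ) / l ^ 5) ^ 2 = 36 * X ^ 2 * (2 * H) / l ^ (A + 12) := by
      field_simp
      ring
    rw [h2]
    gcongr
  have hsub : ((Ioc X (X + H)).filter fun N => Even N ∧ (reps k N : ℝ) < X / (Real.log X) ^ 6) ⊆ U1 ∪ U2 := by
    intro N hN
    obtain ⟨hN1, hN2, hN3⟩ := mem_filter.1 hN
    rw [mem_Ioc] at hN1
    rw [mem_union]
    by_cases hsg : sg ⌊(Real.log X) ^ c2⌋₊ N < 1 / 2
    · left
      exact mem_filter.2 ⟨mem_Ioc.2 hN1, hN2, hsg⟩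
    · right
      refine mem_filter.2 ⟨mem_Ioc.2 ⟨hN1.1, by omega⟩, ?_⟩
      have hNX : (N : ℝ) ≤ X + Real.sqrt X := by
        have h1 : (N : ℝ) ≤ X + H := by exact_mod_cast hN1.2
        have h2 : (0 : ℝ) ≤ H := by positivity
        linarith
      have hm := hmt X hX2 P R M T (aa k P R M) hP hG hT N hN1.1 hNX
      have hr := fi_reps (M := M) hk (by omega : 2 ≤ X) p3 hN1.1 (by omega : N ≤ 2 * X)
      have e1 : ∑ n ∈ Icc 1 X, F n * ((lp (N - n) : ℝ) : ℂ) =
          ∑ n ∈ Icc 1 X, bt (aa k P R M) P R M n * ((lp (N - n) : ℝ) : ℂ) -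
          ∑ n ∈ Icc 1 X, MO (bt (aa k P R M) P R M) X ⌊(Real.log X) ^ c2⌋₊ R ⌊(Real.log X) ^ c5⌋₊ T (R / (Real.log X) ^ B) n *
            ((lp (N - n) : ℝ) : ℂ) := by
        rw [← sum_sub_distrib]
        refine sum_congr rfl fun n _ => ?_
        rw [hF]
        ring
      rw [e1]
      have hP0 : 0 < P := by
        have h1 : (0 : ℝ) < P := lt_of_lt_of_le (by positivity) p1
        exact_mod_cast h1
      have hlogP : Real.log P ≤ l := by
        apply Real.log_le_log (by exact_mod_cast hP0)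
        have : P ≤ X := by omega
        exact_mod_cast this
      have hR0 : 0 < R := by omega
      have hlogR : Real.log R ≤ l := by
        apply Real.log_le_log (by exact_mod_cast hR0)
        exact_mod_cast p5
      have hPx : x6 ≤ P := by
        have h1 : l ≤ l ^ c1 := le_self_pow₀ (by linarith) (by omega)
        have h2 : x6 ≤ max x6 0 := le_max_left _ _
        have h3 : (0 : ℝ) ≤ max x6 0 := le_max_right _ _
        rw [← hl] at p1
        linarith
      have hRx : x6 ≤ R := by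
        refine hPx.trans ?_
        have : P ≤ R := by omega
        exact_mod_cast this
      have hPl : 0 < Real.log P ∨ P = 1 := by
        rcases Nat.lt_or_ge 1 P with h | h
        · left
          exact Real.log_pos (by exact_mod_cast h)
        · right
          omega
      have hP2 : 2 ≤ P := by
        have h1 : l ≤ l ^ c1 := le_self_pow₀ (by linarith) (by omega)
        rw [← hl] at p1
        have h2 : (2 : ℝ) ≤ P := by linarith
        exact_mod_cast h2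
      have hR2 : 2 ≤ R := by omega
      have hcP : (P : ℝ) / (2 * l) ≤ (pr P).card := by
        refine le_trans ?_ (hprc P hPx)
        have : 0 < Real.log P := Real.log_pos (by exact_mod_cast hP2)
        gcongr
      have hcR : (R : ℝ) / (2 * l) ≤ (pr R).card := by
        refine le_trans ?_ (hprc R hRx)
        have : 0 < Real.log R := Real.log_pos (by exact_mod_cast hR2)
        gcongr
      have hbt := bt_sum (a := aa k P R M) (P := P) (R := R) (M := M) (X := X) h8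
      rw [hnn1] at hbt
      refine fi_bad hl1 (not_lt.1 hsg) hcP hcR hnn2 p10 hbt ?_ hm
      refine hr.trans ?_
      calc 2 * Real.log X * reps k N ≤ 2 * l * (X / l ^ 6) := by
            rw [← hl]
            gcongr
        _ = 2 * X / l ^ 5 := by
            field_simp
  calc (((Ioc X (X + H)).filter fun N => Even N ∧ (reps k N : ℝ) < X / (Real.log X) ^ 6).card : ℝ)
      ≤ ((U1 ∪ U2).card : ℝ) := by exact_mod_cast card_le_card hsub
    _ ≤ U1.card + U2.card := by exact_mod_cast card_union_le _ _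
    _ ≤ H / l ^ (A + 1) + 72 * H / l ^ (A + 2) := add_le_add hU1c hU2c'
    _ ≤ H / l ^ A := by
        have h1 : (H : ℝ) / l ^ (A + 1) = H / l ^ A * (1 / l) := by
          rw [pow_succ]
          field_simp
        have h2 : 72 * (H : ℝ) / l ^ (A + 2) = H / l ^ A * (72 / l ^ 2) := by
          rw [pow_add]
          field_simp
        rw [h1, h2, ← mul_add]
        have h3 : 1 / l ≤ 1 / 2 := by
          apply one_div_le_one_div_of_le <;> linarith
        have h4 : 72 / l ^ 2 ≤ 1 / 2 := by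
          rw [div_le_div_iff₀ (by positivity) (by norm_num)]
          nlinarith
        have h5 : 0 ≤ (H : ℝ) / l ^ A := by positivity
        nlinarith

end Pool.Agent.Lib.G3
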