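import Pool.Agent.Lib.G3.Fin

/-!
# G3: the generic last step: mean square of the difference with a model gives the asymptotic formula for almost all `N`
-/

set_option autoImplicit false

open Finset

namespace Pool.Agent.Lib.G3

/-- if `F` minus its model has a small mean square at every frequency, and the model gives the main term, then the
main term is correct for almost all `N` of the window -/
theorem fin_asy {A X H H' : ℕ} {s : ℕ → ℝ} {F M : ℕ → ℂ} (hX : 2 ≤ X) (hl : 100 ≤ Real.log X) (hH1 : 1 ≤ H) (hHH : H ≤ H')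
    (hH2 : H' ≤ 2 * H) (hHs : 2 * (H : ℝ) ≤ Real.sqrt X) (hF0 : F 0 = 0) (hM0 : M 0 = 0) (hF : ∀ n, X < n → F n = 0)
    (hM : ∀ n, X < n → M n = 0)
    (hV : ∀ α : ℝ, VV (fun n => F n - M n) H' α (X + H' + 1) ≤ X * (H' : ℝ) ^ 2 / (Real.log X) ^ (3 * A + 6))
    (hm : ∀ N : ℕ, X < N → (N : ℝ) ≤ X + Real.sqrt X →
      ‖∑ n ∈ Icc 1 X, M n * ((lp (N - n) : ℝ) : ℂ) - ((s N : ℝ) : ℂ) * ∑ n ∈ Icc 1 X, F n‖ ≤ X / (Real.log X) ^ (A + 1)) :
    (((Ioc X (X + H)).filter fun N => (X : ℝ) / (Real.log X) ^ A <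
      ‖∑ n ∈ Icc 1 X, F n * ((lp (N - n) : ℝ) : ℂ) - ((s N : ℝ) : ℂ) * ∑ n ∈ Icc 1 X, F n‖).card : ℝ) ≤
        H / (Real.log X) ^ A := by
  classical
  have hX0 : (0 : ℝ) < X := by exact_mod_cast (by omega : 0 < X)
  have hX1 : (1 : ℝ) ≤ X := by exact_mod_cast (by omega : 1 ≤ X)
  obtain ⟨l, hld⟩ : ∃ l, l = Real.log X := ⟨_, rfl⟩
  rw [← hld] at hl hV hm ⊢
  have hl0 : 0 < l := by linarith
  have hl1 : 1 ≤ l := by linarith
  have hH'1 : 1 ≤ H' := hH1.trans hHH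
  have hH'0 : (0 : ℝ) < H' := by exact_mod_cast hH'1
  have hH0 : (0 : ℝ) < H := by exact_mod_cast hH1
  have hH'2r : (H' : ℝ) ≤ 2 * H := by exact_mod_cast hH2
  have hsX : Real.sqrt X ≤ X := by
    rw [Real.sqrt_le_left hX0.le]
    nlinarith
  have hH'X : H' ≤ X := by
    have : (H' : ℝ) ≤ X := hH'2r.trans (hHs.trans hsX)
    exact_mod_cast this
  set E : ℕ → ℂ := fun n => F n - M n with hE
  have hE0 : E 0 = 0 := by rw [hE]; simp only [hF0, hM0, sub_zero]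
  have hEX : ∀ n, X < n → E n = 0 := fun n hn => by rw [hE]; simp only [hF n hn, hM n hn, sub_zero]
  have hcm := cm hH'1 E (fun n => ((lp n : ℝ) : ℂ)) hE0 hEX hV
  have hsum := fi_lp_sum (H := H') hX hH'X
  rw [← hld] at hsum
  have hcm2 : ∑ N ∈ Ioc X (X + H'), ‖∑ n ∈ Icc 1 X, E n * ((lp (N - n) : ℝ) : ℂ)‖ ^ 2 ≤
      36 * X ^ 2 * H' / l ^ (3 * A + 4) := by
    refine hcm.trans ?_
    calc 3 * (X * (H' : ℝ) ^ 2 / l ^ (3 * A + 6)) / H' * ∑ m ∈ Icc 0 (X + H'), ‖((lp m : ℝ) : ℂ)‖ ^ 2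
        ≤ 3 * (X * (H' : ℝ) ^ 2 / l ^ (3 * A + 6)) / H' * (12 * X * l ^ 2) := by gcongr
      _ = 36 * X ^ 2 * H' / l ^ (3 * A + 4) := by
          rw [show 3 * A + 6 = (3 * A + 4) + 2 by ring, pow_add l (3 * A + 4) 2]
          field_simp
          ring
  set U := (Ioc X (X + H')).filter fun N => (X : ℝ) / l ^ (A + 1) ≤ ‖∑ n ∈ Icc 1 X, E n * ((lp (N - n) : ℝ) : ℂ)‖ with hU
  have hUc : (U.card : ℝ) * ((X : ℝ) / l ^ (A + 1)) ^ 2 ≤ 36 * X ^ 2 * H' / l ^ (3 * A + 4) := by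
    refine le_trans ?_ hcm2
    calc (U.card : ℝ) * ((X : ℝ) / l ^ (A + 1)) ^ 2 = ∑ N ∈ U, ((X : ℝ) / l ^ (A + 1)) ^ 2 := by
          rw [sum_const, nsmul_eq_mul]
      _ ≤ ∑ N ∈ U, ‖∑ n ∈ Icc 1 X, E n * ((lp (N - n) : ℝ) : ℂ)‖ ^ 2 := by
          refine sum_le_sum fun N hN => ?_
          exact pow_le_pow_left₀ (by positivity) (mem_filter.1 hN).2 2
      _ ≤ _ := sum_le_sum_of_subset_of_nonneg (filter_subset _ _) fun _ _ _ => by positivity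
  have hUc' : (U.card : ℝ) ≤ 72 * H / l ^ (A + 2) := by
    have h1 : 0 < ((X : ℝ) / l ^ (A + 1)) ^ 2 := by positivity
    rw [← mul_le_mul_iff_of_pos_right h1]
    refine hUc.trans ?_
    have h2 : 72 * (H : ℝ) / l ^ (A + 2) * ((X : ℝ) / l ^ (A + 1)) ^ 2 = 36 * X ^ 2 * (2 * H) / l ^ (3 * A + 4) := by
      rw [show 3 * A + 4 = (A + 2) + ((A + 1) + (A + 1)) by ring, pow_add l (A + 2), pow_add l (A + 1) (A + 1)]
      field_simp
      ring
    rw [h2]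
    gcongr
  have hsub : ((Ioc X (X + H)).filter fun N => (X : ℝ) / l ^ A <
      ‖∑ n ∈ Icc 1 X, F n * ((lp (N - n) : ℝ) : ℂ) - ((s N : ℝ) : ℂ) * ∑ n ∈ Icc 1 X, F n‖) ⊆ U := by
    intro N hN
    obtain ⟨hN1, hN3⟩ := mem_filter.1 hN
    rw [mem_Ioc] at hN1
    refine mem_filter.2 ⟨mem_Ioc.2 ⟨hN1.1, by omega⟩, ?_⟩
    have hNX : (N : ℝ) ≤ X + Real.sqrt X := by
      have h1 : (N : ℝ) ≤ X + H := by exact_mod_cast hN1.2
      linarith
    have hm' := hm N hN1.1 hNX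
    have e1 : ∑ n ∈ Icc 1 X, E n * ((lp (N - n) : ℝ) : ℂ) =
        ∑ n ∈ Icc 1 X, F n * ((lp (N - n) : ℝ) : ℂ) - ∑ n ∈ Icc 1 X, M n * ((lp (N - n) : ℝ) : ℂ) := by
      rw [← sum_sub_distrib]
      refine sum_congr rfl fun n _ => ?_
      rw [hE]
      ring
    rw [e1]
    set u := ∑ n ∈ Icc 1 X, F n * ((lp (N - n) : ℝ) : ℂ) with hu
    set v := ∑ n ∈ Icc 1 X, M n * ((lp (N - n) : ℝ) : ℂ) with hv
    set w := ((s N : ℝ) : ℂ) * ∑ n ∈ Icc 1 X, F n with hw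
    have h3 : ‖u - w‖ ≤ ‖u - v‖ + ‖v - w‖ := by
      have : u - w = (u - v) + (v - w) := by ring
      rw [this]
      exact norm_add_le _ _
    have h4 : (X : ℝ) / l ^ A = l * (X / l ^ (A + 1)) := by
      rw [pow_succ l A]
      field_simp
    have h5 : 0 ≤ (X : ℝ) / l ^ (A + 1) := by positivity
    rw [h4] at hN3
    nlinarith
  calc (((Ioc X (X + H)).filter fun N => (X : ℝ) / l ^ A <
      ‖∑ n ∈ Icc 1 X, F n * ((lp (N - n) : ℝ) : ℂ) - ((s N : ℝ) : ℂ) * ∑ n ∈ Icc 1 X, F n‖).card : ℝ)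
      ≤ (U.card : ℝ) := by exact_mod_cast card_le_card hsub
    _ ≤ 72 * H / l ^ (A + 2) := hUc'
    _ ≤ H / l ^ A := by
        have h2 : 72 * (H : ℝ) / l ^ (A + 2) = H / l ^ A * (72 / l ^ 2) := by
          rw [pow_add]
          field_simp
        rw [h2]
        have h4 : 72 / l ^ 2 ≤ 1 := by
          rw [div_le_one (by positivity)]
          nlinarith
        have h5 : 0 ≤ (H : ℝ) / l ^ A := by positivity
        nlinarith

/-- the same for windows that start at `Y ≥ X` -/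
theorem fin_asyY {A X Y H H' : ℕ} {s : ℕ → ℝ} {F M : ℕ → ℂ} (hX : 100 ≤ X) (hl : 100 ≤ Real.log X) (hXY : X ≤ Y)
    (hY : (Y : ℝ) + H ≤ X + Real.sqrt X) (hH1 : 1 ≤ H) (hHH : H ≤ H')
    (hH2 : H' ≤ 2 * H) (hF0 : F 0 = 0) (hM0 : M 0 = 0) (hF : ∀ n, X < n → F n = 0)
    (hM : ∀ n, X < n → M n = 0)
    (hV : ∀ α : ℝ, VV (fun n => F n - M n) H' α (X + H' + 1) ≤ X * (H' : ℝ) ^ 2 / (Real.log X) ^ (3 * A + 6))
    (hm : ∀ N : ℕ, X < N → (N : ℝ) ≤ X + Real.sqrt X →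
      ‖∑ n ∈ Icc 1 X, M n * ((lp (N - n) : ℝ) : ℂ) - ((s N : ℝ) : ℂ) * ∑ n ∈ Icc 1 X, F n‖ ≤ X / (Real.log X) ^ (A + 1)) :
    (((Ioc Y (Y + H)).filter fun N => (X : ℝ) / (Real.log X) ^ A <
      ‖∑ n ∈ Icc 1 X, F n * ((lp (N - n) : ℝ) : ℂ) - ((s N : ℝ) : ℂ) * ∑ n ∈ Icc 1 X, F n‖).card : ℝ) ≤
        H / (Real.log X) ^ A := by
  classical
  have hX0 : (0 : ℝ) < X := by exact_mod_cast (by omega : 0 < X)
  have hX1 : (1 : ℝ) ≤ X := by exact_mod_cast (by omega : 1 ≤ X)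
  have hX100 : (100 : ℝ) ≤ X := by exact_mod_cast hX
  have hs10 : 10 * Real.sqrt X ≤ X := by
    have h1 : (10 : ℝ) ≤ Real.sqrt X := by
      rw [Real.le_sqrt (by norm_num) hX0.le]
      norm_num
      linarith
    nlinarith [Real.mul_self_sqrt hX0.le, Real.sqrt_nonneg X]
  have hXY' : (X : ℝ) ≤ Y := by exact_mod_cast hXY
  have hHr0 : (0 : ℝ) ≤ H := Nat.cast_nonneg H
  have hY2 : Y ≤ 2 * X := by
    have : (Y : ℝ) ≤ 2 * X := by linarith
    exact_mod_cast this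
  have hY0 : (0 : ℝ) < Y := by linarith
  have hlogY : Real.log Y ≤ 2 * Real.log X := by
    have h1 : Real.log Y ≤ Real.log (2 * X) := Real.log_le_log hY0 (by exact_mod_cast hY2)
    rw [Real.log_mul (by norm_num) hX0.ne'] at h1
    have h2 : Real.log 2 ≤ 1 := by linarith [Real.log_two_lt_d9]
    linarith
  have hlogY0 : 0 ≤ Real.log Y := Real.log_nonneg (by linarith)
  obtain ⟨l, hld⟩ : ∃ l, l = Real.log X := ⟨_, rfl⟩
  rw [← hld] at hl hV hm hlogY ⊢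
  have hl0 : 0 < l := by linarith
  have hl1 : 1 ≤ l := by linarith
  have hH'1 : 1 ≤ H' := hH1.trans hHH
  have hH'0 : (0 : ℝ) < H' := by exact_mod_cast hH'1
  have hH0 : (0 : ℝ) < H := by exact_mod_cast hH1
  have hH'2r : (H' : ℝ) ≤ 2 * H := by exact_mod_cast hH2
  have hH'Y : H' ≤ Y := by
    have : (H' : ℝ) ≤ Y := by linarith
    exact_mod_cast this
  set E : ℕ → ℂ := fun n => F n - M n with hE
  have hE0 : E 0 = 0 := by rw [hE]; simp only [hF0, hM0, sub_zero]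
  have hEX : ∀ n, X < n → E n = 0 := fun n hn => by rw [hE]; simp only [hF n hn, hM n hn, sub_zero]
  have hV' : ∀ α : ℝ, VV E H' α (Y + H' + 1) ≤ X * (H' : ℝ) ^ 2 / l ^ (3 * A + 6) := by
    intro α
    rw [VV_stable hEX H' α (by omega : X + H' + 1 ≤ Y + H' + 1)]
    exact hV α
  have hcm := cm hH'1 E (fun n => ((lp n : ℝ) : ℂ)) hE0 (fun n hn => hEX n (by omega)) hV'
  have hsum := fi_lp_sum (H := H') (by omega : 2 ≤ Y) hH'Y
  have hsum2 : ∑ m ∈ Icc 0 (Y + H'), ‖((lp m : ℝ) : ℂ)‖ ^ 2 ≤ 96 * X * l ^ 2 := by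
    refine hsum.trans ?_
    have h1 : (Y : ℝ) ≤ 2 * X := by exact_mod_cast hY2
    calc 12 * (Y : ℝ) * (Real.log Y) ^ 2 ≤ 12 * (2 * X) * (2 * l) ^ 2 := by gcongr
      _ = 96 * X * l ^ 2 := by ring
  have hcm2 : ∑ N ∈ Ioc Y (Y + H'), ‖∑ n ∈ Icc 1 X, E n * ((lp (N - n) : ℝ) : ℂ)‖ ^ 2 ≤
      288 * X ^ 2 * H' / l ^ (3 * A + 4) := by
    have e1 : ∀ N, ∑ n ∈ Icc 1 Y, E n * ((lp (N - n) : ℝ) : ℂ) = ∑ n ∈ Icc 1 X, E n * ((lp (N - n) : ℝ) : ℂ) := by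
      intro N
      symm
      refine sum_subset (Icc_subset_Icc_right hXY) fun n hn hn2 => ?_
      rw [mem_Icc] at hn hn2
      rw [hEX n (by omega), zero_mul]
    simp only [e1] at hcm
    refine hcm.trans ?_
    calc 3 * (X * (H' : ℝ) ^ 2 / l ^ (3 * A + 6)) / H' * ∑ m ∈ Icc 0 (Y + H'), ‖((lp m : ℝ) : ℂ)‖ ^ 2
        ≤ 3 * (X * (H' : ℝ) ^ 2 / l ^ (3 * A + 6)) / H' * (96 * X * l ^ 2) := by gcongr
      _ = 288 * X ^ 2 * H' / l ^ (3 * A + 4) := by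
          rw [show 3 * A + 6 = (3 * A + 4) + 2 by ring, pow_add l (3 * A + 4) 2]
          field_simp
          ring
  set U := (Ioc Y (Y + H')).filter fun N => (X : ℝ) / l ^ (A + 1) ≤ ‖∑ n ∈ Icc 1 X, E n * ((lp (N - n) : ℝ) : ℂ)‖ with hU
  have hUc : (U.card : ℝ) * ((X : ℝ) / l ^ (A + 1)) ^ 2 ≤ 288 * X ^ 2 * H' / l ^ (3 * A + 4) := by
    refine le_trans ?_ hcm2
    calc (U.card : ℝ) * ((X : ℝ) / l ^ (A + 1)) ^ 2 = ∑ N ∈ U, ((X : ℝ) / l ^ (A + 1)) ^ 2 := by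
          rw [sum_const, nsmul_eq_mul]
      _ ≤ ∑ N ∈ U, ‖∑ n ∈ Icc 1 X, E n * ((lp (N - n) : ℝ) : ℂ)‖ ^ 2 := by
          refine sum_le_sum fun N hN => ?_
          exact pow_le_pow_left₀ (by positivity) (mem_filter.1 hN).2 2
      _ ≤ _ := sum_le_sum_of_subset_of_nonneg (filter_subset _ _) fun _ _ _ => by positivity
  have hUc' : (U.card : ℝ) ≤ 576 * H / l ^ (A + 2) := by
    have h1 : 0 < ((X : ℝ) / l ^ (A + 1)) ^ 2 := by positivity
    rw [← mul_le_mul_iff_of_pos_right h1]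
    refine hUc.trans ?_
    have h2 : 576 * (H : ℝ) / l ^ (A + 2) * ((X : ℝ) / l ^ (A + 1)) ^ 2 = 288 * X ^ 2 * (2 * H) / l ^ (3 * A + 4) := by
      rw [show 3 * A + 4 = (A + 2) + ((A + 1) + (A + 1)) by ring, pow_add l (A + 2), pow_add l (A + 1) (A + 1)]
      field_simp
      ring
    rw [h2]
    gcongr
  have hsub : ((Ioc Y (Y + H)).filter fun N => (X : ℝ) / l ^ A <
      ‖∑ n ∈ Icc 1 X, F n * ((lp (N - n) : ℝ) : ℂ) - ((s N : ℝ) : ℂ) * ∑ n ∈ Icc 1 X, F n‖) ⊆ U := by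
    intro N hN
    obtain ⟨hN1, hN3⟩ := mem_filter.1 hN
    rw [mem_Ioc] at hN1
    refine mem_filter.2 ⟨mem_Ioc.2 ⟨hN1.1, by omega⟩, ?_⟩
    have hNX : (N : ℝ) ≤ X + Real.sqrt X := by
      have h1 : (N : ℝ) ≤ Y + H := by exact_mod_cast hN1.2
      linarith
    have hm' := hm N (by omega) hNX
    have e1 : ∑ n ∈ Icc 1 X, E n * ((lp (N - n) : ℝ) : ℂ) =
        ∑ n ∈ Icc 1 X, F n * ((lp (N - n) : ℝ) : ℂ) - ∑ n ∈ Icc 1 X, M n * ((lp (N - n) : ℝ) : ℂ) := by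
      rw [← sum_sub_distrib]
      refine sum_congr rfl fun n _ => ?_
      rw [hE]
      ring
    rw [e1]
    set u := ∑ n ∈ Icc 1 X, F n * ((lp (N - n) : ℝ) : ℂ) with hu
    set v := ∑ n ∈ Icc 1 X, M n * ((lp (N - n) : ℝ) : ℂ) with hv
    set w := ((s N : ℝ) : ℂ) * ∑ n ∈ Icc 1 X, F n with hw
    have h3 : ‖u - w‖ ≤ ‖u - v‖ + ‖v - w‖ := by
      have : u - w = (u - v) + (v - w) := by ring
      rw [this]
      exact norm_add_le _ _
    have h4 : (X : ℝ) / l ^ A = l * (X / l ^ (A + 1)) := by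
      rw [pow_succ l A]
      field_simp
    have h5 : 0 ≤ (X : ℝ) / l ^ (A + 1) := by positivity
    rw [h4] at hN3
    nlinarith
  calc (((Ioc Y (Y + H)).filter fun N => (X : ℝ) / l ^ A <
      ‖∑ n ∈ Icc 1 X, F n * ((lp (N - n) : ℝ) : ℂ) - ((s N : ℝ) : ℂ) * ∑ n ∈ Icc 1 X, F n‖).card : ℝ)
      ≤ (U.card : ℝ) := by exact_mod_cast card_le_card hsub
    _ ≤ 576 * H / l ^ (A + 2) := hUc'
    _ ≤ H / l ^ A := by
        have h2 : 576 * (H : ℝ) / l ^ (A + 2) = H / l ^ A * (576 / l ^ 2) := by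
          rw [pow_add]
          field_simp
        rw [h2]
        have h4 : 576 / l ^ 2 ≤ 1 := by
          rw [div_le_one (by positivity)]
          nlinarith
        have h5 : 0 ≤ (H : ℝ) / l ^ A := by positivity
        nlinarith

/-- windows of length `h` cover longer windows -/
theorem fin_cover (E : ℕ → Prop) [DecidablePred E] {X H h : ℕ} {S ε : ℝ} (hh : 1 ≤ h) (hhH : h ≤ H) (hε : 0 ≤ ε) (hS : (H : ℝ) + h ≤ S)
    (hw : ∀ Y : ℕ, X ≤ Y → (Y : ℝ) + h ≤ X + S → (((Ioc Y (Y + h)).filter E).card : ℝ) ≤ h * ε) :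
    (((Ioc X (X + H)).filter E).card : ℝ) ≤ 2 * H * ε := by
  classical
  have hcov : (Ioc X (X + H)).filter E ⊆
      (range (H / h + 1)).biUnion fun i => (Ioc (X + i * h) (X + i * h + h)).filter E := by
    intro N hN
    rw [mem_filter, mem_Ioc] at hN
    obtain ⟨⟨h1, h2⟩, h3⟩ := hN
    rw [mem_biUnion]
    refine ⟨(N - X - 1) / h, ?_, ?_⟩
    · rw [mem_range]
      have : (N - X - 1) / h ≤ H / h := Nat.div_le_div_right (by omega)
      omega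
    · rw [mem_filter, mem_Ioc]
      have ha : (N - X - 1) / h * h ≤ N - X - 1 := Nat.div_mul_le_self _ _
      have hb : N - X - 1 < ((N - X - 1) / h + 1) * h := by
        have := Nat.lt_div_mul_add (a := N - X - 1) (b := h) (by omega)
        calc N - X - 1 < (N - X - 1) / h * h + h := this
          _ = ((N - X - 1) / h + 1) * h := by ring
      have hc : ((N - X - 1) / h + 1) * h = (N - X - 1) / h * h + h := by ring
      rw [hc] at hb
      exact ⟨⟨by omega, by omega⟩, h3⟩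
  have h0 : ((range (H / h + 1)).card : ℝ) * (h * ε) ≤ 2 * H * ε := by
    rw [card_range]
    have h1 : (H / h + 1) * h ≤ 2 * H := by
      have := Nat.div_mul_le_self H h
      calc (H / h + 1) * h = H / h * h + h := by ring
        _ ≤ H + H := by omega
        _ = 2 * H := by ring
    have h2 : ((H / h + 1 : ℕ) : ℝ) * h ≤ 2 * H := by exact_mod_cast h1
    calc ((H / h + 1 : ℕ) : ℝ) * (h * ε) = (((H / h + 1 : ℕ) : ℝ) * h) * ε := by ring
      _ ≤ 2 * H * ε := mul_le_mul_of_nonneg_right h2 hε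
  refine le_trans ?_ h0
  have h1 : (((Ioc X (X + H)).filter E).card : ℝ) ≤
      ∑ i ∈ range (H / h + 1), (((Ioc (X + i * h) (X + i * h + h)).filter E).card : ℝ) := by
    exact_mod_cast (card_le_card hcov).trans card_biUnion_le
  refine h1.trans ?_
  rw [← nsmul_eq_mul]
  refine sum_le_card_nsmul _ _ _ fun i hi => ?_
  rw [mem_range] at hi
  have hi2 : i * h ≤ H := (Nat.mul_le_mul_right h (by omega : i ≤ H / h)).trans (Nat.div_mul_le_self H h)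
  refine hw (X + i * h) (by omega) ?_
  have hi3 : (i : ℝ) * h ≤ H := by exact_mod_cast hi2
  push_cast
  linarith

end Pool.Agent.Lib.G3
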