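import Pool.Agent.Lib.G3.CntQ

/-!
# G2, row JC: the number of frequencies of the model `J2`
-/

set_option autoImplicit false

open Finset

namespace Pool.Agent.Lib.G3

open Pool.Agent.Lib.MRT (cj kap)
open Pool.Agent.Lib.GT (e)

theorem J2_card (B : ℕ) : ∃ x0 : ℝ, ∀ X : ℕ, x0 ≤ X → ∀ q T0 T : ℕ, 1 ≤ q → T ≤ X →
    (((J2 q X T0 T B).filter fun j => (T0 : ℤ) < |j|).card : ℝ) ≤ q * (Real.log X) ^ (4 * B + 12) ∧
    ((J2 q X T0 T B).card : ℝ) ≤ 2 * T0 + 1 + q * (Real.log X) ^ (4 * B + 12) := by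
  classical
  obtain ⟨x0, hx0⟩ := cntQ B
  refine ⟨x0, fun X hX q T0 T hq hT => ?_⟩
  have h1 : (((J2 q X T0 T B).filter fun j => (T0 : ℤ) < |j|).card : ℝ) ≤ q * (Real.log X) ^ (4 * B + 12) := by
    refine hx0 X hX q T hq hT _ fun j hj => ?_
    rw [mem_filter] at hj
    obtain ⟨hj1, hj2⟩ := hj
    unfold J2 at hj1
    rw [mem_filter, mem_Icc] at hj1
    refine ⟨?_, ?_⟩
    · have h2 : |j| ≤ (T : ℤ) := abs_le.2 hj1.1
      exact_mod_cast h2
    · rcases hj1.2 with h | h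
      · exact absurd h (not_le.2 hj2)
      · exact h
  refine ⟨h1, ?_⟩
  have h3 : (((J2 q X T0 T B).filter fun j => ¬ (T0 : ℤ) < |j|).card : ℝ) ≤ 2 * T0 + 1 := by
    have h4 : ((J2 q X T0 T B).filter fun j => ¬ (T0 : ℤ) < |j|) ⊆ Icc (-(T0 : ℤ)) T0 := by
      intro j hj
      rw [mem_filter] at hj
      rw [mem_Icc]
      exact abs_le.1 (not_lt.1 hj.2)
    have h5 : (Icc (-(T0 : ℤ)) T0).card = 2 * T0 + 1 := by
      rw [Int.card_Icc]
      omega
    have h6 := card_le_card h4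
    rw [h5] at h6
    exact_mod_cast h6
  have h7 := card_filter_add_card_filter_not (s := J2 q X T0 T B) (fun j : ℤ => (T0 : ℤ) < |j|)
  have h8 : ((J2 q X T0 T B).card : ℝ) = (((J2 q X T0 T B).filter fun j => (T0 : ℤ) < |j|).card : ℝ) +
      (((J2 q X T0 T B).filter fun j => ¬ (T0 : ℤ) < |j|).card : ℝ) := by
    rw [← h7]
    push_cast
    rfl
  rw [h8]
  linarith

end Pool.Agent.Lib.G3
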