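import Pool.Agent.Lib.G3.Sing

/-!
# The singular series of Hardy and Littlewood and its truncation

`SS N = 2 C_2 ∏_{p | N, p > 2} (p-1)/(p-2)` for even `N`, `0` for odd `N`. For almost all `N` of a short window the truncated
series `sg Q N`, `Q` a large power of `log X`, is equal to `SS N` up to a power of `1 / log X`.
-/

set_option autoImplicit false

open Finset

namespace Pool.Agent.Lib.G3

/-- the factor of the twin prime constant -/
noncomputable def tc (p : ℕ) : ℝ := if p.Prime ∧ 2 < p then 1 - 1 / ((p : ℝ) - 1) ^ 2 else 1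

/-- the twin prime constant `∏_{p > 2} (1 - 1/(p-1)^2)` -/
noncomputable def C2 : ℝ := ∏' p : ℕ, tc p

/-- the singular series of Hardy and Littlewood for `N = p + p'` -/
noncomputable def SS (N : ℕ) : ℝ :=
  if Even N then 2 * C2 * ∏ p ∈ N.primeFactors.filter (fun p => 2 < p), ((p : ℝ) - 1) / ((p : ℝ) - 2) else 0

theorem ss_tc_le (p : ℕ) : tc p ≤ 1 := by
  unfold tc
  split_ifs with h
  · have : (0 : ℝ) ≤ 1 / ((p : ℝ) - 1) ^ 2 := by positivity
    linarith
  · exact le_rfl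

theorem ss_tc_pos (p : ℕ) : 0 < tc p := by
  unfold tc
  split_ifs with h
  · have h3 : (3 : ℝ) ≤ p := by exact_mod_cast h.2
    have h4 : (4 : ℝ) ≤ ((p : ℝ) - 1) ^ 2 := by nlinarith
    have h5 : 1 / ((p : ℝ) - 1) ^ 2 ≤ 1 / 4 := one_div_le_one_div_of_le (by norm_num) h4
    linarith
  · exact one_pos

theorem ss_one_sub (s : Finset ℕ) : 1 - ∑ p ∈ s, (1 - tc p) ≤ ∏ p ∈ s, tc p := by
  classical
  induction s using Finset.induction_on with
  | empty => simp
  | insert a s ha ih =>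
    rw [sum_insert ha, prod_insert ha]
    have h1 : ∏ p ∈ s, tc p ≤ 1 := Finset.prod_le_one (fun p _ => (ss_tc_pos p).le) fun p _ => ss_tc_le p
    have h2 := ss_tc_le a
    have h3 := ss_tc_pos a
    nlinarith

theorem ss_one_sub_tc (p : ℕ) (hp : 2 ≤ p) : 1 - tc p ≤ (((p - 1 : ℕ) : ℝ) ^ 2)⁻¹ := by
  have h0 : ((p - 1 : ℕ) : ℝ) = (p : ℝ) - 1 := by
    rw [Nat.cast_sub (by omega)]
    simp
  rw [h0]
  unfold tc
  split_ifs with h
  · rw [one_div]
    linarith
  · have : (0 : ℝ) ≤ (((p : ℝ) - 1) ^ 2)⁻¹ := by positivity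
    linarith

theorem ss_tail_sum {Q : ℕ} (hQ : 2 ≤ Q) (s : Finset ℕ) (hs : ∀ p ∈ s, Q < p) : ∑ p ∈ s, (1 - tc p) ≤ 2 / Q := by
  classical
  have h1 : ∑ p ∈ s, (1 - tc p) ≤ ∑ p ∈ s, (((p - 1 : ℕ) : ℝ) ^ 2)⁻¹ :=
    sum_le_sum fun p hp => ss_one_sub_tc p (by have := hs p hp; omega)
  have h2 : ∑ p ∈ s, (((p - 1 : ℕ) : ℝ) ^ 2)⁻¹ = ∑ i ∈ s.image (fun p : ℕ => p - 1), ((i : ℝ) ^ 2)⁻¹ := by
    rw [Finset.sum_image]
    intro a ha b hb hab
    have h3 := hs a ha
    have h4 := hs b hb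
    simp only at hab
    omega
  have h3 : s.image (fun p : ℕ => p - 1) ⊆ Ioo (Q - 1) (s.sup id + 1) := by
    intro i hi
    rw [mem_image] at hi
    obtain ⟨p, hp, rfl⟩ := hi
    have h4 := hs p hp
    have h5 : p ≤ s.sup id := Finset.le_sup (f := id) hp
    rw [mem_Ioo]
    omega
  have h4 : ∑ i ∈ s.image (fun p : ℕ => p - 1), ((i : ℝ) ^ 2)⁻¹ ≤ ∑ i ∈ Ioo (Q - 1) (s.sup id + 1), ((i : ℝ) ^ 2)⁻¹ :=
    sum_le_sum_of_subset_of_nonneg h3 fun _ _ _ => by positivity
  have h5 := sum_Ioo_inv_sq_le (α := ℝ) (Q - 1) (s.sup id + 1)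
  have h6 : (((Q - 1 : ℕ) : ℝ) + 1) = Q := by
    rw [Nat.cast_sub (by omega)]
    simp
  rw [h6] at h5
  linarith

theorem ss_mult : Multipliable tc := by
  have h1 : Summable fun p : ℕ => tc p - 1 := by
    have h2 : Summable fun p : ℕ => 4 * (1 / (p : ℝ) ^ 2) := (Real.summable_one_div_nat_pow.2 (by norm_num)).mul_left 4
    refine Summable.of_norm_bounded h2 fun p => ?_
    rw [Real.norm_eq_abs, abs_sub_comm, abs_of_nonneg (by have := ss_tc_le p; linarith)]
    by_cases hp : 2 ≤ p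
    · refine (ss_one_sub_tc p hp).trans ?_
      have h0 : ((p - 1 : ℕ) : ℝ) = (p : ℝ) - 1 := by
        rw [Nat.cast_sub (by omega)]
        simp
      have h3 : (2 : ℝ) ≤ p := by exact_mod_cast hp
      rw [h0, ← one_div, mul_one_div, div_le_div_iff₀ (by nlinarith) (by positivity)]
      nlinarith
    · have : tc p = 1 := by
        unfold tc
        rw [if_neg]
        rintro ⟨_, h⟩
        omega
      rw [this]
      simp
  have h3 := Real.multipliable_one_add_of_summable h1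
  simpa using h3

/-- the twin prime constant and its partial products -/
theorem ss_C2 {Q : ℕ} (hQ : 2 ≤ Q) :
    (∏ p ∈ range (Q + 1), tc p) * (1 - 2 / Q) ≤ C2 ∧ C2 ≤ ∏ p ∈ range (Q + 1), tc p := by
  classical
  have h1 : Filter.Tendsto (fun s : Finset ℕ => ∏ p ∈ s, tc p) Filter.atTop (nhds C2) := ss_mult.hasProd
  have hA : 0 ≤ ∏ p ∈ range (Q + 1), tc p := prod_nonneg fun p _ => (ss_tc_pos p).le
  have hsplit : ∀ s : Finset ℕ, range (Q + 1) ⊆ s →
      ∏ p ∈ s, tc p = (∏ p ∈ range (Q + 1), tc p) * ∏ p ∈ s \ range (Q + 1), tc p := by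
    intro s hs
    rw [mul_comm, Finset.prod_sdiff hs]
  constructor
  · refine ge_of_tendsto h1 ?_
    filter_upwards [Filter.eventually_ge_atTop (range (Q + 1))] with s hs
    rw [hsplit s hs]
    refine mul_le_mul_of_nonneg_left ?_ hA
    have h2 := ss_one_sub (s \ range (Q + 1))
    have h3 := ss_tail_sum hQ (s \ range (Q + 1)) (fun p hp => by
      rw [mem_sdiff, mem_range] at hp
      omega)
    linarith
  · refine le_of_tendsto h1 ?_
    filter_upwards [Filter.eventually_ge_atTop (range (Q + 1))] with s hs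
    rw [hsplit s hs]
    refine mul_le_of_le_one_right hA ?_
    exact Finset.prod_le_one (fun p _ => (ss_tc_pos p).le) fun p _ => ss_tc_le p

/-- the complete product up to `Q` for even `N` -/
theorem ss_full {Q N : ℕ} (hQ : 2 ≤ Q) (hN : Even N) :
    ∏ p ∈ siP Q, (1 + siF N p) = 2 * (∏ p ∈ range (Q + 1), tc p) *
      ∏ p ∈ (siP Q).filter (fun p => 2 < p ∧ p ∣ N), ((p : ℝ) - 1) / ((p : ℝ) - 2) := by
  classical
  have h2 : 2 ∈ siP Q := si_mem.2 ⟨hQ, Nat.prime_two⟩
  rw [← Finset.mul_prod_erase _ _ h2]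
  have e2 : 1 + siF N 2 = 2 := by
    unfold siF
    rw [if_pos hN.two_dvd]
    norm_num
  rw [e2, mul_assoc]
  congr 1
  have e3 : ∀ p ∈ (siP Q).erase 2, 1 + siF N p = tc p * (if 2 < p ∧ p ∣ N then ((p : ℝ) - 1) / ((p : ℝ) - 2) else 1) := by
    intro p hp
    rw [mem_erase, si_mem] at hp
    have hp2 : 2 < p := lt_of_le_of_ne hp.2.2.two_le (Ne.symm hp.1)
    have h3 : (3 : ℝ) ≤ p := by exact_mod_cast hp2
    have h4 : (p : ℝ) - 1 ≠ 0 := by linarith
    have h5 : (p : ℝ) - 2 ≠ 0 := by linarith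
    unfold siF tc
    rw [if_pos (⟨hp.2.2, hp2⟩ : Nat.Prime p ∧ 2 < p)]
    by_cases hd : p ∣ N
    · rw [if_pos hd, if_pos ⟨hp2, hd⟩]
      field_simp
      ring
    · rw [if_neg hd, if_neg (fun h => hd h.2)]
      ring
  rw [prod_congr rfl e3, prod_mul_distrib]
  congr 1
  · -- the factors outside the odd primes are one
    refine Finset.prod_subset ?_ ?_
    · intro p hp
      rw [mem_erase, si_mem] at hp
      rw [mem_range]
      omega
    · intro p hp hp'
      rw [mem_range] at hp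
      unfold tc
      rw [if_neg]
      rintro ⟨h6, h7⟩
      apply hp'
      rw [mem_erase, si_mem]
      exact ⟨by omega, by omega, h6⟩
  · rw [← prod_filter]
    refine prod_congr ?_ fun _ _ => rfl
    ext p
    rw [mem_filter, mem_filter, mem_erase]
    constructor
    · rintro ⟨⟨_, h6⟩, h7⟩
      exact ⟨h6, h7⟩
    · rintro ⟨h6, h7⟩
      exact ⟨⟨by omega, h6⟩, h7⟩

theorem ss_odd {Q N : ℕ} (hQ : 2 ≤ Q) (hN : ¬ Even N) : ∏ p ∈ siP Q, (1 + siF N p) = 0 := by
  refine Finset.prod_eq_zero (i := 2) (si_mem.2 ⟨hQ, Nat.prime_two⟩) ?_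
  unfold siF
  rw [if_neg (fun h => hN (even_iff_two_dvd.2 h))]
  norm_num

/-- primes larger than `Q` dividing `N` -/
theorem ss_large {Q N : ℕ} (hQ : 3 ≤ Q) (hN : 1 ≤ N) (hNQ : Real.log N + 1 ≤ Q) :
    1 ≤ ∏ p ∈ N.primeFactors.filter (fun p => Q < p), ((p : ℝ) - 1) / ((p : ℝ) - 2) ∧
    ∏ p ∈ N.primeFactors.filter (fun p => Q < p), ((p : ℝ) - 1) / ((p : ℝ) - 2) ≤ 1 + 4 * Real.log N / Q := by
  classical
  set S := N.primeFactors.filter (fun p => Q < p) with hS
  have hQ3 : (3 : ℝ) ≤ Q := by exact_mod_cast hQ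
  have hlogN : 0 ≤ Real.log N := Real.log_nonneg (by exact_mod_cast hN)
  have hp : ∀ p ∈ S, (Q : ℝ) + 1 ≤ p := by
    intro p hp
    rw [hS, mem_filter] at hp
    exact_mod_cast hp.2
  have hf : ∀ p ∈ S, ((p : ℝ) - 1) / ((p : ℝ) - 2) = 1 + 1 / ((p : ℝ) - 2) := by
    intro p h
    have := hp p h
    have h2 : (p : ℝ) - 2 ≠ 0 := by linarith
    field_simp
    ring
  constructor
  · have : ∀ p ∈ S, (1 : ℝ) ≤ ((p : ℝ) - 1) / ((p : ℝ) - 2) := by
      intro p h
      rw [hf p h]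
      have h1 := hp p h
      have h2 : 0 < (p : ℝ) - 2 := by linarith
      have : 0 < 1 / ((p : ℝ) - 2) := by positivity
      linarith
    calc (1 : ℝ) = ∏ p ∈ S, (1 : ℝ) := by simp
      _ ≤ _ := Finset.prod_le_prod (fun _ _ => zero_le_one) this
  · -- the number of these primes
    have hcard : (S.card : ℝ) ≤ Real.log N := by
      have h1 : ((Q : ℝ)) ^ S.card ≤ N := by
        calc ((Q : ℝ)) ^ S.card = ∏ p ∈ S, (Q : ℝ) := by rw [prod_const]
          _ ≤ ∏ p ∈ S, (p : ℝ) := Finset.prod_le_prod (fun _ _ => by positivity) fun p h => by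
              have := hp p h
              linarith
          _ = ((∏ p ∈ S, p : ℕ) : ℝ) := by push_cast; rfl
          _ ≤ N := by
              have h2 : ∏ p ∈ S, p ∣ N := by
                refine dvd_trans ?_ (Nat.prod_primeFactors_dvd N)
                exact Finset.prod_dvd_prod_of_subset _ _ _ (filter_subset _ _)
              exact_mod_cast Nat.le_of_dvd hN h2
      have h2 : (S.card : ℝ) * Real.log Q ≤ Real.log N := by
        rw [← Real.log_pow]
        exact Real.log_le_log (by positivity) h1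
      have h3 : (1 : ℝ) ≤ Real.log Q := by
        rw [Real.le_log_iff_exp_le (by linarith)]
        linarith [Real.exp_one_lt_d9]
      nlinarith [(Nat.cast_nonneg S.card : (0 : ℝ) ≤ S.card)]
    have h4 : ∏ p ∈ S, ((p : ℝ) - 1) / ((p : ℝ) - 2) ≤ Real.exp (S.card / (Q - 1)) := by
      calc ∏ p ∈ S, ((p : ℝ) - 1) / ((p : ℝ) - 2) ≤ ∏ p ∈ S, Real.exp (1 / ((Q : ℝ) - 1)) := by
            refine Finset.prod_le_prod (fun p h => ?_) fun p h => ?_
            · have h1 := hp p h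
              exact div_nonneg (by linarith) (by linarith)
            · rw [hf p h]
              have h1 := hp p h
              have h2 : 1 / ((p : ℝ) - 2) ≤ 1 / ((Q : ℝ) - 1) := one_div_le_one_div_of_le (by linarith) (by linarith)
              have h3 := Real.add_one_le_exp (1 / ((Q : ℝ) - 1))
              linarith
        _ = Real.exp (S.card / (Q - 1)) := by
            rw [prod_const, ← Real.exp_nat_mul]
            congr 1
            ring
    have hQ1 : (0 : ℝ) < (Q : ℝ) - 1 := by linarith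
    have hx1 : (S.card : ℝ) / ((Q : ℝ) - 1) ≤ 1 := by
      rw [div_le_one hQ1]
      linarith
    have hx0 : 0 ≤ (S.card : ℝ) / ((Q : ℝ) - 1) := by positivity
    have h5 : Real.exp ((S.card : ℝ) / ((Q : ℝ) - 1)) ≤ 1 + 2 * ((S.card : ℝ) / ((Q : ℝ) - 1)) := by
      have h6 := Real.abs_exp_sub_one_sub_id_le (x := (S.card : ℝ) / ((Q : ℝ) - 1)) (by rw [abs_of_nonneg hx0]; exact hx1)
      have h7 := (abs_le.1 h6).2
      nlinarith
    have h8 : (S.card : ℝ) / ((Q : ℝ) - 1) ≤ 2 * Real.log N / Q := by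
      rw [div_le_div_iff₀ hQ1 (by linarith)]
      nlinarith
    calc _ ≤ _ := h4
      _ ≤ _ := h5
      _ ≤ 1 + 2 * (2 * Real.log N / Q) := by linarith
      _ = _ := by ring

/-- the complete product up to `Q` and the singular series -/
theorem ss_close {Q N : ℕ} (hQ : 3 ≤ Q) (hN : 3 ≤ N) (hNQ : Real.log N + 1 ≤ Q) {K : ℝ}
    (hK : ∏ p ∈ siP Q, (1 + siF N p) ≤ K) (hK0 : 0 ≤ K) :
    |∏ p ∈ siP Q, (1 + siF N p) - SS N| ≤ K * (4 * Real.log N / Q) := by
  classical
  have hQ3 : (3 : ℝ) ≤ Q := by exact_mod_cast hQ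
  have hlogN : 1 ≤ Real.log N := by
    rw [Real.le_log_iff_exp_le (by positivity)]
    have : (3 : ℝ) ≤ N := by exact_mod_cast hN
    linarith [Real.exp_one_lt_d9]
  by_cases he : Even N
  swap
  · rw [ss_odd (by omega) he]
    unfold SS
    rw [if_neg he]
    simp only [sub_self, abs_zero]
    positivity
  rw [ss_full (by omega) he] at hK ⊢
  unfold SS
  rw [if_pos he]
  set A := ∏ p ∈ range (Q + 1), tc p with hA
  set W := ∏ p ∈ (siP Q).filter (fun p => 2 < p ∧ p ∣ N), ((p : ℝ) - 1) / ((p : ℝ) - 2) with hW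
  set W' := ∏ p ∈ N.primeFactors.filter (fun p => Q < p), ((p : ℝ) - 1) / ((p : ℝ) - 2) with hW'
  have e : ∏ p ∈ N.primeFactors.filter (fun p => 2 < p), ((p : ℝ) - 1) / ((p : ℝ) - 2) = W * W' := by
    have e1 : N.primeFactors.filter (fun p => 2 < p) =
        (siP Q).filter (fun p => 2 < p ∧ p ∣ N) ∪ N.primeFactors.filter (fun p => Q < p) := by
      ext p
      simp only [mem_filter, mem_union, si_mem, Nat.mem_primeFactors]
      constructor
      · rintro ⟨⟨h1, h2, h3⟩, h4⟩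
        by_cases h5 : p ≤ Q
        · exact Or.inl ⟨⟨h5, h1⟩, h4, h2⟩
        · exact Or.inr ⟨⟨h1, h2, h3⟩, by omega⟩
      · rintro (⟨⟨h1, h2⟩, h3, h4⟩ | ⟨⟨h1, h2, h3⟩, h4⟩)
        · exact ⟨⟨h2, h4, by omega⟩, h3⟩
        · exact ⟨⟨h1, h2, h3⟩, by omega⟩
    rw [e1, prod_union]
    rw [Finset.disjoint_left]
    intro p hp hp'
    rw [mem_filter, si_mem] at hp
    rw [mem_filter] at hp'
    omega
  rw [e]
  obtain ⟨hc1, hc2⟩ := ss_C2 (Q := Q) (by omega)
  obtain ⟨hw1, hw2⟩ := ss_large hQ (by omega) hNQ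
  rw [← hW'] at hw1 hw2
  rw [← hA] at hc1 hc2
  have hA0 : 0 ≤ A := prod_nonneg fun p _ => (ss_tc_pos p).le
  have hW0 : 0 ≤ W := by
    rw [hW]
    refine prod_nonneg fun p hp => ?_
    rw [mem_filter] at hp
    have h3 : (3 : ℝ) ≤ p := by exact_mod_cast hp.2.1
    exact div_nonneg (by linarith) (by linarith)
  have hC0 : 0 ≤ C2 := by
    refine le_trans ?_ hc1
    refine mul_nonneg hA0 ?_
    have : 2 / (Q : ℝ) ≤ 1 := by
      rw [div_le_one (by linarith)]
      linarith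
    linarith
  have hL : 2 / (Q : ℝ) ≤ 4 * Real.log N / Q := by
    gcongr
    linarith
  have hmain : |A - C2 * W'| ≤ A * (4 * Real.log N / Q) := by
    rw [abs_le]
    constructor
    · have h1 : C2 * W' ≤ A * (1 + 4 * Real.log N / Q) := mul_le_mul hc2 hw2 (by linarith) hA0
      linarith
    · have h1 : A * (1 - 2 / Q) ≤ C2 * W' := hc1.trans (le_mul_of_one_le_right hC0 hw1)
      have h2 : A * (2 / Q) ≤ A * (4 * Real.log N / Q) := mul_le_mul_of_nonneg_left hL hA0
      linarith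
  have e2 : 2 * A * W - 2 * C2 * (W * W') = 2 * W * (A - C2 * W') := by ring
  rw [e2, abs_mul, abs_of_nonneg (by positivity)]
  calc 2 * W * |A - C2 * W'| ≤ 2 * W * (A * (4 * Real.log N / Q)) := by gcongr
    _ = (2 * A * W) * (4 * Real.log N / Q) := by ring
    _ ≤ K * (4 * Real.log N / Q) := by
        refine mul_le_mul_of_nonneg_right hK ?_
        positivity

/-- the truncated series and the complete product up to `Q` -/
theorem ss_trunc {Q : ℕ} (hQ : 1 ≤ Q) (N : ℕ) {K : ℝ} (hK : ∏ p ∈ siP Q, (1 + 1 / ((p : ℝ) - 1)) ≤ K) :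
    |sg Q N - ∏ p ∈ siP Q, (1 + siF N p)| ≤
      (∑ t ∈ (siP Q).powerset.filter (fun t => Q < ∏ p ∈ t, p ∧ ∏ p ∈ t, p ≤ Q ^ 2), ∏ p ∈ t, siH N p) * K := by
  classical
  have e1 : sg Q N - ∏ p ∈ siP Q, (1 + siF N p) =
      -∑ s ∈ (siP Q).powerset.filter (fun s => ¬ ∏ p ∈ s, p ≤ Q), ∏ p ∈ s, siF N p := by
    rw [Finset.prod_one_add, ← Finset.sum_filter_add_sum_filter_not _ (fun s => ∏ p ∈ s, p ≤ Q), ← si_sg]
    ring
  rw [e1, abs_neg]
  have h4 : |∑ s ∈ (siP Q).powerset.filter (fun s => ¬ ∏ p ∈ s, p ≤ Q), ∏ p ∈ s, siF N p| ≤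
      ∑ s ∈ (siP Q).powerset.filter (fun s => ¬ ∏ p ∈ s, p ≤ Q), ∏ p ∈ s, siH N p := by
    refine (Finset.abs_sum_le_sum_abs _ _).trans (Finset.sum_le_sum fun s hs => ?_)
    rw [mem_filter, mem_powerset] at hs
    rw [Finset.abs_prod]
    exact le_of_eq (Finset.prod_congr rfl fun p hp => si_abs (si_mem.1 (hs.1 hp)).2)
  have h5 := si_tail hQ N
  have h6 : ∏ p ∈ siP Q, (1 + siH N p) ≤ K := by
    refine le_trans (Finset.prod_le_prod ?_ ?_) hK
    · intro p hp
      have := si_H0 (N := N) (si_mem.1 hp).2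
      linarith
    · intro p hp
      have := si_H1 (N := N) (si_mem.1 hp).2
      linarith
  have h7 : 0 ≤ ∑ t ∈ (siP Q).powerset.filter (fun t => Q < ∏ p ∈ t, p ∧ ∏ p ∈ t, p ≤ Q ^ 2), ∏ p ∈ t, siH N p :=
    Finset.sum_nonneg fun t ht => by
      rw [mem_filter, mem_powerset] at ht
      exact Finset.prod_nonneg fun p hp => si_H0 (si_mem.1 (ht.1 hp)).2
  have h8 := mul_le_mul_of_nonneg_left h6 h7
  linarith

/-- **the truncated singular series is the singular series for almost all `N` of a short window** -/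
theorem singF (A : ℕ) : ∃ c : ℕ, ∀ c2 : ℕ, c ≤ c2 → ∃ x0 : ℝ, ∀ X : ℕ, x0 ≤ X → ∀ H : ℕ, (Real.log X) ^ (4 * c2 + 20) ≤ H → H ≤ X →
    (((Ioc X (X + H)).filter fun N => 1 / (Real.log X) ^ A < |sg ⌊(Real.log X) ^ c2⌋₊ N - SS N|).card : ℝ) ≤
      H / (Real.log X) ^ A := by
  classical
  obtain ⟨C, hC, hmer⟩ := si_mer
  refine ⟨2 * A + 3, fun c2 hc2 => ?_⟩
  have hev := (Real.isLittleO_pow_log_id_atTop (n := 4)).def (c := 1 / (8 * (C * (c2 + 1)) ^ 4 + 1)) (by positivity)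
  obtain ⟨L0, hL0⟩ := (hev.and (Filter.eventually_ge_atTop (10 : ℝ))).exists_forall_of_atTop
  refine ⟨Real.exp (max L0 10), fun X hX H hH hHX => ?_⟩
  have hX0 : (0 : ℝ) < X := lt_of_lt_of_le (Real.exp_pos _) hX
  set L := Real.log X with hL
  have hLm : max L0 10 ≤ L := by
    rw [hL, Real.le_log_iff_exp_le hX0]
    exact hX
  obtain ⟨h1, h2⟩ := hL0 L ((le_max_left _ _).trans hLm)
  have hLpos : 0 < L := by linarith
  have hlogL : 0 ≤ Real.log L := Real.log_nonneg (by linarith)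
  set Q := ⌊L ^ c2⌋₊ with hQ
  have hLc : (10 : ℝ) ≤ L ^ c2 := by
    have : L ^ 1 ≤ L ^ c2 := pow_le_pow_right₀ (by linarith) (by omega)
    rw [pow_one] at this
    linarith
  have hQle : (Q : ℝ) ≤ L ^ c2 := Nat.floor_le (by positivity)
  have hQge : L ^ c2 / 2 ≤ Q := by
    have h3 : L ^ c2 < Q + 1 := Nat.lt_floor_add_one _
    linarith
  have hQ2r : (5 : ℝ) ≤ Q := by linarith
  have hQ2 : 5 ≤ Q := by exact_mod_cast hQ2r
  have hQ0 : (0 : ℝ) < Q := by linarith
  have hH0 : (0 : ℝ) ≤ H := Nat.cast_nonneg H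
  set K := C * ((c2 + 1) * Real.log L) with hK
  have hlogQ : Real.log Q ≤ (c2 + 1) * Real.log L := by
    have h3 := Real.log_le_log hQ0 hQle
    rw [Real.log_pow] at h3
    linarith
  have hKm : ∏ p ∈ siP Q, (1 + 1 / ((p : ℝ) - 1)) ≤ K := by
    refine (hmer Q (by omega)).trans ?_
    rw [hK]
    gcongr
  have hK1 : 1 ≤ K := by
    refine le_trans ?_ hKm
    calc (1 : ℝ) = ∏ p ∈ siP Q, (1 : ℝ) := by simp
      _ ≤ _ := Finset.prod_le_prod (fun _ _ => zero_le_one) fun p hp => by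
          have h3 := si_sub (si_mem.1 hp).2
          have : (0 : ℝ) < (p : ℝ) - 1 := by linarith
          have : 0 < 1 / ((p : ℝ) - 1) := by positivity
          linarith
  have hK0 : 0 ≤ K := by linarith
  have h4 : 8 * K ^ 4 ≤ L := by
    have h5 := h1
    simp only [id, Real.norm_eq_abs] at h5
    rw [abs_of_pos hLpos, abs_of_nonneg (by positivity)] at h5
    have h6 : K ^ 4 = (C * (c2 + 1)) ^ 4 * (Real.log L) ^ 4 := by
      rw [hK]
      ring
    set W := (C * ((c2 : ℝ) + 1)) ^ 4 with hW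
    have hW0 : 0 ≤ W := by positivity
    calc 8 * K ^ 4 = 8 * W * (Real.log L) ^ 4 := by rw [h6]; ring
      _ ≤ (8 * W + 1) * (Real.log L) ^ 4 := by
          have : 0 ≤ (Real.log L) ^ 4 := by positivity
          nlinarith
      _ ≤ (8 * W + 1) * (1 / (8 * W + 1) * L) := by gcongr
      _ = L := by field_simp
  have h4' : 8 * K ≤ L := by
    have h5 : K ≤ K ^ 4 := by
      calc K = K ^ 1 := (pow_one K).symm
        _ ≤ K ^ 4 := pow_le_pow_right₀ hK1 (by norm_num)
    linarith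
  have hQ2H : Q ^ 2 ≤ H := by
    have h3 : ((Q ^ 2 : ℕ) : ℝ) ≤ H := by
      push_cast
      calc (Q : ℝ) ^ 2 ≤ (L ^ c2) ^ 2 := by gcongr
        _ = L ^ (2 * c2) := by ring
        _ ≤ L ^ (4 * c2 + 20) := pow_le_pow_right₀ (by linarith) (by omega)
        _ ≤ H := hH
    exact_mod_cast h3
  set B := (siP Q).powerset.filter (fun t => Q < ∏ p ∈ t, p ∧ ∏ p ∈ t, p ≤ Q ^ 2) with hB
  -- bad N
  have hbad : ∀ N ∈ (Ioc X (X + H)).filter (fun N => 1 / L ^ A < |sg Q N - SS N|),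
      (1 / (2 * L ^ A) : ℝ) ≤ (∑ t ∈ B, ∏ p ∈ t, siH N p) * K := by
    intro N hN
    rw [mem_filter, mem_Ioc] at hN
    obtain ⟨⟨hN1, hN2⟩, hN3⟩ := hN
    have hX3 : (10 : ℝ) ≤ X := by
      have h5 := Real.add_one_le_exp (max L0 10)
      have h6 : (10 : ℝ) ≤ max L0 10 := le_max_right _ _
      linarith
    have hN10 : 3 ≤ N := by
      have : 10 ≤ X := by exact_mod_cast hX3
      omega
    have hNlog : Real.log N ≤ 2 * L := by
      have h5 : (N : ℝ) ≤ X * X := by
        have h6 : (N : ℝ) ≤ X + H := by exact_mod_cast hN2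
        have h7 : (H : ℝ) ≤ X := by exact_mod_cast hHX
        nlinarith
      have h8 : (0 : ℝ) < N := by
        have : 0 < N := by omega
        exact_mod_cast this
      calc Real.log N ≤ Real.log (X * X) := Real.log_le_log h8 h5
        _ = 2 * L := by rw [Real.log_mul hX0.ne' hX0.ne']; ring
    have hL3 : L ^ 3 ≤ L ^ c2 := pow_le_pow_right₀ (by linarith) (by omega)
    have hL3' : 100 * L ≤ L ^ 3 := by nlinarith [mul_pos hLpos hLpos]
    have hNQ : Real.log N + 1 ≤ Q := by nlinarith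
    have hG : ∏ p ∈ siP Q, (1 + siF N p) ≤ K := by
      refine le_trans (Finset.prod_le_prod ?_ ?_) hKm
      · intro p hp
        have h5 := si_sub (si_mem.1 hp).2
        unfold siF
        split_ifs
        · have : (0 : ℝ) ≤ 1 / ((p : ℝ) - 1) := by
            have : (0 : ℝ) < (p : ℝ) - 1 := by linarith
            positivity
          linarith
        · have : 1 / ((p : ℝ) - 1) ^ 2 ≤ 1 := by
            rw [div_le_one (by positivity)]
            nlinarith
          linarith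
      · intro p hp
        have h5 := si_H1 (N := N) (si_mem.1 hp).2
        have h6 := le_abs_self (siF N p)
        rw [si_abs (si_mem.1 hp).2] at h6
        linarith
    have h5 := ss_close (Q := Q) (N := N) (by omega) hN10 hNQ hG hK0
    have h6 := ss_trunc (Q := Q) (by omega) N hKm
    rw [← hB] at h6
    have h7 : K * (4 * Real.log N / Q) ≤ 1 / (2 * L ^ A) := by
      rw [mul_div_assoc', div_le_div_iff₀ hQ0 (by positivity)]
      have h8 : L ^ A * L ^ 3 ≤ L ^ c2 := by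
        rw [← pow_add]
        exact pow_le_pow_right₀ (by linarith) (by omega)
      have hLA : 0 < L ^ A := by positivity
      calc K * (4 * Real.log N) * (2 * L ^ A) ≤ (L / 8) * (4 * (2 * L)) * (2 * L ^ A) := by
            have h9 : K ≤ L / 8 := by linarith
            have h10 : 0 ≤ Real.log N := Real.log_nonneg (by exact_mod_cast (by omega : 1 ≤ N))
            gcongr
        _ = 2 * (L ^ A * L ^ 2) := by ring
        _ ≤ L ^ A * L ^ 3 / 2 := by
            have : L ^ 3 = L * L ^ 2 := by ring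
            have h11 : 4 * L ^ 2 ≤ L ^ 3 := by
              rw [this]
              nlinarith [mul_pos hLpos hLpos]
            nlinarith
        _ ≤ L ^ c2 / 2 := by linarith
        _ ≤ 1 * Q := by linarith
    have h8 : |sg Q N - SS N| ≤ |sg Q N - ∏ p ∈ siP Q, (1 + siF N p)| + |∏ p ∈ siP Q, (1 + siF N p) - SS N| :=
      abs_sub_le _ _ _
    have h9 : 1 / L ^ A = 1 / (2 * L ^ A) + 1 / (2 * L ^ A) := by
      have : L ^ A ≠ 0 := by positivity
      field_simp
      ring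
    linarith
  have hsum : (((Ioc X (X + H)).filter fun N => 1 / L ^ A < |sg Q N - SS N|).card : ℝ) * (1 / (2 * L ^ A)) ≤
      K * (2 * H * (K ^ 3 / Q)) := by
    calc (((Ioc X (X + H)).filter fun N => 1 / L ^ A < |sg Q N - SS N|).card : ℝ) * (1 / (2 * L ^ A))
        ≤ ∑ N ∈ (Ioc X (X + H)).filter (fun N => 1 / L ^ A < |sg Q N - SS N|), (∑ t ∈ B, ∏ p ∈ t, siH N p) * K := by
          rw [← nsmul_eq_mul]
          exact Finset.card_nsmul_le_sum _ _ _ hbad
      _ ≤ ∑ N ∈ Ioc X (X + H), (∑ t ∈ B, ∏ p ∈ t, siH N p) * K := by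
          refine Finset.sum_le_sum_of_subset_of_nonneg (filter_subset _ _) fun N _ _ => ?_
          refine mul_nonneg (Finset.sum_nonneg fun t ht => ?_) hK0
          rw [hB, mem_filter, mem_powerset] at ht
          exact Finset.prod_nonneg fun p hp => si_H0 (si_mem.1 (ht.1 hp)).2
      _ = K * ∑ t ∈ B, ∑ N ∈ Ioc X (X + H), ∏ p ∈ t, siH N p := by
          rw [Finset.sum_comm, ← Finset.sum_mul, mul_comm]
      _ ≤ K * ∑ t ∈ B, 2 * (H : ℝ) * ∏ p ∈ t, (2 / ((p : ℝ) - 1) ^ 2) := by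
          refine mul_le_mul_of_nonneg_left (Finset.sum_le_sum fun t ht => ?_) hK0
          rw [hB, mem_filter, mem_powerset] at ht
          exact si_avg t (fun p hp => (si_mem.1 (ht.1 hp)).2) (ht.2.2.trans hQ2H)
      _ = K * (2 * (H : ℝ) * ∑ t ∈ B, ∏ p ∈ t, (2 / ((p : ℝ) - 1) ^ 2)) := by rw [← Finset.mul_sum]
      _ ≤ K * (2 * (H : ℝ) * (K ^ 3 / (Q : ℝ))) := by
          have := si_big (Q := Q) (by omega) hKm
          gcongr
  have hLA : 0 < L ^ A := by positivity
  have hfin : 4 * K ^ 4 * L ^ A / Q ≤ 1 / L ^ A := by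
    rw [div_le_div_iff₀ hQ0 hLA]
    have h8 : L ^ A * L ^ A * L ≤ L ^ c2 := by
      calc L ^ A * L ^ A * L = L ^ (2 * A + 1) := by ring
        _ ≤ L ^ c2 := pow_le_pow_right₀ (by linarith) (by omega)
    calc 4 * K ^ 4 * L ^ A * L ^ A = (8 * K ^ 4) * (L ^ A * L ^ A) / 2 := by ring
      _ ≤ L * (L ^ A * L ^ A) / 2 := by gcongr
      _ = (L ^ A * L ^ A * L) / 2 := by ring
      _ ≤ L ^ c2 / 2 := by gcongr
      _ ≤ 1 * Q := by linarith
  have e2 : (((Ioc X (X + H)).filter fun N => 1 / L ^ A < |sg Q N - SS N|).card : ℝ) =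
      ((((Ioc X (X + H)).filter fun N => 1 / L ^ A < |sg Q N - SS N|).card : ℝ) * (1 / (2 * L ^ A))) * (2 * L ^ A) := by
    field_simp
  calc (((Ioc X (X + H)).filter fun N => 1 / L ^ A < |sg Q N - SS N|).card : ℝ)
      = ((((Ioc X (X + H)).filter fun N => 1 / L ^ A < |sg Q N - SS N|).card : ℝ) * (1 / (2 * L ^ A))) * (2 * L ^ A) := e2
    _ ≤ K * (2 * (H : ℝ) * (K ^ 3 / Q)) * (2 * L ^ A) := by
        exact mul_le_mul_of_nonneg_right hsum (by positivity)
    _ = H * (4 * K ^ 4 * L ^ A / Q) := by ring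
    _ ≤ H * (1 / L ^ A) := by gcongr
    _ = H / L ^ A := by ring

end Pool.Agent.Lib.G3
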