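import Pool.Agent.Lib.G3.Vb2
import Pool.Agent.Lib.G3.FinA
import Pool.Agent.Lib.G3.MainG
import Pool.Agent.Lib.G3.Bqs2
import Pool.Agent.Lib.G3.J2c
import Pool.Agent.Lib.G3.B2f
import Pool.Agent.Lib.G3.Par2
import Pool.Agent.Lib.G3.SSer

/-!
# G2: `N = p + p1 p2` for almost all `N` in short windows: asymptotic formula and lower bound
-/

set_option autoImplicit false

open Finset

namespace Pool.Agent.Lib.G3

open Pool.Agent.Lib.MRT (cj kap)
open Pool.Agent.Lib.GT (e)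

theorem fin_MG_supp {F : ℕ → ℂ} {X Q : ℕ} {J : ℕ → Finset ℤ} {n : ℕ} (h : MG F X Q J n ≠ 0) : X0 X < n ∧ n ≤ X := by
  by_contra hn
  refine h ?_
  unfold MG mo
  refine sum_eq_zero fun q _ => sum_eq_zero fun b _ => ?_
  rw [if_neg hn, mul_zero]

theorem asy2 (A c2 : ℕ) : ∃ c2' : ℕ, c2 ≤ c2' ∧ ∃ c10 : ℕ, 2 ≤ c10 ∧ ∀ c1 : ℕ, c10 ≤ c1 → ∃ c6 : ℕ, 4 * c2' + 20 ≤ c6 ∧ ∃ x0 : ℝ,
    ∀ X : ℕ, x0 ≤ X → ∀ (P R H : ℕ), Par2 X P R c1 → (Real.log X) ^ c6 ≤ H → 2 * (H : ℝ) ≤ Real.sqrt X →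
      (((Ioc X (X + H)).filter fun N => (X : ℝ) / (Real.log X) ^ A <
        ‖∑ n ∈ Icc 1 X, b2 P R n * ((lp (N - n) : ℝ) : ℂ) - ((sg ⌊(Real.log X) ^ c2'⌋₊ N : ℝ) : ℂ) * ∑ n ∈ Icc 1 X, b2 P R n‖).card : ℝ) ≤
          H / (Real.log X) ^ A := by
  classical
  obtain ⟨c2', hc2, B, c50, hB⟩ := vb2 (3 * (A + 1) + 6) c2
  obtain ⟨c5m, hmain⟩ := mainG (A + 2) c2' (c2' + (4 * B + 12))
  obtain ⟨c5, hc5a, hc5b⟩ : ∃ c5, c50 ≤ c5 ∧ c5m ≤ c5 := ⟨max c50 c5m, le_max_left _ _, le_max_right _ _⟩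
  obtain ⟨c10, hc10, hB2⟩ := hB c5 hc5a
  refine ⟨c2', hc2, max c10 2, le_max_right _ _, fun c1 hc1 => ?_⟩
  have hc1a : c10 ≤ c1 := (le_max_left _ _).trans hc1
  have hc1b : 2 ≤ c1 := (le_max_right _ _).trans hc1
  obtain ⟨c6, hc6, x1, hvb⟩ := hB2 c1 hc1a
  obtain ⟨x2, hmt⟩ := hmain c5 hc5b
  obtain ⟨x3, hbq⟩ := bqs2 (A + 2 + 2 * c2' + 3) c2' 0 c1 (by omega)
  obtain ⟨x4, hJ⟩ := J2_card B
  obtain ⟨x5, hx5, hpar⟩ := par2 c1 hc1b
  obtain ⟨x6, hx6, hgr⟩ := grow 100 1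
  refine ⟨c6 + 1, by omega, max (max (max x1 x2) (max x3 x4)) (max x5 x6), ?_⟩
  intro X hX P R H hP hH1 hH2
  simp only [max_le_iff] at hX
  obtain ⟨⟨⟨hX1, hX2⟩, hX3, hX4⟩, hX5, hX6⟩ := hX
  have hX100 : (100 : ℝ) ≤ X := hx5.trans hX5
  have hXn : 100 ≤ X := by exact_mod_cast hX100
  have hX0 : (0 : ℝ) < X := by linarith
  obtain ⟨hl, -⟩ := hgr X hX6
  obtain ⟨p1, p2, p3, p4, p5, p6, p7⟩ := hpar X P R hX5 hP
  have hv := hvb X hX1 P R
  have hm := hmt X hX2 (b2 P R)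
  have hbqX := hbq X hX3 P R hP
  have hJX := hJ X hX4
  clear hvb hmt hbq hJ hpar hgr hB hmain hB2
  obtain ⟨l, hld⟩ : ∃ l, l = Real.log X := ⟨_, rfl⟩
  rw [← hld] at hl hv hm hbqX hJX hH1 ⊢
  have hl0 : 0 < l := by linarith
  have hl1 : 1 ≤ l := by linarith
  set h : ℕ := ⌈l ^ c6⌉₊ with hh
  have hh1 : l ^ c6 ≤ h := Nat.le_ceil _
  have hlc : 1 ≤ l ^ c6 := one_le_pow₀ hl1
  have hh2 : (h : ℝ) ≤ l * l ^ c6 := by
    have := Nat.ceil_lt_add_one (show 0 ≤ l ^ c6 by positivity)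
    nlinarith
  have hh3 : (h : ℝ) ≤ l ^ (c6 + 1) := by rw [pow_succ']; exact hh2
  have hh4 : (h : ℝ) ≤ l ^ (c6 + 2) := hh3.trans (pow_le_pow_right₀ hl1 (by omega))
  have hhH : (h : ℝ) ≤ H := hh3.trans hH1
  have hhHn : h ≤ H := by exact_mod_cast hhH
  have hhn : 1 ≤ h := by
    have : (1 : ℝ) ≤ h := hlc.trans hh1
    exact_mod_cast this
  obtain ⟨H', T, hHH', hH'2, hT, hV⟩ := hv h hP hh1 hh4
  have hTX : T ≤ X := by
    have h1 : (T : ℝ) ≤ X := hT.trans (div_le_self hX0.le (one_le_pow₀ hl1))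
    exact_mod_cast h1
  have hF0 : b2 P R 0 = 0 := by
    by_contra h0
    have := (b2_supp p3 h0).1
    omega
  have hFX : ∀ n, X < n → b2 P R n = 0 := by
    intro n hn
    by_contra h0
    have := (b2_supp p3 h0).2.1
    omega
  have hmN := hm (fun q => J2 q X ⌊l ^ c5⌋₊ T B) T (b2_le p3) ?_ hT ?_
  · have hcov := fin_cover (fun N => (X : ℝ) / l ^ A <
        ‖∑ n ∈ Icc 1 X, b2 P R n * ((lp (N - n) : ℝ) : ℂ) - ((sg ⌊l ^ c2'⌋₊ N : ℝ) : ℂ) * ∑ n ∈ Icc 1 X, b2 P R n‖) (X := X)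
        (ε := 1 / l ^ (A + 1)) (S := Real.sqrt X) hhn hhHn (by positivity) (by linarith) ?_
    · refine hcov.trans ?_
      have h4 : (H : ℝ) / l ^ A = l * (H / l ^ (A + 1)) := by
        rw [pow_succ l A]
        field_simp
      rw [h4]
      have h5 : 0 ≤ (H : ℝ) / l ^ (A + 1) := by positivity
      have h6 : 2 * (H : ℝ) * (1 / l ^ (A + 1)) = 2 * (H / l ^ (A + 1)) := by ring
      rw [h6]
      refine mul_le_mul_of_nonneg_right (by linarith) h5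
    · intro Y hY hYS
      have hasy := fin_asyY (A := A + 1) (s := fun N => sg ⌊l ^ c2'⌋₊ N) (F := b2 P R)
        (M := MG (b2 P R) X ⌊l ^ c2'⌋₊ (fun q => J2 q X ⌊l ^ c5⌋₊ T B)) hXn (by rw [← hld]; exact hl) hY hYS hhn hHH' hH'2 hF0 ?_ hFX ?_ ?_ ?_
      · rw [← hld] at hasy
        refine le_trans ?_ (hasy.trans (le_of_eq (by ring)))
        have hsub : ((Ioc Y (Y + h)).filter fun N => (X : ℝ) / l ^ A <
            ‖∑ n ∈ Icc 1 X, b2 P R n * ((lp (N - n) : ℝ) : ℂ) - ((sg ⌊l ^ c2'⌋₊ N : ℝ) : ℂ) * ∑ n ∈ Icc 1 X, b2 P R n‖) ⊆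
            (Ioc Y (Y + h)).filter fun N => (X : ℝ) / l ^ (A + 1) <
            ‖∑ n ∈ Icc 1 X, b2 P R n * ((lp (N - n) : ℝ) : ℂ) - ((sg ⌊l ^ c2'⌋₊ N : ℝ) : ℂ) * ∑ n ∈ Icc 1 X, b2 P R n‖ := by
          intro N hN
          rw [mem_filter] at hN ⊢
          refine ⟨hN.1, lt_of_le_of_lt ?_ hN.2⟩
          exact div_le_div_of_nonneg_left hX0.le (by positivity) (pow_le_pow_right₀ hl1 (by omega))
        exact_mod_cast card_le_card hsub
      · by_contra h0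
        have := (fin_MG_supp h0).1
        omega
      · intro n hn
        by_contra h0
        have := (fin_MG_supp h0).2
        omega
      · rw [← hld]
        exact hV
      · rw [← hld]
        exact hmN
  · intro q b hq hqL hco
    have h1 := hbqX q b hq hqL hco 0 (by simp)
    exact h1
  · intro q hq hqL
    obtain ⟨j1, -⟩ := hJX q ⌊l ^ c5⌋₊ T hq hTX
    refine ⟨?_, ?_, ?_⟩
    · unfold J2
      rw [mem_filter, mem_Icc]
      refine ⟨⟨by omega, by omega⟩, Or.inl ?_⟩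
      rw [abs_zero]
      exact_mod_cast Nat.zero_le _
    · intro j hj
      unfold J2 at hj
      rw [mem_filter, mem_Icc] at hj
      exact abs_le.2 hj.1
    · have hsub : ((J2 q X ⌊l ^ c5⌋₊ T B).filter fun j : ℤ => l ^ c5 < |(j : ℝ)|) ⊆
          (J2 q X ⌊l ^ c5⌋₊ T B).filter fun j => ((⌊l ^ c5⌋₊ : ℕ) : ℤ) < |j| := by
        intro j hj
        rw [mem_filter] at hj ⊢
        refine ⟨hj.1, ?_⟩
        have h1 : ((⌊l ^ c5⌋₊ : ℕ) : ℝ) ≤ l ^ c5 := Nat.floor_le (by positivity)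
        have h2 : (((⌊l ^ c5⌋₊ : ℕ) : ℤ) : ℝ) < ((|j| : ℤ) : ℝ) := by
          push_cast
          linarith [hj.2]
        exact_mod_cast h2
      calc (((J2 q X ⌊l ^ c5⌋₊ T B).filter fun j : ℤ => l ^ c5 < |(j : ℝ)|).card : ℝ) ≤
            (((J2 q X ⌊l ^ c5⌋₊ T B).filter fun j => ((⌊l ^ c5⌋₊ : ℕ) : ℤ) < |j|).card : ℝ) := by exact_mod_cast card_le_card hsub
        _ ≤ q * l ^ (4 * B + 12) := j1
        _ ≤ l ^ c2' * l ^ (4 * B + 12) := by gcongr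
        _ = l ^ (c2' + (4 * B + 12)) := (pow_add _ _ _).symm

/-- the products with `N - n` prime are counted by `reps 2` -/
theorem fi_reps2 {X P R N : ℕ} (hX : 2 ≤ X) (hPR : 2 * P ≤ R) (hN : X < N) (hN2 : N ≤ 2 * X) :
    ‖∑ n ∈ Icc 1 X, b2 P R n * ((lp (N - n) : ℝ) : ℂ)‖ ≤ 2 * Real.log X * reps 2 N := by
  classical
  have hl : 0 ≤ Real.log X := Real.log_nonneg (by exact_mod_cast (by omega : 1 ≤ X))
  set S := (Icc 1 X).filter fun n => b2 P R n ≠ 0 ∧ (N - n).Prime with hS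
  have h1 : ∀ n ∈ Icc 1 X, ‖b2 P R n * ((lp (N - n) : ℝ) : ℂ)‖ ≤
      if b2 P R n ≠ 0 ∧ (N - n).Prime then 2 * Real.log X else 0 := by
    intro n hn
    rw [mem_Icc] at hn
    by_cases hb : b2 P R n ≠ 0
    · by_cases hp : (N - n).Prime
      · rw [if_pos ⟨hb, hp⟩, norm_mul, Complex.norm_real, Real.norm_of_nonneg (fi_lp_nonneg _)]
        calc ‖b2 P R n‖ * lp (N - n) ≤ 1 * lp (N - n) := mul_le_mul_of_nonneg_right (b2_le hPR n) (fi_lp_nonneg _)
          _ = lp (N - n) := one_mul _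
          _ ≤ 2 * Real.log X := fi_lp_le hX (by omega)
      · have : lp (N - n) = 0 := by
          unfold lp
          rw [if_neg hp]
        rw [this]
        simp [hp]
    · rw [not_not] at hb
      rw [hb]
      simp
  refine (norm_sum_le _ _).trans ((sum_le_sum h1).trans ?_)
  rw [← sum_filter, sum_const, nsmul_eq_mul, mul_comm]
  refine mul_le_mul_of_nonneg_left ?_ (by positivity)
  have h2 : S.card ≤ reps 2 N := by
    unfold reps
    refine card_le_card_of_injOn (fun n => N - n) ?_ ?_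
    · intro n hn
      obtain ⟨hn1, hb, hp⟩ := mem_filter.1 (mem_coe.1 hn)
      rw [mem_Icc] at hn1
      obtain ⟨-, hsq, hcard⟩ := b2_two hPR hb
      have h3 : N - (N - n) = n := by omega
      have h4 : N - n < N := by omega
      refine mem_coe.2 (mem_filter.2 ⟨mem_range.2 h4, hp, ?_, ?_⟩)
      · rw [h3]; exact hsq
      · rw [h3]; exact hcard
    · intro n hn m hm hnm
      have hn1 := (mem_filter.1 (mem_coe.1 hn)).1
      have hm1 := (mem_filter.1 (mem_coe.1 hm)).1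
      rw [mem_Icc] at hn1 hm1
      simp only at hnm
      omega
  exact_mod_cast h2

/-- lower bound of the mass of `b2` -/
theorem b2_mass {X P R : ℕ} {l lP : ℝ} (hl : 0 < l) (hlP : 0 < lP) (hP : (P : ℝ) / (2 * lP) ≤ (pr P).card) (hR : (R : ℝ) / 4 ≤ ∑ r ∈ pr R, lp r)
    (hlR : 0 < Real.log (2 * R : ℕ)) (hlR2 : Real.log (2 * R : ℕ) ≤ l) (h4 : 4 * (P * R) ≤ X) (h17 : X ≤ 17 * (P * R)) :
    (X : ℝ) / (136 * l * lP) ≤ ‖∑ n ∈ Icc 1 X, b2 P R n‖ := by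
  rw [b2_sum h4, norm_mul, Complex.norm_natCast, Complex.norm_real]
  have h1 : (R : ℝ) / (4 * l) ≤ ∑ r ∈ pr R, lp r / Real.log (2 * R : ℕ) := by
    rw [← sum_div]
    rw [div_le_div_iff₀ (by positivity) hlR]
    have h2 : 0 ≤ ∑ r ∈ pr R, lp r := le_trans (by positivity) hR
    calc (R : ℝ) * Real.log (2 * R : ℕ) ≤ R * l := by gcongr
      _ ≤ (4 * ∑ r ∈ pr R, lp r) * l := by gcongr; linarith
      _ = (∑ r ∈ pr R, lp r) * (4 * l) := by ring
  have h2 : (R : ℝ) / (4 * l) ≤ ‖∑ r ∈ pr R, lp r / Real.log (2 * R : ℕ)‖ := h1.trans (le_abs_self _)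
  have h3 : (X : ℝ) ≤ 17 * (P * R) := by exact_mod_cast h17
  calc (X : ℝ) / (136 * l * lP) ≤ (17 * (P * R)) / (136 * l * lP) := by gcongr
    _ = (P : ℝ) / (2 * lP) * ((R : ℝ) / (4 * l)) := by
        field_simp
        ring
    _ ≤ (pr P).card * ‖∑ r ∈ pr R, lp r / Real.log (2 * R : ℕ)‖ := by gcongr

/-- almost all even `N` of a window have many representations `N = p + p1 p2` -/
theorem g2_low (A : ℕ) : ∃ (C : ℕ) (x0 : ℝ), ∀ X : ℕ, x0 ≤ X → ∀ H : ℕ, (Real.log X) ^ C ≤ H → 2 * (H : ℝ) ≤ Real.sqrt X →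
    (((Ioc X (X + H)).filter fun N => Even N ∧ (reps 2 N : ℝ) < X / ((Real.log X) ^ 2 * (Real.log (Real.log X)) ^ 2)).card : ℝ) ≤
      H / (Real.log X) ^ A := by
  classical
  obtain ⟨c, hsing⟩ := sing (A + 1)
  obtain ⟨c2', hc2, c10, hc10, hasy⟩ := asy2 (A + 2) c
  obtain ⟨x1, hs⟩ := hsing c2' hc2
  obtain ⟨c6, hc6, x2, ha⟩ := hasy c10 le_rfl
  obtain ⟨x3, hx3, hpar⟩ := par2 c10 hc10
  obtain ⟨x4, hprc⟩ := pr_card
  obtain ⟨x5, hlow⟩ := b2_low
  obtain ⟨x6, hx6, hgr⟩ := grow (max (Real.exp (1088 * c10 + 1)) (max (2 * (max x4 x5) + 4) 100)) 1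
  refine ⟨c6, max (max x1 x2) (max x3 x6), ?_⟩
  intro X hX H hH1 hH2
  simp only [max_le_iff] at hX
  obtain ⟨⟨hX1, hX2⟩, hX3, hX6⟩ := hX
  have hX100 : (100 : ℝ) ≤ X := hx3.trans hX3
  have hXn : 100 ≤ X := by exact_mod_cast hX100
  have hX0 : (0 : ℝ) < X := by linarith
  obtain ⟨hl, -⟩ := hgr X hX6
  set P : ℕ := ⌊(Real.log X) ^ c10⌋₊ with hPd
  set R : ℕ := X / (16 * P) with hRd
  have hP : Par2 X P R c10 := ⟨hPd, hRd⟩
  obtain ⟨p1, p2, p3, p4, p5, p6, p7⟩ := hpar X P R hX3 hP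
  have haX := ha X hX2 P R H hP hH1 hH2
  have hsX := hs X hX1 H
  clear_value P R
  clear hs ha hpar hgr hasy hsing
  obtain ⟨l, hld⟩ : ∃ l, l = Real.log X := ⟨_, rfl⟩
  have hreps : ∀ N, X < N → N ≤ 2 * X → ‖∑ n ∈ Icc 1 X, b2 P R n * ((lp (N - n) : ℝ) : ℂ)‖ ≤ 2 * l * reps 2 N := by
    intro N h1 h2
    rw [hld]
    exact fi_reps2 (by omega) p3 h1 h2
  rw [← hld] at hl haX hsX hH1 p1 p2 ⊢
  simp only [max_le_iff] at hl
  obtain ⟨hl1088, ⟨hlx, hl100⟩⟩ := hl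
  have hl0 : 0 < l := by linarith
  have hl1 : 1 ≤ l := by linarith
  obtain ⟨ll, hlld⟩ : ∃ ll, ll = Real.log l := ⟨_, rfl⟩
  have hll : 1088 * (c10 : ℝ) + 1 ≤ ll := by
    rw [hlld, Real.le_log_iff_exp_le hl0]
    exact hl1088
  have hll0 : 0 < ll := lt_of_lt_of_le (by positivity) hll
  rw [← hlld]
  have hsqrt : Real.sqrt X ≤ X := by
    rw [Real.sqrt_le_left hX0.le]
    nlinarith
  have hHX : H ≤ X := by
    have h0 : (0 : ℝ) ≤ H := Nat.cast_nonneg H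
    have : (H : ℝ) ≤ X := by linarith
    exact_mod_cast this
  have hs1 := hsX (le_trans (pow_le_pow_right₀ hl1 hc6) hH1) hHX
  -- sizes
  have hlc : l ≤ l ^ c10 := le_self_pow₀ hl1 (by omega)
  have hPr : max x4 x5 ≤ P := by linarith
  have hP2r : (2 : ℝ) ≤ P := by linarith
  have hP2 : 2 ≤ P := by exact_mod_cast hP2r
  have hPR' : (P : ℝ) ≤ R := by
    have : P ≤ R := by omega
    exact_mod_cast this
  have hcP := hprc P ((le_max_left _ _).trans hPr)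
  have hcR := hlow R (((le_max_right _ _).trans hPr).trans hPR')
  have hlogP0 : 0 < Real.log P := Real.log_pos (by linarith)
  have hlogP : Real.log P ≤ c10 * ll := by
    rw [hlld, ← Real.log_pow]
    exact Real.log_le_log (by linarith) p2
  have hlogR0 : 0 < Real.log (2 * R : ℕ) := by
    apply Real.log_pos
    have : 1 < 2 * R := by omega
    exact_mod_cast this
  have hlogR : Real.log (2 * R : ℕ) ≤ l := by
    rw [hld]
    apply Real.log_le_log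
    · have : 0 < 2 * R := by omega
      exact_mod_cast this
    · have h1 : 2 * R ≤ X := by
        calc 2 * R ≤ P * R := Nat.mul_le_mul_right R hP2
          _ ≤ 16 * (P * R) := by omega
          _ ≤ X := p6
      exact_mod_cast h1
  have hmass := b2_mass hl0 hlogP0 hcP hcR hlogR0 hlogR (by omega : 4 * (P * R) ≤ X) p7
  set U1 := (Ioc X (X + H)).filter fun N => Even N ∧ sg ⌊l ^ c2'⌋₊ N < 1 / 2 with hU1
  set U2 := (Ioc X (X + H)).filter fun N => (X : ℝ) / l ^ (A + 2) <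
    ‖∑ n ∈ Icc 1 X, b2 P R n * ((lp (N - n) : ℝ) : ℂ) - ((sg ⌊l ^ c2'⌋₊ N : ℝ) : ℂ) * ∑ n ∈ Icc 1 X, b2 P R n‖ with hU2
  have hsub : ((Ioc X (X + H)).filter fun N => Even N ∧ (reps 2 N : ℝ) < X / (l ^ 2 * ll ^ 2)) ⊆ U1 ∪ U2 := by
    intro N hN
    obtain ⟨hN1, hN2, hN3⟩ := mem_filter.1 hN
    rw [mem_union]
    by_cases hsg : sg ⌊l ^ c2'⌋₊ N < 1 / 2
    · left
      exact mem_filter.2 ⟨hN1, hN2, hsg⟩
    · right
      refine mem_filter.2 ⟨hN1, ?_⟩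
      rw [mem_Ioc] at hN1
      rw [not_lt] at hsg
      by_contra hcon
      rw [not_lt] at hcon
      have hr := hreps N hN1.1 (by omega)
      set u := ∑ n ∈ Icc 1 X, b2 P R n * ((lp (N - n) : ℝ) : ℂ) with hu
      set v := ∑ n ∈ Icc 1 X, b2 P R n with hv
      have h1 : 1 / 2 * ‖v‖ ≤ ‖((sg ⌊l ^ c2'⌋₊ N : ℝ) : ℂ) * v‖ := by
        rw [norm_mul, Complex.norm_real]
        exact mul_le_mul_of_nonneg_right (hsg.trans (le_abs_self _)) (norm_nonneg _)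
      have h2 : ‖((sg ⌊l ^ c2'⌋₊ N : ℝ) : ℂ) * v‖ ≤ ‖u - ((sg ⌊l ^ c2'⌋₊ N : ℝ) : ℂ) * v‖ + ‖u‖ := by
        have : ((sg ⌊l ^ c2'⌋₊ N : ℝ) : ℂ) * v = -(u - ((sg ⌊l ^ c2'⌋₊ N : ℝ) : ℂ) * v) + u := by ring
        rw [this]
        refine (norm_add_le _ _).trans ?_
        rw [norm_neg]
        have e : u - (-(u - ((sg ⌊l ^ c2'⌋₊ N : ℝ) : ℂ) * v) + u) = u - ((sg ⌊l ^ c2'⌋₊ N : ℝ) : ℂ) * v := by ring
        rw [e]
      have h3 : (X : ℝ) / l ^ (A + 2) ≤ X / l ^ 2 :=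
        div_le_div_of_nonneg_left hX0.le (by positivity) (pow_le_pow_right₀ hl1 (by omega))
      have h4 : (X : ℝ) / (136 * l * (c10 * ll)) ≤ ‖v‖ := by
        refine le_trans ?_ hmass
        have : 0 < (c10 : ℝ) := by exact_mod_cast (by omega : 0 < c10)
        gcongr
      have hc0 : 0 < (c10 : ℝ) := by exact_mod_cast (by omega : 0 < c10)
      -- X/(272 c l ll) ≤ X/l^2 + 2 l X/(l^2 ll^2)
      have h5 : 1 / 2 * ((X : ℝ) / (136 * l * (c10 * ll))) ≤ X / l ^ 2 + 2 * l * (X / (l ^ 2 * ll ^ 2)) := by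
        have h6 : 2 * l * (reps 2 N : ℝ) ≤ 2 * l * (X / (l ^ 2 * ll ^ 2)) := by gcongr
        linarith [mul_le_mul_of_nonneg_left h4 (show (0 : ℝ) ≤ 1 / 2 by norm_num)]
      have h7 : X / l ^ 2 + 2 * l * (X / (l ^ 2 * ll ^ 2)) = X / l * (1 / l + 2 / ll ^ 2) := by
        field_simp
      have h8 : 1 / 2 * ((X : ℝ) / (136 * l * (c10 * ll))) = X / l * (1 / (272 * c10 * ll)) := by
        field_simp
        norm_num
      rw [h7, h8] at h5
      have h9 : 1 / (272 * (c10 : ℝ) * ll) ≤ 1 / l + 2 / ll ^ 2 := le_of_mul_le_mul_left h5 (by positivity)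
      have h10 : 2 / ll ^ 2 < 1 / (544 * (c10 : ℝ) * ll) := by
        rw [div_lt_div_iff₀ (by positivity) (by positivity)]
        nlinarith
      have h11 : 1 / l < 1 / (544 * (c10 : ℝ) * ll) := by
        apply one_div_lt_one_div_of_lt (by positivity)
        have h12 : ll ^ 2 / 2 < l := by
          have h13 := Real.quadratic_le_exp_of_nonneg hll0.le
          rw [hlld, Real.exp_log hl0, ← hlld] at h13
          linarith
        nlinarith
      have h12 : 1 / (544 * (c10 : ℝ) * ll) + 1 / (544 * (c10 : ℝ) * ll) = 1 / (272 * (c10 : ℝ) * ll) := by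
        field_simp
        norm_num
      linarith
  calc (((Ioc X (X + H)).filter fun N => Even N ∧ (reps 2 N : ℝ) < X / (l ^ 2 * ll ^ 2)).card : ℝ)
      ≤ ((U1 ∪ U2).card : ℝ) := by exact_mod_cast card_le_card hsub
    _ ≤ U1.card + U2.card := by exact_mod_cast card_union_le _ _
    _ ≤ H / l ^ (A + 1) + H / l ^ (A + 2) := add_le_add hs1 haX
    _ ≤ H / l ^ A := by
        have h1 : (H : ℝ) / l ^ (A + 1) = H / l ^ A * (1 / l) := by
          rw [pow_succ]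
          field_simp
        have h2 : (H : ℝ) / l ^ (A + 2) = H / l ^ A * (1 / l ^ 2) := by
          rw [pow_add]
          field_simp
        rw [h1, h2, ← mul_add]
        have h3 : 1 / l ≤ 1 / 2 := by
          apply one_div_le_one_div_of_le <;> linarith
        have h4 : 1 / l ^ 2 ≤ 1 / 2 := by
          apply one_div_le_one_div_of_le (by norm_num)
          nlinarith
        have h5 : 0 ≤ (H : ℝ) / l ^ A := by positivity
        nlinarith

/-- the weighted number of representations `N = p + p1 p2`, `p1` in `(P, 2P]`, `p2` in `(R, 2R]` -/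
noncomputable def W2 (P R N : ℕ) : ℝ := ∑ p ∈ pr P, ∑ r ∈ pr R, Real.log r * lp (N - p * r)

theorem W2_eq {P R X : ℕ} (hX : 4 * (P * R) ≤ X) (hR : 1 ≤ R) (N : ℕ) :
    ((W2 P R N : ℝ) : ℂ) = ((Real.log (2 * R : ℕ) : ℝ) : ℂ) * ∑ n ∈ Icc 1 X, b2 P R n * ((lp (N - n) : ℝ) : ℂ) := by
  have h0 : Real.log (2 * R : ℕ) ≠ 0 := by
    have h1 : (1 : ℝ) < ((2 * R : ℕ) : ℝ) := by exact_mod_cast (by omega : 1 < 2 * R)
    exact (Real.log_pos h1).ne'
  rw [bb_sum_mul hX, W2, mul_sum, Complex.ofReal_sum]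
  refine sum_congr rfl fun p hp => ?_
  rw [mul_sum, Complex.ofReal_sum]
  refine sum_congr rfl fun r hr => ?_
  have h2 := (bf_mem_pr.1 hr).2
  have h3 : lp r = Real.log r := by rw [lp, if_pos h2]
  rw [bbw, h3, ← Complex.ofReal_mul, ← Complex.ofReal_mul]
  congr 1
  field_simp

theorem theta_eq {P R X : ℕ} (hX : 4 * (P * R) ≤ X) (hR : 1 ≤ R) :
    ((((pr P).card * ∑ r ∈ pr R, Real.log r : ℝ)) : ℂ) = ((Real.log (2 * R : ℕ) : ℝ) : ℂ) * ∑ n ∈ Icc 1 X, b2 P R n := by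
  have h0 : Real.log (2 * R : ℕ) ≠ 0 := by
    have h1 : (1 : ℝ) < ((2 * R : ℕ) : ℝ) := by exact_mod_cast (by omega : 1 < 2 * R)
    exact (Real.log_pos h1).ne'
  have h3 : ∑ r ∈ pr R, Real.log r = ∑ r ∈ pr R, lp r := by
    refine sum_congr rfl fun r hr => ?_
    rw [lp, if_pos (bf_mem_pr.1 hr).2]
  rw [b2_sum hX, ← sum_div, h3]
  push_cast
  have h4 : ((Real.log (2 * R : ℕ) : ℝ) : ℂ) ≠ 0 := by exact_mod_cast h0
  push_cast at h4
  field_simp

/-- the asymptotic formula for almost all `N` of a window -/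
theorem asy2S (A : ℕ) : ∃ c0 : ℕ, ∀ c : ℕ, c0 ≤ c → ∃ (C : ℕ) (x0 : ℝ), ∀ X : ℕ, x0 ≤ X → ∀ P R : ℕ, Par2 X P R c → ∀ H : ℕ,
    (Real.log X) ^ C ≤ H → 2 * (H : ℝ) ≤ Real.sqrt X →
      (((Ioc X (X + H)).filter fun N => (X : ℝ) / (Real.log X) ^ A <
        |W2 P R N - SS N * ((pr P).card * ∑ r ∈ pr R, Real.log r)|).card : ℝ) ≤ H / (Real.log X) ^ A := by
  classical
  obtain ⟨c2, hsing⟩ := singF (A + 2)
  obtain ⟨c2', hc2, c10, hc10, hasy⟩ := asy2 (A + 2) c2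
  obtain ⟨x1, hs⟩ := hsing c2' hc2
  refine ⟨c10, fun c hc => ?_⟩
  obtain ⟨c6, hc6, x2, ha⟩ := hasy c hc
  obtain ⟨x3, hx3, hpar⟩ := par2 c (hc10.trans hc)
  obtain ⟨x6, hx6, hgr⟩ := grow 100 1
  refine ⟨c6, max (max x1 x2) (max x3 x6), ?_⟩
  intro X hX P R hP H hH1 hH2
  simp only [max_le_iff] at hX
  obtain ⟨⟨hX1, hX2⟩, hX3, hX6⟩ := hX
  have hX100 : (100 : ℝ) ≤ X := hx3.trans hX3
  have hXn : 100 ≤ X := by exact_mod_cast hX100
  have hX0 : (0 : ℝ) < X := by linarith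
  obtain ⟨hl, -⟩ := hgr X hX6
  obtain ⟨p1, p2, p3, p4, p5, p6, p7⟩ := hpar X P R hX3 hP
  have haX := ha X hX2 P R H hP hH1 hH2
  have hsX := hs X hX1 H
  clear hs ha hpar hgr hasy hsing
  have hR0 : 1 ≤ R := by
    by_contra h
    have : R = 0 := by omega
    rw [this] at p7
    omega
  have hlogR0 : 0 ≤ Real.log (2 * R : ℕ) := by
    apply Real.log_nonneg
    have : 1 ≤ 2 * R := by omega
    exact_mod_cast this
  have hP1 : 1 ≤ P := by
    by_contra h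
    have : P = 0 := by omega
    rw [this] at p7
    omega
  have hlogR : Real.log (2 * R : ℕ) ≤ Real.log X := by
    apply Real.log_le_log
    · have : 0 < 2 * R := by omega
      exact_mod_cast this
    · have h1 : 2 * R ≤ X := by
        calc 2 * R = 2 * (1 * R) := by ring
          _ ≤ 2 * (P * R) := Nat.mul_le_mul_left 2 (Nat.mul_le_mul_right R hP1)
          _ ≤ X := by omega
      exact_mod_cast h1
  obtain ⟨l, hld⟩ : ∃ l, l = Real.log X := ⟨_, rfl⟩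
  rw [← hld] at hl haX hsX hH1 p1 p2 hlogR ⊢
  have hl0 : 0 < l := by linarith
  have hl1 : 1 ≤ l := by linarith
  have hsqrt : Real.sqrt X ≤ X := by
    rw [Real.sqrt_le_left hX0.le]
    nlinarith
  have hHX : H ≤ X := by
    have h0 : (0 : ℝ) ≤ H := Nat.cast_nonneg H
    have : (H : ℝ) ≤ X := by linarith
    exact_mod_cast this
  have hs1 := hsX (le_trans (pow_le_pow_right₀ hl1 hc6) hH1) hHX
  set U1 := (Ioc X (X + H)).filter fun N => 1 / l ^ (A + 2) < |sg ⌊l ^ c2'⌋₊ N - SS N| with hU1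
  set U2 := (Ioc X (X + H)).filter fun N => (X : ℝ) / l ^ (A + 2) <
    ‖∑ n ∈ Icc 1 X, b2 P R n * ((lp (N - n) : ℝ) : ℂ) - ((sg ⌊l ^ c2'⌋₊ N : ℝ) : ℂ) * ∑ n ∈ Icc 1 X, b2 P R n‖ with hU2
  have hv1 : ‖∑ n ∈ Icc 1 X, b2 P R n‖ ≤ X := by
    refine (norm_sum_le _ _).trans ?_
    refine (sum_le_sum fun n _ => b2_le p3 n).trans ?_
    rw [sum_const, Nat.card_Icc, Nat.add_sub_cancel, nsmul_eq_mul, mul_one]
  have hsub : ((Ioc X (X + H)).filter fun N => (X : ℝ) / l ^ A <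
        |W2 P R N - SS N * ((pr P).card * ∑ r ∈ pr R, Real.log r)|) ⊆ U1 ∪ U2 := by
    intro N hN
    obtain ⟨hN1, hN3⟩ := mem_filter.1 hN
    rw [mem_union]
    by_cases hsg : 1 / l ^ (A + 2) < |sg ⌊l ^ c2'⌋₊ N - SS N|
    · left
      exact mem_filter.2 ⟨hN1, hsg⟩
    · right
      refine mem_filter.2 ⟨hN1, ?_⟩
      rw [not_lt] at hsg
      by_contra hcon
      rw [not_lt] at hcon
      set u := ∑ n ∈ Icc 1 X, b2 P R n * ((lp (N - n) : ℝ) : ℂ) with hu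
      set v := ∑ n ∈ Icc 1 X, b2 P R n with hv
      set g : ℝ := Real.log (2 * R : ℕ) with hg
      have e1 : (((W2 P R N - SS N * ((pr P).card * ∑ r ∈ pr R, Real.log r) : ℝ)) : ℂ) =
          (g : ℂ) * (u - ((sg ⌊l ^ c2'⌋₊ N : ℝ) : ℂ) * v) + (g : ℂ) * (((sg ⌊l ^ c2'⌋₊ N - SS N : ℝ) : ℂ) * v) := by
        have w1 := W2_eq (by omega : 4 * (P * R) ≤ X) hR0 N
        have w2 := theta_eq (by omega : 4 * (P * R) ≤ X) hR0
        rw [← hu, ← hg] at w1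
        rw [← hv, ← hg] at w2
        rw [Complex.ofReal_sub, w1, Complex.ofReal_mul, w2, Complex.ofReal_sub]
        ring
      have e2 : |W2 P R N - SS N * ((pr P).card * ∑ r ∈ pr R, Real.log r)| ≤ 2 * (X / l ^ (A + 1)) := by
        rw [← Real.norm_eq_abs, ← Complex.norm_real, e1]
        refine (norm_add_le _ _).trans ?_
        rw [norm_mul, norm_mul, norm_mul, Complex.norm_real, Complex.norm_real, Real.norm_of_nonneg hlogR0, Real.norm_eq_abs]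
        have h1 : g * ‖u - ((sg ⌊l ^ c2'⌋₊ N : ℝ) : ℂ) * v‖ ≤ l * (X / l ^ (A + 2)) := by gcongr
        have h2 : g * (|sg ⌊l ^ c2'⌋₊ N - SS N| * ‖v‖) ≤ l * (1 / l ^ (A + 2) * X) := by gcongr
        have h3 : l * (X / l ^ (A + 2)) = X / l ^ (A + 1) := by
          rw [pow_succ l (A + 1)]
          field_simp
        have h4 : l * (1 / l ^ (A + 2) * X) = X / l ^ (A + 1) := by
          rw [← h3]
          ring
        rw [h3] at h1
        rw [h4] at h2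
        linarith
      have e3 : (X : ℝ) / l ^ A = l * (X / l ^ (A + 1)) := by
        rw [pow_succ l A]
        field_simp
      rw [e3] at hN3
      have e4 : 0 ≤ (X : ℝ) / l ^ (A + 1) := by positivity
      nlinarith
  calc (((Ioc X (X + H)).filter fun N => (X : ℝ) / l ^ A <
        |W2 P R N - SS N * ((pr P).card * ∑ r ∈ pr R, Real.log r)|).card : ℝ)
      ≤ ((U1 ∪ U2).card : ℝ) := by exact_mod_cast card_le_card hsub
    _ ≤ U1.card + U2.card := by exact_mod_cast card_union_le _ _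
    _ ≤ H / l ^ (A + 2) + H / l ^ (A + 2) := add_le_add hs1 haX
    _ ≤ H / l ^ A := by
        have h2 : (H : ℝ) / l ^ (A + 2) = H / l ^ A * (1 / l ^ 2) := by
          rw [pow_add]
          field_simp
        rw [h2, ← mul_add]
        have h4 : 1 / l ^ 2 ≤ 1 / 2 := by
          apply one_div_le_one_div_of_le (by norm_num)
          nlinarith
        have h5 : 0 ≤ (H : ℝ) / l ^ A := by positivity
        nlinarith

end Pool.Agent.Lib.G3
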