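import Pool.Agent.Lib.G3.G5Defs
import Pool.Agent.Lib.G3.Mert5
import Pool.Agent.Lib.G3.C25

/-!
# G5, row NT, file Thr5.lean: from the thresholds at `Y` to the thresholds at `N`

`⌊(log N)^c⌋` is `⌊(log Y)^c⌋` or one more; a single `p` has at most `N/p + 1` partners; `N/(log N)^2` against `Y/(log Y)^2`; `mert5`.
-/

set_option autoImplicit false
set_option maxHeartbeats 1000000

open Finset

namespace Pool.Agent.Lib.G3

open Pool.Agent.Lib.MRT (cj kap)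
open Pool.Agent.Lib.GT (e)

/-- `rep5` is a `T5` with the thresholds at `N` -/
private lemma thr5_rep (c₁ c₂ : ℝ) (N : ℕ) (hL : 0 ≤ Real.log N) :
    rep5 c₁ c₂ N = T5 ⌊(Real.log N) ^ c₁⌋₊ ⌊(Real.log N) ^ c₂⌋₊ N := by
  classical
  unfold rep5 T5 pi5
  apply congrArg
  ext x
  simp only [mem_filter, mem_product, mem_range, mem_Ioc]
  have h0 : 0 ≤ (Real.log N) ^ c₁ := Real.rpow_nonneg hL _
  have h1 : 0 ≤ (Real.log N) ^ c₂ := Real.rpow_nonneg hL _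
  constructor
  · rintro ⟨_, hp, hr, ha, hb, hs⟩
    refine ⟨⟨⟨⟨(Nat.floor_lt h0).mpr ha, Nat.le_floor hb⟩, hp⟩, ?_⟩, hr, hs⟩
    have h2 : 0 < N - x.1 * x.2 := hs.pos
    have h3 : x.1 * x.2 < N := by omega
    exact lt_of_le_of_lt (Nat.le_mul_of_pos_left _ hp.pos) h3
  · rintro ⟨⟨⟨⟨ha, hb⟩, hp⟩, hrN⟩, hr, hs⟩
    have h2 : 0 < N - x.1 * x.2 := hs.pos
    have h3 : x.1 * x.2 < N := by omega
    have h4 : x.1 < N := lt_of_le_of_lt (Nat.le_mul_of_pos_right _ hr.pos) h3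
    exact ⟨⟨by omega, by omega⟩, hp, hr, (Nat.floor_lt h0).mp ha, (Nat.le_floor_iff h1).mp hb, hs⟩

/-- the pairs with `p = m` -/
private lemma thr5_step {a b a' b' N m : ℕ} (hm : 1 ≤ m) (h : ∀ p, p.Prime → a' < p → p ≤ b' → (a < p ∧ p ≤ b) ∨ p = m) :
    T5 a' b' N ≤ T5 a b N + (N / m + 1) := by
  classical
  unfold T5
  have hsub : ((pi5 a' b' ×ˢ range N).filter fun x => x.2.Prime ∧ (N - x.1 * x.2).Prime) ⊆
      ((pi5 a b ×ˢ range N).filter fun x => x.2.Prime ∧ (N - x.1 * x.2).Prime) ∪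
        (range (N / m + 1)).image (fun r => (m, r)) := by
    intro x hx
    simp only [mem_filter, mem_product, mem_range, mem_union, mem_image, pi5, mem_Ioc] at hx ⊢
    obtain ⟨⟨⟨⟨ha, hb⟩, hp⟩, hrN⟩, hr, hs⟩ := hx
    rcases h x.1 hp ha hb with h1 | h1
    · exact Or.inl ⟨⟨⟨h1, hp⟩, hrN⟩, hr, hs⟩
    · refine Or.inr ⟨x.2, ?_, by rw [← h1]⟩
      have h2 : 0 < N - x.1 * x.2 := hs.pos
      have h3 : x.1 * x.2 < N := by omega
      rw [h1] at h3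
      have h4 : x.2 ≤ N / m := by
        rw [Nat.le_div_iff_mul_le (by omega), mul_comm]; exact h3.le
      omega
  calc _ ≤ _ := card_le_card hsub
    _ ≤ _ := card_union_le _ _
    _ ≤ _ := by
      have : ((range (N / m + 1)).image (fun r => (m, r))).card ≤ N / m + 1 := by
        calc _ ≤ (range (N / m + 1)).card := card_image_le
          _ = N / m + 1 := card_range _
      omega

/-- moving both thresholds by at most one -/
private lemma thr5_T {a b a' b' N : ℕ} {W : ℝ} (hW : 0 < W) (ha : a ≤ a') (ha' : a' ≤ a + 1) (hb : b ≤ b') (hb' : b' ≤ b + 1)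
    (hWa : W ≤ (a + 1 : ℕ)) (hWb : W ≤ (b + 1 : ℕ)) : |(T5 a' b' N : ℝ) - T5 a b N| ≤ N / W + 1 := by
  have h1 : T5 a' b' N ≤ T5 a b N + (N / (b + 1) + 1) := by
    apply thr5_step (by omega)
    intro p _ h1 h2
    by_cases h : p = b + 1
    · exact Or.inr h
    · exact Or.inl ⟨by omega, by omega⟩
  have h2 : T5 a b N ≤ T5 a' b' N + (N / (a + 1) + 1) := by
    apply thr5_step (by omega)
    intro p _ h1 h2
    by_cases h : p = a + 1
    · exact Or.inr h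
    · exact Or.inl ⟨by omega, by omega⟩
  have h1' : (T5 a' b' N : ℝ) ≤ T5 a b N + (((N / (b + 1) : ℕ) : ℝ) + 1) := by exact_mod_cast h1
  have h2' : (T5 a b N : ℝ) ≤ T5 a' b' N + (((N / (a + 1) : ℕ) : ℝ) + 1) := by exact_mod_cast h2
  have h3 : ((N / (b + 1) : ℕ) : ℝ) ≤ N / W := by
    calc ((N / (b + 1) : ℕ) : ℝ) ≤ N / ((b + 1 : ℕ) : ℝ) := Nat.cast_div_le
      _ ≤ N / W := by gcongr
  have h4 : ((N / (a + 1) : ℕ) : ℝ) ≤ N / W := by
    calc ((N / (a + 1) : ℕ) : ℝ) ≤ N / ((a + 1 : ℕ) : ℝ) := Nat.cast_div_le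
      _ ≤ N / W := by gcongr
  rw [abs_le]
  constructor <;> linarith

/-- `log ⌊(log Y)^c⌋ / log log Y → c` -/
private lemma thr5_lim (c : ℝ) (hc : 0 < c) :
    Filter.Tendsto (fun Y : ℕ => Real.log ⌊(Real.log Y) ^ c⌋₊ / Real.log (Real.log Y)) Filter.atTop (nhds c) := by
  have hL : Filter.Tendsto (fun Y : ℕ => Real.log (Y : ℝ)) Filter.atTop Filter.atTop :=
    Real.tendsto_log_atTop.comp tendsto_natCast_atTop_atTop
  have hx : Filter.Tendsto (fun Y : ℕ => (Real.log (Y : ℝ)) ^ c) Filter.atTop Filter.atTop :=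
    (tendsto_rpow_atTop hc).comp hL
  have hf : Filter.Tendsto (fun Y : ℕ => ((⌊(Real.log Y) ^ c⌋₊ : ℝ)) / (Real.log Y) ^ c) Filter.atTop (nhds 1) :=
    (tendsto_nat_floor_div_atTop (R := ℝ)).comp hx
  have hlf : Filter.Tendsto (fun Y : ℕ => Real.log (((⌊(Real.log Y) ^ c⌋₊ : ℝ)) / (Real.log Y) ^ c)) Filter.atTop (nhds 0) := by
    have := (Real.continuousAt_log (x := 1) one_ne_zero).tendsto.comp hf
    rw [Real.log_one] at this
    exact this
  have hLL : Filter.Tendsto (fun Y : ℕ => Real.log (Real.log (Y : ℝ))) Filter.atTop Filter.atTop :=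
    Real.tendsto_log_atTop.comp hL
  have h0 : Filter.Tendsto (fun Y : ℕ => Real.log (((⌊(Real.log Y) ^ c⌋₊ : ℝ)) / (Real.log Y) ^ c) / Real.log (Real.log Y))
      Filter.atTop (nhds 0) := hlf.div_atTop hLL
  have h1 : Filter.Tendsto (fun Y : ℕ => c + Real.log (((⌊(Real.log Y) ^ c⌋₊ : ℝ)) / (Real.log Y) ^ c) / Real.log (Real.log Y))
      Filter.atTop (nhds (c + 0)) := tendsto_const_nhds.add h0
  rw [add_zero] at h1
  refine h1.congr' ?_
  filter_upwards [hL.eventually_ge_atTop 2, hx.eventually_ge_atTop 1, hLL.eventually_ge_atTop 1] with Y g1 g2 g3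
  have hfl : (0 : ℝ) < (⌊(Real.log Y) ^ c⌋₊ : ℝ) := by
    have : 1 ≤ ⌊(Real.log Y) ^ c⌋₊ := Nat.le_floor (by exact_mod_cast g2)
    exact_mod_cast this
  rw [Real.log_div hfl.ne' (by linarith), Real.log_rpow (by linarith)]
  field_simp
  ring

/-- the sum over the primes tends to `log (c₂/c₁)` -/
private lemma thr5_sum (c₁ c₂ : ℝ) (hc₁ : 0 < c₁) (hc : c₁ < c₂) (ε : ℝ) (hε : 0 < ε) : ∀ᶠ Y : ℕ in Filter.atTop,
    |∑ p ∈ pi5 ⌊(Real.log Y) ^ c₁⌋₊ ⌊(Real.log Y) ^ c₂⌋₊, (1 : ℝ) / p - Real.log (c₂ / c₁)| ≤ ε := by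
  obtain ⟨z0, hz⟩ := mert5 (ε / 2) (by linarith)
  have hL : Filter.Tendsto (fun Y : ℕ => Real.log (Y : ℝ)) Filter.atTop Filter.atTop :=
    Real.tendsto_log_atTop.comp tendsto_natCast_atTop_atTop
  have hx : Filter.Tendsto (fun Y : ℕ => (Real.log (Y : ℝ)) ^ c₁) Filter.atTop Filter.atTop :=
    (tendsto_rpow_atTop hc₁).comp hL
  have hLL : Filter.Tendsto (fun Y : ℕ => Real.log (Real.log (Y : ℝ))) Filter.atTop Filter.atTop :=
    Real.tendsto_log_atTop.comp hL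
  have hlim : Filter.Tendsto (fun Y : ℕ => Real.log (Real.log ⌊(Real.log Y) ^ c₂⌋₊ / Real.log ⌊(Real.log Y) ^ c₁⌋₊))
      Filter.atTop (nhds (Real.log (c₂ / c₁))) := by
    have h1 := (thr5_lim c₂ (hc₁.trans hc)).div (thr5_lim c₁ hc₁) hc₁.ne'
    have h2 : Filter.Tendsto (fun Y : ℕ => Real.log ⌊(Real.log Y) ^ c₂⌋₊ / Real.log ⌊(Real.log Y) ^ c₁⌋₊)
        Filter.atTop (nhds (c₂ / c₁)) := by
      refine h1.congr' ?_
      filter_upwards [hLL.eventually_ge_atTop 1] with Y g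
      exact div_div_div_cancel_right₀ (by linarith) _ _
    exact (Real.continuousAt_log (div_pos (hc₁.trans hc) hc₁).ne').tendsto.comp h2
  have hev := (Metric.tendsto_nhds.mp hlim) (ε / 2) (by linarith)
  filter_upwards [hev, hx.eventually_ge_atTop (z0 : ℝ), hL.eventually_ge_atTop 1] with Y g1 g2 g3
  have h1 := hz ⌊(Real.log Y) ^ c₁⌋₊ ⌊(Real.log Y) ^ c₂⌋₊ (Nat.le_floor g2)
    (Nat.floor_le_floor (Real.rpow_le_rpow_of_exponent_le g3 hc.le))
  rw [Real.dist_eq] at g1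
  calc _ = |(∑ p ∈ pi5 ⌊(Real.log Y) ^ c₁⌋₊ ⌊(Real.log Y) ^ c₂⌋₊, (1 : ℝ) / p -
          Real.log (Real.log ⌊(Real.log Y) ^ c₂⌋₊ / Real.log ⌊(Real.log Y) ^ c₁⌋₊)) +
        (Real.log (Real.log ⌊(Real.log Y) ^ c₂⌋₊ / Real.log ⌊(Real.log Y) ^ c₁⌋₊) - Real.log (c₂ / c₁))| := by
        apply congrArg; ring
    _ ≤ _ := abs_add_le _ _
    _ ≤ ε := by linarith

/-- `log N ≤ log Y + 1/√Y` -/
private lemma thr5_log {Y N : ℕ} (hY : (1 : ℝ) ≤ Y) (hYN : Y < N) (hN : (N : ℝ) ≤ Y + Real.sqrt Y) :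
    Real.log Y ≤ Real.log N ∧ Real.log N ≤ Real.log Y + 1 / Real.sqrt Y ∧ (N : ℝ) ≤ Y * (1 + 1 / Real.sqrt Y) := by
  have hY0 : (0 : ℝ) < Y := by linarith
  have hYN' : (Y : ℝ) ≤ N := by exact_mod_cast hYN.le
  have hN0 : (0 : ℝ) < N := by linarith
  have hs0 : 0 < Real.sqrt Y := Real.sqrt_pos.mpr hY0
  have hYs : (Y : ℝ) * (1 + 1 / Real.sqrt Y) = Y + Real.sqrt Y := by
    have : (Y : ℝ) / Real.sqrt Y = Real.sqrt Y := Real.div_sqrt
    rw [mul_add, mul_one, mul_one_div, this]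
  refine ⟨Real.log_le_log hY0 hYN', ?_, by rw [hYs]; exact hN⟩
  have h1 : Real.log N ≤ Real.log (Y * (1 + 1 / Real.sqrt Y)) := Real.log_le_log hN0 (by rw [hYs]; exact hN)
  have h2 : (0 : ℝ) < 1 + 1 / Real.sqrt Y := by positivity
  rw [Real.log_mul hY0.ne' h2.ne'] at h1
  have h3 := Real.log_le_sub_one_of_pos h2
  linarith

/-- the powers of the logarithm at `N` and at `Y` -/
private lemma thr5_pow {Y N : ℕ} {c : ℝ} (hc : 0 < c) (hL : 1 ≤ Real.log Y) (hY : (1 : ℝ) ≤ Y) (hYN : Y < N)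
    (hN : (N : ℝ) ≤ Y + Real.sqrt Y) (hs : 2 * c * (Real.log Y) ^ c ≤ Real.sqrt Y) :
    ⌊(Real.log Y) ^ c⌋₊ ≤ ⌊(Real.log N) ^ c⌋₊ ∧ ⌊(Real.log N) ^ c⌋₊ ≤ ⌊(Real.log Y) ^ c⌋₊ + 1 := by
  obtain ⟨h1, h2, -⟩ := thr5_log hY hYN hN
  have hY0 : (0 : ℝ) < Y := by linarith
  have hs0 : 0 < Real.sqrt Y := Real.sqrt_pos.mpr hY0
  have hL0 : 0 < Real.log Y := by linarith
  have hLc : 1 ≤ (Real.log Y) ^ c := Real.one_le_rpow hL hc.le
  refine ⟨Nat.floor_le_floor (Real.rpow_le_rpow hL0.le h1 hc.le), ?_⟩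
  rw [← Nat.floor_add_one (by linarith)]
  apply Nat.floor_le_floor
  set h : ℝ := 1 / Real.sqrt Y with hh
  have hh0 : 0 < h := by positivity
  have hch : c * h ≤ 1 / 2 := by
    rw [hh, mul_one_div, div_le_iff₀ hs0]
    nlinarith
  have h3 : Real.log N ≤ Real.log Y * Real.exp h := by
    have : 1 + h ≤ Real.exp h := by linarith [Real.add_one_le_exp h]
    nlinarith
  calc (Real.log N) ^ c ≤ (Real.log Y * Real.exp h) ^ c := Real.rpow_le_rpow (by linarith) h3 hc.le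
    _ = (Real.log Y) ^ c * Real.exp (h * c) := by
        rw [Real.mul_rpow hL0.le (Real.exp_pos _).le, ← Real.exp_mul]
    _ ≤ (Real.log Y) ^ c * (1 / (1 - h * c)) := by
        have := Real.exp_bound_div_one_sub_of_interval (x := h * c) (by positivity) (by linarith [mul_comm h c])
        gcongr
    _ ≤ (Real.log Y) ^ c * (1 + 2 * (c * h)) := by
        have h5 : 0 < 1 - h * c := by linarith [mul_comm h c]
        have h6 : 1 / (1 - h * c) ≤ 1 + 2 * (c * h) := by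
          rw [div_le_iff₀ h5]
          have : 0 ≤ c * h := by positivity
          nlinarith
        gcongr
    _ = (Real.log Y) ^ c + (2 * c * (Real.log Y) ^ c) * h := by ring
    _ ≤ (Real.log Y) ^ c + Real.sqrt Y * h := by gcongr
    _ = (Real.log Y) ^ c + 1 := by rw [hh, mul_one_div, div_self hs0.ne']

/-- the last step: numbers only -/
private lemma thr5_num {r t S M M' lam ε' : ℝ} (hlam : 0 ≤ lam) (hε' : 0 < ε') (hM : 0 ≤ M) (hMM : M ≤ 2 * M')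
    (h1 : |r - t| ≤ ε' * M') (h2 : |t - S * M| ≤ ε' * M) (h3 : |S - lam| ≤ ε') (h4 : |M - M'| ≤ ε' * M') :
    |r - lam * M'| ≤ ε' * (5 + lam) * M' := by
  have e1 : r - lam * M' = (r - t) + ((t - S * M) + ((S - lam) * M + lam * (M - M'))) := by ring
  have e2 : |(S - lam) * M| ≤ ε' * M := by rw [abs_mul, abs_of_nonneg hM]; gcongr
  have e3 : |lam * (M - M')| ≤ lam * (ε' * M') := by rw [abs_mul, abs_of_nonneg hlam]; gcongr
  have e4 : ε' * M ≤ ε' * (2 * M') := by gcongr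
  calc |r - lam * M'| ≤ |r - t| + (|t - S * M| + (|(S - lam) * M| + |lam * (M - M')|)) := by
        rw [e1]
        refine (abs_add_le _ _).trans ?_
        gcongr
        refine (abs_add_le _ _).trans ?_
        gcongr
        exact abs_add_le _ _
    _ ≤ ε' * M' + (ε' * M + (ε' * M + lam * (ε' * M'))) := by gcongr
    _ ≤ ε' * (5 + lam) * M' := by nlinarith

theorem thr5 (c₁ c₂ : ℝ) (hc₁ : 10 ≤ c₁) (hc : c₁ < c₂) (ε : ℝ) (hε : 0 < ε) : ∃ (δ y0 : ℝ), 0 < δ ∧ ∀ Y N : ℕ, y0 ≤ Y → Y < N →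
    (N : ℝ) ≤ Y + Real.sqrt Y → 1 ≤ SS N →
    |(T5 ⌊(Real.log Y) ^ c₁⌋₊ ⌊(Real.log Y) ^ c₂⌋₊ N : ℝ) -
      (∑ p ∈ pi5 ⌊(Real.log Y) ^ c₁⌋₊ ⌊(Real.log Y) ^ c₂⌋₊, (1 : ℝ) / p) * (SS N * Y / (Real.log Y) ^ 2)| ≤
        δ * (SS N * Y / (Real.log Y) ^ 2) →
    |(rep5 c₁ c₂ N : ℝ) - Real.log (c₂ / c₁) * (SS N * N / (Real.log N) ^ 2)| ≤ ε * (SS N * N / (Real.log N) ^ 2) := by
  have hc₁0 : 0 < c₁ := by linarith
  have hc₂0 : 0 < c₂ := by linarith
  have hlam : 0 ≤ Real.log (c₂ / c₁) := Real.log_nonneg (by rw [le_div_iff₀ hc₁0]; linarith)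
  set lam : ℝ := Real.log (c₂ / c₁) with hlamdef
  set ε' : ℝ := ε / (5 + lam) with hε'def
  have hε' : 0 < ε' := by positivity
  have hεε : ε' * (5 + lam) = ε := by rw [hε'def]; field_simp
  -- eventually
  have hL : Filter.Tendsto (fun Y : ℕ => Real.log (Y : ℝ)) Filter.atTop Filter.atTop :=
    Real.tendsto_log_atTop.comp tendsto_natCast_atTop_atTop
  have hsq : Filter.Tendsto (fun Y : ℕ => Real.sqrt (Y : ℝ)) Filter.atTop Filter.atTop :=
    Real.tendsto_sqrt_atTop.comp tendsto_natCast_atTop_atTop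
  have hpw : ∀ c : ℝ, 0 < c → ∀ᶠ Y : ℕ in Filter.atTop, 2 * c * (Real.log (Y : ℝ)) ^ c ≤ Real.sqrt Y := by
    intro c hc
    have h1 : ∀ᶠ y : ℝ in Filter.atTop, ‖(Real.log y) ^ c‖ ≤ (1 / (2 * c)) * ‖y ^ (1 / 2 : ℝ)‖ :=
      (isLittleO_log_rpow_rpow_atTop c (by norm_num : (0 : ℝ) < 1 / 2)).bound (by positivity)
    have h2 := (tendsto_natCast_atTop_atTop (R := ℝ)).eventually h1
    filter_upwards [h2, hL.eventually_ge_atTop 0] with Y g1 g2
    rw [Real.norm_of_nonneg (Real.rpow_nonneg g2 _), Real.norm_of_nonneg (Real.rpow_nonneg (Nat.cast_nonneg _) _),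
      ← Real.sqrt_eq_rpow] at g1
    calc 2 * c * (Real.log (Y : ℝ)) ^ c ≤ 2 * c * (1 / (2 * c) * Real.sqrt Y) := by gcongr
      _ = Real.sqrt Y := by field_simp
  have hl2 : ∀ᶠ Y : ℕ in Filter.atTop, 8 * (Real.log (Y : ℝ)) ^ 2 ≤ ε' * Y := by
    have h1 : ∀ᶠ y : ℝ in Filter.atTop, ‖(Real.log y) ^ 2‖ ≤ (ε' / 8) * ‖y‖ :=
      (Real.isLittleO_pow_log_id_atTop (n := 2)).bound (by positivity)
    have h2 := (tendsto_natCast_atTop_atTop (R := ℝ)).eventually h1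
    filter_upwards [h2] with Y g1
    rw [Real.norm_of_nonneg (by positivity), Real.norm_of_nonneg (Nat.cast_nonneg _)] at g1
    linarith
  obtain ⟨Y0, hY0⟩ := Filter.eventually_atTop.mp ((thr5_sum c₁ c₂ hc₁0 hc ε' hε').and
    ((hL.eventually_ge_atTop (1 + 8 / ε')).and ((hpw c₁ hc₁0).and ((hpw c₂ hc₂0).and (hl2.and
      ((hsq.eventually_ge_atTop (4 + 4 / ε')).and (Filter.eventually_ge_atTop 1)))))))
  refine ⟨ε', Y0, hε', fun Y N hY hYN hN hSS hT => ?_⟩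
  obtain ⟨g1, g2, g3, g4, g5, g6, g7⟩ := hY0 Y (by exact_mod_cast hY)
  have hY1 : (1 : ℝ) ≤ Y := by exact_mod_cast g7
  obtain ⟨k1, k2, k3⟩ := thr5_log hY1 hYN hN
  have hY0' : (0 : ℝ) < Y := by linarith
  have hYN' : (Y : ℝ) ≤ N := by exact_mod_cast hYN.le
  have hN0 : (0 : ℝ) < N := by linarith
  set L : ℝ := Real.log Y with hLdef
  set L' : ℝ := Real.log N with hL'def
  set s : ℝ := Real.sqrt Y with hsdef
  have h8 : 0 < 8 / ε' := by positivity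
  have h4 : 0 < 4 / ε' := by positivity
  have hL1 : 1 ≤ L := by linarith
  have hL0 : 0 < L := by linarith
  have hL'0 : 0 < L' := by linarith
  have hs4 : 4 ≤ s := by linarith
  have hs0 : 0 < s := by linarith
  have hSS0 : 0 ≤ SS N := by linarith
  have hh0 : 0 < 1 / s := by positivity
  have hh4 : 1 / s ≤ 1 / 4 := one_div_le_one_div_of_le (by norm_num) hs4
  have hhε : 4 * (1 / s) ≤ ε' := by
    rw [mul_one_div, div_le_iff₀ hs0]
    have : 4 / ε' ≤ s := by linarith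
    rw [div_le_iff₀ hε'] at this
    linarith
  have hL'2 : L' ≤ 2 * L := by linarith
  -- M and M'
  have hM0 : 0 ≤ SS N * Y / L ^ 2 := by positivity
  have hM'0 : 0 ≤ SS N * N / L' ^ 2 := by positivity
  have m1 : SS N * Y / L ^ 2 ≤ (1 + 1 / s) ^ 2 * (SS N * N / L' ^ 2) := by
    rw [← mul_div_assoc, div_le_div_iff₀ (by positivity) (by positivity)]
    have a1 : L' ≤ (1 + 1 / s) * L := by nlinarith
    calc SS N * Y * L' ^ 2 ≤ SS N * N * ((1 + 1 / s) * L) ^ 2 := by gcongr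
      _ = _ := by ring
  have m2 : SS N * N / L' ^ 2 ≤ (1 + 1 / s) * (SS N * Y / L ^ 2) := by
    rw [← mul_div_assoc, div_le_div_iff₀ (by positivity) (by positivity)]
    calc SS N * N * L ^ 2 ≤ SS N * (Y * (1 + 1 / s)) * L' ^ 2 := by gcongr
      _ = _ := by ring
  have m3 : (1 + 1 / s) ^ 2 ≤ 1 + 3 * (1 / s) := by nlinarith
  have m1' : SS N * Y / L ^ 2 ≤ (1 + 3 * (1 / s)) * (SS N * N / L' ^ 2) := m1.trans (by gcongr)
  have m4 : SS N * Y / L ^ 2 ≤ 2 * (SS N * N / L' ^ 2) := m1'.trans (by gcongr; linarith)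
  have m5 : |SS N * Y / L ^ 2 - SS N * N / L' ^ 2| ≤ ε' * (SS N * N / L' ^ 2) := by
    have b1 : 3 * (1 / s) * (SS N * N / L' ^ 2) ≤ ε' * (SS N * N / L' ^ 2) := by gcongr; linarith
    have b2 : (1 / s) * (SS N * Y / L ^ 2) ≤ ε' * (SS N * N / L' ^ 2) := by
      calc (1 / s) * (SS N * Y / L ^ 2) ≤ (1 / s) * (2 * (SS N * N / L' ^ 2)) := by gcongr
        _ = 2 * (1 / s) * (SS N * N / L' ^ 2) := by ring
        _ ≤ ε' * (SS N * N / L' ^ 2) := by gcongr; linarith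
    have m2' : SS N * N / L' ^ 2 ≤ SS N * Y / L ^ 2 + (1 / s) * (SS N * Y / L ^ 2) := by linarith [m2]
    have m1'' : SS N * Y / L ^ 2 ≤ SS N * N / L' ^ 2 + 3 * (1 / s) * (SS N * N / L' ^ 2) := by linarith [m1']
    rw [abs_le]
    constructor <;> linarith
  -- rep5 and T5
  have r1 : |(rep5 c₁ c₂ N : ℝ) - T5 ⌊L ^ c₁⌋₊ ⌊L ^ c₂⌋₊ N| ≤ ε' * (SS N * N / L' ^ 2) := by
    rw [thr5_rep c₁ c₂ N hL'0.le]
    obtain ⟨p1, p2⟩ := thr5_pow hc₁0 hL1 hY1 hYN hN g3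
    obtain ⟨p3, p4⟩ := thr5_pow hc₂0 hL1 hY1 hYN hN g4
    have hW : ∀ c : ℝ, 10 ≤ c → L ^ 10 ≤ ((⌊L ^ c⌋₊ + 1 : ℕ) : ℝ) := by
      intro c hc
      have : L ^ 10 ≤ L ^ c := by
        rw [← Real.rpow_natCast L 10]
        exact Real.rpow_le_rpow_of_exponent_le hL1 (by exact_mod_cast hc)
      push_cast
      exact this.trans (Nat.lt_floor_add_one _).le
    have hd := thr5_T (N := N) (W := L ^ 10) (by positivity) p1 p2 p3 p4 (hW c₁ hc₁) (hW c₂ (by linarith))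
    refine hd.trans ?_
    have c0 : N / (4 * L ^ 2) ≤ SS N * N / L' ^ 2 := by
      calc (N : ℝ) / (4 * L ^ 2) = 1 * N / (2 * L) ^ 2 := by ring
        _ ≤ SS N * N / L' ^ 2 := by gcongr
    have c1 : N / L ^ 10 ≤ ε' / 2 * (N / (4 * L ^ 2)) := by
      have d1 : 8 / ε' ≤ L := by linarith
      rw [div_le_iff₀ hε'] at d1
      have d2 : L ≤ L ^ 8 := by
        calc L = L ^ 1 := (pow_one _).symm
          _ ≤ L ^ 8 := pow_le_pow_right₀ hL1 (by norm_num)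
      have d3 : ε' / 2 * (N / (4 * L ^ 2)) = (ε' * L ^ 8 / 8) * (N / L ^ 10) := by field_simp; ring
      rw [d3]
      have d4 : 1 ≤ ε' * L ^ 8 / 8 := by
        have : L * ε' ≤ L ^ 8 * ε' := by gcongr
        linarith [mul_comm ε' (L ^ 8)]
      have d5 : 0 ≤ (N : ℝ) / L ^ 10 := by positivity
      nlinarith
    have c2 : 1 ≤ ε' / 2 * (N / (4 * L ^ 2)) := by
      have d6 : ε' / 2 * (N / (4 * L ^ 2)) = ε' * N / (8 * L ^ 2) := by field_simp; ring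
      rw [d6, le_div_iff₀ (by positivity)]
      have : ε' * Y ≤ ε' * N := by gcongr
      linarith
    calc (N : ℝ) / L ^ 10 + 1 ≤ ε' / 2 * (N / (4 * L ^ 2)) + ε' / 2 * (N / (4 * L ^ 2)) := by linarith
      _ = ε' * (N / (4 * L ^ 2)) := by ring
      _ ≤ ε' * (SS N * N / L' ^ 2) := by gcongr
  have := thr5_num hlam hε' hM0 m4 r1 hT g1 m5
  rw [hεε] at this
  exact this

end Pool.Agent.Lib.G3
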