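import Pool.Agent.Lib.G3.Defs2

/-!
# G3, row WI: all `H ≤ X`

Cover `(X, X + H]` by windows `(X + i h, X + (i + 1) h]` with `h = ⌈(log 2X)^C⌉`.
-/

set_option autoImplicit false

open Finset

namespace Pool.Agent.Lib.G3

private theorem WI_cover (E : ℕ → Prop) [DecidablePred E] (X H h : ℕ) (hh : 1 ≤ h) :
    ((Ioc X (X + H)).filter E).card ≤
      ∑ i ∈ range (H / h + 1), ((Ioc (X + i * h) (X + i * h + h)).filter E).card := by
  classical
  have hsub : (Ioc X (X + H)).filter E ⊆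
      (range (H / h + 1)).biUnion fun i => (Ioc (X + i * h) (X + i * h + h)).filter E := by
    intro N hN
    rw [mem_filter, mem_Ioc] at hN
    obtain ⟨⟨h1, h2⟩, h3⟩ := hN
    rw [mem_biUnion]
    refine ⟨(N - X - 1) / h, ?_, ?_⟩
    · rw [mem_range]
      have : (N - X - 1) / h ≤ H / h := Nat.div_le_div_right (by omega)
      omega
    · rw [mem_filter, mem_Ioc]
      have ha : (N - X - 1) / h * h ≤ N - X - 1 := Nat.div_mul_le_self _ _
      have hb : N - X - 1 < ((N - X - 1) / h + 1) * h := by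
        have := Nat.lt_div_mul_add (a := N - X - 1) (b := h) (by omega)
        calc N - X - 1 < (N - X - 1) / h * h + h := this
          _ = ((N - X - 1) / h + 1) * h := by ring
      have hc : ((N - X - 1) / h + 1) * h = (N - X - 1) / h * h + h := by ring
      rw [hc] at hb
      exact ⟨⟨by omega, by omega⟩, h3⟩
  exact le_trans (card_le_card hsub) card_biUnion_le

/-- `g3` from the statement of `g3_core` at `A + 1` -/
theorem g3_of_core (k A : ℕ) (hcore' : ∃ (C : ℕ) (x0 : ℝ), ∀ X : ℕ, x0 ≤ X → ∀ H : ℕ, (Real.log X) ^ C ≤ H →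
    (H : ℝ) ≤ (Real.log X) ^ (C + 2) →
      (((Ioc X (X + H)).filter fun N => Even N ∧ (reps k N : ℝ) < X / (Real.log X) ^ 6).card : ℝ) ≤
        H / (Real.log X) ^ (A + 1)) :
    ∃ (C : ℕ) (x0 : ℝ), ∀ X : ℕ, x0 ≤ X → ∀ H : ℕ, (Real.log X) ^ C ≤ H → H ≤ X →
      (((Ioc X (X + H)).filter fun N => Even N ∧ (reps k N : ℝ) < X / (Real.log X) ^ 7).card : ℝ) ≤
        H / (Real.log X) ^ A := by
  obtain ⟨C0, x0, hcore⟩ := hcore'
  refine ⟨C0 + 2, max x0 (Real.exp (2 ^ C0 + 65)), ?_⟩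
  intro X hX H hH hHX
  have hX0 : x0 ≤ (X : ℝ) := le_trans (le_max_left _ _) hX
  have hXe : Real.exp (2 ^ C0 + 65) ≤ (X : ℝ) := le_trans (le_max_right _ _) hX
  have hXpos : (0 : ℝ) < X := lt_of_lt_of_le (Real.exp_pos _) hXe
  have hlog : (2 : ℝ) ^ C0 + 65 ≤ Real.log X := by
    rw [Real.le_log_iff_exp_le hXpos]; exact hXe
  have h2C : (1 : ℝ) ≤ 2 ^ C0 := one_le_pow₀ (by norm_num)
  set l : ℝ := Real.log X with hl
  have hl1 : (1 : ℝ) ≤ l := by linarith
  have hl0 : (0 : ℝ) < l := by linarith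
  -- log of 2X
  have hlog2 : Real.log (2 * (X : ℝ)) ≤ 2 * l := by
    rw [Real.log_mul (by norm_num) hXpos.ne']
    have : Real.log 2 ≤ 1 := by
      have := Real.log_two_lt_d9
      linarith
    linarith
  have hlog2nn : (0 : ℝ) ≤ Real.log (2 * (X : ℝ)) := by
    rw [Real.log_mul (by norm_num) hXpos.ne']
    have := Real.log_two_gt_d9
    linarith
  set h : ℕ := ⌈(Real.log (2 * (X : ℝ))) ^ C0⌉₊ with hh
  have hhle : (h : ℝ) ≤ l ^ (C0 + 2) := by
    have h1 : (h : ℝ) < (Real.log (2 * (X : ℝ))) ^ C0 + 1 := Nat.ceil_lt_add_one (pow_nonneg hlog2nn _)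
    have h2 : (Real.log (2 * (X : ℝ))) ^ C0 ≤ (2 * l) ^ C0 := pow_le_pow_left₀ hlog2nn hlog2 _
    have h3 : (1 : ℝ) ≤ l ^ C0 := one_le_pow₀ hl1
    have h4 : (2 * l) ^ C0 = 2 ^ C0 * l ^ C0 := mul_pow _ _ _
    have h5 : (2 : ℝ) ^ C0 + 1 ≤ l ^ 2 := by nlinarith
    calc (h : ℝ) ≤ 2 ^ C0 * l ^ C0 + 1 := by linarith
      _ ≤ 2 ^ C0 * l ^ C0 + l ^ C0 := by linarith
      _ = (2 ^ C0 + 1) * l ^ C0 := by ring
      _ ≤ l ^ 2 * l ^ C0 := by gcongr
      _ = l ^ (C0 + 2) := by ring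
  have hh1 : 1 ≤ h := by
    have h1 : (1 : ℝ) ≤ Real.log (2 * (X : ℝ)) := by
      rw [Real.log_mul (by norm_num) hXpos.ne']
      have := Real.log_two_gt_d9
      linarith
    have h2 : (1 : ℝ) ≤ (Real.log (2 * (X : ℝ))) ^ C0 := one_le_pow₀ h1
    have h3 : (1 : ℝ) ≤ h := le_trans h2 (Nat.le_ceil _)
    exact_mod_cast h3
  have hhH : (h : ℝ) ≤ H := le_trans hhle hH
  have hhHn : h ≤ H := by exact_mod_cast hhH
  have hhpos : (0 : ℝ) < h := by
    have : (1 : ℝ) ≤ h := by exact_mod_cast hh1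
    linarith
  -- the bound in one window
  have hone : ∀ i ∈ range (H / h + 1),
      (((Ioc (X + i * h) (X + i * h + h)).filter fun N => Even N ∧ (reps k N : ℝ) < X / l ^ 7).card : ℝ) ≤
        h / l ^ (A + 1) := by
    intro i hi
    rw [mem_range] at hi
    have hih : i * h ≤ H := le_trans (Nat.mul_le_mul_right h (by omega : i ≤ H / h)) (Nat.div_mul_le_self H h)
    set Y : ℕ := X + i * h with hY
    have hXY : X ≤ Y := by omega
    have hY2 : Y ≤ 2 * X := by omega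
    have hXYr : (X : ℝ) ≤ Y := by exact_mod_cast hXY
    have hY2r : (Y : ℝ) ≤ 2 * X := by exact_mod_cast hY2
    have hYpos : (0 : ℝ) < Y := lt_of_lt_of_le hXpos hXYr
    have hlY : l ≤ Real.log Y := Real.log_le_log hXpos hXYr
    have hlY0 : (0 : ℝ) ≤ Real.log Y := by linarith
    have hlY2 : Real.log Y ≤ Real.log (2 * (X : ℝ)) := Real.log_le_log hYpos hY2r
    have hc := hcore Y (le_trans hX0 hXYr) h
      (le_trans (pow_le_pow_left₀ hlY0 hlY2 _) (Nat.le_ceil _))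
      (le_trans hhle (pow_le_pow_left₀ hl0.le hlY _))
    have hbound : (X : ℝ) / l ^ 7 ≤ Y / (Real.log Y) ^ 6 := by
      have h1 : (Real.log Y) ^ 6 ≤ l ^ 7 := by
        calc (Real.log Y) ^ 6 ≤ (2 * l) ^ 6 := pow_le_pow_left₀ hlY0 (le_trans hlY2 hlog2) _
          _ = 64 * l ^ 6 := by ring
          _ ≤ l * l ^ 6 := by
            have : (64 : ℝ) ≤ l := by linarith
            gcongr
          _ = l ^ 7 := by ring
      have h2 : (0 : ℝ) < (Real.log Y) ^ 6 := pow_pos (by linarith) _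
      calc (X : ℝ) / l ^ 7 ≤ X / (Real.log Y) ^ 6 := div_le_div_of_nonneg_left hXpos.le h2 h1
        _ ≤ Y / (Real.log Y) ^ 6 := by gcongr
    have hsub : ((Ioc Y (Y + h)).filter fun N => Even N ∧ (reps k N : ℝ) < X / l ^ 7) ⊆
        (Ioc Y (Y + h)).filter fun N => Even N ∧ (reps k N : ℝ) < Y / (Real.log Y) ^ 6 := by
      intro N hN
      rw [mem_filter] at hN ⊢
      exact ⟨hN.1, hN.2.1, lt_of_lt_of_le hN.2.2 hbound⟩
    have hcard : (((Ioc Y (Y + h)).filter fun N => Even N ∧ (reps k N : ℝ) < X / l ^ 7).card : ℝ) ≤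
        (((Ioc Y (Y + h)).filter fun N => Even N ∧ (reps k N : ℝ) < Y / (Real.log Y) ^ 6).card : ℝ) := by
      exact_mod_cast card_le_card hsub
    refine le_trans hcard (le_trans hc ?_)
    have h3 : l ^ (A + 1) ≤ (Real.log Y) ^ (A + 1) := pow_le_pow_left₀ hl0.le hlY _
    exact div_le_div_of_nonneg_left hhpos.le (pow_pos hl0 _) h3
  have hcov := WI_cover (fun N => Even N ∧ (reps k N : ℝ) < X / l ^ 7) X H h hh1
  have hcov' : (((Ioc X (X + H)).filter fun N => Even N ∧ (reps k N : ℝ) < X / l ^ 7).card : ℝ) ≤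
      ∑ i ∈ range (H / h + 1),
        (((Ioc (X + i * h) (X + i * h + h)).filter fun N => Even N ∧ (reps k N : ℝ) < X / l ^ 7).card : ℝ) := by
    exact_mod_cast hcov
  refine le_trans hcov' (le_trans (sum_le_sum hone) ?_)
  rw [sum_const, card_range, nsmul_eq_mul]
  have hdiv : ((H / h : ℕ) : ℝ) * h ≤ H := by
    exact_mod_cast Nat.div_mul_le_self H h
  have hpA : (0 : ℝ) < l ^ A := pow_pos hl0 _
  have hpA1 : (0 : ℝ) < l ^ (A + 1) := pow_pos hl0 _
  have hH0 : (0 : ℝ) ≤ H := Nat.cast_nonneg _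
  calc (((H / h + 1 : ℕ) : ℝ)) * (h / l ^ (A + 1)) = (((H / h : ℕ) : ℝ) * h + h) / l ^ (A + 1) := by
        push_cast; ring
    _ ≤ (2 * H) / l ^ (A + 1) := by
        gcongr
        linarith
    _ ≤ (l * H) / l ^ (A + 1) := by
        gcongr
        linarith
    _ = H / l ^ A := by
        rw [pow_succ]
        field_simp

end Pool.Agent.Lib.G3
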