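import Pool.Agent.Lib.G3.G5Defs
import Pool.Agent.Lib.G3.Core5
import Pool.Agent.Lib.G3.Thr5
import Pool.Agent.Lib.G3.Wide5
import Pool.Agent.Lib.G3.C25

/-!
# G5, row FI, file Fin5.lean (from `core5`, `thr5`, `wide5`, `SS_one_le`)
-/

set_option autoImplicit false

open Finset

namespace Pool.Agent.Lib.G3

private theorem fi5_ev (n : ℕ) : ∃ y0 : ℝ, ∀ Y : ℕ, y0 ≤ Y → 2 ≤ Real.log Y ∧ (Real.log Y) ^ n ≤ Real.sqrt Y := by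
  have h1 := (isLittleO_log_rpow_rpow_atTop (s := 1 / 2) (n : ℝ) (by norm_num)).bound (c := 1) (by norm_num)
  have h2 : ∀ᶠ x : ℝ in Filter.atTop, 2 ≤ Real.log x := Real.tendsto_log_atTop.eventually (Filter.eventually_ge_atTop _)
  obtain ⟨x1, hx1⟩ := Filter.eventually_atTop.1 (h1.and h2)
  refine ⟨max x1 1, fun Y hY => ?_⟩
  obtain ⟨h1, h2⟩ := hx1 Y ((le_max_left _ _).trans hY)
  have hY1 : (1 : ℝ) ≤ Y := (le_max_right _ _).trans hY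
  refine ⟨h2, ?_⟩
  have hl : 0 ≤ Real.log Y := by linarith
  rw [Real.rpow_natCast, Real.norm_of_nonneg (by positivity), Real.norm_of_nonneg (by positivity),
    ← Real.sqrt_eq_rpow, one_mul] at h1
  exact h1

/-- **The asymptotic formula for `N = p + p₁ p₂`, `(log N)^c₁ < p₁ ≤ (log N)^c₂`, in windows of length a power of `log X`.** -/
theorem g5 (A : ℕ) : ∃ c₀ : ℝ, ∀ c₁ c₂ : ℝ, c₀ ≤ c₁ → c₁ < c₂ → ∃ C : ℕ, ∀ ε : ℝ, 0 < ε → ∃ x0 : ℝ, ∀ X H : ℕ, x0 ≤ X →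
    (Real.log X) ^ C ≤ H → H ≤ X →
      (((Ioc X (X + H)).filter fun N => Even N ∧ ε * (SS N * N / (Real.log N) ^ 2) <
        |(rep5 c₁ c₂ N : ℝ) - Real.log (c₂ / c₁) * (SS N * N / (Real.log N) ^ 2)|).card : ℝ) ≤ H / (Real.log X) ^ A := by
  classical
  obtain ⟨c0, hc0, hcore⟩ := core5 A
  refine ⟨c0 + 1, fun c₁ c₂ h1 h2 => ?_⟩
  obtain ⟨C, hC⟩ := hcore ⌈c₂⌉₊
  refine ⟨C + 2, fun ε hε => ?_⟩
  have hc0r : (10 : ℝ) ≤ c0 := by exact_mod_cast hc0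
  obtain ⟨δ, y1, hδ, hthr⟩ := thr5 c₁ c₂ (by linarith) h2 ε hε
  obtain ⟨y2, hcore2⟩ := hC δ hδ
  obtain ⟨y3, hy3⟩ := fi5_ev (C + 1)
  obtain ⟨x0, hx0⟩ := wide5 (fun N => Even N ∧ ε * (SS N * N / (Real.log N) ^ 2) <
    |(rep5 c₁ c₂ N : ℝ) - Real.log (c₂ / c₁) * (SS N * N / (Real.log N) ^ 2)|) A C (max (max y1 y2) y3) (by
    intro Y H hY hH1 hH2
    simp only [max_le_iff] at hY
    obtain ⟨⟨hY1, hY2⟩, hY3⟩ := hY
    obtain ⟨hL2, hsq⟩ := hy3 Y hY3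
    obtain ⟨L, hL⟩ : ∃ L, L = Real.log Y := ⟨_, rfl⟩
    have hthr' := fun N => hthr Y N hY1
    have hcore' := fun u v => hcore2 Y H u v hY2
    rw [← hL] at hL2 hsq hH1 hH2 hthr' hcore' ⊢
    have hL1 : 1 ≤ L := by linarith
    have hL0 : 0 < L := by linarith
    have hu : L ^ c0 ≤ ⌊L ^ c₁⌋₊ := by
      have b1 : L ^ c0 + 1 ≤ L ^ c₁ := by
        have b2 : L ^ ((c0 : ℝ) + 1) ≤ L ^ c₁ := Real.rpow_le_rpow_of_exponent_le hL1 h1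
        rw [Real.rpow_add hL0, Real.rpow_natCast, Real.rpow_one] at b2
        have b3 : 1 ≤ L ^ c0 := one_le_pow₀ hL1
        nlinarith
      have b2 : L ^ c₁ < ⌊L ^ c₁⌋₊ + 1 := Nat.lt_floor_add_one _
      linarith
    have huv : ⌊L ^ c₁⌋₊ ≤ ⌊L ^ c₂⌋₊ := Nat.floor_le_floor (Real.rpow_le_rpow_of_exponent_le hL1 h2.le)
    have hv : ((⌊L ^ c₂⌋₊ : ℕ) : ℝ) ≤ L ^ ⌈c₂⌉₊ := by
      refine (Nat.floor_le (by positivity)).trans ?_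
      rw [← Real.rpow_natCast]
      exact Real.rpow_le_rpow_of_exponent_le hL1 (Nat.le_ceil _)
    refine le_trans ?_ (hcore' _ _ hH1 hH2 hu huv hv)
    have hsub : ((Ioc Y (Y + H)).filter fun N => Even N ∧ ε * (SS N * N / (Real.log N) ^ 2) <
        |(rep5 c₁ c₂ N : ℝ) - Real.log (c₂ / c₁) * (SS N * N / (Real.log N) ^ 2)|) ⊆
        (Ioc Y (Y + H)).filter fun N => Even N ∧ δ * (SS N * Y / L ^ 2) < |(T5 ⌊L ^ c₁⌋₊ ⌊L ^ c₂⌋₊ N : ℝ) -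
          (∑ p ∈ pi5 ⌊L ^ c₁⌋₊ ⌊L ^ c₂⌋₊, (1 : ℝ) / p) * (SS N * Y / L ^ 2)| := by
      intro N hN
      rw [mem_filter] at hN ⊢
      obtain ⟨hN1, hNe, hN2⟩ := hN
      refine ⟨hN1, hNe, ?_⟩
      rw [mem_Ioc] at hN1
      by_contra hc
      refine absurd hN2 (not_lt.2 (hthr' N hN1.1 ?_ (SS_one_le hNe) (not_lt.1 hc)))
      have b1 : (N : ℝ) ≤ Y + H := by exact_mod_cast hN1.2
      linarith
    have h5 := card_le_card hsub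
    refine le_trans (le_of_eq ?_) ((Nat.cast_le (α := ℝ)).2 h5)
    congr!)
  refine ⟨x0, fun X H hX hH1 hH2 => ?_⟩
  refine le_trans (le_of_eq ?_) (hx0 X H hX hH1 hH2)
  congr!

end Pool.Agent.Lib.G3
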