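import Pool.Agent.Lib.G3.VbI
import Pool.Agent.Lib.G3.BqsM
import Pool.Agent.Lib.G3.CntM
import Pool.Agent.Lib.G3.Fin2

/-!
# G4: a prime plus a product of exactly `k` primes: nearly the expected number of representations for almost all even `N`
-/

set_option autoImplicit false

open Finset

namespace Pool.Agent.Lib.G3

open Pool.Agent.Lib.MRT (cj kap)
open Pool.Agent.Lib.GT (e)

theorem asyM (A c2 : ℕ) : ∃ c2' : ℕ, c2 ≤ c2' ∧ ∃ c10 : ℕ, 2 ≤ c10 ∧ ∀ c1 : ℕ, c10 ≤ c1 → ∀ cM : ℕ, ∃ c6 : ℕ, 4 * c2' + 20 ≤ c6 ∧ ∃ x0 : ℝ,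
    ∀ X : ℕ, x0 ≤ X → ∀ (P R M H : ℕ) (a : ℕ → ℂ), ParM X P R M c1 cM → Good a P R M → (Real.log X) ^ c6 ≤ H → 2 * (H : ℝ) ≤ Real.sqrt X →
      (((Ioc X (X + H)).filter fun N => (X : ℝ) / (Real.log X) ^ A <
        ‖∑ n ∈ Icc 1 X, bm a P R M n * ((lp (N - n) : ℝ) : ℂ) - ((sg ⌊(Real.log X) ^ c2'⌋₊ N : ℝ) : ℂ) * ∑ n ∈ Icc 1 X, bm a P R M n‖).card : ℝ) ≤
          H / (Real.log X) ^ A := by
  classical
  obtain ⟨c2', hc2, B, c50, hB⟩ := vbM (3 * (A + 1) + 6) c2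
  obtain ⟨c5m, hmain⟩ := mainG (A + 2) c2' (c2' + (4 * B + 12))
  obtain ⟨c5, hc5a, hc5b⟩ : ∃ c5, c50 ≤ c5 ∧ c5m ≤ c5 := ⟨max c50 c5m, le_max_left _ _, le_max_right _ _⟩
  obtain ⟨c10, hc10, hB2⟩ := hB c5 hc5a
  refine ⟨c2', hc2, max c10 2, le_max_right _ _, fun c1 hc1 cM => ?_⟩
  have hc1a : c10 ≤ c1 := (le_max_left _ _).trans hc1
  have hc1b : 2 ≤ c1 := (le_max_right _ _).trans hc1
  obtain ⟨c6, hc6, x1, hvb⟩ := hB2 c1 hc1a cM
  obtain ⟨x2, hmt⟩ := hmain c5 hc5b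
  obtain ⟨x3, hbq⟩ := bqsM (A + 2 + 2 * c2' + 3) c2' 0 c1 cM (by omega)
  obtain ⟨x4, hJ⟩ := J2_card B
  obtain ⟨x5, hx5, hpar⟩ := parm c1 cM hc1b
  obtain ⟨x6, hx6, hgr⟩ := grow 100 1
  refine ⟨c6 + 1, by omega, max (max (max x1 x2) (max x3 x4)) (max x5 x6), ?_⟩
  intro X hX P R M H a hP hG hH1 hH2
  simp only [max_le_iff] at hX
  obtain ⟨⟨⟨hX1, hX2⟩, hX3, hX4⟩, hX5, hX6⟩ := hX
  have hX100 : (100 : ℝ) ≤ X := hx5.trans hX5
  have hXn : 100 ≤ X := by exact_mod_cast hX100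
  have hX0 : (0 : ℝ) < X := by linarith
  obtain ⟨hl, -⟩ := hgr X hX6
  obtain ⟨p1, p2, p3, p3', p4, p5, p6, p7⟩ := hpar X P R M hX5 hP
  have hv := hvb X hX1 P R M
  have hm := hmt X hX2 (bm a P R M)
  have hbqX := hbq X hX3 P R M a hP hG
  have hJX := hJ X hX4
  clear hvb hmt hbq hJ hpar hgr hB hmain hB2
  obtain ⟨l, hld⟩ : ∃ l, l = Real.log X := ⟨_, rfl⟩
  rw [← hld] at hl hv hm hbqX hJX hH1 ⊢
  have hl0 : 0 < l := by linarith
  have hl1 : 1 ≤ l := by linarith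
  set h : ℕ := ⌈l ^ c6⌉₊ with hh
  have hh1 : l ^ c6 ≤ h := Nat.le_ceil _
  have hlc : 1 ≤ l ^ c6 := one_le_pow₀ hl1
  have hh2 : (h : ℝ) ≤ l * l ^ c6 := by
    have := Nat.ceil_lt_add_one (show 0 ≤ l ^ c6 by positivity)
    nlinarith
  have hh3 : (h : ℝ) ≤ l ^ (c6 + 1) := by rw [pow_succ']; exact hh2
  have hh4 : (h : ℝ) ≤ l ^ (c6 + 2) := hh3.trans (pow_le_pow_right₀ hl1 (by omega))
  have hhH : (h : ℝ) ≤ H := hh3.trans hH1
  have hhHn : h ≤ H := by exact_mod_cast hhH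
  have hhn : 1 ≤ h := by
    have : (1 : ℝ) ≤ h := hlc.trans hh1
    exact_mod_cast this
  obtain ⟨H', T, hHH', hH'2, hT, hV⟩ := hv h a hP hG hh1 hh4
  have hTX : T ≤ X := by
    have h1 : (T : ℝ) ≤ X := hT.trans (div_le_self hX0.le (one_le_pow₀ hl1))
    exact_mod_cast h1
  have hF0 : bm a P R M 0 = 0 := by
    by_contra h0
    have := (bm_supp hG p3 h0).1
    omega
  have hFX : ∀ n, X < n → bm a P R M n = 0 := by
    intro n hn
    by_contra h0
    have := (bm_supp hG p3 h0).2.1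
    omega
  have hmN := hm (fun q => J2 q X ⌊l ^ c5⌋₊ T B) T (bm_le hG p3) ?_ hT ?_
  · have hcov := fin_cover (fun N => (X : ℝ) / l ^ A <
        ‖∑ n ∈ Icc 1 X, bm a P R M n * ((lp (N - n) : ℝ) : ℂ) - ((sg ⌊l ^ c2'⌋₊ N : ℝ) : ℂ) * ∑ n ∈ Icc 1 X, bm a P R M n‖) (X := X)
        (ε := 1 / l ^ (A + 1)) (S := Real.sqrt X) hhn hhHn (by positivity) (by linarith) ?_
    · refine hcov.trans ?_
      have h4 : (H : ℝ) / l ^ A = l * (H / l ^ (A + 1)) := by
        rw [pow_succ l A]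
        field_simp
      rw [h4]
      have h5 : 0 ≤ (H : ℝ) / l ^ (A + 1) := by positivity
      have h6 : 2 * (H : ℝ) * (1 / l ^ (A + 1)) = 2 * (H / l ^ (A + 1)) := by ring
      rw [h6]
      refine mul_le_mul_of_nonneg_right (by linarith) h5
    · intro Y hY hYS
      have hasy := fin_asyY (A := A + 1) (s := fun N => sg ⌊l ^ c2'⌋₊ N) (F := bm a P R M)
        (M := MG (bm a P R M) X ⌊l ^ c2'⌋₊ (fun q => J2 q X ⌊l ^ c5⌋₊ T B)) hXn (by rw [← hld]; exact hl) hY hYS hhn hHH' hH'2 hF0 ?_ hFX ?_ ?_ ?_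
      · rw [← hld] at hasy
        refine le_trans ?_ (hasy.trans (le_of_eq (by ring)))
        have hsub : ((Ioc Y (Y + h)).filter fun N => (X : ℝ) / l ^ A <
            ‖∑ n ∈ Icc 1 X, bm a P R M n * ((lp (N - n) : ℝ) : ℂ) - ((sg ⌊l ^ c2'⌋₊ N : ℝ) : ℂ) * ∑ n ∈ Icc 1 X, bm a P R M n‖) ⊆
            (Ioc Y (Y + h)).filter fun N => (X : ℝ) / l ^ (A + 1) <
            ‖∑ n ∈ Icc 1 X, bm a P R M n * ((lp (N - n) : ℝ) : ℂ) - ((sg ⌊l ^ c2'⌋₊ N : ℝ) : ℂ) * ∑ n ∈ Icc 1 X, bm a P R M n‖ := by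
          intro N hN
          rw [mem_filter] at hN ⊢
          refine ⟨hN.1, lt_of_le_of_lt ?_ hN.2⟩
          exact div_le_div_of_nonneg_left hX0.le (by positivity) (pow_le_pow_right₀ hl1 (by omega))
        exact_mod_cast card_le_card hsub
      · by_contra h0
        have := (fin_MG_supp h0).1
        omega
      · intro n hn
        by_contra h0
        have := (fin_MG_supp h0).2
        omega
      · rw [← hld]
        exact hV
      · rw [← hld]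
        exact hmN
  · intro q b hq hqL hco
    have h1 := hbqX q b hq hqL hco 0 (by simp)
    exact h1
  · intro q hq hqL
    obtain ⟨j1, -⟩ := hJX q ⌊l ^ c5⌋₊ T hq hTX
    refine ⟨?_, ?_, ?_⟩
    · unfold J2
      rw [mem_filter, mem_Icc]
      refine ⟨⟨by omega, by omega⟩, Or.inl ?_⟩
      rw [abs_zero]
      exact_mod_cast Nat.zero_le _
    · intro j hj
      unfold J2 at hj
      rw [mem_filter, mem_Icc] at hj
      exact abs_le.2 hj.1
    · have hsub : ((J2 q X ⌊l ^ c5⌋₊ T B).filter fun j : ℤ => l ^ c5 < |(j : ℝ)|) ⊆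
          (J2 q X ⌊l ^ c5⌋₊ T B).filter fun j => ((⌊l ^ c5⌋₊ : ℕ) : ℤ) < |j| := by
        intro j hj
        rw [mem_filter] at hj ⊢
        refine ⟨hj.1, ?_⟩
        have h1 : ((⌊l ^ c5⌋₊ : ℕ) : ℝ) ≤ l ^ c5 := Nat.floor_le (by positivity)
        have h2 : (((⌊l ^ c5⌋₊ : ℕ) : ℤ) : ℝ) < ((|j| : ℤ) : ℝ) := by
          push_cast
          linarith [hj.2]
        exact_mod_cast h2
      calc (((J2 q X ⌊l ^ c5⌋₊ T B).filter fun j : ℤ => l ^ c5 < |(j : ℝ)|).card : ℝ) ≤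
            (((J2 q X ⌊l ^ c5⌋₊ T B).filter fun j => ((⌊l ^ c5⌋₊ : ℕ) : ℤ) < |j|).card : ℝ) := by exact_mod_cast card_le_card hsub
        _ ≤ q * l ^ (4 * B + 12) := j1
        _ ≤ l ^ c2' * l ^ (4 * B + 12) := by gcongr
        _ = l ^ (c2' + (4 * B + 12)) := (pow_add _ _ _).symm

/-- the products with `N - n` prime are counted by `repsB` -/
theorem fm_reps {k B X N : ℕ} {F : ℕ → ℂ} (hX : 2 ≤ X) (hN : X < N) (hN2 : N ≤ 2 * X) (h1 : ∀ n, ‖F n‖ ≤ 1)
    (h2 : ∀ n, F n ≠ 0 → Squarefree n ∧ n.primeFactors.card = k ∧ ∀ p : ℕ, p.Prime → p ∣ n → (2 * Real.log X) ^ B < p) :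
    ‖∑ n ∈ Icc 1 X, F n * ((lp (N - n) : ℝ) : ℂ)‖ ≤ 2 * Real.log X * repsB k B N := by
  classical
  have hX0 : (0 : ℝ) < X := by exact_mod_cast (by omega : 0 < X)
  have hl : 0 ≤ Real.log X := Real.log_nonneg (by exact_mod_cast (by omega : 1 ≤ X))
  have hlogN : Real.log N ≤ 2 * Real.log X := by
    have e1 : Real.log N ≤ Real.log (2 * X) := by
      apply Real.log_le_log
      · exact_mod_cast (by omega : 0 < N)
      · exact_mod_cast hN2
    rw [Real.log_mul (by norm_num) hX0.ne'] at e1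
    have e2 : Real.log 2 ≤ Real.log X := Real.log_le_log (by norm_num) (by exact_mod_cast hX)
    linarith
  have hlogN0 : 0 ≤ Real.log N := Real.log_nonneg (by exact_mod_cast (by omega : 1 ≤ N))
  set S := (Icc 1 X).filter fun n => F n ≠ 0 ∧ (N - n).Prime with hS
  have h3 : ∀ n ∈ Icc 1 X, ‖F n * ((lp (N - n) : ℝ) : ℂ)‖ ≤
      if F n ≠ 0 ∧ (N - n).Prime then 2 * Real.log X else 0 := by
    intro n hn
    rw [mem_Icc] at hn
    by_cases hb : F n ≠ 0
    · by_cases hp : (N - n).Prime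
      · rw [if_pos ⟨hb, hp⟩, norm_mul, Complex.norm_real, Real.norm_of_nonneg (fi_lp_nonneg _)]
        calc ‖F n‖ * lp (N - n) ≤ 1 * lp (N - n) := mul_le_mul_of_nonneg_right (h1 n) (fi_lp_nonneg _)
          _ = lp (N - n) := one_mul _
          _ ≤ 2 * Real.log X := fi_lp_le hX (by omega)
      · have : lp (N - n) = 0 := by
          unfold lp
          rw [if_neg hp]
        rw [this]
        simp [hp]
    · rw [not_not] at hb
      rw [hb]
      simp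
  refine (norm_sum_le _ _).trans ((sum_le_sum h3).trans ?_)
  rw [← sum_filter, sum_const, nsmul_eq_mul, mul_comm]
  refine mul_le_mul_of_nonneg_left ?_ (by positivity)
  have h4 : S.card ≤ repsB k B N := by
    unfold repsB
    refine card_le_card_of_injOn (fun n => N - n) ?_ ?_
    · intro n hn
      obtain ⟨hn1, hb, hp⟩ := mem_filter.1 (mem_coe.1 hn)
      rw [mem_Icc] at hn1
      obtain ⟨hsq, hcard, hro⟩ := h2 n hb
      have h3 : N - (N - n) = n := by omega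
      have h4 : N - n < N := by omega
      refine mem_coe.2 (mem_filter.2 ⟨mem_range.2 h4, hp, ?_, ?_, ?_⟩)
      · rw [h3]; exact hsq
      · rw [h3]; exact hcard
      · rw [h3]
        intro p hpp hpn
        exact lt_of_le_of_lt (pow_le_pow_left₀ hlogN0 hlogN B) (hro p hpp hpn)
    · intro n hn m hm hnm
      have hn1 := (mem_filter.1 (mem_coe.1 hn)).1
      have hm1 := (mem_filter.1 (mem_coe.1 hm)).1
      rw [mem_Icc] at hn1 hm1
      simp only at hnm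
      omega
  exact_mod_cast h4

/-- the last step: from the asymptotic formula to the number of representations -/
theorem fin_low {k B A X H Q : ℕ} {F : ℕ → ℂ} {D l ll : ℝ} (hk : 1 ≤ k) (hX : 2 ≤ X) (hld : l = Real.log X) (hD : 0 < D) (hl : 100 ≤ l)
    (hll : 8 * D + 1 ≤ ll) (hlk : ll ^ k ≤ l) (hHX : H ≤ X) (h1 : ∀ n, ‖F n‖ ≤ 1)
    (h2 : ∀ n, F n ≠ 0 → Squarefree n ∧ n.primeFactors.card = k ∧ ∀ p : ℕ, p.Prime → p ∣ n → (2 * Real.log X) ^ B < p)
    (hmass : (X : ℝ) / (D * l * ll ^ (k - 1)) ≤ ‖∑ n ∈ Icc 1 X, F n‖)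
    (hU1 : (((Ioc X (X + H)).filter fun N => Even N ∧ sg Q N < 1 / 2).card : ℝ) ≤ H / l ^ (A + 1))
    (hU2 : (((Ioc X (X + H)).filter fun N => (X : ℝ) / l ^ (A + 2) <
      ‖∑ n ∈ Icc 1 X, F n * ((lp (N - n) : ℝ) : ℂ) - ((sg Q N : ℝ) : ℂ) * ∑ n ∈ Icc 1 X, F n‖).card : ℝ) ≤ H / l ^ (A + 2)) :
    (((Ioc X (X + H)).filter fun N => Even N ∧ (repsB k B N : ℝ) < X / (l ^ 2 * ll ^ k)).card : ℝ) ≤ H / l ^ A := by
  classical
  have hX0 : (0 : ℝ) < X := by exact_mod_cast (by omega : 0 < X)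
  have hl0 : 0 < l := by linarith
  have hl1 : 1 ≤ l := by linarith
  have hll0 : 0 < ll := by linarith
  set U1 := (Ioc X (X + H)).filter fun N => Even N ∧ sg Q N < 1 / 2 with hU1d
  set U2 := (Ioc X (X + H)).filter fun N => (X : ℝ) / l ^ (A + 2) <
    ‖∑ n ∈ Icc 1 X, F n * ((lp (N - n) : ℝ) : ℂ) - ((sg Q N : ℝ) : ℂ) * ∑ n ∈ Icc 1 X, F n‖ with hU2d
  have hsub : ((Ioc X (X + H)).filter fun N => Even N ∧ (repsB k B N : ℝ) < X / (l ^ 2 * ll ^ k)) ⊆ U1 ∪ U2 := by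
    intro N hN
    obtain ⟨hN1, hN2, hN3⟩ := mem_filter.1 hN
    rw [mem_union]
    by_cases hsg : sg Q N < 1 / 2
    · left
      exact mem_filter.2 ⟨hN1, hN2, hsg⟩
    · right
      refine mem_filter.2 ⟨hN1, ?_⟩
      rw [mem_Ioc] at hN1
      rw [not_lt] at hsg
      by_contra hcon
      rw [not_lt] at hcon
      have hr := fm_reps (B := B) hX hN1.1 (by omega) h1 h2
      rw [← hld] at hr
      set u := ∑ n ∈ Icc 1 X, F n * ((lp (N - n) : ℝ) : ℂ) with hu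
      set v := ∑ n ∈ Icc 1 X, F n with hv
      have h3 : 1 / 2 * ‖v‖ ≤ ‖((sg Q N : ℝ) : ℂ) * v‖ := by
        rw [norm_mul, Complex.norm_real]
        exact mul_le_mul_of_nonneg_right (hsg.trans (le_abs_self _)) (norm_nonneg _)
      have h4 : ‖((sg Q N : ℝ) : ℂ) * v‖ ≤ ‖u - ((sg Q N : ℝ) : ℂ) * v‖ + ‖u‖ := by
        have : ((sg Q N : ℝ) : ℂ) * v = -(u - ((sg Q N : ℝ) : ℂ) * v) + u := by ring
        rw [this]
        refine (norm_add_le _ _).trans ?_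
        rw [norm_neg]
        have e : u - (-(u - ((sg Q N : ℝ) : ℂ) * v) + u) = u - ((sg Q N : ℝ) : ℂ) * v := by ring
        rw [e]
      have h5 : (X : ℝ) / l ^ (A + 2) ≤ X / l ^ 2 :=
        div_le_div_of_nonneg_left hX0.le (by positivity) (pow_le_pow_right₀ hl1 (by omega))
      have h6 : 1 / 2 * ((X : ℝ) / (D * l * ll ^ (k - 1))) ≤ X / l ^ 2 + 2 * l * (X / (l ^ 2 * ll ^ k)) := by
        have h7 : 2 * l * (repsB k B N : ℝ) ≤ 2 * l * (X / (l ^ 2 * ll ^ k)) := by gcongr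
        linarith [mul_le_mul_of_nonneg_left hmass (show (0 : ℝ) ≤ 1 / 2 by norm_num)]
      obtain ⟨w, hw⟩ : ∃ w, w = ll ^ (k - 1) := ⟨_, rfl⟩
      have hw0 : 0 < w := by rw [hw]; positivity
      have hwk : ll ^ k = ll * w := by
        rw [hw, ← pow_succ']
        congr 1
        omega
      rw [hwk] at h6 hlk
      rw [← hw] at h6
      have h7 : (X : ℝ) / l ^ 2 + 2 * l * (X / (l ^ 2 * (ll * w))) = X / l * (1 / l + 2 / (ll * w)) := by
        field_simp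
      have h8 : 1 / 2 * ((X : ℝ) / (D * l * w)) = X / l * (1 / (2 * D * w)) := by
        field_simp
      rw [h7, h8] at h6
      have h9 : 1 / (2 * D * w) ≤ 1 / l + 2 / (ll * w) := le_of_mul_le_mul_left h6 (by positivity)
      have h10 : 2 / (ll * w) < 1 / (4 * D * w) := by
        rw [div_lt_div_iff₀ (by positivity) (by positivity)]
        nlinarith
      have h11 : 1 / l < 1 / (4 * D * w) := by
        apply one_div_lt_one_div_of_lt (by positivity)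
        nlinarith
      have h12 : 1 / (4 * D * w) + 1 / (4 * D * w) = 1 / (2 * D * w) := by
        field_simp
        norm_num
      linarith
  calc (((Ioc X (X + H)).filter fun N => Even N ∧ (repsB k B N : ℝ) < X / (l ^ 2 * ll ^ k)).card : ℝ)
      ≤ ((U1 ∪ U2).card : ℝ) := by exact_mod_cast card_le_card hsub
    _ ≤ U1.card + U2.card := by exact_mod_cast card_union_le _ _
    _ ≤ H / l ^ (A + 1) + H / l ^ (A + 2) := add_le_add hU1 hU2
    _ ≤ H / l ^ A := by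
        have h1 : (H : ℝ) / l ^ (A + 1) = H / l ^ A * (1 / l) := by
          rw [pow_succ]
          field_simp
        have h2 : (H : ℝ) / l ^ (A + 2) = H / l ^ A * (1 / l ^ 2) := by
          rw [pow_add]
          field_simp
        rw [h1, h2, ← mul_add]
        have h3 : 1 / l ≤ 1 / 2 := by
          apply one_div_le_one_div_of_le <;> linarith
        have h4 : 1 / l ^ 2 ≤ 1 / 2 := by
          apply one_div_le_one_div_of_le (by norm_num)
          nlinarith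
        have h5 : 0 ≤ (H : ℝ) / l ^ A := by positivity
        nlinarith

/-- numerical facts on the two prime variables -/
theorem fm_sizes {P R : ℕ} {l ll x4 x5 : ℝ} {c1 : ℕ} (hc1 : 1 ≤ c1) (hl : 100 ≤ l) (hlld : ll = Real.log l) (hlx : 2 * (max x4 x5) + 4 ≤ l)
    (p1 : l ^ c1 / 2 ≤ P) (p2 : (P : ℝ) ≤ l ^ c1) (p3 : 2 * P ≤ R)
    (hprc : ∀ P : ℕ, x4 ≤ P → (P : ℝ) / (2 * Real.log P) ≤ (pr P).card)
    (hlow : ∀ R : ℕ, x5 ≤ R → (R : ℝ) / 4 ≤ ∑ r ∈ pr R, lp r) (hRl : Real.log (2 * R : ℕ) ≤ l) :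
    (P : ℝ) / (2 * (c1 * ll)) ≤ (pr P).card ∧ (R : ℝ) / (4 * l) ≤ ∑ r ∈ pr R, lp r / Real.log (2 * R : ℕ) := by
  have hl0 : 0 < l := by linarith
  have hl1 : 1 ≤ l := by linarith
  have hlc : l ≤ l ^ c1 := le_self_pow₀ hl1 (by omega)
  have hPr : max x4 x5 ≤ P := by linarith
  have hP2r : (2 : ℝ) ≤ P := by linarith
  have hPR' : (P : ℝ) ≤ R := by
    have : P ≤ R := by omega
    exact_mod_cast this
  have hcP := hprc P ((le_max_left _ _).trans hPr)
  have hcR := hlow R (((le_max_right _ _).trans hPr).trans hPR')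
  have hlogP0 : 0 < Real.log P := Real.log_pos (by linarith)
  have hlogP : Real.log P ≤ c1 * ll := by
    rw [hlld, ← Real.log_pow]
    exact Real.log_le_log (by linarith) p2
  have hR2 : 2 ≤ R := by
    have : (2 : ℝ) ≤ R := by linarith
    exact_mod_cast this
  have hlogR0 : 0 < Real.log (2 * R : ℕ) := by
    apply Real.log_pos
    have : 1 < 2 * R := by omega
    exact_mod_cast this
  refine ⟨?_, ?_⟩
  · refine le_trans ?_ hcP
    gcongr
  · rw [← sum_div, div_le_div_iff₀ (by positivity) hlogR0]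
    have h2 : 0 ≤ ∑ r ∈ pr R, lp r := le_trans (by positivity) hcR
    calc (R : ℝ) * Real.log (2 * R : ℕ) ≤ R * l := by gcongr
      _ ≤ (4 * ∑ r ∈ pr R, lp r) * l := by gcongr; linarith
      _ = (∑ r ∈ pr R, lp r) * (4 * l) := by ring

theorem low4 (k B A : ℕ) (hk : 2 ≤ k) : ∃ (C : ℕ) (x0 : ℝ), ∀ X : ℕ, x0 ≤ X → ∀ H : ℕ, (Real.log X) ^ C ≤ H → 2 * (H : ℝ) ≤ Real.sqrt X →
    (((Ioc X (X + H)).filter fun N => Even N ∧ (repsB k B N : ℝ) < X / ((Real.log X) ^ 2 * (Real.log (Real.log X)) ^ k)).card : ℝ) ≤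
      H / (Real.log X) ^ A := by
  classical
  obtain ⟨c, hsing⟩ := sing (A + 1)
  obtain ⟨x4, hprc⟩ := pr_card
  obtain ⟨x5, hlow⟩ := b2_low
  rcases Nat.lt_or_ge 2 k with hk3 | hk2
  · -- at least three primes
    obtain ⟨c2', hc2, c10, hc10, hasy⟩ := asyM (A + 2) c
    obtain ⟨x1, hs⟩ := hsing c2' hc2
    obtain ⟨c1, hc1a, hc1b⟩ : ∃ c1, c10 ≤ c1 ∧ B + 2 ≤ c1 := ⟨max c10 (B + 2), le_max_left _ _, le_max_right _ _⟩
    obtain ⟨cM, C, x7, hC, ham⟩ := am_lower k c1 hk3 (by omega)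
    obtain ⟨c6, hc6, x2, ha⟩ := hasy c1 hc1a cM
    obtain ⟨x3, hx3, hpar⟩ := parm c1 cM (by omega)
    obtain ⟨x6, hx6, hgr⟩ := grow (max (max (Real.exp (8 * (136 * c1 * C) + 1)) (2 ^ (B + 1))) (max (2 * (max x4 x5) + 4) 100)) 1
    obtain ⟨y0, hy0, hgy⟩ : ∃ y0 : ℝ, 1 ≤ y0 ∧ ∀ l : ℝ, y0 ≤ l → (Real.log l) ^ k ≤ l := by
      have h2 := (Real.isLittleO_pow_log_id_atTop (n := k)).bound (show (0 : ℝ) < 1 by norm_num)
      obtain ⟨y1, hy1⟩ := Filter.eventually_atTop.1 h2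
      refine ⟨max y1 1, le_max_right _ _, fun l hl => ?_⟩
      have h3 := hy1 l ((le_max_left _ _).trans hl)
      have h4 : 1 ≤ l := (le_max_right _ _).trans hl
      simp only [id, Real.norm_eq_abs, one_mul] at h3
      rwa [abs_of_nonneg (pow_nonneg (Real.log_nonneg h4) k), abs_of_nonneg (by linarith)] at h3
    obtain ⟨x8, hx8, hgr8⟩ := grow y0 1
    refine ⟨c6, max (max (max x1 x2) (max x3 x6)) (max x7 x8), ?_⟩
    intro X hX H hH1 hH2
    simp only [max_le_iff] at hX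
    obtain ⟨⟨⟨hX1, hX2⟩, hX3, hX6⟩, hX7, hX8⟩ := hX
    have hX100 : (100 : ℝ) ≤ X := hx3.trans hX3
    have hXn : 100 ≤ X := by exact_mod_cast hX100
    have hX0 : (0 : ℝ) < X := by linarith
    obtain ⟨hl, -⟩ := hgr X hX6
    obtain ⟨hl8, -⟩ := hgr8 X hX8
    obtain ⟨M, hM1, hM2, hM3⟩ := ham X hX7
    obtain ⟨P, hPd⟩ : ∃ P, P = ⌊(Real.log X) ^ c1⌋₊ := ⟨_, rfl⟩
    obtain ⟨R, hRd⟩ : ∃ R, R = X / (16 * (P * M)) := ⟨_, rfl⟩
    have hP : ParM X P R M c1 cM := ⟨hPd, hM1, hM2, hRd⟩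
    obtain ⟨p1, p2, p3, p3', p4, p5, p6, p7⟩ := hpar X P R M hX3 hP
    obtain ⟨nn, hnn1, hnn2⟩ := hM3 R p3'
    rw [← hPd] at hnn1
    have hG : Good (aa k P R M) P R M := aa_good k P R M
    have haX := ha X hX2 P R M H (aa k P R M) hP hG hH1 hH2
    have hsX := hs X hX1 H
    simp only [max_le_iff] at hl
    obtain ⟨⟨hl1088, hlB⟩, ⟨hlx, hl100⟩⟩ := hl
    have hl0 : 0 < Real.log X := by linarith
    have hl1 : 1 ≤ Real.log X := by linarith
    have hll : 8 * (136 * c1 * C) + 1 ≤ Real.log (Real.log X) := by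
      rw [Real.le_log_iff_exp_le hl0]
      exact hl1088
    have hc1r : (1 : ℝ) ≤ c1 := by exact_mod_cast (by omega : 1 ≤ c1)
    have hD : 0 < 136 * (c1 : ℝ) * C := by positivity
    have hll0 : 0 < Real.log (Real.log X) := by linarith
    have hsqrt : Real.sqrt X ≤ X := by
      rw [Real.sqrt_le_left hX0.le]
      nlinarith
    have hHX : H ≤ X := by
      have h0 : (0 : ℝ) ≤ H := Nat.cast_nonneg H
      have : (H : ℝ) ≤ X := by linarith
      exact_mod_cast this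
    have hR1 : 1 ≤ R := by omega
    have hRl : Real.log (2 * R : ℕ) ≤ Real.log X := by
      apply Real.log_le_log
      · have : 0 < 2 * R := by omega
        exact_mod_cast this
      · have hPM : 1 ≤ P * M := by
          by_contra h
          have h0 : P * M = 0 := by omega
          rw [h0] at p7
          omega
        have h1 : 2 * R ≤ X := by
          calc 2 * R = 2 * (1 * R) := by ring
            _ ≤ 2 * (P * M * R) := Nat.mul_le_mul_left 2 (Nat.mul_le_mul_right R hPM)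
            _ ≤ X := by omega
        exact_mod_cast h1
    obtain ⟨s1, s2⟩ := fm_sizes (by omega : 1 ≤ c1) hl100 rfl hlx p1 p2 p3 hprc hlow hRl
    refine fin_low (F := bm (aa k P R M) P R M) (D := 136 * c1 * C) (Q := ⌊(Real.log X) ^ c2'⌋₊) (by omega) (by omega) rfl hD hl100 hll
      (hgy _ hl8) hHX (bm_le hG p3) ?_ ?_ (hsX (le_trans (pow_le_pow_right₀ hl1 hc6) hH1) hHX) haX
    · intro n hn
      obtain ⟨-, hsq, hcard⟩ := bm_k hk3 p3 hn
      refine ⟨hsq, hcard, fun p hp hpn => ?_⟩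
      have h1 := (bm_supp hG p3 hn).2.2 p hp hpn
      have h2 : (P : ℝ) < p := by exact_mod_cast h1
      refine lt_of_le_of_lt ?_ h2
      refine le_trans ?_ p1
      rw [le_div_iff₀ (by norm_num)]
      calc (2 * Real.log X) ^ B * 2 = 2 ^ (B + 1) * (Real.log X) ^ B := by rw [mul_pow]; ring
        _ ≤ Real.log X * (Real.log X) ^ B := by gcongr
        _ = (Real.log X) ^ (B + 1) := (pow_succ' _ _).symm
        _ ≤ (Real.log X) ^ c1 := pow_le_pow_right₀ hl1 (by omega)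
    · rw [bm_sum (by omega : 8 * (P * M * R) ≤ X), hnn1, norm_mul, norm_mul, Complex.norm_natCast, Complex.norm_natCast, Complex.norm_real]
      have h3 : (X : ℝ) ≤ 17 * (P * M * R) := by exact_mod_cast p7
      obtain ⟨l, hld⟩ : ∃ l, l = Real.log X := ⟨_, rfl⟩
      obtain ⟨ll, hlld⟩ : ∃ ll, ll = Real.log l := ⟨_, rfl⟩
      rw [← hld] at hl0 hll0 s1 s2 hnn2 ⊢
      rw [← hlld] at hll0 s1 hnn2 ⊢
      have h4 : ll ^ (k - 1) = ll * ll ^ (k - 2) := by
        rw [← pow_succ']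
        congr 1
        omega
      rw [h4]
      obtain ⟨w, hw⟩ : ∃ w, w = ll ^ (k - 2) := ⟨_, rfl⟩
      have hw0 : 0 < w := by rw [hw]; positivity
      rw [← hw] at hnn2 ⊢
      calc (X : ℝ) / (136 * c1 * C * l * (ll * w)) ≤ (17 * (P * M * R)) / (136 * c1 * C * l * (ll * w)) := by gcongr
        _ = (P : ℝ) / (2 * (c1 * ll)) * (M / (C * w)) * ((R : ℝ) / (4 * l)) := by
            field_simp
            ring
        _ ≤ (pr P).card * nn * ‖∑ r ∈ pr R, lp r / Real.log (2 * R : ℕ)‖ := by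
            gcongr
            exact s2.trans (le_abs_self _)
  · -- two primes
    obtain rfl : k = 2 := le_antisymm hk2 hk
    obtain ⟨c2', hc2, c10, hc10, hasy⟩ := asy2 (A + 2) c
    obtain ⟨x1, hs⟩ := hsing c2' hc2
    obtain ⟨c1, hc1a, hc1b⟩ : ∃ c1, c10 ≤ c1 ∧ B + 2 ≤ c1 := ⟨max c10 (B + 2), le_max_left _ _, le_max_right _ _⟩
    obtain ⟨c6, hc6, x2, ha⟩ := hasy c1 hc1a
    obtain ⟨x3, hx3, hpar⟩ := par2 c1 (by omega)
    obtain ⟨x6, hx6, hgr⟩ := grow (max (max (Real.exp (8 * (136 * c1 * 1) + 1)) (2 ^ (B + 1))) (max (2 * (max x4 x5) + 4) 100)) 1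
    obtain ⟨y0, hy0, hgy⟩ : ∃ y0 : ℝ, 1 ≤ y0 ∧ ∀ l : ℝ, y0 ≤ l → (Real.log l) ^ 2 ≤ l := by
      have h2 := (Real.isLittleO_pow_log_id_atTop (n := 2)).bound (show (0 : ℝ) < 1 by norm_num)
      obtain ⟨y1, hy1⟩ := Filter.eventually_atTop.1 h2
      refine ⟨max y1 1, le_max_right _ _, fun l hl => ?_⟩
      have h3 := hy1 l ((le_max_left _ _).trans hl)
      have h4 : 1 ≤ l := (le_max_right _ _).trans hl
      simp only [id, Real.norm_eq_abs, one_mul] at h3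
      rwa [abs_of_nonneg (pow_nonneg (Real.log_nonneg h4) 2), abs_of_nonneg (by linarith)] at h3
    obtain ⟨x8, hx8, hgr8⟩ := grow y0 1
    refine ⟨c6, max (max (max x1 x2) (max x3 x6)) x8, ?_⟩
    intro X hX H hH1 hH2
    simp only [max_le_iff] at hX
    obtain ⟨⟨⟨hX1, hX2⟩, hX3, hX6⟩, hX8⟩ := hX
    have hX100 : (100 : ℝ) ≤ X := hx3.trans hX3
    have hXn : 100 ≤ X := by exact_mod_cast hX100
    have hX0 : (0 : ℝ) < X := by linarith
    obtain ⟨hl, -⟩ := hgr X hX6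
    obtain ⟨hl8, -⟩ := hgr8 X hX8
    obtain ⟨P, hPd⟩ : ∃ P, P = ⌊(Real.log X) ^ c1⌋₊ := ⟨_, rfl⟩
    obtain ⟨R, hRd⟩ : ∃ R, R = X / (16 * P) := ⟨_, rfl⟩
    have hP : Par2 X P R c1 := ⟨hPd, hRd⟩
    obtain ⟨p1, p2, p3, p4, p5, p6, p7⟩ := hpar X P R hX3 hP
    have haX := ha X hX2 P R H hP hH1 hH2
    have hsX := hs X hX1 H
    simp only [max_le_iff] at hl
    obtain ⟨⟨hl1088, hlB⟩, ⟨hlx, hl100⟩⟩ := hl
    have hl0 : 0 < Real.log X := by linarith
    have hl1 : 1 ≤ Real.log X := by linarith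
    have hll : 8 * (136 * (c1 : ℝ) * 1) + 1 ≤ Real.log (Real.log X) := by
      rw [Real.le_log_iff_exp_le hl0]
      exact hl1088
    have hc1r : (1 : ℝ) ≤ c1 := by exact_mod_cast (by omega : 1 ≤ c1)
    have hD : 0 < 136 * (c1 : ℝ) * 1 := by positivity
    have hll0 : 0 < Real.log (Real.log X) := by linarith
    have hsqrt : Real.sqrt X ≤ X := by
      rw [Real.sqrt_le_left hX0.le]
      nlinarith
    have hHX : H ≤ X := by
      have h0 : (0 : ℝ) ≤ H := Nat.cast_nonneg H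
      have : (H : ℝ) ≤ X := by linarith
      exact_mod_cast this
    have hP1 : 1 ≤ P := by
      by_contra h
      have h0 : P = 0 := by omega
      rw [h0] at p7
      omega
    have hR1 : 1 ≤ R := by omega
    have hRl : Real.log (2 * R : ℕ) ≤ Real.log X := by
      apply Real.log_le_log
      · have : 0 < 2 * R := by omega
        exact_mod_cast this
      · have h1 : 2 * R ≤ X := by
          calc 2 * R = 2 * (1 * R) := by ring
            _ ≤ 2 * (P * R) := Nat.mul_le_mul_left 2 (Nat.mul_le_mul_right R hP1)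
            _ ≤ X := by omega
        exact_mod_cast h1
    obtain ⟨s1, s2⟩ := fm_sizes (by omega : 1 ≤ c1) hl100 rfl hlx p1 p2 p3 hprc hlow hRl
    refine fin_low (F := b2 P R) (D := 136 * c1 * 1) (Q := ⌊(Real.log X) ^ c2'⌋₊) (by omega) (by omega) rfl hD hl100 hll
      (hgy _ hl8) hHX (b2_le p3) ?_ ?_ (hsX (le_trans (pow_le_pow_right₀ hl1 hc6) hH1) hHX) haX
    · intro n hn
      obtain ⟨-, hsq, hcard⟩ := b2_two p3 hn
      refine ⟨hsq, hcard, fun p hp hpn => ?_⟩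
      have h1 := (b2_supp p3 hn).2.2 p hp hpn
      have h2 : (P : ℝ) < p := by exact_mod_cast h1
      refine lt_of_le_of_lt ?_ h2
      refine le_trans ?_ p1
      rw [le_div_iff₀ (by norm_num)]
      calc (2 * Real.log X) ^ B * 2 = 2 ^ (B + 1) * (Real.log X) ^ B := by rw [mul_pow]; ring
        _ ≤ Real.log X * (Real.log X) ^ B := by gcongr
        _ = (Real.log X) ^ (B + 1) := (pow_succ' _ _).symm
        _ ≤ (Real.log X) ^ c1 := pow_le_pow_right₀ hl1 (by omega)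
    · rw [b2_sum (by omega : 4 * (P * R) ≤ X), norm_mul, Complex.norm_natCast, Complex.norm_real]
      have h3 : (X : ℝ) ≤ 17 * (P * R) := by exact_mod_cast p7
      obtain ⟨l, hld⟩ : ∃ l, l = Real.log X := ⟨_, rfl⟩
      obtain ⟨ll, hlld⟩ : ∃ ll, ll = Real.log l := ⟨_, rfl⟩
      rw [← hld] at hl0 hll0 s1 s2 ⊢
      rw [← hlld] at hll0 s1 ⊢
      calc (X : ℝ) / (136 * c1 * 1 * l * ll ^ (2 - 1)) ≤ (17 * (P * R)) / (136 * c1 * 1 * l * ll ^ (2 - 1)) := by gcongr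
        _ = (P : ℝ) / (2 * (c1 * ll)) * ((R : ℝ) / (4 * l)) := by
            norm_num
            field_simp
            ring
        _ ≤ (pr P).card * ‖∑ r ∈ pr R, lp r / Real.log (2 * R : ℕ)‖ := by
            gcongr
            exact s2.trans (le_abs_self _)

end Pool.Agent.Lib.G3
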