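import Mathlib

/-!
# G3: the finite Fourier inequality

`∑_{Y < N ≤ Y+H} |∑_n F(n) G(N-n)|² ≤ 2 D ∑ |G|²`, where `D` bounds the mean square of the sums of `F(n) e(α n)` over windows of length `H`.
-/

set_option autoImplicit false

open Finset

namespace Pool.Agent.Lib.G3

/-- `e(k N / M)` -/
noncomputable def eM (M : ℕ) (k N : ℤ) : ℂ := Complex.exp (((2 * Real.pi * (k * N / M) : ℝ) : ℂ) * Complex.I)

theorem norm_eM (M : ℕ) (k N : ℤ) : ‖eM M k N‖ = 1 := Complex.norm_exp_ofReal_mul_I _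

theorem eM_add (M : ℕ) (k N N' : ℤ) : eM M k (N + N') = eM M k N * eM M k N' := by
  unfold eM
  rw [← Complex.exp_add]
  congr 1
  push_cast
  ring

theorem eM_add' (M : ℕ) (k k' N : ℤ) : eM M (k + k') N = eM M k N * eM M k' N := by
  unfold eM
  rw [← Complex.exp_add]
  congr 1
  push_cast
  ring

theorem eM_zero (M : ℕ) (k : ℤ) : eM M k 0 = 1 := by
  unfold eM
  simp

theorem eM_conj (M : ℕ) (k N : ℤ) : (starRingEnd ℂ) (eM M k N) = eM M (-k) N := by
  unfold eM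
  rw [← Complex.exp_conj]
  congr 1
  simp only [map_mul, Complex.conj_I, Complex.conj_ofReal]
  push_cast
  ring

theorem eM_comm (M : ℕ) (k N : ℤ) : eM M k N = eM M N k := by
  unfold eM
  congr 3
  ring

theorem eM_period (M : ℕ) (hM : 0 < M) (k : ℤ) : eM M k M = 1 := by
  unfold eM
  have hM' : (M : ℝ) ≠ 0 := by positivity
  have h : ((2 * Real.pi * ((k : ℝ) * ((M : ℤ) : ℝ) / M) : ℝ) : ℂ) * Complex.I = (k : ℂ) * (2 * Real.pi * Complex.I) := by
    have h1 : (k : ℝ) * ((M : ℤ) : ℝ) / M = k := by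
      push_cast
      field_simp
    rw [h1]
    push_cast
    ring
  rw [h]
  exact Complex.exp_int_mul_two_pi_mul_I k

theorem eM_eq_one_iff (M : ℕ) (hM : 0 < M) (k : ℤ) : eM M k 1 = 1 ↔ (M : ℤ) ∣ k := by
  unfold eM
  rw [Complex.exp_eq_one_iff]
  have hM' : (M : ℝ) ≠ 0 := by positivity
  constructor
  · rintro ⟨n, hn⟩
    have h1 : ((2 * Real.pi * ((k : ℝ) * ((1 : ℤ) : ℝ) / M) : ℝ) : ℂ) = ((n * (2 * Real.pi) : ℝ) : ℂ) := by
      have h2 := mul_right_cancel₀ Complex.I_ne_zero (a := ((2 * Real.pi * ((k : ℝ) * ((1 : ℤ) : ℝ) / M) : ℝ) : ℂ)) (c := ((n * (2 * Real.pi) : ℝ) : ℂ)) (by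
        rw [hn]
        push_cast
        ring)
      exact h2
    have h3 : 2 * Real.pi * ((k : ℝ) * ((1 : ℤ) : ℝ) / M) = n * (2 * Real.pi) := by exact_mod_cast h1
    have h4 : (k : ℝ) = n * M := by
      have h5 : (2 * Real.pi) ≠ 0 := by positivity
      have h6 : (k : ℝ) * ((1 : ℤ) : ℝ) / M = n := by
        apply mul_left_cancel₀ h5
        rw [h3]
        ring
      rw [Int.cast_one, mul_one] at h6
      field_simp at h6
      linarith
    refine ⟨n, ?_⟩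
    have h7 : ((k : ℤ) : ℝ) = ((n * M : ℤ) : ℝ) := by
      push_cast
      exact h4
    have h8 : k = n * M := by exact_mod_cast h7
    rw [h8]
    ring
  · rintro ⟨n, rfl⟩
    refine ⟨n, ?_⟩
    have h1 : (((M : ℤ) * n : ℤ) : ℝ) * ((1 : ℤ) : ℝ) / M = n := by
      push_cast
      field_simp
    rw [h1]
    push_cast
    ring

theorem eM_nat (M : ℕ) (k : ℤ) (n : ℕ) : eM M k n = eM M k 1 ^ n := by
  induction n with
  | zero => simp [eM_zero]
  | succ n ih =>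
    rw [pow_succ, ← ih, ← eM_add]
    push_cast
    rfl

theorem sum_eM (M : ℕ) (hM : 0 < M) (Y : ℤ) (k : ℤ) : ∑ i ∈ range M, eM M k (Y + i) = if (M : ℤ) ∣ k then (M : ℂ) else 0 := by
  have h1 : ∀ i ∈ range M, eM M k (Y + i) = eM M k Y * eM M k 1 ^ i := by
    intro i _
    rw [eM_add, eM_nat]
  rw [sum_congr rfl h1, ← mul_sum]
  split_ifs with h
  · have h2 : eM M k 1 = 1 := (eM_eq_one_iff M hM k).2 h
    obtain ⟨c, rfl⟩ := h
    have h3 : eM M ((M : ℤ) * c) Y = 1 := by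
      have h4 : eM M ((M : ℤ) * c) Y = eM M (c * Y) M := by
        unfold eM
        congr 3
        push_cast
        ring
      rw [h4, eM_period M hM]
    rw [h3, h2]
    simp
  · have h2 : eM M k 1 ≠ 1 := fun h3 => h ((eM_eq_one_iff M hM k).1 h3)
    have h3 : ∑ i ∈ range M, eM M k 1 ^ i = 0 := by
      rw [geom_sum_eq h2, ← eM_nat, eM_period M hM, sub_self, zero_div]
    rw [h3, mul_zero]

/-- Parseval on `ℤ/M` -/
theorem four_parsM {ι : Type*} (M : ℕ) (hM : 0 < M) (Y : ℤ) (I : Finset ι) (u : ι → ℤ)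
    (hI : ∀ a ∈ I, ∀ b ∈ I, (M : ℤ) ∣ u a - u b → a = b) (g : ι → ℂ) :
    ∑ i ∈ range M, ‖∑ a ∈ I, g a * eM M (u a) (Y + i)‖ ^ 2 = M * ∑ a ∈ I, ‖g a‖ ^ 2 := by
  classical
  have h1 : ∀ z : ℂ, ((‖z‖ ^ 2 : ℝ) : ℂ) = z * (starRingEnd ℂ) z := by
    intro z
    rw [Complex.mul_conj, Complex.normSq_eq_norm_sq]
  have h2 : ((∑ i ∈ range M, ‖∑ a ∈ I, g a * eM M (u a) (Y + i)‖ ^ 2 : ℝ) : ℂ) = ((M * ∑ a ∈ I, ‖g a‖ ^ 2 : ℝ) : ℂ) := by
    push_cast
    calc ∑ i ∈ range M, ((‖∑ a ∈ I, g a * eM M (u a) (Y + i)‖ : ℂ)) ^ 2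
        = ∑ i ∈ range M, ∑ a ∈ I, ∑ b ∈ I, g a * (starRingEnd ℂ) (g b) * eM M (u a - u b) (Y + i) := by
          refine sum_congr rfl fun i _ => ?_
          have h3 := h1 (∑ a ∈ I, g a * eM M (u a) (Y + i))
          push_cast at h3
          rw [h3, map_sum, sum_mul_sum]
          refine sum_congr rfl fun a _ => sum_congr rfl fun b _ => ?_
          rw [map_mul, eM_conj, sub_eq_add_neg, eM_add']
          ring
      _ = ∑ a ∈ I, ∑ b ∈ I, g a * (starRingEnd ℂ) (g b) * ∑ i ∈ range M, eM M (u a - u b) (Y + i) := by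
          rw [sum_comm]
          refine sum_congr rfl fun a _ => ?_
          rw [sum_comm]
          refine sum_congr rfl fun b _ => ?_
          rw [mul_sum]
      _ = ∑ a ∈ I, g a * (starRingEnd ℂ) (g a) * M := by
          refine sum_congr rfl fun a ha => ?_
          rw [sum_eq_single_of_mem a ha]
          · rw [sum_eM M hM, if_pos (by simp)]
          · intro b hb hba
            rw [sum_eM M hM, if_neg (fun h => hba (hI a ha b hb h).symm), mul_zero]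
      _ = M * ∑ a ∈ I, ((‖g a‖ : ℂ)) ^ 2 := by
          rw [mul_sum]
          refine sum_congr rfl fun a _ => ?_
          have h3 := h1 (g a)
          push_cast at h3
          rw [h3]
          ring
  exact_mod_cast h2

/-- the `m` that meet the window `(x, x+H]` -/
def Jx (H Y x : ℕ) : Finset ℕ := (range (Y + H)).filter fun m => Y + 1 ≤ m + x + H ∧ m + x + 1 ≤ Y + H

noncomputable def Ax (H : ℕ) (F : ℕ → ℂ) (x b : ℕ) : ℂ := ∑ n ∈ Ioc x (x + H), F n * eM (2 * H) b n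

noncomputable def Bx (H Y : ℕ) (G : ℕ → ℂ) (x b : ℕ) : ℂ := ∑ m ∈ Jx H Y x, G m * eM (2 * H) b m

theorem win_mul (H X N : ℕ) (F G : ℕ → ℂ) (hF : ∀ n, F n ≠ 0 → H ≤ n ∧ n ≤ X) :
    (H : ℂ) * ∑ n ∈ range (N + 1), F n * G (N - n) =
      ∑ x ∈ range (X + 1), ∑ n ∈ Ioc x (x + H), if n ≤ N then F n * G (N - n) else 0 := by
  have h1 : ∀ x ∈ range (X + 1), (∑ n ∈ Ioc x (x + H), if n ≤ N then F n * G (N - n) else 0) =
      ∑ n ∈ range (N + 1), if x < n ∧ n ≤ x + H then F n * G (N - n) else 0 := by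
    intro x _
    rw [← sum_filter, ← sum_filter]
    refine sum_congr ?_ fun _ _ => rfl
    ext n
    simp only [mem_filter, mem_Ioc, mem_range]
    omega
  rw [sum_congr rfl h1, sum_comm, mul_sum]
  refine sum_congr rfl fun n _ => ?_
  by_cases h : F n = 0
  · simp [h]
  · obtain ⟨h2, h3⟩ := hF n h
    rw [← sum_filter, sum_const, nsmul_eq_mul]
    have h4 : ((range (X + 1)).filter fun x => x < n ∧ n ≤ x + H) = Ico (n - H) n := by
      ext x
      simp only [mem_filter, mem_range, mem_Ico]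
      omega
    rw [h4, Nat.card_Ico]
    have h5 : n - (n - H) = H := by omega
    rw [h5]

theorem win_four (H Y N x : ℕ) (hH : 0 < H) (F G : ℕ → ℂ) (hN : N ∈ Ioc Y (Y + H)) :
    ((2 * H : ℕ) : ℂ) * (∑ n ∈ Ioc x (x + H), if n ≤ N then F n * G (N - n) else 0) =
      ∑ b ∈ range (2 * H), Ax H F x b * Bx H Y G x b * eM (2 * H) (-(b : ℤ)) N := by
  rw [mem_Ioc] at hN
  have h1 : ∀ b ∈ range (2 * H), Ax H F x b * Bx H Y G x b * eM (2 * H) (-(b : ℤ)) N =
      ∑ n ∈ Ioc x (x + H), ∑ m ∈ Jx H Y x, F n * G m * eM (2 * H) ((n : ℤ) + m - N) (0 + b) := by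
    intro b _
    unfold Ax Bx
    rw [sum_mul_sum, sum_mul]
    refine sum_congr rfl fun n _ => ?_
    rw [sum_mul]
    refine sum_congr rfl fun m _ => ?_
    have h2 : eM (2 * H) ((n : ℤ) + m - N) (0 + b) = eM (2 * H) b n * eM (2 * H) b m * eM (2 * H) (-(b : ℤ)) N := by
      rw [zero_add, sub_eq_add_neg, eM_add', eM_add', eM_comm _ (n : ℤ), eM_comm _ (m : ℤ)]
      congr 1
      unfold eM
      congr 3
      push_cast
      ring
    rw [h2]
    ring
  rw [sum_congr rfl h1, sum_comm, mul_sum]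
  refine sum_congr rfl fun n hn => ?_
  rw [mem_Ioc] at hn
  rw [sum_comm]
  have h2 : ∀ m ∈ Jx H Y x, ∑ b ∈ range (2 * H), F n * G m * eM (2 * H) ((n : ℤ) + m - N) (0 + b) =
      if m + n = N then ((2 * H : ℕ) : ℂ) * (F n * G m) else 0 := by
    intro m hm
    rw [← mul_sum, sum_eM (2 * H) (by omega)]
    unfold Jx at hm
    rw [mem_filter, mem_range] at hm
    have h3 : (((2 * H : ℕ) : ℤ) ∣ (n : ℤ) + m - N) ↔ m + n = N := by
      constructor
      · intro h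
        have h4 : (n : ℤ) + m - N = 0 := by
          apply Int.eq_zero_of_abs_lt_dvd h
          rw [abs_lt]
          push_cast
          omega
        omega
      · intro h
        have h4 : (n : ℤ) + m - N = 0 := by omega
        rw [h4]
        exact dvd_zero _
    by_cases h : m + n = N
    · rw [if_pos (h3.2 h), if_pos h]
      ring
    · rw [if_neg (fun h5 => h (h3.1 h5)), if_neg h, mul_zero]
  rw [sum_congr rfl h2]
  by_cases hnN : n ≤ N
  · rw [if_pos hnN]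
    rw [sum_eq_single (N - n)]
    · rw [if_pos (by omega)]
    · intro m _ hm
      rw [if_neg (by omega)]
    · intro h
      exfalso
      apply h
      unfold Jx
      rw [mem_filter, mem_range]
      omega
  · rw [if_neg hnN, mul_zero]
    symm
    refine sum_eq_zero fun m _ => ?_
    rw [if_neg (by omega)]

theorem sum_Bx (H Y X : ℕ) (hH : 0 < H) (G : ℕ → ℂ) :
    ∑ b ∈ range (2 * H), ∑ x ∈ range (X + 1), ‖Bx H Y G x b‖ ^ 2 ≤ (2 * H) * ((2 * H) * ∑ m ∈ range (Y + H), ‖G m‖ ^ 2) := by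
  rw [sum_comm]
  have h1 : ∀ x ∈ range (X + 1), ∑ b ∈ range (2 * H), ‖Bx H Y G x b‖ ^ 2 = (2 * H) * ∑ m ∈ Jx H Y x, ‖G m‖ ^ 2 := by
    intro x _
    have h2 := four_parsM (2 * H) (by omega) 0 (Jx H Y x) (fun m => (m : ℤ)) (by
      intro a ha b hb hab
      unfold Jx at ha hb
      rw [mem_filter, mem_range] at ha hb
      have h4 : (a : ℤ) - b = 0 := by
        apply Int.eq_zero_of_abs_lt_dvd hab
        rw [abs_lt]
        push_cast
        omega
      omega) G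
    push_cast at h2
    rw [← h2]
    refine sum_congr rfl fun b _ => ?_
    unfold Bx
    congr 2
    refine sum_congr rfl fun m _ => ?_
    rw [zero_add, eM_comm]
  rw [sum_congr rfl h1, ← mul_sum]
  refine mul_le_mul_of_nonneg_left ?_ (by positivity)
  have h2 : ∀ x ∈ range (X + 1), ∑ m ∈ Jx H Y x, ‖G m‖ ^ 2 =
      ∑ m ∈ range (Y + H), if Y + 1 ≤ m + x + H ∧ m + x + 1 ≤ Y + H then ‖G m‖ ^ 2 else 0 := by
    intro x _
    unfold Jx
    rw [sum_filter]
  rw [sum_congr rfl h2, sum_comm, mul_sum]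
  refine sum_le_sum fun m _ => ?_
  rw [← sum_filter, sum_const, nsmul_eq_mul]
  refine mul_le_mul_of_nonneg_right ?_ (by positivity)
  have h3 : ((range (X + 1)).filter fun x => Y + 1 ≤ m + x + H ∧ m + x + 1 ≤ Y + H) ⊆ Ico (Y + 1 - m - H) (Y + H - m) := by
    intro x
    simp only [mem_filter, mem_range, mem_Ico]
    omega
  have h4 := card_le_card h3
  rw [Nat.card_Ico] at h4
  have h5 : ((range (X + 1)).filter fun x => Y + 1 ≤ m + x + H ∧ m + x + 1 ≤ Y + H).card ≤ 2 * H := by omega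
  exact_mod_cast h5

/-- the finite Fourier inequality -/
theorem four (H X Y : ℕ) (hH : 0 < H) (F G : ℕ → ℂ) (hF : ∀ n, F n ≠ 0 → H ≤ n ∧ n ≤ X) (D : ℝ)
    (hD : ∀ al : ℝ, ∑ x ∈ range (X + 1),
      ‖∑ n ∈ Ioc x (x + H), F n * Complex.exp (((2 * Real.pi * (al * n) : ℝ) : ℂ) * Complex.I)‖ ^ 2 ≤ D * H) :
    ∑ N ∈ Ioc Y (Y + H), ‖∑ n ∈ range (N + 1), F n * G (N - n)‖ ^ 2 ≤ 2 * D * ∑ m ∈ range (Y + H), ‖G m‖ ^ 2 := by
  have hH' : (0 : ℝ) < H := by exact_mod_cast hH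
  have hHc : (H : ℂ) ≠ 0 := by exact_mod_cast hH.ne'
  -- Fourier expansion
  have e1 : ∀ N ∈ Ioc Y (Y + H), (H : ℝ) ^ 2 * (2 * H) ^ 2 * ‖∑ n ∈ range (N + 1), F n * G (N - n)‖ ^ 2 =
      ‖∑ b ∈ range (2 * H), (∑ x ∈ range (X + 1), Ax H F x b * Bx H Y G x b) * eM (2 * H) (-(b : ℤ)) N‖ ^ 2 := by
    intro N hN
    have h1 : ∑ b ∈ range (2 * H), (∑ x ∈ range (X + 1), Ax H F x b * Bx H Y G x b) * eM (2 * H) (-(b : ℤ)) N =
        ((2 * H : ℕ) : ℂ) * ((H : ℂ) * ∑ n ∈ range (N + 1), F n * G (N - n)) := by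
      rw [win_mul H X N F G hF, mul_sum]
      have h2 : ∀ x ∈ range (X + 1), ((2 * H : ℕ) : ℂ) * (∑ n ∈ Ioc x (x + H), if n ≤ N then F n * G (N - n) else 0) =
        ∑ b ∈ range (2 * H), Ax H F x b * Bx H Y G x b * eM (2 * H) (-(b : ℤ)) N := fun x _ => win_four H Y N x hH F G hN
      rw [sum_congr rfl h2, sum_comm]
      refine sum_congr rfl fun b _ => ?_
      rw [sum_mul]
    rw [h1, norm_mul, norm_mul, Complex.norm_natCast, Complex.norm_natCast]
    push_cast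
    ring
  -- Parseval
  have e2 : ∑ N ∈ Ioc Y (Y + H), ‖∑ b ∈ range (2 * H), (∑ x ∈ range (X + 1), Ax H F x b * Bx H Y G x b) * eM (2 * H) (-(b : ℤ)) N‖ ^ 2
      ≤ (2 * H) * ∑ b ∈ range (2 * H), ‖∑ x ∈ range (X + 1), Ax H F x b * Bx H Y G x b‖ ^ 2 := by
    have h1 := four_parsM (2 * H) (by omega) ((Y : ℤ) + 1) (range (2 * H)) (fun b => -(b : ℤ)) (by
      intro a ha b hb hab
      rw [mem_range] at ha hb
      have h4 : (-(a : ℤ)) - (-(b : ℤ)) = 0 := by
        apply Int.eq_zero_of_abs_lt_dvd hab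
        rw [abs_lt]
        push_cast
        omega
      omega) (fun b => ∑ x ∈ range (X + 1), Ax H F x b * Bx H Y G x b)
    push_cast at h1
    rw [← h1]
    have h2 : ∑ N ∈ Ioc Y (Y + H), ‖∑ b ∈ range (2 * H), (∑ x ∈ range (X + 1), Ax H F x b * Bx H Y G x b) * eM (2 * H) (-(b : ℤ)) N‖ ^ 2 =
        ∑ i ∈ range H, ‖∑ b ∈ range (2 * H), (∑ x ∈ range (X + 1), Ax H F x b * Bx H Y G x b) * eM (2 * H) (-(b : ℤ)) ((Y : ℤ) + 1 + i)‖ ^ 2 := by
      symm
      refine sum_nbij' (fun i => Y + 1 + i) (fun N => N - (Y + 1)) ?_ ?_ ?_ ?_ ?_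
      · intro i hi
        rw [mem_range] at hi
        rw [mem_Ioc]
        omega
      · intro N hN
        rw [mem_Ioc] at hN
        rw [mem_range]
        omega
      · intro i _
        show Y + 1 + i - (Y + 1) = i
        omega
      · intro N hN
        rw [mem_Ioc] at hN
        show Y + 1 + (N - (Y + 1)) = N
        omega
      · intro i _
        push_cast
        rfl
    rw [h2]
    refine sum_le_sum_of_subset_of_nonneg ?_ fun _ _ _ => by positivity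
    intro i hi
    rw [mem_range] at hi ⊢
    omega
  -- Cauchy-Schwarz
  have e3 : ∀ b ∈ range (2 * H), ‖∑ x ∈ range (X + 1), Ax H F x b * Bx H Y G x b‖ ^ 2 ≤
      (D * H) * ∑ x ∈ range (X + 1), ‖Bx H Y G x b‖ ^ 2 := by
    intro b _
    have h1 : ‖∑ x ∈ range (X + 1), Ax H F x b * Bx H Y G x b‖ ≤ ∑ x ∈ range (X + 1), ‖Ax H F x b‖ * ‖Bx H Y G x b‖ := by
      refine (norm_sum_le _ _).trans ?_
      refine sum_le_sum fun x _ => ?_
      rw [norm_mul]
    have h2 : (∑ x ∈ range (X + 1), ‖Ax H F x b‖ * ‖Bx H Y G x b‖) ^ 2 ≤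
        (∑ x ∈ range (X + 1), ‖Ax H F x b‖ ^ 2) * ∑ x ∈ range (X + 1), ‖Bx H Y G x b‖ ^ 2 :=
      sum_mul_sq_le_sq_mul_sq _ _ _
    have h3 : ∑ x ∈ range (X + 1), ‖Ax H F x b‖ ^ 2 ≤ D * H := by
      refine le_trans (le_of_eq ?_) (hD ((b : ℝ) / (2 * H : ℕ)))
      refine sum_congr rfl fun x _ => ?_
      unfold Ax eM
      congr 2
      refine sum_congr rfl fun n _ => ?_
      congr 3
      push_cast
      ring
    calc ‖∑ x ∈ range (X + 1), Ax H F x b * Bx H Y G x b‖ ^ 2 ≤ (∑ x ∈ range (X + 1), ‖Ax H F x b‖ * ‖Bx H Y G x b‖) ^ 2 :=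
          pow_le_pow_left₀ (norm_nonneg _) h1 2
      _ ≤ _ := h2
      _ ≤ _ := mul_le_mul_of_nonneg_right h3 (sum_nonneg fun _ _ => by positivity)
  have hD0 : 0 ≤ D * H := le_trans (sum_nonneg fun _ _ => by positivity) (hD 0)
  have e4 : (H : ℝ) ^ 2 * (2 * H) ^ 2 * ∑ N ∈ Ioc Y (Y + H), ‖∑ n ∈ range (N + 1), F n * G (N - n)‖ ^ 2 ≤
      (2 * H) * ((D * H) * ((2 * H) * ((2 * H) * ∑ m ∈ range (Y + H), ‖G m‖ ^ 2))) := by
    rw [mul_sum, sum_congr rfl e1]
    refine e2.trans ?_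
    refine mul_le_mul_of_nonneg_left ?_ (by positivity)
    refine (sum_le_sum e3).trans ?_
    rw [← mul_sum]
    exact mul_le_mul_of_nonneg_left (sum_Bx H Y X hH G) hD0
  have e5 : (2 * H : ℝ) * ((D * H) * ((2 * H) * ((2 * H) * ∑ m ∈ range (Y + H), ‖G m‖ ^ 2))) =
      (H : ℝ) ^ 2 * (2 * H) ^ 2 * (2 * D * ∑ m ∈ range (Y + H), ‖G m‖ ^ 2) := by ring
  rw [e5] at e4
  exact le_of_mul_le_mul_left e4 (by positivity)

end Pool.Agent.Lib.G3
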