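import Pool.Agent.Lib.G3.Four
import Pool.Agent.Lib.G3.Defs

/-!
# G3: the finite Fourier inequality for the windows `(y-H, y]` of `VV`
-/

set_option autoImplicit false

open Finset

namespace Pool.Agent.Lib.G3

open Pool.Agent.Lib.GT (e)

/-- the `m` that meet the window `(x, x+H]` -/
def Jy (H Y x : ℕ) : Finset ℕ := (range (Y + H)).filter fun m => Y + 1 ≤ m + x ∧ m + x + 1 ≤ Y + 2 * H

noncomputable def Ay (H : ℕ) (F : ℕ → ℂ) (x b : ℕ) : ℂ := ∑ n ∈ Ioc (x - H) x, F n * eM (2 * H) b n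

noncomputable def By (H Y : ℕ) (G : ℕ → ℂ) (x b : ℕ) : ℂ := ∑ m ∈ Jy H Y x, G m * eM (2 * H) b m

theorem win_mulV (H X Z N : ℕ) (hZ : X + H ≤ Z) (F G : ℕ → ℂ) (hF : ∀ n, F n ≠ 0 → 1 ≤ n ∧ n ≤ X) :
    (H : ℂ) * ∑ n ∈ range (N + 1), F n * G (N - n) =
      ∑ x ∈ range Z, ∑ n ∈ Ioc (x - H) x, if n ≤ N then F n * G (N - n) else 0 := by
  have h1 : ∀ x ∈ range Z, (∑ n ∈ Ioc (x - H) x, if n ≤ N then F n * G (N - n) else 0) =
      ∑ n ∈ range (N + 1), if x - H < n ∧ n ≤ x then F n * G (N - n) else 0 := by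
    intro x _
    rw [← sum_filter, ← sum_filter]
    refine sum_congr ?_ fun _ _ => rfl
    ext n
    simp only [mem_filter, mem_Ioc, mem_range]
    omega
  rw [sum_congr rfl h1, sum_comm, mul_sum]
  refine sum_congr rfl fun n _ => ?_
  by_cases h : F n = 0
  · simp [h]
  · obtain ⟨h2, h3⟩ := hF n h
    rw [← sum_filter, sum_const, nsmul_eq_mul]
    have h4 : ((range Z).filter fun x => x - H < n ∧ n ≤ x) = Ico n (n + H) := by
      ext x
      simp only [mem_filter, mem_range, mem_Ico]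
      omega
    rw [h4, Nat.card_Ico]
    have h5 : n + H - n = H := by omega
    rw [h5]

theorem win_fourV (H Y N x : ℕ) (hH : 0 < H) (F G : ℕ → ℂ) (hN : N ∈ Ioc Y (Y + H)) :
    ((2 * H : ℕ) : ℂ) * (∑ n ∈ Ioc (x - H) x, if n ≤ N then F n * G (N - n) else 0) =
      ∑ b ∈ range (2 * H), Ay H F x b * By H Y G x b * eM (2 * H) (-(b : ℤ)) N := by
  rw [mem_Ioc] at hN
  have h1 : ∀ b ∈ range (2 * H), Ay H F x b * By H Y G x b * eM (2 * H) (-(b : ℤ)) N =
      ∑ n ∈ Ioc (x - H) x, ∑ m ∈ Jy H Y x, F n * G m * eM (2 * H) ((n : ℤ) + m - N) (0 + b) := by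
    intro b _
    unfold Ay By
    rw [sum_mul_sum, sum_mul]
    refine sum_congr rfl fun n _ => ?_
    rw [sum_mul]
    refine sum_congr rfl fun m _ => ?_
    have h2 : eM (2 * H) ((n : ℤ) + m - N) (0 + b) = eM (2 * H) b n * eM (2 * H) b m * eM (2 * H) (-(b : ℤ)) N := by
      rw [zero_add, sub_eq_add_neg, eM_add', eM_add', eM_comm _ (n : ℤ), eM_comm _ (m : ℤ)]
      congr 1
      unfold eM
      congr 3
      push_cast
      ring
    rw [h2]
    ring
  rw [sum_congr rfl h1, sum_comm, mul_sum]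
  refine sum_congr rfl fun n hn => ?_
  rw [mem_Ioc] at hn
  rw [sum_comm]
  have h2 : ∀ m ∈ Jy H Y x, ∑ b ∈ range (2 * H), F n * G m * eM (2 * H) ((n : ℤ) + m - N) (0 + b) =
      if m + n = N then ((2 * H : ℕ) : ℂ) * (F n * G m) else 0 := by
    intro m hm
    rw [← mul_sum, sum_eM (2 * H) (by omega)]
    unfold Jy at hm
    rw [mem_filter, mem_range] at hm
    have h3 : (((2 * H : ℕ) : ℤ) ∣ (n : ℤ) + m - N) ↔ m + n = N := by
      constructor
      · intro h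
        have h4 : (n : ℤ) + m - N = 0 := by
          apply Int.eq_zero_of_abs_lt_dvd h
          rw [abs_lt]
          push_cast
          omega
        omega
      · intro h
        have h4 : (n : ℤ) + m - N = 0 := by omega
        rw [h4]
        exact dvd_zero _
    by_cases h : m + n = N
    · rw [if_pos (h3.2 h), if_pos h]
      ring
    · rw [if_neg (fun h5 => h (h3.1 h5)), if_neg h, mul_zero]
  rw [sum_congr rfl h2]
  by_cases hnN : n ≤ N
  · rw [if_pos hnN]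
    rw [sum_eq_single (N - n)]
    · rw [if_pos (by omega)]
    · intro m _ hm
      rw [if_neg (by omega)]
    · intro h
      exfalso
      apply h
      unfold Jy
      rw [mem_filter, mem_range]
      omega
  · rw [if_neg hnN, mul_zero]
    symm
    refine sum_eq_zero fun m _ => ?_
    rw [if_neg (by omega)]

theorem sum_By (H Y Z : ℕ) (hH : 0 < H) (G : ℕ → ℂ) :
    ∑ b ∈ range (2 * H), ∑ x ∈ range Z, ‖By H Y G x b‖ ^ 2 ≤ (2 * H) * ((2 * H) * ∑ m ∈ range (Y + H), ‖G m‖ ^ 2) := by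
  rw [sum_comm]
  have h1 : ∀ x ∈ range Z, ∑ b ∈ range (2 * H), ‖By H Y G x b‖ ^ 2 = (2 * H) * ∑ m ∈ Jy H Y x, ‖G m‖ ^ 2 := by
    intro x _
    have h2 := four_parsM (2 * H) (by omega) 0 (Jy H Y x) (fun m => (m : ℤ)) (by
      intro a ha b hb hab
      unfold Jy at ha hb
      rw [mem_filter, mem_range] at ha hb
      have h4 : (a : ℤ) - b = 0 := by
        apply Int.eq_zero_of_abs_lt_dvd hab
        rw [abs_lt]
        push_cast
        omega
      omega) G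
    push_cast at h2
    rw [← h2]
    refine sum_congr rfl fun b _ => ?_
    unfold By
    congr 2
    refine sum_congr rfl fun m _ => ?_
    rw [zero_add, eM_comm]
  rw [sum_congr rfl h1, ← mul_sum]
  refine mul_le_mul_of_nonneg_left ?_ (by positivity)
  have h2 : ∀ x ∈ range Z, ∑ m ∈ Jy H Y x, ‖G m‖ ^ 2 =
      ∑ m ∈ range (Y + H), if Y + 1 ≤ m + x ∧ m + x + 1 ≤ Y + 2 * H then ‖G m‖ ^ 2 else 0 := by
    intro x _
    unfold Jy
    rw [sum_filter]
  rw [sum_congr rfl h2, sum_comm, mul_sum]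
  refine sum_le_sum fun m _ => ?_
  rw [← sum_filter, sum_const, nsmul_eq_mul]
  refine mul_le_mul_of_nonneg_right ?_ (by positivity)
  have h3 : ((range Z).filter fun x => Y + 1 ≤ m + x ∧ m + x + 1 ≤ Y + 2 * H) ⊆ Ico (Y + 1 - m) (Y + 2 * H - m) := by
    intro x
    simp only [mem_filter, mem_range, mem_Ico]
    omega
  have h4 := card_le_card h3
  rw [Nat.card_Ico] at h4
  have h5 : ((range Z).filter fun x => Y + 1 ≤ m + x ∧ m + x + 1 ≤ Y + 2 * H).card ≤ 2 * H := by omega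
  exact_mod_cast h5

/-- the finite Fourier inequality -/
theorem fourV (H X Y Z : ℕ) (hH : 0 < H) (hZ : X + H ≤ Z) (F G : ℕ → ℂ) (hF : ∀ n, F n ≠ 0 → 1 ≤ n ∧ n ≤ X) (D : ℝ)
    (hD : ∀ al : ℝ, VV F H al Z ≤ D * H) :
    ∑ N ∈ Ioc Y (Y + H), ‖∑ n ∈ range (N + 1), F n * G (N - n)‖ ^ 2 ≤ 2 * D * ∑ m ∈ range (Y + H), ‖G m‖ ^ 2 := by
  have hH' : (0 : ℝ) < H := by exact_mod_cast hH
  have hHc : (H : ℂ) ≠ 0 := by exact_mod_cast hH.ne'
  -- Fourier expansion
  have e1 : ∀ N ∈ Ioc Y (Y + H), (H : ℝ) ^ 2 * (2 * H) ^ 2 * ‖∑ n ∈ range (N + 1), F n * G (N - n)‖ ^ 2 =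
      ‖∑ b ∈ range (2 * H), (∑ x ∈ range Z, Ay H F x b * By H Y G x b) * eM (2 * H) (-(b : ℤ)) N‖ ^ 2 := by
    intro N hN
    have h1 : ∑ b ∈ range (2 * H), (∑ x ∈ range Z, Ay H F x b * By H Y G x b) * eM (2 * H) (-(b : ℤ)) N =
        ((2 * H : ℕ) : ℂ) * ((H : ℂ) * ∑ n ∈ range (N + 1), F n * G (N - n)) := by
      rw [win_mulV H X Z N hZ F G hF, mul_sum]
      have h2 : ∀ x ∈ range Z, ((2 * H : ℕ) : ℂ) * (∑ n ∈ Ioc (x - H) x, if n ≤ N then F n * G (N - n) else 0) =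
        ∑ b ∈ range (2 * H), Ay H F x b * By H Y G x b * eM (2 * H) (-(b : ℤ)) N := fun x _ => win_fourV H Y N x hH F G hN
      rw [sum_congr rfl h2, sum_comm]
      refine sum_congr rfl fun b _ => ?_
      rw [sum_mul]
    rw [h1, norm_mul, norm_mul, Complex.norm_natCast, Complex.norm_natCast]
    push_cast
    ring
  -- Parseval
  have e2 : ∑ N ∈ Ioc Y (Y + H), ‖∑ b ∈ range (2 * H), (∑ x ∈ range Z, Ay H F x b * By H Y G x b) * eM (2 * H) (-(b : ℤ)) N‖ ^ 2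
      ≤ (2 * H) * ∑ b ∈ range (2 * H), ‖∑ x ∈ range Z, Ay H F x b * By H Y G x b‖ ^ 2 := by
    have h1 := four_parsM (2 * H) (by omega) ((Y : ℤ) + 1) (range (2 * H)) (fun b => -(b : ℤ)) (by
      intro a ha b hb hab
      rw [mem_range] at ha hb
      have h4 : (-(a : ℤ)) - (-(b : ℤ)) = 0 := by
        apply Int.eq_zero_of_abs_lt_dvd hab
        rw [abs_lt]
        push_cast
        omega
      omega) (fun b => ∑ x ∈ range Z, Ay H F x b * By H Y G x b)
    push_cast at h1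
    rw [← h1]
    have h2 : ∑ N ∈ Ioc Y (Y + H), ‖∑ b ∈ range (2 * H), (∑ x ∈ range Z, Ay H F x b * By H Y G x b) * eM (2 * H) (-(b : ℤ)) N‖ ^ 2 =
        ∑ i ∈ range H, ‖∑ b ∈ range (2 * H), (∑ x ∈ range Z, Ay H F x b * By H Y G x b) * eM (2 * H) (-(b : ℤ)) ((Y : ℤ) + 1 + i)‖ ^ 2 := by
      symm
      refine sum_nbij' (fun i => Y + 1 + i) (fun N => N - (Y + 1)) ?_ ?_ ?_ ?_ ?_
      · intro i hi
        rw [mem_range] at hi
        rw [mem_Ioc]
        omega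
      · intro N hN
        rw [mem_Ioc] at hN
        rw [mem_range]
        omega
      · intro i _
        show Y + 1 + i - (Y + 1) = i
        omega
      · intro N hN
        rw [mem_Ioc] at hN
        show Y + 1 + (N - (Y + 1)) = N
        omega
      · intro i _
        push_cast
        rfl
    rw [h2]
    refine sum_le_sum_of_subset_of_nonneg ?_ fun _ _ _ => by positivity
    intro i hi
    rw [mem_range] at hi ⊢
    omega
  -- Cauchy-Schwarz
  have e3 : ∀ b ∈ range (2 * H), ‖∑ x ∈ range Z, Ay H F x b * By H Y G x b‖ ^ 2 ≤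
      (D * H) * ∑ x ∈ range Z, ‖By H Y G x b‖ ^ 2 := by
    intro b _
    have h1 : ‖∑ x ∈ range Z, Ay H F x b * By H Y G x b‖ ≤ ∑ x ∈ range Z, ‖Ay H F x b‖ * ‖By H Y G x b‖ := by
      refine (norm_sum_le _ _).trans ?_
      refine sum_le_sum fun x _ => ?_
      rw [norm_mul]
    have h2 : (∑ x ∈ range Z, ‖Ay H F x b‖ * ‖By H Y G x b‖) ^ 2 ≤
        (∑ x ∈ range Z, ‖Ay H F x b‖ ^ 2) * ∑ x ∈ range Z, ‖By H Y G x b‖ ^ 2 :=
      sum_mul_sq_le_sq_mul_sq _ _ _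
    have h3 : ∑ x ∈ range Z, ‖Ay H F x b‖ ^ 2 ≤ D * H := by
      refine le_trans (le_of_eq ?_) (hD ((b : ℝ) / (2 * H : ℕ)))
      refine sum_congr rfl fun x _ => ?_
      unfold Ay WW eM e
      congr 2
      refine sum_congr rfl fun n _ => ?_
      congr 3
      push_cast
      ring
    calc ‖∑ x ∈ range Z, Ay H F x b * By H Y G x b‖ ^ 2 ≤ (∑ x ∈ range Z, ‖Ay H F x b‖ * ‖By H Y G x b‖) ^ 2 :=
          pow_le_pow_left₀ (norm_nonneg _) h1 2
      _ ≤ _ := h2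
      _ ≤ _ := mul_le_mul_of_nonneg_right h3 (sum_nonneg fun _ _ => by positivity)
  have hD0 : 0 ≤ D * H := le_trans (sum_nonneg fun _ _ => by positivity) (hD 0)
  have e4 : (H : ℝ) ^ 2 * (2 * H) ^ 2 * ∑ N ∈ Ioc Y (Y + H), ‖∑ n ∈ range (N + 1), F n * G (N - n)‖ ^ 2 ≤
      (2 * H) * ((D * H) * ((2 * H) * ((2 * H) * ∑ m ∈ range (Y + H), ‖G m‖ ^ 2))) := by
    rw [mul_sum, sum_congr rfl e1]
    refine e2.trans ?_
    refine mul_le_mul_of_nonneg_left ?_ (by positivity)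
    refine (sum_le_sum e3).trans ?_
    rw [← mul_sum]
    exact mul_le_mul_of_nonneg_left (sum_By H Y Z hH G) hD0
  have e5 : (2 * H : ℝ) * ((D * H) * ((2 * H) * ((2 * H) * ∑ m ∈ range (Y + H), ‖G m‖ ^ 2))) =
      (H : ℝ) ^ 2 * (2 * H) ^ 2 * (2 * D * ∑ m ∈ range (Y + H), ‖G m‖ ^ 2) := by ring
  rw [e5] at e4
  exact le_of_mul_le_mul_left e4 (by positivity)

end Pool.Agent.Lib.G3
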