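import Pool.Agent.Lib.G3.Fin
import Pool.Agent.Lib.G3.Wide

/-!
# G3: a prime plus a product of exactly `k` distinct primes in windows of length `(log X)^C`
-/

set_option autoImplicit false

open Finset

namespace Pool.Agent.Lib.G3

theorem g3 (k A : ℕ) (hk : 3 ≤ k) : ∃ (C : ℕ) (x0 : ℝ), ∀ X : ℕ, x0 ≤ X → ∀ H : ℕ, (Real.log X) ^ C ≤ H → H ≤ X →
      (((Ioc X (X + H)).filter fun N => Even N ∧ (reps k N : ℝ) < X / (Real.log X) ^ 7).card : ℝ) ≤ H / (Real.log X) ^ A :=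
  g3_of_core k A (g3_core k (A + 1) hk)

end Pool.Agent.Lib.G3
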