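import Pool.Agent.Lib.G3.Fin2
import Pool.Agent.Lib.G3.G3

/-!
# G22: a prime plus a product of exactly `k ≥ 2` distinct primes in windows of length `(log X)^C`
-/

set_option autoImplicit false

open Finset

namespace Pool.Agent.Lib.G3

/-- `k = 2`, all windows up to the length `X` -/
theorem g2_wide (A : ℕ) : ∃ (C : ℕ) (x0 : ℝ), ∀ X : ℕ, x0 ≤ X → ∀ H : ℕ, (Real.log X) ^ C ≤ H → H ≤ X →
    (((Ioc X (X + H)).filter fun N => Even N ∧ (reps 2 N : ℝ) < X / ((Real.log X) ^ 2 * (Real.log (Real.log X)) ^ 3)).card : ℝ) ≤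
      H / (Real.log X) ^ A := by
  classical
  obtain ⟨C, x1, hlow⟩ := g2_low (A + 1)
  obtain ⟨x2, hx2, hgr⟩ := grow (max (Real.exp 16) (max (2 ^ C) 100)) (2 * C + 10)
  refine ⟨C + 2, max x1 x2, ?_⟩
  intro X hX H hH1 hHX
  simp only [max_le_iff] at hX
  obtain ⟨hX1, hX2⟩ := hX
  have hX100 : (100 : ℝ) ≤ X := hx2.trans hX2
  have hX0 : (0 : ℝ) < X := by linarith
  obtain ⟨hl, hlX⟩ := hgr X hX2
  simp only [max_le_iff] at hl
  obtain ⟨hl16, hlC, hl100⟩ := hl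
  clear hgr
  obtain ⟨l, hld⟩ : ∃ l, l = Real.log X := ⟨_, rfl⟩
  rw [← hld] at hl16 hlC hl100 hlX hH1 ⊢
  have hl0 : 0 < l := by linarith
  have hl1 : 1 ≤ l := by linarith
  obtain ⟨ll, hlld⟩ : ∃ ll, ll = Real.log l := ⟨_, rfl⟩
  rw [← hlld]
  have hll : 16 ≤ ll := by
    rw [hlld, Real.le_log_iff_exp_le hl0]
    exact hl16
  have hll0 : 0 < ll := by linarith
  set h : ℕ := ⌈l ^ (C + 1)⌉₊ with hh
  have hh1 : l ^ (C + 1) ≤ h := Nat.le_ceil _
  have hlc : 1 ≤ l ^ (C + 1) := one_le_pow₀ hl1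
  have hh2 : (h : ℝ) ≤ l * l ^ (C + 1) := by
    have := Nat.ceil_lt_add_one (show 0 ≤ l ^ (C + 1) by positivity)
    nlinarith
  have hh3 : (h : ℝ) ≤ l ^ (C + 2) := by rw [pow_succ' l (C + 1)]; exact hh2
  have hhH : h ≤ H := by exact_mod_cast hh3.trans hH1
  have hhn : 1 ≤ h := by
    have : (1 : ℝ) ≤ h := hlc.trans hh1
    exact_mod_cast this
  have hHXr : (H : ℝ) ≤ X := by exact_mod_cast hHX
  have hhX : (h : ℝ) ≤ X := by
    have : (h : ℝ) ≤ H := by exact_mod_cast hhH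
    linarith
  have hcov := fin_cover (fun N => Even N ∧ (reps 2 N : ℝ) < X / (l ^ 2 * ll ^ 3)) (X := X) (ε := 1 / l ^ (A + 1))
    (S := 2 * X) hhn hhH (by positivity) (by linarith) ?_
  · refine hcov.trans ?_
    have h4 : (H : ℝ) / l ^ A = l * (H / l ^ (A + 1)) := by
      rw [pow_succ l A]
      field_simp
    rw [h4]
    have h5 : 0 ≤ (H : ℝ) / l ^ (A + 1) := by positivity
    have h6 : 2 * (H : ℝ) * (1 / l ^ (A + 1)) = 2 * (H / l ^ (A + 1)) := by ring
    rw [h6]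
    refine mul_le_mul_of_nonneg_right (by linarith) h5
  · intro Y hXY hY
    have hXYr : (X : ℝ) ≤ Y := by exact_mod_cast hXY
    have hh0 : (0 : ℝ) ≤ h := Nat.cast_nonneg h
    have hY3 : (Y : ℝ) ≤ 3 * X := by linarith
    have hY0 : (0 : ℝ) < Y := by linarith
    have hY1 : l ≤ Real.log Y := by rw [hld]; exact Real.log_le_log hX0 hXYr
    have hY2 : Real.log Y ≤ 2 * l := by
      have h1 := Real.log_le_log hY0 hY3
      rw [Real.log_mul (by norm_num) hX0.ne', ← hld] at h1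
      have h2 : Real.log 3 ≤ 2 := by
        have := Real.log_le_sub_one_of_pos (show (0 : ℝ) < 3 by norm_num)
        linarith
      linarith
    set m : ℝ := Real.log Y with hm
    have hm0 : 0 < m := by linarith
    have hmm : Real.log m ≤ 2 * ll := by
      have h1 := Real.log_le_log hm0 hY2
      rw [Real.log_mul (by norm_num) hl0.ne', ← hlld] at h1
      have h2 : Real.log 2 ≤ 1 := by linarith [Real.log_two_lt_d9]
      linarith
    have hmm1 : ll ≤ Real.log m := by rw [hlld]; exact Real.log_le_log hl0 hY1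
    have hmm0 : 0 < Real.log m := by linarith
    have hw := hlow Y (hX1.trans hXYr) h ?_ ?_
    · rw [← hm] at hw
      have hsub : ((Ioc Y (Y + h)).filter fun N => Even N ∧ (reps 2 N : ℝ) < X / (l ^ 2 * ll ^ 3)) ⊆
          (Ioc Y (Y + h)).filter fun N => Even N ∧ (reps 2 N : ℝ) < Y / (m ^ 2 * (Real.log m) ^ 2) := by
        intro N hN
        rw [mem_filter] at hN ⊢
        refine ⟨hN.1, hN.2.1, lt_of_lt_of_le hN.2.2 ?_⟩
        calc (X : ℝ) / (l ^ 2 * ll ^ 3) ≤ X / ((2 * l) ^ 2 * (2 * ll) ^ 2) := by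
              refine div_le_div_of_nonneg_left hX0.le (by positivity) ?_
              calc (2 * l) ^ 2 * (2 * ll) ^ 2 = l ^ 2 * (16 * ll ^ 2) := by ring
                _ ≤ l ^ 2 * (ll * ll ^ 2) := by gcongr
                _ = l ^ 2 * ll ^ 3 := by ring
          _ ≤ Y / (m ^ 2 * (Real.log m) ^ 2) := by gcongr
      calc (((Ioc Y (Y + h)).filter fun N => Even N ∧ (reps 2 N : ℝ) < X / (l ^ 2 * ll ^ 3)).card : ℝ) ≤
            (((Ioc Y (Y + h)).filter fun N => Even N ∧ (reps 2 N : ℝ) < Y / (m ^ 2 * (Real.log m) ^ 2)).card : ℝ) := by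
              exact_mod_cast card_le_card hsub
        _ ≤ h / m ^ (A + 1) := hw
        _ ≤ h / l ^ (A + 1) := by gcongr
        _ = h * (1 / l ^ (A + 1)) := by ring
    · rw [← hm]
      calc m ^ C ≤ (2 * l) ^ C := by gcongr
        _ = 2 ^ C * l ^ C := mul_pow _ _ _
        _ ≤ l * l ^ C := by gcongr
        _ = l ^ (C + 1) := (pow_succ' l C).symm
        _ ≤ h := hh1
    · rw [Real.le_sqrt (by positivity) hY0.le]
      calc (2 * (h : ℝ)) ^ 2 = 4 * (h : ℝ) ^ 2 := by ring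
        _ ≤ l * (l ^ (C + 2)) ^ 2 := by gcongr; linarith
        _ = l ^ (2 * C + 5) := by rw [← pow_mul, ← pow_succ']; congr 1; ring
        _ ≤ l ^ (2 * C + 10) := pow_le_pow_right₀ hl1 (by omega)
        _ ≤ X := hlX
        _ ≤ Y := hXYr

/-- a prime plus exactly `k ≥ 2` primes -/
theorem g22 (k A : ℕ) (hk : 2 ≤ k) : ∃ (C : ℕ) (x0 : ℝ), ∀ X : ℕ, x0 ≤ X → ∀ H : ℕ, (Real.log X) ^ C ≤ H → H ≤ X →
    (((Ioc X (X + H)).filter fun N => Even N ∧ (reps k N : ℝ) < X / (Real.log X) ^ 7).card : ℝ) ≤ H / (Real.log X) ^ A := by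
  classical
  rcases Nat.lt_or_ge 2 k with h3 | h2
  · exact g3 k A h3
  obtain rfl : k = 2 := le_antisymm h2 hk
  obtain ⟨C, x1, hw⟩ := g2_wide A
  obtain ⟨x2, hx2, hgr⟩ := grow (Real.exp 1) 1
  refine ⟨C, max x1 x2, fun X hX H hH1 hHX => ?_⟩
  simp only [max_le_iff] at hX
  obtain ⟨hX1, hX2⟩ := hX
  obtain ⟨hl, -⟩ := hgr X hX2
  have hX0 : (0 : ℝ) < X := by linarith
  refine le_trans ?_ (hw X hX1 H hH1 hHX)
  have hl0 : 0 < Real.log X := lt_of_lt_of_le (Real.exp_pos _) hl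
  have hll1 : 1 ≤ Real.log (Real.log X) := by
    rw [Real.le_log_iff_exp_le hl0]
    exact hl
  have hll : Real.log (Real.log X) ≤ Real.log X := by
    have := Real.log_le_sub_one_of_pos hl0
    linarith
  have hl1 : 1 ≤ Real.log X := hll1.trans hll
  have hsub : ((Ioc X (X + H)).filter fun N => Even N ∧ (reps 2 N : ℝ) < X / (Real.log X) ^ 7) ⊆
      (Ioc X (X + H)).filter fun N => Even N ∧ (reps 2 N : ℝ) < X / ((Real.log X) ^ 2 * (Real.log (Real.log X)) ^ 3) := by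
    intro N hN
    rw [mem_filter] at hN ⊢
    refine ⟨hN.1, hN.2.1, lt_of_lt_of_le hN.2.2 ?_⟩
    refine div_le_div_of_nonneg_left hX0.le (by positivity) ?_
    calc (Real.log X) ^ 2 * (Real.log (Real.log X)) ^ 3 ≤ (Real.log X) ^ 2 * (Real.log X) ^ 3 := by gcongr
      _ = (Real.log X) ^ 5 := by ring
      _ ≤ (Real.log X) ^ 7 := pow_le_pow_right₀ hl1 (by norm_num)
  exact_mod_cast card_le_card hsub

end Pool.Agent.Lib.G3
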