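import Pool.Agent.Lib.G3.FinM

/-!
# G4: the final theorem: the exceptional even numbers are rare in every window of length `(log X)^C`
-/

set_option autoImplicit false

open Finset

namespace Pool.Agent.Lib.G3

/-- a prime plus a product of exactly `k ≥ 2` distinct primes larger than `(log N)^B` -/
theorem g4 (k B A : ℕ) (hk : 2 ≤ k) : ∃ (C : ℕ) (x0 : ℝ), ∀ X : ℕ, x0 ≤ X → ∀ H : ℕ, (Real.log X) ^ C ≤ H → H ≤ X →
    (((Ioc X (X + H)).filter fun N => Even N ∧
      (repsB k B N : ℝ) < N / ((Real.log N) ^ 2 * (Real.log (Real.log N)) ^ (k + 1))).card : ℝ) ≤ H / (Real.log X) ^ A := by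
  classical
  obtain ⟨C, x1, hlow⟩ := low4 k B (A + 1) hk
  obtain ⟨x2, hx2, hgr⟩ := grow (max (Real.exp 2) (max (2 ^ C) 100)) (2 * C + 10)
  refine ⟨C + 2, max x1 x2, ?_⟩
  intro X hX H hH1 hHX
  simp only [max_le_iff] at hX
  obtain ⟨hX1, hX2⟩ := hX
  have hX100 : (100 : ℝ) ≤ X := hx2.trans hX2
  have hX0 : (0 : ℝ) < X := by linarith
  obtain ⟨hl, hlX⟩ := hgr X hX2
  simp only [max_le_iff] at hl
  obtain ⟨hl16, hlC, hl100⟩ := hl
  clear hgr
  obtain ⟨l, hld⟩ : ∃ l, l = Real.log X := ⟨_, rfl⟩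
  rw [← hld] at hl16 hlC hl100 hlX hH1 ⊢
  have hl0 : 0 < l := by linarith
  have hl1 : 1 ≤ l := by linarith
  set h : ℕ := ⌈l ^ (C + 1)⌉₊ with hh
  have hh1 : l ^ (C + 1) ≤ h := Nat.le_ceil _
  have hlc : 1 ≤ l ^ (C + 1) := one_le_pow₀ hl1
  have hh2 : (h : ℝ) ≤ l * l ^ (C + 1) := by
    have := Nat.ceil_lt_add_one (show 0 ≤ l ^ (C + 1) by positivity)
    nlinarith
  have hh3 : (h : ℝ) ≤ l ^ (C + 2) := by rw [pow_succ' l (C + 1)]; exact hh2
  have hhH : h ≤ H := by exact_mod_cast hh3.trans hH1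
  have hhn : 1 ≤ h := by
    have : (1 : ℝ) ≤ h := hlc.trans hh1
    exact_mod_cast this
  have hHXr : (H : ℝ) ≤ X := by exact_mod_cast hHX
  have hhX : (h : ℝ) ≤ X := by
    have : (h : ℝ) ≤ H := by exact_mod_cast hhH
    linarith
  have hcov := fin_cover (fun N => Even N ∧ (repsB k B N : ℝ) < N / ((Real.log N) ^ 2 * (Real.log (Real.log N)) ^ (k + 1)))
    (X := X) (ε := 1 / l ^ (A + 1)) (S := 2 * X) hhn hhH (by positivity) (by linarith) ?_
  · refine hcov.trans ?_
    have h4 : (H : ℝ) / l ^ A = l * (H / l ^ (A + 1)) := by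
      rw [pow_succ l A]
      field_simp
    rw [h4]
    have h5 : 0 ≤ (H : ℝ) / l ^ (A + 1) := by positivity
    have h6 : 2 * (H : ℝ) * (1 / l ^ (A + 1)) = 2 * (H / l ^ (A + 1)) := by ring
    rw [h6]
    refine mul_le_mul_of_nonneg_right (by linarith) h5
  · intro Y hXY hY
    have hXYr : (X : ℝ) ≤ Y := by exact_mod_cast hXY
    have hh0 : (0 : ℝ) ≤ h := Nat.cast_nonneg h
    have hY3 : (Y : ℝ) ≤ 3 * X := by linarith
    have hY0 : (0 : ℝ) < Y := by linarith
    have hY1 : l ≤ Real.log Y := by rw [hld]; exact Real.log_le_log hX0 hXYr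
    have hY2 : Real.log Y ≤ 2 * l := by
      have h1 := Real.log_le_log hY0 hY3
      rw [Real.log_mul (by norm_num) hX0.ne', ← hld] at h1
      have h2 : Real.log 3 ≤ 2 := by
        have := Real.log_le_sub_one_of_pos (show (0 : ℝ) < 3 by norm_num)
        linarith
      linarith
    set m : ℝ := Real.log Y with hm
    have hm0 : 0 < m := by linarith
    have hmm1 : 2 ≤ Real.log m := by
      rw [Real.le_log_iff_exp_le hm0]
      exact hl16.trans hY1
    have hmm0 : 0 < Real.log m := by linarith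
    have h2h : 2 * (h : ℝ) ≤ Real.sqrt Y := by
      rw [Real.le_sqrt (by positivity) hY0.le]
      calc (2 * (h : ℝ)) ^ 2 = 4 * (h : ℝ) ^ 2 := by ring
        _ ≤ l * (l ^ (C + 2)) ^ 2 := by gcongr; linarith
        _ = l ^ (2 * C + 5) := by rw [← pow_mul, ← pow_succ']; congr 1; ring
        _ ≤ l ^ (2 * C + 10) := pow_le_pow_right₀ hl1 (by omega)
        _ ≤ X := hlX
        _ ≤ Y := hXYr
    have hw := hlow Y (hX1.trans hXYr) h ?_ h2h
    · rw [← hm] at hw
      have hsub : ((Ioc Y (Y + h)).filter fun N => Even N ∧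
            (repsB k B N : ℝ) < N / ((Real.log N) ^ 2 * (Real.log (Real.log N)) ^ (k + 1))) ⊆
          (Ioc Y (Y + h)).filter fun N => Even N ∧ (repsB k B N : ℝ) < Y / (m ^ 2 * (Real.log m) ^ k) := by
        intro N hN
        rw [mem_filter] at hN ⊢
        refine ⟨hN.1, hN.2.1, lt_of_lt_of_le hN.2.2 ?_⟩
        rw [mem_Ioc] at hN
        have hN1 : (Y : ℝ) ≤ N := by exact_mod_cast hN.1.1.le
        have hN2 : (N : ℝ) ≤ 2 * Y := by
          have e1 : (N : ℝ) ≤ Y + h := by exact_mod_cast hN.1.2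
          linarith
        have hN0 : (0 : ℝ) < N := by linarith
        have e2 : m ≤ Real.log N := by rw [hm]; exact Real.log_le_log hY0 hN1
        have e3 : Real.log m ≤ Real.log (Real.log N) := Real.log_le_log hm0 e2
        calc (N : ℝ) / ((Real.log N) ^ 2 * (Real.log (Real.log N)) ^ (k + 1)) ≤ (2 * Y) / (m ^ 2 * (Real.log m) ^ (k + 1)) := by
              gcongr
          _ = Y / (m ^ 2 * (Real.log m) ^ k) * (2 / Real.log m) := by
              rw [pow_succ (Real.log m) k]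
              field_simp
          _ ≤ Y / (m ^ 2 * (Real.log m) ^ k) * 1 := by
              refine mul_le_mul_of_nonneg_left ?_ (by positivity)
              rw [div_le_one hmm0]
              exact hmm1
          _ = Y / (m ^ 2 * (Real.log m) ^ k) := mul_one _
      calc (((Ioc Y (Y + h)).filter fun N => Even N ∧
            (repsB k B N : ℝ) < N / ((Real.log N) ^ 2 * (Real.log (Real.log N)) ^ (k + 1))).card : ℝ) ≤
            (((Ioc Y (Y + h)).filter fun N => Even N ∧ (repsB k B N : ℝ) < Y / (m ^ 2 * (Real.log m) ^ k)).card : ℝ) := by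
              exact_mod_cast card_le_card hsub
        _ ≤ h / m ^ (A + 1) := hw
        _ ≤ h / l ^ (A + 1) := by gcongr
        _ = h * (1 / l ^ (A + 1)) := by ring
    · rw [← hm]
      calc m ^ C ≤ (2 * l) ^ C := by gcongr
        _ = 2 ^ C * l ^ C := mul_pow _ _ _
        _ ≤ l * l ^ C := by gcongr
        _ = l ^ (C + 1) := (pow_succ' l C).symm
        _ ≤ h := hh1

end Pool.Agent.Lib.G3
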