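import Pool.Agent.Lib.G3.G2Defs

/-!
# G4: a prime plus a product of exactly `k` primes, with nearly the expected number of representations: definitions

As for two primes (`b2`), with a middle variable `m` in `(M, 2M]`, `M` at most a power of `log X`.
-/

set_option autoImplicit false

open Finset

namespace Pool.Agent.Lib.G3

open Pool.Agent.Lib.MRT (cj kap)
open Pool.Agent.Lib.GT (e)

/-- the parameters -/
structure ParM (X P R M : ℕ) (c1 cM : ℕ) : Prop where
  hP : P = ⌊(Real.log X) ^ c1⌋₊
  hM1 : 1 ≤ M
  hM : (M : ℝ) ≤ (Real.log X) ^ cM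
  hR : R = X / (16 * (P * M))

/-- the convolution of the primes of `(P, 2P]`, of `a` on `(M, 2M]` and of the primes `r` of `(R, 2R]` with the weight `log r / log 2R` -/
noncomputable def bm (a : ℕ → ℂ) (P R M n : ℕ) : ℂ :=
  ∑ p ∈ pr P, ∑ r ∈ pr R, ∑ m ∈ Ioc M (2 * M), if p * m * r = n then a m * ((lp r / Real.log (2 * R : ℕ) : ℝ) : ℂ) else 0

open Classical in
/-- number of representations `N = p + m`, `m` squarefree with exactly `k` prime factors, all larger than `(log N)^B` -/
noncomputable def repsB (k B N : ℕ) : ℕ := ((range N).filter fun p => p.Prime ∧ Squarefree (N - p) ∧ (N - p).primeFactors.card = k ∧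
  ∀ l : ℕ, l.Prime → l ∣ N - p → (Real.log N) ^ B < l).card

end Pool.Agent.Lib.G3
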