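import Pool.Agent.Lib.G3.G2Defs
import Pool.Agent.Lib.G3.SSer

/-!
# G5: the asymptotic formula for `N = p + p₁ p₂`, `p₁` between two powers of `log N`: definitions

`L = log Y`; the primes `p₁` are cut into short blocks `(P, P']`, the primes `p₂` into dyadic blocks `(R, 2R]`.
`SS N` is the singular series of Goldbach's problem (SSer.lean).
-/

set_option autoImplicit false

open Finset

namespace Pool.Agent.Lib.G3

open Pool.Agent.Lib.MRT (cj kap)
open Pool.Agent.Lib.GT (e)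

/-- the primes of `(P, P']` -/
def pi5 (P P' : ℕ) : Finset ℕ := (Ioc P P').filter Nat.Prime

/-- the parameters of one block -/
structure Par5 (X P P' R : ℕ) (c1 cP : ℕ) : Prop where
  hP1 : (Real.log X) ^ c1 ≤ P
  hP2 : (P : ℝ) ≤ (Real.log X) ^ cP
  hPP : P ≤ P'
  hP' : P' ≤ 2 * P
  hX : X = 2 * (P' * R)

/-- the products `p r`, `p` a prime of `(P, P']`, `r` a prime of `(R, 2R]`, with the weight `log r / log 2R` -/
noncomputable def b5 (P P' R n : ℕ) : ℂ :=
  ∑ p ∈ pi5 P P', ∑ r ∈ pr R, if p * r = n then ((lp r / Real.log (2 * R : ℕ) : ℝ) : ℂ) else 0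

/-- `∑ χ(p) p^(-ij)` over the primes of `(P, P']` -/
noncomputable def R5 {q : ℕ} (χ : DirichletCharacter ℂ q) (P P' : ℕ) (j : ℤ) : ℂ := ∑ p ∈ pi5 P P', χ (p : ZMod q) * cj j p

/-- weighted number of representations of one block -/
noncomputable def W5 (P P' R N : ℕ) : ℝ := ∑ p ∈ pi5 P P', ∑ r ∈ pr R, lp r / Real.log (2 * R : ℕ) * lp (N - p * r)

/-- weighted number of products of one block -/
noncomputable def S5 (P P' R : ℕ) : ℝ := ∑ p ∈ pi5 P P', ∑ r ∈ pr R, lp r / Real.log (2 * R : ℕ)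

/-- number of pairs of primes `u < p ≤ v`, `r`, with `N - p r` prime -/
def T5 (u v N : ℕ) : ℕ := ((pi5 u v ×ˢ range N).filter fun x => x.2.Prime ∧ (N - x.1 * x.2).Prime).card

/-- the ends of the short blocks: `q ↦ min v (q + q/G + 1)`, starting at `u` -/
def qs (G v u : ℕ) : ℕ → ℕ
  | 0 => u
  | i + 1 => min v (qs G v u i + qs G v u i / G + 1)

open Classical in
/-- number of representations `N = p + p₁ p₂` with three primes and `(log N)^c₁ < p₁ ≤ (log N)^c₂` -/
noncomputable def rep5 (c₁ c₂ : ℝ) (N : ℕ) : ℕ := ((range (N + 1) ×ˢ range (N + 1)).filter fun x : ℕ × ℕ =>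
  x.1.Prime ∧ x.2.Prime ∧ (Real.log N) ^ c₁ < x.1 ∧ (x.1 : ℝ) ≤ (Real.log N) ^ c₂ ∧ (N - x.1 * x.2).Prime).card

end Pool.Agent.Lib.G3
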