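import Pool.Agent.Lib.G3.Defs
import Pool.Agent.Lib.G3.SdtD
import Pool.Agent.Lib.DN.ProgS

/-!
# G3, row KM: `∑ m^(-ij)` over an interval, Euler summation and the second derivative test
-/

set_option autoImplicit false

open Finset

namespace Pool.Agent.Lib.G3

open Pool.Agent.Lib.MRT (cj kap)
open Pool.Agent.Lib.GT (e)

private theorem kernM_cj (j : ℤ) (n : ℕ) : cj j n = Pool.Agent.Lib.DN.nt (-(j : ℝ)) n := by
  unfold cj Pool.Agent.Lib.DN.nt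
  congr 1
  push_cast
  ring

private theorem kernM_GG (t x : ℝ) (ht : t ≠ 0) (hx : 0 ≤ x) : ‖Pool.Agent.Lib.DN.GG t x‖ ≤ x / |t| := by
  unfold Pool.Agent.Lib.DN.GG
  have h1 : ‖Complex.exp (Complex.I * (t * Real.log x))‖ = 1 := by
    rw [mul_comm, ← Complex.ofReal_mul, Complex.norm_exp_ofReal_mul_I]
  have h2 : |t| ≤ ‖(1 + Complex.I * t : ℂ)‖ := by
    have := Complex.abs_im_le_norm (1 + Complex.I * t : ℂ)
    simpa using this
  rw [norm_div, norm_mul, h1, mul_one, Complex.norm_real, Real.norm_eq_abs, abs_of_nonneg hx]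
  exact div_le_div_of_nonneg_left hx (abs_pos.2 ht) h2

private theorem kernM_small {M N : ℕ} {j : ℤ} (hM : 2 ≤ M) (hMN : M ≤ N) (hN : N ≤ 2 * M) (hj : j ≠ 0) :
    ‖∑ m ∈ Ioc M N, cj j m‖ ≤ 3 * (M / |(j : ℝ)|) + 4 * (1 + |(j : ℝ)|) := by
  have hjr : (-(j : ℝ)) ≠ 0 := by
    rw [neg_ne_zero]
    exact_mod_cast hj
  have hja : 0 < |(j : ℝ)| := by
    rw [abs_pos]
    exact_mod_cast hj
  have h := Pool.Agent.Lib.DN.prog_small (-(j : ℝ)) M N 1 0 le_rfl (by norm_num) (by omega) hMN (by omega)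
  rw [filter_true_of_mem (fun n _ => Nat.mod_one n), Nat.cast_one, div_one, abs_neg] at h
  have h1 := kernM_GG (-(j : ℝ)) (N : ℝ) hjr (Nat.cast_nonneg _)
  have h2 := kernM_GG (-(j : ℝ)) (M : ℝ) hjr (Nat.cast_nonneg _)
  rw [abs_neg] at h1 h2
  rw [sum_congr rfl fun m _ => kernM_cj j m]
  have h3 : ∑ m ∈ Ioc M N, Pool.Agent.Lib.DN.nt (-(j : ℝ)) m =
      (∑ m ∈ Ioc M N, Pool.Agent.Lib.DN.nt (-(j : ℝ)) m -
        (Pool.Agent.Lib.DN.GG (-(j : ℝ)) N - Pool.Agent.Lib.DN.GG (-(j : ℝ)) M)) +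
        (Pool.Agent.Lib.DN.GG (-(j : ℝ)) N - Pool.Agent.Lib.DN.GG (-(j : ℝ)) M) := by ring
  have h4 : (N : ℝ) / |(j : ℝ)| ≤ 2 * (M / |(j : ℝ)|) := by
    rw [← mul_div_assoc]
    exact div_le_div_of_nonneg_right (by exact_mod_cast hN) hja.le
  rw [h3]
  refine (norm_add_le _ _).trans ?_
  have h5 := norm_sub_le (Pool.Agent.Lib.DN.GG (-(j : ℝ)) N) (Pool.Agent.Lib.DN.GG (-(j : ℝ)) M)
  linarith

private theorem kernM_large {M N : ℕ} {j : ℤ} (hM : 1 ≤ M) (hMN : M ≤ N) (hN : N ≤ 2 * M) (hj : j ≠ 0) :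
    ‖∑ m ∈ Ioc M N, cj j m‖ ≤ 200 * (M / Real.sqrt |(j : ℝ)| + Real.sqrt |(j : ℝ)|) := by
  have hMr : (1 : ℝ) ≤ M := by exact_mod_cast hM
  have hja : 0 < |(j : ℝ)| := by
    rw [abs_pos]
    exact_mod_cast hj
  set K : ℕ := N - M with hK
  have hKr : (K : ℝ) = N - M := by
    rw [hK, Nat.cast_sub hMN]
  have hNr : (N : ℝ) ≤ 2 * M := by exact_mod_cast hN
  have hsum : ∑ m ∈ Ioc M N, cj j m =
      ∑ n ∈ range K, Complex.exp (Complex.I * ((-(j : ℝ) * Real.log ((M + 1 : ℝ) + n) : ℝ) : ℂ)) := by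
    have h1 : Ioc M N = Ico (M + 1) (N + 1) := by
      ext x
      simp only [mem_Ioc, mem_Ico]
      omega
    rw [h1, sum_Ico_eq_sum_range, show N + 1 - (M + 1) = K by omega]
    refine sum_congr rfl fun n _ => ?_
    unfold cj
    rw [mul_comm]
    push_cast
    rfl
  rw [hsum]
  have hsq : Real.sqrt (|(j : ℝ)| / (3 * M) ^ 2) = Real.sqrt |(j : ℝ)| / (3 * M) := by
    rw [Real.sqrt_div hja.le, Real.sqrt_sq (by positivity)]
  have h := sdt_deriv_abs (fun y => -(j : ℝ) * Real.log y) (fun y => -(j : ℝ) * y⁻¹) (fun y => (j : ℝ) / y ^ 2)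
    (M + 1 : ℝ) K (|(j : ℝ)| / (3 * M) ^ 2) 9 (by positivity) (by norm_num) ?_ ?_ ?_
  · rw [hsq] at h
    refine h.trans ?_
    have hs : 0 < Real.sqrt |(j : ℝ)| := Real.sqrt_pos.2 hja
    have hK2 : (K : ℝ) ≤ M := by linarith
    have h1 : 9 * (K : ℝ) * (Real.sqrt |(j : ℝ)| / (3 * M)) ≤ 3 * Real.sqrt |(j : ℝ)| := by
      rw [← mul_div_assoc, div_le_iff₀ (by positivity)]
      nlinarith
    have h2 : 1 / (Real.sqrt |(j : ℝ)| / (3 * M)) = 3 * (M / Real.sqrt |(j : ℝ)|) := by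
      field_simp
    rw [h2]
    have h3 : 0 ≤ (M : ℝ) / Real.sqrt |(j : ℝ)| := by positivity
    linarith
  · intro y hy
    have hy0 : (0 : ℝ) < y := by linarith [hy.1]
    exact (Real.hasDerivAt_log hy0.ne').const_mul _
  · intro y hy
    have hy0 : (0 : ℝ) < y := by linarith [hy.1]
    have h1 := (hasDerivAt_inv hy0.ne').const_mul (-(j : ℝ))
    have h2 : (j : ℝ) / y ^ 2 = -(j : ℝ) * -(y ^ 2)⁻¹ := by
      rw [div_eq_mul_inv]
      ring
    rw [h2]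
    exact h1
  · have hb : ∀ y ∈ Set.Icc (M + 1 : ℝ) ((M + 1 : ℝ) + K), 0 < y ∧ (M : ℝ) ^ 2 ≤ y ^ 2 ∧ y ^ 2 ≤ (3 * M) ^ 2 := by
      intro y hy
      have hy0 : (M : ℝ) + 1 ≤ y := hy.1
      have hy1 : y ≤ 3 * M := by
        have := hy.2
        linarith
      refine ⟨by linarith, ?_, ?_⟩
      · exact pow_le_pow_left₀ (by linarith) (by linarith) 2
      · exact pow_le_pow_left₀ (by linarith) hy1 2
    have h9 : ∀ y ∈ Set.Icc (M + 1 : ℝ) ((M + 1 : ℝ) + K), |(j : ℝ)| / (3 * M) ^ 2 ≤ |(j : ℝ)| / y ^ 2 ∧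
        |(j : ℝ)| / y ^ 2 ≤ 9 * (|(j : ℝ)| / (3 * M) ^ 2) := by
      intro y hy
      obtain ⟨a1, a2, a3⟩ := hb y hy
      refine ⟨div_le_div_of_nonneg_left hja.le (by positivity) a3, ?_⟩
      have : 9 * (|(j : ℝ)| / (3 * M) ^ 2) = |(j : ℝ)| / (M : ℝ) ^ 2 := by
        field_simp
        ring
      rw [this]
      exact div_le_div_of_nonneg_left hja.le (by positivity) a2
    rcases le_total 0 (j : ℝ) with h0 | h0
    · left
      intro y hy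
      have := h9 y hy
      rwa [abs_of_nonneg h0] at this ⊢
    · right
      intro y hy
      have := h9 y hy
      rw [abs_of_nonpos h0] at this ⊢
      simp only [neg_div] at this ⊢
      exact this

/-- Row KM -/
theorem kernM : ∃ C : ℝ, 0 < C ∧ ∀ (M N : ℕ) (j : ℤ), 1 ≤ M → M ≤ N → N ≤ 2 * M → j ≠ 0 →
    ‖∑ m ∈ Ioc M N, cj j m‖ ≤ C * (M / |(j : ℝ)| + (M : ℝ) ^ (3 / 4 : ℝ) + Real.sqrt |(j : ℝ)|) := by
  refine ⟨200, by norm_num, ?_⟩
  intro M N j hM hMN hN hj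
  have hMr : (1 : ℝ) ≤ M := by exact_mod_cast hM
  have hja : 0 < |(j : ℝ)| := by
    rw [abs_pos]
    exact_mod_cast hj
  have hj1 : 1 ≤ |(j : ℝ)| := by
    have : (1 : ℤ) ≤ |j| := Int.one_le_abs hj
    exact_mod_cast this
  have hA : 0 ≤ (M : ℝ) / |(j : ℝ)| := by positivity
  have hB : 1 ≤ (M : ℝ) ^ (3 / 4 : ℝ) := Real.one_le_rpow hMr (by norm_num)
  have hD : 0 ≤ Real.sqrt |(j : ℝ)| := Real.sqrt_nonneg _
  rcases Nat.lt_or_ge M 2 with h2 | h2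
  · have hM1 : M = 1 := by omega
    have hc : ‖∑ m ∈ Ioc M N, cj j m‖ ≤ 1 := by
      refine (norm_sum_le _ _).trans ?_
      rw [sum_congr rfl fun m _ => Pool.Agent.Lib.MRT.norm_cj j m]
      rw [sum_const, Nat.card_Ioc, nsmul_eq_mul, mul_one]
      exact_mod_cast (by omega : N - M ≤ 1)
    linarith
  rcases le_or_gt |(j : ℝ)| (Real.sqrt M) with h3 | h3
  · have h4 := kernM_small h2 hMN hN hj
    have h5 : Real.sqrt M ≤ (M : ℝ) ^ (3 / 4 : ℝ) := by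
      rw [Real.sqrt_eq_rpow]
      exact Real.rpow_le_rpow_of_exponent_le hMr (by norm_num)
    linarith
  · have h4 := kernM_large hM hMN hN hj
    have h5 : (M : ℝ) / Real.sqrt |(j : ℝ)| ≤ (M : ℝ) ^ (3 / 4 : ℝ) := by
      have h6 : (M : ℝ) ^ (1 / 4 : ℝ) ≤ Real.sqrt |(j : ℝ)| := by
        have h7 : (M : ℝ) ^ (1 / 4 : ℝ) = Real.sqrt (Real.sqrt M) := by
          rw [Real.sqrt_eq_rpow, Real.sqrt_eq_rpow, ← Real.rpow_mul (by linarith)]
          norm_num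
        rw [h7]
        exact Real.sqrt_le_sqrt h3.le
      have h8 : 0 < (M : ℝ) ^ (1 / 4 : ℝ) := Real.rpow_pos_of_pos (by linarith) _
      rw [div_le_iff₀ (h8.trans_le h6)]
      calc (M : ℝ) = (M : ℝ) ^ (3 / 4 : ℝ) * (M : ℝ) ^ (1 / 4 : ℝ) := by
            rw [← Real.rpow_add (by linarith)]
            norm_num
        _ ≤ _ := mul_le_mul_of_nonneg_left h6 (by positivity)
    linarith

end Pool.Agent.Lib.G3
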