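import Pool.Agent.Lib.G3.Defs2
import Pool.Agent.Lib.G3.Dual
import Pool.Agent.Lib.G3.KernM

/-!
# G3, row LA: large values of Dirichlet polynomials with arbitrary coefficients at few points
-/

set_option autoImplicit false

open Finset

namespace Pool.Agent.Lib.G3

open Pool.Agent.Lib.MRT (cj kap)

private theorem largeA_harm (n : ℕ) : ∑ k ∈ Icc 1 n, (1 : ℝ) / k ≤ 1 + Real.log n := by
  have h := harmonic_le_one_add_log n
  rw [harmonic_eq_sum_Icc] at h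
  push_cast at h
  simpa [one_div] using h

/-- one side -/
private theorem largeA_side (V : Finset ℤ) (f : ℤ → ℕ) (n : ℕ) (hf : Set.InjOn f V) (h : ∀ j ∈ V, f j ∈ Icc 1 n) :
    ∑ j ∈ V, (1 : ℝ) / (f j : ℝ) ≤ 1 + Real.log n := by
  classical
  have h1 : ∑ j ∈ V, (1 : ℝ) / (f j : ℝ) = ∑ k ∈ V.image f, (1 : ℝ) / (k : ℝ) := by
    rw [sum_image hf]
  rw [h1]
  refine le_trans (sum_le_sum_of_subset_of_nonneg ?_ fun k _ _ => by positivity) (largeA_harm n)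
  intro k hk
  obtain ⟨j, hj, rfl⟩ := mem_image.1 hk
  exact h j hj

private theorem largeA_inv (U : Finset ℤ) (T : ℕ) (hU : ∀ j ∈ U, |(j : ℝ)| ≤ T) (j : ℤ) (hj : j ∈ U) :
    ∑ j' ∈ U.erase j, (1 : ℝ) / |((j - j' : ℤ) : ℝ)| ≤ 2 * (1 + Real.log ((2 * T : ℕ) : ℝ)) := by
  classical
  have hz : ∀ i ∈ U, |i| ≤ (T : ℤ) := fun i hi => by
    have := hU i hi
    exact_mod_cast this
  have hb : ∀ i ∈ U.erase j, (i - j).natAbs ∈ Icc 1 (2 * T) := by
    intro i hi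
    have h1 := hz i (mem_of_mem_erase hi)
    have h2 := hz j hj
    have h3 : i ≠ j := ne_of_mem_erase hi
    rw [abs_le] at h1 h2
    rw [mem_Icc]
    omega
  have e1 : ∀ i : ℤ, |((j - i : ℤ) : ℝ)| = (((i - j).natAbs : ℕ) : ℝ) := by
    intro i
    rw [Nat.cast_natAbs, Int.cast_abs, ← abs_neg]
    congr 1
    push_cast
    ring
  rw [← sum_filter_add_sum_filter_not (U.erase j) (fun i => i < j)]
  have s1 : ∑ i ∈ (U.erase j).filter (fun i => i < j), (1 : ℝ) / |((j - i : ℤ) : ℝ)| ≤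
      1 + Real.log ((2 * T : ℕ) : ℝ) := by
    rw [sum_congr rfl fun i _ => by rw [e1 i]]
    refine largeA_side _ (fun i => (i - j).natAbs) _ ?_ fun i hi => hb i (mem_of_mem_filter i hi)
    intro a ha b hb' hab
    have ha' := (mem_filter.1 (mem_coe.1 ha)).2
    have hb'' := (mem_filter.1 (mem_coe.1 hb')).2
    dsimp only at hab
    omega
  have s2 : ∑ i ∈ (U.erase j).filter (fun i => ¬ i < j), (1 : ℝ) / |((j - i : ℤ) : ℝ)| ≤
      1 + Real.log ((2 * T : ℕ) : ℝ) := by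
    rw [sum_congr rfl fun i _ => by rw [e1 i]]
    refine largeA_side _ (fun i => (i - j).natAbs) _ ?_ fun i hi => hb i (mem_of_mem_filter i hi)
    intro a ha b hb' hab
    have ha' := (mem_filter.1 (mem_coe.1 ha)).2
    have hb'' := (mem_filter.1 (mem_coe.1 hb')).2
    dsimp only at hab
    omega
  linarith

theorem largeA : ∃ (C x0 : ℝ), 0 < C ∧ ∀ X : ℕ, x0 ≤ X → ∀ (M T : ℕ) (a : ℕ → ℂ) (U : Finset ℤ), (∀ m, ‖a m‖ ≤ 1) →
    (X : ℝ) ^ (53 / 100 : ℝ) ≤ M → M ≤ X → T ≤ X → (∀ j ∈ U, |(j : ℝ)| ≤ T) → (U.card : ℝ) ≤ (X : ℝ) ^ (1 / 100 : ℝ) →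
      ∑ j ∈ U, ‖∑ m ∈ Ioc M (2 * M), a m * cj j m‖ ^ 2 ≤ C * (M : ℝ) ^ 2 * Real.log X := by
  classical
  obtain ⟨C1, hC1, hk⟩ := kernM
  refine ⟨1 + 12 * C1, 3, by positivity, ?_⟩
  intro X hX M T a U ha hM1 hM2 hT hU hc
  have hX0 : (0 : ℝ) < X := by linarith
  have hX1 : (1 : ℝ) ≤ X := by linarith
  have hl1 : 1 ≤ Real.log X := by
    rw [Real.le_log_iff_exp_le hX0]
    have := Real.exp_one_lt_d9
    linarith
  have hMpos : (1 : ℝ) ≤ M := (Real.one_le_rpow hX1 (by norm_num)).trans hM1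
  have hM0 : (0 : ℝ) < M := by linarith
  have hMn : 1 ≤ M := by exact_mod_cast hMpos
  -- the two error terms
  have hq1 : (U.card : ℝ) * (M : ℝ) ^ (3 / 4 : ℝ) ≤ M := by
    have h1 : (X : ℝ) ^ (1 / 100 : ℝ) ≤ (M : ℝ) ^ (1 / 4 : ℝ) := by
      calc (X : ℝ) ^ (1 / 100 : ℝ) ≤ (X : ℝ) ^ (53 / 400 : ℝ) := Real.rpow_le_rpow_of_exponent_le hX1 (by norm_num)
        _ = ((X : ℝ) ^ (53 / 100 : ℝ)) ^ (1 / 4 : ℝ) := by
            rw [← Real.rpow_mul hX0.le]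
            norm_num
        _ ≤ (M : ℝ) ^ (1 / 4 : ℝ) := Real.rpow_le_rpow (by positivity) hM1 (by norm_num)
    calc (U.card : ℝ) * (M : ℝ) ^ (3 / 4 : ℝ) ≤ (M : ℝ) ^ (1 / 4 : ℝ) * (M : ℝ) ^ (3 / 4 : ℝ) :=
          mul_le_mul_of_nonneg_right (hc.trans h1) (by positivity)
      _ = M := by
          rw [← Real.rpow_add hM0]
          norm_num
  have hq2 : (U.card : ℝ) * Real.sqrt (2 * X) ≤ 2 * M := by
    have h1 : Real.sqrt (2 * X) ≤ 2 * Real.sqrt X := by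
      rw [Real.sqrt_mul (by norm_num)]
      refine mul_le_mul_of_nonneg_right ?_ (Real.sqrt_nonneg _)
      rw [Real.sqrt_le_left (by norm_num)]
      norm_num
    have h2 : (U.card : ℝ) * Real.sqrt X ≤ M := by
      calc (U.card : ℝ) * Real.sqrt X ≤ (X : ℝ) ^ (1 / 100 : ℝ) * (X : ℝ) ^ (1 / 2 : ℝ) := by
            rw [Real.sqrt_eq_rpow]
            exact mul_le_mul_of_nonneg_right hc (by positivity)
        _ = (X : ℝ) ^ (51 / 100 : ℝ) := by
            rw [← Real.rpow_add hX0]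
            norm_num
        _ ≤ (X : ℝ) ^ (53 / 100 : ℝ) := Real.rpow_le_rpow_of_exponent_le hX1 (by norm_num)
        _ ≤ M := hM1
    calc (U.card : ℝ) * Real.sqrt (2 * X) ≤ (U.card : ℝ) * (2 * Real.sqrt X) :=
          mul_le_mul_of_nonneg_left h1 (Nat.cast_nonneg _)
      _ = 2 * ((U.card : ℝ) * Real.sqrt X) := by ring
      _ ≤ 2 * M := by linarith
  have hlog2 : Real.log ((2 * X : ℕ) : ℝ) ≤ 2 * Real.log X := by
    push_cast
    rw [Real.log_mul (by norm_num) hX0.ne']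
    have := Real.log_two_lt_d9
    linarith
  have hB : ∀ j ∈ U, ∑ j' ∈ U, ‖∑ m ∈ Ioc M (2 * M), cj (j - j') m‖ ≤ (1 + 12 * C1) * M * Real.log X := by
    intro j hj
    rw [← add_sum_erase U _ hj]
    have h1 : ‖∑ m ∈ Ioc M (2 * M), cj (j - j) m‖ ≤ M := by
      refine (norm_sum_le _ _).trans ?_
      rw [sum_congr rfl fun m _ => Pool.Agent.Lib.MRT.norm_cj _ m]
      rw [sum_const, Nat.card_Ioc, nsmul_eq_mul, mul_one]
      exact_mod_cast (by omega : 2 * M - M ≤ M)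
    have h2 : ∑ j' ∈ U.erase j, ‖∑ m ∈ Ioc M (2 * M), cj (j - j') m‖ ≤
        ∑ j' ∈ U.erase j, C1 * (M * ((1 : ℝ) / |((j - j' : ℤ) : ℝ)|) + ((M : ℝ) ^ (3 / 4 : ℝ) + Real.sqrt (2 * X))) := by
      refine sum_le_sum fun j' hj' => ?_
      have hne : j - j' ≠ 0 := sub_ne_zero.2 (ne_of_mem_erase hj').symm
      refine (hk M (2 * M) (j - j') hMn (by omega) le_rfl hne).trans (mul_le_mul_of_nonneg_left ?_ hC1.le)
      have h3 : Real.sqrt |((j - j' : ℤ) : ℝ)| ≤ Real.sqrt (2 * X) := by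
        refine Real.sqrt_le_sqrt ?_
        have h4 := hU j hj
        have h5 := hU j' (mem_of_mem_erase hj')
        have h6 : (T : ℝ) ≤ X := by exact_mod_cast hT
        push_cast
        have h7 := abs_sub (j : ℝ) (j' : ℝ)
        linarith
      have h8 : (M : ℝ) / |((j - j' : ℤ) : ℝ)| = M * ((1 : ℝ) / |((j - j' : ℤ) : ℝ)|) := by ring
      linarith
    have h9 : ∑ j' ∈ U.erase j, C1 * (M * ((1 : ℝ) / |((j - j' : ℤ) : ℝ)|) + ((M : ℝ) ^ (3 / 4 : ℝ) + Real.sqrt (2 * X))) =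
        C1 * (M * ∑ j' ∈ U.erase j, (1 : ℝ) / |((j - j' : ℤ) : ℝ)| +
          (U.erase j).card * ((M : ℝ) ^ (3 / 4 : ℝ) + Real.sqrt (2 * X))) := by
      rw [← mul_sum, sum_add_distrib, ← mul_sum, sum_const, nsmul_eq_mul]
    have h10 : ((U.erase j).card : ℝ) * ((M : ℝ) ^ (3 / 4 : ℝ) + Real.sqrt (2 * X)) ≤ 3 * M := by
      have h11 : ((U.erase j).card : ℝ) ≤ U.card := by exact_mod_cast card_le_card (erase_subset _ _)
      calc ((U.erase j).card : ℝ) * ((M : ℝ) ^ (3 / 4 : ℝ) + Real.sqrt (2 * X))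
          ≤ (U.card : ℝ) * ((M : ℝ) ^ (3 / 4 : ℝ) + Real.sqrt (2 * X)) :=
            mul_le_mul_of_nonneg_right h11 (by positivity)
        _ = (U.card : ℝ) * (M : ℝ) ^ (3 / 4 : ℝ) + (U.card : ℝ) * Real.sqrt (2 * X) := by ring
        _ ≤ 3 * M := by linarith
    have h12 : ∑ j' ∈ U.erase j, (1 : ℝ) / |((j - j' : ℤ) : ℝ)| ≤ 6 * Real.log X := by
      have h13 := largeA_inv U X (fun i hi => (hU i hi).trans (by exact_mod_cast hT)) j hj
      linarith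
    have h14 : (M : ℝ) * ∑ j' ∈ U.erase j, (1 : ℝ) / |((j - j' : ℤ) : ℝ)| ≤ M * (6 * Real.log X) :=
      mul_le_mul_of_nonneg_left h12 hM0.le
    have h15 : (M : ℝ) ≤ M * Real.log X := by nlinarith
    have h16 : C1 * (M * ∑ j' ∈ U.erase j, (1 : ℝ) / |((j - j' : ℤ) : ℝ)| +
          (U.erase j).card * ((M : ℝ) ^ (3 / 4 : ℝ) + Real.sqrt (2 * X))) ≤ C1 * (12 * (M * Real.log X)) := by
      refine mul_le_mul_of_nonneg_left ?_ hC1.le
      linarith
    calc ‖∑ m ∈ Ioc M (2 * M), cj (j - j) m‖ + ∑ j' ∈ U.erase j, ‖∑ m ∈ Ioc M (2 * M), cj (j - j') m‖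
        ≤ M * Real.log X + C1 * (12 * (M * Real.log X)) := by
          rw [h9] at h2
          linarith
      _ = (1 + 12 * C1) * M * Real.log X := by ring
  have h := hmj (Ioc M (2 * M)) a U (by positivity) hB
  refine h.trans ?_
  have h17 : ∑ m ∈ Ioc M (2 * M), ‖a m‖ ^ 2 ≤ M := by
    calc ∑ m ∈ Ioc M (2 * M), ‖a m‖ ^ 2 ≤ ∑ m ∈ Ioc M (2 * M), (1 : ℝ) := by
          refine sum_le_sum fun m _ => ?_
          exact pow_le_one₀ (norm_nonneg _) (ha m)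
      _ ≤ M := by
          rw [sum_const, Nat.card_Ioc, nsmul_eq_mul, mul_one]
          exact_mod_cast (by omega : 2 * M - M ≤ M)
  calc (∑ m ∈ Ioc M (2 * M), ‖a m‖ ^ 2) * ((1 + 12 * C1) * M * Real.log X)
      ≤ M * ((1 + 12 * C1) * M * Real.log X) := mul_le_mul_of_nonneg_right h17 (by positivity)
    _ = (1 + 12 * C1) * (M : ℝ) ^ 2 * Real.log X := by ring

end Pool.Agent.Lib.G3
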