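import Pool.Agent.Lib.G3.Conv
import Pool.Agent.Lib.G3.Mr
import Pool.Agent.Lib.G3.Bqc
import Pool.Agent.Lib.G3.Btf
import Pool.Agent.Lib.G3.Par
import Pool.Agent.Lib.G3.Tri

/-!
# G3, row MV: the local mean square of `F` minus its model at a rational frequency
-/

set_option autoImplicit false

open Finset

namespace Pool.Agent.Lib.G3

open Pool.Agent.Lib.MRT (cj kap)
open Pool.Agent.Lib.GT (e)

/-- the logarithm exceeds constants, its powers are smaller than `X` -/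
theorem grow (L0 : ℝ) (N : ℕ) : ∃ x0 : ℝ, 100 ≤ x0 ∧ ∀ X : ℕ, x0 ≤ X → L0 ≤ Real.log X ∧ (Real.log X) ^ N ≤ X := by
  have h1 : ∀ᶠ x : ℝ in Filter.atTop, L0 ≤ Real.log x := Real.tendsto_log_atTop.eventually (Filter.eventually_ge_atTop L0)
  have h2 := (Real.isLittleO_pow_log_id_atTop (n := N)).bound (show (0 : ℝ) < 1 by norm_num)
  obtain ⟨x0, hx0⟩ := Filter.eventually_atTop.1 (h1.and (h2.and (Filter.eventually_ge_atTop (1 : ℝ))))
  refine ⟨max 100 x0, le_max_left _ _, fun X hX => ?_⟩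
  obtain ⟨h3, h4, h5⟩ := hx0 X ((le_max_right _ _).trans hX)
  refine ⟨h3, ?_⟩
  have h6 : 0 ≤ (Real.log X) ^ N := pow_nonneg (Real.log_nonneg h5) N
  simp only [id, Real.norm_eq_abs, one_mul] at h4
  rwa [abs_of_nonneg h6, abs_of_nonneg (by linarith)] at h4

private theorem mv_char {a : ℕ → ℂ} {P R M X : ℕ} (ha : Good a P R M) (hPR : 2 * P ≤ R) {q b : ℕ} (hq : 1 ≤ q) (hqP : q ≤ P)
    {δ Z : ℝ} (J' : Finset ℤ) (h : ∀ χ : DirichletCharacter ℂ q, ∑ j ∈ J', kap δ j * ‖bc (bt a P R M) X χ j‖ ^ 2 ≤ Z)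
    (hZ : 0 ≤ Z) (hk : ∀ j, 0 ≤ kap δ j) :
    ∑ j ∈ J', kap δ j * ‖bq (bt a P R M) X ((b : ℝ) / q) j‖ ^ 2 ≤ (q : ℝ) ^ 2 * Z := by
  classical
  have : NeZero q := ⟨by omega⟩
  have hcop : ∀ n, bt a P R M n ≠ 0 → Nat.Coprime n q := by
    intro n hn
    obtain ⟨-, -, h3⟩ := bt_supp ha hPR hn
    refine Nat.Coprime.symm (Nat.coprime_of_dvd fun p hp hpq hpn => ?_)
    have h4 := h3 p hp hpn
    have h5 := Nat.le_of_dvd (by omega) hpq
    omega
  have hcard : ((univ : Finset (DirichletCharacter ℂ q)).card : ℝ) ≤ q := by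
    have h1 : (univ : Finset (DirichletCharacter ℂ q)).card = q.totient := by
      rw [Finset.card_univ, ← Nat.card_eq_fintype_card]
      exact DirichletCharacter.card_eq_totient_of_hasEnoughRootsOfUnity ℂ q
    rw [h1]
    exact_mod_cast Nat.totient_le q
  have h1 : ∀ j ∈ J', kap δ j * ‖bq (bt a P R M) X ((b : ℝ) / q) j‖ ^ 2 ≤
      q * ∑ χ : DirichletCharacter ℂ q, kap δ j * ‖bc (bt a P R M) X χ j‖ ^ 2 := by
    intro j _
    have h2 := bqc hq b (bt a P R M) X hcop j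
    have h3 : ‖bq (bt a P R M) X ((b : ℝ) / q) j‖ ^ 2 ≤ q * ∑ χ : DirichletCharacter ℂ q, ‖bc (bt a P R M) X χ j‖ ^ 2 := by
      refine (pow_le_pow_left₀ (norm_nonneg _) h2 2).trans ?_
      refine (sq_sum_le_card_mul_sum_sq).trans ?_
      exact mul_le_mul_of_nonneg_right hcard (sum_nonneg fun _ _ => by positivity)
    calc kap δ j * ‖bq (bt a P R M) X ((b : ℝ) / q) j‖ ^ 2 ≤ kap δ j * (q * ∑ χ : DirichletCharacter ℂ q, ‖bc (bt a P R M) X χ j‖ ^ 2) :=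
          mul_le_mul_of_nonneg_left h3 (hk j)
      _ = q * ∑ χ : DirichletCharacter ℂ q, kap δ j * ‖bc (bt a P R M) X χ j‖ ^ 2 := by
          rw [Finset.mul_sum, Finset.mul_sum, Finset.mul_sum]
          refine sum_congr rfl fun χ _ => ?_
          ring
  refine (sum_le_sum h1).trans ?_
  rw [← Finset.mul_sum, Finset.sum_comm]
  calc (q : ℝ) * ∑ χ : DirichletCharacter ℂ q, ∑ j ∈ J', kap δ j * ‖bc (bt a P R M) X χ j‖ ^ 2 ≤
        q * ∑ _χ : DirichletCharacter ℂ q, Z := mul_le_mul_of_nonneg_left (sum_le_sum fun χ _ => h χ) (by positivity)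
    _ ≤ q * (q * Z) := by
        refine mul_le_mul_of_nonneg_left ?_ (by positivity)
        rw [sum_const, nsmul_eq_mul]
        exact mul_le_mul_of_nonneg_right hcard hZ
    _ = (q : ℝ) ^ 2 * Z := by ring

private theorem mv_kap (δ : ℝ) (j : ℤ) : 0 ≤ kap δ j := by
  unfold kap
  split_ifs
  · positivity
  · exact le_min (by positivity) (by positivity)

/-- the final numerical step -/
private theorem mv_num {C L X H t D TT : ℝ} {A c2 c4 c7 K : ℕ} (hC : 0 < C) (hL : 2 ≤ L) (hLC : 16 * C ≤ L) (hK : K = 2 * c2 + A + 8)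
    (hc4 : c4 = c7 + A + 10) (ht1 : L ^ c4 ≤ t) (ht2 : t ≤ 2 * L ^ c4) (hD : 0 ≤ D) (hD7 : D ≤ L ^ c7) (hH : L ^ (c7 + c4 + K + A + 23) ≤ H)
    (hX : 0 < X) (hHX : H * L ^ (2 * c7 + A + 8) ≤ X) (hTT : 0 ≤ TT) (hT : TT ≤ 4 * L ^ (K + 10) * L ^ c4) :
    C * (t ^ 2 * X * (L ^ (2 * c2) * ((H / (t * X)) ^ 2 * X ^ 2 / L ^ K)) + X * (D * (H / t + t + TT)) ^ 2 + H ^ 3 * D ^ 2) ≤
      X * H ^ 2 / L ^ (A + 5) := by
  have hL0 : 0 < L := by linarith
  have hL1 : 1 ≤ L := by linarith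
  have ht0 : 0 < t := lt_of_lt_of_le (pow_pos hL0 _) ht1
  have hH0 : 0 < H := lt_of_lt_of_le (pow_pos hL0 _) hH
  -- first term
  have e1 : t ^ 2 * X * (L ^ (2 * c2) * ((H / (t * X)) ^ 2 * X ^ 2 / L ^ K)) = X * H ^ 2 / L ^ (A + 8) := by
    have h1 : L ^ K = L ^ (2 * c2) * L ^ (A + 8) := by rw [← pow_add, hK]; ring_nf
    rw [h1]
    field_simp
  -- second term
  have e2 : D * (H / t + t + TT) ≤ 2 * H / L ^ (A + 10) := by
    have h1 : D * (H / t) ≤ H / L ^ (A + 10) := by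
      rw [← mul_div_assoc, div_le_div_iff₀ ht0 (pow_pos hL0 _)]
      calc D * H * L ^ (A + 10) ≤ L ^ c7 * H * L ^ (A + 10) := by gcongr
        _ = H * L ^ c4 := by rw [hc4, add_assoc, pow_add L c7]; ring
        _ ≤ H * t := mul_le_mul_of_nonneg_left ht1 hH0.le
    have h2 : D * (t + TT) ≤ H / L ^ (A + 10) := by
      rw [le_div_iff₀ (pow_pos hL0 _)]
      have h3 : t + TT ≤ L ^ 3 * (L ^ (K + 10) * L ^ c4) := by
        have h4 : t ≤ 2 * (L ^ (K + 10) * L ^ c4) := by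
          refine ht2.trans ?_
          have : 1 ≤ L ^ (K + 10) := one_le_pow₀ hL1
          nlinarith [pow_pos hL0 c4]
        have h5 : (6 : ℝ) ≤ L ^ 3 := by nlinarith [mul_self_nonneg (L - 2)]
        have h6 : 0 < L ^ (K + 10) * L ^ c4 := by positivity
        nlinarith
      calc D * (t + TT) * L ^ (A + 10) ≤ L ^ c7 * (L ^ 3 * (L ^ (K + 10) * L ^ c4)) * L ^ (A + 10) := by gcongr
        _ = L ^ (c7 + c4 + K + A + 23) := by rw [← pow_add, ← pow_add, ← pow_add, ← pow_add]; congr 1; ring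
        _ ≤ H := hH
    calc D * (H / t + t + TT) = D * (H / t) + D * (t + TT) := by ring
      _ ≤ H / L ^ (A + 10) + H / L ^ (A + 10) := add_le_add h1 h2
      _ = 2 * H / L ^ (A + 10) := by ring
  have e2' : X * (D * (H / t + t + TT)) ^ 2 ≤ X * H ^ 2 / L ^ (A + 8) := by
    have h0 : 0 ≤ D * (H / t + t + TT) := by positivity
    have h1 : (D * (H / t + t + TT)) ^ 2 ≤ (2 * H / L ^ (A + 10)) ^ 2 := pow_le_pow_left₀ h0 e2 2
    have h2 : (2 * H / L ^ (A + 10)) ^ 2 ≤ H ^ 2 / L ^ (A + 8) := by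
      rw [div_pow, div_le_div_iff₀ (by positivity) (by positivity)]
      have h3 : L ^ (A + 8) * 4 ≤ (L ^ (A + 10)) ^ 2 := by
        have h4 : (L ^ (A + 10)) ^ 2 = L ^ (A + 8) * (L ^ 2 * L ^ (A + 10)) := by
          rw [← pow_mul, ← pow_add, ← pow_add]; congr 1; ring
        rw [h4]
        refine mul_le_mul_of_nonneg_left ?_ (by positivity)
        have h5 : 1 ≤ L ^ (A + 10) := one_le_pow₀ hL1
        nlinarith
      calc (2 * H) ^ 2 * L ^ (A + 8) = H ^ 2 * (L ^ (A + 8) * 4) := by ring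
        _ ≤ H ^ 2 * (L ^ (A + 10)) ^ 2 := mul_le_mul_of_nonneg_left h3 (by positivity)
    calc X * (D * (H / t + t + TT)) ^ 2 ≤ X * (H ^ 2 / L ^ (A + 8)) :=
          mul_le_mul_of_nonneg_left (h1.trans h2) hX.le
      _ = X * H ^ 2 / L ^ (A + 8) := by ring
  -- third term
  have e3 : H ^ 3 * D ^ 2 ≤ X * H ^ 2 / L ^ (A + 8) := by
    rw [le_div_iff₀ (by positivity)]
    calc H ^ 3 * D ^ 2 * L ^ (A + 8) ≤ H ^ 3 * (L ^ c7) ^ 2 * L ^ (A + 8) := by gcongr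
      _ = H ^ 2 * (H * L ^ (2 * c7 + A + 8)) := by
          have : L ^ (2 * c7 + A + 8) = (L ^ c7) ^ 2 * L ^ (A + 8) := by rw [← pow_mul, ← pow_add]; congr 1; ring
          rw [this]; ring
      _ ≤ H ^ 2 * X := mul_le_mul_of_nonneg_left hHX (by positivity)
      _ = X * H ^ 2 := by ring
  rw [e1]
  calc C * (X * H ^ 2 / L ^ (A + 8) + X * (D * (H / t + t + TT)) ^ 2 + H ^ 3 * D ^ 2) ≤
        C * (X * H ^ 2 / L ^ (A + 8) + X * H ^ 2 / L ^ (A + 8) + X * H ^ 2 / L ^ (A + 8)) := by gcongr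
    _ = (3 * C) * (X * H ^ 2 / L ^ (A + 8)) := by ring
    _ ≤ L ^ 3 * (X * H ^ 2 / L ^ (A + 8)) := by
        refine mul_le_mul_of_nonneg_right ?_ (by positivity)
        nlinarith [mul_self_nonneg (L - 2), pow_pos hL0 3, pow_pos hL0 2]
    _ = X * H ^ 2 / L ^ (A + 5) := by
        rw [show A + 8 = (A + 5) + 3 by ring, pow_add L (A + 5) 3]
        field_simp

/-- the exponent of the large value threshold -/
def eK (A c2 : ℕ) : ℕ := 2 * c2 + A + 8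

/-- the exponent of the size of the frequency sets -/
def e7 (A c2 c5 : ℕ) : ℕ := c5 + c2 + 2 * (eK A c2 + 10) + 5

/-- the exponent of the number of small windows -/
def e4 (A c2 c5 : ℕ) : ℕ := e7 A c2 c5 + A + 10

theorem JJ_bound (A c2 c5 : ℕ) : ∃ x0 : ℝ, ∀ X : ℕ, x0 ≤ X → ∀ q R T : ℕ, 1 ≤ q → (q : ℝ) ≤ (Real.log X) ^ c2 →
    (X : ℝ) ^ (1 / 4 : ℝ) ≤ R → R ≤ X → T ≤ X →
    1 + ((JJ q R ⌊(Real.log X) ^ c5⌋₊ T (R / (Real.log X) ^ (eK A c2 + 10))).card : ℝ) ≤ (Real.log X) ^ e7 A c2 c5 := by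
  obtain ⟨x1, h1⟩ := JJ_card (eK A c2 + 10)
  obtain ⟨x2, -, h2⟩ := grow 4 0
  refine ⟨max x1 x2, fun X hX q R T hq hqL hR hRX hT => ?_⟩
  have hL := (h2 X ((le_max_right _ _).trans hX)).1
  set L := Real.log X with hLd
  have hL1 : (1 : ℝ) ≤ L := by linarith
  have hL0 : 0 < L := by linarith
  have h3 := h1 X ((le_max_left _ _).trans hX) q R ⌊L ^ c5⌋₊ T hq hR hRX hT
  have h4 : ((⌊L ^ c5⌋₊ : ℕ) : ℝ) ≤ L ^ c5 := Nat.floor_le (by positivity)
  set b := 2 * (eK A c2 + 10) + 3 with hb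
  have h5 : L ^ c5 ≤ L ^ (c5 + c2 + b) := pow_le_pow_right₀ hL1 (by omega)
  have h6 : (q : ℝ) * L ^ b ≤ L ^ (c5 + c2 + b) := by
    calc (q : ℝ) * L ^ b ≤ L ^ c2 * L ^ b := by gcongr
      _ = L ^ (c2 + b) := (pow_add L c2 b).symm
      _ ≤ L ^ (c5 + c2 + b) := pow_le_pow_right₀ hL1 (by omega)
  have h7 : 1 ≤ L ^ (c5 + c2 + b) := one_le_pow₀ hL1
  have h9 : L ^ e7 A c2 c5 = L ^ (c5 + c2 + b) * L ^ 2 := by
    rw [← pow_add]
    congr 1
  rw [h9]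
  have h10 : (16 : ℝ) ≤ L ^ 2 := by nlinarith
  nlinarith

theorem majV (A c2 c5 : ℕ) : ∃ c0 : ℕ, ∀ c1 : ℕ, c0 ≤ c1 → ∀ N : ℕ, ∃ x0 : ℝ, ∀ X : ℕ, x0 ≤ X → ∀ (P R M H T : ℕ) (a : ℕ → ℂ),
    Par X P R M c1 → Good a P R M → (Real.log X) ^ (c1 + e7 A c2 c5 + e4 A c2 c5 + eK A c2 + A + 30) ≤ H → (H : ℝ) ≤ (Real.log X) ^ N →
    T = ⌈(Real.log X) ^ (eK A c2 + 10) * (⌈(Real.log X) ^ e4 A c2 c5⌉₊ * X / H)⌉₊ → ∀ q b : ℕ, 1 ≤ q → (q : ℝ) ≤ (Real.log X) ^ c2 →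
      ∑ y ∈ range (X + H + 1), ‖∑ n ∈ Ioc (y - H) y, (bt a P R M n * e (-(n * ((b : ℝ) / q))) -
        mo (bq (bt a P R M) X ((b : ℝ) / q)) (JJ q R ⌊(Real.log X) ^ c5⌋₊ T (R / (Real.log X) ^ (eK A c2 + 10))) X n)‖ ^ 2 ≤
          X * (H : ℝ) ^ 2 / (Real.log X) ^ (A + 5) := by
  obtain ⟨C, hC, hconv⟩ := conv
  obtain ⟨c0, hmr⟩ := mr (eK A c2)
  refine ⟨max c0 (c2 + 3), fun c1 hc1 N => ?_⟩
  obtain ⟨x1, hx1⟩ := hmr c1 ((le_max_left _ _).trans hc1)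
  have hc1' : c2 + 3 ≤ c1 := (le_max_right _ _).trans hc1
  obtain ⟨x2, -, hx2⟩ := par c1 (by omega)
  obtain ⟨x3, hx3⟩ := JJ_bound A c2 c5
  set K := eK A c2 with hK
  set c7 := e7 A c2 c5 with hc7
  set c4 := e4 A c2 c5 with hc4
  obtain ⟨x4, hx4100, hx4⟩ := grow (max 4 (16 * C)) (N + 2 * c7 + A + 8 + c4 + K + 30)
  refine ⟨max (max x1 x2) (max x3 x4), fun X hX P R M H T a hpar ha hH1 hH2 hT q b hq hqL => ?_⟩
  have hX1 : x1 ≤ X := ((le_max_left _ _).trans (le_max_left _ _)).trans hX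
  have hX2 : x2 ≤ X := ((le_max_right _ _).trans (le_max_left _ _)).trans hX
  have hX3 : x3 ≤ X := ((le_max_left _ _).trans (le_max_right _ _)).trans hX
  have hX4 : x4 ≤ X := ((le_max_right _ _).trans (le_max_right _ _)).trans hX
  obtain ⟨hLg, hLX⟩ := hx4 X hX4
  have hX100 : (100 : ℝ) ≤ X := hx4100.trans hX4
  obtain ⟨hP1, hP2, hPR, hRX, hR1, hM1, hM2, hM3, hPMR, hPMR2⟩ := hx2 X P R M hX2 hpar
  set L := Real.log X with hLd
  have hL4 : 4 ≤ L := (le_max_left _ _).trans hLg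
  have hLC : 16 * C ≤ L := (le_max_right _ _).trans hLg
  have hL0 : 0 < L := by linarith
  have hL1 : 1 ≤ L := by linarith
  have hXp : (0 : ℝ) < X := by linarith
  set t : ℕ := ⌈L ^ c4⌉₊ with ht
  have ht1 : L ^ c4 ≤ t := Nat.le_ceil _
  have hLc4 : 1 ≤ L ^ c4 := one_le_pow₀ hL1
  have ht2 : (t : ℝ) ≤ 2 * L ^ c4 := by
    have := Nat.ceil_lt_add_one (show 0 ≤ L ^ c4 by positivity)
    linarith
  have ht0 : (0 : ℝ) < t := by linarith
  have htn : 1 ≤ t := by exact_mod_cast (show (0 : ℝ) < t from ht0)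
  have hH0 : (0 : ℝ) < H := lt_of_lt_of_le (pow_pos hL0 _) hH1
  have hHn : 1 ≤ H := by exact_mod_cast (show (0 : ℝ) < H from hH0)
  -- powers
  have hpw : ∀ m : ℕ, m ≤ N + 2 * c7 + A + 8 + c4 + K + 30 → L ^ m ≤ X := fun m hm =>
    (pow_le_pow_right₀ hL1 hm).trans hLX
  have htH : 1000 * (t * H) ≤ X := by
    have h1 : (1000 : ℝ) * (t * H) ≤ X := by
      calc (1000 : ℝ) * (t * H) ≤ L ^ 5 * ((L * L ^ c4) * L ^ N) := by
            have h2 : (1000 : ℝ) ≤ L ^ 5 := by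
              calc (1000 : ℝ) ≤ 4 ^ 5 := by norm_num
                _ ≤ L ^ 5 := pow_le_pow_left₀ (by norm_num) hL4 5
            have h3 : (t : ℝ) ≤ L * L ^ c4 := by nlinarith
            gcongr
        _ = L ^ (N + c4 + 6) := by rw [← pow_succ', ← pow_add, ← pow_add]; congr 1; ring
        _ ≤ X := hpw _ (by omega)
    exact_mod_cast h1
  set δ : ℝ := (H : ℝ) / (t * X) with hδ
  have hδ0 : 0 < δ := by positivity
  have hδ1 : δ ≤ 1 := by
    rw [hδ, div_le_one (by positivity)]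
    have h1 : (H : ℝ) ≤ X := by
      have h2 : t * H ≤ X := by omega
      have h3 : H ≤ t * H := Nat.le_mul_of_pos_left _ (by omega)
      exact_mod_cast h3.trans h2
    have h2 : (1 : ℝ) ≤ t := by exact_mod_cast htn
    nlinarith
  have hδX : δ * X = H / t := by rw [hδ]; field_simp
  have hTr : (T : ℝ) = ⌈L ^ (K + 10) / δ⌉₊ := by
    have : L ^ (K + 10) * (t * X / H) = L ^ (K + 10) / δ := by rw [hδ]; field_simp
    rw [hT, this]
  have hT1 : L ^ (K + 10) / δ ≤ T := by rw [hTr]; exact Nat.le_ceil _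
  have hKδ : 1 ≤ L ^ (K + 10) / δ := by
    rw [le_div_iff₀ hδ0]
    have : 1 ≤ L ^ (K + 10) := one_le_pow₀ hL1
    linarith
  have hT2 : (T : ℝ) ≤ 2 * L ^ (K + 10) / δ := by
    rw [hTr]
    have := Nat.ceil_lt_add_one (show 0 ≤ L ^ (K + 10) / δ by positivity)
    have h2 : 2 * L ^ (K + 10) / δ = 2 * (L ^ (K + 10) / δ) := by ring
    linarith
  have hTT : (T : ℝ) * H / X ≤ 4 * L ^ (K + 10) * L ^ c4 := by
    have h1 : (T : ℝ) * H / X ≤ (2 * L ^ (K + 10) / δ) * H / X := by gcongr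
    have h2 : (2 * L ^ (K + 10) / δ) * H / X = 2 * L ^ (K + 10) * t := by rw [hδ]; field_simp
    rw [h2] at h1
    refine h1.trans ?_
    have h3 : 0 ≤ 2 * L ^ (K + 10) := by positivity
    nlinarith [mul_le_mul_of_nonneg_left ht2 h3]
  have hT1' : (1 : ℝ) ≤ T := hKδ.trans hT1
  have hHt : L ^ (c1 + K + 20) ≤ δ * X := by
    rw [hδX, le_div_iff₀ ht0]
    calc L ^ (c1 + K + 20) * t ≤ L ^ (c1 + K + 20) * (2 * L ^ c4) := by gcongr
      _ ≤ L ^ (c1 + K + 20) * (L * L ^ c4) := by gcongr; linarith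
      _ = L ^ (c1 + K + 21 + c4) := by rw [← pow_succ', ← pow_add]; congr 1; ring
      _ ≤ L ^ (c1 + c7 + c4 + K + A + 30) := pow_le_pow_right₀ hL1 (by omega)
      _ ≤ H := hH1
  have hTX : (T : ℝ) ≤ X := by
    refine hT2.trans ?_
    rw [div_le_iff₀ hδ0, mul_comm (X : ℝ) δ]
    refine le_trans ?_ hHt
    calc 2 * L ^ (K + 10) ≤ L * L ^ (K + 10) := by gcongr; linarith
      _ = L ^ (K + 11) := by rw [← pow_succ']
      _ ≤ L ^ (c1 + K + 20) := pow_le_pow_right₀ hL1 (by omega)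
  have hTXn : T ≤ X := by exact_mod_cast hTX
  have hqP : q ≤ P := by
    have h1 : (q : ℝ) ≤ P := by
      refine hqL.trans (le_trans ?_ hP1)
      rw [le_div_iff₀ (by norm_num)]
      calc L ^ c2 * 2 ≤ L ^ c2 * L := by gcongr; linarith
        _ = L ^ (c2 + 1) := by rw [pow_succ]
        _ ≤ L ^ c1 := pow_le_pow_right₀ hL1 (by omega)
    exact_mod_cast h1
  set J := JJ q R ⌊L ^ c5⌋₊ T (R / L ^ (K + 10)) with hJ
  have hJc : 1 + (J.card : ℝ) ≤ L ^ c7 := hx3 X hX3 q R T hq hqL hRX hR1 hTXn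
  set f : ℕ → ℂ := fun n => bt a P R M n * e (-(n * ((b : ℝ) / q))) with hf
  have hbq : (fun j => ∑ l ∈ Icc 1 X, f l * cj j l) = bq (bt a P R M) X ((b : ℝ) / q) := rfl
  have hne : ∀ x : ℝ, ‖e x‖ = 1 := by
    intro x
    unfold Pool.Agent.Lib.GT.e
    rw [show (2 * Real.pi * x * Complex.I : ℂ) = ((2 * Real.pi * x : ℝ) : ℂ) * Complex.I by push_cast; ring]
    exact Complex.norm_exp_ofReal_mul_I _
  have hfn : ∀ n, ‖f n‖ ≤ 1 := by
    intro n
    rw [hf]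
    simp only
    rw [norm_mul, hne, mul_one]
    exact bt_le ha hPR n
  have hfs : ∀ n, f n ≠ 0 → X < 64 * n ∧ n ≤ X := by
    intro n hn
    have h1 : bt a P R M n ≠ 0 := fun h => hn (by rw [hf]; simp only; rw [h, zero_mul])
    obtain ⟨h2, h3, -⟩ := bt_supp ha hPR h1
    constructor
    · calc X ≤ 32 * (P * M * R) := hPMR2
        _ < 32 * n := by omega
        _ ≤ 64 * n := by omega
    · omega
  have hcv := hconv X H t f J 1 1 T ((q : ℝ) ^ 2 * (δ ^ 2 * (X : ℝ) ^ 2 / L ^ K)) hHn htn htH le_rfl le_rfl hT1' hfs hfn ?_ ?_ ?_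
  · rw [hbq] at hcv
    refine hcv.trans ?_
    have hq2 : (q : ℝ) ^ 2 ≤ L ^ (2 * c2) := by
      rw [mul_comm 2 c2, pow_mul]
      exact pow_le_pow_left₀ (by positivity) hqL 2
    have hHl : L ^ (c7 + c4 + K + A + 23) ≤ (H : ℝ) :=
      le_trans (pow_le_pow_right₀ hL1 (by omega)) hH1
    have hnum := mv_num (A := A) (c2 := c2) (c4 := c4) (c7 := c7) (K := K) (D := 1 + J.card) (TT := T * H / X) (t := t) (H := H) (X := X)
      hC (by linarith) hLC rfl rfl ht1 ht2 (by positivity) hJc hHl hXp ?_ (by positivity) hTT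
    · refine le_trans ?_ hnum
      rw [← hδ, mul_one]
      gcongr
    · calc (H : ℝ) * L ^ (2 * c7 + A + 8) ≤ L ^ N * L ^ (2 * c7 + A + 8) := by gcongr
        _ = L ^ (N + (2 * c7 + A + 8)) := by rw [← pow_add]
        _ ≤ X := hpw _ (by omega)
  · intro j hj
    rw [hJ] at hj
    unfold JJ at hj
    rw [mem_filter, mem_Icc] at hj
    have : |j| ≤ (T : ℤ) := abs_le.2 hj.1
    exact_mod_cast this
  · intro j _
    rw [one_mul]
    exact bq_le (bt_le ha hPR) X _ j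
  · intro J' hJ'
    refine mv_char ha hPR hq hqP J' (fun χ => ?_) (by positivity) (mv_kap _)
    refine hx1 X hX1 P R M T δ a hpar ha hδ0 hδ1 hHt hT1 hT2 q χ J' fun j hj => ?_
    by_cases hjT : (T : ℝ) < |(j : ℝ)|
    · exact Or.inr hjT
    · left
      by_contra hcon
      rw [not_le] at hcon
      have hjJ : j ∈ J := by
        rw [hJ]
        unfold JJ
        rw [mem_filter, mem_Icc]
        refine ⟨abs_le.1 ?_, Or.inr ⟨χ, hcon⟩⟩
        rw [not_lt] at hjT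
        exact_mod_cast hjT
      exact (Finset.disjoint_left.1 hJ' hj) hjJ

end Pool.Agent.Lib.G3
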