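import Pool.Agent.Lib.G3.G4Defs

/-!
# G4: the parameters `P = ⌊(log X)^c1⌋`, `M ≤ (log X)^cM`, `R = X / (16 P M)`
-/

set_option autoImplicit false

open Finset

namespace Pool.Agent.Lib.G3

theorem parm (c1 cM : ℕ) (hc : 2 ≤ c1) : ∃ x0 : ℝ, 100 ≤ x0 ∧ ∀ (X P R M : ℕ), x0 ≤ X → ParM X P R M c1 cM →
    (Real.log X) ^ c1 / 2 ≤ P ∧ (P : ℝ) ≤ (Real.log X) ^ c1 ∧ 2 * P ≤ R ∧ 2 * M ≤ R ∧ (X : ℝ) ^ (99 / 100 : ℝ) ≤ R ∧ R ≤ X ∧
      16 * (P * M * R) ≤ X ∧ X ≤ 17 * (P * M * R) := by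
  have h1 : ∀ᶠ x : ℝ in Filter.atTop, ‖(Real.log x) ^ ((c1 + cM : ℕ) : ℝ)‖ ≤ 1 / 64 * ‖x ^ (1 / 100 : ℝ)‖ :=
    (isLittleO_log_rpow_rpow_atTop ((c1 + cM : ℕ) : ℝ) (by norm_num : (0 : ℝ) < 1 / 100)).def (by norm_num)
  obtain ⟨x1, hx1⟩ := Filter.eventually_atTop.1 h1
  refine ⟨max 100 x1, le_max_left _ _, ?_⟩
  intro X P R M hX hp
  have hX100 : (100 : ℝ) ≤ X := le_trans (le_max_left _ _) hX
  have hXx1 : x1 ≤ (X : ℝ) := le_trans (le_max_right _ _) hX
  have hX0 : (0 : ℝ) < X := by linarith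
  have hX1 : (1 : ℝ) ≤ X := by linarith
  have hlog2 : (2 : ℝ) ≤ Real.log X := by
    rw [Real.le_log_iff_exp_le hX0]
    have h3 : Real.exp 2 = Real.exp 1 * Real.exp 1 := by
      rw [← Real.exp_add]
      norm_num
    have h4 := Real.exp_one_lt_d9
    have h5 := Real.exp_pos 1
    nlinarith
  have hM1 : 1 ≤ M := hp.hM1
  have hM1R : (1 : ℝ) ≤ M := by exact_mod_cast hM1
  set L : ℝ := (Real.log X) ^ c1 with hL
  set L' : ℝ := (Real.log X) ^ cM with hL'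
  set y : ℝ := (X : ℝ) ^ (99 / 100 : ℝ) with hy
  set z : ℝ := (X : ℝ) ^ (1 / 100 : ℝ) with hz
  have hL2 : 2 ≤ L := by
    have h3 : (2 : ℝ) ^ c1 ≤ (Real.log X) ^ c1 := pow_le_pow_left₀ (by norm_num) hlog2 c1
    have h4 : (2 : ℝ) ^ 1 ≤ (2 : ℝ) ^ c1 := pow_le_pow_right₀ (by norm_num) (by omega)
    linarith
  have hMle : (M : ℝ) ≤ L' := hp.hM
  have hL'1 : 1 ≤ L' := by linarith
  have hWz : 64 * (L * L') ≤ z := by
    have h3 := hx1 X hXx1
    rw [Real.rpow_natCast, Real.norm_of_nonneg (pow_nonneg (by linarith) _), Real.norm_of_nonneg (by positivity), pow_add] at h3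
    linarith
  have hLW : L ≤ L * L' := by nlinarith
  have hL'W : L' ≤ L * L' := by nlinarith
  have hyz : y * z = X := by
    rw [hy, hz, ← Real.rpow_add hX0]
    norm_num
  have hzy : z ≤ y := Real.rpow_le_rpow_of_exponent_le hX1 (by norm_num)
  have hy0 : 0 < y := by positivity
  have hPle : (P : ℝ) ≤ L := by
    rw [hp.hP]
    exact Nat.floor_le (by linarith)
  have hPge : L / 2 ≤ P := by
    have h3 : L < (P : ℝ) + 1 := by
      rw [hp.hP]
      exact Nat.lt_floor_add_one L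
    linarith
  have hP1 : (1 : ℝ) ≤ P := by linarith
  have hPN : 1 ≤ P := by exact_mod_cast hP1
  have hPM : 0 < P * M := Nat.mul_pos (by omega) (by omega)
  have hdiv : 16 * (P * M * R) ≤ X := by
    have h3 : X / (16 * (P * M)) * (16 * (P * M)) ≤ X := Nat.div_mul_le_self X (16 * (P * M))
    rw [← hp.hR] at h3
    linarith
  have hlt : X < 16 * (P * M) * (R + 1) := by
    have h3 := Nat.lt_mul_div_succ X (show 0 < 16 * (P * M) by omega)
    rw [← hp.hR] at h3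
    exact h3
  have hltR : (X : ℝ) < 16 * (P * M) * (R + 1) := by exact_mod_cast hlt
  have hPMle : (P : ℝ) * M ≤ L * L' := mul_le_mul hPle hMle (by linarith) (by linarith)
  have hRy : 3 * y ≤ R := by
    have h3 : 64 * (L * L') * y ≤ X := by
      rw [← hyz]
      nlinarith
    have h4 : (16 : ℝ) * (P * M) * (R + 1) ≤ 16 * (L * L') * (R + 1) := by
      have : (0 : ℝ) ≤ R + 1 := by positivity
      nlinarith
    have h5 : 16 * (L * L') * (4 * y) < 16 * (L * L') * (R + 1) := by nlinarith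
    have h6 : 4 * y < (R : ℝ) + 1 := lt_of_mul_lt_mul_left h5 (by nlinarith)
    linarith
  have hR16 : (16 : ℝ) ≤ R := by linarith
  have hR16N : 16 ≤ R := by exact_mod_cast hR16
  refine ⟨hPge, hPle, ?_, ?_, by linarith, ?_, hdiv, ?_⟩
  · have h3 : (2 : ℝ) * P ≤ R := by linarith
    exact_mod_cast h3
  · have h3 : (2 : ℝ) * M ≤ R := by linarith
    exact_mod_cast h3
  · rw [hp.hR]
    exact Nat.div_le_self _ _
  · nlinarith [Nat.mul_le_mul_left (P * M) hR16N]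

end Pool.Agent.Lib.G3
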