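import Pool.Agent.Lib.MP_092512_nt.VC.KL

/-!
# The second difference test (van der Corput)
-/

set_option autoImplicit false

namespace Pool.Agent.Lib.G3

open Finset Complex

/-- the exponential sum over a block -/
noncomputable def ES (θ : ℕ → ℝ) (a b : ℕ) : ℂ := ∑ n ∈ Ico a b, Complex.exp (I * (θ n : ℂ))

theorem norm_eI (x : ℝ) : ‖Complex.exp (I * (x : ℂ))‖ = 1 := by
  rw [mul_comm, Complex.norm_exp_ofReal_mul_I]

theorem ES_le (θ : ℕ → ℝ) (a b : ℕ) : ‖ES θ a b‖ ≤ (b - a : ℕ) := by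
  unfold ES
  refine (norm_sum_le _ _).trans ?_
  rw [Finset.sum_congr rfl fun n _ => norm_eI (θ n)]
  simp

theorem ES_split (θ : ℕ → ℝ) {a b c : ℕ} (h1 : a ≤ b) (h2 : b ≤ c) : ES θ a c = ES θ a b + ES θ b c := by
  unfold ES
  rw [Finset.sum_Ico_consecutive _ h1 h2]

/-- splitting a monotone sequence at a threshold -/
theorem mono_split (d : ℕ → ℝ) (τ : ℝ) : ∀ (a b : ℕ), a ≤ b → (∀ n m, a ≤ n → n ≤ m → m < b → d n ≤ d m) →
    ∃ c, a ≤ c ∧ c ≤ b ∧ (∀ n, a ≤ n → n < c → d n < τ) ∧ (∀ n, c ≤ n → n < b → τ ≤ d n) := by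
  intro a b hab hm
  by_cases h : ∃ c, a ≤ c ∧ c < b ∧ τ ≤ d c
  · classical
    refine ⟨Nat.find h, (Nat.find_spec h).1, (Nat.find_spec h).2.1.le, ?_, ?_⟩
    · intro n hn1 hn2
      by_contra hc
      exact Nat.find_min h hn2 ⟨hn1, hn2.trans (Nat.find_spec h).2.1, not_lt.1 hc⟩
    · intro n hn1 hn2
      exact (Nat.find_spec h).2.2.trans (hm _ _ (Nat.find_spec h).1 hn1 hn2)
  · refine ⟨b, hab, le_rfl, ?_, ?_⟩
    · intro n hn1 hn2
      by_contra hc
      exact h ⟨n, hn1, hn2, not_lt.1 hc⟩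
    · intro n hn1 hn2
      omega

/-- increasing differences in `[Δ, π]` modulo `2πk` -/
theorem kl_up (θ : ℕ → ℝ) (k : ℤ) (Δ : ℝ) (hΔ : 0 < Δ) (a b : ℕ)
    (h1 : ∀ n, a ≤ n → n < b → 2 * Real.pi * k + Δ ≤ θ (n + 1) - θ n)
    (h2 : ∀ n, a ≤ n → n < b → θ (n + 1) - θ n ≤ 2 * Real.pi * k + Real.pi)
    (h3 : ∀ n, a ≤ n → n + 1 < b → θ (n + 1) - θ n ≤ θ (n + 2) - θ (n + 1)) :
    ‖ES θ a b‖ ≤ 8 / Δ + 2 := by
  have hpos : 0 < 8 / Δ := by positivity
  rcases Nat.lt_or_ge a b with hab | hab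
  swap
  · unfold ES
    rw [Finset.Ico_eq_empty (by omega)]
    simp only [sum_empty, norm_zero]
    linarith
  obtain ⟨L, rfl⟩ : ∃ L, b = a + L := ⟨b - a, by omega⟩
  set φ : ℕ → ℝ := fun m => -(θ (a + (L - m))) - 2 * Real.pi * k * m with hφ
  have key := VDC.kusmin_landau φ L Δ hΔ ?_ ?_ ?_
  · -- compare the sums
    have e1 : ∑ m ∈ range L, Complex.exp (I * (φ m : ℂ)) =
        (starRingEnd ℂ) (∑ n ∈ Ico (a + 1) (a + L + 1), Complex.exp (I * (θ n : ℂ))) * 1 := by
      rw [mul_one, map_sum]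
      rw [show Ico (a + 1) (a + L + 1) = (range L).image (fun m => a + (L - m)) by
        ext x
        simp only [mem_Ico, mem_image, mem_range]
        constructor
        · rintro ⟨hx1, hx2⟩
          exact ⟨a + L - x, by omega, by omega⟩
        · rintro ⟨m, hm, rfl⟩
          omega]
      rw [Finset.sum_image]
      · refine Finset.sum_congr rfl fun m _ => ?_
        rw [← Complex.exp_conj]
        simp only [map_mul, Complex.conj_I, Complex.conj_ofReal, hφ]
        rw [show I * ((-(θ (a + (L - m))) - 2 * Real.pi * k * m : ℝ) : ℂ) =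
          -I * (θ (a + (L - m)) : ℂ) + ((-(k * m) : ℤ) : ℂ) * (2 * Real.pi * I) by push_cast; ring]
        rw [Complex.exp_add, Complex.exp_int_mul_two_pi_mul_I, mul_one]
      · intro m hm m' hm' he
        simp only [coe_range, Set.mem_Iio] at hm hm'
        simp only at he
        omega
    have e2 : ‖∑ n ∈ Ico (a + 1) (a + L + 1), Complex.exp (I * (θ n : ℂ))‖ ≤ 8 / Δ := by
      have := key
      rw [e1, mul_one] at this
      rwa [RCLike.norm_conj] at this
    have e3 : ES θ a (a + L) = ∑ n ∈ Ico (a + 1) (a + L + 1), Complex.exp (I * (θ n : ℂ)) +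
        (Complex.exp (I * (θ a : ℂ)) - Complex.exp (I * (θ (a + L) : ℂ))) := by
      unfold ES
      rw [Finset.sum_Ico_succ_top (by omega), Finset.sum_eq_sum_Ico_succ_bot (by omega : a < a + L)]
      ring
    rw [e3]
    refine (norm_add_le _ _).trans (add_le_add e2 ?_)
    refine (norm_sub_le _ _).trans ?_
    rw [norm_eI, norm_eI]
    norm_num
  · intro m hm
    simp only [hφ]
    have := h1 (a + (L - (m + 1))) (by omega) (by omega)
    rw [show a + (L - (m + 1)) + 1 = a + (L - m) by omega] at this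
    push_cast
    linarith
  · intro m hm
    simp only [hφ]
    have := h2 (a + (L - (m + 1))) (by omega) (by omega)
    rw [show a + (L - (m + 1)) + 1 = a + (L - m) by omega] at this
    push_cast
    linarith
  · intro m hm
    simp only [hφ]
    have := h3 (a + (L - (m + 2))) (by omega) (by omega)
    rw [show a + (L - (m + 2)) + 1 = a + (L - (m + 1)) by omega,
      show a + (L - (m + 2)) + 2 = a + (L - m) by omega] at this
    push_cast
    linarith

/-- increasing differences in `[π, 2π - Δ]` modulo `2πk` -/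
theorem kl_down (θ : ℕ → ℝ) (k : ℤ) (Δ : ℝ) (hΔ : 0 < Δ) (a b : ℕ)
    (h1 : ∀ n, a ≤ n → n < b → θ (n + 1) - θ n ≤ 2 * Real.pi * (k + 1) - Δ)
    (h2 : ∀ n, a ≤ n → n < b → 2 * Real.pi * k + Real.pi ≤ θ (n + 1) - θ n)
    (h3 : ∀ n, a ≤ n → n + 1 < b → θ (n + 1) - θ n ≤ θ (n + 2) - θ (n + 1)) :
    ‖ES θ a b‖ ≤ 8 / Δ := by
  have hpos : 0 < 8 / Δ := by positivity
  rcases Nat.lt_or_ge a b with hab | hab
  swap
  · unfold ES
    rw [Finset.Ico_eq_empty (by omega)]
    simp only [sum_empty, norm_zero]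
    linarith
  obtain ⟨L, rfl⟩ : ∃ L, b = a + L := ⟨b - a, by omega⟩
  set φ : ℕ → ℝ := fun m => -(θ (a + m)) + 2 * Real.pi * (k + 1) * m with hφ
  have key := VDC.kusmin_landau φ L Δ hΔ ?_ ?_ ?_
  · have e1 : ∑ m ∈ range L, Complex.exp (I * (φ m : ℂ)) = (starRingEnd ℂ) (ES θ a (a + L)) := by
      unfold ES
      rw [map_sum, Finset.sum_Ico_eq_sum_range, show a + L - a = L by omega]
      refine Finset.sum_congr rfl fun m _ => ?_
      rw [← Complex.exp_conj]
      simp only [map_mul, Complex.conj_I, Complex.conj_ofReal, hφ]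
      rw [show I * ((-(θ (a + m)) + 2 * Real.pi * (k + 1) * m : ℝ) : ℂ) =
        -I * (θ (a + m) : ℂ) + (((k + 1) * m : ℤ) : ℂ) * (2 * Real.pi * I) by push_cast; ring]
      rw [Complex.exp_add, Complex.exp_int_mul_two_pi_mul_I, mul_one]
    rw [e1, RCLike.norm_conj] at key
    exact key
  · intro m hm
    simp only [hφ]
    have := h1 (a + m) (by omega) (by omega)
    rw [show a + (m + 1) = a + m + 1 by omega]
    push_cast
    linarith
  · intro m hm
    simp only [hφ]
    have := h2 (a + m) (by omega) (by omega)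
    rw [show a + (m + 1) = a + m + 1 by omega]
    push_cast
    linarith
  · intro m hm
    simp only [hφ]
    have := h3 (a + m) (by omega) (by omega)
    rw [show a + (m + 1) = a + m + 1 by omega, show a + (m + 2) = a + m + 2 by omega]
    push_cast
    linarith

/-- growth of the differences -/
theorem diff_grow (d : ℕ → ℝ) (lam : ℝ) (a b : ℕ) (h : ∀ n, a ≤ n → n + 1 < b → lam ≤ d (n + 1) - d n) :
    ∀ m n, a ≤ n → n + m < b → m * lam ≤ d (n + m) - d n := by
  intro m
  induction m with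
  | zero => intro n _ _; simp
  | succ m ih =>
    intro n h1 h2
    have i1 := ih n h1 (by omega)
    have i2 := h (n + m) (by omega) (by omega)
    rw [show n + m + 1 = n + (m + 1) by omega] at i2
    push_cast
    linarith

theorem diff_mono (d : ℕ → ℝ) (lam : ℝ) (hl : 0 ≤ lam) (a b : ℕ)
    (h : ∀ n, a ≤ n → n + 1 < b → lam ≤ d (n + 1) - d n) :
    ∀ n m, a ≤ n → n ≤ m → m < b → d n ≤ d m := by
  intro n m h1 h2 h3
  obtain ⟨l, rfl⟩ : ∃ l, m = n + l := ⟨m - n, by omega⟩
  have := diff_grow d lam a b h l n h1 h3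
  have h4 : 0 ≤ l * lam := by positivity
  linarith

/-- few `n` with the difference in a short interval -/
theorem short_block (d : ℕ → ℝ) (lam : ℝ) (hl : 0 < lam) (a b : ℕ)
    (h : ∀ n, a ≤ n → n + 1 < b → lam ≤ d (n + 1) - d n) (u w : ℝ) (huw : u ≤ w)
    (h1 : ∀ n, a ≤ n → n < b → u ≤ d n) (h2 : ∀ n, a ≤ n → n < b → d n ≤ w) :
    ((b - a : ℕ) : ℝ) ≤ (w - u) / lam + 1 := by
  rcases Nat.lt_or_ge a b with hab | hab
  swap
  · rw [Nat.sub_eq_zero_of_le hab]
    have : 0 ≤ (w - u) / lam := div_nonneg (by linarith) hl.le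
    push_cast
    linarith
  obtain ⟨L, rfl⟩ : ∃ L, b = a + L + 1 := ⟨b - a - 1, by omega⟩
  have h3 := diff_grow d lam a (a + L + 1) h L a le_rfl (by omega)
  have h4 := h1 a le_rfl (by omega)
  have h5 := h2 (a + L) (by omega) (by omega)
  have h6 : (L : ℝ) ≤ (w - u) / lam := by
    rw [le_div_iff₀ hl]
    linarith
  rw [show a + L + 1 - a = L + 1 by omega]
  push_cast
  linarith

/-- one period -/
theorem one_period (θ : ℕ → ℝ) (k : ℤ) (lam : ℝ) (hl : 0 < lam) (hl1 : lam ≤ 1) (a b : ℕ) (hab : a ≤ b)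
    (h : ∀ n, a ≤ n → n + 1 < b → lam ≤ θ (n + 2) - 2 * θ (n + 1) + θ n)
    (h1 : ∀ n, a ≤ n → n < b → 2 * Real.pi * k - Real.sqrt lam ≤ θ (n + 1) - θ n)
    (h2 : ∀ n, a ≤ n → n < b → θ (n + 1) - θ n ≤ 2 * Real.pi * (k + 1) - Real.sqrt lam) :
    ‖ES θ a b‖ ≤ 21 / Real.sqrt lam := by
  have hs : 0 < Real.sqrt lam := Real.sqrt_pos.2 hl
  have hs1 : Real.sqrt lam ≤ 1 := Real.sqrt_le_one.2 hl1
  have hss : Real.sqrt lam * Real.sqrt lam = lam := Real.mul_self_sqrt hl.le
  set d : ℕ → ℝ := fun n => θ (n + 1) - θ n with hd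
  have hd' : ∀ n, a ≤ n → n + 1 < b → lam ≤ d (n + 1) - d n := by
    intro n n1 n2
    have := h n n1 n2
    simp only [hd]
    rw [show n + 1 + 1 = n + 2 by omega]
    linarith
  have hmono := diff_mono d lam hl.le a b hd'
  obtain ⟨c, c1, c2, c3, c4⟩ := mono_split d (2 * Real.pi * k + Real.sqrt lam) a b hab hmono
  obtain ⟨e, e1, e2, e3, e4⟩ := mono_split d (2 * Real.pi * k + Real.pi) c b c2
    (fun n m n1 n2 n3 => hmono n m (by omega) n2 n3)
  have b1 : ‖ES θ a c‖ ≤ 2 / Real.sqrt lam + 1 := by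
    refine (ES_le θ a c).trans ?_
    have := short_block d lam hl a c (fun n n1 n2 => hd' n n1 (by omega))
      (2 * Real.pi * k - Real.sqrt lam) (2 * Real.pi * k + Real.sqrt lam) (by linarith)
      (fun n n1 n2 => h1 n n1 (by omega)) (fun n n1 n2 => (c3 n n1 n2).le)
    refine this.trans (le_of_eq ?_)
    rw [show 2 * Real.pi * k + Real.sqrt lam - (2 * Real.pi * k - Real.sqrt lam) = 2 * Real.sqrt lam by ring]
    congr 1
    rw [div_eq_div_iff hl.ne' hs.ne', mul_assoc, hss]
  have b2 : ‖ES θ c e‖ ≤ 8 / Real.sqrt lam + 2 := by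
    refine kl_up θ k _ hs c e (fun n n1 n2 => ?_) (fun n n1 n2 => (e3 n n1 n2).le) (fun n n1 n2 => ?_)
    · exact c4 n n1 (by omega)
    · have := hd' n (by omega) (by omega)
      simp only [hd] at this
      rw [show n + 1 + 1 = n + 2 by omega] at this
      linarith
  have b3 : ‖ES θ e b‖ ≤ 8 / Real.sqrt lam := by
    refine kl_down θ k _ hs e b (fun n n1 n2 => h2 n (by omega) n2) (fun n n1 n2 => e4 n n1 n2) (fun n n1 n2 => ?_)
    have := hd' n (by omega) (by omega)
    simp only [hd] at this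
    rw [show n + 1 + 1 = n + 2 by omega] at this
    linarith
  rw [ES_split θ c1 c2, ES_split θ e1 e2]
  have b4 : (1 : ℝ) ≤ 1 / Real.sqrt lam := by rw [le_div_iff₀ hs]; linarith
  have b5 : 2 / Real.sqrt lam + 1 + (8 / Real.sqrt lam + 2 + 8 / Real.sqrt lam) ≤ 21 / Real.sqrt lam := by
    have e5 : 21 / Real.sqrt lam = 2 / Real.sqrt lam + 8 / Real.sqrt lam + 8 / Real.sqrt lam + 3 * (1 / Real.sqrt lam) := by ring
    linarith
  refine (norm_add_le _ _).trans ((add_le_add b1 ((norm_add_le _ _).trans (add_le_add b2 b3))).trans b5)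

/-- several periods -/
theorem periods (θ : ℕ → ℝ) (lam : ℝ) (hl : 0 < lam) (hl1 : lam ≤ 1) (b : ℕ) : ∀ (K : ℕ) (k : ℤ) (a : ℕ), a ≤ b →
    (∀ n, a ≤ n → n + 1 < b → lam ≤ θ (n + 2) - 2 * θ (n + 1) + θ n) →
    (∀ n, a ≤ n → n < b → 2 * Real.pi * k - Real.sqrt lam ≤ θ (n + 1) - θ n) →
    (∀ n, a ≤ n → n < b → θ (n + 1) - θ n ≤ 2 * Real.pi * (k + K + 1) - Real.sqrt lam) →
    ‖ES θ a b‖ ≤ (K + 1) * (21 / Real.sqrt lam) := by
  intro K
  induction K with
  | zero =>
    intro k a hab h h1 h2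
    have := one_period θ k lam hl hl1 a b hab h h1 (fun n n1 n2 => by simpa using h2 n n1 n2)
    simpa using this
  | succ K ih =>
    intro k a hab h h1 h2
    set d : ℕ → ℝ := fun n => θ (n + 1) - θ n with hd
    have hd' : ∀ n, a ≤ n → n + 1 < b → lam ≤ d (n + 1) - d n := by
      intro n n1 n2
      have := h n n1 n2
      simp only [hd]
      rw [show n + 1 + 1 = n + 2 by omega]
      linarith
    have hmono := diff_mono d lam hl.le a b hd'
    obtain ⟨c, c1, c2, c3, c4⟩ := mono_split d (2 * Real.pi * (k + 1) - Real.sqrt lam) a b hab hmono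
    have i1 := one_period θ k lam hl hl1 a c c1 (fun n n1 n2 => h n n1 (by omega))
      (fun n n1 n2 => h1 n n1 (by omega)) (fun n n1 n2 => (c3 n n1 n2).le)
    have i2 := ih (k + 1) c c2 (fun n n1 n2 => h n (by omega) n2)
      (fun n n1 n2 => by have := c4 n n1 n2; simp only [hd] at this; push_cast; exact this)
      (fun n n1 n2 => by
        have := h2 n (by omega) n2
        push_cast at this ⊢
        linarith)
    rw [ES_split θ c1 c2]
    refine (norm_add_le _ _).trans ((add_le_add i1 i2).trans (le_of_eq ?_))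
    push_cast
    ring

/-- **The second difference test.** -/
theorem sdt (θ : ℕ → ℝ) (N : ℕ) (lam C : ℝ) (hl : 0 < lam) (hC : 1 ≤ C)
    (h1 : ∀ n, n + 1 < N → lam ≤ θ (n + 2) - 2 * θ (n + 1) + θ n)
    (h2 : ∀ n, n + 1 < N → θ (n + 2) - 2 * θ (n + 1) + θ n ≤ C * lam) :
    ‖∑ n ∈ range N, Complex.exp (I * (θ n : ℂ))‖ ≤ 63 * (C * N * Real.sqrt lam + 1 / Real.sqrt lam) := by
  have hs : 0 < Real.sqrt lam := Real.sqrt_pos.2 hl
  have hss : Real.sqrt lam * Real.sqrt lam = lam := Real.mul_self_sqrt hl.le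
  have hN0 : (0 : ℝ) ≤ N := Nat.cast_nonneg _
  have hE : ∑ n ∈ range N, Complex.exp (I * (θ n : ℂ)) = ES θ 0 N := by
    unfold ES
    rw [Nat.Ico_zero_eq_range]
  rw [hE]
  rcases Nat.eq_zero_or_pos N with h0 | h0
  · subst h0
    have := ES_le θ 0 0
    simp only [Nat.sub_self, Nat.cast_zero] at this
    refine this.trans ?_
    positivity
  rcases lt_or_ge 1 lam with hl1 | hl1
  · have h3 : 1 ≤ Real.sqrt lam := by
      rw [Real.one_le_sqrt]
      exact hl1.le
    have h4 : (N : ℝ) ≤ C * N * Real.sqrt lam := by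
      have : 1 ≤ C * Real.sqrt lam := by nlinarith
      nlinarith
    have h5 : 0 < 1 / Real.sqrt lam := by positivity
    have h6 := ES_le θ 0 N
    rw [Nat.sub_zero] at h6
    linarith
  · set d : ℕ → ℝ := fun n => θ (n + 1) - θ n with hd
    have hpi := Real.pi_gt_three
    have hmono : ∀ n m, 0 ≤ n → n ≤ m → m < N → d n ≤ d m := by
      refine diff_mono d lam hl.le 0 N (fun n _ n2 => ?_)
      have := h1 n n2
      simp only [hd]
      rw [show n + 1 + 1 = n + 2 by omega]
      linarith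
    have hup : d (N - 1) ≤ d 0 + C * lam * N := by
      have h3 := diff_grow (fun n => -(d n)) (-(C * lam)) 0 N (fun n _ n2 => by
        have := h2 n n2
        simp only [hd]
        rw [show n + 1 + 1 = n + 2 by omega]
        linarith) (N - 1) 0 le_rfl (by omega)
      simp only [Nat.zero_add] at h3
      have h4 : ((N - 1 : ℕ) : ℝ) ≤ N := by exact_mod_cast Nat.sub_le _ _
      have h5 : 0 ≤ C * lam := by positivity
      nlinarith
    set k : ℤ := ⌊(d 0 + Real.sqrt lam) / (2 * Real.pi)⌋ with hk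
    set K : ℕ := ⌈C * lam * N / (2 * Real.pi)⌉₊ with hK
    have k1 : 2 * Real.pi * k ≤ d 0 + Real.sqrt lam := by
      have := Int.floor_le ((d 0 + Real.sqrt lam) / (2 * Real.pi))
      rw [← hk, le_div_iff₀ (by positivity)] at this
      linarith
    have k2 : d 0 + Real.sqrt lam ≤ 2 * Real.pi * (k + 1) := by
      have := (Int.lt_floor_add_one ((d 0 + Real.sqrt lam) / (2 * Real.pi))).le
      rw [← hk, div_le_iff₀ (by positivity)] at this
      linarith
    have k3 : C * lam * N ≤ 2 * Real.pi * K := by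
      have := Nat.le_ceil (C * lam * N / (2 * Real.pi))
      rw [← hK, div_le_iff₀ (by positivity)] at this
      linarith
    have k4 : (K : ℝ) ≤ C * lam * N / (2 * Real.pi) + 1 := by
      have := (Nat.ceil_lt_add_one (a := C * lam * N / (2 * Real.pi)) (by positivity)).le
      rwa [← hK] at this
    have := periods θ lam hl hl1 N K k 0 (Nat.zero_le _) (fun n _ n2 => h1 n n2)
      (fun n _ n2 => by
        have := hmono 0 n le_rfl (Nat.zero_le _) n2
        simp only [hd] at this k1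
        linarith)
      (fun n _ n2 => by
        have h3 := hmono n (N - 1) (Nat.zero_le _) (by omega) (by omega)
        have h4 : θ (n + 1) - θ n ≤ d (N - 1) := h3
        nlinarith)
    refine this.trans ?_
    have h6 : C * lam * N / (2 * Real.pi) ≤ C * lam * N := by
      apply div_le_self (by positivity)
      linarith
    have h7 : (K : ℝ) + 1 ≤ C * lam * N + 2 := by linarith
    have h8 : ((K : ℝ) + 1) * (21 / Real.sqrt lam) ≤ (C * lam * N + 2) * (21 / Real.sqrt lam) :=
      mul_le_mul_of_nonneg_right h7 (by positivity)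
    refine h8.trans ?_
    have h9 : (C * lam * N + 2) * (21 / Real.sqrt lam) = 21 * (C * N * Real.sqrt lam) + 42 * (1 / Real.sqrt lam) := by
      have : C * lam * N * (21 / Real.sqrt lam) = 21 * (C * N * Real.sqrt lam) := by
        rw [mul_div_assoc', div_eq_iff hs.ne']
        rw [show 21 * (C * N * Real.sqrt lam) * Real.sqrt lam = 21 * C * N * (Real.sqrt lam * Real.sqrt lam) by ring, hss]
        ring
      rw [add_mul, this]
      ring
    rw [h9]
    have h10 : 0 < 1 / Real.sqrt lam := by positivity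
    have h11 : 0 ≤ C * N * Real.sqrt lam := by positivity
    linarith

end Pool.Agent.Lib.G3
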