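import Pool.Agent.Lib.G3.TwB2
import Pool.Agent.Lib.SW.Vaughan

/-!
# G3 / TwII: the type II sum of Vaughan's identity
-/

set_option autoImplicit false

open Finset
open scoped ArithmeticFunction.vonMangoldt

namespace Pool.Agent.Lib.G3

/-- dyadic blocks -/
theorem tw_blocks (F : ℕ → ℂ) {E : ℝ} (hE : 0 ≤ E) (R : ℕ) : ∀ (k D : ℕ), R ≤ 2 ^ k * D →
    (∀ D', D ≤ D' → D' < R → ‖∑ d ∈ Ioc D' (min (2 * D') R), F d‖ ≤ E) → ‖∑ d ∈ Ioc D R, F d‖ ≤ k * E := by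
  intro k
  induction k with
  | zero =>
    intro D hR _
    rw [Ioc_eq_empty (by omega)]
    simp
  | succ k ih =>
    intro D hR h
    by_cases hDR : D < R
    · rcases Nat.lt_or_ge R (2 * D) with h2 | h2
      · have h3 := h D le_rfl hDR
        rw [min_eq_right h2.le] at h3
        refine h3.trans ?_
        push_cast
        nlinarith [mul_nonneg (Nat.cast_nonneg (α := ℝ) k) hE]
      · have h3 := h D le_rfl hDR
        rw [min_eq_left h2] at h3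
        have h4 := ih (2 * D) (by rw [pow_succ] at hR; nlinarith) fun D' h5 h6 => h D' (by omega) h6
        have h5 : ∑ d ∈ Ioc D R, F d = ∑ d ∈ Ioc D (2 * D), F d + ∑ d ∈ Ioc (2 * D) R, F d :=
          (sum_Ioc_consecutive F (by omega) h2).symm
        rw [h5]
        refine (norm_add_le _ _).trans ?_
        push_cast
        linarith
    · rw [Ioc_eq_empty hDR]
      simp only [sum_empty, norm_zero]
      positivity

theorem tw_vm {C1 : ℝ} (hC1 : ∀ X : ℕ, 1 ≤ X → ∑ n ∈ Icc 1 X, (Λ n) ^ 2 ≤ C1 * X * (1 + Real.log X)) (hC0 : 0 < C1)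
    {M N : ℕ} (hM : M ≤ 2 * N) (hN : 1 ≤ N) :
    ∑ n ∈ Icc 1 M, ‖((Λ n : ℝ) : ℂ)‖ ^ 2 ≤ C1 * M * (1 + Real.log (2 * N)) := by
  have h2N : (2 : ℝ) ≤ 2 * N := by
    have : (1 : ℝ) ≤ N := by exact_mod_cast hN
    linarith
  have hl : 0 ≤ Real.log (2 * N) := Real.log_nonneg (by linarith)
  rcases Nat.eq_zero_or_pos M with h | h
  · subst h
    simp
  · have h1 := hC1 M h
    have e : ∑ n ∈ Icc 1 M, ‖((Λ n : ℝ) : ℂ)‖ ^ 2 = ∑ n ∈ Icc 1 M, (Λ n) ^ 2 := by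
      refine sum_congr rfl fun n _ => ?_
      rw [Complex.norm_real, Real.norm_eq_abs, sq_abs]
    rw [e]
    refine h1.trans ?_
    have h2 : Real.log M ≤ Real.log (2 * N) := by
      apply Real.log_le_log (by exact_mod_cast h)
      exact_mod_cast hM
    have h3 : 0 ≤ C1 * M := by positivity
    nlinarith

theorem tw_bU {M N : ℕ} (U : ℕ) (hM : M ≤ 2 * N) (hN : 1 ≤ N) :
    ∑ n ∈ Icc 1 M, ‖((SW.bU U n : ℝ) : ℂ)‖ ^ 2 ≤ M * (1 + Real.log (2 * N)) ^ 3 := by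
  have h2N : (2 : ℝ) ≤ 2 * N := by
    have : (1 : ℝ) ≤ N := by exact_mod_cast hN
    linarith
  have hl : 0 ≤ Real.log (2 * N) := Real.log_nonneg (by linarith)
  rcases Nat.eq_zero_or_pos M with h | h
  · subst h
    simp
  · have h1 := SW.sum_divisors_sq_le M h
    have e : ∑ n ∈ Icc 1 M, ‖((SW.bU U n : ℝ) : ℂ)‖ ^ 2 ≤ ∑ n ∈ Icc 1 M, ((n.divisors.card : ℝ)) ^ 2 := by
      refine sum_le_sum fun n _ => ?_
      rw [Complex.norm_real, Real.norm_eq_abs]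
      exact pow_le_pow_left₀ (abs_nonneg _) (SW.abs_bU_le U n) 2
    refine e.trans (h1.trans ?_)
    have h2 : Real.log M ≤ Real.log (2 * N) := by
      apply Real.log_le_log (by exact_mod_cast h)
      exact_mod_cast hM
    have h3 : 0 ≤ Real.log M := Real.log_nonneg (by exact_mod_cast h)
    gcongr

theorem tw_II : ∃ C1 : ℝ, 0 < C1 ∧ ∀ {c : ℝ}, 0 < c → c ≤ 1 → ∀ {N : ℕ}, 1 ≤ N → ∀ {t : ℝ}, 0 < t → ∀ (α : ℝ) (U V W Y : ℕ),
    1 ≤ W → W ≤ U → W ≤ V → (Y : ℝ) ≤ (1 - c) * N →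
    ‖∑ l ∈ Ioc V Y, ((Λ l : ℝ) : ℂ) * ∑ j ∈ Ioc U (Y / l), ((SW.bU U j : ℝ) : ℂ) * ph N t α (l * j)‖ ≤
      2 * (Nat.log 2 N + 1) * Real.sqrt (2 * C1 * N * (1 + Real.log (2 * N)) ^ 4 *
        (256 / c ^ 3 * (N / W + 3 * Real.sqrt N * Real.sqrt t + N / Real.sqrt t))) := by
  obtain ⟨C1, hC0, hC1⟩ := SW.sum_vonMangoldt_sq_le
  refine ⟨C1, hC0, ?_⟩
  intro c hc hc1 N hN t ht α U V W Y hW hWU hWV hY
  have hN0 : (0 : ℝ) < N := by exact_mod_cast hN
  have hN1 : (1 : ℝ) ≤ N := by exact_mod_cast hN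
  have hW0 : (0 : ℝ) < W := by exact_mod_cast hW
  have hst : 0 < Real.sqrt t := Real.sqrt_pos.2 ht
  have hsN : 1 ≤ Real.sqrt N := by
    rw [show (1 : ℝ) = Real.sqrt 1 by simp]
    exact Real.sqrt_le_sqrt hN1
  have hYN : (Y : ℝ) ≤ N := by nlinarith
  have hYN' : Y ≤ N := by exact_mod_cast hYN
  set ℓ : ℝ := 1 + Real.log (2 * N) with hℓ
  have hℓ0 : 0 ≤ ℓ := by
    have : 0 ≤ Real.log (2 * N) := Real.log_nonneg (by linarith)
    linarith
  set Q : ℝ := 2 * C1 * N * ℓ ^ 4 *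
        (256 / c ^ 3 * (N / W + 3 * Real.sqrt N * Real.sqrt t + N / Real.sqrt t)) with hQ
  have hQ0 : 0 ≤ Q := by positivity
  have hE0 : 0 ≤ Real.sqrt Q := Real.sqrt_nonneg _
  -- numerical form of the block bound
  have hblock : ∀ D : ℕ, W ≤ D → (D : ℝ) ≤ 3 * Real.sqrt N → D ≤ N → ∀ A Bs : ℝ, 0 ≤ A → 0 ≤ Bs →
      A * Bs ≤ 2 * C1 * N * ℓ ^ 4 →
      A * Bs * (256 / c ^ 3 * (N / D + D * Real.sqrt t + N / Real.sqrt t)) ≤ Q := by
    intro D hWD hD3 hDN A Bs hA hBs hAB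
    have hD0 : (0 : ℝ) < D := by
      have : 1 ≤ D := hW.trans hWD
      exact_mod_cast this
    have h1 : (N : ℝ) / D ≤ N / W := by
      apply div_le_div_of_nonneg_left hN0.le hW0
      exact_mod_cast hWD
    have h2 : (D : ℝ) * Real.sqrt t ≤ 3 * Real.sqrt N * Real.sqrt t := mul_le_mul_of_nonneg_right hD3 hst.le
    rw [hQ]
    gcongr
  by_cases hVY : V ≤ Y
  swap
  · rw [Ioc_eq_empty (by omega)]
    simp only [sum_empty, norm_zero]
    positivity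
  have hY1 : 1 ≤ Y := by omega
  set R : ℕ := Nat.sqrt Y with hR
  have hR1 : 1 ≤ R := by
    rw [hR, Nat.le_sqrt]
    omega
  have hRR : R * R ≤ Y := Nat.sqrt_le Y
  have hRY : R ≤ Y := by nlinarith
  have hRN : (R : ℝ) ≤ Real.sqrt N := by
    apply Real.le_sqrt_of_sq_le
    have : ((R * R : ℕ) : ℝ) ≤ Y := by exact_mod_cast hRR
    push_cast at this
    nlinarith
  have hlt : Y < (R + 1) * (R + 1) := Nat.lt_succ_sqrt Y
  have hYR : Y / R ≤ R + 2 := by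
    rw [Nat.div_le_iff_le_mul_add_pred hR1]
    have : (R + 1) * (R + 1) = R * R + 2 * R + 1 := by ring
    have h3 : R * (R + 2) = R * R + 2 * R := by ring
    omega
  set R' : ℕ := max V R with hR'
  have hR'Y : R' ≤ Y := max_le hVY hRY
  have hR'1 : 1 ≤ R' := hR1.trans (le_max_right _ _)
  have hk : ∀ M : ℕ, M ≤ N → ∀ D : ℕ, 1 ≤ D → M ≤ 2 ^ (Nat.log 2 N + 1) * D := by
    intro M hM D hD
    have h1 : N < 2 ^ (Nat.log 2 N + 1) := Nat.lt_pow_succ_log_self (by norm_num) N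
    nlinarith
  -- part A
  have hA : ‖∑ l ∈ Ioc V R', ((Λ l : ℝ) : ℂ) * ∑ j ∈ Ioc U (Y / l), ((SW.bU U j : ℝ) : ℂ) * ph N t α (l * j)‖ ≤
      ((Nat.log 2 N + 1 : ℕ) : ℝ) * Real.sqrt Q := by
    refine tw_blocks _ hE0 R' _ V (hk R' (hR'Y.trans hYN') V (hW.trans hWV)) fun D' hD1 hD2 => ?_
    have hD'R : D' < R := by
      rcases lt_max_iff.mp hD2 with h | h
      · omega
      · exact h
    have hD'1 : 1 ≤ D' := by omega
    have hD'0 : (0 : ℝ) < D' := by exact_mod_cast hD'1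
    apply Real.le_sqrt_of_sq_le
    refine (tw_bil hc hc1 hN ht α hD'1 (S := Ioc D' (min (2 * D') R')) (Ioc_subset_Ioc_right (min_le_left _ _))
      (fun l => ((Λ l : ℝ) : ℂ)) (fun j => ((SW.bU U j : ℝ) : ℂ)) U Y hY).trans ?_
    have hD'N : D' ≤ N := by omega
    refine hblock D' (by omega) ?_ hD'N _ _ (sum_nonneg fun _ _ => by positivity) (sum_nonneg fun _ _ => by positivity) ?_
    · have : (D' : ℝ) ≤ R := by exact_mod_cast hD'R.le
      linarith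
    · have h1 : ∑ d ∈ Ioc D' (min (2 * D') R'), ‖((Λ d : ℝ) : ℂ)‖ ^ 2 ≤ C1 * (2 * D' : ℕ) * ℓ := by
        refine le_trans ?_ (tw_vm hC1 hC0 (M := 2 * D') (N := N) (by omega) hN)
        refine sum_le_sum_of_subset_of_nonneg ?_ fun _ _ _ => by positivity
        intro x hx
        rw [mem_Ioc] at hx
        rw [mem_Icc]
        have := min_le_left (2 * D') R'
        omega
      have h2 : ∑ m ∈ Icc 1 (Y / D'), ‖((SW.bU U m : ℝ) : ℂ)‖ ^ 2 ≤ (N : ℝ) / D' * ℓ ^ 3 := by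
        refine (tw_bU U (M := Y / D') (N := N) ((Nat.div_le_self _ _).trans (by omega)) hN).trans ?_
        refine mul_le_mul_of_nonneg_right ?_ (by positivity)
        refine (Nat.cast_div_le).trans ?_
        gcongr
      calc _ ≤ (C1 * (2 * D' : ℕ) * ℓ) * ((N : ℝ) / D' * ℓ ^ 3) :=
            mul_le_mul h1 h2 (sum_nonneg fun _ _ => by positivity) (by positivity)
        _ = 2 * C1 * N * ℓ ^ 4 := by
            push_cast
            field_simp
  -- part B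
  have hswap : ∑ l ∈ Ioc R' Y, ((Λ l : ℝ) : ℂ) * ∑ j ∈ Ioc U (Y / l), ((SW.bU U j : ℝ) : ℂ) * ph N t α (l * j) =
      ∑ j ∈ Ioc U (Y / R'), ((SW.bU U j : ℝ) : ℂ) * ∑ l ∈ Ioc R' (Y / j), ((Λ l : ℝ) : ℂ) * ph N t α (j * l) := by
    simp_rw [mul_sum]
    rw [sum_comm' (s' := fun j => Ioc R' (Y / j)) (t' := Ioc U (Y / R'))]
    · refine sum_congr rfl fun j _ => sum_congr rfl fun l _ => ?_
      rw [mul_comm l j]
      ring
    · intro l j
      simp only [mem_Ioc]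
      constructor
      · rintro ⟨⟨h1, h2⟩, h3, h4⟩
        have h5 : j * l ≤ Y := (Nat.le_div_iff_mul_le (by omega)).mp h4
        refine ⟨⟨h1, (Nat.le_div_iff_mul_le (by omega)).mpr (by rw [mul_comm]; exact h5)⟩, h3,
          (Nat.le_div_iff_mul_le (by omega)).mpr ?_⟩
        exact (Nat.mul_le_mul_left j h1.le).trans h5
      · rintro ⟨⟨h1, h2⟩, h3, h4⟩
        have h5 : l * j ≤ Y := (Nat.le_div_iff_mul_le (by omega)).mp h2
        refine ⟨⟨h1, ?_⟩, h3, (Nat.le_div_iff_mul_le (by omega)).mpr (by rw [mul_comm]; exact h5)⟩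
        nlinarith
  have hB : ‖∑ j ∈ Ioc U (Y / R'), ((SW.bU U j : ℝ) : ℂ) * ∑ l ∈ Ioc R' (Y / j), ((Λ l : ℝ) : ℂ) * ph N t α (j * l)‖ ≤
      ((Nat.log 2 N + 1 : ℕ) : ℝ) * Real.sqrt Q := by
    refine tw_blocks _ hE0 (Y / R') _ U (hk _ ((Nat.div_le_self _ _).trans hYN') U (hW.trans hWU)) fun D' hD1 hD2 => ?_
    have hD'1 : 1 ≤ D' := by omega
    have hD'0 : (0 : ℝ) < D' := by exact_mod_cast hD'1
    have hYR' : Y / R' ≤ Y / R := Nat.div_le_div_left (le_max_right _ _) hR1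
    have hD'R : D' ≤ R + 1 := by omega
    have hD'N : D' ≤ N := by
      have : Y / R' ≤ Y := Nat.div_le_self _ _
      omega
    apply Real.le_sqrt_of_sq_le
    refine (tw_bil hc hc1 hN ht α hD'1 (S := Ioc D' (min (2 * D') (Y / R'))) (Ioc_subset_Ioc_right (min_le_left _ _))
      (fun j => ((SW.bU U j : ℝ) : ℂ)) (fun l => ((Λ l : ℝ) : ℂ)) R' Y hY).trans ?_
    refine hblock D' (by omega) ?_ hD'N _ _ (sum_nonneg fun _ _ => by positivity) (sum_nonneg fun _ _ => by positivity) ?_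
    · have : (D' : ℝ) ≤ R + 1 := by exact_mod_cast hD'R
      linarith
    · have h1 : ∑ d ∈ Ioc D' (min (2 * D') (Y / R')), ‖((SW.bU U d : ℝ) : ℂ)‖ ^ 2 ≤ (2 * D' : ℕ) * ℓ ^ 3 := by
        refine le_trans ?_ (tw_bU U (M := 2 * D') (N := N) (by omega) hN)
        refine sum_le_sum_of_subset_of_nonneg ?_ fun _ _ _ => by positivity
        intro x hx
        rw [mem_Ioc] at hx
        rw [mem_Icc]
        have := min_le_left (2 * D') (Y / R')
        omega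
      have h2 : ∑ m ∈ Icc 1 (Y / D'), ‖((Λ m : ℝ) : ℂ)‖ ^ 2 ≤ C1 * ((N : ℝ) / D') * ℓ := by
        refine (tw_vm hC1 hC0 (M := Y / D') (N := N) ((Nat.div_le_self _ _).trans (by omega)) hN).trans ?_
        refine mul_le_mul_of_nonneg_right ?_ (by positivity)
        refine mul_le_mul_of_nonneg_left ?_ hC0.le
        refine (Nat.cast_div_le).trans ?_
        gcongr
      calc _ ≤ ((2 * D' : ℕ) * ℓ ^ 3) * (C1 * ((N : ℝ) / D') * ℓ) :=
            mul_le_mul h1 h2 (sum_nonneg fun _ _ => by positivity) (by positivity)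
        _ = 2 * C1 * N * ℓ ^ 4 := by
            push_cast
            field_simp
  have hsplit : ∑ l ∈ Ioc V Y, ((Λ l : ℝ) : ℂ) * ∑ j ∈ Ioc U (Y / l), ((SW.bU U j : ℝ) : ℂ) * ph N t α (l * j) =
      ∑ l ∈ Ioc V R', ((Λ l : ℝ) : ℂ) * ∑ j ∈ Ioc U (Y / l), ((SW.bU U j : ℝ) : ℂ) * ph N t α (l * j) +
      ∑ l ∈ Ioc R' Y, ((Λ l : ℝ) : ℂ) * ∑ j ∈ Ioc U (Y / l), ((SW.bU U j : ℝ) : ℂ) * ph N t α (l * j) :=
    (sum_Ioc_consecutive _ (le_max_left _ _) hR'Y).symm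
  rw [hsplit, hswap]
  refine (norm_add_le _ _).trans ((add_le_add hA hB).trans (le_of_eq ?_))
  push_cast
  ring

end Pool.Agent.Lib.G3
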