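import Pool.Agent.Lib.G3.TwI
import Pool.Agent.Lib.G3.TwII
import Pool.Agent.Lib.DN.Dens

/-!
# G3 / Tw: the twist theorem

`∑_{m ≤ Y} Λ(m) exp(i (t log(N - m) + 2πβ m)) ≪ X (log X)^(-A)` for `(log X)^B ≤ |t| ≤ X (log X)^(-B)`, every real `β`.
-/

set_option autoImplicit false

open Finset
open scoped ArithmeticFunction.vonMangoldt ArithmeticFunction.Moebius

namespace Pool.Agent.Lib.G3

theorem twist_pos (A : ℕ) : ∃ B X₀ : ℕ, ∀ X : ℕ, X₀ ≤ X → ∀ N : ℕ, X ≤ N → N ≤ 2 * X → ∀ (t α : ℝ),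
    (Real.log X) ^ B ≤ t → t ≤ X / (Real.log X) ^ B → ∀ Y : ℕ, Y + X / 600 ≤ N →
    ‖∑ m ∈ Icc 1 Y, ((Λ m : ℝ) : ℂ) * ph N t α m‖ ≤ X / (Real.log X) ^ A := by
  obtain ⟨C1, hC0, hII⟩ := tw_II
  set b : ℕ := 2 * A + 12 with hb
  set B' : ℕ := 2 * b + A + 2 with hB'
  set C2 : ℝ := 2 * C1 * 2 * 81 * (256 * 1400 ^ 3) * 11 with hC2
  have hC20 : 0 ≤ C2 := by positivity
  have hg := DN.dens_growth 32 (b + A + 1)
  have hl : ∀ᶠ x : ℝ in Filter.atTop, (10 ^ 12 + 28 * Real.sqrt C2 : ℝ) ≤ Real.log x :=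
    Real.tendsto_log_atTop.eventually (Filter.eventually_ge_atTop _)
  obtain ⟨x1, hx1⟩ := Filter.eventually_atTop.1 (hg.and hl)
  refine ⟨2 * B', max ⌈x1⌉₊ 4200, ?_⟩
  intro X hX N hXN hN2 t α ht1 ht2 Y hY
  have hX4200 : 4200 ≤ X := (le_max_right _ _).trans hX
  have hXx1 : x1 ≤ (X : ℝ) := (Nat.le_ceil _).trans (by exact_mod_cast (le_max_left _ _).trans hX)
  obtain ⟨hg1, hl1⟩ := hx1 X hXx1
  set L : ℝ := Real.log X with hL
  have hsC : 0 ≤ Real.sqrt C2 := Real.sqrt_nonneg _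
  have hL12 : (10 : ℝ) ^ 12 ≤ L := by linarith
  have hL0 : 0 < L := by linarith [show (0 : ℝ) < 10 ^ 12 by norm_num]
  have hL1 : 1 ≤ L := by linarith [show (1 : ℝ) ≤ 10 ^ 12 by norm_num]
  have hXr : (4200 : ℝ) ≤ X := by exact_mod_cast hX4200
  have hX0 : (0 : ℝ) < X := by linarith
  have hXNr : (X : ℝ) ≤ N := by exact_mod_cast hXN
  have hN2r : (N : ℝ) ≤ 2 * X := by exact_mod_cast hN2
  have hN0 : (0 : ℝ) < N := by linarith
  have hN1 : 1 ≤ N := by omega
  have ht0 : 0 < t := lt_of_lt_of_le (by positivity) ht1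
  have hst : 0 < Real.sqrt t := Real.sqrt_pos.2 ht0
  -- the constant c
  have hYc : (Y : ℝ) ≤ (1 - 1 / 1400) * N := by
    have h1 : ((Y + X / 600 : ℕ) : ℝ) ≤ N := by exact_mod_cast hY
    push_cast at h1
    have h2 : (X : ℝ) / 600 < ((X / 600 : ℕ) : ℝ) + 1 := by
      have := Nat.lt_floor_add_one ((X : ℝ) / 600)
      rw [show ((600 : ℝ)) = ((600 : ℕ) : ℝ) by norm_num, Nat.floor_div_eq_div] at this
      exact this
    linarith
  have hYN : Y ≤ N := by omega
  -- square roots of t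
  have hst1 : L ^ B' ≤ Real.sqrt t := by
    apply Real.le_sqrt_of_sq_le
    rw [← pow_mul, mul_comm B' 2]
    exact ht1
  have hst2 : Real.sqrt t ≤ Real.sqrt X / L ^ B' := by
    rw [Real.sqrt_le_left (by positivity), div_pow, Real.sq_sqrt hX0.le, ← pow_mul, mul_comm B' 2]
    exact ht2
  have hsX : Real.sqrt X ≤ X := by
    rw [Real.sqrt_le_left hX0.le]
    nlinarith
  have hLB : 0 < L ^ B' := by positivity
  have hNst : (N : ℝ) / Real.sqrt t ≤ 2 * X / L ^ B' := by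
    rw [div_le_div_iff₀ hst hLB]
    nlinarith [mul_le_mul hN2r hst1 hLB.le (by positivity)]
  -- logarithms
  have hlogN : Real.log N ≤ 2 * L := by
    have h1 : Real.log N ≤ Real.log (X * X) := Real.log_le_log hN0 (by nlinarith)
    rw [Real.log_mul hX0.ne' hX0.ne'] at h1
    linarith
  have hlogN0 : 0 ≤ Real.log N := Real.log_nonneg (by linarith)
  have hlog2N : Real.log (2 * N) ≤ 2 * L := by
    have h1 : Real.log (2 * N) ≤ Real.log (X * X) := Real.log_le_log (by linarith) (by nlinarith)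
    rw [Real.log_mul hX0.ne' hX0.ne'] at h1
    linarith
  have hlog2N0 : 0 ≤ Real.log (2 * N) := Real.log_nonneg (by linarith)
  -- the parameter U
  have hLb1 : (1 : ℝ) ≤ L ^ b := one_le_pow₀ hL1
  set U : ℕ := ⌊L ^ b⌋₊ with hU
  have hU1 : 1 ≤ U := by
    rw [hU, Nat.one_le_floor_iff]
    exact hLb1
  have hUr : (U : ℝ) ≤ L ^ b := Nat.floor_le (by positivity)
  have hUl : L ^ b / 2 ≤ U := by
    have h1 : L ^ b < U + 1 := Nat.lt_floor_add_one _
    have h2 : (1 : ℝ) ≤ U := by exact_mod_cast hU1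
    linarith
  have hU0 : (0 : ℝ) < U := by exact_mod_cast hU1
  -- the three parts
  have hV := SW.vaughan U U Y (ph N t α)
  have hI := tw_I (c := 1 / 1400) (by norm_num) (by norm_num) hN1 ht0 α U U Y hYc
  have hJ := hII (c := 1 / 1400) (by norm_num) (by norm_num) hN1 ht0 α U U U Y hU1 le_rfl le_rfl hYc
  have hsplit : ∑ m ∈ Icc 1 Y, ((Λ m : ℝ) : ℂ) * ph N t α m =
      ∑ m ∈ Icc 1 (min U Y), ((Λ m : ℝ) : ℂ) * ph N t α m + ∑ m ∈ Ioc U Y, ((Λ m : ℝ) : ℂ) * ph N t α m := by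
    have e : ∀ k : ℕ, Icc 1 k = Ioc 0 k := fun k => by
      ext n
      simp only [mem_Icc, mem_Ioc]
      omega
    rw [e, e]
    rcases le_total U Y with h | h
    · rw [min_eq_left h]
      exact (sum_Ioc_consecutive _ (Nat.zero_le _) h).symm
    · rw [min_eq_right h, Ioc_eq_empty (a := U) (b := Y) (by omega)]
      simp
  have hsmall : ‖∑ m ∈ Icc 1 (min U Y), ((Λ m : ℝ) : ℂ) * ph N t α m‖ ≤ L ^ b * (2 * L) := by
    calc ‖∑ m ∈ Icc 1 (min U Y), ((Λ m : ℝ) : ℂ) * ph N t α m‖ ≤ ∑ m ∈ Icc 1 (min U Y), 2 * L := by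
          refine (norm_sum_le _ _).trans (sum_le_sum fun m hm => ?_)
          rw [mem_Icc] at hm
          rw [norm_mul, ph_norm, mul_one, Complex.norm_real, Real.norm_of_nonneg ArithmeticFunction.vonMangoldt_nonneg]
          refine ArithmeticFunction.vonMangoldt_le_log.trans (le_trans ?_ hlogN)
          apply Real.log_le_log (by exact_mod_cast hm.1)
          have : m ≤ N := by
            have := min_le_right U Y
            omega
          exact_mod_cast this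
      _ = ((min U Y : ℕ) : ℝ) * (2 * L) := by
          rw [sum_const, nsmul_eq_mul, Nat.card_Icc, Nat.add_sub_cancel]
      _ ≤ L ^ b * (2 * L) := by
          refine mul_le_mul_of_nonneg_right ?_ (by positivity)
          have h1 : ((min U Y : ℕ) : ℝ) ≤ U := by exact_mod_cast min_le_left _ _
          exact h1.trans hUr
  have hLA : 0 < L ^ A := by positivity
  -- small part
  have hs1 : L ^ b * (2 * L) ≤ X / L ^ A / 4 := by
    rw [div_div, le_div_iff₀ (by positivity)]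
    have h1 : L ^ b * (2 * L) * (L ^ A * 4) = 8 * L ^ (b + A + 1) := by
      rw [pow_succ, pow_add]
      ring
    rw [h1]
    have h2 : 0 < L ^ (b + A + 1) := by positivity
    have h3 : (1 : ℝ) ≤ (X : ℝ) ^ (1 / 2 : ℝ) := Real.one_le_rpow (by linarith) (by norm_num)
    nlinarith [mul_pos h2 (lt_of_lt_of_le one_pos h3)]
  -- type I
  have hI2 : 64 * (Real.sqrt t / (1 / 1400) ^ 2 + N / Real.sqrt t) * (2 * U + U * U) * Real.log N ≤ X / L ^ A / 4 := by
    have h1 : Real.sqrt t / (1 / 1400 : ℝ) ^ 2 + N / Real.sqrt t ≤ 1960002 * (X / L ^ B') := by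
      have h2 : Real.sqrt t / (1 / 1400 : ℝ) ^ 2 = 1960000 * Real.sqrt t := by
        norm_num
        ring
      have h3 : Real.sqrt t ≤ X / L ^ B' := hst2.trans (div_le_div_of_nonneg_right hsX hLB.le)
      have h4 : 2 * (X : ℝ) / L ^ B' = 2 * (X / L ^ B') := by ring
      rw [h2]
      linarith
    have h2 : 2 * (U : ℝ) + U * U ≤ 3 * L ^ (2 * b) := by
      have h3 : (U : ℝ) * U ≤ L ^ (2 * b) := by
        rw [two_mul, pow_add]
        exact mul_le_mul hUr hUr hU0.le (by positivity)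
      have h4 : (U : ℝ) ≤ L ^ (2 * b) := hUr.trans (pow_le_pow_right₀ hL1 (by omega))
      linarith
    have h5 : 64 * (Real.sqrt t / (1 / 1400 : ℝ) ^ 2 + N / Real.sqrt t) * (2 * U + U * U) * Real.log N ≤
        64 * (1960002 * (X / L ^ B')) * (3 * L ^ (2 * b)) * (2 * L) := by
      gcongr
    refine h5.trans ?_
    have h6 : 64 * (1960002 * ((X : ℝ) / L ^ B')) * (3 * L ^ (2 * b)) * (2 * L) = 752640768 * (X / L ^ (A + 1)) := by
      have h7 : L ^ B' = L ^ (2 * b) * L * L ^ (A + 1) := by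
        rw [hB', ← pow_succ, ← pow_add]
        congr 1
        omega
      rw [h7]
      field_simp
      ring
    rw [h6]
    have h8 : (X : ℝ) / L ^ (A + 1) = X / L ^ A / L := by
      rw [pow_succ, div_div]
    rw [h8]
    have h9 : 0 ≤ (X : ℝ) / L ^ A := by positivity
    have h10 : (X : ℝ) / L ^ A / L ≤ X / L ^ A / 10 ^ 12 := by gcongr
    linarith
  -- type II
  have hJ2 : 2 * ((Nat.log 2 N : ℝ) + 1) * Real.sqrt (2 * C1 * N * (1 + Real.log (2 * N)) ^ 4 *
        (256 / (1 / 1400) ^ 3 * (N / U + 3 * Real.sqrt N * Real.sqrt t + N / Real.sqrt t))) ≤ X / L ^ A / 4 := by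
    have hLb : 0 < L ^ b := by positivity
    have hbB : L ^ b ≤ L ^ B' := pow_le_pow_right₀ hL1 (by omega)
    have h1 : (N : ℝ) / U ≤ 4 * (X / L ^ b) := by
      rw [mul_div_assoc', div_le_div_iff₀ hU0 hLb]
      nlinarith [mul_le_mul hN2r hUl (by positivity) (by positivity : (0:ℝ) ≤ 2 * X), mul_le_mul_of_nonneg_right hN2r hLb.le]
    have h2 : 3 * Real.sqrt N * Real.sqrt t ≤ 5 * (X / L ^ b) := by
      have h3 : Real.sqrt N ≤ 3 / 2 * Real.sqrt X := by
        rw [show (3 : ℝ) / 2 * Real.sqrt X = Real.sqrt (9 / 4 * X) by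
          rw [Real.sqrt_mul (by norm_num), show (9 : ℝ) / 4 = (3 / 2) ^ 2 by norm_num, Real.sqrt_sq (by norm_num)]]
        apply Real.sqrt_le_sqrt
        linarith
      have h4 : Real.sqrt X * Real.sqrt X = X := Real.mul_self_sqrt hX0.le
      calc 3 * Real.sqrt N * Real.sqrt t ≤ 3 * (3 / 2 * Real.sqrt X) * (Real.sqrt X / L ^ B') := by gcongr
        _ = 9 / 2 * (Real.sqrt X * Real.sqrt X / L ^ B') := by ring
        _ = 9 / 2 * (X / L ^ B') := by rw [h4]
        _ ≤ 5 * (X / L ^ b) := by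
          have h5 : (X : ℝ) / L ^ B' ≤ X / L ^ b := div_le_div_of_nonneg_left hX0.le hLb hbB
          have h6 : 0 ≤ (X : ℝ) / L ^ b := by positivity
          linarith
    have h3 : (N : ℝ) / Real.sqrt t ≤ 2 * (X / L ^ b) := by
      have h5 : (X : ℝ) / L ^ B' ≤ X / L ^ b := div_le_div_of_nonneg_left hX0.le hLb hbB
      have h4 : 2 * (X : ℝ) / L ^ B' = 2 * (X / L ^ B') := by ring
      linarith
    have h4 : (N : ℝ) / U + 3 * Real.sqrt N * Real.sqrt t + N / Real.sqrt t ≤ 11 * (X / L ^ b) := by linarith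
    have h5 : 1 + Real.log (2 * N) ≤ 3 * L := by linarith
    have h6 : 2 * C1 * N * (1 + Real.log (2 * N)) ^ 4 *
        (256 / (1 / 1400) ^ 3 * (N / U + 3 * Real.sqrt N * Real.sqrt t + N / Real.sqrt t)) ≤
        2 * C1 * (2 * X) * (3 * L) ^ 4 * (256 / (1 / 1400) ^ 3 * (11 * (X / L ^ b))) := by
      gcongr
    have h7 : 2 * C1 * (2 * X) * (3 * L) ^ 4 * (256 / (1 / 1400) ^ 3 * (11 * (X / L ^ b))) =
        C2 * (X / L ^ (A + 4)) ^ 2 := by
      have h8 : L ^ b = L ^ 4 * (L ^ (A + 4)) ^ 2 := by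
        rw [hb, ← pow_mul, ← pow_add]
        congr 1
        omega
      rw [h8, hC2]
      field_simp
      ring
    have h8 : Real.sqrt (2 * C1 * N * (1 + Real.log (2 * N)) ^ 4 *
        (256 / (1 / 1400) ^ 3 * (N / U + 3 * Real.sqrt N * Real.sqrt t + N / Real.sqrt t))) ≤
        Real.sqrt C2 * (X / L ^ (A + 4)) := by
      refine (Real.sqrt_le_sqrt (h6.trans (le_of_eq h7))).trans (le_of_eq ?_)
      rw [Real.sqrt_mul hC20, Real.sqrt_sq (by positivity)]
    have h9 : (Nat.log 2 N : ℝ) + 1 ≤ 4 * L := by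
      have h10 : ((Nat.log 2 N : ℕ) : ℝ) ≤ Real.logb 2 N := Real.natLog_le_logb N 2
      have h11 : Real.logb 2 N ≤ 3 * L := by
        rw [Real.logb, div_le_iff₀ (Real.log_pos (by norm_num))]
        have := Real.log_two_gt_d9
        nlinarith
      linarith
    have h12 : 2 * ((Nat.log 2 N : ℝ) + 1) * Real.sqrt (2 * C1 * N * (1 + Real.log (2 * N)) ^ 4 *
        (256 / (1 / 1400) ^ 3 * (N / U + 3 * Real.sqrt N * Real.sqrt t + N / Real.sqrt t))) ≤
        2 * (4 * L) * (Real.sqrt C2 * (X / L ^ (A + 4))) := by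
      gcongr
    refine h12.trans ?_
    have h13 : 2 * (4 * L) * (Real.sqrt C2 * (X / L ^ (A + 4))) = 8 * Real.sqrt C2 * (X / L ^ A / L) / L ^ 2 := by
      rw [pow_add]
      field_simp
      ring
    rw [h13]
    have h14 : 8 * Real.sqrt C2 ≤ L := by linarith [show (0 : ℝ) ≤ 10 ^ 12 by norm_num]
    have h15 : 8 * Real.sqrt C2 * ((X : ℝ) / L ^ A / L) ≤ X / L ^ A := by
      calc 8 * Real.sqrt C2 * ((X : ℝ) / L ^ A / L) ≤ L * (X / L ^ A / L) := by gcongr
        _ = X / L ^ A := by field_simp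
    have h16 : 8 * Real.sqrt C2 * ((X : ℝ) / L ^ A / L) / L ^ 2 ≤ X / L ^ A / L ^ 2 :=
      div_le_div_of_nonneg_right h15 (by positivity)
    refine h16.trans ?_
    apply div_le_div_of_nonneg_left (by positivity) (by norm_num)
    nlinarith
  have hfin : 0 ≤ (X : ℝ) / L ^ A := by positivity
  rw [hsplit, hV]
  refine (norm_add_le _ _).trans ?_
  refine (add_le_add le_rfl (norm_add_le _ _)).trans ?_
  have := hsmall.trans hs1
  have h2 := hI.trans hI2
  have h3 := hJ.trans hJ2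
  linarith

theorem twist (A : ℕ) : ∃ B X₀ : ℕ, ∀ X : ℕ, X₀ ≤ X → ∀ N : ℕ, X ≤ N → N ≤ 2 * X → ∀ (t α : ℝ),
    (Real.log X) ^ B ≤ |t| → |t| ≤ X / (Real.log X) ^ B → ∀ Y : ℕ, Y + X / 600 ≤ N →
    ‖∑ m ∈ Icc 1 Y, ((Λ m : ℝ) : ℂ) * ph N t α m‖ ≤ X / (Real.log X) ^ A := by
  obtain ⟨B, X₀, h⟩ := twist_pos A
  refine ⟨B, X₀, fun X hX N hXN hN2 t α ht1 ht2 Y hY => ?_⟩
  rcases abs_choice t with h1 | h1
  · rw [h1] at ht1 ht2
    exact h X hX N hXN hN2 t α ht1 ht2 Y hY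
  · rw [h1] at ht1 ht2
    refine le_trans (le_of_eq ?_) (h X hX N hXN hN2 (-t) (-α) ht1 ht2 Y hY)
    rw [← RCLike.norm_conj (∑ m ∈ Icc 1 Y, ((Λ m : ℝ) : ℂ) * ph N t α m), map_sum]
    congr 1
    refine sum_congr rfl fun m _ => ?_
    rw [map_mul, Complex.conj_ofReal]
    congr 1
    unfold ph
    rw [← Complex.exp_conj]
    congr 1
    rw [map_mul, Complex.conj_I, Complex.conj_ofReal]
    push_cast
    ring

end Pool.Agent.Lib.G3
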