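import Pool.Agent.Lib.G3.SdtD

/-!
# Type I and Type II kernels of the twist `(N - n)^{it}`
-/

set_option autoImplicit false

namespace Pool.Agent.Lib.G3

open Finset Complex

/-- the second derivative test on `(K0, K1]` -/
theorem sdt_Ioc (f f1 f2 : ℝ → ℝ) (K0 K1 : ℕ) (lam C : ℝ) (hl : 0 < lam) (hC : 1 ≤ C)
    (hf : ∀ y ∈ Set.Icc ((K0 : ℝ) + 1) K1, HasDerivAt f (f1 y) y)
    (hf1 : ∀ y ∈ Set.Icc ((K0 : ℝ) + 1) K1, HasDerivAt f1 (f2 y) y)
    (h : (∀ y ∈ Set.Icc ((K0 : ℝ) + 1) K1, lam ≤ f2 y ∧ f2 y ≤ C * lam) ∨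
      (∀ y ∈ Set.Icc ((K0 : ℝ) + 1) K1, lam ≤ -f2 y ∧ -f2 y ≤ C * lam)) :
    ‖∑ k ∈ Ioc K0 K1, Complex.exp (I * (f k : ℂ))‖ ≤ 64 * (C * K1 * Real.sqrt lam + 1 / Real.sqrt lam) := by
  have hs : 0 < Real.sqrt lam := Real.sqrt_pos.2 hl
  rcases Nat.lt_or_ge K0 K1 with h0 | h0
  swap
  · rw [Finset.Ioc_eq_empty (by omega)]
    simp only [sum_empty, norm_zero]
    positivity
  obtain ⟨M, hM⟩ : ∃ M, K1 = K0 + 1 + M := ⟨K1 - K0 - 1, by omega⟩
  have hM' : (K1 : ℝ) = (K0 : ℝ) + 1 + M := by rw [hM]; push_cast; ring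
  have e1 : ∑ k ∈ Ioc K0 K1, Complex.exp (I * (f k : ℂ)) =
      ∑ n ∈ range M, Complex.exp (I * (f ((K0 : ℝ) + 1 + n) : ℂ)) + Complex.exp (I * (f K1 : ℂ)) := by
    rw [show Ioc K0 K1 = Ico (K0 + 1) (K0 + 1 + M + 1) by ext x; simp only [mem_Ioc, mem_Ico]; omega,
      Finset.sum_Ico_succ_top (by omega), Finset.sum_Ico_eq_sum_range, Nat.add_sub_cancel_left]
    congr 1
    · refine Finset.sum_congr rfl fun n _ => ?_
      push_cast
      rfl
    · rw [hM]
  have h1 := sdt_deriv_abs f f1 f2 ((K0 : ℝ) + 1) M lam C hl hC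
    (by rw [← hM']; exact hf) (by rw [← hM']; exact hf1) (by rw [← hM']; exact h)
  rw [e1]
  refine (norm_add_le _ _).trans ?_
  rw [norm_eI]
  have hK1 : (1 : ℝ) ≤ K1 := by exact_mod_cast (by omega : 1 ≤ K1)
  have hMK : (M : ℝ) ≤ K1 := by rw [hM']; linarith [Nat.cast_nonneg (α := ℝ) K0]
  have h2 : C * M * Real.sqrt lam ≤ C * K1 * Real.sqrt lam := by
    apply mul_le_mul_of_nonneg_right _ hs.le
    exact mul_le_mul_of_nonneg_left hMK (by linarith)
  have h3 : 1 ≤ C * K1 * Real.sqrt lam + 1 / Real.sqrt lam := by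
    have h4 : Real.sqrt lam ≤ C * K1 * Real.sqrt lam := by
      have : 1 ≤ C * K1 := by nlinarith
      nlinarith
    have h5 : 1 ≤ Real.sqrt lam + 1 / Real.sqrt lam := by
      have : Real.sqrt lam + 1 / Real.sqrt lam - 1 = ((Real.sqrt lam - 1 / 2) ^ 2 + 3 / 4) / Real.sqrt lam := by
        field_simp
        ring
      have h6 : 0 ≤ ((Real.sqrt lam - 1 / 2) ^ 2 + 3 / 4) / Real.sqrt lam := by positivity
      linarith
    linarith
  linarith

theorem hda_log (N k : ℝ) (y : ℝ) (h : 0 < N - k * y) :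
    HasDerivAt (fun y => Real.log (N - k * y)) (-k / (N - k * y)) y := by
  have h1 : HasDerivAt (fun y => N - k * y) (-k) y := by
    have := ((hasDerivAt_id y).const_mul k).const_sub N
    simpa using this
  exact h1.log h.ne'

theorem hda_frac (N k : ℝ) (y : ℝ) (h : 0 < N - k * y) :
    HasDerivAt (fun y => -k / (N - k * y)) (-(k ^ 2) / (N - k * y) ^ 2) y := by
  have h1 : HasDerivAt (fun y => N - k * y) (-k) y := by
    have := ((hasDerivAt_id y).const_mul k).const_sub N
    simpa using this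
  have h2 := (h1.inv h.ne').const_mul (-k)
  have e1 : (fun y => -k / (N - k * y)) = fun y => -k * (N - k * y)⁻¹ := by
    funext y
    rw [div_eq_mul_inv]
  rw [e1]
  exact h2.congr_deriv (by ring)

/-- the Type I kernel -/
theorem twI {c : ℝ} (hc : 0 < c) {N d K0 K1 : ℕ} (hd : 1 ≤ d) (hN : 1 ≤ N) {t : ℝ} (ht : 0 < t) (β : ℝ)
    (hK : ((d * K1 : ℕ) : ℝ) ≤ (1 - c) * N) :
    ‖∑ k ∈ Ioc K0 K1, Complex.exp (I * ((t * Real.log ((N : ℝ) - d * k) + β * k : ℝ) : ℂ))‖ ≤
      64 * (1 / c ^ 2 * K1 * (d * Real.sqrt t / N) + N / (d * Real.sqrt t)) := by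
  have hd0 : (0 : ℝ) < d := by exact_mod_cast hd
  have hN0 : (0 : ℝ) < N := by exact_mod_cast hN
  have hst : 0 < Real.sqrt t := Real.sqrt_pos.2 ht
  have hc1 : c ≤ 1 := by
    by_contra hcc
    have : (0 : ℝ) ≤ ((d * K1 : ℕ) : ℝ) := Nat.cast_nonneg _
    nlinarith [not_le.1 hcc]
  set lam : ℝ := t * d ^ 2 / N ^ 2 with hlam
  have hlam0 : 0 < lam := by positivity
  have hsl : Real.sqrt lam = d * Real.sqrt t / N := by
    rw [hlam, Real.sqrt_div (by positivity), Real.sqrt_mul ht.le, Real.sqrt_sq hd0.le, Real.sqrt_sq hN0.le]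
    ring
  have hrange : ∀ y ∈ Set.Icc ((K0 : ℝ) + 1) K1, c * N ≤ N - d * y ∧ N - d * y ≤ N := by
    intro y hy
    have h1 : (d : ℝ) * y ≤ d * K1 := mul_le_mul_of_nonneg_left hy.2 hd0.le
    have h2 : 0 ≤ y := by linarith [hy.1, Nat.cast_nonneg (α := ℝ) K0]
    push_cast at hK
    constructor
    · linarith
    · nlinarith
  have h := sdt_Ioc (fun y => t * Real.log (N - d * y) + β * y) (fun y => t * (-d / (N - d * y)) + β)
    (fun y => t * (-(d : ℝ) ^ 2 / (N - d * y) ^ 2)) K0 K1 lam (1 / c ^ 2) hlam0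
    (by rw [one_le_div (by positivity)]; nlinarith)
    (by
      intro y hy
      have h1 := hrange y hy
      have h2 := (hda_log N d y (by nlinarith [h1.1])).const_mul t
      have h3 : HasDerivAt (fun y : ℝ => β * y) β y := by
        have := (hasDerivAt_id y).const_mul β
        simpa using this
      exact h2.add h3)
    (by
      intro y hy
      have h1 := hrange y hy
      have h2 := (hda_frac N d y (by nlinarith [h1.1])).const_mul t
      exact h2.add_const _)
    (by
      right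
      intro y hy
      obtain ⟨h1, h2⟩ := hrange y hy
      have h0 : 0 < N - d * y := by nlinarith
      have e : -(t * (-(d : ℝ) ^ 2 / (N - d * y) ^ 2)) = t * d ^ 2 / (N - d * y) ^ 2 := by ring
      rw [e, hlam]
      constructor
      · apply div_le_div_of_nonneg_left (by positivity) (by positivity)
        nlinarith
      · rw [show 1 / c ^ 2 * (t * (d : ℝ) ^ 2 / N ^ 2) = t * d ^ 2 / (c * N) ^ 2 by field_simp]
        apply div_le_div_of_nonneg_left (by positivity) (by positivity)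
        have : 0 < c * N := by positivity
        nlinarith)
  rw [hsl] at h
  refine h.trans (le_of_eq ?_)
  field_simp

/-- the Type II kernel -/
theorem twII {c : ℝ} (hc : 0 < c) {N d d' K0 K1 : ℕ} (hdd : d < d') (hN : 1 ≤ N) {t : ℝ} (ht : 0 < t) (β : ℝ)
    (hK : ((d' * K1 : ℕ) : ℝ) ≤ (1 - c) * N) :
    ‖∑ k ∈ Ioc K0 K1, Complex.exp (I * ((t * Real.log ((N : ℝ) - d * k) - t * Real.log ((N : ℝ) - d' * k) + β * k : ℝ) : ℂ))‖ ≤
      64 * (2 / c ^ 3 * K1 * Real.sqrt (t * ((d' : ℝ) - d) * d') / N + N / Real.sqrt (t * ((d' : ℝ) - d) * d')) := by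
  have hd0 : (0 : ℝ) ≤ d := Nat.cast_nonneg _
  have hdd' : (d : ℝ) < d' := by exact_mod_cast hdd
  have hd1 : (0 : ℝ) < d' := by linarith
  have hD : (0 : ℝ) < (d' : ℝ) - d := by linarith
  have hN0 : (0 : ℝ) < N := by exact_mod_cast hN
  have hc1 : c ≤ 1 := by
    by_contra hcc
    have : (0 : ℝ) ≤ ((d' * K1 : ℕ) : ℝ) := Nat.cast_nonneg _
    nlinarith [not_le.1 hcc]
  set lam : ℝ := t * ((d' : ℝ) - d) * d' / N ^ 2 with hlam
  have hlam0 : 0 < lam := by positivity
  have hsl : Real.sqrt lam = Real.sqrt (t * ((d' : ℝ) - d) * d') / N := by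
    rw [hlam, Real.sqrt_div (by positivity), Real.sqrt_sq hN0.le]
  have hsp : 0 < Real.sqrt (t * ((d' : ℝ) - d) * d') := Real.sqrt_pos.2 (by positivity)
  have hrange : ∀ y ∈ Set.Icc ((K0 : ℝ) + 1) K1, 0 ≤ y ∧ c * N ≤ N - d' * y ∧ N - d' * y ≤ N - d * y ∧ N - d * y ≤ N := by
    intro y hy
    have h1 : (d' : ℝ) * y ≤ d' * K1 := mul_le_mul_of_nonneg_left hy.2 hd1.le
    have h2 : 0 ≤ y := by linarith [hy.1, Nat.cast_nonneg (α := ℝ) K0]
    push_cast at hK
    refine ⟨h2, by linarith, ?_, ?_⟩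
    · nlinarith
    · nlinarith
  have hCge : (1 : ℝ) ≤ 2 / c ^ 3 := by
    rw [one_le_div (by positivity)]
    have : c ^ 3 ≤ 1 := pow_le_one₀ hc.le hc1
    linarith
  have h := sdt_Ioc (fun y => t * Real.log (N - d * y) - t * Real.log (N - d' * y) + β * y)
    (fun y => t * (-d / (N - d * y)) - t * (-d' / (N - d' * y)) + β)
    (fun y => t * (-(d : ℝ) ^ 2 / (N - d * y) ^ 2) - t * (-(d' : ℝ) ^ 2 / (N - d' * y) ^ 2)) K0 K1 lam (2 / c ^ 3) hlam0
    hCge
    (by
      intro y hy
      obtain ⟨r1, r2, r3, r4⟩ := hrange y hy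
      have hcN : 0 < c * N := by positivity
      have h2 := (hda_log N d y (by linarith)).const_mul t
      have h2' := (hda_log N d' y (by linarith)).const_mul t
      have h3 : HasDerivAt (fun y : ℝ => β * y) β y := by
        have := (hasDerivAt_id y).const_mul β
        simpa using this
      exact (h2.sub h2').add h3)
    (by
      intro y hy
      obtain ⟨r1, r2, r3, r4⟩ := hrange y hy
      have hcN : 0 < c * N := by positivity
      have h2 := (hda_frac N d y (by linarith)).const_mul t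
      have h2' := (hda_frac N d' y (by linarith)).const_mul t
      exact (h2.sub h2').add_const _)
    (by
      left
      intro y hy
      obtain ⟨r1, r2, r3, r4⟩ := hrange y hy
      have hcN : 0 < c * N := by positivity
      have p1 : 0 < N - d' * y := by linarith
      have p2 : 0 < N - d * y := by linarith
      have e : t * (-(d : ℝ) ^ 2 / (N - d * y) ^ 2) - t * (-(d' : ℝ) ^ 2 / (N - d' * y) ^ 2) =
          t * ((d' : ℝ) - d) * (N / ((N - d * y) * (N - d' * y))) * (d' / (N - d' * y) + d / (N - d * y)) := by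
        have n1 : (N : ℝ) - d' * y ≠ 0 := p1.ne'
        have n2 : (N : ℝ) - d * y ≠ 0 := p2.ne'
        have aux : ∀ u v a b : ℝ, t * (-a ^ 2 / u ^ 2) - t * (-b ^ 2 / v ^ 2) = t * (b / v - a / u) * (b / v + a / u) := by
          intro u v a b
          ring
        have k1 : (d' : ℝ) / (N - d' * y) - d / (N - d * y) = ((d' : ℝ) - d) * (N / ((N - d * y) * (N - d' * y))) := by
          rw [div_sub_div _ _ n1 n2, mul_div_assoc', div_eq_div_iff (mul_ne_zero n1 n2) (mul_ne_zero n2 n1)]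
          ring
        rw [aux, k1]
        ring
      rw [e]
      have q1 : 1 / (N : ℝ) ≤ N / ((N - d * y) * (N - d' * y)) := by
        rw [div_le_div_iff₀ hN0 (by positivity)]
        have : (N - d * y) * (N - d' * y) ≤ N * N := mul_le_mul r4 (r3.trans r4) p1.le hN0.le
        linarith
      have q2 : N / ((N - d * y) * (N - d' * y)) ≤ 1 / (c ^ 2 * N) := by
        rw [div_le_div_iff₀ (by positivity) (by positivity)]
        have : (c * N) * (c * N) ≤ (N - d * y) * (N - d' * y) := mul_le_mul (r2.trans r3) r2 hcN.le p2.le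
        nlinarith
      have q3 : (d' : ℝ) / N ≤ d' / (N - d' * y) + d / (N - d * y) := by
        have : (d' : ℝ) / N ≤ d' / (N - d' * y) := div_le_div_of_nonneg_left hd1.le p1 (r3.trans r4)
        have h5 : 0 ≤ (d : ℝ) / (N - d * y) := by positivity
        linarith
      have q4 : (d' : ℝ) / (N - d' * y) + d / (N - d * y) ≤ 2 * d' / (c * N) := by
        have h5 : (d' : ℝ) / (N - d' * y) ≤ d' / (c * N) := div_le_div_of_nonneg_left hd1.le hcN r2
        have h6 : (d : ℝ) / (N - d * y) ≤ d' / (c * N) := by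
          refine (div_le_div_of_nonneg_left hd0 hcN (r2.trans r3)).trans ?_
          exact div_le_div_of_nonneg_right hdd'.le hcN.le
        have h7 : 2 * (d' : ℝ) / (c * N) = d' / (c * N) + d' / (c * N) := by ring
        linarith
      have hA : 0 ≤ t * ((d' : ℝ) - d) := by positivity
      constructor
      · calc lam = t * ((d' : ℝ) - d) * (1 / N) * (d' / N) := by rw [hlam]; field_simp
          _ ≤ _ := by
            apply mul_le_mul (mul_le_mul_of_nonneg_left q1 hA) q3 (by positivity)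
            positivity
      · calc t * ((d' : ℝ) - d) * (N / ((N - d * y) * (N - d' * y))) * (d' / (N - d' * y) + d / (N - d * y))
            ≤ t * ((d' : ℝ) - d) * (1 / (c ^ 2 * N)) * (2 * d' / (c * N)) := by
              apply mul_le_mul (mul_le_mul_of_nonneg_left q2 hA) q4 (by positivity)
              positivity
          _ = 2 / c ^ 3 * lam := by rw [hlam]; field_simp)
  rw [hsl] at h
  refine h.trans (le_of_eq ?_)
  rw [one_div_div, mul_div_assoc]

end Pool.Agent.Lib.G3
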