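import Pool.Agent.Lib.G3.TwBil
import Pool.Agent.Lib.G3.Vdd

/-!
# G3 / TwB2: the bilinear lemma
-/

set_option autoImplicit false

open Finset

namespace Pool.Agent.Lib.G3

/-- one pair -/
theorem tw_pair {c : ℝ} (hc : 0 < c) {N : ℕ} (hN : 1 ≤ N) {t : ℝ} (ht : 0 < t) (α : ℝ) {D d d' : ℕ} (hD : 1 ≤ D)
    (hdd : d < d') (hd' : D ≤ d') (M0 Y : ℕ) (hY : (Y : ℝ) ≤ (1 - c) * N) :
    ‖∑ m ∈ Ioc M0 (Y / d'), ph N t α (d * m) * (starRingEnd ℂ) (ph N t α (d' * m))‖ ≤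
      64 * (2 / c ^ 3 * Real.sqrt t + N / (Real.sqrt (t * D) * Real.sqrt ((d' - d : ℕ) : ℝ))) := by
  have hd'0 : 0 < d' := by omega
  have hN0 : (0 : ℝ) < N := by exact_mod_cast hN
  have hd'r : (0 : ℝ) < d' := by exact_mod_cast hd'0
  have hdr : (d : ℝ) < d' := by exact_mod_cast hdd
  have hDr : (0 : ℝ) < D := by exact_mod_cast hD
  have hd0 : (0 : ℝ) ≤ d := Nat.cast_nonneg _
  have hK : ((d' * (Y / d') : ℕ) : ℝ) ≤ (1 - c) * N := by
    have h1 : d' * (Y / d') ≤ Y := Nat.mul_div_le _ _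
    have h2 : ((d' * (Y / d') : ℕ) : ℝ) ≤ Y := by exact_mod_cast h1
    linarith
  have h1 := twII hc hdd hN ht (α * ((d : ℝ) - d')) hK (K0 := M0)
  have h2 : ∑ m ∈ Ioc M0 (Y / d'), ph N t α (d * m) * (starRingEnd ℂ) (ph N t α (d' * m)) =
      ∑ k ∈ Ioc M0 (Y / d'), Complex.exp (Complex.I * ((t * Real.log ((N : ℝ) - d * k) -
        t * Real.log ((N : ℝ) - d' * k) + α * ((d : ℝ) - d') * k : ℝ) : ℂ)) := by
    refine sum_congr rfl fun m _ => ?_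
    unfold ph
    rw [← Complex.exp_conj, ← Complex.exp_add]
    congr 1
    simp only [map_mul, Complex.conj_I, Complex.conj_ofReal]
    push_cast
    ring
  rw [h2]
  refine h1.trans ?_
  have hcast : ((d' - d : ℕ) : ℝ) = (d' : ℝ) - d := Nat.cast_sub hdd.le
  have hst : 0 < Real.sqrt t := Real.sqrt_pos.2 ht
  have hdiff : (0 : ℝ) < (d' : ℝ) - d := by linarith
  have h3 : Real.sqrt (t * ((d' : ℝ) - d) * d') ≤ Real.sqrt t * d' := by
    rw [show Real.sqrt t * (d' : ℝ) = Real.sqrt (t * (d' : ℝ) ^ 2) by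
      rw [Real.sqrt_mul ht.le, Real.sqrt_sq hd'r.le]]
    apply Real.sqrt_le_sqrt
    have : ((d' : ℝ) - d) * d' ≤ (d' : ℝ) ^ 2 := by nlinarith
    calc t * ((d' : ℝ) - d) * d' = t * (((d' : ℝ) - d) * d') := by ring
      _ ≤ t * (d' : ℝ) ^ 2 := mul_le_mul_of_nonneg_left this ht.le
  have h4 : (((Y / d' : ℕ) : ℝ)) * Real.sqrt (t * ((d' : ℝ) - d) * d') / N ≤ Real.sqrt t := by
    rw [div_le_iff₀ hN0]
    have h5 : ((Y / d' : ℕ) : ℝ) * d' ≤ N := by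
      have h6 : ((d' * (Y / d') : ℕ) : ℝ) = ((Y / d' : ℕ) : ℝ) * d' := by push_cast; ring
      rw [← h6]
      nlinarith
    calc ((Y / d' : ℕ) : ℝ) * Real.sqrt (t * ((d' : ℝ) - d) * d') ≤ ((Y / d' : ℕ) : ℝ) * (Real.sqrt t * d') :=
          mul_le_mul_of_nonneg_left h3 (Nat.cast_nonneg _)
      _ = Real.sqrt t * (((Y / d' : ℕ) : ℝ) * d') := by ring
      _ ≤ Real.sqrt t * N := mul_le_mul_of_nonneg_left h5 hst.le
  have h7 : Real.sqrt (t * D) * Real.sqrt ((d' - d : ℕ) : ℝ) ≤ Real.sqrt (t * ((d' : ℝ) - d) * d') := by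
    rw [← Real.sqrt_mul (by positivity), hcast]
    apply Real.sqrt_le_sqrt
    have h8 : (D : ℝ) ≤ d' := by exact_mod_cast hd'
    calc t * D * ((d' : ℝ) - d) = t * ((d' : ℝ) - d) * D := by ring
      _ ≤ t * ((d' : ℝ) - d) * d' := mul_le_mul_of_nonneg_left h8 (by positivity)
  have h9 : 0 < Real.sqrt (t * D) * Real.sqrt ((d' - d : ℕ) : ℝ) := by
    rw [hcast]
    have : 0 < Real.sqrt (t * D) := Real.sqrt_pos.2 (by positivity)
    have : 0 < Real.sqrt ((d' : ℝ) - d) := Real.sqrt_pos.2 hdiff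
    positivity
  refine mul_le_mul_of_nonneg_left ?_ (by norm_num)
  refine add_le_add ?_ ?_
  · calc 2 / c ^ 3 * ((Y / d' : ℕ) : ℝ) * Real.sqrt (t * ((d' : ℝ) - d) * d') / N =
        2 / c ^ 3 * ((((Y / d' : ℕ) : ℝ)) * Real.sqrt (t * ((d' : ℝ) - d) * d') / N) := by ring
      _ ≤ 2 / c ^ 3 * Real.sqrt t := mul_le_mul_of_nonneg_left h4 (by positivity)
  · exact div_le_div_of_nonneg_left hN0.le h9 h7

theorem tw_bil {c : ℝ} (hc : 0 < c) (hc1 : c ≤ 1) {N : ℕ} (hN : 1 ≤ N) {t : ℝ} (ht : 0 < t) (α : ℝ) {D : ℕ} (hD : 1 ≤ D)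
    {S : Finset ℕ} (hS : S ⊆ Ioc D (2 * D)) (a b : ℕ → ℂ) (M0 Y : ℕ) (hY : (Y : ℝ) ≤ (1 - c) * N) :
    ‖∑ d ∈ S, a d * ∑ m ∈ Ioc M0 (Y / d), b m * ph N t α (d * m)‖ ^ 2 ≤
      (∑ d ∈ S, ‖a d‖ ^ 2) * (∑ m ∈ Icc 1 (Y / D), ‖b m‖ ^ 2) *
        (256 / c ^ 3 * (N / D + D * Real.sqrt t + N / Real.sqrt t)) := by
  classical
  have hN0 : (0 : ℝ) < N := by exact_mod_cast hN
  have hDr : (0 : ℝ) < D := by exact_mod_cast hD
  have hst : 0 < Real.sqrt t := Real.sqrt_pos.2 ht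
  set I : Finset ℕ := Ioc M0 (Y / D) with hI
  set z : ℕ → ℕ → ℂ := fun d m => if m ≤ Y / d then ph N t α (d * m) else 0 with hz
  set B : ℝ := 256 / c ^ 3 * (N / D + D * Real.sqrt t + N / Real.sqrt t) with hB
  have hdiv : ∀ d ∈ S, Y / d ≤ Y / D := by
    intro d hd
    have := hS hd
    rw [mem_Ioc] at this
    exact Nat.div_le_div_left this.1.le (by omega)
  -- restriction of the inner sums
  have hfil : ∀ d, Y / d ≤ Y / D → I.filter (fun m => m ≤ Y / d) = Ioc M0 (Y / d) := by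
    intro d hd
    ext m
    rw [mem_filter, hI, mem_Ioc, mem_Ioc]
    omega
  have e1 : ∑ d ∈ S, a d * ∑ m ∈ Ioc M0 (Y / d), b m * ph N t α (d * m) =
      ∑ m ∈ I, b m * ∑ d ∈ S, a d * z d m := by
    have e2 : ∀ d ∈ S, a d * ∑ m ∈ Ioc M0 (Y / d), b m * ph N t α (d * m) = ∑ m ∈ I, b m * (a d * z d m) := by
      intro d hd
      rw [← hfil d (hdiv d hd), sum_filter, mul_sum]
      refine sum_congr rfl fun m _ => ?_
      simp only [hz]
      split_ifs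
      · ring
      · simp
    rw [sum_congr rfl e2, sum_comm]
    exact sum_congr rfl fun m _ => by rw [mul_sum]
  have h1 : ‖∑ m ∈ I, b m * ∑ d ∈ S, a d * z d m‖ ^ 2 ≤
      (∑ m ∈ I, ‖b m‖ ^ 2) * ∑ m ∈ I, ‖∑ d ∈ S, a d * z d m‖ ^ 2 := by
    have h2 : ‖∑ m ∈ I, b m * ∑ d ∈ S, a d * z d m‖ ≤ ∑ m ∈ I, ‖b m‖ * ‖∑ d ∈ S, a d * z d m‖ := by
      refine (norm_sum_le _ _).trans (sum_le_sum fun m _ => ?_)
      rw [norm_mul]
    exact (pow_le_pow_left₀ (norm_nonneg _) h2 2).trans (sum_mul_sq_le_sq_mul_sq _ _ _)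
  have h2 : ∑ m ∈ I, ‖b m‖ ^ 2 ≤ ∑ m ∈ Icc 1 (Y / D), ‖b m‖ ^ 2 := by
    refine sum_le_sum_of_subset_of_nonneg ?_ fun _ _ _ => by positivity
    intro m hm
    rw [hI, mem_Ioc] at hm
    rw [mem_Icc]
    omega
  -- off-diagonal terms
  have hoff : ∀ d ∈ S, ∀ d' ∈ S, d < d' → ‖∑ m ∈ I, z d m * (starRingEnd ℂ) (z d' m)‖ ≤
      64 * (2 / c ^ 3 * Real.sqrt t + N / (Real.sqrt (t * D) * Real.sqrt ((d' - d : ℕ) : ℝ))) := by
    intro d hd d' hd' hlt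
    have hmem := hS hd'
    rw [mem_Ioc] at hmem
    have hmem2 := hS hd
    rw [mem_Ioc] at hmem2
    have h3 := tw_pair hc hN ht α hD hlt hmem.1.le M0 Y hY
    refine le_trans (le_of_eq ?_) h3
    congr 1
    rw [← hfil d' (hdiv d' hd'), sum_filter]
    refine sum_congr rfl fun m _ => ?_
    have h4 : Y / d' ≤ Y / d := Nat.div_le_div_left hlt.le (by omega)
    simp only [hz]
    split_ifs with h5 h6 h6
    · rfl
    · simp
    · exact absurd (h6.trans h4) h5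
    · simp
  have hconj : ∀ d d', ‖∑ m ∈ I, z d m * (starRingEnd ℂ) (z d' m)‖ = ‖∑ m ∈ I, z d' m * (starRingEnd ℂ) (z d m)‖ := by
    intro d d'
    rw [← RCLike.norm_conj (∑ m ∈ I, z d m * (starRingEnd ℂ) (z d' m)), map_sum]
    congr 1
    refine sum_congr rfl fun m _ => ?_
    rw [map_mul, Complex.conj_conj, mul_comm]
  have hoff2 : ∀ d ∈ S, ∀ d' ∈ S.erase d, ‖∑ m ∈ I, z d m * (starRingEnd ℂ) (z d' m)‖ ≤
      128 / c ^ 3 * Real.sqrt t + 64 * N / Real.sqrt (t * D) * (1 / Real.sqrt ((max d d' - min d d' : ℕ) : ℝ)) := by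
    intro d hd d' hd'
    rw [mem_erase] at hd'
    have key : ∀ k : ℕ, 64 * (2 / c ^ 3 * Real.sqrt t + N / (Real.sqrt (t * D) * Real.sqrt (k : ℝ))) =
        128 / c ^ 3 * Real.sqrt t + 64 * N / Real.sqrt (t * D) * (1 / Real.sqrt (k : ℝ)) := by
      intro k
      have : (N : ℝ) / (Real.sqrt (t * D) * Real.sqrt (k : ℝ)) = N / Real.sqrt (t * D) * (1 / Real.sqrt (k : ℝ)) := by
        rw [div_mul_div_comm, mul_one]
      rw [this]
      ring
    rcases lt_trichotomy d d' with h | h | h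
    · rw [max_eq_right h.le, min_eq_left h.le, ← key]
      exact hoff d hd d' hd'.2 h
    · exact absurd h.symm hd'.1
    · rw [max_eq_left h.le, min_eq_right h.le, ← key, hconj]
      exact hoff d' hd'.2 d hd h
  have hdiag : ∀ d ∈ S, ‖∑ m ∈ I, z d m * (starRingEnd ℂ) (z d m)‖ ≤ N / D := by
    intro d _
    have h3 : ‖∑ m ∈ I, z d m * (starRingEnd ℂ) (z d m)‖ ≤ ∑ m ∈ I, (1 : ℝ) := by
      refine (norm_sum_le _ _).trans (sum_le_sum fun m _ => ?_)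
      rw [norm_mul]
      have h4 : ‖(starRingEnd ℂ) (z d m)‖ = ‖z d m‖ := RCLike.norm_conj _
      rw [h4]
      simp only [hz]
      split_ifs
      · rw [ph_norm]
        norm_num
      · simp
    refine h3.trans ?_
    rw [sum_const, nsmul_eq_mul, mul_one, hI, Nat.card_Ioc]
    have h5 : ((Y / D - M0 : ℕ) : ℝ) ≤ ((Y / D : ℕ) : ℝ) := by exact_mod_cast Nat.sub_le _ _
    have h6 : ((Y / D : ℕ) : ℝ) ≤ (Y : ℝ) / D := Nat.cast_div_le
    have h7 : (Y : ℝ) ≤ N := by nlinarith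
    have h8 : (Y : ℝ) / D ≤ N / D := by gcongr
    linarith
  have hcard : (S.card : ℝ) ≤ D := by
    have h3 := card_le_card hS
    rw [Nat.card_Ioc] at h3
    have h4 : S.card ≤ D := by omega
    exact_mod_cast h4
  have hsch : ∀ d ∈ S, ∑ d' ∈ S, ‖∑ m ∈ I, z d m * (starRingEnd ℂ) (z d' m)‖ ≤ B := by
    intro d hd
    rw [← add_sum_erase S _ hd]
    have h3 : ∑ d' ∈ S.erase d, ‖∑ m ∈ I, z d m * (starRingEnd ℂ) (z d' m)‖ ≤
        128 / c ^ 3 * (D * Real.sqrt t) + 256 * (N / Real.sqrt t) := by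
      calc ∑ d' ∈ S.erase d, ‖∑ m ∈ I, z d m * (starRingEnd ℂ) (z d' m)‖ ≤
          ∑ d' ∈ S.erase d, (128 / c ^ 3 * Real.sqrt t + 64 * N / Real.sqrt (t * D) *
            (1 / Real.sqrt ((max d d' - min d d' : ℕ) : ℝ))) := sum_le_sum (hoff2 d hd)
        _ = (S.erase d).card * (128 / c ^ 3 * Real.sqrt t) + 64 * N / Real.sqrt (t * D) *
            ∑ d' ∈ S.erase d, 1 / Real.sqrt ((max d d' - min d d' : ℕ) : ℝ) := by
          rw [sum_add_distrib, sum_const, nsmul_eq_mul, mul_sum]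
        _ ≤ D * (128 / c ^ 3 * Real.sqrt t) + 64 * N / Real.sqrt (t * D) * (2 * (2 * Real.sqrt D)) := by
          have h4 : ((S.erase d).card : ℝ) ≤ D := by
            have : ((S.erase d).card : ℝ) ≤ S.card := by exact_mod_cast card_le_card (erase_subset _ _)
            linarith
          have h5 : ∑ d' ∈ S.erase d, 1 / Real.sqrt ((max d d' - min d d' : ℕ) : ℝ) ≤ 2 * (2 * Real.sqrt D) := by
            refine (tw_diff hS hd (fun k => 1 / Real.sqrt (k : ℝ)) fun k => by positivity).trans ?_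
            exact mul_le_mul_of_nonneg_left (tw_sqrt D) (by norm_num)
          have h6 : 0 ≤ 64 * (N : ℝ) / Real.sqrt (t * D) := by positivity
          have h7 : 0 ≤ 128 / c ^ 3 * Real.sqrt t := by positivity
          exact add_le_add (mul_le_mul_of_nonneg_right h4 h7) (mul_le_mul_of_nonneg_left h5 h6)
        _ = 128 / c ^ 3 * (D * Real.sqrt t) + 256 * (N / Real.sqrt t) := by
          have h8 : 0 < Real.sqrt (D : ℝ) := Real.sqrt_pos.2 hDr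
          rw [Real.sqrt_mul ht.le]
          field_simp
          ring
    have h9 : (1 : ℝ) ≤ 1 / c ^ 3 := by
      rw [le_div_iff₀ (by positivity), one_mul]
      exact pow_le_one₀ hc.le hc1
    have h10 : 0 ≤ (N : ℝ) / D := by positivity
    have h11 : 0 ≤ (D : ℝ) * Real.sqrt t := by positivity
    have h12 : 0 ≤ (N : ℝ) / Real.sqrt t := by positivity
    have h13 : B = 256 * (1 / c ^ 3) * (N / D) + 256 * (1 / c ^ 3) * (D * Real.sqrt t) +
        256 * (1 / c ^ 3) * (N / Real.sqrt t) := by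
      rw [hB]
      ring
    have h14 : 128 / c ^ 3 * ((D : ℝ) * Real.sqrt t) = 128 * (1 / c ^ 3) * (D * Real.sqrt t) := by ring
    rw [h13]
    have h15 : (N : ℝ) / D ≤ 256 * (1 / c ^ 3) * (N / D) := by nlinarith
    have h16 : 128 * (1 / c ^ 3) * ((D : ℝ) * Real.sqrt t) ≤ 256 * (1 / c ^ 3) * (D * Real.sqrt t) := by nlinarith
    have h17 : 256 * ((N : ℝ) / Real.sqrt t) ≤ 256 * (1 / c ^ 3) * (N / Real.sqrt t) := by nlinarith
    have := hdiag d hd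
    linarith
  have h3 := tw_schur I S a z B hsch
  rw [e1]
  have hA0 : 0 ≤ ∑ d ∈ S, ‖a d‖ ^ 2 := sum_nonneg fun _ _ => by positivity
  have hb0 : 0 ≤ ∑ m ∈ I, ‖b m‖ ^ 2 := sum_nonneg fun _ _ => by positivity
  have hB0 : 0 ≤ B := by positivity
  calc _ ≤ (∑ m ∈ I, ‖b m‖ ^ 2) * ∑ m ∈ I, ‖∑ d ∈ S, a d * z d m‖ ^ 2 := h1
    _ ≤ (∑ m ∈ I, ‖b m‖ ^ 2) * ((∑ d ∈ S, ‖a d‖ ^ 2) * B) := mul_le_mul_of_nonneg_left h3 hb0
    _ ≤ (∑ m ∈ Icc 1 (Y / D), ‖b m‖ ^ 2) * ((∑ d ∈ S, ‖a d‖ ^ 2) * B) :=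
        mul_le_mul_of_nonneg_right h2 (mul_nonneg hA0 hB0)
    _ = _ := by ring

end Pool.Agent.Lib.G3
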