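import Pool.Agent.Lib.G3.Defs

/-!
# G3 / TwBil: bilinear sums with the phase `t log (N - n) + α n`

The longer variable is smoothed by Cauchy–Schwarz, the shorter one runs over a part of a dyadic interval.
-/

set_option autoImplicit false

open Finset

namespace Pool.Agent.Lib.G3

/-- the phase -/
noncomputable def ph (N : ℕ) (t α : ℝ) (n : ℕ) : ℂ :=
  Complex.exp (Complex.I * ((t * Real.log ((N : ℝ) - n) + α * n : ℝ) : ℂ))

theorem ph_norm (N : ℕ) (t α : ℝ) (n : ℕ) : ‖ph N t α n‖ = 1 := by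
  unfold ph
  rw [mul_comm]
  exact Complex.norm_exp_ofReal_mul_I _

/-- Schur's test for a finite bilinear form -/
theorem tw_schur (I S : Finset ℕ) (a : ℕ → ℂ) (z : ℕ → ℕ → ℂ) (B : ℝ)
    (hB : ∀ d ∈ S, ∑ d' ∈ S, ‖∑ m ∈ I, z d m * (starRingEnd ℂ) (z d' m)‖ ≤ B) :
    ∑ m ∈ I, ‖∑ d ∈ S, a d * z d m‖ ^ 2 ≤ (∑ d ∈ S, ‖a d‖ ^ 2) * B := by
  classical
  have h8 : ((∑ m ∈ I, ‖∑ d ∈ S, a d * z d m‖ ^ 2 : ℝ) : ℂ) =
      ∑ d ∈ S, ∑ d' ∈ S, a d * (starRingEnd ℂ) (a d') * ∑ m ∈ I, z d m * (starRingEnd ℂ) (z d' m) := by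
    rw [Complex.ofReal_sum]
    have h9 : ∀ m ∈ I, ((‖∑ d ∈ S, a d * z d m‖ ^ 2 : ℝ) : ℂ) =
        ∑ d ∈ S, ∑ d' ∈ S, a d * (starRingEnd ℂ) (a d') * (z d m * (starRingEnd ℂ) (z d' m)) := by
      intro m _
      rw [← Complex.normSq_eq_norm_sq, ← Complex.mul_conj, map_sum, sum_mul_sum]
      refine sum_congr rfl fun j _ => sum_congr rfl fun j' _ => ?_
      rw [map_mul]
      ring
    rw [sum_congr rfl h9, sum_comm]
    refine sum_congr rfl fun j _ => ?_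
    rw [sum_comm]
    refine sum_congr rfl fun j' _ => ?_
    rw [mul_sum]
  set K : ℕ → ℕ → ℝ := fun d d' => ‖∑ m ∈ I, z d m * (starRingEnd ℂ) (z d' m)‖ with hK
  have hsym : ∀ d d', K d d' = K d' d := by
    intro d d'
    simp only [hK]
    rw [← RCLike.norm_conj (∑ m ∈ I, z d m * (starRingEnd ℂ) (z d' m)), map_sum]
    congr 1
    refine sum_congr rfl fun m _ => ?_
    rw [map_mul, Complex.conj_conj, mul_comm]
  have h10 : ∑ m ∈ I, ‖∑ d ∈ S, a d * z d m‖ ^ 2 ≤ ∑ d ∈ S, ∑ d' ∈ S, ‖a d‖ * ‖a d'‖ * K d d' := by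
    have h11 : ∑ m ∈ I, ‖∑ d ∈ S, a d * z d m‖ ^ 2 = ‖((∑ m ∈ I, ‖∑ d ∈ S, a d * z d m‖ ^ 2 : ℝ) : ℂ)‖ := by
      rw [Complex.norm_real, Real.norm_eq_abs, abs_of_nonneg (sum_nonneg fun _ _ => by positivity)]
    rw [h11, h8]
    refine (norm_sum_le _ _).trans (sum_le_sum fun j _ => (norm_sum_le _ _).trans (sum_le_sum fun j' _ => ?_))
    have h12 : ‖(starRingEnd ℂ) (a j')‖ = ‖a j'‖ := RCLike.norm_conj _
    rw [norm_mul, norm_mul, h12]
  have h12 : ∑ d ∈ S, ∑ d' ∈ S, ‖a d‖ * ‖a d'‖ * K d d' ≤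
      ∑ d ∈ S, ∑ d' ∈ S, (‖a d‖ ^ 2 / 2 * K d d' + ‖a d'‖ ^ 2 / 2 * K d d') := by
    refine sum_le_sum fun j _ => sum_le_sum fun j' _ => ?_
    have : 0 ≤ K j j' := norm_nonneg _
    nlinarith [mul_nonneg (sq_nonneg (‖a j‖ - ‖a j'‖)) this]
  have e2 : ∑ d ∈ S, ∑ d' ∈ S, ‖a d'‖ ^ 2 / 2 * K d d' = ∑ d ∈ S, ∑ d' ∈ S, ‖a d‖ ^ 2 / 2 * K d d' := by
    rw [sum_comm]
    exact sum_congr rfl fun j _ => sum_congr rfl fun j' _ => by rw [hsym]
  have h13 : ∑ d ∈ S, ∑ d' ∈ S, (‖a d‖ ^ 2 / 2 * K d d' + ‖a d'‖ ^ 2 / 2 * K d d') =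
      ∑ d ∈ S, ‖a d‖ ^ 2 * ∑ d' ∈ S, K d d' := by
    simp_rw [sum_add_distrib]
    rw [e2, ← sum_add_distrib]
    refine sum_congr rfl fun j _ => ?_
    rw [mul_sum, ← sum_add_distrib]
    exact sum_congr rfl fun j' _ => by ring
  calc _ ≤ _ := h10
    _ ≤ _ := h12
    _ = _ := h13
    _ ≤ ∑ d ∈ S, ‖a d‖ ^ 2 * B := sum_le_sum fun d hd => mul_le_mul_of_nonneg_left (hB d hd) (by positivity)
    _ = _ := by rw [sum_mul]

/-- `∑_{k ≤ n} 1/√k ≤ 2 √n` -/
theorem tw_sqrt (n : ℕ) : ∑ k ∈ Icc 1 n, 1 / Real.sqrt k ≤ 2 * Real.sqrt n := by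
  induction n with
  | zero => simp
  | succ n ih =>
    rw [sum_Icc_succ_top (by omega)]
    have h0 : (0 : ℝ) ≤ n := Nat.cast_nonneg n
    have h1 : 0 < Real.sqrt ((n + 1 : ℕ) : ℝ) := Real.sqrt_pos.mpr (by positivity)
    have h2 : Real.sqrt n ≤ Real.sqrt ((n + 1 : ℕ) : ℝ) := Real.sqrt_le_sqrt (by push_cast; linarith)
    have h3 : Real.sqrt ((n + 1 : ℕ) : ℝ) ^ 2 = n + 1 := by
      rw [Real.sq_sqrt (by positivity)]
      push_cast
      ring
    have h4 : Real.sqrt (n : ℝ) ^ 2 = n := Real.sq_sqrt h0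
    have h5 : 0 ≤ Real.sqrt (n : ℝ) := Real.sqrt_nonneg _
    have h6 : 1 / Real.sqrt ((n + 1 : ℕ) : ℝ) ≤ 2 * Real.sqrt ((n + 1 : ℕ) : ℝ) - 2 * Real.sqrt n := by
      rw [div_le_iff₀ h1]
      nlinarith
    linarith

/-- the sum over the differences -/
theorem tw_diff {D : ℕ} {S : Finset ℕ} (hS : S ⊆ Ioc D (2 * D)) {d : ℕ} (hd : d ∈ S) (g : ℕ → ℝ) (hg : ∀ k, 0 ≤ g k) :
    ∑ d' ∈ S.erase d, g (max d d' - min d d') ≤ 2 * ∑ k ∈ Icc 1 D, g k := by
  classical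
  have hd' := hS hd
  rw [mem_Ioc] at hd'
  have h1 : S.erase d = (S.erase d).filter (fun x => x < d) ∪ (S.erase d).filter (fun x => ¬ x < d) :=
    (filter_union_filter_not_eq _ _).symm
  rw [h1, sum_union (disjoint_filter_filter_not _ _ _)]
  have h2 : ∑ d' ∈ (S.erase d).filter (fun x => x < d), g (max d d' - min d d') ≤ ∑ k ∈ Icc 1 D, g k := by
    have e : ∑ d' ∈ (S.erase d).filter (fun x => x < d), g (max d d' - min d d') =
        ∑ k ∈ ((S.erase d).filter (fun x => x < d)).image (fun x => d - x), g k := by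
      rw [sum_image]
      · refine sum_congr rfl fun x hx => ?_
        rw [mem_filter] at hx
        rw [max_eq_left hx.2.le, min_eq_right hx.2.le]
      · intro x hx y hy hxy
        have hx' := (mem_filter.mp hx).2
        have hy' := (mem_filter.mp hy).2
        simp only at hxy
        omega
    rw [e]
    refine sum_le_sum_of_subset_of_nonneg ?_ fun k _ _ => hg k
    intro k hk
    rw [mem_image] at hk
    obtain ⟨x, hx, rfl⟩ := hk
    rw [mem_filter, mem_erase] at hx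
    have := hS hx.1.2
    rw [mem_Ioc] at this
    rw [mem_Icc]
    omega
  have h3 : ∑ d' ∈ (S.erase d).filter (fun x => ¬ x < d), g (max d d' - min d d') ≤ ∑ k ∈ Icc 1 D, g k := by
    have e : ∑ d' ∈ (S.erase d).filter (fun x => ¬ x < d), g (max d d' - min d d') =
        ∑ k ∈ ((S.erase d).filter (fun x => ¬ x < d)).image (fun x => x - d), g k := by
      rw [sum_image]
      · refine sum_congr rfl fun x hx => ?_
        rw [mem_filter] at hx
        have hx2 : d ≤ x := by omega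
        rw [max_eq_right hx2, min_eq_left hx2]
      · intro x hx y hy hxy
        have hx' := (mem_filter.mp hx).2
        have hy' := (mem_filter.mp hy).2
        simp only at hxy
        omega
    rw [e]
    refine sum_le_sum_of_subset_of_nonneg ?_ fun k _ _ => hg k
    intro k hk
    rw [mem_image] at hk
    obtain ⟨x, hx, rfl⟩ := hk
    rw [mem_filter, mem_erase] at hx
    have := hS hx.1.2
    rw [mem_Ioc] at this
    rw [mem_Icc]
    omega
  linarith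

end Pool.Agent.Lib.G3
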