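import Pool.Agent.Lib.G3.TwBil
import Pool.Agent.Lib.G3.Vdd
import Pool.Agent.Lib.SW.Vaughan

/-!
# G3 / TwI: the Type I part of the twist
-/

set_option autoImplicit false

open Finset
open scoped ArithmeticFunction.Moebius ArithmeticFunction.vonMangoldt

namespace Pool.Agent.Lib.G3

/-- logarithmic weights -/
theorem twi_abel (z : ℕ → ℂ) (K : ℕ) (B : ℝ) (hB : ∀ j ∈ Ico 1 K, ‖∑ k ∈ Ioc j K, z k‖ ≤ B) :
    ‖∑ k ∈ Icc 1 K, (Real.log k : ℂ) * z k‖ ≤ Real.log K * B := by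
  have h1 : ∀ k ∈ Icc 1 K, (Real.log k : ℂ) * z k =
      ∑ j ∈ Ico 1 k, (((Real.log ((j + 1 : ℕ) : ℝ) - Real.log j : ℝ)) : ℂ) * z k := by
    intro k hk
    rw [mem_Icc] at hk
    rw [← sum_mul]
    congr 1
    rw [← Complex.ofReal_sum, Finset.sum_Ico_sub (fun j : ℕ => Real.log (j : ℝ)) hk.1]
    simp
  have h2 : ∑ k ∈ Icc 1 K, (Real.log k : ℂ) * z k =
      ∑ j ∈ Ico 1 K, (((Real.log ((j + 1 : ℕ) : ℝ) - Real.log j : ℝ)) : ℂ) * ∑ k ∈ Ioc j K, z k := by
    rw [sum_congr rfl h1, Finset.sum_comm' (s' := fun j => Ioc j K) (t' := Ico 1 K)]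
    · exact sum_congr rfl fun j _ => (mul_sum _ _ _).symm
    · intro k j
      simp only [mem_Icc, mem_Ico, mem_Ioc]
      omega
  rw [h2]
  refine (norm_sum_le _ _).trans ?_
  have h3 : ∀ j ∈ Ico 1 K, ‖(((Real.log ((j + 1 : ℕ) : ℝ) - Real.log j : ℝ)) : ℂ) * ∑ k ∈ Ioc j K, z k‖ ≤
      (Real.log ((j + 1 : ℕ) : ℝ) - Real.log j) * B := by
    intro j hj
    have hj1 := (mem_Ico.1 hj).1
    have h4 : 0 ≤ Real.log ((j + 1 : ℕ) : ℝ) - Real.log j := by
      have : Real.log (j : ℝ) ≤ Real.log ((j + 1 : ℕ) : ℝ) := by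
        apply Real.log_le_log (by exact_mod_cast hj1)
        push_cast
        linarith
      linarith
    rw [norm_mul, Complex.norm_real, Real.norm_eq_abs, abs_of_nonneg h4]
    exact mul_le_mul_of_nonneg_left (hB j hj) h4
  refine (sum_le_sum h3).trans ?_
  rw [← sum_mul]
  rcases Nat.eq_zero_or_pos K with h0 | h0
  · subst h0
    simp
  · rw [Finset.sum_Ico_sub (fun j : ℕ => Real.log (j : ℝ)) h0]
    simp

/-- **The Type I part.** -/
theorem tw_I {c : ℝ} (hc : 0 < c) (hc1 : c ≤ 1) {N : ℕ} (hN : 1 ≤ N) {t : ℝ} (ht : 0 < t) (α : ℝ) (U V Y : ℕ)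
    (hY : (Y : ℝ) ≤ (1 - c) * N) :
    ‖∑ m ∈ Icc 1 U, ((μ m : ℝ) : ℂ) * ∑ k ∈ Icc 1 (Y / m), (Real.log k : ℂ) * ph N t α (m * k) -
      ∑ m ∈ Icc 1 (U * V), (SW.cUV U V m : ℂ) * ∑ k ∈ Icc 1 (Y / m), ph N t α (m * k)‖ ≤
      64 * (Real.sqrt t / c ^ 2 + N / Real.sqrt t) * (2 * U + U * V) * Real.log N := by
  have hN0 : (0 : ℝ) < N := by exact_mod_cast hN
  have hst : 0 < Real.sqrt t := Real.sqrt_pos.2 ht
  have hYN : Y ≤ N := by
    have : (Y : ℝ) ≤ N := hY.trans (by nlinarith)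
    exact_mod_cast this
  have hlogN : 0 ≤ Real.log N := Real.log_nonneg (by exact_mod_cast hN)
  set B : ℝ := 64 * (Real.sqrt t / c ^ 2 + N / Real.sqrt t) with hB
  have hB0 : 0 ≤ B := by positivity
  -- the inner sums
  have hin : ∀ m, 1 ≤ m → ∀ K0 : ℕ, ‖∑ k ∈ Ioc K0 (Y / m), ph N t α (m * k)‖ ≤ B := by
    intro m hm K0
    have hm0 : (0 : ℝ) < m := by exact_mod_cast hm
    have hm1 : (1 : ℝ) ≤ m := by exact_mod_cast hm
    have hK : ((m * (Y / m) : ℕ) : ℝ) ≤ (1 - c) * N := by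
      refine le_trans ?_ hY
      exact_mod_cast Nat.mul_div_le Y m
    have h := twI hc hm hN ht (α * m) (K0 := K0) hK
    have e : ∑ k ∈ Ioc K0 (Y / m), ph N t α (m * k) =
        ∑ k ∈ Ioc K0 (Y / m), Complex.exp (Complex.I * ((t * Real.log ((N : ℝ) - m * k) + α * m * k : ℝ) : ℂ)) := by
      refine sum_congr rfl fun k _ => ?_
      unfold ph
      congr 3
      push_cast
      ring
    rw [e]
    refine h.trans ?_
    rw [hB]
    apply mul_le_mul_of_nonneg_left _ (by norm_num)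
    apply add_le_add
    · have h1 : ((Y / m : ℕ) : ℝ) * m ≤ N := by
        have : ((m * (Y / m) : ℕ) : ℝ) ≤ N := hK.trans (by nlinarith)
        push_cast at this
        linarith
      calc 1 / c ^ 2 * ((Y / m : ℕ) : ℝ) * (m * Real.sqrt t / N) = (((Y / m : ℕ) : ℝ) * m / N) * (Real.sqrt t / c ^ 2) := by ring
        _ ≤ 1 * (Real.sqrt t / c ^ 2) := by
          apply mul_le_mul_of_nonneg_right _ (by positivity)
          rw [div_le_one hN0]
          exact h1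
        _ = _ := one_mul _
    · apply div_le_div_of_nonneg_left hN0.le hst
      nlinarith
  have hIcc : ∀ n : ℕ, Icc 1 n = Ioc 0 n := by
    intro n
    ext x
    simp only [mem_Icc, mem_Ioc]
    omega
  have h1 : ∀ m ∈ Icc 1 U, ‖((μ m : ℝ) : ℂ) * ∑ k ∈ Icc 1 (Y / m), (Real.log k : ℂ) * ph N t α (m * k)‖ ≤ B * Real.log N := by
    intro m hm
    rw [mem_Icc] at hm
    have h2 := twi_abel (fun k => ph N t α (m * k)) (Y / m) B (fun j _ => hin m hm.1 j)
    have h3 : Real.log ((Y / m : ℕ) : ℝ) ≤ Real.log N := by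
      rcases Nat.eq_zero_or_pos (Y / m) with h0 | h0
      · rw [h0]
        simpa using hlogN
      · apply Real.log_le_log (by exact_mod_cast h0)
        exact_mod_cast (Nat.div_le_self Y m).trans hYN
    rw [norm_mul]
    have h4 : ‖((μ m : ℝ) : ℂ)‖ ≤ 1 := by
      rw [Complex.norm_real, Real.norm_eq_abs]
      have := ArithmeticFunction.abs_moebius_le_one (n := m)
      exact_mod_cast this
    calc _ ≤ 1 * (Real.log ((Y / m : ℕ) : ℝ) * B) := mul_le_mul h4 h2 (norm_nonneg _) (by norm_num)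
      _ = B * Real.log ((Y / m : ℕ) : ℝ) := by ring
      _ ≤ _ := mul_le_mul_of_nonneg_left h3 hB0
  have h2 : ∀ m ∈ Icc 1 (U * V), ‖(SW.cUV U V m : ℂ) * ∑ k ∈ Icc 1 (Y / m), ph N t α (m * k)‖ ≤ B * Real.log N := by
    intro m hm
    rw [mem_Icc] at hm
    rcases Nat.lt_or_ge Y m with h0 | h0
    · rw [Nat.div_eq_of_lt h0]
      simp only [Finset.Icc_eq_empty_of_lt (Nat.zero_lt_one), sum_empty, mul_zero, norm_zero]
      positivity
    · rw [norm_mul, Complex.norm_real, Real.norm_eq_abs]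
      have h3 : |SW.cUV U V m| ≤ Real.log N := by
        refine (SW.abs_cUV_le U V m hm.1).trans ?_
        apply Real.log_le_log (by exact_mod_cast hm.1)
        exact_mod_cast h0.trans hYN
      have h4 := hin m hm.1 0
      rw [← hIcc] at h4
      calc _ ≤ Real.log N * B := mul_le_mul h3 h4 (norm_nonneg _) hlogN
        _ = _ := by ring
  refine (norm_sub_le _ _).trans ?_
  have h3 : ‖∑ m ∈ Icc 1 U, ((μ m : ℝ) : ℂ) * ∑ k ∈ Icc 1 (Y / m), (Real.log k : ℂ) * ph N t α (m * k)‖ ≤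
      U * (B * Real.log N) := by
    refine (norm_sum_le _ _).trans ((sum_le_sum h1).trans (le_of_eq ?_))
    rw [sum_const, nsmul_eq_mul, Nat.card_Icc, Nat.add_sub_cancel]
  have h4 : ‖∑ m ∈ Icc 1 (U * V), (SW.cUV U V m : ℂ) * ∑ k ∈ Icc 1 (Y / m), ph N t α (m * k)‖ ≤
      (U * V) * (B * Real.log N) := by
    refine (norm_sum_le _ _).trans ((sum_le_sum h2).trans (le_of_eq ?_))
    rw [sum_const, nsmul_eq_mul, Nat.card_Icc, Nat.add_sub_cancel]
    push_cast
    ring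
  have h5 : 0 ≤ (U : ℝ) * (B * Real.log N) := by positivity
  have h6 : B * (2 * U + U * V) * Real.log N = U * (B * Real.log N) + U * (B * Real.log N) + (U * V) * (B * Real.log N) := by
    ring
  rw [h6]
  linarith

end Pool.Agent.Lib.G3
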