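import Pool.Agent.Lib.G3.Defs

/-!
# G3, row VB, first part: algebra of local mean squares, separation of fractions
-/

set_option autoImplicit false

open Finset

namespace Pool.Agent.Lib.G3

open Pool.Agent.Lib.GT (e)

theorem vb_norm_e (x : ℝ) : ‖e x‖ = 1 := by
  unfold Pool.Agent.Lib.GT.e
  rw [show (2 * Real.pi * x * Complex.I : ℂ) = ((2 * Real.pi * x : ℝ) : ℂ) * Complex.I by push_cast; ring]
  exact Complex.norm_exp_ofReal_mul_I _

theorem vb_e_add (x y : ℝ) : e (x + y) = e x * e y := by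
  unfold Pool.Agent.Lib.GT.e
  rw [← Complex.exp_add]
  congr 1
  push_cast
  ring

theorem vb_e_int (m : ℤ) : e (m : ℝ) = 1 := by
  unfold Pool.Agent.Lib.GT.e
  rw [show (2 * Real.pi * ((m : ℝ) : ℂ) * Complex.I : ℂ) = m * (2 * Real.pi * Complex.I) by push_cast; ring]
  exact Complex.exp_int_mul_two_pi_mul_I m

theorem vb_e_zero : e 0 = 1 := by
  have := vb_e_int 0
  simpa using this

theorem VV_nonneg (F : ℕ → ℂ) (H : ℕ) (α : ℝ) (Y : ℕ) : 0 ≤ VV F H α Y := sum_nonneg fun _ _ => by positivity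

theorem VV_mod (f : ℕ → ℂ) (H : ℕ) (α β : ℝ) (Y : ℕ) : VV (fun n => e (n * β) * f n) H α Y = VV f H (α + β) Y := by
  unfold VV WW
  refine sum_congr rfl fun y _ => ?_
  congr 2
  refine sum_congr rfl fun n _ => ?_
  rw [mul_add, vb_e_add]
  ring

theorem VV_add_int (F : ℕ → ℂ) (H : ℕ) (α : ℝ) (m : ℤ) (Y : ℕ) : VV F H (α + m) Y = VV F H α Y := by
  unfold VV WW
  refine sum_congr rfl fun y _ => ?_
  congr 2
  refine sum_congr rfl fun n _ => ?_
  rw [mul_add, vb_e_add, show (n : ℝ) * (m : ℝ) = (((n : ℤ) * m : ℤ) : ℝ) by push_cast; ring, vb_e_int, mul_one]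

theorem VV_add_le (F G : ℕ → ℂ) (H : ℕ) (α : ℝ) (Y : ℕ) :
    VV (fun n => F n + G n) H α Y ≤ 2 * VV F H α Y + 2 * VV G H α Y := by
  unfold VV
  rw [mul_sum, mul_sum, ← sum_add_distrib]
  refine sum_le_sum fun y _ => ?_
  have h1 : WW (fun n => F n + G n) H α y = WW F H α y + WW G H α y := by
    unfold WW
    rw [← sum_add_distrib]
    exact sum_congr rfl fun n _ => by ring
  rw [h1]
  have h2 := norm_add_le (WW F H α y) (WW G H α y)
  have h3 : ‖WW F H α y + WW G H α y‖ ^ 2 ≤ (‖WW F H α y‖ + ‖WW G H α y‖) ^ 2 := pow_le_pow_left₀ (norm_nonneg _) h2 2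
  nlinarith [sq_nonneg (‖WW F H α y‖ - ‖WW G H α y‖)]

theorem VV_neg (F : ℕ → ℂ) (H : ℕ) (α : ℝ) (Y : ℕ) : VV (fun n => -F n) H α Y = VV F H α Y := by
  unfold VV WW
  refine sum_congr rfl fun y _ => ?_
  congr 1
  rw [← norm_neg, ← sum_neg_distrib]
  congr 1
  exact sum_congr rfl fun n _ => by ring

theorem VV_sum_le {ι : Type*} (s : Finset ι) (f : ι → ℕ → ℂ) (H : ℕ) (α : ℝ) (Y : ℕ) :
    VV (fun n => ∑ i ∈ s, f i n) H α Y ≤ s.card * ∑ i ∈ s, VV (f i) H α Y := by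
  unfold VV
  rw [sum_comm, mul_sum]
  refine sum_le_sum fun y _ => ?_
  have h1 : WW (fun n => ∑ i ∈ s, f i n) H α y = ∑ i ∈ s, WW (f i) H α y := by
    unfold WW
    rw [sum_comm]
    exact sum_congr rfl fun n _ => by rw [sum_mul]
  rw [h1]
  refine (pow_le_pow_left₀ (norm_nonneg _) (norm_sum_le _ _) 2).trans ?_
  exact sq_sum_le_card_mul_sum_sq

theorem VV_stable {F : ℕ → ℂ} {X : ℕ} (hF : ∀ n, X < n → F n = 0) (H : ℕ) (α : ℝ) {Y : ℕ} (hY : X + H + 1 ≤ Y) :
    VV F H α Y = VV F H α (X + H + 1) := by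
  unfold VV
  obtain ⟨d, rfl⟩ := Nat.exists_eq_add_of_le hY
  rw [sum_range_add]
  rw [add_eq_left]
  refine sum_eq_zero fun y _ => ?_
  have : WW F H α (X + H + 1 + y) = 0 := by
    unfold WW
    refine sum_eq_zero fun n hn => ?_
    rw [mem_Ioc] at hn
    rw [hF n (by omega), zero_mul]
  rw [this, norm_zero]
  norm_num

/-- reduced fractions with different denominators are separated modulo 1 -/
theorem frac_sep {q q' : ℕ} (hq : 1 ≤ q) (hq' : 1 ≤ q') {a b : ℤ} (h : a * q' - b * q ≠ 0) :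
    1 / ((q : ℝ) * q') ≤ |(a : ℝ) / q - (b : ℝ) / q'| := by
  have h0 : (0 : ℝ) < q := by exact_mod_cast hq
  have h1 : (0 : ℝ) < q' := by exact_mod_cast hq'
  have h2 : (a : ℝ) / q - (b : ℝ) / q' = ((a * q' - b * q : ℤ) : ℝ) / (q * q') := by
    push_cast
    field_simp
  rw [h2, abs_div, abs_of_pos (mul_pos h0 h1)]
  refine div_le_div_of_nonneg_right ?_ (mul_pos h0 h1).le
  have h3 : (1 : ℤ) ≤ |a * q' - b * q| := Int.one_le_abs h
  have h4 : (1 : ℝ) ≤ ((|a * q' - b * q| : ℤ) : ℝ) := by exact_mod_cast h3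
  rwa [Int.cast_abs] at h4

theorem sep_cl {q q' b b' : ℕ} (hq : 1 ≤ q) (hq' : 1 ≤ q') (hb : b ∈ cl q) (hb' : b' ∈ cl q') (hne : (q, b) ≠ (q', b')) (m : ℤ) :
    1 / ((q : ℝ) * q') ≤ |-((b : ℝ) / q) + (b' : ℝ) / q' - m| := by
  unfold cl at hb hb'
  rw [mem_filter, mem_range] at hb hb'
  have h := frac_sep hq hq' (a := -(b : ℤ)) (b := -(b' : ℤ) + m * q') ?_
  · refine h.trans_eq ?_
    have h1 : (0 : ℝ) < q' := by exact_mod_cast hq'
    congr 1
    push_cast
    field_simp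
    ring
  · intro h0
    have hqq : q = q' := by
      have h1 : (q : ℤ) ∣ b * q' := ⟨b' - m * q', by linear_combination -h0⟩
      have h2 : (q' : ℤ) ∣ b' * q := ⟨b + m * q, by linear_combination h0⟩
      have h3 : (q : ℤ) ∣ q' := (Nat.isCoprime_iff_coprime.2 hb.2).symm.dvd_of_dvd_mul_left h1
      have h4 : (q' : ℤ) ∣ q := (Nat.isCoprime_iff_coprime.2 hb'.2).symm.dvd_of_dvd_mul_left h2
      exact Nat.dvd_antisymm (by exact_mod_cast h3) (by exact_mod_cast h4)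
    subst hqq
    have h1 : (q : ℤ) * ((b' : ℤ) - b - m * q) = 0 := by linear_combination h0
    have h2 : (q : ℤ) ≠ 0 := by exact_mod_cast (by omega : q ≠ 0)
    have h3 : (b' : ℤ) - b - m * q = 0 := by
      rcases mul_eq_zero.1 h1 with h | h
      · exact absurd h h2
      · exact h
    have h4 : (b' : ℤ) - b = m * q := by linarith
    have hm : m = 0 := by
      by_contra hm
      have h5 : (q : ℤ) ≤ |m * q| := by
        rw [abs_mul, abs_of_nonneg (by positivity : (0 : ℤ) ≤ q)]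
        have := Int.one_le_abs hm
        nlinarith
      rw [← h4] at h5
      have h6 : |(b' : ℤ) - b| < q := by
        rw [abs_lt]
        constructor <;> omega
      omega
    rw [hm, zero_mul] at h4
    exact hne (by rw [Prod.mk.injEq]; exact ⟨rfl, by omega⟩)

theorem sep_den {q q' b' : ℕ} {a : ℤ} (hq : 1 ≤ q) (hq' : 1 ≤ q') (ha : IsCoprime a (q : ℤ)) (hb' : b' ∈ cl q') (hne : q ≠ q') (m : ℤ) :
    1 / ((q : ℝ) * q') ≤ |(a : ℝ) / q - (b' : ℝ) / q' + m| := by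
  unfold cl at hb'
  rw [mem_filter, mem_range] at hb'
  have h := frac_sep hq hq' (a := a) (b := (b' : ℤ) - m * q') ?_
  · refine h.trans_eq ?_
    have h1 : (0 : ℝ) < q' := by exact_mod_cast hq'
    congr 1
    push_cast
    field_simp
    ring
  · intro h0
    refine hne ?_
    have h1 : (q : ℤ) ∣ a * q' := ⟨b' - m * q', by linear_combination h0⟩
    have h2 : (q' : ℤ) ∣ b' * q := ⟨a + m * q, by linear_combination -h0⟩
    have h3 : (q : ℤ) ∣ q' := (ha.symm).dvd_of_dvd_mul_left h1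
    have h4 : (q' : ℤ) ∣ q := (Nat.isCoprime_iff_coprime.2 hb'.2).symm.dvd_of_dvd_mul_left h2
    exact Nat.dvd_antisymm (by exact_mod_cast h3) (by exact_mod_cast h4)

end Pool.Agent.Lib.G3
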