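import Pool.Agent.Lib.G3.VbB
import Pool.Agent.Lib.G3.G2Defs

/-!
# G4, generic form of row VB, second part: major and minor frequencies for an arbitrary `F` and family of frequencies
-/

set_option autoImplicit false

open Finset

namespace Pool.Agent.Lib.G3

open Pool.Agent.Lib.MRT (cj kap)
open Pool.Agent.Lib.GT (e)

theorem MG_eqG (F : ℕ → ℂ) (X Q : ℕ) (J : ℕ → Finset ℤ) (n : ℕ) : MG F X Q J n =
    ∑ i ∈ ix Q, e (n * ((i.2 : ℝ) / i.1)) * mo (bq F X ((i.2 : ℝ) / i.1)) (J i.1) X n := by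
  unfold MG ix
  rw [sum_filter, sum_product]
  refine sum_congr rfl fun q hq => ?_
  rw [mem_Icc] at hq
  rw [← sum_filter]
  refine sum_congr ?_ fun _ _ => rfl
  ext b
  rw [mem_filter, mem_range]
  simp only
  constructor
  · intro h
    refine ⟨?_, h⟩
    unfold cl at h
    rw [mem_filter, mem_range] at h
    omega
  · exact fun h => h.2

/-- the bound of every component of the model away from its own frequency -/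
theorem comp_awayG : ∃ C : ℝ, 0 < C ∧ ∀ (F : ℕ → ℂ) (J : Finset ℤ) (X T H : ℕ) (γ0 ρ D γ1 γ : ℝ),
    (∀ n, ‖F n‖ ≤ 1) → 1 ≤ X → 1 ≤ H → 1000 * H ≤ X → 0 < ρ → 4 * ρ ≤ γ0 → (∀ m : ℤ, γ0 ≤ |γ - m|) → 1000 * T ≤ X →
    1000 * (H : ℝ) ≤ ρ * X → (∀ j ∈ J, |j| ≤ (T : ℤ)) → (J.card : ℝ) ≤ D →
      VV (fun n => mo (bq F X γ1) J X n) H γ (X + H + 1) ≤
        C * D ^ 2 * X * ((H : ℝ) ^ 2 * (ρ / γ0) + 1 / ρ ^ 2 + (H : ℝ) ^ 3 / X) := by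
  obtain ⟨C, hC, h⟩ := awayMo
  refine ⟨C, hC, fun F J X T H γ0 ρ D γ1 γ hF hX hH hHX hρ hργ hγ hT hHρ hJT hD => ?_⟩
  have hXr : (1 : ℝ) ≤ X := by exact_mod_cast hX
  have hX0 : (0 : ℝ) < X := by linarith
  have hHr : (0 : ℝ) ≤ H := Nat.cast_nonneg _
  have hTr : 1000 * (T : ℝ) ≤ X := by exact_mod_cast hT
  have hγ0 : 0 < γ0 := by linarith
  have h1 := h X H γ γ0 ρ X T (bq F X γ1) J hH hHX hρ hργ hγ ?_ hTr ?_ hX0.le ?_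
  · refine h1.trans ?_
    have hJ0 : (0 : ℝ) ≤ J.card := Nat.cast_nonneg _
    have e1 : (1 / (X : ℝ) * ((H : ℝ) ^ 2 * (ρ / γ0) + 1 / ρ ^ 2) + (H : ℝ) ^ 3 / (X : ℝ) ^ 2) * (X : ℝ) ^ 2 =
        X * ((H : ℝ) ^ 2 * (ρ / γ0) + 1 / ρ ^ 2 + (H : ℝ) ^ 3 / X) := by
      field_simp
    have h2 : 0 ≤ (H : ℝ) ^ 2 * (ρ / γ0) + 1 / ρ ^ 2 + (H : ℝ) ^ 3 / X := by positivity
    calc C * (J.card : ℝ) ^ 2 * (X : ℝ) ^ 2 * (1 / X * ((H : ℝ) ^ 2 * (ρ / γ0) + 1 / ρ ^ 2) + (H : ℝ) ^ 3 / (X : ℝ) ^ 2)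
        = C * (J.card : ℝ) ^ 2 * ((1 / (X : ℝ) * ((H : ℝ) ^ 2 * (ρ / γ0) + 1 / ρ ^ 2) + (H : ℝ) ^ 3 / (X : ℝ) ^ 2) * (X : ℝ) ^ 2) := by ring
      _ = C * (J.card : ℝ) ^ 2 * (X * ((H : ℝ) ^ 2 * (ρ / γ0) + 1 / ρ ^ 2 + (H : ℝ) ^ 3 / X)) := by rw [e1]
      _ ≤ C * D ^ 2 * (X * ((H : ℝ) ^ 2 * (ρ / γ0) + 1 / ρ ^ 2 + (H : ℝ) ^ 3 / X)) := by gcongr
      _ = C * D ^ 2 * X * ((H : ℝ) ^ 2 * (ρ / γ0) + 1 / ρ ^ 2 + (H : ℝ) ^ 3 / X) := by ring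
  · intro j hj
    exact_mod_cast hJT j hj
  · calc 1000000 * (T : ℝ) * H = (1000 * T) * (1000 * H) := by ring
      _ ≤ X * (ρ * X) := by gcongr
      _ = ρ * X ^ 2 := by ring
  · exact fun j _ => bq_le hF X _ j

/-- the model is bounded -/
theorem MG_leG {F : ℕ → ℂ} {X Q : ℕ} {J : ℕ → Finset ℤ} {D : ℝ} (hF : ∀ n, ‖F n‖ ≤ 1) (hX : 1 ≤ X) (hD0 : 0 ≤ D)
    (hD : ∀ q, 1 ≤ q → q ≤ Q → ((J q).card : ℝ) ≤ D) (n : ℕ) :
    ‖MG F X Q J n‖ ≤ 400 * (Q : ℝ) ^ 2 * D := by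
  rw [MG_eqG]
  refine (norm_sum_le _ _).trans ?_
  have hX0 : (0 : ℝ) < X := by exact_mod_cast hX
  have h1 : ∀ i ∈ ix Q, ‖e (n * ((i.2 : ℝ) / i.1)) * mo (bq F X ((i.2 : ℝ) / i.1)) (J i.1) X n‖ ≤ 200 * D := by
    intro i hi
    rw [mem_ix] at hi
    rw [norm_mul, vb_norm_e, one_mul]
    refine (mo_le hX hX0.le (fun j _ => bq_le hF X _ j) n).trans ?_
    have h2 := hD i.1 hi.1 hi.2.1
    rw [div_le_iff₀ hX0]
    nlinarith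
  refine (sum_le_card_nsmul _ _ _ h1).trans ?_
  rw [nsmul_eq_mul]
  have h3 := ix_card Q
  nlinarith

/-- minor frequencies -/
theorem vb_minorG : ∃ C : ℝ, 0 < C ∧ ∀ (F : ℕ → ℂ) (X Q T : ℕ) (J : ℕ → Finset ℤ) (H q n : ℕ) (a0 : ℤ) (γ0 ρ D α Z : ℝ),
    (∀ n, ‖F n‖ ≤ 1) → 1 ≤ X → 1 ≤ H → 1000 * H ≤ X → 0 < ρ → 4 * ρ ≤ γ0 → 1000 * T ≤ X → 1000 * (H : ℝ) ≤ ρ * X →
    (∀ q, 1 ≤ q → q ≤ Q → (∀ j ∈ J q, |j| ≤ (T : ℤ)) ∧ ((J q).card : ℝ) ≤ D) → 0 ≤ D → 1 ≤ q → IsCoprime a0 (q : ℤ) → Q < q → q ≤ n → 2 * Q ≤ n →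
    |-α - a0 / q| ≤ 1 / ((n + 1) * q) → 2 * Q * n * γ0 ≤ 1 → VV F H α (X + H + 1) ≤ Z →
      VV (fun m => F m - MG F X Q J m) H α (X + H + 1) ≤
        2 * Z + C * (Q : ℝ) ^ 4 * D ^ 2 * X * ((H : ℝ) ^ 2 * (ρ / γ0) + 1 / ρ ^ 2 + (H : ℝ) ^ 3 / X) := by
  obtain ⟨C2, hC2, h2⟩ := comp_awayG
  refine ⟨8 * C2, by positivity, ?_⟩
  intro F X Q T J H q n a0 γ0 ρ D α Z hF1 hX hH hHX hρ hργ hT hHρ hD hD0 hq hco hQq hqn hQn hα hγ0 hF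
  have hq0 : (0 : ℝ) < q := by exact_mod_cast hq
  have hXr : (0 : ℝ) < X := by exact_mod_cast hX
  have hγp : 0 < γ0 := by linarith
  have hn1 : (q : ℝ) ≤ n := by exact_mod_cast hqn
  have hn0 : (0 : ℝ) < n := by linarith
  -- the part of the model
  set f : ℕ × ℕ → ℕ → ℂ := fun i m => e (m * ((i.2 : ℝ) / i.1)) * mo (bq F X ((i.2 : ℝ) / i.1)) (J i.1) X m with hf
  have hM : VV (fun m => MG F X Q J m) H α (X + H + 1) ≤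
      4 * (Q : ℝ) ^ 4 * (C2 * D ^ 2 * X * ((H : ℝ) ^ 2 * (ρ / γ0) + 1 / ρ ^ 2 + (H : ℝ) ^ 3 / X)) := by
    have e1 : (fun m => MG F X Q J m) = fun m => ∑ i ∈ ix Q, f i m := by
      funext m
      rw [MG_eqG]
    rw [e1]
    refine (VV_sum_le _ _ _ _ _).trans ?_
    have h3 : ∀ i ∈ ix Q, VV (f i) H α (X + H + 1) ≤ C2 * D ^ 2 * X * ((H : ℝ) ^ 2 * (ρ / γ0) + 1 / ρ ^ 2 + (H : ℝ) ^ 3 / X) := by
      intro i hi
      rw [mem_ix] at hi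
      rw [hf, VV_mod]
      obtain ⟨hD1, hD2⟩ := hD i.1 hi.1 hi.2.1
      refine h2 F (J i.1) X T H γ0 ρ D _ _ hF1 hX hH hHX hρ hργ (fun m => ?_) hT hHρ hD1 hD2
      have hi0 : (0 : ℝ) < i.1 := by exact_mod_cast hi.1
      have hiQ : (i.1 : ℝ) ≤ Q := by exact_mod_cast hi.2.1
      have h4 := sep_den (a := a0) hq hi.1 hco hi.2.2 (by omega) m
      have h5 : |(a0 : ℝ) / q - (i.2 : ℝ) / i.1 + m| ≤ |α + (i.2 : ℝ) / i.1 - m| + |-α - a0 / q| := by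
        have : (a0 : ℝ) / q - (i.2 : ℝ) / i.1 + m = -(α + (i.2 : ℝ) / i.1 - m) + -(-α - a0 / q) := by ring
        rw [this]
        refine (abs_add_le _ _).trans ?_
        rw [abs_neg, abs_neg]
      have h6 : γ0 + 1 / ((n + 1) * q) ≤ 1 / ((q : ℝ) * i.1) := by
        have h7 : 1 / (((n : ℝ) + 1) * q) ≤ 1 / (2 * ((q : ℝ) * i.1)) := by
          refine one_div_le_one_div_of_le (by positivity) ?_
          have : 2 * (Q : ℝ) ≤ n := by exact_mod_cast hQn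
          nlinarith
        have h8 : γ0 ≤ 1 / (2 * ((q : ℝ) * i.1)) := by
          rw [le_div_iff₀ (by positivity)]
          refine le_trans ?_ hγ0
          have h9 : (q : ℝ) * i.1 ≤ n * Q := mul_le_mul hn1 hiQ hi0.le hn0.le
          nlinarith
        have h9 : 1 / (2 * ((q : ℝ) * i.1)) + 1 / (2 * ((q : ℝ) * i.1)) = 1 / ((q : ℝ) * i.1) := by
          field_simp
          norm_num
        linarith
      linarith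
    refine (mul_le_mul_of_nonneg_left (sum_le_card_nsmul _ _ _ h3) (Nat.cast_nonneg _)).trans ?_
    rw [nsmul_eq_mul, ← mul_assoc]
    have h10 := ix_card Q
    have h11 : 0 ≤ C2 * D ^ 2 * X * ((H : ℝ) ^ 2 * (ρ / γ0) + 1 / ρ ^ 2 + (H : ℝ) ^ 3 / X) := by positivity
    refine mul_le_mul_of_nonneg_right ?_ h11
    have h12 : (0 : ℝ) ≤ (ix Q).card := Nat.cast_nonneg _
    calc ((ix Q).card : ℝ) * (ix Q).card ≤ (2 * (Q : ℝ) ^ 2) * (2 * (Q : ℝ) ^ 2) := mul_le_mul h10 h10 h12 (by positivity)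
      _ = 4 * (Q : ℝ) ^ 4 := by ring
  have e2 : (fun m => F m - MG F X Q J m) = fun m => F m + (fun m => -MG F X Q J m) m := by
    funext m
    ring
  rw [e2]
  refine (VV_add_le _ _ _ _ _).trans ?_
  rw [VV_neg]
  linarith

/-- rational frequencies with small denominator -/
theorem vb_ratG : ∃ C : ℝ, 0 < C ∧ ∀ (F : ℕ → ℂ) (X Q T : ℕ) (J : ℕ → Finset ℤ) (H : ℕ) (i0 : ℕ × ℕ) (ρ D Z : ℝ),
    (∀ n, ‖F n‖ ≤ 1) → 1 ≤ X → 1 ≤ H → 1000 * H ≤ X → 0 < ρ → 4 * ρ * (Q : ℝ) ^ 2 ≤ 1 → 1000 * T ≤ X → 1000 * (H : ℝ) ≤ ρ * X →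
    (∀ q, 1 ≤ q → q ≤ Q → (∀ j ∈ J q, |j| ≤ (T : ℤ)) ∧ ((J q).card : ℝ) ≤ D) → 0 ≤ D → 1 ≤ Q → i0 ∈ ix Q →
    ∑ y ∈ range (X + H + 1), ‖∑ n ∈ Ioc (y - H) y, (F n * e (-(n * ((i0.2 : ℝ) / i0.1))) -
        mo (bq F X ((i0.2 : ℝ) / i0.1)) (J i0.1) X n)‖ ^ 2 ≤ Z →
      VV (fun m => F m - MG F X Q J m) H (-((i0.2 : ℝ) / i0.1)) (X + H + 1) ≤
        2 * Z + C * (Q : ℝ) ^ 4 * D ^ 2 * X * ((H : ℝ) ^ 2 * (ρ * (Q : ℝ) ^ 2) + 1 / ρ ^ 2 + (H : ℝ) ^ 3 / X) := by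
  obtain ⟨C2, hC2, h2⟩ := comp_awayG
  refine ⟨8 * C2, by positivity, ?_⟩
  intro F X Q T J H i0 ρ D Z hF1 hX hH hHX hρ hργ hT hHρ hD hD0 hQ hi0 hZ
  have hXr : (0 : ℝ) < X := by exact_mod_cast hX
  have hQr : (1 : ℝ) ≤ Q := by exact_mod_cast hQ
  set f : ℕ × ℕ → ℕ → ℂ := fun i m => e (m * ((i.2 : ℝ) / i.1)) * mo (bq F X ((i.2 : ℝ) / i.1)) (J i.1) X m with hf
  have hi0' := mem_ix.1 hi0
  have e1 : (fun m => F m - MG F X Q J m) =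
      fun m => (fun m => F m - f i0 m) m + (fun m => -∑ i ∈ (ix Q).erase i0, f i m) m := by
    funext m
    simp only
    rw [MG_eqG, ← add_sum_erase _ _ hi0]
    simp only [hf]
    ring
  rw [e1]
  refine (VV_add_le _ _ _ _ _).trans ?_
  have hA : VV (fun m => F m - f i0 m) H (-((i0.2 : ℝ) / i0.1)) (X + H + 1) ≤ Z := by
    refine le_trans (le_of_eq ?_) hZ
    unfold VV WW
    refine sum_congr rfl fun y _ => ?_
    congr 2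
    refine sum_congr rfl fun n _ => ?_
    have h3 : e (n * ((i0.2 : ℝ) / i0.1)) * e (n * (-((i0.2 : ℝ) / i0.1))) = 1 := by
      rw [← vb_e_add, ← vb_e_zero]
      congr 1
      ring
    have h4 : (n : ℝ) * (-((i0.2 : ℝ) / i0.1)) = -(n * ((i0.2 : ℝ) / i0.1)) := by ring
    rw [hf]
    simp only
    rw [sub_mul, h4]
    congr 1
    rw [h4] at h3
    linear_combination (mo (bq F X ((i0.2 : ℝ) / i0.1)) (J i0.1) X n) * h3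
  have hM : VV (fun m => -∑ i ∈ (ix Q).erase i0, f i m) H (-((i0.2 : ℝ) / i0.1)) (X + H + 1) ≤
      4 * (Q : ℝ) ^ 4 * (C2 * D ^ 2 * X * ((H : ℝ) ^ 2 * (ρ * (Q : ℝ) ^ 2) + 1 / ρ ^ 2 + (H : ℝ) ^ 3 / X)) := by
    rw [VV_neg]
    refine (VV_sum_le _ _ _ _ _).trans ?_
    have h3 : ∀ i ∈ (ix Q).erase i0, VV (f i) H (-((i0.2 : ℝ) / i0.1)) (X + H + 1) ≤
        C2 * D ^ 2 * X * ((H : ℝ) ^ 2 * (ρ * (Q : ℝ) ^ 2) + 1 / ρ ^ 2 + (H : ℝ) ^ 3 / X) := by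
      intro i hi
      rw [mem_erase] at hi
      have hi' := mem_ix.1 hi.2
      rw [hf, VV_mod]
      have h5 : ρ * (Q : ℝ) ^ 2 = ρ / (1 / (Q : ℝ) ^ 2) := by field_simp
      rw [h5]
      obtain ⟨hD1, hD2⟩ := hD i.1 hi'.1 hi'.2.1
      refine h2 F (J i.1) X T H (1 / (Q : ℝ) ^ 2) ρ D _ _ hF1 hX hH hHX hρ ?_ (fun m => ?_) hT hHρ hD1 hD2
      · rw [le_div_iff₀ (by positivity)]
        exact hργ
      · have h6 := sep_cl hi0'.1 hi'.1 hi0'.2.2 hi'.2.2 (fun h => hi.1 h.symm) m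
        refine le_trans ?_ h6
        refine one_div_le_one_div_of_le ?_ ?_
        · have h7 : (0 : ℝ) < i0.1 := by exact_mod_cast hi0'.1
          have h8 : (0 : ℝ) < i.1 := by exact_mod_cast hi'.1
          positivity
        · have h7 : (i0.1 : ℝ) ≤ Q := by exact_mod_cast hi0'.2.1
          have h8 : (i.1 : ℝ) ≤ Q := by exact_mod_cast hi'.2.1
          rw [sq]
          exact mul_le_mul h7 h8 (Nat.cast_nonneg _) (by linarith)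
    refine (mul_le_mul_of_nonneg_left (sum_le_card_nsmul _ _ _ h3) (Nat.cast_nonneg _)).trans ?_
    rw [nsmul_eq_mul, ← mul_assoc]
    have h10 : (((ix Q).erase i0).card : ℝ) ≤ 2 * (Q : ℝ) ^ 2 := by
      refine le_trans ?_ (ix_card Q)
      exact_mod_cast card_le_card (erase_subset _ _)
    have h11 : 0 ≤ C2 * D ^ 2 * X * ((H : ℝ) ^ 2 * (ρ * (Q : ℝ) ^ 2) + 1 / ρ ^ 2 + (H : ℝ) ^ 3 / X) := by positivity
    refine mul_le_mul_of_nonneg_right ?_ h11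
    have h12 : (0 : ℝ) ≤ ((ix Q).erase i0).card := Nat.cast_nonneg _
    calc (((ix Q).erase i0).card : ℝ) * ((ix Q).erase i0).card ≤ (2 * (Q : ℝ) ^ 2) * (2 * (Q : ℝ) ^ 2) := mul_le_mul h10 h10 h12 (by positivity)
      _ = 4 * (Q : ℝ) ^ 4 := by ring
  linarith

end Pool.Agent.Lib.G3
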