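import Pool.Agent.Lib.G3.VbG
import Pool.Agent.Lib.G3.Gsum
import Pool.Agent.Lib.G3.Minor
import Pool.Agent.Lib.G3.J2c
import Pool.Agent.Lib.G3.MrM
import Pool.Agent.Lib.G3.BmF
import Pool.Agent.Lib.G3.ParM4

/-!
# G4, row VB: the generic theorem for `bm` (at least three primes)
-/

set_option autoImplicit false

open Finset

namespace Pool.Agent.Lib.G3

open Pool.Agent.Lib.MRT (cj kap)
open Pool.Agent.Lib.GT (e)
open Pool.Agent.Lib.SW (nd gmin)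

theorem minG : ∃ C : ℝ, 0 < C ∧ ∀ (P M1 H q X : ℕ) (F : ℕ → ℂ) (a0 : ℤ) (α : ℝ) (Y : ℕ), (∃ c b : ℕ → ℂ, (∀ n, ‖c n‖ ≤ 1) ∧ (∀ n, ‖b n‖ ≤ 1) ∧
    ∀ n, F n = ∑ p ∈ Ioc P (2 * P), ∑ m ∈ Icc 1 M1, if p * m = n then c p * b m else 0) → P * M1 ≤ 4 * X → 1 ≤ P →
    1 ≤ H → 1 ≤ q → IsCoprime a0 (q : ℤ) → |α - a0 / q| ≤ 1 / (q : ℝ) ^ 2 →
      VV F H α Y ≤ C * X * H * ((H : ℝ) / P + 1 + ((H : ℝ) / q + P + q + P / q) * Real.log (2 * q * P)) := by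
  obtain ⟨C, hC, hg⟩ := gsum
  refine ⟨160 * (C + 1), by positivity, ?_⟩
  intro P M1 H q X F a0 α Y hbil hPM hP hH hq hco hα
  obtain ⟨c, b, hc, hb, hF⟩ := hbil
  have h1 := minor hP hH c b F hc hb hF α Y
  have hP0 : (0 : ℝ) < P := by exact_mod_cast hP
  have hq0 : (0 : ℝ) < q := by exact_mod_cast hq
  have hH0 : (0 : ℝ) < H := by exact_mod_cast hH
  have hT : (1 : ℝ) ≤ (H : ℝ) / P + 1 := by
    have : (0 : ℝ) ≤ (H : ℝ) / P := by positivity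
    linarith
  have h2 := hg α ((H : ℝ) / P + 1) a0 q P hT hq hco hα hP
  have hl : 0 ≤ Real.log (2 * q * P) := by
    apply Real.log_nonneg
    have h1 : (1 : ℝ) ≤ q := by exact_mod_cast hq
    have h2 : (1 : ℝ) ≤ P := by exact_mod_cast hP
    nlinarith
  refine h1.trans ?_
  have e1 : ((H : ℝ) / P + 1) * P / q + P + q = (H : ℝ) / q + P + q + P / q := by
    field_simp
    ring
  rw [e1] at h2
  have h4 : 0 ≤ ((H : ℝ) / q + P + q + P / q) * Real.log (2 * q * P) := by positivity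
  have h3 : (H : ℝ) / P + 1 + ∑ k ∈ Icc 1 P, gmin ((H : ℝ) / P + 1) (k * α) ≤
      (C + 1) * ((H : ℝ) / P + 1 + ((H : ℝ) / q + P + q + P / q) * Real.log (2 * q * P)) := by
    have h5 : 0 ≤ C * ((H : ℝ) / P + 1) := by positivity
    nlinarith
  have h6 : (P : ℝ) * M1 ≤ 4 * X := by exact_mod_cast hPM
  calc 40 * (1 : ℝ) ^ 2 * M1 * H * P * ((H : ℝ) / P + 1 + ∑ k ∈ Icc 1 P, gmin ((H : ℝ) / P + 1) (k * α))
      ≤ 40 * (1 : ℝ) ^ 2 * M1 * H * P * ((C + 1) * ((H : ℝ) / P + 1 + ((H : ℝ) / q + P + q + P / q) * Real.log (2 * q * P))) :=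
        mul_le_mul_of_nonneg_left h3 (by positivity)
    _ = 40 * ((P : ℝ) * M1) * H * ((C + 1) * ((H : ℝ) / P + 1 + ((H : ℝ) / q + P + q + P / q) * Real.log (2 * q * P))) := by ring
    _ ≤ 40 * (4 * X) * H * ((C + 1) * ((H : ℝ) / P + 1 + ((H : ℝ) / q + P + q + P / q) * Real.log (2 * q * P))) := by gcongr
    _ = _ := by ring

/-- the number of frequencies, in powers of the logarithm -/
theorem J2_boundG (B g c5 : ℕ) : ∃ x0 : ℝ, ∀ X : ℕ, x0 ≤ X → ∀ q T : ℕ, 1 ≤ q → (q : ℝ) ≤ (Real.log X) ^ g → T ≤ X →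
    (∀ j ∈ J2 q X ⌊(Real.log X) ^ c5⌋₊ T B, |j| ≤ (T : ℤ)) ∧
      1 + ((J2 q X ⌊(Real.log X) ^ c5⌋₊ T B).card : ℝ) ≤ (Real.log X) ^ (c5 + g + (4 * B + 12) + 2) := by
  classical
  obtain ⟨x1, h1⟩ := J2_card B
  obtain ⟨x2, -, h2⟩ := grow 4 0
  refine ⟨max x1 x2, fun X hX q T hq hqL hT => ?_⟩
  have hL := (h2 X ((le_max_right _ _).trans hX)).1
  have h3 := (h1 X ((le_max_left _ _).trans hX) q ⌊(Real.log X) ^ c5⌋₊ T hq hT).2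
  obtain ⟨L, hLd⟩ : ∃ L, L = Real.log X := ⟨_, rfl⟩
  rw [← hLd] at hL h3 hqL ⊢
  have hL1 : (1 : ℝ) ≤ L := by linarith
  have hL0 : 0 < L := by linarith
  refine ⟨?_, ?_⟩
  · intro j hj
    unfold J2 at hj
    rw [mem_filter, mem_Icc] at hj
    exact abs_le.2 hj.1
  have h4 : ((⌊L ^ c5⌋₊ : ℕ) : ℝ) ≤ L ^ c5 := Nat.floor_le (by positivity)
  set b := 4 * B + 12 with hb
  have h5 : L ^ c5 ≤ L ^ (c5 + g + b) := pow_le_pow_right₀ hL1 (by omega)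
  have h6 : (q : ℝ) * L ^ b ≤ L ^ (c5 + g + b) := by
    calc (q : ℝ) * L ^ b ≤ L ^ g * L ^ b := by gcongr
      _ = L ^ (g + b) := (pow_add L g b).symm
      _ ≤ L ^ (c5 + g + b) := pow_le_pow_right₀ hL1 (by omega)
  have h7 : 1 ≤ L ^ (c5 + g + b) := one_le_pow₀ hL1
  rw [pow_add L (c5 + g + b) 2]
  have h10 : (16 : ℝ) ≤ L ^ 2 := by nlinarith
  nlinarith

/-- the frequencies outside the model -/
theorem J2_out {q X T B c5 c5m : ℕ} {l : ℝ} (hl : 1 ≤ l) (hc5 : c5m ≤ c5) {j : ℤ} (hj : j ∉ J2 q X ⌊l ^ c5⌋₊ T B) :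
    (l ^ c5m ≤ |(j : ℝ)| ∧ Qt X q B j) ∨ (T : ℝ) < |(j : ℝ)| := by
  classical
  by_cases hjT : (T : ℝ) < |(j : ℝ)|
  · exact Or.inr hjT
  · left
    rw [not_lt] at hjT
    have hjT' : |j| ≤ (T : ℤ) := by exact_mod_cast hjT
    unfold J2 at hj
    rw [mem_filter, mem_Icc, not_and, not_or, not_not] at hj
    obtain ⟨h1, h2⟩ := hj (abs_le.1 hjT')
    refine ⟨?_, h2⟩
    rw [not_le] at h1
    have h3 : ((⌊l ^ c5⌋₊ : ℕ) : ℤ) + 1 ≤ |j| := h1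
    have h4 : ((⌊l ^ c5⌋₊ : ℕ) : ℝ) + 1 ≤ |(j : ℝ)| := by exact_mod_cast h3
    have h5 : l ^ c5 < ((⌊l ^ c5⌋₊ : ℕ) : ℝ) + 1 := Nat.lt_floor_add_one _
    have h6 : l ^ c5m ≤ l ^ c5 := pow_le_pow_right₀ hl hc5
    linarith

/-- a number without prime factors `≤ P` is coprime to every `q ≤ P` -/
theorem cop_of_rough {n P q : ℕ} (h : ∀ p : ℕ, p.Prime → p ∣ n → P < p) (hq : 1 ≤ q) (hqP : q ≤ P) : Nat.Coprime n q := by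
  refine Nat.Coprime.symm (Nat.coprime_of_dvd fun p hp hpq hpn => ?_)
  have h4 := h p hp hpn
  have h5 := Nat.le_of_dvd (by omega) hpq
  omega

theorem vbM (A c2 : ℕ) : ∃ c2' : ℕ, c2 ≤ c2' ∧ ∃ B c50 : ℕ, ∀ c5 : ℕ, c50 ≤ c5 → ∃ c10 : ℕ, c2' < c10 ∧ ∀ c1 : ℕ, c10 ≤ c1 →
    ∀ cM : ℕ, ∃ c6 : ℕ, 4 * c2' + 20 ≤ c6 ∧ ∃ x0 : ℝ, ∀ X : ℕ, x0 ≤ X → ∀ (P R M H : ℕ) (a : ℕ → ℂ), ParM X P R M c1 cM → Good a P R M →
      (Real.log X) ^ c6 ≤ H → (H : ℝ) ≤ (Real.log X) ^ (c6 + 2) → ∃ H' T : ℕ, H ≤ H' ∧ H' ≤ 2 * H ∧ (T : ℝ) ≤ X / (Real.log X) ^ c5 ∧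
        ∀ α : ℝ, VV (fun n => bm a P R M n - MG (bm a P R M) X ⌊(Real.log X) ^ c2'⌋₊ (fun q => J2 q X ⌊(Real.log X) ^ c5⌋₊ T B) n) H' α (X + H' + 1) ≤
          X * (H' : ℝ) ^ 2 / (Real.log X) ^ A := by
  obtain ⟨g, hgd⟩ : ∃ g, g = c2 + A + 10 := ⟨_, rfl⟩
  obtain ⟨K, hK⟩ : ∃ K, K = 2 * g + A + 8 := ⟨_, rfl⟩
  obtain ⟨B, c50, c0, hmr⟩ := mrM K g
  refine ⟨g, by omega, B, c50, fun c5 hc5 => ?_⟩
  obtain ⟨C1, hC1, hmin⟩ := minG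
  obtain ⟨c7, hc7⟩ : ∃ c7, c7 = c5 + g + (4 * B + 12) + 2 := ⟨_, rfl⟩
  obtain ⟨c4, hc4⟩ : ∃ c4, c4 = c7 + A + 10 := ⟨_, rfl⟩
  obtain ⟨u, hu⟩ : ∃ u, u = 2 * g + c7 + A + 10 := ⟨_, rfl⟩
  obtain ⟨c3, hc3⟩ : ∃ c3, c3 = u + 5 * g + 2 * c7 + A + 20 := ⟨_, rfl⟩
  obtain ⟨s, hs⟩ : ∃ s, s = 2 * g + c7 + 6 := ⟨_, rfl⟩
  obtain ⟨τ, hτ⟩ : ∃ τ, τ = c3 + s + A + 10 := ⟨_, rfl⟩
  refine ⟨max c0 (g + A + 20), lt_of_lt_of_le (by omega) (le_max_right _ _), fun c1 hc1 cM => ?_⟩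
  have hc1a : c0 ≤ c1 := (le_max_left _ _).trans hc1
  have hc1b : g + A + 20 ≤ c1 := (le_max_right _ _).trans hc1
  obtain ⟨w, hw⟩ : ∃ w, w = ((c1 + cM) + c7 + c4 + K + A + 30) + u + 6 * g + 2 * c7 + A + c5 + c4 + K + c1 + 60 := ⟨_, rfl⟩
  obtain ⟨c6, hc6⟩ : ∃ c6, c6 = τ + w + 1 := ⟨_, rfl⟩
  obtain ⟨x1, hcore⟩ := vbG_core hC1 A g c5 K c7 c4 u c3 s τ c1 (c1 + cM) w c6 (by omega) hK hc4 hu hc3 hs hτ hw hc6
  obtain ⟨x2, hmrX⟩ := hmr c1 hc1a cM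
  obtain ⟨x3, hJ⟩ := J2_boundG B g c5
  obtain ⟨x4, hx4, hpar⟩ := parm c1 cM (by omega)
  obtain ⟨x5, hx5, hgr⟩ := grow 2 0
  refine ⟨c6, by omega, max (max x1 x2) (max x3 (max x4 x5)), ?_⟩
  intro X hX P R M H a hP hG hH1 hH2
  simp only [max_le_iff] at hX
  obtain ⟨⟨hX1, hX2⟩, hX3, hX4, hX5⟩ := hX
  obtain ⟨p1, p2, p3, p3', p4, p5, p6, p7⟩ := hpar X P R M hX4 hP
  have hl2 := (hgr X hX5).1
  have hl1 : 1 ≤ Real.log X := by linarith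
  have hX100 : (100 : ℝ) ≤ X := hx4.trans hX4
  have hXn : 100 ≤ X := by exact_mod_cast hX100
  have hPn : 1 ≤ P := by
    by_contra h
    have : P = 0 := by omega
    rw [this] at p7
    omega
  have hqP : ∀ q : ℕ, (q : ℝ) ≤ (Real.log X) ^ g → q ≤ P := by
    intro q hq
    have h1 : (q : ℝ) ≤ P := by
      refine hq.trans (le_trans ?_ p1)
      rw [le_div_iff₀ (by norm_num)]
      calc (Real.log X) ^ g * 2 ≤ (Real.log X) ^ g * Real.log X := by gcongr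
        _ = (Real.log X) ^ (g + 1) := (pow_succ _ _).symm
        _ ≤ (Real.log X) ^ c1 := pow_le_pow_right₀ hl1 (by omega)
    exact_mod_cast h1
  have hc := hcore X hX1 P H (bm a P R M) (fun q T => J2 q X ⌊(Real.log X) ^ c5⌋₊ T B) ?_ p2 (bm_le hG p3) ?_ ?_ ?_ ?_ ?_ hH1 hH2
  · exact hc
  · refine le_trans ?_ p1
    rw [le_div_iff₀ (by norm_num)]
    calc (Real.log X) ^ (A + 10) * 2 ≤ (Real.log X) ^ (A + 10) * Real.log X := by gcongr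
      _ = (Real.log X) ^ (A + 11) := (pow_succ _ _).symm
      _ ≤ (Real.log X) ^ c1 := pow_le_pow_right₀ hl1 (by omega)
  · intro n hn
    obtain ⟨h1, h2, -⟩ := bm_supp hG p3 hn
    constructor
    · omega
    · omega
  · intro n hn q hq hqL
    exact cop_of_rough (bm_supp hG p3 hn).2.2 hq (hqP q hqL)
  · intro q H' a0 α hH' hq hco hα
    refine hmin P (4 * (M * R)) H' q X (bm a P R M) a0 α _ (bm_bil hG p3) ?_ hPn hH' hq hco hα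
    have : P * (4 * (M * R)) = 4 * (P * M * R) := by ring
    omega
  · intro q T hq hqL hT
    have h1 := hJ X hX3 q T hq hqL hT
    rw [← hc7] at h1
    exact h1
  · intro q T δ hq hqL hδ hδ1 hδX hT1 hT2 χ J' hJ'
    exact hmrX X hX2 P R M T δ a hP hG hδ hδ1 hδX hT1 hT2 q χ J' hq hqL fun j hj => J2_out hl1 hc5 (hJ' j hj)

end Pool.Agent.Lib.G3
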